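import Pool.Graph.R_pool_sql_team_seeded_620a6dc7.Helper338PC.KMain

set_option autoImplicit false

open PowerSeries Finset

namespace Pool.Agent.H925

open Pool.Agent.Helper338PC (th coeff_th)

/-- Absolute convergence at the radius `R`. -/
def CSm (R : ℝ) (f : PowerSeries ℂ) : Prop := Summable fun n => ‖coeff n f‖ * R ^ n

/-- The weighted norm of radius `R`. -/
noncomputable def cnrm (R : ℝ) (f : PowerSeries ℂ) : ℝ := ∑' n, ‖coeff n f‖ * R ^ n

/-- The radius of convergence is at least one. -/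
def CConv (f : PowerSeries ℂ) : Prop := ∀ R : ℝ, 0 < R → R < 1 → CSm R f

section Sm

variable {R : ℝ} (hR : 0 < R) {f g : PowerSeries ℂ}
include hR

lemma cnrm_nonneg : 0 ≤ cnrm R f := tsum_nonneg fun n => by positivity

lemma coeff_le_cnrm (hf : CSm R f) (n : ℕ) : ‖coeff n f‖ * R ^ n ≤ cnrm R f :=
  hf.le_tsum n fun m _ => by positivity

lemma CSm.add (hf : CSm R f) (hg : CSm R g) : CSm R (f + g) := by
  refine Summable.of_nonneg_of_le (fun n => by positivity) (fun n => ?_) (Summable.add hf hg)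
  rw [map_add, ← add_mul]
  exact mul_le_mul_of_nonneg_right (norm_add_le _ _) (by positivity)

lemma cnrm_add (hf : CSm R f) (hg : CSm R g) : cnrm R (f + g) ≤ cnrm R f + cnrm R g := by
  unfold cnrm
  rw [← Summable.tsum_add hf hg]
  refine Summable.tsum_le_tsum (fun n => ?_) (CSm.add hR hf hg) (Summable.add hf hg)
  rw [map_add, ← add_mul]
  exact mul_le_mul_of_nonneg_right (norm_add_le _ _) (by positivity)

omit hR in
lemma CSm.neg (hf : CSm R f) : CSm R (-f) := by
  unfold CSm
  simpa [CSm] using hf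

lemma CSm.sub (hf : CSm R f) (hg : CSm R g) : CSm R (f - g) := by
  rw [sub_eq_add_neg]
  exact CSm.add hR hf hg.neg

omit hR in
lemma CSm.C (c : ℂ) : CSm R (PowerSeries.C c) := by
  refine summable_of_ne_finset_zero (s := {0}) fun n hn => ?_
  rw [PowerSeries.coeff_C, if_neg (by simpa using hn)]
  simp

omit hR in
lemma cnrm_C (c : ℂ) : cnrm R (PowerSeries.C c) = ‖c‖ := by
  unfold cnrm
  rw [tsum_eq_single 0]
  · simp
  · intro n hn
    rw [PowerSeries.coeff_C, if_neg hn]
    simp

omit hR in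
lemma CSm.X : CSm R (PowerSeries.X) := by
  refine summable_of_ne_finset_zero (s := {1}) fun n hn => ?_
  rw [PowerSeries.coeff_X, if_neg (by simpa using hn)]
  simp

lemma cmul_bound (n : ℕ) : ‖coeff n (f * g)‖ * R ^ n ≤
    ∑ kl ∈ antidiagonal n, (‖coeff kl.1 f‖ * R ^ kl.1) * (‖coeff kl.2 g‖ * R ^ kl.2) := by
  rw [PowerSeries.coeff_mul]
  calc ‖∑ p ∈ antidiagonal n, coeff p.1 f * coeff p.2 g‖ * R ^ n
      ≤ (∑ p ∈ antidiagonal n, ‖coeff p.1 f * coeff p.2 g‖) * R ^ n :=
        mul_le_mul_of_nonneg_right (norm_sum_le _ _) (by positivity)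
    _ = _ := by
        rw [Finset.sum_mul]
        refine Finset.sum_congr rfl fun p hp => ?_
        rw [Finset.HasAntidiagonal.mem_antidiagonal] at hp
        rw [norm_mul, ← hp, pow_add]
        ring

lemma CSm.mul (hf : CSm R f) (hg : CSm R g) : CSm R (f * g) := by
  have h := summable_sum_mul_antidiagonal_of_summable_mul
    (f := fun n => ‖coeff n f‖ * R ^ n) (g := fun n => ‖coeff n g‖ * R ^ n)
    (Summable.mul_of_nonneg hf hg (fun n => by positivity) (fun n => by positivity))
  exact Summable.of_nonneg_of_le (fun n => by positivity) (fun n => cmul_bound hR n) h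

lemma cnrm_mul (hf : CSm R f) (hg : CSm R g) : cnrm R (f * g) ≤ cnrm R f * cnrm R g := by
  have hs := Summable.mul_of_nonneg hf hg (fun n => by positivity) (fun n => by positivity)
  have h := summable_sum_mul_antidiagonal_of_summable_mul
    (f := fun n => ‖coeff n f‖ * R ^ n) (g := fun n => ‖coeff n g‖ * R ^ n) hs
  unfold cnrm
  rw [Summable.tsum_mul_tsum_eq_tsum_sum_antidiagonal hf hg hs]
  exact Summable.tsum_le_tsum (fun n => cmul_bound hR n) (CSm.mul hR hf hg) h

lemma CSm.pow (hf : CSm R f) (n : ℕ) : CSm R (f ^ n) := by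
  induction n with
  | zero => simpa using CSm.C (R := R) 1
  | succ n ih => rw [pow_succ]; exact CSm.mul hR ih hf

lemma cnrm_pow (hf : CSm R f) (n : ℕ) : cnrm R (f ^ n) ≤ cnrm R f ^ n := by
  induction n with
  | zero =>
    have := cnrm_C (R := R) 1
    rw [map_one, norm_one] at this
    rw [pow_zero, pow_zero, this]
  | succ n ih =>
    rw [pow_succ, pow_succ]
    exact (cnrm_mul hR (CSm.pow hR hf n) hf).trans
      (mul_le_mul_of_nonneg_right ih (cnrm_nonneg hR))

lemma CSm.sum {ι : Type*} (s : Finset ι) {F : ι → PowerSeries ℂ} (h : ∀ i ∈ s, CSm R (F i)) :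
    CSm R (∑ i ∈ s, F i) := by
  classical
  induction s using Finset.induction_on with
  | empty => simpa using CSm.C (R := R) 0
  | insert a s ha ih =>
    rw [Finset.sum_insert ha]
    exact CSm.add hR (h a (mem_insert_self a s)) (ih fun i hi => h i (mem_insert_of_mem hi))

lemma cnrm_sum {ι : Type*} (s : Finset ι) {F : ι → PowerSeries ℂ} (h : ∀ i ∈ s, CSm R (F i)) :
    cnrm R (∑ i ∈ s, F i) ≤ ∑ i ∈ s, cnrm R (F i) := by
  classical
  induction s using Finset.induction_on with
  | empty =>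
    have := cnrm_C (R := R) 0
    simpa using this.le
  | insert a s ha ih =>
    rw [Finset.sum_insert ha, Finset.sum_insert ha]
    exact (cnrm_add hR (h a (mem_insert_self a s))
      (CSm.sum hR s fun i hi => h i (mem_insert_of_mem hi))).trans
      (add_le_add le_rfl (ih fun i hi => h i (mem_insert_of_mem hi)))

end Sm

section Conv

variable {f g : PowerSeries ℂ}

lemma CConv.add (hf : CConv f) (hg : CConv g) : CConv (f + g) :=
  fun R h0 h1 => CSm.add h0 (hf R h0 h1) (hg R h0 h1)

lemma CConv.neg (hf : CConv f) : CConv (-f) := fun R h0 h1 => (hf R h0 h1).neg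

lemma CConv.sub (hf : CConv f) (hg : CConv g) : CConv (f - g) :=
  fun R h0 h1 => CSm.sub h0 (hf R h0 h1) (hg R h0 h1)

lemma CConv.mul (hf : CConv f) (hg : CConv g) : CConv (f * g) :=
  fun R h0 h1 => CSm.mul h0 (hf R h0 h1) (hg R h0 h1)

lemma CConv.pow (hf : CConv f) (n : ℕ) : CConv (f ^ n) :=
  fun R h0 h1 => CSm.pow h0 (hf R h0 h1) n

lemma CConv.sum {ι : Type*} (s : Finset ι) {F : ι → PowerSeries ℂ} (h : ∀ i ∈ s, CConv (F i)) :
    CConv (∑ i ∈ s, F i) :=
  fun R h0 h1 => CSm.sum h0 s fun i hi => h i hi R h0 h1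

lemma CConv.C (c : ℂ) : CConv (PowerSeries.C c) := fun _ _ _ => CSm.C c

lemma CConv.zero : CConv 0 := by simpa using CConv.C 0

lemma CConv.one : CConv 1 := by simpa using CConv.C 1

lemma CConv.X : CConv PowerSeries.X := fun _ _ _ => CSm.X

lemma CConv.natCast (n : ℕ) : CConv (n : PowerSeries ℂ) := by
  have : (n : PowerSeries ℂ) = PowerSeries.C (n : ℂ) := (map_natCast _ n).symm
  rw [this]; exact CConv.C _

lemma CConv.ofNat (n : ℕ) [n.AtLeastTwo] : CConv (ofNat(n) : PowerSeries ℂ) := by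
  have : (ofNat(n) : PowerSeries ℂ) = PowerSeries.C (ofNat(n) : ℂ) := (map_ofNat _ n).symm
  rw [this]; exact CConv.C _

/-- Real series. -/
lemma CConv.of_real {f : PowerSeries ℝ} (hf : Helper338PC.Conv f) :
    CConv (PowerSeries.map (algebraMap ℝ ℂ) f) := by
  intro R h0 h1
  have h := hf R h0 h1
  unfold CSm
  unfold Helper338PC.Sm at h
  refine h.congr fun n => ?_
  rw [PowerSeries.coeff_map]
  simp

/-- Boundedness at every radius below one is enough. -/
lemma cconv_of_bdd (h : ∀ R : ℝ, 0 < R → R < 1 → ∃ K : ℝ, ∀ n, ‖coeff n f‖ * R ^ n ≤ K) :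
    CConv f := by
  intro R h0 h1
  obtain ⟨R', hR', hR'1⟩ := exists_between h1
  have h0' : 0 < R' := h0.trans hR'
  obtain ⟨K, hK⟩ := h R' h0' hR'1
  have hgeo : Summable fun n : ℕ => K * (R / R') ^ n :=
    (summable_geometric_of_lt_one (by positivity) ((div_lt_one h0').mpr hR')).mul_left K
  refine Summable.of_nonneg_of_le (fun n => by positivity) (fun n => ?_) hgeo
  calc ‖coeff n f‖ * R ^ n = (‖coeff n f‖ * R' ^ n) * (R / R') ^ n := by
        rw [div_pow]
        field_simp
    _ ≤ K * (R / R') ^ n := mul_le_mul_of_nonneg_right (hK n) (by positivity)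

lemma CConv.bdd (hf : CConv f) {R : ℝ} (h0 : 0 < R) (h1 : R < 1) :
    ∃ K : ℝ, ∀ n, ‖coeff n f‖ * R ^ n ≤ K := ⟨cnrm R f, coeff_le_cnrm h0 (hf R h0 h1)⟩

/-- Division by the variable. -/
lemma cconv_of_X_mul (h : CConv (PowerSeries.X * f)) : CConv f := by
  refine cconv_of_bdd fun R h0 h1 => ?_
  obtain ⟨K, hK⟩ := h.bdd h0 h1
  refine ⟨K / R, fun n => ?_⟩
  have := hK (n + 1)
  rw [PowerSeries.coeff_succ_X_mul, pow_succ, ← mul_assoc] at this
  rwa [le_div_iff₀ h0]

lemma cconv_of_X_pow_mul {m : ℕ} (h : CConv (PowerSeries.X ^ m * f)) : CConv f := by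
  induction m with
  | zero => simpa using h
  | succ m ih =>
    refine ih (cconv_of_X_mul ?_)
    rwa [← mul_assoc, ← pow_succ']

lemma CConv.th (hf : CConv f) : CConv (th f) := by
  refine cconv_of_bdd fun R h0 h1 => ?_
  obtain ⟨R', hR', hR'1⟩ := exists_between h1
  have h0' : 0 < R' := h0.trans hR'
  obtain ⟨K, hK⟩ := hf.bdd h0' hR'1
  have hK0 : 0 ≤ K := le_trans (by positivity) (hK 0)
  have hlt : R / R' < 1 := (div_lt_one h0').mpr hR'
  have hgeo := summable_pow_mul_geometric_of_norm_lt_one 1 (r := R / R') (by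
    rw [Real.norm_eq_abs, abs_of_nonneg (by positivity)]; exact hlt)
  refine ⟨K * ∑' n : ℕ, ((n : ℝ) ^ 1 * (R / R') ^ n), fun n => ?_⟩
  rw [coeff_th, norm_mul, Complex.norm_natCast]
  calc (n : ℝ) * ‖coeff n f‖ * R ^ n
      = (‖coeff n f‖ * R' ^ n) * ((n : ℝ) ^ 1 * (R / R') ^ n) := by
        rw [div_pow]
        field_simp
    _ ≤ K * ((n : ℝ) ^ 1 * (R / R') ^ n) := mul_le_mul_of_nonneg_right (hK n) (by positivity)
    _ ≤ _ := mul_le_mul_of_nonneg_left (hgeo.le_tsum n fun m _ => by positivity) hK0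

/-- Power series solutions of a linear system with at most a simple pole at the origin converge
where the coefficients do. -/
theorem cconv_of_system {ι : Type*} [Fintype ι] {M : ι → ι → PowerSeries ℂ}
    {Z : ι → PowerSeries ℂ} (hM : ∀ i j, CConv (M i j))
    (h : ∀ i, Helper338PC.th (Z i) = ∑ j, M i j * Z j) (i : ι) : CConv (Z i) := by
  refine cconv_of_bdd fun R h0 h1 => ?_
  set a : ℕ → ℝ := fun n => ∑ i, ∑ j, ‖coeff n (M i j)‖ * R ^ n with ha
  set z : ℕ → ℝ := fun n => ∑ i, ‖coeff n (Z i)‖ * R ^ n with hz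
  have ha0 : ∀ n, 0 ≤ a n := fun n => Finset.sum_nonneg fun i _ => Finset.sum_nonneg fun j _ => by
    positivity
  have hz0 : ∀ n, 0 ≤ z n := fun n => Finset.sum_nonneg fun i _ => by positivity
  have has : Summable a := summable_sum fun i _ => summable_sum fun j _ => hM i j R h0 h1
  obtain ⟨K, hK⟩ := Helper338PC.seq_bdd ha0 hz0 has (fun n => by
    have h2 : (n : ℝ) * z n = ∑ i, ‖coeff n (Helper338PC.th (Z i))‖ * R ^ n := by
      rw [hz, Finset.mul_sum]
      refine Finset.sum_congr rfl fun i _ => ?_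
      rw [coeff_th, norm_mul, Complex.norm_natCast]
      ring
    rw [h2]
    calc ∑ i, ‖coeff n (Helper338PC.th (Z i))‖ * R ^ n
        ≤ ∑ i, ∑ j, ‖coeff n (M i j * Z j)‖ * R ^ n := by
          refine Finset.sum_le_sum fun i _ => ?_
          rw [h i, map_sum, ← Finset.sum_mul]
          exact mul_le_mul_of_nonneg_right (norm_sum_le _ _) (by positivity)
      _ ≤ ∑ i, ∑ j, ∑ kl ∈ antidiagonal n,
            (‖coeff kl.1 (M i j)‖ * R ^ kl.1) * (‖coeff kl.2 (Z j)‖ * R ^ kl.2) :=
          Finset.sum_le_sum fun i _ => Finset.sum_le_sum fun j _ => cmul_bound h0 n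
      _ ≤ ∑ i, ∑ j, ∑ kl ∈ antidiagonal n, (‖coeff kl.1 (M i j)‖ * R ^ kl.1) * z kl.2 := by
          refine Finset.sum_le_sum fun i _ => Finset.sum_le_sum fun j _ =>
            Finset.sum_le_sum fun kl _ => ?_
          refine mul_le_mul_of_nonneg_left ?_ (by positivity)
          exact Finset.single_le_sum (f := fun j => ‖coeff kl.2 (Z j)‖ * R ^ kl.2)
            (fun l _ => by positivity) (mem_univ j)
      _ = ∑ kl ∈ antidiagonal n, a kl.1 * z kl.2 := by
          rw [ha]
          simp only [Finset.sum_mul]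
          rw [Finset.sum_comm (s := antidiagonal n)]
          refine Finset.sum_congr rfl fun i _ => ?_
          rw [Finset.sum_comm (s := antidiagonal n)])
  refine ⟨K, fun n => ?_⟩
  exact (Finset.single_le_sum (f := fun i => ‖coeff n (Z i)‖ * R ^ n)
    (fun l _ => by positivity) (mem_univ i)).trans (hK n)

/-- A convergent first order equation. -/
lemma cconv_of_first_order {m z : PowerSeries ℂ} (hm : CConv m) (h : Helper338PC.th z = m * z) :
    CConv z :=
  cconv_of_system (ι := Unit) (M := fun _ _ => m) (Z := fun _ => z) (fun _ _ => hm)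
    (fun _ => by simpa using h) ()

end Conv

section units

/-- `f` and `1 / f` are power series of radius of convergence at least one. -/
structure CUU (f : PowerSeries ℂ) : Prop where
  conv : CConv f
  conv_inv : CConv f⁻¹
  ne : constantCoeff f ≠ 0

lemma CUU.of_mul {f g : PowerSeries ℂ} (hf : CConv f) (hg : CConv g) (h : f * g = 1) : CUU f := by
  have h0 : constantCoeff f * constantCoeff g = 1 := by rw [← map_mul, h, map_one]
  have hne : constantCoeff f ≠ 0 := left_ne_zero_of_mul_eq_one h0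
  have hi : f⁻¹ = g := by
    rw [PowerSeries.inv_eq_iff_mul_eq_one hne, mul_comm]
    exact h
  exact ⟨hf, hi ▸ hg, hne⟩

lemma CUU.mul_inv {f : PowerSeries ℂ} (h : CUU f) : f * f⁻¹ = 1 := PowerSeries.mul_inv_cancel f h.ne

lemma CUU.mul {f g : PowerSeries ℂ} (hf : CUU f) (hg : CUU g) : CUU (f * g) := by
  refine CUU.of_mul (hf.conv.mul hg.conv) (hf.conv_inv.mul hg.conv_inv) ?_
  calc f * g * (f⁻¹ * g⁻¹) = (f * f⁻¹) * (g * g⁻¹) := by ring
    _ = 1 := by rw [hf.mul_inv, hg.mul_inv, one_mul]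

lemma CUU.one : CUU 1 := CUU.of_mul CConv.one CConv.one (one_mul 1)

lemma CUU.pow {f : PowerSeries ℂ} (hf : CUU f) (n : ℕ) : CUU (f ^ n) := by
  induction n with
  | zero => simpa using CUU.one
  | succ n ih => rw [pow_succ]; exact ih.mul hf

lemma CUU.inv {f : PowerSeries ℂ} (hf : CUU f) : CUU f⁻¹ :=
  CUU.of_mul hf.conv_inv hf.conv (by rw [mul_comm]; exact hf.mul_inv)

lemma CUU.C {c : ℂ} (hc : c ≠ 0) : CUU (PowerSeries.C c) :=
  CUU.of_mul (CConv.C c) (CConv.C c⁻¹) (by rw [← map_mul, mul_inv_cancel₀ hc, map_one])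

lemma CUU.neg {f : PowerSeries ℂ} (hf : CUU f) : CUU (-f) := by
  have h := (CUU.C (c := -1) (by norm_num)).mul hf
  have e : PowerSeries.C (-1 : ℂ) * f = -f := by rw [map_neg, map_one, neg_one_mul]
  rwa [e] at h

/-- Both factors of a unit of the class are units, as soon as they converge. -/
lemma CUU.of_mul_left {f g : PowerSeries ℂ} (hf : CConv f) (hg : CConv g) (h : CUU (f * g)) :
    CUU f := by
  refine CUU.of_mul hf (hg.mul h.conv_inv) ?_
  rw [← mul_assoc]
  exact h.mul_inv

lemma CUU.of_real {f : PowerSeries ℝ} (hf : Helper338PC.UU f) :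
    CUU (PowerSeries.map (algebraMap ℝ ℂ) f) := by
  refine CUU.of_mul (CConv.of_real hf.conv) (CConv.of_real hf.conv_inv) ?_
  rw [← map_mul, hf.mul_inv, map_one]

end units

end Pool.Agent.H925
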