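import Pool.Agent.H925.OrbConv

set_option autoImplicit false

open PowerSeries Finset

namespace Pool.Agent.H925

open Pool.Agent.Helper338PC (th coeff_th th_mul' th_add' th_sum' th_C th_one wg Aps IsSolG
  Aps_apply X_sub_one_mul_wg)

section formal

/-- Chain rule for the Euler derivation. -/
lemma th_substC {f Φ a : PowerSeries ℂ} (h0 : constantCoeff Φ = 0)
    (ha : th Φ = a * Φ) : th (f.subst Φ) = a * (th f).subst Φ := by
  have hs : HasSubst Φ := HasSubst.of_constantCoeff_zero' h0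
  have h1 : (th f).subst Φ = Φ * (derivative ℂ f).subst Φ := by
    unfold th
    rw [subst_mul hs, subst_X hs]
  have h2 : th (f.subst Φ) = (derivative ℂ f).subst Φ * th Φ := by
    unfold th
    rw [derivative_subst hs]
    ring
  rw [h1, h2, ha]
  ring

lemma subst_sumC {ι : Type*} {Φ : PowerSeries ℂ} (hs : HasSubst Φ) (s : Finset ι)
    (f : ι → PowerSeries ℂ) : (∑ i ∈ s, f i).subst Φ = ∑ i ∈ s, (f i).subst Φ := by
  rw [← coe_substAlgHom hs, map_sum]

lemma subst_CC {Φ : PowerSeries ℂ} (c : ℂ) :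
    (PowerSeries.C c : PowerSeries ℂ).subst Φ = PowerSeries.C c := subst_C (a := Φ) c

lemma subst_wgC {Φ : PowerSeries ℂ} (hs : HasSubst Φ) :
    (Φ - 1) * (wg ℂ).subst Φ = 1 := by
  have h : ((PowerSeries.X - 1) * wg ℂ).subst Φ = (1 : PowerSeries ℂ).subst Φ := by
    rw [X_sub_one_mul_wg]
  have h1 : (1 : PowerSeries ℂ).subst Φ = 1 := by rw [← coe_substAlgHom hs, map_one]
  rw [subst_mul hs, subst_sub hs, subst_X hs, h1] at h
  exact h

/-- Roots of power series. -/
lemma exists_root {u : PowerSeries ℂ} (hu : constantCoeff u ≠ 0) {N : ℕ} (hN : 0 < N) :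
    ∃ g : PowerSeries ℂ, g ^ N = u := by
  set c := constantCoeff u with hc
  set v : PowerSeries ℂ := PowerSeries.C c⁻¹ * u - 1 with hv
  have hv0 : constantCoeff v = 0 := by
    rw [hv, map_sub, map_mul, PowerSeries.constantCoeff_C, ← hc, inv_mul_cancel₀ hu, map_one,
      sub_self]
  have hs : HasSubst v := HasSubst.of_constantCoeff_zero' hv0
  set b : PowerSeries ℂ := (PowerSeries.binomialSeries ℂ (1 / N : ℚ)).subst v with hb
  have hpow : ∀ k : ℕ, (PowerSeries.binomialSeries ℂ (1 / N : ℚ)) ^ k =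
      PowerSeries.binomialSeries ℂ (k * (1 / N) : ℚ) := by
    intro k
    induction k with
    | zero =>
      rw [pow_zero, Nat.cast_zero, zero_mul]
      have := PowerSeries.binomialSeries_nat (R := ℚ) (A := ℂ) 0
      simpa using this.symm
    | succ k ih =>
      rw [pow_succ, ih, ← PowerSeries.binomialSeries_add]
      congr 1
      push_cast
      ring
  have hbN : b ^ N = 1 + v := by
    rw [hb, ← subst_pow hs, hpow]
    have h0 : ((N : ℚ) * (1 / N)) = 1 := by
      field_simp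
    rw [h0]
    have h1 : PowerSeries.binomialSeries ℂ (1 : ℚ) = 1 + PowerSeries.X := by
      have := PowerSeries.binomialSeries_nat (R := ℚ) (A := ℂ) 1
      simpa using this
    rw [h1, subst_add hs, subst_X hs]
    congr 1
    rw [← coe_substAlgHom hs, map_one]
  obtain ⟨r, hr⟩ := IsAlgClosed.exists_pow_nat_eq c hN
  refine ⟨PowerSeries.C r * b, ?_⟩
  rw [mul_pow, ← map_pow, hr, hbN, hv, add_sub_cancel, ← mul_assoc, ← map_mul,
    mul_inv_cancel₀ hu, map_one, one_mul]

end formal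

section data

/-- Uniformization data at a cusp: `Φ = X ^ m ρ / v ^ n₂` is a meromorphic function on the unit disc
whose only zero is the origin, `Φ = 1` exactly at the zeros of `s`, to an order divisible by `n₁`,
and its poles are at the zeros of `v`, of order divisible by `n₂`; the first coefficient of `Φ` has
absolute value at least `R`. -/
def CuspRadius (n₁ n₂ : ℕ) (R : ℝ) : Prop :=
  ∃ (m : ℕ) (κ : ℂ) (v s ρ : PowerSeries ℂ), 0 < m ∧ CConv v ∧ CConv s ∧ CUU ρ ∧
    constantCoeff v = 1 ∧ constantCoeff s ≠ 0 ∧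
    v ^ n₂ = PowerSeries.X ^ m * ρ + PowerSeries.C κ * s ^ n₁ ∧ R ≤ ‖constantCoeff ρ‖

end data

section cusp

variable {idx : Type*} [Fintype idx] [DecidableEq idx]

/-- The pull-back of the solutions of a Fuchsian system on the triangle orbifold to the disc. -/
theorem cusp_conv {n₁ n₂ : ℕ} (hn₁ : 0 < n₁) (hn₂ : 0 < n₂) {m : ℕ} (hm : 0 < m) {κ : ℂ}
    {v s ρ : PowerSeries ℂ} (hv : CConv v) (hs : CConv s) (hρ : CUU ρ)
    (hv1 : constantCoeff v = 1) (hs1 : constantCoeff s ≠ 0)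
    (hrel : v ^ n₂ = PowerSeries.X ^ m * ρ + PowerSeries.C κ * s ^ n₁)
    {A : Matrix idx idx (PowerSeries ℂ)} {A₀ A₁ c e : Matrix idx idx ℂ}
    (hA : ∀ j l, A j l = wg ℂ * (PowerSeries.C (A₀ j l) + PowerSeries.C (A₁ j l) * PowerSeries.X))
    (hc : c = A₀ + A₁) (he : e = -A₁)
    {P : Fin n₁ → Matrix idx idx ℂ} {E : Fin n₂ → Matrix idx idx ℂ}
    (hP : Spec n₁ c P) (hE : Spec n₂ e E) {β : ℚ} {h : idx → PowerSeries ℂ}
    (hsol : IsSolG A (β : ℂ) h) {Φ : PowerSeries ℂ}
    (hΦ : Φ = PowerSeries.X ^ m * (ρ * (v ^ n₂)⁻¹)) (j : idx) :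
    CConv ((v ^ n₂) ^ (β.num.natAbs + 1) * ((h j).subst Φ) ^ β.den) := by
  classical
  set τ : PowerSeries ℂ := PowerSeries.X ^ m * ρ with hτ
  have hX0 : (PowerSeries.X : PowerSeries ℂ) ≠ 0 := PowerSeries.X_ne_zero
  have hρ0 : ρ ≠ 0 := by
    rintro rfl
    exact hρ.ne (map_zero _)
  have hτ0 : τ ≠ 0 := mul_ne_zero (pow_ne_zero _ hX0) hρ0
  have hv0 : v ≠ 0 := by
    rintro rfl
    rw [map_zero] at hv1
    exact zero_ne_one hv1
  have hs0 : s ≠ 0 := by
    rintro rfl
    exact hs1 (map_zero _)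
  have hvc : constantCoeff v ≠ 0 := by rw [hv1]; exact one_ne_zero
  set iv := v⁻¹ with hiv
  have hviv : v * iv = 1 := PowerSeries.mul_inv_cancel v hvc
  set is := s⁻¹ with his
  have hsis : s * is = 1 := PowerSeries.mul_inv_cancel s hs1
  set iw := (wg ℂ).subst Φ with hiw
  have h0 : constantCoeff Φ = 0 := by
    rw [hΦ, map_mul, map_pow, constantCoeff_X, zero_pow hm.ne', zero_mul]
  have hsub : HasSubst Φ := HasSubst.of_constantCoeff_zero' h0
  -- `Φ`
  have hvn : constantCoeff (v ^ n₂) ≠ 0 := by rw [map_pow, hv1, one_pow]; exact one_ne_zero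
  have hvΦ : v ^ n₂ * Φ = τ := by
    rw [hΦ, hτ]
    have := PowerSeries.mul_inv_cancel (v ^ n₂) hvn
    linear_combination (PowerSeries.X ^ m * ρ) * this
  have hv1Φ : v ^ n₂ * (1 - Φ) = PowerSeries.C κ * s ^ n₁ := by
    rw [mul_sub, hvΦ, hrel, mul_one]
    ring
  -- logarithmic derivatives
  set a : PowerSeries ℂ := (m : PowerSeries ℂ) + th ρ * ρ⁻¹ with ha
  have haC : CConv a := (CConv.natCast m).add (hρ.conv.th.mul hρ.conv_inv)
  have hthX : ∀ k : ℕ, th (PowerSeries.X ^ k : PowerSeries ℂ) =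
      (k : PowerSeries ℂ) * PowerSeries.X ^ k := by
    intro k
    apply mul_left_cancel₀ hX0
    rw [th_pow']
    have : th (PowerSeries.X : PowerSeries ℂ) = PowerSeries.X := by
      unfold Helper338PC.th
      rw [PowerSeries.derivative_X, mul_one]
    rw [this]
    ring
  have hthτ : th τ = a * τ := by
    rw [hτ, th_mul', hthX, ha]
    have := hρ.mul_inv
    linear_combination (-(PowerSeries.X ^ m * th ρ)) * this
  have hthpow : ∀ (f g : PowerSeries ℂ) (k : ℕ), f ≠ 0 → f * g = 1 →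
      th (f ^ k) = (k : PowerSeries ℂ) * f ^ k * (th f * g) := by
    intro f g k hf hfg
    apply mul_left_cancel₀ hf
    rw [th_pow']
    linear_combination (-((k : PowerSeries ℂ) * f ^ k * th f)) * hfg
  set aΦ : PowerSeries ℂ := a - (n₂ : PowerSeries ℂ) * (th v * iv) with haΦ
  have hvn0 : v ^ n₂ ≠ 0 := pow_ne_zero _ hv0
  have hthΦ : th Φ = aΦ * Φ := by
    apply mul_left_cancel₀ hvn0
    have e1 := congrArg th hvΦ
    rw [th_mul', hthpow v iv n₂ hv0 hviv, hthτ, ← hvΦ] at e1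
    rw [haΦ]
    linear_combination e1
  have hkey : aΦ * Φ = -((n₁ : PowerSeries ℂ) * (th s * is) -
      (n₂ : PowerSeries ℂ) * (th v * iv)) * (1 - Φ) := by
    apply mul_left_cancel₀ hvn0
    have e1 := congrArg th hv1Φ
    rw [th_mul', hthpow v iv n₂ hv0 hviv, th_smulC, hthpow s is n₁ hs0 hsis] at e1
    have e2 : th (1 - Φ) = -(aΦ * Φ) := by
      rw [← hthΦ]
      have : th (1 - Φ) + th Φ = th (1 : PowerSeries ℂ) := by
        rw [← th_add']
        congr 1
        ring
      rw [th_one] at this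
      linear_combination this
    rw [e2] at e1
    have e3 : PowerSeries.C κ * ((n₁ : PowerSeries ℂ) * s ^ n₁ * (th s * is)) =
        v ^ n₂ * (1 - Φ) * ((n₁ : PowerSeries ℂ) * (th s * is)) := by
      rw [hv1Φ]
      ring
    rw [e3] at e1
    linear_combination -e1
  -- the root
  set T : PowerSeries ℂ := ρ * (v ^ n₂)⁻¹ with hT
  set T' : PowerSeries ℂ := v ^ n₂ * ρ⁻¹ with hT'
  have hTT' : T * T' = 1 := by
    rw [hT, hT']
    have e1 := PowerSeries.mul_inv_cancel (v ^ n₂) hvn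
    have e2 := hρ.mul_inv
    linear_combination (v ^ n₂ * (v ^ n₂)⁻¹) * e2 + e1
  have hΦT : Φ = PowerSeries.X ^ m * T := by rw [hΦ, hT]
  have hT0 : T ≠ 0 := left_ne_zero_of_mul_eq_one hTT'
  have hT'0 : T' ≠ 0 := right_ne_zero_of_mul_eq_one hTT'
  have hthT : th T = (aΦ - (m : PowerSeries ℂ)) * T := by
    have hXm : (PowerSeries.X ^ m : PowerSeries ℂ) ≠ 0 := pow_ne_zero _ hX0
    apply mul_left_cancel₀ hXm
    have e1 := hthΦ
    rw [hΦT, th_mul', hthX] at e1
    linear_combination e1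
  have hthT' : th T' = -(aΦ - (m : PowerSeries ℂ)) * T' := by
    apply mul_left_cancel₀ hT0
    have e1 := congrArg th hTT'
    rw [th_mul', hthT, th_one] at e1
    linear_combination e1
  set N := β.den with hN
  have hN0 : 0 < N := β.den_pos
  set k := β.num.natAbs with hk
  -- `g ^ N = T ^ num`
  obtain ⟨g, hg⟩ : ∃ g : PowerSeries ℂ, g ^ N = (if 0 ≤ β.num then T else T') ^ k := by
    refine exists_root ?_ hN0
    rw [map_pow]
    refine pow_ne_zero _ ?_
    have e1 := congrArg constantCoeff hTT'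
    rw [map_mul, map_one] at e1
    split_ifs
    · exact left_ne_zero_of_mul_eq_one e1
    · exact right_ne_zero_of_mul_eq_one e1
  have hβ : (N : ℂ) * (β : ℂ) = ((β.num : ℤ) : ℂ) := by
    have := Rat.mul_den_eq_num β
    have h2 : ((β * (β.den : ℚ) : ℚ) : ℂ) = ((β.num : ℚ) : ℂ) := by rw [this]
    rw [Rat.cast_mul, Rat.cast_natCast, Rat.cast_intCast] at h2
    rw [hN, mul_comm]
    exact h2
  have hg0 : g ≠ 0 := by
    rintro rfl
    rw [zero_pow hN0.ne'] at hg
    have : (if 0 ≤ β.num then T else T') ^ k ≠ 0 := by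
      refine pow_ne_zero _ ?_
      split_ifs
      · exact hT0
      · exact hT'0
    exact this hg.symm
  have hCnat : ∀ n : ℕ, (n : PowerSeries ℂ) = PowerSeries.C (n : ℂ) := fun n => (map_natCast _ n).symm
  have hthg : th g = PowerSeries.C (β : ℂ) * (aΦ - (m : PowerSeries ℂ)) * g := by
    have e1 : g * th (g ^ N) = (N : PowerSeries ℂ) * g ^ N * th g := th_pow' g N
    have hgN : g ^ N ≠ 0 := pow_ne_zero _ hg0
    have hNN : (N : PowerSeries ℂ) ≠ 0 := by
      rw [hCnat]
      intro h1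
      have h2 := congrArg constantCoeff h1
      rw [PowerSeries.constantCoeff_C, map_zero] at h2
      exact hN0.ne' (by exact_mod_cast h2)
    have e2 : th (g ^ N) = (N : PowerSeries ℂ) * (PowerSeries.C (β : ℂ) *
        (aΦ - (m : PowerSeries ℂ))) * g ^ N := by
      rw [hg]
      have e3 : (N : PowerSeries ℂ) * PowerSeries.C (β : ℂ) = PowerSeries.C ((β.num : ℤ) : ℂ) := by
        rw [hCnat, ← map_mul, hβ]
      rw [← mul_assoc, e3]
      split_ifs with hsgn
      · apply mul_left_cancel₀ hT0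
        rw [th_pow', hthT]
        have e4 : ((k : ℕ) : PowerSeries ℂ) = PowerSeries.C ((β.num : ℤ) : ℂ) := by
          rw [hCnat, hk]
          congr 1
          have h5 : ((β.num.natAbs : ℤ)) = β.num := Int.natAbs_of_nonneg hsgn
          have h6 : (((β.num.natAbs : ℤ)) : ℂ) = ((β.num : ℤ) : ℂ) := by rw [h5]
          rwa [Int.cast_natCast] at h6
        rw [e4]
        ring
      · apply mul_left_cancel₀ hT'0
        rw [th_pow', hthT']
        have e4 : ((k : ℕ) : PowerSeries ℂ) = -PowerSeries.C ((β.num : ℤ) : ℂ) := by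
          rw [hCnat, hk, ← map_neg]
          congr 1
          push Not at hsgn
          have h5 : ((β.num.natAbs : ℤ)) = -β.num := Int.ofNat_natAbs_of_nonpos hsgn.le
          have h6 : (((β.num.natAbs : ℤ)) : ℂ) = ((-β.num : ℤ) : ℂ) := by rw [h5]
          rwa [Int.cast_natCast, Int.cast_neg] at h6
        rw [e4]
        ring
    rw [e2] at e1
    have hmul : (N : PowerSeries ℂ) * g ^ N ≠ 0 := mul_ne_zero hNN hgN
    apply mul_left_cancel₀ hmul
    linear_combination -e1
  -- the pulled back solution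
  set F : idx → PowerSeries ℂ := fun l => g * (h l).subst Φ with hF
  have hFth : ∀ i, s * v * th (F i) = (n₁ : PowerSeries ℂ) * v * th s * app c F i +
      (n₂ : PowerSeries ℂ) * s * th v * app e F i - a * s * v * (app c F i + app e F i) -
        PowerSeries.C ((m : ℂ) * (β : ℂ)) * s * v * F i := by
    intro i
    have e1 : th ((h i).subst Φ) = aΦ * ((∑ l, (A i l).subst Φ * (h l).subst Φ) -
        PowerSeries.C (β : ℂ) * (h i).subst Φ) := by
      rw [th_substC h0 hthΦ, hsol i, subst_sub hsub, subst_mul hsub, subst_CC, subst_sumC hsub]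
      congr 2
      exact Finset.sum_congr rfl fun l _ => subst_mul hsub _ _
    have e2 : ∀ l, (A i l).subst Φ = iw * (PowerSeries.C (A₀ i l) + PowerSeries.C (A₁ i l) * Φ) := by
      intro l
      rw [hA, subst_mul hsub, subst_add hsub, subst_mul hsub, subst_CC, subst_CC, subst_X hsub]
    have e3 := subst_wgC hsub
    rw [← hiw] at e3
    have hcl : ∀ l, PowerSeries.C (c i l) = PowerSeries.C (A₀ i l) + PowerSeries.C (A₁ i l) := by
      intro l; rw [hc, Matrix.add_apply, map_add]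
    have hel : ∀ l, PowerSeries.C (e i l) = -PowerSeries.C (A₁ i l) := by
      intro l; rw [he, Matrix.neg_apply, map_neg]
    -- the coefficients
    have e4 : ∀ l, aΦ * (A i l).subst Φ =
        PowerSeries.C (c i l) * ((n₁ : PowerSeries ℂ) * (th s * is) - a) +
        PowerSeries.C (e i l) * ((n₂ : PowerSeries ℂ) * (th v * iv) - a) := by
      intro l
      rw [e2 l, hcl, hel]
      -- `A₀ + A₁ Φ = -A₀ (Φ - 1) + (A₀ + A₁) Φ`
      have e5 : aΦ * (iw * (PowerSeries.C (A₀ i l) + PowerSeries.C (A₁ i l) * Φ)) =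
          -PowerSeries.C (A₀ i l) * aΦ * ((Φ - 1) * iw) +
            (PowerSeries.C (A₀ i l) + PowerSeries.C (A₁ i l)) * (aΦ * Φ) * iw := by ring
      rw [e5, hkey, e3]
      have e6 : (PowerSeries.C (A₀ i l) + PowerSeries.C (A₁ i l)) *
          (-((n₁ : PowerSeries ℂ) * (th s * is) - (n₂ : PowerSeries ℂ) * (th v * iv)) * (1 - Φ)) *
            iw = (PowerSeries.C (A₀ i l) + PowerSeries.C (A₁ i l)) *
          ((n₁ : PowerSeries ℂ) * (th s * is) - (n₂ : PowerSeries ℂ) * (th v * iv)) *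
            ((Φ - 1) * iw) := by ring
      rw [e6, e3, haΦ]
      ring
    have e7 : th (F i) = app c F i * ((n₁ : PowerSeries ℂ) * (th s * is) - a) +
        app e F i * ((n₂ : PowerSeries ℂ) * (th v * iv) - a) -
          PowerSeries.C ((m : ℂ) * (β : ℂ)) * F i := by
      have e8 : th (F i) = th g * (h i).subst Φ + g * th ((h i).subst Φ) := by
        rw [hF]; simp only; rw [th_mul']
      rw [e8, hthg, e1]
      have e9 : app c F i * ((n₁ : PowerSeries ℂ) * (th s * is) - a) +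
          app e F i * ((n₂ : PowerSeries ℂ) * (th v * iv) - a) =
          ∑ l, g * (aΦ * (A i l).subst Φ) * (h l).subst Φ := by
        unfold app
        rw [Finset.sum_mul, Finset.sum_mul, ← Finset.sum_add_distrib]
        refine Finset.sum_congr rfl fun l _ => ?_
        rw [e4 l, hF]
        ring
      rw [e9]
      have e10 : ∑ l, g * (aΦ * (A i l).subst Φ) * (h l).subst Φ =
          g * (aΦ * ∑ l, (A i l).subst Φ * (h l).subst Φ) := by
        rw [Finset.mul_sum, Finset.mul_sum]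
        exact Finset.sum_congr rfl fun l _ => by ring
      rw [e10, hF, map_mul, map_natCast]
      ring
    rw [e7]
    linear_combination (app c F i * v * (n₁ : PowerSeries ℂ) * th s) * hsis +
      (app e F i * s * (n₂ : PowerSeries ℂ) * th v) * hviv
  -- divisibility of the numerator
  obtain ⟨w, hw⟩ : ∃ w, (n₁ : PowerSeries ℂ) * v * th s - (n₂ : PowerSeries ℂ) * s * th v =
      τ * w := by
    obtain ⟨m₂, rfl⟩ : ∃ m₂, n₂ = m₂ + 1 := ⟨n₂ - 1, by omega⟩
    obtain ⟨m₁, rfl⟩ : ∃ m₁, n₁ = m₁ + 1 := ⟨n₁ - 1, by omega⟩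
    -- `v ^ m₂ D = τ h₁`
    refine ⟨iv ^ m₂ * (((m₁ + 1 : ℕ) : PowerSeries ℂ) * th s - a * s), ?_⟩
    have hvm : v ^ m₂ ≠ 0 := pow_ne_zero _ hv0
    apply mul_left_cancel₀ hvm
    have e1 := congrArg th hrel
    rw [th_add', th_smulC, hthτ, hthpow v iv _ hv0 hviv, hthpow s is _ hs0 hsis] at e1
    have e2 : v ^ m₂ * iv ^ m₂ = 1 := by rw [← mul_pow, hviv, one_pow]
    have e3 : ((m₂ + 1 : ℕ) : PowerSeries ℂ) * v ^ (m₂ + 1) * (th v * iv) =
        ((m₂ + 1 : ℕ) : PowerSeries ℂ) * v ^ m₂ * th v := by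
      rw [pow_succ]
      linear_combination (((m₂ + 1 : ℕ) : PowerSeries ℂ) * v ^ m₂ * th v) * hviv
    have e4 : ((m₁ + 1 : ℕ) : PowerSeries ℂ) * s ^ (m₁ + 1) * (th s * is) =
        ((m₁ + 1 : ℕ) : PowerSeries ℂ) * s ^ m₁ * th s := by
      rw [pow_succ]
      linear_combination (((m₁ + 1 : ℕ) : PowerSeries ℂ) * s ^ m₁ * th s) * hsis
    rw [e3, e4] at e1
    have e5 : v ^ m₂ * (((m₁ + 1 : ℕ) : PowerSeries ℂ) * v * th s -
        ((m₂ + 1 : ℕ) : PowerSeries ℂ) * s * th v) =
        (v ^ (m₂ + 1)) * (((m₁ + 1 : ℕ) : PowerSeries ℂ) * th s) -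
          s * (((m₂ + 1 : ℕ) : PowerSeries ℂ) * v ^ m₂ * th v) := by
      rw [pow_succ]
      ring
    rw [e5, e1, hrel]
    calc _ = τ * ((((m₁ + 1 : ℕ) : PowerSeries ℂ) * th s - a * s)) := by
          rw [pow_succ]
          ring
      _ = _ := by linear_combination (-(τ * (((m₁ + 1 : ℕ) : PowerSeries ℂ) * th s - a * s))) * e2
  -- convergence
  have hFC : ∀ i, CConv (F i) := by
    intro i
    refine cconv_orb hn₁ hn₂ (τ' := ρ⁻¹) (m := m) hs hv haC hs0 hv0 hρ.conv_inv ?_ hrel hthτ hw hP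
      hE hFth (Y := fun j i => is ^ (j : ℕ) * app (P j) F i)
      (Z := fun j i => iv ^ (j : ℕ) * app (E j) F i) ?_ ?_ i
    · rw [hτ, mul_assoc, hρ.mul_inv, mul_one]
    · intro j i
      rw [← mul_assoc, ← mul_pow, hsis, one_pow, one_mul]
    · intro j i
      rw [← mul_assoc, ← mul_pow, hviv, one_pow, one_mul]
  -- conclusion
  have hFN : (F j) ^ N = (if 0 ≤ β.num then T else T') ^ k * ((h j).subst Φ) ^ N := by
    rw [hF]
    simp only
    rw [mul_pow, hg]
  have hT'C : CConv T' := (hv.pow _).mul hρ.conv_inv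
  have hFNC : CConv ((F j) ^ N) := (hFC j).pow N
  split_ifs at hFN with hsgn
  · -- `T ^ k h ^ N = F ^ N`
    have e1 : ((h j).subst Φ) ^ N = T' ^ k * (F j) ^ N := by
      rw [hFN, ← mul_assoc, ← mul_pow, mul_comm T' T, hTT', one_pow, one_mul]
    rw [e1]
    exact ((hv.pow _).pow _).mul ((hT'C.pow _).mul hFNC)
  · have e1 : (v ^ n₂) ^ (k + 1) * ((h j).subst Φ) ^ N = v ^ n₂ * (ρ ^ k * (F j) ^ N) := by
      rw [hFN, hT', mul_pow]
      have e2 : ρ ^ k * ρ⁻¹ ^ k = 1 := by rw [← mul_pow, hρ.mul_inv, one_pow]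
      rw [pow_succ]
      linear_combination (-((v ^ n₂) ^ k * v ^ n₂ * ((h j).subst Φ) ^ N)) * e2
    rw [e1]
    exact (hv.pow _).mul ((hρ.conv.pow _).mul hFNC)

end cusp

end Pool.Agent.H925
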