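import Pool.Agent.H925.Tower

set_option autoImplicit false

open PowerSeries Finset

namespace Pool.Agent.H925

section numbers

lemma hur_8 : PB (120984082 / (10 ^ 132) ^ 4) (2396902949 / 10 ^ 6) := by
  have h := PB.base (b := (120984082 / (10 ^ 132) ^ 4)) (t := 1 - (120984082 / (10 ^ 132) ^ 4)) (by norm_num) (by norm_num) (by norm_num)
    (by norm_num)
  refine h.mono le_rfl ?_
  have h1 : (247 * 7 : ℝ) * 0.6931471803 ≤ Real.log ((1 + (1 - (120984082 / (10 ^ 132) ^ 4))) ^ 2 / (120984082 / (10 ^ 132) ^ 4)) :=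
    log_ge_of_pow 247 7 (by norm_num)
  have h2 : (0 : ℝ) < 1 - (120984082 / (10 ^ 132) ^ 4) := by norm_num
  calc ((2396902949 / 10 ^ 6) : ℝ) ≤ 2 * (1 - (120984082 / (10 ^ 132) ^ 4)) * (247 * 7 * 0.6931471803) := by norm_num
    _ ≤ _ := mul_le_mul_of_nonneg_left h1 (by linarith)

lemma hur_7 : PB (439971057 / (10 ^ 67) ^ 4) (11984514744999 / 10 ^ 10) :=
  hur_8.step (t := (1 - (439971057 / (10 ^ 67) ^ 4))) (by norm_num) (by norm_num) (by norm_num) (by norm_num)
    (by norm_num) (by norm_num) (by norm_num)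

lemma hur_6 : PB (839019482 / 10 ^ 138) (5992257372499 / 10 ^ 10) :=
  hur_7.step (t := (1 - (839019482 / 10 ^ 138))) (by norm_num) (by norm_num) (by norm_num) (by norm_num)
    (by norm_num) (by norm_num) (by norm_num)

lemma hur_5 : PB (115863332 / 10 ^ 72) (2996128686249 / 10 ^ 10) :=
  hur_6.step (t := (1 - (115863332 / 10 ^ 72))) (by norm_num) (by norm_num) (by norm_num) (by norm_num)
    (by norm_num) (by norm_num) (by norm_num)

lemma hur_4 : PB (430559323 / 10 ^ 40) (1498064343124 / 10 ^ 10) :=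
  hur_5.step (t := (1 - (430559323 / 10 ^ 40))) (by norm_num) (by norm_num) (by norm_num) (by norm_num)
    (by norm_num) (by norm_num) (by norm_num)

lemma hur_3 : PB (829996937 / 10 ^ 24) (749032171561 / 10 ^ 10) :=
  hur_4.step (t := (1 - (829996937 / 10 ^ 24))) (by norm_num) (by norm_num) (by norm_num) (by norm_num)
    (by norm_num) (by norm_num) (by norm_num)

lemma hur_2 : PB (115238663 / 10 ^ 15) (374516064200 / 10 ^ 10) :=
  hur_3.step (t := (999999942380 / 10 ^ 12)) (by norm_num) (by norm_num) (by norm_num) (by norm_num)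
    (by norm_num) (by norm_num) (by norm_num)

lemma hur_1 : PB (135695138 / 10 ^ 11) (187130938948 / 10 ^ 10) :=
  hur_2.step (t := (999321293989 / 10 ^ 12)) (by norm_num) (by norm_num) (by norm_num) (by norm_num)
    (by norm_num) (by norm_num) (by norm_num)

lemma hur_0 : PB (137063340 / 10 ^ 9) (86917066611 / 10 ^ 10) :=
  hur_1.step (t := (928943841144 / 10 ^ 12)) (by norm_num) (by norm_num) (by norm_num) (by norm_num)
    (by norm_num) (by norm_num) (by norm_num)

end numbers

end Pool.Agent.H925
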