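import Pool.Agent.H925.Tower

set_option autoImplicit false

open PowerSeries Finset

namespace Pool.Agent.H925

section vertrad

lemma VertexRadius.mono {n₀ n₁ : ℕ} {R R' : ℝ} (h : VertexRadius n₀ n₁ R) (hR : R' ≤ R) :
    VertexRadius n₀ n₁ R' := by
  obtain ⟨s, v, h1, h2, h3, h4, h5⟩ := h
  exact ⟨s, v, h1, h2, h3, h4, hR.trans h5⟩

/-- Order two, the other order is arbitrary. -/
lemma vertexRadius_two_any {n : ℕ} (hn : 0 < n) {D : ℝ} (h : UL (1 / 2) (-D)) :
    VertexRadius 2 n (D ^ 2) := by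
  obtain ⟨f, hf, hf1, h0, h1⟩ := h
  have h4 : CUU (PowerSeries.C (4 : ℂ) * f * (1 - f)) := ((CUU.C (by norm_num)).mul hf).mul hf1
  obtain ⟨v, hv, hv1⟩ := h4.root hn
  have h0' : constantCoeff f = 1 / 2 := by rw [h0]; push_cast; ring
  have hC4 : (PowerSeries.C (4 : ℂ) : PowerSeries ℂ) = 4 := map_ofNat _ 4
  refine ⟨1 - (f + f), v, CConv.one.sub (hf.conv.add hf.conv), hv.conv, ?_, ?_, ?_⟩
  · rw [map_sub, map_add, map_one, h0']
    norm_num
  · rw [hv1, hC4]
    ring
  · have e1 : coeff 1 (1 - (f + f)) = (D : ℂ) := by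
      rw [map_sub, map_add, h1, coeff_one]
      push_cast
      norm_num
      ring
    rw [e1, Complex.norm_real, Real.norm_eq_abs, sq_abs]

/-- Orders two and three. -/
lemma vertexRadius_two_three {D : ℝ} (h : UL (1 / 2) (-D)) :
    VertexRadius 2 3 (3 * D ^ 2) := by
  obtain ⟨f, hf, hf1, h0, h1⟩ := h
  have h4 : CUU (PowerSeries.C (27 / 2 : ℂ) * (f * (1 - f))) :=
    (CUU.C (by norm_num)).mul (hf.mul hf1)
  obtain ⟨g, hg, hg1⟩ := h4.root (N := 3) (by norm_num)
  obtain ⟨c, hc⟩ := IsAlgClosed.exists_pow_nat_eq (-(27 / 4) : ℂ) (n := 2) (by norm_num)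
  have h0' : constantCoeff f = 1 / 2 := by rw [h0]; push_cast; ring
  have hgg : g * g⁻¹ = 1 := hg.mul_inv
  set ρ := g⁻¹ with hρ
  have hρc : CConv ρ := hg.conv_inv
  have hCc : (PowerSeries.C c : PowerSeries ℂ) ^ 2 = PowerSeries.C (-(27 / 4) : ℂ) := by
    rw [← map_pow, hc]
  have hf2 : CConv (1 - (f + f)) := CConv.one.sub (hf.conv.add hf.conv)
  set w : PowerSeries ℂ := PowerSeries.C c * (2 - f) * (1 + f) * ρ ^ 3 with hw
  have hwc : CConv w :=
    (((CConv.C c).mul ((CConv.ofNat 2).sub hf.conv)).mul (CConv.one.add hf.conv)).mul (hρc.pow 3)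
  set v : PowerSeries ℂ := 3 * (1 - f + f ^ 2) * ρ ^ 2 with hv
  have hvc : CConv v :=
    ((CConv.ofNat 3).mul ((CConv.one.sub hf.conv).add (hf.conv.pow 2))).mul (hρc.pow 2)
  have hg6 : g ^ 6 = PowerSeries.C (27 / 4 : ℂ) * (27 * (f * (1 - f)) ^ 2) := by
    have e1 : (PowerSeries.C (27 / 4 : ℂ) : PowerSeries ℂ) * 27 =
        (PowerSeries.C (27 / 2 : ℂ)) ^ 2 := by
      have e2 : (27 : PowerSeries ℂ) = PowerSeries.C (27 : ℂ) := (map_ofNat _ 27).symm
      rw [e2, ← map_mul, ← map_pow]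
      norm_num
    have e3 : g ^ 6 = (g ^ 3) ^ 2 := by ring
    rw [e3, hg1, mul_pow, ← e1]
    ring
  have h27 : (27 : PowerSeries ℂ) = 4 * PowerSeries.C (27 / 4 : ℂ) := by
    have e2 : (27 : PowerSeries ℂ) = PowerSeries.C (27 : ℂ) := (map_ofNat _ 27).symm
    have e3 : (4 : PowerSeries ℂ) = PowerSeries.C (4 : ℂ) := (map_ofNat _ 4).symm
    rw [e2, e3, ← map_mul]
    norm_num
  refine ⟨w * (1 - (f + f)), v, hwc.mul hf2, hvc, ?_, ?_, ?_⟩
  · rw [map_mul, map_sub, map_add, map_one, h0']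
    norm_num
  · have e1 : (w * (1 - (f + f))) ^ 2 + v ^ 3 = ρ ^ 6 * ((PowerSeries.C c) ^ 2 *
        ((2 - f) * (1 + f) * (1 - (f + f))) ^ 2 + 27 * (1 - f + f ^ 2) ^ 3) := by
      rw [hw, hv]
      ring
    have e2 : (PowerSeries.C c) ^ 2 * ((2 - f) * (1 + f) * (1 - (f + f))) ^ 2 +
        27 * (1 - f + f ^ 2) ^ 3 = g ^ 6 := by
      rw [hg6, hCc, map_neg]
      linear_combination (1 - f + f ^ 2) ^ 3 * h27
    rw [e1, e2, ← mul_pow, mul_comm ρ g, hgg, one_pow]
  · have hρ0 : (constantCoeff ρ) ^ 3 = 8 / 27 := by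
      have e1 := congrArg constantCoeff hgg
      have e2 := congrArg constantCoeff hg1
      rw [map_mul, map_one] at e1
      rw [map_pow, map_mul, map_mul, map_sub, map_one, h0', constantCoeff_C] at e2
      have e3 : (constantCoeff g) ^ 3 * (constantCoeff ρ) ^ 3 = 1 := by
        rw [← mul_pow, e1, one_pow]
      rw [e2] at e3
      linear_combination (8 / 27) * e3
    have e1 : coeff 1 (1 - (f + f)) = (D : ℂ) := by
      rw [map_sub, map_add, h1, coeff_one]
      push_cast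
      norm_num
      ring
    have e2 : constantCoeff (1 - (f + f)) = 0 := by
      rw [map_sub, map_add, map_one, h0']
      norm_num
    have e3 : constantCoeff w = c * (2 / 3) := by
      have : constantCoeff (2 : PowerSeries ℂ) = 2 := map_ofNat _ 2
      rw [hw, map_mul, map_mul, map_mul, map_pow, hρ0, map_sub, map_add, map_one, h0',
        constantCoeff_C, this]
      ring
    have e4 : ‖c‖ ^ 2 = 27 / 4 := by
      rw [← norm_pow, hc, norm_neg]
      have : ((27 / 4 : ℂ)) = ((27 / 4 : ℝ) : ℂ) := by push_cast; ring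
      rw [this, Complex.norm_real, Real.norm_eq_abs, abs_of_pos (by norm_num)]
    rw [coeff_one_mulC, e1, e2, e3, mul_zero, add_zero, norm_mul, norm_mul, mul_pow, mul_pow, e4,
      Complex.norm_real, Real.norm_eq_abs, sq_abs]
    have e5 : ‖(2 / 3 : ℂ)‖ = 2 / 3 := by
      have : ((2 / 3 : ℂ)) = ((2 / 3 : ℝ) : ℂ) := by push_cast; ring
      rw [this, Complex.norm_real, Real.norm_eq_abs, abs_of_pos (by norm_num)]
    rw [e5]
    apply le_of_eq
    ring

/-- Orders four and two. -/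
lemma vertexRadius_four_two {D : ℝ} (h : UL (1 / 2) (-D)) :
    VertexRadius 4 2 (D ^ 4 / 4) := by
  obtain ⟨f, hf, hf1, h0, h1⟩ := h
  have h4 : CUU (PowerSeries.C (-16 : ℂ) * (f * (1 - f))) :=
    (CUU.C (by norm_num)).mul (hf.mul hf1)
  obtain ⟨g, hg, hg1⟩ := h4.root (N := 4) (by norm_num)
  have h0' : constantCoeff f = 1 / 2 := by rw [h0]; push_cast; ring
  have hgg : g * g⁻¹ = 1 := hg.mul_inv
  set ρ := g⁻¹ with hρ
  have hρc : CConv ρ := hg.conv_inv
  have hf2 : CConv (1 - (f + f)) := CConv.one.sub (hf.conv.add hf.conv)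
  have hCI : (PowerSeries.C Complex.I : PowerSeries ℂ) ^ 2 = -1 := by
    rw [← map_pow, Complex.I_sq, map_neg, map_one]
  have hC16 : (PowerSeries.C (-16 : ℂ) : PowerSeries ℂ) = -16 := by
    have e1 : (PowerSeries.C (16 : ℂ) : PowerSeries ℂ) = 16 := map_ofNat _ 16
    rw [map_neg, e1]
  set v : PowerSeries ℂ := PowerSeries.C Complex.I * (1 + 4 * f - 4 * f ^ 2) * ρ ^ 2 with hv
  have hvc : CConv v :=
    ((CConv.C _).mul ((CConv.one.add ((CConv.ofNat 4).mul hf.conv)).sub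
      ((CConv.ofNat 4).mul (hf.conv.pow 2)))).mul (hρc.pow 2)
  refine ⟨ρ * (1 - (f + f)), v, hρc.mul hf2, hvc, ?_, ?_, ?_⟩
  · rw [map_mul, map_sub, map_add, map_one, h0']
    norm_num
  · have e1 : (ρ * (1 - (f + f))) ^ 4 + v ^ 2 = ρ ^ 4 * ((1 - (f + f)) ^ 4 +
        (PowerSeries.C Complex.I) ^ 2 * (1 + 4 * f - 4 * f ^ 2) ^ 2) := by
      rw [hv]
      ring
    have e2 : (1 - (f + f)) ^ 4 + (PowerSeries.C Complex.I) ^ 2 * (1 + 4 * f - 4 * f ^ 2) ^ 2 =
        g ^ 4 := by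
      rw [hg1, hCI, hC16]
      ring
    rw [e1, e2, ← mul_pow, mul_comm ρ g, hgg, one_pow]
  · have hρ0 : (constantCoeff ρ) ^ 4 = -(1 / 4) := by
      have e1 := congrArg constantCoeff hgg
      have e2 := congrArg constantCoeff hg1
      rw [map_mul, map_one] at e1
      rw [map_pow, map_mul, map_mul, map_sub, map_one, h0', constantCoeff_C] at e2
      have e3 : (constantCoeff g) ^ 4 * (constantCoeff ρ) ^ 4 = 1 := by
        rw [← mul_pow, e1, one_pow]
      rw [e2] at e3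
      linear_combination (-(1 / 4)) * e3
    have e1 : coeff 1 (1 - (f + f)) = (D : ℂ) := by
      rw [map_sub, map_add, h1, coeff_one]
      push_cast
      norm_num
      ring
    have e2 : constantCoeff (1 - (f + f)) = 0 := by
      rw [map_sub, map_add, map_one, h0']
      norm_num
    have e4 : ‖constantCoeff ρ‖ ^ 4 = 1 / 4 := by
      rw [← norm_pow, hρ0, norm_neg]
      have : ((1 / 4 : ℂ)) = ((1 / 4 : ℝ) : ℂ) := by push_cast; ring
      rw [this, Complex.norm_real, Real.norm_eq_abs, abs_of_pos (by norm_num)]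
    rw [coeff_one_mulC, e1, e2, mul_zero, add_zero, norm_mul, mul_pow, e4,
      Complex.norm_real, Real.norm_eq_abs]
    have e5 : |D| ^ 4 = D ^ 4 := by
      have : |D| ^ 4 = (|D| ^ 2) ^ 2 := by ring
      rw [this, sq_abs]
      ring
    rw [e5]
    apply le_of_eq
    ring

/-- Orders three and two. -/
lemma vertexRadius_three_two {D : ℝ} (hD : 0 < D) (h : UL ((2 - Real.sqrt 3) / 4) (-D)) :
    VertexRadius 3 2 (4 / 27 * ((4 * Real.sqrt 3 - 6) * D) ^ 3) := by
  obtain ⟨f, hf, hf1, h0, h1⟩ := h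
  have h4 : CUU (PowerSeries.C (108 : ℂ) * (f * (1 - f))) :=
    (CUU.C (by norm_num)).mul (hf.mul hf1)
  obtain ⟨g, hg, hg1⟩ := h4.root (N := 6) (by norm_num)
  set r : ℝ := Real.sqrt 3 with hr
  have hr2 : r ^ 2 = 3 := Real.sq_sqrt (by norm_num)
  have hr2C : (r : ℂ) ^ 2 = 3 := by exact_mod_cast hr2
  have h0' : constantCoeff f = (2 - (r : ℂ)) / 4 := by rw [h0]; push_cast; ring
  have hgg : g * g⁻¹ = 1 := hg.mul_inv
  set ρ := g⁻¹ with hρ
  have hρc : CConv ρ := hg.conv_inv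
  have hC108 : (PowerSeries.C (108 : ℂ) : PowerSeries ℂ) = 108 := map_ofNat _ 108
  set t : PowerSeries ℂ := 4 * (f * (1 - f)) with ht
  have htc : CConv t := (CConv.ofNat 4).mul (hf.conv.mul hf1.conv)
  set q : PowerSeries ℂ := 1 - 4 * t with hq
  have hqc : CConv q := CConv.one.sub ((CConv.ofNat 4).mul htc)
  have hq0 : constantCoeff q = 0 := by
    have : constantCoeff (4 : PowerSeries ℂ) = 4 := map_ofNat _ 4
    rw [hq, ht, map_sub, map_mul, map_mul, map_mul, map_sub, map_one, h0', this]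
    linear_combination hr2C
  have hf2 : CConv (1 - (f + f)) := CConv.one.sub (hf.conv.add hf.conv)
  set v : PowerSeries ℂ := (1 - (f + f)) * (1 + 8 * t) * ρ ^ 3 with hv
  have hvc : CConv v :=
    (hf2.mul (CConv.one.add ((CConv.ofNat 8).mul htc))).mul (hρc.pow 3)
  have hcc : CConv (-(ρ ^ 2) : PowerSeries ℂ) := (hρc.pow 2).neg
  refine ⟨-(ρ ^ 2) * q, v, hcc.mul hqc, hvc, ?_, ?_, ?_⟩
  · rw [map_mul, hq0, mul_zero]
  · have e1 : (-(ρ ^ 2) * q) ^ 3 + v ^ 2 = ρ ^ 6 * (-(q ^ 3) +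
        ((1 - (f + f)) * (1 + 8 * t)) ^ 2) := by
      rw [hv]
      ring
    have e2 : -(q ^ 3) + ((1 - (f + f)) * (1 + 8 * t)) ^ 2 = g ^ 6 := by
      rw [hg1, hC108, hq, ht]
      ring
    rw [e1, e2, ← mul_pow, mul_comm ρ g, hgg, one_pow]
  · have hρ0 : (constantCoeff ρ) ^ 6 = 4 / 27 := by
      have e1 := congrArg constantCoeff hgg
      have e2 := congrArg constantCoeff hg1
      rw [map_mul, map_one] at e1
      rw [map_pow, map_mul, map_mul, map_sub, map_one, h0', constantCoeff_C] at e2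
      have e3 : (constantCoeff g) ^ 6 * (constantCoeff ρ) ^ 6 = 1 := by
        rw [← mul_pow, e1, one_pow]
      have e4 : (108 : ℂ) * ((2 - (r : ℂ)) / 4 * (1 - (2 - (r : ℂ)) / 4)) = 27 / 4 := by
        linear_combination (-(27 / 4)) * hr2C
      rw [e2, e4] at e3
      linear_combination (4 / 27) * e3
    have e1 : coeff 1 q = (((4 * r - 6) * D : ℝ) : ℂ) := by
      have e5 : q = 1 - PowerSeries.C (16 : ℂ) * (f * (1 - f)) := by
        have : (PowerSeries.C (16 : ℂ) : PowerSeries ℂ) = 16 := map_ofNat _ 16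
        rw [hq, ht, this]
        ring
      have e6 : constantCoeff (1 : PowerSeries ℂ) = 1 := map_one _
      rw [e5, map_sub, coeff_C_mul, coeff_one_mulC, map_sub, map_sub, e6, h0', h1, coeff_one,
        if_neg one_ne_zero]
      push_cast
      linear_combination (-2 * (D : ℂ)) * hr2C
    have e4 : ‖constantCoeff (-(ρ ^ 2))‖ ^ 3 = 4 / 27 := by
      rw [← norm_pow, map_neg, map_pow]
      have e6 : (-(constantCoeff ρ) ^ 2) ^ 3 = -((constantCoeff ρ) ^ 6) := by ring
      rw [e6, hρ0, norm_neg]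
      have : ((4 / 27 : ℂ)) = ((4 / 27 : ℝ) : ℂ) := by push_cast; ring
      rw [this, Complex.norm_real, Real.norm_eq_abs, abs_of_pos (by norm_num)]
    have hrpos : 0 < (4 * r - 6) * D := by
      have : (3 / 2 : ℝ) < r := by
        rw [hr]
        apply Real.lt_sqrt_of_sq_lt
        norm_num
      have h3 : 0 < 4 * r - 6 := by linarith
      positivity
    rw [coeff_one_mulC, e1, hq0, mul_zero, add_zero, norm_mul, mul_pow (‖constantCoeff (-(ρ ^ 2))‖),
      e4, Complex.norm_real, Real.norm_eq_abs, abs_of_pos hrpos]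

/-- Orders three and three. -/
lemma vertexRadius_three_three {D : ℝ} (hD : 0 < D) (h : UL ((2 - Real.sqrt 3) / 4) (-D)) :
    VertexRadius 3 3 (((4 - 2 * Real.sqrt 3) * D) ^ 3 / (3 * Real.sqrt 3)) := by
  obtain ⟨f, hf, hf1, h0, h1⟩ := h
  set r : ℝ := Real.sqrt 3 with hr
  have hr2 : r ^ 2 = 3 := Real.sq_sqrt (by norm_num)
  have hr2C : (r : ℂ) ^ 2 = 3 := by exact_mod_cast hr2
  have hrpos : 0 < r := Real.sqrt_pos.mpr (by norm_num)
  have hrlt : r < 2 := by
    rw [hr, Real.sqrt_lt' (by norm_num)]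
    norm_num
  have hrC : (r : ℂ) ≠ 0 := by exact_mod_cast hrpos.ne'
  have h0' : constantCoeff f = (2 - (r : ℂ)) / 4 := by rw [h0]; push_cast; ring
  obtain ⟨w, hw, hwf, hw0⟩ : ∃ w : PowerSeries ℂ, CUU w ∧ w ^ 2 = f * (1 - f) ∧
      constantCoeff w = 1 / 4 := by
    obtain ⟨g, hg, hgf⟩ := (hf.mul hf1).root (N := 2) (by norm_num)
    have e1 : (constantCoeff g) ^ 2 = (1 / 4 : ℂ) ^ 2 := by
      rw [← map_pow, hgf, map_mul, map_sub, map_one, h0']
      linear_combination (-(1 / 16)) * hr2C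
    rcases sq_eq_sq_iff_eq_or_eq_neg.mp e1 with e2 | e2
    · exact ⟨g, hg, hgf, e2⟩
    · exact ⟨-g, hg.neg, by rw [neg_sq, hgf], by rw [map_neg, e2, neg_neg]⟩
  set Cr : PowerSeries ℂ := PowerSeries.C (r : ℂ) with hCr
  have hCr2 : Cr ^ 2 = 3 := by
    rw [hCr, ← map_pow, hr2C]
    exact map_ofNat _ 3
  have h12 : CUU (PowerSeries.C (12 * (r : ℂ)) * w) :=
    (CUU.C (mul_ne_zero (by norm_num) hrC)).mul hw
  obtain ⟨g, hg, hg1⟩ := h12.root (N := 3) (by norm_num)
  have hgg : g * g⁻¹ = 1 := hg.mul_inv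
  set ρ := g⁻¹ with hρ
  have hρc : CConv ρ := hg.conv_inv
  have hC12 : PowerSeries.C (12 * (r : ℂ)) = 12 * Cr := by
    have e12 : (PowerSeries.C (12 : ℂ) : PowerSeries ℂ) = 12 := map_ofNat _ 12
    rw [map_mul, ← hCr, e12]
  set q : PowerSeries ℂ := (1 - (f + f)) - 2 * Cr * w with hq
  have hf2 : CConv (1 - (f + f)) := CConv.one.sub (hf.conv.add hf.conv)
  have hβc : CConv (2 * Cr * w) := ((CConv.ofNat 2).mul (CConv.C _)).mul hw.conv
  have hqc : CConv q := hf2.sub hβc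
  have hc2 : constantCoeff (2 : PowerSeries ℂ) = 2 := map_ofNat _ 2
  have hq0 : constantCoeff q = 0 := by
    rw [hq, map_sub, map_sub, map_add, map_one, map_mul, map_mul, h0', hw0, hCr,
      constantCoeff_C, hc2]
    ring
  set v : PowerSeries ℂ := ((1 - (f + f)) + 2 * Cr * w) * ρ with hv
  have hvc : CConv v := (hf2.add hβc).mul hρc
  refine ⟨-ρ * q, v, hρc.neg.mul hqc, hvc, ?_, ?_, ?_⟩
  · rw [map_mul, hq0, mul_zero]
  · have e1 : (-ρ * q) ^ 3 + v ^ 3 = ρ ^ 3 * (-(q ^ 3) +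
        ((1 - (f + f)) + 2 * Cr * w) ^ 3) := by
      rw [hv]
      ring
    have e2 : -(q ^ 3) + ((1 - (f + f)) + 2 * Cr * w) ^ 3 = g ^ 3 := by
      rw [hg1, hC12, hq]
      have e3 : (1 - (f + f)) ^ 2 = 1 - 4 * w ^ 2 := by rw [hwf]; ring
      linear_combination (12 * Cr * w) * e3 + (16 * Cr * w ^ 3) * hCr2
    rw [e1, e2, ← mul_pow, mul_comm ρ g, hgg, one_pow]
  · have hρ0 : (constantCoeff ρ) ^ 3 * (3 * (r : ℂ)) = 1 := by
      have e1 := congrArg constantCoeff hgg
      have e2 := congrArg constantCoeff hg1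
      rw [map_mul, map_one] at e1
      rw [map_pow, map_mul, hw0, constantCoeff_C] at e2
      have e3 : (constantCoeff g) ^ 3 * (constantCoeff ρ) ^ 3 = 1 := by
        rw [← mul_pow, e1, one_pow]
      rw [e2] at e3
      linear_combination e3
    have ew : coeff 1 w = (r : ℂ) * coeff 1 f := by
      have e1 := congrArg (coeff 1) hwf
      have e6 : constantCoeff (1 : PowerSeries ℂ) = 1 := map_one _
      rw [pow_two, coeff_one_mulC, coeff_one_mulC, hw0, map_sub, map_sub, e6, h0', coeff_one,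
        if_neg one_ne_zero] at e1
      linear_combination 2 * e1
    have e1 : coeff 1 q = (((4 - 2 * r) * D : ℝ) : ℂ) := by
      have e6 : coeff 1 (2 * Cr * w) = 2 * (r : ℂ) * coeff 1 w := by
        have e7 : 2 * Cr = PowerSeries.C (2 * (r : ℂ)) := by
          have e22 : (PowerSeries.C (2 : ℂ) : PowerSeries ℂ) = 2 := map_ofNat _ 2
          rw [map_mul, ← hCr, e22]
        rw [e7, coeff_C_mul]
      rw [hq, map_sub, map_sub, map_add, e6, ew, coeff_one, if_neg one_ne_zero, h1]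
      push_cast
      linear_combination (2 * ((2 - (r : ℂ)) / 4 * D)) * hr2C
    have e4 : ‖constantCoeff (-ρ)‖ ^ 3 = 1 / (3 * r) := by
      rw [map_neg, norm_neg, ← norm_pow, eq_div_iff (by positivity)]
      have := congrArg (fun z : ℂ => ‖z‖) hρ0
      rw [norm_mul, norm_one] at this
      have e5 : ‖(3 * (r : ℂ))‖ = 3 * r := by
        have : (3 * (r : ℂ)) = ((3 * r : ℝ) : ℂ) := by push_cast; ring
        rw [this, Complex.norm_real, Real.norm_eq_abs, abs_of_pos (by positivity)]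
      rw [e5] at this
      exact this
    have hpos : 0 < (4 - 2 * r) * D := mul_pos (by linarith) hD
    rw [coeff_one_mulC, e1, hq0, mul_zero, add_zero, norm_mul, mul_pow (‖constantCoeff (-ρ)‖),
      e4, Complex.norm_real, Real.norm_eq_abs, abs_of_pos hpos]
    apply le_of_eq
    ring

/-- Orders four and four. -/
lemma vertexRadius_four_four {D : ℝ} (h : UL (1 / 2) (-D)) :
    VertexRadius 4 4 (D ^ 4 / 16) := by
  obtain ⟨f, hf, hf1, h0, h1⟩ := h
  have h0' : constantCoeff f = 1 / 2 := by rw [h0]; push_cast; ring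
  obtain ⟨a, ha, haf⟩ := hf1.root (N := 2) (by norm_num)
  obtain ⟨b, hb, hbf, hb0⟩ : ∃ b : PowerSeries ℂ, CUU b ∧ b ^ 2 = f ∧
      constantCoeff b = constantCoeff a := by
    obtain ⟨g, hg, hgf⟩ := hf.root (N := 2) (by norm_num)
    have e1 : (constantCoeff g) ^ 2 = (constantCoeff a) ^ 2 := by
      rw [← map_pow, ← map_pow, hgf, haf, map_sub, map_one, h0']
      norm_num
    rcases sq_eq_sq_iff_eq_or_eq_neg.mp e1 with e2 | e2
    · exact ⟨g, hg, hgf, e2⟩
    · exact ⟨-g, hg.neg, by rw [neg_sq, hgf], by rw [map_neg, e2, neg_neg]⟩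
  have ha2 : (constantCoeff a) ^ 2 = 1 / 2 := by
    rw [← map_pow, haf, map_sub, map_one, h0']
    norm_num
  have ha0 : constantCoeff a ≠ 0 := by
    intro h
    rw [h] at ha2
    norm_num at ha2
  have h8 : CUU (PowerSeries.C (8 : ℂ) * (a * b)) := (CUU.C (by norm_num)).mul (ha.mul hb)
  obtain ⟨g, hg, hg1⟩ := h8.root (N := 4) (by norm_num)
  obtain ⟨κ, hκ⟩ := IsAlgClosed.exists_pow_nat_eq (-1 : ℂ) (n := 4) (by norm_num)
  have hgg : g * g⁻¹ = 1 := hg.mul_inv
  set ρ := g⁻¹ with hρ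
  have hρc : CConv ρ := hg.conv_inv
  have hC8 : (PowerSeries.C (8 : ℂ) : PowerSeries ℂ) = 8 := map_ofNat _ 8
  have hCκ : (PowerSeries.C κ : PowerSeries ℂ) ^ 4 = -1 := by
    rw [← map_pow, hκ, map_neg, map_one]
  refine ⟨PowerSeries.C κ * ρ * (a - b), (a + b) * ρ,
    ((CConv.C _).mul hρc).mul (ha.conv.sub hb.conv), (ha.conv.add hb.conv).mul hρc, ?_, ?_, ?_⟩
  · rw [map_mul, map_sub, hb0, sub_self, mul_zero]
  · have e1 : (PowerSeries.C κ * ρ * (a - b)) ^ 4 + ((a + b) * ρ) ^ 4 =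
        ρ ^ 4 * ((PowerSeries.C κ) ^ 4 * (a - b) ^ 4 + (a + b) ^ 4) := by
      ring
    have e2 : (PowerSeries.C κ) ^ 4 * (a - b) ^ 4 + (a + b) ^ 4 = g ^ 4 := by
      rw [hg1, hC8, hCκ]
      have e3 : a ^ 2 + b ^ 2 = 1 := by rw [haf, hbf]; ring
      linear_combination (8 * a * b) * e3
    rw [e1, e2, ← mul_pow, mul_comm ρ g, hgg, one_pow]
  · have hρ0 : (constantCoeff ρ) ^ 4 = 1 / 4 := by
      have e1 := congrArg constantCoeff hgg
      have e2 := congrArg constantCoeff hg1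
      rw [map_mul, map_one] at e1
      rw [map_pow, map_mul, map_mul, hb0, constantCoeff_C, ← pow_two, ha2] at e2
      have e3 : (constantCoeff g) ^ 4 * (constantCoeff ρ) ^ 4 = 1 := by
        rw [← mul_pow, e1, one_pow]
      rw [e2] at e3
      linear_combination (1 / 4) * e3
    have e6 : constantCoeff (1 : PowerSeries ℂ) = 1 := map_one _
    have eA : 2 * constantCoeff a * coeff 1 a = -coeff 1 f := by
      have e1 := congrArg (coeff 1) haf
      rw [pow_two, coeff_one_mulC, map_sub, coeff_one, if_neg one_ne_zero] at e1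
      linear_combination e1
    have eB : 2 * constantCoeff a * coeff 1 b = coeff 1 f := by
      have e1 := congrArg (coeff 1) hbf
      rw [pow_two, coeff_one_mulC, hb0] at e1
      linear_combination e1
    have e1 : coeff 1 (a - b) * constantCoeff a = ((D / 2 : ℝ) : ℂ) := by
      rw [map_sub]
      have e7 : (coeff 1 a - coeff 1 b) * constantCoeff a = -coeff 1 f := by
        linear_combination (1 / 2) * eA - (1 / 2) * eB
      rw [e7, h1]
      push_cast
      ring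
    have e2 : constantCoeff (a - b) = 0 := by rw [map_sub, hb0, sub_self]
    have e3 : ‖coeff 1 (a - b)‖ ^ 4 * (1 / 4) = (D / 2) ^ 4 := by
      have e8 := congrArg (fun z : ℂ => ‖z‖ ^ 4) e1
      rw [norm_mul, mul_pow, Complex.norm_real, Real.norm_eq_abs] at e8
      have e9 : ‖constantCoeff a‖ ^ 4 = 1 / 4 := by
        rw [← norm_pow]
        have : (constantCoeff a) ^ 4 = ((1 / 4 : ℝ) : ℂ) := by
          have : (constantCoeff a) ^ 4 = ((constantCoeff a) ^ 2) ^ 2 := by ring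
          rw [this, ha2]
          push_cast
          ring
        rw [this, Complex.norm_real, Real.norm_eq_abs, abs_of_pos (by norm_num)]
      have e10 : |D / 2| ^ 4 = (D / 2) ^ 4 := by
        have : |D / 2| ^ 4 = (|D / 2| ^ 2) ^ 2 := by ring
        rw [this, sq_abs]
        ring
      rw [e9, e10] at e8
      exact e8
    have e4 : ‖constantCoeff ρ‖ ^ 4 = 1 / 4 := by
      rw [← norm_pow, hρ0]
      have : ((1 / 4 : ℂ)) = ((1 / 4 : ℝ) : ℂ) := by push_cast; ring
      rw [this, Complex.norm_real, Real.norm_eq_abs, abs_of_pos (by norm_num)]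
    have e5 : ‖κ‖ ^ 4 = 1 := by rw [← norm_pow, hκ, norm_neg, norm_one]
    rw [coeff_one_mulC, e2, mul_zero, add_zero, map_mul, constantCoeff_C, norm_mul, norm_mul,
      mul_pow, mul_pow, e4, e5, one_mul]
    apply le_of_eq
    linear_combination (-1 : ℝ) * e3

/-- The value for the orders `(2, n)`. -/
theorem vr_two_any {n : ℕ} (hn : 0 < n) : VertexRadius 2 n 19 := by
  obtain ⟨D, hD, h⟩ := half_0 (1 / 2) (by norm_num) (by norm_num) 4.3682 (by norm_num)
  exact (vertexRadius_two_any hn h).mono (by nlinarith)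

theorem vr_two_three : VertexRadius 2 3 57 := by
  obtain ⟨D, hD, h⟩ := half_0 (1 / 2) (by norm_num) (by norm_num) 4.3682 (by norm_num)
  exact (vertexRadius_two_three h).mono (by nlinarith)

theorem vr_four_two : VertexRadius 4 2 91 := by
  obtain ⟨D, hD, h⟩ := half_0 (1 / 2) (by norm_num) (by norm_num) 4.3682 (by norm_num)
  refine (vertexRadius_four_two h).mono ?_
  have h1 : (4.3682 : ℝ) ^ 4 ≤ D ^ 4 := pow_le_pow_left₀ (by norm_num) hD.le 4
  have h2 : (91 : ℝ) ≤ 4.3682 ^ 4 / 4 := by norm_num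
  linarith

theorem vr_three_two : VertexRadius 3 2 137 := by
  have hs : (1.7320508073 : ℝ) ≤ Real.sqrt 3 := by
    apply Real.le_sqrt_of_sq_le
    norm_num
  have hs2 : Real.sqrt 3 < 2 := by
    rw [Real.sqrt_lt' (by norm_num)]
    norm_num
  obtain ⟨D, hD, h⟩ := rho_0 ((2 - Real.sqrt 3) / 4) (by linarith) (by linarith) 10.4964
    (by norm_num)
  refine (vertexRadius_three_two (by linarith) h).mono ?_
  have h1 : (0.9282032 : ℝ) * 10.4964 ≤ (4 * Real.sqrt 3 - 6) * D :=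
    mul_le_mul (by linarith) hD.le (by norm_num) (by linarith)
  have h2 : ((0.9282032 : ℝ) * 10.4964) ^ 3 ≤ ((4 * Real.sqrt 3 - 6) * D) ^ 3 :=
    pow_le_pow_left₀ (by norm_num) h1 3
  have h3 : (137 : ℝ) ≤ 4 / 27 * ((0.9282032 : ℝ) * 10.4964) ^ 3 := by norm_num
  linarith

theorem vr_three_three : VertexRadius 3 3 34 := by
  have hs : (1.7320508073 : ℝ) ≤ Real.sqrt 3 := by
    apply Real.le_sqrt_of_sq_le
    norm_num
  have hs2 : Real.sqrt 3 < 1.7320508077 := by
    rw [Real.sqrt_lt' (by norm_num)]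
    norm_num
  obtain ⟨D, hD, h⟩ := rho_0 ((2 - Real.sqrt 3) / 4) (by linarith) (by linarith) 10.4964
    (by norm_num)
  refine (vertexRadius_three_three (by linarith) h).mono ?_
  have h1 : (0.5358983846 : ℝ) * 10.4964 ≤ (4 - 2 * Real.sqrt 3) * D :=
    mul_le_mul (by linarith) hD.le (by norm_num) (by linarith)
  have h2 : ((0.5358983846 : ℝ) * 10.4964) ^ 3 ≤ ((4 - 2 * Real.sqrt 3) * D) ^ 3 :=
    pow_le_pow_left₀ (by norm_num) h1 3
  rw [le_div_iff₀ (by linarith)]
  have h3 : (34 : ℝ) * (3 * 1.7320508077) ≤ ((0.5358983846 : ℝ) * 10.4964) ^ 3 := by norm_num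
  linarith

theorem vr_four_four : VertexRadius 4 4 22 := by
  obtain ⟨D, hD, h⟩ := half_0 (1 / 2) (by norm_num) (by norm_num) 4.3682 (by norm_num)
  refine (vertexRadius_four_four h).mono ?_
  have h1 : (4.3682 : ℝ) ^ 4 ≤ D ^ 4 := pow_le_pow_left₀ (by norm_num) hD.le 4
  have h2 : (22 : ℝ) ≤ 4.3682 ^ 4 / 16 := by norm_num
  linarith

end vertrad

end Pool.Agent.H925
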