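import Pool.Agent.H925.TriAlg
import Pool.Agent.H925.Tower7
import Pool.Agent.H925.VertRad

set_option autoImplicit false

open PowerSeries Finset

namespace Pool.Agent.H925

section trirad

lemma TriRadius.mono {n₀ n₁ n₂ : ℕ} {R R' : ℝ} (h : TriRadius n₀ n₁ n₂ R) (hR : R' ≤ R) :
    TriRadius n₀ n₁ n₂ R' := by
  obtain ⟨s, v, w, a, b, h1, h2, h3, h4, h5, h6, h7, h8, h9⟩ := h
  exact ⟨s, v, w, a, b, h1, h2, h3, h4, h5, h6, h7, h8,
    (mul_le_mul_of_nonneg_right hR (by positivity)).trans h9⟩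

/-- Orbifolds with a cusp. -/
lemma TriRadius.of_vertex {n₀ n₁ n₂ : ℕ} {R : ℝ} (h : VertexRadius n₀ n₁ R) :
    TriRadius n₀ n₁ n₂ R := by
  obtain ⟨s, v, h1, h2, h3, h4, h5⟩ := h
  refine ⟨s, v, 1, 0, 1, h1, h2, CConv.one, CConv.zero, CConv.one, h3, ?_, ?_, ?_⟩
  · rw [h4, one_pow]
  · ring
  · rw [map_one, norm_one, one_pow, mul_one]
    exact h5

/-- The order of the other two vertices does not matter. -/
lemma TriRadius.swap {n₀ n₁ n₂ : ℕ} {R : ℝ} (h0 : 0 < n₀) (h1 : 0 < n₁)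
    (h : TriRadius n₀ n₁ n₂ R) : TriRadius n₀ n₂ n₁ R := by
  obtain ⟨s, v, w, a, b, hs, hv, hw, ha, hb, hs0, hrel, hab, hR⟩ := h
  obtain ⟨α, β, hα, hβ, hαβ⟩ := bezout_pow hs hw ha hb hab n₀ n₂
  obtain ⟨ζ, hζ⟩ := IsAlgClosed.exists_pow_nat_eq (-1 : ℂ) h0
  have hζ0 : ζ ≠ 0 := by
    rintro rfl
    rw [zero_pow h0.ne'] at hζ
    norm_num at hζ
  obtain ⟨m₀, rfl⟩ : ∃ m, n₀ = m + 1 := ⟨n₀ - 1, by omega⟩
  obtain ⟨m₁, rfl⟩ : ∃ m, n₁ = m + 1 := ⟨n₁ - 1, by omega⟩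
  have hCζ : (PowerSeries.C ζ : PowerSeries ℂ) ^ (m₀ + 1) = -1 := by
    rw [← map_pow, hζ, map_neg, map_one]
  have hζζ : (PowerSeries.C ζ⁻¹ : PowerSeries ℂ) * PowerSeries.C ζ = 1 := by
    rw [← map_mul, inv_mul_cancel₀ hζ0, map_one]
  refine ⟨PowerSeries.C ζ * s, w, v, PowerSeries.C ζ⁻¹ * ((α + β) * s ^ m₀), β * v ^ m₁,
    (CConv.C _).mul hs, hw, hv, (CConv.C _).mul ((hα.add hβ).mul (hs.pow _)),
    hβ.mul (hv.pow _), ?_, ?_, ?_, ?_⟩
  · rw [map_mul, hs0, mul_zero]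
  · rw [mul_pow, hCζ]
    linear_combination -hrel
  · rw [← hrel] at hαβ
    rw [pow_succ, pow_succ] at hαβ
    linear_combination ((α + β) * s ^ m₀ * s) * hζζ + hαβ
  · have e1 : ‖constantCoeff v‖ ^ (m₁ + 1) = ‖constantCoeff w‖ ^ n₂ := by
      rw [← norm_pow, ← norm_pow]
      have e2 := congrArg constantCoeff hrel
      rw [map_add, map_pow, map_pow, map_pow, hs0, zero_pow (Nat.succ_ne_zero m₀), zero_add] at e2
      rw [e2]
    have e3 : ‖coeff 1 (PowerSeries.C ζ * s)‖ ^ (m₀ + 1) = ‖coeff 1 s‖ ^ (m₀ + 1) := by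
      rw [coeff_C_mul, norm_mul, mul_pow, ← norm_pow, hζ, norm_neg, norm_one, one_mul]
    rw [e1, e3]
    exact hR

/-- The orders `(8, 3, 2)`. -/
lemma triRadius_eight {R : ℝ} (hR : 0 ≤ R) (h : VertexRadius 4 2 R) :
    TriRadius 8 3 2 (27 * R ^ 2 / 64) := by
  obtain ⟨s, v, hs, hv, hs0, hrel, hRs⟩ := h
  obtain ⟨κ, hκ⟩ := IsAlgClosed.exists_pow_nat_eq (-27 : ℂ) (n := 8) (by norm_num)
  have hκ0 : κ ≠ 0 := by
    rintro rfl
    norm_num at hκ
  have hCκ : (PowerSeries.C κ : PowerSeries ℂ) ^ 8 = -27 := by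
    have e1 : (PowerSeries.C (27 : ℂ) : PowerSeries ℂ) = 27 := map_ofNat _ 27
    rw [← map_pow, hκ, map_neg, e1]
  have hκκ : (PowerSeries.C κ⁻¹ : PowerSeries ℂ) * PowerSeries.C κ = 1 := by
    rw [← map_mul, inv_mul_cancel₀ hκ0, map_one]
  have h64 : (PowerSeries.C (64⁻¹ : ℂ) : PowerSeries ℂ) * 64 = 1 := by
    have e1 : (PowerSeries.C (64 : ℂ) : PowerSeries ℂ) = 64 := map_ofNat _ 64
    rw [← e1, ← map_mul, inv_mul_cancel₀ (by norm_num), map_one]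
  refine ⟨PowerSeries.C κ * s, 4 - s ^ 4, (s ^ 4 + 8) * v,
    PowerSeries.C 64⁻¹ * PowerSeries.C κ⁻¹ * (s ^ 3 * (48 + 15 * s ^ 4 + (s ^ 4) ^ 2)),
    PowerSeries.C 64⁻¹ * ((s ^ 4 + 8) * v), (CConv.C _).mul hs, (CConv.ofNat 4).sub (hs.pow 4),
    ((hs.pow 4).add (CConv.ofNat 8)).mul hv,
    ((CConv.C _).mul (CConv.C _)).mul ((hs.pow 3).mul (((CConv.ofNat 48).add
      ((CConv.ofNat 15).mul (hs.pow 4))).add ((hs.pow 4).pow 2))),
    (CConv.C _).mul (((hs.pow 4).add (CConv.ofNat 8)).mul hv), ?_, ?_, ?_, ?_⟩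
  · rw [map_mul, hs0, mul_zero]
  · rw [mul_pow, hCκ]
    linear_combination (-(s ^ 4 + 8) ^ 2) * hrel
  · linear_combination (PowerSeries.C (64⁻¹ : ℂ) * (s ^ 4 * (48 + 15 * s ^ 4 + (s ^ 4) ^ 2))) * hκκ +
      (PowerSeries.C (64⁻¹ : ℂ) * (s ^ 4 + 8) ^ 2) * hrel + h64
  · have e1 : ‖constantCoeff v‖ ^ 2 = 1 := by
      rw [← norm_pow]
      have e2 := congrArg constantCoeff hrel
      rw [map_add, map_pow, map_pow, hs0, map_one, zero_pow (by norm_num), zero_add] at e2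
      rw [e2, norm_one]
    have h8 : constantCoeff (8 : PowerSeries ℂ) = 8 := map_ofNat _ 8
    have e2 : ‖constantCoeff ((s ^ 4 + 8) * v)‖ ^ 2 = 64 := by
      rw [map_mul, map_add, map_pow, hs0, h8, zero_pow (by norm_num), zero_add, norm_mul,
        mul_pow, e1]
      norm_num
    have e3 : ‖coeff 1 (PowerSeries.C κ * s)‖ ^ 8 = 27 * (‖coeff 1 s‖ ^ 4) ^ 2 := by
      rw [coeff_C_mul, norm_mul, mul_pow, ← norm_pow, hκ, norm_neg]
      norm_num
      ring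
    rw [e2, e3]
    have e4 : R ^ 2 ≤ (‖coeff 1 s‖ ^ 4) ^ 2 := pow_le_pow_left₀ hR hRs 2
    linarith

/-- The orders `(9, 3, 2)`. -/
lemma triRadius_nine {R : ℝ} (hR : 0 ≤ R) (h : VertexRadius 3 3 R) :
    TriRadius 9 3 2 (64 * R ^ 3 / 729) := by
  obtain ⟨s, v, hs, hv, hs0, hrel, hRs⟩ := h
  have h4 : (PowerSeries.C (4⁻¹ : ℂ) : PowerSeries ℂ) * 4 = 1 := by
    have e1 : (PowerSeries.C (4 : ℂ) : PowerSeries ℂ) = 4 := map_ofNat _ 4
    rw [← e1, ← map_mul, inv_mul_cancel₀ (by norm_num), map_one]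
  have h8 : (PowerSeries.C (8⁻¹ : ℂ) : PowerSeries ℂ) * 8 = 1 := by
    have e1 : (PowerSeries.C (8 : ℂ) : PowerSeries ℂ) = 8 := map_ofNat _ 8
    rw [← e1, ← map_mul, inv_mul_cancel₀ (by norm_num), map_one]
  have h27 : (PowerSeries.C (27⁻¹ : ℂ) : PowerSeries ℂ) * 27 = 1 := by
    have e1 : (PowerSeries.C (27 : ℂ) : PowerSeries ℂ) = 27 := map_ofNat _ 27
    rw [← e1, ← map_mul, inv_mul_cancel₀ (by norm_num), map_one]
  set c4 : PowerSeries ℂ := PowerSeries.C (4⁻¹ : ℂ) with hc4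
  set c8 : PowerSeries ℂ := PowerSeries.C (8⁻¹ : ℂ) with hc8
  set c27 : PowerSeries ℂ := PowerSeries.C (27⁻¹ : ℂ) with hc27
  have h64 : c4 ^ 3 = c8 ^ 2 := by
    rw [hc4, hc8, ← map_pow, ← map_pow]
    congr 1
    norm_num
  have hwc : CConv (c8 * (27 - 18 * s ^ 3 - (s ^ 3) ^ 2)) :=
    (CConv.C _).mul (((CConv.ofNat 27).sub ((CConv.ofNat 18).mul (hs.pow 3))).sub
      ((hs.pow 3).pow 2))
  refine ⟨s, c4 * (v * (9 - s ^ 3)), c8 * (27 - 18 * s ^ 3 - (s ^ 3) ^ 2),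
    c27 * (s ^ 2 * (18 + s ^ 3)), 8 * c27, hs,
    (CConv.C _).mul (hv.mul ((CConv.ofNat 9).sub (hs.pow 3))), hwc,
    (CConv.C _).mul ((hs.pow 2).mul ((CConv.ofNat 18).add (hs.pow 3))),
    (CConv.ofNat 8).mul (CConv.C _), hs0, ?_, ?_, ?_⟩
  · have e64 : c8 ^ 2 * 64 = 1 := by linear_combination (c8 * 8 + 1) * h8
    linear_combination (c8 ^ 2 * (9 - s ^ 3) ^ 3) * hrel + (v ^ 3 * (9 - s ^ 3) ^ 3) * h64 -
      s ^ 9 * e64
  · linear_combination (c27 * (27 - 18 * s ^ 3 - (s ^ 3) ^ 2)) * h8 + h27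
  · have e1 : constantCoeff (c8 * (27 - 18 * s ^ 3 - (s ^ 3) ^ 2)) = 27 / 8 := by
      have h27' : constantCoeff (27 : PowerSeries ℂ) = 27 := map_ofNat _ 27
      rw [map_mul, map_sub, map_sub, map_mul, map_pow, map_pow, map_pow, hs0, h27', hc8,
        constantCoeff_C]
      norm_num
    have e2 : ‖(27 / 8 : ℂ)‖ = 27 / 8 := by
      have : ((27 / 8 : ℂ)) = ((27 / 8 : ℝ) : ℂ) := by push_cast; ring
      rw [this, Complex.norm_real, Real.norm_eq_abs, abs_of_pos (by norm_num)]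
    have e3 : ‖coeff 1 s‖ ^ 9 = (‖coeff 1 s‖ ^ 3) ^ 3 := by ring
    rw [e1, e2, e3]
    have e4 : R ^ 3 ≤ (‖coeff 1 s‖ ^ 3) ^ 3 := pow_le_pow_left₀ hR hRs 3
    linarith

/-- The orders `(4, 2, 5)`. -/
lemma triRadius_four {R : ℝ} (h : VertexRadius 4 4 R) :
    TriRadius 4 2 5 (20 * R) := by
  obtain ⟨a, b, ha, hb, ha0, hrel, hRs⟩ := h
  obtain ⟨κ, hκ⟩ := IsAlgClosed.exists_pow_nat_eq (-(1 / 4) : ℂ) (n := 4) (by norm_num)
  have h16 : (PowerSeries.C (16⁻¹ : ℂ) : PowerSeries ℂ) * 16 = 1 := by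
    have e1 : (PowerSeries.C (16 : ℂ) : PowerSeries ℂ) = 16 := map_ofNat _ 16
    rw [← e1, ← map_mul, inv_mul_cancel₀ (by norm_num), map_one]
  have h25 : (PowerSeries.C (9765625⁻¹ : ℂ) : PowerSeries ℂ) * 9765625 = 1 := by
    have e1 : (PowerSeries.C (9765625 : ℂ) : PowerSeries ℂ) = 9765625 := map_ofNat _ 9765625
    rw [← e1, ← map_mul, inv_mul_cancel₀ (by norm_num), map_one]
  have hCI : (PowerSeries.C Complex.I : PowerSeries ℂ) ^ 2 = -1 := by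
    rw [← map_pow, Complex.I_sq, map_neg, map_one]
  have hCκ : 4 * (PowerSeries.C κ : PowerSeries ℂ) ^ 4 = -1 := by
    have e1 : (PowerSeries.C (4 : ℂ) : PowerSeries ℂ) = 4 := map_ofNat _ 4
    rw [← map_pow, hκ, ← e1, ← map_mul]
    norm_num
  set I : PowerSeries ℂ := PowerSeries.C Complex.I with hI
  set k : PowerSeries ℂ := PowerSeries.C κ with hk
  set c16 : PowerSeries ℂ := PowerSeries.C (16⁻¹ : ℂ) with hc16
  set c25 : PowerSeries ℂ := PowerSeries.C (9765625⁻¹ : ℂ) with hc25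
  set ℓ : PowerSeries ℂ := 3 - 4 * I * (1 - 2 * a ^ 4) with hℓ
  have hℓC : CConv ℓ := (CConv.ofNat 3).sub (((CConv.ofNat 4).mul (CConv.C _)).mul
    (CConv.one.sub ((CConv.ofNat 2).mul (ha.pow 4))))
  have hℓ2 : 64 * (a ^ 4 * b ^ 4) = ℓ ^ 2 - 6 * ℓ + 25 := by
    rw [hℓ]
    linear_combination (64 * a ^ 4) * hrel + (-16 * (1 - 2 * a ^ 4) ^ 2) * hCI
  set s : PowerSeries ℂ := k * ((25 - ℓ) * (a * b)) with hs
  have hsC : CConv s := (CConv.C _).mul (((CConv.ofNat 25).sub hℓC).mul (ha.mul hb))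
  have hs4 : 256 * s ^ 4 = -((25 - ℓ) ^ 4 * (ℓ ^ 2 - 6 * ℓ + 25)) := by
    rw [hs]
    linear_combination (64 * ((25 - ℓ) ^ 4 * (a ^ 4 * b ^ 4))) * hCκ - ((25 - ℓ) ^ 4) * hℓ2
  refine ⟨s, c16 * (ℓ ^ 3 + 75 * ℓ ^ 2 - 625 * ℓ + 3125), ℓ, -(256 * c25 * s ^ 3),
    c25 * (3906250 - 859375 * ℓ + 87500 * ℓ ^ 2 - 4375 * ℓ ^ 3 + 106 * ℓ ^ 4 - ℓ ^ 5), hsC,
    (CConv.C _).mul ((((hℓC.pow 3).add ((CConv.ofNat 75).mul (hℓC.pow 2))).sub
      ((CConv.ofNat 625).mul hℓC)).add (CConv.ofNat 3125)), hℓC,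
    (((CConv.ofNat 256).mul (CConv.C _)).mul (hsC.pow 3)).neg,
    (CConv.C _).mul ((((((CConv.ofNat 3906250).sub ((CConv.ofNat 859375).mul hℓC)).add
      ((CConv.ofNat 87500).mul (hℓC.pow 2))).sub ((CConv.ofNat 4375).mul (hℓC.pow 3))).add
      ((CConv.ofNat 106).mul (hℓC.pow 4))).sub (hℓC.pow 5)), ?_, ?_, ?_, ?_⟩
  · rw [hs, map_mul, map_mul, map_mul, ha0]
    ring
  · have e256 : c16 ^ 2 * 256 = 1 := by linear_combination (c16 * 16 + 1) * h16
    linear_combination (-(s ^ 4 - ℓ ^ 5)) * e256 + c16 ^ 2 * hs4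
  · linear_combination (-c25) * hs4 + h25
  · have h3 : constantCoeff (3 : PowerSeries ℂ) = 3 := map_ofNat _ 3
    have h4 : constantCoeff (4 : PowerSeries ℂ) = 4 := map_ofNat _ 4
    have h25' : constantCoeff (25 : PowerSeries ℂ) = 25 := map_ofNat _ 25
    have eℓ : constantCoeff ℓ = 3 - 4 * Complex.I := by
      rw [hℓ, map_sub, map_mul, map_mul, map_sub, map_mul, map_pow, ha0, map_one, h3, h4, hI,
        constantCoeff_C, zero_pow (by norm_num)]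
      ring
    have nℓ : ‖(3 - 4 * Complex.I : ℂ)‖ ^ 5 = 3125 := by
      have e1 : ‖(3 - 4 * Complex.I : ℂ)‖ = 5 := by
        have e2 : ‖(3 - 4 * Complex.I : ℂ)‖ ^ 2 = 5 ^ 2 := by
          rw [← Complex.normSq_eq_norm_sq, Complex.normSq_apply]
          simp
          norm_num
        exact (pow_left_inj₀ (norm_nonneg _) (by norm_num) (by norm_num)).mp e2
      rw [e1]
      norm_num
    have n25 : ‖(25 - (3 - 4 * Complex.I) : ℂ)‖ ^ 4 = 250000 := by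
      have e2 : ‖(25 - (3 - 4 * Complex.I) : ℂ)‖ ^ 2 = 500 := by
        rw [← Complex.normSq_eq_norm_sq, Complex.normSq_apply]
        simp
        norm_num
      have e3 : ‖(25 - (3 - 4 * Complex.I) : ℂ)‖ ^ 4 =
          (‖(25 - (3 - 4 * Complex.I) : ℂ)‖ ^ 2) ^ 2 := by ring
      rw [e3, e2]
      norm_num
    have nb : ‖constantCoeff b‖ ^ 4 = 1 := by
      rw [← norm_pow]
      have e2 := congrArg constantCoeff hrel
      rw [map_add, map_pow, map_pow, ha0, map_one, zero_pow (by norm_num), zero_add] at e2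
      rw [e2, norm_one]
    have es : coeff 1 s = κ * ((25 - (3 - 4 * Complex.I)) * (coeff 1 a * constantCoeff b)) := by
      rw [hs, hk, coeff_C_mul, coeff_one_mulC (25 - ℓ) (a * b), coeff_one_mulC a b, map_mul, ha0,
        map_sub, eℓ, h25']
      ring
    have nκ : ‖κ‖ ^ 4 = 1 / 4 := by
      rw [← norm_pow, hκ, norm_neg]
      have : ((1 / 4 : ℂ)) = ((1 / 4 : ℝ) : ℂ) := by push_cast; ring
      rw [this, Complex.norm_real, Real.norm_eq_abs, abs_of_pos (by norm_num)]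
    rw [eℓ, nℓ, es, norm_mul, norm_mul, norm_mul, mul_pow, mul_pow, mul_pow, nκ, n25, nb]
    linarith

lemma coeff_one_ofNat (n : ℕ) [n.AtLeastTwo] : coeff 1 (ofNat(n) : PowerSeries ℂ) = 0 := by
  have : (ofNat(n) : PowerSeries ℂ) = PowerSeries.C (ofNat(n) : ℂ) := (map_ofNat _ n).symm
  rw [this, coeff_C, if_neg one_ne_zero]

/-- The Hurwitz orbifold: the orders `(7, 2, 3)`. -/
lemma triRadius_seven {x D : ℝ} (hx0 : 0 < x) (hx1 : x < 1) (hx : x ^ 3 + 5 * x ^ 2 - 8 * x + 1 = 0)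
    (hD : 0 < D) (h : UL x (-D)) :
    TriRadius 7 2 3 (1728 * (x * D / (1 - x + x ^ 2)) ^ 7) := by
  obtain ⟨f, hf, hf1, h0, h1⟩ := h
  have hxC : (x : ℂ) ^ 3 + 5 * (x : ℂ) ^ 2 - 8 * x + 1 = 0 := by exact_mod_cast hx
  have hxx : 0 < 1 - x + x ^ 2 := by nlinarith
  set q : PowerSeries ℂ := f * (1 - f) with hq
  have hqU : CUU q := hf.mul hf1
  set iq := q⁻¹ with hiq
  have hqq : q * iq = 1 := hqU.mul_inv
  have hiqC : CConv iq := hqU.conv_inv
  have hfC := hf.conv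
  have hC7 : (PowerSeries.C (7 : ℂ) : PowerSeries ℂ) = 7 := map_ofNat _ 7
  have h98 : (PowerSeries.C (98⁻¹ : ℂ) : PowerSeries ℂ) * 98 = 1 := by
    have e1 : (PowerSeries.C (98 : ℂ) : PowerSeries ℂ) = 98 := map_ofNat _ 98
    rw [← e1, ← map_mul, inv_mul_cancel₀ (by norm_num), map_one]
  set c98 : PowerSeries ℂ := PowerSeries.C (98⁻¹ : ℂ) with hc98
  set N : PowerSeries ℂ := 2 - 3 * f - 3 * (f * f) + 2 * (f * (f * f)) with hN
  have hNC : CConv N := (((CConv.ofNat 2).sub ((CConv.ofNat 3).mul hfC)).sub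
    ((CConv.ofNat 3).mul (hfC.mul hfC))).add ((CConv.ofNat 2).mul (hfC.mul (hfC.mul hfC)))
  have hN2 : 27 * q ^ 2 + N ^ 2 = 4 * (1 - q) ^ 3 := by
    rw [hN, hq]
    ring
  set u : PowerSeries ℂ := c98 * (N * iq - 13) with hu
  have huC : CConv u := (CConv.C _).mul ((hNC.mul hiqC).sub (CConv.ofNat 13))
  have hu98 : 98 * (q * u) = N - 13 * q := by
    rw [hu]
    linear_combination (q * (N * iq - 13)) * h98 + N * hqq
  -- the cube root
  obtain ⟨h₃, hh, hh3⟩ := ((CUU.C (c := (7 : ℂ)) (by norm_num)).mul hqU).root (N := 3) (by norm_num)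
  rw [hC7] at hh3
  have hhi : h₃ * h₃⁻¹ = 1 := hh.mul_inv
  set ih := h₃⁻¹ with hih
  have hihC : CConv ih := hh.conv_inv
  set g : PowerSeries ℂ := (1 - q) * ih ^ 2 with hg
  have hgC : CConv g := (CConv.one.sub hqU.conv).mul (hihC.pow 2)
  have hqne : q ≠ 0 := by
    intro h
    rw [h, zero_mul] at hqq
    exact zero_ne_one hqq
  have hg3 : g ^ 3 = 1 + 13 * u + 49 * u ^ 2 := by
    have hne : 196 * q ^ 2 ≠ 0 := by
      refine mul_ne_zero ?_ (pow_ne_zero _ hqne)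
      have e1 : (PowerSeries.C (196 : ℂ) : PowerSeries ℂ) = 196 := map_ofNat _ 196
      rw [← e1, Ne, map_eq_zero_iff _ PowerSeries.C_injective]
      norm_num
    apply mul_left_cancel₀ hne
    have e1 : 49 * q ^ 2 * ih ^ 6 = 1 := by
      have e2 : 49 * q ^ 2 = h₃ ^ 6 := by
        linear_combination (-(h₃ ^ 3 + 7 * q)) * hh3
      rw [e2, ← mul_pow, hhi, one_pow]
    have e3 : g ^ 3 = (1 - q) ^ 3 * ih ^ 6 := by rw [hg]; ring
    rw [e3]
    linear_combination (4 * (1 - q) ^ 3) * e1 - hN2 -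
      (26 * q + 98 * (q * u) + (N - 13 * q)) * hu98
  obtain ⟨κ, hκ⟩ := IsAlgClosed.exists_pow_nat_eq (1728 : ℂ) (n := 7) (by norm_num)
  have hκ0 : κ ≠ 0 := by
    rintro rfl
    norm_num at hκ
  have hCκ : (PowerSeries.C κ : PowerSeries ℂ) ^ 7 = 1728 := by
    have e1 : (PowerSeries.C (1728 : ℂ) : PowerSeries ℂ) = 1728 := map_ofNat _ 1728
    rw [← map_pow, hκ, e1]
  have hκκ : (PowerSeries.C κ⁻¹ : PowerSeries ℂ) * PowerSeries.C κ = 1 := by
    rw [← map_mul, inv_mul_cancel₀ hκ0, map_one]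
  have hw3 : ((1 + 5 * u + u ^ 2) * g) ^ 3 = (1 + 5 * u + u ^ 2) ^ 3 * (1 + 13 * u + 49 * u ^ 2) := by
    rw [mul_pow, hg3]
  have hpol : CConv (1 + 5 * u + u ^ 2) :=
    (CConv.one.add ((CConv.ofNat 5).mul huC)).add (huC.pow 2)
  have hwC : CConv ((1 + 5 * u + u ^ 2) * g) := hpol.mul hgC
  clear_value q N u g
  -- the values at the origin
  have c1 : constantCoeff (1 : PowerSeries ℂ) = 1 := map_one _
  have d1 : coeff 1 (1 : PowerSeries ℂ) = 0 := by rw [coeff_one, if_neg one_ne_zero]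
  have c2 : constantCoeff (2 : PowerSeries ℂ) = 2 := map_ofNat _ 2
  have c3 : constantCoeff (3 : PowerSeries ℂ) = 3 := map_ofNat _ 3
  have c13 : constantCoeff (13 : PowerSeries ℂ) = 13 := map_ofNat _ 13
  have c98' : constantCoeff (98 : PowerSeries ℂ) = 98 := map_ofNat _ 98
  have hq0 : constantCoeff q = (x : ℂ) * (1 - x) := by
    rw [hq, map_mul, map_sub, map_one, h0]
  have hx1C : (1 : ℂ) - x ≠ 0 := by
    have : (1 : ℂ) - x = ((1 - x : ℝ) : ℂ) := by push_cast; ring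
    rw [this]
    exact_mod_cast (by linarith : (1 - x) ≠ 0)
  have hx0C : (x : ℂ) ≠ 0 := by exact_mod_cast hx0.ne'
  have hq0' : constantCoeff q ≠ 0 := by
    rw [hq0]
    exact mul_ne_zero hx0C hx1C
  have hN0 : constantCoeff N = 2 - 3 * (x : ℂ) - 3 * (x * x) + 2 * (x * (x * x)) := by
    rw [hN]
    simp only [map_add, map_sub, map_mul, c2, c3, h0]
  have hu0 : constantCoeff u = 0 := by
    have e1 := congrArg constantCoeff hu98
    rw [map_mul, map_mul, map_sub, map_mul, c98', c13, hN0] at e1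
    have e2 : 98 * (constantCoeff q * constantCoeff u) = 0 := by
      rw [e1, hq0]
      linear_combination 2 * hxC
    have e3 := (mul_eq_zero.mp e2).resolve_left (by norm_num)
    exact (mul_eq_zero.mp e3).resolve_left hq0'
  have hu1 : (1 - (x : ℂ) + (x : ℂ) ^ 2) * coeff 1 u = (x : ℂ) * D := by
    have e1 := congrArg (coeff 1) hu98
    have eN : coeff 1 N = (-3 - 6 * (x : ℂ) + 6 * (x : ℂ) ^ 2) * coeff 1 f := by
      rw [hN]
      simp only [map_add, map_sub, coeff_one_mulC, c2, c3, h0, coeff_one_ofNat, map_mul]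
      ring
    have eq1 : coeff 1 q = (1 - 2 * (x : ℂ)) * coeff 1 f := by
      rw [hq, coeff_one_mulC, map_sub, map_sub, c1, h0, d1]
      ring
    rw [map_sub, coeff_one_mulC 98, coeff_one_mulC q u, coeff_one_mulC 13 q, hu0,
      coeff_one_ofNat, coeff_one_ofNat, eN, eq1, c98', c13, hq0, h1] at e1
    have hne : 98 * ((x : ℂ) * (1 - x)) ≠ 0 := mul_ne_zero (by norm_num) (mul_ne_zero hx0C hx1C)
    apply mul_left_cancel₀ hne
    push_cast at e1
    linear_combination (1 - (x : ℂ) + (x : ℂ) ^ 2) * e1 +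
      ((16 - 6 * (x : ℂ)) * x * D) * hxC
  have hg0 : constantCoeff g ^ 3 = 1 := by
    rw [← map_pow, hg3]
    have c49 : constantCoeff (49 : PowerSeries ℂ) = 49 := map_ofNat _ 49
    rw [map_add, map_add, map_one, map_mul, map_mul, map_pow, hu0]
    ring
  refine ⟨PowerSeries.C κ * u, 1 + 14 * u + 63 * u ^ 2 + 70 * u ^ 3 - 7 * u ^ 4,
    (1 + 5 * u + u ^ 2) * g,
    PowerSeries.C κ⁻¹ * -(28 + 322 * u + 1904 * u ^ 2 + 5915 * u ^ 3 + 8624 * u ^ 4 +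
      4018 * u ^ 5 + 748 * u ^ 6 + 49 * u ^ 7), ((1 + 5 * u + u ^ 2) * g) ^ 2,
    (CConv.C _).mul huC,
    ((((CConv.one.add ((CConv.ofNat 14).mul huC)).add ((CConv.ofNat 63).mul (huC.pow 2))).add
      ((CConv.ofNat 70).mul (huC.pow 3))).sub ((CConv.ofNat 7).mul (huC.pow 4))), hwC,
    (CConv.C _).mul ((((((((CConv.ofNat 28).add ((CConv.ofNat 322).mul huC)).add
      ((CConv.ofNat 1904).mul (huC.pow 2))).add ((CConv.ofNat 5915).mul (huC.pow 3))).add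
      ((CConv.ofNat 8624).mul (huC.pow 4))).add ((CConv.ofNat 4018).mul (huC.pow 5))).add
      ((CConv.ofNat 748).mul (huC.pow 6))).add ((CConv.ofNat 49).mul (huC.pow 7))).neg,
    hwC.pow 2, ?_, ?_, ?_, ?_⟩
  · rw [map_mul, hu0, mul_zero]
  · rw [mul_pow, hCκ, hw3]
    ring
  · linear_combination (-(28 + 322 * u + 1904 * u ^ 2 + 5915 * u ^ 3 + 8624 * u ^ 4 +
      4018 * u ^ 5 + 748 * u ^ 6 + 49 * u ^ 7) * u) * hκκ + hw3
  · have e1 : ‖constantCoeff ((1 + 5 * u + u ^ 2) * g)‖ ^ 3 = 1 := by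
      rw [← norm_pow, map_mul, mul_pow, hg0]
      have : constantCoeff (1 + 5 * u + u ^ 2) = 1 := by
        rw [map_add, map_add, map_one, map_mul, map_pow, hu0]
        ring
      rw [this]
      norm_num
    have e2 : coeff 1 u = ((x * D / (1 - x + x ^ 2) : ℝ) : ℂ) := by
      have hne : (1 - (x : ℂ) + (x : ℂ) ^ 2) ≠ 0 := by
        have : (1 - (x : ℂ) + (x : ℂ) ^ 2) = ((1 - x + x ^ 2 : ℝ) : ℂ) := by push_cast; ring
        rw [this]
        exact_mod_cast hxx.ne'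
      apply mul_left_cancel₀ hne
      rw [hu1]
      push_cast
      field_simp
    have hpos : 0 < x * D / (1 - x + x ^ 2) := by positivity
    have e3 : ‖κ‖ ^ 7 = 1728 := by
      rw [← norm_pow, hκ]
      have : ((1728 : ℂ)) = ((1728 : ℝ) : ℂ) := by push_cast; ring
      rw [this, Complex.norm_real, Real.norm_eq_abs, abs_of_pos (by norm_num)]
    rw [e1, mul_one, coeff_C_mul, norm_mul, mul_pow, e3, e2, Complex.norm_real, Real.norm_eq_abs,
      abs_of_pos hpos]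

/-- The radii. -/
theorem tr_seven : TriRadius 7 3 2 14200 := by
  obtain ⟨x, ⟨hx1, hx2⟩, hx⟩ : ∃ x ∈ Set.Icc (0.1370633 : ℝ) 0.13706334,
      x ^ 3 + 5 * x ^ 2 - 8 * x + 1 = 0 := by
    have hcont : ContinuousOn (fun x : ℝ => x ^ 3 + 5 * x ^ 2 - 8 * x + 1)
        (Set.Icc (0.1370633 : ℝ) 0.13706334) := by fun_prop
    have h1 := intermediate_value_Icc' (by norm_num : (0.1370633 : ℝ) ≤ 0.13706334) hcont
    obtain ⟨x, hx, h2⟩ := h1 (show (0 : ℝ) ∈ Set.Icc _ _ by constructor <;> norm_num)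
    exact ⟨x, hx, h2⟩
  obtain ⟨D, hD, h⟩ := hur_0 x (by linarith) (by linarith) 8.6917 (by norm_num)
  have key := triRadius_seven (by linarith) (by linarith) hx (by linarith) h
  refine (TriRadius.swap (by norm_num) (by norm_num) key).mono ?_
  have h1 : (1.3511 : ℝ) ≤ x * D / (1 - x + x ^ 2) := by
    rw [le_div_iff₀ (by nlinarith)]
    have h2 : (0.1370633 : ℝ) * 8.6917 ≤ x * D :=
      mul_le_mul hx1 hD.le (by norm_num) (by linarith)
    nlinarith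
  have h3 : (1.3511 : ℝ) ^ 7 ≤ (x * D / (1 - x + x ^ 2)) ^ 7 :=
    pow_le_pow_left₀ (by norm_num) h1 7
  have h4 : (14200 : ℝ) ≤ 1728 * 1.3511 ^ 7 := by norm_num
  linarith

theorem tr_eight : TriRadius 8 3 2 3490 := by
  refine (triRadius_eight (by norm_num) vr_four_two).mono ?_
  norm_num

theorem tr_nine : TriRadius 9 3 2 3450 := by
  refine (triRadius_nine (by norm_num) vr_three_three).mono ?_
  norm_num

theorem tr_four : TriRadius 4 5 2 440 := by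
  refine (TriRadius.swap (by norm_num) (by norm_num) (triRadius_four vr_four_four)).mono ?_
  norm_num

end trirad

end Pool.Agent.H925
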