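import Pool.Agent.H925.Tri
import Pool.Agent.H925.TriRad

set_option autoImplicit false

open Finset

namespace Pool.Agent.H925

open Pool.Agent.Helper338PC (th coeff_th th_mul' th_add' th_sum' th_C th_one exists_lambda_gt)

/-- Uniformization data at a cusp: `CuspRadius` with a simple zero of `Φ` at the origin. -/
def CuspOne (n₁ n₂ : ℕ) (R : ℝ) : Prop :=
  ∃ (κ : ℂ) (v s ρ : PowerSeries ℂ), CConv v ∧ CConv s ∧ CUU ρ ∧
    PowerSeries.constantCoeff v = 1 ∧ PowerSeries.constantCoeff s ≠ 0 ∧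
    v ^ n₂ = PowerSeries.X * ρ + PowerSeries.C κ * s ^ n₁ ∧ R ≤ ‖PowerSeries.constantCoeff ρ‖

lemma CuspOne.symm {n₁ n₂ : ℕ} {R : ℝ} (h : CuspOne n₁ n₂ R) : CuspOne n₂ n₁ R := by
  obtain ⟨κ, v, s, ρ, hv, hs, hρ, hv1, hs1, hrel, hR⟩ := h
  set s₀ := PowerSeries.constantCoeff s with hs₀
  have h0 : κ * s₀ ^ n₁ = 1 := by
    have e1 := congrArg PowerSeries.constantCoeff hrel
    rw [map_add, map_mul, map_mul, map_pow, map_pow, hv1, PowerSeries.constantCoeff_X,
      zero_mul, zero_add, PowerSeries.constantCoeff_C, one_pow, ← hs₀] at e1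
    exact e1.symm
  refine ⟨1, PowerSeries.C s₀⁻¹ * s, v, -ρ, (CConv.C _).mul hs, hv, hρ.neg, ?_, ?_, ?_, ?_⟩
  · rw [map_mul, PowerSeries.constantCoeff_C, ← hs₀, inv_mul_cancel₀ hs1]
  · rw [hv1]; exact one_ne_zero
  · rw [mul_pow, map_one, one_mul, hrel, ← map_pow]
    have h1 : (s₀⁻¹) ^ n₁ = κ := by
      have h2 : s₀ ^ n₁ ≠ 0 := pow_ne_zero _ hs1
      rw [inv_pow]
      field_simp
      rw [mul_comm]
      exact h0.symm
    rw [h1]
    ring
  · rw [map_neg, norm_neg]
    exact hR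

/-- The radius of a compact orbifold at a vertex is at least the radius at the cusp which is
obtained by removing the vertex. -/
theorem CuspOne.tri {n₁ n₂ : ℕ} (hn₁ : 0 < n₁) {R : ℝ} (h : CuspOne n₁ n₂ R) {n : ℕ} (hn : 0 < n) :
    TriRadius n n₁ n₂ R := by
  obtain ⟨κ, v, s, ρ, hv, hs, hρ, hv1, hs1, hrel, hR⟩ := h
  obtain ⟨g, hg, hgn⟩ := (hρ.expand hn.ne').root hn
  obtain ⟨κ', hκ'⟩ := IsAlgClosed.exists_pow_nat_eq κ hn₁
  have hE1 : PowerSeries.constantCoeff (1 - PowerSeries.expand n hn.ne' v) = 0 := by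
    rw [map_sub, map_one, PowerSeries.constantCoeff_expand, hv1, sub_self]
  obtain ⟨h, hh⟩ := PowerSeries.X_dvd_iff.mpr hE1
  have hhC : CConv h := cconv_of_X_mul (by
    rw [← hh]
    exact CConv.one.sub (hv.expand hn.ne'))
  refine ⟨PowerSeries.X * g, PowerSeries.C κ' * PowerSeries.expand n hn.ne' s,
    PowerSeries.expand n hn.ne' v, g⁻¹ * h, 1, CConv.X.mul hg.conv, (CConv.C _).mul (hs.expand _),
    hv.expand _, hg.conv_inv.mul hhC, CConv.one, ?_, ?_, ?_, ?_⟩
  · rw [map_mul, PowerSeries.constantCoeff_X, zero_mul]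
  · have e1 := congrArg (PowerSeries.expand n hn.ne') hrel
    rw [map_pow, map_add, map_mul, map_mul, PowerSeries.expand_X, PowerSeries.expand_C, map_pow] at e1
    rw [e1, mul_pow, mul_pow, hgn, ← map_pow, hκ']
  · have e2 := hg.mul_inv
    linear_combination (PowerSeries.X * h) * e2 - hh
  · rw [PowerSeries.constantCoeff_expand, hv1, norm_one, one_pow, mul_one]
    have e3 : PowerSeries.coeff 1 (PowerSeries.X * g) = PowerSeries.constantCoeff g := by
      rw [show (1 : ℕ) = 0 + 1 from rfl, PowerSeries.coeff_succ_X_mul,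
        PowerSeries.coeff_zero_eq_constantCoeff_apply]
    rw [e3, ← norm_pow, ← map_pow, hgn, PowerSeries.constantCoeff_expand]
    exact hR

section quadratic

/-- Order two and three: the modular group. -/
theorem cuspOne_two_three {R : ℝ} (hR : R < 1728) : CuspOne 2 3 R := by
  obtain ⟨μ, hμ, hμ1, hμc⟩ := exists_lambdaC (c := R / 108) (by linarith)
  set L := PowerSeries.X * μ with hL
  have hLC : CConv L := CConv.X.mul hμ.conv
  have hL0 : PowerSeries.constantCoeff L = 0 := by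
    rw [hL, map_mul, PowerSeries.constantCoeff_X, zero_mul]
  have h14 : CConv (14 : PowerSeries ℂ) := CConv.ofNat 14
  have h34 : CConv (34 : PowerSeries ℂ) := CConv.ofNat 34
  refine ⟨1, 1 + 14 * L + L ^ 2, (1 + L) * (1 - 34 * L + L ^ 2),
    PowerSeries.C 108 * μ * (1 - L) ^ 4,
    (CConv.one.add (h14.mul hLC)).add (hLC.pow 2),
    (CConv.one.add hLC).mul ((CConv.one.sub (h34.mul hLC)).add (hLC.pow 2)),
    ((CUU.C (by norm_num)).mul hμ).mul (hμ1.pow 4), ?_, ?_, ?_, ?_⟩
  · simp only [map_mul, map_add, map_one, map_pow, hL0]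
    norm_num
  · simp only [map_mul, map_sub, map_add, map_one, map_pow, hL0]
    norm_num
  · have h1 : (PowerSeries.C (108 : ℂ) : PowerSeries ℂ) = 108 := map_ofNat _ 108
    rw [h1, map_one, one_mul]
    have h4 : PowerSeries.X * (108 * μ * (1 - L) ^ 4) = 108 * L * (1 - L) ^ 4 := by
      rw [hL]; ring
    rw [h4]
    ring
  · rw [map_mul, map_mul, PowerSeries.constantCoeff_C, map_pow, map_sub, map_one, hL0,
      sub_zero, one_pow, mul_one, norm_mul]
    have : ‖(108 : ℂ)‖ = 108 := by norm_num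
    rw [this]
    linarith

/-- Order two and four. -/
theorem cuspOne_four_two {R : ℝ} (hR : R < 256) : CuspOne 4 2 R := by
  obtain ⟨μ, hμ, hμ1, hμc⟩ := exists_lambdaC (c := R / 16) (by linarith)
  set L := PowerSeries.X * μ with hL
  have hLC : CConv L := CConv.X.mul hμ.conv
  have hL0 : PowerSeries.constantCoeff L = 0 := by
    rw [hL, map_mul, PowerSeries.constantCoeff_X, zero_mul]
  have h2C : CConv (2 : PowerSeries ℂ) := CConv.ofNat 2
  have h4C : CConv (4 : PowerSeries ℂ) := CConv.ofNat 4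
  refine ⟨1, 1 + 4 * (L * (1 - L)), 1 - 2 * L, PowerSeries.C 16 * μ * (1 - L),
    CConv.one.add (h4C.mul (hLC.mul (CConv.one.sub hLC))), CConv.one.sub (h2C.mul hLC),
    ((CUU.C (by norm_num)).mul hμ).mul hμ1, ?_, ?_, ?_, ?_⟩
  · simp only [map_mul, map_add, map_sub, map_one, hL0]
    norm_num
  · simp only [map_mul, map_sub, map_one, hL0]
    norm_num
  · have h1 : (PowerSeries.C (16 : ℂ) : PowerSeries ℂ) = 16 := map_ofNat _ 16
    rw [h1, map_one, one_mul]
    have h4 : PowerSeries.X * (16 * μ * (1 - L)) = 16 * L * (1 - L) := by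
      rw [hL]; ring
    rw [h4]
    ring
  · rw [map_mul, map_mul, PowerSeries.constantCoeff_C, map_sub, map_one, hL0,
      sub_zero, mul_one, norm_mul]
    have : ‖(16 : ℂ)‖ = 16 := by norm_num
    rw [this]
    linarith

/-- Order three and three. -/
theorem cuspOne_three_three {R : ℝ} (hR : R < 48 * Real.sqrt 3) : CuspOne 3 3 R := by
  have h3 : 0 < Real.sqrt 3 := Real.sqrt_pos.mpr (by norm_num)
  obtain ⟨μ, hμ, hμ1, hμc⟩ := exists_lambdaC (c := R / (3 * Real.sqrt 3)) (by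
    rw [div_lt_iff₀ (by positivity)]; linarith)
  set L := PowerSeries.X * μ with hL
  have hLC : CConv L := CConv.X.mul hμ.conv
  have hL0 : PowerSeries.constantCoeff L = 0 := by
    rw [hL, map_mul, PowerSeries.constantCoeff_X, zero_mul]
  -- a primitive cube root of unity
  set ω : ℂ := ⟨-1 / 2, Real.sqrt 3 / 2⟩ with hω
  have hsq : Real.sqrt 3 * Real.sqrt 3 = 3 := Real.mul_self_sqrt (by norm_num)
  have hω2 : ω ^ 2 = ⟨-1 / 2, -(Real.sqrt 3 / 2)⟩ := by
    rw [pow_two, hω]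
    apply Complex.ext
    · simp only [Complex.mul_re]
      linarith
    · simp only [Complex.mul_im]
      ring
  have hω1 : ω ^ 2 + ω + 1 = 0 := by
    rw [hω2, hω]
    apply Complex.ext
    · simp only [Complex.add_re, Complex.one_re, Complex.zero_re]
      norm_num
    · simp only [Complex.add_im, Complex.one_im, Complex.zero_im]
      norm_num
  have hdiff : ω ^ 2 - ω = ⟨0, -Real.sqrt 3⟩ := by
    rw [hω2, hω]
    apply Complex.ext
    · simp only [Complex.sub_re]
      norm_num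
    · simp only [Complex.sub_im]
      ring
  have hnorm : ‖ω ^ 2 - ω‖ = Real.sqrt 3 := by
    rw [hdiff, Complex.norm_def, Complex.normSq_mk]
    rw [show (0 : ℝ) * 0 + -Real.sqrt 3 * -Real.sqrt 3 = 3 by rw [neg_mul_neg, hsq]; norm_num]
  have hne : 3 * (ω ^ 2 - ω) ≠ 0 := by
    refine mul_ne_zero (by norm_num) ?_
    rw [← norm_ne_zero_iff, hnorm]
    exact h3.ne'
  refine ⟨1, 1 + PowerSeries.C (ω ^ 2) * L, 1 + PowerSeries.C ω * L,
    PowerSeries.C (3 * (ω ^ 2 - ω)) * μ * (1 - L),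
    CConv.one.add ((CConv.C _).mul hLC), CConv.one.add ((CConv.C _).mul hLC),
    ((CUU.C hne).mul hμ).mul hμ1, ?_, ?_, ?_, ?_⟩
  · simp only [map_mul, map_add, map_one, hL0]
    norm_num
  · simp only [map_mul, map_add, map_one, hL0]
    norm_num
  · have h1 : (PowerSeries.C ω : PowerSeries ℂ) ^ 2 + PowerSeries.C ω + 1 = 0 := by
      rw [← map_pow, ← map_add, ← map_one (PowerSeries.C (R := ℂ)), ← map_add, hω1, map_zero]
    have h4 : (PowerSeries.C (3 * (ω ^ 2 - ω)) : PowerSeries ℂ) =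
        3 * ((PowerSeries.C ω) ^ 2 - PowerSeries.C ω) := by
      rw [map_mul, map_sub, map_pow, map_ofNat]
    rw [h4, map_pow, map_one, one_mul]
    set W : PowerSeries ℂ := PowerSeries.C ω with hW
    have h5 : PowerSeries.X * (3 * (W ^ 2 - W) * μ * (1 - L)) = 3 * (W ^ 2 - W) * L * (1 - L) := by
      rw [hL]; ring
    rw [h5]
    have h6 : W ^ 3 = 1 := by linear_combination (W - 1) * h1
    linear_combination (3 * L ^ 2 * W + L ^ 3 * (W ^ 3 + 1) - L ^ 3) * h6
  · rw [map_mul, map_mul, PowerSeries.constantCoeff_C, map_sub, map_one, hL0,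
      sub_zero, mul_one, norm_mul, norm_mul, hnorm]
    have : ‖(3 : ℂ)‖ = 3 := by norm_num
    rw [this]
    rw [div_lt_iff₀ (by positivity)] at hμc
    linarith

/-- Order four and four. -/
theorem cuspOne_four_four {R : ℝ} (hR : R < 32) : CuspOne 4 4 R := by
  obtain ⟨c, hc0, hcR, hc⟩ : ∃ c : ℝ, 0 ≤ c ∧ R ≤ 8 * Real.sqrt c ∧ c < 16 := by
    refine ⟨(max R 0 / 8) ^ 2, by positivity, ?_, ?_⟩
    · rw [Real.sqrt_sq (by positivity)]
      have := le_max_left R 0
      linarith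
    · have : max R 0 < 32 := max_lt hR (by norm_num)
      have h0 : 0 ≤ max R 0 := le_max_right _ _
      nlinarith
  obtain ⟨μ, hμ, hμ1, hμc⟩ := exists_lambdaC hc
  -- `z ^ 2 = λ (X ^ 2)`
  obtain ⟨h, hh, hh2⟩ := (hμ.expand two_ne_zero).root two_pos
  set z := PowerSeries.X * h with hz
  have hzC : CConv z := CConv.X.mul hh.conv
  have hz0 : PowerSeries.constantCoeff z = 0 := by
    rw [hz, map_mul, PowerSeries.constantCoeff_X, zero_mul]
  have hz2 : 1 - z ^ 2 = PowerSeries.expand 2 two_ne_zero (1 - PowerSeries.X * μ) := by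
    rw [map_sub, map_one, map_mul, PowerSeries.expand_X, hz, mul_pow, hh2]
  have hz2U : CUU (1 - z ^ 2) := by
    rw [hz2]; exact hμ1.expand two_ne_zero
  have hI : (PowerSeries.C Complex.I : PowerSeries ℂ) ^ 2 = -1 := by
    rw [← map_pow, Complex.I_sq, map_neg, map_one]
  refine ⟨1, 1 + PowerSeries.C Complex.I * z, 1 - PowerSeries.C Complex.I * z,
    PowerSeries.C (8 * Complex.I) * h * (1 - z ^ 2),
    CConv.one.add ((CConv.C _).mul hzC), CConv.one.sub ((CConv.C _).mul hzC),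
    ((CUU.C (by simp)).mul hh).mul hz2U, ?_, ?_, ?_, ?_⟩
  · simp only [map_mul, map_add, map_one, hz0]
    norm_num
  · simp only [map_mul, map_sub, map_one, hz0]
    norm_num
  · rw [map_one, one_mul, map_mul, map_ofNat]
    set I' : PowerSeries ℂ := PowerSeries.C Complex.I with hI'
    have h5 : PowerSeries.X * (8 * I' * h * (1 - z ^ 2)) = 8 * I' * z * (1 - z ^ 2) := by
      rw [hz]; ring
    rw [h5]
    linear_combination (8 * I' * z ^ 3) * hI
  · refine hcR.trans ?_
    rw [map_mul, map_mul, PowerSeries.constantCoeff_C, map_sub, map_one, map_pow, hz0,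
      zero_pow two_ne_zero, sub_zero, mul_one, norm_mul, norm_mul, Complex.norm_I, mul_one]
    have h6 : ‖(8 : ℂ)‖ = 8 := by norm_num
    rw [h6]
    have h7 : c ≤ ‖PowerSeries.constantCoeff h‖ ^ 2 := by
      rw [← norm_pow, ← map_pow, hh2, PowerSeries.constantCoeff_expand]
      exact hμc.le
    have h8 : Real.sqrt c ≤ ‖PowerSeries.constantCoeff h‖ := by
      rw [Real.sqrt_le_left (norm_nonneg _)]
      exact h7
    linarith

/-- Order three at infinity, any order at one. -/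
theorem cuspOne_any_three {n : ℕ} (hn : 0 < n) {R : ℝ} (hR : R < 27) : CuspOne n 3 R := by
  obtain ⟨a, b, ρ, ha, ha1, hb, hρ, hrel, hc⟩ := exists_cubic_gt hR
  obtain ⟨s, hs, hsn⟩ := (hb.pow 3).root hn
  refine ⟨1, a, s, ρ, ha, hs.conv, hρ, ha1, hs.ne, ?_, hc.le⟩
  rw [map_one, one_mul, hsn]
  exact hrel

/-- Order two and six. -/
theorem cuspOne_two_six {R : ℝ} (hR : R < 108) : CuspOne 2 6 R := by
  obtain ⟨a, b, ρ, ha, ha1, hb, hρ, hrel, hc⟩ := exists_cubic_gt (c := R / 4) (by linarith)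
  have hb3 : (PowerSeries.constantCoeff b) ^ 3 = 1 := by
    have e1 := congrArg PowerSeries.constantCoeff hrel
    rw [map_add, map_mul, map_pow, map_pow, ha1, PowerSeries.constantCoeff_X, zero_mul,
      zero_add, one_pow] at e1
    exact e1.symm
  refine ⟨1, a, b ^ 3 - PowerSeries.X * ρ, PowerSeries.C 4 * ρ * b ^ 3, ha,
    (hb.conv.pow 3).sub (CConv.X.mul hρ.conv), ((CUU.C (by norm_num)).mul hρ).mul (hb.pow 3), ha1,
    ?_, ?_, ?_⟩
  · rw [map_sub, map_mul, map_pow, hb3, PowerSeries.constantCoeff_X]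
    norm_num
  · have e1 : (PowerSeries.C (4 : ℂ) : PowerSeries ℂ) = 4 := map_ofNat _ 4
    have e2 : a ^ 6 = (a ^ 3) ^ 2 := by ring
    rw [map_one, one_mul, e1, e2, hrel]
    ring
  · rw [map_mul, map_mul, map_pow, hb3, mul_one, PowerSeries.constantCoeff_C, norm_mul]
    have : ‖(4 : ℂ)‖ = 4 := by norm_num
    rw [this]
    linarith

/-- Any orders. -/
theorem cuspOne_any {n₁ n₂ : ℕ} (hn₁ : 0 < n₁) {R : ℝ} (hR : R < 16) : CuspOne n₁ n₂ R := by
  obtain ⟨μ, hμ, hμ1, hμc⟩ := exists_lambdaC hR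
  obtain ⟨s, hs, hsn⟩ := hμ1.root hn₁
  refine ⟨1, 1, s, μ, CConv.one, hs.conv, hμ, map_one _, hs.ne, ?_, hμc.le⟩
  rw [map_one, one_mul, hsn, one_pow]
  ring

/-- Order two at one, any order at infinity. -/
theorem cuspOne_two_any {n : ℕ} {R : ℝ} (hR : R < 64) : CuspOne 2 n R := by
  obtain ⟨μ, hμ, hμ1, hμc⟩ := exists_lambdaC (c := R / 4) (by linarith)
  set L := PowerSeries.X * μ with hL
  have hLC : CConv L := CConv.X.mul hμ.conv
  have hL0 : PowerSeries.constantCoeff L = 0 := by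
    rw [hL, map_mul, PowerSeries.constantCoeff_X, zero_mul]
  have h2C : CConv (2 : PowerSeries ℂ) := CConv.ofNat 2
  refine ⟨1, 1, 1 - 2 * L, PowerSeries.C 4 * μ * (1 - L), CConv.one,
    CConv.one.sub (h2C.mul hLC), ((CUU.C (by norm_num)).mul hμ).mul hμ1, map_one _, ?_, ?_, ?_⟩
  · simp only [map_mul, map_sub, map_one, hL0]
    norm_num
  · have h1 : (PowerSeries.C (4 : ℂ) : PowerSeries ℂ) = 4 := map_ofNat _ 4
    rw [h1, map_one, one_mul, one_pow]
    have h4 : PowerSeries.X * (4 * μ * (1 - L)) = 4 * L * (1 - L) := by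
      rw [hL]; ring
    rw [h4]
    ring
  · rw [map_mul, map_mul, PowerSeries.constantCoeff_C, map_sub, map_one, hL0,
      sub_zero, mul_one, norm_mul]
    have : ‖(4 : ℂ)‖ = 4 := by norm_num
    rw [this]
    linarith

end quadratic

lemma cuspOne_of_lt {n₁ n₂ : ℕ} (hn₁ : 0 < n₁) (hn₂ : 0 < n₂) {R : ℝ}
    (hR : R < triRadius n₁ n₂) : CuspOne n₁ n₂ R := by
  unfold triRadius at hR
  split at hR
  · exact cuspOne_two_three hR
  · exact (cuspOne_two_three hR).symm
  · exact (cuspOne_four_two hR).symm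
  · exact cuspOne_four_two hR
  · exact cuspOne_two_six hR
  · exact (cuspOne_two_six hR).symm
  · exact cuspOne_three_three hR
  · exact cuspOne_four_four hR
  · exact cuspOne_two_any hR
  · exact (cuspOne_two_any hR).symm
  · exact (cuspOne_any_three hn₂ hR).symm
  · exact cuspOne_any_three hn₁ hR
  · exact cuspOne_any hn₁ hR

/-- The radii of all compact triangle orbifolds `(n; n₁, n₂)` are at least the radius of the
orbifold `(∞, n₁, n₂)` at its cusp. -/
theorem tri_of_lt {n n₁ n₂ : ℕ} (hn : 0 < n) (hn₁ : 0 < n₁) (hn₂ : 0 < n₂) {R : ℝ}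
    (hR : R < triRadius n₁ n₂) : TriRadius n n₁ n₂ R :=
  (cuspOne_of_lt hn₁ hn₂ hR).tri hn₁ hn

end Pool.Agent.H925
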