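import Pool.Agent.H925.CritU
import Pool.Graph.R_pool_sql_team_seeded_620a6dc7.Helper338PC.KMain

set_option autoImplicit false

open Finset

namespace Pool.Agent.H925

open Pool.Agent.Helper338PC

section comb

variable {idx : Type*} [Fintype idx]

/-- A combination of the entries of a matrix of power series with integral coefficients. -/
noncomputable def comb (U : Matrix idx idx (PowerSeries ℚ)) (c : idx × idx → ℤ) : PowerSeries ℚ :=
  ∑ x : idx × idx, PowerSeries.C (c x : ℚ) * U x.1 x.2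

lemma coeff_comb (U : Matrix idx idx (PowerSeries ℚ)) (c : idx × idx → ℤ) (s : ℕ) :
    PowerSeries.coeff s (comb U c) = ∑ x : idx × idx, (c x : ℚ) * PowerSeries.coeff s (U x.1 x.2) := by
  unfold comb
  rw [map_sum]
  exact Finset.sum_congr rfl fun x _ => PowerSeries.coeff_C_mul _ _ _

lemma norm_coeff_comb {p : ℕ} [Fact p.Prime] {U : Matrix idx idx (PowerSeries ℚ)}
    (c : idx × idx → ℤ) {B : ℝ} (hB : 0 ≤ B) {s : ℕ}
    (h : ∀ i j, ‖((PowerSeries.coeff s (U i j) : ℚ) : ℚ_[p])‖ ≤ B) :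
    ‖((PowerSeries.coeff s (comb U c) : ℚ) : ℚ_[p])‖ ≤ B := by
  rw [coeff_comb, Rat.cast_sum]
  refine IsUltrametricDist.norm_sum_le_of_forall_le_of_nonneg hB fun x _ => ?_
  rw [Rat.cast_mul, norm_mul, Rat.cast_intCast]
  calc ‖((c x : ℤ) : ℚ_[p])‖ * ‖((PowerSeries.coeff s (U x.1 x.2) : ℚ) : ℚ_[p])‖
      ≤ 1 * ‖((PowerSeries.coeff s (U x.1 x.2) : ℚ) : ℚ_[p])‖ :=
        mul_le_mul_of_nonneg_right (Padic.norm_int_le_one _) (norm_nonneg _)
    _ ≤ B := by rw [one_mul]; exact h _ _

lemma PadicRadius_comb {p : ℕ} [Fact p.Prime] {U : Matrix idx idx (PowerSeries ℚ)}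
    (c : idx × idx → ℤ) {ℓ : ℝ} (h : ∀ i j, PadicRadius p (U i j) ℓ) :
    PadicRadius p (comb U c) ℓ := by
  intro ε hε
  choose K hK using fun i j => h i j ε hε
  refine ⟨∑ x : idx × idx, |K x.1 x.2|, fun s => ?_⟩
  refine norm_coeff_comb c (by positivity) fun i j => (hK i j s).trans ?_
  refine mul_le_mul_of_nonneg_right ((le_abs_self _).trans ?_) (by positivity)
  exact Finset.single_le_sum (f := fun x : idx × idx => |K x.1 x.2|) (fun x _ => abs_nonneg _)
    (mem_univ (i, j))

end comb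

section core

variable {idx : Type*} [Fintype idx] [DecidableEq idx] {A₁ : Matrix idx idx (Polynomial ℤ)}
  {D n : ℕ} {β : idx → ℚ} {U : Matrix idx idx (PowerSeries ℚ)}

/-- Common denominators of the powers of the entries of the fundamental matrix. -/
theorem gden_comb (hD : D ≠ 0) (hgap : ∀ i j, |β i - β j| < 1) (hdet : (ccM U).det ≠ 0)
    (hU : ∀ j, IsSolG (Aps (Int.castRingHom ℚ) (D : ℚ)⁻¹ n A₁) (β j) (fun i => U i j))
    (hint : ∀ i j, ∃ z : ℤ, PowerSeries.coeff 0 (U i j) = z) {S : Finset ℕ}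
    (hS : ∀ p ∈ S, p.Prime) (hDS : ∀ p, p.Prime → p ∣ D → p ∈ S) {E : Set ℕ}
    (hE : Summable (sparseTerm E)) {ℓ : ℕ → ℝ} (hℓ : ∀ p, 0 ≤ ℓ p)
    (hbad : ∀ (p : ℕ) [Fact p.Prime], p ∈ S → ∀ i j, PadicRadius p (U i j) (ℓ p))
    (hgood : ∀ (p : ℕ) [Fact p.Prime], p ∉ S → p ∉ E →
      MG (Aps (Int.castRingHom (ZMod p)) (D : ZMod p)⁻¹ n A₁) p = 0) {Λ : ℝ}
    (hΛ : Real.exp (defect (numExp β) S E ℓ) < Λ) (c₀ : idx × idx → ℤ) :
    DenGrowth Λ (comb U c₀) := by
  classical
  intro k
  -- a little room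
  set L1 := defect (numExp β) S E ℓ with hL1
  have hΛ0 : 0 < Λ := (Real.exp_pos _).trans hΛ
  have hlog : L1 < Real.log Λ := by
    have := Real.log_lt_log (Real.exp_pos _) hΛ
    rwa [Real.log_exp] at this
  set σ : ℝ := ∑ p ∈ S, Real.log p with hσ
  have hσ0 : 0 ≤ σ := Finset.sum_nonneg fun p hp =>
    Real.log_nonneg (by exact_mod_cast (hS p hp).one_lt.le)
  set ε : ℝ := (Real.log Λ - L1) / (2 * (σ + 1)) with hε
  have hε0 : 0 < ε := div_pos (by linarith) (by positivity)
  have hεσ : ε * σ < Real.log Λ - L1 := by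
    rw [hε, div_mul_eq_mul_div, div_lt_iff₀ (by positivity)]
    nlinarith
  -- the constants at the bad primes
  have hbad' : ∀ p : ℕ, ∃ c : ℕ, (p ∉ S → c = 0) ∧ ∀ [Fact p.Prime], p ∈ S → ∀ s,
      ‖((PowerSeries.coeff s (comb U c₀) : ℚ) : ℚ_[p])‖ ≤
        ((p : ℝ) ^ (ℓ p + ε)) ^ s * (p : ℝ) ^ c := by
    intro p
    by_cases hp : p ∈ S
    · have hpp := hS p hp
      have := Fact.mk hpp
      obtain ⟨K, hK⟩ := PadicRadius_comb c₀ (hbad p hp) ε hε0
      have hp1 : (1 : ℝ) < p := by exact_mod_cast hpp.one_lt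
      obtain ⟨c, hc⟩ := pow_unbounded_of_one_lt K hp1
      refine ⟨c, fun h => absurd hp h, fun _ s => (hK s).trans ?_⟩
      rw [mul_comm, Real.rpow_mul (by positivity), Real.rpow_natCast]
      exact mul_le_mul_of_nonneg_left hc.le (by positivity)
    · exact ⟨0, fun _ => rfl, fun h => absurd h hp⟩
  choose c hc0 hc using hbad'
  set α : ℕ → ℝ := fun p => if p ∈ S then ℓ p + ε else if p.Prime then
    (if p ∈ E then numExp β / ((p : ℝ) - 1) else numExp β / ((p : ℝ) * (p - 1))) else 0 with hα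
  have hαS : ∀ p, p ∈ S → α p = ℓ p + ε := fun p hp => if_pos hp
  have hαE : ∀ p, p ∉ S → p.Prime → p ∈ E → α p = numExp β / ((p : ℝ) - 1) := by
    intro p h1 h2 h3
    rw [hα]
    simp only
    rw [if_neg h1, if_pos h2, if_pos h3]
  have hαG : ∀ p, p ∉ S → p.Prime → p ∉ E → α p = numExp β / ((p : ℝ) * (p - 1)) := by
    intro p h1 h2 h3
    rw [hα]
    simp only
    rw [if_neg h1, if_pos h2, if_neg h3]
  have hα0 : ∀ p, 0 ≤ α p := by
    intro p
    by_cases h : p ∈ S
    · rw [hαS p h]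
      have := hℓ p
      linarith
    · by_cases hp : p.Prime
      · have h2 : (1 : ℝ) ≤ p := by exact_mod_cast hp.one_lt.le
        have h3 : (0 : ℝ) ≤ p - 1 := by linarith
        by_cases hE' : p ∈ E
        · rw [hαE p h hp hE']; positivity
        · rw [hαG p h hp hE']; positivity
      · rw [hα]
        simp only
        rw [if_neg h, if_neg hp]
  have hcmp : ∀ n : ℕ, dmax β * (n + 2) ≤ 2 * dmax β * (n + 1) := by
    intro n
    have : n + 2 ≤ 2 * (n + 1) := by omega
    calc dmax β * (n + 2) ≤ dmax β * (2 * (n + 1)) := Nat.mul_le_mul_left _ this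
      _ = _ := by ring
  refine den_abstract_sparse (f := comb U c₀) (S := S) hS hE (α := α) hα0 (numExp β) (2 * dmax β)
    (by unfold dmax; omega) c hc0 ?_ ?_ (L0 := L1 + ε * σ) ?_ ?_ k
  · intro p hp n s hs
    have hlogle : (p : ℝ) ^ (numExp β * Nat.log p (dmax β * (n + 2))) ≤
        (p : ℝ) ^ (numExp β * Nat.log p (2 * dmax β * (n + 1)) + c p) :=
      pow_le_pow_right₀ (by exact_mod_cast hp.out.one_lt.le)
        ((Nat.mul_le_mul_left _ (Nat.log_mono_right (hcmp n))).trans (Nat.le_add_right _ _))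
    by_cases hpS : p ∈ S
    · rw [hαS p hpS]
      refine (hc p hpS s).trans (mul_le_mul_of_nonneg_left ?_ (by positivity))
      exact pow_le_pow_right₀ (by exact_mod_cast hp.out.one_lt.le) (Nat.le_add_left _ _)
    · have hpD : ¬ p ∣ D := fun h => hpS (hDS p hp.out h)
      by_cases hpE : p ∈ E
      · rw [hαE p hpS hp.out hpE]
        refine norm_coeff_comb c₀ (by positivity) fun j i => ?_
        obtain ⟨g1, g2, g3⟩ := Gset_spec (i := i) hgap p
        refine (gmid_local hD hgap hdet hU hint hpD i s j).trans ?_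
        refine (prod_omegaf_le hp.out g1 g2 g3 hs (card_Gset_le β i p)
          (card_Gset_le β i p)).trans ?_
        rw [Nat.cast_zero, zero_add, pow_zero, one_mul]
        exact mul_le_mul_of_nonneg_left hlogle (by positivity)
      · rw [hαG p hpS hp.out hpE]
        refine norm_coeff_comb c₀ (by positivity) fun j i => ?_
        obtain ⟨g1, g2, g3⟩ := Gset_spec (i := i) hgap p
        refine (ggood_local hD hgap hdet hU hint hpD (hgood p hpS hpE) i s j).trans ?_
        refine (prod_omegaf_le hp.out g1 g2 g3 hs (card_Gset_le β i p)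
          (card_Gset_le β i p)).trans ?_
        rw [Nat.cast_zero, zero_add, pow_one]
        exact mul_le_mul_of_nonneg_left hlogle (by positivity)
  · intro p hp n hpS hltE hlt s hs
    refine norm_coeff_comb c₀ zero_le_one fun j i => ?_
    obtain ⟨g1, g2, g3⟩ := Gset_spec (i := i) hgap p
    have hpD : ¬ p ∣ D := fun h => hpS (hDS p hp.out h)
    by_cases hpE : p ∈ E
    · refine (gmid_local hD hgap hdet hU hint hpD i s j).trans (le_of_eq ?_)
      exact prod_omegaf_eq_one' hp.out g1 g2 g3 hs (lt_of_le_of_lt (hcmp n) (hltE hpE))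
    · refine (ggood_local hD hgap hdet hU hint hpD (hgood p hpS hpE) i s j).trans (le_of_eq ?_)
      exact prod_omegaf_eq_one hp.out g1 g2 g3 hs (lt_of_le_of_lt (hcmp n) hlt)
  · intro T hT
    have h1 : ∑ p ∈ T, α p * Real.log p = ∑ p ∈ T.filter (· ∈ S), (ℓ p + ε) * Real.log p +
        ∑ p ∈ T.filter (· ∉ S), numExp β * outTerm S E p := by
      rw [← Finset.sum_filter_add_sum_filter_not T (· ∈ S)]
      congr 1
      · refine Finset.sum_congr rfl fun p hp => ?_
        rw [hαS p (Finset.mem_filter.mp hp).2]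
      · refine Finset.sum_congr rfl fun p hp => ?_
        rw [Finset.mem_filter] at hp
        have h2 : p.Prime ∧ p ∉ S := ⟨hT p hp.1, hp.2⟩
        unfold outTerm
        rw [if_pos h2]
        by_cases hpE : p ∈ E
        · rw [hαE p hp.2 (hT p hp.1) hpE, if_pos hpE]
          ring
        · rw [hαG p hp.2 (hT p hp.1) hpE, if_neg hpE]
          ring
    have h2 : ∑ p ∈ T.filter (· ∈ S), (ℓ p + ε) * Real.log p ≤
        ∑ p ∈ S, (ℓ p + ε) * Real.log p := by
      refine Finset.sum_le_sum_of_subset_of_nonneg (fun p hp => (Finset.mem_filter.mp hp).2)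
        fun p hp _ => ?_
      have h3 := hℓ p
      have h4 : 0 ≤ Real.log p := Real.log_nonneg (by exact_mod_cast (hS p hp).one_lt.le)
      positivity
    have h3 : ∑ p ∈ S, (ℓ p + ε) * Real.log p = ∑ p ∈ S, ℓ p * Real.log p + ε * σ := by
      rw [hσ, Finset.mul_sum, ← Finset.sum_add_distrib]
      exact Finset.sum_congr rfl fun p _ => by ring
    have h4 : ∑ p ∈ T.filter (· ∉ S), numExp β * outTerm S E p ≤
        numExp β * ∑' p : ℕ, outTerm S E p := by
      rw [← Finset.mul_sum]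
      refine mul_le_mul_of_nonneg_left ?_ (by positivity)
      exact (summable_outTerm S hE).sum_le_tsum _ fun p _ => outTerm_nonneg S E p
    rw [h1, hL1]
    unfold defect
    linarith
  · calc Real.exp (L1 + ε * σ) < Real.exp (Real.log Λ) := Real.exp_lt_exp.mpr (by linarith)
      _ = Λ := Real.exp_log hΛ0


end core

end Pool.Agent.H925
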