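import Pool.Agent.H925.CritM

set_option autoImplicit false

open PowerSeries Finset

namespace Pool.Agent.H925

open Pool.Agent.Helper338PC (th coeff_th th_mul' th_add' th_sum' th_C th_one)

section pow

lemma th_pow' {R : Type*} [CommRing R] (f : PowerSeries R) (n : ℕ) :
    f * th (f ^ n) = (n : PowerSeries R) * f ^ n * th f := by
  induction n with
  | zero => rw [pow_zero, th_one, Nat.cast_zero]; ring
  | succ n ih =>
    rw [pow_succ, th_mul', mul_add]
    calc f * (th (f ^ n) * f) + f * (f ^ n * th f)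
        = (f * th (f ^ n)) * f + f ^ n * f * th f := by ring
      _ = ((n : PowerSeries R) * f ^ n * th f) * f + f ^ n * f * th f := by rw [ih]
      _ = _ := by push_cast; ring

lemma th_smulC {R : Type*} [CommRing R] (c : R) (f : PowerSeries R) :
    th (PowerSeries.C c * f) = PowerSeries.C c * th f := by
  rw [th_mul', th_C, zero_mul, zero_add]

end pow

section orb

variable {idx : Type*} [Fintype idx] [DecidableEq idx]

/-- The matrix of constants `M` applied to a vector of power series. -/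
noncomputable def app (M : Matrix idx idx ℂ) (F : idx → PowerSeries ℂ) (i : idx) : PowerSeries ℂ :=
  ∑ l, PowerSeries.C (M i l) * F l

omit [DecidableEq idx] in
lemma app_add (M : Matrix idx idx ℂ) (F G : idx → PowerSeries ℂ) (i : idx) :
    app M (fun l => F l + G l) i = app M F i + app M G i := by
  unfold app
  rw [← Finset.sum_add_distrib]
  exact Finset.sum_congr rfl fun l _ => by ring

omit [DecidableEq idx] in
lemma app_mul (M : Matrix idx idx ℂ) (g : PowerSeries ℂ) (F : idx → PowerSeries ℂ) (i : idx) :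
    app M (fun l => g * F l) i = g * app M F i := by
  unfold app
  rw [Finset.mul_sum]
  exact Finset.sum_congr rfl fun l _ => by ring

omit [DecidableEq idx] in
lemma app_sum {ι : Type*} (s : Finset ι) (M : Matrix idx idx ℂ) (F : ι → idx → PowerSeries ℂ)
    (i : idx) : app M (fun l => ∑ j ∈ s, F j l) i = ∑ j ∈ s, app M (F j) i := by
  unfold app
  rw [Finset.sum_comm]
  exact Finset.sum_congr rfl fun l _ => by rw [Finset.mul_sum]

omit [DecidableEq idx] in
lemma app_app (M N : Matrix idx idx ℂ) (F : idx → PowerSeries ℂ) (i : idx) :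
    app M (app N F) i = app (M * N) F i := by
  unfold app
  simp_rw [Finset.mul_sum]
  rw [Finset.sum_comm]
  refine Finset.sum_congr rfl fun m _ => ?_
  rw [Matrix.mul_apply, map_sum, Finset.sum_mul]
  exact Finset.sum_congr rfl fun l _ => by rw [map_mul]; ring

omit [DecidableEq idx] in
lemma app_smul (c : ℂ) (M : Matrix idx idx ℂ) (F : idx → PowerSeries ℂ) (i : idx) :
    app (c • M) F i = PowerSeries.C c * app M F i := by
  unfold app
  rw [Finset.mul_sum]
  refine Finset.sum_congr rfl fun l _ => ?_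
  rw [Matrix.smul_apply, smul_eq_mul, map_mul]
  ring

omit [DecidableEq idx] in
lemma app_sumM {ι : Type*} (s : Finset ι) (M : ι → Matrix idx idx ℂ) (F : idx → PowerSeries ℂ)
    (i : idx) : app (∑ j ∈ s, M j) F i = ∑ j ∈ s, app (M j) F i := by
  unfold app
  rw [Finset.sum_comm]
  refine Finset.sum_congr rfl fun l _ => ?_
  rw [Matrix.sum_apply, map_sum, Finset.sum_mul]

lemma app_one (F : idx → PowerSeries ℂ) (i : idx) : app (1 : Matrix idx idx ℂ) F i = F i := by
  unfold app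
  rw [Finset.sum_eq_single i]
  · rw [Matrix.one_apply_eq, map_one, one_mul]
  · intro l _ hl
    rw [Matrix.one_apply_ne hl.symm, map_zero, zero_mul]
  · intro h; exact absurd (mem_univ i) h

omit [DecidableEq idx] in
lemma app_th (M : Matrix idx idx ℂ) (F : idx → PowerSeries ℂ) (i : idx) :
    th (app M F i) = app M (fun l => th (F l)) i := by
  unfold app
  rw [th_sum']
  exact Finset.sum_congr rfl fun l _ => th_smulC _ _

/-- A decomposition of the space into eigenspaces of `c` for the eigenvalues `j / n`,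
`0 ≤ j < n`. -/
structure Spec (n : ℕ) (c : Matrix idx idx ℂ) (P : Fin n → Matrix idx idx ℂ) : Prop where
  sum_one : ∑ j, P j = 1
  left_mul : ∀ j : Fin n, P j * c = ((j : ℕ) / (n : ℂ)) • P j
  sum_eq : c = ∑ j : Fin n, ((j : ℕ) / (n : ℂ)) • P j

/-- Solutions of a system on the triangle orbifold, pulled back to the unit disc, converge in the
unit disc. Here `v ^ n₂ = τ + κ s ^ n₁`, and the system is
`th F = (b dlog τ + c dlog s ^ n₁ + e dlog v ^ n₂) F - lam F`, `b = - c - e`. -/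
theorem cconv_orb {n₁ n₂ : ℕ} (hn₁ : 0 < n₁) (hn₂ : 0 < n₂)
    {s v τ τ' a w : PowerSeries ℂ} {κ : ℂ} {m : ℕ} (hs : CConv s) (hv : CConv v) (ha : CConv a)
    (hs0 : s ≠ 0) (hv0 : v ≠ 0) (hτ' : CConv τ') (hττ' : τ * τ' = PowerSeries.X ^ m)
    (hrel : v ^ n₂ = τ + PowerSeries.C κ * s ^ n₁) (hthτ : th τ = a * τ)
    (hw : (n₁ : PowerSeries ℂ) * v * th s - (n₂ : PowerSeries ℂ) * s * th v = τ * w)
    {c e : Matrix idx idx ℂ} {P : Fin n₁ → Matrix idx idx ℂ} {E : Fin n₂ → Matrix idx idx ℂ}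
    (hP : Spec n₁ c P) (hE : Spec n₂ e E) {lam : ℂ} {F : idx → PowerSeries ℂ}
    (hF : ∀ i, s * v * th (F i) = (n₁ : PowerSeries ℂ) * v * th s * app c F i +
      (n₂ : PowerSeries ℂ) * s * th v * app e F i - a * s * v * (app c F i + app e F i) -
        PowerSeries.C lam * s * v * F i)
    {Y : Fin n₁ → idx → PowerSeries ℂ} {Z : Fin n₂ → idx → PowerSeries ℂ}
    (hY : ∀ j i, app (P j) F i = s ^ (j : ℕ) * Y j i)
    (hZ : ∀ j i, app (E j) F i = v ^ (j : ℕ) * Z j i) (i : idx) : CConv (F i) := by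
  classical
  have hτ0 : τ ≠ 0 := by
    rintro rfl
    rw [zero_mul] at hττ'
    exact pow_ne_zero m PowerSeries.X_ne_zero hττ'.symm
  -- `w` converges
  have hwC : CConv w := by
    refine cconv_of_X_pow_mul (m := m) ?_
    have e1 : PowerSeries.X ^ m * w = τ' * ((n₁ : PowerSeries ℂ) * v * th s -
        (n₂ : PowerSeries ℂ) * s * th v) := by
      rw [hw, ← hττ']
      ring
    rw [e1]
    exact hτ'.mul ((((CConv.natCast _).mul hv).mul hs.th).sub
      (((CConv.natCast _).mul hs).mul hv.th))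
  -- the two logarithmic derivatives
  set h₁ : PowerSeries ℂ := (n₁ : PowerSeries ℂ) * th s - a * s with hh₁
  set h₂ : PowerSeries ℂ := (n₂ : PowerSeries ℂ) * th v - a * v with hh₂
  obtain ⟨m₁, rfl⟩ : ∃ m₁, n₁ = m₁ + 1 := ⟨n₁ - 1, by omega⟩
  obtain ⟨m₂, rfl⟩ : ∃ m₂, n₂ = m₂ + 1 := ⟨n₂ - 1, by omega⟩
  have hpow : v ^ m₂ * h₂ = PowerSeries.C κ * s ^ m₁ * h₁ := by
    -- differentiate the relation
    have e1 := congrArg th hrel
    rw [th_add', th_smulC, hthτ] at e1
    have e2 := th_pow' v (m₂ + 1)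
    have e3 := th_pow' s (m₁ + 1)
    have e4 : th (v ^ (m₂ + 1)) = ((m₂ + 1 : ℕ) : PowerSeries ℂ) * v ^ m₂ * th v := by
      apply mul_left_cancel₀ hv0
      rw [e2, pow_succ]
      ring
    have e5 : th (s ^ (m₁ + 1)) = ((m₁ + 1 : ℕ) : PowerSeries ℂ) * s ^ m₁ * th s := by
      apply mul_left_cancel₀ hs0
      rw [e3, pow_succ]
      ring
    rw [e4, e5] at e1
    rw [hh₂, hh₁]
    calc v ^ m₂ * (((m₂ + 1 : ℕ) : PowerSeries ℂ) * th v - a * v)
        = ((m₂ + 1 : ℕ) : PowerSeries ℂ) * v ^ m₂ * th v - a * v ^ (m₂ + 1) := by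
          rw [pow_succ v m₂]; ring
      _ = (a * τ + PowerSeries.C κ * (((m₁ + 1 : ℕ) : PowerSeries ℂ) * s ^ m₁ * th s)) -
            a * (τ + PowerSeries.C κ * s ^ (m₁ + 1)) := by rw [e1, hrel]
      _ = _ := by rw [pow_succ s m₁]; ring
  have hD : v * h₁ - s * h₂ = τ * w := by
    rw [← hw, hh₁, hh₂]
    ring
  have hh1 : h₁ = v ^ m₂ * w := by
    apply mul_left_cancel₀ hτ0
    calc τ * h₁ = (v ^ (m₂ + 1) - PowerSeries.C κ * s ^ (m₁ + 1)) * h₁ := by rw [hrel]; ring
      _ = v ^ m₂ * (v * h₁) - s * (PowerSeries.C κ * s ^ m₁ * h₁) := by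
          rw [pow_succ, pow_succ]; ring
      _ = v ^ m₂ * (v * h₁) - s * (v ^ m₂ * h₂) := by rw [hpow]
      _ = v ^ m₂ * (v * h₁ - s * h₂) := by ring
      _ = τ * (v ^ m₂ * w) := by rw [hD]; ring
  have hh2 : h₂ = PowerSeries.C κ * s ^ m₁ * w := by
    apply mul_left_cancel₀ hτ0
    calc τ * h₂ = (v ^ (m₂ + 1) - PowerSeries.C κ * s ^ (m₁ + 1)) * h₂ := by rw [hrel]; ring
      _ = v * (v ^ m₂ * h₂) - PowerSeries.C κ * s ^ m₁ * (s * h₂) := by
          rw [pow_succ, pow_succ]; ring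
      _ = v * (PowerSeries.C κ * s ^ m₁ * h₁) - PowerSeries.C κ * s ^ m₁ * (s * h₂) := by
          rw [hpow]
      _ = PowerSeries.C κ * s ^ m₁ * (v * h₁ - s * h₂) := by ring
      _ = τ * (PowerSeries.C κ * s ^ m₁ * w) := by rw [hD]; ring
  -- expressions of `c F` and `e F`
  have hcF : ∀ i, app c F i =
      ∑ j : Fin (m₁ + 1), PowerSeries.C ((j : ℕ) / ((m₁ + 1 : ℕ) : ℂ)) * (s ^ (j : ℕ) * Y j i) := by
    intro i
    conv_lhs => rw [hP.sum_eq]
    rw [app_sumM]
    refine Finset.sum_congr rfl fun j _ => ?_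
    rw [app_smul, hY]
  have heF : ∀ i, app e F i =
      ∑ j : Fin (m₂ + 1), PowerSeries.C ((j : ℕ) / ((m₂ + 1 : ℕ) : ℂ)) * (v ^ (j : ℕ) * Z j i) := by
    intro i
    conv_lhs => rw [hE.sum_eq]
    rw [app_sumM]
    refine Finset.sum_congr rfl fun j _ => ?_
    rw [app_smul, hZ]
  -- the equation for `F`, applied to a matrix
  have happ : ∀ (M : Matrix idx idx ℂ) i, s * v * th (app M F i) =
      ((m₁ + 1 : ℕ) : PowerSeries ℂ) * v * th s * app M (app c F) i +
      ((m₂ + 1 : ℕ) : PowerSeries ℂ) * s * th v * app M (app e F) i -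
        a * s * v * (app M (app c F) i + app M (app e F) i) -
        PowerSeries.C lam * s * v * app M F i := by
    intro M i
    rw [app_th, ← app_mul]
    have e1 : (fun l => s * v * th (F l)) = fun l =>
        (((m₁ + 1 : ℕ) : PowerSeries ℂ) * v * th s - a * s * v) * app c F l +
        ((((m₂ + 1 : ℕ) : PowerSeries ℂ) * s * th v - a * s * v) * app e F l +
          (-(PowerSeries.C lam * s * v)) * F l) := by
      funext l
      rw [hF l]
      ring
    rw [e1, app_add, app_add, app_mul, app_mul, app_mul]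
    ring
  have hYeq : ∀ (j : Fin (m₁ + 1)) i, th (Y j i) =
      PowerSeries.C κ * w * s ^ (m₁ - (j : ℕ)) * (∑ k : Fin (m₂ + 1),
        PowerSeries.C ((k : ℕ) / ((m₂ + 1 : ℕ) : ℂ)) * (v ^ ((k : ℕ) - 1) * app (P j) (Z k) i)) -
      (PowerSeries.C ((j : ℕ) / ((m₁ + 1 : ℕ) : ℂ)) * a + PowerSeries.C lam) * Y j i := by
    intro j i
    have hj : (j : ℕ) ≤ m₁ := Nat.lt_succ_iff.mp j.2
    -- multiply by `s ^ (j + 1) v`
    have hne : s ^ ((j : ℕ) + 1) * v ≠ 0 := mul_ne_zero (pow_ne_zero _ hs0) hv0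
    apply mul_left_cancel₀ hne
    have e1 := happ (P j) i
    have e2 : app (P j) (app c F) i =
        PowerSeries.C ((j : ℕ) / ((m₁ + 1 : ℕ) : ℂ)) * (s ^ (j : ℕ) * Y j i) := by
      rw [app_app, hP.left_mul, app_smul, hY]
    have e3 : app (P j) (app e F) i = ∑ k : Fin (m₂ + 1),
        PowerSeries.C ((k : ℕ) / ((m₂ + 1 : ℕ) : ℂ)) * (v ^ (k : ℕ) * app (P j) (Z k) i) := by
      have : app e F = fun i => ∑ k : Fin (m₂ + 1),
          PowerSeries.C ((k : ℕ) / ((m₂ + 1 : ℕ) : ℂ)) * (v ^ (k : ℕ) * Z k i) := funext heF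
      rw [this, app_sum]
      refine Finset.sum_congr rfl fun k _ => ?_
      have e4 : (fun l => PowerSeries.C ((k : ℕ) / ((m₂ + 1 : ℕ) : ℂ)) * (v ^ (k : ℕ) * Z k l)) =
          fun l => (PowerSeries.C ((k : ℕ) / ((m₂ + 1 : ℕ) : ℂ)) * v ^ (k : ℕ)) * Z k l := by
        funext l; ring
      rw [e4, app_mul]
      ring
    have e5 : v * (∑ k : Fin (m₂ + 1),
        PowerSeries.C ((k : ℕ) / ((m₂ + 1 : ℕ) : ℂ)) * (v ^ ((k : ℕ) - 1) * app (P j) (Z k) i)) =
        app (P j) (app e F) i := by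
      rw [e3, Finset.mul_sum]
      refine Finset.sum_congr rfl fun k _ => ?_
      rcases Nat.eq_zero_or_pos (k : ℕ) with hk | hk
      · rw [hk]; simp
      · have e6 : v ^ (k : ℕ) = v * v ^ ((k : ℕ) - 1) := by
          rw [← pow_succ']
          congr 1
          omega
        rw [e6]
        ring
    have e7 : (((m₁ + 1 : ℕ) : PowerSeries ℂ) * PowerSeries.C ((j : ℕ) / ((m₁ + 1 : ℕ) : ℂ))) =
        ((j : ℕ) : PowerSeries ℂ) := by
      have : ((m₁ + 1 : ℕ) : PowerSeries ℂ) = PowerSeries.C ((m₁ + 1 : ℕ) : ℂ) :=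
        (map_natCast _ _).symm
      rw [this, ← map_mul, mul_div_cancel₀ _ (by exact_mod_cast Nat.succ_ne_zero m₁), map_natCast]
    have e8 : th (app (P j) F i) = th (s ^ (j : ℕ)) * Y j i + s ^ (j : ℕ) * th (Y j i) := by
      rw [hY, th_mul']
    have e9 := th_pow' s (j : ℕ)
    rw [e8, e2] at e1
    have e10 : s ^ (m₁ - (j : ℕ)) * s ^ (j : ℕ) = s ^ m₁ := by
      rw [← pow_add]
      congr 1
      omega
    rw [hY] at e1
    calc s ^ ((j : ℕ) + 1) * v * th (Y j i)
        = s * v * (th (s ^ (j : ℕ)) * Y j i + s ^ (j : ℕ) * th (Y j i)) -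
            v * (s * th (s ^ (j : ℕ))) * Y j i := by rw [pow_succ]; ring
      _ = s * h₂ * app (P j) (app e F) i -
          s * v * s ^ (j : ℕ) * (PowerSeries.C ((j : ℕ) / ((m₁ + 1 : ℕ) : ℂ)) * a +
            PowerSeries.C lam) * Y j i := by
          rw [e1, e9, hh₂, ← e7]
          ring
      _ = _ := by
          rw [hh2, ← e5]
          calc _ = s * s ^ m₁ * (PowerSeries.C κ * w * (v * ∑ k : Fin (m₂ + 1),
                PowerSeries.C ((k : ℕ) / ((m₂ + 1 : ℕ) : ℂ)) *
                  (v ^ ((k : ℕ) - 1) * app (P j) (Z k) i))) -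
                s * v * s ^ (j : ℕ) * (PowerSeries.C ((j : ℕ) / ((m₁ + 1 : ℕ) : ℂ)) * a +
                  PowerSeries.C lam) * Y j i := by ring
            _ = _ := by
                rw [← e10, pow_succ]
                ring
  have hZeq : ∀ (j : Fin (m₂ + 1)) i, th (Z j i) =
      w * v ^ (m₂ - (j : ℕ)) * (∑ k : Fin (m₁ + 1),
        PowerSeries.C ((k : ℕ) / ((m₁ + 1 : ℕ) : ℂ)) * (s ^ ((k : ℕ) - 1) * app (E j) (Y k) i)) -
      (PowerSeries.C ((j : ℕ) / ((m₂ + 1 : ℕ) : ℂ)) * a + PowerSeries.C lam) * Z j i := by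
    intro j i
    have hj : (j : ℕ) ≤ m₂ := Nat.lt_succ_iff.mp j.2
    have hne : v ^ ((j : ℕ) + 1) * s ≠ 0 := mul_ne_zero (pow_ne_zero _ hv0) hs0
    apply mul_left_cancel₀ hne
    have e1 := happ (E j) i
    have e2 : app (E j) (app e F) i =
        PowerSeries.C ((j : ℕ) / ((m₂ + 1 : ℕ) : ℂ)) * (v ^ (j : ℕ) * Z j i) := by
      rw [app_app, hE.left_mul, app_smul, hZ]
    have e3 : app (E j) (app c F) i = ∑ k : Fin (m₁ + 1),
        PowerSeries.C ((k : ℕ) / ((m₁ + 1 : ℕ) : ℂ)) * (s ^ (k : ℕ) * app (E j) (Y k) i) := by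
      have : app c F = fun i => ∑ k : Fin (m₁ + 1),
          PowerSeries.C ((k : ℕ) / ((m₁ + 1 : ℕ) : ℂ)) * (s ^ (k : ℕ) * Y k i) := funext hcF
      rw [this, app_sum]
      refine Finset.sum_congr rfl fun k _ => ?_
      have e4 : (fun l => PowerSeries.C ((k : ℕ) / ((m₁ + 1 : ℕ) : ℂ)) * (s ^ (k : ℕ) * Y k l)) =
          fun l => (PowerSeries.C ((k : ℕ) / ((m₁ + 1 : ℕ) : ℂ)) * s ^ (k : ℕ)) * Y k l := by
        funext l; ring
      rw [e4, app_mul]
      ring
    have e5 : s * (∑ k : Fin (m₁ + 1),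
        PowerSeries.C ((k : ℕ) / ((m₁ + 1 : ℕ) : ℂ)) * (s ^ ((k : ℕ) - 1) * app (E j) (Y k) i)) =
        app (E j) (app c F) i := by
      rw [e3, Finset.mul_sum]
      refine Finset.sum_congr rfl fun k _ => ?_
      rcases Nat.eq_zero_or_pos (k : ℕ) with hk | hk
      · rw [hk]; simp
      · have e6 : s ^ (k : ℕ) = s * s ^ ((k : ℕ) - 1) := by
          rw [← pow_succ']
          congr 1
          omega
        rw [e6]
        ring
    have e7 : (((m₂ + 1 : ℕ) : PowerSeries ℂ) * PowerSeries.C ((j : ℕ) / ((m₂ + 1 : ℕ) : ℂ))) =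
        ((j : ℕ) : PowerSeries ℂ) := by
      have : ((m₂ + 1 : ℕ) : PowerSeries ℂ) = PowerSeries.C ((m₂ + 1 : ℕ) : ℂ) :=
        (map_natCast _ _).symm
      rw [this, ← map_mul, mul_div_cancel₀ _ (by exact_mod_cast Nat.succ_ne_zero m₂), map_natCast]
    have e8 : th (app (E j) F i) = th (v ^ (j : ℕ)) * Z j i + v ^ (j : ℕ) * th (Z j i) := by
      rw [hZ, th_mul']
    have e9 := th_pow' v (j : ℕ)
    rw [e8, e2] at e1
    have e10 : v ^ (m₂ - (j : ℕ)) * v ^ (j : ℕ) = v ^ m₂ := by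
      rw [← pow_add]
      congr 1
      omega
    rw [hZ] at e1
    calc v ^ ((j : ℕ) + 1) * s * th (Z j i)
        = s * v * (th (v ^ (j : ℕ)) * Z j i + v ^ (j : ℕ) * th (Z j i)) -
            s * (v * th (v ^ (j : ℕ))) * Z j i := by rw [pow_succ]; ring
      _ = v * h₁ * app (E j) (app c F) i -
          s * v * v ^ (j : ℕ) * (PowerSeries.C ((j : ℕ) / ((m₂ + 1 : ℕ) : ℂ)) * a +
            PowerSeries.C lam) * Z j i := by
          rw [e1, e9, hh₁, ← e7]
          ring
      _ = _ := by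
          rw [hh1, ← e5]
          calc _ = v * v ^ m₂ * (w * (s * ∑ k : Fin (m₁ + 1),
                PowerSeries.C ((k : ℕ) / ((m₁ + 1 : ℕ) : ℂ)) *
                  (s ^ ((k : ℕ) - 1) * app (E j) (Y k) i))) -
                s * v * v ^ (j : ℕ) * (PowerSeries.C ((j : ℕ) / ((m₂ + 1 : ℕ) : ℂ)) * a +
                  PowerSeries.C lam) * Z j i := by ring
            _ = _ := by
                rw [← e10, pow_succ]
                ring
  -- the system
  set ZZ : (Fin (m₁ + 1) × idx) ⊕ (Fin (m₂ + 1) × idx) → PowerSeries ℂ :=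
    Sum.elim (fun x => Y x.1 x.2) (fun x => Z x.1 x.2) with hZZ
  have hconv : ∀ x, CConv (ZZ x) := by
    refine cconv_of_system (M := fun x y => Sum.elim
      (fun x : Fin (m₁ + 1) × idx => Sum.elim
        (fun y : Fin (m₁ + 1) × idx => if x = y then
          -(PowerSeries.C ((x.1 : ℕ) / ((m₁ + 1 : ℕ) : ℂ)) * a + PowerSeries.C lam) else 0)
        (fun y : Fin (m₂ + 1) × idx => PowerSeries.C κ * w * s ^ (m₁ - (x.1 : ℕ)) *
          (PowerSeries.C ((y.1 : ℕ) / ((m₂ + 1 : ℕ) : ℂ)) * (v ^ ((y.1 : ℕ) - 1) *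
            PowerSeries.C (P x.1 x.2 y.2)))) y)
      (fun x : Fin (m₂ + 1) × idx => Sum.elim
        (fun y : Fin (m₁ + 1) × idx => w * v ^ (m₂ - (x.1 : ℕ)) *
          (PowerSeries.C ((y.1 : ℕ) / ((m₁ + 1 : ℕ) : ℂ)) * (s ^ ((y.1 : ℕ) - 1) *
            PowerSeries.C (E x.1 x.2 y.2))))
        (fun y : Fin (m₂ + 1) × idx => if x = y then
          -(PowerSeries.C ((x.1 : ℕ) / ((m₂ + 1 : ℕ) : ℂ)) * a + PowerSeries.C lam) else 0) y) x)
      ?_ ?_
    · rintro (x | x) (y | y)
      · simp only [Sum.elim_inl]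
        split_ifs
        · exact (((CConv.C _).mul ha).add (CConv.C _)).neg
        · exact CConv.zero
      · simp only [Sum.elim_inl, Sum.elim_inr]
        exact (((CConv.C _).mul hwC).mul (hs.pow _)).mul
          ((CConv.C _).mul ((hv.pow _).mul (CConv.C _)))
      · simp only [Sum.elim_inl, Sum.elim_inr]
        exact (hwC.mul (hv.pow _)).mul ((CConv.C _).mul ((hs.pow _).mul (CConv.C _)))
      · simp only [Sum.elim_inr]
        split_ifs
        · exact (((CConv.C _).mul ha).add (CConv.C _)).neg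
        · exact CConv.zero
    · rintro (⟨j, i⟩ | ⟨j, i⟩)
      · simp only [Sum.elim_inl, Sum.elim_inr, Fintype.sum_sum_type, ite_mul, zero_mul,
          Finset.sum_ite_eq, mem_univ, if_true, hZZ]
        rw [hYeq j i, Finset.mul_sum, sub_eq_add_neg, add_comm, Fintype.sum_prod_type]
        congr 1
        · ring
        · refine Finset.sum_congr rfl fun k _ => ?_
          unfold app
          rw [Finset.mul_sum, Finset.mul_sum, Finset.mul_sum]
          exact Finset.sum_congr rfl fun l _ => by ring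
      · simp only [Sum.elim_inl, Sum.elim_inr, Fintype.sum_sum_type, ite_mul, zero_mul,
          Finset.sum_ite_eq, mem_univ, if_true, hZZ]
        rw [hZeq j i, Finset.mul_sum, sub_eq_add_neg, Fintype.sum_prod_type]
        congr 1
        · refine Finset.sum_congr rfl fun k _ => ?_
          unfold app
          rw [Finset.mul_sum, Finset.mul_sum, Finset.mul_sum]
          exact Finset.sum_congr rfl fun l _ => by ring
        · ring
  have hFsum : F i = ∑ j : Fin (m₁ + 1), s ^ (j : ℕ) * Y j i := by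
    rw [← app_one F i, ← hP.sum_one, app_sumM]
    exact Finset.sum_congr rfl fun j _ => hY j i
  rw [hFsum]
  exact CConv.sum _ fun j _ => (hs.pow _).mul (hconv (Sum.inl (j, i)))

end orb

end Pool.Agent.H925
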