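import Pool.Agent.H925.EffZero
import Pool.Graph.R_pool_sql_team_seeded_620a6dc7.Helper338PC.GSys
import Pool.Agent.H925.OrbConv

set_option autoImplicit false

open Finset

namespace Pool.Agent.H925

open Pool.Agent.Helper338PC

section span

variable {ι : Type*} [Fintype ι] [DecidableEq ι]

/-- The combinations of the monomials with polynomials of degree at most `N` as coefficients. -/
def Spn (d : ι → ℕ) (α : ι → PowerSeries ℚ) (N : ℕ) (x : PowerSeries ℚ) : Prop :=
  ∃ c : (∀ i, Fin (d i)) → Polynomial ℚ, (∀ l, (c l).natDegree ≤ N) ∧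
    x = ∑ l, co (c l) * bas d α l

variable {d : ι → ℕ} {α : ι → PowerSeries ℚ} {a : Polynomial ℚ} {β β' : PowerSeries ℚ}
  {q q' N N' : ℕ}

lemma Spn.single {p : Polynomial ℚ} (h : p.natDegree ≤ N) (k : ∀ i, Fin (d i)) :
    Spn d α N (co p * bas d α k) := by
  classical
  refine ⟨fun l => if l = k then p else 0, fun l => ?_, ?_⟩
  · show (if l = k then p else 0).natDegree ≤ N
    split_ifs
    · exact h
    · simp
  · rw [Finset.sum_eq_single k]
    · simp
    · intro l _ hl
      simp only [if_neg hl, map_zero, zero_mul]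
    · intro h; exact absurd (mem_univ k) h

lemma Spn.zero : Spn d α N 0 := ⟨fun _ => 0, fun _ => by simp, by simp⟩

lemma Spn.add {x y : PowerSeries ℚ} (h : Spn d α N x) (h' : Spn d α N y) : Spn d α N (x + y) := by
  obtain ⟨c, h1, h2⟩ := h
  obtain ⟨c', h1', h2'⟩ := h'
  refine ⟨fun l => c l + c' l, fun l =>
    Polynomial.natDegree_add_le_of_degree_le (h1 l) (h1' l), ?_⟩
  rw [h2, h2', ← Finset.sum_add_distrib]
  exact Finset.sum_congr rfl fun l _ => by rw [map_add, add_mul]

lemma Spn.sum {κ : Type*} (s : Finset κ) {x : κ → PowerSeries ℚ}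
    (h : ∀ i ∈ s, Spn d α N (x i)) : Spn d α N (∑ i ∈ s, x i) := by
  classical
  induction s using Finset.induction_on with
  | empty => simpa using Spn.zero
  | insert b s hb ih =>
    rw [Finset.sum_insert hb]
    exact (h b (Finset.mem_insert_self b s)).add
      (ih fun i hi => h i (Finset.mem_insert_of_mem hi))

lemma Rep.of_spn (h : ∀ k, Spn d α N (co a ^ q * β * bas d α k)) : Rep d α a β q N := h

lemma bas_erase (k : ∀ i, Fin (d i)) (i : ι) :
    bas d α k = α i ^ (k i : ℕ) * ∏ j ∈ univ.erase i, α j ^ (k j : ℕ) :=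
  (Finset.mul_prod_erase univ (fun i => α i ^ (k i : ℕ)) (mem_univ i)).symm

lemma bas_update (k : ∀ i, Fin (d i)) (i : ι) (l : Fin (d i)) :
    bas d α (Function.update k i l) = α i ^ (l : ℕ) * ∏ j ∈ univ.erase i, α j ^ (k j : ℕ) := by
  rw [bas_erase _ i, Function.update_self]
  congr 1
  refine Finset.prod_congr rfl fun j hj => ?_
  rw [Function.update_of_ne (Finset.ne_of_mem_erase hj)]

/-- The generators. -/
theorem Rep.alpha {F : ι → Polynomial (Polynomial ℚ)} {t : ℕ}
    (hF : ∀ i k, ((F i).coeff k).natDegree ≤ t) (h0 : ∀ i, Polynomial.aeval (α i) (F i) = 0)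
    (i : ι) : Rep (fun i => (F i).natDegree) α (∏ j, (F j).leadingCoeff) (α i) 1
      (Fintype.card ι * t) := by
  classical
  refine Rep.of_spn fun k => ?_
  rw [pow_one]
  have hdeg : ∀ s : Finset ι, (∏ j ∈ s, (F j).leadingCoeff).natDegree ≤ s.card * t := by
    intro s
    refine (Polynomial.natDegree_prod_le _ _).trans ?_
    refine (Finset.sum_le_card_nsmul _ _ t fun j _ => hF j _).trans ?_
    rw [smul_eq_mul]
  have hki := (k i).2
  by_cases hk : (k i : ℕ) + 1 < (F i).natDegree
  · have h1 : co (∏ j, (F j).leadingCoeff) * α i * bas (fun i => (F i).natDegree) α k =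
        co (∏ j, (F j).leadingCoeff) *
          bas (fun i => (F i).natDegree) α (Function.update k i ⟨(k i : ℕ) + 1, hk⟩) := by
      rw [bas_update, bas_erase k i, pow_succ]
      ring
    rw [h1]
    refine Spn.single ?_ _
    have := hdeg univ
    rwa [Finset.card_univ] at this
  · have hk' : (k i : ℕ) + 1 = (F i).natDegree := by
      have : (k i : ℕ) < (F i).natDegree := hki
      omega
    have h1 : co (F i).leadingCoeff * α i ^ (F i).natDegree =
        -∑ l ∈ range (F i).natDegree, co ((F i).coeff l) * α i ^ l := by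
      have h2 := h0 i
      rw [Polynomial.aeval_eq_sum_range, Finset.sum_range_succ] at h2
      simp only [Algebra.smul_def] at h2
      rw [Polynomial.leadingCoeff]
      linear_combination h2
    have h2 : co (∏ j, (F j).leadingCoeff) =
        co (F i).leadingCoeff * co (∏ j ∈ univ.erase i, (F j).leadingCoeff) := by
      rw [← map_mul, Finset.mul_prod_erase univ (fun j => (F j).leadingCoeff) (mem_univ i)]
    have h3 : co (∏ j, (F j).leadingCoeff) * α i * bas (fun i => (F i).natDegree) α k =
        ∑ l : Fin (F i).natDegree, co (-((∏ j ∈ univ.erase i, (F j).leadingCoeff) *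
          (F i).coeff l)) *
          bas (fun i => (F i).natDegree) α (Function.update k i l) := by
      have h4 : co (∏ j, (F j).leadingCoeff) * α i * bas (fun i => (F i).natDegree) α k =
          co (∏ j ∈ univ.erase i, (F j).leadingCoeff) * (co (F i).leadingCoeff *
            α i ^ (F i).natDegree) * ∏ j ∈ univ.erase i, α j ^ (k j : ℕ) := by
        have h5 : α i ^ (F i).natDegree = α i ^ (k i : ℕ) * α i := by
          rw [← pow_succ]
          congr 1
          exact hk'.symm
        rw [h2, bas_erase k i, h5]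
        ring
      rw [h4, h1, ← Fin.sum_univ_eq_sum_range (fun l => co ((F i).coeff l) * α i ^ l),
        mul_neg, neg_mul, Finset.mul_sum, Finset.sum_mul, ← Finset.sum_neg_distrib]
      refine Finset.sum_congr rfl fun l _ => ?_
      rw [bas_update, map_neg, map_mul]
      ring
    rw [h3]
    refine Spn.sum _ fun l _ => Spn.single ?_ _
    rw [Polynomial.natDegree_neg]
    refine Polynomial.natDegree_mul_le.trans ?_
    refine (Nat.add_le_add (hdeg _) (hF i l)).trans ?_
    rw [Finset.card_erase_of_mem (mem_univ i), Finset.card_univ]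
    have hpos : 0 < Fintype.card ι := Fintype.card_pos_iff.mpr ⟨i⟩
    rw [← Nat.succ_mul]
    exact Nat.mul_le_mul_right _ (by omega)

lemma Rep.one : Rep d α a 1 0 N := by
  have := Rep.poly (d := d) (α := α) (a := a) (N := N) 1 (by simp)
  rwa [map_one] at this

lemma Rep.pow {A : ℕ} (h : Rep d α a β 1 A) (l : ℕ) : Rep d α a (β ^ l) l (l * A) := by
  induction l with
  | zero =>
    rw [pow_zero, Nat.zero_mul]
    exact Rep.one
  | succ l ih =>
    rw [pow_succ, Nat.succ_mul]
    exact ih.mul h

lemma Rep.aeval {A T M : ℕ} {P : Polynomial (Polynomial ℚ)} (hM : P.natDegree ≤ M)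
    (hT : ∀ k, (P.coeff k).natDegree ≤ T) (h : Rep d α a β 1 A) (ha : a.natDegree ≤ A) :
    Rep d α a (Polynomial.aeval β P) M (M * A + T) := by
  rw [Polynomial.aeval_eq_sum_range' (n := M + 1) (by omega)]
  refine Rep.sum _ fun l hl => ?_
  rw [Algebra.smul_def]
  have h1 := ((Rep.poly (d := d) (α := α) (a := a) (P.coeff l) (hT l)).mul
    (h.pow l)).mono_q ha (r := M) (by rw [mem_range] at hl; omega)
  refine h1.mono ?_
  rw [mem_range] at hl
  obtain ⟨e, rfl⟩ := Nat.exists_eq_add_of_le (Nat.lt_succ_iff.mp hl)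
  have h2 : l + e - (0 + l) = e := by omega
  rw [h2]
  apply le_of_eq
  ring

end span

section deriv

/-- The derivation `x d / dx` of an algebraic power series. -/
lemma th_aeval (α : PowerSeries ℚ) {M t : ℕ} (F : Polynomial (Polynomial ℚ))
    (hM : F.natDegree ≤ M) (hF : ∀ k, (F.coeff k).natDegree ≤ t) :
    ∃ G : Polynomial (Polynomial ℚ), G.natDegree ≤ M ∧ (∀ k, (G.coeff k).natDegree ≤ t) ∧
      th (Polynomial.aeval α F) = Polynomial.aeval α G +
        Polynomial.aeval α (Polynomial.derivative F) * th α := by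
  classical
  have hth : ∀ p : Polynomial ℚ, co (Polynomial.X * Polynomial.derivative p) = th (co p) := by
    intro p
    ext n
    rw [coeff_th, coeff_co, coeff_co]
    rcases n with _ | n
    · simp
    · rw [Polynomial.coeff_X_mul, Polynomial.coeff_derivative]
      push_cast
      ring
  refine ⟨∑ l ∈ range (M + 1), Polynomial.monomial l
    (Polynomial.X * Polynomial.derivative (F.coeff l)), ?_, ?_, ?_⟩
  · refine Polynomial.natDegree_sum_le_of_forall_le _ _ fun l hl => ?_
    refine (Polynomial.natDegree_monomial_le _).trans ?_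
    rw [mem_range] at hl
    omega
  · intro k
    rw [Polynomial.finsetSum_coeff]
    refine Polynomial.natDegree_sum_le_of_forall_le _ _ fun l _ => ?_
    rw [Polynomial.coeff_monomial]
    split_ifs
    · by_cases h0 : Polynomial.derivative (F.coeff l) = 0
      · rw [h0, mul_zero]
        simp
      · have h1 : (F.coeff l).natDegree ≠ 0 := fun h => h0 (Polynomial.derivative_eq_zero.mpr h)
        refine (Polynomial.natDegree_mul_le).trans ?_
        rw [Polynomial.natDegree_X]
        have := Polynomial.natDegree_derivative_le (F.coeff l)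
        have := hF l
        omega
    · simp
  · have h1 : Polynomial.aeval α F = ∑ l ∈ range (M + 1), co (F.coeff l) * α ^ l := by
      rw [Polynomial.aeval_eq_sum_range' (n := M + 1) (by omega)]
      exact Finset.sum_congr rfl fun l _ => Algebra.smul_def _ _
    have h2 : Polynomial.aeval α (Polynomial.derivative F) =
        ∑ l ∈ range (M + 1), co (F.coeff l) * ((l : PowerSeries ℚ) * α ^ (l - 1)) := by
      conv_lhs => rw [Polynomial.as_sum_range' F (M + 1) (by omega)]
      rw [Polynomial.derivative_sum, map_sum]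
      refine Finset.sum_congr rfl fun l _ => ?_
      rw [Polynomial.derivative_monomial, Polynomial.aeval_monomial, map_mul, map_natCast]
      ring
    have hnat : ∀ l : ℕ, th (α ^ l) = (l : PowerSeries ℚ) * α ^ (l - 1) * th α := by
      intro l
      induction l with
      | zero => rw [pow_zero, th_one]; simp
      | succ l ih =>
        rw [pow_succ, th_mul', ih]
        rcases l with _ | l
        · simp
        · rw [Nat.add_sub_cancel, Nat.add_sub_cancel, pow_succ]
          push_cast
          ring
    rw [h1, h2, th_sum', map_sum, Finset.sum_mul, ← Finset.sum_add_distrib]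
    refine Finset.sum_congr rfl fun l _ => ?_
    rw [th_mul', hnat, Polynomial.aeval_monomial]
    change _ = co (Polynomial.X * Polynomial.derivative (F.coeff l)) * α ^ l + _
    rw [hth]
    ring

lemma X_pow_dvd_th {f : PowerSeries ℚ} {n : ℕ} (h : (PowerSeries.X : PowerSeries ℚ) ^ n ∣ f) :
    (PowerSeries.X : PowerSeries ℚ) ^ n ∣ th f := by
  rw [PowerSeries.X_pow_dvd_iff] at h ⊢
  intro m hm
  rw [coeff_th, h m hm, mul_zero]

end deriv

section exact

variable {ι : Type*} [Fintype ι] [DecidableEq ι]

/-- A solution which starts with zero is zero. -/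
lemma IsSolG.eq_zero {A : Matrix ι ι (PowerSeries ℚ)} {b : ℚ} {β : ι → ℚ} {g : ι → PowerSeries ℚ}
    (hg : IsSolG A b g) (hres : ∀ i j, PowerSeries.coeff 0 (A i j) = if i = j then β i else 0)
    (hgap : ∀ i, |b - β i| < 1) (h0 : ∀ i, PowerSeries.coeff 0 (g i) = 0) : ∀ i, g i = 0 := by
  have key : ∀ s i, PowerSeries.coeff s (g i) = 0 := by
    intro s
    induction s using Nat.strong_induction_on with
    | _ s ih =>
      intro i
      rcases Nat.eq_zero_or_pos s with rfl | hs
      · exact h0 i
      have h1 := hg.rec s i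
      have h2 : ∑ l, ∑ v ∈ range s, PowerSeries.coeff (s - v) (A i l) *
          PowerSeries.coeff v (g l) = 0 := by
        refine Finset.sum_eq_zero fun l _ => Finset.sum_eq_zero fun v hv => ?_
        rw [ih v (mem_range.mp hv) l, mul_zero]
      have h3 : ∑ l, PowerSeries.coeff 0 (A i l) * PowerSeries.coeff s (g l) =
          β i * PowerSeries.coeff s (g i) := by
        rw [Finset.sum_eq_single i]
        · rw [hres, if_pos rfl]
        · intro l _ hl
          rw [hres, if_neg (Ne.symm hl), zero_mul]
        · intro h; exact absurd (mem_univ i) h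
      rw [h2, h3] at h1
      have h4 : ((s : ℚ) + b - β i) * PowerSeries.coeff s (g i) = 0 := by
        linear_combination h1
      refine (mul_eq_zero.mp h4).resolve_left ?_
      intro h5
      have h6 := neg_abs_le (b - β i)
      have h7 := hgap i
      have h8 : (1 : ℚ) ≤ s := by exact_mod_cast hs
      linarith
  exact fun i => PowerSeries.ext fun s => by rw [key s i, map_zero]

/-- The columns of the fundamental matrices which nearly satisfy algebraic equations are
algebraic. -/
theorem exact_alg {A₁ : Matrix ι ι (Polynomial ℤ)} {D : ℕ} (hD : D ≠ 0) {m : ℕ} (hm : 1 ≤ m)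
    (hdeg : ∀ i j, (A₁ i j).natDegree ≤ m) {b : ℚ} {β : ι → ℚ} {f : ι → PowerSeries ℚ}
    (hf : IsSolG (Aps (Int.castRingHom ℚ) (D : ℚ)⁻¹ 1 A₁) b f)
    (hres : ∀ i j, PowerSeries.coeff 0 (Aps (Int.castRingHom ℚ) (D : ℚ)⁻¹ 1 A₁ i j) =
      if i = j then β i else 0)
    (hgap : ∀ i, |b - β i| < 1) {t M : ℕ} (hM : 0 < M) {P : ι → Polynomial (Polynomial ℚ)}
    (hP0 : ∀ i, P i ≠ 0)
    (hPM : ∀ i, (P i).natDegree ≤ M) (hPt : ∀ i k, ((P i).coeff k).natDegree < t)
    (hdvd : ∀ i, (PowerSeries.X : PowerSeries ℚ) ^ (2 ^ M *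
      (M ^ Fintype.card ι * (m + ((M + 1) * Fintype.card ι + 1) * t) + 1)) ∣
        Polynomial.aeval (f i) (P i)) (i : ι) :
    ∃ Q : Polynomial (Polynomial ℚ), Q ≠ 0 ∧ Q.natDegree ≤ M ∧ Polynomial.aeval (f i) Q = 0 := by
  classical
  set n := Fintype.card ι with hn
  set NG : ℕ := m + ((M + 1) * n + 1) * t with hNG
  set N₂ : ℕ := M ^ n * NG + 1 with hN₂
  have hn0 : 0 < n := Fintype.card_pos_iff.mpr ⟨i⟩
  have hMn : 1 ≤ M ^ n := Nat.one_le_pow _ _ hM
  have htNG : t ≤ NG := by
    rw [hNG]
    have : t ≤ ((M + 1) * n + 1) * t := Nat.le_mul_of_pos_left _ (by omega)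
    omega
  have htN : t ≤ N₂ := by
    rw [hN₂]
    have : NG ≤ M ^ n * NG := Nat.le_mul_of_pos_left _ hMn
    omega
  have hN₂0 : 0 < N₂ := by rw [hN₂]; omega
  choose F α hFd hFt hF0 hF1 hFf using fun i =>
    approx_alg htN hN₂0 M (P i) (hPM i) (hP0 i) (hPt i) (hdvd i)
  have hFt' : ∀ i k, ((F i).coeff k).natDegree ≤ t := fun i k => (hFt i k).le
  have hd : ∀ i, 0 < (F i).natDegree := by
    intro i
    by_contra hcon
    have h1 : (F i).natDegree = 0 := by omega
    apply hF1 i
    rw [Polynomial.derivative_eq_zero.mpr h1, map_zero]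
  have hFne : ∀ i, F i ≠ 0 := by
    intro i h1
    have := hd i
    rw [h1, Polynomial.natDegree_zero] at this
    exact lt_irrefl _ this
  set a : Polynomial ℚ := ∏ j, (F j).leadingCoeff with ha
  have ha0 : a ≠ 0 := Finset.prod_ne_zero_iff.mpr fun j _ =>
    Polynomial.leadingCoeff_ne_zero.mpr (hFne j)
  have hadeg : a.natDegree ≤ n * t := by
    refine (Polynomial.natDegree_prod_le _ _).trans ?_
    refine (Finset.sum_le_card_nsmul _ _ t fun j _ => hFt' j _).trans ?_
    rw [smul_eq_mul, Finset.card_univ]
  have hrepα : ∀ j, Rep (fun i => (F i).natDegree) α a (α j) 1 (n * t) :=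
    fun j => Rep.alpha hFt' hF0 j
  have hprod : ∏ j, (F j).natDegree ≤ M ^ n := by
    refine (Finset.prod_le_pow_card _ _ M fun j _ => hFd j).trans ?_
    rw [Finset.card_univ]
  -- the equations
  set q : Polynomial ℚ := Polynomial.C (D : ℚ) * (Polynomial.X - 1) with hq
  have hqdeg : q.natDegree ≤ m := by
    refine le_trans (Polynomial.natDegree_C_mul_le _ _) ?_
    refine le_trans (Polynomial.natDegree_sub_le _ _) ?_
    simp [hm]
  have hDQ : (D : ℚ) ≠ 0 := by exact_mod_cast hD
  have hqwg : co q * (PowerSeries.C ((D : ℚ)⁻¹) * wg ℚ) = 1 := by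
    have h1 : co q = PowerSeries.C (D : ℚ) * (PowerSeries.X - 1) := by
      rw [co_apply, hq, Polynomial.coe_mul, Polynomial.coe_C, Polynomial.coe_sub,
        Polynomial.coe_X, Polynomial.coe_one]
    have h2 : (PowerSeries.C (D : ℚ)) * PowerSeries.C ((D : ℚ)⁻¹) = (1 : PowerSeries ℚ) := by
      rw [← map_mul, mul_inv_cancel₀ hDQ, map_one]
    rw [h1]
    linear_combination (PowerSeries.X - 1) * wg ℚ * h2 + X_sub_one_mul_wg (R := ℚ)
  have hq0 : co q ≠ 0 := fun h => by rw [h, zero_mul] at hqwg; exact zero_ne_one hqwg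
  set B : ι → ι → Polynomial ℚ := fun i l => (A₁ i l).map (Int.castRingHom ℚ) with hB
  have hBdeg : ∀ i l, (B i l).natDegree ≤ m := fun i l =>
    (Polynomial.natDegree_map_le).trans (hdeg i l)
  have hqA : ∀ i l, co q * Aps (Int.castRingHom ℚ) (D : ℚ)⁻¹ 1 A₁ i l = co (B i l) := by
    intro i l
    rw [Aps_apply, pow_one, co_apply (B i l)]
    linear_combination (((A₁ i l).map (Int.castRingHom ℚ) : Polynomial ℚ) : PowerSeries ℚ) * hqwg
  set Eq : (ι → PowerSeries ℚ) → ι → PowerSeries ℚ := fun y i =>
    co q * (th (y i) + PowerSeries.C b * y i) - ∑ l, co (B i l) * y l with hEq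
  have hEqiff : ∀ y i, Eq y i = co q * (th (y i) - ((∑ l,
      Aps (Int.castRingHom ℚ) (D : ℚ)⁻¹ 1 A₁ i l * y l) - PowerSeries.C b * y i)) := by
    intro y i
    have h1 : ∑ l, co (B i l) * y l = co q * ∑ l,
        Aps (Int.castRingHom ℚ) (D : ℚ)⁻¹ 1 A₁ i l * y l := by
      rw [Finset.mul_sum]
      exact Finset.sum_congr rfl fun l _ => by rw [← hqA]; ring
    rw [hEq]
    simp only
    rw [h1]
    ring
  have hEf : ∀ i, Eq f i = 0 := by
    intro i
    rw [hEqiff, hf i, sub_self, mul_zero]
  have hEα : ∀ i, (PowerSeries.X : PowerSeries ℚ) ^ N₂ ∣ Eq α i := by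
    intro i
    have h1 : Eq α i = co q * (th (α i - f i) + PowerSeries.C b * (α i - f i)) -
        ∑ l, co (B i l) * (α l - f l) := by
      have h2 : Eq α i = Eq α i - Eq f i := by rw [hEf, sub_zero]
      have h3 : th (α i - f i) = th (α i) - th (f i) := by
        have := th_add' (α i - f i) (f i)
        rw [sub_add_cancel] at this
        linear_combination -this
      rw [h2, h3, hEq]
      simp only [mul_sub, Finset.sum_sub_distrib]
      ring
    rw [h1]
    refine dvd_sub (Dvd.dvd.mul_left (dvd_add (X_pow_dvd_th (hFf i)) ((hFf i).mul_left _)) _) ?_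
    exact Finset.dvd_sum fun l _ => (hFf l).mul_left _
  -- the equations hold
  have hEα0 : ∀ i, Eq α i = 0 := by
    intro i
    obtain ⟨G, hG1, hG2, hG3⟩ := th_aeval (α i) (F i) (hFd i) (hFt' i)
    have hth0 : th (0 : PowerSeries ℚ) = 0 := by
      have := th_C (0 : ℚ)
      rwa [map_zero] at this
    rw [hF0 i, hth0] at hG3
    have h1 : Polynomial.aeval (α i) (Polynomial.derivative (F i)) * Eq α i =
        co q * (-(Polynomial.aeval (α i) G) + PowerSeries.C b * (α i *
          Polynomial.aeval (α i) (Polynomial.derivative (F i)))) -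
          ∑ l, Polynomial.aeval (α i) (Polynomial.derivative (F i)) * (co (B i l) * α l) := by
      rw [hEq]
      simp only
      rw [← Finset.mul_sum]
      linear_combination (-co q) * hG3
    have hder : (Polynomial.derivative (F i)).natDegree ≤ M :=
      (Polynomial.natDegree_derivative_le _).trans ((Nat.sub_le _ _).trans (hFd i))
    have hdert : ∀ k, ((Polynomial.derivative (F i)).coeff k).natDegree ≤ t := by
      intro k
      rw [Polynomial.coeff_derivative]
      refine (Polynomial.natDegree_mul_le).trans ?_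
      have h3 : ((k : Polynomial ℚ) + 1).natDegree = 0 := by
        have : ((k : Polynomial ℚ) + 1) = ((k + 1 : ℕ) : Polynomial ℚ) := by push_cast; rfl
        rw [this, Polynomial.natDegree_natCast]
      rw [h3, add_zero]
      exact hFt' i _
    have hrG := Rep.aeval hG1 hG2 (hrepα i) hadeg
    have hrD := Rep.aeval hder hdert (hrepα i) hadeg
    have hCb : PowerSeries.C b = co (Polynomial.C b) := by
      rw [co_apply, Polynomial.coe_C]
    have hneg : -(Polynomial.aeval (α i) G) = co (Polynomial.C (-1)) * Polynomial.aeval (α i) G := by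
      rw [co_apply, Polynomial.coe_C, map_neg, map_one, neg_one_mul]
    have hsum : co q * (-(Polynomial.aeval (α i) G) + PowerSeries.C b * (α i *
          Polynomial.aeval (α i) (Polynomial.derivative (F i)))) -
          ∑ l, Polynomial.aeval (α i) (Polynomial.derivative (F i)) * (co (B i l) * α l) =
        co q * (co (Polynomial.C (-1)) * Polynomial.aeval (α i) G) +
          (co q * (co (Polynomial.C b) * (α i *
            Polynomial.aeval (α i) (Polynomial.derivative (F i)))) +
          ∑ l, Polynomial.aeval (α i) (Polynomial.derivative (F i)) *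
            (co (-B i l) * α l)) := by
      have e1 : ∑ l, Polynomial.aeval (α i) (Polynomial.derivative (F i)) *
            (co (-B i l) * α l) =
          -∑ l, Polynomial.aeval (α i) (Polynomial.derivative (F i)) * (co (B i l) * α l) := by
        rw [← Finset.sum_neg_distrib]
        exact Finset.sum_congr rfl fun l _ => by rw [map_neg]; ring
      rw [e1, hneg, hCb]
      ring
    rw [hsum] at h1
    have hrep : Rep (fun i => (F i).natDegree) α a
        (Polynomial.aeval (α i) (Polynomial.derivative (F i)) * Eq α i) (M + 1) NG := by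
      rw [h1]
      refine Rep.add ?_ (Rep.add ?_ (Rep.sum _ fun l _ => ?_))
      · have r1 := ((Rep.poly (d := fun i => (F i).natDegree) (α := α) (a := a) q hqdeg).mul
          ((Rep.poly (d := fun i => (F i).natDegree) (α := α) (a := a) (N := 0)
            (Polynomial.C (-1)) (by simp)).mul hrG)).mono_q hadeg (r := M + 1) (by omega)
        refine r1.mono ?_
        have e1 : M + 1 - (0 + (0 + M)) = 1 := by omega
        rw [e1, hNG]
        nlinarith
      · have r1 := ((Rep.poly (d := fun i => (F i).natDegree) (α := α) (a := a) q hqdeg).mul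
          ((Rep.poly (d := fun i => (F i).natDegree) (α := α) (a := a) (N := 0)
            (Polynomial.C b) (by simp)).mul ((hrepα i).mul hrD))).mono_q hadeg
              (r := M + 1) (by omega)
        refine r1.mono ?_
        have e1 : M + 1 - (0 + (0 + (1 + M))) = 0 := by omega
        rw [e1, hNG]
        nlinarith
      · have r1 := (hrD.mul ((Rep.poly (d := fun i => (F i).natDegree) (α := α) (a := a)
          (N := m) (-B i l) (by rw [Polynomial.natDegree_neg]; exact hBdeg i l)).mul
            (hrepα l))).mono_q hadeg (r := M + 1) (by omega)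
        refine r1.mono ?_
        have e1 : M + 1 - (M + (0 + 1)) = 0 := by omega
        rw [e1, hNG]
        nlinarith
    have h2 := hrep.eq_zero hd ha0 (dvd_trans (pow_dvd_pow _ (by
      rw [hN₂]
      exact Nat.add_le_add_right (Nat.mul_le_mul_right _ hprod) 1)) ((hEα i).mul_left _))
    exact (mul_eq_zero.mp h2).resolve_left (hF1 i)
  -- uniqueness
  have hsolα : IsSolG (Aps (Int.castRingHom ℚ) (D : ℚ)⁻¹ 1 A₁) b (fun i => α i - f i) := by
    intro i
    have h1 := hEα0 i
    rw [hEqiff] at h1
    have h2 := (mul_eq_zero.mp h1).resolve_left hq0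
    have h3 : th (α i - f i) = th (α i) - th (f i) := by
      have := th_add' (α i - f i) (f i)
      rw [sub_add_cancel] at this
      linear_combination -this
    rw [h3, hf i]
    simp only [mul_sub, Finset.sum_sub_distrib]
    linear_combination h2
  have h0 : ∀ i, PowerSeries.coeff 0 (α i - f i) = 0 := fun i =>
    (PowerSeries.X_pow_dvd_iff.mp (hFf i)) 0 hN₂0
  have hzero := IsSolG.eq_zero hsolα hres hgap h0 i
  refine ⟨F i, hFne i, hFd i, ?_⟩
  have h1 : f i = α i := (sub_eq_zero.mp hzero).symm
  rw [h1]
  exact hF0 i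

end exact

end Pool.Agent.H925
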