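import Pool.Agent.H925.EffEv

set_option autoImplicit false

open PowerSeries Finset Metric

namespace Pool.Agent.H925

open Pool.Agent.Helper338PC (th coeff_th)

section path

/-- Growth along a path. -/
theorem path_bound {ι : Type*} [Fintype ι] {θ : PowerSeries ℂ} (hθ : CConv θ)
    {g : ι → PowerSeries ℂ} {B : ι → ι → PowerSeries ℂ} (hg : ∀ i, CConv (g i))
    (hB : ∀ i l, CConv (B i l)) (hsys : ∀ i, θ * th (g i) = ∑ l, B i l * g l)
    {R₁ r c b δ G : ℝ} (hR0 : 0 < R₁) (hR1 : R₁ < 1) (hr : 0 < r) (hc : 0 < c) (hb : 0 ≤ b)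
    (hG : 0 ≤ G) (hbB : ∀ i l, cnrm R₁ (B i l) ≤ b) {γ γ' : ℝ → ℂ} {t₀ t₁ : ℝ}
    (hγ : ∀ t ∈ Set.Icc t₀ t₁, HasDerivAt γ (γ' t) t) (hγG : ∀ t ∈ Set.Icc t₀ t₁, ‖γ' t‖ ≤ G)
    (hγR : ∀ t ∈ Set.Icc t₀ t₁, ‖γ t‖ ≤ R₁) (hγr : ∀ t ∈ Set.Icc t₀ t₁, r ≤ ‖γ t‖)
    (hγc : ∀ t ∈ Set.Icc t₀ t₁, c ≤ ‖ev θ (γ t)‖) (hδ0 : 0 ≤ δ)
    (hδ : ∀ i, ‖ev (g i) (γ t₀)‖ ≤ δ) :
    ∀ t ∈ Set.Icc t₀ t₁, ∀ i, ‖ev (g i) (γ t)‖ ≤
      δ * Real.exp (Fintype.card ι * b * G / (r * c) * (t - t₀)) := by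
  set F : ℝ → ι → ℂ := fun t i => ev (g i) (γ t) with hF
  set F' : ℝ → ι → ℂ := fun t i => ev (PowerSeries.derivative ℂ (g i)) (γ t) * γ' t with hF'
  have hder : ∀ t ∈ Set.Icc t₀ t₁, HasDerivAt F (F' t) t := by
    intro t ht
    rw [hasDerivAt_pi]
    intro i
    have h1 := (hasDerivAt_ev (hg i) (lt_of_le_of_lt (hγR t ht) hR1)).comp_of_eq t (hγ t ht) rfl
    exact h1
  have hK : ∀ t ∈ Set.Icc t₀ t₁, ‖F' t‖ ≤ Fintype.card ι * b * G / (r * c) * ‖F t‖ + 0 := by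
    intro t ht
    rw [add_zero, pi_norm_le_iff_of_nonneg (by positivity)]
    intro i
    have hz1 := lt_of_le_of_lt (hγR t ht) hR1
    have h1 : ev θ (γ t) * (γ t * ev (PowerSeries.derivative ℂ (g i)) (γ t)) =
        ∑ l, ev (B i l) (γ t) * ev (g l) (γ t) := by
      rw [mul_ev_derivative (hg i) hz1, ← ev_mul (hθ R₁ hR0 hR1) ((hg i).th R₁ hR0 hR1) (hγR t ht),
        hsys i, ev_sum hR0 _ (fun l _ => CSm.mul hR0 (hB i l R₁ hR0 hR1) (hg l R₁ hR0 hR1))
          (hγR t ht)]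
      exact Finset.sum_congr rfl fun l _ => ev_mul (hB i l R₁ hR0 hR1) (hg l R₁ hR0 hR1) (hγR t ht)
    have h2 : ‖∑ l, ev (B i l) (γ t) * ev (g l) (γ t)‖ ≤ Fintype.card ι * b * ‖F t‖ := by
      refine (norm_sum_le _ _).trans ?_
      have h3 : ∀ l ∈ (univ : Finset ι), ‖ev (B i l) (γ t) * ev (g l) (γ t)‖ ≤ b * ‖F t‖ := by
        intro l _
        rw [norm_mul]
        refine mul_le_mul ((norm_ev_le (hB i l R₁ hR0 hR1) (hγR t ht)).trans (hbB i l)) ?_
          (norm_nonneg _) hb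
        exact norm_le_pi_norm (F t) l
      refine (Finset.sum_le_sum h3).trans (le_of_eq ?_)
      rw [Finset.sum_const, Finset.card_univ, nsmul_eq_mul]
      ring
    rw [← h1, norm_mul, norm_mul] at h2
    have h4 : r * c * ‖ev (PowerSeries.derivative ℂ (g i)) (γ t)‖ ≤
        Fintype.card ι * b * ‖F t‖ := by
      refine le_trans ?_ h2
      calc r * c * ‖ev (PowerSeries.derivative ℂ (g i)) (γ t)‖
          = c * (r * ‖ev (PowerSeries.derivative ℂ (g i)) (γ t)‖) := by ring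
        _ ≤ ‖ev θ (γ t)‖ * (‖γ t‖ * ‖ev (PowerSeries.derivative ℂ (g i)) (γ t)‖) := by
            gcongr
            · exact hγc t ht
            · exact hγr t ht
    have h5 : ‖ev (PowerSeries.derivative ℂ (g i)) (γ t)‖ ≤
        Fintype.card ι * b * ‖F t‖ / (r * c) := by
      rw [le_div_iff₀ (by positivity)]
      linarith
    calc ‖F' t i‖ = ‖ev (PowerSeries.derivative ℂ (g i)) (γ t)‖ * ‖γ' t‖ := norm_mul _ _
      _ ≤ Fintype.card ι * b * ‖F t‖ / (r * c) * G := by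
          gcongr
          exact hγG t ht
      _ = _ := by ring
  intro t ht i
  have h1 := norm_le_gronwallBound_of_norm_deriv_right_le (f := F) (f' := F') (δ := δ)
    (K := Fintype.card ι * b * G / (r * c)) (ε := 0) (a := t₀) (b := t₁)
    (fun s hs => (hder s hs).continuousAt.continuousWithinAt)
    (fun s hs => (hder s ⟨hs.1, hs.2.le⟩).hasDerivWithinAt)
    (by
      rw [pi_norm_le_iff_of_nonneg hδ0]
      exact hδ)
    (fun s hs => hK s ⟨hs.1, hs.2.le⟩) t ht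
  rw [gronwallBound_ε0] at h1
  exact (norm_le_pi_norm (F t) i).trans h1

end path

section geometry

/-- A circle and a segment which avoid the zeros. -/
theorem exists_path {θ : PowerSeries ℂ} (hθ : CConv θ) (hθ0 : θ ≠ 0) {r₀ R₀ : ℝ} (hr : 0 < r₀)
    (hrR : r₀ < R₀) (hR : R₀ < 1) : ∃ (R₁ φ c : ℝ), R₀ < R₁ ∧ R₁ < 1 ∧ 0 < c ∧
      (∀ z : ℂ, ‖z‖ = R₁ → c ≤ ‖ev θ z‖) ∧
      ∀ x ∈ Set.Icc r₀ R₁, c ≤ ‖ev θ (x * Complex.exp (φ * Complex.I))‖ := by
  set R₂ : ℝ := (1 + R₀) / 2 with hR₂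
  have h1 : R₀ < R₂ := by rw [hR₂]; linarith
  have h2 : R₂ < 1 := by rw [hR₂]; linarith
  have hfin := finite_zeros hθ hθ0 h2
  set Z := {z : ℂ | ‖z‖ ≤ R₂ ∧ ev θ z = 0} with hZ
  obtain ⟨R₁, ⟨hR₁0, hR₁2⟩, hR₁Z⟩ := (Set.Ioo_infinite h1).exists_notMem_finite
    (hfin.image (fun z : ℂ => ‖z‖))
  have hinj : Set.InjOn (fun φ : ℝ => Complex.exp (φ * Complex.I)) (Set.Ioo (0 : ℝ) 1) := by
    intro x hx y hy hxy
    simp only at hxy
    rw [Complex.exp_eq_exp_iff_exists_int] at hxy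
    obtain ⟨n, hn⟩ := hxy
    have h3 := congrArg Complex.im hn
    simp at h3
    have hπ := Real.pi_gt_three
    have h4 : n = 0 := by
      by_contra hne
      have h5 : (1 : ℝ) ≤ |(n : ℝ)| := by
        rw [← Int.cast_abs]
        exact_mod_cast Int.one_le_abs hne
      have h6 : |x - y| < 1 := by
        rw [abs_lt]
        constructor <;> linarith [hx.1, hx.2, hy.1, hy.2]
      have h7 : x - y = n * (2 * Real.pi) := by linarith
      rw [h7, abs_mul, abs_of_pos (by positivity : (0 : ℝ) < 2 * Real.pi)] at h6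
      nlinarith
    rw [h4] at h3
    simpa using h3
  obtain ⟨u, ⟨φ, hφ, rfl⟩, huZ⟩ := ((Set.Ioo_infinite (zero_lt_one' ℝ)).image
    hinj).exists_notMem_finite (hfin.image (fun z : ℂ => z / ‖z‖))
  have hexp : ‖Complex.exp (φ * Complex.I)‖ = 1 := Complex.norm_exp_ofReal_mul_I φ
  have hcirc : ∀ z : ℂ, ‖z‖ = R₁ → ev θ z ≠ 0 := by
    intro z hz h0
    exact hR₁Z ⟨z, ⟨by rw [hz]; exact hR₁2.le, h0⟩, hz⟩
  have hseg : ∀ x ∈ Set.Icc r₀ R₁, ev θ (x * Complex.exp (φ * Complex.I)) ≠ 0 := by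
    intro x hx h0
    have hx0 : 0 < x := lt_of_lt_of_le hr hx.1
    have hn : ‖(x : ℂ) * Complex.exp (φ * Complex.I)‖ = x := by
      rw [norm_mul, hexp, mul_one, Complex.norm_real, Real.norm_eq_abs, abs_of_pos hx0]
    refine huZ ⟨(x : ℂ) * Complex.exp (φ * Complex.I), ⟨by rw [hn]; exact hx.2.trans hR₁2.le, h0⟩,
      ?_⟩
    simp only
    rw [hn]
    have : (x : ℂ) ≠ 0 := by exact_mod_cast hx0.ne'
    field_simp
  have hcont : ContinuousOn (fun z => ‖ev θ z‖) (ball 0 1) :=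
    (differentiableOn_ev hθ).continuousOn.norm
  have hR₁pos : 0 < R₁ := by linarith
  have hR₁1 : R₁ < 1 := by linarith
  -- the circle
  obtain ⟨z₀, hz₀, hmin⟩ := (isCompact_sphere (0 : ℂ) R₁).exists_isMinOn
    (NormedSpace.sphere_nonempty.mpr hR₁pos.le)
    (hcont.mono (fun z hz => by
      rw [mem_sphere_zero_iff_norm] at hz
      rw [mem_ball_zero_iff, hz]
      exact hR₁1))
  -- the segment
  have hcont2 : ContinuousOn (fun x : ℝ => ‖ev θ (x * Complex.exp (φ * Complex.I))‖)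
      (Set.Icc r₀ R₁) := by
    refine hcont.comp (f := fun x : ℝ => (x : ℂ) * Complex.exp (φ * Complex.I)) ?_ ?_
    · exact (Complex.continuous_ofReal.mul continuous_const).continuousOn
    · intro x hx
      have hx0 : 0 < x := lt_of_lt_of_le hr hx.1
      rw [mem_ball_zero_iff, norm_mul, hexp, mul_one, Complex.norm_real, Real.norm_eq_abs,
        abs_of_pos hx0]
      exact lt_of_le_of_lt hx.2 hR₁1
  obtain ⟨x₀, hx₀, hmin2⟩ := isCompact_Icc.exists_isMinOn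
    ⟨r₀, ⟨le_rfl, by linarith⟩⟩ hcont2
  refine ⟨R₁, φ, min ‖ev θ z₀‖ ‖ev θ (x₀ * Complex.exp (φ * Complex.I))‖, hR₁0, hR₁1,
    lt_min ?_ ?_, fun z hz => ?_, fun x hx => ?_⟩
  · rw [norm_pos_iff]
    exact hcirc z₀ (by rwa [mem_sphere_zero_iff_norm] at hz₀)
  · rw [norm_pos_iff]
    exact hseg x₀ hx₀
  · exact (min_le_left _ _).trans (hmin (by rwa [mem_sphere_zero_iff_norm]))
  · exact (min_le_right _ _).trans (hmin2 hx)

/-- The growth of the solutions of a linear system with bounded coefficients. -/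
theorem arch_transport {θ : PowerSeries ℂ} (hθ : CConv θ) (hθ0 : θ ≠ 0) {r₀ R₀ : ℝ} (hr : 0 < r₀)
    (hrR : r₀ < R₀) (hR : R₀ < 1) : ∃ (R₁ C : ℝ) (z₁ : ℂ), R₀ < R₁ ∧ R₁ < 1 ∧ 0 < C ∧
      ‖z₁‖ = r₀ ∧ ev θ z₁ ≠ 0 ∧
      ∀ (ι : Type) [Fintype ι] (g : ι → PowerSeries ℂ) (B : ι → ι → PowerSeries ℂ) (b δ : ℝ),
        (∀ i, CConv (g i)) → (∀ i l, CConv (B i l)) →
        (∀ i, θ * th (g i) = ∑ l, B i l * g l) → 0 ≤ b → (∀ i l, cnrm R₁ (B i l) ≤ b) → 0 ≤ δ →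
        (∀ i, ‖ev (g i) z₁‖ ≤ δ) → ∀ i,
        cnrm R₀ (g i) ≤ C * δ * Real.exp (C * (Fintype.card ι * b)) := by
  obtain ⟨R₁, φ, c, hR₁0, hR₁1, hc, hcirc, hseg⟩ := exists_path hθ hθ0 hr hrR hR
  have hR₁pos : 0 < R₁ := by linarith
  have hR₀pos : 0 < R₀ := by linarith
  have hexp : ‖Complex.exp (φ * Complex.I)‖ = 1 := Complex.norm_exp_ofReal_mul_I φ
  have hnorm : ∀ x : ℝ, 0 < x → ‖(x : ℂ) * Complex.exp (φ * Complex.I)‖ = x := by
    intro x hx
    rw [norm_mul, hexp, mul_one, Complex.norm_real, Real.norm_eq_abs, abs_of_pos hx]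
  have hq : R₀ / R₁ < 1 := (div_lt_one hR₁pos).mpr hR₁0
  have hq0 : 0 ≤ R₀ / R₁ := by positivity
  set C₁ : ℝ := (1 - R₀ / R₁)⁻¹ with hC₁
  have hC₁0 : 0 < C₁ := inv_pos.mpr (by linarith)
  set C₂ : ℝ := (R₁ - r₀) / (r₀ * c) + 2 * Real.pi / (r₀ * c) with hC₂
  have hC₂0 : 0 ≤ C₂ := by
    have : 0 ≤ R₁ - r₀ := by linarith
    have := Real.pi_pos
    rw [hC₂]
    positivity
  refine ⟨R₁, C₁ + C₂, r₀ * Complex.exp (φ * Complex.I), hR₁0, hR₁1, by linarith, hnorm r₀ hr,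
    ?_, ?_⟩
  · have h1 := hseg r₀ ⟨le_rfl, by linarith⟩
    intro h2
    rw [h2, norm_zero] at h1
    linarith
  intro ι _ g B b δ hg hB hsys hb hbB hδ0 hδ i
  set N : ℝ := (Fintype.card ι : ℝ) * b with hN
  have hN0 : 0 ≤ N := by positivity
  -- the segment
  have h1 : ∀ i, ‖ev (g i) (R₁ * Complex.exp (φ * Complex.I))‖ ≤
      δ * Real.exp (N * ((R₁ - r₀) / (r₀ * c))) := by
    intro i
    have h2 := path_bound hθ hg hB hsys hR₁pos hR₁1 hr hc hb zero_le_one hbB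
      (γ := fun x : ℝ => (x : ℂ) * Complex.exp (φ * Complex.I))
      (γ' := fun _ => Complex.exp (φ * Complex.I)) (t₀ := r₀) (t₁ := R₁)
      (fun t _ => by
        have h3 := (Complex.ofRealCLM.hasDerivAt (x := t)).mul_const (Complex.exp (φ * Complex.I))
        simpa using h3)
      (fun t _ => hexp.le) (fun t ht => by rw [hnorm t (lt_of_lt_of_le hr ht.1)]; exact ht.2)
      (fun t ht => by rw [hnorm t (lt_of_lt_of_le hr ht.1)]; exact ht.1)
      (fun t ht => hseg t ht) hδ0 hδ R₁ ⟨by linarith, le_rfl⟩ i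
    refine h2.trans (le_of_eq ?_)
    congr 2
    rw [hN]
    ring
  -- the circle
  have h2 : ∀ z : ℂ, ‖z‖ = R₁ → ∀ i, ‖ev (g i) z‖ ≤ δ * Real.exp (N * C₂) := by
    intro z hz i
    have hz0 : z ≠ 0 := by
      rintro rfl
      rw [norm_zero] at hz
      linarith
    -- an angle
    obtain ⟨ψ, hψ0, hψ1, hψ⟩ : ∃ ψ : ℝ, 0 ≤ ψ ∧ ψ ≤ 2 * Real.pi ∧
        z = R₁ * Complex.exp ((φ + ψ : ℝ) * Complex.I) := by
      set w : ℂ := z / (R₁ * Complex.exp (φ * Complex.I)) with hw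
      have hw1 : ‖w‖ = 1 := by
        rw [hw, norm_div, hnorm R₁ hR₁pos, hz, div_self hR₁pos.ne']
      have hzw : z = R₁ * Complex.exp (φ * Complex.I) * w := by
        rw [hw, mul_div_cancel₀]
        exact mul_ne_zero (by exact_mod_cast hR₁pos.ne') (Complex.exp_ne_zero _)
      have hwe : w = Complex.exp (w.arg * Complex.I) := by
        have := Complex.norm_mul_exp_arg_mul_I w
        rw [hw1, Complex.ofReal_one, one_mul] at this
        exact this.symm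
      have ha1 := Complex.neg_pi_lt_arg w
      have ha2 := Complex.arg_le_pi w
      by_cases ha : 0 ≤ w.arg
      · refine ⟨w.arg, ha, by linarith, ?_⟩
        rw [hzw]
        conv_lhs => rw [hwe]
        push_cast
        rw [add_mul, Complex.exp_add]
        ring
      · push Not at ha
        refine ⟨w.arg + 2 * Real.pi, by linarith, by linarith, ?_⟩
        rw [hzw]
        conv_lhs => rw [hwe]
        push_cast
        have h5 : ((φ : ℂ) + ((w.arg : ℂ) + 2 * Real.pi)) * Complex.I =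
            φ * Complex.I + w.arg * Complex.I + 2 * Real.pi * Complex.I := by ring
        rw [h5, Complex.exp_add, Complex.exp_add, Complex.exp_two_pi_mul_I]
        ring
    have hnc : ∀ t : ℝ, ‖(R₁ : ℂ) * Complex.exp ((φ + t : ℝ) * Complex.I)‖ = R₁ := by
      intro t
      rw [norm_mul, Complex.norm_exp_ofReal_mul_I, mul_one, Complex.norm_real, Real.norm_eq_abs,
        abs_of_pos hR₁pos]
    have h3 := path_bound hθ hg hB hsys hR₁pos hR₁1 hr hc hb (G := 1) zero_le_one hbB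
      (γ := fun t : ℝ => (R₁ : ℂ) * Complex.exp ((φ + t : ℝ) * Complex.I))
      (γ' := fun t : ℝ => (R₁ : ℂ) * (Complex.exp ((φ + t : ℝ) * Complex.I) * Complex.I))
      (t₀ := 0) (t₁ := 2 * Real.pi)
      (fun t _ => by
        have h4 : HasDerivAt (fun t : ℝ => (((φ + t : ℝ) : ℂ) * Complex.I)) Complex.I t := by
          have h5 := ((Complex.ofRealCLM.hasDerivAt (x := t)).const_add (φ : ℂ)).mul_const
            Complex.I
          simpa using h5
        exact (h4.cexp).const_mul _)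
      (fun t _ => by
        rw [norm_mul, norm_mul, Complex.norm_exp_ofReal_mul_I, Complex.norm_I, one_mul, mul_one,
          Complex.norm_real, Real.norm_eq_abs, abs_of_pos hR₁pos]
        exact hR₁1.le)
      (fun t _ => (hnc t).le) (fun t _ => by rw [hnc t]; linarith)
      (fun t _ => hcirc _ (hnc t)) (δ := δ * Real.exp (N * ((R₁ - r₀) / (r₀ * c))))
      (by positivity) (fun i => by
        have := h1 i
        simpa using this) ψ ⟨hψ0, hψ1⟩ i
    simp only [← hψ] at h3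
    refine h3.trans ?_
    rw [mul_assoc, ← Real.exp_add]
    refine mul_le_mul_of_nonneg_left (Real.exp_le_exp.mpr ?_) hδ0
    have h6 : (Fintype.card ι : ℝ) * b * 1 / (r₀ * c) * (ψ - 0) ≤
        N * (2 * Real.pi / (r₀ * c)) := by
      calc (Fintype.card ι : ℝ) * b * 1 / (r₀ * c) * (ψ - 0) = N / (r₀ * c) * ψ := by
            rw [hN]; ring
        _ ≤ N / (r₀ * c) * (2 * Real.pi) := mul_le_mul_of_nonneg_left hψ1 (by positivity)
        _ = _ := by ring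
    rw [hC₂, mul_add]
    linarith
  -- the coefficients
  have h3 : ∀ n, ‖coeff n (g i)‖ * R₁ ^ n ≤ δ * Real.exp (N * C₂) := fun n =>
    coeff_le_of_sphere (hg i) hR₁pos hR₁1 (fun z hz => h2 z hz i) n
  have h4 : ∀ n, ‖coeff n (g i)‖ * R₀ ^ n ≤ δ * Real.exp (N * C₂) * (R₀ / R₁) ^ n := by
    intro n
    have h5 : ‖coeff n (g i)‖ * R₀ ^ n = ‖coeff n (g i)‖ * R₁ ^ n * (R₀ / R₁) ^ n := by
      rw [div_pow]
      field_simp
    rw [h5]
    exact mul_le_mul_of_nonneg_right (h3 n) (by positivity)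
  have h5 : cnrm R₀ (g i) ≤ δ * Real.exp (N * C₂) * C₁ := by
    unfold cnrm
    have h6 := (summable_geometric_of_lt_one hq0 hq).mul_left (δ * Real.exp (N * C₂))
    refine ((hg i R₀ hR₀pos hR).tsum_le_tsum h4 h6).trans ?_
    rw [tsum_mul_left, tsum_geometric_of_lt_one hq0 hq]
  refine h5.trans ?_
  have h6 : Real.exp (N * C₂) ≤ Real.exp ((C₁ + C₂) * N) :=
    Real.exp_le_exp.mpr (by nlinarith)
  calc δ * Real.exp (N * C₂) * C₁ = C₁ * δ * Real.exp (N * C₂) := by ring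
    _ ≤ (C₁ + C₂) * δ * Real.exp ((C₁ + C₂) * N) := by
        refine mul_le_mul ?_ h6 (Real.exp_pos _).le (by positivity)
        exact mul_le_mul_of_nonneg_right (by linarith) hδ0

end geometry

end Pool.Agent.H925
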