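import Pool.Agent.H925.CritU
import Pool.Graph.R_pool_sql_team_seeded_620a6dc7.Helper338PC.GExpl

set_option autoImplicit false

open PowerSeries Finset

namespace Pool.Agent.H925

open Pool.Agent.Helper338PC (siegel exists_large Sm nrm coeff_le_nrm nrm_pow nrm_nonneg)

section criterion

/-- The effective criterion: for a power series with rational coefficients whose denominators (up
to the order `T'`) and whose size are bounded in terms of `L` there is a polynomial of degree less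
than `M` in the second variable and less than `t` in the first variable which vanishes on it up to
the order `T'`, for every `t ≥ c L`. -/
theorem criterion_fin {Λ ρ : ℝ} (hΛ : 1 ≤ Λ) (hρ : 0 < ρ)
    {m₀ : ℕ} (hm₀ : 0 < m₀) {Φ Φ' Q : PowerSeries ℂ} (hΦ : Φ = PowerSeries.X ^ m₀ * Φ')
    (hc : Λ < ‖constantCoeff Φ'‖) (hQ : CConv Q) (hQ1 : constantCoeff Q = 1)
    (hQΦ : CConv (Q * Φ)) : ∃ (M c₀ : ℕ) (R : ℝ), 0 < M ∧ 0 < R ∧ R < 1 ∧
      ∀ (f : PowerSeries ℚ) (L t T' : ℕ), 1 ≤ L → c₀ * L ≤ t → 0 < t → t * M ≤ T' →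
      (∀ n ≤ T', ∃ d : ℕ, 0 < d ∧ (d : ℝ) ≤ Real.exp L * Λ ^ n ∧
        ∀ m ≤ M, ∀ s ≤ n, ∃ z : ℤ, (d : ℚ) * coeff s (f ^ m) = z) →
      Sm ρ (f.map (algebraMap ℚ ℝ)) → nrm ρ (f.map (algebraMap ℚ ℝ)) ≤ Real.exp L →
      CSm R (Q * (f.map (algebraMap ℚ ℂ)).subst Φ) →
      cnrm R (Q * (f.map (algebraMap ℚ ℂ)).subst Φ) ≤ Real.exp L →
      ∃ P : Polynomial (Polynomial ℚ), P ≠ 0 ∧ P.natDegree < M ∧
        (∀ i, (P.coeff i).natDegree < t) ∧ ∀ s ≤ T', coeff s (Polynomial.aeval f P) = 0 := by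
  classical
  set c : ℝ := ‖constantCoeff Φ'‖ with hcdef
  have hΛ0 : 0 < Λ := by linarith
  have hc0 : 0 < c := by linarith
  have h0 : constantCoeff Φ = 0 := by
    rw [hΦ, map_mul, map_pow, constantCoeff_X, zero_pow hm₀.ne', zero_mul]
  have hs : HasSubst Φ := HasSubst.of_constantCoeff_zero' h0
  -- the radius
  obtain ⟨Rm, hRm1, hRm2⟩ : ∃ R : ℝ, Λ / c < R ∧ R < 1 := exists_between ((div_lt_one hc0).mpr hc)
  have hRm0 : 0 < Rm := lt_trans (by positivity) hRm1
  obtain ⟨R, hR0, hR2, hRR⟩ : ∃ R : ℝ, 0 < R ∧ R < 1 ∧ R ^ m₀ = Rm := by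
    refine ⟨Rm ^ ((m₀ : ℝ)⁻¹), Real.rpow_pos_of_pos hRm0 _,
      Real.rpow_lt_one hRm0.le hRm2 (by positivity), ?_⟩
    exact Real.rpow_inv_natCast_pow hRm0.le hm₀.ne'
  have hx : 1 < c * Rm / Λ := by
    rw [one_lt_div hΛ0]
    rw [div_lt_iff₀ hc0] at hRm1
    linarith
  set κ : ℝ := (c * Rm / Λ) ^ (1 / 4 : ℝ) with hκ
  have hκ4 : κ ^ 4 = c * Rm / Λ := by
    rw [hκ, ← Real.rpow_natCast, ← Real.rpow_mul (by linarith)]
    norm_num
  have hκ1 : 1 < κ := Real.one_lt_rpow hx (by norm_num)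
  -- growth of the coefficients
  set B : ℝ := max 1 (1 / ρ) with hB
  have hB1 : 1 ≤ B := le_max_left _ _
  -- the parameters
  obtain ⟨E, hE⟩ := pow_unbounded_of_one_lt (Λ * B) hκ1
  have hE0 : 0 < E := by
    rcases Nat.eq_zero_or_pos E with h | h
    · rw [h, pow_zero] at hE
      exact absurd hE (not_lt.mpr (one_le_mul_of_one_le_of_one_le hΛ hB1))
    · exact h
  set q : ℝ := max 1 (cnrm R Q) with hq
  have hq1 : 1 ≤ q := le_max_left _ _
  set W : ℝ := max q (cnrm R (Q * Φ)) with hW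
  have hW1 : 1 ≤ W := hq1.trans (le_max_left _ _)
  obtain ⟨M', hM'⟩ := pow_unbounded_of_one_lt (max W 1) hκ1
  have hM'0 : 0 < M' := by
    rcases Nat.eq_zero_or_pos M' with h | h
    · rw [h, pow_zero] at hM'
      exact absurd hM' (not_lt.mpr (le_max_right _ _))
    · exact h
  have hWM : W ≤ κ ^ M' := (le_max_left _ _).trans hM'.le
  set M : ℕ := (E + 1) * M' with hM
  have hMpos : 0 < M := Nat.mul_pos (Nat.succ_pos E) hM'0
  obtain ⟨B₂, hB₂0, hB₂⟩ := Helper338PC.poly_le_exp 2 hκ1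
  set Y : ℝ := Real.exp (2 + 2 * M) * q ^ M * ((E + 1 : ℕ) : ℝ) ^ 2 * (B₂ + 1) with hY
  obtain ⟨c₀, hc₀⟩ := pow_unbounded_of_one_lt Y hκ1
  refine ⟨M, c₀, R, hMpos, hR0, hR2, ?_⟩
  intro f L t T' hL ht1 ht0 htT' hden hρF hρL hFs hFL
  set F : PowerSeries ℝ := f.map (algebraMap ℚ ℝ) with hF
  set FC : PowerSeries ℂ := f.map (algebraMap ℚ ℂ) with hFC
  set N : ℝ := Real.exp L with hN
  have hN1 : 1 ≤ N := Real.one_le_exp (Nat.cast_nonneg L)
  have hcoef : ∀ k s : ℕ, |((coeff s (f ^ k) : ℚ) : ℝ)| ≤ N ^ k * B ^ s := by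
    intro k s
    have h2 : ((coeff s (f ^ k) : ℚ) : ℝ) = coeff s (F ^ k) := by
      rw [hF, ← map_pow, PowerSeries.coeff_map]
      rfl
    have h3 := coeff_le_nrm hρ (Sm.pow hρ hρF k) s
    have h4 := nrm_pow hρ hρF k
    have h5 : nrm ρ F ^ k ≤ N ^ k := pow_le_pow_left₀ (nrm_nonneg hρ) hρL k
    have h6 : |coeff s (F ^ k)| ≤ N ^ k * (1 / ρ) ^ s := by
      rw [one_div, inv_pow, ← div_eq_mul_inv, le_div_iff₀ (by positivity)]
      linarith
    rw [h2]
    refine h6.trans (mul_le_mul_of_nonneg_left ?_ (by positivity))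
    exact pow_le_pow_left₀ (by positivity) (le_max_right _ _) s
  set K : ℝ := Real.exp L with hK
  have hK1 : 1 ≤ K := hN1
  set V : ℝ := q * Real.exp L with hV
  have hVe : Real.exp L ≤ V := le_mul_of_one_le_left (Real.exp_pos _).le hq1
  have hVq : q ≤ V := le_mul_of_one_le_right (by linarith) hN1
  have hV1 : 1 ≤ V := hq1.trans hVq
  set K' : ℝ := K * N ^ M with hK'
  have hNM : 1 ≤ N ^ M := one_le_pow₀ hN1
  have hK'1 : 1 ≤ K' := one_le_mul_of_one_le_of_one_le hK1 hNM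
  set T : ℕ := t * M' with hT
  have hT0 : 0 < T := Nat.mul_pos ht0 hM'0
  have hTT' : T ≤ T' := le_trans (Nat.mul_le_mul_left _
    (Nat.le_mul_of_pos_left _ (Nat.succ_pos E))) htT'
  have hcT : c₀ * L ≤ T := ht1.trans (Nat.le_mul_of_pos_right _ hM'0)
  have hlarge : K * K' * V ^ M * ((E + 1 : ℕ) : ℝ) ^ 2 * (T : ℝ) ^ 2 < κ ^ T * κ ^ T := by
    have e1 : K * K' * V ^ M * ((E + 1 : ℕ) : ℝ) ^ 2 =
        Real.exp (2 + 2 * M) ^ L * (q ^ M * ((E + 1 : ℕ) : ℝ) ^ 2) := by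
      rw [hK', hK, hN, hV, mul_pow, ← Real.exp_nat_mul (L : ℝ) M, ← Real.exp_nat_mul _ L]
      have e2 : Real.exp ((L : ℝ) * (2 + 2 * (M : ℝ))) = Real.exp L * (Real.exp L *
          Real.exp ((M : ℝ) * L)) * Real.exp ((M : ℝ) * L) := by
        rw [← Real.exp_add, ← Real.exp_add, ← Real.exp_add]
        congr 1
        ring
      rw [e2]
      ring
    have e3 : (1 : ℝ) ≤ q ^ M * ((E + 1 : ℕ) : ℝ) ^ 2 := by
      refine one_le_mul_of_one_le_of_one_le (one_le_pow₀ hq1) (one_le_pow₀ ?_)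
      exact_mod_cast Nat.succ_le_succ (Nat.zero_le E)
    have e4 : (T : ℝ) ^ 2 ≤ (B₂ + 1) * κ ^ T := by
      calc (T : ℝ) ^ 2 ≤ ((T : ℝ) + 2) ^ 2 :=
            pow_le_pow_left₀ (Nat.cast_nonneg T) (by linarith) 2
        _ ≤ B₂ * κ ^ T := hB₂ T
        _ ≤ _ := mul_le_mul_of_nonneg_right (by linarith) (by positivity)
    have e5 : Real.exp (2 + 2 * M) ^ L * (q ^ M * ((E + 1 : ℕ) : ℝ) ^ 2) * (B₂ + 1) ≤ Y ^ L := by
      have e6 : q ^ M * ((E + 1 : ℕ) : ℝ) ^ 2 * (B₂ + 1) ≤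
          (q ^ M * ((E + 1 : ℕ) : ℝ) ^ 2 * (B₂ + 1)) ^ L :=
        le_self_pow₀ (one_le_mul_of_one_le_of_one_le e3 (by linarith)) (by omega)
      calc Real.exp (2 + 2 * M) ^ L * (q ^ M * ((E + 1 : ℕ) : ℝ) ^ 2) * (B₂ + 1)
          = Real.exp (2 + 2 * M) ^ L * (q ^ M * ((E + 1 : ℕ) : ℝ) ^ 2 * (B₂ + 1)) := by ring
        _ ≤ Real.exp (2 + 2 * M) ^ L * (q ^ M * ((E + 1 : ℕ) : ℝ) ^ 2 * (B₂ + 1)) ^ L :=
            mul_le_mul_of_nonneg_left e6 (by positivity)
        _ = Y ^ L := by rw [← mul_pow, hY]; congr 1; ring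
    have hY0 : 0 ≤ Y := by rw [hY]; positivity
    calc K * K' * V ^ M * ((E + 1 : ℕ) : ℝ) ^ 2 * (T : ℝ) ^ 2
        ≤ K * K' * V ^ M * ((E + 1 : ℕ) : ℝ) ^ 2 * ((B₂ + 1) * κ ^ T) :=
          mul_le_mul_of_nonneg_left e4 (by positivity)
      _ = (Real.exp (2 + 2 * M) ^ L * (q ^ M * ((E + 1 : ℕ) : ℝ) ^ 2) * (B₂ + 1)) * κ ^ T := by
          rw [e1]; ring
      _ ≤ Y ^ L * κ ^ T := mul_le_mul_of_nonneg_right e5 (by positivity)
      _ < κ ^ T * κ ^ T := by
          refine mul_lt_mul_of_pos_right ?_ (by positivity)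
          calc Y ^ L < (κ ^ c₀) ^ L := pow_lt_pow_left₀ hc₀ hY0 (by omega)
            _ = κ ^ (c₀ * L) := (pow_mul _ _ _).symm
            _ ≤ κ ^ T := pow_le_pow_right₀ hκ1.le hcT
  -- the linear system
  obtain ⟨d, hd0, hdle, hdint⟩ := hden T hTT'
  have hint : ∀ (m : Fin T) (x : Fin t × Fin M), ∃ z : ℤ,
      (d : ℚ) * coeff (m : ℕ) (PowerSeries.X ^ (x.1 : ℕ) * f ^ (x.2 : ℕ)) = z := by
    intro m x
    rw [PowerSeries.coeff_X_pow_mul']
    split_ifs with h
    · exact hdint _ (by have := x.2.2; omega) _ (by have := m.2; omega)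
    · exact ⟨0, by simp⟩
  choose A hA using hint
  have hdK : (d : ℝ) ≤ K * Λ ^ T := hdle
  have hAle : ∀ m x, |(A m x : ℝ)| ≤ K' * (Λ * B) ^ T := by
    intro m x
    have h2 : (A m x : ℝ) =
        (d : ℝ) * ((coeff (m : ℕ) (PowerSeries.X ^ (x.1 : ℕ) * f ^ (x.2 : ℕ)) : ℚ) : ℝ) := by
      have := congrArg (fun q : ℚ => (q : ℝ)) (hA m x)
      simp only [Rat.cast_mul, Rat.cast_natCast, Rat.cast_intCast] at this
      exact this.symm
    rw [h2, abs_mul, Nat.abs_cast, hK', mul_pow]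
    have h3 : |((coeff (m : ℕ) (PowerSeries.X ^ (x.1 : ℕ) * f ^ (x.2 : ℕ)) : ℚ) : ℝ)| ≤
        N ^ M * B ^ T := by
      rw [PowerSeries.coeff_X_pow_mul']
      split_ifs with h
      · refine (hcoef _ _).trans ?_
        refine mul_le_mul (pow_le_pow_right₀ hN1 x.2.2.le) (pow_le_pow_right₀ hB1 ?_)
          (by positivity) (by positivity)
        have := m.2
        omega
      · simp only [Rat.cast_zero, abs_zero]
        positivity
    calc (d : ℝ) * _ ≤ (K * Λ ^ T) * (N ^ M * B ^ T) :=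
          mul_le_mul hdK h3 (abs_nonneg _) (by positivity)
      _ = _ := by ring
  have hΛB : 1 ≤ (Λ * B) ^ T := one_le_pow₀ (one_le_mul_of_one_le_of_one_le hΛ hB1)
  have hcα : Fintype.card (Fin T) = T := Fintype.card_fin T
  have hcβ : Fintype.card (Fin t × Fin M) = (E + 1) * T := by
    rw [Fintype.card_prod, Fintype.card_fin, Fintype.card_fin, hM, hT]
    ring
  obtain ⟨p, hp0, hpA, hpn⟩ := siegel (A : Matrix (Fin T) (Fin t × Fin M) ℤ)
    (H := K' * (Λ * B) ^ T) (one_le_mul_of_one_le_of_one_le hK'1 hΛB) hAle (by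
      rw [hcα, hcβ]
      exact lt_mul_of_one_lt_left hT0 (by omega)) (by rw [hcα]; exact hT0)
  rw [hcα, hcβ] at hpn
  -- the size of the solution
  set P : ℝ := (((E + 1 : ℕ) : ℝ) * T) * K' * κ ^ T with hP
  have hE1 : (1 : ℝ) ≤ ((E + 1 : ℕ) : ℝ) := by exact_mod_cast Nat.succ_le_succ (Nat.zero_le E)
  have hT1 : (1 : ℝ) ≤ (T : ℝ) := by exact_mod_cast hT0
  have hET : (1 : ℝ) ≤ ((E + 1 : ℕ) : ℝ) * T := one_le_mul_of_one_le_of_one_le hE1 hT1
  have hexp : (T : ℝ) / (((E + 1) * T : ℕ) - T : ℝ) = 1 / E := by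
    have hE' : (E : ℝ) ≠ 0 := by exact_mod_cast hE0.ne'
    have hT' : (T : ℝ) ≠ 0 := by positivity
    have h2 : (((E + 1) * T : ℕ) - T : ℝ) = E * T := by push_cast; ring
    rw [h2, div_eq_div_iff (mul_ne_zero hE' hT') hE']
    ring
  have hpP : ∀ x, |(p x : ℝ)| ≤ P := by
    intro x
    refine (hpn x).trans ?_
    rw [hexp]
    have h2 : (((E + 1) * T : ℕ) : ℝ) * (K' * (Λ * B) ^ T) =
        (((E + 1 : ℕ) : ℝ) * T * K') * (Λ * B) ^ T := by push_cast; ring
    have h3 : 1 ≤ ((E + 1 : ℕ) : ℝ) * T * K' := one_le_mul_of_one_le_of_one_le hET hK'1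
    rw [h2, Real.mul_rpow (by positivity) (by positivity), hP]
    have hEi : (1 : ℝ) / E ≤ 1 := by
      rw [div_le_one (by positivity)]
      exact_mod_cast hE0
    refine mul_le_mul ?_ ?_ (by positivity) (by positivity)
    · calc (((E + 1 : ℕ) : ℝ) * T * K') ^ ((1 : ℝ) / E)
          ≤ (((E + 1 : ℕ) : ℝ) * T * K') ^ (1 : ℝ) := Real.rpow_le_rpow_of_exponent_le h3 hEi
        _ = _ := Real.rpow_one _
    · calc ((Λ * B) ^ T) ^ ((1 : ℝ) / E) ≤ ((κ ^ E) ^ T) ^ ((1 : ℝ) / E) :=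
            Real.rpow_le_rpow (by positivity) (pow_le_pow_left₀ (by positivity) hE.le T)
              (by positivity)
        _ = κ ^ T := by
            rw [← pow_mul, mul_comm E T, pow_mul, one_div,
              Real.pow_rpow_inv_natCast (by positivity) hE0.ne']
  -- the auxiliary power series
  set G : PowerSeries ℚ := ∑ x : Fin t × Fin M,
    (p x : ℚ) • (PowerSeries.X ^ (x.1 : ℕ) * f ^ (x.2 : ℕ)) with hG
  have hGvan : ∀ m < T, coeff m G = 0 := by
    intro m hm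
    have h2 := hpA ⟨m, hm⟩
    have h3 : (d : ℚ) * coeff m G = 0 := by
      rw [hG, map_sum, Finset.mul_sum]
      have h4 : ∀ x : Fin t × Fin M, (d : ℚ) * coeff m ((p x : ℚ) •
          (PowerSeries.X ^ (x.1 : ℕ) * f ^ (x.2 : ℕ))) = ((A ⟨m, hm⟩ x * p x : ℤ) : ℚ) := by
        intro x
        have h5 := hA ⟨m, hm⟩ x
        simp only at h5
        rw [PowerSeries.coeff_smul, smul_eq_mul, Int.cast_mul, ← h5]
        ring
      rw [Finset.sum_congr rfl fun x _ => h4 x, ← Int.cast_sum, h2, Int.cast_zero]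
    have hd : (d : ℚ) ≠ 0 := by exact_mod_cast hd0.ne'
    exact (mul_eq_zero.mp h3).resolve_left hd
  refine ⟨∑ x : Fin t × Fin M, Polynomial.monomial (x.2 : ℕ)
    (Polynomial.monomial (x.1 : ℕ) (p x : ℚ)), ?_, ?_, ?_, ?_⟩
  · intro h2
    obtain ⟨y, hy⟩ := Function.ne_iff.mp hp0
    have h3 := congrArg (fun q => (q.coeff (y.2 : ℕ)).coeff (y.1 : ℕ)) h2
    simp only [Polynomial.finsetSum_coeff, Polynomial.coeff_zero] at h3
    rw [Finset.sum_eq_single y] at h3
    · rw [Polynomial.coeff_monomial_same, Polynomial.coeff_monomial_same] at h3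
      exact hy (by exact_mod_cast h3)
    · intro z _ hz
      rw [Polynomial.coeff_monomial]
      split_ifs with h4
      · rw [Polynomial.coeff_monomial]
        split_ifs with h5
        · exact absurd (Prod.ext (Fin.ext h5) (Fin.ext h4)) hz
        · rfl
      · rw [Polynomial.coeff_zero]
    · intro h4; exact absurd (mem_univ y) h4
  · refine lt_of_le_of_lt (Polynomial.natDegree_sum_le_of_forall_le _ _
      (n := M - 1) fun x _ => ?_) (by omega)
    refine (Polynomial.natDegree_monomial_le _).trans ?_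
    have := x.2.2
    omega
  · intro i
    rw [Polynomial.finsetSum_coeff]
    refine lt_of_le_of_lt (Polynomial.natDegree_sum_le_of_forall_le _ _
      (n := t - 1) fun x _ => ?_) (by omega)
    rw [Polynomial.coeff_monomial]
    split_ifs
    · refine (Polynomial.natDegree_monomial_le _).trans ?_
      have := x.1.2
      omega
    · simp
  · have hGP : Polynomial.aeval f (∑ x : Fin t × Fin M, Polynomial.monomial (x.2 : ℕ)
        (Polynomial.monomial (x.1 : ℕ) (p x : ℚ))) = G := by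
      rw [hG, map_sum]
      refine Finset.sum_congr rfl fun x _ => ?_
      rw [Polynomial.aeval_monomial, ← smul_mul_assoc]
      congr 1
      rw [PowerSeries.algebraMap_apply']
      ext n
      simp [PowerSeries.coeff_X_pow, PowerSeries.coeff_monomial]
    rw [hGP]
    by_contra hcon
    push Not at hcon
    -- the order of `G`
    obtain ⟨s₀, hs₀, hs₁⟩ := hcon
    obtain ⟨ν, hνle, hν, hmin⟩ : ∃ ν, ν ≤ T' ∧ coeff ν G ≠ 0 ∧ ∀ m < ν, coeff m G = 0 := by
      have h2 : ∃ ν, coeff ν G ≠ 0 := ⟨s₀, hs₁⟩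
      exact ⟨Nat.find h2, (Nat.find_min' h2 hs₁).trans hs₀, Nat.find_spec h2, fun m hm => by
        have := Nat.find_min h2 hm
        push Not at this
        exact this⟩
    have hνT : T ≤ ν := by
      by_contra h2
      push Not at h2
      exact hν (hGvan ν h2)
    -- lower bound
    obtain ⟨d', hd'0, hd'le, hd'int⟩ := hden ν hνle
    have hlow : 1 / (K * Λ ^ ν) ≤ |((coeff ν G : ℚ) : ℝ)| := by
      have h2 : ∃ z : ℤ, (d' : ℚ) * coeff ν G = z := by
        have h3 : ∀ x : Fin t × Fin M, ∃ z : ℤ, (d' : ℚ) * coeff ν ((p x : ℚ) •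
            (PowerSeries.X ^ (x.1 : ℕ) * f ^ (x.2 : ℕ))) = z := by
          intro x
          rw [PowerSeries.coeff_smul, smul_eq_mul, PowerSeries.coeff_X_pow_mul']
          split_ifs with h
          · obtain ⟨z, hz⟩ := hd'int (x.2 : ℕ) (by have := x.2.2; omega) (ν - x.1) (by omega)
            refine ⟨p x * z, ?_⟩
            rw [Int.cast_mul, ← hz]
            ring
          · exact ⟨0, by simp⟩
        choose z hz using h3
        refine ⟨∑ x, z x, ?_⟩
        rw [hG, map_sum, Finset.mul_sum, Int.cast_sum]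
        exact Finset.sum_congr rfl fun x _ => hz x
      obtain ⟨z, hz⟩ := h2
      have hz0 : z ≠ 0 := by
        intro h3
        rw [h3, Int.cast_zero] at hz
        have hd : (d' : ℚ) ≠ 0 := by exact_mod_cast hd'0.ne'
        exact hν ((mul_eq_zero.mp hz).resolve_left hd)
      have hz1 : (1 : ℝ) ≤ |(z : ℝ)| := by
        rw [← Int.cast_abs]
        exact_mod_cast Int.one_le_abs hz0
      have hz' : (d' : ℝ) * ((coeff ν G : ℚ) : ℝ) = z := by exact_mod_cast congrArg (fun q : ℚ => (q : ℝ)) hz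
      have hd'K : (d' : ℝ) ≤ K * Λ ^ ν := hd'le
      rw [← hz', abs_mul, Nat.abs_cast] at hz1
      rw [div_le_iff₀ (by positivity)]
      rw [mul_comm]
      exact hz1.trans (mul_le_mul_of_nonneg_right hd'K (abs_nonneg _))
    -- upper bound
    set GR : PowerSeries ℂ := G.map (algebraMap ℚ ℂ) with hGR
    have hGRc : ∀ n, coeff n GR = ((coeff n G : ℚ) : ℂ) := fun n => by
      rw [hGR, PowerSeries.coeff_map]; rfl
    have hGRsum : GR = ∑ x : Fin t × Fin M,
        PowerSeries.C (p x : ℂ) * (PowerSeries.X ^ (x.1 : ℕ) * FC ^ (x.2 : ℕ)) := by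
      rw [hGR, hG, map_sum]
      refine Finset.sum_congr rfl fun x _ => ?_
      rw [PowerSeries.smul_eq_C_mul, map_mul, map_mul, map_pow, map_pow, PowerSeries.map_C,
        PowerSeries.map_X, hFC]
      simp
    have hsub : Q ^ (t + M) * GR.subst Φ = ∑ x : Fin t × Fin M,
        PowerSeries.C (p x : ℂ) * ((Q ^ (t - x.1 : ℕ) * (Q * Φ) ^ (x.1 : ℕ)) *
          (Q ^ (M - x.2 : ℕ) * (Q * FC.subst Φ) ^ (x.2 : ℕ))) := by
      rw [hGRsum, ← coe_substAlgHom hs, map_sum, Finset.mul_sum]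
      refine Finset.sum_congr rfl fun x _ => ?_
      rw [map_mul, map_mul, map_pow, map_pow]
      rw [coe_substAlgHom hs, subst_X hs]
      have e1 : (PowerSeries.C (p x : ℂ)).subst Φ = PowerSeries.C (p x : ℂ) := subst_C (a := Φ) _
      have e2 : Q ^ (t + M) = Q ^ (t - x.1 : ℕ) * Q ^ (x.1 : ℕ) * (Q ^ (M - x.2 : ℕ) * Q ^ (x.2 : ℕ)) := by
        rw [← pow_add, ← pow_add, ← pow_add]
        congr 1
        have := x.1.2
        have := x.2.2
        omega
      rw [e1, e2, mul_pow, mul_pow]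
      ring
    have hQs : CSm R Q := hQ R hR0 hR2
    have hΦs : CSm R (Q * Φ) := hQΦ R hR0 hR2
    have hterm1 : ∀ x : Fin t × Fin M, CSm R (Q ^ (t - x.1 : ℕ) * (Q * Φ) ^ (x.1 : ℕ)) :=
      fun x => CSm.mul hR0 (CSm.pow hR0 hQs _) (CSm.pow hR0 hΦs _)
    have hterm2 : ∀ x : Fin t × Fin M,
        CSm R (Q ^ (M - x.2 : ℕ) * (Q * FC.subst Φ) ^ (x.2 : ℕ)) :=
      fun x => CSm.mul hR0 (CSm.pow hR0 hQs _) (CSm.pow hR0 hFs _)
    have hterm : ∀ x : Fin t × Fin M, CSm R (PowerSeries.C (p x : ℂ) *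
        ((Q ^ (t - x.1 : ℕ) * (Q * Φ) ^ (x.1 : ℕ)) *
          (Q ^ (M - x.2 : ℕ) * (Q * FC.subst Φ) ^ (x.2 : ℕ)))) := fun x =>
      CSm.mul hR0 (CSm.C _) (CSm.mul hR0 (hterm1 x) (hterm2 x))
    have hqW : cnrm R Q ≤ W := (le_max_right _ _).trans (le_max_left _ _)
    have hqV : cnrm R Q ≤ V := (le_max_right _ _).trans hVq
    have hFV : cnrm R (Q * FC.subst Φ) ≤ V := hFL.trans hVe
    have hup : ∀ n, ‖coeff n (Q ^ (t + M) * GR.subst Φ)‖ * R ^ n ≤
        (((E + 1) * T : ℕ) : ℝ) * (P * (W ^ t * V ^ M)) := by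
      intro n
      rw [hsub]
      refine (coeff_le_cnrm hR0 (CSm.sum hR0 _ fun x _ => hterm x) n).trans ?_
      refine (cnrm_sum hR0 _ fun x _ => hterm x).trans ?_
      have h2 : ∀ x ∈ (univ : Finset (Fin t × Fin M)), cnrm R (PowerSeries.C (p x : ℂ) *
          ((Q ^ (t - x.1 : ℕ) * (Q * Φ) ^ (x.1 : ℕ)) *
          (Q ^ (M - x.2 : ℕ) * (Q * FC.subst Φ) ^ (x.2 : ℕ)))) ≤ P * (W ^ t * V ^ M) := by
        intro x _
        refine (cnrm_mul hR0 (CSm.C _) (CSm.mul hR0 (hterm1 x) (hterm2 x))).trans ?_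
        rw [cnrm_C]
        have hpn' : ‖(p x : ℂ)‖ ≤ P := by
          rw [Complex.norm_intCast]
          exact hpP x
        refine mul_le_mul hpn' ?_ (cnrm_nonneg hR0) (by positivity)
        refine (cnrm_mul hR0 (hterm1 x) (hterm2 x)).trans ?_
        refine mul_le_mul ?_ ?_ (cnrm_nonneg hR0) (by positivity)
        · refine (cnrm_mul hR0 (CSm.pow hR0 hQs _) (CSm.pow hR0 hΦs _)).trans ?_
          calc cnrm R (Q ^ (t - x.1 : ℕ)) * cnrm R ((Q * Φ) ^ (x.1 : ℕ))
              ≤ W ^ (t - x.1 : ℕ) * W ^ (x.1 : ℕ) := by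
                refine mul_le_mul ?_ ?_ (cnrm_nonneg hR0) (by positivity)
                · exact (cnrm_pow hR0 hQs _).trans
                    (pow_le_pow_left₀ (cnrm_nonneg hR0) hqW _)
                · exact (cnrm_pow hR0 hΦs _).trans
                    (pow_le_pow_left₀ (cnrm_nonneg hR0) (le_max_right _ _) _)
            _ = W ^ t := by
                rw [← pow_add]
                congr 1
                have := x.1.2
                omega
        · refine (cnrm_mul hR0 (CSm.pow hR0 hQs _) (CSm.pow hR0 hFs _)).trans ?_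
          calc cnrm R (Q ^ (M - x.2 : ℕ)) * cnrm R ((Q * FC.subst Φ) ^ (x.2 : ℕ))
              ≤ V ^ (M - x.2 : ℕ) * V ^ (x.2 : ℕ) := by
                refine mul_le_mul ?_ ?_ (cnrm_nonneg hR0) (by positivity)
                · exact (cnrm_pow hR0 hQs _).trans
                    (pow_le_pow_left₀ (cnrm_nonneg hR0) hqV _)
                · exact (cnrm_pow hR0 hFs _).trans
                    (pow_le_pow_left₀ (cnrm_nonneg hR0) hFV _)
            _ = V ^ M := by
                rw [← pow_add]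
                congr 1
                have := x.2.2
                omega
      refine (Finset.sum_le_sum h2).trans (le_of_eq ?_)
      rw [Finset.sum_const, Finset.card_univ, hcβ, nsmul_eq_mul]
    obtain ⟨H, hH, hH0⟩ := coeff_subst_lowestM (G := GR) hm₀ hΦ ν
      (fun m hm => by rw [hGRc, hmin m hm, Rat.cast_zero])
    have hlowest : ‖coeff (m₀ * ν) (Q ^ (t + M) * GR.subst Φ)‖ =
        |((coeff ν G : ℚ) : ℝ)| * c ^ ν := by
      have e1 : Q ^ (t + M) * GR.subst Φ = PowerSeries.X ^ (m₀ * ν) * (Q ^ (t + M) * H) := by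
        rw [hH]; ring
      have e2 := PowerSeries.coeff_X_pow_mul (Q ^ (t + M) * H) (m₀ * ν) 0
      rw [zero_add] at e2
      rw [e1, e2, coeff_zero_eq_constantCoeff_apply, map_mul, map_pow, hQ1, one_pow, one_mul, hH0,
        hGRc, norm_mul, norm_pow, ← hcdef]
      congr 1
      rw [← Complex.ofReal_ratCast, Complex.norm_real, Real.norm_eq_abs]
    have hup1 := hup (m₀ * ν)
    rw [hlowest] at hup1
    -- contradiction
    have h2 : κ ^ (4 * ν) / K ≤ (((E + 1) * T : ℕ) : ℝ) * (P * (W ^ t * V ^ M)) := by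
      refine le_trans ?_ hup1
      have h3 : κ ^ (4 * ν) / K = 1 / (K * Λ ^ ν) * c ^ ν * Rm ^ ν := by
        rw [pow_mul, hκ4, div_pow, mul_pow]
        field_simp
      rw [h3, pow_mul, hRR]
      exact mul_le_mul_of_nonneg_right (mul_le_mul_of_nonneg_right hlow (by positivity))
        (by positivity)
    have h4 : κ ^ (4 * T) ≤ κ ^ (4 * ν) := pow_le_pow_right₀ hκ1.le (by omega)
    have h5 : W ^ t ≤ κ ^ T := by
      calc W ^ t ≤ (κ ^ M') ^ t := pow_le_pow_left₀ (by positivity) hWM t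
        _ = κ ^ T := by rw [← pow_mul, hT, mul_comm M' t]
    have h6 : κ ^ (4 * T) ≤ K * ((((E + 1) * T : ℕ) : ℝ) * (P * (κ ^ T * V ^ M))) := by
      have h7 : κ ^ (4 * T) / K ≤ (((E + 1) * T : ℕ) : ℝ) * (P * (κ ^ T * V ^ M)) := by
        refine (div_le_div_of_nonneg_right h4 (by positivity)).trans (h2.trans ?_)
        refine mul_le_mul_of_nonneg_left (mul_le_mul_of_nonneg_left
          (mul_le_mul_of_nonneg_right h5 (by positivity)) (by positivity)) (by positivity)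
      rwa [div_le_iff₀' (by positivity)] at h7
    have h8 : K * ((((E + 1) * T : ℕ) : ℝ) * (P * (κ ^ T * V ^ M))) =
        (K * K' * V ^ M * ((E + 1 : ℕ) : ℝ) ^ 2 * (T : ℝ) ^ 2) * (κ ^ T * κ ^ T) := by
      rw [hP]
      push_cast
      ring
    have h9 : κ ^ (4 * T) = (κ ^ T * κ ^ T) * (κ ^ T * κ ^ T) := by
      rw [← pow_add, ← pow_add]
      congr 1
      ring
    rw [h8, h9] at h6
    have h10 := le_of_mul_le_mul_right h6 (by positivity)
    linarith

end criterion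

end Pool.Agent.H925
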