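import Pool.Agent.H925.OrbUniv

set_option autoImplicit false

open Finset NumberField

namespace Pool.Agent.H925

open Pool.Agent.Helper338PC

/-- The systems `Y' = A / (D x (x - 1)) Y` of height at most `H` with reduced finite local
monodromy at `0`: `A` is a matrix of polynomials of degree at most `m` over the ring of integers of
`K`, all the conjugates of the coefficients of `A / D` are at most `H` in absolute value, the primes
which divide `D` belong to `S`; the residue `-A(0) / D` at `0` is the diagonal matrix with the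
entries `b i / n₀`, `0 ≤ b i < n₀`, at most `κ` of which are different; and for `p ∈ S` there is an
`e` with `e + c / (p - 1) ≤ ℓ p`, `c` the largest number of exponents which differ by `p`-integral
numbers, such that `p ^ e A_s` is `p`-integral for all `s ≥ 1`, `A_s` the coefficient of `x ^ s` in
the expansion of `A / (D (x - 1))`. -/
structure CuspClass (n₀ m κ : ℕ) (S : Finset ℕ) (ℓ : ℕ → ℝ) (H : ℝ) (K : Type) [Field K]
    [NumberField K] {r : ℕ} (D : ℕ) (A : Matrix (Fin r) (Fin r) (Polynomial (𝓞 K))) : Prop where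
  ne : D ≠ 0
  deg : ∀ i j, (A i j).natDegree ≤ m
  height : ∀ (σ : K →+* ℂ) (i j : Fin r) (k : ℕ),
    ‖σ (algebraMap (𝓞 K) K ((A i j).coeff k))‖ ≤ H * D
  dvd : ∀ p : ℕ, p.Prime → p ∣ D → p ∈ S
  res : ∃ b : Fin r → Fin n₀, numExp (fun i => ((b i : ℕ) : ℚ) / n₀) ≤ κ ∧
    (∀ i j, n₀ • (A i j).coeff 0 = if i = j then -((D * (b i : ℕ) : ℕ) : 𝓞 K) else 0) ∧
    ∀ p ∈ S, ∃ e : ℕ,
      (e : ℝ) + numClass (fun i => ((b i : ℕ) : ℚ) / n₀) p / ((p : ℝ) - 1) ≤ ℓ p ∧
      ∀ (s : ℕ) (i j : Fin r), s ≠ 0 →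
        PadicIntegral p e (PowerSeries.coeff s (Aps (algebraMap (𝓞 K) K) (D : K)⁻¹ 1 A i j))

end Pool.Agent.H925
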