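import Pool.Agent.H925.EffSer

set_option autoImplicit false

open Finset

namespace Pool.Agent.H925

open Pool.Agent.Helper338PC

/-- The effective criterion at a cusp. -/
theorem series_cusp {n₀ m₁ : ℕ} (hn₀ : 0 < n₀) (hm₁ : 0 < m₁) {T T' τ Q Φ : PowerSeries ℂ}
    (hΦ : Φ = PowerSeries.X ^ m₁ * T) (hT' : CConv T') (hTT' : T * T' = 1) (hτ : τ ^ n₀ = T)
    (hQ : CConv Q) (hQ1 : PowerSeries.constantCoeff Q = 1) (hQΦ : CConv (Q * Φ)) {Λ : ℝ}
    (hΛ : 1 ≤ Λ) (hΛT : Λ < ‖PowerSeries.constantCoeff T‖) :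
    ∃ (M c₀ : ℕ) (R₀ : ℝ), 0 < M ∧ 0 < R₀ ∧ R₀ < 1 ∧
    ∀ (f : PowerSeries ℚ) (j : Fin n₀) (L t T₁ : ℕ), 1 ≤ L → c₀ * L ≤ t → 0 < t → t * M ≤ T₁ →
      (∀ n ≤ T₁, ∃ d : ℕ, 0 < d ∧ (d : ℝ) ≤ Real.exp L * Λ ^ n ∧
        ∀ m ≤ n₀ * M, ∀ k ≤ n, ∃ z : ℤ, (d : ℚ) * PowerSeries.coeff k (f ^ m) = z) →
      (∀ k, |((PowerSeries.coeff k f : ℚ) : ℝ)| ≤ Real.exp L * 2 ^ k) →
      CConv (τ ^ (j : ℕ) * (f.map (algebraMap ℚ ℂ)).subst Φ) →
      cnrm R₀ (τ ^ (j : ℕ) * (f.map (algebraMap ℚ ℂ)).subst Φ) ≤ Real.exp L →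
      ∃ P : Polynomial (Polynomial ℚ), P ≠ 0 ∧ P.natDegree ≤ M * n₀ ∧
        (∀ i, (P.coeff i).natDegree < t) ∧
        ∀ k ≤ T₁, PowerSeries.coeff k (Polynomial.aeval f P) = 0 := by
  classical
  have hsub : PowerSeries.HasSubst Φ := by
    refine PowerSeries.HasSubst.of_constantCoeff_zero' ?_
    rw [hΦ, map_mul, map_pow, PowerSeries.constantCoeff_X, zero_pow hm₁.ne', zero_mul]
  obtain ⟨M, c₀, R₀, hM0, hR₀0, hR₀1, hM⟩ := criterion_fin (ρ := 1 / 4) hΛ (by norm_num) hm₁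
    (Φ := Φ) (Φ' := T) (Q := Q) hΦ hΛT hQ hQ1 hQΦ
  -- the constant
  obtain ⟨cm, hcm⟩ : ∃ x : ℝ, x = 1 + ∑ j : Fin n₀, cnrm R₀ (Q * T' ^ (j : ℕ)) := ⟨_, rfl⟩
  have hterm0 : ∀ j : Fin n₀, 0 ≤ cnrm R₀ (Q * T' ^ (j : ℕ)) := fun j => cnrm_nonneg hR₀0
  have hcm1 : 1 ≤ cm := by
    rw [hcm]
    have := Finset.sum_nonneg fun j (_ : j ∈ (univ : Finset (Fin n₀))) => hterm0 j
    linarith
  set c' : ℕ := 2 * n₀ + ⌈Real.log cm⌉₊ with hc'
  have hc'1 : 1 ≤ c' := by rw [hc']; omega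
  refine ⟨M, c₀ * c', R₀, hM0, hR₀0, hR₀1, ?_⟩
  intro f j L t T₁ hL ht ht0 htT₁ hden hcoef hconv hcn
  have hLR : (1 : ℝ) ≤ L := by exact_mod_cast hL
  have hL'1 : 1 ≤ c' * L := Nat.one_le_iff_ne_zero.mpr (Nat.mul_ne_zero (by omega) (by omega))
  have hLL' : Real.exp L ≤ Real.exp ((c' * L : ℕ) : ℝ) := by
    apply Real.exp_le_exp.mpr
    exact_mod_cast Nat.le_mul_of_pos_left L (by omega)
  set F : PowerSeries ℝ := f.map (algebraMap ℚ ℝ) with hF
  have hFc : ∀ k, PowerSeries.coeff k F = ((PowerSeries.coeff k f : ℚ) : ℝ) := fun k => by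
    rw [hF, PowerSeries.coeff_map]; rfl
  have hgeo := (summable_geometric_of_lt_one (r := (1 / 2 : ℝ)) (by norm_num)
    (by norm_num)).mul_left (Real.exp L)
  have hFle : ∀ k, |PowerSeries.coeff k F| * (1 / 4 : ℝ) ^ k ≤ Real.exp L * (1 / 2) ^ k := by
    intro k
    rw [hFc]
    calc |((PowerSeries.coeff k f : ℚ) : ℝ)| * (1 / 4 : ℝ) ^ k
        ≤ Real.exp L * 2 ^ k * (1 / 4 : ℝ) ^ k :=
          mul_le_mul_of_nonneg_right (hcoef k) (by positivity)
      _ = Real.exp L * (1 / 2) ^ k := by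
          rw [mul_assoc, ← mul_pow]
          norm_num
  have hFS : Sm (1 / 4) F := Summable.of_nonneg_of_le (fun _ => by positivity) hFle hgeo
  have hFn : nrm (1 / 4) F ≤ 2 * Real.exp L := by
    unfold nrm
    refine (hFS.tsum_le_tsum hFle hgeo).trans (le_of_eq ?_)
    rw [tsum_mul_left, tsum_geometric_of_lt_one (by norm_num) (by norm_num)]
    norm_num
    ring
  have h2e : (2 : ℝ) ≤ Real.exp L := by
    have := Real.add_one_le_exp (L : ℝ)
    linarith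
  set g := PowerSeries.subst Φ (PowerSeries.map (algebraMap ℚ ℂ) f) with hg
  have hgn : PowerSeries.subst Φ (PowerSeries.map (algebraMap ℚ ℂ) (f ^ n₀)) = g ^ n₀ := by
    rw [map_pow, PowerSeries.subst_pow hsub]
  have hkey : Q * g ^ n₀ = (Q * T' ^ (j : ℕ)) * (τ ^ (j : ℕ) * g) ^ n₀ := by
    have h1 : T ^ (j : ℕ) * T' ^ (j : ℕ) = 1 := by rw [← mul_pow, hTT', one_pow]
    rw [mul_pow, ← pow_mul, mul_comm (j : ℕ) n₀, pow_mul, hτ]
    linear_combination (-(Q * g ^ n₀)) * h1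
  have hQTC : ∀ j : Fin n₀, CConv (Q * T' ^ (j : ℕ)) := fun j => hQ.mul (hT'.pow _)
  obtain ⟨P, hP0, hPd, hPt, hP⟩ := hM (f ^ n₀) (c' * L) t T₁ hL'1
    (by rw [← mul_assoc]; exact ht) ht0 htT₁ (by
      intro n hn
      obtain ⟨d, hd0, hd1, hd2⟩ := hden n hn
      refine ⟨d, hd0, hd1.trans (mul_le_mul_of_nonneg_right hLL' (by positivity)), ?_⟩
      intro m hm k hk
      rw [← pow_mul]
      exact hd2 _ (Nat.mul_le_mul_left _ hm) k hk)
    (by rw [map_pow]; exact Sm.pow (by norm_num) hFS n₀)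
    (by
      rw [map_pow]
      refine (nrm_pow (by norm_num) hFS n₀).trans ?_
      calc nrm (1 / 4) F ^ n₀ ≤ (Real.exp L * Real.exp L) ^ n₀ := by
            refine pow_le_pow_left₀ (nrm_nonneg (by norm_num)) (hFn.trans ?_) n₀
            exact mul_le_mul_of_nonneg_right h2e (Real.exp_pos _).le
        _ = Real.exp ((2 * n₀ * L : ℕ) : ℝ) := by
            rw [← Real.exp_add, ← Real.exp_nat_mul]
            congr 1
            push_cast
            ring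
        _ ≤ _ := by
            apply Real.exp_le_exp.mpr
            exact_mod_cast Nat.mul_le_mul_right L (Nat.le_add_right _ _))
    (by
      rw [hgn, hkey]
      exact CSm.mul hR₀0 (hQTC j R₀ hR₀0 hR₀1) ((hconv.pow n₀) R₀ hR₀0 hR₀1))
    (by
      rw [hgn, hkey]
      refine (cnrm_mul hR₀0 (hQTC j R₀ hR₀0 hR₀1) ((hconv.pow n₀) R₀ hR₀0 hR₀1)).trans ?_
      have h10 : cnrm R₀ ((τ ^ (j : ℕ) * g) ^ n₀) ≤ Real.exp L ^ n₀ :=
        (cnrm_pow hR₀0 (hconv R₀ hR₀0 hR₀1) n₀).trans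
          (pow_le_pow_left₀ (cnrm_nonneg hR₀0) hcn n₀)
      have h11 : cnrm R₀ (Q * T' ^ (j : ℕ)) ≤ cm := by
        rw [hcm]
        have := Finset.single_le_sum (f := fun j : Fin n₀ => cnrm R₀ (Q * T' ^ (j : ℕ)))
          (fun j _ => hterm0 j) (mem_univ j)
        linarith
      calc cnrm R₀ (Q * T' ^ (j : ℕ)) * cnrm R₀ ((τ ^ (j : ℕ) * g) ^ n₀)
          ≤ cm * Real.exp L ^ n₀ :=
            mul_le_mul h11 h10 (cnrm_nonneg hR₀0) (by linarith)
        _ ≤ Real.exp ((⌈Real.log cm⌉₊ : ℝ) * L) * Real.exp ((2 * n₀ * L : ℕ) : ℝ) := by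
            refine mul_le_mul ?_ ?_ (by positivity) (Real.exp_pos _).le
            · calc cm = Real.exp (Real.log cm) := (Real.exp_log (by linarith)).symm
                _ ≤ Real.exp ((⌈Real.log cm⌉₊ : ℝ) * L) := by
                    apply Real.exp_le_exp.mpr
                    have e1 := Nat.le_ceil (Real.log cm)
                    have e2 : (0 : ℝ) ≤ (⌈Real.log cm⌉₊ : ℝ) := Nat.cast_nonneg _
                    nlinarith
            · rw [← Real.exp_nat_mul]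
              apply Real.exp_le_exp.mpr
              push_cast
              have e1 : (0 : ℝ) ≤ (n₀ : ℝ) * L := by positivity
              linarith
        _ = Real.exp ((c' * L : ℕ) : ℝ) := by
            rw [← Real.exp_add, hc']
            congr 1
            push_cast
            ring)
  refine ⟨Polynomial.expand (Polynomial ℚ) n₀ P, ?_, ?_, ?_, ?_⟩
  · rwa [Ne, Polynomial.expand_eq_zero hn₀]
  · rw [Polynomial.natDegree_expand]
    exact Nat.mul_le_mul_right _ hPd.le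
  · intro i
    rw [Polynomial.coeff_expand hn₀]
    split_ifs
    · exact hPt _
    · simpa using ht0
  · intro k hk
    rw [Polynomial.expand_aeval]
    exact hP k hk

end Pool.Agent.H925
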