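import Pool.Agent.H925.Cusp

set_option autoImplicit false

open Finset

namespace Pool.Agent.H925

/-- The polynomial `∏_{0 ≤ j < n} (n X - j D)`, whose roots are the numbers `j D / n`. -/
noncomputable def eigPoly (n D : ℕ) : Polynomial ℤ :=
  ∏ j ∈ range n, (Polynomial.C (n : ℤ) * Polynomial.X - Polynomial.C ((j : ℤ) * D))

section

variable {R S : Type*} [Ring R] [Ring S]

lemma eigPoly_map {n D : ℕ} (φ : R →+* S) {Z : R} (h : Polynomial.aeval Z (eigPoly n D) = 0) :
    Polynomial.aeval (φ Z) (eigPoly n D) = 0 := by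
  have h1 := Polynomial.aeval_algHom_apply φ.toIntAlgHom Z (eigPoly n D)
  have h2 : φ.toIntAlgHom Z = φ Z := rfl
  rw [h2, h, map_zero] at h1
  exact h1

end

section

variable {idx : Type*} [Fintype idx] [DecidableEq idx]

/-- Spectral projections. -/
theorem exists_spec {n D : ℕ} (hn : 0 < n) (hD : D ≠ 0) {Z : Matrix idx idx ℂ}
    (h : Polynomial.aeval Z (eigPoly n D) = 0) :
    ∃ P : Fin n → Matrix idx idx ℂ, Spec n ((D : ℂ)⁻¹ • Z) P := by
  classical
  set c : Matrix idx idx ℂ := (D : ℂ)⁻¹ • Z with hc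
  have hDC : (D : ℂ) ≠ 0 := by exact_mod_cast hD
  have hnC : (n : ℂ) ≠ 0 := by exact_mod_cast hn.ne'
  have hZ : Z = (D : ℂ) • c := by rw [hc, smul_smul, mul_inv_cancel₀ hDC, one_smul]
  set μ : Fin n → ℂ := fun j => (j : ℕ) / (n : ℂ) with hμ
  have hinj : Function.Injective μ := by
    intro i j hij
    rw [hμ] at hij
    simp only at hij
    rw [div_left_inj' hnC] at hij
    exact Fin.ext (by exact_mod_cast hij)
  -- the minimal polynomial
  have hpoly : ((eigPoly n D).map (algebraMap ℤ ℂ)).comp (Polynomial.C (D : ℂ) * Polynomial.X) =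
      Polynomial.C (((n : ℂ) * D) ^ n) * ∏ j : Fin n, (Polynomial.X - Polynomial.C (μ j)) := by
    unfold eigPoly
    rw [Polynomial.map_prod, Polynomial.prod_comp, Finset.prod_range, map_pow]
    have e0 : (Polynomial.C ((n : ℂ) * D) : Polynomial ℂ) ^ n =
        ∏ _j : Fin n, Polynomial.C ((n : ℂ) * D) := by
      rw [Finset.prod_const, Finset.card_univ, Fintype.card_fin]
    rw [e0, ← Finset.prod_mul_distrib]
    refine Finset.prod_congr rfl fun j _ => ?_
    have e1 : (D : ℂ) * ((j : ℕ) : ℂ) = (n : ℂ) * D * ((j : ℕ) / (n : ℂ)) := by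
      field_simp
    rw [Polynomial.map_sub, Polynomial.map_mul, Polynomial.map_C, Polynomial.map_C,
      Polynomial.map_X, Polynomial.sub_comp, Polynomial.mul_comp, Polynomial.C_comp,
      Polynomial.C_comp, Polynomial.X_comp, hμ, mul_sub, ← Polynomial.C_mul, ← e1,
      ← mul_assoc, ← Polynomial.C_mul]
    congr 2
    simp [mul_comm]
  have hprod : Polynomial.aeval c (∏ j : Fin n, (Polynomial.X - Polynomial.C (μ j))) = 0 := by
    have e1 : Polynomial.aeval Z (eigPoly n D) = ((n : ℂ) * D) ^ n •
        Polynomial.aeval c (∏ j : Fin n, (Polynomial.X - Polynomial.C (μ j))) := by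
      have e2 := congrArg (Polynomial.aeval c) hpoly
      rw [Polynomial.aeval_comp, map_mul, map_mul, Polynomial.aeval_C, Polynomial.aeval_C,
        Polynomial.aeval_X, ← Algebra.smul_def, ← hZ, ← Algebra.smul_def,
        Polynomial.aeval_map_algebraMap] at e2
      exact e2
    rw [h] at e1
    exact (smul_eq_zero.mp e1.symm).resolve_left (pow_ne_zero _ (mul_ne_zero hnC hDC))
  -- the idempotents
  set P : Fin n → Matrix idx idx ℂ := fun j =>
    Polynomial.aeval c (Lagrange.basis univ μ j) with hP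
  have hcP : ∀ j, c * P j = μ j • P j := by
    intro j
    have e1 : (Polynomial.X - Polynomial.C (μ j)) * Lagrange.basis univ μ j =
        Polynomial.C (∏ i ∈ univ.erase j, (μ j - μ i)⁻¹) *
          ∏ i : Fin n, (Polynomial.X - Polynomial.C (μ i)) := by
      unfold Lagrange.basis Lagrange.basisDivisor
      rw [Finset.prod_mul_distrib, ← map_prod, ← Finset.mul_prod_erase univ _ (mem_univ j)]
      ring
    have e2 := congrArg (Polynomial.aeval c) e1
    rw [map_mul, map_mul, hprod, mul_zero, map_sub, Polynomial.aeval_X, Polynomial.aeval_C,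
      sub_mul, ← Algebra.smul_def, sub_eq_zero] at e2
    exact e2
  have hcomm : ∀ j, P j * c = c * P j := by
    intro j
    have e1 : Polynomial.aeval c (Lagrange.basis univ μ j * Polynomial.X) =
        Polynomial.aeval c (Polynomial.X * Lagrange.basis univ μ j) := by rw [mul_comm]
    rw [map_mul, map_mul, Polynomial.aeval_X] at e1
    exact e1
  have hsum : ∑ j, P j = 1 := by
    have hne : (univ : Finset (Fin n)).Nonempty := ⟨⟨0, hn⟩, mem_univ _⟩
    have e1 := congrArg (Polynomial.aeval c) (Lagrange.sum_basis (s := univ) (v := μ)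
      (hinj.injOn) hne)
    rw [map_sum, map_one] at e1
    exact e1
  refine ⟨P, hsum, fun j => by rw [hcomm, hcP], ?_⟩
  calc c = c * ∑ j, P j := by rw [hsum, mul_one]
    _ = ∑ j, μ j • P j := by
        rw [Finset.mul_sum]
        exact Finset.sum_congr rfl fun j _ => hcP j

end

end Pool.Agent.H925
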