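import Pool.Agent.H925.EffCuspPull
import Pool.Agent.H925.SpecOf

set_option autoImplicit false

open PowerSeries Finset

namespace Pool.Agent.H925

open Pool.Agent.Helper338PC (th coeff_th th_mul' th_add' th_sum' th_C th_one wg Aps IsSolG
  Aps_apply X_sub_one_mul_wg)

section tri

variable {idx : Type*} [Fintype idx] [DecidableEq idx]

/-- The system satisfied by the pull-back to the disc of the solutions of a Fuchsian system on the
triangle orbifold. -/
theorem cusp_sys {n₁ n₂ : ℕ} (hn₁ : 0 < n₁) (hn₂ : 0 < n₂) {m : ℕ} (hm : 0 < m) {κ : ℂ}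
    {v s ρ : PowerSeries ℂ} (hv : CConv v) (hs : CConv s) (hρ : CUU ρ)
    (hv1 : constantCoeff v = 1) (hs1 : constantCoeff s ≠ 0)
    (hrel : v ^ n₂ = PowerSeries.X ^ m * ρ + PowerSeries.C κ * s ^ n₁)
    {A : Matrix idx idx (PowerSeries ℂ)} {A₀ A₁ c e : Matrix idx idx ℂ}
    (hA : ∀ j l, A j l = wg ℂ * (PowerSeries.C (A₀ j l) + PowerSeries.C (A₁ j l) * PowerSeries.X))
    (hc : c = A₀ + A₁) (he : e = -A₁)
    {P : Fin n₁ → Matrix idx idx ℂ} {E : Fin n₂ → Matrix idx idx ℂ}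
    (hP : Spec n₁ c P) (hE : Spec n₂ e E) {n₀ : ℕ} (hn₀ : 0 < n₀) {j₀ : ℕ}
    {h : idx → PowerSeries ℂ} (hsol : IsSolG A ((j₀ : ℂ) / n₀) h) {Φ τ : PowerSeries ℂ}
    (hΦ : Φ = PowerSeries.X ^ m * (ρ * (v ^ n₂)⁻¹)) (hτr : τ ^ n₀ = ρ * (v ^ n₂)⁻¹) :
    (∀ i, CConv (τ ^ j₀ * (h i).subst Φ)) ∧
    ∀ i, s * v * th (τ ^ j₀ * (h i).subst Φ) =
      ((n₁ : PowerSeries ℂ) * v * th s - ((m : PowerSeries ℂ) + th ρ * ρ⁻¹) * s * v) *
        app c (fun l => τ ^ j₀ * (h l).subst Φ) i +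
      ((n₂ : PowerSeries ℂ) * s * th v - ((m : PowerSeries ℂ) + th ρ * ρ⁻¹) * s * v) *
        app e (fun l => τ ^ j₀ * (h l).subst Φ) i -
      PowerSeries.C ((m : ℂ) * ((j₀ : ℂ) / n₀)) * s * v * (τ ^ j₀ * (h i).subst Φ) := by
  classical
  set β : ℂ := (j₀ : ℂ) / n₀ with hβ
  set τ₀ : PowerSeries ℂ := PowerSeries.X ^ m * ρ with hτ
  have hX0 : (PowerSeries.X : PowerSeries ℂ) ≠ 0 := PowerSeries.X_ne_zero
  have hρ0 : ρ ≠ 0 := by
    rintro rfl
    exact hρ.ne (map_zero _)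
  have hτ0 : τ₀ ≠ 0 := mul_ne_zero (pow_ne_zero _ hX0) hρ0
  have hv0 : v ≠ 0 := by
    rintro rfl
    rw [map_zero] at hv1
    exact zero_ne_one hv1
  have hs0 : s ≠ 0 := by
    rintro rfl
    exact hs1 (map_zero _)
  have hvc : constantCoeff v ≠ 0 := by rw [hv1]; exact one_ne_zero
  set iv := v⁻¹ with hiv
  have hviv : v * iv = 1 := PowerSeries.mul_inv_cancel v hvc
  set is := s⁻¹ with his
  have hsis : s * is = 1 := PowerSeries.mul_inv_cancel s hs1
  set iw := (wg ℂ).subst Φ with hiw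
  have h0 : constantCoeff Φ = 0 := by
    rw [hΦ, map_mul, map_pow, constantCoeff_X, zero_pow hm.ne', zero_mul]
  have hsub : HasSubst Φ := HasSubst.of_constantCoeff_zero' h0
  -- `Φ`
  have hvn : constantCoeff (v ^ n₂) ≠ 0 := by rw [map_pow, hv1, one_pow]; exact one_ne_zero
  have hvΦ : v ^ n₂ * Φ = τ₀ := by
    rw [hΦ, hτ]
    have := PowerSeries.mul_inv_cancel (v ^ n₂) hvn
    linear_combination (PowerSeries.X ^ m * ρ) * this
  have hv1Φ : v ^ n₂ * (1 - Φ) = PowerSeries.C κ * s ^ n₁ := by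
    rw [mul_sub, hvΦ, hrel, mul_one]
    ring
  -- logarithmic derivatives
  set a : PowerSeries ℂ := (m : PowerSeries ℂ) + th ρ * ρ⁻¹ with ha
  have haC : CConv a := (CConv.natCast m).add (hρ.conv.th.mul hρ.conv_inv)
  have hthX : ∀ k : ℕ, th (PowerSeries.X ^ k : PowerSeries ℂ) =
      (k : PowerSeries ℂ) * PowerSeries.X ^ k := by
    intro k
    apply mul_left_cancel₀ hX0
    rw [th_pow']
    have : th (PowerSeries.X : PowerSeries ℂ) = PowerSeries.X := by
      unfold Helper338PC.th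
      rw [PowerSeries.derivative_X, mul_one]
    rw [this]
    ring
  have hthτ : th τ₀ = a * τ₀ := by
    rw [hτ, th_mul', hthX, ha]
    have := hρ.mul_inv
    linear_combination (-(PowerSeries.X ^ m * th ρ)) * this
  have hthpow : ∀ (f g : PowerSeries ℂ) (k : ℕ), f ≠ 0 → f * g = 1 →
      th (f ^ k) = (k : PowerSeries ℂ) * f ^ k * (th f * g) := by
    intro f g k hf hfg
    apply mul_left_cancel₀ hf
    rw [th_pow']
    linear_combination (-((k : PowerSeries ℂ) * f ^ k * th f)) * hfg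
  set aΦ : PowerSeries ℂ := a - (n₂ : PowerSeries ℂ) * (th v * iv) with haΦ
  have hvn0 : v ^ n₂ ≠ 0 := pow_ne_zero _ hv0
  have hthΦ : th Φ = aΦ * Φ := by
    apply mul_left_cancel₀ hvn0
    have e1 := congrArg th hvΦ
    rw [th_mul', hthpow v iv n₂ hv0 hviv, hthτ, ← hvΦ] at e1
    rw [haΦ]
    linear_combination e1
  have hkey : aΦ * Φ = -((n₁ : PowerSeries ℂ) * (th s * is) -
      (n₂ : PowerSeries ℂ) * (th v * iv)) * (1 - Φ) := by
    apply mul_left_cancel₀ hvn0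
    have e1 := congrArg th hv1Φ
    rw [th_mul', hthpow v iv n₂ hv0 hviv, th_smulC, hthpow s is n₁ hs0 hsis] at e1
    have e2 : th (1 - Φ) = -(aΦ * Φ) := by
      rw [← hthΦ]
      have : th (1 - Φ) + th Φ = th (1 : PowerSeries ℂ) := by
        rw [← th_add']
        congr 1
        ring
      rw [th_one] at this
      linear_combination this
    rw [e2] at e1
    have e3 : PowerSeries.C κ * ((n₁ : PowerSeries ℂ) * s ^ n₁ * (th s * is)) =
        v ^ n₂ * (1 - Φ) * ((n₁ : PowerSeries ℂ) * (th s * is)) := by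
      rw [hv1Φ]
      ring
    rw [e3] at e1
    linear_combination -e1
  -- the root
  set T : PowerSeries ℂ := ρ * (v ^ n₂)⁻¹ with hT
  set T' : PowerSeries ℂ := v ^ n₂ * ρ⁻¹ with hT'
  have hTT' : T * T' = 1 := by
    rw [hT, hT']
    have e1 := PowerSeries.mul_inv_cancel (v ^ n₂) hvn
    have e2 := hρ.mul_inv
    linear_combination (v ^ n₂ * (v ^ n₂)⁻¹) * e2 + e1
  have hΦT : Φ = PowerSeries.X ^ m * T := by rw [hΦ, hT]
  have hT0 : T ≠ 0 := left_ne_zero_of_mul_eq_one hTT'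
  have hthT : th T = (aΦ - (m : PowerSeries ℂ)) * T := by
    have hXm : (PowerSeries.X ^ m : PowerSeries ℂ) ≠ 0 := pow_ne_zero _ hX0
    apply mul_left_cancel₀ hXm
    have e1 := hthΦ
    rw [hΦT, th_mul', hthX] at e1
    linear_combination e1
  set g : PowerSeries ℂ := τ ^ j₀ with hg
  have hthg : th g = PowerSeries.C β * (aΦ - (m : PowerSeries ℂ)) * g :=
    th_pow_of hn₀ hτr hT0 hthT j₀
  -- the pulled back solution
  set F : idx → PowerSeries ℂ := fun l => g * (h l).subst Φ with hF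
  have hFth : ∀ i, s * v * th (F i) = (n₁ : PowerSeries ℂ) * v * th s * app c F i +
      (n₂ : PowerSeries ℂ) * s * th v * app e F i - a * s * v * (app c F i + app e F i) -
        PowerSeries.C ((m : ℂ) * β) * s * v * F i := by
    intro i
    have e1 : th ((h i).subst Φ) = aΦ * ((∑ l, (A i l).subst Φ * (h l).subst Φ) -
        PowerSeries.C β * (h i).subst Φ) := by
      rw [th_substC h0 hthΦ, hsol i, subst_sub hsub, subst_mul hsub, subst_CC, subst_sumC hsub]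
      congr 2
      exact Finset.sum_congr rfl fun l _ => subst_mul hsub _ _
    have e2 : ∀ l, (A i l).subst Φ = iw * (PowerSeries.C (A₀ i l) + PowerSeries.C (A₁ i l) * Φ) := by
      intro l
      rw [hA, subst_mul hsub, subst_add hsub, subst_mul hsub, subst_CC, subst_CC, subst_X hsub]
    have e3 := subst_wgC hsub
    rw [← hiw] at e3
    have hcl : ∀ l, PowerSeries.C (c i l) = PowerSeries.C (A₀ i l) + PowerSeries.C (A₁ i l) := by
      intro l; rw [hc, Matrix.add_apply, map_add]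
    have hel : ∀ l, PowerSeries.C (e i l) = -PowerSeries.C (A₁ i l) := by
      intro l; rw [he, Matrix.neg_apply, map_neg]
    -- the coefficients
    have e4 : ∀ l, aΦ * (A i l).subst Φ =
        PowerSeries.C (c i l) * ((n₁ : PowerSeries ℂ) * (th s * is) - a) +
        PowerSeries.C (e i l) * ((n₂ : PowerSeries ℂ) * (th v * iv) - a) := by
      intro l
      rw [e2 l, hcl, hel]
      -- `A₀ + A₁ Φ = -A₀ (Φ - 1) + (A₀ + A₁) Φ`
      have e5 : aΦ * (iw * (PowerSeries.C (A₀ i l) + PowerSeries.C (A₁ i l) * Φ)) =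
          -PowerSeries.C (A₀ i l) * aΦ * ((Φ - 1) * iw) +
            (PowerSeries.C (A₀ i l) + PowerSeries.C (A₁ i l)) * (aΦ * Φ) * iw := by ring
      rw [e5, hkey, e3]
      have e6 : (PowerSeries.C (A₀ i l) + PowerSeries.C (A₁ i l)) *
          (-((n₁ : PowerSeries ℂ) * (th s * is) - (n₂ : PowerSeries ℂ) * (th v * iv)) * (1 - Φ)) *
            iw = (PowerSeries.C (A₀ i l) + PowerSeries.C (A₁ i l)) *
          ((n₁ : PowerSeries ℂ) * (th s * is) - (n₂ : PowerSeries ℂ) * (th v * iv)) *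
            ((Φ - 1) * iw) := by ring
      rw [e6, e3, haΦ]
      ring
    have e7 : th (F i) = app c F i * ((n₁ : PowerSeries ℂ) * (th s * is) - a) +
        app e F i * ((n₂ : PowerSeries ℂ) * (th v * iv) - a) -
          PowerSeries.C ((m : ℂ) * β) * F i := by
      have e8 : th (F i) = th g * (h i).subst Φ + g * th ((h i).subst Φ) := by
        rw [hF]; simp only; rw [th_mul']
      rw [e8, hthg, e1]
      have e9 : app c F i * ((n₁ : PowerSeries ℂ) * (th s * is) - a) +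
          app e F i * ((n₂ : PowerSeries ℂ) * (th v * iv) - a) =
          ∑ l, g * (aΦ * (A i l).subst Φ) * (h l).subst Φ := by
        unfold app
        rw [Finset.sum_mul, Finset.sum_mul, ← Finset.sum_add_distrib]
        refine Finset.sum_congr rfl fun l _ => ?_
        rw [e4 l, hF]
        ring
      rw [e9]
      have e10 : ∑ l, g * (aΦ * (A i l).subst Φ) * (h l).subst Φ =
          g * (aΦ * ∑ l, (A i l).subst Φ * (h l).subst Φ) := by
        rw [Finset.mul_sum, Finset.mul_sum]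
        exact Finset.sum_congr rfl fun l _ => by ring
      rw [e10, hF, map_mul, map_natCast]
      ring
    rw [e7]
    linear_combination (app c F i * v * (n₁ : PowerSeries ℂ) * th s) * hsis +
      (app e F i * s * (n₂ : PowerSeries ℂ) * th v) * hviv
  -- divisibility of the numerator
  obtain ⟨w, hw⟩ : ∃ w, (n₁ : PowerSeries ℂ) * v * th s - (n₂ : PowerSeries ℂ) * s * th v =
      τ₀ * w := by
    obtain ⟨m₂, rfl⟩ : ∃ m₂, n₂ = m₂ + 1 := ⟨n₂ - 1, by omega⟩
    obtain ⟨m₁, rfl⟩ : ∃ m₁, n₁ = m₁ + 1 := ⟨n₁ - 1, by omega⟩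
    -- `v ^ m₂ D = τ h₁`
    refine ⟨iv ^ m₂ * (((m₁ + 1 : ℕ) : PowerSeries ℂ) * th s - a * s), ?_⟩
    have hvm : v ^ m₂ ≠ 0 := pow_ne_zero _ hv0
    apply mul_left_cancel₀ hvm
    have e1 := congrArg th hrel
    rw [th_add', th_smulC, hthτ, hthpow v iv _ hv0 hviv, hthpow s is _ hs0 hsis] at e1
    have e2 : v ^ m₂ * iv ^ m₂ = 1 := by rw [← mul_pow, hviv, one_pow]
    have e3 : ((m₂ + 1 : ℕ) : PowerSeries ℂ) * v ^ (m₂ + 1) * (th v * iv) =
        ((m₂ + 1 : ℕ) : PowerSeries ℂ) * v ^ m₂ * th v := by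
      rw [pow_succ]
      linear_combination (((m₂ + 1 : ℕ) : PowerSeries ℂ) * v ^ m₂ * th v) * hviv
    have e4 : ((m₁ + 1 : ℕ) : PowerSeries ℂ) * s ^ (m₁ + 1) * (th s * is) =
        ((m₁ + 1 : ℕ) : PowerSeries ℂ) * s ^ m₁ * th s := by
      rw [pow_succ]
      linear_combination (((m₁ + 1 : ℕ) : PowerSeries ℂ) * s ^ m₁ * th s) * hsis
    rw [e3, e4] at e1
    have e5 : v ^ m₂ * (((m₁ + 1 : ℕ) : PowerSeries ℂ) * v * th s -
        ((m₂ + 1 : ℕ) : PowerSeries ℂ) * s * th v) =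
        (v ^ (m₂ + 1)) * (((m₁ + 1 : ℕ) : PowerSeries ℂ) * th s) -
          s * (((m₂ + 1 : ℕ) : PowerSeries ℂ) * v ^ m₂ * th v) := by
      rw [pow_succ]
      ring
    rw [e5, e1, hrel]
    calc _ = τ₀ * ((((m₁ + 1 : ℕ) : PowerSeries ℂ) * th s - a * s)) := by
          rw [pow_succ]
          ring
      _ = _ := by linear_combination (-(τ₀ * (((m₁ + 1 : ℕ) : PowerSeries ℂ) * th s - a * s))) * e2
  -- convergence
  have hFC : ∀ i, CConv (F i) := by
    intro i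
    refine cconv_orb hn₁ hn₂ (τ' := ρ⁻¹) (m := m) hs hv haC hs0 hv0 hρ.conv_inv ?_ hrel hthτ hw hP
      hE hFth (Y := fun j i => is ^ (j : ℕ) * app (P j) F i)
      (Z := fun j i => iv ^ (j : ℕ) * app (E j) F i) ?_ ?_ i
    · rw [hτ, mul_assoc, hρ.mul_inv, mul_one]
    · intro j i
      rw [← mul_assoc, ← mul_pow, hsis, one_pow, one_mul]
    · intro j i
      rw [← mul_assoc, ← mul_pow, hviv, one_pow, one_mul]
  refine ⟨hFC, fun i => ?_⟩
  have e1 := hFth i
  linear_combination e1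

omit [Fintype idx] [DecidableEq idx] in
/-- The matrix of a system with three singular points. -/
lemma Aps_linearC (A : Matrix idx idx (Polynomial ℂ)) (d : ℂ)
    (hdeg : ∀ i j, (A i j).natDegree ≤ 1) (i j : idx) :
    Aps (RingHom.id ℂ) d 1 A i j = wg ℂ *
      (PowerSeries.C (((d • (A.map fun a => a.coeff 0)) : Matrix idx idx ℂ) i j) +
        PowerSeries.C (((d • (A.map fun a => a.coeff 1)) : Matrix idx idx ℂ) i j) *
          PowerSeries.X) := by
  have h1 : (A i j) = Polynomial.C ((A i j).coeff 0) +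
      Polynomial.C ((A i j).coeff 1) * Polynomial.X := by
    have := Polynomial.eq_X_add_C_of_natDegree_le_one (hdeg i j)
    rw [add_comm] at this
    exact this
  rw [Aps_apply]
  conv_lhs => rw [h1]
  simp only [pow_one, Polynomial.map_add, Polynomial.map_mul, Polynomial.map_C, Polynomial.map_X,
    Polynomial.coe_add, Polynomial.coe_mul, Polynomial.coe_C, Polynomial.coe_X,
    Matrix.smul_apply, Matrix.map_apply, smul_eq_mul, map_mul, RingHom.id_apply]
  ring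

end tri

section pull

/-- The bound for the flat bundles on a triangle orbifold with a cusp. -/
theorem pull_tri {n₀ n₁ n₂ : ℕ} (hn₀ : 0 < n₀) (hn₁ : 0 < n₁) (hn₂ : 0 < n₂) {m : ℕ}
    (hm : 0 < m) {κ : ℂ} {v s ρ τ : PowerSeries ℂ} (hv : CConv v) (hs : CConv s) (hρ : CUU ρ)
    (hv1 : constantCoeff v = 1) (hs1 : constantCoeff s ≠ 0)
    (hrel : v ^ n₂ = PowerSeries.X ^ m * ρ + PowerSeries.C κ * s ^ n₁)
    (hτ : τ ^ n₀ = ρ * (v ^ n₂)⁻¹) (r : ℕ) :
    PullBound n₀ 1 r (fun D A => Polynomial.aeval (A.map (Polynomial.eval 1)) (eigPoly n₁ D) = 0 ∧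
      Polynomial.aeval (-(A.map fun a => a.coeff 1)) (eigPoly n₂ D) = 0) τ
      (PowerSeries.X ^ m * (ρ * (v ^ n₂)⁻¹)) := by
  classical
  intro R₀ hR₀ hR₀1
  set Φ : PowerSeries ℂ := PowerSeries.X ^ m * (ρ * (v ^ n₂)⁻¹) with hΦ
  have hvn : constantCoeff (v ^ n₂) ≠ 0 := by rw [map_pow, hv1, one_pow]; exact one_ne_zero
  have hvv := PowerSeries.mul_inv_cancel (v ^ n₂) hvn
  have h0 : constantCoeff Φ = 0 := by
    rw [hΦ, map_mul, map_pow, constantCoeff_X, zero_pow hm.ne', zero_mul]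
  have hv0 : v ≠ 0 := by
    rintro rfl
    rw [map_zero] at hv1
    exact zero_ne_one hv1
  have hs0 : s ≠ 0 := by
    rintro rfl
    exact hs1 (map_zero _)
  set a : PowerSeries ℂ := (m : PowerSeries ℂ) + th ρ * ρ⁻¹ with ha
  have haC : CConv a := (CConv.natCast m).add (hρ.conv.th.mul hρ.conv_inv)
  set b₁ : PowerSeries ℂ := (n₁ : PowerSeries ℂ) * v * th s - a * s * v with hb₁
  have hb₁C : CConv b₁ := (((CConv.natCast _).mul hv).mul hs.th).sub ((haC.mul hs).mul hv)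
  set b₂ : PowerSeries ℂ := (n₂ : PowerSeries ℂ) * s * th v - a * s * v with hb₂
  have hb₂C : CConv b₂ := (((CConv.natCast _).mul hs).mul hv.th).sub ((haC.mul hs).mul hv)
  obtain ⟨R₁, C, hR₁0, hR₁1, hC0, hC⟩ := pull_abs hn₀ (V := v ^ n₂) (V' := s ^ n₂) (θ := s * v)
    (k := n₂) (ρ' := ρ) (τ := τ) (Φ := Φ) (hv.pow _) hvn hρ.conv (by
      rw [hτ]
      linear_combination ρ * hvv) (by
      have e1 : v ^ n₂ * Φ = PowerSeries.X ^ m * ρ := by
        rw [hΦ]
        linear_combination (PowerSeries.X ^ m * ρ) * hvv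
      rw [e1]
      exact (CConv.X.pow _).mul hρ.conv) h0 (hs.mul hv) (mul_ne_zero hs0 hv0) (hs.pow _)
      (by rw [mul_pow, mul_comm]) hR₀ hR₀1
  have hR₁pos : 0 < R₁ := hR₀.trans hR₁0
  obtain ⟨c₁, hc₁⟩ : ∃ x : ℝ, x = cnrm R₁ b₁ := ⟨_, rfl⟩
  obtain ⟨c₂, hc₂⟩ : ∃ x : ℝ, x = cnrm R₁ b₂ := ⟨_, rfl⟩
  obtain ⟨c₃, hc₃⟩ : ∃ x : ℝ, x = cnrm R₁ (s * v) := ⟨_, rfl⟩
  have hc₁0 : 0 ≤ c₁ := by rw [hc₁]; exact cnrm_nonneg hR₁pos
  have hc₂0 : 0 ≤ c₂ := by rw [hc₂]; exact cnrm_nonneg hR₁pos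
  have hc₃0 : 0 ≤ c₃ := by rw [hc₃]; exact cnrm_nonneg hR₁pos
  refine ⟨C * (r * (2 * c₁ + c₂ + m * c₃) + 1), by positivity, ?_⟩
  rintro D A j₀ h H X hD ⟨hA1, hA2⟩ hsol hdeg hH hH1 hh
  have hDC : (D : ℂ) ≠ 0 := by exact_mod_cast hD
  have hD0 : (0 : ℝ) < D := by exact_mod_cast Nat.pos_of_ne_zero hD
  obtain ⟨P, hP⟩ := exists_spec (Z := A.map (Polynomial.eval 1)) hn₁ hD hA1
  obtain ⟨Q, hQ⟩ := exists_spec (Z := -(A.map fun a => a.coeff 1)) hn₂ hD hA2
  set c : Matrix (Fin r) (Fin r) ℂ := (D : ℂ)⁻¹ • A.map (Polynomial.eval 1) with hc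
  set e : Matrix (Fin r) (Fin r) ℂ := (D : ℂ)⁻¹ • -(A.map fun a => a.coeff 1) with he
  have hev : ∀ a b, (A a b).eval 1 = (A a b).coeff 0 + (A a b).coeff 1 := by
    intro a b
    have h3 := Polynomial.eq_X_add_C_of_natDegree_le_one (hdeg a b)
    conv_lhs => rw [h3]
    simp [add_comm]
  obtain ⟨hconv, hsys⟩ := cusp_sys hn₁ hn₂ hm hv hs hρ hv1 hs1 hrel
    (A := Aps (RingHom.id ℂ) ((D : ℂ)⁻¹) 1 A)
    (A₀ := (D : ℂ)⁻¹ • (A.map fun a => a.coeff 0))
    (A₁ := (D : ℂ)⁻¹ • (A.map fun a => a.coeff 1))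
    (Aps_linearC A _ hdeg) (c := c) (e := e) (by
      rw [hc, ← smul_add]
      congr 1
      ext1 a b
      rw [Matrix.map_apply, hev, Matrix.add_apply, Matrix.map_apply, Matrix.map_apply]) (by
      rw [he, smul_neg]) hP hQ hn₀ hsol (Φ := Φ) hΦ hτ
  set B : Fin r → Fin r → PowerSeries ℂ := fun i l => PowerSeries.C (c i l) * b₁ +
    (PowerSeries.C (e i l) * b₂ - (if i = l then
      PowerSeries.C ((m : ℂ) * (((j₀ : ℕ) : ℂ) / n₀)) * (s * v) else 0)) with hB
  have hifC : ∀ i l : Fin r, CConv (if i = l then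
      PowerSeries.C ((m : ℂ) * (((j₀ : ℕ) : ℂ) / n₀)) * (s * v) else 0) := by
    intro i l
    split_ifs
    · exact (CConv.C _).mul (hs.mul hv)
    · exact CConv.zero
  have hBC : ∀ i l, CConv (B i l) := fun i l =>
    ((CConv.C _).mul hb₁C).add (((CConv.C _).mul hb₂C).sub (hifC i l))
  intro i
  refine ⟨hconv i, ?_⟩
  have hneg : ∀ f : PowerSeries ℂ, cnrm R₁ (-f) = cnrm R₁ f := by
    intro f
    unfold cnrm
    exact tsum_congr fun n => by rw [map_neg, norm_neg]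
  have hβ : ‖(((j₀ : ℕ) : ℂ) / (n₀ : ℂ))‖ ≤ 1 := by
    have hn₀R : (0 : ℝ) < n₀ := by exact_mod_cast hn₀
    rw [norm_div, Complex.norm_natCast, Complex.norm_natCast, div_le_one hn₀R]
    exact_mod_cast j₀.2.le
  have hH0 : 0 < H := by linarith
  have hDH : ∀ x : ℝ, x ≤ H * D → (D : ℝ)⁻¹ * x ≤ H := by
    intro x hx
    calc (D : ℝ)⁻¹ * x ≤ (D : ℝ)⁻¹ * (H * D) := mul_le_mul_of_nonneg_left hx (by positivity)
      _ = H := by field_simp
  have hcb : ∀ i l, ‖c i l‖ ≤ 2 * H := by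
    intro i l
    rw [hc, Matrix.smul_apply, Matrix.map_apply, hev, smul_eq_mul, mul_add]
    refine (norm_add_le _ _).trans ?_
    rw [norm_mul, norm_mul, norm_inv, Complex.norm_natCast]
    have e1 := hDH _ (hH i l 0)
    have e2 := hDH _ (hH i l 1)
    linarith
  have heb : ∀ i l, ‖e i l‖ ≤ H := by
    intro i l
    rw [he, Matrix.smul_apply, Matrix.neg_apply, Matrix.map_apply, smul_eq_mul, norm_mul,
      norm_neg, norm_inv, Complex.norm_natCast]
    exact hDH _ (hH i l 1)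
  have hBb : ∀ i l, cnrm R₁ (B i l) ≤ (2 * c₁ + c₂ + m * c₃) * H := by
    intro i l
    have e1 : cnrm R₁ (PowerSeries.C (c i l) * b₁) ≤ 2 * H * c₁ := by
      refine (cnrm_mul hR₁pos (CSm.C _) (hb₁C R₁ hR₁pos hR₁1)).trans ?_
      rw [cnrm_C, hc₁]
      exact mul_le_mul_of_nonneg_right (hcb i l) (cnrm_nonneg hR₁pos)
    have e2 : cnrm R₁ (PowerSeries.C (e i l) * b₂) ≤ H * c₂ := by
      refine (cnrm_mul hR₁pos (CSm.C _) (hb₂C R₁ hR₁pos hR₁1)).trans ?_
      rw [cnrm_C, hc₂]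
      exact mul_le_mul_of_nonneg_right (heb i l) (cnrm_nonneg hR₁pos)
    have e3 : cnrm R₁ (if i = l then
        PowerSeries.C ((m : ℂ) * (((j₀ : ℕ) : ℂ) / n₀)) * (s * v) else 0) ≤ m * c₃ := by
      split_ifs
      · refine (cnrm_mul hR₁pos (CSm.C _) ((hs.mul hv) R₁ hR₁pos hR₁1)).trans ?_
        rw [cnrm_C, hc₃, norm_mul, Complex.norm_natCast]
        refine mul_le_mul_of_nonneg_right ?_ (cnrm_nonneg hR₁pos)
        calc (m : ℝ) * ‖((j₀ : ℕ) : ℂ) / (n₀ : ℂ)‖ ≤ m * 1 :=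
              mul_le_mul_of_nonneg_left hβ (Nat.cast_nonneg _)
          _ = m := mul_one _
      · have : cnrm R₁ (0 : PowerSeries ℂ) = 0 := by
          rw [← map_zero (PowerSeries.C (R := ℂ)), cnrm_C, norm_zero]
        rw [this]
        positivity
    have e4 := cnrm_add hR₁pos (((CConv.C (e i l)).mul hb₂C) R₁ hR₁pos hR₁1)
      ((hifC i l).neg R₁ hR₁pos hR₁1)
    rw [← sub_eq_add_neg, hneg] at e4
    have e5 := cnrm_add hR₁pos (((CConv.C (c i l)).mul hb₁C) R₁ hR₁pos hR₁1)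
      ((((CConv.C (e i l)).mul hb₂C).sub (hifC i l)) R₁ hR₁pos hR₁1)
    have e6 : (m : ℝ) * c₃ ≤ m * c₃ * H := le_mul_of_one_le_right (by positivity) hH1
    calc cnrm R₁ (B i l) ≤ 2 * H * c₁ + (H * c₂ + m * c₃) := by
          rw [hB]
          simp only
          linarith
      _ ≤ _ := by linarith
  have hfin := hC (Fin r) j₀ h B ((2 * c₁ + c₂ + m * c₃) * H) X hconv hBC
    (fun i => by
      have e1 : ∑ l, B i l * (τ ^ (j₀ : ℕ) * (h l).subst Φ) =
          b₁ * app c (fun l => τ ^ (j₀ : ℕ) * (h l).subst Φ) i +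
          (b₂ * app e (fun l => τ ^ (j₀ : ℕ) * (h l).subst Φ) i -
          PowerSeries.C ((m : ℂ) * (((j₀ : ℕ) : ℂ) / n₀)) * (s * v) *
            (τ ^ (j₀ : ℕ) * (h i).subst Φ)) := by
        rw [hB]
        simp only [add_mul, sub_mul, Finset.sum_add_distrib, Finset.sum_sub_distrib, ite_mul,
          zero_mul, Finset.sum_ite_eq, mem_univ, if_true]
        unfold app
        rw [Finset.mul_sum, Finset.mul_sum]
        congr 1
        · exact Finset.sum_congr rfl fun l _ => by ring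
        · congr 1
          exact Finset.sum_congr rfl fun l _ => by ring
      rw [e1, hsys i]
      ring) (by positivity) hBb hh i
  refine hfin.trans (Real.exp_le_exp.mpr ?_)
  rw [Fintype.card_fin]
  have hX0 : (0 : ℝ) ≤ X := Nat.cast_nonneg X
  have h5 : 0 ≤ (r : ℝ) * (2 * c₁ + c₂ + m * c₃) * X := by positivity
  calc C * (r * ((2 * c₁ + c₂ + m * c₃) * H) + X + 1)
      ≤ C * ((r * (2 * c₁ + c₂ + m * c₃) + 1) * (H + X)) := by
        refine mul_le_mul_of_nonneg_left ?_ hC0.le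
        nlinarith
    _ = _ := by ring

end pull

end Pool.Agent.H925
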