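import Pool.Agent.H925.Cusp

set_option autoImplicit false

open Finset

namespace Pool.Agent.H925

open Pool.Agent.Helper338PC (th coeff_th th_mul' th_add' th_sum' th_C th_one exists_lambda_gt)

section basic

lemma CuspRadius.symm {n₁ n₂ : ℕ} {R : ℝ} (h : CuspRadius n₁ n₂ R) : CuspRadius n₂ n₁ R := by
  obtain ⟨m, κ, v, s, ρ, hm, hv, hs, hρ, hv1, hs1, hrel, hR⟩ := h
  set s₀ := PowerSeries.constantCoeff s with hs₀
  have h0 : κ * s₀ ^ n₁ = 1 := by
    have e1 := congrArg PowerSeries.constantCoeff hrel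
    rw [map_add, map_mul, map_mul, map_pow, map_pow, map_pow, hv1, PowerSeries.constantCoeff_X,
      zero_pow hm.ne', zero_mul, zero_add, PowerSeries.constantCoeff_C, one_pow, ← hs₀] at e1
    exact e1.symm
  refine ⟨m, 1, PowerSeries.C s₀⁻¹ * s, v, -ρ, hm, (CConv.C _).mul hs, hv, hρ.neg, ?_, ?_, ?_, ?_⟩
  · rw [map_mul, PowerSeries.constantCoeff_C, ← hs₀, inv_mul_cancel₀ hs1]
  · rw [hv1]; exact one_ne_zero
  · rw [mul_pow, map_one, one_mul, hrel, ← map_pow]
    have h1 : (s₀⁻¹) ^ n₁ = κ := by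
      have h2 : s₀ ^ n₁ ≠ 0 := pow_ne_zero _ hs1
      rw [inv_pow]
      field_simp
      rw [mul_comm]
      exact h0.symm
    rw [h1]
    ring
  · rw [map_neg, norm_neg]
    exact hR

lemma CuspRadius.mono {n₁ n₂ : ℕ} {R R' : ℝ} (h : CuspRadius n₁ n₂ R) (hR : R' ≤ R) :
    CuspRadius n₁ n₂ R' := by
  obtain ⟨m, κ, v, s, ρ, h1, h2, h3, h4, h5, h6, h7, h8⟩ := h
  exact ⟨m, κ, v, s, ρ, h1, h2, h3, h4, h5, h6, h7, hR.trans h8⟩

/-- Roots of units. -/
lemma CUU.root {u : PowerSeries ℂ} (hu : CUU u) {N : ℕ} (hN : 0 < N) :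
    ∃ g : PowerSeries ℂ, CUU g ∧ g ^ N = u := by
  obtain ⟨g, hg⟩ := exists_root hu.ne hN
  have hg0 : PowerSeries.constantCoeff g ≠ 0 := by
    intro h
    apply hu.ne
    rw [← hg, map_pow, h, zero_pow hN.ne']
  have hgne : g ≠ 0 := by
    rintro rfl
    exact hg0 (map_zero _)
  have hCnat : (N : PowerSeries ℂ) = PowerSeries.C (N : ℂ) := (map_natCast _ N).symm
  have hode : th g = (PowerSeries.C ((N : ℂ)⁻¹) * (u⁻¹ * th u)) * g := by
    have h1 := th_pow' g N
    rw [hg] at h1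
    -- `g th u = N u th g`
    have h2 : (PowerSeries.C ((N : ℂ)⁻¹) : PowerSeries ℂ) * (N : PowerSeries ℂ) = 1 := by
      rw [hCnat, ← map_mul, inv_mul_cancel₀ (by exact_mod_cast hN.ne'), map_one]
    have h3 := hu.mul_inv
    linear_combination (-(PowerSeries.C ((N : ℂ)⁻¹) * u⁻¹)) * h1 - (u * u⁻¹ * th g) * h2 -
      (th g) * h3
  have hconv : CConv g :=
    cconv_of_first_order ((CConv.C _).mul (hu.conv_inv.mul hu.conv.th)) hode
  refine ⟨g, CUU.of_mul hconv ((hconv.pow (N - 1)).mul hu.conv_inv) ?_, hg⟩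
  rw [← mul_assoc, ← pow_succ', Nat.sub_add_cancel hN, hg]
  exact hu.mul_inv

lemma CConv.expand {f : PowerSeries ℂ} (hf : CConv f) {k : ℕ} (hk : k ≠ 0) :
    CConv (PowerSeries.expand k hk f) := by
  refine cconv_of_bdd fun R h0 h1 => ?_
  obtain ⟨K, hK⟩ := hf.bdd (R := R ^ k) (by positivity) (pow_lt_one₀ h0.le h1 hk)
  have hK0 : 0 ≤ K := le_trans (by positivity) (hK 0)
  refine ⟨K, fun n => ?_⟩
  by_cases hn : k ∣ n
  · obtain ⟨m, rfl⟩ := hn
    rw [PowerSeries.coeff_expand_mul, pow_mul]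
    exact hK m
  · rw [PowerSeries.coeff_expand_of_not_dvd k hk f hn, norm_zero, zero_mul]
    exact hK0

lemma CUU.expand {f : PowerSeries ℂ} (hf : CUU f) {k : ℕ} (hk : k ≠ 0) :
    CUU (PowerSeries.expand k hk f) := by
  refine CUU.of_mul (hf.conv.expand hk) (hf.conv_inv.expand hk) ?_
  rw [← map_mul, hf.mul_inv, map_one]

/-- The modular function `λ`. -/
lemma exists_lambdaC {c : ℝ} (hc : c < 16) : ∃ μ : PowerSeries ℂ, CUU μ ∧
    CUU (1 - PowerSeries.X * μ) ∧ c < ‖PowerSeries.constantCoeff μ‖ := by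
  obtain ⟨μ, h1, h2, h3⟩ := exists_lambda_gt hc
  refine ⟨PowerSeries.map (algebraMap ℝ ℂ) μ, CUU.of_real h1, ?_, ?_⟩
  · have := CUU.of_real h2
    rwa [map_sub, map_one, map_mul, PowerSeries.map_X] at this
  · have e1 : PowerSeries.constantCoeff (PowerSeries.map (algebraMap ℝ ℂ) μ) =
        ((PowerSeries.constantCoeff μ : ℝ) : ℂ) := by
      rw [← PowerSeries.coeff_zero_eq_constantCoeff_apply, PowerSeries.coeff_map,
        PowerSeries.coeff_zero_eq_constantCoeff_apply]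
      rfl
    rw [e1, Complex.norm_real]
    exact h3.trans_le (le_abs_self _)

end basic

section quadratic

/-- Order two and three: the modular group. -/
theorem cuspRadius_two_three {R : ℝ} (hR : R < 1728) : CuspRadius 2 3 R := by
  obtain ⟨c, hc0, hcR, hc⟩ : ∃ c : ℝ, 0 ≤ c ∧ R ≤ 27 / 4 * c ^ 2 ∧ c < 16 := by
    refine ⟨Real.sqrt (4 * max R 0 / 27), Real.sqrt_nonneg _, ?_, ?_⟩
    · rw [Real.sq_sqrt (by positivity)]
      have := le_max_left R 0
      linarith
    · rw [Real.sqrt_lt' (by norm_num)]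
      have : max R 0 < 1728 := max_lt hR (by norm_num)
      linarith
  obtain ⟨μ, hμ, hμ1, hμc⟩ := exists_lambdaC hc
  set L := PowerSeries.X * μ with hL
  have hLC : CConv L := CConv.X.mul hμ.conv
  have hL0 : PowerSeries.constantCoeff L = 0 := by
    rw [hL, map_mul, PowerSeries.constantCoeff_X, zero_mul]
  have h2C : CConv (2 : PowerSeries ℂ) := CConv.ofNat 2
  refine ⟨2, 1, 1 - L + L ^ 2, PowerSeries.C (1 / 2) * ((1 + L) * (1 - 2 * L) * (2 - L)),
    PowerSeries.C (27 / 4) * μ ^ 2 * (1 - L) ^ 2, by norm_num,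
    (CConv.one.sub hLC).add (hLC.pow 2), ?_, ?_, ?_, ?_, ?_, ?_⟩
  · exact (CConv.C _).mul (((CConv.one.add hLC).mul (CConv.one.sub (h2C.mul hLC))).mul
      (h2C.sub hLC))
  · exact ((CUU.C (by norm_num)).mul (hμ.pow 2)).mul (hμ1.pow 2)
  · rw [map_add, map_sub, map_one, map_pow, hL0]
    norm_num
  · simp only [map_mul, map_add, map_sub, map_one, hL0, PowerSeries.constantCoeff_C, map_ofNat]
    norm_num
  · have h1 : (PowerSeries.C (27 / 4 : ℂ) : PowerSeries ℂ) = 27 * PowerSeries.C (1 / 4 : ℂ) := by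
      have : (27 : PowerSeries ℂ) = PowerSeries.C (27 : ℂ) := (map_ofNat _ 27).symm
      rw [this, ← map_mul]
      norm_num
    have h2 : (PowerSeries.C (1 / 2 : ℂ) : PowerSeries ℂ) ^ 2 = PowerSeries.C (1 / 4 : ℂ) := by
      rw [← map_pow]
      norm_num
    have h3 : 4 * (PowerSeries.C (1 / 4 : ℂ) : PowerSeries ℂ) = 1 := by
      have : (4 : PowerSeries ℂ) = PowerSeries.C (4 : ℂ) := (map_ofNat _ 4).symm
      rw [this, ← map_mul]
      norm_num
    rw [map_one, one_mul, h1]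
    have h4 : PowerSeries.X ^ 2 * (27 * PowerSeries.C (1 / 4 : ℂ) * μ ^ 2 * (1 - L) ^ 2) =
        27 * PowerSeries.C (1 / 4 : ℂ) * L ^ 2 * (1 - L) ^ 2 := by
      rw [hL]; ring
    rw [h4]
    linear_combination (-(1 - L + L ^ 2) ^ 3) * h3 -
      ((1 + L) * (1 - 2 * L) * (2 - L)) ^ 2 * h2
  · refine hcR.trans ?_
    rw [map_mul, map_mul, map_pow, map_pow, PowerSeries.constantCoeff_C, map_sub, map_one, hL0,
      sub_zero, one_pow, mul_one, norm_mul, norm_pow]
    have : ‖(27 / 4 : ℂ)‖ = 27 / 4 := by norm_num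
    rw [this]
    have h5 : c ^ 2 ≤ ‖PowerSeries.constantCoeff μ‖ ^ 2 := pow_le_pow_left₀ hc0 hμc.le 2
    linarith

/-- Order two and four. -/
theorem cuspRadius_four_two {R : ℝ} (hR : R < 256) : CuspRadius 4 2 R := by
  obtain ⟨μ, hμ, hμ1, hμc⟩ := exists_lambdaC (c := R / 16) (by linarith)
  set L := PowerSeries.X * μ with hL
  have hLC : CConv L := CConv.X.mul hμ.conv
  have hL0 : PowerSeries.constantCoeff L = 0 := by
    rw [hL, map_mul, PowerSeries.constantCoeff_X, zero_mul]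
  have h2C : CConv (2 : PowerSeries ℂ) := CConv.ofNat 2
  have h4C : CConv (4 : PowerSeries ℂ) := CConv.ofNat 4
  refine ⟨1, 1, 1 + 4 * (L * (1 - L)), 1 - 2 * L, PowerSeries.C 16 * μ * (1 - L), by norm_num,
    CConv.one.add (h4C.mul (hLC.mul (CConv.one.sub hLC))), CConv.one.sub (h2C.mul hLC),
    ((CUU.C (by norm_num)).mul hμ).mul hμ1, ?_, ?_, ?_, ?_⟩
  · simp only [map_mul, map_add, map_sub, map_one, hL0]
    norm_num
  · simp only [map_mul, map_sub, map_one, hL0]
    norm_num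
  · have h1 : (PowerSeries.C (16 : ℂ) : PowerSeries ℂ) = 16 := map_ofNat _ 16
    rw [h1, map_one, one_mul, pow_one]
    have h4 : PowerSeries.X * (16 * μ * (1 - L)) = 16 * L * (1 - L) := by
      rw [hL]; ring
    rw [h4]
    ring
  · rw [map_mul, map_mul, PowerSeries.constantCoeff_C, map_sub, map_one, hL0,
      sub_zero, mul_one, norm_mul]
    have : ‖(16 : ℂ)‖ = 16 := by norm_num
    rw [this]
    linarith

/-- Order three and three. -/
theorem cuspRadius_three_three {R : ℝ} (hR : R < 48 * Real.sqrt 3) : CuspRadius 3 3 R := by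
  have h3 : 0 < Real.sqrt 3 := Real.sqrt_pos.mpr (by norm_num)
  obtain ⟨μ, hμ, hμ1, hμc⟩ := exists_lambdaC (c := R / (3 * Real.sqrt 3)) (by
    rw [div_lt_iff₀ (by positivity)]; linarith)
  set L := PowerSeries.X * μ with hL
  have hLC : CConv L := CConv.X.mul hμ.conv
  have hL0 : PowerSeries.constantCoeff L = 0 := by
    rw [hL, map_mul, PowerSeries.constantCoeff_X, zero_mul]
  -- a primitive cube root of unity
  set ω : ℂ := ⟨-1 / 2, Real.sqrt 3 / 2⟩ with hω
  have hsq : Real.sqrt 3 * Real.sqrt 3 = 3 := Real.mul_self_sqrt (by norm_num)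
  have hω2 : ω ^ 2 = ⟨-1 / 2, -(Real.sqrt 3 / 2)⟩ := by
    rw [pow_two, hω]
    apply Complex.ext
    · simp only [Complex.mul_re]
      linarith
    · simp only [Complex.mul_im]
      ring
  have hω1 : ω ^ 2 + ω + 1 = 0 := by
    rw [hω2, hω]
    apply Complex.ext
    · simp only [Complex.add_re, Complex.one_re, Complex.zero_re]
      norm_num
    · simp only [Complex.add_im, Complex.one_im, Complex.zero_im]
      norm_num
  have hdiff : ω ^ 2 - ω = ⟨0, -Real.sqrt 3⟩ := by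
    rw [hω2, hω]
    apply Complex.ext
    · simp only [Complex.sub_re]
      norm_num
    · simp only [Complex.sub_im]
      ring
  have hnorm : ‖ω ^ 2 - ω‖ = Real.sqrt 3 := by
    rw [hdiff, Complex.norm_def, Complex.normSq_mk]
    rw [show (0 : ℝ) * 0 + -Real.sqrt 3 * -Real.sqrt 3 = 3 by rw [neg_mul_neg, hsq]; norm_num]
  have hne : 3 * (ω ^ 2 - ω) ≠ 0 := by
    refine mul_ne_zero (by norm_num) ?_
    rw [← norm_ne_zero_iff, hnorm]
    exact h3.ne'
  refine ⟨1, 1, 1 + PowerSeries.C (ω ^ 2) * L, 1 + PowerSeries.C ω * L,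
    PowerSeries.C (3 * (ω ^ 2 - ω)) * μ * (1 - L), by norm_num,
    CConv.one.add ((CConv.C _).mul hLC), CConv.one.add ((CConv.C _).mul hLC),
    ((CUU.C hne).mul hμ).mul hμ1, ?_, ?_, ?_, ?_⟩
  · simp only [map_mul, map_add, map_one, hL0]
    norm_num
  · simp only [map_mul, map_add, map_one, hL0]
    norm_num
  · have h1 : (PowerSeries.C ω : PowerSeries ℂ) ^ 2 + PowerSeries.C ω + 1 = 0 := by
      rw [← map_pow, ← map_add, ← map_one (PowerSeries.C (R := ℂ)), ← map_add, hω1, map_zero]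
    have h4 : (PowerSeries.C (3 * (ω ^ 2 - ω)) : PowerSeries ℂ) =
        3 * ((PowerSeries.C ω) ^ 2 - PowerSeries.C ω) := by
      rw [map_mul, map_sub, map_pow, map_ofNat]
    rw [h4, map_pow, map_one, one_mul, pow_one]
    set W : PowerSeries ℂ := PowerSeries.C ω with hW
    have h5 : PowerSeries.X * (3 * (W ^ 2 - W) * μ * (1 - L)) = 3 * (W ^ 2 - W) * L * (1 - L) := by
      rw [hL]; ring
    rw [h5]
    have h6 : W ^ 3 = 1 := by linear_combination (W - 1) * h1
    linear_combination (3 * L ^ 2 * W + L ^ 3 * (W ^ 3 + 1) - L ^ 3) * h6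
  · rw [map_mul, map_mul, PowerSeries.constantCoeff_C, map_sub, map_one, hL0,
      sub_zero, mul_one, norm_mul, norm_mul, hnorm]
    have : ‖(3 : ℂ)‖ = 3 := by norm_num
    rw [this]
    rw [div_lt_iff₀ (by positivity)] at hμc
    linarith

/-- Order four and four. -/
theorem cuspRadius_four_four {R : ℝ} (hR : R < 32) : CuspRadius 4 4 R := by
  obtain ⟨c, hc0, hcR, hc⟩ : ∃ c : ℝ, 0 ≤ c ∧ R ≤ 8 * Real.sqrt c ∧ c < 16 := by
    refine ⟨(max R 0 / 8) ^ 2, by positivity, ?_, ?_⟩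
    · rw [Real.sqrt_sq (by positivity)]
      have := le_max_left R 0
      linarith
    · have : max R 0 < 32 := max_lt hR (by norm_num)
      have h0 : 0 ≤ max R 0 := le_max_right _ _
      nlinarith
  obtain ⟨μ, hμ, hμ1, hμc⟩ := exists_lambdaC hc
  -- `z ^ 2 = λ (X ^ 2)`
  obtain ⟨h, hh, hh2⟩ := (hμ.expand two_ne_zero).root two_pos
  set z := PowerSeries.X * h with hz
  have hzC : CConv z := CConv.X.mul hh.conv
  have hz0 : PowerSeries.constantCoeff z = 0 := by
    rw [hz, map_mul, PowerSeries.constantCoeff_X, zero_mul]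
  have hz2 : 1 - z ^ 2 = PowerSeries.expand 2 two_ne_zero (1 - PowerSeries.X * μ) := by
    rw [map_sub, map_one, map_mul, PowerSeries.expand_X, hz, mul_pow, hh2]
  have hz2U : CUU (1 - z ^ 2) := by
    rw [hz2]; exact hμ1.expand two_ne_zero
  have hI : (PowerSeries.C Complex.I : PowerSeries ℂ) ^ 2 = -1 := by
    rw [← map_pow, Complex.I_sq, map_neg, map_one]
  refine ⟨1, 1, 1 + PowerSeries.C Complex.I * z, 1 - PowerSeries.C Complex.I * z,
    PowerSeries.C (8 * Complex.I) * h * (1 - z ^ 2), by norm_num,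
    CConv.one.add ((CConv.C _).mul hzC), CConv.one.sub ((CConv.C _).mul hzC),
    ((CUU.C (by simp)).mul hh).mul hz2U, ?_, ?_, ?_, ?_⟩
  · simp only [map_mul, map_add, map_one, hz0]
    norm_num
  · simp only [map_mul, map_sub, map_one, hz0]
    norm_num
  · rw [map_one, one_mul, pow_one, map_mul, map_ofNat]
    set I' : PowerSeries ℂ := PowerSeries.C Complex.I with hI'
    have h5 : PowerSeries.X * (8 * I' * h * (1 - z ^ 2)) = 8 * I' * z * (1 - z ^ 2) := by
      rw [hz]; ring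
    rw [h5]
    linear_combination (8 * I' * z ^ 3) * hI
  · refine hcR.trans ?_
    rw [map_mul, map_mul, PowerSeries.constantCoeff_C, map_sub, map_one, map_pow, hz0,
      zero_pow two_ne_zero, sub_zero, mul_one, norm_mul, norm_mul, Complex.norm_I, mul_one]
    have h6 : ‖(8 : ℂ)‖ = 8 := by norm_num
    rw [h6]
    have h7 : c ≤ ‖PowerSeries.constantCoeff h‖ ^ 2 := by
      rw [← norm_pow, ← map_pow, hh2, PowerSeries.constantCoeff_expand]
      exact hμc.le
    have h8 : Real.sqrt c ≤ ‖PowerSeries.constantCoeff h‖ := by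
      rw [Real.sqrt_le_left (norm_nonneg _)]
      exact h7
    linarith

end quadratic

section cubic

/-- The cubic analogue of the theta functions, up to any precision: the approximations given by the
cubic analogue of the arithmetic-geometric mean. -/
theorem exists_cubic (n : ℕ) : ∃ a b ρ : PowerSeries ℂ, CConv a ∧
    PowerSeries.constantCoeff a = 1 ∧ CUU b ∧ CUU ρ ∧ a ^ 3 = PowerSeries.X * ρ + b ^ 3 ∧
    ‖PowerSeries.constantCoeff ρ‖ = (27 : ℝ) ^ (1 - (1 / 3 : ℝ) ^ n) := by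
  induction n with
  | zero =>
    have hX : CUU (1 - PowerSeries.X : PowerSeries ℂ) := by
      have := CUU.of_real Helper338PC.UU.one_sub_X
      rwa [map_sub, map_one, PowerSeries.map_X] at this
    obtain ⟨b, hb, hb3⟩ := hX.root (N := 3) (by norm_num)
    refine ⟨1, b, 1, CConv.one, map_one _, hb, CUU.one, ?_, ?_⟩
    · rw [hb3]; ring
    · rw [map_one, norm_one]; norm_num
  | succ n ih =>
    obtain ⟨a, b, ρ, ha, ha1, hb, hρ, hrel, hn⟩ := ih
    have h3 : (3 : ℕ) ≠ 0 := by norm_num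
    obtain ⟨h, hh, hh3⟩ := (hρ.expand h3).root (N := 3) (by norm_num)
    set A := PowerSeries.expand 3 h3 a with hA
    set B := PowerSeries.expand 3 h3 b with hB
    set Q := PowerSeries.X * h with hQ
    have hAC : CConv A := ha.expand h3
    have hQC : CConv Q := CConv.X.mul hh.conv
    have hQ0 : PowerSeries.constantCoeff Q = 0 := by
      rw [hQ, map_mul, PowerSeries.constantCoeff_X, zero_mul]
    have hA1 : PowerSeries.constantCoeff A = 1 := by
      rw [hA, PowerSeries.constantCoeff_expand, ha1]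
    have hrel3 : A ^ 3 = Q ^ 3 + B ^ 3 := by
      have e1 := congrArg (PowerSeries.expand 3 h3) hrel
      rw [map_pow, map_add, map_mul, PowerSeries.expand_X, map_pow, ← hh3] at e1
      rw [hA, hB, e1, hQ]
      ring
    have h2C : CConv (2 : PowerSeries ℂ) := CConv.ofNat 2
    have hfac : CUU ((A - Q) * (A ^ 2 + A * Q + Q ^ 2)) := by
      have e1 : (A - Q) * (A ^ 2 + A * Q + Q ^ 2) = B ^ 3 := by
        linear_combination hrel3
      rw [e1]
      exact (hb.expand h3).pow 3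
    have hs : CConv (A ^ 2 + A * Q + Q ^ 2) := ((hAC.pow 2).add (hAC.mul hQC)).add (hQC.pow 2)
    have hb' : CUU (A - Q) := CUU.of_mul_left (hAC.sub hQC) hs hfac
    have hs' : CUU (A ^ 2 + A * Q + Q ^ 2) := by
      rw [mul_comm] at hfac
      exact CUU.of_mul_left hs (hAC.sub hQC) hfac
    refine ⟨A + 2 * Q, A - Q, PowerSeries.C 9 * h * (A ^ 2 + A * Q + Q ^ 2),
      hAC.add (h2C.mul hQC), ?_, hb', ((CUU.C (by norm_num)).mul hh).mul hs', ?_, ?_⟩
    · rw [map_add, map_mul, hQ0, hA1]; norm_num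
    · have e1 : (PowerSeries.C (9 : ℂ) : PowerSeries ℂ) = 9 := map_ofNat _ 9
      have e2 : PowerSeries.X * (PowerSeries.C 9 * h * (A ^ 2 + A * Q + Q ^ 2)) =
          9 * Q * (A ^ 2 + A * Q + Q ^ 2) := by
        rw [e1, hQ]; ring
      rw [e2]
      ring
    · rw [map_mul, map_mul, PowerSeries.constantCoeff_C, map_add, map_add, map_mul, map_pow,
        map_pow, hA1, hQ0, norm_mul, norm_mul]
      have e1 : ‖PowerSeries.constantCoeff h‖ ^ 3 = (27 : ℝ) ^ (1 - (1 / 3 : ℝ) ^ n) := by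
        rw [← norm_pow, ← map_pow, hh3, PowerSeries.constantCoeff_expand]
        exact hn
      have e2 : ‖PowerSeries.constantCoeff h‖ = (27 : ℝ) ^ ((1 - (1 / 3 : ℝ) ^ n) / 3) := by
        have e3 : ((27 : ℝ) ^ ((1 - (1 / 3 : ℝ) ^ n) / 3)) ^ 3 =
            (27 : ℝ) ^ (1 - (1 / 3 : ℝ) ^ n) := by
          rw [← Real.rpow_natCast, ← Real.rpow_mul (by norm_num)]
          congr 1
          push_cast
          ring
        rw [← e3] at e1
        exact (pow_left_inj₀ (norm_nonneg _) (by positivity) (by norm_num)).mp e1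
      rw [e2]
      have e4 : ‖(9 : ℂ)‖ = 9 := by norm_num
      have e5 : ‖(1 : ℂ) ^ 2 + 1 * 0 + 0 ^ 2‖ = 1 := by norm_num
      rw [e4, e5, mul_one]
      have e6 : (9 : ℝ) = (27 : ℝ) ^ (2 / 3 : ℝ) := by
        have e7 : (27 : ℝ) = (3 : ℝ) ^ (3 : ℝ) := by norm_num
        rw [e7, ← Real.rpow_mul (by norm_num)]
        norm_num
      rw [e6, ← Real.rpow_add (by norm_num)]
      congr 1
      rw [pow_succ]
      ring

lemma exists_cubic_gt {c : ℝ} (hc : c < 27) : ∃ a b ρ : PowerSeries ℂ, CConv a ∧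
    PowerSeries.constantCoeff a = 1 ∧ CUU b ∧ CUU ρ ∧ a ^ 3 = PowerSeries.X * ρ + b ^ 3 ∧
    c < ‖PowerSeries.constantCoeff ρ‖ := by
  have h1 : Filter.Tendsto (fun n : ℕ => (27 : ℝ) ^ (1 - (1 / 3 : ℝ) ^ n)) Filter.atTop
      (nhds ((27 : ℝ) ^ (1 - (0 : ℝ)))) := by
    have h2 := (tendsto_pow_atTop_nhds_zero_of_lt_one (r := (1 / 3 : ℝ)) (by norm_num)
      (by norm_num)).const_sub 1
    exact (Real.continuous_const_rpow (by norm_num : (27 : ℝ) ≠ 0)).continuousAt.tendsto.comp h2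
  rw [sub_zero, Real.rpow_one] at h1
  obtain ⟨n, hn⟩ := (h1.eventually (lt_mem_nhds hc)).exists
  obtain ⟨a, b, ρ, h1, h2, h3, h4, h5, h6⟩ := exists_cubic n
  exact ⟨a, b, ρ, h1, h2, h3, h4, h5, by rw [h6]; exact hn⟩

/-- Order three at infinity, any order at one. -/
theorem cuspRadius_any_three {n : ℕ} (hn : 0 < n) {R : ℝ} (hR : R < 27) : CuspRadius n 3 R := by
  obtain ⟨a, b, ρ, ha, ha1, hb, hρ, hrel, hc⟩ := exists_cubic_gt hR
  obtain ⟨s, hs, hsn⟩ := (hb.pow 3).root hn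
  refine ⟨1, 1, a, s, ρ, by norm_num, ha, hs.conv, hρ, ha1, hs.ne, ?_, hc.le⟩
  rw [map_one, one_mul, hsn, pow_one]
  exact hrel

/-- Order two and six. -/
theorem cuspRadius_two_six {R : ℝ} (hR : R < 108) : CuspRadius 2 6 R := by
  obtain ⟨a, b, ρ, ha, ha1, hb, hρ, hrel, hc⟩ := exists_cubic_gt (c := R / 4) (by linarith)
  have hb3 : (PowerSeries.constantCoeff b) ^ 3 = 1 := by
    have e1 := congrArg PowerSeries.constantCoeff hrel
    rw [map_add, map_mul, map_pow, map_pow, ha1, PowerSeries.constantCoeff_X, zero_mul,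
      zero_add, one_pow] at e1
    exact e1.symm
  refine ⟨1, 1, a, b ^ 3 - PowerSeries.X * ρ, PowerSeries.C 4 * ρ * b ^ 3, by norm_num, ha,
    (hb.conv.pow 3).sub (CConv.X.mul hρ.conv), ((CUU.C (by norm_num)).mul hρ).mul (hb.pow 3), ha1,
    ?_, ?_, ?_⟩
  · rw [map_sub, map_mul, map_pow, hb3, PowerSeries.constantCoeff_X]
    norm_num
  · have e1 : (PowerSeries.C (4 : ℂ) : PowerSeries ℂ) = 4 := map_ofNat _ 4
    have e2 : a ^ 6 = (a ^ 3) ^ 2 := by ring
    rw [map_one, one_mul, e1, e2, hrel]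
    ring
  · rw [map_mul, map_mul, map_pow, hb3, mul_one, PowerSeries.constantCoeff_C, norm_mul]
    have : ‖(4 : ℂ)‖ = 4 := by norm_num
    rw [this]
    linarith

end cubic

section general

/-- Any orders. -/
theorem cuspRadius_any {n₁ n₂ : ℕ} (hn₁ : 0 < n₁) {R : ℝ} (hR : R < 16) : CuspRadius n₁ n₂ R := by
  obtain ⟨μ, hμ, hμ1, hμc⟩ := exists_lambdaC hR
  obtain ⟨s, hs, hsn⟩ := hμ1.root hn₁
  refine ⟨1, 1, 1, s, μ, by norm_num, CConv.one, hs.conv, hμ, map_one _, hs.ne, ?_, hμc.le⟩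
  rw [map_one, one_mul, hsn, one_pow, pow_one]
  ring

/-- Order two at one, any order at infinity. -/
theorem cuspRadius_two_any {n : ℕ} {R : ℝ} (hR : R < 64) : CuspRadius 2 n R := by
  obtain ⟨μ, hμ, hμ1, hμc⟩ := exists_lambdaC (c := R / 4) (by linarith)
  set L := PowerSeries.X * μ with hL
  have hLC : CConv L := CConv.X.mul hμ.conv
  have hL0 : PowerSeries.constantCoeff L = 0 := by
    rw [hL, map_mul, PowerSeries.constantCoeff_X, zero_mul]
  have h2C : CConv (2 : PowerSeries ℂ) := CConv.ofNat 2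
  refine ⟨1, 1, 1, 1 - 2 * L, PowerSeries.C 4 * μ * (1 - L), by norm_num, CConv.one,
    CConv.one.sub (h2C.mul hLC), ((CUU.C (by norm_num)).mul hμ).mul hμ1, map_one _, ?_, ?_, ?_⟩
  · simp only [map_mul, map_sub, map_one, hL0]
    norm_num
  · have h1 : (PowerSeries.C (4 : ℂ) : PowerSeries ℂ) = 4 := map_ofNat _ 4
    rw [h1, map_one, one_mul, pow_one, one_pow]
    have h4 : PowerSeries.X * (4 * μ * (1 - L)) = 4 * L * (1 - L) := by
      rw [hL]; ring
    rw [h4]
    ring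
  · rw [map_mul, map_mul, PowerSeries.constantCoeff_C, map_sub, map_one, hL0,
      sub_zero, mul_one, norm_mul]
    have : ‖(4 : ℂ)‖ = 4 := by norm_num
    rw [this]
    linarith

/-- The radius for orders which divide other orders. -/
lemma CuspRadius.of_dvd {n₁ n₂ d₁ d₂ : ℕ} {R : ℝ} (h : CuspRadius n₁ n₂ R) (h₁ : d₁ ∣ n₁)
    (h₂ : d₂ ∣ n₂) : CuspRadius d₁ d₂ R := by
  obtain ⟨e₁, rfl⟩ := h₁
  obtain ⟨e₂, rfl⟩ := h₂
  obtain ⟨m, κ, v, s, ρ, hm, hv, hs, hρ, hv1, hs1, hrel, hR⟩ := h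
  refine ⟨m, κ, v ^ e₂, s ^ e₁, ρ, hm, hv.pow _, hs.pow _, hρ, ?_, ?_, ?_, hR⟩
  · rw [map_pow, hv1, one_pow]
  · rw [map_pow]; exact pow_ne_zero _ hs1
  · rw [← pow_mul, ← pow_mul, mul_comm e₂, mul_comm e₁]
    exact hrel

end general

end Pool.Agent.H925
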