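import Pool.Agent.H925.OrbK
import Pool.Agent.H925.Radii

set_option autoImplicit false

open Finset NumberField

namespace Pool.Agent.H925

open Pool.Agent.Helper338PC

/-- The radii of the triangle orbifolds of type `(∞, n₁, n₂)` at the cusp (for most of the types
which come from modular curves; `16` in all other cases). -/
noncomputable def triRadius : ℕ → ℕ → ℝ
  | 2, 3 => 1728
  | 3, 2 => 1728
  | 2, 4 => 256
  | 4, 2 => 256
  | 2, 6 => 108
  | 6, 2 => 108
  | 3, 3 => 48 * Real.sqrt 3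
  | 4, 4 => 32
  | 2, _ => 64
  | _, 2 => 64
  | 3, _ => 27
  | _, 3 => 27
  | _, _ => 16

lemma cuspRadius_of_lt {n₁ n₂ : ℕ} (hn₁ : 0 < n₁) (hn₂ : 0 < n₂) {R : ℝ}
    (hR : R < triRadius n₁ n₂) : CuspRadius n₁ n₂ R := by
  unfold triRadius at hR
  split at hR
  · exact cuspRadius_two_three hR
  · exact (cuspRadius_two_three hR).symm
  · exact (cuspRadius_four_two hR).symm
  · exact cuspRadius_four_two hR
  · exact cuspRadius_two_six hR
  · exact (cuspRadius_two_six hR).symm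
  · exact cuspRadius_three_three hR
  · exact cuspRadius_four_four hR
  · exact cuspRadius_two_any hR
  · exact (cuspRadius_two_any hR).symm
  · exact (cuspRadius_any_three hn₂ hR).symm
  · exact cuspRadius_any_three hn₁ hR
  · exact cuspRadius_any hn₁ hR

lemma triRadius_pos (n₁ n₂ : ℕ) : 0 < triRadius n₁ n₂ := by
  unfold triRadius
  split <;> positivity

/-- The system `Y' = A / (D x (x - 1)) Y` is a flat bundle on the triangle orbifold of type
`(∞, n₁, n₂)`: the entries of `A` are polynomials of degree at most one, and the residues `A(1) / D`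
at `1` and `- A₁ / D` at infinity (`A₁` is the coefficient of `x`) are annihilated by
`∏ (X - j / n)`, `0 ≤ j < n`, for `n = n₁` and `n = n₂`. -/
def TriangleType {R₀ : Type*} [CommRing R₀] {r : ℕ} (D n₁ n₂ : ℕ)
    (A : Matrix (Fin r) (Fin r) (Polynomial R₀)) : Prop :=
  (∀ i j, (A i j).natDegree ≤ 1) ∧
    Polynomial.aeval (A.map (Polynomial.eval 1)) (eigPoly n₁ D) = 0 ∧
    Polynomial.aeval (-(A.map fun a => a.coeff 1)) (eigPoly n₂ D) = 0

/-- The defect criterion for the triangle orbifolds. -/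
theorem triangle_defect {K : Type} [Field K] [NumberField K] {r D : ℕ} (hD : D ≠ 0)
    {A : Matrix (Fin r) (Fin r) (Polynomial (𝓞 K))} {β : Fin r → ℚ}
    {U : Matrix (Fin r) (Fin r) (PowerSeries K)}
    (hU : IsFundamentalAtZero (algebraMap (𝓞 K) K) D 1 A β U)
    (hgap : ∀ i j, |β i - β j| < 1) {S : Finset ℕ} (hS : ∀ p ∈ S, p.Prime)
    (hDS : ∀ p : ℕ, p.Prime → p ∣ D → p ∈ S) {E : Set ℕ} (hE : Summable (sparseTerm E))
    {ℓ : ℕ → ℝ} (hℓ : ∀ p ∈ S, 0 ≤ ℓ p)
    (hbad : ∀ p ∈ S, AdmissibleAt (algebraMap (𝓞 K) K) D 1 A β U p (ℓ p))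
    (hgood : ∀ p : ℕ, p.Prime → p ∉ S → p ∉ E → (Ideal.span {(p : 𝓞 K)}).IsRadical ∧
      ∀ (𝔭 : Ideal (𝓞 K)) [𝔭.IsMaximal], (p : 𝓞 K) ∈ 𝔭 → PCurvZeroAt 𝔭 D 1 A)
    {n₁ n₂ : ℕ} (hn₁ : 0 < n₁) (hn₂ : 0 < n₂) (hA : TriangleType D n₁ n₂ A) {R : ℝ}
    (hR : R = triRadius n₁ n₂ ∨ (0 < R ∧ CuspRadius n₁ n₂ R))
    (hsum : defect (numExp β) S E ℓ < Real.log R) :
    FullAlgebraic (sysG (algebraMap (𝓞 K) K) D 1 A) := by
  obtain ⟨hdeg, h1, h2⟩ := hA
  rcases hR with rfl | ⟨hR0, hR⟩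
  · have hpos := triRadius_pos n₁ n₂
    have h3 : Real.exp (defect (numExp β) S E ℓ) < triRadius n₁ n₂ := by
      calc _ < Real.exp (Real.log (triRadius n₁ n₂)) := Real.exp_lt_exp.mpr hsum
        _ = _ := Real.exp_log hpos
    obtain ⟨R', hR1, hR2⟩ := exists_between h3
    have hR0 : 0 < R' := (Real.exp_pos _).trans hR1
    refine orb_defect_criterion hD hU hgap hS hDS hE hℓ hbad hgood hn₁ hn₂ hdeg h1 h2 hR0
      (cuspRadius_of_lt hn₁ hn₂ hR2) ?_
    rw [← Real.log_exp (defect (numExp β) S E ℓ)]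
    exact Real.log_lt_log (Real.exp_pos _) hR1
  · exact orb_defect_criterion hD hU hgap hS hDS hE hℓ hbad hgood hn₁ hn₂ hdeg h1 h2 hR0 hR hsum

end Pool.Agent.H925
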