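import Pool.Agent.H925.EffMain
import Pool.Agent.H925.EffCuspTri
import Pool.Agent.H925.EffCuspSer
import Pool.Agent.H925.EffCuspDefs
import Pool.Agent.H925.Tri

set_option autoImplicit false

open Finset NumberField

namespace Pool.Agent.H925

open Pool.Agent.Helper338PC

/-- The effective criterion, from a bound for the pull-backs of the solutions. -/
theorem eff_abs {n₀ m₁ : ℕ} (hn₀ : 0 < n₀) (hm₁ : 0 < m₁) (m κ : ℕ)
    {T T₂ τ Q Φ : PowerSeries ℂ} (hΦ : Φ = PowerSeries.X ^ m₁ * T) (hT' : CConv T₂)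
    (hTT' : T * T₂ = 1) (hτ : τ ^ n₀ = T) (hQ : CConv Q)
    (hQ1 : PowerSeries.constantCoeff Q = 1) (hQΦ : CConv (Q * Φ)) {R : ℝ} (hR0 : 0 < R)
    (hR : R ≤ ‖PowerSeries.constantCoeff T‖) (K : Type) [Field K] [NumberField K] (r : ℕ)
    {PP : ℕ → Matrix (Fin r) (Fin r) (Polynomial ℂ) → Prop} (hpull : PullBound n₀ m r PP τ Φ)
    {S : Finset ℕ} (hS : ∀ p ∈ S, p.Prime)
    {E : Set ℕ} (hE : Summable (sparseTerm E)) {ℓ : ℕ → ℝ} (hℓ : ∀ p ∈ S, 0 ≤ ℓ p)
    (hdef : defect κ S E ℓ < Real.log R) :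
    ∃ C : ℝ, ∀ (H : ℝ) (D : ℕ) (A : Matrix (Fin r) (Fin r) (Polynomial (𝓞 K))), 1 ≤ H →
      CuspClass n₀ m κ S ℓ H K D A →
      (∀ σ : K →+* ℂ, PP D ((A.map (Polynomial.map (algebraMap (𝓞 K) K))).map
        (Polynomial.map σ))) →
      (∀ p : ℕ, p.Prime → (p : ℝ) ≤ C * H → p ∉ S → p ∉ E →
        (Ideal.span {(p : 𝓞 K)}).IsRadical ∧
        ∀ (𝔭 : Ideal (𝓞 K)) [𝔭.IsMaximal], (p : 𝓞 K) ∈ 𝔭 → PCurvZeroAt 𝔭 D 1 A) →
      FullAlgebraic (sysG (algebraMap (𝓞 K) K) D 1 A) := by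
  classical
  set ℓ' : ℕ → ℝ := fun p => if p ∈ S then ℓ p else 0 with hℓ'
  have hℓS : ∀ p ∈ S, ℓ' p = ℓ p := fun p hp => if_pos hp
  have hℓ0 : ∀ p, 0 ≤ ℓ' p := by
    intro p
    by_cases h : p ∈ S
    · rw [hℓS p h]
      exact hℓ p h
    · rw [hℓ']
      simp only
      rw [if_neg h]
  have hdef' : defect κ S E ℓ' = defect κ S E ℓ := by
    unfold defect
    congr 1
    exact Finset.sum_congr rfl fun p hp => by rw [hℓS p hp]
  have hdef0 : 0 ≤ defect κ S E ℓ := by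
    refine add_nonneg (Finset.sum_nonneg fun p hp => mul_nonneg (hℓ p hp)
      (Real.log_nonneg (by exact_mod_cast (hS p hp).one_lt.le))) (mul_nonneg (by positivity) ?_)
    exact tsum_nonneg (outTerm_nonneg S E)
  obtain ⟨Λ, hΛ1, hΛ2⟩ : ∃ Λ, Real.exp (defect κ S E ℓ) < Λ ∧ Λ < R := by
    refine exists_between ?_
    calc Real.exp (defect κ S E ℓ) < Real.exp (Real.log R) := Real.exp_lt_exp.mpr hdef
      _ = R := Real.exp_log hR0
  have hΛ : 1 ≤ Λ := (Real.one_le_exp hdef0).trans hΛ1.le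
  have hΛ0 : 0 < Λ := by linarith
  obtain ⟨M, c₀, R₀, hM0, hR₀0, hR₀1, hser⟩ := series_cusp hn₀ hm₁ hΦ hT' hTT' hτ hQ hQ1 hQΦ hΛ
    (lt_of_lt_of_le hΛ2 hR)
  set N : ℕ := Fintype.card (Fin r × Module.Free.ChooseBasisIndex ℤ (𝓞 K)) with hN
  obtain ⟨Kd, hKd⟩ := eff_den (κ := κ) hS hE hℓ0 (Λ := Λ) (by rw [hdef']; exact hΛ1) hn₀ N (n₀ * M)
  obtain ⟨Cp, hCp0, hCp⟩ := hpull R₀ hR₀0 hR₀1
  set b := integralBasis K with hb
  choose cf hcf using fun (x : Module.Free.ChooseBasisIndex ℤ (𝓞 K) ×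
    Module.Free.ChooseBasisIndex ℤ (𝓞 K)) => map_LM' b x.1 x.2
  obtain ⟨cb, hcb⟩ : ∃ x : ℝ, x = 1 + ∑ x, ∑ σ, ‖cf x σ‖ := ⟨_, rfl⟩
  have hcbx : ∀ x, ∑ σ, ‖cf x σ‖ ≤ cb := by
    intro x
    have := Finset.single_le_sum (f := fun x => ∑ σ, ‖cf x σ‖)
      (fun x _ => Finset.sum_nonneg fun _ _ => norm_nonneg _) (mem_univ x)
    rw [hcb]
    linarith
  have hcb1 : 1 ≤ cb := by
    have : 0 ≤ ∑ x, ∑ σ, ‖cf x σ‖ :=
      Finset.sum_nonneg fun x _ => Finset.sum_nonneg fun _ _ => norm_nonneg _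
    rw [hcb]
    linarith
  -- the constants
  set aX : ℝ := n₀ * r * ((m + 1 : ℕ) : ℝ) with haX
  have haX0 : 0 ≤ aX := by positivity
  set l₁ : ℝ := |Real.log (max 1 Kd)| + Real.log cb with hl₁
  have hl₁0 : 0 ≤ l₁ := add_nonneg (abs_nonneg _) (Real.log_nonneg hcb1)
  set CL : ℝ := l₁ + (Cp + 1) * (aX + 2) + 2 with hCL
  have hCL0 : 0 ≤ CL := by positivity
  set M₁ : ℕ := M * n₀ with hM₁
  have hM₁0 : 0 < M₁ := Nat.mul_pos hM0 hn₀
  set α₁ : ℕ := 2 ^ M₁ * (M₁ ^ N * ((M₁ + 1) * N + 1)) + M with hα₁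
  set α₀ : ℕ := 2 ^ M₁ * (M₁ ^ N * (m + 1) + 1) + 1 with hα₀
  set m0 : ℕ := 2 * (1 + N * (N * n₀)) with hm0
  refine ⟨(m0 : ℝ) * (α₁ * (c₀ + 1) * CL + α₀), ?_⟩
  intro H D A hH hA hPP hgood
  obtain ⟨hD, hdeg, hheight, hDS, jj, hκ, hres, hbad⟩ := hA
  have hH0 : 0 < H := by linarith
  have hn₀Q : (n₀ : ℚ) ≠ 0 := by exact_mod_cast hn₀.ne'
  have hn₀K : (n₀ : K) ≠ 0 := by exact_mod_cast hn₀.ne'
  have hn₀C : (n₀ : ℂ) ≠ 0 := by exact_mod_cast hn₀.ne'
  have hDK : (D : K) ≠ 0 := by exact_mod_cast hD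
  have hDC : (D : ℂ) ≠ 0 := by exact_mod_cast hD
  have hDR : (0 : ℝ) < D := by exact_mod_cast Nat.pos_of_ne_zero hD
  -- the numbers
  obtain ⟨X, hX1, hX2⟩ : ∃ X : ℕ, aX * H ≤ X ∧ (X : ℝ) ≤ aX * H + 1 :=
    ⟨⌈aX * H⌉₊, Nat.le_ceil _, (Nat.ceil_lt_add_one (by positivity)).le⟩
  obtain ⟨L, hL1, hL2, hL3⟩ : ∃ L : ℕ, 1 ≤ L ∧ l₁ + (Cp + 1) * (H + X) ≤ L ∧
      (L : ℝ) ≤ CL * H := by
    refine ⟨⌈l₁ + (Cp + 1) * (H + X)⌉₊ + 1, by omega, ?_, ?_⟩
    · push_cast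
      have := Nat.le_ceil (l₁ + (Cp + 1) * (H + X))
      linarith
    · push_cast
      have h2 : 0 ≤ l₁ + (Cp + 1) * (H + X) := by positivity
      have h3 := (Nat.ceil_lt_add_one h2).le
      have h4 : (Cp + 1) * (H + X) ≤ (Cp + 1) * ((aX + 2) * H) := by
        refine mul_le_mul_of_nonneg_left ?_ (by linarith)
        nlinarith
      have h5 : l₁ ≤ l₁ * H := le_mul_of_one_le_right hl₁0 hH
      rw [hCL]
      nlinarith
  set t : ℕ := (c₀ + 1) * L with ht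
  have ht0 : 0 < t := Nat.mul_pos (Nat.succ_pos _) (by omega)
  have hct : c₀ * L ≤ t := Nat.mul_le_mul_right _ (Nat.le_succ _)
  set T₁ : ℕ := 2 ^ M₁ * (M₁ ^ N * ((m + 1) + ((M₁ + 1) * N + 1) * t) + 1) + t * M with hT₁
  have hT₁eq : T₁ + 1 = α₁ * t + α₀ := by
    rw [hT₁, hα₁, hα₀]
    ring
  have hT₁M : t * M ≤ T₁ := Nat.le_add_left _ _
  have hprime : ((m0 * (T₁ + 1) : ℕ) : ℝ) ≤ (m0 : ℝ) * (α₁ * (c₀ + 1) * CL + α₀) * H := by
    rw [hT₁eq, ht]
    push_cast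
    have e1 : (α₁ : ℝ) * ((c₀ + 1) * L) ≤ α₁ * ((c₀ + 1) * (CL * H)) := by gcongr
    have e2 : (α₀ : ℝ) ≤ α₀ * H := le_mul_of_one_le_right (Nat.cast_nonneg _) hH
    calc (m0 : ℝ) * (α₁ * ((c₀ + 1) * L) + α₀) ≤
          m0 * (α₁ * ((c₀ + 1) * (CL * H)) + α₀ * H) := by gcongr
      _ = _ := by ring
  -- size of `exp L`
  have hexpL : Real.exp (l₁ + (Cp + 1) * (H + X)) ≤ Real.exp L := Real.exp_le_exp.mpr hL2
  have hKdL : Kd ≤ Real.exp L := by
    have e1 : Kd ≤ Real.exp |Real.log (max 1 Kd)| := by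
      calc Kd ≤ max 1 Kd := le_max_right _ _
        _ = Real.exp (Real.log (max 1 Kd)) :=
            (Real.exp_log (lt_of_lt_of_le one_pos (le_max_left _ _))).symm
        _ ≤ _ := Real.exp_le_exp.mpr (le_abs_self _)
    refine e1.trans (le_trans (Real.exp_le_exp.mpr ?_) hexpL)
    have e2 : 0 ≤ (Cp + 1) * (H + X) := by positivity
    have e3 := Real.log_nonneg hcb1
    rw [hl₁]
    linarith
  have hcbL : cb * Real.exp ((Cp + 1) * (H + X)) ≤ Real.exp L := by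
    have e1 : cb * Real.exp ((Cp + 1) * (H + X)) =
        Real.exp (Real.log cb + (Cp + 1) * (H + X)) := by
      rw [Real.exp_add, Real.exp_log (by linarith)]
    rw [e1]
    refine le_trans (Real.exp_le_exp.mpr ?_) hexpL
    have := abs_nonneg (Real.log (max 1 Kd))
    rw [hl₁]
    linarith
  have hX0 : (0 : ℝ) ≤ X := Nat.cast_nonneg X
  have h2X : (2 : ℝ) ^ X ≤ Real.exp ((Cp + 1) * (H + X)) := by
    have e4 : (2 : ℝ) ≤ Real.exp 1 := by
      have := Real.add_one_le_exp (1 : ℝ)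
      linarith
    calc (2 : ℝ) ^ X ≤ Real.exp 1 ^ X := pow_le_pow_left₀ (by norm_num) e4 X
      _ = Real.exp X := by rw [← Real.exp_nat_mul, mul_one]
      _ ≤ _ := Real.exp_le_exp.mpr (by nlinarith)
  have hpX : Real.exp (Cp * (H + X)) ≤ Real.exp ((Cp + 1) * (H + X)) :=
    Real.exp_le_exp.mpr (by nlinarith)
  -- the fundamental matrix
  set β : Fin r → ℚ := fun i => ((jj i : ℕ) : ℚ) / n₀ with hβ
  have hgap : ∀ i j, |β i - β j| < 1 := by
    intro i j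
    have hn₀Q' : (0 : ℚ) < n₀ := by exact_mod_cast hn₀
    rw [hβ]
    simp only
    rw [← sub_div, abs_div, abs_of_pos hn₀Q', div_lt_one hn₀Q', abs_lt]
    have h2 : ((jj i : ℕ) : ℚ) < n₀ := by exact_mod_cast (jj i).2
    have h3 : ((jj j : ℕ) : ℚ) < n₀ := by exact_mod_cast (jj j).2
    have h4 : (0 : ℚ) ≤ ((jj i : ℕ) : ℚ) := Nat.cast_nonneg _
    have h5 : (0 : ℚ) ≤ ((jj j : ℕ) : ℚ) := Nat.cast_nonneg _
    constructor <;> linarith
  set AK := Aps (algebraMap (𝓞 K) K) (D : K)⁻¹ 1 A with hAK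
  have hA0K : ∀ i l, PowerSeries.coeff 0 (AK i l) = if i = l then ((β i : ℚ) : K) else 0 := by
    intro i l
    have e2 : PowerSeries.constantCoeff (wg K) = -1 := by
      unfold wg
      rw [map_neg, ← PowerSeries.coeff_zero_eq_constantCoeff_apply, PowerSeries.coeff_mk]
    rw [PowerSeries.coeff_zero_eq_constantCoeff_apply, hAK, Aps_apply, map_mul, map_mul, map_pow,
      PowerSeries.constantCoeff_C, e2, ← PowerSeries.coeff_zero_eq_constantCoeff_apply,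
      Polynomial.coeff_coe, Polynomial.coeff_map]
    have e3 := congrArg (algebraMap (𝓞 K) K) (hres i l)
    rw [nsmul_eq_mul, map_mul, map_natCast] at e3
    split_ifs with h
    · rw [if_pos h, map_neg, map_natCast] at e3
      rw [hβ]
      push_cast at e3 ⊢
      field_simp
      linear_combination -e3
    · rw [if_neg h, map_zero] at e3
      rw [(mul_eq_zero.mp e3).resolve_left hn₀K, mul_zero]
  obtain ⟨U, hU1, hsol⟩ := exists_U (A := AK) (β := fun i => ((β i : ℚ) : K)) hA0K (by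
    intro k i j hk
    have := gap_ne hgap hk j i
    have h3 : (((k : ℚ) + β j - β i : ℚ) : K) ≠ 0 := by exact_mod_cast this
    push_cast at h3
    exact h3)
  have hccU : ccM U = 1 := by rw [← ccM_eq_map]; exact hU1
  have hdet : (ccM U).det ≠ 0 := by rw [hccU, Matrix.det_one]; exact one_ne_zero
  refine exists_extensionF (algebraMap (𝓞 K) K) hD 1 A (β := β) hdet hsol fun i₁ j₁ => ?_
  refine algebraic_of_res fun x₁ y₁ => ?_
  -- restriction of scalars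
  set A₁ := polyLMM (RingOfIntegers.basis K) A with hA₁
  have hAres : LMM b AK = Aps (Int.castRingHom ℚ) (D : ℚ)⁻¹ 1 A₁ := by
    have h1 : (D : K)⁻¹ = algebraMap ℚ K (D : ℚ)⁻¹ := by rw [map_inv₀, map_natCast]
    rw [hAK, h1, LMM_Aps_compat]
  set jj' : Fin r × Module.Free.ChooseBasisIndex ℤ (𝓞 K) → Fin n₀ := fun x => jj x.1 with hjj'
  set β' : Fin r × Module.Free.ChooseBasisIndex ℤ (𝓞 K) → ℚ := fun x => β x.1 with hβ'
  set U' := LMM b U with hU'def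
  have hU' : ∀ y, IsSolG (Aps (Int.castRingHom ℚ) (D : ℚ)⁻¹ 1 A₁) (β' y)
      (fun x => U' x y) := by
    intro y
    rw [← hAres]
    refine IsSolG.res b (β := β) (fun j => ?_) y
    rw [eq_ratCast]
    exact hsol j
  have hone : ccM U' = 1 := ccM_LMM_one hccU
  have hgap' : ∀ x y, |β' x - β' y| < 1 := fun x y => hgap _ _
  -- the denominators
  have hden : ∀ n ≤ T₁, ∀ x y, ∃ d : ℕ, 0 < d ∧ (d : ℝ) ≤ Real.exp L * Λ ^ n ∧
      ∀ m ≤ n₀ * M, ∀ k ≤ n, ∃ z : ℤ, (d : ℚ) * PowerSeries.coeff k (U' x y ^ m) = z := by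
    intro n hn x y
    obtain ⟨d, hd0, hd1, hd2⟩ := hKd _ A₁ D jj' U' rfl hD hone hU' hDS (by
        have := numExp_res (K := K) β
        rw [← hβ'] at this
        exact this.le.trans hκ) (by
      intro p hp hpS
      obtain ⟨e₀, he1, he2⟩ := hbad p hpS
      refine ⟨e₀, ?_, fun k x y hk => ?_⟩
      · rw [hℓS p hpS]
        refine le_trans ?_ he1
        have hp1 : (1 : ℝ) < p := by exact_mod_cast hp.out.one_lt
        have h3 : ((numClass β' p : ℕ) : ℝ) ≤ numClass β p := by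
          exact_mod_cast numClass_res β p
        have h4 : (0 : ℝ) < p - 1 := by linarith
        have h5 : ((numClass β' p : ℕ) : ℝ) / ((p : ℝ) - 1) ≤ numClass β p / ((p : ℝ) - 1) := by
          gcongr
        have h6 : (e₀ : ℝ) + numClass β' p / ((p : ℝ) - 1) ≤
            (e₀ : ℝ) + numClass β p / ((p : ℝ) - 1) := by linarith
        exact h6
      · rw [← hAres, LMM_apply, coeff_LM]
        exact leftMul_norm (he2 k x.1 y.1 hk) _ _) n (by
      intro p hp hpS hpE hple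
      obtain ⟨h1, h2⟩ := hgood p hp.out (by
        refine le_trans ?_ hprime
        have e1 : p ≤ m0 * (T₁ + 1) :=
          hple.trans (Nat.mul_le_mul_left _ (Nat.add_le_add_right hn 1))
        exact_mod_cast e1) hpS hpE
      exact pcurv_res (RingOfIntegers.basis K) (fun h => hpS (hDS p hp.out h))
        (fun x hx => of_isRadical hp.out.ne_zero h1 x hx) h2) x y
    exact ⟨d, hd0, hd1.trans (mul_le_mul_of_nonneg_right hKdL (by positivity)), hd2⟩
  -- the complex systems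
  have hcx : ∀ (σ : K →+* ℂ) (j : Fin r), (∀ i k, ‖PowerSeries.coeff k
      (PowerSeries.map σ (U i j))‖ ≤ 2 ^ (X + k)) ∧ ∀ i,
      CConv (τ ^ (jj j : ℕ) * (PowerSeries.map σ (U i j)).subst Φ) ∧
      cnrm R₀ (τ ^ (jj j : ℕ) * (PowerSeries.map σ (U i j)).subst Φ) ≤
        Real.exp (Cp * (H + X)) := by
    intro σ j
    have h3 := (hsol j).map σ
    rw [hAK, Aps_map, map_inv₀, map_natCast] at h3
    have h4 : σ ((β j : ℚ) : K) = ((jj j : ℕ) : ℂ) / (n₀ : ℂ) := by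
      rw [map_ratCast, hβ]
      push_cast
      rfl
    rw [h4] at h3
    set AC : Matrix (Fin r) (Fin r) (Polynomial ℂ) :=
      (A.map (Polynomial.map (algebraMap (𝓞 K) K))).map (Polynomial.map σ) with hAC
    have hACc : ∀ i j k, (AC i j).coeff k = σ (algebraMap (𝓞 K) K ((A i j).coeff k)) := by
      intro i j k
      rw [hAC, Matrix.map_apply, Matrix.map_apply, Polynomial.coeff_map, Polynomial.coeff_map]
    have h5 : Aps (σ.comp (algebraMap (𝓞 K) K)) (D : ℂ)⁻¹ 1 A =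
        Aps (RingHom.id ℂ) (D : ℂ)⁻¹ 1 AC := by
      ext1 i j
      rw [Aps_apply, Aps_apply, Polynomial.map_id, hAC, Matrix.map_apply, Matrix.map_apply,
        Polynomial.map_map]
    have h6 : Aps (RingHom.id ℂ) (D : ℂ)⁻¹ 1 AC = AK.map (PowerSeries.map σ) := by
      rw [← h5, hAK, Aps_map, map_inv₀, map_natCast]
    rw [h5] at h3
    have hACdeg : ∀ i j, (AC i j).natDegree ≤ m := fun i j =>
      (Polynomial.natDegree_map_le).trans ((Polynomial.natDegree_map_le).trans (hdeg i j))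
    have hACH : ∀ i j k, ‖(AC i j).coeff k‖ ≤ H * D := fun i j k => by
      rw [hACc]
      exact hheight σ i j k
    have hgrow : ∀ i k, ‖PowerSeries.coeff k (PowerSeries.map σ (U i j))‖ ≤ 2 ^ (X + k) := by
      intro i k
      refine coeff_growth (h := fun i => PowerSeries.map σ (U i j))
        (β := fun i => ((jj i : ℕ) : ℂ) / (n₀ : ℂ)) h3 ?_ hn₀ ?_
        (a := ((m + 1 : ℕ) : ℝ) * H) ?_ ?_ ?_ k i
      · intro i l
        rw [h6, Matrix.map_apply, PowerSeries.coeff_map, hA0K]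
        split_ifs
        · rw [map_ratCast, hβ]
          push_cast
          rfl
        · exact map_zero σ
      · intro k i hk
        have hn₀R : (0 : ℝ) < n₀ := by exact_mod_cast hn₀
        have e1 : ((k : ℂ) + ((jj j : ℕ) : ℂ) / (n₀ : ℂ) - ((jj i : ℕ) : ℂ) / (n₀ : ℂ)) =
            ((((k : ℝ) + ((jj j : ℕ) : ℝ) / (n₀ : ℝ) - ((jj i : ℕ) : ℝ) / (n₀ : ℝ)) : ℝ) : ℂ) := by
          push_cast
          ring
        rw [e1, Complex.norm_real, Real.norm_eq_abs]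
        refine le_trans ?_ (le_abs_self _)
        have e2 : ((jj i : ℕ) : ℝ) + 1 ≤ n₀ := by exact_mod_cast (jj i).2
        have e3 : (0 : ℝ) ≤ ((jj j : ℕ) : ℝ) := Nat.cast_nonneg _
        have e4 : (1 : ℝ) ≤ k := by exact_mod_cast hk
        have e5 : (k : ℝ) + ((jj j : ℕ) : ℝ) / (n₀ : ℝ) - ((jj i : ℕ) : ℝ) / (n₀ : ℝ) =
            (k * n₀ + ((jj j : ℕ) : ℝ) - ((jj i : ℕ) : ℝ)) / n₀ := by
          field_simp
        rw [e5]
        have e6 : (1 : ℝ) ≤ n₀ := by exact_mod_cast hn₀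
        gcongr
        nlinarith
      · intro k i l _
        rw [Aps_apply, pow_one, Polynomial.map_id, mul_assoc, PowerSeries.coeff_C_mul, norm_mul,
          norm_inv, Complex.norm_natCast]
        calc (D : ℝ)⁻¹ * ‖PowerSeries.coeff k (wg ℂ * (AC i l : PowerSeries ℂ))‖
            ≤ (D : ℝ)⁻¹ * (((m + 1 : ℕ) : ℝ) * (H * D)) :=
              mul_le_mul_of_nonneg_left (norm_coeff_wg_mul (hACdeg i l) (hACH i l) k)
                (by positivity)
          _ = ((m + 1 : ℕ) : ℝ) * H := by field_simp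
      · intro i
        have e1 := congrFun (congrFun hU1 i) j
        rw [Matrix.map_apply, Matrix.one_apply, ← PowerSeries.coeff_zero_eq_constantCoeff_apply]
          at e1
        rw [PowerSeries.coeff_map, e1]
        split_ifs
        · rw [map_one, norm_one]
        · rw [map_zero, norm_zero]
          exact zero_le_one
      · rw [Fintype.card_fin]
        refine le_trans (le_of_eq ?_) hX1
        rw [haX]
        ring
    refine ⟨hgrow, fun i => ?_⟩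
    exact hCp D AC (jj j) (fun i => PowerSeries.map σ (U i j)) H X hD (hPP σ) h3 hACdeg hACH hH
      hgrow i
  -- the auxiliary polynomials
  have hsub : PowerSeries.HasSubst Φ := by
    refine PowerSeries.HasSubst.of_constantCoeff_zero' ?_
    rw [hΦ, map_mul, map_pow, PowerSeries.constantCoeff_X, zero_pow hm₁.ne', zero_mul]
  have hP : ∀ x y, ∃ P : Polynomial (Polynomial ℚ), P ≠ 0 ∧ P.natDegree ≤ M₁ ∧
      (∀ i, (P.coeff i).natDegree < t) ∧
      ∀ k ≤ T₁, PowerSeries.coeff k (Polynomial.aeval (U' x y) P) = 0 := by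
    intro x y
    have e0 := hcf (x.2, y.2) (U x.1 y.1)
    simp only at e0
    have eU : U' x y = LM b (U x.1 y.1) x.2 y.2 := by rw [hU'def, LMM_apply]
    rw [← eU] at e0
    refine hser (U' x y) (jj y.1) L t T₁ hL1 hct ht0 hT₁M (fun n hn => hden n hn x y) ?_ ?_ ?_
    · intro k
      have e1 := congrArg (PowerSeries.coeff k) e0
      rw [PowerSeries.coeff_map, map_sum] at e1
      have e2 : |((PowerSeries.coeff k (U' x y) : ℚ) : ℝ)| =
          ‖(algebraMap ℚ ℂ) (PowerSeries.coeff k (U' x y))‖ := by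
        rw [eq_ratCast, ← Complex.ofReal_ratCast, Complex.norm_real, Real.norm_eq_abs]
      rw [e2, e1]
      calc ‖∑ σ : K →ₐ[ℚ] ℂ, PowerSeries.coeff k (PowerSeries.C (cf (x.2, y.2) σ) *
            PowerSeries.map (σ : K →+* ℂ) (U x.1 y.1))‖
          ≤ ∑ σ : K →ₐ[ℚ] ℂ, ‖cf (x.2, y.2) σ‖ * 2 ^ (X + k) := by
            refine (norm_sum_le _ _).trans (Finset.sum_le_sum fun σ _ => ?_)
            rw [PowerSeries.coeff_C_mul, norm_mul]
            exact mul_le_mul_of_nonneg_left ((hcx (σ : K →+* ℂ) y.1).1 x.1 k) (norm_nonneg _)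
        _ = (∑ σ : K →ₐ[ℚ] ℂ, ‖cf (x.2, y.2) σ‖) * (2 ^ X * 2 ^ k) := by
            rw [← Finset.sum_mul, pow_add]
        _ ≤ cb * (Real.exp ((Cp + 1) * (H + X)) * 2 ^ k) := by
            refine mul_le_mul (hcbx _) ?_ (by positivity) (by linarith)
            exact mul_le_mul_of_nonneg_right h2X (by positivity)
        _ = cb * Real.exp ((Cp + 1) * (H + X)) * 2 ^ k := by ring
        _ ≤ Real.exp L * 2 ^ k := mul_le_mul_of_nonneg_right hcbL (by positivity)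
    · rw [e0, subst_sum' hsub, Finset.mul_sum]
      refine CConv.sum _ fun σ _ => ?_
      rw [PowerSeries.subst_mul hsub, subst_CC]
      have e7 := (CConv.C (cf (x.2, y.2) σ)).mul ((hcx (σ : K →+* ℂ) y.1).2 x.1).1
      rw [mul_left_comm]
      exact e7
    · rw [e0, subst_sum' hsub, Finset.mul_sum]
      have e6 : ∀ σ : K →ₐ[ℚ] ℂ, τ ^ (jj y.1 : ℕ) *
          (PowerSeries.C (cf (x.2, y.2) σ) *
            PowerSeries.map (σ : K →+* ℂ) (U x.1 y.1)).subst Φ =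
          PowerSeries.C (cf (x.2, y.2) σ) * (τ ^ (jj y.1 : ℕ) *
            (PowerSeries.map (σ : K →+* ℂ) (U x.1 y.1)).subst Φ) := by
        intro σ
        rw [PowerSeries.subst_mul hsub, subst_CC]
        ring
      rw [Finset.sum_congr rfl fun σ _ => e6 σ]
      refine (cnrm_sum hR₀0 _ fun (σ : K →ₐ[ℚ] ℂ) _ => CSm.mul hR₀0 (CSm.C _)
        (((hcx (σ : K →+* ℂ) y.1).2 x.1).1 R₀ hR₀0 hR₀1)).trans ?_
      calc ∑ σ : K →ₐ[ℚ] ℂ, cnrm R₀ (PowerSeries.C (cf (x.2, y.2) σ) *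
            (τ ^ (jj y.1 : ℕ) * (PowerSeries.map (σ : K →+* ℂ) (U x.1 y.1)).subst Φ))
          ≤ ∑ σ : K →ₐ[ℚ] ℂ, ‖cf (x.2, y.2) σ‖ * Real.exp (Cp * (H + X)) := by
            refine Finset.sum_le_sum fun σ _ => ?_
            refine (cnrm_mul hR₀0 (CSm.C _)
              (((hcx (σ : K →+* ℂ) y.1).2 x.1).1 R₀ hR₀0 hR₀1)).trans ?_
            rw [cnrm_C]
            exact mul_le_mul_of_nonneg_left ((hcx (σ : K →+* ℂ) y.1).2 x.1).2 (norm_nonneg _)
        _ = (∑ σ : K →ₐ[ℚ] ℂ, ‖cf (x.2, y.2) σ‖) * Real.exp (Cp * (H + X)) :=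
            (Finset.sum_mul _ _ _).symm
        _ ≤ cb * Real.exp ((Cp + 1) * (H + X)) :=
            mul_le_mul (hcbx _) hpX (Real.exp_pos _).le (by linarith)
        _ ≤ Real.exp L := hcbL
  -- the conclusion
  have hres' : ∀ x y, PowerSeries.coeff 0 (Aps (Int.castRingHom ℚ) (D : ℚ)⁻¹ 1 A₁ x y) =
      if x = y then β' x else 0 := by
    intro x y
    have e1 := ccM_mul_diag hU'
    rw [hone, Matrix.mul_one, Matrix.one_mul] at e1
    have e2 := congrFun (congrFun e1 x) y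
    rw [ccM_apply, Matrix.diagonal_apply] at e2
    rw [PowerSeries.coeff_zero_eq_constantCoeff_apply]
    exact e2
  choose P hP0 hPM hPt hPk using fun x => hP x (j₁, y₁)
  obtain ⟨Q, hQ0, _, hQ⟩ := exact_alg (m := m + 1) hD (Nat.succ_le_succ (Nat.zero_le m))
    (fun x y => (natDegree_polyLM _ (hdeg _ _) _ _).trans (Nat.le_succ m)) (hU' (j₁, y₁)) hres'
    (fun x => hgap' _ _) hM₁0 hP0 hPM hPt (fun x => by
      rw [PowerSeries.X_pow_dvd_iff]
      intro k hk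
      refine hPk x k ?_
      rw [hT₁]
      have : k < 2 ^ M₁ * (M₁ ^ N * (m + 1 + ((M₁ + 1) * N + 1) * t) + 1) := hk
      omega) (i₁, x₁)
  have e9 : U' (i₁, x₁) (j₁, y₁) = LM b (U i₁ j₁) x₁ y₁ := by rw [hU'def, LMM_apply]
  rw [← e9]
  exact ⟨Q, hQ0, hQ⟩

/-- The effective criterion for all connections on the line without three points. -/
theorem eff_univ {n₀ : ℕ} (hn₀ : 0 < n₀) (m κ : ℕ) {S : Finset ℕ} (hS : ∀ p ∈ S, p.Prime)
    {E : Set ℕ} (hE : Summable (sparseTerm E)) {ℓ : ℕ → ℝ} (hℓ : ∀ p ∈ S, 0 ≤ ℓ p)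
    (hdef : defect κ S E ℓ < Real.log 16) (K : Type) [Field K] [NumberField K] (r : ℕ) :
    ∃ C : ℝ, ∀ (H : ℝ) (D : ℕ) (A : Matrix (Fin r) (Fin r) (Polynomial (𝓞 K))), 1 ≤ H →
      CuspClass n₀ m κ S ℓ H K D A →
      (∀ p : ℕ, p.Prime → (p : ℝ) ≤ C * H → p ∉ S → p ∉ E →
        (Ideal.span {(p : 𝓞 K)}).IsRadical ∧
        ∀ (𝔭 : Ideal (𝓞 K)) [𝔭.IsMaximal], (p : 𝓞 K) ∈ 𝔭 → PCurvZeroAt 𝔭 D 1 A) →
      FullAlgebraic (sysG (algebraMap (𝓞 K) K) D 1 A) := by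
  have h3 : Real.exp (defect κ S E ℓ) < 16 := by
    calc _ < Real.exp (Real.log 16) := Real.exp_lt_exp.mpr hdef
      _ = _ := Real.exp_log (by norm_num)
  obtain ⟨R, hR1, hR2⟩ := exists_between h3
  have hR0 : 0 < R := (Real.exp_pos _).trans hR1
  have hdef' : defect κ S E ℓ < Real.log R := by
    rw [← Real.log_exp (defect κ S E ℓ)]
    exact Real.log_lt_log (Real.exp_pos _) hR1
  obtain ⟨μ, hμ, hμ1, hμc⟩ := exists_lambdaC hR2
  obtain ⟨τ, hτ⟩ := exists_root hμ.ne hn₀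
  obtain ⟨C, hC⟩ := eff_abs hn₀ (m₁ := 1) one_pos m κ (T := μ) (T₂ := μ⁻¹) (τ := τ) (Q := 1)
    (Φ := PowerSeries.X * μ) (by rw [pow_one]) hμ.conv_inv hμ.mul_inv hτ CConv.one (map_one _)
    (by rw [one_mul]; exact CConv.X.mul hμ.conv) hR0 hμc.le K r
    (pull_univ hn₀ hμ hμ1 hτ m r) hS hE hℓ hdef'
  exact ⟨C, fun H D A hH hA hgood => hC H D A hH hA (fun _ => trivial) hgood⟩

/-- The effective criterion for the triangle orbifolds with a cusp. -/
theorem eff_tri {n₀ n₁ n₂ : ℕ} (hn₀ : 0 < n₀) (hn₁ : 0 < n₁) (hn₂ : 0 < n₂) (κ : ℕ)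
    {S : Finset ℕ} (hS : ∀ p ∈ S, p.Prime)
    {E : Set ℕ} (hE : Summable (sparseTerm E)) {ℓ : ℕ → ℝ} (hℓ : ∀ p ∈ S, 0 ≤ ℓ p)
    {R : ℝ} (hR : R = triRadius n₁ n₂ ∨ (0 < R ∧ CuspRadius n₁ n₂ R))
    (hdef : defect κ S E ℓ < Real.log R) (K : Type) [Field K] [NumberField K] (r : ℕ) :
    ∃ C : ℝ, ∀ (H : ℝ) (D : ℕ) (A : Matrix (Fin r) (Fin r) (Polynomial (𝓞 K))), 1 ≤ H →
      CuspClass n₀ 1 κ S ℓ H K D A → TriangleType D n₁ n₂ A →
      (∀ p : ℕ, p.Prime → (p : ℝ) ≤ C * H → p ∉ S → p ∉ E →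
        (Ideal.span {(p : 𝓞 K)}).IsRadical ∧
        ∀ (𝔭 : Ideal (𝓞 K)) [𝔭.IsMaximal], (p : 𝓞 K) ∈ 𝔭 → PCurvZeroAt 𝔭 D 1 A) →
      FullAlgebraic (sysG (algebraMap (𝓞 K) K) D 1 A) := by
  obtain ⟨R', hR'0, hR', hdef'⟩ : ∃ R' : ℝ, 0 < R' ∧ CuspRadius n₁ n₂ R' ∧
      defect κ S E ℓ < Real.log R' := by
    rcases hR with rfl | ⟨hR0, hR⟩
    · have hpos := triRadius_pos n₁ n₂
      have h3 : Real.exp (defect κ S E ℓ) < triRadius n₁ n₂ := by
        calc _ < Real.exp (Real.log (triRadius n₁ n₂)) := Real.exp_lt_exp.mpr hdef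
          _ = _ := Real.exp_log hpos
      obtain ⟨R', hR1, hR2⟩ := exists_between h3
      refine ⟨R', (Real.exp_pos _).trans hR1, cuspRadius_of_lt hn₁ hn₂ hR2, ?_⟩
      rw [← Real.log_exp (defect κ S E ℓ)]
      exact Real.log_lt_log (Real.exp_pos _) hR1
    · exact ⟨R, hR0, hR, hdef⟩
  obtain ⟨m₁, κ', v, s, ρ, hm, hv, hs, hρ, hv1, hs1, hrel, hRρ⟩ := hR'
  have hvn : PowerSeries.constantCoeff (v ^ n₂) ≠ 0 := by
    rw [map_pow, hv1, one_pow]; exact one_ne_zero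
  have hvv := PowerSeries.mul_inv_cancel (v ^ n₂) hvn
  have hcc : PowerSeries.constantCoeff (ρ * (v ^ n₂)⁻¹) = PowerSeries.constantCoeff ρ := by
    rw [map_mul, PowerSeries.constantCoeff_inv, map_pow, hv1, one_pow, inv_one, mul_one]
  obtain ⟨τ, hτ⟩ := exists_root (u := ρ * (v ^ n₂)⁻¹) (by rw [hcc]; exact hρ.ne) hn₀
  obtain ⟨C, hC⟩ := eff_abs hn₀ hm 1 κ (T := ρ * (v ^ n₂)⁻¹) (T₂ := v ^ n₂ * ρ⁻¹) (τ := τ)
    (Q := v ^ n₂) (Φ := PowerSeries.X ^ m₁ * (ρ * (v ^ n₂)⁻¹)) rfl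
    ((hv.pow _).mul hρ.conv_inv) (by
      have e2 := hρ.mul_inv
      linear_combination (v ^ n₂ * (v ^ n₂)⁻¹) * e2 + hvv) hτ (hv.pow _)
    (by rw [map_pow, hv1, one_pow]) (by
      have e1 : v ^ n₂ * (PowerSeries.X ^ m₁ * (ρ * (v ^ n₂)⁻¹)) = PowerSeries.X ^ m₁ * ρ := by
        linear_combination (PowerSeries.X ^ m₁ * ρ) * hvv
      rw [e1]
      exact (CConv.X.pow _).mul hρ.conv) hR'0 (by rw [hcc]; exact hRρ) K r
    (pull_tri hn₀ hn₁ hn₂ hm hv hs hρ hv1 hs1 hrel hτ r) hS hE hℓ hdef'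
  refine ⟨C, fun H D A hH hA hA' hgood => hC H D A hH hA (fun σ => ?_) hgood⟩
  obtain ⟨_, h1, h2⟩ := hA'
  constructor
  · have h6 := eigPoly_map (σ.comp (algebraMap (𝓞 K) K)).mapMatrix h1
    have h7 : (σ.comp (algebraMap (𝓞 K) K)).mapMatrix (A.map (Polynomial.eval 1)) =
        ((A.map (Polynomial.map (algebraMap (𝓞 K) K))).map (Polynomial.map σ)).map
          (Polynomial.eval 1) := by
      ext i j
      simp only [RingHom.mapMatrix_apply, Matrix.map_apply, RingHom.comp_apply]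
      rw [Polynomial.eval_one_map, Polynomial.eval_one_map]
    rw [← h7]
    exact h6
  · have h6 := eigPoly_map (σ.comp (algebraMap (𝓞 K) K)).mapMatrix h2
    have h7 : (σ.comp (algebraMap (𝓞 K) K)).mapMatrix (-(A.map fun a => a.coeff 1)) =
        -(((A.map (Polynomial.map (algebraMap (𝓞 K) K))).map (Polynomial.map σ)).map
          fun a => a.coeff 1) := by
      rw [map_neg]
      congr 1
      ext i j
      simp only [RingHom.mapMatrix_apply, Matrix.map_apply, Polynomial.coeff_map,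
        RingHom.comp_apply]
    rw [← h7]
    exact h6

end Pool.Agent.H925
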