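import Pool.Agent.H925.EffSmall
import Pool.Agent.H925.EffArch
import Pool.Agent.H925.Cusp

set_option autoImplicit false

open PowerSeries Finset

namespace Pool.Agent.H925

open Pool.Agent.Helper338PC (th coeff_th th_mul' th_add' th_sum' th_C th_one wg Aps IsSolG
  Aps_apply X_sub_one_mul_wg)

section init

/-- The value of the pull-back of a power series at a point near the origin. -/
lemma init_bound {n₀ : ℕ} (hn₀ : 0 < n₀) {Φ τ V ρ' : PowerSeries ℂ} (hV : CConv V)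
    (hρ' : CConv ρ') (hτ : V * τ ^ n₀ = ρ') {ρ : ℝ} (hρ0 : 0 < ρ) (hρ1 : ρ < 1)
    (hΦρ : CSm ρ Φ) (h0 : constantCoeff Φ = 0) (hΦ8 : cnrm ρ Φ ≤ 1 / 8) {z₁ : ℂ}
    (hz₁ : ‖z₁‖ ≤ ρ / 2) (hVz : ev V z₁ ≠ 0) : ∃ C₃ : ℝ, 1 ≤ C₃ ∧
    ∀ (j₀ : Fin n₀) (h : PowerSeries ℂ) (X : ℕ), (∀ k, ‖coeff k h‖ ≤ 2 ^ (X + k)) →
      CConv (τ ^ (j₀ : ℕ) * h.subst Φ) →
      ‖ev (τ ^ (j₀ : ℕ) * h.subst Φ) z₁‖ ≤ C₃ * (4 * 2 ^ X) := by
  set r₀ : ℝ := ρ / 2 with hr₀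
  have hr₀0 : 0 < r₀ := by positivity
  have hr₀1 : r₀ < 1 := by rw [hr₀]; linarith
  have hVz0 : 0 < ‖ev V z₁‖ := norm_pos_iff.mpr hVz
  obtain ⟨C₃, hC₃⟩ : ∃ x : ℝ, x = 1 + ∑ j : Fin n₀, ‖ev ρ' z₁‖ ^ (j : ℕ) /
    ‖ev V z₁‖ ^ (j : ℕ) := ⟨_, rfl⟩
  have hC₃1 : 1 ≤ C₃ := by
    rw [hC₃]
    have : 0 ≤ ∑ j : Fin n₀, ‖ev ρ' z₁‖ ^ (j : ℕ) / ‖ev V z₁‖ ^ (j : ℕ) :=
      Finset.sum_nonneg fun _ _ => by positivity
    linarith
  refine ⟨C₃, hC₃1, ?_⟩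
  intro j₀ h X hh hconv
  have h1 := coeff_subst_bound (h := h) (K := 2 ^ X) hρ0 hΦρ h0 hΦ8 (by positivity)
    (fun k => by rw [← pow_add]; exact hh k)
  obtain ⟨hF1, h3⟩ := csm_of_bound hρ0 h1 hr₀0.le (by rw [hr₀]; linarith)
  have hF2 : cnrm r₀ (h.subst Φ) ≤ 4 * 2 ^ X := by
    refine h3.trans (le_of_eq ?_)
    have h4 : r₀ / ρ = 1 / 2 := by rw [hr₀]; field_simp
    rw [h4]
    ring
  set g := τ ^ (j₀ : ℕ) * h.subst Φ with hg
  have e1 : V ^ (j₀ : ℕ) * g ^ n₀ = ρ' ^ (j₀ : ℕ) * (h.subst Φ) ^ n₀ := by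
    rw [hg, mul_pow, ← hτ, mul_pow, ← pow_mul, ← pow_mul, mul_comm n₀ (j₀ : ℕ)]
    ring
  have hgl : CSm r₀ g := hconv r₀ hr₀0 hr₀1
  have e3 : ev V z₁ ^ (j₀ : ℕ) * ev g z₁ ^ n₀ =
      ev ρ' z₁ ^ (j₀ : ℕ) * ev (h.subst Φ) z₁ ^ n₀ := by
    have e4 := congrArg (fun f => ev f z₁) e1
    have hVr := hV r₀ hr₀0 hr₀1
    have hρr := hρ' r₀ hr₀0 hr₀1
    rw [ev_mul (CSm.pow hr₀0 hVr _) (CSm.pow hr₀0 hgl _) hz₁, ev_pow hr₀0 hVr hz₁,
      ev_pow hr₀0 hgl hz₁, ev_mul (CSm.pow hr₀0 hρr _) (CSm.pow hr₀0 hF1 _) hz₁,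
      ev_pow hr₀0 hρr hz₁, ev_pow hr₀0 hF1 hz₁] at e4
    exact e4
  have e5 := congrArg norm e3
  rw [norm_mul, norm_mul, norm_pow, norm_pow, norm_pow, norm_pow] at e5
  have hFz : ‖ev (h.subst Φ) z₁‖ ≤ 4 * 2 ^ X := (norm_ev_le hF1 hz₁).trans hF2
  have e6 : ‖ev g z₁‖ ^ n₀ ≤ (C₃ * (4 * 2 ^ X)) ^ n₀ := by
    have e7 : ‖ev g z₁‖ ^ n₀ = ‖ev ρ' z₁‖ ^ (j₀ : ℕ) / ‖ev V z₁‖ ^ (j₀ : ℕ) *
        ‖ev (h.subst Φ) z₁‖ ^ n₀ := by
      rw [div_mul_eq_mul_div, eq_div_iff (by positivity), ← e5]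
      ring
    have e8 : ‖ev ρ' z₁‖ ^ (j₀ : ℕ) / ‖ev V z₁‖ ^ (j₀ : ℕ) ≤ C₃ := by
      rw [hC₃]
      have := Finset.single_le_sum (f := fun j : Fin n₀ =>
        ‖ev ρ' z₁‖ ^ (j : ℕ) / ‖ev V z₁‖ ^ (j : ℕ)) (fun _ _ => by positivity) (mem_univ j₀)
      linarith
    rw [e7, mul_pow]
    refine mul_le_mul (e8.trans (le_self_pow₀ hC₃1 hn₀.ne')) ?_ (by positivity) (by positivity)
    exact pow_le_pow_left₀ (norm_nonneg _) hFz n₀
  exact (pow_le_pow_iff_left₀ (norm_nonneg _) (by positivity) hn₀.ne').mp e6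

/-- A quantitative bound for the pull-back of the solutions of a differential system. -/
theorem pull_abs {n₀ : ℕ} (hn₀ : 0 < n₀) {Φ τ V V' ρ' θ : PowerSeries ℂ} (hV : CConv V)
    (hV0 : constantCoeff V ≠ 0) (hρ' : CConv ρ') (hτ : V * τ ^ n₀ = ρ') (hΦC : CConv (V * Φ))
    (h0 : constantCoeff Φ = 0) (hθ : CConv θ) (hθ0 : θ ≠ 0) {k : ℕ} (hV' : CConv V')
    (hθV : θ ^ k = V * V') {R₀ : ℝ}
    (hR₀ : 0 < R₀) (hR₀1 : R₀ < 1) : ∃ R₁ C : ℝ, R₀ < R₁ ∧ R₁ < 1 ∧ 0 < C ∧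
    ∀ (idx : Type) [Fintype idx] (j₀ : Fin n₀) (h : idx → PowerSeries ℂ)
      (B : idx → idx → PowerSeries ℂ) (b : ℝ) (X : ℕ),
      (∀ i, CConv (τ ^ (j₀ : ℕ) * (h i).subst Φ)) → (∀ i l, CConv (B i l)) →
      (∀ i, θ * th (τ ^ (j₀ : ℕ) * (h i).subst Φ) =
        ∑ l, B i l * (τ ^ (j₀ : ℕ) * (h l).subst Φ)) → 0 ≤ b →
      (∀ i l, cnrm R₁ (B i l) ≤ b) → (∀ i k, ‖coeff k (h i)‖ ≤ 2 ^ (X + k)) → ∀ i,
      cnrm R₀ (τ ^ (j₀ : ℕ) * (h i).subst Φ) ≤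
        Real.exp (C * (Fintype.card idx * b + X + 1)) := by
  classical
  -- a small disc
  obtain ⟨ρ₁, hρ₁0, hρ₁1, hρ₁⟩ := inv_csm hV hV0
  have hΦ₁ : CSm ρ₁ Φ := by
    have e1 : Φ = V * Φ * V⁻¹ := by
      have := PowerSeries.mul_inv_cancel V hV0
      linear_combination (-Φ) * this
    rw [e1]
    exact CSm.mul hρ₁0 (hΦC ρ₁ hρ₁0 hρ₁1) hρ₁
  set cΦ := cnrm ρ₁ Φ with hcΦ
  have hcΦ0 : 0 ≤ cΦ := cnrm_nonneg hρ₁0
  set ρ : ℝ := min (min ρ₁ R₀) (ρ₁ / (8 * (cΦ + 1))) with hρ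
  have hρ0 : 0 < ρ := lt_min (lt_min hρ₁0 hR₀) (by positivity)
  have hρle : ρ ≤ ρ₁ := (min_le_left _ _).trans (min_le_left _ _)
  have hρR : ρ ≤ R₀ := (min_le_left _ _).trans (min_le_right _ _)
  have hρ8 : ρ ≤ ρ₁ / (8 * (cΦ + 1)) := min_le_right _ _
  have hΦρ : CSm ρ Φ := hΦ₁.mono hρ0.le hρle
  have hΦ8 : cnrm ρ Φ ≤ 1 / 8 := by
    refine (cnrm_small hΦ₁ hρ0 hρle h0).trans ?_
    rw [← hcΦ]
    calc ρ / ρ₁ * cΦ ≤ (ρ₁ / (8 * (cΦ + 1))) / ρ₁ * cΦ := by gcongr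
      _ = cΦ / (8 * (cΦ + 1)) := by field_simp
      _ ≤ 1 / 8 := by
          rw [div_le_div_iff₀ (by positivity) (by norm_num)]
          linarith
  have hρ1 : ρ < 1 := hρle.trans_lt hρ₁1
  set r₀ : ℝ := ρ / 2 with hr₀
  have hr₀0 : 0 < r₀ := by positivity
  have hr₀R : r₀ < R₀ := by rw [hr₀]; linarith
  have hr₀1 : r₀ < 1 := hr₀R.trans hR₀1
  obtain ⟨R₁, C₁, z₁, hR₁0, hR₁1, hC₁, hz₁, hθz, harch⟩ := arch_transport hθ hθ0 hr₀0 hr₀R hR₀1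
  have hVz : ev V z₁ ≠ 0 := by
    intro h1
    apply pow_ne_zero k hθz
    rw [← ev_pow hr₀0 (hθ r₀ hr₀0 hr₀1) hz₁.le, hθV,
      ev_mul (hV r₀ hr₀0 hr₀1) (hV' r₀ hr₀0 hr₀1) hz₁.le, h1, zero_mul]
  obtain ⟨C₃, hC₃1, hC₃⟩ := init_bound hn₀ hV hρ' hτ hρ0 hρ1 hΦρ h0 hΦ8 hz₁.le hVz
  refine ⟨R₁, |Real.log (C₁ * (4 * C₃))| + 1 + C₁, hR₁0, hR₁1, by positivity, ?_⟩
  intro idx _ j₀ h B b X hconv hBC hsys hb hBb hh i
  have hfin := harch idx _ B b (C₃ * (4 * 2 ^ X)) hconv hBC hsys hb hBb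
    (by positivity) (fun l => hC₃ j₀ (h l) X (hh l) (hconv l)) i
  refine hfin.trans ?_
  have e1 : C₁ * (C₃ * (4 * 2 ^ X)) = C₁ * (4 * C₃) * 2 ^ X := by ring
  have e2 : C₁ * (4 * C₃) ≤ Real.exp |Real.log (C₁ * (4 * C₃))| := by
    have e3 : 0 < C₁ * (4 * C₃) := by positivity
    calc C₁ * (4 * C₃) = Real.exp (Real.log (C₁ * (4 * C₃))) := (Real.exp_log e3).symm
      _ ≤ _ := Real.exp_le_exp.mpr (le_abs_self _)
  have e3 : (2 : ℝ) ^ X ≤ Real.exp X := by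
    have e4 : (2 : ℝ) ≤ Real.exp 1 := by
      have := Real.add_one_le_exp (1 : ℝ)
      linarith
    calc (2 : ℝ) ^ X ≤ Real.exp 1 ^ X := pow_le_pow_left₀ (by norm_num) e4 X
      _ = Real.exp X := by rw [← Real.exp_nat_mul, mul_one]
  have hX0 : (0 : ℝ) ≤ X := Nat.cast_nonneg X
  set N : ℝ := (Fintype.card idx : ℝ) with hN
  have hN0 : 0 ≤ N := Nat.cast_nonneg _
  calc C₁ * (C₃ * (4 * 2 ^ X)) * Real.exp (C₁ * (N * b))
      ≤ Real.exp |Real.log (C₁ * (4 * C₃))| * Real.exp X * Real.exp (C₁ * (N * b)) := by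
        rw [e1]
        refine mul_le_mul_of_nonneg_right ?_ (Real.exp_pos _).le
        exact mul_le_mul e2 e3 (by positivity) (Real.exp_pos _).le
    _ = Real.exp (|Real.log (C₁ * (4 * C₃))| + X + C₁ * (N * b)) := by
        rw [Real.exp_add, Real.exp_add]
    _ ≤ Real.exp ((|Real.log (C₁ * (4 * C₃))| + 1 + C₁) * (N * b + X + 1)) := by
        apply Real.exp_le_exp.mpr
        have h1 : 0 ≤ |Real.log (C₁ * (4 * C₃))| := abs_nonneg _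
        have h2 : 0 ≤ N * b := by positivity
        have h4 : 0 ≤ C₁ * X := mul_nonneg hC₁.le hX0
        have h6 : 0 ≤ |Real.log (C₁ * (4 * C₃))| * X := mul_nonneg h1 hX0
        have h7 : 0 ≤ |Real.log (C₁ * (4 * C₃))| * (N * b) := mul_nonneg h1 h2
        nlinarith

end init

section univ

/-- The pull-back bound: the pull-backs of the solutions of the systems of a class converge in the
unit disc, and they are bounded exponentially in terms of the height. -/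
def PullBound (n₀ m r : ℕ) (P : ℕ → Matrix (Fin r) (Fin r) (Polynomial ℂ) → Prop)
    (τ Φ : PowerSeries ℂ) : Prop :=
  ∀ R₀ : ℝ, 0 < R₀ → R₀ < 1 → ∃ C : ℝ, 0 < C ∧
    ∀ (D : ℕ) (A : Matrix (Fin r) (Fin r) (Polynomial ℂ)) (j₀ : Fin n₀)
      (h : Fin r → PowerSeries ℂ) (H : ℝ) (X : ℕ), D ≠ 0 → P D A →
      IsSolG (Aps (RingHom.id ℂ) (D : ℂ)⁻¹ 1 A) ((j₀ : ℕ) / (n₀ : ℂ)) h →
      (∀ i j, (A i j).natDegree ≤ m) → (∀ i j k, ‖(A i j).coeff k‖ ≤ H * D) → 1 ≤ H →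
      (∀ i k, ‖coeff k (h i)‖ ≤ 2 ^ (X + k)) → ∀ i,
      CConv (τ ^ (j₀ : ℕ) * (h i).subst Φ) ∧
      cnrm R₀ (τ ^ (j₀ : ℕ) * (h i).subst Φ) ≤ Real.exp (C * (H + X))

lemma th_pow_of {τ T l : PowerSeries ℂ} {n₀ : ℕ} (hn₀ : 0 < n₀) (hτ : τ ^ n₀ = T)
    (hT0 : T ≠ 0) (hT : th T = l * T) (j : ℕ) :
    th (τ ^ j) = PowerSeries.C ((j : ℂ) / n₀) * l * τ ^ j := by
  have hn₀C : (n₀ : ℂ) ≠ 0 := by exact_mod_cast hn₀.ne'
  have hCnat : ∀ n : ℕ, (n : PowerSeries ℂ) = PowerSeries.C (n : ℂ) := fun n =>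
    (map_natCast _ n).symm
  have hτ0 : τ ≠ 0 := by
    rintro rfl
    rw [zero_pow hn₀.ne'] at hτ
    exact hT0 hτ.symm
  have hn₀P : (n₀ : PowerSeries ℂ) ≠ 0 := by
    rw [hCnat, Ne, map_eq_zero_iff _ PowerSeries.C_injective]
    exact hn₀C
  have e1 : (n₀ : PowerSeries ℂ) * th τ = l * τ := by
    have h1 := th_pow' τ n₀
    rw [hτ, hT] at h1
    apply mul_left_cancel₀ hT0
    linear_combination -h1
  have e2 := th_pow' τ j
  have e3 : (n₀ : PowerSeries ℂ) * PowerSeries.C ((j : ℂ) / n₀) = (j : PowerSeries ℂ) := by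
    rw [hCnat, hCnat, ← map_mul, mul_div_cancel₀ _ hn₀C]
  apply mul_left_cancel₀ (mul_ne_zero hn₀P hτ0)
  linear_combination (n₀ : PowerSeries ℂ) * e2 + ((j : PowerSeries ℂ) * τ ^ j) * e1 -
    (τ * l * τ ^ j) * e3

/-- The universal bound: all connections on the line without the three points. -/
theorem pull_univ {n₀ : ℕ} (hn₀ : 0 < n₀) {μ τ : PowerSeries ℂ} (hμ : CUU μ)
    (hμ1 : CUU (1 - PowerSeries.X * μ)) (hτ : τ ^ n₀ = μ) (m r : ℕ) :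
    PullBound n₀ m r (fun _ _ => True) τ (PowerSeries.X * μ) := by
  classical
  intro R₀ hR₀ hR₀1
  set Φ : PowerSeries ℂ := PowerSeries.X * μ with hΦ
  have hΦC : CConv Φ := CConv.X.mul hμ.conv
  have h0 : constantCoeff Φ = 0 := by
    rw [hΦ, map_mul, constantCoeff_X, zero_mul]
  have hsub : HasSubst Φ := HasSubst.of_constantCoeff_zero' h0
  have hμ0 : μ ≠ 0 := by
    rintro rfl
    exact hμ.ne (map_zero _)
  set l : PowerSeries ℂ := th μ * μ⁻¹ with hl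
  have hlC : CConv l := hμ.conv.th.mul hμ.conv_inv
  have hthμ : th μ = l * μ := by
    rw [hl]
    linear_combination (-(th μ)) * hμ.mul_inv
  set ig := (1 - Φ)⁻¹ with hig
  have hig1 : (1 - Φ) * ig = 1 := hμ1.mul_inv
  have higC : CConv ig := hμ1.conv_inv
  have hiw : (wg ℂ).subst Φ = -ig := by
    have h1 := subst_wgC hsub
    linear_combination (-ig) * h1 - ((wg ℂ).subst Φ) * hig1
  set aΦ : PowerSeries ℂ := 1 + l with haΦ
  have haC : CConv aΦ := CConv.one.add hlC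
  have hthΦ : th Φ = aΦ * Φ := by
    have h1 : th (PowerSeries.X : PowerSeries ℂ) = PowerSeries.X := by
      unfold Helper338PC.th
      rw [PowerSeries.derivative_X, mul_one]
    rw [hΦ, th_mul', h1, hthμ, haΦ]
    ring
  obtain ⟨R₁, C, hR₁0, hR₁1, hC0, hC⟩ := pull_abs hn₀ (V := 1) (V' := 1) (θ := 1) (k := 0)
    CConv.one (by rw [map_one]; exact one_ne_zero) hμ.conv (by rw [one_mul, hτ])
    (by rw [one_mul]; exact hΦC) h0 CConv.one one_ne_zero CConv.one (by rw [pow_zero, mul_one])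
    hR₀ hR₀1
  have hR₁pos : 0 < R₁ := hR₀.trans hR₁0
  obtain ⟨c₂, hc₂⟩ : ∃ x : ℝ, x = cnrm R₁ (aΦ * ig) := ⟨_, rfl⟩
  have hc₂0 : 0 ≤ c₂ := by
    rw [hc₂]
    exact cnrm_nonneg hR₁pos
  obtain ⟨c₃, hc₃⟩ : ∃ x : ℝ, x = ∑ k ∈ range (m + 1), cnrm R₁ (Φ ^ k) := ⟨_, rfl⟩
  have hc₃0 : 0 ≤ c₃ := by
    rw [hc₃]
    exact Finset.sum_nonneg fun _ _ => cnrm_nonneg hR₁pos
  refine ⟨C * (r * (1 + c₂ * c₃) + 1), by positivity, ?_⟩
  intro D A j₀ h H X hD _ hsol hdeg hH hH1 hh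
  have hDC : (D : ℂ) ≠ 0 := by exact_mod_cast hD
  have hD0 : (0 : ℝ) < D := by exact_mod_cast Nat.pos_of_ne_zero hD
  set dd : PowerSeries ℂ := PowerSeries.C ((D : ℂ)⁻¹) with hdd
  have hpol : ∀ p : Polynomial ℂ, CConv (Polynomial.aeval Φ p) := by
    intro p
    rw [Polynomial.aeval_eq_sum_range]
    refine CConv.sum _ fun k _ => ?_
    rw [PowerSeries.smul_eq_C_mul]
    exact (CConv.C _).mul (hΦC.pow _)
  set B : Fin r → Fin r → PowerSeries ℂ := fun i l => -(aΦ * ig * (dd *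
    Polynomial.aeval Φ (A i l))) - (if i = l then PowerSeries.C ((j₀ : ℕ) / (n₀ : ℂ)) else 0)
    with hB
  have hifC : ∀ i l : Fin r, CConv (if i = l then
      (PowerSeries.C ((j₀ : ℕ) / (n₀ : ℂ)) : PowerSeries ℂ) else 0) := by
    intro i l
    split_ifs
    · exact CConv.C _
    · exact CConv.zero
  have hBC1 : ∀ i l, CConv (aΦ * ig * (dd * Polynomial.aeval Φ (A i l))) := fun i l =>
    (haC.mul higC).mul ((CConv.C _).mul (hpol _))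
  have hBC : ∀ i l, CConv (B i l) := fun i l => (hBC1 i l).neg.sub (hifC i l)
  have hsys : ∀ i, th (τ ^ (j₀ : ℕ) * (h i).subst Φ) =
      ∑ l, B i l * (τ ^ (j₀ : ℕ) * (h l).subst Φ) := by
    intro i
    have e1 : th ((h i).subst Φ) = aΦ * ((∑ l, -(dd * ig * Polynomial.aeval Φ (A i l) *
        (h l).subst Φ)) - PowerSeries.C ((j₀ : ℕ) / (n₀ : ℂ)) * (h i).subst Φ) := by
      rw [th_substC h0 hthΦ, hsol i, subst_sub hsub, subst_mul hsub, subst_CC, subst_sumC hsub]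
      congr 2
      refine Finset.sum_congr rfl fun l _ => ?_
      rw [subst_mul hsub, Aps_apply, pow_one, Polynomial.map_id, subst_mul hsub, subst_mul hsub,
        subst_CC, subst_coe hsub, hiw]
      ring
    have e2 := th_pow_of hn₀ hτ hμ0 hthμ (j₀ : ℕ)
    have e3 : ∑ l, B i l * (τ ^ (j₀ : ℕ) * (h l).subst Φ) = τ ^ (j₀ : ℕ) * aΦ *
        (∑ l, -(dd * ig * Polynomial.aeval Φ (A i l) * (h l).subst Φ)) -
        PowerSeries.C ((j₀ : ℕ) / (n₀ : ℂ)) * (τ ^ (j₀ : ℕ) * (h i).subst Φ) := by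
      rw [hB]
      simp only [sub_mul, Finset.sum_sub_distrib, ite_mul, zero_mul, Finset.sum_ite_eq,
        mem_univ, if_true]
      congr 1
      rw [Finset.mul_sum]
      exact Finset.sum_congr rfl fun l _ => by ring
    rw [e3, th_mul', e1, e2, haΦ]
    ring
  have hconv : ∀ i, CConv (τ ^ (j₀ : ℕ) * (h i).subst Φ) :=
    cconv_of_system (M := B) hBC hsys
  intro i
  refine ⟨hconv i, ?_⟩
  have hβ : ‖((j₀ : ℕ) / (n₀ : ℂ))‖ ≤ 1 := by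
    have hn₀R : (0 : ℝ) < n₀ := by exact_mod_cast hn₀
    rw [norm_div, Complex.norm_natCast, Complex.norm_natCast, div_le_one hn₀R]
    exact_mod_cast j₀.2.le
  have hBb : ∀ i l, cnrm R₁ (B i l) ≤ (1 + c₂ * c₃) * H := by
    intro i l
    have e1 : cnrm R₁ (dd * Polynomial.aeval Φ (A i l)) ≤ H * c₃ := by
      refine (cnrm_mul hR₁pos (CSm.C _) (hpol _ R₁ hR₁pos hR₁1)).trans ?_
      rw [cnrm_C, norm_inv, Complex.norm_natCast]
      have e2 : cnrm R₁ (Polynomial.aeval Φ (A i l)) ≤ (H * D) * c₃ := by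
        rw [Polynomial.aeval_eq_sum_range' (n := m + 1) (by have := hdeg i l; omega), hc₃,
          Finset.mul_sum]
        refine (cnrm_sum hR₁pos _ fun k _ => ?_).trans (Finset.sum_le_sum fun k _ => ?_)
        · rw [PowerSeries.smul_eq_C_mul]
          exact ((CConv.C _).mul (hΦC.pow _)) R₁ hR₁pos hR₁1
        · rw [PowerSeries.smul_eq_C_mul]
          refine (cnrm_mul hR₁pos (CSm.C _) ((hΦC.pow _) R₁ hR₁pos hR₁1)).trans ?_
          rw [cnrm_C]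
          exact mul_le_mul_of_nonneg_right (hH i l k) (cnrm_nonneg hR₁pos)
      calc (D : ℝ)⁻¹ * cnrm R₁ (Polynomial.aeval Φ (A i l))
          ≤ (D : ℝ)⁻¹ * ((H * D) * c₃) := mul_le_mul_of_nonneg_left e2 (by positivity)
        _ = H * c₃ := by field_simp
    have e2 : cnrm R₁ (aΦ * ig * (dd * Polynomial.aeval Φ (A i l))) ≤ c₂ * (H * c₃) := by
      refine (cnrm_mul hR₁pos ((haC.mul higC) R₁ hR₁pos hR₁1) (((CConv.C _).mul
        (hpol _)) R₁ hR₁pos hR₁1)).trans ?_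
      rw [← hc₂]
      exact mul_le_mul_of_nonneg_left e1 hc₂0
    have e3 : cnrm R₁ (if i = l then (PowerSeries.C ((j₀ : ℕ) / (n₀ : ℂ)) : PowerSeries ℂ)
        else 0) ≤ 1 := by
      split_ifs
      · rw [cnrm_C]
        exact hβ
      · have : cnrm R₁ (0 : PowerSeries ℂ) = 0 := by
          rw [← map_zero (PowerSeries.C (R := ℂ)), cnrm_C, norm_zero]
        rw [this]
        exact zero_le_one
    have hneg : ∀ f : PowerSeries ℂ, cnrm R₁ (-f) = cnrm R₁ f := by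
      intro f
      unfold cnrm
      exact tsum_congr fun n => by rw [map_neg, norm_neg]
    have e4 : cnrm R₁ (B i l) ≤ cnrm R₁ (aΦ * ig * (dd * Polynomial.aeval Φ (A i l))) +
        cnrm R₁ (if i = l then (PowerSeries.C ((j₀ : ℕ) / (n₀ : ℂ)) : PowerSeries ℂ) else 0) := by
      have h6 := cnrm_add hR₁pos ((hBC1 i l).neg R₁ hR₁pos hR₁1)
        ((hifC i l).neg R₁ hR₁pos hR₁1)
      rw [← sub_eq_add_neg, hneg, hneg] at h6
      exact h6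
    calc cnrm R₁ (B i l) ≤ c₂ * (H * c₃) + 1 := e4.trans (add_le_add e2 e3)
      _ ≤ c₂ * (H * c₃) + H := by linarith
      _ = _ := by ring
  have hH0 : 0 < H := by linarith
  have hfin := hC (Fin r) j₀ h B ((1 + c₂ * c₃) * H) X hconv hBC
    (fun i => by rw [one_mul]; exact hsys i) (by positivity) hBb hh i
  refine hfin.trans (Real.exp_le_exp.mpr ?_)
  rw [Fintype.card_fin]
  have hX0 : (0 : ℝ) ≤ X := Nat.cast_nonneg X
  have h5 : 0 ≤ (r : ℝ) * (1 + c₂ * c₃) * X := by positivity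
  calc C * (r * ((1 + c₂ * c₃) * H) + X + 1)
      ≤ C * ((r * (1 + c₂ * c₃) + 1) * (H + X)) := by
        refine mul_le_mul_of_nonneg_left ?_ hC0.le
        nlinarith
    _ = _ := by ring

end univ

end Pool.Agent.H925
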