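import Pool.Agent.H925.Good
import Pool.Graph.R_pool_sql_team_seeded_620a6dc7.Helper338PC.GExpl

set_option autoImplicit false

open Finset

namespace Pool.Agent.H925

open Pool.Agent.Helper338PC

open Classical in
/-- Common denominators of the powers of a power series from local bounds for the coefficients up
to `n`, with a constant which does not depend on the power series or on `n`. -/
theorem den_unif {S : Finset ℕ} (hS : ∀ p ∈ S, p.Prime)
    {E : Set ℕ} (hE : Summable (sparseTerm E)) {α : ℕ → ℝ}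
    (hα : ∀ p, 0 ≤ α p) (κ m0 : ℕ) (hm0 : 0 < m0) (c : ℕ → ℕ) (hc : ∀ p, p ∉ S → c p = 0)
    {L0 Λ : ℝ} (hL : ∀ T : Finset ℕ, (∀ p ∈ T, p.Prime) → ∑ p ∈ T, α p * Real.log p ≤ L0)
    (hΛ : Real.exp L0 < Λ) (k : ℕ) :
    ∃ K : ℝ, ∀ (f : PowerSeries ℚ) (n : ℕ),
      (∀ (p : ℕ) [Fact p.Prime], ∀ s ≤ n,
        ‖((PowerSeries.coeff s f : ℚ) : ℚ_[p])‖ ≤
          ((p : ℝ) ^ (α p)) ^ s * (p : ℝ) ^ (κ * Nat.log p (m0 * (n + 1)) + c p)) →
      (∀ (p : ℕ) [Fact p.Prime], p ∉ S → (p ∈ E → m0 * (n + 1) < p) →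
        m0 * (n + 1) < p ^ 2 → ∀ s ≤ n, ‖((PowerSeries.coeff s f : ℚ) : ℚ_[p])‖ ≤ 1) →
      ∃ d : ℕ, 0 < d ∧ (d : ℝ) ≤ K * Λ ^ n ∧
        ∀ m ≤ k, ∀ s ≤ n, ∃ z : ℤ, (d : ℚ) * PowerSeries.coeff s (f ^ m) = z := by
  classical
  have hΛ0 : 0 < Λ := (Real.exp_pos _).trans hΛ
  set δ : ℝ := Real.log Λ - L0 with hδ
  have hδ0 : 0 < δ := by
    have := Real.log_lt_log (Real.exp_pos _) hΛ
    rw [Real.log_exp] at this
    rw [hδ]; linarith
  set δ₁ : ℝ := δ / (2 * (k * κ + 1) * m0) with hδ₁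
  have hm0' : (0 : ℝ) < m0 := by exact_mod_cast hm0
  have hδ₁0 : 0 < δ₁ := by positivity
  obtain ⟨M, hM⟩ := sparse_count hE hδ₁0
  obtain ⟨K, hK⟩ := small_error ((k : ℝ) * κ * (S.card + 2 + M)) (by positivity) m0 hm0
    (half_pos hδ0)
  set Kc : ℝ := ∑ p ∈ S, (k : ℝ) * c p * Real.log p with hKc
  refine ⟨Real.exp (K + δ / 2 + Kc), fun f n hbd hgood => ?_⟩
  set X : ℕ := m0 * (n + 1) with hX
  have hX1 : 1 ≤ X := Nat.mul_pos hm0 (Nat.succ_pos n)
  set F : Finset ℕ := (range (X + 1)).filter fun p => p.Prime ∧ p ∈ E ∧ Nat.sqrt X < p with hF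
  set T : Finset ℕ := (S ∪ F) ∪ ((range (Nat.sqrt X + 1)).filter Nat.Prime) with hT
  have hTp : ∀ p ∈ T, p.Prime := by
    intro p hp
    rw [hT, Finset.mem_union, Finset.mem_filter, Finset.mem_union, hF, Finset.mem_filter] at hp
    rcases hp with (hp | hp) | hp
    · exact hS p hp
    · exact hp.2.1
    · exact hp.2
  set e : ℕ → ℝ := fun p => n * α p + k * ((κ * Nat.log p X + c p : ℕ) : ℝ) with he
  have he0 : ∀ p, 0 ≤ e p := fun p => by
    have := hα p
    rw [he]; positivity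
  set d : ℕ := ∏ p ∈ T, p ^ ⌊e p⌋₊ with hd
  have hd0 : 0 < d := Finset.prod_pos fun p hp => pow_pos (hTp p hp).pos _
  refine ⟨d, hd0, ?_, ?_⟩
  · -- the size of `d`
    have h1 : (d : ℝ) ≤ Real.exp (∑ p ∈ T, e p * Real.log p) := by
      rw [Real.exp_sum, hd, Nat.cast_prod]
      refine Finset.prod_le_prod (fun p _ => by positivity) fun p hp => ?_
      have hp0 : (0 : ℝ) < p := by exact_mod_cast (hTp p hp).pos
      have hp1 : (1 : ℝ) ≤ p := by exact_mod_cast (hTp p hp).one_lt.le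
      rw [Nat.cast_pow, mul_comm, ← Real.rpow_def_of_pos hp0, ← Real.rpow_natCast]
      exact Real.rpow_le_rpow_of_exponent_le hp1 (Nat.floor_le (he0 p))
    refine h1.trans ?_
    have h2 : ∑ p ∈ T, e p * Real.log p =
        n * ∑ p ∈ T, α p * Real.log p + ∑ p ∈ T, k * ((κ * Nat.log p X : ℕ) : ℝ) * Real.log p +
          Kc := by
      have h20 : Kc = ∑ p ∈ T, (k : ℝ) * c p * Real.log p := by
        rw [hKc]
        refine Finset.sum_subset ((Finset.subset_union_left (s₂ := F)).trans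
          Finset.subset_union_left) fun p _ hp => ?_
        rw [hc p hp]
        simp
      rw [h20, Finset.mul_sum, ← Finset.sum_add_distrib, ← Finset.sum_add_distrib]
      exact Finset.sum_congr rfl fun p _ => by rw [he]; push_cast; ring
    have hlogX : 0 ≤ Real.log X := Real.log_nonneg (by exact_mod_cast hX1)
    have h3 : ∀ p ∈ T, (k : ℝ) * ((κ * Nat.log p X : ℕ) : ℝ) * Real.log p ≤
        k * κ * Real.log X := by
      intro p hp
      have h4 : ((Nat.log p X : ℕ) : ℝ) * Real.log p ≤ Real.log X := by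
        rw [← Real.log_pow]
        have h5 : p ^ Nat.log p X ≤ X := Nat.pow_log_le_self p (by omega)
        refine Real.log_le_log (by have := (hTp p hp).pos; positivity) (by exact_mod_cast h5)
      calc (k : ℝ) * ((κ * Nat.log p X : ℕ) : ℝ) * Real.log p
          = k * κ * (((Nat.log p X : ℕ) : ℝ) * Real.log p) := by push_cast; ring
        _ ≤ _ := mul_le_mul_of_nonneg_left h4 (by positivity)
    have h4 : ∑ p ∈ T, (k : ℝ) * ((κ * Nat.log p X : ℕ) : ℝ) * Real.log p ≤
        T.card * (k * κ * Real.log X) := by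
      refine (Finset.sum_le_sum h3).trans (le_of_eq ?_)
      rw [Finset.sum_const, nsmul_eq_mul]
    have h5 : (T.card : ℝ) ≤ (S.card + 2) * Real.sqrt X + F.card := by
      have h6 : T.card ≤ (S.card + F.card) + (Nat.sqrt X + 1) := by
        refine (Finset.card_union_le _ _).trans (Nat.add_le_add (Finset.card_union_le _ _)
          ((Finset.card_filter_le _ _).trans ?_))
        rw [card_range]
      have h7 : ((Nat.sqrt X : ℕ) : ℝ) ≤ Real.sqrt X := Real.nat_sqrt_le_real_sqrt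
      have h8 : (1 : ℝ) ≤ Real.sqrt X := by
        rw [Real.one_le_sqrt]
        exact_mod_cast hX1
      have h9 : (T.card : ℝ) ≤ (S.card + F.card) + (Nat.sqrt X + 1) := by exact_mod_cast h6
      have h10 : (0 : ℝ) ≤ S.card := by positivity
      nlinarith
    have hMX := hM X hX1
    rw [← hF] at hMX
    have hXn : (X : ℝ) = m0 * (n + 1) := by rw [hX]; push_cast; ring
    have h6 : (T.card : ℝ) * (k * κ * Real.log X) ≤
        ((k : ℝ) * κ * (S.card + 2 + M)) * (Real.sqrt X * Real.log X) + δ / 2 * (n + 1) := by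
      calc (T.card : ℝ) * (k * κ * Real.log X)
          ≤ ((S.card + 2) * Real.sqrt X + F.card) * (k * κ * Real.log X) :=
            mul_le_mul_of_nonneg_right h5 (by positivity)
        _ = (k * κ) * ((S.card + 2) * (Real.sqrt X * Real.log X)) +
              (k * κ) * (F.card * Real.log X) := by ring
        _ ≤ (k * κ) * ((S.card + 2) * (Real.sqrt X * Real.log X)) +
              (k * κ) * (M * (Real.sqrt X * Real.log X) + δ₁ * X) := by
            have := mul_le_mul_of_nonneg_left hMX (a := (k : ℝ) * κ) (by positivity)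
            linarith
        _ = ((k : ℝ) * κ * (S.card + 2 + M)) * (Real.sqrt X * Real.log X) +
              (k * κ) * (δ₁ * X) := by ring
        _ ≤ _ := by
            have h7 : (k : ℝ) * κ * (δ₁ * X) ≤ δ / 2 * (n + 1) := by
              have h8 : (k : ℝ) * κ * (δ₁ * X) ≤ (k * κ + 1) * (δ₁ * X) :=
                mul_le_mul_of_nonneg_right (by linarith) (by positivity)
              have h9 : ((k : ℝ) * κ + 1) * (δ₁ * X) = δ / 2 * (n + 1) := by
                rw [hδ₁, hXn]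
                field_simp
              linarith
            linarith
    have h7 := hK n
    have h8 := hL T hTp
    have h9 : Real.exp (K + δ / 2 + Kc) * Λ ^ n =
        Real.exp (K + δ / 2 + Kc + n * Real.log Λ) := by
      rw [Real.exp_add (K + δ / 2 + Kc), ← Real.log_pow, Real.exp_log (by positivity)]
    rw [h9, h2]
    apply Real.exp_le_exp.mpr
    have h10 : (n : ℝ) * ∑ p ∈ T, α p * Real.log p ≤ n * L0 :=
      mul_le_mul_of_nonneg_left h8 (by positivity)
    have h11 : δ * n = n * Real.log Λ - n * L0 := by rw [hδ]; ring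
    linarith
  · -- integrality
    intro m hm s hs
    apply int_of_padic
    intro p hp
    rw [Rat.cast_mul, Rat.cast_natCast, norm_mul]
    have hcoe : ∀ t : ℕ, ((PowerSeries.coeff t (f ^ m) : ℚ) : ℚ_[p]) =
        PowerSeries.coeff t ((PowerSeries.map (Rat.castHom ℚ_[p]) f) ^ m) := by
      intro t
      rw [← map_pow, PowerSeries.coeff_map]
      rfl
    have hcoe1 : ∀ t : ℕ, PowerSeries.coeff t (PowerSeries.map (Rat.castHom ℚ_[p]) f) =
        ((PowerSeries.coeff t f : ℚ) : ℚ_[p]) := by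
      intro t
      rw [PowerSeries.coeff_map]
      rfl
    have hp1 : (1 : ℝ) ≤ p := by exact_mod_cast hp.out.one_lt.le
    have hp0 : (0 : ℝ) < p := by linarith
    by_cases hpT : p ∈ T
    · have h1 := ultra_pow (f := PowerSeries.map (Rat.castHom ℚ_[p]) f) (x := (p : ℝ) ^ (α p))
        (y := (p : ℝ) ^ (κ * Nat.log p X + c p)) (by positivity) (one_le_pow₀ hp1) (n := n)
        (fun t ht => by rw [hcoe1]; exact hbd p t ht) m s hs
      rw [← hcoe] at h1
      have h2 : ((p : ℝ) ^ (α p)) ^ s * ((p : ℝ) ^ (κ * Nat.log p X + c p)) ^ m ≤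
          (p : ℝ) ^ (e p) := by
        rw [← Real.rpow_natCast ((p : ℝ) ^ (α p)) s, ← Real.rpow_mul hp0.le, ← pow_mul,
          ← Real.rpow_natCast (p : ℝ) ((κ * Nat.log p X + c p) * m), ← Real.rpow_add hp0]
        apply Real.rpow_le_rpow_of_exponent_le hp1
        rw [he]
        have h3 : α p * (s : ℝ) ≤ n * α p := by
          rw [mul_comm]
          exact mul_le_mul_of_nonneg_right (by exact_mod_cast hs) (hα p)
        have h4 : (((κ * Nat.log p X + c p) * m : ℕ) : ℝ) ≤
            k * ((κ * Nat.log p X + c p : ℕ) : ℝ) := by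
          rw [mul_comm (k : ℝ)]
          exact_mod_cast Nat.mul_le_mul_left _ hm
        linarith
      have h3 : ‖((d : ℕ) : ℚ_[p])‖ ≤ (p : ℝ) ^ (-(⌊e p⌋₊ : ℤ)) := by
        have h4 : (p ^ ⌊e p⌋₊ : ℕ) ∣ d := Finset.dvd_prod_of_mem (fun p => p ^ ⌊e p⌋₊) hpT
        have h5 := (Padic.norm_int_le_pow_iff_dvd (p := p) (d : ℤ) ⌊e p⌋₊).mpr (by exact_mod_cast h4)
        simpa using h5
      have h4 : ‖((d : ℕ) : ℚ_[p])‖ * ‖((PowerSeries.coeff s (f ^ m) : ℚ) : ℚ_[p])‖ < p := by
        have h5 : (p : ℝ) ^ (e p) < (p : ℝ) ^ (⌊e p⌋₊ + 1 : ℕ) := by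
          rw [← Real.rpow_natCast]
          apply Real.rpow_lt_rpow_of_exponent_lt
          · exact_mod_cast hp.out.one_lt
          · push_cast
            exact Nat.lt_floor_add_one _
        calc ‖((d : ℕ) : ℚ_[p])‖ * ‖((PowerSeries.coeff s (f ^ m) : ℚ) : ℚ_[p])‖
            ≤ (p : ℝ) ^ (-(⌊e p⌋₊ : ℤ)) * (p : ℝ) ^ (e p) :=
              mul_le_mul h3 (h1.trans h2) (norm_nonneg _) (by positivity)
          _ < (p : ℝ) ^ (-(⌊e p⌋₊ : ℤ)) * (p : ℝ) ^ (⌊e p⌋₊ + 1 : ℕ) :=
              mul_lt_mul_of_pos_left h5 (by positivity)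
          _ = p := by
              rw [pow_succ, ← mul_assoc, zpow_neg, zpow_natCast,
                inv_mul_cancel₀ (by positivity), one_mul]
      rw [← norm_mul] at h4 ⊢
      exact norm_le_of_lt h4
    · have hnS : p ∉ S := fun h => hpT (by
        rw [hT]; exact Finset.mem_union_left _ (Finset.mem_union_left _ h))
      have hlt : m0 * (n + 1) < p ^ 2 := by
        by_contra hcon
        push Not at hcon
        apply hpT
        rw [hT, Finset.mem_union, Finset.mem_filter, mem_range, Nat.lt_succ_iff]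
        right
        exact ⟨Nat.le_sqrt.mpr (by rw [← pow_two]; exact hcon), hp.out⟩
      have hltE : p ∈ E → m0 * (n + 1) < p := by
        intro hpE
        by_contra hcon
        push Not at hcon
        apply hpT
        rw [hT, Finset.mem_union, Finset.mem_union, hF, Finset.mem_filter, mem_range]
        left; right
        refine ⟨Nat.lt_succ_of_le hcon, hp.out, hpE, ?_⟩
        rw [Nat.sqrt_lt, ← pow_two]
        exact hlt
      have h1 := ultra_pow (f := PowerSeries.map (Rat.castHom ℚ_[p]) f) (x := 1) (y := 1)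
        zero_le_one le_rfl (n := n)
        (fun t ht => by rw [hcoe1, one_pow, one_mul]; exact hgood p hnS hltE hlt t ht) m s hs
      rw [← hcoe, one_pow, one_pow, one_mul] at h1
      have h2 : ‖((d : ℕ) : ℚ_[p])‖ ≤ 1 := by
        have := Padic.norm_int_le_one (p := p) (d : ℤ)
        simpa using this
      exact mul_le_one₀ h2 (norm_nonneg _) h1


section local_bounds

variable {idx : Type*} [Fintype idx] [DecidableEq idx]

/-- The bound at a prime of `S`, for a fundamental matrix with the initial value one. -/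
theorem gexp_one {A : Matrix idx idx (PowerSeries ℚ)} {β : idx → ℚ}
    {U : Matrix idx idx (PowerSeries ℚ)} (hgap : ∀ i j, |β i - β j| < 1) (hone : ccM U = 1)
    (hU : ∀ j, IsSolG A (β j) (fun i => U i j)) {p : ℕ} [hp : Fact p.Prime]
    {e : ℕ} (he : ∀ (s : ℕ) (j l : idx), s ≠ 0 →
      ‖((PowerSeries.coeff s (A j l) : ℚ) : ℚ_[p])‖ ≤ (p : ℝ) ^ e)
    (i : idx) (s : ℕ) (j : idx) : ‖((PowerSeries.coeff s (U j i) : ℚ) : ℚ_[p])‖ ≤
      ∏ σ ∈ range s, omegaf p 0 e (Gset β i p) (σ + 1) := by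
  classical
  have hdiag : ccM A = Matrix.diagonal β := by
    have h1 := ccM_mul_diag hU
    rw [hone] at h1
    simpa using h1
  have hsol := hU i
  have hH0 : ∀ j, PowerSeries.coeff 0 (U j i) = if j = i then 1 else 0 := by
    intro j
    have h2 := congrFun (congrFun hone j) i
    rw [ccM_apply, Matrix.one_apply] at h2
    rw [PowerSeries.coeff_zero_eq_constantCoeff_apply, h2]
  have hrec : ∀ (s : ℕ) (j : idx), ((s : ℚ) + β i - β j) * PowerSeries.coeff s (U j i) =
      ∑ v ∈ range s, ∑ l, PowerSeries.coeff (s - v) (A j l) * PowerSeries.coeff v (U l i) := by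
    intro s j
    have h1 := hsol.rec s j
    rw [Finset.sum_comm]
    rw [← h1]
    have h2 : ∀ l, PowerSeries.coeff 0 (A j l) * PowerSeries.coeff s (U l i) =
        if j = l then β j * PowerSeries.coeff s (U l i) else 0 := by
      intro l
      have h3 := congrFun (congrFun hdiag j) l
      rw [ccM_apply, Matrix.diagonal_apply] at h3
      rw [PowerSeries.coeff_zero_eq_constantCoeff_apply, h3]
      split_ifs <;> simp
    rw [Finset.sum_congr rfl fun l _ => h2 l, Finset.sum_ite_eq, if_pos (mem_univ j)]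
    ring
  refine ultra_rec (K := ℚ_[p]) (v := fun s j => ((PowerSeries.coeff s (U j i) : ℚ) : ℚ_[p]))
    (δ := fun s j => (((s : ℚ) + β i - β j : ℚ) : ℚ_[p]))
    (N := fun s k j l => if k < s then
      ((PowerSeries.coeff (s - k) (A j l) : ℚ) : ℚ_[p]) else 0)
    (ω := omegaf p 0 e (Gset β i p)) (fun s => one_le_omegaf hp.out _ _ _ _) ?_ ?_ ?_ ?_ s j
  · intro j
    rw [hH0 j]
    split_ifs <;> simp
  · intro s j hs
    have := gap_ne hgap hs i j
    exact_mod_cast this
  · intro s j _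
    have h1 := congrArg (fun t : ℚ => (t : ℚ_[p])) (hrec s j)
    simp only [Rat.cast_mul, Rat.cast_sum] at h1
    rw [h1]
    refine Finset.sum_congr rfl fun k hk => Finset.sum_congr rfl fun l _ => ?_
    rw [if_pos (mem_range.mp hk)]
  · intro s k j l hs
    have hp1 : (1 : ℝ) < p := by exact_mod_cast hp.out.one_lt
    have h2 := omegaf_mul_norm (p := p) (i₀ := 0) (d := e) (by norm_num)
      (G := Gset β i p) (γ := β i - β j) (hgap i j) mem_Gset hs
    have h3 : (((s : ℚ) + β i - β j : ℚ) : ℚ_[p]) =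
        (s : ℚ_[p]) + ((β i - β j : ℚ) : ℚ_[p]) := by
      push_cast; ring
    rw [h3]
    rw [Nat.cast_zero, sub_zero, zpow_natCast] at h2
    refine le_trans ?_ h2
    split_ifs with hk
    · exact he (s - k) j l (by omega)
    · rw [norm_zero]
      positivity

end local_bounds

section dmax

lemma den_div_le {a b : ℕ} {n₀ : ℕ} (hn₀ : 0 < n₀) :
    (((a : ℚ) / n₀ - (b : ℚ) / n₀) : ℚ).den ≤ n₀ := by
  have h1 : ((a : ℚ) / n₀ - (b : ℚ) / n₀) = (((a : ℤ) - (b : ℤ) : ℤ) : ℚ) / ((n₀ : ℤ) : ℚ) := by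
    push_cast
    ring
  rw [h1]
  have h2 := Rat.den_dvd ((a : ℤ) - (b : ℤ)) (n₀ : ℤ)
  have h3 := Int.le_of_dvd (by exact_mod_cast hn₀) h2
  exact_mod_cast h3

lemma dmax_le {idx : Type*} [Fintype idx] {n₀ : ℕ} (hn₀ : 0 < n₀) (jj : idx → Fin n₀) :
    dmax (fun i => ((jj i : ℕ) : ℚ) / n₀) ≤ 1 + Fintype.card idx * (Fintype.card idx * n₀) := by
  unfold dmax
  refine Nat.add_le_add_left ?_ 1
  calc ∑ i : idx, ∑ j : idx, (((jj i : ℕ) : ℚ) / n₀ - ((jj j : ℕ) : ℚ) / n₀).den
      ≤ ∑ _i : idx, ∑ _j : idx, n₀ :=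
        Finset.sum_le_sum fun i _ => Finset.sum_le_sum fun j _ => den_div_le hn₀
    _ = _ := by simp [Finset.sum_const, Finset.card_univ]

end dmax

section eff

/-- Common denominators of the powers of the entries of the fundamental matrices, if the
`p`-curvatures vanish for the primes `p ≤ m₀ (n + 1)`. -/
theorem eff_den {κ : ℕ} {S : Finset ℕ} (hS : ∀ p ∈ S, p.Prime) {E : Set ℕ}
    (hE : Summable (sparseTerm E)) {ℓ : ℕ → ℝ} (hℓ : ∀ p, 0 ≤ ℓ p) {Λ : ℝ}
    (hΛ : Real.exp (defect κ S E ℓ) < Λ) {n₀ : ℕ} (hn₀ : 0 < n₀) (N k : ℕ) : ∃ K : ℝ,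
    ∀ (idx : Type) [Fintype idx] [DecidableEq idx] (A₁ : Matrix idx idx (Polynomial ℤ)) (D : ℕ)
      (jj : idx → Fin n₀) (U : Matrix idx idx (PowerSeries ℚ)), Fintype.card idx = N → D ≠ 0 →
      ccM U = 1 →
      (∀ j, IsSolG (Aps (Int.castRingHom ℚ) (D : ℚ)⁻¹ 1 A₁) (((jj j : ℕ) : ℚ) / n₀)
        (fun i => U i j)) →
      (∀ p, p.Prime → p ∣ D → p ∈ S) → numExp (fun i => ((jj i : ℕ) : ℚ) / n₀) ≤ κ →
      (∀ (p : ℕ) [Fact p.Prime], p ∈ S → ∃ e : ℕ,
        (e : ℝ) + numClass (fun i => ((jj i : ℕ) : ℚ) / n₀) p / ((p : ℝ) - 1) ≤ ℓ p ∧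
        ∀ (s : ℕ) (j l : idx), s ≠ 0 →
          ‖((PowerSeries.coeff s (Aps (Int.castRingHom ℚ) (D : ℚ)⁻¹ 1 A₁ j l) : ℚ) : ℚ_[p])‖ ≤
            (p : ℝ) ^ e) → ∀ n : ℕ,
      (∀ (p : ℕ) [Fact p.Prime], p ∉ S → p ∉ E → p ≤ 2 * (1 + N * (N * n₀)) * (n + 1) →
        MG (Aps (Int.castRingHom (ZMod p)) (D : ZMod p)⁻¹ 1 A₁) p = 0) → ∀ i j : idx,
      ∃ d : ℕ, 0 < d ∧ (d : ℝ) ≤ K * Λ ^ n ∧
        ∀ m ≤ k, ∀ s ≤ n, ∃ z : ℤ, (d : ℚ) * PowerSeries.coeff s (U i j ^ m) = z := by
  classical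
  set m0 : ℕ := 2 * (1 + N * (N * n₀)) with hm0
  set α : ℕ → ℝ := fun p => if p ∈ S then ℓ p else if p.Prime then
    (if p ∈ E then κ / ((p : ℝ) - 1) else κ / ((p : ℝ) * (p - 1))) else 0 with hα
  have hαS : ∀ p, p ∈ S → α p = ℓ p := fun p hp => if_pos hp
  have hαE : ∀ p, p ∉ S → p.Prime → p ∈ E → α p = κ / ((p : ℝ) - 1) := by
    intro p h1 h2 h3
    rw [hα]
    simp only
    rw [if_neg h1, if_pos h2, if_pos h3]
  have hαG : ∀ p, p ∉ S → p.Prime → p ∉ E → α p = κ / ((p : ℝ) * (p - 1)) := by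
    intro p h1 h2 h3
    rw [hα]
    simp only
    rw [if_neg h1, if_pos h2, if_neg h3]
  have hα0 : ∀ p, 0 ≤ α p := by
    intro p
    by_cases h : p ∈ S
    · rw [hαS p h]
      exact hℓ p
    · by_cases hp : p.Prime
      · have h2 : (1 : ℝ) ≤ p := by exact_mod_cast hp.one_lt.le
        have h3 : (0 : ℝ) ≤ p - 1 := by linarith
        by_cases hE' : p ∈ E
        · rw [hαE p h hp hE']; positivity
        · rw [hαG p h hp hE']; positivity
      · rw [hα]
        simp only
        rw [if_neg h, if_neg hp]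
  obtain ⟨K, hK⟩ := den_unif hS hE hα0 κ m0 (by rw [hm0]; omega) (fun _ => 0) (fun _ _ => rfl)
    (L0 := defect κ S E ℓ) (by
      intro T hT
      have h1 : ∑ p ∈ T, α p * Real.log p = ∑ p ∈ T.filter (· ∈ S), ℓ p * Real.log p +
          ∑ p ∈ T.filter (· ∉ S), κ * outTerm S E p := by
        rw [← Finset.sum_filter_add_sum_filter_not T (· ∈ S)]
        congr 1
        · refine Finset.sum_congr rfl fun p hp => ?_
          rw [hαS p (Finset.mem_filter.mp hp).2]
        · refine Finset.sum_congr rfl fun p hp => ?_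
          rw [Finset.mem_filter] at hp
          have h2 : p.Prime ∧ p ∉ S := ⟨hT p hp.1, hp.2⟩
          unfold outTerm
          rw [if_pos h2]
          by_cases hpE : p ∈ E
          · rw [hαE p hp.2 (hT p hp.1) hpE, if_pos hpE]
            ring
          · rw [hαG p hp.2 (hT p hp.1) hpE, if_neg hpE]
            ring
      have h2 : ∑ p ∈ T.filter (· ∈ S), ℓ p * Real.log p ≤ ∑ p ∈ S, ℓ p * Real.log p := by
        refine Finset.sum_le_sum_of_subset_of_nonneg (fun p hp => (Finset.mem_filter.mp hp).2)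
          fun p hp _ => ?_
        have h3 := hℓ p
        have h4 : 0 ≤ Real.log p := Real.log_nonneg (by exact_mod_cast (hS p hp).one_lt.le)
        positivity
      have h4 : ∑ p ∈ T.filter (· ∉ S), κ * outTerm S E p ≤
          κ * ∑' p : ℕ, outTerm S E p := by
        rw [← Finset.mul_sum]
        refine mul_le_mul_of_nonneg_left ?_ (by positivity)
        exact (summable_outTerm S hE).sum_le_tsum _ fun p _ => outTerm_nonneg S E p
      rw [h1]
      unfold defect
      linarith) hΛ k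
  refine ⟨K, ?_⟩
  intro idx _ _ A₁ D jj U hcard hD hone hU hDS hκ hbad n hgood i j
  set β : idx → ℚ := fun i => ((jj i : ℕ) : ℚ) / n₀ with hβ
  have hn₀Q : (0 : ℚ) < n₀ := by exact_mod_cast hn₀
  have hgap : ∀ i j, |β i - β j| < 1 := by
    intro i j
    rw [hβ]
    simp only
    rw [← sub_div, abs_div, abs_of_pos hn₀Q, div_lt_one hn₀Q, abs_lt]
    have h2 : ((jj i : ℕ) : ℚ) < n₀ := by exact_mod_cast (jj i).2
    have h3 : ((jj j : ℕ) : ℚ) < n₀ := by exact_mod_cast (jj j).2
    have h4 : (0 : ℚ) ≤ ((jj i : ℕ) : ℚ) := Nat.cast_nonneg _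
    have h5 : (0 : ℚ) ≤ ((jj j : ℕ) : ℚ) := Nat.cast_nonneg _
    constructor <;> linarith
  have hdm : dmax β ≤ 1 + N * (N * n₀) := by
    have := dmax_le hn₀ jj
    rwa [hcard] at this
  have hcmp : dmax β * (n + 2) ≤ m0 * (n + 1) := by
    calc dmax β * (n + 2) ≤ (1 + N * (N * n₀)) * (n + 2) := Nat.mul_le_mul_right _ hdm
      _ ≤ (1 + N * (N * n₀)) * (2 * (n + 1)) := Nat.mul_le_mul_left _ (by omega)
      _ = _ := by rw [hm0]; ring
  have hdet : (ccM U).det ≠ 0 := by rw [hone, Matrix.det_one]; exact one_ne_zero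
  have hint : ∀ i j, ∃ z : ℤ, PowerSeries.coeff 0 (U i j) = z := by
    intro i j
    have h2 := congrFun (congrFun hone i) j
    rw [ccM_apply, Matrix.one_apply] at h2
    rw [PowerSeries.coeff_zero_eq_constantCoeff_apply, h2]
    split_ifs
    · exact ⟨1, by simp⟩
    · exact ⟨0, by simp⟩
  have hcardG : ∀ p, (Gset β j p).card ≤ κ := fun p => (card_Gset_le β j p).trans hκ
  refine hK (U i j) n ?_ ?_
  · intro p hp s hs
    have hp1 : (1 : ℝ) ≤ p := by exact_mod_cast hp.out.one_lt.le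
    obtain ⟨g1, g2, g3⟩ := Gset_spec (i := j) hgap p
    have hlogle : (p : ℝ) ^ (κ * Nat.log p (dmax β * (n + 2))) ≤
        (p : ℝ) ^ (κ * Nat.log p (m0 * (n + 1)) + 0) :=
      pow_le_pow_right₀ hp1 (Nat.mul_le_mul_left _ (Nat.log_mono_right hcmp))
    by_cases hpS : p ∈ S
    · obtain ⟨e, he1, he2⟩ := hbad p hpS
      rw [hαS p hpS]
      refine (gexp_one hgap hone hU he2 j s i).trans ?_
      refine (prod_omegaf_le hp.out g1 g2 g3 hs (card_Gset_le_class β j p) (hcardG p)).trans ?_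
      rw [pow_zero, one_mul]
      refine mul_le_mul ?_ hlogle (by positivity) (by positivity)
      exact pow_le_pow_left₀ (by positivity) (Real.rpow_le_rpow_of_exponent_le hp1 he1) _
    · have hpD : ¬ p ∣ D := fun h => hpS (hDS p hp.out h)
      by_cases hpE : p ∈ E
      · rw [hαE p hpS hp.out hpE]
        refine (gmid_local hD hgap hdet hU hint hpD j s i).trans ?_
        refine (prod_omegaf_le hp.out g1 g2 g3 hs (hcardG p) (hcardG p)).trans ?_
        rw [Nat.cast_zero, zero_add, pow_zero, one_mul]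
        exact mul_le_mul_of_nonneg_left hlogle (by positivity)
      · rw [hαG p hpS hp.out hpE]
        by_cases hple : p ≤ m0 * (n + 1)
        · refine (ggood_local hD hgap hdet hU hint hpD (hgood p hpS hpE hple) j s i).trans ?_
          refine (prod_omegaf_le hp.out g1 g2 g3 hs (hcardG p) (hcardG p)).trans ?_
          rw [Nat.cast_zero, zero_add, pow_one]
          exact mul_le_mul_of_nonneg_left hlogle (by positivity)
        · push Not at hple
          refine (gmid_local hD hgap hdet hU hint hpD j s i).trans ?_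
          rw [prod_omegaf_eq_one' hp.out g1 g2 g3 hs (lt_of_le_of_lt hcmp hple)]
          have h3 : (0 : ℝ) ≤ κ / ((p : ℝ) * (p - 1)) := by
            have : (0 : ℝ) ≤ p - 1 := by linarith
            positivity
          refine one_le_mul_of_one_le_of_one_le ?_ (one_le_pow₀ hp1)
          exact one_le_pow₀ (Real.one_le_rpow hp1 h3)
  · intro p hp hpS hltE hlt s hs
    have hpD : ¬ p ∣ D := fun h => hpS (hDS p hp.out h)
    obtain ⟨g1, g2, g3⟩ := Gset_spec (i := j) hgap p
    by_cases hpE : p ∈ E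
    · refine (gmid_local hD hgap hdet hU hint hpD j s i).trans (le_of_eq ?_)
      exact prod_omegaf_eq_one' hp.out g1 g2 g3 hs (lt_of_le_of_lt hcmp (hltE hpE))
    · by_cases hple : p ≤ m0 * (n + 1)
      · refine (ggood_local hD hgap hdet hU hint hpD (hgood p hpS hpE hple) j s i).trans
          (le_of_eq ?_)
        exact prod_omegaf_eq_one hp.out g1 g2 g3 hs (lt_of_le_of_lt hcmp hlt)
      · push Not at hple
        refine (gmid_local hD hgap hdet hU hint hpD j s i).trans (le_of_eq ?_)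
        exact prod_omegaf_eq_one' hp.out g1 g2 g3 hs (lt_of_le_of_lt hcmp hple)

end eff

end Pool.Agent.H925
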