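import Pool.Agent.H925.CConv

set_option autoImplicit false

open PowerSeries Finset Metric

namespace Pool.Agent.H925

open Pool.Agent.Helper338PC (th coeff_th)

section ev

/-- The value of a power series. -/
noncomputable def ev (f : PowerSeries ℂ) (z : ℂ) : ℂ := ∑' n, coeff n f * z ^ n

variable {f g : PowerSeries ℂ} {R : ℝ} {z : ℂ}

lemma norm_term_le (hz : ‖z‖ ≤ R) (n : ℕ) : ‖coeff n f * z ^ n‖ ≤ ‖coeff n f‖ * R ^ n := by
  rw [norm_mul, norm_pow]
  exact mul_le_mul_of_nonneg_left (pow_le_pow_left₀ (norm_nonneg _) hz n) (norm_nonneg _)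

lemma CSm.summable_norm (hf : CSm R f) (hz : ‖z‖ ≤ R) : Summable fun n => ‖coeff n f * z ^ n‖ :=
  Summable.of_nonneg_of_le (fun _ => norm_nonneg _) (norm_term_le hz) hf

lemma CSm.summable_term (hf : CSm R f) (hz : ‖z‖ ≤ R) : Summable fun n => coeff n f * z ^ n :=
  (hf.summable_norm hz).of_norm

lemma norm_ev_le (hf : CSm R f) (hz : ‖z‖ ≤ R) : ‖ev f z‖ ≤ cnrm R f := by
  refine (norm_tsum_le_tsum_norm (hf.summable_norm hz)).trans ?_
  exact (hf.summable_norm hz).tsum_le_tsum (norm_term_le hz) hf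

lemma ev_add (hf : CSm R f) (hg : CSm R g) (hz : ‖z‖ ≤ R) : ev (f + g) z = ev f z + ev g z := by
  unfold ev
  rw [← (hf.summable_term hz).tsum_add (hg.summable_term hz)]
  exact tsum_congr fun n => by rw [map_add, add_mul]

lemma ev_zero : ev 0 z = 0 := by
  unfold ev
  simp

lemma ev_sum {ι : Type*} (hR : 0 < R) (s : Finset ι) {F : ι → PowerSeries ℂ}
    (h : ∀ i ∈ s, CSm R (F i)) (hz : ‖z‖ ≤ R) : ev (∑ i ∈ s, F i) z = ∑ i ∈ s, ev (F i) z := by
  classical
  induction s using Finset.induction_on with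
  | empty => simp [ev_zero]
  | insert a s ha ih =>
    have h1 : ∀ i ∈ s, CSm R (F i) := fun i hi => h i (Finset.mem_insert_of_mem hi)
    rw [Finset.sum_insert ha, Finset.sum_insert ha, ev_add (h a (Finset.mem_insert_self a s))
      (CSm.sum hR s h1) hz, ih h1]

lemma ev_mul (hf : CSm R f) (hg : CSm R g) (hz : ‖z‖ ≤ R) : ev (f * g) z = ev f z * ev g z := by
  unfold ev
  rw [tsum_mul_tsum_eq_tsum_sum_antidiagonal_of_summable_norm (hf.summable_norm hz)
    (hg.summable_norm hz)]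
  refine tsum_congr fun n => ?_
  rw [coeff_mul, Finset.sum_mul]
  refine Finset.sum_congr rfl fun x hx => ?_
  rw [← Finset.HasAntidiagonal.mem_antidiagonal.mp hx, pow_add]
  ring

lemma ev_C (c : ℂ) : ev (PowerSeries.C c) z = c := by
  unfold ev
  rw [tsum_eq_single 0]
  · simp
  · intro n hn
    rw [coeff_C, if_neg hn, zero_mul]

lemma ev_pow (hR : 0 < R) (hf : CSm R f) (hz : ‖z‖ ≤ R) (n : ℕ) : ev (f ^ n) z = ev f z ^ n := by
  induction n with
  | zero =>
    rw [pow_zero, pow_zero, ← map_one (PowerSeries.C (R := ℂ)), ev_C]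
  | succ n ih => rw [pow_succ, pow_succ, ev_mul (CSm.pow hR hf n) hf hz, ih]

lemma ev_at_zero (f : PowerSeries ℂ) : ev f 0 = coeff 0 f := by
  unfold ev
  rw [tsum_eq_single 0]
  · simp
  · intro n hn
    rw [zero_pow hn, mul_zero]

lemma CConv.derivative (hf : CConv f) : CConv (PowerSeries.derivative ℂ f) :=
  cconv_of_X_mul (by
    have h := hf.th
    exact h)

lemma hasDerivAt_ev (hf : CConv f) (hz : ‖z‖ < 1) :
    HasDerivAt (ev f) (ev (PowerSeries.derivative ℂ f) z) z := by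
  obtain ⟨R, hR1, hR2⟩ := exists_between hz
  have hR0 : 0 < R := lt_of_le_of_lt (norm_nonneg _) hR1
  have h1 : CSm R (th f) := hf.th R hR0 hR2
  have h2 : Summable fun n => ‖coeff n (th f)‖ * R ^ n * R⁻¹ := h1.mul_right _
  have h3 := hasDerivAt_tsum_of_isPreconnected (𝕜 := ℂ) (F := ℂ) (u := fun n =>
      ‖coeff n (th f)‖ * R ^ n * R⁻¹) (g := fun n z => coeff n f * z ^ n)
      (g' := fun n z => coeff n f * (n * z ^ (n - 1))) (t := ball (0 : ℂ) R) (y₀ := 0) (y := z)
      h2 isOpen_ball (convex_ball _ _).isPreconnected ?_ ?_ (mem_ball_self hR0) ?_ ?_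
  · have h4 : (∑' n : ℕ, coeff n f * (n * z ^ (n - 1))) = ev (PowerSeries.derivative ℂ f) z := by
      unfold ev
      have h5 : Summable fun n : ℕ => coeff n f * (n * z ^ (n - 1)) := by
        refine Summable.of_norm_bounded h2 fun n => ?_
        rcases n with _ | n
        · simp only [Nat.cast_zero, zero_mul, mul_zero, norm_zero]
          positivity
        · rw [coeff_th, norm_mul, norm_mul, norm_mul, norm_pow, Nat.add_sub_cancel, pow_succ]
          have h6 : ‖z‖ ^ n ≤ R ^ n := pow_le_pow_left₀ (norm_nonneg _) hR1.le n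
          calc ‖coeff (n + 1) f‖ * (‖((n + 1 : ℕ) : ℂ)‖ * ‖z‖ ^ n)
              ≤ ‖coeff (n + 1) f‖ * (‖((n + 1 : ℕ) : ℂ)‖ * R ^ n) := by gcongr
            _ = _ := by field_simp
      rw [h5.tsum_eq_zero_add]
      simp only [Nat.cast_zero, zero_mul, mul_zero, zero_add]
      refine tsum_congr fun n => ?_
      rw [PowerSeries.coeff_derivative, Nat.add_sub_cancel]
      push_cast
      ring
    rw [h4] at h3
    exact h3
  · intro n y _
    exact (hasDerivAt_pow n y).const_mul _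
  · intro n y hy
    rw [mem_ball_zero_iff] at hy
    rcases n with _ | n
    · simp only [Nat.cast_zero, zero_mul, mul_zero, norm_zero]
      positivity
    · rw [coeff_th, norm_mul, norm_mul, norm_mul, norm_pow, Nat.add_sub_cancel, pow_succ]
      have h6 : ‖y‖ ^ n ≤ R ^ n := pow_le_pow_left₀ (norm_nonneg _) hy.le n
      calc ‖coeff (n + 1) f‖ * (‖((n + 1 : ℕ) : ℂ)‖ * ‖y‖ ^ n)
          ≤ ‖coeff (n + 1) f‖ * (‖((n + 1 : ℕ) : ℂ)‖ * R ^ n) := by gcongr
        _ = _ := by field_simp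
  · exact ((hf R hR0 hR2).summable_term (z := 0) (by simpa using hR0.le))
  · rwa [mem_ball_zero_iff]

lemma mul_ev_derivative (hf : CConv f) (hz : ‖z‖ < 1) :
    z * ev (PowerSeries.derivative ℂ f) z = ev (th f) z := by
  obtain ⟨R, hR1, hR2⟩ := exists_between hz
  have hR0 : 0 < R := lt_of_le_of_lt (norm_nonneg _) hR1
  unfold th
  rw [ev_mul CSm.X (hf.derivative R hR0 hR2) hR1.le]
  congr 1
  unfold ev
  rw [tsum_eq_single 1]
  · simp
  · intro n hn
    rw [coeff_X, if_neg hn, zero_mul]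

lemma deriv_ev (hf : CConv f) (hz : ‖z‖ < 1) :
    deriv (ev f) z = ev (PowerSeries.derivative ℂ f) z := (hasDerivAt_ev hf hz).deriv

lemma differentiableOn_ev (hf : CConv f) : DifferentiableOn ℂ (ev f) (ball 0 1) := fun z hz =>
  (hasDerivAt_ev hf (by rwa [mem_ball_zero_iff] at hz)).differentiableAt.differentiableWithinAt

lemma iteratedDeriv_ev (n : ℕ) : ∀ {f : PowerSeries ℂ}, CConv f →
    iteratedDeriv n (ev f) 0 = n.factorial * coeff n f := by
  induction n with
  | zero =>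
    intro f _
    rw [iteratedDeriv_zero, ev_at_zero]
    simp
  | succ n ih =>
    intro f hf
    have h1 : deriv (ev f) =ᶠ[nhds 0] ev (PowerSeries.derivative ℂ f) := by
      filter_upwards [ball_mem_nhds (0 : ℂ) one_pos] with z hz
      exact deriv_ev hf (by rwa [mem_ball_zero_iff] at hz)
    rw [iteratedDeriv_succ', h1.iteratedDeriv_eq, ih hf.derivative, PowerSeries.coeff_derivative,
      Nat.factorial_succ]
    push_cast
    ring

/-- Cauchy's estimate. -/
lemma coeff_le_of_sphere (hf : CConv f) (hR0 : 0 < R) (hR1 : R < 1) {C : ℝ}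
    (hC : ∀ z : ℂ, ‖z‖ = R → ‖ev f z‖ ≤ C) (n : ℕ) : ‖coeff n f‖ * R ^ n ≤ C := by
  have h1 : DiffContOnCl ℂ (ev f) (ball 0 R) := by
    refine DifferentiableOn.diffContOnCl ?_
    rw [closure_ball _ hR0.ne']
    exact (differentiableOn_ev hf).mono (closedBall_subset_ball hR1)
  have h2 := Complex.norm_iteratedDeriv_le_of_forall_mem_sphere_norm_le n hR0 h1
    (fun z hz => hC z (by rwa [mem_sphere_zero_iff_norm] at hz))
  rw [iteratedDeriv_ev n hf, norm_mul, Complex.norm_natCast] at h2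
  have h3 : (0 : ℝ) < n.factorial := by exact_mod_cast n.factorial_pos
  rw [mul_div_assoc] at h2
  have h4 := le_of_mul_le_mul_left h2 h3
  rwa [le_div_iff₀ (by positivity)] at h4

/-- The zeros in a smaller disc. -/
lemma finite_zeros (hf : CConv f) (hf0 : f ≠ 0) (hR1 : R < 1) :
    {z : ℂ | ‖z‖ ≤ R ∧ ev f z = 0}.Finite := by
  by_contra hcon
  have hinf : {z : ℂ | ‖z‖ ≤ R ∧ ev f z = 0}.Infinite := hcon
  obtain ⟨x, hx, hacc⟩ := hinf.exists_accPt_of_subset_isCompact (isCompact_closedBall (0 : ℂ) R)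
    (fun z hz => by rw [mem_closedBall_zero_iff]; exact hz.1)
  rw [accPt_iff_frequently_nhdsNE] at hacc
  have h1 : AnalyticOnNhd ℂ (ev f) (ball 0 1) := (differentiableOn_ev hf).analyticOnNhd isOpen_ball
  have h2 := h1.eqOn_zero_of_preconnected_of_frequently_eq_zero (convex_ball _ _).isPreconnected
    (closedBall_subset_ball hR1 hx) (hacc.mono fun z hz => hz.2)
  apply hf0
  ext n
  have h3 : ev f =ᶠ[nhds 0] ev 0 := by
    filter_upwards [ball_mem_nhds (0 : ℂ) one_pos] with z hz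
    rw [h2 hz, ev_zero]
    rfl
  have h4 := iteratedDeriv_ev n hf
  rw [h3.iteratedDeriv_eq, iteratedDeriv_ev n CConv.zero, map_zero, mul_zero] at h4
  have h5 : (n.factorial : ℂ) ≠ 0 := by exact_mod_cast n.factorial_ne_zero
  rw [map_zero]
  exact (mul_eq_zero.mp h4.symm).resolve_left h5

end ev

end Pool.Agent.H925
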