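import Pool.Agent.H925.EffCuspMain

set_option autoImplicit false

open Finset NumberField

namespace Pool.Agent.H925

open Pool.Agent.Helper338PC

section half

variable {K : Type} [Field K] [NumberField K]

/-- The coefficients of the expansion are integral up to the denominator. -/
lemma padicIntegral_coeff {r : ℕ} {p e D m' : ℕ} (hD : D ≠ 0) (hDe : D = p ^ e * m')
    (hm' : ¬ p ∣ m') (A : Matrix (Fin r) (Fin r) (Polynomial (𝓞 K))) (s : ℕ) (i j : Fin r) :
    PadicIntegral p e (PowerSeries.coeff s (Aps (algebraMap (𝓞 K) K) (D : K)⁻¹ 1 A i j)) := by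
  refine ⟨m', hm', ?_⟩
  have hDK : (D : K) ≠ 0 := by exact_mod_cast hD
  have h1 : (m' : K) * (p : K) ^ e *
      PowerSeries.coeff s (Aps (algebraMap (𝓞 K) K) (D : K)⁻¹ 1 A i j) =
      PowerSeries.coeff s (wg K *
        (((A i j).map (algebraMap (𝓞 K) K) : Polynomial K) : PowerSeries K)) := by
    rw [Aps_apply, pow_one, mul_assoc (PowerSeries.C _), PowerSeries.coeff_C_mul]
    have h2 : (D : K) = (p : K) ^ e * (m' : K) := by
      rw [hDe]
      push_cast
      ring
    have h3 : (m' : K) * (p : K) ^ e * (D : K)⁻¹ = 1 := by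
      rw [mul_comm (m' : K), ← h2, mul_inv_cancel₀ hDK]
    rw [← mul_assoc, h3, one_mul]
  rw [h1, PowerSeries.coeff_mul]
  refine IsIntegral.sum _ fun x _ => ?_
  refine IsIntegral.mul ?_ ?_
  · unfold wg
    rw [map_neg, PowerSeries.coeff_mk]
    exact isIntegral_one.neg
  · rw [Polynomial.coeff_coe, Polynomial.coeff_map]
    exact NumberField.RingOfIntegers.isIntegral_coe _

/-- The effective criterion for the systems with half integral coefficients. -/
theorem eff_half (K : Type) [Field K] [NumberField K]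
    (hK : ∀ p : ℕ, p.Prime → p ≠ 2 → (Ideal.span {(p : 𝓞 K)}).IsRadical) (m r : ℕ) :
    ∃ C : ℝ, ∀ (H : ℝ) (A : Matrix (Fin r) (Fin r) (Polynomial (𝓞 K))), 1 ≤ H →
      (∀ i j, (A i j).natDegree ≤ m) →
      (∀ (σ : K →+* ℂ) (i j : Fin r) (k : ℕ),
        ‖σ (algebraMap (𝓞 K) K ((A i j).coeff k))‖ ≤ 2 * H) →
      (∃ b : Fin r → Fin 2, ∀ i j, (A i j).coeff 0 = if i = j then -((b i : ℕ) : 𝓞 K) else 0) →
      (∀ p : ℕ, p.Prime → p ≠ 2 → (p : ℝ) ≤ C * H →
        ∀ (𝔭 : Ideal (𝓞 K)) [𝔭.IsMaximal], (p : 𝓞 K) ∈ 𝔭 → PCurvZeroAt 𝔭 2 1 A) →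
      FullAlgebraic (sysG (algebraMap (𝓞 K) K) 2 1 A) := by
  classical
  have hlog2 : 0 < Real.log 2 := Real.log_pos (by norm_num)
  have hdef : defect 2 {2} ∅ (fun _ => 2) < Real.log 16 := by
    unfold defect
    rw [Finset.sum_singleton]
    have h1 := tsum_outTerm_two
    have h2 : Real.log 16 = 4 * Real.log 2 := by
      have : (16 : ℝ) = 2 ^ (4 : ℕ) := by norm_num
      rw [this, Real.log_pow]
      norm_num
    rw [h2]
    push_cast
    linarith
  obtain ⟨C, hC⟩ := eff_univ (n₀ := 2) two_pos m 2 (S := {2}) (by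
    intro p hp
    rw [Finset.mem_singleton] at hp
    rw [hp]
    exact Nat.prime_two) (E := ∅) (by
      have : sparseTerm ∅ = fun _ => 0 := by
        funext p
        unfold sparseTerm
        rw [if_neg]
        rintro ⟨_, h⟩
        exact h
      rw [this]
      exact summable_zero) (ℓ := fun _ => 2) (fun _ _ => by norm_num) hdef K r
  refine ⟨C, fun H A hH hdeg hheight hb hgood => ?_⟩
  obtain ⟨b, hb⟩ := hb
  set β : Fin r → ℚ := fun i => ((b i : ℕ) : ℚ) / (2 : ℕ) with hβ
  have hval : ∀ i, β i = 0 ∨ β i = 1 / 2 := by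
    intro i
    have h1 : (b i : ℕ) = 0 ∨ (b i : ℕ) = 1 := by omega
    rcases h1 with h | h
    · left
      rw [hβ]
      simp only
      rw [h]
      norm_num
    · right
      rw [hβ]
      simp only
      rw [h]
      norm_num
  have hd1 : ((1 / 2 - 0 : ℚ)).den = 2 := by
    rw [sub_zero, one_div, Rat.inv_ofNat_den]
  have hd2 : ((0 - 1 / 2 : ℚ)).den = 2 := by
    rw [zero_sub, Rat.den_neg_eq_den, one_div, Rat.inv_ofNat_den]
  refine hC H 2 A hH ⟨two_ne_zero, hdeg, ?_, ?_, b, ?_, ?_, ?_⟩ ?_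
  · intro σ i j k
    have := hheight σ i j k
    push_cast
    linarith
  · intro p hp hp2
    rw [Finset.mem_singleton]
    exact (Nat.prime_dvd_prime_iff_eq hp Nat.prime_two).mp hp2
  · unfold numExp
    refine (Finset.card_le_card (t := {0, 1 / 2}) ?_).trans Finset.card_le_two
    intro x hx
    rw [Finset.mem_image] at hx
    obtain ⟨i, _, rfl⟩ := hx
    rw [Finset.mem_insert, Finset.mem_singleton]
    exact hval i
  · intro i j
    rw [hb]
    split_ifs
    · push_cast
      rw [nsmul_eq_mul]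
      push_cast
      ring
    · rw [smul_zero]
  · intro p hp
    rw [Finset.mem_singleton] at hp
    subst hp
    refine ⟨1, ?_, fun s i j _ => padicIntegral_coeff two_ne_zero (m' := 1) (by norm_num)
      (by norm_num) A s i j⟩
    have h1 : numClass β 2 ≤ 1 := by
      unfold numClass
      refine Finset.sup_le fun i _ => ?_
      refine Finset.card_le_one.mpr ?_
      intro x hx y hy
      rw [Finset.mem_filter, Finset.mem_image] at hx hy
      obtain ⟨⟨i₁, _, rfl⟩, hx2⟩ := hx
      obtain ⟨⟨i₂, _, rfl⟩, hy2⟩ := hy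
      rcases hval i with h | h <;> rcases hval i₁ with h' | h' <;> rcases hval i₂ with h'' | h'' <;>
        rw [h, h'] at hx2 <;> rw [h, h''] at hy2 <;> rw [h', h''] <;>
        first
        | (exfalso; rw [hd1] at hx2; exact hx2 (dvd_refl 2))
        | (exfalso; rw [hd2] at hx2; exact hx2 (dvd_refl 2))
        | (exfalso; rw [hd1] at hy2; exact hy2 (dvd_refl 2))
        | (exfalso; rw [hd2] at hy2; exact hy2 (dvd_refl 2))
    have h2 : ((numClass β 2 : ℕ) : ℝ) ≤ 1 := by exact_mod_cast h1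
    change ((1 : ℕ) : ℝ) + (numClass β 2 : ℝ) / (((2 : ℕ) : ℝ) - 1) ≤ 2
    have h3 : (((2 : ℕ) : ℝ) - 1) = 1 := by norm_num
    rw [h3, div_one, Nat.cast_one]
    linarith
  · intro p hp hpC hpS _
    have hp2 : p ≠ 2 := by
      intro h
      exact hpS (by rw [h]; exact Finset.mem_singleton_self 2)
    exact ⟨hK p hp hp2, fun 𝔭 _ h => hgood p hp hp2 hpC 𝔭 h⟩

end half

end Pool.Agent.H925
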