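import Mathlib

set_option autoImplicit false

open Finset

namespace Pool.Agent.H925

section fixed

variable {k : Type*} [Field k]

open PowerSeries in
/-- Contracting maps of the power series have fixed points. -/
lemma exists_fixed (T : PowerSeries k → PowerSeries k)
    (hT : ∀ (n : ℕ) (z z' : PowerSeries k), (PowerSeries.X : PowerSeries k) ^ n ∣ z - z' →
      (PowerSeries.X : PowerSeries k) ^ (n + 1) ∣ T z - T z') : ∃ z, T z = z := by
  set u : ℕ → PowerSeries k := fun n => T^[n] 0 with hu
  have hsucc : ∀ n, u (n + 1) = T (u n) := fun n => Function.iterate_succ_apply' T n 0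
  have h1 : ∀ n, (PowerSeries.X : PowerSeries k) ^ n ∣ u (n + 1) - u n := by
    intro n
    induction n with
    | zero => simp
    | succ n ih =>
      have h5 := hT n _ _ ih
      rwa [← hsucc, ← hsucc] at h5
  have h2 : ∀ n m, n ≤ m → (PowerSeries.X : PowerSeries k) ^ n ∣ u m - u n := by
    intro n m hnm
    induction m, hnm using Nat.le_induction with
    | base => simp
    | succ m hm ih =>
      have h3 : u (m + 1) - u n = (u (m + 1) - u m) + (u m - u n) := by ring
      rw [h3]
      exact dvd_add ((pow_dvd_pow _ hm).trans (h1 m)) ih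
  set z : PowerSeries k := PowerSeries.mk fun n => PowerSeries.coeff n (u (n + 1)) with hz
  have h3 : ∀ n, (PowerSeries.X : PowerSeries k) ^ n ∣ z - u n := by
    intro n
    rw [PowerSeries.X_pow_dvd_iff]
    intro m hm
    rw [map_sub, hz, PowerSeries.coeff_mk]
    have h4 := (PowerSeries.X_pow_dvd_iff).mp (h2 (m + 1) n hm) m (Nat.lt_succ_self m)
    rw [map_sub] at h4
    rw [← neg_sub, h4, neg_zero]
  refine ⟨z, ?_⟩
  ext n
  have h4 := hT n _ _ (h3 n)
  rw [← hsucc] at h4
  have h5 : (PowerSeries.X : PowerSeries k) ^ (n + 1) ∣ T z - z := by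
    have h6 : T z - z = (T z - u (n + 1)) - (z - u (n + 1)) := by ring
    rw [h6]
    exact dvd_sub h4 (h3 (n + 1))
  have h7 := (PowerSeries.X_pow_dvd_iff).mp h5 n (Nat.lt_succ_self n)
  rw [map_sub] at h7
  exact sub_eq_zero.mp h7

/-- The lemma of Newton and Hensel for power series. -/
theorem newton_hensel {P : Polynomial (PowerSeries k)} {f u : PowerSeries k} {m o : ℕ}
    (hd : (Polynomial.derivative P).eval f = PowerSeries.X ^ m * u)
    (hu : PowerSeries.constantCoeff u ≠ 0) (ho : PowerSeries.X ^ o ∣ P.eval f)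
    (hmo : 2 * m + 1 ≤ o) :
    ∃ α : PowerSeries k, P.eval α = 0 ∧ PowerSeries.X ^ (o - m) ∣ α - f ∧
      PowerSeries.X ^ (m + 1) ∣ α - f := by
  set X : PowerSeries k := PowerSeries.X with hX
  have hX0 : X ≠ 0 := PowerSeries.X_ne_zero
  have hui : u * u⁻¹ = 1 := PowerSeries.mul_inv_cancel u hu
  -- the divisibility
  have h1 : ∀ y : PowerSeries k, ∃ q, P.eval (f + X ^ (m + 1) * y) = X ^ (2 * m + 1) * q := by
    intro y
    obtain ⟨c, hc⟩ := Polynomial.binomExpansion P f (X ^ (m + 1) * y)
    obtain ⟨a, ha⟩ := (pow_dvd_pow X hmo).trans ho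
    refine ⟨a + u * y + c * X * y ^ 2, ?_⟩
    rw [hc, ha, hd]
    ring
  choose q hq using h1
  have hdiff : ∀ y y' : PowerSeries k, ∃ c, q y - q y' = (y - y') * (u + X * c) := by
    intro y y'
    obtain ⟨c, hc⟩ := Polynomial.binomExpansion P (f + X ^ (m + 1) * y')
      (X ^ (m + 1) * (y - y'))
    obtain ⟨c', hc'⟩ := Polynomial.evalSubFactor (Polynomial.derivative P)
      (f + X ^ (m + 1) * y') f
    have h2 : f + X ^ (m + 1) * y' + X ^ (m + 1) * (y - y') = f + X ^ (m + 1) * y := by ring
    rw [h2, hq, hq] at hc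
    have h3 : (Polynomial.derivative P).eval (f + X ^ (m + 1) * y') =
        X ^ m * u + c' * (X ^ (m + 1) * y') := by
      have : f + X ^ (m + 1) * y' - f = X ^ (m + 1) * y' := by ring
      rw [this] at hc'
      rw [← hd]
      linear_combination hc'
    rw [h3] at hc
    refine ⟨c' * y' + c * (y - y'), ?_⟩
    apply mul_left_cancel₀ (pow_ne_zero (2 * m + 1) hX0)
    linear_combination hc
  obtain ⟨z, hz⟩ := exists_fixed (fun y => y - u⁻¹ * q y) (by
    intro n y y' hy
    obtain ⟨c, hc⟩ := hdiff y y'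
    have h2 : y - u⁻¹ * q y - (y' - u⁻¹ * q y') = (y - y') * (X * (-(u⁻¹ * c))) := by
      linear_combination (-u⁻¹) * hc + (-(y - y')) * hui
    rw [h2, pow_succ]
    exact mul_dvd_mul hy (dvd_mul_right _ _))
  have hq0 : q z = 0 := by
    have h2 : u⁻¹ * q z = 0 := by
      have : z - u⁻¹ * q z = z := hz
      linear_combination -this
    calc q z = u * (u⁻¹ * q z) := by rw [← mul_assoc, hui, one_mul]
      _ = 0 := by rw [h2, mul_zero]
  set α := f + X ^ (m + 1) * z with hα
  have hPα : P.eval α = 0 := by rw [hα, hq, hq0, mul_zero]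
  have hαf : α - f = X ^ (m + 1) * z := by rw [hα]; ring
  refine ⟨α, hPα, ?_, ?_⟩
  · obtain ⟨c, hc⟩ := Polynomial.binomExpansion P f (α - f)
    rw [add_sub_cancel, hPα, hd] at hc
    -- `0 = P(f) + (α - f) X^m (u + c X z)`
    have h3 : (α - f) * (u + c * X * z) * X ^ m = -P.eval f := by
      have h4 : c * (α - f) ^ 2 = (α - f) * (c * X * z) * X ^ m := by
        rw [pow_two]
        nth_rewrite 2 [hαf]
        ring
      rw [h4] at hc
      linear_combination -hc
    have h5 : X ^ (o - m) ∣ (α - f) * (u + c * X * z) := by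
      have h6 : X ^ (o - m) * X ^ m ∣ (α - f) * (u + c * X * z) * X ^ m := by
        rw [← pow_add, Nat.sub_add_cancel (by omega), h3]
        exact (dvd_neg).mpr ho
      exact (mul_dvd_mul_iff_right (pow_ne_zero m hX0)).mp h6
    have h7 : IsUnit (u + c * X * z) := by
      rw [PowerSeries.isUnit_iff_constantCoeff, map_add, map_mul, map_mul, hX,
        PowerSeries.constantCoeff_X]
      simpa using hu
    exact (h7.dvd_mul_right).mp h5
  · rw [hαf]
    exact dvd_mul_right _ _

end fixed

end Pool.Agent.H925
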