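import Pool.Agent.H925.EffSmall
import Pool.Agent.H925.OrbGen

set_option autoImplicit false

open PowerSeries Finset

namespace Pool.Agent.H925

open Pool.Agent.Helper338PC (th coeff_th th_mul' th_add' th_sum' th_C th_one wg Aps IsSolG
  Aps_apply X_sub_one_mul_wg)

section star

variable {idx : Type} [Fintype idx]

/-- The linear system of the pull-back. -/
theorem orb_star {n₀ n₁ n₂ D : ℕ} (hn₀ : 0 < n₀) {s v w ω : PowerSeries ℂ}
    (hs0 : constantCoeff s = 0) (hwc : constantCoeff w ≠ 0)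
    (hrel : s ^ n₀ + v ^ n₁ = w ^ n₂) (hω : ω ^ n₀ = w)
    {A : Matrix idx idx (Polynomial ℂ)} {j₀ : Fin n₀} {h : idx → PowerSeries ℂ}
    (hsol : IsSolG (Aps (RingHom.id ℂ) (D : ℂ)⁻¹ 1 A) ((j₀ : ℕ) / (n₀ : ℂ)) h) :
    ∃ ig : PowerSeries ℂ, v ^ n₁ * ig = -w ^ n₂ ∧ ∀ i,
      s * w * th (s ^ (j₀ : ℕ) * ω⁻¹ ^ (n₂ * (j₀ : ℕ)) * (h i).subst (s ^ n₀ * w⁻¹ ^ n₂)) =
      ((n₀ : PowerSeries ℂ) * w * th s - (n₂ : PowerSeries ℂ) * s * th w) *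
        (PowerSeries.C ((D : ℂ)⁻¹) * ig * evM (s ^ n₀ * w⁻¹ ^ n₂) A (fun l =>
          s ^ (j₀ : ℕ) * ω⁻¹ ^ (n₂ * (j₀ : ℕ)) * (h l).subst (s ^ n₀ * w⁻¹ ^ n₂)) i) := by
  classical
  have hn₀C : (n₀ : ℂ) ≠ 0 := by exact_mod_cast hn₀.ne'
  have hωc : constantCoeff ω ≠ 0 := by
    intro h1
    apply hwc
    rw [← hω, map_pow, h1, zero_pow hn₀.ne']
  have hωne : ω ≠ 0 := by
    rintro rfl
    exact hωc (map_zero _)
  set iw := w⁻¹ with hiw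
  set iω := ω⁻¹ with hiω
  have hwiw : w * iw = 1 := PowerSeries.mul_inv_cancel w hwc
  have hωiω : ω * iω = 1 := PowerSeries.mul_inv_cancel ω hωc
  set Φ : PowerSeries ℂ := s ^ n₀ * iw ^ n₂ with hΦ
  have h0 : constantCoeff Φ = 0 := by
    rw [hΦ, map_mul, map_pow, hs0, zero_pow hn₀.ne', zero_mul]
  have hsub : HasSubst Φ := HasSubst.of_constantCoeff_zero' h0
  have hCnat : ∀ n : ℕ, (n : PowerSeries ℂ) = PowerSeries.C (n : ℂ) := fun n => (map_natCast _ n).symm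
  have hiwp := th_inv_pow hwiw n₂
  have hsp := th_pow' s n₀
  set lam : PowerSeries ℂ := (n₀ : PowerSeries ℂ) * w * th s - (n₂ : PowerSeries ℂ) * s * th w
    with hlam
  have hsΦ : s * w * th Φ = lam * Φ := by
    rw [hΦ, th_mul', hlam]
    linear_combination (w * iw ^ n₂) * hsp + (s * s ^ n₀) * hiwp
  have hwn : w ^ n₂ * iw ^ n₂ = 1 := by rw [← mul_pow, hwiw, one_pow]
  have hΦ1 : Φ - 1 = -(v ^ n₁ * iw ^ n₂) := by
    rw [hΦ]
    linear_combination (iw ^ n₂) * hrel + hwn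
  set ig := (wg ℂ).subst Φ with hig
  have hig1 := subst_wgC hsub
  rw [← hig] at hig1
  have hWΦ1 : w ^ n₂ * (Φ - 1) = -v ^ n₁ := by
    rw [hΦ1]
    linear_combination (-v ^ n₁) * hwn
  have hVig : v ^ n₁ * ig = -w ^ n₂ := by
    linear_combination ig * hWΦ1 - (w ^ n₂) * hig1
  -- the chain rule
  have hchain : ∀ f : PowerSeries ℂ, s * w * th (f.subst Φ) = lam * (th f).subst Φ := by
    intro f
    have e1 : (th f).subst Φ = Φ * (derivative ℂ f).subst Φ := by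
      unfold th
      rw [subst_mul hsub, subst_X hsub]
    have e2 : th (f.subst Φ) = (derivative ℂ f).subst Φ * th Φ := by
      unfold th
      rw [derivative_subst hsub]
      ring
    rw [e1, e2]
    linear_combination ((derivative ℂ f).subst Φ) * hsΦ
  -- the pulled back solution
  set u : PowerSeries ℂ := s ^ (j₀ : ℕ) * iω ^ (n₂ * (j₀ : ℕ)) with hu
  have hβ : PowerSeries.C ((j₀ : ℕ) / (n₀ : ℂ)) * (n₀ : PowerSeries ℂ) =
      (((j₀ : ℕ) : ℕ) : PowerSeries ℂ) := by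
    rw [hCnat, hCnat, ← map_mul, div_mul_cancel₀ _ hn₀C]
  have hthu : s * w * th u = PowerSeries.C ((j₀ : ℕ) / (n₀ : ℂ)) * lam * u := by
    have e1 := th_pow' s (j₀ : ℕ)
    have e3 := th_inv_pow hωiω (n₂ * (j₀ : ℕ))
    have e4 : (n₀ : PowerSeries ℂ) * w * th ω = ω * th w := by
      have := th_pow' ω n₀
      rw [hω] at this
      exact this.symm
    have hne : (n₀ : PowerSeries ℂ) * ω ≠ 0 := by
      refine mul_ne_zero ?_ hωne
      rw [hCnat, Ne, map_eq_zero_iff _ PowerSeries.C_injective]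
      exact hn₀C
    have e5 : ((n₂ * (j₀ : ℕ) : ℕ) : PowerSeries ℂ) = (n₂ : PowerSeries ℂ) *
        (PowerSeries.C ((j₀ : ℕ) / (n₀ : ℂ)) * (n₀ : PowerSeries ℂ)) := by
      rw [hβ]; push_cast; ring
    have e6 : w * th (iω ^ (n₂ * (j₀ : ℕ))) = -(PowerSeries.C ((j₀ : ℕ) / (n₀ : ℂ)) *
        (n₂ : PowerSeries ℂ) * th w * iω ^ (n₂ * (j₀ : ℕ))) := by
      apply mul_left_cancel₀ hne
      rw [e5] at e3
      linear_combination ((n₀ : PowerSeries ℂ) * w) * e3 - ((n₂ : PowerSeries ℂ) *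
        (PowerSeries.C ((j₀ : ℕ) / (n₀ : ℂ)) * (n₀ : PowerSeries ℂ)) *
          iω ^ (n₂ * (j₀ : ℕ))) * e4
    rw [hu, th_mul', hlam]
    linear_combination (w * iω ^ (n₂ * (j₀ : ℕ))) * e1 + (s * s ^ (j₀ : ℕ)) * e6 -
      (w * th s * (s ^ (j₀ : ℕ) * iω ^ (n₂ * (j₀ : ℕ)))) * hβ
  set dd : PowerSeries ℂ := PowerSeries.C ((D : ℂ)⁻¹) with hdd
  refine ⟨ig, hVig, fun i => ?_⟩
  have e1 : s * w * th ((h i).subst Φ) = lam * ((∑ l, dd * ig *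
      Polynomial.aeval Φ (A i l) * (h l).subst Φ) -
      PowerSeries.C ((j₀ : ℕ) / (n₀ : ℂ)) * (h i).subst Φ) := by
    rw [hchain, hsol i, subst_sub hsub, subst_mul hsub, subst_CC, subst_sumC hsub]
    congr 2
    refine Finset.sum_congr rfl fun l _ => ?_
    rw [subst_mul hsub, Aps_apply, pow_one, Polynomial.map_id, subst_mul hsub, subst_mul hsub,
      subst_CC, subst_coe hsub]
  have e2 : evM Φ A (fun l => u * (h l).subst Φ) i =
      u * ∑ l, Polynomial.aeval Φ (A i l) * (h l).subst Φ := by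
    unfold evM
    rw [Finset.mul_sum]
    exact Finset.sum_congr rfl fun l _ => by ring
  have e3 : (∑ l, dd * ig * Polynomial.aeval Φ (A i l) * (h l).subst Φ) =
      dd * ig * ∑ l, Polynomial.aeval Φ (A i l) * (h l).subst Φ := by
    rw [Finset.mul_sum]
    exact Finset.sum_congr rfl fun l _ => by ring
  rw [e3] at e1
  rw [e2, th_mul']
  linear_combination (h i).subst Φ * hthu + u * e1

end star

section pull

/-- The homogenized polynomial. -/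
noncomputable def homP (S W : PowerSeries ℂ) (m : ℕ) (p : Polynomial ℂ) : PowerSeries ℂ :=
  ∑ k ∈ range (m + 1), PowerSeries.C (p.coeff k) * (S ^ k * W ^ (m - k))

lemma homP_eq {S W Φ : PowerSeries ℂ} (h : W * Φ = S) {m : ℕ} {p : Polynomial ℂ}
    (hp : p.natDegree ≤ m) : W ^ m * Polynomial.aeval Φ p = homP S W m p := by
  unfold homP
  rw [Polynomial.aeval_eq_sum_range' (n := m + 1) (by omega), Finset.mul_sum]
  refine Finset.sum_congr rfl fun k hk => ?_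
  rw [mem_range] at hk
  have h1 : W ^ m = W ^ k * W ^ (m - k) := by
    rw [← pow_add]
    congr 1
    omega
  rw [PowerSeries.smul_eq_C_mul, h1, ← h, mul_pow]
  ring

lemma homP_conv {S W : PowerSeries ℂ} (hS : CConv S) (hW : CConv W) (m : ℕ) (p : Polynomial ℂ) :
    CConv (homP S W m p) :=
  CConv.sum _ fun k _ => (CConv.C _).mul ((hS.pow k).mul (hW.pow _))

lemma cnrm_homP {S W : PowerSeries ℂ} (hS : CConv S) (hW : CConv W) {m : ℕ} {p : Polynomial ℂ}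
    {R H : ℝ} (hR0 : 0 < R) (hR1 : R < 1) (hH : ∀ k, ‖p.coeff k‖ ≤ H) :
    cnrm R (homP S W m p) ≤ H * ∑ k ∈ range (m + 1), cnrm R (S ^ k * W ^ (m - k)) := by
  have hH0 : 0 ≤ H := (norm_nonneg _).trans (hH 0)
  unfold homP
  refine (cnrm_sum hR0 _ fun k _ => ((CConv.C _).mul ((hS.pow k).mul (hW.pow _))) R hR0 hR1).trans ?_
  rw [Finset.mul_sum]
  refine Finset.sum_le_sum fun k _ => ?_
  refine (cnrm_mul hR0 (CSm.C _) (((hS.pow k).mul (hW.pow _)) R hR0 hR1)).trans ?_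
  rw [cnrm_C]
  exact mul_le_mul_of_nonneg_right (hH k) (cnrm_nonneg hR0)

/-- A quantitative version of the theorem on the pull-back of flat bundles on compact triangle
orbifolds. -/
theorem eff_pull {n₀ n₁ n₂ : ℕ} (hn₀ : 0 < n₀) (hn₁ : 0 < n₁) (hn₂ : 0 < n₂)
    {s v w a b ω : PowerSeries ℂ} (hs : CConv s) (hv : CConv v) (hw : CConv w) (ha : CConv a)
    (hb : CConv b) (hs0 : constantCoeff s = 0) (hs1 : coeff 1 s ≠ 0)
    (hrel : s ^ n₀ + v ^ n₁ = w ^ n₂) (hab : a * s + b * w = 1) (hω : ω ^ n₀ = w)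
    (e m N : ℕ) {R₀ : ℝ} (hR₀ : 0 < R₀) (hR₀1 : R₀ < 1) : ∃ C : ℝ, 0 < C ∧
    ∀ (idx : Type) [Fintype idx] [DecidableEq idx] (D : ℕ)
      (A T T' : Matrix idx idx (Polynomial ℂ)) (m' c' : ℕ) (j₀ : Fin n₀)
      (h : idx → PowerSeries ℂ) (H : ℝ) (X : ℕ), D ≠ 0 → Fintype.card idx = N →
      Polynomial.aeval (-(A.map fun a => a.coeff 0)) (eigPoly n₀ D) = 0 →
      Polynomial.aeval (A.map (Polynomial.eval 1)) (eigPoly n₁ D) = 0 →
      InfGauge D n₂ e m' c' A T T' →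
      IsSolG (Aps (RingHom.id ℂ) (D : ℂ)⁻¹ 1 A) ((j₀ : ℕ) / (n₀ : ℂ)) h →
      (∀ i j, (A i j).natDegree ≤ m) → (∀ i j k, ‖(A i j).coeff k‖ ≤ H * D) → 1 ≤ H →
      (∀ i k, ‖coeff k (h i)‖ ≤ 2 ^ (X + k)) → ∀ i,
      CConv (s ^ (j₀ : ℕ) * w ^ (n₂ * e) * ω⁻¹ ^ (n₂ * (j₀ : ℕ)) *
        (h i).subst (s ^ n₀ * w⁻¹ ^ n₂)) ∧
      cnrm R₀ (s ^ (j₀ : ℕ) * w ^ (n₂ * e) * ω⁻¹ ^ (n₂ * (j₀ : ℕ)) *
        (h i).subst (s ^ n₀ * w⁻¹ ^ n₂)) ≤ Real.exp (C * (H + X)) := by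
  classical
  have hsne : s ≠ 0 := by
    rintro rfl
    exact hs1 (map_zero _)
  have hwc : constantCoeff w ≠ 0 := by
    intro h1
    have h2 := congrArg constantCoeff hab
    rw [map_add, map_mul, map_mul, hs0, h1, mul_zero, mul_zero, add_zero, map_one] at h2
    exact zero_ne_one h2
  have hωc : constantCoeff ω ≠ 0 := by
    intro h1
    apply hwc
    rw [← hω, map_pow, h1, zero_pow hn₀.ne']
  have hvc : constantCoeff v ≠ 0 := by
    intro h1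
    have h2 := congrArg constantCoeff hrel
    rw [map_add, map_pow, map_pow, map_pow, hs0, h1, zero_pow hn₀.ne', zero_pow hn₁.ne',
      add_zero] at h2
    exact pow_ne_zero n₂ hwc h2.symm
  have hwne : w ≠ 0 := by
    rintro rfl
    exact hwc (map_zero _)
  have hvne : v ≠ 0 := by
    rintro rfl
    exact hvc (map_zero _)
  have hwiw : w * w⁻¹ = 1 := PowerSeries.mul_inv_cancel w hwc
  have hωiω : ω * ω⁻¹ = 1 := PowerSeries.mul_inv_cancel ω hωc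
  set Φ : PowerSeries ℂ := s ^ n₀ * w⁻¹ ^ n₂ with hΦ
  have h0 : constantCoeff Φ = 0 := by
    rw [hΦ, map_mul, map_pow, hs0, zero_pow hn₀.ne', zero_mul]
  have hWΦ : w ^ n₂ * Φ = s ^ n₀ := by
    have : w ^ n₂ * w⁻¹ ^ n₂ = 1 := by rw [← mul_pow, hwiw, one_pow]
    rw [hΦ]
    linear_combination (s ^ n₀) * this
  -- a small disc
  obtain ⟨ρ₁, hρ₁0, hρ₁1, hρ₁⟩ := inv_csm hw hwc
  have hΦ₁ : CSm ρ₁ Φ := CSm.mul hρ₁0 ((hs.pow n₀) ρ₁ hρ₁0 hρ₁1) (CSm.pow hρ₁0 hρ₁ n₂)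
  set cΦ := cnrm ρ₁ Φ with hcΦ
  have hcΦ0 : 0 ≤ cΦ := cnrm_nonneg hρ₁0
  set ρ : ℝ := min (min ρ₁ R₀) (ρ₁ / (8 * (cΦ + 1))) with hρ
  have hρ0 : 0 < ρ := lt_min (lt_min hρ₁0 hR₀) (by positivity)
  have hρle : ρ ≤ ρ₁ := (min_le_left _ _).trans (min_le_left _ _)
  have hρR : ρ ≤ R₀ := (min_le_left _ _).trans (min_le_right _ _)
  have hρ8 : ρ ≤ ρ₁ / (8 * (cΦ + 1)) := min_le_right _ _
  have hΦρ : CSm ρ Φ := hΦ₁.mono hρ0.le hρle
  have hΦ8 : cnrm ρ Φ ≤ 1 / 8 := by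
    refine (cnrm_small hΦ₁ hρ0 hρle h0).trans ?_
    rw [← hcΦ]
    calc ρ / ρ₁ * cΦ ≤ (ρ₁ / (8 * (cΦ + 1))) / ρ₁ * cΦ := by gcongr
      _ = cΦ / (8 * (cΦ + 1)) := by field_simp
      _ ≤ 1 / 8 := by
          rw [div_le_div_iff₀ (by positivity) (by norm_num)]
          linarith
  set r₀ : ℝ := ρ / 2 with hr₀
  have hr₀0 : 0 < r₀ := by positivity
  have hr₀R : r₀ < R₀ := by rw [hr₀]; linarith
  have hr₀1 : r₀ < 1 := hr₀R.trans hR₀1
  -- the system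
  set θ : PowerSeries ℂ := s * w * v ^ n₁ * (w ^ n₂) ^ m with hθ
  have hθC : CConv θ := ((hs.mul hw).mul (hv.pow _)).mul ((hw.pow _).pow _)
  have hθ0 : θ ≠ 0 := mul_ne_zero (mul_ne_zero (mul_ne_zero hsne hwne) (pow_ne_zero _ hvne))
    (pow_ne_zero _ (pow_ne_zero _ hwne))
  obtain ⟨R₁, C₁, z₁, hR₁0, hR₁1, hC₁, hz₁, hθz, harch⟩ := arch_transport hθC hθ0 hr₀0 hr₀R hR₀1
  have hR₁pos : 0 < R₁ := by linarith
  have hz₁1 : ‖z₁‖ ≤ r₀ := hz₁.le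
  have hwz : ev w z₁ ≠ 0 := by
    intro h1
    apply hθz
    have e1 : θ = w * (s * v ^ n₁ * (w ^ n₂) ^ m) := by rw [hθ]; ring
    rw [e1, ev_mul (hw r₀ hr₀0 hr₀1) (((hs.mul (hv.pow _)).mul ((hw.pow _).pow _)) r₀ hr₀0 hr₀1)
      hz₁1, h1, zero_mul]
  set lam : PowerSeries ℂ := (n₀ : PowerSeries ℂ) * w * th s - (n₂ : PowerSeries ℂ) * s * th w
    with hlam
  have hlamC : CConv lam := (((CConv.natCast n₀).mul hw).mul hs.th).sub
    (((CConv.natCast n₂).mul hs).mul hw.th)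
  set W : PowerSeries ℂ := w ^ (n₂ * e) with hW
  have hWC : CConv W := hw.pow _
  set B₀ : PowerSeries ℂ := ((n₂ * e : ℕ) : PowerSeries ℂ) * (s * v ^ n₁ * (w ^ n₂) ^ m * th w)
    with hB₀
  have hB₀C : CConv B₀ := (CConv.natCast _).mul (((hs.mul (hv.pow _)).mul ((hw.pow _).pow _)).mul
    hw.th)
  obtain ⟨c₂, hc₂⟩ : ∃ x : ℝ, x = cnrm R₁ (lam * w ^ n₂) := ⟨_, rfl⟩
  have hc₂0 : 0 ≤ c₂ := by
    rw [hc₂]
    exact cnrm_nonneg hR₁pos
  obtain ⟨c₃, hc₃⟩ : ∃ x : ℝ, x = ∑ k ∈ range (m + 1),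
    cnrm R₁ ((s ^ n₀) ^ k * (w ^ n₂) ^ (m - k)) := ⟨_, rfl⟩
  have hc₃0 : 0 ≤ c₃ := by
    rw [hc₃]
    exact Finset.sum_nonneg fun _ _ => cnrm_nonneg hR₁pos
  obtain ⟨c₅, hc₅⟩ : ∃ x : ℝ, x = cnrm R₁ B₀ := ⟨_, rfl⟩
  have hc₅0 : 0 ≤ c₅ := by
    rw [hc₅]
    exact cnrm_nonneg hR₁pos
  obtain ⟨C₄, hC₄⟩ : ∃ x : ℝ, x = c₅ + c₂ * c₃ := ⟨_, rfl⟩
  have hC₄0 : 0 ≤ C₄ := by
    rw [hC₄]
    exact add_nonneg hc₅0 (mul_nonneg hc₂0 hc₃0)
  obtain ⟨C₃, hC₃⟩ : ∃ x : ℝ, x = 1 + ∑ j : Fin n₀, ‖ev s z₁‖ ^ ((j : ℕ) * n₀) *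
    ‖ev W z₁‖ ^ n₀ / ‖ev w z₁‖ ^ (n₂ * (j : ℕ)) := ⟨_, rfl⟩
  have hwz0 : 0 < ‖ev w z₁‖ := norm_pos_iff.mpr hwz
  have hC₃1 : 1 ≤ C₃ := by
    rw [hC₃]
    have : 0 ≤ ∑ j : Fin n₀, ‖ev s z₁‖ ^ ((j : ℕ) * n₀) * ‖ev W z₁‖ ^ n₀ /
      ‖ev w z₁‖ ^ (n₂ * (j : ℕ)) := Finset.sum_nonneg fun _ _ => by positivity
    linarith
  refine ⟨|Real.log (C₁ * (4 * C₃))| + 1 + C₁ * (N * C₄), by positivity, ?_⟩
  intro idx _ _ D A T T' m' c' j₀ h H X hD hcard hA0 hA1 hinf hsol hdeg hH hH1 hh i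
  have hDC : (D : ℂ) ≠ 0 := by exact_mod_cast hD
  have hconv := orb_conv hn₀ hn₁ hn₂ hD hs hv hw ha hb hs0 hs1 hrel hab hω hA0 hA1 hinf hsol
  refine ⟨hconv i, ?_⟩
  set iω := ω⁻¹ with hiω
  obtain ⟨ig, hVig, hstar⟩ := orb_star (D := D) hn₀ hs0 hwc hrel hω hsol
  rw [← hiω, ← hΦ, ← hlam] at hstar
  set dd : PowerSeries ℂ := PowerSeries.C ((D : ℂ)⁻¹) with hdd
  set G : idx → PowerSeries ℂ := fun l => s ^ (j₀ : ℕ) * iω ^ (n₂ * (j₀ : ℕ)) * (h l).subst Φ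
    with hG
  set g : idx → PowerSeries ℂ := fun l => s ^ (j₀ : ℕ) * W * iω ^ (n₂ * (j₀ : ℕ)) *
    (h l).subst Φ with hg
  have hgG : ∀ l, g l = W * G l := fun l => by rw [hg, hG]; ring
  set B : idx → idx → PowerSeries ℂ := fun i l => (if i = l then B₀ else 0) -
    (lam * w ^ n₂) * (dd * homP (s ^ n₀) (w ^ n₂) m (A i l)) with hB
  have hBC : ∀ i l, CConv (B i l) := by
    intro i l
    refine CConv.sub ?_ ((hlamC.mul (hw.pow _)).mul ((CConv.C _).mul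
      (homP_conv (hs.pow _) (hw.pow _) _ _)))
    split_ifs
    · exact hB₀C
    · exact CConv.zero
  have hWpow : w * th W = ((n₂ * e : ℕ) : PowerSeries ℂ) * W * th w := th_pow' w (n₂ * e)
  have hsys : ∀ i, θ * th (g i) = ∑ l, B i l * g l := by
    intro i
    have e1 : ∑ l, B i l * g l = B₀ * g i - (lam * w ^ n₂) * (dd *
        ((w ^ n₂) ^ m * ∑ l, Polynomial.aeval Φ (A i l) * g l)) := by
      rw [hB]
      simp only [sub_mul, Finset.sum_sub_distrib, ite_mul, zero_mul, Finset.sum_ite_eq,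
        mem_univ, if_true]
      congr 1
      rw [Finset.mul_sum, Finset.mul_sum, Finset.mul_sum]
      refine Finset.sum_congr rfl fun l _ => ?_
      rw [← homP_eq hWΦ (hdeg i l)]
      ring
    have e2 : W * evM Φ A G i = ∑ l, Polynomial.aeval Φ (A i l) * g l := by
      unfold evM
      rw [Finset.mul_sum]
      exact Finset.sum_congr rfl fun l _ => by rw [hgG]; ring
    have e3 : w * th (g i) = ((n₂ * e : ℕ) : PowerSeries ℂ) * th w * g i + W * (w * th (G i)) := by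
      rw [hgG i, th_mul']
      linear_combination (G i) * hWpow
    have e4 := hstar i
    rw [e1, ← e2, hθ, hB₀]
    linear_combination (s * v ^ n₁ * (w ^ n₂) ^ m) * e3 + (W * v ^ n₁ * (w ^ n₂) ^ m) * e4 +
      (lam * dd * (w ^ n₂) ^ m * W * evM Φ A G i) * hVig
  have hBb : ∀ i l, cnrm R₁ (B i l) ≤ C₄ * H := by
    intro i l
    have e1 : cnrm R₁ (dd * homP (s ^ n₀) (w ^ n₂) m (A i l)) ≤ H * c₃ := by
      refine (cnrm_mul hR₁pos (CSm.C _) ((homP_conv (hs.pow _) (hw.pow _) _ _) R₁ hR₁pos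
        hR₁1)).trans ?_
      rw [cnrm_C, norm_inv, Complex.norm_natCast]
      have hD0 : (0 : ℝ) < D := by exact_mod_cast Nat.pos_of_ne_zero hD
      calc (D : ℝ)⁻¹ * cnrm R₁ (homP (s ^ n₀) (w ^ n₂) m (A i l))
          ≤ (D : ℝ)⁻¹ * ((H * D) * c₃) := by
            refine mul_le_mul_of_nonneg_left ?_ (by positivity)
            rw [hc₃]
            exact cnrm_homP (hs.pow _) (hw.pow _) hR₁pos hR₁1 (hH i l)
        _ = H * c₃ := by field_simp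
    have e2 : cnrm R₁ ((lam * w ^ n₂) * (dd * homP (s ^ n₀) (w ^ n₂) m (A i l))) ≤
        c₂ * (H * c₃) := by
      rw [hc₂]
      refine (cnrm_mul hR₁pos ((hlamC.mul (hw.pow _)) R₁ hR₁pos hR₁1) (((CConv.C _).mul
        (homP_conv (hs.pow _) (hw.pow _) _ _)) R₁ hR₁pos hR₁1)).trans ?_
      rw [← hc₂]
      exact mul_le_mul_of_nonneg_left e1 hc₂0
    have e3 : cnrm R₁ (if i = l then B₀ else 0) ≤ c₅ := by
      split_ifs
      · exact hc₅.ge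
      · have : cnrm R₁ (0 : PowerSeries ℂ) = 0 := by
          rw [← map_zero (PowerSeries.C (R := ℂ)), cnrm_C, norm_zero]
        rw [this]
        exact hc₅0
    have hifC : CConv (if i = l then B₀ else 0) := by
      split_ifs
      · exact hB₀C
      · exact CConv.zero
    have e4 : cnrm R₁ (B i l) ≤ cnrm R₁ (if i = l then B₀ else 0) +
        cnrm R₁ ((lam * w ^ n₂) * (dd * homP (s ^ n₀) (w ^ n₂) m (A i l))) := by
      have h5 := ((hlamC.mul (hw.pow n₂)).mul ((CConv.C ((D : ℂ)⁻¹)).mul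
        (homP_conv (hs.pow n₀) (hw.pow n₂) m (A i l))))
      have h6 := cnrm_add hR₁pos (hifC R₁ hR₁pos hR₁1) (h5.neg R₁ hR₁pos hR₁1)
      rw [← sub_eq_add_neg] at h6
      refine h6.trans (le_of_eq ?_)
      congr 1
      unfold cnrm
      exact tsum_congr fun n => by rw [map_neg, norm_neg]
    rw [hC₄]
    have e5 : c₅ ≤ c₅ * H := le_mul_of_one_le_right hc₅0 hH1
    calc cnrm R₁ (B i l) ≤ c₅ + c₂ * (H * c₃) := e4.trans (add_le_add e3 e2)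
      _ ≤ c₅ * H + c₂ * (H * c₃) := by linarith
      _ = _ := by ring
  -- the initial value
  have hF : ∀ l, CSm r₀ ((h l).subst Φ) ∧ cnrm r₀ ((h l).subst Φ) ≤ 4 * 2 ^ X := by
    intro l
    have h1 := coeff_subst_bound (h := h l) (K := 2 ^ X) hρ0 hΦρ h0 hΦ8 (by positivity)
      (fun k => by rw [← pow_add]; exact hh l k)
    obtain ⟨h2, h3⟩ := csm_of_bound hρ0 h1 hr₀0.le (by rw [hr₀]; linarith)
    refine ⟨h2, h3.trans (le_of_eq ?_)⟩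
    have h4 : r₀ / ρ = 1 / 2 := by rw [hr₀]; field_simp
    rw [h4]
    ring
  have hinit : ∀ l, ‖ev (g l) z₁‖ ≤ C₃ * (4 * 2 ^ X) := by
    intro l
    obtain ⟨hF1, hF2⟩ := hF l
    have hcl := hconv l
    have e1 : w ^ (n₂ * (j₀ : ℕ)) * g l ^ n₀ =
        s ^ ((j₀ : ℕ) * n₀) * W ^ n₀ * ((h l).subst Φ) ^ n₀ := by
      have e2 : w ^ (n₂ * (j₀ : ℕ)) * (iω ^ (n₂ * (j₀ : ℕ))) ^ n₀ = 1 := by
        rw [← hω, ← pow_mul, ← pow_mul, mul_comm (n₂ * (j₀ : ℕ)) n₀, ← mul_pow, hωiω, one_pow]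
      rw [hg, mul_pow, mul_pow, mul_pow, ← pow_mul]
      linear_combination (s ^ ((j₀ : ℕ) * n₀) * W ^ n₀ * ((h l).subst Φ) ^ n₀) * e2
    have hgl : CSm r₀ (g l) := hcl r₀ hr₀0 hr₀1
    have e3 : ev w z₁ ^ (n₂ * (j₀ : ℕ)) * ev (g l) z₁ ^ n₀ =
        ev s z₁ ^ ((j₀ : ℕ) * n₀) * ev W z₁ ^ n₀ * ev ((h l).subst Φ) z₁ ^ n₀ := by
      have e4 := congrArg (fun f => ev f z₁) e1
      have hsr := hs r₀ hr₀0 hr₀1
      have hwr := hw r₀ hr₀0 hr₀1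
      have hWr := hWC r₀ hr₀0 hr₀1
      rw [ev_mul (CSm.pow hr₀0 hwr _) (CSm.pow hr₀0 hgl _) hz₁1, ev_pow hr₀0 hwr hz₁1,
        ev_pow hr₀0 hgl hz₁1, ev_mul (CSm.mul hr₀0 (CSm.pow hr₀0 hsr _) (CSm.pow hr₀0 hWr _))
          (CSm.pow hr₀0 hF1 _) hz₁1, ev_mul (CSm.pow hr₀0 hsr _) (CSm.pow hr₀0 hWr _) hz₁1,
        ev_pow hr₀0 hsr hz₁1, ev_pow hr₀0 hWr hz₁1, ev_pow hr₀0 hF1 hz₁1] at e4
      exact e4
    have e5 := congrArg norm e3
    rw [norm_mul, norm_mul, norm_mul, norm_pow, norm_pow, norm_pow, norm_pow, norm_pow] at e5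
    have hFz : ‖ev ((h l).subst Φ) z₁‖ ≤ 4 * 2 ^ X := (norm_ev_le hF1 hz₁1).trans hF2
    have e6 : ‖ev (g l) z₁‖ ^ n₀ ≤ (C₃ * (4 * 2 ^ X)) ^ n₀ := by
      have e7 : ‖ev (g l) z₁‖ ^ n₀ = ‖ev s z₁‖ ^ ((j₀ : ℕ) * n₀) * ‖ev W z₁‖ ^ n₀ /
          ‖ev w z₁‖ ^ (n₂ * (j₀ : ℕ)) * ‖ev ((h l).subst Φ) z₁‖ ^ n₀ := by
        rw [div_mul_eq_mul_div, eq_div_iff (by positivity), ← e5]
        ring
      have e8 : ‖ev s z₁‖ ^ ((j₀ : ℕ) * n₀) * ‖ev W z₁‖ ^ n₀ /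
          ‖ev w z₁‖ ^ (n₂ * (j₀ : ℕ)) ≤ C₃ := by
        rw [hC₃]
        have := Finset.single_le_sum (f := fun j : Fin n₀ =>
          ‖ev s z₁‖ ^ ((j : ℕ) * n₀) * ‖ev W z₁‖ ^ n₀ / ‖ev w z₁‖ ^ (n₂ * (j : ℕ)))
          (fun _ _ => by positivity) (mem_univ j₀)
        linarith
      rw [e7, mul_pow]
      refine mul_le_mul (e8.trans (le_self_pow₀ hC₃1 hn₀.ne')) ?_ (by positivity) (by positivity)
      exact pow_le_pow_left₀ (norm_nonneg _) hFz n₀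
    exact (pow_le_pow_iff_left₀ (norm_nonneg _) (by positivity) hn₀.ne').mp e6
  -- the conclusion
  have hfin := harch idx g B (C₄ * H) (C₃ * (4 * 2 ^ X)) hconv hBC hsys (by positivity) hBb
    (by positivity) hinit i
  refine hfin.trans ?_
  rw [hcard]
  have e1 : C₁ * (C₃ * (4 * 2 ^ X)) = C₁ * (4 * C₃) * 2 ^ X := by ring
  have e2 : C₁ * (4 * C₃) ≤ Real.exp |Real.log (C₁ * (4 * C₃))| := by
    have e3 : 0 < C₁ * (4 * C₃) := by positivity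
    calc C₁ * (4 * C₃) = Real.exp (Real.log (C₁ * (4 * C₃))) := (Real.exp_log e3).symm
      _ ≤ _ := Real.exp_le_exp.mpr (le_abs_self _)
  have e3 : (2 : ℝ) ^ X ≤ Real.exp X := by
    have e4 : (2 : ℝ) ≤ Real.exp 1 := by
      have := Real.add_one_le_exp (1 : ℝ)
      linarith
    calc (2 : ℝ) ^ X ≤ Real.exp 1 ^ X := pow_le_pow_left₀ (by norm_num) e4 X
      _ = Real.exp X := by rw [← Real.exp_nat_mul, mul_one]
  have hX0 : (0 : ℝ) ≤ X := Nat.cast_nonneg X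
  calc C₁ * (C₃ * (4 * 2 ^ X)) * Real.exp (C₁ * (N * (C₄ * H)))
      ≤ Real.exp |Real.log (C₁ * (4 * C₃))| * Real.exp X * Real.exp (C₁ * (N * (C₄ * H))) := by
        rw [e1]
        refine mul_le_mul_of_nonneg_right ?_ (Real.exp_pos _).le
        exact mul_le_mul e2 e3 (by positivity) (Real.exp_pos _).le
    _ = Real.exp (|Real.log (C₁ * (4 * C₃))| + X + C₁ * (N * (C₄ * H))) := by
        rw [Real.exp_add, Real.exp_add]
    _ ≤ Real.exp ((|Real.log (C₁ * (4 * C₃))| + 1 + C₁ * (N * C₄)) * (H + X)) := by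
        apply Real.exp_le_exp.mpr
        have h1 : 0 ≤ |Real.log (C₁ * (4 * C₃))| := abs_nonneg _
        have h2 : 0 ≤ C₁ * (N * C₄) := by positivity
        have h3 : C₁ * (N * (C₄ * H)) = C₁ * (N * C₄) * H := by ring
        have h4 : 0 ≤ C₁ * (N * C₄) * X := mul_nonneg h2 hX0
        have h5 : |Real.log (C₁ * (4 * C₃))| ≤ |Real.log (C₁ * (4 * C₃))| * H :=
          le_mul_of_one_le_right h1 hH1
        have h6 : 0 ≤ |Real.log (C₁ * (4 * C₃))| * X := mul_nonneg h1 hX0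
        rw [h3]
        nlinarith

end pull

end Pool.Agent.H925
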