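import Pool.Agent.H925.EffArch
import Pool.Agent.H925.CritM
import Pool.Graph.R_pool_sql_team_seeded_620a6dc7.Helper338PC.GSys

set_option autoImplicit false

open PowerSeries Finset

namespace Pool.Agent.H925

open Pool.Agent.Helper338PC (th coeff_th IsSolG Aps Aps_apply wg)

section small

variable {f : PowerSeries ℂ} {R R' : ℝ}

lemma CSm.mono (hf : CSm R f) (h0 : 0 ≤ R') (h : R' ≤ R) : CSm R' f :=
  Summable.of_nonneg_of_le (fun _ => by positivity)
    (fun n => mul_le_mul_of_nonneg_left (pow_le_pow_left₀ h0 h n) (norm_nonneg _)) hf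

lemma cnrm_mono (hf : CSm R f) (h0 : 0 ≤ R') (h : R' ≤ R) : cnrm R' f ≤ cnrm R f :=
  (hf.mono h0 h).tsum_le_tsum
    (fun n => mul_le_mul_of_nonneg_left (pow_le_pow_left₀ h0 h n) (norm_nonneg _)) hf

lemma cnrm_small (hf : CSm R f) (h0 : 0 < R') (h : R' ≤ R) (hf0 : constantCoeff f = 0) :
    cnrm R' f ≤ R' / R * cnrm R f := by
  have hR : 0 < R := lt_of_lt_of_le h0 h
  unfold cnrm
  rw [← tsum_mul_left]
  refine (hf.mono h0.le h).tsum_le_tsum (fun n => ?_) (hf.mul_left _)
  rcases n with _ | n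
  · rw [coeff_zero_eq_constantCoeff_apply, hf0, norm_zero, zero_mul, zero_mul, mul_zero]
  · have h1 : R' ^ (n + 1) ≤ R' / R * R ^ (n + 1) := by
      rw [pow_succ, pow_succ]
      have h2 : R' ^ n ≤ R ^ n := pow_le_pow_left₀ h0.le h n
      calc R' ^ n * R' ≤ R ^ n * R' := mul_le_mul_of_nonneg_right h2 h0.le
        _ = R' / R * (R ^ n * R) := by field_simp
    calc ‖coeff (n + 1) f‖ * R' ^ (n + 1) ≤ ‖coeff (n + 1) f‖ * (R' / R * R ^ (n + 1)) :=
          mul_le_mul_of_nonneg_left h1 (norm_nonneg _)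
      _ = _ := by ring

lemma csm_of_bound {K : ℝ} (hR : 0 < R) (h : ∀ n, ‖coeff n f‖ * R ^ n ≤ K) (h0 : 0 ≤ R')
    (h1 : R' < R) : CSm R' f ∧ cnrm R' f ≤ K * (1 - R' / R)⁻¹ := by
  have hq : R' / R < 1 := (div_lt_one hR).mpr h1
  have hq0 : 0 ≤ R' / R := by positivity
  have h4 : ∀ n, ‖coeff n f‖ * R' ^ n ≤ K * (R' / R) ^ n := by
    intro n
    have h5 : ‖coeff n f‖ * R' ^ n = ‖coeff n f‖ * R ^ n * (R' / R) ^ n := by
      rw [div_pow]
      field_simp
    rw [h5]
    exact mul_le_mul_of_nonneg_right (h n) (by positivity)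
  have h6 := (summable_geometric_of_lt_one hq0 hq).mul_left K
  have h7 : CSm R' f := Summable.of_nonneg_of_le (fun _ => by positivity) h4 h6
  refine ⟨h7, ?_⟩
  unfold cnrm
  refine (h7.tsum_le_tsum h4 h6).trans ?_
  rw [tsum_mul_left, tsum_geometric_of_lt_one hq0 hq]

/-- The inverse of a convergent power series. -/
lemma inv_csm {w : PowerSeries ℂ} (hw : CConv w) (hw0 : constantCoeff w ≠ 0) :
    ∃ ρ : ℝ, 0 < ρ ∧ ρ < 1 ∧ CSm ρ w⁻¹ := by
  set w₀ := constantCoeff w with hw₀
  have hw0' : 0 < ‖w₀‖ := norm_pos_iff.mpr hw0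
  set u := w - PowerSeries.C w₀ with hu
  have hu0 : constantCoeff u = 0 := by rw [hu, map_sub, constantCoeff_C, sub_self]
  have huC : CConv u := hw.sub (CConv.C _)
  have huh := huC (1 / 2) (by norm_num) (by norm_num)
  set c := cnrm (1 / 2) u with hc
  have hc0 : 0 ≤ c := cnrm_nonneg (by norm_num)
  set ρ : ℝ := min (1 / 2) (‖w₀‖ / (4 * (c + 1))) with hρ
  have hρ0 : 0 < ρ := lt_min (by norm_num) (by positivity)
  have hρ1 : ρ ≤ 1 / 2 := min_le_left _ _
  have hρ2 : ρ ≤ ‖w₀‖ / (4 * (c + 1)) := min_le_right _ _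
  have hsm : cnrm ρ u ≤ ‖w₀‖ := by
    refine (cnrm_small huh hρ0 hρ1 hu0).trans ?_
    rw [← hc]
    calc ρ / (1 / 2) * c = 2 * ρ * c := by ring
      _ ≤ 2 * (‖w₀‖ / (4 * (c + 1))) * c := by gcongr
      _ = ‖w₀‖ * (c / (2 * (c + 1))) := by field_simp; ring
      _ ≤ ‖w₀‖ * 1 := by
          refine mul_le_mul_of_nonneg_left ?_ hw0'.le
          rw [div_le_one (by positivity)]
          linarith
      _ = ‖w₀‖ := mul_one _
  have hmul : w * w⁻¹ = 1 := PowerSeries.mul_inv_cancel w hw0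
  have key : ∀ n, ‖coeff n w⁻¹‖ * ρ ^ n ≤ ‖w₀‖⁻¹ := by
    intro n
    induction n using Nat.strong_induction_on with
    | _ n ih =>
      rcases Nat.eq_zero_or_pos n with rfl | hn
      · rw [pow_zero, mul_one, coeff_zero_eq_constantCoeff_apply, PowerSeries.constantCoeff_inv,
          norm_inv]
      have h1 : ∑ k ∈ range n, coeff (k + 1) w * coeff (n - (k + 1)) w⁻¹ +
          w₀ * coeff n w⁻¹ = 0 := by
        have h2 := congrArg (coeff n) hmul
        rw [coeff_mul, Finset.Nat.sum_antidiagonal_eq_sum_range_succ_mk, Finset.sum_range_succ',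
          coeff_one, if_neg hn.ne'] at h2
        simpa using h2
      have h3 : w₀ * coeff n w⁻¹ = -∑ k ∈ range n, coeff (k + 1) w * coeff (n - (k + 1)) w⁻¹ := by
        linear_combination h1
      have h4 : ‖w₀‖ * (‖coeff n w⁻¹‖ * ρ ^ n) ≤ ‖w₀‖⁻¹ * cnrm ρ u := by
        rw [← mul_assoc, ← norm_mul, h3, norm_neg]
        refine (mul_le_mul_of_nonneg_right (norm_sum_le _ _) (by positivity)).trans ?_
        rw [Finset.sum_mul]
        have h5 : ∀ k ∈ range n, ‖coeff (k + 1) w * coeff (n - (k + 1)) w⁻¹‖ * ρ ^ n ≤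
            ‖w₀‖⁻¹ * (‖coeff (k + 1) u‖ * ρ ^ (k + 1)) := by
          intro k hk
          rw [mem_range] at hk
          have e1 : coeff (k + 1) u = coeff (k + 1) w := by
            rw [hu, map_sub, coeff_C, if_neg (Nat.succ_ne_zero k), sub_zero]
          have e2 : ρ ^ n = ρ ^ (k + 1) * ρ ^ (n - (k + 1)) := by
            rw [← pow_add]
            congr 1
            omega
          rw [e1, e2, norm_mul]
          calc ‖coeff (k + 1) w‖ * ‖coeff (n - (k + 1)) w⁻¹‖ * (ρ ^ (k + 1) * ρ ^ (n - (k + 1)))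
              = (‖coeff (n - (k + 1)) w⁻¹‖ * ρ ^ (n - (k + 1))) *
                (‖coeff (k + 1) w‖ * ρ ^ (k + 1)) := by ring
            _ ≤ _ := mul_le_mul_of_nonneg_right (ih _ (by omega)) (by positivity)
        refine (Finset.sum_le_sum h5).trans ?_
        rw [← Finset.mul_sum]
        refine mul_le_mul_of_nonneg_left ?_ (by positivity)
        have h6 : ∑ k ∈ range n, ‖coeff (k + 1) u‖ * ρ ^ (k + 1) ≤
            ∑ k ∈ range (n + 1), ‖coeff k u‖ * ρ ^ k := by
          rw [Finset.sum_range_succ' (fun k => ‖coeff k u‖ * ρ ^ k)]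
          have : 0 ≤ ‖coeff 0 u‖ * ρ ^ 0 := by positivity
          linarith
        refine h6.trans ?_
        exact (huh.mono hρ0.le hρ1).sum_le_tsum _ fun k _ => by positivity
      have h7 : ‖w₀‖ * (‖coeff n w⁻¹‖ * ρ ^ n) ≤ ‖w₀‖ * ‖w₀‖⁻¹ := by
        refine h4.trans ?_
        rw [mul_comm]
        exact mul_le_mul_of_nonneg_right hsm (by positivity)
      exact le_of_mul_le_mul_left h7 hw0'
  refine ⟨ρ / 2, by positivity, by linarith, (csm_of_bound hρ0 key (by positivity)
    (by linarith)).1⟩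

/-- The coefficients of a composition. -/
lemma coeff_subst_bound {Φ h : PowerSeries ℂ} {ρ K : ℝ} (hρ : 0 < ρ) (hΦ : CSm ρ Φ)
    (h0 : constantCoeff Φ = 0) (h8 : cnrm ρ Φ ≤ 1 / 8) (hK : 0 ≤ K)
    (hh : ∀ s, ‖coeff s h‖ ≤ K * 2 ^ s) (n : ℕ) : ‖coeff n (h.subst Φ)‖ * ρ ^ n ≤ 2 * K := by
  have hs : HasSubst Φ := HasSubst.of_constantCoeff_zero' h0
  obtain ⟨Φ', hΦ'⟩ := (PowerSeries.X_dvd_iff).mpr h0
  have h1 : coeff n (h.subst Φ) = ∑ s ∈ range (n + 1), coeff s h * coeff n (Φ ^ s) := by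
    rw [coeff_subst' hs, finsum_eq_sum_of_support_subset (s := range (n + 1))]
    · exact Finset.sum_congr rfl fun s _ => smul_eq_mul _ _
    · intro s hs'
      rw [Function.mem_support] at hs'
      rw [Finset.coe_range, Set.mem_Iio]
      by_contra hcon
      push Not at hcon
      apply hs'
      rw [hΦ', mul_pow, PowerSeries.coeff_X_pow_mul', if_neg (by omega), smul_zero]
  rw [h1]
  refine (mul_le_mul_of_nonneg_right (norm_sum_le _ _) (by positivity)).trans ?_
  rw [Finset.sum_mul]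
  have h2 : ∀ s ∈ range (n + 1), ‖coeff s h * coeff n (Φ ^ s)‖ * ρ ^ n ≤ K * (1 / 4) ^ s := by
    intro s _
    rw [norm_mul, mul_assoc]
    have h3 : ‖coeff n (Φ ^ s)‖ * ρ ^ n ≤ (1 / 8) ^ s :=
      (coeff_le_cnrm hρ (CSm.pow hρ hΦ s) n).trans
        ((cnrm_pow hρ hΦ s).trans (pow_le_pow_left₀ (cnrm_nonneg hρ) h8 s))
    calc ‖coeff s h‖ * (‖coeff n (Φ ^ s)‖ * ρ ^ n) ≤ (K * 2 ^ s) * (1 / 8) ^ s :=
          mul_le_mul (hh s) h3 (by positivity) (by positivity)
      _ = K * (1 / 4) ^ s := by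
          rw [mul_assoc, ← mul_pow]
          norm_num
  refine (Finset.sum_le_sum h2).trans ?_
  rw [← Finset.mul_sum]
  have h3 : ∑ s ∈ range (n + 1), (1 / 4 : ℝ) ^ s ≤ 2 := by
    have h4 := summable_geometric_of_lt_one (r := (1 / 4 : ℝ)) (by norm_num) (by norm_num)
    refine (h4.sum_le_tsum _ fun _ _ => by positivity).trans ?_
    rw [tsum_geometric_of_lt_one (by norm_num) (by norm_num)]
    norm_num
  nlinarith

end small

section growth

/-- The growth of the coefficients of the solutions. -/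
theorem coeff_growth {idx : Type*} [Fintype idx] {A : Matrix idx idx (PowerSeries ℂ)}
    {b : ℂ} {h : idx → PowerSeries ℂ} (hsol : IsSolG A b h) {β : idx → ℂ} [DecidableEq idx]
    (hres : ∀ i j, coeff 0 (A i j) = if i = j then β i else 0) {n₀ : ℕ} (hn₀ : 0 < n₀)
    (hgap : ∀ (s : ℕ) i, 0 < s → (s : ℝ) / n₀ ≤ ‖(s : ℂ) + b - β i‖) {a : ℝ}
    (ha : ∀ s i j, 0 < s → ‖coeff s (A i j)‖ ≤ a) (h0 : ∀ i, ‖coeff 0 (h i)‖ ≤ 1) {X : ℕ}
    (hX : n₀ * Fintype.card idx * a ≤ X) (s : ℕ) (i : idx) :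
    ‖coeff s (h i)‖ ≤ 2 ^ (X + s) := by
  have key : ∀ s i, ‖coeff s (h i)‖ ≤ ((s + X).choose X : ℕ) := by
    intro s
    induction s using Nat.strong_induction_on with
    | _ s ih =>
      intro i
      rcases Nat.eq_zero_or_pos s with rfl | hs
      · refine (h0 i).trans ?_
        rw [zero_add, Nat.choose_self, Nat.cast_one]
      have h1 := hsol.rec s i
      have h3 : ∑ l, coeff 0 (A i l) * coeff s (h l) = β i * coeff s (h i) := by
        rw [Finset.sum_eq_single i]
        · rw [hres, if_pos rfl]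
        · intro l _ hl
          rw [hres, if_neg (Ne.symm hl), zero_mul]
        · intro h; exact absurd (mem_univ i) h
      rw [h3] at h1
      have h4 : ((s : ℂ) + b - β i) * coeff s (h i) =
          ∑ l, ∑ v ∈ range s, coeff (s - v) (A i l) * coeff v (h l) := by
        linear_combination h1
      have hn₀' : (0 : ℝ) < n₀ := by exact_mod_cast hn₀
      have hs' : (0 : ℝ) < s := by exact_mod_cast hs
      have ha0 : 0 ≤ a := (norm_nonneg _).trans (ha 1 i i one_pos)
      have h5 : ‖∑ l, ∑ v ∈ range s, coeff (s - v) (A i l) * coeff v (h l)‖ ≤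
          Fintype.card idx * (a * ∑ v ∈ range s, (((v + X).choose X : ℕ) : ℝ)) := by
        refine (norm_sum_le _ _).trans ?_
        have h6 : ∀ l ∈ (univ : Finset idx), ‖∑ v ∈ range s, coeff (s - v) (A i l) *
            coeff v (h l)‖ ≤ a * ∑ v ∈ range s, (((v + X).choose X : ℕ) : ℝ) := by
          intro l _
          refine (norm_sum_le _ _).trans ?_
          rw [Finset.mul_sum]
          refine Finset.sum_le_sum fun v hv => ?_
          rw [mem_range] at hv
          rw [norm_mul]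
          exact mul_le_mul (ha _ _ _ (by omega)) (ih v hv l) (norm_nonneg _) ha0
        refine (Finset.sum_le_sum h6).trans (le_of_eq ?_)
        rw [Finset.sum_const, Finset.card_univ, nsmul_eq_mul]
      have h7 : (∑ v ∈ range s, (v + X).choose X) * (X + 1) = s * (s + X).choose X := by
        obtain ⟨k, rfl⟩ : ∃ k, s = k + 1 := ⟨s - 1, by omega⟩
        rw [Nat.sum_range_add_choose]
        have h8 := Nat.choose_succ_right_eq (k + 1 + X) X
        have h9 : k + 1 + X - X = k + 1 := by omega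
        rw [h9] at h8
        have h10 : k + X + 1 = k + 1 + X := by omega
        rw [h10, h8, mul_comm]
      have h8 : (∑ v ∈ range s, (((v + X).choose X : ℕ) : ℝ)) * X ≤
          s * (((s + X).choose X : ℕ) : ℝ) := by
        have h9 : (∑ v ∈ range s, (v + X).choose X) * X ≤ s * (s + X).choose X := by
          rw [← h7]
          exact Nat.mul_le_mul_left _ (Nat.le_succ X)
        exact_mod_cast h9
      have h9 : (s : ℝ) / n₀ * ‖coeff s (h i)‖ ≤
          Fintype.card idx * (a * ∑ v ∈ range s, (((v + X).choose X : ℕ) : ℝ)) := by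
        refine le_trans ?_ h5
        rw [← h4, norm_mul]
        exact mul_le_mul_of_nonneg_right (hgap s i hs) (norm_nonneg _)
      have h10 : (s : ℝ) * ‖coeff s (h i)‖ ≤ s * (((s + X).choose X : ℕ) : ℝ) := by
        have hsum0 : 0 ≤ ∑ v ∈ range s, (((v + X).choose X : ℕ) : ℝ) :=
          Finset.sum_nonneg fun _ _ => Nat.cast_nonneg _
        calc (s : ℝ) * ‖coeff s (h i)‖ = n₀ * ((s : ℝ) / n₀ * ‖coeff s (h i)‖) := by
              field_simp
          _ ≤ n₀ * (Fintype.card idx * (a * ∑ v ∈ range s, (((v + X).choose X : ℕ) : ℝ))) :=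
              mul_le_mul_of_nonneg_left h9 hn₀'.le
          _ = (n₀ * Fintype.card idx * a) * ∑ v ∈ range s, (((v + X).choose X : ℕ) : ℝ) := by
              ring
          _ ≤ X * ∑ v ∈ range s, (((v + X).choose X : ℕ) : ℝ) :=
              mul_le_mul_of_nonneg_right hX hsum0
          _ ≤ _ := by rw [mul_comm]; exact h8
      exact le_of_mul_le_mul_left h10 hs'
  refine (key s i).trans ?_
  have := Nat.choose_le_two_pow (s + X) X
  rw [add_comm X s]
  exact_mod_cast this

end growth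

end Pool.Agent.H925
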