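import Pool.Agent.H925.ExtU

set_option autoImplicit false

open Finset IntermediateField

namespace Pool.Agent.H925

open Pool.Agent.Helper338PC

section simple

variable {F E : Type*} [Field F] [Field E] [Algebra F E]

lemma finrank_adjoin_le {a : E} {P : Polynomial F} (hP : P ≠ 0) (h : Polynomial.aeval a P = 0) :
    FiniteDimensional F F⟮a⟯ ∧ Module.finrank F F⟮a⟯ ≤ P.natDegree := by
  have ha : IsAlgebraic F a := ⟨P, hP, h⟩
  refine ⟨IntermediateField.adjoin.finiteDimensional ha.isIntegral, ?_⟩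
  rw [IntermediateField.adjoin.finrank ha.isIntegral]
  exact Polynomial.natDegree_le_of_dvd (minpoly.dvd _ _ h) hP

/-- An additive group of algebraic elements of bounded degree generates a simple extension. -/
theorem exists_simple [CharZero F] (A : AddSubgroup E) {M : ℕ}
    (hA : ∀ a ∈ A, ∃ P : Polynomial F, P ≠ 0 ∧ P.natDegree ≤ M ∧ Polynomial.aeval a P = 0) :
    ∃ a ∈ A, ∀ b ∈ A, b ∈ F⟮a⟯ := by
  classical
  -- an element of maximal degree
  obtain ⟨a, ha, hmax⟩ : ∃ a ∈ A, ∀ b ∈ A, Module.finrank F F⟮b⟯ ≤ Module.finrank F F⟮a⟯ := by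
    set T : Set ℕ := {d | ∃ a ∈ A, d = Module.finrank F F⟮a⟯} with hT
    have hne : T.Nonempty := ⟨_, 0, A.zero_mem, rfl⟩
    have hbdd : BddAbove T := by
      refine ⟨M, ?_⟩
      rintro d ⟨a, ha, rfl⟩
      obtain ⟨P, h1, h2, h3⟩ := hA a ha
      exact (finrank_adjoin_le h1 h3).2.trans h2
    obtain ⟨a, ha, h1⟩ := Nat.sSup_mem hne hbdd
    refine ⟨a, ha, fun b hb => ?_⟩
    rw [← h1]
    exact le_csSup hbdd ⟨b, hb, rfl⟩
  refine ⟨a, ha, fun b hb => ?_⟩
  obtain ⟨c, hc⟩ := exists_primitive_comb (F := F) (fun x : Bool => if x then a else b) (by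
    intro x
    obtain ⟨P, h1, _, h3⟩ := hA (if x then a else b) (by split_ifs <;> assumption)
    exact ⟨P, h1, h3⟩)
  set f : E := ∑ x : Bool, (c x : E) * (if x then a else b) with hf
  have hfA : f ∈ A := by
    refine sum_mem fun x _ => ?_
    rw [← zsmul_eq_mul]
    refine A.zsmul_mem ?_ _
    split_ifs <;> assumption
  have ha' : a ∈ F⟮f⟯ := by simpa using hc true
  have hb' : b ∈ F⟮f⟯ := by simpa using hc false
  obtain ⟨P, h1, h2, h3⟩ := hA f hfA
  have hfd := (finrank_adjoin_le h1 h3).1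
  have hle : F⟮a⟯ ≤ F⟮f⟯ := by
    rw [IntermediateField.adjoin_simple_le_iff]
    exact ha'
  have heq : F⟮a⟯ = F⟮f⟯ := IntermediateField.eq_of_le_of_finrank_le hle (hmax f hfA)
  rw [heq]
  exact hb'

lemma finrank_sup_le_pow {ι : Type*} [DecidableEq ι] {L : ι → IntermediateField F E} {M : ℕ}
    (h : ∀ i, FiniteDimensional F (L i) ∧ Module.finrank F (L i) ≤ M) (s : Finset ι) :
    FiniteDimensional F (s.sup L : IntermediateField F E) ∧
      Module.finrank F (s.sup L : IntermediateField F E) ≤ M ^ s.card := by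
  induction s using Finset.induction_on with
  | empty =>
    rw [Finset.sup_empty, Finset.card_empty, pow_zero]
    exact ⟨inferInstance, by rw [IntermediateField.finrank_bot]⟩
  | insert a s ha ih =>
    obtain ⟨h1, h2⟩ := ih
    obtain ⟨h3, h4⟩ := h a
    rw [Finset.sup_insert, Finset.card_insert_of_notMem ha, pow_succ]
    refine ⟨IntermediateField.finiteDimensional_sup _ _,
      (IntermediateField.finrank_sup_le _ _).trans ?_⟩
    rw [mul_comm]
    exact Nat.mul_le_mul h2 h4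

end simple

section sol

variable {r : ℕ}

/-- The system `Y' = G Y` has a full set of solutions in the differential extension `(F, δ)` of the
field of rational functions. -/
def SolvedIn {k : Type} [Field k] (G : Matrix (Fin r) (Fin r) (RatFunc k)) (F : Type) [Field F]
    [Algebra (RatFunc k) F] (δ : Derivation ℤ F F) : Prop :=
  ∃ Y : Matrix (Fin r) (Fin r) F, Y.det ≠ 0 ∧
    ∀ i j, δ (Y i j) = ∑ l, algebraMap (RatFunc k) F (G i l) * Y l j

/-- The fundamental matrix in the field of the Laurent series in a root of the variable. -/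
theorem sol_KF {K : Type} [Field K] [CharZero K] {R : Type*} [CommRing R] (φ : R →+* K)
    {D : ℕ} (hD : D ≠ 0) (n : ℕ) (A : Matrix (Fin r) (Fin r) (Polynomial R)) {β : Fin r → ℚ}
    {U : Matrix (Fin r) (Fin r) (PowerSeries K)} (hdet : (ccM U).det ≠ 0)
    (hU : ∀ j, IsSolG (Aps φ (D : K)⁻¹ n A) ((β j : ℚ) : K) (fun i => U i j))
    {N : ℕ} (hN : N ≠ 0) {m : Fin r → ℤ} (hm : ∀ j, (N : ℚ) * β j = m j) :
    (Matrix.of fun i j => psiF K N hN (U i j) * ttF K ^ (m j)).det ≠ 0 ∧
    ∀ i j, DxF K N (psiF K N hN (U i j) * ttF K ^ (m j)) =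
      ∑ l, phiF K N hN (sysG φ D n A i l) * (psiF K N hN (U l j) * ttF K ^ (m j)) := by
  classical
  have hDK : (D : K) ≠ 0 := by exact_mod_cast hD
  have hNK : (N : K) ≠ 0 := by exact_mod_cast hN
  have hdetH : U.det ≠ 0 := by
    intro h
    have h1 : PowerSeries.constantCoeff U.det = (ccM U).det := by
      rw [RingHom.map_det]
      rfl
    rw [h, map_zero] at h1
    exact hdet h1.symm
  refine ⟨?_, ?_⟩
  · have h1 : (Matrix.of fun i j => psiF K N hN (U i j) * ttF K ^ (m j)) =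
        (psiF K N hN).mapMatrix U * Matrix.diagonal fun j => ttF K ^ (m j) := by
      ext1 i j
      rw [Matrix.mul_diagonal]
      rfl
    rw [h1, Matrix.det_mul, Matrix.det_diagonal, ← RingHom.map_det]
    refine mul_ne_zero ?_ (Finset.prod_ne_zero_iff.mpr fun j _ => zpow_ne_zero _ (ttF_ne K))
    rw [Ne, map_eq_zero_iff _ (psiF_injective K N hN)]
    exact hdetH
  have hx0 : ttF K ^ N ≠ 0 := pow_ne_zero _ (ttF_ne K)
  have hβ : ∀ j, psiF K N hN (PowerSeries.C ((β j : ℚ) : K)) = (m j : KF K) / (N : KF K) := by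
    intro j
    have h2 : (N : KF K) ≠ 0 := natCast_KF hNK
    have h1 : (N : PowerSeries K) * PowerSeries.C ((β j : ℚ) : K) = (m j : PowerSeries K) := by
      have h3 : (N : PowerSeries K) = PowerSeries.C (N : K) := (map_natCast _ N).symm
      have h4 : (m j : PowerSeries K) = PowerSeries.C (m j : K) := (map_intCast _ (m j)).symm
      rw [h3, h4, ← map_mul]
      congr 1
      have h5 := congrArg (fun q : ℚ => (q : K)) (hm j)
      push_cast at h5
      exact h5
    have h3 := congrArg (psiF K N hN) h1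
    rw [map_mul, map_natCast, map_intCast] at h3
    rw [eq_div_iff h2, mul_comm]
    exact h3
  intro i j
  have h1 : DxF K N (psiF K N hN (U i j) * ttF K ^ (m j)) =
      psiF K N hN (PowerSeries.derivative K (U i j)) * ttF K ^ (m j) +
      psiF K N hN (U i j) * DxF K N (ttF K ^ (m j)) := by
    rw [Derivation.leibniz, smul_eq_mul, smul_eq_mul, DxF_psi hN hNK]
    ring
  have h2 : ttF K ^ N * DxF K N (ttF K ^ (m j)) = (m j : KF K) / (N : KF K) * ttF K ^ (m j) :=
    DxF_zpow hN hNK (m j)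
  have h3 := congrArg (psiF K N hN) (hU j i)
  rw [map_sub, map_sum, map_mul, hβ] at h3
  have h4 : psiF K N hN (th (U i j)) =
      ttF K ^ N * psiF K N hN (PowerSeries.derivative K (U i j)) := by
    unfold th
    rw [map_mul, psiF_X]
  rw [h4] at h3
  have h5 : ∀ l, psiF K N hN (Aps φ (D : K)⁻¹ n A i l * U l j) =
      ttF K ^ N * phiF K N hN (sysG φ D n A i l) * psiF K N hN (U l j) := by
    intro l
    rw [map_mul, phi_sysG φ hDK n A N hN i l]
  rw [Finset.sum_congr rfl fun l _ => h5 l] at h3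
  have h6 : ttF K ^ N * (∑ l, phiF K N hN (sysG φ D n A i l) *
      (psiF K N hN (U l j) * ttF K ^ (m j))) =
      (∑ l, ttF K ^ N * phiF K N hN (sysG φ D n A i l) * psiF K N hN (U l j)) *
        ttF K ^ (m j) := by
    rw [Finset.mul_sum, Finset.sum_mul]
    exact Finset.sum_congr rfl fun l _ => by ring
  apply mul_left_cancel₀ hx0
  rw [h6, h1]
  linear_combination (ttF K ^ (m j)) * h3 + psiF K N hN (U i j) * h2

/-- For additive groups `A j` of algebraic power series of bounded degree with rational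
coefficients there is a finite extension of `ℂ(x)`, of bounded degree, in which all systems
have a full set of solutions whose solutions are combinations of elements of the `A j`. -/
theorem exists_universal {N : ℕ} (hN : N ≠ 0) {M : ℕ} (A : Fin N → AddSubgroup (PowerSeries ℚ))
    (hA : ∀ j, ∀ f ∈ A j, ∃ P : Polynomial (Polynomial ℚ), P ≠ 0 ∧ P.natDegree < M ∧
      Polynomial.aeval f P = 0) :
    ∃ (F : Type) (_ : Field F) (_ : Algebra (RatFunc ℂ) F) (δ : Derivation ℤ F F),
      FiniteDimensional (RatFunc ℂ) F ∧ Module.finrank (RatFunc ℂ) F ≤ M ^ N * N ∧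
      (∀ f, δ (algebraMap (RatFunc ℂ) F f) = algebraMap (RatFunc ℂ) F (W432.PC.ddx ℂ f)) ∧
      ∀ (R : Type) [CommRing R] (φ : R →+* ℂ) (D n r : ℕ)
        (A₁ : Matrix (Fin r) (Fin r) (Polynomial R)) (jj : Fin r → Fin N)
        (U : Matrix (Fin r) (Fin r) (PowerSeries ℂ)), D ≠ 0 → (ccM U).det ≠ 0 →
        (∀ j, IsSolG (Aps φ (D : ℂ)⁻¹ n A₁) (((((jj j : ℕ) : ℚ) / N : ℚ)) : ℂ)
          (fun i => U i j)) →
        (∀ i j, ∃ (ι : Type) (_ : Fintype ι) (a : ι → ℂ) (W : ι → PowerSeries ℚ),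
          (∀ x, W x ∈ A (jj j)) ∧
          U i j = ∑ x, PowerSeries.C (a x) * (W x).map (algebraMap ℚ ℂ)) →
        SolvedIn (sysG φ D n A₁) F δ := by
  classical
  have hNK : (N : ℂ) ≠ 0 := by exact_mod_cast hN
  let _ : Algebra (RatFunc ℂ) (KF ℂ) := (phiF ℂ N hN).toAlgebra
  have halgmap : ∀ f : RatFunc ℂ, algebraMap (RatFunc ℂ) (KF ℂ) f = phiF ℂ N hN f := fun f => rfl
  let _ : Differential (RatFunc ℂ) := mkDiff (ddxAdd ℂ) (ddxAdd_mul ℂ)
  let _ : Differential (KF ℂ) := ⟨DxF ℂ N⟩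
  have hdR : ∀ f : RatFunc ℂ, Differential.deriv f = W432.PC.ddx ℂ f := fun f => rfl
  have hdK : ∀ f : KF ℂ, Differential.deriv f = DxF ℂ N f := fun f => rfl
  have hda : DifferentialAlgebra (RatFunc ℂ) (KF ℂ) := ⟨fun a => by
    rw [halgmap, halgmap, hdK, hdR]
    exact phiF_ddx hN hNK a⟩
  have hcharR : CharZero (RatFunc ℂ) :=
    charZero_of_injective_algebraMap (algebraMap ℂ (RatFunc ℂ)).injective
  have hinjR : Function.Injective (algebraMap (Polynomial ℂ) (RatFunc ℂ)) :=
    IsFractionRing.injective (Polynomial ℂ) (RatFunc ℂ)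
  have hinjQ : Function.Injective (Polynomial.mapRingHom (algebraMap ℚ ℂ)) :=
    Polynomial.map_injective _ (algebraMap ℚ ℂ).injective
  have htt : (ttF ℂ) ^ N = algebraMap (RatFunc ℂ) (KF ℂ) RatFunc.X := by
    rw [halgmap, phiF_X hN]
  -- the elements
  set Ψ : PowerSeries ℚ →+* KF ℂ := (psiF ℂ N hN).comp (PowerSeries.map (algebraMap ℚ ℂ)) with hΨ
  set B : Fin N → AddSubgroup (KF ℂ) := fun j => (A j).map Ψ.toAddMonoidHom with hB
  have hBdeg : ∀ j, ∀ b ∈ B j, ∃ P : Polynomial (RatFunc ℂ), P ≠ 0 ∧ P.natDegree ≤ M ∧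
      Polynomial.aeval b P = 0 := by
    rintro j b ⟨f, hf, rfl⟩
    obtain ⟨P, hP0, hPd, hP⟩ := hA j f hf
    refine ⟨(P.map (Polynomial.mapRingHom (algebraMap ℚ ℂ))).map
      (algebraMap (Polynomial ℂ) (RatFunc ℂ)), ?_, ?_, ?_⟩
    · rwa [Ne, Polynomial.map_eq_zero_iff hinjR, Polynomial.map_eq_zero_iff hinjQ]
    · rw [Polynomial.natDegree_map_eq_of_injective hinjR,
        Polynomial.natDegree_map_eq_of_injective hinjQ]
      exact hPd.le
    · have e1 : ∀ (F : Type) [Field F] (q : Polynomial F),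
          algebraMap (Polynomial F) (PowerSeries F) q = (q : PowerSeries F) := by
        intro F _ q
        rw [PowerSeries.algebraMap_apply']
        ext n
        simp
      have h1 : ((algebraMap (RatFunc ℂ) (KF ℂ)).comp
          (algebraMap (Polynomial ℂ) (RatFunc ℂ))).comp
          (Polynomial.mapRingHom (algebraMap ℚ ℂ)) =
          Ψ.comp (algebraMap (Polynomial ℚ) (PowerSeries ℚ)) := by
        refine RingHom.ext fun q => ?_
        have h2 : algebraMap (RatFunc ℂ) (KF ℂ) (algebraMap (Polynomial ℂ) (RatFunc ℂ)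
            (Polynomial.mapRingHom (algebraMap ℚ ℂ) q)) =
            psiF ℂ N hN ((Polynomial.mapRingHom (algebraMap ℚ ℂ) q : Polynomial ℂ) :
              PowerSeries ℂ) := by
          rw [halgmap, phiF_algebraMap]
        change algebraMap (RatFunc ℂ) (KF ℂ) (algebraMap (Polynomial ℂ) (RatFunc ℂ)
          (Polynomial.mapRingHom (algebraMap ℚ ℂ) q)) =
          psiF ℂ N hN (PowerSeries.map (algebraMap ℚ ℂ)
            (algebraMap (Polynomial ℚ) (PowerSeries ℚ) q))
        rw [h2, e1]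
        congr 1
        rw [Polynomial.coe_mapRingHom]
        ext n
        simp
      have h2 := congrArg Ψ hP
      rw [Polynomial.aeval_def, map_zero, Polynomial.hom_eval₂] at h2
      rw [Polynomial.aeval_def, Polynomial.eval₂_map, Polynomial.eval₂_map, h1]
      exact h2
  choose b hbB hb using fun j => exists_simple (F := RatFunc ℂ) (B j) (hBdeg j)
  have hbfd : ∀ j, FiniteDimensional (RatFunc ℂ) ((RatFunc ℂ)⟮b j⟯) ∧
      Module.finrank (RatFunc ℂ) ((RatFunc ℂ)⟮b j⟯) ≤ M := by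
    intro j
    obtain ⟨P, h1, h2, h3⟩ := hBdeg j (b j) (hbB j)
    obtain ⟨h4, h5⟩ := finrank_adjoin_le h1 h3
    exact ⟨h4, h5.trans h2⟩
  set L₁ : IntermediateField (RatFunc ℂ) (KF ℂ) :=
    (univ : Finset (Fin N)).sup fun j => (RatFunc ℂ)⟮b j⟯ with hL₁
  obtain ⟨hfd1, hfr1⟩ := finrank_sup_le_pow hbfd univ
  rw [Finset.card_univ, Fintype.card_fin] at hfr1
  have httP : Polynomial.aeval (ttF ℂ)
      (Polynomial.X ^ N - Polynomial.C (RatFunc.X : RatFunc ℂ)) = 0 := by
    rw [map_sub, map_pow, Polynomial.aeval_X, Polynomial.aeval_C, htt, sub_self]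
  have httP0 : (Polynomial.X ^ N - Polynomial.C (RatFunc.X : RatFunc ℂ)) ≠ 0 :=
    Polynomial.X_pow_sub_C_ne_zero (Nat.pos_of_ne_zero hN) _
  obtain ⟨hfd2, hfr2⟩ := finrank_adjoin_le httP0 httP
  rw [Polynomial.natDegree_X_pow_sub_C] at hfr2
  set L' : IntermediateField (RatFunc ℂ) (KF ℂ) := L₁ ⊔ (RatFunc ℂ)⟮ttF ℂ⟯ with hL'
  have hfd : FiniteDimensional (RatFunc ℂ) L' := IntermediateField.finiteDimensional_sup _ _
  have hfin : Module.finrank (RatFunc ℂ) L' ≤ M ^ N * N :=
    (IntermediateField.finrank_sup_le _ _).trans (Nat.mul_le_mul hfr1 hfr2)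
  have hinj : Function.Injective (algebraMap L' (KF ℂ)) := (algebraMap L' (KF ℂ)).injective
  refine ⟨L', inferInstance, inferInstance, Differential.deriv, hfd, hfin, ?_, ?_⟩
  · intro f
    exact deriv_algebraMap f
  · intro R _ φ D n r A₁ jj U hD hdet hU hspan
    set m : Fin r → ℤ := fun j => ((jj j : ℕ) : ℤ) with hm
    have hNQ : (N : ℚ) ≠ 0 := by exact_mod_cast hN
    obtain ⟨h1, h2⟩ := sol_KF φ hD n A₁ hdet hU hN (m := m) (fun j => by
      rw [mul_div_cancel₀ _ hNQ, hm]
      norm_cast)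
    have htL : ttF ℂ ∈ L' := (le_sup_right : (RatFunc ℂ)⟮ttF ℂ⟯ ≤ L')
      (IntermediateField.mem_adjoin_simple_self _ _)
    have hBL : ∀ j, ∀ x ∈ B j, x ∈ L' := by
      intro j x hx
      have h3 : (RatFunc ℂ)⟮b j⟯ ≤ L₁ := Finset.le_sup (f := fun j => (RatFunc ℂ)⟮b j⟯) (mem_univ j)
      exact (le_sup_left : L₁ ≤ L') (h3 (hb j x hx))
    have hmem : ∀ i j, psiF ℂ N hN (U i j) * ttF ℂ ^ (m j) ∈ L' := by
      intro i j
      refine mul_mem ?_ (zpow_mem htL _)
      obtain ⟨ι, _, a, W, hW, hUij⟩ := hspan i j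
      rw [hUij, map_sum]
      refine sum_mem fun x _ => ?_
      rw [map_mul]
      refine mul_mem ?_ (hBL (jj j) _ ⟨W x, hW x, rfl⟩)
      have h1 : psiF ℂ N hN (PowerSeries.C (a x)) =
          algebraMap (RatFunc ℂ) (KF ℂ) (algebraMap (Polynomial ℂ) (RatFunc ℂ)
            (Polynomial.C (a x))) := by
        rw [halgmap, phiF_algebraMap, Polynomial.coe_C]
      rw [h1]
      exact L'.algebraMap_mem _
    set Z : Matrix (Fin r) (Fin r) L' :=
      Matrix.of fun i j => ⟨psiF ℂ N hN (U i j) * ttF ℂ ^ (m j), hmem i j⟩ with hZ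
    have hval : Z.map (algebraMap L' (KF ℂ)) =
        Matrix.of fun i j => psiF ℂ N hN (U i j) * ttF ℂ ^ (m j) := by
      ext1 i j
      rfl
    refine ⟨Z, ?_, ?_⟩
    · intro h
      apply h1
      rw [← hval]
      have := RingHom.map_det (algebraMap L' (KF ℂ)) Z
      rw [h, map_zero] at this
      exact this.symm
    · intro i j
      apply hinj
      have h3 : algebraMap L' (KF ℂ) (Differential.deriv (Z i j)) =
          DxF ℂ N (psiF ℂ N hN (U i j) * ttF ℂ ^ (m j)) :=
        (deriv_algebraMap (Z i j)).symm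
      rw [h3, h2 i j, map_sum]
      refine Finset.sum_congr rfl fun k _ => ?_
      rw [map_mul, ← IsScalarTower.algebraMap_apply (RatFunc ℂ) L' (KF ℂ)]
      rfl

end sol

end Pool.Agent.H925
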