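import Pool.Agent.H925.OrbMap
import Pool.Agent.H925.Univ

set_option autoImplicit false

open Finset NumberField

namespace Pool.Agent.H925

open Pool.Agent.Helper338PC

section core

/-- The criterion for the algebraicity of a power series on a compact orbifold. -/
theorem series_alg {n₀ n₁ n₂ : ℕ} (hn₀ : 0 < n₀) (L : ℕ) {R δ : ℝ}
    (hR0 : 0 < R) (hR : TriRadius n₀ n₁ n₂ R) (hδ0 : 0 ≤ δ) (hδ : δ < Real.log R) :
    ∃ s v w a b ω : PowerSeries ℂ, CConv s ∧ CConv v ∧ CConv w ∧ CConv a ∧ CConv b ∧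
      PowerSeries.constantCoeff s = 0 ∧ PowerSeries.coeff 1 s ≠ 0 ∧ s ^ n₀ + v ^ n₁ = w ^ n₂ ∧
      a * s + b * w = 1 ∧ ω ^ n₀ = w ∧
      ∃ (hsub : PowerSeries.HasSubst (s ^ n₀ * w⁻¹ ^ n₂)) (M : ℕ),
    ∀ (κ : ℕ) (S : Finset ℕ), (∀ p ∈ S, p.Prime) → ∀ (E : Set ℕ), Summable (sparseTerm E) →
      ∀ (ℓ : ℕ → ℝ), (∀ p, 0 ≤ ℓ p) → defect κ S E ℓ ≤ δ → ∀ j : Fin n₀,
      ∀ f ∈ goodGroup κ S E ℓ (u := s ^ (j : ℕ) * w ^ L * ω⁻¹ ^ (n₂ * (j : ℕ))) hsub,
      ∃ P : Polynomial (Polynomial ℚ), P ≠ 0 ∧ P.natDegree < M ∧ Polynomial.aeval f P = 0 := by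
  classical
  obtain ⟨s, v, w, a, b, hs, hv, hw, ha, hb, hs0, hrel, hab, hRs⟩ := hR
  obtain ⟨σ, hσ⟩ := (PowerSeries.X_dvd_iff).mpr hs0
  have hs1 : PowerSeries.coeff 1 s = PowerSeries.constantCoeff σ := by
    rw [hσ, mul_comm, show (1 : ℕ) = 0 + 1 from rfl, PowerSeries.coeff_succ_mul_X,
      PowerSeries.coeff_zero_eq_constantCoeff_apply]
  have hwc : PowerSeries.constantCoeff w ≠ 0 := by
    intro h1
    have h2 := congrArg PowerSeries.constantCoeff hab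
    rw [map_add, map_mul, map_mul, hs0, h1, mul_zero, mul_zero, add_zero, map_one] at h2
    exact zero_ne_one h2
  set σ₀ : ℂ := PowerSeries.constantCoeff σ with hσ₀
  set w₀ : ℂ := PowerSeries.constantCoeff w with hw₀
  have hw₀n : 0 < ‖w₀‖ ^ n₂ := pow_pos (norm_pos_iff.mpr hwc) _
  have hσ0 : σ₀ ≠ 0 := by
    intro h
    rw [hs1, h, norm_zero, zero_pow hn₀.ne'] at hRs
    have := mul_pos hR0 hw₀n
    linarith
  have hσC : CConv σ := by
    refine cconv_of_X_pow_mul (m := 1) ?_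
    rw [pow_one, ← hσ]
    exact hs
  have hwiw : w * w⁻¹ = 1 := PowerSeries.mul_inv_cancel w hwc
  obtain ⟨ω, hω⟩ := exists_root hwc hn₀
  have hωc : PowerSeries.constantCoeff ω ≠ 0 := by
    intro h1
    apply hwc
    rw [hw₀, ← hω, map_pow, h1, zero_pow hn₀.ne']
  have hωiω : ω * ω⁻¹ = 1 := PowerSeries.mul_inv_cancel ω hωc
  obtain ⟨Λ, hΛ1, hΛ2⟩ : ∃ Λ, Real.exp δ < Λ ∧ Λ < R := by
    refine exists_between ?_
    calc Real.exp δ < Real.exp (Real.log R) := Real.exp_lt_exp.mpr hδ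
      _ = R := Real.exp_log hR0
  have hΛ : 1 ≤ Λ := (Real.one_le_exp hδ0).trans hΛ1.le
  set a₁ : ℕ := n₀ * (n₀ - 1) with ha₁
  set a₂ : ℕ := L * n₀ + n₂ with ha₂
  set cQ : ℂ := (σ₀⁻¹) ^ a₁ * (w₀⁻¹) ^ a₂ with hcQ
  set Q : PowerSeries ℂ := PowerSeries.C cQ * (σ ^ a₁ * w ^ a₂) with hQ
  have hQC : CConv Q := (CConv.C _).mul ((hσC.pow _).mul (hw.pow _))
  set Φ : PowerSeries ℂ := s ^ n₀ * w⁻¹ ^ n₂ with hΦdef
  have hΦ : Φ = PowerSeries.X ^ n₀ * (σ ^ n₀ * w⁻¹ ^ n₂) := by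
    rw [hΦdef]
    conv_lhs => rw [hσ, mul_pow]
    rw [mul_assoc]
  have hsub : PowerSeries.HasSubst Φ := by
    refine PowerSeries.HasSubst.of_constantCoeff_zero' ?_
    rw [hΦdef, map_mul, map_pow, hs0, zero_pow hn₀.ne', zero_mul]
  have hwn : ∀ n : ℕ, w ^ n * w⁻¹ ^ n = 1 := fun n => by rw [← mul_pow, hwiw, one_pow]
  obtain ⟨M, hM⟩ := criterionU (ρ := 1 / 2) hΛ (by norm_num) hn₀ (Φ := Φ)
    (Φ' := σ ^ n₀ * w⁻¹ ^ n₂) (Q := Q) hΦ (by
      have h1 : PowerSeries.constantCoeff (w⁻¹) = w₀⁻¹ := by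
        rw [PowerSeries.constantCoeff_inv]
      rw [map_mul, map_pow, map_pow, h1, ← hσ₀, norm_mul, norm_pow, norm_pow, norm_inv, ← hs1,
        inv_pow, ← div_eq_mul_inv, lt_div_iff₀ hw₀n]
      exact lt_of_lt_of_le (mul_lt_mul_of_pos_right hΛ2 hw₀n) hRs) hQC (by
      simp only [hQ, hcQ, map_mul, map_pow, PowerSeries.constantCoeff_C, ← hσ₀, ← hw₀]
      have h1 : σ₀⁻¹ ^ a₁ * σ₀ ^ a₁ = 1 := by rw [← mul_pow, inv_mul_cancel₀ hσ0, one_pow]
      have h2 : w₀⁻¹ ^ a₂ * w₀ ^ a₂ = 1 := by rw [← mul_pow, inv_mul_cancel₀ hwc, one_pow]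
      linear_combination (w₀⁻¹ ^ a₂ * w₀ ^ a₂) * h1 + h2)
    (by
      have h1 : Q * Φ = PowerSeries.C cQ * (σ ^ a₁ * (w ^ (L * n₀) * s ^ n₀)) := by
        rw [hQ, hΦdef, ha₂, pow_add]
        linear_combination (PowerSeries.C cQ * (σ ^ a₁ * (w ^ (L * n₀) * s ^ n₀))) * hwn n₂
      rw [h1]
      exact (CConv.C _).mul ((hσC.pow _).mul ((hw.pow _).mul (hs.pow _))))
  refine ⟨s, v, w, a, b, ω, hs, hv, hw, ha, hb, hs0, by rwa [hs1], hrel, hab, hω, hsub, M * n₀, ?_⟩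
  intro κ S hS E hE ℓ hℓ hdef
  set u : Fin n₀ → PowerSeries ℂ := fun j =>
    s ^ (j : ℕ) * w ^ L * ω⁻¹ ^ (n₂ * (j : ℕ)) with hu
  rintro j f ⟨hf1, hf2, hf3⟩
  have hden : DenGrowth Λ f := hf1.denGrowth hS hE hℓ
    (lt_of_le_of_lt (Real.exp_le_exp.mpr hdef) hΛ1)
  obtain ⟨P, hP0, hPd, hP⟩ := hM (f ^ n₀) (hden.pow n₀)
    (by rw [map_pow]; exact Sm.pow (by norm_num) hf2 n₀) (by
      rw [map_pow, PowerSeries.subst_pow hsub]
      set g := PowerSeries.subst Φ (PowerSeries.map (algebraMap ℚ ℂ) f) with hg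
      have h1 := (hw.pow (n₂ * (j : ℕ))).mul (hf3.pow n₀)
      have h2 : w ^ (n₂ * (j : ℕ)) * (u j * g) ^ n₀ = PowerSeries.X ^ ((j : ℕ) * n₀) *
          (σ ^ ((j : ℕ) * n₀) * w ^ (L * n₀) * g ^ n₀) := by
        have h3 : w ^ (n₂ * (j : ℕ)) * (ω⁻¹ ^ (n₂ * (j : ℕ))) ^ n₀ = 1 := by
          rw [← hω, ← pow_mul, ← pow_mul, mul_comm (n₂ * (j : ℕ)) n₀, ← mul_pow, hωiω, one_pow]
        rw [hu]
        simp only
        rw [mul_pow, mul_pow, mul_pow, ← pow_mul, ← pow_mul]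
        have h4 : s ^ ((j : ℕ) * n₀) = PowerSeries.X ^ ((j : ℕ) * n₀) * σ ^ ((j : ℕ) * n₀) := by
          conv_lhs => rw [hσ, mul_pow]
        linear_combination (s ^ ((j : ℕ) * n₀) * w ^ (L * n₀) * g ^ n₀) * h3 +
          (w ^ (L * n₀) * g ^ n₀) * h4
      change CConv (w ^ (n₂ * (j : ℕ)) * (u j * g) ^ n₀) at h1
      rw [h2] at h1
      have h3 := cconv_of_X_pow_mul h1
      have h4 : Q * g ^ n₀ = PowerSeries.C cQ * (σ ^ (n₀ * (n₀ - 1 - (j : ℕ))) * w ^ n₂) *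
          (σ ^ ((j : ℕ) * n₀) * w ^ (L * n₀) * g ^ n₀) := by
        have h5 : σ ^ a₁ = σ ^ (n₀ * (n₀ - 1 - (j : ℕ))) * σ ^ ((j : ℕ) * n₀) := by
          rw [← pow_add, ha₁, mul_comm (j : ℕ) n₀, ← mul_add]
          congr 2
          have := j.2
          omega
        rw [hQ, ha₂, pow_add, h5]
        ring
      rw [h4]
      exact ((CConv.C _).mul ((hσC.pow _).mul (hw.pow _))).mul h3)
  refine ⟨Polynomial.expand (Polynomial ℚ) n₀ P, ?_, ?_, ?_⟩
  · rwa [Ne, Polynomial.expand_eq_zero hn₀]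
  · rw [Polynomial.natDegree_expand]
    exact Nat.mul_lt_mul_of_pos_right hPd hn₀
  · rw [Polynomial.expand_aeval]
    exact hP

lemma subst_sum' {Φ : PowerSeries ℂ} (hs : PowerSeries.HasSubst Φ) {ι : Type*} (t : Finset ι)
    (f : ι → PowerSeries ℂ) : (∑ x ∈ t, f x).subst Φ = ∑ x ∈ t, (f x).subst Φ := by
  rw [← PowerSeries.coe_substAlgHom hs, map_sum]

end core

/-- The system `Y' = A / (D x (x - 1)) Y` over the number field `K` is a flat bundle on the compact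
orbifold of type `(n₀, n₁, n₂)`, of order at most `e` at infinity: the residues `-A(0) / D` at `0`
and `A(1) / D` at `1` are annihilated by `∏ (X - j / n)`, `0 ≤ j < n`, for `n = n₀` and `n = n₁`,
and the system extends to infinity with the exponents `j / n₂`, `0 ≤ j < n₂`. -/
structure OrbType (n₀ n₁ n₂ e : ℕ) {K : Type} [Field K] [NumberField K] {r : ℕ} (D : ℕ)
    (A : Matrix (Fin r) (Fin r) (Polynomial (𝓞 K))) : Prop where
  zero : Polynomial.aeval (-(A.map fun a => a.coeff 0)) (eigPoly n₀ D) = 0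
  one : Polynomial.aeval (A.map (Polynomial.eval 1)) (eigPoly n₁ D) = 0
  inf : ∃ (m c : ℕ) (T T' : Matrix (Fin r) (Fin r) (Polynomial K)),
    InfGauge D n₂ e m c (A.map (Polynomial.map (algebraMap (𝓞 K) K))) T T'

/-- The class of the systems `Y' = A / (D x (x - 1)) Y` over the number field `K` on the compact
orbifold of type `(n₀, n₁, n₂)` with the local data `κ`, `S`, `E`, `ℓ`: the primes which divide `D`
belong to `S`; the primes outside `S` and `E` are unramified in `K` and the `p`-curvatures are zero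
at all places above them; there is a fundamental matrix at `0` with at most `κ` different exponents
which has the radius of convergence `p ^ (-ℓ p)` at the primes `p` of `S` (or satisfies a condition
which implies this). -/
structure OrbClass (n₀ n₁ n₂ e κ : ℕ) (S : Finset ℕ) (E : Set ℕ) (ℓ : ℕ → ℝ) (K : Type) [Field K]
    [NumberField K] {r : ℕ} (D : ℕ) (A : Matrix (Fin r) (Fin r) (Polynomial (𝓞 K))) : Prop where
  ne : D ≠ 0
  type : OrbType n₀ n₁ n₂ e D A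
  dvd : ∀ p : ℕ, p.Prime → p ∣ D → p ∈ S
  good : ∀ p : ℕ, p.Prime → p ∉ S → p ∉ E → (Ideal.span {(p : 𝓞 K)}).IsRadical ∧
    ∀ (𝔭 : Ideal (𝓞 K)) [𝔭.IsMaximal], (p : 𝓞 K) ∈ 𝔭 → PCurvZeroAt 𝔭 D 1 A
  fund : ∃ (β : Fin r → ℚ) (U : Matrix (Fin r) (Fin r) (PowerSeries K)),
    IsFundamentalAtZero (algebraMap (𝓞 K) K) D 1 A β U ∧ numExp β ≤ κ ∧
      ∀ p ∈ S, AdmissibleAt (algebraMap (𝓞 K) K) D 1 A β U p (ℓ p)

/-- The main theorem: one finite extension of `ℂ(x)`, of bounded degree, contains all solutions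
of all flat bundles, of any rank and over any number field, on the compact orbifold of type
`(n₀, n₁, n₂)` with given local data, if the total defect is less than the logarithm of the radius
of the orbifold. -/
theorem orb_universal {n₀ n₁ n₂ : ℕ} (hn₀ : 0 < n₀) (hn₁ : 0 < n₁) (hn₂ : 0 < n₂) (e : ℕ)
    {R δ : ℝ} (hR0 : 0 < R) (hR : TriRadius n₀ n₁ n₂ R) (hδ : δ < Real.log R) : ∃ M : ℕ,
    ∀ (κ : ℕ) (S : Finset ℕ) (E : Set ℕ) (ℓ : ℕ → ℝ), (∀ p ∈ S, p.Prime) →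
      Summable (sparseTerm E) → (∀ p ∈ S, 0 ≤ ℓ p) → defect κ S E ℓ ≤ δ →
      ∃ (F : Type) (_ : Field F) (_ : Algebra (RatFunc ℂ) F) (d : Derivation ℤ F F),
        FiniteDimensional (RatFunc ℂ) F ∧ Module.finrank (RatFunc ℂ) F ≤ M ∧
        (∀ f, d (algebraMap (RatFunc ℂ) F f) = algebraMap (RatFunc ℂ) F (W432.PC.ddx ℂ f)) ∧
        ∀ (K : Type) [Field K] [NumberField K] (φ : K →+* ℂ) (r D : ℕ)
          (A : Matrix (Fin r) (Fin r) (Polynomial (𝓞 K))),
          OrbClass n₀ n₁ n₂ e κ S E ℓ K D A →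
          SolvedIn (sysG (φ.comp (algebraMap (𝓞 K) K)) D 1 A) F d := by
  classical
  by_cases hδ0 : 0 ≤ δ
  swap
  · refine ⟨0, ?_⟩
    intro κ S E ℓ hS hE hℓ hdef
    exfalso
    apply hδ0
    refine le_trans ?_ hdef
    refine add_nonneg (Finset.sum_nonneg fun p hp => mul_nonneg (hℓ p hp)
      (Real.log_nonneg (by exact_mod_cast (hS p hp).one_lt.le))) (mul_nonneg (by positivity) ?_)
    exact tsum_nonneg (outTerm_nonneg S E)
  obtain ⟨s, v, w, a, b', ω, hs, hv, hw, ha, hb', hs0, hs1, hrel, hab, hω, hsub, M, hM⟩ :=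
    series_alg (n₁ := n₁) hn₀ (n₂ * e) hR0 hR hδ0 hδ
  refine ⟨M ^ n₀ * n₀, ?_⟩
  intro κ S E ℓ hS hE hℓ hdef
  set ℓ' : ℕ → ℝ := fun p => if p ∈ S then ℓ p else 0 with hℓ'
  have hℓS : ∀ p ∈ S, ℓ' p = ℓ p := fun p hp => if_pos hp
  have hℓ0 : ∀ p, 0 ≤ ℓ' p := by
    intro p
    by_cases h : p ∈ S
    · rw [hℓS p h]
      exact hℓ p h
    · rw [hℓ']
      simp only
      rw [if_neg h]
  have hdef' : defect κ S E ℓ' ≤ δ := by
    refine le_trans (le_of_eq ?_) hdef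
    unfold defect
    congr 1
    exact Finset.sum_congr rfl fun p hp => by rw [hℓS p hp]
  set G : Fin n₀ → AddSubgroup (PowerSeries ℚ) := fun j => goodGroup κ S E ℓ'
    (u := s ^ (j : ℕ) * w ^ (n₂ * e) * ω⁻¹ ^ (n₂ * (j : ℕ))) hsub with hG
  obtain ⟨F, i1, i2, d, hfd, hfr, hd, huniv⟩ := exists_universal hn₀.ne' G
    (fun j f hf => hM κ S hS E hE ℓ' hℓ0 hdef' j f hf)
  refine ⟨F, i1, i2, d, hfd, hfr, hd, ?_⟩
  intro K _ _ φ r D A hA
  obtain ⟨hD, ⟨h0, h1, ⟨m, c, T, T', hinf⟩⟩, hDS, hgood, β, U, ⟨hdet, hUeq⟩, hκ, hbad⟩ := hA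
  rw [ccM_eq_map] at hdet
  have hn₀Q : (n₀ : ℚ) ≠ 0 := by exact_mod_cast hn₀.ne'
  have hDK : (D : K) ≠ 0 := by exact_mod_cast hD
  have hsol : ∀ j, IsSolG (Aps (algebraMap (𝓞 K) K) (D : K)⁻¹ 1 A) ((β j : ℚ) : K)
      (fun i => U i j) := fun j i => hUeq i j
  -- the exponents
  have hexp : ∀ j, ∃ k : Fin n₀, β j = ((k : ℕ) : ℚ) / n₀ := by
    have e1 := ccM_mul_diag hsol
    refine vertex_exponent hn₀ hD (Z := (-(A.map fun a => a.coeff 0)).map (algebraMap (𝓞 K) K))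
      ?_ hdet e1 (eigPoly_map (algebraMap (𝓞 K) K).mapMatrix h0)
    ext1 i j
    rw [Matrix.smul_apply, ccM_apply, Aps_apply, smul_eq_mul, map_mul, map_mul, map_pow,
      PowerSeries.constantCoeff_C]
    have e2 : PowerSeries.constantCoeff (wg K) = -1 := by
      unfold wg
      rw [map_neg, ← PowerSeries.coeff_zero_eq_constantCoeff_apply, PowerSeries.coeff_mk]
    rw [e2, ← PowerSeries.coeff_zero_eq_constantCoeff_apply, Polynomial.coeff_coe,
      Polynomial.coeff_map, Matrix.map_apply, Matrix.neg_apply, Matrix.map_apply, map_neg]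
    field_simp
  choose jj hjj using hexp
  have hβeq : β = fun j => ((jj j : ℕ) : ℚ) / n₀ := funext hjj
  set b := integralBasis K with hb
  set A₁ := polyLMM (RingOfIntegers.basis K) A with hA₁
  set AK := Aps (algebraMap (𝓞 K) K) (D : K)⁻¹ 1 A with hAK
  have hAres : LMM b AK = Aps (Int.castRingHom ℚ) (D : ℚ)⁻¹ 1 A₁ := by
    have h1 : (D : K)⁻¹ = algebraMap ℚ K (D : ℚ)⁻¹ := by rw [map_inv₀, map_natCast]
    rw [hAK, h1, LMM_Aps_compat]
  set jj' : Fin r × Module.Free.ChooseBasisIndex ℤ (𝓞 K) → Fin n₀ := fun x => jj x.1 with hjj'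
  set β' : Fin r × Module.Free.ChooseBasisIndex ℤ (𝓞 K) → ℚ := fun x => β x.1 with hβ'
  have hβ'eq : β' = fun x => ((jj' x : ℕ) : ℚ) / n₀ := by
    rw [hβ', hβeq]
  set U' := LMM b U with hU'def
  have hU' : ∀ y, IsSolG (Aps (Int.castRingHom ℚ) (D : ℚ)⁻¹ 1 A₁) (β' y)
      (fun x => U' x y) := by
    intro y
    rw [← hAres]
    refine IsSolG.res b (β := β) (fun j => ?_) y
    rw [eq_ratCast]
    exact hsol j
  have hgap : ∀ i j, |β i - β j| < 1 := by
    intro i j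
    have hn₀Q' : (0 : ℚ) < n₀ := by exact_mod_cast hn₀
    rw [hβeq]
    simp only
    rw [← sub_div, abs_div, abs_of_pos hn₀Q', div_lt_one hn₀Q', abs_lt]
    have h2 : ((jj i : ℕ) : ℚ) < n₀ := by exact_mod_cast (jj i).2
    have h3 : ((jj j : ℕ) : ℚ) < n₀ := by exact_mod_cast (jj j).2
    have h4 : (0 : ℚ) ≤ ((jj i : ℕ) : ℚ) := Nat.cast_nonneg _
    have h5 : (0 : ℚ) ≤ ((jj j : ℕ) : ℚ) := Nat.cast_nonneg _
    constructor <;> linarith
  have hgap' : ∀ x y, |β' x - β' y| < 1 := fun x y => hgap _ _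
  have hκ' : numExp (fun x => ((jj' x : ℕ) : ℚ) / n₀) ≤ κ := by
    rw [← hβ'eq, hβ', numExp_res]
    exact hκ
  have hradU : ∀ (p : ℕ) [Fact p.Prime], p ∈ S → ∀ x y, PadicRadius p (U' x y) (ℓ' p) := by
    intro p hp hpS x y
    rw [hℓS p hpS]
    rcases hbad p hpS with h | ⟨e, h2, h1⟩
    · exact (h x.1 y.1).res x.2 y.2
    · refine explicit_radius hgap' (det_res hdet) hU' (e := e) ?_ ?_ x y
      · intro s x y hs
        rw [← hAres, conj_res hdet, LMM_apply, coeff_LM]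
        refine leftMul_norm ?_ _ _
        rw [coeff_conj]
        exact h1 s x.1 y.1 hs
      · refine le_trans ?_ h2
        have hp1 : (1 : ℝ) < p := by exact_mod_cast hp.out.one_lt
        have h3 : ((numClass β' p : ℕ) : ℝ) ≤ numClass β p := by
          exact_mod_cast numClass_res β p
        have h4 : (0 : ℝ) < p - 1 := by linarith
        gcongr
  have hgoodM : ∀ (p : ℕ) [Fact p.Prime], p ∉ S → p ∉ E →
      MG (Aps (Int.castRingHom (ZMod p)) (D : ZMod p)⁻¹ 1 A₁) p = 0 := by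
    intro p hp hpS hpE
    obtain ⟨h1, h2⟩ := hgood p hp.out hpS hpE
    exact pcurv_res (RingOfIntegers.basis K) (fun h => hpS (hDS p hp.out h))
      (fun x hx => of_isRadical hp.out.ne_zero h1 x hx) h2
  -- integral initial values
  obtain ⟨N, hN0, hintN⟩ := exists_scale U'
  have hNQ : (N : ℚ) ≠ 0 := by exact_mod_cast hN0
  set V : Matrix (Fin r × Module.Free.ChooseBasisIndex ℤ (𝓞 K))
    (Fin r × Module.Free.ChooseBasisIndex ℤ (𝓞 K)) (PowerSeries ℚ) :=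
    Matrix.of fun i j => PowerSeries.C (N : ℚ) * U' i j with hV
  have hccV : ccM V = (N : ℚ) • ccM U' := by
    ext1 i j
    rw [ccM_apply, Matrix.smul_apply, ccM_apply, hV, Matrix.of_apply, map_mul,
      PowerSeries.constantCoeff_C, smul_eq_mul]
  have hdetV : (ccM V).det ≠ 0 := by
    rw [hccV, Matrix.det_smul]
    exact mul_ne_zero (pow_ne_zero _ hNQ) (det_res hdet)
  have hVsol : ∀ j, IsSolG (Aps (Int.castRingHom ℚ) (D : ℚ)⁻¹ 1 A₁) (((jj' j : ℕ) : ℚ) / n₀)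
      (fun i => V i j) := by
    intro j
    have h2 := (hU' j).smul (N : ℚ)
    rw [hβ'eq] at h2
    exact h2
  have hint : ∀ i j, ∃ z : ℤ, PowerSeries.coeff 0 (V i j) = z := hintN
  -- the pull-back over all embeddings
  have hpull : ∀ (σ : K →+* ℂ) (i j : Fin r),
      CConv (s ^ (jj j : ℕ) * w ^ (n₂ * e) * ω⁻¹ ^ (n₂ * (jj j : ℕ)) *
        (PowerSeries.map σ (U i j)).subst (s ^ n₀ * w⁻¹ ^ n₂)) := by
    intro σ i j
    have h3 := (hsol j).map σ
    rw [hAK, Aps_map, map_inv₀, map_natCast] at h3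
    have h4 : σ ((β j : ℚ) : K) = ((jj j : ℕ) : ℂ) / (n₀ : ℂ) := by
      rw [map_ratCast, hjj]
      push_cast
      rfl
    rw [h4] at h3
    set AC : Matrix (Fin r) (Fin r) (Polynomial ℂ) :=
      (A.map (Polynomial.map (algebraMap (𝓞 K) K))).map (Polynomial.map σ) with hAC
    have h5 : Aps (σ.comp (algebraMap (𝓞 K) K)) (D : ℂ)⁻¹ 1 A =
        Aps (RingHom.id ℂ) (D : ℂ)⁻¹ 1 AC := by
      ext1 i j
      rw [Aps_apply, Aps_apply, Polynomial.map_id, hAC, Matrix.map_apply, Matrix.map_apply,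
        Polynomial.map_map]
    rw [h5] at h3
    refine orb_conv hn₀ hn₁ hn₂ hD hs hv hw ha hb' hs0 hs1 hrel hab hω (A := AC) ?_ ?_
      (hinf.map σ) h3 i
    · have h6 := eigPoly_map (σ.comp (algebraMap (𝓞 K) K)).mapMatrix h0
      have h7 : (σ.comp (algebraMap (𝓞 K) K)).mapMatrix (-(A.map fun a => a.coeff 0)) =
          -(AC.map fun a => a.coeff 0) := by
        rw [map_neg]
        congr 1
        ext i j
        simp only [hAC, RingHom.mapMatrix_apply, Matrix.map_apply, Polynomial.coeff_map,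
          RingHom.comp_apply]
      rw [← h7]
      exact h6
    · have h6 := eigPoly_map (σ.comp (algebraMap (𝓞 K) K)).mapMatrix h1
      have h7 : (σ.comp (algebraMap (𝓞 K) K)).mapMatrix (A.map (Polynomial.eval 1)) =
          AC.map (Polynomial.eval 1) := by
        ext i j
        simp only [hAC, RingHom.mapMatrix_apply, Matrix.map_apply, RingHom.comp_apply]
        rw [Polynomial.eval_one_map, Polynomial.eval_one_map]
      rw [← h7]
      exact h6
  have key : ∀ (i : Fin r) (x : Module.Free.ChooseBasisIndex ℤ (𝓞 K)) (j : Fin r)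
      (y : Module.Free.ChooseBasisIndex ℤ (𝓞 K)), V (i, x) (j, y) ∈ G (jj j) := by
    intro i x j y
    have hn₀Q' : (0 : ℚ) < n₀ := by exact_mod_cast hn₀
    have hgapV : ∀ a b : Fin r × Module.Free.ChooseBasisIndex ℤ (𝓞 K),
        |((jj' a : ℕ) : ℚ) / n₀ - ((jj' b : ℕ) : ℚ) / n₀| < 1 := by
      have := hgap'
      rw [hβ'eq] at this
      exact this
    refine ⟨good_entry hD hgapV hdetV hVsol hint hDS
      (fun p _ hp i j => (hradU p hp i j).mul_nat N) hgoodM hκ' (i, x) (j, y), ?_, ?_⟩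
    · -- growth
      have hRr : IsSolG (Aps (Int.castRingHom ℝ) ((D : ℝ)⁻¹) 1 A₁)
          (((((jj' (j, y) : ℕ) : ℚ) / n₀ : ℚ)) : ℝ)
          (fun i => PowerSeries.map (algebraMap ℚ ℝ) (V i (j, y))) := by
        have h3 := (hVsol (j, y)).map (algebraMap ℚ ℝ)
        rw [Aps_map] at h3
        have h4 : (algebraMap ℚ ℝ) (D : ℚ)⁻¹ = (D : ℝ)⁻¹ := by
          rw [map_inv₀, map_natCast]
        rw [h4] at h3
        have h5 : (algebraMap ℚ ℝ).comp (Int.castRingHom ℚ) = Int.castRingHom ℝ :=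
          Subsingleton.elim _ _
        rw [h5] at h3
        exact h3
      exact hRr.conv (i, x) (1 / 2) (by norm_num) (by norm_num)
    · obtain ⟨cf, hcf⟩ := map_LM b (U i j) x y
      have e5 : V (i, x) (j, y) = PowerSeries.C (N : ℚ) * LM b (U i j) x y := by
        rw [hV, Matrix.of_apply, hU'def, LMM_apply]
      have e6 : PowerSeries.map (algebraMap ℚ ℂ) (V (i, x) (j, y)) =
          ∑ σ : K →ₐ[ℚ] ℂ, PowerSeries.C ((N : ℂ) * cf σ) *
            PowerSeries.map (σ : K →+* ℂ) (U i j) := by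
        rw [e5, map_mul, hcf, PowerSeries.map_C, map_natCast, Finset.mul_sum]
        exact Finset.sum_congr rfl fun σ _ => by rw [← mul_assoc, ← map_mul]
      rw [e6, subst_sum' hsub, Finset.mul_sum]
      refine CConv.sum _ fun σ _ => ?_
      rw [PowerSeries.subst_mul hsub, subst_CC]
      have e7 := (CConv.C ((N : ℂ) * cf σ)).mul (hpull (σ : K →+* ℂ) i j)
      have e8 : s ^ (jj j : ℕ) * w ^ (n₂ * e) * ω⁻¹ ^ (n₂ * (jj j : ℕ)) *
          (PowerSeries.C ((N : ℂ) * cf σ) *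
            (PowerSeries.map (σ : K →+* ℂ) (U i j)).subst (s ^ n₀ * w⁻¹ ^ n₂)) =
          PowerSeries.C ((N : ℂ) * cf σ) * (s ^ (jj j : ℕ) * w ^ (n₂ * e) *
            ω⁻¹ ^ (n₂ * (jj j : ℕ)) *
            (PowerSeries.map (σ : K →+* ℂ) (U i j)).subst (s ^ n₀ * w⁻¹ ^ n₂)) := by ring
      rw [e8]
      exact e7
  -- the complex system
  obtain ⟨j₀⟩ : Nonempty (Module.Free.ChooseBasisIndex ℤ (𝓞 K)) := inferInstance
  have hb0 : b j₀ ≠ 0 := b.ne_zero j₀
  have hφ0 : φ (b j₀) ≠ 0 := by rwa [Ne, map_eq_zero]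
  have hNC : (N : ℂ) ≠ 0 := by exact_mod_cast hN0
  set UC : Matrix (Fin r) (Fin r) (PowerSeries ℂ) := U.map (PowerSeries.map φ) with hUC
  refine huniv (𝓞 K) (φ.comp (algebraMap (𝓞 K) K)) D 1 r A jj UC hD ?_ ?_ ?_
  · have e1 : ccM UC = (ccM U).map φ := by
      ext1 i j
      rw [ccM_apply, hUC, Matrix.map_apply, Matrix.map_apply, ccM_apply,
        ← PowerSeries.coeff_zero_eq_constantCoeff_apply, PowerSeries.coeff_map,
        PowerSeries.coeff_zero_eq_constantCoeff_apply]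
    have e2 : ((ccM U).map φ).det = φ (ccM U).det := (RingHom.map_det φ _).symm
    rw [e1, e2, Ne, map_eq_zero]
    exact hdet
  · intro j
    have h3 := (hsol j).map φ
    rw [hAK, Aps_map, map_inv₀, map_natCast] at h3
    have h4 : φ ((β j : ℚ) : K) = ((((jj j : ℕ) : ℚ) / n₀ : ℚ) : ℂ) := by
      rw [map_ratCast, hjj]
    rw [h4] at h3
    exact h3
  · intro i j
    refine ⟨Module.Free.ChooseBasisIndex ℤ (𝓞 K), inferInstance,
      fun x => (φ (b j₀))⁻¹ * φ (b x) * (N : ℂ)⁻¹, fun x => V (i, x) (j, j₀),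
      fun x => key i x j j₀, ?_⟩
    have e1 := congrArg (PowerSeries.map φ) (expand_basis (U i j) j₀)
    rw [map_mul, map_sum, PowerSeries.map_C] at e1
    have e2 : ∀ x, PowerSeries.map φ (PowerSeries.C (b x) *
        PowerSeries.map (algebraMap ℚ K) (LM b (U i j) x j₀)) =
        PowerSeries.C (φ (b x) * (N : ℂ)⁻¹) *
          PowerSeries.map (algebraMap ℚ ℂ) (V (i, x) (j, j₀)) := by
      intro x
      have hVx : PowerSeries.map (algebraMap ℚ ℂ) (V (i, x) (j, j₀)) =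
          PowerSeries.C (N : ℂ) * PowerSeries.map (algebraMap ℚ ℂ) (LM b (U i j) x j₀) := by
        have e5 : V (i, x) (j, j₀) = PowerSeries.C (N : ℚ) * LM b (U i j) x j₀ := by
          rw [hV, Matrix.of_apply, hU'def, LMM_apply]
        rw [e5, map_mul, PowerSeries.map_C, map_natCast]
      have hcomp : ∀ f : PowerSeries ℚ, PowerSeries.map φ (PowerSeries.map (algebraMap ℚ K) f) =
          PowerSeries.map (algebraMap ℚ ℂ) f := by
        intro f
        ext n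
        rw [PowerSeries.coeff_map, PowerSeries.coeff_map, PowerSeries.coeff_map]
        have e4 : φ.comp (algebraMap ℚ K) = algebraMap ℚ ℂ := Subsingleton.elim _ _
        exact RingHom.congr_fun e4 _
      rw [map_mul, PowerSeries.map_C, hVx, hcomp, ← mul_assoc, ← map_mul, mul_assoc (φ (b x)),
        inv_mul_cancel₀ hNC, mul_one]
    rw [Finset.sum_congr rfl fun x _ => e2 x] at e1
    have e3 : UC i j = PowerSeries.C (φ (b j₀))⁻¹ *
        (PowerSeries.C (φ (b j₀)) * PowerSeries.map φ (U i j)) := by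
      rw [← mul_assoc, ← map_mul, inv_mul_cancel₀ hφ0, map_one, one_mul]
      rfl
    rw [e3, e1, Finset.mul_sum]
    refine Finset.sum_congr rfl fun x _ => ?_
    rw [← mul_assoc, ← map_mul]
    congr 2
    ring

end Pool.Agent.H925
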