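import Pool.Agent.H925.EffCrit
import Pool.Agent.H925.EffSmall
import Pool.Agent.H925.OrbUniv

set_option autoImplicit false

open Finset

namespace Pool.Agent.H925

open Pool.Agent.Helper338PC

lemma cnrm_X_pow_mul {R : ℝ} (hR : 0 < R) {k : ℕ} {f : PowerSeries ℂ}
    (h : CSm R (PowerSeries.X ^ k * f)) :
    CSm R f ∧ cnrm R f ≤ (R ^ k)⁻¹ * cnrm R (PowerSeries.X ^ k * f) := by
  have h1 : ∀ n, ‖PowerSeries.coeff n f‖ * R ^ n =
      (R ^ k)⁻¹ * (‖PowerSeries.coeff (n + k) (PowerSeries.X ^ k * f)‖ * R ^ (n + k)) := by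
    intro n
    rw [PowerSeries.coeff_X_pow_mul, pow_add]
    field_simp
  have h2 : Summable fun n => ‖PowerSeries.coeff (n + k) (PowerSeries.X ^ k * f)‖ * R ^ (n + k) :=
    (summable_nat_add_iff k).mpr h
  have h3 : CSm R f := by
    unfold CSm
    simp_rw [h1]
    exact h2.mul_left _
  refine ⟨h3, ?_⟩
  unfold cnrm
  simp_rw [h1]
  rw [tsum_mul_left]
  refine mul_le_mul_of_nonneg_left ?_ (by positivity)
  have h4 := h.sum_add_tsum_nat_add k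
  have h5 : 0 ≤ ∑ i ∈ range k, ‖PowerSeries.coeff i (PowerSeries.X ^ k * f)‖ * R ^ i :=
    Finset.sum_nonneg fun _ _ => by positivity
  linarith

/-- The effective criterion on a compact orbifold. -/
theorem series_fin {n₀ n₂ : ℕ} (hn₀ : 0 < n₀) (L₀ : ℕ) {s w a b ω : PowerSeries ℂ}
    (hs : CConv s) (hw : CConv w) (hs0 : PowerSeries.constantCoeff s = 0)
    (hs1 : PowerSeries.coeff 1 s ≠ 0)
    (hab : a * s + b * w = 1) (hω : ω ^ n₀ = w) {Λ : ℝ} (hΛ : 1 ≤ Λ)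
    (hΛs : Λ * ‖PowerSeries.constantCoeff w‖ ^ n₂ < ‖PowerSeries.coeff 1 s‖ ^ n₀) :
    ∃ (M c₀ : ℕ) (R₀ : ℝ), 0 < M ∧ 0 < R₀ ∧ R₀ < 1 ∧
    ∀ (f : PowerSeries ℚ) (j : Fin n₀) (L t T' : ℕ), 1 ≤ L → c₀ * L ≤ t → 0 < t → t * M ≤ T' →
      (∀ n ≤ T', ∃ d : ℕ, 0 < d ∧ (d : ℝ) ≤ Real.exp L * Λ ^ n ∧
        ∀ m ≤ n₀ * M, ∀ k ≤ n, ∃ z : ℤ, (d : ℚ) * PowerSeries.coeff k (f ^ m) = z) →
      (∀ k, |((PowerSeries.coeff k f : ℚ) : ℝ)| ≤ Real.exp L * 2 ^ k) →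
      CConv (s ^ (j : ℕ) * w ^ L₀ * ω⁻¹ ^ (n₂ * (j : ℕ)) *
        (f.map (algebraMap ℚ ℂ)).subst (s ^ n₀ * w⁻¹ ^ n₂)) →
      cnrm R₀ (s ^ (j : ℕ) * w ^ L₀ * ω⁻¹ ^ (n₂ * (j : ℕ)) *
        (f.map (algebraMap ℚ ℂ)).subst (s ^ n₀ * w⁻¹ ^ n₂)) ≤ Real.exp L →
      ∃ P : Polynomial (Polynomial ℚ), P ≠ 0 ∧ P.natDegree ≤ M * n₀ ∧
        (∀ i, (P.coeff i).natDegree < t) ∧
        ∀ k ≤ T', PowerSeries.coeff k (Polynomial.aeval f P) = 0 := by
  classical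
  obtain ⟨σ, hσ⟩ := (PowerSeries.X_dvd_iff).mpr hs0
  have hs1' : PowerSeries.coeff 1 s = PowerSeries.constantCoeff σ := by
    rw [hσ, mul_comm, show (1 : ℕ) = 0 + 1 from rfl, PowerSeries.coeff_succ_mul_X,
      PowerSeries.coeff_zero_eq_constantCoeff_apply]
  have hwc : PowerSeries.constantCoeff w ≠ 0 := by
    intro h1
    have h2 := congrArg PowerSeries.constantCoeff hab
    rw [map_add, map_mul, map_mul, hs0, h1, mul_zero, mul_zero, add_zero, map_one] at h2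
    exact zero_ne_one h2
  set σ₀ : ℂ := PowerSeries.constantCoeff σ with hσ₀
  set w₀ : ℂ := PowerSeries.constantCoeff w with hw₀
  have hw₀n : 0 < ‖w₀‖ ^ n₂ := pow_pos (norm_pos_iff.mpr hwc) _
  have hσ0 : σ₀ ≠ 0 := by rwa [hs1'] at hs1
  have hσC : CConv σ := by
    refine cconv_of_X_pow_mul (m := 1) ?_
    rw [pow_one, ← hσ]
    exact hs
  have hwiw : w * w⁻¹ = 1 := PowerSeries.mul_inv_cancel w hwc
  have hωc : PowerSeries.constantCoeff ω ≠ 0 := by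
    intro h1
    apply hwc
    rw [hw₀, ← hω, map_pow, h1, zero_pow hn₀.ne']
  have hωiω : ω * ω⁻¹ = 1 := PowerSeries.mul_inv_cancel ω hωc
  set a₁ : ℕ := n₀ * (n₀ - 1) with ha₁
  set a₂ : ℕ := L₀ * n₀ + n₂ with ha₂
  set cQ : ℂ := (σ₀⁻¹) ^ a₁ * (w₀⁻¹) ^ a₂ with hcQ
  set Q : PowerSeries ℂ := PowerSeries.C cQ * (σ ^ a₁ * w ^ a₂) with hQ
  have hQC : CConv Q := (CConv.C _).mul ((hσC.pow _).mul (hw.pow _))
  set Φ : PowerSeries ℂ := s ^ n₀ * w⁻¹ ^ n₂ with hΦdef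
  have hΦ : Φ = PowerSeries.X ^ n₀ * (σ ^ n₀ * w⁻¹ ^ n₂) := by
    rw [hΦdef]
    conv_lhs => rw [hσ, mul_pow]
    rw [mul_assoc]
  have hsub : PowerSeries.HasSubst Φ := by
    refine PowerSeries.HasSubst.of_constantCoeff_zero' ?_
    rw [hΦdef, map_mul, map_pow, hs0, zero_pow hn₀.ne', zero_mul]
  have hwn : ∀ n : ℕ, w ^ n * w⁻¹ ^ n = 1 := fun n => by rw [← mul_pow, hwiw, one_pow]
  obtain ⟨M, c₀, R₀, hM0, hR₀0, hR₀1, hM⟩ := criterion_fin (ρ := 1 / 4) hΛ (by norm_num) hn₀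
    (Φ := Φ) (Φ' := σ ^ n₀ * w⁻¹ ^ n₂) (Q := Q) hΦ (by
      have h1 : PowerSeries.constantCoeff (w⁻¹) = w₀⁻¹ := by
        rw [PowerSeries.constantCoeff_inv]
      rw [map_mul, map_pow, map_pow, h1, ← hσ₀, norm_mul, norm_pow, norm_pow, norm_inv, ← hs1',
        inv_pow, ← div_eq_mul_inv, lt_div_iff₀ hw₀n]
      exact hΛs) hQC (by
      simp only [hQ, hcQ, map_mul, map_pow, PowerSeries.constantCoeff_C, ← hσ₀, ← hw₀]
      have h1 : σ₀⁻¹ ^ a₁ * σ₀ ^ a₁ = 1 := by rw [← mul_pow, inv_mul_cancel₀ hσ0, one_pow]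
      have h2 : w₀⁻¹ ^ a₂ * w₀ ^ a₂ = 1 := by rw [← mul_pow, inv_mul_cancel₀ hwc, one_pow]
      linear_combination (w₀⁻¹ ^ a₂ * w₀ ^ a₂) * h1 + h2)
    (by
      have h1 : Q * Φ = PowerSeries.C cQ * (σ ^ a₁ * (w ^ (L₀ * n₀) * s ^ n₀)) := by
        rw [hQ, hΦdef, ha₂, pow_add]
        linear_combination (PowerSeries.C cQ * (σ ^ a₁ * (w ^ (L₀ * n₀) * s ^ n₀))) * hwn n₂
      rw [h1]
      exact (CConv.C _).mul ((hσC.pow _).mul ((hw.pow _).mul (hs.pow _))))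
  -- the constant
  set Qj : Fin n₀ → PowerSeries ℂ := fun j =>
    PowerSeries.C cQ * (σ ^ (n₀ * (n₀ - 1 - (j : ℕ))) * w ^ n₂) with hQj
  have hQjC : ∀ j, CConv (Qj j) := fun j => (CConv.C _).mul ((hσC.pow _).mul (hw.pow _))
  obtain ⟨cm, hcm⟩ : ∃ x : ℝ, x = 1 + ∑ j : Fin n₀, cnrm R₀ (Qj j) *
      ((R₀ ^ ((j : ℕ) * n₀))⁻¹ * cnrm R₀ (w ^ (n₂ * (j : ℕ)))) := ⟨_, rfl⟩
  have hterm0 : ∀ j : Fin n₀, 0 ≤ cnrm R₀ (Qj j) *
      ((R₀ ^ ((j : ℕ) * n₀))⁻¹ * cnrm R₀ (w ^ (n₂ * (j : ℕ)))) := fun j =>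
    mul_nonneg (cnrm_nonneg hR₀0) (mul_nonneg (by positivity) (cnrm_nonneg hR₀0))
  have hcm1 : 1 ≤ cm := by
    rw [hcm]
    have := Finset.sum_nonneg fun j (_ : j ∈ (univ : Finset (Fin n₀))) => hterm0 j
    linarith
  set c' : ℕ := 2 * n₀ + ⌈Real.log cm⌉₊ with hc'
  have hc'1 : 1 ≤ c' := by rw [hc']; omega
  refine ⟨M, c₀ * c', R₀, hM0, hR₀0, hR₀1, ?_⟩
  intro f j L t T' hL ht ht0 htT' hden hcoef hconv hcn
  have hLR : (1 : ℝ) ≤ L := by exact_mod_cast hL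
  have hL'1 : 1 ≤ c' * L := Nat.one_le_iff_ne_zero.mpr (Nat.mul_ne_zero (by omega) (by omega))
  have hLL' : Real.exp L ≤ Real.exp ((c' * L : ℕ) : ℝ) := by
    apply Real.exp_le_exp.mpr
    exact_mod_cast Nat.le_mul_of_pos_left L (by omega)
  set F : PowerSeries ℝ := f.map (algebraMap ℚ ℝ) with hF
  have hFc : ∀ k, PowerSeries.coeff k F = ((PowerSeries.coeff k f : ℚ) : ℝ) := fun k => by
    rw [hF, PowerSeries.coeff_map]; rfl
  have hgeo := (summable_geometric_of_lt_one (r := (1 / 2 : ℝ)) (by norm_num)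
    (by norm_num)).mul_left (Real.exp L)
  have hFle : ∀ k, |PowerSeries.coeff k F| * (1 / 4 : ℝ) ^ k ≤ Real.exp L * (1 / 2) ^ k := by
    intro k
    rw [hFc]
    calc |((PowerSeries.coeff k f : ℚ) : ℝ)| * (1 / 4 : ℝ) ^ k
        ≤ Real.exp L * 2 ^ k * (1 / 4 : ℝ) ^ k :=
          mul_le_mul_of_nonneg_right (hcoef k) (by positivity)
      _ = Real.exp L * (1 / 2) ^ k := by
          rw [mul_assoc, ← mul_pow]
          norm_num
  have hFS : Sm (1 / 4) F := Summable.of_nonneg_of_le (fun _ => by positivity) hFle hgeo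
  have hFn : nrm (1 / 4) F ≤ 2 * Real.exp L := by
    unfold nrm
    refine (hFS.tsum_le_tsum hFle hgeo).trans (le_of_eq ?_)
    rw [tsum_mul_left, tsum_geometric_of_lt_one (by norm_num) (by norm_num)]
    norm_num
    ring
  have h2e : (2 : ℝ) ≤ Real.exp L := by
    have := Real.add_one_le_exp (L : ℝ)
    linarith
  obtain ⟨P, hP0, hPd, hPt, hP⟩ := hM (f ^ n₀) (c' * L) t T' hL'1
    (by rw [← mul_assoc]; exact ht) ht0 htT' (by
      intro n hn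
      obtain ⟨d, hd0, hd1, hd2⟩ := hden n hn
      refine ⟨d, hd0, hd1.trans (mul_le_mul_of_nonneg_right hLL' (by positivity)), ?_⟩
      intro m hm k hk
      rw [← pow_mul]
      exact hd2 _ (Nat.mul_le_mul_left _ hm) k hk)
    (by rw [map_pow]; exact Sm.pow (by norm_num) hFS n₀)
    (by
      rw [map_pow]
      refine (nrm_pow (by norm_num) hFS n₀).trans ?_
      calc nrm (1 / 4) F ^ n₀ ≤ (Real.exp L * Real.exp L) ^ n₀ := by
            refine pow_le_pow_left₀ (nrm_nonneg (by norm_num)) (hFn.trans ?_) n₀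
            exact mul_le_mul_of_nonneg_right h2e (Real.exp_pos _).le
        _ = Real.exp ((2 * n₀ * L : ℕ) : ℝ) := by
            rw [← Real.exp_add, ← Real.exp_nat_mul]
            congr 1
            push_cast
            ring
        _ ≤ _ := by
            apply Real.exp_le_exp.mpr
            exact_mod_cast Nat.mul_le_mul_right L (Nat.le_add_right _ _))
    (by
      have := (PowerSeries.subst_pow hsub (PowerSeries.map (algebraMap ℚ ℂ) f) n₀)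
      rw [map_pow, this]
      set g := PowerSeries.subst Φ (PowerSeries.map (algebraMap ℚ ℂ) f) with hg
      have h2 : w ^ (n₂ * (j : ℕ)) * (s ^ (j : ℕ) * w ^ L₀ * ω⁻¹ ^ (n₂ * (j : ℕ)) * g) ^ n₀ =
          PowerSeries.X ^ ((j : ℕ) * n₀) *
          (σ ^ ((j : ℕ) * n₀) * w ^ (L₀ * n₀) * g ^ n₀) := by
        have h3 : w ^ (n₂ * (j : ℕ)) * (ω⁻¹ ^ (n₂ * (j : ℕ))) ^ n₀ = 1 := by
          rw [← hω, ← pow_mul, ← pow_mul, mul_comm (n₂ * (j : ℕ)) n₀, ← mul_pow, hωiω, one_pow]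
        rw [mul_pow, mul_pow, mul_pow, ← pow_mul, ← pow_mul]
        have h4 : s ^ ((j : ℕ) * n₀) = PowerSeries.X ^ ((j : ℕ) * n₀) * σ ^ ((j : ℕ) * n₀) := by
          conv_lhs => rw [hσ, mul_pow]
        linear_combination (s ^ ((j : ℕ) * n₀) * w ^ (L₀ * n₀) * g ^ n₀) * h3 +
          (w ^ (L₀ * n₀) * g ^ n₀) * h4
      have h4 : Q * g ^ n₀ = Qj j *
          (σ ^ ((j : ℕ) * n₀) * w ^ (L₀ * n₀) * g ^ n₀) := by
        have h5 : σ ^ a₁ = σ ^ (n₀ * (n₀ - 1 - (j : ℕ))) * σ ^ ((j : ℕ) * n₀) := by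
          rw [← pow_add, ha₁, mul_comm (j : ℕ) n₀, ← mul_add]
          congr 2
          have := j.2
          omega
        rw [hQ, hQj, ha₂, pow_add, h5]
        ring
      rw [h4]
      have h6 := (hw.pow (n₂ * (j : ℕ))).mul (hconv.pow n₀)
      rw [h2] at h6
      exact CSm.mul hR₀0 (hQjC j R₀ hR₀0 hR₀1) (cnrm_X_pow_mul hR₀0 (h6 R₀ hR₀0 hR₀1)).1)
    (by
      have := (PowerSeries.subst_pow hsub (PowerSeries.map (algebraMap ℚ ℂ) f) n₀)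
      rw [map_pow, this]
      set g := PowerSeries.subst Φ (PowerSeries.map (algebraMap ℚ ℂ) f) with hg
      have h2 : w ^ (n₂ * (j : ℕ)) * (s ^ (j : ℕ) * w ^ L₀ * ω⁻¹ ^ (n₂ * (j : ℕ)) * g) ^ n₀ =
          PowerSeries.X ^ ((j : ℕ) * n₀) *
          (σ ^ ((j : ℕ) * n₀) * w ^ (L₀ * n₀) * g ^ n₀) := by
        have h3 : w ^ (n₂ * (j : ℕ)) * (ω⁻¹ ^ (n₂ * (j : ℕ))) ^ n₀ = 1 := by
          rw [← hω, ← pow_mul, ← pow_mul, mul_comm (n₂ * (j : ℕ)) n₀, ← mul_pow, hωiω, one_pow]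
        rw [mul_pow, mul_pow, mul_pow, ← pow_mul, ← pow_mul]
        have h4 : s ^ ((j : ℕ) * n₀) = PowerSeries.X ^ ((j : ℕ) * n₀) * σ ^ ((j : ℕ) * n₀) := by
          conv_lhs => rw [hσ, mul_pow]
        linear_combination (s ^ ((j : ℕ) * n₀) * w ^ (L₀ * n₀) * g ^ n₀) * h3 +
          (w ^ (L₀ * n₀) * g ^ n₀) * h4
      have h4 : Q * g ^ n₀ = Qj j *
          (σ ^ ((j : ℕ) * n₀) * w ^ (L₀ * n₀) * g ^ n₀) := by
        have h5 : σ ^ a₁ = σ ^ (n₀ * (n₀ - 1 - (j : ℕ))) * σ ^ ((j : ℕ) * n₀) := by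
          rw [← pow_add, ha₁, mul_comm (j : ℕ) n₀, ← mul_add]
          congr 2
          have := j.2
          omega
        rw [hQ, hQj, ha₂, pow_add, h5]
        ring
      rw [h4]
      have h6 := (hw.pow (n₂ * (j : ℕ))).mul (hconv.pow n₀)
      have h7 := cnrm_mul hR₀0 ((hw.pow (n₂ * (j : ℕ))) R₀ hR₀0 hR₀1)
        ((hconv.pow n₀) R₀ hR₀0 hR₀1)
      rw [h2] at h6 h7
      obtain ⟨h8, h9⟩ := cnrm_X_pow_mul hR₀0 (h6 R₀ hR₀0 hR₀1)
      have h10 : cnrm R₀ ((s ^ (j : ℕ) * w ^ L₀ * ω⁻¹ ^ (n₂ * (j : ℕ)) * g) ^ n₀) ≤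
          Real.exp L ^ n₀ :=
        (cnrm_pow hR₀0 (hconv R₀ hR₀0 hR₀1) n₀).trans
          (pow_le_pow_left₀ (cnrm_nonneg hR₀0) hcn n₀)
      have h11 : cnrm R₀ (Qj j) * ((R₀ ^ ((j : ℕ) * n₀))⁻¹ * cnrm R₀ (w ^ (n₂ * (j : ℕ)))) ≤
          cm := by
        rw [hcm]
        have := Finset.single_le_sum (f := fun j : Fin n₀ => cnrm R₀ (Qj j) *
          ((R₀ ^ ((j : ℕ) * n₀))⁻¹ * cnrm R₀ (w ^ (n₂ * (j : ℕ)))))
          (fun j _ => hterm0 j) (mem_univ j)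
        linarith
      have hwn0 : 0 ≤ cnrm R₀ (w ^ (n₂ * (j : ℕ))) := cnrm_nonneg hR₀0
      have hQn0 : 0 ≤ cnrm R₀ (Qj j) := cnrm_nonneg hR₀0
      refine (cnrm_mul hR₀0 (hQjC j R₀ hR₀0 hR₀1) h8).trans ?_
      calc cnrm R₀ (Qj j) * cnrm R₀ (σ ^ ((j : ℕ) * n₀) * w ^ (L₀ * n₀) * g ^ n₀)
          ≤ cnrm R₀ (Qj j) * ((R₀ ^ ((j : ℕ) * n₀))⁻¹ * (cnrm R₀ (w ^ (n₂ * (j : ℕ))) *
              Real.exp L ^ n₀)) := by
            refine mul_le_mul_of_nonneg_left (h9.trans ?_) hQn0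
            refine mul_le_mul_of_nonneg_left (h7.trans ?_) (by positivity)
            exact mul_le_mul_of_nonneg_left h10 hwn0
        _ = (cnrm R₀ (Qj j) * ((R₀ ^ ((j : ℕ) * n₀))⁻¹ * cnrm R₀ (w ^ (n₂ * (j : ℕ))))) *
              Real.exp L ^ n₀ := by ring
        _ ≤ cm * Real.exp L ^ n₀ := mul_le_mul_of_nonneg_right h11 (by positivity)
        _ ≤ Real.exp ((⌈Real.log cm⌉₊ : ℝ) * L) * Real.exp ((2 * n₀ * L : ℕ) : ℝ) := by
            refine mul_le_mul ?_ ?_ (by positivity) (Real.exp_pos _).le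
            · calc cm = Real.exp (Real.log cm) := (Real.exp_log (by linarith)).symm
                _ ≤ Real.exp ((⌈Real.log cm⌉₊ : ℝ) * L) := by
                    apply Real.exp_le_exp.mpr
                    have e1 := Nat.le_ceil (Real.log cm)
                    have e2 : (0 : ℝ) ≤ (⌈Real.log cm⌉₊ : ℝ) := Nat.cast_nonneg _
                    nlinarith
            · rw [← Real.exp_nat_mul]
              apply Real.exp_le_exp.mpr
              push_cast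
              have e1 : (0 : ℝ) ≤ (n₀ : ℝ) * L := by positivity
              linarith
        _ = Real.exp ((c' * L : ℕ) : ℝ) := by
            rw [← Real.exp_add, hc']
            congr 1
            push_cast
            ring)
  refine ⟨Polynomial.expand (Polynomial ℚ) n₀ P, ?_, ?_, ?_, ?_⟩
  · rwa [Ne, Polynomial.expand_eq_zero hn₀]
  · rw [Polynomial.natDegree_expand]
    exact Nat.mul_le_mul_right _ hPd.le
  · intro i
    rw [Polynomial.coeff_expand hn₀]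
    split_ifs
    · exact hPt _
    · simpa using ht0
  · intro k hk
    rw [Polynomial.expand_aeval]
    exact hP k hk

end Pool.Agent.H925
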