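import Pool.Agent.H925.OrbAlg
import Pool.Graph.R_pool_sql_team_seeded_620a6dc7.Helper338PC.KFinal

set_option autoImplicit false

open Finset NumberField

namespace Pool.Agent.H925

open Pool.Agent.Helper338PC

section scaling

variable {idx : Type*} [Fintype idx] [DecidableEq idx] {A₁ : Matrix idx idx (Polynomial ℤ)}
  {D : ℕ} {β : idx → ℚ} {U : Matrix idx idx (PowerSeries ℚ)}

/-- Algebraicity of the solutions, arbitrary initial values. -/
theorem orb_galg' (hD : D ≠ 0) (hgap : ∀ i j, |β i - β j| < 1) (hdet : (ccM U).det ≠ 0)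
    (hU : ∀ j, IsSolG (Aps (Int.castRingHom ℚ) (D : ℚ)⁻¹ 1 A₁) (β j) (fun i => U i j))
    {S : Finset ℕ} (hS : ∀ p ∈ S, p.Prime) (hDS : ∀ p, p.Prime → p ∣ D → p ∈ S) {E : Set ℕ}
    (hE : Summable (sparseTerm E)) {ℓ : ℕ → ℝ} (hℓ : ∀ p, 0 ≤ ℓ p)
    (hbad : ∀ (p : ℕ) [Fact p.Prime], p ∈ S → ∀ i j, PadicRadius p (U i j) (ℓ p))
    (hgood : ∀ (p : ℕ) [Fact p.Prime], p ∉ S → p ∉ E →
      MG (Aps (Int.castRingHom (ZMod p)) (D : ZMod p)⁻¹ 1 A₁) p = 0)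
    {n₁ n₂ : ℕ} (hn₁ : 0 < n₁) (hn₂ : 0 < n₂) (hdeg : ∀ i j, (A₁ i j).natDegree ≤ 1)
    (h1 : Polynomial.aeval (A₁.map (Polynomial.eval 1)) (eigPoly n₁ D) = 0)
    (h2 : Polynomial.aeval (-(A₁.map fun a => a.coeff 1)) (eigPoly n₂ D) = 0)
    {R : ℝ} (hR0 : 0 < R) (hR : CuspRadius n₁ n₂ R)
    (hsum : defect (numExp β) S E ℓ < Real.log R) (j i : idx) :
    IsAlgebraic (Polynomial ℚ) (U j i) := by
  classical
  set N : ℕ := ∏ x : idx × idx, (PowerSeries.coeff 0 (U x.1 x.2)).den with hN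
  have hN0 : N ≠ 0 := Finset.prod_ne_zero_iff.mpr fun x _ => Rat.den_nz _
  have hNQ : (N : ℚ) ≠ 0 := by exact_mod_cast hN0
  set V : Matrix idx idx (PowerSeries ℚ) :=
    Matrix.of fun i j => PowerSeries.C (N : ℚ) * U i j with hV
  have hccV : ccM V = (N : ℚ) • ccM U := by
    ext1 i j
    rw [ccM_apply, Matrix.smul_apply, ccM_apply, hV, Matrix.of_apply, map_mul,
      PowerSeries.constantCoeff_C, smul_eq_mul]
  have hdetV : (ccM V).det ≠ 0 := by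
    rw [hccV, Matrix.det_smul]
    exact mul_ne_zero (pow_ne_zero _ hNQ) hdet
  have hVsol : ∀ j, IsSolG (Aps (Int.castRingHom ℚ) (D : ℚ)⁻¹ 1 A₁) (β j) (fun i => V i j) :=
    fun j => (hU j).smul (N : ℚ)
  have hint : ∀ i j, ∃ z : ℤ, PowerSeries.coeff 0 (V i j) = z := by
    intro i j
    obtain ⟨c, hc⟩ : (PowerSeries.coeff 0 (U i j)).den ∣ N :=
      Finset.dvd_prod_of_mem (fun x : idx × idx => (PowerSeries.coeff 0 (U x.1 x.2)).den)
        (mem_univ (i, j))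
    refine ⟨c * (PowerSeries.coeff 0 (U i j)).num, ?_⟩
    rw [hV, Matrix.of_apply, PowerSeries.coeff_C_mul, hc]
    push_cast
    have := Rat.mul_den_eq_num (PowerSeries.coeff 0 (U i j))
    linear_combination (c : ℚ) * this
  have h3 := orb_galg hD hgap hdetV hVsol hint hS hDS hE hℓ
    (fun p _ hp i j => (hbad p hp i j).mul_nat N) hgood hn₁ hn₂ hdeg h1 h2 hR0 hR hsum j i
  have h4 : U j i = PowerSeries.C (N : ℚ)⁻¹ * V j i := by
    rw [hV, Matrix.of_apply, ← mul_assoc, ← map_mul, inv_mul_cancel₀ hNQ, map_one, one_mul]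
  rw [h4]
  refine IsAlgebraic.mul ?_ h3
  have h5 : PowerSeries.C (N : ℚ)⁻¹ =
      algebraMap (Polynomial ℚ) (PowerSeries ℚ) (Polynomial.C (N : ℚ)⁻¹) := by
    rw [PowerSeries.algebraMap_apply', Polynomial.coe_C]
    ext m
    simp
  rw [h5]
  exact isAlgebraic_algebraMap _

end scaling

section numberField

variable {K : Type} [Field K] [NumberField K] {r : ℕ}
  {A : Matrix (Fin r) (Fin r) (Polynomial (𝓞 K))} {D : ℕ} {β : Fin r → ℚ}
  {U : Matrix (Fin r) (Fin r) (PowerSeries K)}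

lemma natDegree_polyLM {ι : Type*} [Fintype ι] [DecidableEq ι] {R S : Type*} [CommRing R]
    [CommRing S] [Algebra R S] (b : Module.Basis ι R S) {a : Polynomial S} {k : ℕ}
    (h : a.natDegree ≤ k) (i j : ι) : (polyLM b a i j).natDegree ≤ k := by
  rw [Polynomial.natDegree_le_iff_coeff_eq_zero]
  intro n hn
  rw [coeff_polyLM, Polynomial.coeff_eq_zero_of_natDegree_lt (by omega), map_zero,
    Matrix.zero_apply]

/-- Algebraicity of the solutions over a number field. -/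
theorem orb_kalg (hD : D ≠ 0) (hgap : ∀ i j, |β i - β j| < 1) (hdet : (ccM U).det ≠ 0)
    (hU : ∀ j, IsSolG (Aps (algebraMap (𝓞 K) K) (D : K)⁻¹ 1 A) ((β j : ℚ) : K)
      (fun i => U i j))
    {S : Finset ℕ} (hS : ∀ p ∈ S, p.Prime) (hDS : ∀ p, p.Prime → p ∣ D → p ∈ S) {E : Set ℕ}
    (hE : Summable (sparseTerm E)) {ℓ : ℕ → ℝ} (hℓ : ∀ p, 0 ≤ ℓ p)
    (hbad : ∀ p ∈ S, (∀ i j, RadiusAt p (U i j) (ℓ p)) ∨
      ∃ e : ℕ, (∀ (s : ℕ) (i j : Fin r), s ≠ 0 → PadicIntegral p e (PowerSeries.coeff s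
        ((cstM (ccM U)⁻¹ * Aps (algebraMap (𝓞 K) K) (D : K)⁻¹ 1 A * cstM (ccM U)) i j))) ∧
        e + numClass β p / ((p : ℝ) - 1) ≤ ℓ p)
    (hgood : ∀ p : ℕ, p.Prime → p ∉ S → p ∉ E →
      (∀ x : 𝓞 K, (∀ (𝔭 : Ideal (𝓞 K)) [𝔭.IsMaximal], (p : 𝓞 K) ∈ 𝔭 → x ∈ 𝔭) →
        ∃ y : 𝓞 K, x = (p : 𝓞 K) * y) ∧
      ∀ (𝔭 : Ideal (𝓞 K)) [𝔭.IsMaximal], (p : 𝓞 K) ∈ 𝔭 → PCurvZeroAt 𝔭 D 1 A)
    {n₁ n₂ : ℕ} (hn₁ : 0 < n₁) (hn₂ : 0 < n₂) (hdeg : ∀ i j, (A i j).natDegree ≤ 1)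
    (h1 : Polynomial.aeval (A.map (Polynomial.eval 1)) (eigPoly n₁ D) = 0)
    (h2 : Polynomial.aeval (-(A.map fun a => a.coeff 1)) (eigPoly n₂ D) = 0)
    {R : ℝ} (hR0 : 0 < R) (hR : CuspRadius n₁ n₂ R)
    (hsum : defect (numExp β) S E ℓ < Real.log R) (i j : Fin r) :
    IsAlgebraic (Polynomial K) (U i j) := by
  classical
  set b := integralBasis K with hb
  set A₁ := polyLMM (RingOfIntegers.basis K) A with hA₁
  set AK := Aps (algebraMap (𝓞 K) K) (D : K)⁻¹ 1 A with hAK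
  have hAres : LMM b AK = Aps (Int.castRingHom ℚ) (D : ℚ)⁻¹ 1 A₁ := by
    have h1 : (D : K)⁻¹ = algebraMap ℚ K (D : ℚ)⁻¹ := by rw [map_inv₀, map_natCast]
    rw [hAK, h1, LMM_Aps_compat]
  set β' : Fin r × Module.Free.ChooseBasisIndex ℤ (𝓞 K) → ℚ := fun x => β x.1 with hβ'
  have hU' : ∀ y, IsSolG (Aps (Int.castRingHom ℚ) (D : ℚ)⁻¹ 1 A₁) (β' y)
      (fun x => LMM b U x y) := by
    intro y
    rw [← hAres]
    refine IsSolG.res b (β := β) (fun j => ?_) y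
    rw [eq_ratCast]
    exact hU j
  have hgap' : ∀ x y, |β' x - β' y| < 1 := fun x y => hgap _ _
  have key := orb_galg' (U := LMM b U) hD hgap' (det_res hdet) hU' hS hDS hE hℓ (by
    intro p hp hpS x y
    rcases hbad p hpS with h | ⟨e, h1, h2⟩
    · exact (h x.1 y.1).res x.2 y.2
    · refine explicit_radius hgap' (det_res hdet) hU' (e := e) ?_ ?_ x y
      · intro s x y hs
        rw [← hAres, conj_res hdet, LMM_apply, coeff_LM]
        exact leftMul_norm (h1 s x.1 y.1 hs) _ _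
      · refine le_trans ?_ h2
        have hp1 : (1 : ℝ) < p := by exact_mod_cast hp.out.one_lt
        have h3 : ((numClass β' p : ℕ) : ℝ) ≤ numClass β p := by
          exact_mod_cast numClass_res β p
        have h4 : (0 : ℝ) < p - 1 := by linarith
        gcongr) (by
    intro p hp hpS hpE
    obtain ⟨h1, h2⟩ := hgood p hp.out hpS hpE
    exact pcurv_res (RingOfIntegers.basis K) (fun h => hpS (hDS p hp.out h)) h1 h2)
    hn₁ hn₂ (fun x y => natDegree_polyLM _ (hdeg _ _) _ _) (by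
      have e1 : A₁.map (Polynomial.eval 1) = LM0 K r (A.map (Polynomial.eval 1)) := by
        rw [hA₁, LMM_apply_eval]
        rfl
      rw [e1]
      exact eigPoly_map (LM0 K r) h1) (by
      have e1 : -(A₁.map fun a => a.coeff 1) = LM0 K r (-(A.map fun a => a.coeff 1)) := by
        rw [map_neg]
        congr 1
        ext x y
        rw [Matrix.map_apply, hA₁, polyLMM_apply, coeff_polyLM]
        rfl
      rw [e1]
      exact eigPoly_map (LM0 K r) h2) hR0 hR (by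
    rw [numExp_res]
    exact hsum)
  refine algebraic_of_res fun a c => ?_
  exact key (i, a) (j, c)

/-- The main theorem. -/
theorem orb_defect_criterion (hD : D ≠ 0)
    (hU : IsFundamentalAtZero (algebraMap (𝓞 K) K) D 1 A β U)
    (hgap : ∀ i j, |β i - β j| < 1) {S : Finset ℕ} (hS : ∀ p ∈ S, p.Prime)
    (hDS : ∀ p : ℕ, p.Prime → p ∣ D → p ∈ S) {E : Set ℕ} (hE : Summable (sparseTerm E))
    {ℓ : ℕ → ℝ} (hℓ : ∀ p ∈ S, 0 ≤ ℓ p)
    (hbad : ∀ p ∈ S, AdmissibleAt (algebraMap (𝓞 K) K) D 1 A β U p (ℓ p))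
    (hgood : ∀ p : ℕ, p.Prime → p ∉ S → p ∉ E → (Ideal.span {(p : 𝓞 K)}).IsRadical ∧
      ∀ (𝔭 : Ideal (𝓞 K)) [𝔭.IsMaximal], (p : 𝓞 K) ∈ 𝔭 → PCurvZeroAt 𝔭 D 1 A)
    {n₁ n₂ : ℕ} (hn₁ : 0 < n₁) (hn₂ : 0 < n₂) (hdeg : ∀ i j, (A i j).natDegree ≤ 1)
    (h1 : Polynomial.aeval (A.map (Polynomial.eval 1)) (eigPoly n₁ D) = 0)
    (h2 : Polynomial.aeval (-(A.map fun a => a.coeff 1)) (eigPoly n₂ D) = 0)
    {R : ℝ} (hR0 : 0 < R) (hR : CuspRadius n₁ n₂ R)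
    (hsum : defect (numExp β) S E ℓ < Real.log R) :
    FullAlgebraic (sysG (algebraMap (𝓞 K) K) D 1 A) := by
  classical
  obtain ⟨hdet, hUeq⟩ := hU
  rw [ccM_eq_map] at hdet
  have hsol : ∀ j, IsSolG (Aps (algebraMap (𝓞 K) K) (D : K)⁻¹ 1 A) ((β j : ℚ) : K)
      (fun i => U i j) := fun j i => hUeq i j
  set ℓ' : ℕ → ℝ := fun p => if p ∈ S then ℓ p else 0 with hℓ'
  have hℓS : ∀ p ∈ S, ℓ' p = ℓ p := fun p hp => if_pos hp
  have hdef : defect (numExp β) S E ℓ' = defect (numExp β) S E ℓ := by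
    unfold defect
    congr 1
    exact Finset.sum_congr rfl fun p hp => by rw [hℓS p hp]
  refine exists_extensionF (algebraMap (𝓞 K) K) hD 1 A hdet hsol fun i j => ?_
  refine orb_kalg hD hgap hdet hsol hS hDS hE (ℓ := ℓ') (fun p => ?_) (fun p hp => ?_)
    (fun p hp hpS hpE => ?_) hn₁ hn₂ hdeg h1 h2 hR0 hR ?_ i j
  · by_cases h : p ∈ S
    · rw [hℓS p h]
      exact hℓ p h
    · rw [hℓ']
      simp only
      rw [if_neg h]
  · rw [hℓS p hp]
    rcases hbad p hp with h | ⟨e, he, h⟩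
    · exact Or.inl h
    · refine Or.inr ⟨e, fun s i j hs => ?_, he⟩
      rw [coeff_conj]
      exact h s i j hs
  · obtain ⟨h1, h2⟩ := hgood p hp hpS hpE
    exact ⟨fun x hx => of_isRadical hp.ne_zero h1 x hx, h2⟩
  · rw [hdef]
    exact hsum

end numberField

end Pool.Agent.H925
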