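import Pool.Agent.H925.EffAlg
import Pool.Agent.H925.EffDen
import Pool.Agent.H925.EffOrb
import Pool.Agent.H925.EffSer
import Pool.Agent.H925.EffDefs
import Pool.Agent.H925.OrbK
import Pool.Graph.R_pool_sql_team_seeded_620a6dc7.Helper338PC.Six

set_option autoImplicit false

open Finset NumberField

namespace Pool.Agent.H925

open Pool.Agent.Helper338PC

section aux

/-- The partial sums of the coefficients of a polynomial. -/
lemma norm_coeff_wg_mul {p : Polynomial ℂ} {m : ℕ} {a : ℝ} (hp : p.natDegree ≤ m)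
    (ha : ∀ k, ‖p.coeff k‖ ≤ a) (s : ℕ) :
    ‖PowerSeries.coeff s (wg ℂ * (p : PowerSeries ℂ))‖ ≤ ((m + 1 : ℕ) : ℝ) * a := by
  have ha0 : 0 ≤ a := (norm_nonneg _).trans (ha 0)
  have h1 : PowerSeries.coeff s (wg ℂ * (p : PowerSeries ℂ)) =
      -∑ k ∈ range (s + 1), p.coeff k := by
    rw [mul_comm, PowerSeries.coeff_mul, Finset.Nat.sum_antidiagonal_eq_sum_range_succ_mk,
      ← Finset.sum_neg_distrib]
    refine Finset.sum_congr rfl fun k _ => ?_
    simp only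
    rw [Polynomial.coeff_coe]
    unfold wg
    rw [map_neg, PowerSeries.coeff_mk]
    ring
  rw [h1, norm_neg]
  refine (norm_sum_le _ _).trans ?_
  have h2 : ∀ k ∈ range (s + 1), ‖p.coeff k‖ ≤ if k ∈ range (m + 1) then a else 0 := by
    intro k _
    split_ifs with h
    · exact ha k
    · rw [mem_range] at h
      rw [Polynomial.coeff_eq_zero_of_natDegree_lt (by omega), norm_zero]
  refine (Finset.sum_le_sum h2).trans ?_
  rw [← Finset.sum_filter, Finset.sum_const, nsmul_eq_mul]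
  refine mul_le_mul_of_nonneg_right ?_ ha0
  have h3 : ((range (s + 1)).filter fun k => k ∈ range (m + 1)).card ≤ m + 1 := by
    refine (Finset.card_le_card (fun k hk => (Finset.mem_filter.mp hk).2)).trans ?_
    rw [card_range]
  exact_mod_cast h3

variable {K : Type} [Field K] [NumberField K]

/-- The complex power series of the restriction of scalars. -/
theorem map_LM' {ι : Type*} [Fintype ι] [DecidableEq ι] (b : Module.Basis ι ℚ K) (i j : ι) :
    ∃ c : (K →ₐ[ℚ] ℂ) → ℂ, ∀ f : PowerSeries K,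
      PowerSeries.map (algebraMap ℚ ℂ) (LM b f i j) =
      ∑ σ : K →ₐ[ℚ] ℂ, PowerSeries.C (c σ) * PowerSeries.map (σ : K →+* ℂ) f := by
  classical
  set b' := (Algebra.traceForm ℚ K).dualBasis (traceForm_nondegenerate ℚ K) b with hb'
  refine ⟨fun σ => σ (b' i * b j), fun f => ?_⟩
  ext s
  rw [PowerSeries.coeff_map, coeff_LM, map_sum, Algebra.leftMulMatrix_eq_repr_mul]
  set y := PowerSeries.coeff s f * b j with hy
  have h1 : b.repr y i = Algebra.trace ℚ K (b' i * y) := by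
    have h2 : Algebra.traceForm ℚ K (b' i) y = b.repr y i := by
      conv_lhs => rw [← b.sum_repr y]
      rw [map_sum]
      rw [Finset.sum_eq_single i]
      · rw [map_smul, LinearMap.BilinForm.apply_dualBasis_left
          (traceForm_nondegenerate ℚ K) b, if_pos rfl]
        simp
      · intro l _ hl
        rw [map_smul, LinearMap.BilinForm.apply_dualBasis_left
          (traceForm_nondegenerate ℚ K) b, if_neg hl]
        simp
      · intro h; exact absurd (mem_univ i) h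
    rw [← h2, Algebra.traceForm_apply]
  rw [h1, trace_eq_sum_embeddings]
  refine Finset.sum_congr rfl fun σ _ => ?_
  rw [PowerSeries.coeff_C_mul, PowerSeries.coeff_map, hy]
  change σ _ = σ _ * σ _
  rw [← map_mul]
  congr 1
  ring

lemma ccM_LMM_one {r : ℕ} {U : Matrix (Fin r) (Fin r) (PowerSeries K)} (h : ccM U = 1) :
    ccM (LMM (integralBasis K) U) = 1 := by
  ext1 x y
  rw [ccM_apply, LMM_apply, ← PowerSeries.coeff_zero_eq_constantCoeff_apply, coeff_LM]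
  have h1 := congrFun (congrFun h x.1) y.1
  rw [ccM_apply, ← PowerSeries.coeff_zero_eq_constantCoeff_apply, Matrix.one_apply] at h1
  rw [h1]
  by_cases hxy : x = y
  · subst hxy
    rw [if_pos rfl, map_one, Matrix.one_apply_eq, Matrix.one_apply_eq]
  · rw [Matrix.one_apply_ne hxy]
    split_ifs with h2
    · rw [map_one, Matrix.one_apply_ne]
      intro h3
      exact hxy (Prod.ext h2 h3)
    · rw [map_zero, Matrix.zero_apply]

end aux

/-- The effective criterion. -/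
theorem eff_criterion {n₀ n₁ n₂ : ℕ} (hn₀ : 0 < n₀) (hn₁ : 0 < n₁) (hn₂ : 0 < n₂) (e m κ : ℕ)
    {R : ℝ} (hR0 : 0 < R) (hR : TriRadius n₀ n₁ n₂ R) {S : Finset ℕ} (hS : ∀ p ∈ S, p.Prime)
    {E : Set ℕ} (hE : Summable (sparseTerm E)) {ℓ : ℕ → ℝ} (hℓ : ∀ p ∈ S, 0 ≤ ℓ p)
    (hdef : defect κ S E ℓ < Real.log R) (K : Type) [Field K] [NumberField K] (r : ℕ) :
    ∃ C : ℝ, ∀ (H : ℝ) (D : ℕ) (A : Matrix (Fin r) (Fin r) (Polynomial (𝓞 K))), 1 ≤ H →
      EffClass n₀ n₁ n₂ e m κ S ℓ H K D A →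
      (∀ p : ℕ, p.Prime → (p : ℝ) ≤ C * H → p ∉ S → p ∉ E →
        (Ideal.span {(p : 𝓞 K)}).IsRadical ∧
        ∀ (𝔭 : Ideal (𝓞 K)) [𝔭.IsMaximal], (p : 𝓞 K) ∈ 𝔭 → PCurvZeroAt 𝔭 D 1 A) →
      FullAlgebraic (sysG (algebraMap (𝓞 K) K) D 1 A) := by
  classical
  -- the data
  obtain ⟨s, v, w, a, b', hs, hv, hw, ha, hb', hs0, hrel, hab, hRs⟩ := hR
  have hwc : PowerSeries.constantCoeff w ≠ 0 := by
    intro h1
    have h2 := congrArg PowerSeries.constantCoeff hab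
    rw [map_add, map_mul, map_mul, hs0, h1, mul_zero, mul_zero, add_zero, map_one] at h2
    exact zero_ne_one h2
  have hw₀n : 0 < ‖PowerSeries.constantCoeff w‖ ^ n₂ := pow_pos (norm_pos_iff.mpr hwc) _
  have hs1 : PowerSeries.coeff 1 s ≠ 0 := by
    intro h
    rw [h, norm_zero, zero_pow hn₀.ne'] at hRs
    have := mul_pos hR0 hw₀n
    linarith
  obtain ⟨ω, hω⟩ := exists_root hwc hn₀
  set ℓ' : ℕ → ℝ := fun p => if p ∈ S then ℓ p else 0 with hℓ'
  have hℓS : ∀ p ∈ S, ℓ' p = ℓ p := fun p hp => if_pos hp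
  have hℓ0 : ∀ p, 0 ≤ ℓ' p := by
    intro p
    by_cases h : p ∈ S
    · rw [hℓS p h]
      exact hℓ p h
    · rw [hℓ']
      simp only
      rw [if_neg h]
  have hdef' : defect κ S E ℓ' = defect κ S E ℓ := by
    unfold defect
    congr 1
    exact Finset.sum_congr rfl fun p hp => by rw [hℓS p hp]
  have hdef0 : 0 ≤ defect κ S E ℓ := by
    refine add_nonneg (Finset.sum_nonneg fun p hp => mul_nonneg (hℓ p hp)
      (Real.log_nonneg (by exact_mod_cast (hS p hp).one_lt.le))) (mul_nonneg (by positivity) ?_)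
    exact tsum_nonneg (outTerm_nonneg S E)
  obtain ⟨Λ, hΛ1, hΛ2⟩ : ∃ Λ, Real.exp (defect κ S E ℓ) < Λ ∧ Λ < R := by
    refine exists_between ?_
    calc Real.exp (defect κ S E ℓ) < Real.exp (Real.log R) := Real.exp_lt_exp.mpr hdef
      _ = R := Real.exp_log hR0
  have hΛ : 1 ≤ Λ := (Real.one_le_exp hdef0).trans hΛ1.le
  have hΛ0 : 0 < Λ := by linarith
  obtain ⟨M, c₀, R₀, hM0, hR₀0, hR₀1, hser⟩ := series_fin (n₂ := n₂) hn₀ (n₂ * e) hs hw hs0 hs1
    hab hω hΛ (lt_of_lt_of_le (mul_lt_mul_of_pos_right hΛ2 hw₀n) hRs)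
  set N : ℕ := Fintype.card (Fin r × Module.Free.ChooseBasisIndex ℤ (𝓞 K)) with hN
  obtain ⟨Kd, hKd⟩ := eff_den (κ := κ) hS hE hℓ0 (Λ := Λ) (by rw [hdef']; exact hΛ1) hn₀ N (n₀ * M)
  obtain ⟨Cp, hCp0, hCp⟩ := eff_pull hn₀ hn₁ hn₂ hs hv hw ha hb' hs0 hs1 hrel hab hω e m r hR₀0
    hR₀1
  set b := integralBasis K with hb
  choose cf hcf using fun (x : Module.Free.ChooseBasisIndex ℤ (𝓞 K) ×
    Module.Free.ChooseBasisIndex ℤ (𝓞 K)) => map_LM' b x.1 x.2
  obtain ⟨cb, hcb⟩ : ∃ x : ℝ, x = 1 + ∑ x, ∑ σ, ‖cf x σ‖ := ⟨_, rfl⟩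
  have hcbx : ∀ x, ∑ σ, ‖cf x σ‖ ≤ cb := by
    intro x
    have := Finset.single_le_sum (f := fun x => ∑ σ, ‖cf x σ‖)
      (fun x _ => Finset.sum_nonneg fun _ _ => norm_nonneg _) (mem_univ x)
    rw [hcb]
    linarith
  have hcb1 : 1 ≤ cb := by
    have : 0 ≤ ∑ x, ∑ σ, ‖cf x σ‖ :=
      Finset.sum_nonneg fun x _ => Finset.sum_nonneg fun _ _ => norm_nonneg _
    rw [hcb]
    linarith
  -- the constants
  set aX : ℝ := n₀ * r * ((m + 1 : ℕ) : ℝ) with haX
  have haX0 : 0 ≤ aX := by positivity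
  set l₁ : ℝ := |Real.log (max 1 Kd)| + Real.log cb with hl₁
  have hl₁0 : 0 ≤ l₁ := add_nonneg (abs_nonneg _) (Real.log_nonneg hcb1)
  set CL : ℝ := l₁ + (Cp + 1) * (aX + 2) + 2 with hCL
  have hCL0 : 0 ≤ CL := by positivity
  set M₁ : ℕ := M * n₀ with hM₁
  have hM₁0 : 0 < M₁ := Nat.mul_pos hM0 hn₀
  set α₁ : ℕ := 2 ^ M₁ * (M₁ ^ N * ((M₁ + 1) * N + 1)) + M with hα₁
  set α₀ : ℕ := 2 ^ M₁ * (M₁ ^ N * (m + 1) + 1) + 1 with hα₀
  set m0 : ℕ := 2 * (1 + N * (N * n₀)) with hm0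
  refine ⟨(m0 : ℝ) * (α₁ * (c₀ + 1) * CL + α₀), ?_⟩
  intro H D A hH hA hgood
  obtain ⟨hD, ⟨h0, h1, ⟨m', c', T, T', hinf⟩⟩, hdeg, hheight, hDS, jj, hκ, hres, hbad⟩ := hA
  have hH0 : 0 < H := by linarith
  have hn₀Q : (n₀ : ℚ) ≠ 0 := by exact_mod_cast hn₀.ne'
  have hn₀K : (n₀ : K) ≠ 0 := by exact_mod_cast hn₀.ne'
  have hn₀C : (n₀ : ℂ) ≠ 0 := by exact_mod_cast hn₀.ne'
  have hDK : (D : K) ≠ 0 := by exact_mod_cast hD
  have hDC : (D : ℂ) ≠ 0 := by exact_mod_cast hD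
  have hDR : (0 : ℝ) < D := by exact_mod_cast Nat.pos_of_ne_zero hD
  -- the numbers
  obtain ⟨X, hX1, hX2⟩ : ∃ X : ℕ, aX * H ≤ X ∧ (X : ℝ) ≤ aX * H + 1 :=
    ⟨⌈aX * H⌉₊, Nat.le_ceil _, (Nat.ceil_lt_add_one (by positivity)).le⟩
  obtain ⟨L, hL1, hL2, hL3⟩ : ∃ L : ℕ, 1 ≤ L ∧ l₁ + (Cp + 1) * (H + X) ≤ L ∧
      (L : ℝ) ≤ CL * H := by
    refine ⟨⌈l₁ + (Cp + 1) * (H + X)⌉₊ + 1, by omega, ?_, ?_⟩
    · push_cast
      have := Nat.le_ceil (l₁ + (Cp + 1) * (H + X))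
      linarith
    · push_cast
      have h2 : 0 ≤ l₁ + (Cp + 1) * (H + X) := by positivity
      have h3 := (Nat.ceil_lt_add_one h2).le
      have h4 : (Cp + 1) * (H + X) ≤ (Cp + 1) * ((aX + 2) * H) := by
        refine mul_le_mul_of_nonneg_left ?_ (by linarith)
        nlinarith
      have h5 : l₁ ≤ l₁ * H := le_mul_of_one_le_right hl₁0 hH
      rw [hCL]
      nlinarith
  set t : ℕ := (c₀ + 1) * L with ht
  have ht0 : 0 < t := Nat.mul_pos (Nat.succ_pos _) (by omega)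
  have hct : c₀ * L ≤ t := Nat.mul_le_mul_right _ (Nat.le_succ _)
  set T₁ : ℕ := 2 ^ M₁ * (M₁ ^ N * ((m + 1) + ((M₁ + 1) * N + 1) * t) + 1) + t * M with hT₁
  have hT₁eq : T₁ + 1 = α₁ * t + α₀ := by
    rw [hT₁, hα₁, hα₀]
    ring
  have hT₁M : t * M ≤ T₁ := Nat.le_add_left _ _
  have hprime : ((m0 * (T₁ + 1) : ℕ) : ℝ) ≤ (m0 : ℝ) * (α₁ * (c₀ + 1) * CL + α₀) * H := by
    rw [hT₁eq, ht]
    push_cast
    have e1 : (α₁ : ℝ) * ((c₀ + 1) * L) ≤ α₁ * ((c₀ + 1) * (CL * H)) := by gcongr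
    have e2 : (α₀ : ℝ) ≤ α₀ * H := le_mul_of_one_le_right (Nat.cast_nonneg _) hH
    calc (m0 : ℝ) * (α₁ * ((c₀ + 1) * L) + α₀) ≤
          m0 * (α₁ * ((c₀ + 1) * (CL * H)) + α₀ * H) := by gcongr
      _ = _ := by ring
  -- size of `exp L`
  have hexpL : Real.exp (l₁ + (Cp + 1) * (H + X)) ≤ Real.exp L := Real.exp_le_exp.mpr hL2
  have hKdL : Kd ≤ Real.exp L := by
    have e1 : Kd ≤ Real.exp |Real.log (max 1 Kd)| := by
      calc Kd ≤ max 1 Kd := le_max_right _ _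
        _ = Real.exp (Real.log (max 1 Kd)) :=
            (Real.exp_log (lt_of_lt_of_le one_pos (le_max_left _ _))).symm
        _ ≤ _ := Real.exp_le_exp.mpr (le_abs_self _)
    refine e1.trans (le_trans (Real.exp_le_exp.mpr ?_) hexpL)
    have e2 : 0 ≤ (Cp + 1) * (H + X) := by positivity
    have e3 := Real.log_nonneg hcb1
    rw [hl₁]
    linarith
  have hcbL : cb * Real.exp ((Cp + 1) * (H + X)) ≤ Real.exp L := by
    have e1 : cb * Real.exp ((Cp + 1) * (H + X)) =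
        Real.exp (Real.log cb + (Cp + 1) * (H + X)) := by
      rw [Real.exp_add, Real.exp_log (by linarith)]
    rw [e1]
    refine le_trans (Real.exp_le_exp.mpr ?_) hexpL
    have := abs_nonneg (Real.log (max 1 Kd))
    rw [hl₁]
    linarith
  have hX0 : (0 : ℝ) ≤ X := Nat.cast_nonneg X
  have h2X : (2 : ℝ) ^ X ≤ Real.exp ((Cp + 1) * (H + X)) := by
    have e4 : (2 : ℝ) ≤ Real.exp 1 := by
      have := Real.add_one_le_exp (1 : ℝ)
      linarith
    calc (2 : ℝ) ^ X ≤ Real.exp 1 ^ X := pow_le_pow_left₀ (by norm_num) e4 X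
      _ = Real.exp X := by rw [← Real.exp_nat_mul, mul_one]
      _ ≤ _ := Real.exp_le_exp.mpr (by nlinarith)
  have hpX : Real.exp (Cp * (H + X)) ≤ Real.exp ((Cp + 1) * (H + X)) :=
    Real.exp_le_exp.mpr (by nlinarith)
  -- the fundamental matrix
  set β : Fin r → ℚ := fun i => ((jj i : ℕ) : ℚ) / n₀ with hβ
  have hgap : ∀ i j, |β i - β j| < 1 := by
    intro i j
    have hn₀Q' : (0 : ℚ) < n₀ := by exact_mod_cast hn₀
    rw [hβ]
    simp only
    rw [← sub_div, abs_div, abs_of_pos hn₀Q', div_lt_one hn₀Q', abs_lt]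
    have h2 : ((jj i : ℕ) : ℚ) < n₀ := by exact_mod_cast (jj i).2
    have h3 : ((jj j : ℕ) : ℚ) < n₀ := by exact_mod_cast (jj j).2
    have h4 : (0 : ℚ) ≤ ((jj i : ℕ) : ℚ) := Nat.cast_nonneg _
    have h5 : (0 : ℚ) ≤ ((jj j : ℕ) : ℚ) := Nat.cast_nonneg _
    constructor <;> linarith
  set AK := Aps (algebraMap (𝓞 K) K) (D : K)⁻¹ 1 A with hAK
  have hA0K : ∀ i l, PowerSeries.coeff 0 (AK i l) = if i = l then ((β i : ℚ) : K) else 0 := by
    intro i l
    have e2 : PowerSeries.constantCoeff (wg K) = -1 := by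
      unfold wg
      rw [map_neg, ← PowerSeries.coeff_zero_eq_constantCoeff_apply, PowerSeries.coeff_mk]
    rw [PowerSeries.coeff_zero_eq_constantCoeff_apply, hAK, Aps_apply, map_mul, map_mul, map_pow,
      PowerSeries.constantCoeff_C, e2, ← PowerSeries.coeff_zero_eq_constantCoeff_apply,
      Polynomial.coeff_coe, Polynomial.coeff_map]
    have e3 := congrArg (algebraMap (𝓞 K) K) (hres i l)
    rw [nsmul_eq_mul, map_mul, map_natCast] at e3
    split_ifs with h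
    · rw [if_pos h, map_neg, map_natCast] at e3
      rw [hβ]
      push_cast at e3 ⊢
      field_simp
      linear_combination -e3
    · rw [if_neg h, map_zero] at e3
      rw [(mul_eq_zero.mp e3).resolve_left hn₀K, mul_zero]
  obtain ⟨U, hU1, hsol⟩ := exists_U (A := AK) (β := fun i => ((β i : ℚ) : K)) hA0K (by
    intro k i j hk
    have := gap_ne hgap hk j i
    have h3 : (((k : ℚ) + β j - β i : ℚ) : K) ≠ 0 := by exact_mod_cast this
    push_cast at h3
    exact h3)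
  have hccU : ccM U = 1 := by rw [← ccM_eq_map]; exact hU1
  have hdet : (ccM U).det ≠ 0 := by rw [hccU, Matrix.det_one]; exact one_ne_zero
  refine exists_extensionF (algebraMap (𝓞 K) K) hD 1 A (β := β) hdet hsol fun i₁ j₁ => ?_
  refine algebraic_of_res fun x₁ y₁ => ?_
  -- restriction of scalars
  set A₁ := polyLMM (RingOfIntegers.basis K) A with hA₁
  have hAres : LMM b AK = Aps (Int.castRingHom ℚ) (D : ℚ)⁻¹ 1 A₁ := by
    have h1 : (D : K)⁻¹ = algebraMap ℚ K (D : ℚ)⁻¹ := by rw [map_inv₀, map_natCast]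
    rw [hAK, h1, LMM_Aps_compat]
  set jj' : Fin r × Module.Free.ChooseBasisIndex ℤ (𝓞 K) → Fin n₀ := fun x => jj x.1 with hjj'
  set β' : Fin r × Module.Free.ChooseBasisIndex ℤ (𝓞 K) → ℚ := fun x => β x.1 with hβ'
  set U' := LMM b U with hU'def
  have hU' : ∀ y, IsSolG (Aps (Int.castRingHom ℚ) (D : ℚ)⁻¹ 1 A₁) (β' y)
      (fun x => U' x y) := by
    intro y
    rw [← hAres]
    refine IsSolG.res b (β := β) (fun j => ?_) y
    rw [eq_ratCast]
    exact hsol j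
  have hone : ccM U' = 1 := ccM_LMM_one hccU
  have hgap' : ∀ x y, |β' x - β' y| < 1 := fun x y => hgap _ _
  -- the denominators
  have hden : ∀ n ≤ T₁, ∀ x y, ∃ d : ℕ, 0 < d ∧ (d : ℝ) ≤ Real.exp L * Λ ^ n ∧
      ∀ m ≤ n₀ * M, ∀ k ≤ n, ∃ z : ℤ, (d : ℚ) * PowerSeries.coeff k (U' x y ^ m) = z := by
    intro n hn x y
    obtain ⟨d, hd0, hd1, hd2⟩ := hKd _ A₁ D jj' U' rfl hD hone hU' hDS (by
        have := numExp_res (K := K) β
        rw [← hβ'] at this
        exact this.le.trans hκ) (by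
      intro p hp hpS
      obtain ⟨e₀, he1, he2⟩ := hbad p hpS
      refine ⟨e₀, ?_, fun k x y hk => ?_⟩
      · rw [hℓS p hpS]
        refine le_trans ?_ he1
        have hp1 : (1 : ℝ) < p := by exact_mod_cast hp.out.one_lt
        have h3 : ((numClass β' p : ℕ) : ℝ) ≤ numClass β p := by
          exact_mod_cast numClass_res β p
        have h4 : (0 : ℝ) < p - 1 := by linarith
        have h5 : ((numClass β' p : ℕ) : ℝ) / ((p : ℝ) - 1) ≤ numClass β p / ((p : ℝ) - 1) := by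
          gcongr
        have h6 : (e₀ : ℝ) + numClass β' p / ((p : ℝ) - 1) ≤
            (e₀ : ℝ) + numClass β p / ((p : ℝ) - 1) := by linarith
        exact h6
      · rw [← hAres, LMM_apply, coeff_LM]
        exact leftMul_norm (he2 k x.1 y.1 hk) _ _) n (by
      intro p hp hpS hpE hple
      obtain ⟨h1, h2⟩ := hgood p hp.out (by
        refine le_trans ?_ hprime
        have e1 : p ≤ m0 * (T₁ + 1) :=
          hple.trans (Nat.mul_le_mul_left _ (Nat.add_le_add_right hn 1))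
        exact_mod_cast e1) hpS hpE
      exact pcurv_res (RingOfIntegers.basis K) (fun h => hpS (hDS p hp.out h))
        (fun x hx => of_isRadical hp.out.ne_zero h1 x hx) h2) x y
    exact ⟨d, hd0, hd1.trans (mul_le_mul_of_nonneg_right hKdL (by positivity)), hd2⟩
  -- the complex systems
  have hcx : ∀ (σ : K →+* ℂ) (j : Fin r), (∀ i k, ‖PowerSeries.coeff k
      (PowerSeries.map σ (U i j))‖ ≤ 2 ^ (X + k)) ∧ ∀ i,
      CConv (s ^ (jj j : ℕ) * w ^ (n₂ * e) * ω⁻¹ ^ (n₂ * (jj j : ℕ)) *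
        (PowerSeries.map σ (U i j)).subst (s ^ n₀ * w⁻¹ ^ n₂)) ∧
      cnrm R₀ (s ^ (jj j : ℕ) * w ^ (n₂ * e) * ω⁻¹ ^ (n₂ * (jj j : ℕ)) *
        (PowerSeries.map σ (U i j)).subst (s ^ n₀ * w⁻¹ ^ n₂)) ≤ Real.exp (Cp * (H + X)) := by
    intro σ j
    have h3 := (hsol j).map σ
    rw [hAK, Aps_map, map_inv₀, map_natCast] at h3
    have h4 : σ ((β j : ℚ) : K) = ((jj j : ℕ) : ℂ) / (n₀ : ℂ) := by
      rw [map_ratCast, hβ]
      push_cast
      rfl
    rw [h4] at h3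
    set AC : Matrix (Fin r) (Fin r) (Polynomial ℂ) :=
      (A.map (Polynomial.map (algebraMap (𝓞 K) K))).map (Polynomial.map σ) with hAC
    have hACc : ∀ i j k, (AC i j).coeff k = σ (algebraMap (𝓞 K) K ((A i j).coeff k)) := by
      intro i j k
      rw [hAC, Matrix.map_apply, Matrix.map_apply, Polynomial.coeff_map, Polynomial.coeff_map]
    have h5 : Aps (σ.comp (algebraMap (𝓞 K) K)) (D : ℂ)⁻¹ 1 A =
        Aps (RingHom.id ℂ) (D : ℂ)⁻¹ 1 AC := by
      ext1 i j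
      rw [Aps_apply, Aps_apply, Polynomial.map_id, hAC, Matrix.map_apply, Matrix.map_apply,
        Polynomial.map_map]
    have h6 : Aps (RingHom.id ℂ) (D : ℂ)⁻¹ 1 AC = AK.map (PowerSeries.map σ) := by
      rw [← h5, hAK, Aps_map, map_inv₀, map_natCast]
    rw [h5] at h3
    have hACdeg : ∀ i j, (AC i j).natDegree ≤ m := fun i j =>
      (Polynomial.natDegree_map_le).trans ((Polynomial.natDegree_map_le).trans (hdeg i j))
    have hACH : ∀ i j k, ‖(AC i j).coeff k‖ ≤ H * D := fun i j k => by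
      rw [hACc]
      exact hheight σ i j k
    have hgrow : ∀ i k, ‖PowerSeries.coeff k (PowerSeries.map σ (U i j))‖ ≤ 2 ^ (X + k) := by
      intro i k
      refine coeff_growth (h := fun i => PowerSeries.map σ (U i j))
        (β := fun i => ((jj i : ℕ) : ℂ) / (n₀ : ℂ)) h3 ?_ hn₀ ?_
        (a := ((m + 1 : ℕ) : ℝ) * H) ?_ ?_ ?_ k i
      · intro i l
        rw [h6, Matrix.map_apply, PowerSeries.coeff_map, hA0K]
        split_ifs
        · rw [map_ratCast, hβ]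
          push_cast
          rfl
        · exact map_zero σ
      · intro k i hk
        have hn₀R : (0 : ℝ) < n₀ := by exact_mod_cast hn₀
        have e1 : ((k : ℂ) + ((jj j : ℕ) : ℂ) / (n₀ : ℂ) - ((jj i : ℕ) : ℂ) / (n₀ : ℂ)) =
            ((((k : ℝ) + ((jj j : ℕ) : ℝ) / (n₀ : ℝ) - ((jj i : ℕ) : ℝ) / (n₀ : ℝ)) : ℝ) : ℂ) := by
          push_cast
          ring
        rw [e1, Complex.norm_real, Real.norm_eq_abs]
        refine le_trans ?_ (le_abs_self _)
        have e2 : ((jj i : ℕ) : ℝ) + 1 ≤ n₀ := by exact_mod_cast (jj i).2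
        have e3 : (0 : ℝ) ≤ ((jj j : ℕ) : ℝ) := Nat.cast_nonneg _
        have e4 : (1 : ℝ) ≤ k := by exact_mod_cast hk
        have e5 : (k : ℝ) + ((jj j : ℕ) : ℝ) / (n₀ : ℝ) - ((jj i : ℕ) : ℝ) / (n₀ : ℝ) =
            (k * n₀ + ((jj j : ℕ) : ℝ) - ((jj i : ℕ) : ℝ)) / n₀ := by
          field_simp
        rw [e5]
        have e6 : (1 : ℝ) ≤ n₀ := by exact_mod_cast hn₀
        gcongr
        nlinarith
      · intro k i l _
        rw [Aps_apply, pow_one, Polynomial.map_id, mul_assoc, PowerSeries.coeff_C_mul, norm_mul,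
          norm_inv, Complex.norm_natCast]
        calc (D : ℝ)⁻¹ * ‖PowerSeries.coeff k (wg ℂ * (AC i l : PowerSeries ℂ))‖
            ≤ (D : ℝ)⁻¹ * (((m + 1 : ℕ) : ℝ) * (H * D)) :=
              mul_le_mul_of_nonneg_left (norm_coeff_wg_mul (hACdeg i l) (hACH i l) k)
                (by positivity)
          _ = ((m + 1 : ℕ) : ℝ) * H := by field_simp
      · intro i
        have e1 := congrFun (congrFun hU1 i) j
        rw [Matrix.map_apply, Matrix.one_apply, ← PowerSeries.coeff_zero_eq_constantCoeff_apply]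
          at e1
        rw [PowerSeries.coeff_map, e1]
        split_ifs
        · rw [map_one, norm_one]
        · rw [map_zero, norm_zero]
          exact zero_le_one
      · rw [Fintype.card_fin]
        refine le_trans (le_of_eq ?_) hX1
        rw [haX]
        ring
    refine ⟨hgrow, fun i => ?_⟩
    refine hCp (Fin r) D AC _ _ m' c' (jj j) (fun i => PowerSeries.map σ (U i j)) H X hD
      (Fintype.card_fin r) ?_ ?_ (hinf.map σ) h3 hACdeg hACH hH hgrow i
    · have h6 := eigPoly_map (σ.comp (algebraMap (𝓞 K) K)).mapMatrix h0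
      have h7 : (σ.comp (algebraMap (𝓞 K) K)).mapMatrix (-(A.map fun a => a.coeff 0)) =
          -(AC.map fun a => a.coeff 0) := by
        rw [map_neg]
        congr 1
        ext i j
        simp only [hAC, RingHom.mapMatrix_apply, Matrix.map_apply, Polynomial.coeff_map,
          RingHom.comp_apply]
      rw [← h7]
      exact h6
    · have h6 := eigPoly_map (σ.comp (algebraMap (𝓞 K) K)).mapMatrix h1
      have h7 : (σ.comp (algebraMap (𝓞 K) K)).mapMatrix (A.map (Polynomial.eval 1)) =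
          AC.map (Polynomial.eval 1) := by
        ext i j
        simp only [hAC, RingHom.mapMatrix_apply, Matrix.map_apply, RingHom.comp_apply]
        rw [Polynomial.eval_one_map, Polynomial.eval_one_map]
      rw [← h7]
      exact h6
  -- the auxiliary polynomials
  have hsub : PowerSeries.HasSubst (s ^ n₀ * w⁻¹ ^ n₂) := by
    refine PowerSeries.HasSubst.of_constantCoeff_zero' ?_
    rw [map_mul, map_pow, hs0, zero_pow hn₀.ne', zero_mul]
  have hP : ∀ x y, ∃ P : Polynomial (Polynomial ℚ), P ≠ 0 ∧ P.natDegree ≤ M₁ ∧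
      (∀ i, (P.coeff i).natDegree < t) ∧
      ∀ k ≤ T₁, PowerSeries.coeff k (Polynomial.aeval (U' x y) P) = 0 := by
    intro x y
    have e0 := hcf (x.2, y.2) (U x.1 y.1)
    simp only at e0
    have eU : U' x y = LM b (U x.1 y.1) x.2 y.2 := by rw [hU'def, LMM_apply]
    rw [← eU] at e0
    refine hser (U' x y) (jj y.1) L t T₁ hL1 hct ht0 hT₁M (fun n hn => hden n hn x y) ?_ ?_ ?_
    · intro k
      have e1 := congrArg (PowerSeries.coeff k) e0
      rw [PowerSeries.coeff_map, map_sum] at e1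
      have e2 : |((PowerSeries.coeff k (U' x y) : ℚ) : ℝ)| =
          ‖(algebraMap ℚ ℂ) (PowerSeries.coeff k (U' x y))‖ := by
        rw [eq_ratCast, ← Complex.ofReal_ratCast, Complex.norm_real, Real.norm_eq_abs]
      rw [e2, e1]
      calc ‖∑ σ : K →ₐ[ℚ] ℂ, PowerSeries.coeff k (PowerSeries.C (cf (x.2, y.2) σ) *
            PowerSeries.map (σ : K →+* ℂ) (U x.1 y.1))‖
          ≤ ∑ σ : K →ₐ[ℚ] ℂ, ‖cf (x.2, y.2) σ‖ * 2 ^ (X + k) := by
            refine (norm_sum_le _ _).trans (Finset.sum_le_sum fun σ _ => ?_)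
            rw [PowerSeries.coeff_C_mul, norm_mul]
            exact mul_le_mul_of_nonneg_left ((hcx (σ : K →+* ℂ) y.1).1 x.1 k) (norm_nonneg _)
        _ = (∑ σ : K →ₐ[ℚ] ℂ, ‖cf (x.2, y.2) σ‖) * (2 ^ X * 2 ^ k) := by
            rw [← Finset.sum_mul, pow_add]
        _ ≤ cb * (Real.exp ((Cp + 1) * (H + X)) * 2 ^ k) := by
            refine mul_le_mul (hcbx _) ?_ (by positivity) (by linarith)
            exact mul_le_mul_of_nonneg_right h2X (by positivity)
        _ = cb * Real.exp ((Cp + 1) * (H + X)) * 2 ^ k := by ring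
        _ ≤ Real.exp L * 2 ^ k := mul_le_mul_of_nonneg_right hcbL (by positivity)
    · rw [e0, subst_sum' hsub, Finset.mul_sum]
      refine CConv.sum _ fun σ _ => ?_
      rw [PowerSeries.subst_mul hsub, subst_CC]
      have e7 := (CConv.C (cf (x.2, y.2) σ)).mul ((hcx (σ : K →+* ℂ) y.1).2 x.1).1
      rw [mul_left_comm]
      exact e7
    · rw [e0, subst_sum' hsub, Finset.mul_sum]
      have e6 : ∀ σ : K →ₐ[ℚ] ℂ, s ^ (jj y.1 : ℕ) * w ^ (n₂ * e) * ω⁻¹ ^ (n₂ * (jj y.1 : ℕ)) *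
          (PowerSeries.C (cf (x.2, y.2) σ) *
            PowerSeries.map (σ : K →+* ℂ) (U x.1 y.1)).subst (s ^ n₀ * w⁻¹ ^ n₂) =
          PowerSeries.C (cf (x.2, y.2) σ) * (s ^ (jj y.1 : ℕ) * w ^ (n₂ * e) *
            ω⁻¹ ^ (n₂ * (jj y.1 : ℕ)) *
            (PowerSeries.map (σ : K →+* ℂ) (U x.1 y.1)).subst (s ^ n₀ * w⁻¹ ^ n₂)) := by
        intro σ
        rw [PowerSeries.subst_mul hsub, subst_CC]
        ring
      rw [Finset.sum_congr rfl fun σ _ => e6 σ]
      refine (cnrm_sum hR₀0 _ fun (σ : K →ₐ[ℚ] ℂ) _ => CSm.mul hR₀0 (CSm.C _)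
        (((hcx (σ : K →+* ℂ) y.1).2 x.1).1 R₀ hR₀0 hR₀1)).trans ?_
      calc ∑ σ : K →ₐ[ℚ] ℂ, cnrm R₀ (PowerSeries.C (cf (x.2, y.2) σ) *
            (s ^ (jj y.1 : ℕ) * w ^ (n₂ * e) * ω⁻¹ ^ (n₂ * (jj y.1 : ℕ)) *
            (PowerSeries.map (σ : K →+* ℂ) (U x.1 y.1)).subst (s ^ n₀ * w⁻¹ ^ n₂)))
          ≤ ∑ σ : K →ₐ[ℚ] ℂ, ‖cf (x.2, y.2) σ‖ * Real.exp (Cp * (H + X)) := by
            refine Finset.sum_le_sum fun σ _ => ?_
            refine (cnrm_mul hR₀0 (CSm.C _)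
              (((hcx (σ : K →+* ℂ) y.1).2 x.1).1 R₀ hR₀0 hR₀1)).trans ?_
            rw [cnrm_C]
            exact mul_le_mul_of_nonneg_left ((hcx (σ : K →+* ℂ) y.1).2 x.1).2 (norm_nonneg _)
        _ = (∑ σ : K →ₐ[ℚ] ℂ, ‖cf (x.2, y.2) σ‖) * Real.exp (Cp * (H + X)) :=
            (Finset.sum_mul _ _ _).symm
        _ ≤ cb * Real.exp ((Cp + 1) * (H + X)) :=
            mul_le_mul (hcbx _) hpX (Real.exp_pos _).le (by linarith)
        _ ≤ Real.exp L := hcbL
  -- the conclusion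
  have hres' : ∀ x y, PowerSeries.coeff 0 (Aps (Int.castRingHom ℚ) (D : ℚ)⁻¹ 1 A₁ x y) =
      if x = y then β' x else 0 := by
    intro x y
    have e1 := ccM_mul_diag hU'
    rw [hone, Matrix.mul_one, Matrix.one_mul] at e1
    have e2 := congrFun (congrFun e1 x) y
    rw [ccM_apply, Matrix.diagonal_apply] at e2
    rw [PowerSeries.coeff_zero_eq_constantCoeff_apply]
    exact e2
  choose P hP0 hPM hPt hPk using fun x => hP x (j₁, y₁)
  obtain ⟨Q, hQ0, _, hQ⟩ := exact_alg (m := m + 1) hD (Nat.succ_le_succ (Nat.zero_le m))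
    (fun x y => (natDegree_polyLM _ (hdeg _ _) _ _).trans (Nat.le_succ m)) (hU' (j₁, y₁)) hres'
    (fun x => hgap' _ _) hM₁0 hP0 hPM hPt (fun x => by
      rw [PowerSeries.X_pow_dvd_iff]
      intro k hk
      refine hPk x k ?_
      rw [hT₁]
      have : k < 2 ^ M₁ * (M₁ ^ N * (m + 1 + ((M₁ + 1) * N + 1) * t) + 1) := hk
      omega) (i₁, x₁)
  have e9 : U' (i₁, x₁) (j₁, y₁) = LM b (U i₁ j₁) x₁ y₁ := by rw [hU'def, LMM_apply]
  rw [← e9]
  exact ⟨Q, hQ0, hQ⟩

end Pool.Agent.H925
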