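import Pool.Agent.H925.EffHensel

set_option autoImplicit false

open Finset

namespace Pool.Agent.H925

section basic

/-- The embedding of the polynomials into the power series. -/
noncomputable abbrev co : Polynomial ℚ →+* PowerSeries ℚ :=
  algebraMap (Polynomial ℚ) (PowerSeries ℚ)

lemma co_apply (p : Polynomial ℚ) : co p = (p : PowerSeries ℚ) := by
  change algebraMap (Polynomial ℚ) (PowerSeries ℚ) p = _
  rw [PowerSeries.algebraMap_apply']
  ext n
  simp

lemma coeff_co (p : Polynomial ℚ) (n : ℕ) : PowerSeries.coeff n (co p) = p.coeff n := by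
  rw [co_apply, Polynomial.coeff_coe]

lemma co_injective : Function.Injective co := by
  intro p q h
  ext n
  rw [← coeff_co, h, coeff_co]

/-- A polynomial divisible by a large power of the variable is zero. -/
lemma eq_zero_of_X_pow_dvd {p : Polynomial ℚ} {n : ℕ} (h : (PowerSeries.X : PowerSeries ℚ) ^ n ∣ co p)
    (hn : p.natDegree < n) : p = 0 := by
  ext m
  rw [Polynomial.coeff_zero]
  by_cases hm : m < n
  · have := (PowerSeries.X_pow_dvd_iff).mp h m hm
    rwa [coeff_co] at this
  · exact Polynomial.coeff_eq_zero_of_natDegree_lt (by omega)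

lemma exists_order {g : PowerSeries ℚ} (hg : g ≠ 0) : ∃ (m : ℕ) (u : PowerSeries ℚ),
    g = PowerSeries.X ^ m * u ∧ PowerSeries.constantCoeff u ≠ 0 := by
  classical
  have h2 : ∃ ν, PowerSeries.coeff ν g ≠ 0 := by
    by_contra hcon
    push Not at hcon
    exact hg (PowerSeries.ext fun n => by rw [hcon n, map_zero])
  obtain ⟨u, hu⟩ := (PowerSeries.X_pow_dvd_iff (n := Nat.find h2)).mpr (fun m hm => by
    have := Nat.find_min h2 hm
    push Not at this
    exact this)
  refine ⟨Nat.find h2, u, hu, ?_⟩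
  have h3 := Nat.find_spec h2
  intro h4
  apply h3
  have h5 := congrArg (PowerSeries.coeff (Nat.find h2)) hu
  have h6 := PowerSeries.coeff_X_pow_mul u (Nat.find h2) 0
  rw [zero_add] at h6
  rw [h6, PowerSeries.coeff_zero_eq_constantCoeff_apply, h4] at h5
  exact h5

end basic

section descent

/-- A power series which nearly satisfies an algebraic equation is near an algebraic one. -/
theorem approx_alg {f : PowerSeries ℚ} {t N : ℕ} (ht : t ≤ N) (hN : 0 < N) :
    ∀ (d : ℕ) (P : Polynomial (Polynomial ℚ)), P.natDegree ≤ d → P ≠ 0 →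
      (∀ i, (P.coeff i).natDegree < t) →
      (PowerSeries.X : PowerSeries ℚ) ^ (2 ^ d * N) ∣ Polynomial.aeval f P →
      ∃ (F : Polynomial (Polynomial ℚ)) (α : PowerSeries ℚ), F.natDegree ≤ d ∧
        (∀ i, (F.coeff i).natDegree < t) ∧ Polynomial.aeval α F = 0 ∧
        Polynomial.aeval α (Polynomial.derivative F) ≠ 0 ∧
        (PowerSeries.X : PowerSeries ℚ) ^ N ∣ α - f := by
  have hconst : ∀ (P : Polynomial (Polynomial ℚ)), P.natDegree = 0 → P ≠ 0 →
      (∀ i, (P.coeff i).natDegree < t) → ∀ n, N ≤ n →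
      ¬ (PowerSeries.X : PowerSeries ℚ) ^ n ∣ Polynomial.aeval f P := by
    intro P hP0 hP hPt n hn h
    rw [Polynomial.eq_C_of_natDegree_eq_zero hP0, Polynomial.aeval_C] at h
    have h1 := eq_zero_of_X_pow_dvd h (lt_of_lt_of_le (hPt 0) (ht.trans hn))
    apply hP
    rw [Polynomial.eq_C_of_natDegree_eq_zero hP0, h1, map_zero]
  intro d
  induction d with
  | zero =>
    intro P hd hP hPt h
    exact absurd h (hconst P (Nat.le_zero.mp hd) hP hPt _ (by simp))
  | succ d ih =>
    intro P hd hP hPt h
    have h2d : 0 < 2 ^ d := by positivity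
    have hNle : N ≤ 2 ^ d * N := Nat.le_mul_of_pos_left _ h2d
    have hpow : 2 ^ (d + 1) * N = 2 * (2 ^ d * N) := by ring
    rw [hpow] at h
    have hP1 : P.natDegree ≠ 0 := fun h0 =>
      hconst P h0 hP hPt _ (by omega) h
    have hP' : Polynomial.derivative P ≠ 0 := by
      intro h0
      exact hP1 (Polynomial.derivative_eq_zero.mp h0)
    by_cases hc : (PowerSeries.X : PowerSeries ℚ) ^ (2 ^ d * N) ∣
        Polynomial.aeval f (Polynomial.derivative P)
    · obtain ⟨F, α, h1, h2⟩ := ih (Polynomial.derivative P)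
        ((Polynomial.natDegree_derivative_le P).trans (by omega)) hP' (fun i => by
          rw [Polynomial.coeff_derivative]
          refine lt_of_le_of_lt (Polynomial.natDegree_mul_le) ?_
          have h3 : ((i : Polynomial ℚ) + 1).natDegree = 0 := by
            have : ((i : Polynomial ℚ) + 1) = ((i + 1 : ℕ) : Polynomial ℚ) := by push_cast; rfl
            rw [this, Polynomial.natDegree_natCast]
          rw [h3, add_zero]
          exact hPt _) hc
      exact ⟨F, α, h1.trans (Nat.le_succ d), h2⟩
    · have hne : Polynomial.aeval f (Polynomial.derivative P) ≠ 0 := by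
        intro h0
        rw [h0] at hc
        exact hc (dvd_zero _)
      obtain ⟨m, u, hmu, hu⟩ := exists_order hne
      have hm : m < 2 ^ d * N := by
        by_contra hcon
        push Not at hcon
        apply hc
        rw [hmu]
        exact (pow_dvd_pow _ hcon).mul_right u
      set PS : Polynomial (PowerSeries ℚ) := P.map co with hPS
      have he : ∀ (Q : Polynomial (Polynomial ℚ)) (y : PowerSeries ℚ),
          (Q.map co).eval y = Polynomial.aeval y Q := by
        intro Q y
        rw [Polynomial.eval_map, Polynomial.aeval_def]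
      obtain ⟨α, h1, h2, h3⟩ := newton_hensel (P := PS) (f := f) (u := u) (m := m)
        (o := 2 * (2 ^ d * N)) (by rw [hPS, Polynomial.derivative_map, he, hmu]) hu
        (by rw [hPS, he]; exact h) (by omega)
      rw [hPS, he] at h1
      refine ⟨P, α, hd, hPt, h1, ?_, (pow_dvd_pow _ (by omega)).trans h2⟩
      intro h0
      obtain ⟨c, hc'⟩ := Polynomial.evalSubFactor ((Polynomial.derivative P).map co) α f
      rw [he, he, h0, zero_sub, hmu] at hc'
      have h4 : (PowerSeries.X : PowerSeries ℚ) ^ (m + 1) ∣ PowerSeries.X ^ m * u := by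
        rw [← neg_neg (PowerSeries.X ^ m * u), hc']
        exact (dvd_neg).mpr (h3.mul_left c)
      rw [pow_succ] at h4
      have h5 := (mul_dvd_mul_iff_left (pow_ne_zero m PowerSeries.X_ne_zero)).mp h4
      exact hu ((PowerSeries.X_dvd_iff).mp h5)

end descent

section deg

/-- The coefficients of the polynomial over the polynomials have degree at most `N`. -/
def XD (N : ℕ) (P : Polynomial (Polynomial ℚ)) : Prop := ∀ i, (P.coeff i).natDegree ≤ N

lemma XD.mono {N N' : ℕ} {P : Polynomial (Polynomial ℚ)} (h : XD N P) (hN : N ≤ N') : XD N' P :=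
  fun i => (h i).trans hN

lemma XD.zero (N : ℕ) : XD N 0 := fun i => by simp

lemma XD.add {N : ℕ} {P Q : Polynomial (Polynomial ℚ)} (h : XD N P) (h' : XD N Q) :
    XD N (P + Q) := fun i => by
  rw [Polynomial.coeff_add]
  exact Polynomial.natDegree_add_le_of_degree_le (h i) (h' i)

lemma XD.sum {N : ℕ} {ι : Type*} (s : Finset ι) {P : ι → Polynomial (Polynomial ℚ)}
    (h : ∀ i ∈ s, XD N (P i)) : XD N (∑ i ∈ s, P i) := by
  classical
  induction s using Finset.induction_on with
  | empty => simpa using XD.zero N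
  | insert a s ha ih =>
    rw [Finset.sum_insert ha]
    exact (h a (Finset.mem_insert_self a s)).add
      (ih fun i hi => h i (Finset.mem_insert_of_mem hi))

lemma XD.mul {N N' : ℕ} {P Q : Polynomial (Polynomial ℚ)} (h : XD N P) (h' : XD N' Q) :
    XD (N + N') (P * Q) := fun i => by
  rw [Polynomial.coeff_mul]
  refine Polynomial.natDegree_sum_le_of_forall_le _ _ fun x _ => ?_
  exact Polynomial.natDegree_mul_le.trans (Nat.add_le_add (h _) (h' _))

lemma XD.C {N : ℕ} {c : Polynomial ℚ} (h : c.natDegree ≤ N) : XD N (Polynomial.C c) := fun i => by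
  rw [Polynomial.coeff_C]
  split_ifs
  · exact h
  · simp

lemma XD.prod {N : ℕ} {ι : Type*} (s : Finset ι) {P : ι → Polynomial (Polynomial ℚ)}
    (h : ∀ i ∈ s, XD N (P i)) : XD (s.card * N) (∏ i ∈ s, P i) := by
  classical
  induction s using Finset.induction_on with
  | empty =>
    rw [Finset.prod_empty, Finset.card_empty, Nat.zero_mul, ← map_one Polynomial.C]
    exact XD.C (by simp)
  | insert a s ha ih =>
    rw [Finset.prod_insert ha, Finset.card_insert_of_notMem ha, Nat.succ_mul, add_comm]
    exact (h a (Finset.mem_insert_self a s)).mul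
      (ih fun i hi => h i (Finset.mem_insert_of_mem hi))

/-- The degrees of the coefficients of a characteristic polynomial. -/
lemma XD.charpoly {J : Type*} [Fintype J] [DecidableEq J] {N : ℕ}
    {B : Matrix J J (Polynomial ℚ)} (h : ∀ i j, (B i j).natDegree ≤ N) :
    XD (Fintype.card J * N) B.charpoly := by
  unfold Matrix.charpoly
  rw [Matrix.det_apply]
  refine XD.sum _ fun σ _ => ?_
  have h1 : XD (Fintype.card J * N) (∏ i, Matrix.charmatrix B (σ i) i) := by
    rw [← Finset.card_univ]
    refine XD.prod _ fun i _ => ?_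
    by_cases hi : σ i = i
    · rw [hi, Matrix.charmatrix_apply_eq]
      intro l
      rw [Polynomial.coeff_sub, Polynomial.coeff_X, Polynomial.coeff_C]
      refine (Polynomial.natDegree_sub_le _ _).trans (max_le ?_ ?_)
      · split_ifs <;> simp
      · split_ifs
        · exact h _ _
        · simp
    · rw [Matrix.charmatrix_apply_ne _ _ _ hi]
      intro l
      rw [Polynomial.coeff_neg, Polynomial.coeff_C, Polynomial.natDegree_neg]
      split_ifs
      · exact h _ _
      · simp
  rcases Int.units_eq_one_or (Equiv.Perm.sign σ) with hs | hs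
  · rw [hs, one_smul]
    exact h1
  · rw [hs]
    intro l
    have h2 : ((-1 : ℤˣ) • ∏ i, Matrix.charmatrix B (σ i) i) =
        -∏ i, Matrix.charmatrix B (σ i) i := by
      rw [Units.smul_def]
      simp
    rw [h2, Polynomial.coeff_neg, Polynomial.natDegree_neg]
    exact h1 l

end deg

section rep

variable {ι : Type*} [Fintype ι] [DecidableEq ι]

/-- The monomials. -/
noncomputable def bas (d : ι → ℕ) (α : ι → PowerSeries ℚ) (k : ∀ i, Fin (d i)) : PowerSeries ℚ :=
  ∏ i, α i ^ (k i : ℕ)

/-- Multiplication by `a ^ q β` is given by a matrix of polynomials of degree at most `N`. -/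
def Rep (d : ι → ℕ) (α : ι → PowerSeries ℚ) (a : Polynomial ℚ) (β : PowerSeries ℚ) (q N : ℕ) :
    Prop :=
  ∀ k : ∀ i, Fin (d i), ∃ c : (∀ i, Fin (d i)) → Polynomial ℚ, (∀ l, (c l).natDegree ≤ N) ∧
    co a ^ q * β * bas d α k = ∑ l, co (c l) * bas d α l

variable {d : ι → ℕ} {α : ι → PowerSeries ℚ} {a : Polynomial ℚ} {β β' : PowerSeries ℚ}
  {q q' N N' : ℕ}

lemma Rep.mono (h : Rep d α a β q N) (hN : N ≤ N') : Rep d α a β q N' := by
  intro k
  obtain ⟨c, h1, h2⟩ := h k
  exact ⟨c, fun l => (h1 l).trans hN, h2⟩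

lemma Rep.zero : Rep d α a 0 q N := fun k => ⟨fun _ => 0, fun _ => by simp, by simp⟩

lemma Rep.add (h : Rep d α a β q N) (h' : Rep d α a β' q N) : Rep d α a (β + β') q N := by
  intro k
  obtain ⟨c, h1, h2⟩ := h k
  obtain ⟨c', h1', h2'⟩ := h' k
  refine ⟨fun l => c l + c' l, fun l =>
    Polynomial.natDegree_add_le_of_degree_le (h1 l) (h1' l), ?_⟩
  have h3 : ∀ l, co (c l + c' l) * bas d α l = co (c l) * bas d α l + co (c' l) * bas d α l := by
    intro l
    rw [map_add, add_mul]
  rw [Finset.sum_congr rfl fun l _ => h3 l, Finset.sum_add_distrib, ← h2, ← h2']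
  ring

lemma Rep.sum {κ : Type*} (s : Finset κ) {β : κ → PowerSeries ℚ}
    (h : ∀ i ∈ s, Rep d α a (β i) q N) : Rep d α a (∑ i ∈ s, β i) q N := by
  classical
  induction s using Finset.induction_on with
  | empty => simpa using Rep.zero
  | insert b s hb ih =>
    rw [Finset.sum_insert hb]
    exact (h b (Finset.mem_insert_self b s)).add
      (ih fun i hi => h i (Finset.mem_insert_of_mem hi))

lemma Rep.mul (h : Rep d α a β q N) (h' : Rep d α a β' q' N') :
    Rep d α a (β * β') (q + q') (N + N') := by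
  classical
  intro k
  obtain ⟨c', h1', h2'⟩ := h' k
  choose c h1 h2 using h
  refine ⟨fun m => ∑ l, c' l * c l m, fun m => ?_, ?_⟩
  · refine Polynomial.natDegree_sum_le_of_forall_le _ _ fun l _ => ?_
    refine Polynomial.natDegree_mul_le.trans ?_
    rw [add_comm N]
    exact Nat.add_le_add (h1' l) (h1 l m)
  · have h3 : co a ^ (q + q') * (β * β') * bas d α k =
        co a ^ q * β * (co a ^ q' * β' * bas d α k) := by ring
    rw [h3, h2', Finset.mul_sum]
    have h4 : ∀ l, co a ^ q * β * (co (c' l) * bas d α l) =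
        ∑ m, co (c' l) * co (c l m) * bas d α m := by
      intro l
      have h5 : co a ^ q * β * (co (c' l) * bas d α l) =
          co (c' l) * (co a ^ q * β * bas d α l) := by ring
      rw [h5, h2, Finset.mul_sum]
      exact Finset.sum_congr rfl fun m _ => by ring
    rw [Finset.sum_congr rfl fun l _ => h4 l, Finset.sum_comm]
    refine Finset.sum_congr rfl fun m _ => ?_
    rw [map_sum, Finset.sum_mul]
    exact Finset.sum_congr rfl fun l _ => by rw [map_mul]

lemma Rep.poly (c : Polynomial ℚ) (h : c.natDegree ≤ N) : Rep d α a (co c) 0 N := by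
  classical
  intro k
  refine ⟨fun l => if l = k then c else 0, fun l => ?_, ?_⟩
  · show (if l = k then c else 0).natDegree ≤ N
    split_ifs
    · exact h
    · simp
  · rw [Finset.sum_eq_single k]
    · simp
    · intro l _ hl
      simp only [if_neg hl, map_zero, zero_mul]
    · intro h; exact absurd (mem_univ k) h

lemma Rep.succ {A : ℕ} (h : Rep d α a β q N) (ha : a.natDegree ≤ A) :
    Rep d α a β (q + 1) (N + A) := by
  intro k
  obtain ⟨c, h1, h2⟩ := h k
  refine ⟨fun l => c l * a, fun l => Polynomial.natDegree_mul_le.trans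
    (Nat.add_le_add (h1 l) ha), ?_⟩
  have h3 : ∀ l, co (c l * a) * bas d α l = co a * (co (c l) * bas d α l) := by
    intro l
    rw [map_mul]; ring
  rw [Finset.sum_congr rfl fun l _ => h3 l, ← Finset.mul_sum, ← h2]
  ring

lemma Rep.mono_q {A : ℕ} (h : Rep d α a β q N) (ha : a.natDegree ≤ A) {r : ℕ} (hr : q ≤ r) :
    Rep d α a β r (N + (r - q) * A) := by
  obtain ⟨e, rfl⟩ := Nat.exists_eq_add_of_le hr
  have h1 : q + e - q = e := by omega
  rw [h1]
  clear hr h1
  induction e with
  | zero => simpa using h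
  | succ e ih =>
    have h2 := ih.succ ha
    have h3 : N + (e + 1) * A = N + e * A + A := by ring
    rw [h3]
    exact h2

/-- Nonzero elements with such a representation have a bounded order. -/
theorem Rep.eq_zero (h : Rep d α a β q N) (hd : ∀ i, 0 < d i) (ha : a ≠ 0)
    (hdvd : (PowerSeries.X : PowerSeries ℚ) ^ ((∏ i, d i) * N + 1) ∣ β) : β = 0 := by
  classical
  choose c h1 h2 using h
  have hcard : Fintype.card (∀ i, Fin (d i)) = ∏ i, d i := by simp
  obtain ⟨B, hB⟩ : ∃ B : Matrix (∀ i, Fin (d i)) (∀ i, Fin (d i)) (Polynomial ℚ),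
      ∀ k l, B k l = c k l := ⟨Matrix.of c, fun _ _ => rfl⟩
  obtain ⟨γ, hγ⟩ : ∃ γ : PowerSeries ℚ, γ = co a ^ q * β := ⟨_, rfl⟩
  -- the determinant
  have h3 : (Matrix.scalar (∀ i, Fin (d i)) γ - B.map co).mulVec (bas d α) = 0 := by
    funext k
    rw [Matrix.sub_mulVec, Pi.sub_apply, Pi.zero_apply, sub_eq_zero]
    have h4 : (Matrix.scalar (∀ i, Fin (d i)) γ).mulVec (bas d α) k = γ * bas d α k := by
      rw [Matrix.scalar_apply, Matrix.mulVec_diagonal]
    have h5 : (B.map co).mulVec (bas d α) k = ∑ l, co (c k l) * bas d α l := by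
      show ∑ l, (B.map co) k l * bas d α l = _
      refine Finset.sum_congr rfl fun l _ => ?_
      rw [Matrix.map_apply, hB]
    rw [h4, h5, hγ, h2]
  have h4 : (Matrix.scalar (∀ i, Fin (d i)) γ - B.map co).det = 0 := by
    rw [← Matrix.exists_mulVec_eq_zero_iff]
    refine ⟨bas d α, ?_, h3⟩
    intro h0
    have h5 := congrFun h0 (fun i => ⟨0, hd i⟩)
    simp [bas] at h5
  have h5 : (B.map co).charpoly.eval γ = 0 := by
    rw [Matrix.eval_charpoly, h4]
  rw [Matrix.charpoly_map] at h5
  set χ := B.charpoly with hχ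
  have hXD : XD ((∏ i, d i) * N) χ := by
    rw [← hcard]
    exact XD.charpoly fun k l => by rw [hB]; exact h1 k l
  have hmonic : χ.Monic := Matrix.charpoly_monic B
  have hγdvd : (PowerSeries.X : PowerSeries ℚ) ^ ((∏ i, d i) * N + 1) ∣ γ := by
    rw [hγ]
    exact hdvd.mul_left _
  have hγ0 : γ = 0 := by
    by_contra hne
    -- the lowest coefficient
    have hex : ∃ j, χ.coeff j ≠ 0 := by
      refine ⟨χ.natDegree, ?_⟩
      rw [Polynomial.coeff_natDegree, hmonic.leadingCoeff]
      exact one_ne_zero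
    set j₀ := Nat.find hex with hj₀
    have hj1 : χ.coeff j₀ ≠ 0 := Nat.find_spec hex
    have hj2 : ∀ j < j₀, χ.coeff j = 0 := fun j hj => by
      have := Nat.find_min hex hj
      push Not at this
      exact this
    obtain ⟨ψ, hψ⟩ := (Polynomial.X_pow_dvd_iff).mpr hj2
    have hψ0 : ψ.coeff 0 = χ.coeff j₀ := by
      rw [hψ]
      have := Polynomial.coeff_X_pow_mul ψ j₀ 0
      rw [zero_add] at this
      exact this.symm
    have h6 : (ψ.map co).eval γ = 0 := by
      rw [hψ, Polynomial.map_mul, Polynomial.map_pow, Polynomial.map_X, Polynomial.eval_mul,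
        Polynomial.eval_pow, Polynomial.eval_X] at h5
      exact (mul_eq_zero.mp h5).resolve_left (pow_ne_zero _ hne)
    obtain ⟨c', hc'⟩ := Polynomial.evalSubFactor (ψ.map co) γ 0
    rw [h6, sub_zero, zero_sub] at hc'
    have h7 : (ψ.map co).eval 0 = co (χ.coeff j₀) := by
      rw [← Polynomial.coeff_zero_eq_eval_zero, Polynomial.coeff_map, hψ0]
    rw [h7] at hc'
    have h8 : (PowerSeries.X : PowerSeries ℚ) ^ ((∏ i, d i) * N + 1) ∣ co (χ.coeff j₀) := by
      rw [← neg_neg (co (χ.coeff j₀)), hc']
      exact (dvd_neg).mpr (hγdvd.mul_left c')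
    exact hj1 (eq_zero_of_X_pow_dvd h8 (Nat.lt_succ_of_le (hXD j₀)))
  have h6 : co a ^ q ≠ 0 := pow_ne_zero _ (by
    rw [Ne, map_eq_zero_iff _ co_injective]
    exact ha)
  rw [hγ] at hγ0
  exact (mul_eq_zero.mp hγ0).resolve_left h6

end rep

end Pool.Agent.H925
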