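import Pool.Agent.H925.VertFam

set_option autoImplicit false

open Finset

namespace Pool.Agent.H925

open Pool.Agent.Helper338PC

section closure

variable {K : Type} [Field K]

lemma padic_mono {p k k' : ℕ} {c : K} (h : PadicIntegral p k c) (hk : k ≤ k') :
    PadicIntegral p k' c := by
  obtain ⟨m, hm, hi⟩ := h
  refine ⟨m, hm, ?_⟩
  have h1 : (m : K) * (p : K) ^ k' * c = ((p ^ (k' - k) : ℕ) : K) * ((m : K) * (p : K) ^ k * c) := by
    conv_lhs => rw [← Nat.sub_add_cancel hk, pow_add]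
    push_cast
    ring
  rw [h1]
  exact (isIntegral_natCast _).mul hi

lemma padic_add {p k : ℕ} (hp : p.Prime) {c d : K} (hc : PadicIntegral p k c)
    (hd : PadicIntegral p k d) : PadicIntegral p k (c + d) := by
  obtain ⟨m, hm, hi⟩ := hc
  obtain ⟨m', hm', hi'⟩ := hd
  refine ⟨m * m', fun h => ?_, ?_⟩
  · rcases (hp.dvd_mul).mp h with h | h
    · exact hm h
    · exact hm' h
  · have h1 : ((m * m' : ℕ) : K) * (p : K) ^ k * (c + d) =
        ((m' : ℕ) : K) * ((m : K) * (p : K) ^ k * c) + ((m : ℕ) : K) * ((m' : K) * (p : K) ^ k * d) := by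
      push_cast
      ring
    rw [h1]
    exact ((isIntegral_natCast _).mul hi).add ((isIntegral_natCast _).mul hi')

lemma padic_zero {p k : ℕ} (hp : p.Prime) : PadicIntegral p k (0 : K) :=
  ⟨1, hp.one_lt.not_ge ∘ Nat.le_of_dvd one_pos, by rw [mul_zero]; exact isIntegral_zero⟩

lemma padic_one {p : ℕ} (hp : p.Prime) : PadicIntegral p 0 (1 : K) :=
  ⟨1, hp.one_lt.not_ge ∘ Nat.le_of_dvd one_pos, by
    rw [pow_zero, Nat.cast_one, mul_one, mul_one]; exact isIntegral_one⟩

lemma padic_sum {ι : Type*} {p k : ℕ} (hp : p.Prime) (s : Finset ι) {f : ι → K}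
    (h : ∀ i ∈ s, PadicIntegral p k (f i)) : PadicIntegral p k (∑ i ∈ s, f i) := by
  classical
  induction s using Finset.induction_on with
  | empty => rw [Finset.sum_empty]; exact padic_zero hp
  | insert a s ha ih =>
    rw [Finset.sum_insert ha]
    exact padic_add hp (h a (Finset.mem_insert_self a s))
      (ih fun i hi => h i (Finset.mem_insert_of_mem hi))

lemma padic_mul {p k k' : ℕ} (hp : p.Prime) {c d : K} (hc : PadicIntegral p k c)
    (hd : PadicIntegral p k' d) : PadicIntegral p (k + k') (c * d) := by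
  obtain ⟨m, hm, hi⟩ := hc
  obtain ⟨m', hm', hi'⟩ := hd
  refine ⟨m * m', fun h => ?_, ?_⟩
  · rcases (hp.dvd_mul).mp h with h | h
    · exact hm h
    · exact hm' h
  · have h1 : ((m * m' : ℕ) : K) * (p : K) ^ (k + k') * (c * d) =
        ((m : K) * (p : K) ^ k * c) * ((m' : K) * (p : K) ^ k' * d) := by
      push_cast
      ring
    rw [h1]
    exact hi.mul hi'

lemma padic_inv [CharZero K] {p : ℕ} (hp : p.Prime) {q : ℚ} (hq : q ≠ 0) :
    PadicIntegral p (padicValNat p q.num.natAbs) ((q : K)⁻¹) := by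
  have hn : q.num.natAbs ≠ 0 := by
    rw [Int.natAbs_ne_zero]
    exact Rat.num_ne_zero.mpr hq
  obtain ⟨m, hm, hval⟩ : ∃ m : ℕ, ¬ p ∣ m ∧ q.num.natAbs = p ^ padicValNat p q.num.natAbs * m := by
    have : Fact p.Prime := ⟨hp⟩
    obtain ⟨m, hm⟩ := (pow_padicValNat_dvd : p ^ padicValNat p q.num.natAbs ∣ q.num.natAbs)
    refine ⟨m, fun ⟨c, hc⟩ => ?_, hm⟩
    have h1 : p ^ (padicValNat p q.num.natAbs + 1) ∣ q.num.natAbs :=
      ⟨c, by conv_lhs => rw [hm]
             rw [hc, pow_succ]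
             ring⟩
    exact pow_succ_padicValNat_not_dvd hn h1
  refine ⟨m, hm, ?_⟩
  have hnum : (q.num : K) ≠ 0 := by exact_mod_cast Rat.num_ne_zero.mpr hq
  have hqK : (q : K) = q.num / q.den := Rat.cast_def q
  have habs : (q.num : K) = ((q.num.natAbs : ℕ) : K) ∨ (q.num : K) = -((q.num.natAbs : ℕ) : K) := by
    rcases Int.natAbs_eq q.num with h | h
    · left
      conv_lhs => rw [h]
      rw [Int.cast_natCast]
    · right
      conv_lhs => rw [h]
      rw [Int.cast_neg, Int.cast_natCast]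
  have h2 : ((q.num.natAbs : ℕ) : K) = (p : K) ^ padicValNat p q.num.natAbs * m := by
    exact_mod_cast congrArg (Nat.cast : ℕ → K) hval
  rw [hqK, inv_div]
  rcases habs with h | h
  · have h3 : (m : K) * (p : K) ^ padicValNat p q.num.natAbs * ((q.den : K) / q.num) =
        (q.den : K) := by
      rw [mul_comm (m : K), ← h2, ← h]
      field_simp
    rw [h3]
    exact isIntegral_natCast _
  · have h3 : (m : K) * (p : K) ^ padicValNat p q.num.natAbs * ((q.den : K) / q.num) =
        -(q.den : K) := by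
      rw [mul_comm (m : K), ← h2]
      rw [h] at hnum ⊢
      have h4 : ((q.num.natAbs : ℕ) : K) ≠ 0 := neg_ne_zero.mp hnum
      rw [div_neg, mul_neg, mul_div_cancel₀ _ h4]
    rw [h3]
    exact (isIntegral_natCast _).neg

end closure

section count

lemma card_congr_le {q s : ℕ} (F : Finset ℕ) (hF : F ⊆ Ioc 0 s)
    (h : ∀ t ∈ F, ∀ t' ∈ F, (q : ℤ) ∣ (t : ℤ) - t') : F.card ≤ s / q + 1 := by
  rw [← Finset.card_range (s / q + 1)]
  refine Finset.card_le_card_of_injOn (fun t => t / q) ?_ ?_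
  · intro t ht
    have h1 := (Finset.mem_Ioc.mp (hF ht)).2
    simp only [Finset.coe_range, Set.mem_Iio]
    exact Nat.lt_succ_of_le (Nat.div_le_div_right h1)
  · intro t ht t' ht' htt
    have h1 := h t ht t' ht'
    have h2 : t % q = t' % q := by
      have h3 : (t : ℤ) % q = (t' : ℤ) % q :=
        Int.emod_eq_emod_iff_emod_sub_eq_zero.mpr (Int.emod_eq_zero_of_dvd h1)
      exact_mod_cast h3
    simp only at htt
    rw [← Nat.div_add_mod t q, ← Nat.div_add_mod t' q, htt, h2]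

lemma dvd_sub_of_num {q t t' : ℕ} {δ : ℚ}
    (h : (q : ℤ) ∣ ((t : ℚ) + δ).num) (h' : (q : ℤ) ∣ ((t' : ℚ) + δ).num) :
    (q : ℤ) ∣ (t : ℤ) - t' := by
  set x : ℚ := (t : ℚ) + δ with hx
  set y : ℚ := (t' : ℚ) + δ with hy
  have hcop : ∀ z : ℚ, (q : ℤ) ∣ z.num → IsCoprime (q : ℤ) (z.den : ℤ) := by
    intro z hz
    have h1 : IsCoprime z.num (z.den : ℤ) := Rat.isCoprime_num_den z
    exact h1.of_isCoprime_of_dvd_left hz
  have hx1 := hcop x h
  have hy1 := hcop y h'
  have h2 : ((t : ℤ) - t') * ((x.den : ℤ) * y.den) = x.num * y.den - y.num * x.den := by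
    have h3 : ((t : ℚ) - t') = x - y := by rw [hx, hy]; ring
    have hxd : (x.den : ℚ) ≠ 0 := by exact_mod_cast x.den_ne_zero
    have hyd : (y.den : ℚ) ≠ 0 := by exact_mod_cast y.den_ne_zero
    have h4 : (((t : ℤ) - t') * ((x.den : ℤ) * y.den) : ℚ) = x.num * y.den - y.num * x.den := by
      have h5 : (x.num : ℚ) = x * x.den := (Rat.mul_den_eq_num x).symm
      have h6 : (y.num : ℚ) = y * y.den := (Rat.mul_den_eq_num y).symm
      push_cast
      rw [h3, h5, h6]
      ring
    exact_mod_cast h4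
  have h7 : (q : ℤ) ∣ ((t : ℤ) - t') * ((x.den : ℤ) * y.den) := by
    rw [h2]
    exact dvd_sub (h.mul_right _) (h'.mul_right _)
  exact (hx1.mul_right hy1).dvd_of_dvd_mul_right h7

lemma den_add_nat_dvd (t : ℕ) (δ : ℚ) : ((t : ℚ) + δ).den ∣ δ.den := by
  have h := Rat.add_den_dvd (t : ℚ) δ
  rwa [Rat.den_natCast, one_mul] at h

lemma den_dvd_den_add_nat (t : ℕ) (δ : ℚ) : δ.den ∣ ((t : ℚ) + δ).den := by
  have h := Rat.add_den_dvd ((t : ℚ) + δ) (-(t : ℚ))
  rw [Rat.neg_den, Rat.den_natCast, mul_one] at h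
  have e : (t : ℚ) + δ + -(t : ℚ) = δ := by ring
  rwa [e] at h

lemma num_natAbs_le (t : ℕ) (δ : ℚ) :
    ((t : ℚ) + δ).num.natAbs ≤ (δ.num.natAbs + δ.den) * (t + 1) := by
  set x : ℚ := (t : ℚ) + δ with hx
  have h1 : x.den ≤ δ.den := Nat.le_of_dvd δ.den_pos (den_add_nat_dvd t δ)
  have h2 : (x.num.natAbs : ℚ) = |x| * x.den := by
    rw [Nat.cast_natAbs, Int.cast_abs, ← Rat.mul_den_eq_num x, abs_mul, Nat.abs_cast]
  have h3 : (δ.num.natAbs : ℚ) = |δ| * δ.den := by
    rw [Nat.cast_natAbs, Int.cast_abs, ← Rat.mul_den_eq_num δ, abs_mul, Nat.abs_cast]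
  have h4 : |x| ≤ t + |δ| := by
    rw [hx]
    refine (abs_add_le _ _).trans ?_
    rw [Nat.abs_cast]
  have h5 : (x.num.natAbs : ℚ) ≤ ((δ.num.natAbs + δ.den) * (t + 1) : ℕ) := by
    rw [h2]
    push_cast
    rw [h3]
    have h6 : (x.den : ℚ) ≤ δ.den := by exact_mod_cast h1
    have h7 : |x| * x.den ≤ (t + |δ|) * δ.den :=
      mul_le_mul h4 h6 (by positivity) (by positivity)
    have h8 : (0 : ℚ) ≤ |δ| * δ.den * t := by positivity
    have h9 : (0 : ℚ) ≤ δ.den := by positivity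
    nlinarith
  exact_mod_cast h5

variable {r : ℕ}

/-- The largest valuation of the numerator of `t + β j - β i`. -/
noncomputable def wmax (p : ℕ) (β : Fin r → ℚ) (j : Fin r) (t : ℕ) : ℕ :=
  univ.sup fun i => padicValNat p ((t : ℚ) + (β j - β i)).num.natAbs

/-- The set of the `t` for which one of the numerators is divisible by `p ^ m`. -/
noncomputable def hitSet (p : ℕ) (β : Fin r → ℚ) (j : Fin r) (s m : ℕ) : Finset ℕ := by
  classical
  exact (Ioc 0 s).filter fun t => ∃ i, ((p ^ m : ℕ) : ℤ) ∣ ((t : ℚ) + (β j - β i)).num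

lemma hitSet_card_le_self (p : ℕ) (β : Fin r → ℚ) (j : Fin r) (s m : ℕ) :
    (hitSet p β j s m).card ≤ s := by
  classical
  unfold hitSet
  refine (Finset.card_filter_le _ _).trans ?_
  rw [Nat.card_Ioc, Nat.sub_zero]

lemma hitSet_card_le {p : ℕ} (hp : p.Prime) (β : Fin r → ℚ) (j : Fin r) (s : ℕ) {m : ℕ}
    (hm : 0 < m) : (hitSet p β j s m).card ≤ numClass β p * (s / p ^ m + 1) := by
  classical
  set D : Finset ℚ := (univ.image β).filter fun b => ¬ p ∣ (b - β j).den with hD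
  have hDc : D.card ≤ numClass β p := by
    unfold numClass
    exact Finset.le_sup (f := fun i => ((univ.image β).filter fun b => ¬ p ∣ (b - β i).den).card)
      (Finset.mem_univ j)
  have hsub : hitSet p β j s m ⊆ D.biUnion fun b =>
      (Ioc 0 s).filter fun t => ((p ^ m : ℕ) : ℤ) ∣ ((t : ℚ) + (β j - b)).num := by
    intro t ht
    unfold hitSet at ht
    rw [Finset.mem_filter] at ht
    obtain ⟨h1, i, hi⟩ := ht
    rw [Finset.mem_biUnion]
    refine ⟨β i, ?_, Finset.mem_filter.mpr ⟨h1, hi⟩⟩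
    rw [hD, Finset.mem_filter]
    refine ⟨Finset.mem_image_of_mem _ (Finset.mem_univ i), fun hdvd => ?_⟩
    have h2 : (β i - β j).den = (β j - β i).den := by
      rw [← Rat.neg_den, neg_sub]
    rw [h2] at hdvd
    have h3 : p ∣ ((t : ℚ) + (β j - β i)).den := hdvd.trans (den_dvd_den_add_nat t _)
    have h4 : p ∣ ((t : ℚ) + (β j - β i)).num.natAbs := by
      have h5 : (p : ℤ) ∣ ((t : ℚ) + (β j - β i)).num :=
        (Int.natCast_dvd_natCast.mpr (dvd_pow_self p hm.ne')).trans hi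
      exact Int.natCast_dvd.mp h5
    have h5 := Nat.dvd_gcd h4 h3
    rw [((t : ℚ) + (β j - β i)).reduced] at h5
    exact hp.one_lt.ne' (Nat.dvd_one.mp h5)
  refine (Finset.card_le_card hsub).trans ?_
  refine (Finset.card_biUnion_le_card_mul _ _ (s / p ^ m + 1) ?_).trans
    (Nat.mul_le_mul_right _ hDc)
  intro b _
  refine card_congr_le _ (Finset.filter_subset _ _) ?_
  intro t ht t' ht'
  exact dvd_sub_of_num (Finset.mem_filter.mp ht).2 (Finset.mem_filter.mp ht').2

lemma geom_tail {x : ℝ} (hx : 1 < x) (M T : ℕ) :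
    ∑ k ∈ range T, (1 : ℝ) / x ^ (M + 1 + k) ≤ 1 / (x ^ M * (x - 1)) := by
  have hx0 : 0 < x := by linarith
  have hx1 : 0 < x - 1 := by linarith
  have key : ∑ k ∈ range T, (1 : ℝ) / x ^ (M + 1 + k) =
      1 / (x ^ M * (x - 1)) - 1 / (x ^ (M + T) * (x - 1)) := by
    induction T with
    | zero => rw [Finset.sum_range_zero, add_zero, sub_self]
    | succ T ih =>
      rw [Finset.sum_range_succ, ih]
      have h1 : x ^ (M + 1 + T) = x ^ (M + T) * x := by ring
      have h2 : x ^ (M + (T + 1)) = x ^ (M + T) * x := by ring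
      rw [h1, h2]
      have h3 : (0 : ℝ) < x ^ (M + T) := by positivity
      have h4 : (0 : ℝ) < x ^ M := by positivity
      field_simp
      ring
  rw [key]
  have : (0 : ℝ) < 1 / (x ^ (M + T) * (x - 1)) := by positivity
  linarith

/-- The bound for the sum of the valuations. -/
lemma sum_wmax_le {p : ℕ} (hp : p.Prime) (β : Fin r → ℚ) (j : Fin r) {B : ℕ}
    (hB : ∀ i, (β j - β i).num.natAbs + (β j - β i).den ≤ B)
    (hne : ∀ (t : ℕ) i, t ≠ 0 → (t : ℚ) + (β j - β i) ≠ 0) (c : ℕ) (hc : numClass β p ≤ c)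
    (s : ℕ) :
    (∑ t ∈ Ioc 0 s, (wmax p β j t : ℝ)) ≤
      (Nat.log p c + c / ((p : ℝ) ^ Nat.log p c * ((p : ℝ) - 1))) * s +
        c * Nat.log p (B * (s + 1)) := by
  classical
  set T := Nat.log p (B * (s + 1)) with hT
  set M := Nat.log p c with hM
  have hp1 : (1 : ℝ) < p := by exact_mod_cast hp.one_lt
  have hp0 : (0 : ℝ) < p := by linarith
  have h1 : ∀ t ∈ Ioc 0 s, wmax p β j t ≤
      ((Icc 1 T).filter fun m => t ∈ hitSet p β j s m).card := by
    intro t ht
    unfold wmax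
    refine Finset.sup_le fun i _ => ?_
    set v := padicValNat p ((t : ℚ) + (β j - β i)).num.natAbs with hv
    have ht' := Finset.mem_Ioc.mp ht
    have hne' : ((t : ℚ) + (β j - β i)).num.natAbs ≠ 0 := by
      rw [Int.natAbs_ne_zero]
      exact Rat.num_ne_zero.mpr (hne t i (by omega))
    have hvT : v ≤ T := by
      rw [hT]
      refine Nat.le_log_of_pow_le hp.one_lt ?_
      have h2 : p ^ v ≤ ((t : ℚ) + (β j - β i)).num.natAbs :=
        Nat.le_of_dvd (Nat.pos_of_ne_zero hne') pow_padicValNat_dvd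
      refine h2.trans ((num_natAbs_le t _).trans ?_)
      exact Nat.mul_le_mul (hB i) (by omega)
    have h3 : Icc 1 v ⊆ (Icc 1 T).filter fun m => t ∈ hitSet p β j s m := by
      intro m hm
      rw [Finset.mem_Icc] at hm
      rw [Finset.mem_filter, Finset.mem_Icc]
      refine ⟨⟨hm.1, hm.2.trans hvT⟩, ?_⟩
      unfold hitSet
      rw [Finset.mem_filter]
      refine ⟨ht, i, ?_⟩
      rw [Int.natCast_dvd]
      exact (pow_dvd_pow p hm.2).trans pow_padicValNat_dvd
    have h4 := Finset.card_le_card h3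
    rwa [Nat.card_Icc, Nat.add_sub_cancel] at h4
  have h2 : ∑ t ∈ Ioc 0 s, wmax p β j t ≤ ∑ m ∈ Icc 1 T, (hitSet p β j s m).card := by
    refine (Finset.sum_le_sum h1).trans (le_of_eq ?_)
    have h3 : ∀ t ∈ Ioc 0 s, ((Icc 1 T).filter fun m => t ∈ hitSet p β j s m).card =
        ∑ m ∈ Icc 1 T, if t ∈ hitSet p β j s m then 1 else 0 := by
      intro t _
      rw [Finset.card_filter]
    rw [Finset.sum_congr rfl h3, Finset.sum_comm]
    refine Finset.sum_congr rfl fun m _ => ?_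
    rw [← Finset.card_filter]
    congr 1
    ext t
    rw [Finset.mem_filter]
    constructor
    · exact fun h => h.2
    · intro h
      refine ⟨?_, h⟩
      unfold hitSet at h
      exact (Finset.mem_filter.mp h).1
  have h3 : ∑ m ∈ Icc 1 T, (hitSet p β j s m).card ≤
      ∑ m ∈ Icc 1 M, s + ∑ k ∈ range T, c * (s / p ^ (M + 1 + k) + 1) := by
    have h4 : Icc 1 T ⊆ Icc 1 M ∪ (range T).image fun k => M + 1 + k := by
      intro m hm
      rw [Finset.mem_Icc] at hm
      rw [Finset.mem_union, Finset.mem_Icc, Finset.mem_image]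
      by_cases h : m ≤ M
      · exact Or.inl ⟨hm.1, h⟩
      · exact Or.inr ⟨m - (M + 1), Finset.mem_range.mpr (by omega), by omega⟩
    refine (Finset.sum_le_sum_of_subset h4).trans ?_
    have h5 : ∑ m ∈ Icc 1 M ∪ (range T).image (fun k => M + 1 + k), (hitSet p β j s m).card ≤
        ∑ m ∈ Icc 1 M, (hitSet p β j s m).card +
          ∑ m ∈ (range T).image (fun k => M + 1 + k), (hitSet p β j s m).card := by
      rw [← Finset.sum_union_inter]
      exact Nat.le_add_right _ _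
    refine h5.trans
      (Nat.add_le_add (Finset.sum_le_sum fun m _ => hitSet_card_le_self p β j s m) ?_)
    rw [Finset.sum_image (by
      intro a _ b _ h
      simp only at h
      omega)]
    refine Finset.sum_le_sum fun k _ => ?_
    exact (hitSet_card_le hp β j s (by omega)).trans (Nat.mul_le_mul_right _ hc)
  have h4 : (∑ t ∈ Ioc 0 s, (wmax p β j t : ℝ)) ≤
      ((∑ m ∈ Icc 1 M, s + ∑ k ∈ range T, c * (s / p ^ (M + 1 + k) + 1) : ℕ) : ℝ) := by
    exact_mod_cast h2.trans h3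
  refine h4.trans ?_
  have h5 : ∑ m ∈ Icc 1 M, s = M * s := by
    rw [Finset.sum_const, Nat.card_Icc, Nat.add_sub_cancel, smul_eq_mul]
  rw [h5]
  push_cast
  have h6 : ∑ k ∈ range T, (c : ℝ) * (((s / p ^ (M + 1 + k) : ℕ) : ℝ) + 1) ≤
      c * s * (1 / ((p : ℝ) ^ M * ((p : ℝ) - 1))) + c * T := by
    have h7 : ∀ k ∈ range T, (c : ℝ) * (((s / p ^ (M + 1 + k) : ℕ) : ℝ) + 1) ≤
        c * s * (1 / (p : ℝ) ^ (M + 1 + k)) + c := by
      intro k _
      have h8 : ((s / p ^ (M + 1 + k) : ℕ) : ℝ) ≤ s / (p : ℝ) ^ (M + 1 + k) := by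
        have := @Nat.cast_div_le ℝ _ _ _ s (p ^ (M + 1 + k))
        push_cast at this
        exact this
      have h9 : (0 : ℝ) ≤ c := by positivity
      have h10 := mul_le_mul_of_nonneg_left h8 h9
      have h11 : (c : ℝ) * (s / (p : ℝ) ^ (M + 1 + k)) = c * s * (1 / (p : ℝ) ^ (M + 1 + k)) := by
        ring
      rw [h11] at h10
      linarith
    refine (Finset.sum_le_sum h7).trans ?_
    rw [Finset.sum_add_distrib, ← Finset.mul_sum, Finset.sum_const, Finset.card_range, nsmul_eq_mul]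
    have h8 := mul_le_mul_of_nonneg_left (geom_tail hp1 M T) (by positivity : (0 : ℝ) ≤ c * s)
    linarith
  have h7 : (c : ℝ) * s * (1 / ((p : ℝ) ^ M * ((p : ℝ) - 1))) =
      c / ((p : ℝ) ^ M * ((p : ℝ) - 1)) * s := by ring
  rw [h7] at h6
  linarith

end count

section main

variable {K : Type} [Field K] [CharZero K] {r : ℕ}

/-- The valuations of the coefficients of a fundamental matrix, with the largest valuation of the
numerators in every step. -/
theorem coeff_padic {p e : ℕ} (hp : p.Prime) {A U : Matrix (Fin r) (Fin r) (PowerSeries K)}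
    {β : Fin r → ℚ} (hU : ∀ i j, PowerSeries.X * PowerSeries.derivative K (U i j) =
      ∑ l, A i l * U l j - PowerSeries.C ((β j : ℚ) : K) * U i j)
    (hA0 : ∀ i l, PowerSeries.coeff 0 (A i l) = if i = l then ((β i : ℚ) : K) else 0)
    (hU0 : ∀ i j, PadicIntegral p 0 (PowerSeries.coeff 0 (U i j)))
    (hne : ∀ (t : ℕ) i j, t ≠ 0 → (t : ℚ) + (β j - β i) ≠ 0)
    (hA : ∀ (s : ℕ) i l, s ≠ 0 → PadicIntegral p e (PowerSeries.coeff s (A i l)))
    (j : Fin r) (s : ℕ) : ∀ i, PadicIntegral p (∑ t ∈ Ioc 0 s, (e + wmax p β j t))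
      (PowerSeries.coeff s (U i j)) := by
  classical
  induction s using Nat.strong_induction_on with
  | _ s ih =>
  intro i
  rcases Nat.eq_zero_or_pos s with rfl | hs
  · simpa using hU0 i j
  obtain ⟨n, rfl⟩ : ∃ n, s = n + 1 := ⟨s - 1, by omega⟩
  have h1 := congrArg (PowerSeries.coeff (n + 1)) (hU i j)
  rw [PowerSeries.coeff_succ_X_mul, PowerSeries.coeff_derivative, map_sub, map_sum,
    PowerSeries.coeff_C_mul] at h1
  have h2 : ∀ l, PowerSeries.coeff (n + 1) (A i l * U l j) =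
      ∑ k ∈ range (n + 1), PowerSeries.coeff (k + 1) (A i l) *
        PowerSeries.coeff (n - k) (U l j) +
      (if i = l then ((β i : ℚ) : K) else 0) * PowerSeries.coeff (n + 1) (U l j) := by
    intro l
    rw [PowerSeries.coeff_mul, Finset.Nat.sum_antidiagonal_eq_sum_range_succ_mk,
      Finset.sum_range_succ', Nat.sub_zero, hA0]
    congr 1
    refine Finset.sum_congr rfl fun k _ => ?_
    have : n + 1 - (k + 1) = n - k := by omega
    rw [this]
  rw [Finset.sum_congr rfl fun l _ => h2 l, Finset.sum_add_distrib] at h1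
  have h3 : ∑ l, (if i = l then ((β i : ℚ) : K) else 0) * PowerSeries.coeff (n + 1) (U l j) =
      ((β i : ℚ) : K) * PowerSeries.coeff (n + 1) (U i j) := by
    simp only [ite_mul, zero_mul, Finset.sum_ite_eq, Finset.mem_univ, if_true]
  rw [h3] at h1
  set q : ℚ := ((n + 1 : ℕ) : ℚ) + (β j - β i) with hq
  have hq0 : q ≠ 0 := hne (n + 1) i j (by omega)
  have hqK : (q : K) ≠ 0 := by exact_mod_cast hq0
  have h4 : PowerSeries.coeff (n + 1) (U i j) = (q : K)⁻¹ *
      ∑ l, ∑ k ∈ range (n + 1), PowerSeries.coeff (k + 1) (A i l) *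
        PowerSeries.coeff (n - k) (U l j) := by
    rw [eq_inv_mul_iff_mul_eq₀ hqK]
    have h5 : (q : K) = (n : K) + 1 + (((β j : ℚ) : K) - ((β i : ℚ) : K)) := by
      rw [hq]
      push_cast
      ring
    rw [h5]
    linear_combination h1
  rw [h4, Finset.sum_Ioc_succ_top (Nat.zero_le n)]
  have h5 : PadicIntegral p (e + ∑ t ∈ Ioc 0 n, (e + wmax p β j t))
      (∑ l, ∑ k ∈ range (n + 1), PowerSeries.coeff (k + 1) (A i l) *
        PowerSeries.coeff (n - k) (U l j)) := by
    refine padic_sum hp _ fun l _ => padic_sum hp _ fun k hk => ?_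
    refine padic_mul hp (hA (k + 1) i l (by omega)) ?_
    refine padic_mono (ih (n - k) (by omega) l) ?_
    exact Finset.sum_le_sum_of_subset (Finset.Ioc_subset_Ioc_right (Nat.sub_le n k))
  have h6 : padicValNat p q.num.natAbs ≤ wmax p β j (n + 1) := by
    unfold wmax
    exact Finset.le_sup (f := fun i =>
      padicValNat p (((n + 1 : ℕ) : ℚ) + (β j - β i)).num.natAbs) (Finset.mem_univ i)
  refine padic_mono (padic_mul hp (padic_inv hp hq0) h5) ?_
  omega

lemma log_bound {p : ℕ} (hp : p.Prime) (B c : ℕ) {ε : ℝ} (hε : 0 < ε) : ∃ C : ℕ, ∀ s : ℕ,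
    (c : ℝ) * Nat.log p (B * (s + 1)) ≤ ε * s + C := by
  have hl2 : (1 / 2 : ℝ) < Real.log 2 := by
    have := Real.log_two_gt_d9
    linarith
  have hlp : (1 / 2 : ℝ) < Real.log p :=
    hl2.trans_le (Real.log_le_log (by norm_num) (by exact_mod_cast hp.two_le))
  set ε' : ℝ := ε / (2 * (c + 1)) with hε'
  have hc1 : (0 : ℝ) < (c : ℝ) + 1 := by positivity
  have hε'0 : 0 < ε' := by positivity
  obtain ⟨C, hC⟩ := exists_nat_ge (2 * (c : ℝ) * (Real.log (B + 1) + ε' + |Real.log ε'|))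
  refine ⟨C, fun s => ?_⟩
  have h1 : (Nat.log p (B * (s + 1)) : ℝ) * Real.log p ≤ Real.log ((B + 1) * (s + 1)) := by
    rw [← Real.log_pow]
    refine Real.log_le_log (by have := hp.pos; positivity) ?_
    rcases Nat.eq_zero_or_pos (B * (s + 1)) with h | h
    · rw [h, Nat.log_zero_right, pow_zero]
      have h2 : (1 : ℝ) ≤ (B : ℝ) + 1 := by
        have : (0 : ℝ) ≤ B := by positivity
        linarith
      have h3 : (1 : ℝ) ≤ (s : ℝ) + 1 := by
        have : (0 : ℝ) ≤ s := by positivity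
        linarith
      nlinarith
    · have h2 : ((p ^ Nat.log p (B * (s + 1)) : ℕ) : ℝ) ≤ ((B * (s + 1) : ℕ) : ℝ) := by
        exact_mod_cast Nat.pow_log_le_self p h.ne'
      push_cast at h2
      refine h2.trans ?_
      have h3 : (0 : ℝ) ≤ (s : ℝ) + 1 := by positivity
      nlinarith
  have h2 : Real.log ((B + 1) * (s + 1)) ≤ Real.log (B + 1) + (ε' * (s + 1) + |Real.log ε'|) := by
    rw [Real.log_mul (by positivity) (by positivity)]
    have h3 : Real.log (ε' * (s + 1)) ≤ ε' * (s + 1) - 1 :=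
      Real.log_le_sub_one_of_pos (by positivity)
    rw [Real.log_mul hε'0.ne' (by positivity)] at h3
    have h4 := neg_abs_le (Real.log ε')
    linarith
  have h3 : (Nat.log p (B * (s + 1)) : ℝ) ≤
      2 * (Real.log (B + 1) + (ε' * (s + 1) + |Real.log ε'|)) := by
    have h4 : (0 : ℝ) ≤ (Nat.log p (B * (s + 1)) : ℝ) := by positivity
    nlinarith
  have h4 : (c : ℝ) * Nat.log p (B * (s + 1)) ≤
      c * (2 * (Real.log (B + 1) + (ε' * (s + 1) + |Real.log ε'|))) :=
    mul_le_mul_of_nonneg_left h3 (by positivity)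
  have h5 : 2 * (c : ℝ) * ε' * s ≤ ε * s := by
    have h6 : 2 * (c : ℝ) * ε' ≤ ε := by
      rw [hε']
      have : 2 * (c : ℝ) * (ε / (2 * (c + 1))) = ε * (c / (c + 1)) := by
        field_simp
      rw [this]
      have h7 : (c : ℝ) / (c + 1) ≤ 1 := by
        rw [div_le_one hc1]
        linarith
      nlinarith
    exact mul_le_mul_of_nonneg_right h6 (by positivity)
  nlinarith

/-- The radius of convergence at a prime: the loss at each coefficient is the largest one, not the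
sum over the exponents. -/
theorem radius_max {p e c : ℕ} (hp : p.Prime) {A U : Matrix (Fin r) (Fin r) (PowerSeries K)}
    {β : Fin r → ℚ} (hU : ∀ i j, PowerSeries.X * PowerSeries.derivative K (U i j) =
      ∑ l, A i l * U l j - PowerSeries.C ((β j : ℚ) : K) * U i j)
    (hA0 : ∀ i l, PowerSeries.coeff 0 (A i l) = if i = l then ((β i : ℚ) : K) else 0)
    (hU0 : ∀ i j, PadicIntegral p 0 (PowerSeries.coeff 0 (U i j)))
    (hne : ∀ (t : ℕ) i j, t ≠ 0 → (t : ℚ) + (β j - β i) ≠ 0)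
    (hA : ∀ (s : ℕ) i l, s ≠ 0 → PadicIntegral p e (PowerSeries.coeff s (A i l)))
    (hc : numClass β p ≤ c) {ℓ : ℝ}
    (hℓ : (e : ℝ) + (Nat.log p c + c / ((p : ℝ) ^ Nat.log p c * ((p : ℝ) - 1))) ≤ ℓ)
    (i j : Fin r) : RadiusAt p (U i j) ℓ := by
  classical
  intro ε hε
  obtain ⟨B, hB⟩ : ∃ B : ℕ, ∀ i, (β j - β i).num.natAbs + (β j - β i).den ≤ B :=
    ⟨univ.sup fun i => (β j - β i).num.natAbs + (β j - β i).den, fun i =>
      Finset.le_sup (f := fun i => (β j - β i).num.natAbs + (β j - β i).den) (Finset.mem_univ i)⟩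
  obtain ⟨C, hC⟩ := log_bound hp B c hε
  refine ⟨C, fun s => ⟨∑ t ∈ Ioc 0 s, (e + wmax p β j t), ?_,
    coeff_padic hp hU hA0 hU0 hne hA j s i⟩⟩
  have h1 := sum_wmax_le hp β j hB (fun t i ht => hne t i j ht) c hc s
  have h2 := hC s
  push_cast
  rw [Finset.sum_add_distrib, Finset.sum_const, Nat.card_Ioc, Nat.sub_zero, nsmul_eq_mul]
  have h3 : ((e : ℝ) + (Nat.log p c + c / ((p : ℝ) ^ Nat.log p c * ((p : ℝ) - 1)))) * s ≤
      ℓ * s := mul_le_mul_of_nonneg_right hℓ (by positivity)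
  linarith

end main

end Pool.Agent.H925
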