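import Pool.Agent.H925.VertFam

set_option autoImplicit false

open Finset

namespace Pool.Agent.H925

open Pool.Agent.Helper338PC

section num

/-- The number `n` is not a proper multiple of the elements of the list. -/
def sieveL (n : ℕ) : List ℕ → Bool
  | [] => true
  | d :: l => (Nat.ble 1 (Nat.mod n d) || Nat.beq n d) && sieveL n l

lemma sieveL_prime {n : ℕ} (hn : n.Prime) : ∀ l : List ℕ, (∀ d ∈ l, d ≠ 1) → sieveL n l = true
  | [], _ => rfl
  | d :: l, h => by
    have h1 := sieveL_prime hn l fun x hx => h x (List.mem_cons_of_mem _ hx)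
    rw [sieveL, h1, Bool.and_true]
    by_cases h2 : n % d = 0
    · rcases (Nat.dvd_prime hn).mp (Nat.dvd_of_mod_eq_zero h2) with h3 | h3
      · exact absurd h3 (h d List.mem_cons_self)
      · rw [h3, Nat.beq_refl, Bool.or_true]
    · have h3 : Nat.ble 1 (Nat.mod n d) = true := Nat.ble_eq.mpr (Nat.one_le_iff_ne_zero.mpr h2)
      rw [h3, Bool.true_or]

/-- The identity on functions; it forces the evaluation of the argument. -/
def force (f : ℕ → ℕ) : ℕ → ℕ
  | 0 => f 0
  | m + 1 => f (Nat.succ m)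

lemma force_apply (f : ℕ → ℕ) (n : ℕ) : force f n = f n := by
  cases n <;> rfl

/-- The number `L` with `2 ^ L ≤ N < 2 ^ (L + 1)`, by bisection. -/
def bis (N : ℕ) (k : ℕ) : ℕ → ℕ :=
  Nat.rec (motive := fun _ => ℕ → ℕ) (fun L => L)
    (fun k ih => force fun L => bif Nat.ble (Nat.pow 2 (Nat.add L (Nat.pow 2 k))) N then
      ih (Nat.add L (Nat.pow 2 k)) else ih L) k

/-- An upper bound for `10 ^ 12 L / (n (n - 1))`, if `N ≤ 2 ^ L`. -/
def logBody2 (n : ℕ) (N : ℕ) (L : ℕ) : ℕ :=
  bif Nat.ble N (Nat.pow 2 L) then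
    Nat.succ (Nat.div (Nat.mul 1000000000000 L) (Nat.mul n (Nat.pred n)))
    else Nat.mul 1000000000000 (Nat.mul 1024 n)

/-- An upper bound for `10 ^ 12` times the binary logarithm of `n ^ 1024` divided by `n (n - 1)`. -/
def logBody (n : ℕ) : ℕ :=
  bif Nat.ble 5 n && sieveL n [2, 3, 5, 7, 11, 13, 17, 19, 23, 29, 31, 37, 41, 43, 47, 53, 59, 61,
      67, 71, 73, 79, 83, 89] then
   force (fun N => force (fun L => logBody2 n N L) (Nat.succ (bis N 14 0))) (Nat.pow n 1024) else 0

/-- Sum over `2 ^ k` consecutive numbers. -/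
def logSum (k : ℕ) : ℕ → ℕ :=
  Nat.rec (motive := fun _ => ℕ → ℕ) (force logBody)
    (fun k ih => force fun a => Nat.add (ih a) (ih (Nat.add a (Nat.pow 2 k)))) k

lemma logSum_eq (k : ℕ) : ∀ a : ℕ, logSum k a = ∑ i ∈ range (2 ^ k), logBody (a + i) := by
  induction k with
  | zero =>
    intro a
    rw [pow_zero, Finset.sum_range_one, add_zero]
    exact force_apply _ _
  | succ k ih =>
    intro a
    have h1 : logSum (k + 1) a = logSum k a + logSum k (a + 2 ^ k) :=
      force_apply (fun a => Nat.add (logSum k a) (logSum k (Nat.add a (Nat.pow 2 k)))) a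
    rw [h1, ih, ih, pow_succ, mul_two, Finset.sum_range_add]
    congr 1
    exact Finset.sum_congr rfl fun i _ => by rw [add_assoc]

set_option maxRecDepth 100000 in
lemma logSum_value : Nat.ble (logSum 13 0) 333279876840000 = true := by decide +kernel

lemma exists_logSum : ∃ S : ℕ, Nat.ble S 333279876840000 = true ∧
    S = ∑ i ∈ range (2 ^ 13), logBody i :=
  ⟨logSum 13 0, logSum_value, by rw [logSum_eq]; simp only [zero_add]⟩

set_option exponentiation.threshold 2000 in
lemma log_le_real {n L : ℕ} (hn : 0 < n) (h : n ^ 1024 ≤ 2 ^ L) :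
    Real.log n ≤ ((L : ℝ) / 1024) * Real.log 2 := by
  have h2 := log_le_of_pow (p := n) (a := 1024) (b := L) hn (by decide) h
  exact_mod_cast h2

lemma log_le_trivial {n : ℕ} (hn : 1 < n) :
    Real.log n ≤ (n : ℝ) * ((n : ℝ) * ((n : ℝ) - 1)) * Real.log 2 := by
  have h1 : n ^ 1 ≤ 2 ^ n := by
    rw [pow_one]
    exact Nat.lt_two_pow_self.le
  have h2 := log_le_of_pow (p := n) (a := 1) (b := n) (by omega) (by decide) h1
  rw [Nat.cast_one, div_one] at h2
  have hl2 : 0 < Real.log 2 := Real.log_pos (by norm_num)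
  have hn2 : (2 : ℝ) ≤ n := by exact_mod_cast hn
  have h3 : (1 : ℝ) ≤ (n : ℝ) * ((n : ℝ) - 1) := by nlinarith
  refine h2.trans (mul_le_mul_of_nonneg_right ?_ hl2.le)
  have h4 : (0 : ℝ) ≤ n := by positivity
  nlinarith

lemma logBody_ge {n : ℕ} (hp : n.Prime) (h5 : 5 ≤ n) :
    Real.log n / (n * ((n : ℝ) - 1)) ≤
      (Real.log 2 / 1024 / 1000000000000) * (logBody n : ℝ) := by
  have hl2 : 0 < Real.log 2 := Real.log_pos (by norm_num)
  have hn0 : (0 : ℝ) < n := by exact_mod_cast (by omega : 0 < n)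
  have hn1 : (0 : ℝ) < (n : ℝ) - 1 := by
    have : (1 : ℝ) < n := by exact_mod_cast (by omega : 1 < n)
    linarith
  obtain ⟨L, hL⟩ : ∃ L, logBody n = logBody2 n (n ^ 1024) L := by
    refine ⟨Nat.succ (bis (n ^ 1024) 14 0), ?_⟩
    unfold logBody
    rw [sieveL_prime hp _ (by decide), Nat.ble_eq.mpr h5, Bool.and_true, cond_true, force_apply,
      force_apply]
    rfl
  rw [hL, div_le_iff₀ (by positivity)]
  unfold logBody2
  by_cases h : n ^ 1024 ≤ 2 ^ L
  · have e0 : Nat.ble (n ^ 1024) (Nat.pow 2 L) = true := Nat.ble_eq.mpr h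
    rw [e0, cond_true]
    have hpos : 0 < n * (n - 1) := Nat.mul_pos (by omega) (by omega)
    have e2 : 1000000000000 * L ≤ (n * (n - 1)) *
        (Nat.succ (Nat.div (Nat.mul 1000000000000 L) (Nat.mul n (Nat.pred n)))) :=
      (Nat.lt_mul_div_succ _ hpos).le
    set q := Nat.succ (Nat.div (Nat.mul 1000000000000 L) (Nat.mul n (Nat.pred n))) with hq
    have e3 : (1000000000000 : ℝ) * L ≤ ((n : ℝ) * ((n : ℝ) - 1)) * q := by
      have e4 : (((n * (n - 1) : ℕ)) : ℝ) = (n : ℝ) * ((n : ℝ) - 1) := by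
        rw [Nat.cast_mul, Nat.cast_sub (by omega), Nat.cast_one]
      rw [← e4]
      exact_mod_cast e2
    calc Real.log n ≤ ((L : ℝ) / 1024) * Real.log 2 := log_le_real (by omega) h
      _ = (Real.log 2 / 1024 / 1000000000000) * (1000000000000 * L) := by ring
      _ ≤ (Real.log 2 / 1024 / 1000000000000) * (((n : ℝ) * ((n : ℝ) - 1)) * q) :=
          mul_le_mul_of_nonneg_left e3 (by positivity)
      _ = _ := by ring
  · have e0 : Nat.ble (n ^ 1024) (Nat.pow 2 L) = false := by
      rw [Bool.eq_false_iff]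
      intro h'
      exact h (Nat.ble_eq.mp h')
    rw [e0, cond_false]
    refine (log_le_trivial (by omega)).trans (le_of_eq ?_)
    have e5 : ((Nat.mul 1000000000000 (Nat.mul 1024 n) : ℕ) : ℝ) = 1000000000000 * (1024 * n) := by
      rw [Nat.mul_eq, Nat.mul_eq]
      push_cast
      ring
    rw [e5]
    ring

lemma out_le_logBody (n : ℕ) :
    outTerm {2, 3} ∅ n ≤ (Real.log 2 / 1024 / 1000000000000) * (logBody n : ℝ) := by
  have hl2 : 0 < Real.log 2 := Real.log_pos (by norm_num)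
  by_cases h : n.Prime ∧ n ≠ 2 ∧ n ≠ 3
  · obtain ⟨hp, h2, h3⟩ := h
    have h5 : 5 ≤ n := by
      have := hp.two_le
      by_contra hlt
      have h4 : n = 4 := by omega
      rw [h4] at hp
      revert hp
      decide
    rw [out_prime hp h2 h3]
    exact logBody_ge hp h5
  · have h0 : outTerm {2, 3} ∅ n = 0 := by
      by_cases hp : n.Prime
      · by_cases h2 : n = 2
        · rw [h2, out_two]
        · by_cases h3 : n = 3
          · rw [h3, out_three]
          · exact absurd ⟨hp, h2, h3⟩ h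
      · exact out_not_prime hp
    rw [h0]
    positivity

lemma partial_sum_six' {k₀ k : ℕ} (hk₀ : 16 ≤ k₀) (hk : k₀ ≤ k) :
    ∑ n ∈ range (6 * k + 2), outTerm {2, 3} ∅ n ≤ ∑ n ∈ range (6 * k₀ + 2), outTerm {2, 3} ∅ n +
      1 / 3 * (GG ((6 * k₀ + 1 : ℕ) : ℝ) - GG ((6 * k + 1 : ℕ) : ℝ)) := by
  induction k, hk using Nat.le_induction with
  | base => rw [sub_self, mul_zero, add_zero]
  | succ k hk' ih =>
    have hk : 16 ≤ k := hk₀.trans hk'
    have h1 : 6 * (k + 1) + 2 = (6 * k + 2) + 1 + 1 + 1 + 1 + 1 + 1 := by ring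
    rw [h1]
    iterate 6 rw [Finset.sum_range_succ]
    have hz : ∀ j q : ℕ, 1 < q → q < 6 * k + 2 + j → q ∣ 6 * k + 2 + j →
        outTerm {2, 3} ∅ (6 * k + 2 + j) = 0 := by
      intro j q hq hlt hd
      apply out_not_prime
      intro hp
      rcases (Nat.dvd_prime hp).mp hd with h | h <;> omega
    have e0 : outTerm {2, 3} ∅ (6 * k + 2) = 0 :=
      hz 0 2 (by norm_num) (by omega) ⟨3 * k + 1, by ring⟩
    have e1 : outTerm {2, 3} ∅ (6 * k + 2 + 1) = 0 :=
      hz 1 3 (by norm_num) (by omega) ⟨2 * k + 1, by ring⟩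
    have e2 : outTerm {2, 3} ∅ (6 * k + 2 + 1 + 1) = 0 :=
      hz 2 2 (by norm_num) (by omega) ⟨3 * k + 2, by ring⟩
    have e4 : outTerm {2, 3} ∅ (6 * k + 2 + 1 + 1 + 1 + 1) = 0 :=
      hz 4 2 (by norm_num) (by omega) ⟨3 * k + 3, by ring⟩
    have e3 : outTerm {2, 3} ∅ (6 * k + 2 + 1 + 1 + 1) ≤
        1 / 3 * (GG ((6 * k + 1 : ℕ) : ℝ) - GG ((6 * k + 4 : ℕ) : ℝ)) := by
      refine (out_le (by omega)).trans ?_
      have hk' : (16 : ℝ) ≤ k := by exact_mod_cast hk
      have h2 := GG_le' (b := 6 * k + 4) (by linarith)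
      have h3 : ((6 * k + 2 + 1 + 1 + 1 : ℕ) : ℝ) = 6 * k + 4 + 1 := by push_cast; ring
      have h4 : ((6 * k + 1 : ℕ) : ℝ) = 6 * k + 4 - 3 := by push_cast; ring
      have h5 : ((6 * k + 4 : ℕ) : ℝ) = 6 * k + 4 := by push_cast; ring
      rw [h3, h4, h5]
      exact h2
    have e5 : outTerm {2, 3} ∅ (6 * k + 2 + 1 + 1 + 1 + 1 + 1) ≤
        1 / 3 * (GG ((6 * k + 4 : ℕ) : ℝ) - GG ((6 * k + 7 : ℕ) : ℝ)) := by
      refine (out_le (by omega)).trans ?_
      have hk' : (16 : ℝ) ≤ k := by exact_mod_cast hk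
      have h2 := GG_le (b := 6 * k + 7) (by linarith)
      have h3 : ((6 * k + 2 + 1 + 1 + 1 + 1 + 1 : ℕ) : ℝ) = 6 * k + 7 := by push_cast; ring
      have h4 : ((6 * k + 4 : ℕ) : ℝ) = 6 * k + 7 - 3 := by push_cast; ring
      rw [h3, h4]
      exact h2
    have h2 : 6 * (k + 1) + 1 = 6 * k + 7 := by ring
    rw [e0, e1, e2, e4, h2]
    linarith

/-- The sum of `log p / (p (p - 1))` over the primes `p ≥ 5`. -/
theorem tsum_out_six' : ∑' p : ℕ, outTerm {2, 3} ∅ p ≤ 0.22601 := by
  have hlog2 := Real.log_two_lt_d9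
  have hl2 : 0 < Real.log 2 := Real.log_pos (by norm_num)
  obtain ⟨T, hT0, hT⟩ := exists_logSum
  have hT1 : (T : ℝ) ≤ 333279876840000 := by
    have := Nat.le_of_ble_eq_true hT0
    exact_mod_cast this
  have hbound : ∀ N, ∑ n ∈ range N, outTerm {2, 3} ∅ n ≤
      ∑ n ∈ range (2 ^ 13), outTerm {2, 3} ∅ n + 1 / 3 * GG 8191 := by
    intro N
    have h1 := partial_sum_six' (k₀ := 1365) (k := N + 1365) (by norm_num) (by omega)
    have e1 : 6 * 1365 + 2 = 2 ^ 13 := by norm_num
    have e2 : ((6 * 1365 + 1 : ℕ) : ℝ) = 8191 := by norm_num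
    rw [e1, e2] at h1
    have h2 : ∑ n ∈ range N, outTerm {2, 3} ∅ n ≤
        ∑ n ∈ range (6 * (N + 1365) + 2), outTerm {2, 3} ∅ n :=
      Finset.sum_le_sum_of_subset_of_nonneg (Finset.range_mono (by omega)) fun n _ _ => out_nonneg n
    have h3 : 0 ≤ GG ((6 * (N + 1365) + 1 : ℕ) : ℝ) := by
      unfold GG
      have h5 : (1 : ℝ) ≤ ((6 * (N + 1365) + 1 : ℕ) : ℝ) := by exact_mod_cast (by omega)
      have h6 := Real.log_nonneg h5
      exact div_nonneg (by linarith) (by linarith)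
    linarith
  have h1 := Real.tsum_le_of_sum_range_le out_nonneg hbound
  refine h1.trans ?_
  have h2 : ∑ n ∈ range (2 ^ 13), outTerm {2, 3} ∅ n ≤
      (Real.log 2 / 1024 / 1000000000000) * 333279876840000 := by
    calc ∑ n ∈ range (2 ^ 13), outTerm {2, 3} ∅ n
        ≤ ∑ n ∈ range (2 ^ 13), (Real.log 2 / 1024 / 1000000000000) * (logBody n : ℝ) :=
          Finset.sum_le_sum fun n _ => out_le_logBody n
      _ = (Real.log 2 / 1024 / 1000000000000) * (T : ℝ) := by
          rw [hT, ← Finset.mul_sum, Nat.cast_sum]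
      _ ≤ _ := mul_le_mul_of_nonneg_left hT1 (by positivity)
  have h3 : Real.log 8191 ≤ 13 * Real.log 2 := by
    have h4 : ((8191 : ℕ) : ℝ) ≤ (2 : ℝ) ^ 13 := by norm_num
    have h5 := Real.log_le_log (by norm_num) h4
    rw [Real.log_pow] at h5
    exact_mod_cast h5
  have h4 : GG 8191 ≤ (13 * Real.log 2 + 1) / 8191 := by
    unfold GG
    exact div_le_div_of_nonneg_right (by linarith) (by norm_num)
  have h5 : (13 * Real.log 2 + 1) / 8191 ≤ 0.0012222 := by
    rw [div_le_iff₀ (by norm_num)]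
    linarith
  have h6 : (Real.log 2 / 1024 / 1000000000000) * 333279876840000 ≤ 0.22559768 := by
    have e1 : (Real.log 2 / 1024 / 1000000000000) * 333279876840000 =
        Real.log 2 * (333279876840000 / 1024000000000000) := by ring
    rw [e1]
    have e2 : Real.log 2 * (333279876840000 / 1024000000000000 : ℝ) ≤
        0.6931471808 * (333279876840000 / 1024000000000000 : ℝ) :=
      mul_le_mul_of_nonneg_right hlog2.le (by norm_num)
    refine e2.trans ?_
    norm_num
  linarith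

lemma log_three_le : Real.log 3 ≤ 65 / 41 * Real.log 2 := by
  have := log_le_of_pow (p := 3) (a := 41) (b := 65) (by norm_num) (by norm_num) (by norm_num)
  exact_mod_cast this

/-- The sum of `log p / (p (p - 1))` over the primes `p ≥ 3`. -/
theorem tsum_out_two' : ∑' p : ℕ, outTerm {2} ∅ p ≤ 0.40917 := by
  have h1 : ∀ p : ℕ, outTerm {2} ∅ p = outTerm {2, 3} ∅ p +
      (if p = 3 then Real.log 3 / 6 else 0) := by
    intro p
    have outTerm_prime : ∀ {p : ℕ}, p.Prime → p ≠ 2 → outTerm {2} ∅ p =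
        Real.log p / (p * (p - 1)) := by
      intro p hp h2
      unfold outTerm
      rw [if_pos ⟨hp, by simp [h2]⟩, if_neg (Set.notMem_empty p)]
    have outTerm_two : outTerm {2} ∅ 2 = 0 := by
      unfold outTerm
      rw [if_neg]
      simp
    by_cases hp : p.Prime
    · by_cases h2 : p = 2
      · subst h2
        rw [outTerm_two, out_two, if_neg (by norm_num), add_zero]
      · by_cases h3 : p = 3
        · subst h3
          rw [outTerm_prime hp h2, out_three, if_pos rfl, zero_add]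
          norm_num
        · rw [outTerm_prime hp h2, out_prime hp h2 h3, if_neg h3, add_zero]
    · rw [out_not_prime hp, out_not_prime hp, if_neg, add_zero]
      rintro rfl
      exact hp Nat.prime_three
  have h2 : Summable fun p : ℕ => if p = 3 then Real.log 3 / 6 else (0 : ℝ) :=
    (hasSum_ite_eq 3 (Real.log 3 / 6)).summable
  have h3 : ∑' p : ℕ, outTerm {2} ∅ p = ∑' p : ℕ, outTerm {2, 3} ∅ p + Real.log 3 / 6 := by
    rw [tsum_congr h1, (summable_outTerm_empty {2, 3}).tsum_add h2, tsum_ite_eq]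
  rw [h3]
  have h4 := tsum_out_six'
  have h5 := log_three_le
  have h6 := Real.log_two_lt_d9
  linarith

end num

end Pool.Agent.H925
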