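import Pool.Agent.H925.Prim
import Pool.Graph.R_pool_sql_team_seeded_620a6dc7.Helper338PC.KExt

set_option autoImplicit false

open Finset

namespace Pool.Agent.H925

open Pool.Agent.Helper338PC

/-- The system `Y' = G Y`, `G` a matrix of rational functions over the field `k`, has a full set of
algebraic solutions in an extension of degree at most `B`: there are an extension `L` of `k(x)` of
degree at most `B`, a derivation `δ` of `L` extending `d/dx` and an invertible matrix `Y` over `L`
with `δ Y = G Y`. -/
def AlgebraicOfDegree {r : ℕ} {k : Type} [Field k] (G : Matrix (Fin r) (Fin r) (RatFunc k))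
    (B : ℕ) : Prop :=
  ∃ (L : Type) (_ : Field L) (_ : Algebra (RatFunc k) L) (δ : Derivation ℤ L L)
    (Y : Matrix (Fin r) (Fin r) L), FiniteDimensional (RatFunc k) L ∧
      Module.finrank (RatFunc k) L ≤ B ∧
      (∀ f, δ (algebraMap (RatFunc k) L f) = algebraMap (RatFunc k) L (W432.PC.ddx k f)) ∧
      Y.det ≠ 0 ∧ ∀ i j, δ (Y i j) = ∑ l, algebraMap (RatFunc k) L (G i l) * Y l j

section ext

variable {r : ℕ}

/-- Descent to a finite extension, with a bound for the degree. -/
theorem exists_sub' {F K : Type} [Field F] [Field K] [Algebra F K] [CharZero F] [Differential F]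
    [Differential K] [DifferentialAlgebra F K] {Y : Matrix (Fin r) (Fin r) K}
    (L' : IntermediateField F K) [FiniteDimensional F L'] (hYL : ∀ i j, Y i j ∈ L')
    (hdet : Y.det ≠ 0) {G : Matrix (Fin r) (Fin r) F}
    (hG : ∀ i j, Differential.deriv (Y i j) = ∑ k, algebraMap F K (G i k) * Y k j) :
    ∃ (L : Type) (_ : Field L) (_ : Algebra F L) (δ : Derivation ℤ L L)
      (Z : Matrix (Fin r) (Fin r) L), FiniteDimensional F L ∧
      Module.finrank F L ≤ Module.finrank F L' ∧
      (∀ f, δ (algebraMap F L f) = algebraMap F L (Differential.deriv f)) ∧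
      Z.det ≠ 0 ∧ ∀ i j, δ (Z i j) = ∑ k, algebraMap F L (G i k) * Z k j := by
  classical
  set s : Set K := Set.range (fun x : Fin r × Fin r => Y x.1 x.2) with hs
  set L := IntermediateField.adjoin F s with hL
  have hLL : L ≤ L' := by
    rw [hL, IntermediateField.adjoin_le_iff]
    rintro _ ⟨x, rfl⟩
    exact hYL _ _
  have hfd : FiniteDimensional F L :=
    FiniteDimensional.of_injective (IntermediateField.inclusion hLL).toLinearMap
      (IntermediateField.inclusion hLL).injective
  have hmem : ∀ i j, Y i j ∈ L := fun i j =>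
    IntermediateField.subset_adjoin F s ⟨(i, j), rfl⟩
  set Z : Matrix (Fin r) (Fin r) L := Matrix.of fun i j => ⟨Y i j, hmem i j⟩ with hZ
  have hval : Z.map (algebraMap L K) = Y := by
    ext1 i j
    rfl
  have hinj : Function.Injective (algebraMap L K) := (algebraMap L K).injective
  refine ⟨L, inferInstance, inferInstance, Differential.deriv, Z, inferInstance, ?_, ?_, ?_, ?_⟩
  · exact LinearMap.finrank_le_finrank_of_injective
      (f := (IntermediateField.inclusion hLL).toLinearMap)
      (IntermediateField.inclusion hLL).injective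
  · intro f
    exact deriv_algebraMap f
  · intro h
    apply hdet
    rw [← hval]
    have := RingHom.map_det (algebraMap L K) Z
    rw [h, map_zero] at this
    exact this.symm
  · intro i j
    apply hinj
    have h1 : algebraMap L K (Differential.deriv (Z i j)) = Differential.deriv (Y i j) :=
      (deriv_algebraMap (Z i j)).symm
    rw [h1, hG i j, map_sum]
    refine Finset.sum_congr rfl fun k _ => ?_
    rw [map_mul, ← IsScalarTower.algebraMap_apply F L K]
    rfl

/-- Finite extension with a fundamental matrix of solutions, with a bound for the degree. -/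
theorem exists_extensionU {K : Type} [Field K] [CharZero K] {R : Type*} [CommRing R] (φ : R →+* K)
    {D : ℕ} (hD : D ≠ 0) (n : ℕ) (A : Matrix (Fin r) (Fin r) (Polynomial R)) {β : Fin r → ℚ}
    {U : Matrix (Fin r) (Fin r) (PowerSeries K)} (hdet : (ccM U).det ≠ 0)
    (hU : ∀ j, IsSolG (Aps φ (D : K)⁻¹ n A) ((β j : ℚ) : K) (fun i => U i j))
    {N : ℕ} (hN : N ≠ 0) {m : Fin r → ℤ} (hm : ∀ j, (N : ℚ) * β j = m j)
    {ι : Type*} [Fintype ι] (W : ι → PowerSeries K)
    (hW : ∀ i j, ∃ a : ι → K, U i j = ∑ x, PowerSeries.C (a x) * W x) {M : ℕ}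
    (hdeg : ∀ c : ι → ℤ, ∃ P : Polynomial (Polynomial K), P ≠ 0 ∧ P.natDegree < M ∧
      Polynomial.aeval (∑ x, PowerSeries.C ((c x : ℤ) : K) * W x) P = 0) :
    AlgebraicOfDegree (sysG φ D n A) (M * N) := by
  classical
  have hDK : (D : K) ≠ 0 := by exact_mod_cast hD
  have hNK : (N : K) ≠ 0 := by exact_mod_cast hN
  let _ : Algebra (RatFunc K) (KF K) := (phiF K N hN).toAlgebra
  have halgmap : ∀ f : RatFunc K, algebraMap (RatFunc K) (KF K) f = phiF K N hN f := fun f => rfl
  let _ : Differential (RatFunc K) := mkDiff (ddxAdd K) (ddxAdd_mul K)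
  let _ : Differential (KF K) := ⟨DxF K N⟩
  have hdR : ∀ f : RatFunc K, Differential.deriv f = W432.PC.ddx K f := fun f => rfl
  have hdK : ∀ f : KF K, Differential.deriv f = DxF K N f := fun f => rfl
  have hda : DifferentialAlgebra (RatFunc K) (KF K) := ⟨fun a => by
    rw [halgmap, halgmap, hdK, hdR]
    exact phiF_ddx hN hNK a⟩
  have hcharR : CharZero (RatFunc K) :=
    charZero_of_injective_algebraMap (algebraMap K (RatFunc K)).injective
  -- the fundamental matrix
  set Y : Matrix (Fin r) (Fin r) (KF K) :=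
    Matrix.of fun i j => psiF K N hN (U i j) * ttF K ^ (m j) with hY
  have hYapp : ∀ i j, Y i j = psiF K N hN (U i j) * ttF K ^ (m j) := fun i j => rfl
  -- algebraicity
  have hinjR : Function.Injective (algebraMap (Polynomial K) (RatFunc K)) :=
    IsFractionRing.injective (Polynomial K) (RatFunc K)
  have htt : (ttF K) ^ N = algebraMap (RatFunc K) (KF K) RatFunc.X := by
    rw [halgmap, phiF_X hN]
  set g : ι → KF K := fun x => psiF K N hN (W x) with hg
  have hcomb : ∀ c : ι → ℤ, psiF K N hN (∑ x, PowerSeries.C ((c x : ℤ) : K) * W x) =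
      ∑ x, ((c x : ℤ) : KF K) * g x := by
    intro c
    rw [map_sum]
    refine Finset.sum_congr rfl fun x _ => ?_
    rw [map_mul]
    congr 1
    rw [map_intCast (PowerSeries.C (R := K)), map_intCast]
  have hpoly : ∀ c : ι → ℤ, ∃ P : Polynomial (RatFunc K), P ≠ 0 ∧ P.natDegree < M ∧
      Polynomial.aeval (∑ x, ((c x : ℤ) : KF K) * g x) P = 0 := by
    intro c
    obtain ⟨P, hP0, hPd, hP⟩ := hdeg c
    refine ⟨P.map (algebraMap (Polynomial K) (RatFunc K)), ?_, ?_, ?_⟩
    · rwa [Ne, Polynomial.map_eq_zero_iff hinjR]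
    · rwa [Polynomial.natDegree_map_eq_of_injective hinjR]
    · rw [← hcomb]
      have h1 : (algebraMap (RatFunc K) (KF K)).comp (algebraMap (Polynomial K) (RatFunc K)) =
          (psiF K N hN).comp (algebraMap (Polynomial K) (PowerSeries K)) := by
        refine RingHom.ext fun q => ?_
        have h1 : algebraMap (Polynomial K) (PowerSeries K) q = (q : PowerSeries K) := by
          rw [PowerSeries.algebraMap_apply']
          ext n
          simp
        change algebraMap (RatFunc K) (KF K) (algebraMap (Polynomial K) (RatFunc K) q) =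
          psiF K N hN (algebraMap (Polynomial K) (PowerSeries K) q)
        rw [h1, halgmap, phiF_algebraMap]
      have h2 := congrArg (psiF K N hN) hP
      rw [Polynomial.aeval_def, map_zero, Polynomial.hom_eval₂] at h2
      rw [Polynomial.aeval_def, Polynomial.eval₂_map, h1]
      exact h2
  have hgalg : ∀ x, IsAlgebraic (RatFunc K) (g x) := by
    intro x
    obtain ⟨P, hP0, _, hP⟩ := hpoly (Pi.single x 1)
    refine ⟨P, hP0, ?_⟩
    have h1 : ∑ y, ((Pi.single x (1 : ℤ) : ι → ℤ) y : KF K) * g y = g x := by
      rw [Finset.sum_eq_single x]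
      · simp
      · intro y _ hy
        rw [Pi.single_eq_of_ne hy, Int.cast_zero, zero_mul]
      · intro h; exact absurd (mem_univ x) h
    rwa [h1] at hP
  obtain ⟨c, hc⟩ := exists_primitive_comb (F := RatFunc K) g hgalg
  set f : KF K := ∑ i, (c i : KF K) * g i with hf
  obtain ⟨P, hP0, hPd, hP⟩ := hpoly c
  have hfint : IsIntegral (RatFunc K) f := by
    have : IsAlgebraic (RatFunc K) f := ⟨P, hP0, hP⟩
    exact this.isIntegral
  have httP : Polynomial.aeval (ttF K)
      (Polynomial.X ^ N - Polynomial.C (RatFunc.X : RatFunc K)) = 0 := by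
    rw [map_sub, map_pow, Polynomial.aeval_X, Polynomial.aeval_C, htt, sub_self]
  have httP0 : (Polynomial.X ^ N - Polynomial.C (RatFunc.X : RatFunc K)) ≠ 0 :=
    Polynomial.X_pow_sub_C_ne_zero (Nat.pos_of_ne_zero hN) _
  have httint : IsIntegral (RatFunc K) (ttF K) := by
    have : IsAlgebraic (RatFunc K) (ttF K) := ⟨_, httP0, httP⟩
    exact this.isIntegral
  set L' : IntermediateField (RatFunc K) (KF K) :=
    IntermediateField.adjoin (RatFunc K) {f} ⊔ IntermediateField.adjoin (RatFunc K) {ttF K} with hL'
  have hf1 : FiniteDimensional (RatFunc K) (IntermediateField.adjoin (RatFunc K) {f}) :=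
    IntermediateField.adjoin.finiteDimensional hfint
  have hf2 : FiniteDimensional (RatFunc K) (IntermediateField.adjoin (RatFunc K) {ttF K}) :=
    IntermediateField.adjoin.finiteDimensional httint
  have hfd : FiniteDimensional (RatFunc K) L' := IntermediateField.finiteDimensional_sup _ _
  have hfin : Module.finrank (RatFunc K) L' ≤ M * N := by
    refine (IntermediateField.finrank_sup_le _ _).trans ?_
    refine Nat.mul_le_mul ?_ ?_
    · rw [IntermediateField.adjoin.finrank hfint]
      exact (Polynomial.natDegree_le_of_dvd (minpoly.dvd _ _ hP) hP0).trans hPd.le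
    · rw [IntermediateField.adjoin.finrank httint]
      refine (Polynomial.natDegree_le_of_dvd (minpoly.dvd _ _ httP) httP0).trans ?_
      rw [Polynomial.natDegree_X_pow_sub_C]
  have hgL : ∀ x, g x ∈ L' := fun x =>
    (le_sup_left : IntermediateField.adjoin (RatFunc K) {f} ≤ L') (hc x)
  have htL : ttF K ∈ L' :=
    (le_sup_right : IntermediateField.adjoin (RatFunc K) {ttF K} ≤ L')
      (IntermediateField.mem_adjoin_simple_self _ _)
  have hYL : ∀ i j, Y i j ∈ L' := by
    intro i j
    rw [hYapp]
    refine mul_mem ?_ (zpow_mem htL _)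
    obtain ⟨a, ha⟩ := hW i j
    rw [ha, map_sum]
    refine sum_mem fun x _ => ?_
    rw [map_mul]
    refine mul_mem ?_ (hgL x)
    have h1 : psiF K N hN (PowerSeries.C (a x)) =
        algebraMap (RatFunc K) (KF K) (algebraMap (Polynomial K) (RatFunc K)
          (Polynomial.C (a x))) := by
      rw [halgmap, phiF_algebraMap, Polynomial.coe_C]
    rw [h1]
    exact L'.algebraMap_mem _
  -- the determinant
  have hdetH : U.det ≠ 0 := by
    intro h
    have h1 : PowerSeries.constantCoeff U.det = (ccM U).det := by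
      rw [RingHom.map_det]
      rfl
    rw [h, map_zero] at h1
    exact hdet h1.symm
  have hYdet : Y.det ≠ 0 := by
    have h1 : Y = (psiF K N hN).mapMatrix U * Matrix.diagonal fun j => ttF K ^ (m j) := by
      ext1 i j
      rw [Matrix.mul_diagonal]
      rfl
    rw [h1, Matrix.det_mul, Matrix.det_diagonal, ← RingHom.map_det]
    refine mul_ne_zero ?_ (Finset.prod_ne_zero_iff.mpr fun j _ => zpow_ne_zero _ (ttF_ne K))
    rw [Ne, map_eq_zero_iff _ (psiF_injective K N hN)]
    exact hdetH
  -- the differential equation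
  have hx0 : ttF K ^ N ≠ 0 := pow_ne_zero _ (ttF_ne K)
  have hβ : ∀ j, psiF K N hN (PowerSeries.C ((β j : ℚ) : K)) = (m j : KF K) / (N : KF K) := by
    intro j
    have h2 : (N : KF K) ≠ 0 := natCast_KF hNK
    have h1 : (N : PowerSeries K) * PowerSeries.C ((β j : ℚ) : K) = (m j : PowerSeries K) := by
      have h3 : (N : PowerSeries K) = PowerSeries.C (N : K) := (map_natCast _ N).symm
      have h4 : (m j : PowerSeries K) = PowerSeries.C (m j : K) := (map_intCast _ (m j)).symm
      rw [h3, h4, ← map_mul]
      congr 1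
      have h5 := congrArg (fun q : ℚ => (q : K)) (hm j)
      push_cast at h5
      exact h5
    have h3 := congrArg (psiF K N hN) h1
    rw [map_mul, map_natCast, map_intCast] at h3
    rw [eq_div_iff h2, mul_comm]
    exact h3
  have hYeq : ∀ i j, Differential.deriv (Y i j) = ∑ k, algebraMap (RatFunc K) (KF K)
      (sysG φ D n A i k) * Y k j := by
    intro i j
    rw [hdK]
    have h1 : DxF K N (Y i j) = psiF K N hN (PowerSeries.derivative K (U i j)) * ttF K ^ (m j) +
        psiF K N hN (U i j) * DxF K N (ttF K ^ (m j)) := by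
      rw [hYapp, Derivation.leibniz, smul_eq_mul, smul_eq_mul, DxF_psi hN hNK]
      ring
    have h2 : ttF K ^ N * DxF K N (ttF K ^ (m j)) = (m j : KF K) / (N : KF K) * ttF K ^ (m j) :=
      DxF_zpow hN hNK (m j)
    have h3 := congrArg (psiF K N hN) (hU j i)
    rw [map_sub, map_sum, map_mul, hβ] at h3
    have h4 : psiF K N hN (th (U i j)) =
        ttF K ^ N * psiF K N hN (PowerSeries.derivative K (U i j)) := by
      unfold th
      rw [map_mul, psiF_X]
    rw [h4] at h3
    have h5 : ∀ l, psiF K N hN (Aps φ (D : K)⁻¹ n A i l * U l j) =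
        ttF K ^ N * phiF K N hN (sysG φ D n A i l) * psiF K N hN (U l j) := by
      intro l
      rw [map_mul, phi_sysG φ hDK n A N hN i l]
    rw [Finset.sum_congr rfl fun l _ => h5 l] at h3
    have h6 : ttF K ^ N * (∑ k, algebraMap (RatFunc K) (KF K) (sysG φ D n A i k) * Y k j) =
        (∑ l, ttF K ^ N * phiF K N hN (sysG φ D n A i l) * psiF K N hN (U l j)) *
          ttF K ^ (m j) := by
      rw [Finset.mul_sum, Finset.sum_mul]
      refine Finset.sum_congr rfl fun l _ => ?_
      rw [halgmap, hYapp]
      ring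
    have h7 : ttF K ^ N * DxF K N (Y i j) =
        ttF K ^ N * (∑ k, algebraMap (RatFunc K) (KF K) (sysG φ D n A i k) * Y k j) := by
      rw [h6, h1]
      linear_combination (ttF K ^ (m j)) * h3 + psiF K N hN (U i j) * h2
    exact mul_left_cancel₀ hx0 h7
  obtain ⟨L, h1, h2, δ, Z, h3, h4, h5, h6, h7⟩ := exists_sub' L' hYL hYdet hYeq
  exact ⟨L, h1, h2, δ, Z, h3, h4.trans hfin, h5, h6, h7⟩

end ext

end Pool.Agent.H925
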