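import Pool.Agent.H925.VertAlg
import Pool.Agent.H925.OrbK
import Pool.Agent.H925.ExtU

set_option autoImplicit false

open Finset NumberField

namespace Pool.Agent.H925

open Pool.Agent.Helper338PC

/-- The system `Y' = A / (D x (x - 1)) Y` is a flat bundle on the orbifold of type
`(n₀, n₁, ∞)`: the entries of `A` are polynomials of degree at most one, and the residues
`- A(0) / D` at `0` and `A(1) / D` at `1` are annihilated by `∏ (X - j / n)`, `0 ≤ j < n`,
for `n = n₀` and `n = n₁`. -/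
def VertexType {R₀ : Type*} [CommRing R₀] {r : ℕ} (D n₀ n₁ : ℕ)
    (A : Matrix (Fin r) (Fin r) (Polynomial R₀)) : Prop :=
  (∀ i j, (A i j).natDegree ≤ 1) ∧
    Polynomial.aeval (-(A.map fun a => a.coeff 0)) (eigPoly n₀ D) = 0 ∧
    Polynomial.aeval (A.map (Polynomial.eval 1)) (eigPoly n₁ D) = 0

/-- The exponents at the vertex. -/
lemma vertex_exponent {K : Type*} [Field K] [CharZero K] {idx : Type*} [Fintype idx]
    [DecidableEq idx] {n D : ℕ} (hn : 0 < n) (hD : D ≠ 0) {Z b U : Matrix idx idx K}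
    {β : idx → ℚ} (hZ : Z = (D : K) • b) (hdet : U.det ≠ 0)
    (hb : b * U = U * Matrix.diagonal fun j => ((β j : ℚ) : K))
    (h : Polynomial.aeval Z (eigPoly n D) = 0) (j : idx) :
    ∃ k : Fin n, β j = ((k : ℕ) : ℚ) / n := by
  have hDK : (D : K) ≠ 0 := by exact_mod_cast hD
  have hnQ : (n : ℚ) ≠ 0 := by exact_mod_cast hn.ne'
  have hDQ : (D : ℚ) ≠ 0 := by exact_mod_cast hD
  have h1 : Z * U = U * Matrix.diagonal fun j => (D : K) * ((β j : ℚ) : K) := by
    rw [hZ, Matrix.smul_mul, hb]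
    ext1 i l
    rw [Matrix.smul_apply, Matrix.mul_diagonal, Matrix.mul_diagonal, smul_eq_mul]
    ring
  have h2 := aeval_mul_of_diag h1 ((eigPoly n D).map (algebraMap ℤ K))
  rw [Polynomial.aeval_map_algebraMap, h, zero_mul] at h2
  -- the column `j` is not zero
  obtain ⟨i, hi⟩ : ∃ i, U i j ≠ 0 := by
    by_contra hcon
    push Not at hcon
    exact hdet (Matrix.det_eq_zero_of_column_eq_zero j hcon)
  have h3 := congrFun (congrFun h2 i) j
  rw [Matrix.zero_apply, Matrix.mul_diagonal] at h3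
  have h4 := (mul_eq_zero.mp h3.symm).resolve_left hi
  unfold eigPoly at h4
  rw [Polynomial.map_prod, Polynomial.eval_prod, Finset.prod_eq_zero_iff] at h4
  obtain ⟨k, hk, h5⟩ := h4
  refine ⟨⟨k, Finset.mem_range.mp hk⟩, ?_⟩
  have h6 : (n : K) * ((D : K) * ((β j : ℚ) : K)) - (k : K) * D = 0 := by
    simpa using h5
  have h7 : (n : ℚ) * (D * β j) - k * D = 0 := by
    have : (((n : ℚ) * (D * β j) - k * D : ℚ) : K) = 0 := by
      push_cast
      exact h6
    exact_mod_cast this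
  have h8 : (D : ℚ) * (n * β j - k) = 0 := by linear_combination h7
  have h9 := (mul_eq_zero.mp h8).resolve_left hDQ
  rw [eq_div_iff hnQ]
  simp only
  linear_combination h9

/-- The expansion in a basis of a number field. -/
lemma expand_basis {K : Type} [Field K] [NumberField K] (f : PowerSeries K)
    (j₀ : Module.Free.ChooseBasisIndex ℤ (𝓞 K)) :
    PowerSeries.C (integralBasis K j₀) * f = ∑ i, PowerSeries.C (integralBasis K i) *
      PowerSeries.map (algebraMap ℚ K) (LM (integralBasis K) f i j₀) := by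
  set b := integralBasis K with hb
  ext s
  rw [PowerSeries.coeff_C_mul, map_sum]
  simp_rw [PowerSeries.coeff_C_mul, PowerSeries.coeff_map, coeff_LM,
    Algebra.leftMulMatrix_eq_repr_mul]
  have h2 := b.sum_repr (PowerSeries.coeff s f * b j₀)
  rw [mul_comm, ← h2]
  refine Finset.sum_congr rfl fun i _ => ?_
  rw [h2, Algebra.smul_def]
  ring

/-- A common denominator of the initial values. -/
lemma exists_scale {idx : Type*} [Fintype idx] (U : Matrix idx idx (PowerSeries ℚ)) :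
    ∃ N : ℕ, N ≠ 0 ∧ ∀ i j, ∃ z : ℤ,
      PowerSeries.coeff 0 (PowerSeries.C (N : ℚ) * U i j) = z := by
  classical
  set N : ℕ := ∏ x : idx × idx, (PowerSeries.coeff 0 (U x.1 x.2)).den with hN
  refine ⟨N, Finset.prod_ne_zero_iff.mpr fun x _ => Rat.den_nz _, fun i j => ?_⟩
  obtain ⟨c, hc⟩ : (PowerSeries.coeff 0 (U i j)).den ∣ N :=
    Finset.dvd_prod_of_mem (fun x : idx × idx => (PowerSeries.coeff 0 (U x.1 x.2)).den)
      (mem_univ (i, j))
  refine ⟨c * (PowerSeries.coeff 0 (U i j)).num, ?_⟩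
  rw [PowerSeries.coeff_C_mul, hc]
  push_cast
  have := Rat.mul_den_eq_num (PowerSeries.coeff 0 (U i j))
  linear_combination (c : ℚ) * this

/-- The main theorem: the defect criterion at the vertices of finite order of the orbifolds of type
`(n₀, n₁, ∞)`, with a uniform bound for the degrees. -/
theorem vertex_criterion {n₀ n₁ : ℕ} (hn₀ : 0 < n₀) (hn₁ : 0 < n₁) {R δ : ℝ} (hR0 : 0 < R)
    (hR : VertexRadius n₀ n₁ R) (hδ : δ < Real.log R) : ∃ M : ℕ,
    ∀ (K : Type) [Field K] [NumberField K] (r D : ℕ) (A : Matrix (Fin r) (Fin r) (Polynomial (𝓞 K)))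
      (β : Fin r → ℚ) (U : Matrix (Fin r) (Fin r) (PowerSeries K)), D ≠ 0 →
      IsFundamentalAtZero (algebraMap (𝓞 K) K) D 1 A β U → VertexType D n₀ n₁ A →
      ∀ (S : Finset ℕ), (∀ p ∈ S, p.Prime) → (∀ p : ℕ, p.Prime → p ∣ D → p ∈ S) →
      ∀ (E : Set ℕ), Summable (sparseTerm E) → ∀ (ℓ : ℕ → ℝ), (∀ p ∈ S, 0 ≤ ℓ p) →
      (∀ p ∈ S, AdmissibleAt (algebraMap (𝓞 K) K) D 1 A β U p (ℓ p)) →
      (∀ p : ℕ, p.Prime → p ∉ S → p ∉ E → (Ideal.span {(p : 𝓞 K)}).IsRadical ∧
        ∀ (𝔭 : Ideal (𝓞 K)) [𝔭.IsMaximal], (p : 𝓞 K) ∈ 𝔭 → PCurvZeroAt 𝔭 D 1 A) →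
      defect (numExp β) S E ℓ ≤ δ →
      AlgebraicOfDegree (sysG (algebraMap (𝓞 K) K) D 1 A) M := by
  classical
  by_cases hδ0 : 0 ≤ δ
  swap
  · refine ⟨0, ?_⟩
    intro K _ _ r D A β U hD hU hA S hS hDS E hE ℓ hℓ hbad hgood hdef
    exfalso
    apply hδ0
    refine le_trans ?_ hdef
    refine add_nonneg (Finset.sum_nonneg fun p hp => mul_nonneg (hℓ p hp)
      (Real.log_nonneg (by exact_mod_cast (hS p hp).one_lt.le))) (mul_nonneg (by positivity) ?_)
    exact tsum_nonneg (outTerm_nonneg S E)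
  obtain ⟨M, hM⟩ := vert_galg hn₀ hn₁ hR0 hR hδ0 hδ
  refine ⟨M * n₀, ?_⟩
  intro K _ _ r D A β U hD hU hA S hS hDS E hE ℓ hℓ hbad hgood hdef
  obtain ⟨hdet, hUeq⟩ := hU
  rw [ccM_eq_map] at hdet
  obtain ⟨hdeg, h0, h1⟩ := hA
  have hn₀Q : (n₀ : ℚ) ≠ 0 := by exact_mod_cast hn₀.ne'
  have hDK : (D : K) ≠ 0 := by exact_mod_cast hD
  have hsol : ∀ j, IsSolG (Aps (algebraMap (𝓞 K) K) (D : K)⁻¹ 1 A) ((β j : ℚ) : K)
      (fun i => U i j) := fun j i => hUeq i j
  -- the exponents
  have hexp : ∀ j, ∃ k : Fin n₀, β j = ((k : ℕ) : ℚ) / n₀ := by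
    have e1 := ccM_mul_diag hsol
    refine vertex_exponent hn₀ hD (Z := (-(A.map fun a => a.coeff 0)).map (algebraMap (𝓞 K) K))
      ?_ hdet e1 (eigPoly_map (algebraMap (𝓞 K) K).mapMatrix h0)
    ext1 i j
    rw [Matrix.smul_apply, ccM_apply, Aps_apply, smul_eq_mul, map_mul, map_mul, map_pow,
      PowerSeries.constantCoeff_C]
    have e2 : PowerSeries.constantCoeff (wg K) = -1 := by
      unfold wg
      rw [map_neg, ← PowerSeries.coeff_zero_eq_constantCoeff_apply, PowerSeries.coeff_mk]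
    rw [e2, ← PowerSeries.coeff_zero_eq_constantCoeff_apply, Polynomial.coeff_coe,
      Polynomial.coeff_map, Matrix.map_apply, Matrix.neg_apply, Matrix.map_apply, map_neg]
    field_simp
  choose jj hjj using hexp
  have hβeq : β = fun j => ((jj j : ℕ) : ℚ) / n₀ := funext hjj
  set b := integralBasis K with hb
  set A₁ := polyLMM (RingOfIntegers.basis K) A with hA₁
  set AK := Aps (algebraMap (𝓞 K) K) (D : K)⁻¹ 1 A with hAK
  have hAres : LMM b AK = Aps (Int.castRingHom ℚ) (D : ℚ)⁻¹ 1 A₁ := by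
    have h1 : (D : K)⁻¹ = algebraMap ℚ K (D : ℚ)⁻¹ := by rw [map_inv₀, map_natCast]
    rw [hAK, h1, LMM_Aps_compat]
  set jj' : Fin r × Module.Free.ChooseBasisIndex ℤ (𝓞 K) → Fin n₀ := fun x => jj x.1 with hjj'
  set β' : Fin r × Module.Free.ChooseBasisIndex ℤ (𝓞 K) → ℚ := fun x => β x.1 with hβ'
  have hβ'eq : β' = fun x => ((jj' x : ℕ) : ℚ) / n₀ := by
    rw [hβ', hβeq]
  set U' := LMM b U with hU'def
  have hU' : ∀ y, IsSolG (Aps (Int.castRingHom ℚ) (D : ℚ)⁻¹ 1 A₁) (β' y)
      (fun x => U' x y) := by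
    intro y
    rw [← hAres]
    refine IsSolG.res b (β := β) (fun j => ?_) y
    rw [eq_ratCast]
    exact hsol j
  have hgap : ∀ i j, |β i - β j| < 1 := by
    intro i j
    have hn₀Q' : (0 : ℚ) < n₀ := by exact_mod_cast hn₀
    rw [hβeq]
    simp only
    rw [← sub_div, abs_div, abs_of_pos hn₀Q', div_lt_one hn₀Q', abs_lt]
    have h2 : ((jj i : ℕ) : ℚ) < n₀ := by exact_mod_cast (jj i).2
    have h3 : ((jj j : ℕ) : ℚ) < n₀ := by exact_mod_cast (jj j).2
    have h4 : (0 : ℚ) ≤ ((jj i : ℕ) : ℚ) := Nat.cast_nonneg _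
    have h5 : (0 : ℚ) ≤ ((jj j : ℕ) : ℚ) := Nat.cast_nonneg _
    constructor <;> linarith
  have hgap' : ∀ x y, |β' x - β' y| < 1 := fun x y => hgap _ _
  -- the local conditions
  set ℓ' : ℕ → ℝ := fun p => if p ∈ S then ℓ p else 0 with hℓ'
  have hℓS : ∀ p ∈ S, ℓ' p = ℓ p := fun p hp => if_pos hp
  have hℓ0 : ∀ p, 0 ≤ ℓ' p := by
    intro p
    by_cases h : p ∈ S
    · rw [hℓS p h]
      exact hℓ p h
    · rw [hℓ']
      simp only
      rw [if_neg h]
  have hdef' : defect (numExp fun x => ((jj' x : ℕ) : ℚ) / n₀) S E ℓ' ≤ δ := by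
    refine le_trans (le_of_eq ?_) hdef
    rw [← hβ'eq, hβ', numExp_res]
    unfold defect
    congr 1
    exact Finset.sum_congr rfl fun p hp => by rw [hℓS p hp]
  have hradU : ∀ (p : ℕ) [Fact p.Prime], p ∈ S → ∀ x y, PadicRadius p (U' x y) (ℓ' p) := by
    intro p hp hpS x y
    rw [hℓS p hpS]
    rcases hbad p hpS with h | ⟨e, h2, h1⟩
    · exact (h x.1 y.1).res x.2 y.2
    · refine explicit_radius hgap' (det_res hdet) hU' (e := e) ?_ ?_ x y
      · intro s x y hs
        rw [← hAres, conj_res hdet, LMM_apply, coeff_LM]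
        refine leftMul_norm ?_ _ _
        rw [coeff_conj]
        exact h1 s x.1 y.1 hs
      · refine le_trans ?_ h2
        have hp1 : (1 : ℝ) < p := by exact_mod_cast hp.out.one_lt
        have h3 : ((numClass β' p : ℕ) : ℝ) ≤ numClass β p := by
          exact_mod_cast numClass_res β p
        have h4 : (0 : ℝ) < p - 1 := by linarith
        gcongr
  have hgoodM : ∀ (p : ℕ) [Fact p.Prime], p ∉ S → p ∉ E →
      MG (Aps (Int.castRingHom (ZMod p)) (D : ZMod p)⁻¹ 1 A₁) p = 0 := by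
    intro p hp hpS hpE
    obtain ⟨h1, h2⟩ := hgood p hp.out hpS hpE
    exact pcurv_res (RingOfIntegers.basis K) (fun h => hpS (hDS p hp.out h))
      (fun x hx => of_isRadical hp.out.ne_zero h1 x hx) h2
  -- integral initial values
  obtain ⟨N, hN0, hintN⟩ := exists_scale U'
  have hNQ : (N : ℚ) ≠ 0 := by exact_mod_cast hN0
  have hNK : (N : K) ≠ 0 := by exact_mod_cast hN0
  set V : Matrix (Fin r × Module.Free.ChooseBasisIndex ℤ (𝓞 K))
    (Fin r × Module.Free.ChooseBasisIndex ℤ (𝓞 K)) (PowerSeries ℚ) :=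
    Matrix.of fun i j => PowerSeries.C (N : ℚ) * U' i j with hV
  have hccV : ccM V = (N : ℚ) • ccM U' := by
    ext1 i j
    rw [ccM_apply, Matrix.smul_apply, ccM_apply, hV, Matrix.of_apply, map_mul,
      PowerSeries.constantCoeff_C, smul_eq_mul]
  have hdetV : (ccM V).det ≠ 0 := by
    rw [hccV, Matrix.det_smul]
    exact mul_ne_zero (pow_ne_zero _ hNQ) (det_res hdet)
  have hVsol : ∀ j, IsSolG (Aps (Int.castRingHom ℚ) (D : ℚ)⁻¹ 1 A₁) (((jj' j : ℕ) : ℚ) / n₀)
      (fun i => V i j) := by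
    intro j
    have h2 := (hU' j).smul (N : ℚ)
    rw [hβ'eq] at h2
    exact h2
  have hint : ∀ i j, ∃ z : ℤ, PowerSeries.coeff 0 (V i j) = z := hintN
  have key := hM (Fin r × Module.Free.ChooseBasisIndex ℤ (𝓞 K)) A₁ D jj' V hD hdetV hVsol hint
    S hS hDS E hE ℓ' hℓ0 (fun p _ hp i j => (hradU p hp i j).mul_nat N) hgoodM
    (fun x y => natDegree_polyLM _ (hdeg _ _) _ _) (by
      have e1 : -(A₁.map fun a => a.coeff 0) = LM0 K r (-(A.map fun a => a.coeff 0)) := by
        rw [map_neg]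
        congr 1
        ext x y
        rw [Matrix.map_apply, hA₁, polyLMM_apply, coeff_polyLM]
        rfl
      rw [e1]
      exact eigPoly_map (LM0 K r) h0) (by
      have e1 : A₁.map (Polynomial.eval 1) = LM0 K r (A.map (Polynomial.eval 1)) := by
        rw [hA₁, LMM_apply_eval]
        rfl
      rw [e1]
      exact eigPoly_map (LM0 K r) h1) hdef'
  -- the extension
  obtain ⟨j₀⟩ : Nonempty (Module.Free.ChooseBasisIndex ℤ (𝓞 K)) := inferInstance
  have hb0 : b j₀ ≠ 0 := b.ne_zero j₀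
  set W : ((Fin r × Module.Free.ChooseBasisIndex ℤ (𝓞 K)) ×
    (Fin r × Module.Free.ChooseBasisIndex ℤ (𝓞 K))) → PowerSeries K :=
    fun x => PowerSeries.map (algebraMap ℚ K) (V x.1 x.2) with hW
  refine exists_extensionU (algebraMap (𝓞 K) K) hD 1 A hdet hsol hn₀.ne'
    (m := fun j => ((jj j : ℕ) : ℤ)) (fun j => ?_) W (fun i j => ?_) (fun c => ?_)
  · rw [hjj j, mul_div_cancel₀ _ hn₀Q]
    norm_cast
  · -- the expansion in the basis
    have hspan : U i j ∈ Submodule.span K (Set.range W) := by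
      have e1 := expand_basis (U i j) j₀
      have e2 : U i j = (b j₀)⁻¹ • ∑ a, b a • ((N : K)⁻¹ • W ((i, a), (j, j₀))) := by
        have e3 : ∀ a, b a • ((N : K)⁻¹ • W ((i, a), (j, j₀))) = PowerSeries.C (b a) *
            PowerSeries.map (algebraMap ℚ K) (LM b (U i j) a j₀) := by
          intro a
          rw [PowerSeries.smul_eq_C_mul, PowerSeries.smul_eq_C_mul, hW, hV]
          simp only [Matrix.of_apply]
          rw [map_mul, PowerSeries.map_C, map_natCast, ← mul_assoc (PowerSeries.C (N : K)⁻¹),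
            ← map_mul, inv_mul_cancel₀ hNK, map_one, one_mul, hU'def, LMM_apply]
        rw [Finset.sum_congr rfl fun a _ => e3 a, ← e1, PowerSeries.smul_eq_C_mul, ← mul_assoc,
          ← map_mul, inv_mul_cancel₀ hb0, map_one, one_mul]
      rw [e2]
      refine Submodule.smul_mem _ _ (sum_mem fun a _ => Submodule.smul_mem _ _
        (Submodule.smul_mem _ _ (Submodule.subset_span ⟨_, rfl⟩)))
    rw [Submodule.mem_span_range_iff_exists_fun] at hspan
    obtain ⟨a, ha⟩ := hspan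
    refine ⟨a, ?_⟩
    rw [← ha]
    exact Finset.sum_congr rfl fun x _ => PowerSeries.smul_eq_C_mul _ _
  · -- the degrees
    obtain ⟨P, hP0, hPd, hP⟩ := key c
    have hinj : Function.Injective (Polynomial.mapRingHom (algebraMap ℚ K)) :=
      Polynomial.map_injective _ (algebraMap ℚ K).injective
    refine ⟨P.map (Polynomial.mapRingHom (algebraMap ℚ K)), ?_, ?_, ?_⟩
    · rwa [Ne, Polynomial.map_eq_zero_iff hinj]
    · rwa [Polynomial.natDegree_map_eq_of_injective hinj]
    · have e0 : (∑ x, PowerSeries.C ((c x : ℤ) : K) * W x) =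
          PowerSeries.map (algebraMap ℚ K) (comb V c) := by
        rw [comb_map]
        refine Finset.sum_congr rfl fun x _ => ?_
        rw [map_intCast (algebraMap ℚ K)]
      have e1 : ∀ (F : Type) [Field F] (q : Polynomial F),
          algebraMap (Polynomial F) (PowerSeries F) q = (q : PowerSeries F) := by
        intro F _ q
        rw [PowerSeries.algebraMap_apply']
        ext n
        simp
      have e2 : (algebraMap (Polynomial K) (PowerSeries K)).comp
          (Polynomial.mapRingHom (algebraMap ℚ K)) =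
          (PowerSeries.map (algebraMap ℚ K)).comp (algebraMap (Polynomial ℚ) (PowerSeries ℚ)) := by
        refine RingHom.ext fun q => ?_
        rw [RingHom.comp_apply, RingHom.comp_apply, e1, e1, Polynomial.coe_mapRingHom]
        ext n
        simp
      have e3 := congrArg (PowerSeries.map (algebraMap ℚ K)) hP
      rw [Polynomial.aeval_def, map_zero, Polynomial.hom_eval₂] at e3
      rw [Polynomial.aeval_def, Polynomial.eval₂_map, e2, e0]
      exact e3

end Pool.Agent.H925
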