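import Pool.Agent.H925.TriAlg
import Pool.Agent.H925.Univ
import Pool.Agent.H925.VertK

set_option autoImplicit false

open Finset NumberField

namespace Pool.Agent.H925

open Pool.Agent.Helper338PC

/-- The system `Y' = A / (D x (x - 1)) Y` is a flat bundle on the compact orbifold of type
`(n₀, n₁, n₂)`: the entries of `A` are polynomials of degree at most one, the residues
`-A(0) / D` at `0` and `A(1) / D` at `1` are annihilated by `∏ (X - j / n)`, `0 ≤ j < n`, for
`n = n₀` and `n = n₁`, and the residue at infinity, `-A' / D`, by `∏ (X - (j - L) / n₂)`,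
`0 ≤ j < n₂`. -/
def TriType {R₀ : Type*} [CommRing R₀] {r : ℕ} (D n₀ n₁ n₂ L : ℕ)
    (A : Matrix (Fin r) (Fin r) (Polynomial R₀)) : Prop :=
  (∀ i j, (A i j).natDegree ≤ 1) ∧
    Polynomial.aeval (-(A.map fun a => a.coeff 0)) (eigPoly n₀ D) = 0 ∧
    Polynomial.aeval (A.map (Polynomial.eval 1)) (eigPoly n₁ D) = 0 ∧
    Polynomial.aeval (A.map fun a => a.coeff 1) (infPoly n₂ D L) = 0

/-- The class of the systems `Y' = A / (D x (x - 1)) Y` over the number field `K` on the compact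
orbifold of type `(n₀, n₁, n₂)` with the local data `κ`, `S`, `E`, `ℓ`: the primes which divide `D`
belong to `S`; the primes outside `S` and `E` are unramified in `K` and the `p`-curvatures are zero
at all places above them; there is a fundamental matrix at `0` with at most `κ` different exponents
which has the radius of convergence `p ^ (-ℓ p)` at the primes `p` of `S` (or satisfies a condition
which implies this). -/
structure TriClass (n₀ n₁ n₂ L κ : ℕ) (S : Finset ℕ) (E : Set ℕ) (ℓ : ℕ → ℝ) (K : Type) [Field K]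
    [NumberField K] {r : ℕ} (D : ℕ) (A : Matrix (Fin r) (Fin r) (Polynomial (𝓞 K))) : Prop where
  ne : D ≠ 0
  type : TriType D n₀ n₁ n₂ L A
  dvd : ∀ p : ℕ, p.Prime → p ∣ D → p ∈ S
  good : ∀ p : ℕ, p.Prime → p ∉ S → p ∉ E → (Ideal.span {(p : 𝓞 K)}).IsRadical ∧
    ∀ (𝔭 : Ideal (𝓞 K)) [𝔭.IsMaximal], (p : 𝓞 K) ∈ 𝔭 → PCurvZeroAt 𝔭 D 1 A
  fund : ∃ (β : Fin r → ℚ) (U : Matrix (Fin r) (Fin r) (PowerSeries K)),
    IsFundamentalAtZero (algebraMap (𝓞 K) K) D 1 A β U ∧ numExp β ≤ κ ∧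
      ∀ p ∈ S, AdmissibleAt (algebraMap (𝓞 K) K) D 1 A β U p (ℓ p)

/-- The main theorem: one finite extension of `ℂ(x)`, of bounded degree, contains all solutions
of all systems, of any rank and over any number field, on the compact orbifold of type
`(n₀, n₁, n₂)` with given local data, if the total defect is less than the logarithm of the radius
of the orbifold. -/
theorem tri_universal {n₀ n₁ n₂ : ℕ} (hn₀ : 0 < n₀) (hn₁ : 0 < n₁) (hn₂ : 0 < n₂) (L : ℕ)
    {R δ : ℝ} (hR0 : 0 < R) (hR : TriRadius n₀ n₁ n₂ R) (hδ : δ < Real.log R) : ∃ M : ℕ,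
    ∀ (κ : ℕ) (S : Finset ℕ) (E : Set ℕ) (ℓ : ℕ → ℝ), (∀ p ∈ S, p.Prime) →
      Summable (sparseTerm E) → (∀ p ∈ S, 0 ≤ ℓ p) → defect κ S E ℓ ≤ δ →
      ∃ (F : Type) (_ : Field F) (_ : Algebra (RatFunc ℂ) F) (d : Derivation ℤ F F),
        FiniteDimensional (RatFunc ℂ) F ∧ Module.finrank (RatFunc ℂ) F ≤ M ∧
        (∀ f, d (algebraMap (RatFunc ℂ) F f) = algebraMap (RatFunc ℂ) F (W432.PC.ddx ℂ f)) ∧
        ∀ (K : Type) [Field K] [NumberField K] (φ : K →+* ℂ) (r D : ℕ)
          (A : Matrix (Fin r) (Fin r) (Polynomial (𝓞 K))),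
          TriClass n₀ n₁ n₂ L κ S E ℓ K D A →
          SolvedIn (sysG (φ.comp (algebraMap (𝓞 K) K)) D 1 A) F d := by
  classical
  by_cases hδ0 : 0 ≤ δ
  swap
  · refine ⟨0, ?_⟩
    intro κ S E ℓ hS hE hℓ hdef
    exfalso
    apply hδ0
    refine le_trans ?_ hdef
    refine add_nonneg (Finset.sum_nonneg fun p hp => mul_nonneg (hℓ p hp)
      (Real.log_nonneg (by exact_mod_cast (hS p hp).one_lt.le))) (mul_nonneg (by positivity) ?_)
    exact tsum_nonneg (outTerm_nonneg S E)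
  obtain ⟨M, hM⟩ := tri_galg hn₀ hn₁ hn₂ L hR0 hR hδ0 hδ
  refine ⟨M ^ n₀ * n₀, ?_⟩
  intro κ S E ℓ hS hE hℓ hdef
  set ℓ' : ℕ → ℝ := fun p => if p ∈ S then ℓ p else 0 with hℓ'
  have hℓS : ∀ p ∈ S, ℓ' p = ℓ p := fun p hp => if_pos hp
  have hℓ0 : ∀ p, 0 ≤ ℓ' p := by
    intro p
    by_cases h : p ∈ S
    · rw [hℓS p h]
      exact hℓ p h
    · rw [hℓ']
      simp only
      rw [if_neg h]
  have hdef' : defect κ S E ℓ' ≤ δ := by
    refine le_trans (le_of_eq ?_) hdef
    unfold defect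
    congr 1
    exact Finset.sum_congr rfl fun p hp => by rw [hℓS p hp]
  obtain ⟨G, hG1, hG2⟩ := hM κ S hS E hE ℓ' hℓ0 hdef'
  obtain ⟨F, i1, i2, d, hfd, hfr, hd, huniv⟩ := exists_universal hn₀.ne' G hG1
  refine ⟨F, i1, i2, d, hfd, hfr, hd, ?_⟩
  intro K _ _ φ r D A hA
  obtain ⟨hD, ⟨hdeg, h0, h1, h2⟩, hDS, hgood, β, U, ⟨hdet, hUeq⟩, hκ, hbad⟩ := hA
  rw [ccM_eq_map] at hdet
  have hn₀Q : (n₀ : ℚ) ≠ 0 := by exact_mod_cast hn₀.ne'
  have hDK : (D : K) ≠ 0 := by exact_mod_cast hD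
  have hsol : ∀ j, IsSolG (Aps (algebraMap (𝓞 K) K) (D : K)⁻¹ 1 A) ((β j : ℚ) : K)
      (fun i => U i j) := fun j i => hUeq i j
  -- the exponents
  have hexp : ∀ j, ∃ k : Fin n₀, β j = ((k : ℕ) : ℚ) / n₀ := by
    have e1 := ccM_mul_diag hsol
    refine vertex_exponent hn₀ hD (Z := (-(A.map fun a => a.coeff 0)).map (algebraMap (𝓞 K) K))
      ?_ hdet e1 (eigPoly_map (algebraMap (𝓞 K) K).mapMatrix h0)
    ext1 i j
    rw [Matrix.smul_apply, ccM_apply, Aps_apply, smul_eq_mul, map_mul, map_mul, map_pow,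
      PowerSeries.constantCoeff_C]
    have e2 : PowerSeries.constantCoeff (wg K) = -1 := by
      unfold wg
      rw [map_neg, ← PowerSeries.coeff_zero_eq_constantCoeff_apply, PowerSeries.coeff_mk]
    rw [e2, ← PowerSeries.coeff_zero_eq_constantCoeff_apply, Polynomial.coeff_coe,
      Polynomial.coeff_map, Matrix.map_apply, Matrix.neg_apply, Matrix.map_apply, map_neg]
    field_simp
  choose jj hjj using hexp
  have hβeq : β = fun j => ((jj j : ℕ) : ℚ) / n₀ := funext hjj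
  set b := integralBasis K with hb
  set A₁ := polyLMM (RingOfIntegers.basis K) A with hA₁
  set AK := Aps (algebraMap (𝓞 K) K) (D : K)⁻¹ 1 A with hAK
  have hAres : LMM b AK = Aps (Int.castRingHom ℚ) (D : ℚ)⁻¹ 1 A₁ := by
    have h1 : (D : K)⁻¹ = algebraMap ℚ K (D : ℚ)⁻¹ := by rw [map_inv₀, map_natCast]
    rw [hAK, h1, LMM_Aps_compat]
  set jj' : Fin r × Module.Free.ChooseBasisIndex ℤ (𝓞 K) → Fin n₀ := fun x => jj x.1 with hjj'
  set β' : Fin r × Module.Free.ChooseBasisIndex ℤ (𝓞 K) → ℚ := fun x => β x.1 with hβ'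
  have hβ'eq : β' = fun x => ((jj' x : ℕ) : ℚ) / n₀ := by
    rw [hβ', hβeq]
  set U' := LMM b U with hU'def
  have hU' : ∀ y, IsSolG (Aps (Int.castRingHom ℚ) (D : ℚ)⁻¹ 1 A₁) (β' y)
      (fun x => U' x y) := by
    intro y
    rw [← hAres]
    refine IsSolG.res b (β := β) (fun j => ?_) y
    rw [eq_ratCast]
    exact hsol j
  have hgap : ∀ i j, |β i - β j| < 1 := by
    intro i j
    have hn₀Q' : (0 : ℚ) < n₀ := by exact_mod_cast hn₀
    rw [hβeq]
    simp only
    rw [← sub_div, abs_div, abs_of_pos hn₀Q', div_lt_one hn₀Q', abs_lt]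
    have h2 : ((jj i : ℕ) : ℚ) < n₀ := by exact_mod_cast (jj i).2
    have h3 : ((jj j : ℕ) : ℚ) < n₀ := by exact_mod_cast (jj j).2
    have h4 : (0 : ℚ) ≤ ((jj i : ℕ) : ℚ) := Nat.cast_nonneg _
    have h5 : (0 : ℚ) ≤ ((jj j : ℕ) : ℚ) := Nat.cast_nonneg _
    constructor <;> linarith
  have hgap' : ∀ x y, |β' x - β' y| < 1 := fun x y => hgap _ _
  have hκ' : numExp (fun x => ((jj' x : ℕ) : ℚ) / n₀) ≤ κ := by
    rw [← hβ'eq, hβ', numExp_res]
    exact hκ
  have hradU : ∀ (p : ℕ) [Fact p.Prime], p ∈ S → ∀ x y, PadicRadius p (U' x y) (ℓ' p) := by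
    intro p hp hpS x y
    rw [hℓS p hpS]
    rcases hbad p hpS with h | ⟨e, h2, h1⟩
    · exact (h x.1 y.1).res x.2 y.2
    · refine explicit_radius hgap' (det_res hdet) hU' (e := e) ?_ ?_ x y
      · intro s x y hs
        rw [← hAres, conj_res hdet, LMM_apply, coeff_LM]
        refine leftMul_norm ?_ _ _
        rw [coeff_conj]
        exact h1 s x.1 y.1 hs
      · refine le_trans ?_ h2
        have hp1 : (1 : ℝ) < p := by exact_mod_cast hp.out.one_lt
        have h3 : ((numClass β' p : ℕ) : ℝ) ≤ numClass β p := by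
          exact_mod_cast numClass_res β p
        have h4 : (0 : ℝ) < p - 1 := by linarith
        gcongr
  have hgoodM : ∀ (p : ℕ) [Fact p.Prime], p ∉ S → p ∉ E →
      MG (Aps (Int.castRingHom (ZMod p)) (D : ZMod p)⁻¹ 1 A₁) p = 0 := by
    intro p hp hpS hpE
    obtain ⟨h1, h2⟩ := hgood p hp.out hpS hpE
    exact pcurv_res (RingOfIntegers.basis K) (fun h => hpS (hDS p hp.out h))
      (fun x hx => of_isRadical hp.out.ne_zero h1 x hx) h2
  -- integral initial values
  obtain ⟨N, hN0, hintN⟩ := exists_scale U'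
  have hNQ : (N : ℚ) ≠ 0 := by exact_mod_cast hN0
  set V : Matrix (Fin r × Module.Free.ChooseBasisIndex ℤ (𝓞 K))
    (Fin r × Module.Free.ChooseBasisIndex ℤ (𝓞 K)) (PowerSeries ℚ) :=
    Matrix.of fun i j => PowerSeries.C (N : ℚ) * U' i j with hV
  have hccV : ccM V = (N : ℚ) • ccM U' := by
    ext1 i j
    rw [ccM_apply, Matrix.smul_apply, ccM_apply, hV, Matrix.of_apply, map_mul,
      PowerSeries.constantCoeff_C, smul_eq_mul]
  have hdetV : (ccM V).det ≠ 0 := by
    rw [hccV, Matrix.det_smul]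
    exact mul_ne_zero (pow_ne_zero _ hNQ) (det_res hdet)
  have hVsol : ∀ j, IsSolG (Aps (Int.castRingHom ℚ) (D : ℚ)⁻¹ 1 A₁) (((jj' j : ℕ) : ℚ) / n₀)
      (fun i => V i j) := by
    intro j
    have h2 := (hU' j).smul (N : ℚ)
    rw [hβ'eq] at h2
    exact h2
  have hint : ∀ i j, ∃ z : ℤ, PowerSeries.coeff 0 (V i j) = z := hintN
  have key := hG2 (Fin r × Module.Free.ChooseBasisIndex ℤ (𝓞 K)) A₁ D jj' V hD hdetV hVsol hint
    hDS (fun p _ hp i j => (hradU p hp i j).mul_nat N) hgoodM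
    (fun x y => natDegree_polyLM _ (hdeg _ _) _ _) (by
      have e1 : -(A₁.map fun a => a.coeff 0) = LM0 K r (-(A.map fun a => a.coeff 0)) := by
        rw [map_neg]
        congr 1
        ext x y
        rw [Matrix.map_apply, hA₁, polyLMM_apply, coeff_polyLM]
        rfl
      rw [e1]
      exact eigPoly_map (LM0 K r) h0) (by
      have e1 : A₁.map (Polynomial.eval 1) = LM0 K r (A.map (Polynomial.eval 1)) := by
        rw [hA₁, LMM_apply_eval]
        rfl
      rw [e1]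
      exact eigPoly_map (LM0 K r) h1) (by
      have e1 : (A₁.map fun a => a.coeff 1) = LM0 K r (A.map fun a => a.coeff 1) := by
        ext x y
        rw [Matrix.map_apply, hA₁, polyLMM_apply, coeff_polyLM]
        rfl
      rw [e1]
      exact infPoly_map (LM0 K r) h2) hκ'
  -- the complex system
  obtain ⟨j₀⟩ : Nonempty (Module.Free.ChooseBasisIndex ℤ (𝓞 K)) := inferInstance
  have hb0 : b j₀ ≠ 0 := b.ne_zero j₀
  have hφ0 : φ (b j₀) ≠ 0 := by rwa [Ne, map_eq_zero]
  have hNC : (N : ℂ) ≠ 0 := by exact_mod_cast hN0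
  set UC : Matrix (Fin r) (Fin r) (PowerSeries ℂ) := U.map (PowerSeries.map φ) with hUC
  refine huniv (𝓞 K) (φ.comp (algebraMap (𝓞 K) K)) D 1 r A jj UC hD ?_ ?_ ?_
  · have e1 : ccM UC = (ccM U).map φ := by
      ext1 i j
      rw [ccM_apply, hUC, Matrix.map_apply, Matrix.map_apply, ccM_apply,
        ← PowerSeries.coeff_zero_eq_constantCoeff_apply, PowerSeries.coeff_map,
        PowerSeries.coeff_zero_eq_constantCoeff_apply]
    have e2 : ((ccM U).map φ).det = φ (ccM U).det := (RingHom.map_det φ _).symm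
    rw [e1, e2, Ne, map_eq_zero]
    exact hdet
  · intro j
    have h3 := (hsol j).map φ
    rw [hAK, Aps_map, map_inv₀, map_natCast] at h3
    have h4 : φ ((β j : ℚ) : K) = ((((jj j : ℕ) : ℚ) / n₀ : ℚ) : ℂ) := by
      rw [map_ratCast, hjj]
    rw [h4] at h3
    exact h3
  · intro i j
    refine ⟨Module.Free.ChooseBasisIndex ℤ (𝓞 K), inferInstance,
      fun x => (φ (b j₀))⁻¹ * φ (b x) * (N : ℂ)⁻¹, fun x => V (i, x) (j, j₀),
      fun x => key (i, x) (j, j₀), ?_⟩
    have e1 := congrArg (PowerSeries.map φ) (expand_basis (U i j) j₀)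
    rw [map_mul, map_sum, PowerSeries.map_C] at e1
    have e2 : ∀ x, PowerSeries.map φ (PowerSeries.C (b x) *
        PowerSeries.map (algebraMap ℚ K) (LM b (U i j) x j₀)) =
        PowerSeries.C (φ (b x) * (N : ℂ)⁻¹) *
          PowerSeries.map (algebraMap ℚ ℂ) (V (i, x) (j, j₀)) := by
      intro x
      have hVx : PowerSeries.map (algebraMap ℚ ℂ) (V (i, x) (j, j₀)) =
          PowerSeries.C (N : ℂ) * PowerSeries.map (algebraMap ℚ ℂ) (LM b (U i j) x j₀) := by
        have e5 : V (i, x) (j, j₀) = PowerSeries.C (N : ℚ) * LM b (U i j) x j₀ := by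
          rw [hV, Matrix.of_apply, hU'def, LMM_apply]
        rw [e5, map_mul, PowerSeries.map_C, map_natCast]
      have hcomp : ∀ f : PowerSeries ℚ, PowerSeries.map φ (PowerSeries.map (algebraMap ℚ K) f) =
          PowerSeries.map (algebraMap ℚ ℂ) f := by
        intro f
        ext n
        rw [PowerSeries.coeff_map, PowerSeries.coeff_map, PowerSeries.coeff_map]
        have e4 : φ.comp (algebraMap ℚ K) = algebraMap ℚ ℂ := Subsingleton.elim _ _
        exact RingHom.congr_fun e4 _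
      rw [map_mul, PowerSeries.map_C, hVx, hcomp, ← mul_assoc, ← map_mul, mul_assoc (φ (b x)),
        inv_mul_cancel₀ hNC, mul_one]
    rw [Finset.sum_congr rfl fun x _ => e2 x] at e1
    have e3 : UC i j = PowerSeries.C (φ (b j₀))⁻¹ *
        (PowerSeries.C (φ (b j₀)) * PowerSeries.map φ (U i j)) := by
      rw [← mul_assoc, ← map_mul, inv_mul_cancel₀ hφ0, map_one, one_mul]
      rfl
    rw [e3, e1, Finset.mul_sum]
    refine Finset.sum_congr rfl fun x _ => ?_
    rw [← mul_assoc, ← map_mul]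
    congr 2
    ring

end Pool.Agent.H925
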