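import Pool.Agent.H925.CuspTri
import Pool.Agent.H925.Num6
import Pool.Agent.H925.MaxRad
import Pool.Agent.H925.TriK

set_option autoImplicit false

open Finset NumberField

namespace Pool.Agent.H925

open Pool.Agent.Helper338PC

/-- The loss at the prime `p` which is caused by `c` exponents in one class modulo the `p`-integral
numbers: `∑_{h ≥ 1} min(c, p ^ h) / p ^ h`. -/
noncomputable def padicCost (p c : ℕ) : ℝ :=
  Nat.log p c + c / ((p : ℝ) ^ Nat.log p c * ((p : ℝ) - 1))

/-- The defect of the class of the systems `Y' = (b / (n x) + C / (N (x - 1))) Y` with at most `k`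
different entries of `b`: at the primes `p` which divide `N n` the loss is at most `p ^ e` in each step,
where `p ^ e` divides `N` exactly, and there are at most `n / p ^ v` exponents in a class, where `p ^ v`
divides `n` exactly. -/
noncomputable def classDefect (n N k : ℕ) (ε : ℝ) : ℝ :=
  ∑ p ∈ (N * n).primeFactors, ((N.factorization p : ℝ) +
      padicCost p (min k (n / p ^ n.factorization p))) * Real.log p +
    k * (∑' p : ℕ, outTerm (N * n).primeFactors ∅ p + ε)

/-- The class of the systems `Y' = (b / (n x) + C / (N (x - 1))) Y` over the number field `K`: `b` is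
diagonal with at most `k` different entries, which are natural numbers less than `n`; `C` has entries
in the ring of integers; the residue `C / N` at `1` is annihilated by `∏ (X - j / n₁)`,
`0 ≤ j < n₁`, and the residue at infinity, `-(b / n + C / N)`, by `∏ (X - (j - L) / n₂)`,
`0 ≤ j < n₂`; the primes `p` which do not divide `N n` and do not belong to `E` are unramified in `K`
and the `p`-curvatures are zero at all places above them. -/
structure ExplicitClass (n n₁ n₂ N k L : ℕ) (E : Set ℕ) (K : Type) [Field K] [NumberField K]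
    {r : ℕ} (b : Fin r → ℕ) (C : Matrix (Fin r) (Fin r) (𝓞 K)) : Prop where
  lt : ∀ i, b i < n
  card : (univ.image b).card ≤ k
  one : Polynomial.aeval C (eigPoly n₁ N) = 0
  inf : Polynomial.aeval (Matrix.diagonal (fun i => ((N * b i : ℕ) : 𝓞 K)) + (n : 𝓞 K) • C)
    (infPoly n₂ (N * n) L) = 0
  good : ∀ p : ℕ, p.Prime → ¬ p ∣ N * n → p ∉ E → (Ideal.span {(p : 𝓞 K)}).IsRadical ∧
    ∀ (𝔭 : Ideal (𝓞 K)) [𝔭.IsMaximal], (p : 𝓞 K) ∈ 𝔭 → PCurvZeroAt 𝔭 (N * n) 1 (vfam N n b C)

section aux

variable {r : ℕ}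

lemma vfam_coeff_one {R : Type*} [CommRing R] (d₀ d₁ : ℕ) (b : Fin r → ℕ)
    (P : Matrix (Fin r) (Fin r) R) :
    ((vfam d₀ d₁ b P).map fun a => a.coeff 1) =
      Matrix.diagonal (fun i => ((d₀ * b i : ℕ) : R)) + (d₁ : R) • P := by
  ext1 i j
  unfold vfam
  rw [Matrix.map_apply, Matrix.of_apply, Polynomial.coeff_add, Polynomial.coeff_C_mul,
    Polynomial.coeff_X_one, mul_one, Matrix.add_apply, Matrix.diagonal_apply, Matrix.smul_apply,
    smul_eq_mul]
  congr 1
  split_ifs
  · rw [Polynomial.coeff_C_mul, Polynomial.coeff_sub, Polynomial.coeff_X_one,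
      Polynomial.coeff_one, if_neg (by norm_num), sub_zero, mul_one]
  · rw [Polynomial.coeff_zero]

lemma aeval_smul_eigPoly {R : Type*} [CommRing R] (n n₁ N : ℕ) (P : Matrix (Fin r) (Fin r) R)
    (h : Polynomial.aeval P (eigPoly n₁ N) = 0) :
    Polynomial.aeval ((n : R) • P) (eigPoly n₁ (N * n)) = 0 := by
  have e1 : (eigPoly n₁ (N * n)).comp (Polynomial.C (n : ℤ) * Polynomial.X) =
      (Polynomial.C (n : ℤ)) ^ n₁ * eigPoly n₁ N := by
    unfold eigPoly
    have e2 : (Polynomial.C (n : ℤ)) ^ n₁ = ∏ _j ∈ range n₁, Polynomial.C (n : ℤ) := by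
      rw [Finset.prod_const, Finset.card_range]
    rw [Polynomial.prod_comp, e2, ← Finset.prod_mul_distrib]
    refine Finset.prod_congr rfl fun j _ => ?_
    rw [Polynomial.sub_comp, Polynomial.mul_comp, Polynomial.C_comp, Polynomial.C_comp,
      Polynomial.X_comp]
    simp only [Nat.cast_mul, map_mul]
    ring
  have e3 : Polynomial.aeval P (Polynomial.C (n : ℤ) * Polynomial.X) = (n : R) • P := by
    rw [map_mul, Polynomial.aeval_C, Polynomial.aeval_X, Algebra.algebraMap_eq_smul_one,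
      smul_mul_assoc, one_mul]
    ext1 i j
    rw [Matrix.smul_apply, Matrix.smul_apply, zsmul_eq_mul, smul_eq_mul, Int.cast_natCast]
  rw [← e3, ← Polynomial.aeval_comp, e1, map_mul, h, mul_zero]

lemma vfam_triType {R : Type*} [CommRing R] {n n₁ n₂ N L : ℕ} {b : Fin r → ℕ}
    (hb : ∀ i, b i < n) {P : Matrix (Fin r) (Fin r) R}
    (h1 : Polynomial.aeval P (eigPoly n₁ N) = 0)
    (h2 : Polynomial.aeval (Matrix.diagonal (fun i => ((N * b i : ℕ) : R)) + (n : R) • P)
      (infPoly n₂ (N * n) L) = 0) : TriType (N * n) n n₁ n₂ L (vfam N n b P) := by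
  refine ⟨fun i j => vfam_natDegree N n b P i j, ?_, ?_, ?_⟩
  · rw [vfam_coeff_zero, aeval_diagonal]
    ext1 i j
    rw [Matrix.diagonal_apply, Matrix.zero_apply]
    split_ifs
    · unfold eigPoly
      rw [map_prod]
      refine Finset.prod_eq_zero (Finset.mem_range.mpr (hb i)) ?_
      simp only [map_sub, map_mul, map_natCast, Polynomial.aeval_X]
      push_cast
      ring
    · rfl
  · rw [vfam_eval_one]
    exact aeval_smul_eigPoly n n₁ N P h1
  · rw [vfam_coeff_one]
    exact h2

lemma numExp_le_card (n : ℕ) (b : Fin r → ℕ) :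
    numExp (fun i => (b i : ℚ) / (n : ℚ)) ≤ (univ.image b).card := by
  unfold numExp
  have h2 : (univ.image fun i => (b i : ℚ) / (n : ℚ)) =
      (univ.image b).image fun x : ℕ => (x : ℚ) / n := by
    rw [Finset.image_image]
    rfl
  rw [h2]
  exact Finset.card_image_le

lemma numClass_le_div {n p : ℕ} (hn : 0 < n) (hp : p.Prime) {b : Fin r → ℕ}
    (hb : ∀ i, b i < n) :
    numClass (fun i => (b i : ℚ) / (n : ℚ)) p ≤ n / p ^ n.factorization p := by
  set P := p ^ n.factorization p with hP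
  have hP0 : 0 < P := pow_pos hp.pos _
  have hPn : P ∣ n := Nat.ordProj_dvd n p
  have hnQ : (n : ℚ) ≠ 0 := by exact_mod_cast hn.ne'
  unfold numClass
  refine Finset.sup_le fun i _ => ?_
  have hsub : ((univ.image fun i => (b i : ℚ) / (n : ℚ)).filter
      fun x => ¬ p ∣ (x - (b i : ℚ) / (n : ℚ)).den) ⊆
      ((univ.image b).filter fun y => y % P = b i % P).image fun x : ℕ => (x : ℚ) / n := by
    intro x hx
    rw [Finset.mem_filter, Finset.mem_image] at hx
    obtain ⟨⟨j, _, rfl⟩, h2⟩ := hx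
    rw [Finset.mem_image]
    refine ⟨b j, ?_, rfl⟩
    rw [Finset.mem_filter]
    refine ⟨Finset.mem_image_of_mem _ (Finset.mem_univ j), ?_⟩
    set q : ℚ := (b j : ℚ) / (n : ℚ) - (b i : ℚ) / (n : ℚ) with hq
    have h3 : (q.num : ℚ) * n = ((b j : ℤ) - b i : ℤ) * q.den := by
      have h4 : (q.num : ℚ) = q * q.den := (Rat.mul_den_eq_num q).symm
      rw [h4, hq]
      push_cast
      field_simp
    have h5 : q.num * n = ((b j : ℤ) - b i) * q.den := by exact_mod_cast h3
    have h6 : (P : ℤ) ∣ ((b j : ℤ) - b i) * q.den := by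
      rw [← h5]
      exact Dvd.dvd.mul_left (by exact_mod_cast hPn) _
    have h7 : IsCoprime (P : ℤ) (q.den : ℤ) := by
      rw [Nat.isCoprime_iff_coprime]
      exact Nat.Coprime.pow_left _ ((Nat.Prime.coprime_iff_not_dvd hp).mpr h2)
    have h8 : (P : ℤ) ∣ (b j : ℤ) - b i := h7.dvd_of_dvd_mul_right h6
    have h9 : b i ≡ b j [MOD P] := (Nat.modEq_iff_dvd).mpr h8
    exact h9.symm
  refine (Finset.card_le_card hsub).trans (Finset.card_image_le.trans ?_)
  have hcard : ((univ.image b).filter fun y => y % P = b i % P).card ≤ (range (n / P)).card := by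
    refine Finset.card_le_card_of_injOn (fun y => y / P) ?_ ?_
    · intro y hy
      rw [Finset.mem_coe, Finset.mem_filter, Finset.mem_image] at hy
      obtain ⟨⟨j, _, rfl⟩, -⟩ := hy
      rw [Finset.mem_coe, Finset.mem_range]
      exact Nat.div_lt_div_of_lt_of_dvd hPn (hb j)
    · intro y hy z hz hyz
      rw [Finset.mem_coe, Finset.mem_filter] at hy hz
      have h1 := Nat.mod_add_div y P
      have h2 := Nat.mod_add_div z P
      rw [hy.2] at h1
      rw [hz.2] at h2
      simp only at hyz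
      rw [← h1, ← h2, hyz]
  rwa [Finset.card_range] at hcard

lemma numClass_le_min {n p k : ℕ} (hn : 0 < n) (hp : p.Prime) {b : Fin r → ℕ}
    (hb : ∀ i, b i < n) (hk : (univ.image b).card ≤ k) :
    numClass (fun i => (b i : ℚ) / (n : ℚ)) p ≤ min k (n / p ^ n.factorization p) :=
  le_min ((numClass_le_numExp _ _).trans ((numExp_le_card n b).trans hk))
    (numClass_le_div hn hp hb)

lemma padicCost_nonneg {p : ℕ} (hp : p.Prime) (c : ℕ) : 0 ≤ padicCost p c := by
  unfold padicCost
  have h5 : (1 : ℝ) < (p : ℝ) := by exact_mod_cast hp.one_lt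
  have h7 : (0 : ℝ) < (p : ℝ) - 1 := by linarith
  positivity

/-- The explicit systems have the local data of the class. -/
lemma explicit_tri {n n₁ n₂ N k L : ℕ} (hn : 0 < n) (hN : 0 < N) {E : Set ℕ} {K : Type} [Field K]
    [NumberField K] {b : Fin r → ℕ} {C : Matrix (Fin r) (Fin r) (𝓞 K)}
    (h : ExplicitClass n n₁ n₂ N k L E K b C) :
    TriClass n n₁ n₂ L k (N * n).primeFactors E
      (fun p => (N.factorization p : ℝ) + padicCost p (min k (n / p ^ n.factorization p))) K
      (N * n) (vfam N n b C) := by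
  classical
  obtain ⟨hb, hk, h1, h2, hgood⟩ := h
  have hD : N * n ≠ 0 := Nat.mul_ne_zero hN.ne' hn.ne'
  have hd : N * n = n * N := mul_comm _ _
  have hnQ : (0 : ℚ) < n := by exact_mod_cast hn
  have hA : ∀ i l, PowerSeries.coeff 0 (Aps (algebraMap (𝓞 K) K)
      (((N * n : ℕ) : K)⁻¹) 1 (vfam N n b C) i l) =
        if i = l then (((b i : ℚ) / (n : ℚ) : ℚ) : K) else 0 := by
    intro i l
    rw [coeff_Aps_vfam _ hd hD, if_pos rfl]
    split_ifs
    · push_cast
      rfl
    · rfl
  have hgap : ∀ i j, |(b i : ℚ) / (n : ℚ) - (b j : ℚ) / (n : ℚ)| < 1 := by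
    intro i j
    rw [← sub_div, abs_div, abs_of_pos hnQ, div_lt_one hnQ, abs_lt]
    have h1 : (b i : ℚ) < n := by exact_mod_cast hb i
    have h2 : (b j : ℚ) < n := by exact_mod_cast hb j
    have h3 : (0 : ℚ) ≤ b i := by positivity
    have h4 : (0 : ℚ) ≤ b j := by positivity
    constructor <;> linarith
  have hne : ∀ (s : ℕ) i j, s ≠ 0 →
      (s : ℚ) + ((b j : ℚ) / (n : ℚ) - (b i : ℚ) / (n : ℚ)) ≠ 0 := by
    intro s i j hs h1
    have h3 := (abs_lt.mp (hgap i j)).2
    have h4 : (1 : ℚ) ≤ s := by exact_mod_cast Nat.one_le_iff_ne_zero.mpr hs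
    linarith
  have hβ : ∀ (s : ℕ) i j, s ≠ 0 →
      (s : K) + (((b j : ℚ) / (n : ℚ) : ℚ) : K) - (((b i : ℚ) / (n : ℚ) : ℚ) : K) ≠ 0 := by
    intro s i j hs h
    have h1 : (s : ℚ) + ((b j : ℚ) / (n : ℚ) - (b i : ℚ) / (n : ℚ)) = 0 := by
      have h2 : (((s : ℚ) + ((b j : ℚ) / (n : ℚ) - (b i : ℚ) / (n : ℚ)) : ℚ) : K) =
          ((0 : ℚ) : K) := by
        push_cast at h ⊢
        rw [← add_sub_assoc]
        exact h
      exact_mod_cast h2
    exact hne s i j hs h1
  obtain ⟨U, hU0, hU⟩ := exists_U (K := K) (β := fun i => (((b i : ℚ) / (n : ℚ) : ℚ) : K)) hA hβ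
  refine ⟨hD, vfam_triType hb h1 h2, fun p hp hd => Nat.mem_primeFactors.mpr ⟨hp, hd, hD⟩, ?_,
    (fun i => (b i : ℚ) / (n : ℚ)), U, ⟨?_, fun i j => hU j i⟩,
    (numExp_le_card n b).trans hk, ?_⟩
  · intro p hp hpS hpE
    exact hgood p hp (fun hd => hpS (Nat.mem_primeFactors.mpr ⟨hp, hd, hD⟩)) hpE
  · rw [hU0, Matrix.det_one]
    exact one_ne_zero
  · intro p hpS
    have hp : p.Prime := (Nat.mem_primeFactors.mp hpS).1
    refine Or.inl fun i j => radius_max (β := fun i => (b i : ℚ) / (n : ℚ)) hp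
      (fun i j => hU j i) hA (fun i j => ?_) (fun t i j ht => hne t i j ht)
      (e := N.factorization p) (fun s i l hs => ?_) (numClass_le_min hn hp hb hk) ?_ i j
    · have e1 : PowerSeries.coeff 0 (U i j) = (U.map PowerSeries.constantCoeff) i j := by
        rw [Matrix.map_apply, PowerSeries.coeff_zero_eq_constantCoeff_apply]
      rw [e1, hU0, Matrix.one_apply]
      split_ifs
      · exact padic_one hp
      · exact padic_zero hp
    · rw [coeff_Aps_vfam _ hd hD, if_neg hs]
      refine ⟨N / p ^ N.factorization p, Nat.not_dvd_ordCompl hp hN.ne', ?_⟩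
      have hNK : (N : K) ≠ 0 := by exact_mod_cast hN.ne'
      have h3 : (N / p ^ N.factorization p) * p ^ N.factorization p = N :=
        Nat.div_mul_cancel (Nat.ordProj_dvd N p)
      have h4 : (((N / p ^ N.factorization p : ℕ)) : K) * (p : K) ^ N.factorization p = N := by
        exact_mod_cast congrArg (Nat.cast : ℕ → K) h3
      have h5 : (((N / p ^ N.factorization p : ℕ)) : K) * (p : K) ^ N.factorization p *
          -(algebraMap (𝓞 K) K (C i l) / N) = algebraMap (𝓞 K) K (-(C i l)) := by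
        rw [h4, map_neg]
        field_simp
      rw [h5]
      exact RingOfIntegers.isIntegral_coe _
    · exact le_refl _

end aux

/-- The master theorem for the explicit classes. -/
theorem explicit_universal {n n₁ n₂ N : ℕ} (hn : 0 < n) (hn₁ : 0 < n₁) (hn₂ : 0 < n₂)
    (hN : 0 < N) (k L : ℕ) {ε R : ℝ} (hR0 : 0 < R) (hR : TriRadius n n₁ n₂ R)
    (h : classDefect n N k ε < Real.log R) : ∃ M : ℕ, ∀ E : Set ℕ, Summable (sparseTerm E) →
      ∑' p : ℕ, sparseTerm E p ≤ ε →
      ∃ (F : Type) (_ : Field F) (_ : Algebra (RatFunc ℂ) F) (d : Derivation ℤ F F),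
        FiniteDimensional (RatFunc ℂ) F ∧ Module.finrank (RatFunc ℂ) F ≤ M ∧
        (∀ f, d (algebraMap (RatFunc ℂ) F f) = algebraMap (RatFunc ℂ) F (W432.PC.ddx ℂ f)) ∧
        ∀ (K : Type) [Field K] [NumberField K] (φ : K →+* ℂ) (r : ℕ) (b : Fin r → ℕ)
          (C : Matrix (Fin r) (Fin r) (𝓞 K)), ExplicitClass n n₁ n₂ N k L E K b C →
          SolvedIn (sysG (φ.comp (algebraMap (𝓞 K) K)) (N * n) 1 (vfam N n b C)) F d := by
  obtain ⟨M, hM⟩ := tri_universal hn hn₁ hn₂ L hR0 hR h
  refine ⟨M, ?_⟩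
  intro E hE hEε
  have hS : ∀ p ∈ (N * n).primeFactors, p.Prime := fun p hp => (Nat.mem_primeFactors.mp hp).1
  obtain ⟨F, i1, i2, d, h1, h2, h3, h4⟩ := hM k (N * n).primeFactors E
    (fun p => (N.factorization p : ℝ) + padicCost p (min k (n / p ^ n.factorization p))) hS hE
    (fun p hp => add_nonneg (Nat.cast_nonneg _) (padicCost_nonneg (hS p hp) _)) (by
      unfold defect classDefect
      have h5 := tsum_outTerm_le (S := (N * n).primeFactors) hE le_rfl hEε
      have h6 : (k : ℝ) * ∑' p : ℕ, outTerm (N * n).primeFactors E p ≤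
          k * (∑' p : ℕ, outTerm (N * n).primeFactors ∅ p + ε) :=
        mul_le_mul_of_nonneg_left h5 (Nat.cast_nonneg _)
      linarith)
  exact ⟨F, i1, i2, d, h1, h2, h3, fun K _ _ φ r b C hC =>
    h4 K φ r (N * n) (vfam N n b C) (explicit_tri hn hN hC)⟩

end Pool.Agent.H925
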