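import Pool.Agent.H925.Expl

set_option autoImplicit false

open Finset NumberField

namespace Pool.Agent.H925

open Pool.Agent.Helper338PC

/-- One finite extension of `ℂ(x)` contains full sets of solutions of all the systems of the class
`ExplicitClass n n₁ n₂ N k L E` over all number fields and of all ranks, for every sparse set `E` of
primes with `∑_{p ∈ E} log p / (p - 1) ≤ ε`; the degree of the extension is bounded independently
of `E`. -/
def ClassSolved (n n₁ n₂ N k : ℕ) (ε : ℝ) : Prop :=
  ∀ L : ℕ, ∃ M : ℕ, ∀ E : Set ℕ, Summable (sparseTerm E) → ∑' p : ℕ, sparseTerm E p ≤ ε →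
    ∃ (F : Type) (_ : Field F) (_ : Algebra (RatFunc ℂ) F) (d : Derivation ℤ F F),
      FiniteDimensional (RatFunc ℂ) F ∧ Module.finrank (RatFunc ℂ) F ≤ M ∧
      (∀ f, d (algebraMap (RatFunc ℂ) F f) = algebraMap (RatFunc ℂ) F (W432.PC.ddx ℂ f)) ∧
      ∀ (K : Type) [Field K] [NumberField K] (φ : K →+* ℂ) (r : ℕ) (b : Fin r → ℕ)
        (C : Matrix (Fin r) (Fin r) (𝓞 K)), ExplicitClass n n₁ n₂ N k L E K b C →
        SolvedIn (sysG (φ.comp (algebraMap (𝓞 K) K)) (N * n) 1 (vfam N n b C)) F d

/-- The master theorem: the explicit inequality. -/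
theorem classSolved {n n₁ n₂ N : ℕ} (hn : 0 < n) (hn₁ : 0 < n₁) (hn₂ : 0 < n₂) (hN : 0 < N) (k : ℕ)
    {ε : ℝ} (h : classDefect n N k ε < Real.log (triRadius n₁ n₂)) :
    ClassSolved n n₁ n₂ N k ε := by
  intro L
  have hpos := triRadius_pos n₁ n₂
  have h3 : Real.exp (classDefect n N k ε) < triRadius n₁ n₂ := by
    calc _ < Real.exp (Real.log (triRadius n₁ n₂)) := Real.exp_lt_exp.mpr h
      _ = triRadius n₁ n₂ := Real.exp_log hpos
  obtain ⟨R, hR1, hR2⟩ := exists_between h3
  have hR0 : 0 < R := (Real.exp_pos _).trans hR1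
  refine explicit_universal hn hn₁ hn₂ hN k L hR0 (tri_of_lt hn hn₁ hn₂ hR2) ?_
  rw [Real.lt_log_iff_exp_lt hR0]
  exact hR1

section instances

lemma fact_eval {a p m : ℕ} (h : Nat.beq (a.factorization p) m = true) : a.factorization p = m :=
  Nat.eq_of_beq_eq_true h

lemma log_three_ge : 84 / 53 * Real.log 2 ≤ Real.log 3 := by
  have h1 : Real.log ((2 : ℝ) ^ 84) ≤ Real.log ((3 : ℝ) ^ 53) :=
    Real.log_le_log (by positivity) (by norm_num)
  rw [Real.log_pow, Real.log_pow] at h1
  push_cast at h1
  linarith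

/-- The group `(2, 6, 6)`. -/
theorem solved_six : ClassSolved 6 2 6 2 5 (1 / 200) := by
  refine classSolved (by norm_num) (by norm_num) (by norm_num) (by norm_num) 5 ?_
  have e1 : (2 * 6 : ℕ).primeFactors = {2, 3} := by decide +kernel
  have e2 : (2 : ℕ).factorization 2 = 1 := by decide +kernel
  have e3 : (2 : ℕ).factorization 3 = 0 := by decide +kernel
  have e4 : (6 : ℕ).factorization 2 = 1 := by decide +kernel
  have e5 : (6 : ℕ).factorization 3 = 1 := by decide +kernel
  have e6 : Nat.log 2 3 = 1 := by decide +kernel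
  have e7 : Nat.log 3 2 = 0 := by decide +kernel
  have e8 : min 5 (6 / 2 ^ 1) = 3 := by decide
  have e9 : min 5 (6 / 3 ^ 1) = 2 := by decide
  unfold classDefect padicCost
  rw [e1, Finset.sum_pair (by norm_num), e2, e3, e4, e5, e8, e9, e6, e7]
  have h1 := tsum_out_six'
  have h2 := Real.log_two_lt_d9
  have h3 := Real.log_two_gt_d9
  have h4 := log_three_ge
  have h5 : Real.log (triRadius 2 6) = 2 * Real.log 2 + 3 * Real.log 3 := by
    have : triRadius 2 6 = 2 ^ 2 * 3 ^ 3 := by
      show (108 : ℝ) = _
      norm_num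
    rw [this, Real.log_mul (by positivity) (by positivity), Real.log_pow, Real.log_pow]
    push_cast
    ring
  rw [h5]
  push_cast
  norm_num
  linarith

/-- The group `(4, 4, 4)`. -/
theorem solved_four : ClassSolved 4 4 4 4 3 (1 / 20) := by
  refine classSolved (by norm_num) (by norm_num) (by norm_num) (by norm_num) 3 ?_
  have e1 : (4 * 4 : ℕ).primeFactors = {2} := by decide +kernel
  have e2 : (4 : ℕ).factorization 2 = 2 := by decide +kernel
  have e6 : Nat.log 2 1 = 0 := by decide +kernel
  have e8 : min 3 (4 / 2 ^ 2) = 1 := by decide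
  unfold classDefect padicCost
  rw [e1, Finset.sum_singleton, e2, e8, e6]
  have h1 := tsum_out_two'
  have h2 := Real.log_two_lt_d9
  have h3 := Real.log_two_gt_d9
  have h5 : Real.log (triRadius 4 4) = 5 * Real.log 2 := by
    have : triRadius 4 4 = 2 ^ 5 := by
      show (32 : ℝ) = _
      norm_num
    rw [this, Real.log_pow]
    push_cast
    ring
  rw [h5]
  push_cast
  norm_num
  linarith

/-- The group `(2, 8, 8)`. -/
theorem solved_eight : ClassSolved 8 2 8 4 5 (1 / 160) := by
  refine classSolved (by norm_num) (by norm_num) (by norm_num) (by norm_num) 5 ?_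
  have e1 : (4 * 8 : ℕ).primeFactors = {2} := by decide +kernel
  have e2 : (4 : ℕ).factorization 2 = 2 := by decide +kernel
  have e3 : (8 : ℕ).factorization 2 = 3 := by decide +kernel
  have e6 : Nat.log 2 1 = 0 := by decide +kernel
  have e8 : min 5 (8 / 2 ^ 3) = 1 := by decide
  unfold classDefect padicCost
  rw [e1, Finset.sum_singleton, e2, e3, e8, e6]
  have h1 := tsum_out_two'
  have h2 := Real.log_two_lt_d9
  have h3 := Real.log_two_gt_d9
  have h5 : Real.log (triRadius 2 8) = 6 * Real.log 2 := by
    have : triRadius 2 8 = 2 ^ 6 := by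
      show (64 : ℝ) = _
      norm_num
    rw [this, Real.log_pow]
    push_cast
    ring
  rw [h5]
  push_cast
  norm_num
  linarith

/-- The group `(2, 4, 8)`. -/
theorem solved_sixteen : ClassSolved 8 2 4 16 5 (1 / 160) := by
  refine classSolved (by norm_num) (by norm_num) (by norm_num) (by norm_num) 5 ?_
  have e1 : (16 * 8 : ℕ).primeFactors = {2} := by decide +kernel
  have e2 : (16 : ℕ).factorization 2 = 4 := by decide +kernel
  have e3 : (8 : ℕ).factorization 2 = 3 := by decide +kernel
  have e6 : Nat.log 2 1 = 0 := by decide +kernel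
  have e8 : min 5 (8 / 2 ^ 3) = 1 := by decide
  unfold classDefect padicCost
  rw [e1, Finset.sum_singleton, e2, e3, e8, e6]
  have h1 := tsum_out_two'
  have h2 := Real.log_two_lt_d9
  have h3 := Real.log_two_gt_d9
  have h5 : Real.log (triRadius 2 4) = 8 * Real.log 2 := by
    have : triRadius 2 4 = 2 ^ 8 := by
      show (256 : ℝ) = _
      norm_num
    rw [this, Real.log_pow]
    push_cast
    ring
  rw [h5]
  push_cast
  norm_num
  linarith

/-- The group `(2, 3, 12)`. -/
theorem solved_twelve : ClassSolved 12 2 3 8 8 (1 / 2500) ∧ ClassSolved 12 2 3 8 7 (1 / 32) := by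
  have e1 : (8 * 12 : ℕ).primeFactors = {2, 3} := by decide +kernel
  have e2 : (8 : ℕ).factorization 2 = 3 := by decide +kernel
  have e3 : (8 : ℕ).factorization 3 = 0 := by decide +kernel
  have e4 : (12 : ℕ).factorization 2 = 2 := by decide +kernel
  have e5 : (12 : ℕ).factorization 3 = 1 := by decide +kernel
  have e6 : Nat.log 2 3 = 1 := by decide +kernel
  have e7 : Nat.log 3 4 = 1 := by decide +kernel
  have e8 : min 8 (12 / 2 ^ 2) = 3 := by decide
  have e9 : min 8 (12 / 3 ^ 1) = 4 := by decide
  have e10 : min 7 (12 / 2 ^ 2) = 3 := by decide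
  have e11 : min 7 (12 / 3 ^ 1) = 4 := by decide
  have h1 := tsum_out_six'
  have h2 := Real.log_two_lt_d9
  have h3 := Real.log_two_gt_d9
  have h4 := log_three_ge
  have h4' := log_three_le
  have h5 : Real.log (triRadius 2 3) = 6 * Real.log 2 + 3 * Real.log 3 := by
    have : triRadius 2 3 = 2 ^ 6 * 3 ^ 3 := by
      show (1728 : ℝ) = _
      norm_num
    rw [this, Real.log_mul (by positivity) (by positivity), Real.log_pow, Real.log_pow]
    push_cast
    ring
  constructor
  · refine classSolved (by norm_num) (by norm_num) (by norm_num) (by norm_num) 8 ?_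
    unfold classDefect padicCost
    rw [e1, Finset.sum_pair (by norm_num), e2, e3, e4, e5, e8, e9, e6, e7, h5]
    push_cast
    norm_num
    linarith
  · refine classSolved (by norm_num) (by norm_num) (by norm_num) (by norm_num) 7 ?_
    unfold classDefect padicCost
    rw [e1, Finset.sum_pair (by norm_num), e2, e3, e4, e5, e10, e11, e6, e7, h5]
    push_cast
    norm_num
    linarith

end instances

end Pool.Agent.H925
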