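import Pool.Agent.H925.OneBase

/-!
# The shearing loop at the point `1` (`S_LOOP1` from `S_SHEAR1`)
-/

set_option autoImplicit false

open Finset NumberField

namespace Pool.Agent.H925

theorem oneG_one {k idx : Type*} [CommRing k] [Fintype idx] [DecidableEq idx] (D : ℕ)
    (A : Matrix idx idx (Polynomial k)) : OneG D 0 A A 1 1 := by
  have h0 : (1 : Matrix idx idx (Polynomial k)).map Polynomial.derivative = 0 := by
    ext1 i j
    by_cases hij : i = j
    · subst hij
      simp [Matrix.map_apply]
    · simp [Matrix.map_apply, Matrix.one_apply_ne hij]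
  refine ⟨by simp, by simp, ?_⟩
  rw [h0, smul_zero, zero_add, one_mul, mul_one]

theorem t_LOOP1 (h : S_SHEAR1) : S_LOOP1 := by
  intro K _ _ r D A μ c _ hchar hμ
  have aux : ∀ n m : ℕ, ∀ (A₁ T T' : Matrix (Fin r) (Fin r) (Polynomial K)) (ν : Fin r → ℚ),
      OneG D m A A₁ T T' →
      (A₁.map (Polynomial.eval 1)).charpoly =
        ∏ i, (Polynomial.X - Polynomial.C (((D : ℚ) * ν i : ℚ) : K)) →
      (∀ i, ν i < c + 1 ∧ ∃ z : ℤ, ν i = μ i + z) →
      ∑ i, ⌈(c : ℚ) - ν i⌉₊ = n →
      ∃ (m : ℕ) (A₁ T T' : Matrix (Fin r) (Fin r) (Polynomial K)) (ν : Fin r → ℚ),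
        OneG D m A A₁ T T' ∧
        (A₁.map (Polynomial.eval 1)).charpoly =
          ∏ i, (Polynomial.X - Polynomial.C (((D : ℚ) * ν i : ℚ) : K)) ∧
        ∀ i, (c : ℚ) ≤ ν i ∧ ν i < c + 1 ∧ ∃ z : ℤ, ν i = μ i + z := by
    intro n
    induction n using Nat.strong_induction_on with
    | _ n ih =>
      intro m A₁ T T' ν h1 h4 h5 h6
      by_cases hall : ∀ i, (c : ℚ) ≤ ν i
      · exact ⟨m, A₁, T, T', ν, h1, h4, fun i => ⟨hall i, (h5 i).1, (h5 i).2⟩⟩
      · push Not at hall
        obtain ⟨i₀, hi₀⟩ := hall
        have hroot : (A₁.map (Polynomial.eval 1)).charpoly.IsRoot (((D : ℚ) * ν i₀ : ℚ) : K) := by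
          rw [h4, Polynomial.IsRoot.def, Polynomial.eval_prod]
          exact Finset.prod_eq_zero (Finset.mem_univ i₀) (by simp)
        obtain ⟨A₂, T₁, T₁', g1, g4⟩ := h K r D m A A₁ T T' _ h1 hroot
        have hprod : ∀ f : Fin r → ℚ,
            ∏ i, (Polynomial.X - Polynomial.C (((D : ℚ) * f i : ℚ) : K)) =
              (Polynomial.X - Polynomial.C (((D : ℚ) * f i₀ : ℚ) : K)) *
                ∏ i ∈ univ.erase i₀, (Polynomial.X - Polynomial.C (((D : ℚ) * f i : ℚ) : K)) :=
          fun f => (Finset.mul_prod_erase univ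
            (fun i => (Polynomial.X - Polynomial.C (((D : ℚ) * f i : ℚ) : K)))
            (Finset.mem_univ i₀)).symm
        have hc1 : (A₂.map (Polynomial.eval 1)).charpoly =
            ∏ i, (Polynomial.X - Polynomial.C
              (((D : ℚ) * (Function.update ν i₀ (ν i₀ + 1)) i : ℚ) : K)) := by
          have hne : (Polynomial.X - Polynomial.C (((D : ℚ) * ν i₀ : ℚ) : K)) ≠ 0 :=
            Polynomial.X_sub_C_ne_zero _
          apply mul_left_cancel₀ hne
          rw [g4, h4, hprod ν, hprod (Function.update ν i₀ (ν i₀ + 1))]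
          have e1 : ∏ i ∈ univ.erase i₀, (Polynomial.X - Polynomial.C
                (((D : ℚ) * (Function.update ν i₀ (ν i₀ + 1)) i : ℚ) : K)) =
              ∏ i ∈ univ.erase i₀, (Polynomial.X - Polynomial.C (((D : ℚ) * ν i : ℚ) : K)) :=
            Finset.prod_congr rfl fun i hi => by
              rw [Function.update_of_ne (Finset.ne_of_mem_erase hi)]
          have e2 : ((((D : ℚ) * (Function.update ν i₀ (ν i₀ + 1)) i₀ : ℚ)) : K) =
              (((D : ℚ) * ν i₀ : ℚ) : K) + (D : K) := by
            rw [Function.update_self]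
            push_cast
            ring
          rw [e1, e2]
          ring
        have hlt : ∑ i, ⌈(c : ℚ) - (Function.update ν i₀ (ν i₀ + 1)) i⌉₊ < n := by
          rw [← h6]
          apply Finset.sum_lt_sum
          · intro i _
            by_cases hi : i = i₀
            · subst hi
              rw [Function.update_self]
              exact Nat.ceil_le_ceil (by linarith)
            · rw [Function.update_of_ne hi]
          · refine ⟨i₀, Finset.mem_univ _, ?_⟩
            rw [Function.update_self, Nat.lt_ceil]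
            have e : (c : ℚ) - (ν i₀ + 1) = ((c : ℚ) - ν i₀) - 1 := by ring
            rw [e]
            have h7 : 0 < (c : ℚ) - ν i₀ := by linarith
            rcases le_or_gt ((c : ℚ) - ν i₀ - 1) 0 with h8 | h8
            · rw [Nat.ceil_eq_zero.2 h8]
              simpa using h7
            · have h9 := Nat.ceil_lt_add_one h8.le
              linarith
        refine ih _ hlt (m + 1) A₂ T₁ T₁' (Function.update ν i₀ (ν i₀ + 1)) g1 hc1
          (fun i => ?_) rfl
        by_cases hi : i = i₀
        · subst hi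
          rw [Function.update_self]
          obtain ⟨z, hz⟩ := (h5 i).2
          exact ⟨by linarith, z + 1, by rw [hz]; push_cast; ring⟩
        · rw [Function.update_of_ne hi]
          exact h5 i
  refine aux _ 0 A 1 1 μ (oneG_one D A) hchar (fun i => ⟨?_, 0, by simp⟩) rfl
  have := hμ i
  linarith

end Pool.Agent.H925
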