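import Pool.Agent.H925.SpecOf

set_option autoImplicit false

open Finset

namespace Pool.Agent.H925

open Pool.Agent.Helper338PC

section core

variable {idx : Type*} [Fintype idx] [DecidableEq idx] {A₁ : Matrix idx idx (Polynomial ℤ)}
  {D : ℕ} {β : idx → ℚ} {U : Matrix idx idx (PowerSeries ℚ)}

omit [Fintype idx] [DecidableEq idx] in
/-- The matrix of a system with three singular points. -/
lemma Aps_linear (A₁ : Matrix idx idx (Polynomial ℤ)) (d : ℂ)
    (hdeg : ∀ i j, (A₁ i j).natDegree ≤ 1) (i j : idx) :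
    Aps (Int.castRingHom ℂ) d 1 A₁ i j = wg ℂ *
      (PowerSeries.C (((d • (A₁.map fun a => a.coeff 0).map (Int.castRingHom ℂ)) :
          Matrix idx idx ℂ) i j) +
        PowerSeries.C (((d • (A₁.map fun a => a.coeff 1).map (Int.castRingHom ℂ)) :
          Matrix idx idx ℂ) i j) * PowerSeries.X) := by
  have h1 : (A₁ i j) = Polynomial.C ((A₁ i j).coeff 0) +
      Polynomial.C ((A₁ i j).coeff 1) * Polynomial.X := by
    have := Polynomial.eq_X_add_C_of_natDegree_le_one (hdeg i j)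
    rw [add_comm] at this
    exact this
  rw [Aps_apply]
  conv_lhs => rw [h1]
  simp only [pow_one, Polynomial.map_add, Polynomial.map_mul, Polynomial.map_C, Polynomial.map_X,
    Polynomial.coe_add, Polynomial.coe_mul, Polynomial.coe_C, Polynomial.coe_X,
    Matrix.smul_apply, Matrix.map_apply, smul_eq_mul, map_mul]
  ring

/-- Algebraicity of the solutions. -/
theorem orb_galg (hD : D ≠ 0) (hgap : ∀ i j, |β i - β j| < 1) (hdet : (ccM U).det ≠ 0)
    (hU : ∀ j, IsSolG (Aps (Int.castRingHom ℚ) (D : ℚ)⁻¹ 1 A₁) (β j) (fun i => U i j))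
    (hint : ∀ i j, ∃ z : ℤ, PowerSeries.coeff 0 (U i j) = z) {S : Finset ℕ}
    (hS : ∀ p ∈ S, p.Prime) (hDS : ∀ p, p.Prime → p ∣ D → p ∈ S) {E : Set ℕ}
    (hE : Summable (sparseTerm E)) {ℓ : ℕ → ℝ} (hℓ : ∀ p, 0 ≤ ℓ p)
    (hbad : ∀ (p : ℕ) [Fact p.Prime], p ∈ S → ∀ i j, PadicRadius p (U i j) (ℓ p))
    (hgood : ∀ (p : ℕ) [Fact p.Prime], p ∉ S → p ∉ E →
      MG (Aps (Int.castRingHom (ZMod p)) (D : ZMod p)⁻¹ 1 A₁) p = 0)
    {n₁ n₂ : ℕ} (hn₁ : 0 < n₁) (hn₂ : 0 < n₂) (hdeg : ∀ i j, (A₁ i j).natDegree ≤ 1)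
    (h1 : Polynomial.aeval (A₁.map (Polynomial.eval 1)) (eigPoly n₁ D) = 0)
    (h2 : Polynomial.aeval (-(A₁.map fun a => a.coeff 1)) (eigPoly n₂ D) = 0)
    {R : ℝ} (hR0 : 0 < R) (hR : CuspRadius n₁ n₂ R)
    (hsum : defect (numExp β) S E ℓ < Real.log R) (j i : idx) :
    IsAlgebraic (Polynomial ℚ) (U j i) := by
  classical
  set L1 := defect (numExp β) S E ℓ with hL1
  have hL10 : 0 ≤ L1 := by
    refine add_nonneg (Finset.sum_nonneg fun p hp => mul_nonneg (hℓ p)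
      (Real.log_nonneg (by exact_mod_cast (hS p hp).one_lt.le))) (mul_nonneg (by positivity) ?_)
    exact tsum_nonneg (outTerm_nonneg S E)
  have hexp1 : 1 ≤ Real.exp L1 := Real.one_le_exp hL10
  obtain ⟨m, κ, v, s, ρ, hm, hv, hs, hρ, hv1, hs1, hrel, hRρ⟩ := hR
  set R' : ℝ := ‖PowerSeries.constantCoeff ρ‖ with hR'
  have hR'0 : 0 < R' := norm_pos_iff.mpr hρ.ne
  have hlt : Real.exp L1 < R' := by
    calc Real.exp L1 < Real.exp (Real.log R) := Real.exp_lt_exp.mpr hsum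
      _ = R := Real.exp_log hR0
      _ ≤ R' := hRρ
  obtain ⟨Λ, hΛ1, hΛ2⟩ := exists_between hlt
  -- the complex solution
  have hC : IsSolG (Aps (Int.castRingHom ℂ) ((D : ℂ)⁻¹) 1 A₁) ((β i : ℚ) : ℂ)
      (fun j => PowerSeries.map (algebraMap ℚ ℂ) (U j i)) := by
    have h3 := (hU i).map (algebraMap ℚ ℂ)
    rw [Aps_map] at h3
    have h4 : (algebraMap ℚ ℂ) (D : ℚ)⁻¹ = (D : ℂ)⁻¹ := by
      rw [map_inv₀, map_natCast]
    rw [h4] at h3
    have h5 : (algebraMap ℚ ℂ).comp (Int.castRingHom ℚ) = Int.castRingHom ℂ :=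
      Subsingleton.elim _ _
    rw [h5] at h3
    exact h3
  have hRr : IsSolG (Aps (Int.castRingHom ℝ) ((D : ℝ)⁻¹) 1 A₁) ((β i : ℚ) : ℝ)
      (fun j => PowerSeries.map (algebraMap ℚ ℝ) (U j i)) := by
    have h3 := (hU i).map (algebraMap ℚ ℝ)
    rw [Aps_map] at h3
    have h4 : (algebraMap ℚ ℝ) (D : ℚ)⁻¹ = (D : ℝ)⁻¹ := by
      rw [map_inv₀, map_natCast]
    rw [h4] at h3
    have h5 : (algebraMap ℚ ℝ).comp (Int.castRingHom ℚ) = Int.castRingHom ℝ :=
      Subsingleton.elim _ _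
    rw [h5] at h3
    exact h3
  have hconvR : Sm (1 / 2) (PowerSeries.map (algebraMap ℚ ℝ) (U j i)) :=
    hRr.conv j (1 / 2) (by norm_num) (by norm_num)
  -- the spectral projections
  set Z₁ : Matrix idx idx ℂ := (A₁.map (Polynomial.eval 1)).map (Int.castRingHom ℂ) with hZ₁
  set Z₂ : Matrix idx idx ℂ := (-(A₁.map fun a => a.coeff 1)).map (Int.castRingHom ℂ) with hZ₂
  obtain ⟨P, hP⟩ := exists_spec (Z := Z₁) hn₁ hD (eigPoly_map (Int.castRingHom ℂ).mapMatrix h1)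
  obtain ⟨Q, hQ⟩ := exists_spec (Z := Z₂) hn₂ hD (eigPoly_map (Int.castRingHom ℂ).mapMatrix h2)
  set N := (β i).den with hN
  have hN0 : 0 < N := (β i).den_pos
  have key := cusp_conv hn₁ hn₂ hm hv hs hρ hv1 hs1 hrel
    (A := Aps (Int.castRingHom ℂ) ((D : ℂ)⁻¹) 1 A₁)
    (A₀ := (D : ℂ)⁻¹ • (A₁.map fun a => a.coeff 0).map (Int.castRingHom ℂ))
    (A₁ := (D : ℂ)⁻¹ • (A₁.map fun a => a.coeff 1).map (Int.castRingHom ℂ))
    (Aps_linear A₁ _ hdeg) (c := (D : ℂ)⁻¹ • Z₁) (e := (D : ℂ)⁻¹ • Z₂) (by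
      rw [← smul_add]
      congr 1
      ext1 a b
      rw [hZ₁, Matrix.add_apply]
      simp only [Matrix.map_apply]
      rw [← map_add]
      congr 1
      have h3 := Polynomial.eq_X_add_C_of_natDegree_le_one (hdeg a b)
      conv_lhs => rw [h3]
      simp [add_comm]) (by
      rw [← smul_neg]
      congr 1
      ext1 a b
      rw [hZ₂]
      simp) hP hQ hC (Φ := PowerSeries.X ^ m * (ρ * (v ^ n₂)⁻¹)) rfl j
  have hpow : IsAlgebraic (Polynomial ℚ) ((U j i) ^ N) := by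
    set q : PowerSeries ℂ := (v ^ n₂) ^ ((β i).num.natAbs + 1) with hq
    refine criterionM (Λ := Λ) (by linarith) (fun k => ?_) ?_ hm
      (Φ := PowerSeries.X ^ m * (ρ * (v ^ n₂)⁻¹)) (Φ' := ρ * (v ^ n₂)⁻¹) (Q := q) rfl ?_
      ((hv.pow _).pow _) ?_ ?_ ?_
    · -- denominators
      obtain ⟨K, hK⟩ := gden hD hgap hdet hU hint hS hDS hE hℓ hbad hgood hΛ1 i j (N * k)
      refine ⟨K, fun n => ?_⟩
      obtain ⟨d, hd0, hdle, hd⟩ := hK n
      refine ⟨d, hd0, hdle, fun m' hm' s hs => ?_⟩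
      rw [← pow_mul]
      exact hd _ (Nat.mul_le_mul_left _ hm') s hs
    · refine ⟨1 / 2, by norm_num, ?_⟩
      rw [map_pow]
      exact Sm.pow (by norm_num) hconvR N
    · rw [map_mul, PowerSeries.constantCoeff_inv, map_pow, hv1, one_pow, inv_one, mul_one, ← hR']
      exact hΛ2
    · rw [hq, map_pow, map_pow, hv1, one_pow, one_pow]
    · have hvn : PowerSeries.constantCoeff (v ^ n₂) ≠ 0 := by
        rw [map_pow, hv1, one_pow]; exact one_ne_zero
      have e1 : q * (PowerSeries.X ^ m * (ρ * (v ^ n₂)⁻¹)) =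
          (v ^ n₂) ^ ((β i).num.natAbs) * (PowerSeries.X ^ m * ρ) := by
        have := PowerSeries.mul_inv_cancel (v ^ n₂) hvn
        rw [hq, pow_succ]
        linear_combination ((v ^ n₂) ^ ((β i).num.natAbs) * (PowerSeries.X ^ m * ρ)) * this
      rw [e1]
      exact ((hv.pow _).pow _).mul ((CConv.X.pow _).mul hρ.conv)
    · have hsub : PowerSeries.HasSubst (PowerSeries.X ^ m * (ρ * (v ^ n₂)⁻¹)) := by
        refine PowerSeries.HasSubst.of_constantCoeff_zero' ?_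
        rw [map_mul, map_pow, PowerSeries.constantCoeff_X, zero_pow hm.ne', zero_mul]
      rw [map_pow, PowerSeries.subst_pow hsub]
      exact key
  exact IsAlgebraic.of_pow hN0 hpow

end core

end Pool.Agent.H925
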