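import Pool.Agent.H925.TriConv

set_option autoImplicit false

open PowerSeries Finset

namespace Pool.Agent.H925

open Pool.Agent.Helper338PC (th coeff_th th_mul' th_add' th_sum' th_C th_one wg Aps IsSolG
  Aps_apply X_sub_one_mul_wg)

section pull

variable {idx : Type*} [Fintype idx] [DecidableEq idx]

lemma th_inv_pow {w iw : PowerSeries ℂ} (h : w * iw = 1) (n : ℕ) :
    w * th (iw ^ n) = -((n : PowerSeries ℂ) * th w * iw ^ n) := by
  have e1 : th w * iw + w * th iw = 0 := by rw [← th_mul', h, th_one]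
  have e2 := th_pow' iw n
  have e3 : w * (iw * th (iw ^ n)) = th (iw ^ n) := by rw [← mul_assoc, h, one_mul]
  rw [← e3, e2]
  linear_combination ((n : PowerSeries ℂ) * iw ^ n * w) * e1 -
    ((n : PowerSeries ℂ) * iw ^ n * th w) * h

/-- The pull-back of the solutions of a Fuchsian system with the exponents `j / n₀` at the origin,
`j / n₁` at `1` and `(j - L) / n₂` at infinity to the disc. -/
theorem tri_conv {n₀ n₁ n₂ L : ℕ} (hn₀ : 0 < n₀) (hn₁ : 0 < n₁) (hn₂ : 0 < n₂)
    {s v w a b ω : PowerSeries ℂ} (hs : CConv s) (hv : CConv v) (hw : CConv w) (ha : CConv a)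
    (hb : CConv b) (hs0 : constantCoeff s = 0) (hs1 : coeff 1 s ≠ 0)
    (hrel : s ^ n₀ + v ^ n₁ = w ^ n₂) (hab : a * s + b * w = 1) (hω : ω ^ n₀ = w)
    {A : Matrix idx idx (PowerSeries ℂ)} {A₀ A₁ B C E : Matrix idx idx ℂ}
    (hA : ∀ j l, A j l = wg ℂ * (PowerSeries.C (A₀ j l) + PowerSeries.C (A₁ j l) * PowerSeries.X))
    (hB : B = -A₀) (hC : C = A₀ + A₁)
    (hE : E = ((L : ℂ) / (n₂ : ℂ)) • (1 : Matrix idx idx ℂ) - A₁)
    {P : Fin n₀ → Matrix idx idx ℂ} {Q : Fin n₁ → Matrix idx idx ℂ}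
    {T : Fin n₂ → Matrix idx idx ℂ} (hP : Spec n₀ B P) (hQ : Spec n₁ C Q) (hT : Spec n₂ E T)
    {j₀ : Fin n₀} {h : idx → PowerSeries ℂ}
    (hsol : IsSolG A ((j₀ : ℕ) / (n₀ : ℂ)) h) (i : idx) :
    CConv (s ^ (j₀ : ℕ) * w ^ L * ω⁻¹ ^ (n₂ * (j₀ : ℕ)) * (h i).subst (s ^ n₀ * w⁻¹ ^ n₂)) := by
  classical
  have hn₀C : (n₀ : ℂ) ≠ 0 := by exact_mod_cast hn₀.ne'
  have hn₂C : (n₂ : ℂ) ≠ 0 := by exact_mod_cast hn₂.ne'
  have hsne : s ≠ 0 := by
    rintro rfl
    exact hs1 (map_zero _)
  have hwc : constantCoeff w ≠ 0 := by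
    intro h1
    have h2 := congrArg constantCoeff hab
    rw [map_add, map_mul, map_mul, hs0, h1, mul_zero, mul_zero, add_zero, map_one] at h2
    exact zero_ne_one h2
  have hωc : constantCoeff ω ≠ 0 := by
    intro h1
    apply hwc
    rw [← hω, map_pow, h1, zero_pow hn₀.ne']
  have hvc : constantCoeff v ≠ 0 := by
    intro h1
    have h2 := congrArg constantCoeff hrel
    rw [map_add, map_pow, map_pow, map_pow, hs0, h1, zero_pow hn₀.ne', zero_pow hn₁.ne',
      add_zero] at h2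
    exact pow_ne_zero n₂ hwc h2.symm
  have hwne : w ≠ 0 := by
    rintro rfl
    exact hwc (map_zero _)
  have hvne : v ≠ 0 := by
    rintro rfl
    exact hvc (map_zero _)
  have hωne : ω ≠ 0 := by
    rintro rfl
    exact hωc (map_zero _)
  set iw := w⁻¹ with hiw
  set iv := v⁻¹ with hiv
  set iω := ω⁻¹ with hiω
  have hwiw : w * iw = 1 := PowerSeries.mul_inv_cancel w hwc
  have hviv : v * iv = 1 := PowerSeries.mul_inv_cancel v hvc
  have hωiω : ω * iω = 1 := PowerSeries.mul_inv_cancel ω hωc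
  set Φ : PowerSeries ℂ := s ^ n₀ * iw ^ n₂ with hΦ
  have h0 : constantCoeff Φ = 0 := by
    rw [hΦ, map_mul, map_pow, hs0, zero_pow hn₀.ne', zero_mul]
  have hsub : HasSubst Φ := HasSubst.of_constantCoeff_zero' h0
  have hCnat : ∀ n : ℕ, (n : PowerSeries ℂ) = PowerSeries.C (n : ℂ) := fun n => (map_natCast _ n).symm
  -- logarithmic derivatives
  have hiwp := th_inv_pow hwiw n₂
  have hsp := th_pow' s n₀
  have hsΦ : s * w * th Φ = ((n₀ : PowerSeries ℂ) * w * th s - (n₂ : PowerSeries ℂ) * s * th w) * Φ := by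
    rw [hΦ, th_mul']
    linear_combination (w * iw ^ n₂) * hsp + (s * s ^ n₀) * hiwp
  have hΦ1 : Φ - 1 = -(v ^ n₁ * iw ^ n₂) := by
    have e1 : w ^ n₂ * iw ^ n₂ = 1 := by rw [← mul_pow, hwiw, one_pow]
    rw [hΦ]
    linear_combination (iw ^ n₂) * hrel + e1
  have hv1 : v * w * th Φ = ((n₁ : PowerSeries ℂ) * w * th v - (n₂ : PowerSeries ℂ) * v * th w) *
      (Φ - 1) := by
    have hvp := th_pow' v n₁
    have e2 : th Φ = -th (v ^ n₁ * iw ^ n₂) := by
      have e3 : th (Φ + v ^ n₁ * iw ^ n₂) = 0 := by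
        have e4 : Φ + v ^ n₁ * iw ^ n₂ = 1 := by linear_combination hΦ1
        rw [e4, th_one]
      rw [th_add'] at e3
      linear_combination e3
    rw [e2, hΦ1, th_mul']
    linear_combination (-(w * iw ^ n₂)) * hvp - (v * v ^ n₁) * hiwp
  set ig := (wg ℂ).subst Φ with hig
  have hig1 := subst_wgC hsub
  rw [← hig] at hig1
  -- the chain rule
  have hchain : ∀ f : PowerSeries ℂ, s * w * th (f.subst Φ) =
      ((n₀ : PowerSeries ℂ) * w * th s - (n₂ : PowerSeries ℂ) * s * th w) * (th f).subst Φ := by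
    intro f
    have e1 : (th f).subst Φ = Φ * (derivative ℂ f).subst Φ := by
      unfold th
      rw [subst_mul hsub, subst_X hsub]
    have e2 : th (f.subst Φ) = (derivative ℂ f).subst Φ * th Φ := by
      unfold th
      rw [derivative_subst hsub]
      ring
    rw [e1, e2]
    linear_combination ((derivative ℂ f).subst Φ) * hsΦ
  -- the factor
  set u : PowerSeries ℂ := s ^ (j₀ : ℕ) * w ^ L * iω ^ (n₂ * (j₀ : ℕ)) with hu
  have hβ : PowerSeries.C ((j₀ : ℕ) / (n₀ : ℂ)) * (n₀ : PowerSeries ℂ) =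
      (((j₀ : ℕ) : ℕ) : PowerSeries ℂ) := by
    rw [hCnat, hCnat, ← map_mul, div_mul_cancel₀ _ hn₀C]
  have hthu : s * w * th u = (((j₀ : ℕ) : PowerSeries ℂ) * w * th s +
      (L : PowerSeries ℂ) * s * th w -
        PowerSeries.C ((j₀ : ℕ) / (n₀ : ℂ)) * (n₂ : PowerSeries ℂ) * s * th w) * u := by
    have e1 := th_pow' s (j₀ : ℕ)
    have e2 := th_pow' w L
    have e3 := th_inv_pow hωiω (n₂ * (j₀ : ℕ))
    have e4 : (n₀ : PowerSeries ℂ) * w * th ω = ω * th w := by
      have := th_pow' ω n₀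
      rw [hω] at this
      exact this.symm
    -- multiply by `n₀` and `ω`
    have hne : (n₀ : PowerSeries ℂ) * ω ≠ 0 := by
      refine mul_ne_zero ?_ hωne
      rw [hCnat, Ne, map_eq_zero_iff _ PowerSeries.C_injective]
      exact hn₀C
    have e5 : ((n₂ * (j₀ : ℕ) : ℕ) : PowerSeries ℂ) = (n₂ : PowerSeries ℂ) *
        (PowerSeries.C ((j₀ : ℕ) / (n₀ : ℂ)) * (n₀ : PowerSeries ℂ)) := by
      rw [hβ]; push_cast; ring
    have e6 : w * th (iω ^ (n₂ * (j₀ : ℕ))) = -(PowerSeries.C ((j₀ : ℕ) / (n₀ : ℂ)) *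
        (n₂ : PowerSeries ℂ) * th w * iω ^ (n₂ * (j₀ : ℕ))) := by
      apply mul_left_cancel₀ hne
      rw [e5] at e3
      linear_combination ((n₀ : PowerSeries ℂ) * w) * e3 - ((n₂ : PowerSeries ℂ) *
        (PowerSeries.C ((j₀ : ℕ) / (n₀ : ℂ)) * (n₀ : PowerSeries ℂ)) *
          iω ^ (n₂ * (j₀ : ℕ))) * e4
    rw [hu, th_mul', th_mul']
    linear_combination (w * w ^ L * iω ^ (n₂ * (j₀ : ℕ))) * e1 +
      (s * s ^ (j₀ : ℕ) * iω ^ (n₂ * (j₀ : ℕ))) * e2 + (s * s ^ (j₀ : ℕ) * w ^ L) * e6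
  -- the pulled back solution
  set F : idx → PowerSeries ℂ := fun l => u * (h l).subst Φ with hF
  have hFth : ∀ i, s * v * w * th (F i) = (n₀ : PowerSeries ℂ) * th s * v * w * app B F i +
      (n₁ : PowerSeries ℂ) * s * th v * w * app C F i +
      (n₂ : PowerSeries ℂ) * s * v * th w * app E F i := by
    intro i
    have e1 : s * w * th ((h i).subst Φ) =
        ((n₀ : PowerSeries ℂ) * w * th s - (n₂ : PowerSeries ℂ) * s * th w) *
        ((∑ l, (A i l).subst Φ * (h l).subst Φ) -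
        PowerSeries.C ((j₀ : ℕ) / (n₀ : ℂ)) * (h i).subst Φ) := by
      rw [hchain, hsol i, subst_sub hsub, subst_mul hsub, subst_CC, subst_sumC hsub]
      congr 2
      exact Finset.sum_congr rfl fun l _ => subst_mul hsub _ _
    have e2 : ∀ l, (A i l).subst Φ = ig * (PowerSeries.C (A₀ i l) + PowerSeries.C (A₁ i l) * Φ) := by
      intro l
      rw [hA, subst_mul hsub, subst_add hsub, subst_mul hsub, subst_CC, subst_CC, subst_X hsub]
    -- the coefficients
    have e5 : v * ((n₀ : PowerSeries ℂ) * w * th s - (n₂ : PowerSeries ℂ) * s * th w) * Φ * ig =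
        s * ((n₁ : PowerSeries ℂ) * w * th v - (n₂ : PowerSeries ℂ) * v * th w) := by
      linear_combination (-(v * ig)) * hsΦ + (s * ig) * hv1 +
        (s * ((n₁ : PowerSeries ℂ) * w * th v - (n₂ : PowerSeries ℂ) * v * th w)) * hig1
    have e8 : v * ((n₀ : PowerSeries ℂ) * w * th s - (n₂ : PowerSeries ℂ) * s * th w) * ig =
        s * ((n₁ : PowerSeries ℂ) * w * th v - (n₂ : PowerSeries ℂ) * v * th w) -
        v * ((n₀ : PowerSeries ℂ) * w * th s - (n₂ : PowerSeries ℂ) * s * th w) := by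
      linear_combination e5 -
        (v * ((n₀ : PowerSeries ℂ) * w * th s - (n₂ : PowerSeries ℂ) * s * th w)) * hig1
    have hBl : ∀ l, PowerSeries.C (B i l) = -PowerSeries.C (A₀ i l) := by
      intro l; rw [hB, Matrix.neg_apply, map_neg]
    have hCl : ∀ l, PowerSeries.C (C i l) = PowerSeries.C (A₀ i l) + PowerSeries.C (A₁ i l) := by
      intro l; rw [hC, Matrix.add_apply, map_add]
    have e4 : ∀ l, v * ((n₀ : PowerSeries ℂ) * w * th s - (n₂ : PowerSeries ℂ) * s * th w) *
          (A i l).subst Φ =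
        (n₀ : PowerSeries ℂ) * th s * v * w * PowerSeries.C (B i l) +
          (n₁ : PowerSeries ℂ) * s * th v * w * PowerSeries.C (C i l) -
          (n₂ : PowerSeries ℂ) * s * v * th w * PowerSeries.C (A₁ i l) := by
      intro l
      rw [e2 l, hBl, hCl]
      linear_combination (PowerSeries.C (A₁ i l)) * e5 + (PowerSeries.C (A₀ i l)) * e8
    have eE : app E F i = PowerSeries.C ((L : ℂ) / (n₂ : ℂ)) * F i - app A₁ F i := by
      have e10 : app E F i = app (((L : ℂ) / (n₂ : ℂ)) • (1 : Matrix idx idx ℂ)) F i -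
          app A₁ F i := by
        rw [hE]
        unfold app
        rw [← Finset.sum_sub_distrib]
        exact Finset.sum_congr rfl fun l _ => by rw [Matrix.sub_apply, map_sub, sub_mul]
      rw [e10, app_smul, app_one]
    have eL : (n₂ : PowerSeries ℂ) * PowerSeries.C ((L : ℂ) / (n₂ : ℂ)) = (L : PowerSeries ℂ) := by
      rw [hCnat, hCnat, ← map_mul, mul_div_cancel₀ _ hn₂C]
    have e11 : (n₀ : PowerSeries ℂ) * th s * v * w * app B F i +
        (n₁ : PowerSeries ℂ) * s * th v * w * app C F i -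
        (n₂ : PowerSeries ℂ) * s * v * th w * app A₁ F i =
        u * (v * ((n₀ : PowerSeries ℂ) * w * th s - (n₂ : PowerSeries ℂ) * s * th w) *
          ∑ l, (A i l).subst Φ * (h l).subst Φ) := by
      unfold app
      rw [Finset.mul_sum, Finset.mul_sum, Finset.mul_sum, Finset.mul_sum, Finset.mul_sum,
        ← Finset.sum_add_distrib, ← Finset.sum_sub_distrib]
      refine Finset.sum_congr rfl fun l _ => ?_
      rw [hF]
      simp only
      linear_combination (-(u * (h l).subst Φ)) * e4 l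
    have e10 : th (F i) = th u * (h i).subst Φ + u * th ((h i).subst Φ) := by
      rw [hF]; simp only; rw [th_mul']
    have e12 : s * v * w * th (F i) = v * ((s * w * th u) * (h i).subst Φ) +
        v * u * (s * w * th ((h i).subst Φ)) := by
      rw [e10]; ring
    have e13 : F i = u * (h i).subst Φ := rfl
    rw [e12, hthu, e1, eE, e13]
    linear_combination (-1 : PowerSeries ℂ) * e11 -
      (v * u * w * th s * (h i).subst Φ) * hβ - (s * v * th w * u * (h i).subst Φ) * eL
  -- the initial value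
  have hinit : ∀ i, app B (fun l => PowerSeries.C (constantCoeff (h l))) i =
      PowerSeries.C ((j₀ : ℕ) / (n₀ : ℂ)) * PowerSeries.C (constantCoeff (h i)) := by
    intro i
    have e1 := congrArg constantCoeff (hsol i)
    rw [constantCoeff_th, map_sub, map_sum, map_mul, constantCoeff_C] at e1
    have e2 : ∀ l, constantCoeff (A i l * h l) = B i l * constantCoeff (h l) := by
      intro l
      rw [map_mul, hA, map_mul, wg_constantCoeff, map_add, map_mul, constantCoeff_C,
        constantCoeff_X, mul_zero, add_zero, hB, Matrix.neg_apply]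
      ring
    rw [Finset.sum_congr rfl fun l _ => e2 l] at e1
    unfold app
    have e3 : ∀ l, PowerSeries.C (B i l) * PowerSeries.C (constantCoeff (h l)) =
        PowerSeries.C (B i l * constantCoeff (h l)) := fun l => (map_mul _ _ _).symm
    rw [Finset.sum_congr rfl fun l _ => e3 l, ← map_sum, ← map_mul]
    congr 1
    linear_combination -e1
  have hzero : ∀ (j : Fin n₀) i, j ≠ j₀ → constantCoeff (app (P j) h i) = 0 := by
    intro j i hj
    have e0 : ∀ f : idx → PowerSeries ℂ, constantCoeff (app (P j) f i) =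
        ∑ l, P j i l * constantCoeff (f l) := by
      intro f
      unfold app
      rw [map_sum]
      exact Finset.sum_congr rfl fun l _ => by rw [map_mul, constantCoeff_C]
    have e1 : app (P j) (app B (fun l => PowerSeries.C (constantCoeff (h l)))) i =
        PowerSeries.C ((j : ℕ) / (n₀ : ℂ)) * app (P j) (fun l => PowerSeries.C (constantCoeff (h l))) i := by
      rw [app_app, hP.left_mul, app_smul]
    have e2 : app B (fun l => PowerSeries.C (constantCoeff (h l))) =
        fun l => PowerSeries.C ((j₀ : ℕ) / (n₀ : ℂ)) * PowerSeries.C (constantCoeff (h l)) :=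
      funext hinit
    rw [e2, app_mul] at e1
    have e3 := congrArg constantCoeff e1
    rw [map_mul, map_mul, constantCoeff_C, constantCoeff_C, e0] at e3
    simp only [constantCoeff_C] at e3
    rw [e0]
    have e4 : ((j₀ : ℕ) : ℂ) / n₀ - ((j : ℕ) : ℂ) / n₀ ≠ 0 := by
      rw [← sub_div]
      refine div_ne_zero (sub_ne_zero.mpr ?_) hn₀C
      intro h1
      exact hj (Fin.ext (by exact_mod_cast h1.symm))
    have e5 : (((j₀ : ℕ) : ℂ) / n₀ - ((j : ℕ) : ℂ) / n₀) *
        ∑ l, P j i l * constantCoeff (h l) = 0 := by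
      rw [sub_mul, e3, sub_self]
    exact (mul_eq_zero.mp e5).resolve_left e4
  -- the divisibility
  have hX : ∀ (j : Fin n₀) i, ∃ y, app (P j) F i = s ^ (j : ℕ) * y := by
    intro j i
    have e1 : app (P j) F i = u * (app (P j) h i).subst Φ := by
      rw [hF, app_mul]
      congr 1
      unfold app
      rw [subst_sumC hsub]
      refine Finset.sum_congr rfl fun l _ => ?_
      rw [subst_mul hsub, subst_CC]
    by_cases hj : j = j₀
    · rw [hj] at e1 ⊢
      rw [hu] at e1
      exact ⟨w ^ L * iω ^ (n₂ * (j₀ : ℕ)) * (app (P j₀) h i).subst Φ, by rw [e1]; ring⟩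
    · obtain ⟨g, hg⟩ := (PowerSeries.X_dvd_iff).mpr (hzero j i hj)
      refine ⟨s ^ ((j₀ : ℕ) + n₀ - (j : ℕ)) * w ^ L * iω ^ (n₂ * (j₀ : ℕ)) * iw ^ n₂ *
        g.subst Φ, ?_⟩
      have e2 : s ^ (j : ℕ) * s ^ ((j₀ : ℕ) + n₀ - (j : ℕ)) = s ^ (j₀ : ℕ) * s ^ n₀ := by
        rw [← pow_add, ← pow_add]
        congr 1
        have := j.2
        omega
      rw [e1, hg, subst_mul hsub, subst_X hsub, hu]
      rw [hΦ] at *
      linear_combination (-(w ^ L * iω ^ (n₂ * (j₀ : ℕ)) * iw ^ n₂ *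
        PowerSeries.subst (s ^ n₀ * iw ^ n₂) g)) * e2
  choose X hX using hX
  exact cconv_tri hn₀ hn₁ hn₂ hs hv hw ha hb hsne hvne hwne hrel hab
    (B := B) (C := C) (E := E) (μ := (L : ℂ) / (n₂ : ℂ)) (by rw [hB, hC, hE]; abel) hP hQ hT
    (G := F) hFth hX
    (Y := fun j i => iv ^ (j : ℕ) * app (Q j) F i) (Z := fun j i => iw ^ (j : ℕ) * app (T j) F i)
    (fun j i => by rw [← mul_assoc, ← mul_pow, hviv, one_pow, one_mul])
    (fun j i => by rw [← mul_assoc, ← mul_pow, hwiw, one_pow, one_mul]) i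

end pull

end Pool.Agent.H925
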