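import Pool.Agent.H925.Good
import Pool.Agent.H925.TriPull
import Pool.Agent.H925.OrbAlg

set_option autoImplicit false

open Finset

namespace Pool.Agent.H925

open Pool.Agent.Helper338PC

/-- Uniformization data of a compact triangle orbifold at the vertex of order `n₀`: `Φ = s ^ n₀ / w ^ n₂`
is a meromorphic function on the unit disc whose zeros, ones and poles (the zeros of `s`, `v` and
`w`) have orders divisible by `n₀`, `n₁` and `n₂`; `s` and `w` have no common zeros, `Φ(0) = 0`, and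
the coefficient of `X ^ n₀` of `Φ` has absolute value at least `R`. -/
def TriRadius (n₀ n₁ n₂ : ℕ) (R : ℝ) : Prop :=
  ∃ s v w a b : PowerSeries ℂ, CConv s ∧ CConv v ∧ CConv w ∧ CConv a ∧ CConv b ∧
    PowerSeries.constantCoeff s = 0 ∧ s ^ n₀ + v ^ n₁ = w ^ n₂ ∧ a * s + b * w = 1 ∧
    R * ‖PowerSeries.constantCoeff w‖ ^ n₂ ≤ ‖PowerSeries.coeff 1 s‖ ^ n₀

/-- The polynomial `∏_{0 ≤ j < n} (n X - (L - j) D)`. -/
noncomputable def infPoly (n D L : ℕ) : Polynomial ℤ :=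
  ∏ j ∈ range n, (Polynomial.C (n : ℤ) * Polynomial.X - Polynomial.C (((L : ℤ) - j) * D))

section

variable {R S : Type*} [Ring R] [Ring S]

lemma infPoly_map {n D L : ℕ} (φ : R →+* S) {Z : R} (h : Polynomial.aeval Z (infPoly n D L) = 0) :
    Polynomial.aeval (φ Z) (infPoly n D L) = 0 := by
  have h1 := Polynomial.aeval_algHom_apply φ.toIntAlgHom Z (infPoly n D L)
  have h2 : φ.toIntAlgHom Z = φ Z := rfl
  rw [h2, h, map_zero] at h1
  exact h1

end

section spec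

variable {idx : Type*} [Fintype idx] [DecidableEq idx]

/-- The residue at infinity. -/
lemma eigPoly_of_infPoly {n D L : ℕ} (hn : 0 < n) {Z : Matrix idx idx ℂ}
    (h : Polynomial.aeval Z (infPoly n D L) = 0) :
    Polynomial.aeval (((L : ℂ) * D / n) • (1 : Matrix idx idx ℂ) - Z) (eigPoly n D) = 0 := by
  have hnC : (n : ℂ) ≠ 0 := by exact_mod_cast hn.ne'
  have e1 : Polynomial.aeval (((L : ℂ) * D / n) • (1 : Matrix idx idx ℂ) - Z) (eigPoly n D) =
      (-1 : Matrix idx idx ℂ) ^ n * Polynomial.aeval Z (infPoly n D L) := by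
    have e2 : ((L : ℂ) * D / n) • (1 : Matrix idx idx ℂ) - Z = Polynomial.aeval Z
        (Polynomial.C ((L : ℂ) * D / n) - Polynomial.X) := by
      rw [map_sub, Polynomial.aeval_C, Polynomial.aeval_X, Algebra.algebraMap_eq_smul_one]
    have e3 : ((eigPoly n D).map (algebraMap ℤ ℂ)).comp
        (Polynomial.C ((L : ℂ) * D / n) - Polynomial.X) =
        (-1) ^ n * (infPoly n D L).map (algebraMap ℤ ℂ) := by
      unfold eigPoly infPoly
      rw [Polynomial.map_prod, Polynomial.map_prod, Polynomial.prod_comp]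
      have e4 : ((-1 : Polynomial ℂ)) ^ n = ∏ _j ∈ range n, (-1 : Polynomial ℂ) := by
        rw [Finset.prod_const, Finset.card_range]
      rw [e4, ← Finset.prod_mul_distrib]
      refine Finset.prod_congr rfl fun j _ => ?_
      simp only [Polynomial.map_sub, Polynomial.map_mul, Polynomial.map_C, Polynomial.map_X,
        Polynomial.sub_comp, Polynomial.mul_comp, Polynomial.C_comp, Polynomial.X_comp]
      have e5 : (Polynomial.C ((algebraMap ℤ ℂ) (n : ℤ)) : Polynomial ℂ) *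
          Polynomial.C ((L : ℂ) * D / n) = Polynomial.C ((L : ℂ) * D) := by
        rw [← Polynomial.C_mul]
        congr 1
        simp only [algebraMap_int_eq, eq_intCast, Int.cast_natCast]
        field_simp
      have e6 : (Polynomial.C ((algebraMap ℤ ℂ) (((L : ℤ) - j) * D)) : Polynomial ℂ) =
          Polynomial.C ((L : ℂ) * D) - Polynomial.C ((algebraMap ℤ ℂ) ((j : ℤ) * D)) := by
        rw [← Polynomial.C_sub]
        congr 1
        simp only [algebraMap_int_eq, eq_intCast, Int.cast_mul, Int.cast_sub, Int.cast_natCast]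
        ring
      rw [e6]
      linear_combination e5
    have e4 := congrArg (Polynomial.aeval Z) e3
    rw [Polynomial.aeval_comp, ← e2, Polynomial.aeval_map_algebraMap, map_mul, map_pow, map_neg,
      map_one, Polynomial.aeval_map_algebraMap] at e4
    exact e4
  rw [e1, h, mul_zero]

end spec

section core

lemma subst_add' {Φ f g : PowerSeries ℂ} (hs : PowerSeries.HasSubst Φ) :
    (f + g).subst Φ = f.subst Φ + g.subst Φ := PowerSeries.subst_add hs f g

lemma subst_neg' {Φ f : PowerSeries ℂ} (hs : PowerSeries.HasSubst Φ) :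
    (-f).subst Φ = -f.subst Φ := by
  rw [← PowerSeries.coe_substAlgHom hs, map_neg]

lemma subst_zero' {Φ : PowerSeries ℂ} (hs : PowerSeries.HasSubst Φ) :
    (0 : PowerSeries ℂ).subst Φ = 0 := by
  rw [← PowerSeries.coe_substAlgHom hs, map_zero]

/-- The additive group of the power series with good denominators whose pull-back, multiplied with
`u`, is holomorphic. -/
def goodGroup (κ : ℕ) (S : Finset ℕ) (E : Set ℕ) (ℓ : ℕ → ℝ) {u Φ : PowerSeries ℂ}
    (hsub : PowerSeries.HasSubst Φ) : AddSubgroup (PowerSeries ℚ) where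
  carrier := {f | Good κ S E ℓ f ∧ Sm (1 / 2) (f.map (algebraMap ℚ ℝ)) ∧
    CConv (u * (f.map (algebraMap ℚ ℂ)).subst Φ)}
  add_mem' := by
    rintro f g ⟨h1, h2, h3⟩ ⟨k1, k2, k3⟩
    refine ⟨h1.add k1, ?_, ?_⟩
    · rw [map_add]
      exact Sm.add (by norm_num) h2 k2
    · rw [map_add, subst_add' hsub, mul_add]
      exact h3.add k3
  zero_mem' := by
    refine ⟨Good.zero, ?_, ?_⟩
    · rw [map_zero]
      simpa using Sm.C (R := 1 / 2) 0
    · rw [map_zero, subst_zero' hsub, mul_zero]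
      exact CConv.zero
  neg_mem' := by
    rintro f ⟨h1, h2, h3⟩
    refine ⟨h1.neg, ?_, ?_⟩
    · rw [map_neg]
      exact h2.neg
    · rw [map_neg, subst_neg' hsub, mul_neg]
      exact h3.neg

lemma DenGrowth.pow {Λ : ℝ} {f : PowerSeries ℚ} (h : DenGrowth Λ f) (n : ℕ) :
    DenGrowth Λ (f ^ n) := by
  intro k
  obtain ⟨K, hK⟩ := h (n * k)
  refine ⟨K, fun N => ?_⟩
  obtain ⟨d, h1, h2, h3⟩ := hK N
  refine ⟨d, h1, h2, fun m hm s hs => ?_⟩
  rw [← pow_mul]
  exact h3 _ (Nat.mul_le_mul_left _ hm) s hs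

/-- For every choice of the local data of total defect at most `δ` there are additive groups of
algebraic power series of bounded degree which contain the columns of the fundamental matrices of
all systems on the compact orbifold with these local data. -/
theorem tri_galg {n₀ n₁ n₂ : ℕ} (hn₀ : 0 < n₀) (hn₁ : 0 < n₁) (hn₂ : 0 < n₂) (L : ℕ) {R δ : ℝ}
    (hR0 : 0 < R) (hR : TriRadius n₀ n₁ n₂ R) (hδ0 : 0 ≤ δ) (hδ : δ < Real.log R) : ∃ M : ℕ,
    ∀ (κ : ℕ) (S : Finset ℕ), (∀ p ∈ S, p.Prime) → ∀ (E : Set ℕ), Summable (sparseTerm E) →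
      ∀ (ℓ : ℕ → ℝ), (∀ p, 0 ≤ ℓ p) → defect κ S E ℓ ≤ δ →
      ∃ F : Fin n₀ → AddSubgroup (PowerSeries ℚ),
      (∀ j, ∀ f ∈ F j, ∃ P : Polynomial (Polynomial ℚ), P ≠ 0 ∧ P.natDegree < M ∧
        Polynomial.aeval f P = 0) ∧
      ∀ (idx : Type) [Fintype idx] [DecidableEq idx] (A₁ : Matrix idx idx (Polynomial ℤ)) (D : ℕ)
      (jj : idx → Fin n₀) (U : Matrix idx idx (PowerSeries ℚ)), D ≠ 0 → (ccM U).det ≠ 0 →
      (∀ j, IsSolG (Aps (Int.castRingHom ℚ) (D : ℚ)⁻¹ 1 A₁) (((jj j : ℕ) : ℚ) / n₀)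
        (fun i => U i j)) →
      (∀ i j, ∃ z : ℤ, PowerSeries.coeff 0 (U i j) = z) →
      (∀ p, p.Prime → p ∣ D → p ∈ S) →
      (∀ (p : ℕ) [Fact p.Prime], p ∈ S → ∀ i j, PadicRadius p (U i j) (ℓ p)) →
      (∀ (p : ℕ) [Fact p.Prime], p ∉ S → p ∉ E →
        MG (Aps (Int.castRingHom (ZMod p)) (D : ZMod p)⁻¹ 1 A₁) p = 0) →
      (∀ i j, (A₁ i j).natDegree ≤ 1) →
      Polynomial.aeval (-(A₁.map fun a => a.coeff 0)) (eigPoly n₀ D) = 0 →
      Polynomial.aeval (A₁.map (Polynomial.eval 1)) (eigPoly n₁ D) = 0 →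
      Polynomial.aeval (A₁.map fun a => a.coeff 1) (infPoly n₂ D L) = 0 →
      numExp (fun i => ((jj i : ℕ) : ℚ) / n₀) ≤ κ → ∀ i j, U i j ∈ F (jj j) := by
  classical
  obtain ⟨s, v, w, a, b, hs, hv, hw, ha, hb, hs0, hrel, hab, hRs⟩ := hR
  obtain ⟨σ, hσ⟩ := (PowerSeries.X_dvd_iff).mpr hs0
  have hs1 : PowerSeries.coeff 1 s = PowerSeries.constantCoeff σ := by
    rw [hσ, mul_comm, show (1 : ℕ) = 0 + 1 from rfl, PowerSeries.coeff_succ_mul_X,
      PowerSeries.coeff_zero_eq_constantCoeff_apply]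
  have hwc : PowerSeries.constantCoeff w ≠ 0 := by
    intro h1
    have h2 := congrArg PowerSeries.constantCoeff hab
    rw [map_add, map_mul, map_mul, hs0, h1, mul_zero, mul_zero, add_zero, map_one] at h2
    exact zero_ne_one h2
  set σ₀ : ℂ := PowerSeries.constantCoeff σ with hσ₀
  set w₀ : ℂ := PowerSeries.constantCoeff w with hw₀
  have hw₀n : 0 < ‖w₀‖ ^ n₂ := pow_pos (norm_pos_iff.mpr hwc) _
  have hσ0 : σ₀ ≠ 0 := by
    intro h
    rw [hs1, h, norm_zero, zero_pow hn₀.ne'] at hRs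
    have := mul_pos hR0 hw₀n
    linarith
  have hσC : CConv σ := by
    refine cconv_of_X_pow_mul (m := 1) ?_
    rw [pow_one, ← hσ]
    exact hs
  have hwiw : w * w⁻¹ = 1 := PowerSeries.mul_inv_cancel w hwc
  obtain ⟨ω, hω⟩ := exists_root hwc hn₀
  have hωc : PowerSeries.constantCoeff ω ≠ 0 := by
    intro h1
    apply hwc
    rw [hw₀, ← hω, map_pow, h1, zero_pow hn₀.ne']
  have hωiω : ω * ω⁻¹ = 1 := PowerSeries.mul_inv_cancel ω hωc
  obtain ⟨Λ, hΛ1, hΛ2⟩ : ∃ Λ, Real.exp δ < Λ ∧ Λ < R := by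
    refine exists_between ?_
    calc Real.exp δ < Real.exp (Real.log R) := Real.exp_lt_exp.mpr hδ
      _ = R := Real.exp_log hR0
  have hΛ : 1 ≤ Λ := (Real.one_le_exp hδ0).trans hΛ1.le
  set a₁ : ℕ := n₀ * (n₀ - 1) with ha₁
  set a₂ : ℕ := L * n₀ + n₂ with ha₂
  set cQ : ℂ := (σ₀⁻¹) ^ a₁ * (w₀⁻¹) ^ a₂ with hcQ
  set Q : PowerSeries ℂ := PowerSeries.C cQ * (σ ^ a₁ * w ^ a₂) with hQ
  have hQC : CConv Q := (CConv.C _).mul ((hσC.pow _).mul (hw.pow _))
  set Φ : PowerSeries ℂ := s ^ n₀ * w⁻¹ ^ n₂ with hΦdef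
  have hΦ : Φ = PowerSeries.X ^ n₀ * (σ ^ n₀ * w⁻¹ ^ n₂) := by
    rw [hΦdef]
    conv_lhs => rw [hσ, mul_pow]
    rw [mul_assoc]
  have hsub : PowerSeries.HasSubst Φ := by
    refine PowerSeries.HasSubst.of_constantCoeff_zero' ?_
    rw [hΦdef, map_mul, map_pow, hs0, zero_pow hn₀.ne', zero_mul]
  have hwn : ∀ n : ℕ, w ^ n * w⁻¹ ^ n = 1 := fun n => by rw [← mul_pow, hwiw, one_pow]
  obtain ⟨M, hM⟩ := criterionU (ρ := 1 / 2) hΛ (by norm_num) hn₀ (Φ := Φ)
    (Φ' := σ ^ n₀ * w⁻¹ ^ n₂) (Q := Q) hΦ (by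
      have h1 : PowerSeries.constantCoeff (w⁻¹) = w₀⁻¹ := by
        rw [PowerSeries.constantCoeff_inv]
      rw [map_mul, map_pow, map_pow, h1, ← hσ₀, norm_mul, norm_pow, norm_pow, norm_inv, ← hs1,
        inv_pow, ← div_eq_mul_inv, lt_div_iff₀ hw₀n]
      exact lt_of_lt_of_le (mul_lt_mul_of_pos_right hΛ2 hw₀n) hRs) hQC (by
      simp only [hQ, hcQ, map_mul, map_pow, PowerSeries.constantCoeff_C, ← hσ₀, ← hw₀]
      have h1 : σ₀⁻¹ ^ a₁ * σ₀ ^ a₁ = 1 := by rw [← mul_pow, inv_mul_cancel₀ hσ0, one_pow]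
      have h2 : w₀⁻¹ ^ a₂ * w₀ ^ a₂ = 1 := by rw [← mul_pow, inv_mul_cancel₀ hwc, one_pow]
      linear_combination (w₀⁻¹ ^ a₂ * w₀ ^ a₂) * h1 + h2)
    (by
      have h1 : Q * Φ = PowerSeries.C cQ * (σ ^ a₁ * (w ^ (L * n₀) * s ^ n₀)) := by
        rw [hQ, hΦdef, ha₂, pow_add]
        linear_combination (PowerSeries.C cQ * (σ ^ a₁ * (w ^ (L * n₀) * s ^ n₀))) * hwn n₂
      rw [h1]
      exact (CConv.C _).mul ((hσC.pow _).mul ((hw.pow _).mul (hs.pow _))))
  refine ⟨M * n₀, ?_⟩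
  intro κ S hS E hE ℓ hℓ hdef
  set u : Fin n₀ → PowerSeries ℂ := fun j =>
    s ^ (j : ℕ) * w ^ L * ω⁻¹ ^ (n₂ * (j : ℕ)) with hu
  refine ⟨fun j => goodGroup κ S E ℓ (u := u j) hsub, ?_, ?_⟩
  · rintro j f ⟨hf1, hf2, hf3⟩
    have hden : DenGrowth Λ f := hf1.denGrowth hS hE hℓ
      (lt_of_le_of_lt (Real.exp_le_exp.mpr hdef) hΛ1)
    obtain ⟨P, hP0, hPd, hP⟩ := hM (f ^ n₀) (hden.pow n₀)
      (by rw [map_pow]; exact Sm.pow (by norm_num) hf2 n₀) (by
        rw [map_pow, PowerSeries.subst_pow hsub]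
        set g := PowerSeries.subst Φ (PowerSeries.map (algebraMap ℚ ℂ) f) with hg
        have h1 := (hw.pow (n₂ * (j : ℕ))).mul (hf3.pow n₀)
        have h2 : w ^ (n₂ * (j : ℕ)) * (u j * g) ^ n₀ = PowerSeries.X ^ ((j : ℕ) * n₀) *
            (σ ^ ((j : ℕ) * n₀) * w ^ (L * n₀) * g ^ n₀) := by
          have h3 : w ^ (n₂ * (j : ℕ)) * (ω⁻¹ ^ (n₂ * (j : ℕ))) ^ n₀ = 1 := by
            rw [← hω, ← pow_mul, ← pow_mul, mul_comm (n₂ * (j : ℕ)) n₀, ← mul_pow, hωiω, one_pow]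
          rw [hu]
          simp only
          rw [mul_pow, mul_pow, mul_pow, ← pow_mul, ← pow_mul]
          have h4 : s ^ ((j : ℕ) * n₀) = PowerSeries.X ^ ((j : ℕ) * n₀) * σ ^ ((j : ℕ) * n₀) := by
            conv_lhs => rw [hσ, mul_pow]
          linear_combination (s ^ ((j : ℕ) * n₀) * w ^ (L * n₀) * g ^ n₀) * h3 +
            (w ^ (L * n₀) * g ^ n₀) * h4
        rw [h2] at h1
        have h3 := cconv_of_X_pow_mul h1
        have h4 : Q * g ^ n₀ = PowerSeries.C cQ * (σ ^ (n₀ * (n₀ - 1 - (j : ℕ))) * w ^ n₂) *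
            (σ ^ ((j : ℕ) * n₀) * w ^ (L * n₀) * g ^ n₀) := by
          have h5 : σ ^ a₁ = σ ^ (n₀ * (n₀ - 1 - (j : ℕ))) * σ ^ ((j : ℕ) * n₀) := by
            rw [← pow_add, ha₁, mul_comm (j : ℕ) n₀, ← mul_add]
            congr 2
            have := j.2
            omega
          rw [hQ, ha₂, pow_add, h5]
          ring
        rw [h4]
        exact ((CConv.C _).mul ((hσC.pow _).mul (hw.pow _))).mul h3)
    refine ⟨Polynomial.expand (Polynomial ℚ) n₀ P, ?_, ?_, ?_⟩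
    · rwa [Ne, Polynomial.expand_eq_zero hn₀]
    · rw [Polynomial.natDegree_expand]
      exact Nat.mul_lt_mul_of_pos_right hPd hn₀
    · rw [Polynomial.expand_aeval]
      exact hP
  · intro idx _ _ A₁ D jj U hD hdet hU hint hDS hbad hgood hdeg h0 h1 h2 hκ i j
    set β : idx → ℚ := fun i => ((jj i : ℕ) : ℚ) / n₀ with hβ
    have hn₀Q : (0 : ℚ) < n₀ := by exact_mod_cast hn₀
    have hgap : ∀ i j, |β i - β j| < 1 := by
      intro i j
      rw [hβ]
      simp only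
      rw [← sub_div, abs_div, abs_of_pos hn₀Q, div_lt_one hn₀Q, abs_lt]
      have h2 : ((jj i : ℕ) : ℚ) < n₀ := by exact_mod_cast (jj i).2
      have h3 : ((jj j : ℕ) : ℚ) < n₀ := by exact_mod_cast (jj j).2
      have h4 : (0 : ℚ) ≤ ((jj i : ℕ) : ℚ) := Nat.cast_nonneg _
      have h5 : (0 : ℚ) ≤ ((jj j : ℕ) : ℚ) := Nat.cast_nonneg _
      constructor <;> linarith
    refine ⟨good_entry hD hgap hdet hU hint hDS hbad hgood hκ i j, ?_, ?_⟩
    · -- growth
      have hRr : IsSolG (Aps (Int.castRingHom ℝ) ((D : ℝ)⁻¹) 1 A₁) ((β j : ℚ) : ℝ)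
          (fun i => PowerSeries.map (algebraMap ℚ ℝ) (U i j)) := by
        have h3 := (hU j).map (algebraMap ℚ ℝ)
        rw [Aps_map] at h3
        have h4 : (algebraMap ℚ ℝ) (D : ℚ)⁻¹ = (D : ℝ)⁻¹ := by
          rw [map_inv₀, map_natCast]
        rw [h4] at h3
        have h5 : (algebraMap ℚ ℝ).comp (Int.castRingHom ℚ) = Int.castRingHom ℝ :=
          Subsingleton.elim _ _
        rw [h5] at h3
        exact h3
      exact hRr.conv i (1 / 2) (by norm_num) (by norm_num)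
    · -- the pull-back
      have hC : IsSolG (Aps (Int.castRingHom ℂ) ((D : ℂ)⁻¹) 1 A₁) (((jj j : ℕ) : ℂ) / (n₀ : ℂ))
          (fun i => PowerSeries.map (algebraMap ℚ ℂ) (U i j)) := by
        have h3 := (hU j).map (algebraMap ℚ ℂ)
        rw [Aps_map] at h3
        have h4 : (algebraMap ℚ ℂ) (D : ℚ)⁻¹ = (D : ℂ)⁻¹ := by
          rw [map_inv₀, map_natCast]
        rw [h4] at h3
        have h5 : (algebraMap ℚ ℂ).comp (Int.castRingHom ℚ) = Int.castRingHom ℂ :=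
          Subsingleton.elim _ _
        rw [h5, map_div₀, map_natCast, map_natCast] at h3
        exact h3
      have hDC : (D : ℂ) ≠ 0 := by exact_mod_cast hD
      set Z₀ : Matrix idx idx ℂ := (-(A₁.map fun a => a.coeff 0)).map (Int.castRingHom ℂ) with hZ₀
      set Z₁ : Matrix idx idx ℂ := (A₁.map (Polynomial.eval 1)).map (Int.castRingHom ℂ) with hZ₁
      set Z₂ : Matrix idx idx ℂ := (A₁.map fun a => a.coeff 1).map (Int.castRingHom ℂ) with hZ₂
      obtain ⟨P, hP⟩ := exists_spec (Z := Z₀) hn₀ hD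
        (eigPoly_map (Int.castRingHom ℂ).mapMatrix h0)
      obtain ⟨P₁, hP₁⟩ := exists_spec (Z := Z₁) hn₁ hD
        (eigPoly_map (Int.castRingHom ℂ).mapMatrix h1)
      obtain ⟨P₂, hP₂⟩ := exists_spec (Z := ((L : ℂ) * D / n₂) • (1 : Matrix idx idx ℂ) - Z₂)
        hn₂ hD (eigPoly_of_infPoly hn₂ (infPoly_map (Int.castRingHom ℂ).mapMatrix h2))
      exact tri_conv (L := L) hn₀ hn₁ hn₂ hs hv hw ha hb hs0 (by rw [hs1]; exact hσ0) hrel hab hω
        (A := Aps (Int.castRingHom ℂ) ((D : ℂ)⁻¹) 1 A₁)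
        (A₀ := (D : ℂ)⁻¹ • (A₁.map fun a => a.coeff 0).map (Int.castRingHom ℂ))
        (A₁ := (D : ℂ)⁻¹ • Z₂)
        (Aps_linear A₁ _ hdeg) (B := (D : ℂ)⁻¹ • Z₀) (C := (D : ℂ)⁻¹ • Z₁)
        (E := (D : ℂ)⁻¹ • (((L : ℂ) * D / n₂) • (1 : Matrix idx idx ℂ) - Z₂)) (by
          rw [← smul_neg]
          congr 1
          ext1 a b
          rw [hZ₀]
          simp) (by
          rw [← smul_add]
          congr 1
          ext1 a b
          rw [hZ₁, hZ₂, Matrix.add_apply]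
          simp only [Matrix.map_apply]
          rw [← map_add]
          congr 1
          have h3 := Polynomial.eq_X_add_C_of_natDegree_le_one (hdeg a b)
          conv_lhs => rw [h3]
          simp [add_comm]) (by
          rw [smul_sub, smul_smul]
          congr 2
          field_simp) hP hP₁ hP₂ hC i

end core

end Pool.Agent.H925
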