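import Pool.Agent.H925.OrbGen
import Pool.Agent.H925.TriAlg
import Pool.Agent.H925.VertK

set_option autoImplicit false

open Finset

namespace Pool.Agent.H925

open Pool.Agent.Helper338PC (th coeff_th th_mul' th_add' th_sum' th_C th_one wg Aps IsSolG
  Aps_apply X_sub_one_mul_wg Sm LM coeff_LM sparseTerm)

section map

variable {k k' idx : Type*} [CommRing k] [CommRing k'] [Fintype idx]

lemma gaugeN_map (φ : k →+* k') (D : ℕ) (A T T' : Matrix idx idx (Polynomial k)) :
    gaugeN D (A.map (Polynomial.map φ)) (T.map (Polynomial.map φ)) (T'.map (Polynomial.map φ)) =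
      (gaugeN D A T T').map (Polynomial.map φ) := by
  classical
  have h1 : ∀ M : Matrix idx idx (Polynomial k), M.map (Polynomial.map φ) =
      (Polynomial.mapRingHom φ).mapMatrix M := fun M => rfl
  have h2 : (T.map (Polynomial.map φ)).map Polynomial.derivative =
      (T.map Polynomial.derivative).map (Polynomial.map φ) := by
    ext1 i j
    simp only [Matrix.map_apply, Polynomial.derivative_map]
  unfold gaugeN
  rw [h2]
  simp only [h1]
  rw [map_add, map_mul, map_mul, ← map_mul]
  congr 1
  ext1 i j
  simp only [Matrix.smul_apply, RingHom.mapMatrix_apply, Matrix.map_apply, smul_eq_mul]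
  rw [map_mul]
  congr 1
  simp only [map_mul, map_sub, map_one, map_natCast, Polynomial.coe_mapRingHom, Polynomial.map_X]

variable [DecidableEq idx]

/-- Homomorphisms of the coefficients. -/
theorem InfGauge.map (φ : k →+* k') {D n₂ e m c : ℕ} {A T T' : Matrix idx idx (Polynomial k)}
    (h : InfGauge D n₂ e m c A T T') : InfGauge D n₂ e m c (A.map (Polynomial.map φ))
      (T.map (Polynomial.map φ)) (T'.map (Polynomial.map φ)) := by
  have h1 : ∀ M : Matrix idx idx (Polynomial k), M.map (Polynomial.map φ) =
      (Polynomial.mapRingHom φ).mapMatrix M := fun M => rfl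
  have h2 : (Polynomial.mapRingHom φ).mapMatrix (Matrix.diagonal fun _ : idx =>
      (Polynomial.X : Polynomial k) ^ m) = Matrix.diagonal fun _ => Polynomial.X ^ m := by
    rw [RingHom.mapMatrix_apply, Matrix.diagonal_map (map_zero _)]
    congr 1
    funext i
    rw [map_pow, Polynomial.coe_mapRingHom, Polynomial.map_X]
  refine ⟨?_, ?_, ?_, ?_, ?_⟩
  · rw [h1, h1, ← map_mul, h.mul, h2]
  · rw [h1, h1, ← map_mul, h.mul', h2]
  · intro i j
    exact le_trans (Nat.add_le_add_right Polynomial.natDegree_map_le _) (h.deg i j)
  · intro i j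
    rw [gaugeN_map]
    exact le_trans Polynomial.natDegree_map_le (h.degN i j)
  · rw [gaugeN_map]
    have h3 := eigPoly_map φ.mapMatrix h.res
    have h4 : φ.mapMatrix ((Matrix.diagonal fun _ => ((c * D : ℕ) : k)) -
        ((gaugeN D A T T').map fun a => a.coeff (m + 1))) =
        (Matrix.diagonal fun _ => ((c * D : ℕ) : k')) -
        (((gaugeN D A T T').map (Polynomial.map φ)).map fun a => a.coeff (m + 1)) := by
      rw [map_sub, RingHom.mapMatrix_apply, Matrix.diagonal_map (map_zero _)]
      congr 1
      · congr 1
        funext i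
        exact map_natCast φ _
      · ext i j
        rw [RingHom.mapMatrix_apply, Matrix.map_apply, Matrix.map_apply, Matrix.map_apply,
          Matrix.map_apply, Polynomial.coeff_map]
    rw [← h4]
    exact h3

end map

section embed

variable {K : Type} [Field K] [NumberField K] {ι : Type*} [Fintype ι] [DecidableEq ι]

/-- The complex power series of the restriction of scalars. -/
theorem map_LM (b : Module.Basis ι ℚ K) (f : PowerSeries K) (i j : ι) :
    ∃ c : (K →ₐ[ℚ] ℂ) → ℂ, PowerSeries.map (algebraMap ℚ ℂ) (LM b f i j) =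
      ∑ σ : K →ₐ[ℚ] ℂ, PowerSeries.C (c σ) * PowerSeries.map (σ : K →+* ℂ) f := by
  classical
  set b' := (Algebra.traceForm ℚ K).dualBasis (traceForm_nondegenerate ℚ K) b with hb'
  refine ⟨fun σ => σ (b' i * b j), ?_⟩
  ext s
  rw [PowerSeries.coeff_map, coeff_LM, map_sum, Algebra.leftMulMatrix_eq_repr_mul]
  set y := PowerSeries.coeff s f * b j with hy
  have h1 : b.repr y i = Algebra.trace ℚ K (b' i * y) := by
    have h2 : Algebra.traceForm ℚ K (b' i) y = b.repr y i := by
      conv_lhs => rw [← b.sum_repr y]
      rw [map_sum]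
      rw [Finset.sum_eq_single i]
      · rw [map_smul, LinearMap.BilinForm.apply_dualBasis_left
          (traceForm_nondegenerate ℚ K) b, if_pos rfl]
        simp
      · intro l _ hl
        rw [map_smul, LinearMap.BilinForm.apply_dualBasis_left
          (traceForm_nondegenerate ℚ K) b, if_neg hl]
        simp
      · intro h; exact absurd (mem_univ i) h
    rw [← h2, Algebra.traceForm_apply]
  rw [h1, trace_eq_sum_embeddings]
  refine Finset.sum_congr rfl fun σ _ => ?_
  rw [PowerSeries.coeff_C_mul, PowerSeries.coeff_map, hy]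
  change σ _ = σ _ * σ _
  rw [← map_mul]
  congr 1
  ring

end embed

end Pool.Agent.H925
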