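import Pool.Agent.H925.OneGen
import Pool.Agent.H925.OrbMap

set_option autoImplicit false

open Finset

namespace Pool.Agent.H925

section map

variable {k k' idx : Type*} [CommRing k] [CommRing k'] [Fintype idx] [DecidableEq idx]

lemma OneG.map (φ : k →+* k') {D m : ℕ} {A A₁ T T' : Matrix idx idx (Polynomial k)}
    (h : OneG D m A A₁ T T') : OneG D m (A.map (Polynomial.map φ)) (A₁.map (Polynomial.map φ))
      (T.map (Polynomial.map φ)) (T'.map (Polynomial.map φ)) := by
  have h1 : ∀ M : Matrix idx idx (Polynomial k), M.map (Polynomial.map φ) =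
      (Polynomial.mapRingHom φ).mapMatrix M := fun M => rfl
  have h2 : (Polynomial.mapRingHom φ).mapMatrix (Matrix.diagonal fun _ : idx =>
      ((Polynomial.X : Polynomial k) - 1) ^ m) =
        Matrix.diagonal fun _ => (Polynomial.X - 1) ^ m := by
    rw [RingHom.mapMatrix_apply, Matrix.diagonal_map (map_zero _)]
    congr 1
    funext i
    rw [map_pow, map_sub, map_one, Polynomial.coe_mapRingHom, Polynomial.map_X]
  refine ⟨?_, ?_, ?_⟩
  · rw [h1, h1, ← map_mul, h.mul, h2]
  · rw [h1, h1, ← map_mul, h.mul', h2]
  · have h3 : (T.map (Polynomial.map φ)).map Polynomial.derivative =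
        (T.map Polynomial.derivative).map (Polynomial.map φ) := by
      ext1 i j
      simp only [Matrix.map_apply, Polynomial.derivative_map]
    have h4 := congrArg (Polynomial.mapRingHom φ).mapMatrix h.eq
    rw [map_add, map_mul, map_mul] at h4
    rw [h3, h1, h1, h1, h1, ← h4]
    congr 1
    ext1 i j
    simp only [Matrix.smul_apply, RingHom.mapMatrix_apply, Matrix.map_apply, smul_eq_mul]
    rw [map_mul]
    congr 1
    simp only [map_mul, map_sub, map_one, map_natCast, Polynomial.coe_mapRingHom, Polynomial.map_X]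

/-- Homomorphisms of the coefficients. -/
theorem OneGauge.map (φ : k →+* k') {D n₁ m c : ℕ} {A A₁ T T' : Matrix idx idx (Polynomial k)}
    (h : OneGauge D n₁ m c A A₁ T T') : OneGauge D n₁ m c (A.map (Polynomial.map φ))
      (A₁.map (Polynomial.map φ)) (T.map (Polynomial.map φ)) (T'.map (Polynomial.map φ)) := by
  refine ⟨h.gauge.map φ, ?_⟩
  have h3 := eigPoly_map φ.mapMatrix h.res
  have h4 : φ.mapMatrix ((A₁.map (Polynomial.eval 1)) -
      Matrix.diagonal fun _ => ((c * D : ℕ) : k)) =
      ((A₁.map (Polynomial.map φ)).map (Polynomial.eval 1)) -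
        Matrix.diagonal fun _ => ((c * D : ℕ) : k') := by
    rw [map_sub]
    congr 1
    · ext i j
      rw [RingHom.mapMatrix_apply, Matrix.map_apply, Matrix.map_apply, Matrix.map_apply,
        Matrix.map_apply, Polynomial.eval_one_map]
    · rw [RingHom.mapMatrix_apply, Matrix.diagonal_map (map_zero _)]
      congr 1
      funext i
      exact map_natCast φ _
  rw [← h4]
  exact h3

end map

end Pool.Agent.H925
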