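import Pool.Agent.H925.PCStm

set_option autoImplicit false

open Finset

/-!
# The residue at `1` and the powers of the connection (helper914)

The statement `S_ONEPC` of helper925; adapted from `t_INFPC` (`Pool/Agent/H925/InfPC.lean`).
-/

namespace Pool.Agent.H914.OnePC

open Pool.Agent.Helper338PC Pool.Agent.H925

section pc

variable {k : Type} [Field k] {r : ℕ}

/-- The derivative of a vector of rational functions. -/
noncomputable def dvec1 (v : Fin r → RatFunc k) : Fin r → RatFunc k := fun i => W432.PC.ddx k (v i)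

lemma dvec1_mulVec (M : Matrix (Fin r) (Fin r) (RatFunc k)) (v : Fin r → RatFunc k) :
    dvec1 (M.mulVec v) = (M.map (W432.PC.ddx k)).mulVec v + M.mulVec (dvec1 v) := by
  funext i
  simp only [dvec1, Matrix.mulVec, dotProduct, map_sum, Pi.add_apply, Matrix.map_apply]
  rw [← Finset.sum_add_distrib]
  refine Finset.sum_congr rfl fun l _ => ?_
  rw [Derivation.leibniz, smul_eq_mul, smul_eq_mul]
  ring

lemma dvec1_smul (f : RatFunc k) (v : Fin r → RatFunc k) :
    dvec1 (f • v) = W432.PC.ddx k f • v + f • dvec1 v := by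
  funext i
  simp only [dvec1, Pi.smul_apply, Pi.add_apply, smul_eq_mul]
  rw [Derivation.leibniz, smul_eq_mul, smul_eq_mul]
  ring

lemma sysNabla_eq1 (G : Matrix (Fin r) (Fin r) (RatFunc k)) (v : Fin r → RatFunc k) :
    sysNabla G v = dvec1 v - G.mulVec v := rfl

/-- The change of the frame. -/
lemma frame_change1 {G T dT A₁ A : Matrix (Fin r) (Fin r) (RatFunc k)} {d z : RatFunc k}
    (hd : d ≠ 0) (hdT : T.map (W432.PC.ddx k) = dT)
    (hG : (z * d) • G = A) (hN : (z * d) • dT + T * A = A₁ * T)
    (v : Fin r → RatFunc k) :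
    z • T.mulVec (sysNabla G v) =
      z • dvec1 (T.mulVec v) - d⁻¹ • A₁.mulVec (T.mulVec v) := by
  have h1 : A₁ * T = d • (z • dT + T * (z • G)) := by
    rw [← hN, ← hG]
    simp only [Matrix.mul_smul, smul_add, smul_smul]
    congr 1
    · congr 1; ring
    · congr 1; ring
  rw [Matrix.mulVec_mulVec, h1, sysNabla_eq1, dvec1_mulVec, hdT, Matrix.mulVec_sub,
    Matrix.smul_mulVec, smul_smul, inv_mul_cancel₀ hd, one_smul,
    Matrix.add_mulVec, Matrix.smul_mulVec, Matrix.mul_smul, Matrix.smul_mulVec,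
    Matrix.mulVec_mulVec, smul_sub, smul_add]
  abel

/-- The vectors of polynomials. -/
noncomputable def polyVec1 (q : Polynomial k) (N : Matrix (Fin r) (Fin r) (Polynomial k))
    (w : Fin r → k) : ℕ → Fin r → Polynomial k
  | 0 => fun i => Polynomial.C (w i)
  | j + 1 => fun i => q * ((Polynomial.X - 1) * Polynomial.derivative (polyVec1 q N w j i)) -
      (j : Polynomial k) * ((Polynomial.X - 1) * Polynomial.derivative q) * polyVec1 q N w j i -
      N.mulVec (polyVec1 q N w j) i - (j : Polynomial k) * (q * polyVec1 q N w j i)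

lemma polyVec1_eval {a : k} {q : Polynomial k} (hq : q.eval 1 = a)
    (N : Matrix (Fin r) (Fin r) (Polynomial k)) (w : Fin r → k) (j : ℕ) :
    ∀ i, (polyVec1 q N w j i).eval 1 = (-1) ^ j * (Polynomial.aeval (N.map (Polynomial.eval 1))
        (∏ i ∈ range j, (Polynomial.X + Polynomial.C ((i : k) * a)))).mulVec w i := by
  set B : Matrix (Fin r) (Fin r) k := N.map (Polynomial.eval 1) with hB
  induction j with
  | zero =>
    intro i
    simp [polyVec1]
  | succ j ih =>
    intro i
    set P := polyVec1 q N w j with hP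
    change (q * ((Polynomial.X - 1) * Polynomial.derivative (P i)) -
      (j : Polynomial k) * ((Polynomial.X - 1) * Polynomial.derivative q) * P i -
      N.mulVec P i - (j : Polynomial k) * (q * P i)).eval 1 = _
    have h3 : (N.mulVec P i).eval 1 = B.mulVec (fun l => (P l).eval 1) i := by
      unfold Matrix.mulVec dotProduct
      rw [Polynomial.eval_finsetSum]
      refine Finset.sum_congr rfl fun l _ => ?_
      rw [Polynomial.eval_mul]
      rfl
    have h4 : (fun l => (P l).eval 1) = (-1 : k) ^ j •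
        (Polynomial.aeval B (∏ i ∈ range j, (Polynomial.X +
          Polynomial.C ((i : k) * a)))).mulVec w := by
      funext l
      rw [Pi.smul_apply, smul_eq_mul]
      exact ih l
    have h5 : (Polynomial.aeval B (∏ i ∈ range (j + 1), (Polynomial.X +
        Polynomial.C ((i : k) * a)))).mulVec w =
        B.mulVec ((Polynomial.aeval B (∏ i ∈ range j, (Polynomial.X +
          Polynomial.C ((i : k) * a)))).mulVec w) + ((j : k) * a) •
          (Polynomial.aeval B (∏ i ∈ range j, (Polynomial.X +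
            Polynomial.C ((i : k) * a)))).mulVec w := by
      rw [Finset.prod_range_succ, mul_comm, map_mul, map_add, Polynomial.aeval_X,
        Polynomial.aeval_C, ← Matrix.mulVec_mulVec, Matrix.add_mulVec,
        Algebra.algebraMap_eq_smul_one, Matrix.smul_mulVec, Matrix.one_mulVec]
    simp only [Polynomial.eval_sub, Polynomial.eval_mul, Polynomial.eval_X, Polynomial.eval_one,
      Polynomial.eval_natCast, sub_self, zero_mul, mul_zero, zero_sub]
    rw [h3, h4, h5, Matrix.mulVec_smul, Pi.smul_apply, Pi.add_apply, Pi.smul_apply, smul_eq_mul,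
      smul_eq_mul, ih i, hq]
    ring

lemma ddx_pow1 (f : RatFunc k) (n : ℕ) :
    W432.PC.ddx k (f ^ n) = (n : RatFunc k) * f ^ (n - 1) * W432.PC.ddx k f := by
  rw [(W432.PC.ddx k).leibniz_pow f n, smul_eq_mul, nsmul_eq_mul]
  ring

lemma iter_frame1 {G T dT A₁ A : Matrix (Fin r) (Fin r) (RatFunc k)} {d z : RatFunc k}
    (hd : d ≠ 0) (hz : W432.PC.ddx k z = 1) (hdT : T.map (W432.PC.ddx k) = dT)
    (hG : (z * d) • G = A) (hN : (z * d) • dT + T * A = A₁ * T)
    (v : Fin r → RatFunc k) (j : ℕ) :
    T.mulVec (z ^ (j + 1) • (sysNabla G)^[j + 1] v) =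
      z • dvec1 (T.mulVec (z ^ j • (sysNabla G)^[j] v)) -
        d⁻¹ • A₁.mulVec (T.mulVec (z ^ j • (sysNabla G)^[j] v)) -
        (j : RatFunc k) • T.mulVec (z ^ j • (sysNabla G)^[j] v) := by
  rw [← frame_change1 hd hdT hG hN, Function.iterate_succ_apply']
  set u := (sysNabla G)^[j] v with hu
  have h1 : sysNabla G (z ^ j • u) =
      ((j : RatFunc k) * z ^ (j - 1)) • u + z ^ j • sysNabla G u := by
    rw [sysNabla_eq1, sysNabla_eq1, dvec1_smul, Matrix.mulVec_smul, smul_sub]
    have h2 : W432.PC.ddx k (z ^ j) = (j : RatFunc k) * z ^ (j - 1) := by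
      rw [ddx_pow1, hz, mul_one]
    rw [h2]
    abel
  rw [h1, Matrix.mulVec_add, Matrix.mulVec_smul, Matrix.mulVec_smul, Matrix.mulVec_smul,
    Matrix.mulVec_smul, smul_add, smul_smul, smul_smul, smul_smul]
  have h3 : z * ((j : RatFunc k) * z ^ (j - 1)) = (j : RatFunc k) * z ^ j := by
    cases j with
    | zero => simp
    | succ j =>
      rw [Nat.add_sub_cancel, pow_succ]
      ring
  rw [h3, pow_succ']
  abel

/-- The residue at `1` and the powers of the connection. -/
theorem t_ONEPC : S_ONEPC := by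
  intro R k _ _ φ r D m c n A A₁ T T' hD hc hTT hTT' hgauge hpc
  set ι : Polynomial k →+* RatFunc k := algebraMap (Polynomial k) (RatFunc k) with hι
  have hinj : Function.Injective ι := IsFractionRing.injective (Polynomial k) (RatFunc k)
  set ψ : Polynomial R →+* RatFunc k := ι.comp (Polynomial.mapRingHom φ) with hψ
  have hX : ψ Polynomial.X = RatFunc.X := by
    rw [hψ, RingHom.comp_apply, Polynomial.coe_mapRingHom, Polynomial.map_X, hι,
      RatFunc.algebraMap_X]
  have hX0 : (RatFunc.X : RatFunc k) ≠ 0 := RatFunc.X_ne_zero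
  have hX1 : (RatFunc.X - 1 : RatFunc k) ≠ 0 := by
    have h1 : (RatFunc.X - 1 : RatFunc k) = ι (Polynomial.X - Polynomial.C 1) := by
      rw [hι, map_sub, RatFunc.algebraMap_X, map_one, map_one]
    rw [h1, Ne, map_eq_zero_iff _ hinj]
    exact Polynomial.X_sub_C_ne_zero 1
  have hDF : ((D : ℕ) : RatFunc k) ≠ 0 := by
    have h1 : ((D : ℕ) : RatFunc k) = algebraMap k (RatFunc k) D := (map_natCast _ D).symm
    rw [h1, Ne, map_eq_zero]
    exact hD
  have hcF : ((c : ℕ) : RatFunc k) ≠ 0 := by
    have h1 : ((c : ℕ) : RatFunc k) = algebraMap k (RatFunc k) c := (map_natCast _ c).symm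
    rw [h1, Ne, map_eq_zero]
    exact hc
  obtain ⟨z, hz⟩ : ∃ z : RatFunc k, z = RatFunc.X - 1 := ⟨_, rfl⟩
  have hz0 : z ≠ 0 := by rw [hz]; exact hX1
  have hdz : W432.PC.ddx k z = 1 := by
    rw [hz, map_sub, W432.PC.ddx_X]
    have h1 : W432.PC.ddx k (1 : RatFunc k) = 0 := Derivation.map_one_eq_zero _
    rw [h1, sub_zero]
  obtain ⟨d, hd⟩ : ∃ d : RatFunc k, d = (D : RatFunc k) * RatFunc.X := ⟨_, rfl⟩
  have hd0 : d ≠ 0 := by rw [hd]; exact mul_ne_zero hDF hX0
  set e : RatFunc k := (c : RatFunc k) * z ^ m with he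
  have he0 : e ≠ 0 := mul_ne_zero hcF (pow_ne_zero _ hz0)
  have hdiag : ∀ M N : Matrix (Fin r) (Fin r) (Polynomial R),
      M * N = Matrix.diagonal (fun _ => (c : Polynomial R) * (Polynomial.X - 1) ^ m) →
      M.map ψ * N.map ψ = e • (1 : Matrix (Fin r) (Fin r) (RatFunc k)) := by
    intro M N h
    rw [← Matrix.map_mul, h]
    ext i j
    rw [Matrix.map_apply, Matrix.diagonal_apply, Matrix.smul_apply, Matrix.one_apply]
    split_ifs
    · rw [map_mul, map_pow, map_sub, map_one, hX, map_natCast, smul_eq_mul, mul_one, he, hz]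
    · rw [map_zero, smul_zero]
  have hdT : (T.map ψ).map (W432.PC.ddx k) = (T.map Polynomial.derivative).map ψ := by
    ext1 i j
    simp only [Matrix.map_apply, hψ, RingHom.comp_apply, Polynomial.coe_mapRingHom, hι]
    rw [W432.PC.ddx_algebraMap, Polynomial.derivative_map]
  have hG : (z * d) • sysG φ D 1 A = A.map ψ := by
    ext1 i j
    rw [Matrix.smul_apply, smul_eq_mul]
    unfold sysG
    rw [Matrix.map_apply, Matrix.map_apply, hψ, RingHom.comp_apply, Polynomial.coe_mapRingHom,
      hd, hz, pow_one]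
    field_simp
    rfl
  have hN : (z * d) • ((T.map Polynomial.derivative).map ψ) + T.map ψ * A.map ψ =
      A₁.map ψ * T.map ψ := by
    rw [← Matrix.map_mul, ← Matrix.map_mul, ← hgauge]
    ext1 i j
    rw [Matrix.map_apply, Matrix.add_apply, Matrix.smul_apply, Matrix.map_apply, Matrix.map_apply,
      Matrix.add_apply, Matrix.smul_apply, map_add, smul_eq_mul, smul_eq_mul, map_mul, map_mul,
      map_mul, map_natCast, map_sub, map_one, hX, hd, hz]
    simp only [Matrix.map_apply]
    ring
  set Nk : Matrix (Fin r) (Fin r) (Polynomial k) := A₁.map (Polynomial.mapRingHom φ) with hNk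
  have hNkψ : A₁.map ψ = Nk.map ι := by
    rw [hNk, Matrix.map_map]
    rfl
  obtain ⟨q, hq⟩ : ∃ q : Polynomial k, q = Polynomial.C ((D : ℕ) : k) * Polynomial.X := ⟨_, rfl⟩
  have hqe : ι q = d := by
    rw [hq, map_mul, hι, RatFunc.algebraMap_X, RatFunc.algebraMap_C, hd, map_natCast]
  have hqe0 : ι q ≠ 0 := by
    rw [hqe]
    exact hd0
  have hmain : ∀ w : Fin r → k, ∀ j : ℕ, ∀ i, ι (polyVec1 q Nk w j i) =
      (ι q) ^ j * (T.map ψ).mulVec (z ^ j • (sysNabla (sysG φ D 1 A))^[j]
        (e⁻¹ • (T'.map ψ).mulVec fun l => ι (Polynomial.C (w l)))) i := by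
    intro w j
    set v₀ : Fin r → RatFunc k := e⁻¹ • (T'.map ψ).mulVec fun l => ι (Polynomial.C (w l)) with hv₀
    induction j with
    | zero =>
      intro i
      rw [pow_zero, one_mul, pow_zero, one_smul, Function.iterate_zero, id_eq, hv₀,
        Matrix.mulVec_smul, Matrix.mulVec_mulVec, hdiag _ _ hTT, Matrix.smul_mulVec,
        Matrix.one_mulVec, smul_smul, inv_mul_cancel₀ he0, one_smul]
      rfl
    | succ j ih =>
      intro i
      rw [iter_frame1 hd0 hdz hdT hG hN]
      set F := (T.map ψ).mulVec (z ^ j • (sysNabla (sysG φ D 1 A))^[j] v₀) with hF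
      change ι (q * ((Polynomial.X - 1) * Polynomial.derivative (polyVec1 q Nk w j i)) -
        (j : Polynomial k) * ((Polynomial.X - 1) * Polynomial.derivative q) *
          polyVec1 q Nk w j i -
        Nk.mulVec (polyVec1 q Nk w j) i - (j : Polynomial k) * (q * polyVec1 q Nk w j i)) = _
      have h1 : ι (Nk.mulVec (polyVec1 q Nk w j) i) = (ι q) ^ j * (Nk.map ι).mulVec F i := by
        unfold Matrix.mulVec dotProduct
        rw [map_sum, Finset.mul_sum]
        refine Finset.sum_congr rfl fun l _ => ?_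
        rw [map_mul, ih l]
        simp only [Matrix.map_apply]
        ring
      have h2 : ι (Polynomial.derivative (polyVec1 q Nk w j i)) =
          (j : RatFunc k) * (ι q) ^ (j - 1) * ι (Polynomial.derivative q) * F i +
            (ι q) ^ j * W432.PC.ddx k (F i) := by
        have h21 : ∀ f : Polynomial k, ι (Polynomial.derivative f) = W432.PC.ddx k (ι f) :=
          fun f => (W432.PC.ddx_algebraMap k f).symm
        rw [h21, ih i, (W432.PC.ddx k).leibniz, ddx_pow1, h21, smul_eq_mul, smul_eq_mul]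
        ring
      have hιX : ι (Polynomial.X - 1) = z := by rw [map_sub, map_one, hι, RatFunc.algebraMap_X, hz]
      rw [map_sub, map_sub, map_sub, map_mul, map_mul, map_mul, map_mul, map_mul, map_mul,
        map_mul, map_natCast, h1, h2, ih i, hιX, Pi.sub_apply, Pi.sub_apply, Pi.smul_apply,
        Pi.smul_apply, Pi.smul_apply, smul_eq_mul, smul_eq_mul, smul_eq_mul, hNkψ, ← hqe]
      have h4 : (ι q) * ((j : RatFunc k) * (ι q) ^ (j - 1)) = (j : RatFunc k) * (ι q) ^ j := by
        cases j with
        | zero => simp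
        | succ j =>
          rw [Nat.add_sub_cancel, pow_succ]
          ring
      have h5 : (ι q) ^ (j + 1) * (ι q)⁻¹ = (ι q) ^ j := by
        rw [pow_succ, mul_assoc, mul_inv_cancel₀ hqe0, mul_one]
      change _ = (ι q) ^ (j + 1) * (z * W432.PC.ddx k (F i) -
        (ι q)⁻¹ * (Nk.map ι).mulVec F i - (j : RatFunc k) * F i)
      linear_combination (z * ι (Polynomial.derivative q) * F i) * h4 +
        ((Nk.map ι).mulVec F i) * h5
  set B : Matrix (Fin r) (Fin r) k := (A₁.map (Polynomial.eval 1)).map φ with hB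
  have hBk : Nk.map (Polynomial.eval 1) = B := by
    ext1 i j
    rw [hNk, hB]
    simp only [Matrix.map_apply, Polynomial.coe_mapRingHom]
    rw [Polynomial.eval_map, Polynomial.eval₂_at_one]
  ext i j
  have hq1 : q.eval 1 = (D : k) := by
    rw [hq]
    simp
  have h1 := polyVec1_eval hq1 Nk (Pi.single j 1) n i
  have h2 : polyVec1 q Nk (Pi.single j 1) n i = 0 := by
    apply hinj
    rw [hmain, hpc, smul_zero, Matrix.mulVec_zero, Pi.zero_apply, mul_zero, map_zero]
  rw [h2, Polynomial.eval_zero, hBk] at h1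
  have h3 : (∏ i ∈ range n, (Polynomial.X + Polynomial.C ((i : k) * (D : k)))) =
      annPoly k D n := by
    unfold annPoly
    refine Finset.prod_congr rfl fun i _ => ?_
    push_cast
    rfl
  rw [h3, Matrix.mulVec_single_one] at h1
  have h4 : ((-1 : k) ^ n) ≠ 0 := pow_ne_zero _ (neg_ne_zero.mpr one_ne_zero)
  have h5 := (mul_eq_zero.mp h1.symm).resolve_left h4
  rw [Matrix.zero_apply]
  exact h5

end pc

end Pool.Agent.H914.OnePC
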