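import Pool.Agent.H925.OneBase

/-!
# One shearing step at the point `1` (subtask INF 6 of helper925)
-/

set_option autoImplicit false

open Finset

namespace Pool.Agent.H975.OS

open Pool.Agent.H925

section aux

variable {K : Type} [Field K] {r : ℕ}

theorem map_C_mul (V W : Matrix (Fin r) (Fin r) K) :
    (V * W).map (Polynomial.C : K → Polynomial K) =
      V.map (Polynomial.C : K → Polynomial K) * W.map (Polynomial.C : K → Polynomial K) := by
  exact Matrix.map_mul (f := (Polynomial.C : K →+* Polynomial K))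

theorem map_C_one :
    (1 : Matrix (Fin r) (Fin r) K).map (Polynomial.C : K → Polynomial K) = 1 := by
  exact Matrix.map_one _ (map_zero _) (map_one _)

theorem deriv_mul (S T : Matrix (Fin r) (Fin r) (Polynomial K)) :
    (S * T).map Polynomial.derivative =
      S.map Polynomial.derivative * T + S * T.map Polynomial.derivative := by
  ext1 i j
  simp only [Matrix.map_apply, Matrix.mul_apply, Matrix.add_apply, map_sum,
    Polynomial.derivative_mul, Finset.sum_add_distrib]

theorem deriv_C (V : Matrix (Fin r) (Fin r) K) :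
    (V.map (Polynomial.C : K → Polynomial K)).map Polynomial.derivative = 0 := by
  ext1 i j
  simp

/-- values at `1` of `v N w` -/
theorem eval_conj (V W : Matrix (Fin r) (Fin r) K) (N : Matrix (Fin r) (Fin r) (Polynomial K)) :
    (V.map (Polynomial.C : K → Polynomial K) * N * W.map (Polynomial.C : K → Polynomial K)).map
      (Polynomial.eval 1) = V * (N.map (Polynomial.eval 1)) * W := by
  ext1 i j
  simp only [Matrix.map_apply, Matrix.mul_apply, Polynomial.eval_finsetSum,
    Polynomial.eval_mul, Polynomial.eval_C]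

/-- the diagonal matrix with `x - 1` at `i₀` and `1` otherwise -/
noncomputable def sh (i₀ : Fin r) : Matrix (Fin r) (Fin r) (Polynomial K) :=
  Matrix.diagonal fun i => if i = i₀ then Polynomial.X - 1 else 1

/-- the diagonal matrix with `1` at `i₀` and `x - 1` otherwise -/
noncomputable def sh' (i₀ : Fin r) : Matrix (Fin r) (Fin r) (Polynomial K) :=
  Matrix.diagonal fun i => if i = i₀ then 1 else Polynomial.X - 1

theorem sh_mul (i₀ : Fin r) :
    sh (K := K) i₀ * sh' i₀ = Matrix.diagonal fun _ => Polynomial.X - 1 := by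
  rw [sh, sh', Matrix.diagonal_mul_diagonal]
  congr 1
  funext i
  split_ifs <;> simp

theorem sh'_mul (i₀ : Fin r) :
    sh' (K := K) i₀ * sh i₀ = Matrix.diagonal fun _ => Polynomial.X - 1 := by
  rw [sh, sh', Matrix.diagonal_mul_diagonal]
  congr 1
  funext i
  split_ifs <;> simp

theorem diag_smul (a : Polynomial K) :
    (Matrix.diagonal fun _ => a : Matrix (Fin r) (Fin r) (Polynomial K)) = a • 1 := by
  rw [← Matrix.diagonal_one, Matrix.smul_eq_diagonal_mul, Matrix.diagonal_mul_diagonal]
  simp

theorem deriv_sh (i₀ : Fin r) : (sh (K := K) i₀).map Polynomial.derivative =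
    Matrix.diagonal fun i => if i = i₀ then 1 else 0 := by
  rw [sh, Matrix.diagonal_map (map_zero _)]
  congr 1
  funext i
  by_cases hi : i = i₀
  · simp [hi]
  · simp [hi]

end aux

theorem t_SHEAR1 (hrow : S_DETROW) : S_SHEAR1 := by
  intro K _ r D m A A₁ T T' μ hG hroot
  -- a right eigenvector
  obtain ⟨u, hu0, hu⟩ : ∃ u : Fin r → K, u ≠ 0 ∧
      Matrix.mulVec (Matrix.scalar _ μ - A₁.map (Polynomial.eval 1)) u = 0 := by
    apply Matrix.exists_mulVec_eq_zero_iff.mpr
    rw [← Matrix.eval_charpoly]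
    exact hroot
  have hu1 : Matrix.mulVec (A₁.map (Polynomial.eval 1)) u = μ • u := by
    rw [Matrix.sub_mulVec, sub_eq_zero] at hu
    rw [← hu]
    funext j
    simp [Matrix.scalar_apply, Matrix.mulVec_diagonal]
  obtain ⟨i₀, hi₀⟩ : ∃ i₀, u i₀ ≠ 0 := Function.ne_iff.mp hu0
  set V : Matrix (Fin r) (Fin r) K := Matrix.updateCol 1 i₀ u with hV
  have hdet : V.det = u i₀ := by
    have h1 := Matrix.det_updateRow_sum (1 : Matrix (Fin r) (Fin r) K) i₀ u
    have h2 : (∑ k, u k • (1 : Matrix (Fin r) (Fin r) K) k) = u := by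
      funext j
      simp [Finset.sum_apply, Matrix.one_apply]
    rw [h2] at h1
    have h3 : V = (Matrix.updateRow (1 : Matrix (Fin r) (Fin r) K) i₀ u).transpose := by
      rw [hV, ← Matrix.updateCol_transpose, Matrix.transpose_one]
    rw [h3, Matrix.det_transpose, h1]
    simp
  have hunit : IsUnit V.det := by
    rw [hdet]
    exact isUnit_iff_ne_zero.mpr hi₀
  have hVW : V * V⁻¹ = 1 := Matrix.mul_nonsing_inv V hunit
  have hWV : V⁻¹ * V = 1 := Matrix.nonsing_inv_mul V hunit
  set v := V.map (Polynomial.C : K → Polynomial K) with hv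
  set w := V⁻¹.map (Polynomial.C : K → Polynomial K) with hw
  have hvw : v * w = 1 := by rw [hv, hw, ← map_C_mul, hVW, map_C_one]
  have hwv : w * v = 1 := by rw [hv, hw, ← map_C_mul, hWV, map_C_one]
  set B := w * A₁ * v with hB
  have hB1 : B.map (Polynomial.eval 1) = V⁻¹ * A₁.map (Polynomial.eval 1) * V :=
    eval_conj V⁻¹ V A₁
  have hcol : ∀ i, (B i i₀).eval 1 = if i = i₀ then μ else 0 := by
    intro i
    have h0 : (B i i₀).eval 1 = (V⁻¹ * A₁.map (Polynomial.eval 1) * V) i i₀ := by
      rw [← hB1, Matrix.map_apply]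
    have h1 : (fun j => V j i₀) = u := by
      funext j
      rw [hV, Matrix.updateCol_self]
    have h2 : (V⁻¹ * A₁.map (Polynomial.eval 1) * V) i i₀ =
        Matrix.mulVec V⁻¹ (Matrix.mulVec (A₁.map (Polynomial.eval 1)) (fun j => V j i₀)) i := by
      rw [Matrix.mulVec_mulVec]
      rfl
    have h3 : Matrix.mulVec V⁻¹ (fun j => V j i₀) i = (1 : Matrix (Fin r) (Fin r) K) i i₀ := by
      rw [← hWV]
      rfl
    rw [h0, h2, h1, hu1, Matrix.mulVec_smul, Pi.smul_apply, ← h1, h3, Matrix.one_apply,
      smul_eq_mul]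
    by_cases hi : i = i₀
    · rw [if_pos hi, if_pos hi, mul_one]
    · rw [if_neg hi, if_neg hi, mul_zero]
  have hq : ∀ i, ∃ q : Polynomial K, i ≠ i₀ → B i i₀ = (Polynomial.X - 1) * q := by
    intro i
    by_cases hi : i = i₀
    · exact ⟨0, fun h => absurd hi h⟩
    · have h1 : (Polynomial.X - Polynomial.C 1) ∣ B i i₀ := by
        rw [Polynomial.dvd_iff_isRoot, Polynomial.IsRoot.def, hcol, if_neg hi]
      obtain ⟨q, hq⟩ := h1
      exact ⟨q, fun _ => by rw [hq, Polynomial.C_1]⟩
  choose q hq using hq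
  set A₂ : Matrix (Fin r) (Fin r) (Polynomial K) := Matrix.of fun i j =>
    if i = i₀ then (if j = i₀ then B i₀ i₀ + (D : Polynomial K) * Polynomial.X
      else (Polynomial.X - 1) * B i₀ j) else (if j = i₀ then q i else B i j) with hA₂
  have hkey : A₂ * sh i₀ = ((D : Polynomial K) * (Polynomial.X * (Polynomial.X - 1))) •
      (sh i₀).map Polynomial.derivative + sh i₀ * B := by
    ext1 i j
    rw [Matrix.add_apply, Matrix.smul_apply, deriv_sh, Matrix.diagonal_apply, smul_eq_mul, sh,
      Matrix.mul_diagonal, Matrix.diagonal_mul, hA₂, Matrix.of_apply]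
    by_cases hi : i = i₀
    · subst hi
      by_cases hj : j = i
      · subst hj
        simp only [if_true]
        ring
      · simp only [if_true, if_neg hj, if_neg (fun e : i = j => hj e.symm)]
        ring
    · by_cases hj : j = i₀
      · subst hj
        rw [if_neg hi, if_pos rfl, if_pos rfl, if_neg hi, if_neg hi, hq i hi]
        ring
      · rw [if_neg hi, if_neg hj, if_neg hj, if_neg hi, if_neg hi]
        by_cases hij : i = j
        · rw [if_pos hij]
          ring
        · rw [if_neg hij]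
          ring
  refine ⟨A₂, sh i₀ * (w * T), (T' * v) * sh' i₀, ⟨?_, ?_, ?_⟩, ?_⟩
  · have h1 : (w * T) * (T' * v) = Matrix.diagonal fun _ => (Polynomial.X - 1) ^ m := by
      rw [Matrix.mul_assoc, ← Matrix.mul_assoc T, hG.mul, diag_smul, Matrix.smul_mul,
        Matrix.one_mul, Matrix.mul_smul, hwv]
    rw [Matrix.mul_assoc, ← Matrix.mul_assoc (w * T), h1, diag_smul, Matrix.smul_mul,
      Matrix.one_mul, Matrix.mul_smul, sh_mul, diag_smul, smul_smul, diag_smul, pow_succ]
  · have h1 : (T' * v) * (w * T) = Matrix.diagonal fun _ => (Polynomial.X - 1) ^ m := by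
      rw [Matrix.mul_assoc, ← Matrix.mul_assoc v, hvw, Matrix.one_mul, hG.mul']
    rw [Matrix.mul_assoc, ← Matrix.mul_assoc (sh' i₀), sh'_mul, diag_smul, Matrix.smul_mul,
      Matrix.one_mul, Matrix.mul_smul, h1, diag_smul, smul_smul, diag_smul, pow_succ']
  · have hBw : B * w = w * A₁ := by
      rw [hB, Matrix.mul_assoc, hvw, Matrix.mul_one]
    rw [deriv_mul, deriv_mul, hw, deriv_C, ← hw, Matrix.zero_mul, zero_add]
    have e1 : A₂ * (sh i₀ * (w * T)) = (A₂ * sh i₀) * (w * T) := by
      rw [Matrix.mul_assoc]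
    have e2 : B * (w * T) = w * (((D : Polynomial K) * (Polynomial.X * (Polynomial.X - 1))) •
        T.map Polynomial.derivative + T * A) := by
      rw [hG.eq, ← Matrix.mul_assoc, hBw, Matrix.mul_assoc]
    rw [e1, hkey, Matrix.add_mul, Matrix.mul_assoc (sh i₀) B, e2, smul_add, Matrix.smul_mul,
      Matrix.mul_add, Matrix.mul_add, Matrix.mul_smul, Matrix.mul_smul, add_assoc]
    simp only [Matrix.mul_assoc]
  · have hch : (B.map (Polynomial.eval 1)).charpoly = (A₁.map (Polynomial.eval 1)).charpoly := by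
      rw [hB1, Matrix.charpoly_mul_comm, ← Matrix.mul_assoc, hVW, Matrix.one_mul]
    have key := hrow K r (A₂.map (Polynomial.eval 1)) (B.map (Polynomial.eval 1)) i₀ (μ + D) μ
      ?_ ?_ ?_
    · rw [hch] at key
      exact key.symm
    · intro j
      rw [Matrix.map_apply, hA₂, Matrix.of_apply, if_pos rfl]
      by_cases hj : j = i₀
      · rw [if_pos hj, if_pos hj, Polynomial.eval_add, hcol, if_pos rfl]
        simp
      · rw [if_neg hj, if_neg hj]
        simp
    · intro i
      rw [Matrix.map_apply]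
      exact hcol i
    · intro i j hi hj
      rw [Matrix.map_apply, Matrix.map_apply, hA₂, Matrix.of_apply, if_neg hi, if_neg hj]

end Pool.Agent.H975.OS
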