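import Pool.Agent.H925.InfEx
import Pool.Agent.H925.OneMap
import Pool.Agent.H925.OneShear
import Pool.Agent.H925.OneLoop
import Pool.Agent.H925.OnePC

set_option autoImplicit false

open Finset NumberField

namespace Pool.Agent.H925

open Pool.Agent.Helper338PC

section ex

variable {K : Type} [Field K] [NumberField K] {r : ℕ}

/-- The residue at the point `1` after a gauge transformation. -/
lemma modAnn_one {D c m P₀ : ℕ} (hD : D ≠ 0) (hc : c ≠ 0)
    {A A₁ T T' : Matrix (Fin r) (Fin r) (Polynomial (𝓞 K))}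
    (hpc : ∀ p : ℕ, p.Prime → P₀ < p → ∀ (𝔭 : Ideal (𝓞 K)) [𝔭.IsMaximal], (p : 𝓞 K) ∈ 𝔭 →
      PCurvZeroAt 𝔭 D 1 A)
    (h1 : T * T' = Matrix.diagonal
      (fun _ => (c : Polynomial (𝓞 K)) * (Polynomial.X - 1) ^ m))
    (h2 : T' * T = Matrix.diagonal
      (fun _ => (c : Polynomial (𝓞 K)) * (Polynomial.X - 1) ^ m))
    (h3 : ((D : Polynomial (𝓞 K)) * (Polynomial.X * (Polynomial.X - 1))) •
      T.map Polynomial.derivative + T * A = A₁ * T) :
    ModAnn K (A₁.map (Polynomial.eval 1)) D (max P₀ (max D c)) := by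
  intro p hp hP 𝔭 h𝔭 hp𝔭
  let _ : Field (𝓞 K ⧸ 𝔭) := Ideal.Quotient.field 𝔭
  have e1 := max_lt_iff.mp hP
  have e2 := max_lt_iff.mp e1.2
  have e3 := hpc p hp e1.1 𝔭 hp𝔭
  unfold PCurvZeroAt at e3
  rw [charP_of_mem hp hp𝔭] at e3
  exact Pool.Agent.H914.OnePC.t_ONEPC (𝓞 K) (𝓞 K ⧸ 𝔭) (Ideal.Quotient.mk 𝔭) r D m c p A A₁ T T'
    (natCast_ne_zero_of_lt hp hp𝔭 hD e2.1) (natCast_ne_zero_of_lt hp hp𝔭 hc e2.2) h1 h2 h3 e3

omit [NumberField K] in
/-- Another denominator. -/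
lemma sysG_scale {k : Type} [Field k] {R : Type} [CommRing R] (φ : R →+* k) {h : ℕ}
    (hh : (h : k) ≠ 0) (D : ℕ) (A : Matrix (Fin r) (Fin r) (Polynomial R)) :
    sysG φ (h * D) 1 ((h : Polynomial R) • A) = sysG φ D 1 A := by
  have hF : ((h : ℕ) : RatFunc k) ≠ 0 := by
    have h1 : ((h : ℕ) : RatFunc k) = algebraMap k (RatFunc k) h := (map_natCast _ h).symm
    rw [h1, Ne, map_eq_zero]
    exact hh
  ext1 i j
  unfold sysG
  rw [Matrix.map_apply, Matrix.map_apply, Matrix.smul_apply, smul_eq_mul, Polynomial.map_mul,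
    Polynomial.map_natCast, map_mul, map_natCast, Nat.cast_mul, mul_assoc, mul_assoc,
    mul_div_mul_left _ _ hF, mul_assoc]

/-- The residue at the point `1` of a system with vanishing `p`-curvatures. -/
theorem exists_oneGauge {D n₁ P₀ : ℕ} (hD : D ≠ 0) (hn₁ : n₁ ≠ 0)
    {A : Matrix (Fin r) (Fin r) (Polynomial (𝓞 K))}
    (hdiv : ∀ t : ℤ, ((A.map (Polynomial.eval 1)).map (algebraMap (𝓞 K) K)).charpoly.IsRoot
      (t : K) → ((D : ℕ) : ℤ) ∣ n₁ * t)
    (hpc : ∀ p : ℕ, p.Prime → P₀ < p → ∀ (𝔭 : Ideal (𝓞 K)) [𝔭.IsMaximal], (p : 𝓞 K) ∈ 𝔭 →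
      PCurvZeroAt 𝔭 D 1 A) :
    ∃ (m c : ℕ) (A₁ T T' : Matrix (Fin r) (Fin r) (Polynomial K)),
      OneGauge D n₁ m c (A.map (Polynomial.map (algebraMap (𝓞 K) K))) A₁ T T' := by
  classical
  have hDQ : (D : ℚ) ≠ 0 := by exact_mod_cast hD
  have hn₁Q : (0 : ℚ) < n₁ := by exact_mod_cast Nat.pos_of_ne_zero hn₁
  -- the eigenvalues at the point `1`
  have hder1 : (1 : Matrix (Fin r) (Fin r) (Polynomial (𝓞 K))).map Polynomial.derivative = 0 := by
    ext1 i j
    rw [Matrix.map_apply, Matrix.zero_apply, Matrix.one_apply]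
    split_ifs
    · exact Polynomial.derivative_one
    · exact Polynomial.derivative_zero
  have hB0 : ModAnn K (A.map (Polynomial.eval 1)) D (max P₀ (max D 1)) := by
    refine modAnn_one (m := 0) (T := 1) (T' := 1) hD one_ne_zero hpc ?_ ?_ ?_
    · rw [mul_one, Nat.cast_one, pow_zero, mul_one]
      exact Matrix.diagonal_one.symm
    · rw [mul_one, Nat.cast_one, pow_zero, mul_one]
      exact Matrix.diagonal_one.symm
    · rw [hder1, smul_zero, zero_add, one_mul, mul_one]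
  obtain ⟨α, hα⟩ := Pool.Agent.H494.InfRat.t_RAT K r _ _ _ hB0
  have hdvd : ∀ i, ∃ a : ℤ, (n₁ : ℤ) * α i = D * a := by
    intro i
    refine hdiv (α i) ?_
    rw [hα]
    exact isRoot_of_prod (lam := fun i => ((α i : ℤ) : K)) i
  choose a ha using hdvd
  set AK := A.map (Polynomial.map (algebraMap (𝓞 K) K)) with hAK
  have hAK1 : AK.map (Polynomial.eval 1) =
      (A.map (Polynomial.eval 1)).map (algebraMap (𝓞 K) K) := by
    ext1 i j
    rw [hAK, Matrix.map_apply, Matrix.map_apply, Matrix.map_apply, Matrix.map_apply,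
      Polynomial.eval_one_map]
  set μ : Fin r → ℚ := fun i => (a i : ℚ) / n₁ with hμ
  have hμα : ∀ i, (D : ℚ) * μ i = α i := by
    intro i
    have h1 : (n₁ : ℚ) * α i = D * a i := by exact_mod_cast ha i
    rw [hμ]
    simp only
    field_simp
    linarith
  obtain ⟨c, hc⟩ : ∃ c : ℕ, ∀ i, μ i ≤ c := by
    refine ⟨∑ i, (a i).natAbs, fun i => ?_⟩
    have h1 : μ i ≤ |(a i : ℚ)| := by
      rw [hμ]
      simp only
      refine (div_le_div_of_nonneg_right (le_abs_self (a i : ℚ)) hn₁Q.le).trans ?_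
      refine div_le_self (abs_nonneg _) ?_
      exact_mod_cast Nat.one_le_iff_ne_zero.mpr hn₁
    have h2 : |(a i : ℚ)| = (((a i).natAbs : ℕ) : ℚ) := by
      rw [← Int.cast_abs, Int.abs_eq_natAbs, Int.cast_natCast]
    rw [h2] at h1
    refine h1.trans ?_
    exact_mod_cast Finset.single_le_sum (f := fun i => (a i).natAbs)
      (fun i _ => Nat.zero_le _) (mem_univ i)
  obtain ⟨m, A₁, T, T', ν, hone, hchar, hν⟩ := t_LOOP1
    (Pool.Agent.H975.OS.t_SHEAR1 Pool.Agent.H115.Inf.t_DETROW) K r D AK μ c hD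
    (by
      rw [hAK1, hα]
      refine Finset.prod_congr rfl fun i _ => ?_
      rw [hμα i]
      push_cast
      rfl) hc
  -- common denominators
  obtain ⟨h₁, hh₁, hd₁⟩ := exists_den T
  obtain ⟨h₂, hh₂, hd₂⟩ := exists_den T'
  obtain ⟨h₃, hh₃, hd₃⟩ := exists_den A₁
  set h := h₁ * h₂ with hh
  have hh0 : h ≠ 0 := Nat.mul_ne_zero hh₁ hh₂
  obtain ⟨T₀, hT₀⟩ := hd₁ h (dvd_mul_right _ _)
  obtain ⟨T₀', hT₀'⟩ := hd₂ h (dvd_mul_left _ _)
  obtain ⟨B₀, hB₀⟩ := hd₃ h₃ dvd_rfl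
  have hh₃K : ((h₃ : ℕ) : K) ≠ 0 := by exact_mod_cast hh₃
  have hdiag : ∀ (U V : Matrix (Fin r) (Fin r) (Polynomial K))
      (U₀ V₀ : Matrix (Fin r) (Fin r) (Polynomial (𝓞 K))),
      U₀.map (Polynomial.map (algebraMap (𝓞 K) K)) = (h : Polynomial K) • U →
      V₀.map (Polynomial.map (algebraMap (𝓞 K) K)) = (h : Polynomial K) • V →
      U * V = Matrix.diagonal (fun _ => (Polynomial.X - 1) ^ m) →
      U₀ * V₀ = Matrix.diagonal
        (fun _ => ((h * h : ℕ) : Polynomial (𝓞 K)) * (Polynomial.X - 1) ^ m) := by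
    intro U V U₀ V₀ e1 e2 e3
    apply map_inj
    rw [map_mulP, e1, e2, Matrix.smul_mul, Matrix.mul_smul, smul_smul, e3]
    ext1 i j
    simp only [Matrix.smul_apply, Matrix.map_apply, Matrix.diagonal_apply]
    split_ifs
    · rw [Polynomial.map_mul, Polynomial.map_pow, Polynomial.map_sub, Polynomial.map_X,
        Polynomial.map_one, Polynomial.map_natCast, smul_eq_mul]
      push_cast
      rfl
    · rw [smul_zero, Polynomial.map_zero]
  have heq : (((h₃ * D : ℕ) : Polynomial (𝓞 K)) * (Polynomial.X * (Polynomial.X - 1))) •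
      T₀.map Polynomial.derivative + T₀ * ((h₃ : Polynomial (𝓞 K)) • A) = B₀ * T₀ := by
    apply map_inj
    have e1 : ∀ U V : Matrix (Fin r) (Fin r) (Polynomial (𝓞 K)),
        (U + V).map (Polynomial.map (algebraMap (𝓞 K) K)) =
          U.map (Polynomial.map (algebraMap (𝓞 K) K)) +
            V.map (Polynomial.map (algebraMap (𝓞 K) K)) :=
      fun U V => map_add (Polynomial.mapRingHom (algebraMap (𝓞 K) K)).mapMatrix U V
    have e2 : ∀ (f : Polynomial (𝓞 K)) (U : Matrix (Fin r) (Fin r) (Polynomial (𝓞 K))),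
        (f • U).map (Polynomial.map (algebraMap (𝓞 K) K)) =
          f.map (algebraMap (𝓞 K) K) • U.map (Polynomial.map (algebraMap (𝓞 K) K)) := by
      intro f U
      ext1 i j
      simp only [Matrix.map_apply, Matrix.smul_apply, smul_eq_mul, Polynomial.map_mul]
    have e3 : (T₀.map Polynomial.derivative).map (Polynomial.map (algebraMap (𝓞 K) K)) =
        (h : Polynomial K) • T.map Polynomial.derivative := by
      rw [← derivative_natCast_smul, ← hT₀]
      ext1 i j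
      simp only [Matrix.map_apply, Polynomial.derivative_map]
    rw [e1, e2, map_mulP, map_mulP, e2, e3, hB₀, hT₀, ← hAK, Matrix.smul_mul, Matrix.mul_smul,
      Matrix.smul_mul, Matrix.mul_smul, ← hone.eq]
    simp only [Polynomial.map_mul, Polynomial.map_sub, Polynomial.map_natCast, Polynomial.map_X,
      Polynomial.map_one, smul_add, smul_smul]
    congr 1
    · congr 1
      push_cast
      ring
    · congr 1
      ring
  have hpc' : ∀ p : ℕ, p.Prime → max P₀ h₃ < p → ∀ (𝔭 : Ideal (𝓞 K)) [𝔭.IsMaximal],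
      (p : 𝓞 K) ∈ 𝔭 → PCurvZeroAt 𝔭 (h₃ * D) 1 ((h₃ : Polynomial (𝓞 K)) • A) := by
    intro p hp hP 𝔭 h𝔭 hp𝔭
    let _ : Field (𝓞 K ⧸ 𝔭) := Ideal.Quotient.field 𝔭
    have e1 := max_lt_iff.mp hP
    have e3 := hpc p hp e1.1 𝔭 hp𝔭
    unfold PCurvZeroAt at e3 ⊢
    rw [sysG_scale (Ideal.Quotient.mk 𝔭) (natCast_ne_zero_of_lt hp hp𝔭 hh₃ e1.2)]
    exact e3
  have hB := modAnn_one (Nat.mul_ne_zero hh₃ hD) (Nat.mul_ne_zero hh0 hh0) hpc'
    (hdiag T T' T₀ T₀' hT₀ hT₀' hone.mul) (hdiag T' T T₀' T₀ hT₀' hT₀ hone.mul') heq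
  have hBL : (B₀.map (Polynomial.eval 1)).map (algebraMap (𝓞 K) K) =
      ((h₃ : ℕ) : K) • A₁.map (Polynomial.eval 1) := by
    ext1 i j
    have e1 := congrFun (congrFun hB₀ i) j
    rw [Matrix.map_apply, Matrix.smul_apply, smul_eq_mul] at e1
    have e2 := congrArg (Polynomial.eval 1) e1
    rw [Polynomial.eval_one_map, Polynomial.eval_mul, Polynomial.eval_natCast] at e2
    simp only [Matrix.map_apply, Matrix.smul_apply, smul_eq_mul]
    exact e2
  -- the annihilating polynomial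
  set F : Polynomial K := ((eigPoly n₁ D).map (Int.castRingHom K)).comp
    (Polynomial.X - Polynomial.C ((c * D : ℕ) : K)) with hF
  have hFν : ∀ i, F.eval (((D : ℚ) * ν i : ℚ) : K) = 0 := by
    intro i
    obtain ⟨h1, h2, z, hz⟩ := hν i
    -- the exponent
    set j : ℤ := a i + n₁ * z - n₁ * c with hj
    have hjν : (j : ℚ) = n₁ * (ν i - c) := by
      rw [hz, hμ, hj]
      push_cast
      field_simp
    have hj0 : 0 ≤ j := by
      have : (0 : ℚ) ≤ j := by
        rw [hjν]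
        exact mul_nonneg hn₁Q.le (by linarith)
      exact_mod_cast this
    have hj1 : j < n₁ := by
      have : (j : ℚ) < n₁ := by
        rw [hjν]
        calc (n₁ : ℚ) * (ν i - c) < n₁ * 1 := mul_lt_mul_of_pos_left (by linarith) hn₁Q
          _ = n₁ := mul_one _
      exact_mod_cast this
    obtain ⟨t, ht⟩ := Int.eq_ofNat_of_zero_le hj0
    have htn : t < n₁ := by
      rw [ht] at hj1
      exact_mod_cast hj1
    rw [hF, Polynomial.eval_comp, Polynomial.eval_sub, Polynomial.eval_C, Polynomial.eval_X,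
      Polynomial.eval_map]
    unfold eigPoly
    rw [Polynomial.eval₂_finsetProd]
    refine Finset.prod_eq_zero (Finset.mem_range.mpr htn) ?_
    rw [Polynomial.eval₂_sub, Polynomial.eval₂_mul, Polynomial.eval₂_C, Polynomial.eval₂_C,
      Polynomial.eval₂_X]
    have h3 : (n₁ : ℚ) * (D * ν i - (c * D : ℕ)) - (t : ℚ) * D = 0 := by
      have h4 : (t : ℚ) = n₁ * (ν i - c) := by
        rw [← hjν, ht]
        push_cast
        rfl
      rw [h4]
      push_cast
      ring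
    have h5 := congrArg (fun q : ℚ => (q : K)) h3
    push_cast at h5 ⊢
    rw [map_natCast, map_mul, map_natCast, map_natCast]
    exact h5
  have hFL := semi_aeval (Nat.mul_ne_zero hh₃ hD) hB hh₃K hBL hchar hFν
  refine ⟨m, c, A₁, T, T', hone, ?_⟩
  have e1 : Polynomial.aeval (A₁.map (Polynomial.eval 1))
      (Polynomial.X - Polynomial.C ((c * D : ℕ) : K)) =
      A₁.map (Polynomial.eval 1) - Matrix.diagonal fun _ => ((c * D : ℕ) : K) := by
    rw [map_sub, Polynomial.aeval_C, Polynomial.aeval_X]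
    rfl
  have e3 : (eigPoly n₁ D).map (Int.castRingHom K) = (eigPoly n₁ D).map (algebraMap ℤ K) := by
    rw [algebraMap_int_eq]
  rw [hF, Polynomial.aeval_comp, e1, e3, Polynomial.aeval_map_algebraMap] at hFL
  exact hFL

end ex

end Pool.Agent.H925
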