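import Pool.Agent.H925.PCStm

/-!
# Vanishing of the `p`-curvature modulo `p` and restriction of scalars (helper627 for helper925)
-/

set_option autoImplicit false

open Finset NumberField

namespace Pool.Agent.H627.PCRes

open Pool.Agent.H925 Pool.Agent.Helper338PC

section aux

variable {R S idx : Type*} [CommRing R] [CommRing S] [Fintype idx] [DecidableEq idx]

/-- Polynomials over `R` as power series over `S`. -/
noncomputable def cc (π : R →+* S) : Polynomial R →+* PowerSeries S :=
  Polynomial.coeToPowerSeries.ringHom.comp (Polynomial.mapRingHom π)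

lemma cc_apply (π : R →+* S) (a : Polynomial R) :
    cc π a = ((a.map π : Polynomial S) : PowerSeries S) := rfl

lemma cc_X (π : R →+* S) : cc π Polynomial.X = PowerSeries.X := by
  rw [cc_apply, Polynomial.map_X, Polynomial.coe_X]

lemma th_cc (π : R →+* S) (a : Polynomial R) :
    th (cc π a) = PowerSeries.X * cc π (Polynomial.derivative a) := by
  ext n
  cases n with
  | zero =>
    rw [coeff_th]
    simp
  | succ n =>
    rw [coeff_th, PowerSeries.coeff_succ_X_mul, cc_apply, cc_apply, Polynomial.coeff_coe,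
      Polynomial.coeff_coe, Polynomial.coeff_map, Polynomial.coeff_map,
      Polynomial.coeff_derivative, map_mul]
    simp
    ring

/-- `D (X - 1)` -/
noncomputable def dl (S : Type*) [CommRing S] (D : ℕ) : PowerSeries S :=
  (D : PowerSeries S) * (PowerSeries.X - 1)

lemma th_dl (D : ℕ) : th (dl S D) = (D : PowerSeries S) * PowerSeries.X := by
  unfold dl th
  rw [Derivation.leibniz, map_sub, PowerSeries.derivative_X, Derivation.map_natCast]
  simp
  ring

lemma th_dl_pow (D j : ℕ) : th (dl S D ^ j) * dl S D =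
    (j : PowerSeries S) * dl S D ^ j * ((D : PowerSeries S) * PowerSeries.X) := by
  induction j with
  | zero => rw [pow_zero, th_one]; simp
  | succ j ih =>
    rw [pow_succ, th_mul', th_dl, add_mul, mul_assoc (th (dl S D ^ j)), mul_comm (dl S D) (dl S D),
      ← mul_assoc (th (dl S D ^ j)), ih]
    push_cast
    ring

lemma dl_inv {D m : ℕ} (hmD : ((m * D : ℕ) : S) = 1) :
    dl S D * (PowerSeries.C (m : S) * wg S) = 1 := by
  have h1 := X_sub_one_mul_wg (R := S)
  have h2 : (PowerSeries.C (m : S)) * (D : PowerSeries S) = 1 := by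
    have h3 : (D : PowerSeries S) = PowerSeries.C (D : S) := (map_natCast _ D).symm
    rw [h3, ← map_mul, ← Nat.cast_mul, hmD, map_one]
  unfold dl
  linear_combination (PowerSeries.C (m : S) * (D : PowerSeries S)) * h1 + h2

lemma nabPoly_eq (π : R →+* S) {D m : ℕ} (hmD : ((m * D : ℕ) : S) = 1)
    (A : Matrix idx idx (Polynomial R)) (j : ℕ) (i k : idx) :
    cc π (nabPoly D A j i k) = dl S D ^ j * MG (Aps π (m : S) 1 A) j i k := by
  induction j generalizing i k with
  | zero =>
    simp only [nabPoly, MG, pow_zero, one_mul, Matrix.one_apply]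
    split_ifs
    · rw [map_one]
    · rw [map_zero]
  | succ j ih =>
    have hinv := dl_inv hmD
    have h1 : nabPoly D A (j + 1) i k = ((D : Polynomial R) * (Polynomial.X * (Polynomial.X - 1))) *
        Polynomial.derivative (nabPoly D A j i k) -
        ((j : Polynomial R) * ((D : Polynomial R) * (2 * Polynomial.X - 1))) * nabPoly D A j i k -
        ∑ l, A i l * nabPoly D A j l k := rfl
    have h2 : MG (Aps π (m : S) 1 A) (j + 1) i k = th (MG (Aps π (m : S) 1 A) j i k) -
        ∑ l, Aps π (m : S) 1 A i l * MG (Aps π (m : S) 1 A) j l k -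
        (j : S) • MG (Aps π (m : S) 1 A) j i k := rfl
    have h3 : (j : S) • MG (Aps π (m : S) 1 A) j i k =
        (j : PowerSeries S) * MG (Aps π (m : S) 1 A) j i k := by
      rw [PowerSeries.smul_eq_C_mul, map_natCast]
    have h4 : dl S D ^ (j + 1) * ∑ l, Aps π (m : S) 1 A i l * MG (Aps π (m : S) 1 A) j l k =
        ∑ l, cc π (A i l) * (dl S D ^ j * MG (Aps π (m : S) 1 A) j l k) := by
      rw [Finset.mul_sum]
      refine Finset.sum_congr rfl fun l _ => ?_
      rw [Aps_apply, ← cc_apply, pow_one]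
      linear_combination (dl S D ^ j * cc π (A i l) * MG (Aps π (m : S) 1 A) j l k) * hinv
    have h5 := th_cc π (nabPoly D A j i k)
    rw [ih i k, th_mul'] at h5
    have h6 := th_dl_pow (S := S) D j
    rw [h1, h2, h3, map_sub, map_sub, map_mul, map_mul, map_mul, map_mul, map_mul, map_mul, map_sub,
      map_sub, map_mul, map_natCast, map_natCast, map_one, cc_X, ih i k, map_sum, map_ofNat]
    have h7 : ∑ l, cc π (A i l * nabPoly D A j l k) =
        ∑ l, cc π (A i l) * (dl S D ^ j * MG (Aps π (m : S) 1 A) j l k) :=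
      Finset.sum_congr rfl fun l _ => by rw [map_mul, ih l k]
    rw [h7, ← h4]
    obtain ⟨T, hT⟩ : ∃ T, T = th (dl S D ^ j) := ⟨_, rfl⟩
    obtain ⟨E, hE⟩ : ∃ E, E = dl S D ^ j := ⟨_, rfl⟩
    obtain ⟨M, hM⟩ : ∃ M, M = MG (Aps π (m : S) 1 A) j i k := ⟨_, rfl⟩
    obtain ⟨Y, hY⟩ : ∃ Y, Y = cc π (Polynomial.derivative (nabPoly D A j i k)) := ⟨_, rfl⟩
    have hd : dl S D = (D : PowerSeries S) * (PowerSeries.X - 1) := rfl
    rw [pow_succ]
    rw [← hT, ← hE, ← hM, ← hY] at h5
    rw [← hT, ← hE] at h6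
    rw [← hE, ← hM, ← hY]
    rw [hd] at h6 ⊢
    linear_combination (-(D : PowerSeries S) * (PowerSeries.X - 1)) * h5 + M * h6

lemma MG_zero_of_pcurv (π : R →+* S) {D m p : ℕ} (hmD : ((m * D : ℕ) : S) = 1)
    (hp : (p : S) = 0) (A : Matrix idx idx (Polynomial R)) (h : PCurvMod p D A) :
    MG (Aps π (m : S) 1 A) p = 0 := by
  ext1 i k
  obtain ⟨q, hq⟩ := h i k
  have h1 := nabPoly_eq π hmD A p i k
  have h2 : ((p : ℕ) : PowerSeries S) = 0 := by
    have h8 : ((p : ℕ) : PowerSeries S) = PowerSeries.C ((p : ℕ) : S) := (map_natCast _ p).symm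
    rw [h8, hp, map_zero]
  rw [hq, map_mul, map_natCast, h2, zero_mul] at h1
  have h3 : (dl S D ^ p) * (PowerSeries.C (m : S) * wg S) ^ p = 1 := by
    rw [← mul_pow, dl_inv hmD, one_pow]
  rw [Matrix.zero_apply]
  calc MG (Aps π (m : S) 1 A) p i k =
      ((dl S D ^ p) * (PowerSeries.C (m : S) * wg S) ^ p) * MG (Aps π (m : S) 1 A) p i k := by
        rw [h3, one_mul]
    _ = (PowerSeries.C (m : S) * wg S) ^ p * (dl S D ^ p * MG (Aps π (m : S) 1 A) p i k) := by ring
    _ = 0 := by rw [← h1, mul_zero]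

end aux

theorem t_PCRES : S_PCRES := by
  intro R _ ι _ _ b r D p hp A hpD h
  classical
  obtain ⟨m, hm⟩ := exists_inv_mod hpD
  have hD : ((D : ℕ) : ZMod p) ≠ 0 := by
    rw [Ne, ZMod.natCast_eq_zero_iff]
    exact hpD
  have hminv : ((m : ℕ) : ZMod p) = (D : ZMod p)⁻¹ := by
    rw [Nat.cast_mul] at hm
    exact eq_inv_of_mul_eq_one_left hm
  -- divisibility
  have h1 : ∀ (i j : Fin r) (s : ℕ), ∃ y : R,
      PowerSeries.coeff s (MG (Aps (RingHom.id R) (m : R) 1 A) p i j) = (p : R) * y := by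
    intro i j s
    obtain ⟨I, hI⟩ : ∃ I : Ideal R, I = Ideal.span {(p : R)} := ⟨_, rfl⟩
    have hp0 : ((p : ℕ) : R ⧸ I) = 0 := by
      have h1 : ((p : ℕ) : R ⧸ I) = Ideal.Quotient.mk I (p : R) := (map_natCast _ p).symm
      rw [h1, Ideal.Quotient.eq_zero_iff_mem, hI]
      exact Ideal.mem_span_singleton_self _
    have hmD : ((m * D : ℕ) : R ⧸ I) = 1 := by
      have h1 : ((m * D : ℕ) : ZMod p) = ((1 : ℕ) : ZMod p) := by rw [hm, Nat.cast_one]
      rw [ZMod.natCast_eq_natCast_iff] at h1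
      obtain ⟨c, hc⟩ := Nat.modEq_iff_dvd.mp h1
      have h4 : ((1 : ℕ) : ℤ) = ((m * D : ℕ) : ℤ) + (p : ℤ) * c := by linarith
      have h5 := congrArg (fun z : ℤ => (z : R ⧸ I)) h4
      simp only [Int.cast_add, Int.cast_mul, Int.cast_natCast] at h5
      rw [hp0, zero_mul, add_zero, Nat.cast_one] at h5
      exact h5.symm
    have hzero := MG_zero_of_pcurv (Ideal.Quotient.mk I) hmD hp0 A h
    have hmap : (Aps (RingHom.id R) (m : R) 1 A).map (PowerSeries.map (Ideal.Quotient.mk I)) =
        Aps (Ideal.Quotient.mk I) ((m : ℕ) : R ⧸ I) 1 A := by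
      rw [Aps_map, RingHom.comp_id, map_natCast]
    rw [← hmap, ← MG_map] at hzero
    have h1 := congrFun (congrFun hzero i) j
    rw [Matrix.map_apply, Matrix.zero_apply] at h1
    have h2 := congrArg (PowerSeries.coeff s) h1
    rw [PowerSeries.coeff_map, map_zero] at h2
    have h3 := Ideal.Quotient.eq_zero_iff_mem.mp h2
    rw [hI, Ideal.mem_span_singleton] at h3
    exact h3
  choose N hN using h1
  set N' : Matrix (Fin r) (Fin r) (PowerSeries R) :=
    Matrix.of fun i j => PowerSeries.mk fun s => N i j s with hN'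
  have h2 : MG (Aps (RingHom.id R) (m : R) 1 A) p = (p : R) • N' := by
    ext i j s
    rw [Matrix.smul_apply, PowerSeries.smul_eq_C_mul, PowerSeries.coeff_C_mul, hN', Matrix.of_apply,
      PowerSeries.coeff_mk, hN]
  have h3 := congrArg (LMM b) h2
  rw [LMM_MG, Nat.cast_smul_eq_nsmul, map_nsmul] at h3
  have h4 : LMM b (Aps (RingHom.id R) (m : R) 1 A) =
      Aps (RingHom.id ℤ) (m : ℤ) 1 (polyLMM b A) := by
    rw [← LMM_Aps, map_natCast]
  rw [h4] at h3
  have h5 : (MG (Aps (RingHom.id ℤ) (m : ℤ) 1 (polyLMM b A)) p).map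
      (PowerSeries.map (Int.castRingHom (ZMod p))) =
      (p • LMM b N').map (PowerSeries.map (Int.castRingHom (ZMod p))) := by rw [h3]
  rw [MG_map, Aps_map, RingHom.comp_id, map_natCast, hminv] at h5
  rw [h5]
  ext i j s
  have h6 : (p • LMM b N').map (PowerSeries.map (Int.castRingHom (ZMod p))) i j =
      PowerSeries.map (Int.castRingHom (ZMod p)) (p • (LMM b N' i j)) := rfl
  rw [h6, map_nsmul, nsmul_eq_mul]
  have h7 : ((p : ℕ) : PowerSeries (ZMod p)) = 0 := by
    have h8 : ((p : ℕ) : PowerSeries (ZMod p)) = PowerSeries.C ((p : ℕ) : ZMod p) :=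
      (map_natCast _ p).symm
    rw [h8, CharP.cast_eq_zero, map_zero]
  rw [h7, zero_mul, Matrix.zero_apply]

end Pool.Agent.H627.PCRes
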