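import Pool.Agent.H925.Expl
import Pool.Agent.H925.OrbUnivW
import Pool.Agent.H925.OneEx
import Pool.Agent.H925.PCAt

set_option autoImplicit false

open Finset NumberField

namespace Pool.Agent.H925

open Pool.Agent.Helper338PC

/-- The class of the systems `Y' = (b / (n x) + C / (N (x - 1))) Y` over the number field `K`: `b` is
diagonal with at most `k` different entries, which are natural numbers less than `n`; `C` has entries
in the ring of integers; every rational integer `c` which is an eigenvalue of `C` satisfies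
`c / N ∈ (1 / n₁) ℤ`, and every rational eigenvalue `c / (N n)` of `b / n + C / N` belongs to
`(1 / n₂) ℤ`; and for the primes `p` which do not divide `N n` and do not belong to `E` the
`p`-curvature is zero modulo `p`. -/
structure IntegralClass (n n₁ n₂ N k : ℕ) (E : Finset ℕ) (K : Type) [Field K] [NumberField K]
    {r : ℕ} (b : Fin r → ℕ) (C : Matrix (Fin r) (Fin r) (𝓞 K)) : Prop where
  lt : ∀ i, b i < n
  card : (univ.image b).card ≤ k
  one : ∀ c : ℤ, C.charpoly.IsRoot (c : 𝓞 K) → ((N : ℕ) : ℤ) ∣ n₁ * c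
  inf : ∀ c : ℤ, (Matrix.diagonal (fun i => ((N * b i : ℕ) : 𝓞 K)) + (n : 𝓞 K) • C).charpoly.IsRoot
    (c : 𝓞 K) → ((N * n : ℕ) : ℤ) ∣ n₂ * c
  good : ∀ p : ℕ, p.Prime → ¬ p ∣ N * n → p ∉ E → PCurvMod p (N * n) (vfam N n b C)

section aux

variable {r : ℕ}

/-- The fundamental matrix of the explicit systems. -/
lemma explicit_fund {n N k : ℕ} (hn : 0 < n) (hN : 0 < N) {K : Type} [Field K]
    [NumberField K] {b : Fin r → ℕ} {C : Matrix (Fin r) (Fin r) (𝓞 K)}
    (hb : ∀ i, b i < n) (hk : (univ.image b).card ≤ k) :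
    ∃ (β : Fin r → ℚ) (U : Matrix (Fin r) (Fin r) (PowerSeries K)),
      IsFundamentalAtZero (algebraMap (𝓞 K) K) (N * n) 1 (vfam N n b C) β U ∧ numExp β ≤ k ∧
        ∀ p ∈ (N * n).primeFactors, AdmissibleAt (algebraMap (𝓞 K) K) (N * n) 1 (vfam N n b C) β U p
          ((N.factorization p : ℝ) + padicCost p (min k (n / p ^ n.factorization p))) := by
  classical
  have hD : N * n ≠ 0 := Nat.mul_ne_zero hN.ne' hn.ne'
  have hd : N * n = n * N := mul_comm _ _
  have hnQ : (0 : ℚ) < n := by exact_mod_cast hn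
  have hA : ∀ i l, PowerSeries.coeff 0 (Aps (algebraMap (𝓞 K) K)
      (((N * n : ℕ) : K)⁻¹) 1 (vfam N n b C) i l) =
        if i = l then (((b i : ℚ) / (n : ℚ) : ℚ) : K) else 0 := by
    intro i l
    rw [coeff_Aps_vfam _ hd hD, if_pos rfl]
    split_ifs
    · push_cast
      rfl
    · rfl
  have hgap : ∀ i j, |(b i : ℚ) / (n : ℚ) - (b j : ℚ) / (n : ℚ)| < 1 := by
    intro i j
    rw [← sub_div, abs_div, abs_of_pos hnQ, div_lt_one hnQ, abs_lt]
    have h1 : (b i : ℚ) < n := by exact_mod_cast hb i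
    have h2 : (b j : ℚ) < n := by exact_mod_cast hb j
    have h3 : (0 : ℚ) ≤ b i := by positivity
    have h4 : (0 : ℚ) ≤ b j := by positivity
    constructor <;> linarith
  have hne : ∀ (s : ℕ) i j, s ≠ 0 →
      (s : ℚ) + ((b j : ℚ) / (n : ℚ) - (b i : ℚ) / (n : ℚ)) ≠ 0 := by
    intro s i j hs h1
    have h3 := (abs_lt.mp (hgap i j)).2
    have h4 : (1 : ℚ) ≤ s := by exact_mod_cast Nat.one_le_iff_ne_zero.mpr hs
    linarith
  have hβ : ∀ (s : ℕ) i j, s ≠ 0 →
      (s : K) + (((b j : ℚ) / (n : ℚ) : ℚ) : K) - (((b i : ℚ) / (n : ℚ) : ℚ) : K) ≠ 0 := by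
    intro s i j hs h
    have h1 : (s : ℚ) + ((b j : ℚ) / (n : ℚ) - (b i : ℚ) / (n : ℚ)) = 0 := by
      have h2 : (((s : ℚ) + ((b j : ℚ) / (n : ℚ) - (b i : ℚ) / (n : ℚ)) : ℚ) : K) =
          ((0 : ℚ) : K) := by
        push_cast at h ⊢
        rw [← add_sub_assoc]
        exact h
      exact_mod_cast h2
    exact hne s i j hs h1
  obtain ⟨U, hU0, hU⟩ := exists_U (K := K) (β := fun i => (((b i : ℚ) / (n : ℚ) : ℚ) : K)) hA hβ
  refine ⟨(fun i => (b i : ℚ) / (n : ℚ)), U, ⟨?_, fun i j => hU j i⟩,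
    (numExp_le_card n b).trans hk, ?_⟩
  · rw [hU0, Matrix.det_one]
    exact one_ne_zero
  · intro p hpS
    have hp : p.Prime := (Nat.mem_primeFactors.mp hpS).1
    refine Or.inl fun i j => radius_max (β := fun i => (b i : ℚ) / (n : ℚ)) hp
      (fun i j => hU j i) hA (fun i j => ?_) (fun t i j ht => hne t i j ht)
      (e := N.factorization p) (fun s i l hs => ?_) (numClass_le_min hn hp hb hk) ?_ i j
    · have e1 : PowerSeries.coeff 0 (U i j) = (U.map PowerSeries.constantCoeff) i j := by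
        rw [Matrix.map_apply, PowerSeries.coeff_zero_eq_constantCoeff_apply]
      rw [e1, hU0, Matrix.one_apply]
      split_ifs
      · exact padic_one hp
      · exact padic_zero hp
    · rw [coeff_Aps_vfam _ hd hD, if_neg hs]
      refine ⟨N / p ^ N.factorization p, Nat.not_dvd_ordCompl hp hN.ne', ?_⟩
      have hNK : (N : K) ≠ 0 := by exact_mod_cast hN.ne'
      have h3 : (N / p ^ N.factorization p) * p ^ N.factorization p = N :=
        Nat.div_mul_cancel (Nat.ordProj_dvd N p)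
      have h4 : (((N / p ^ N.factorization p : ℕ)) : K) * (p : K) ^ N.factorization p = N := by
        exact_mod_cast congrArg (Nat.cast : ℕ → K) h3
      have h5 : (((N / p ^ N.factorization p : ℕ)) : K) * (p : K) ^ N.factorization p *
          -(algebraMap (𝓞 K) K (C i l) / N) = algebraMap (𝓞 K) K (-(C i l)) := by
        rw [h4, map_neg]
        field_simp
      rw [h5]
      exact RingOfIntegers.isIntegral_coe _
    · exact le_refl _

lemma isRoot_coe {K : Type} [Field K] [NumberField K] {M : Matrix (Fin r) (Fin r) (𝓞 K)} {t : ℤ}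
    (h : (M.map (algebraMap (𝓞 K) K)).charpoly.IsRoot (t : K)) : M.charpoly.IsRoot (t : 𝓞 K) := by
  obtain ⟨a, ha, h1⟩ := eig_dvd (M := M) (g := 1) one_ne_zero (t := t) (by
    rw [Nat.cast_one, one_smul]
    exact h)
  rw [Nat.cast_one, one_mul] at ha
  rw [ha]
  exact h1

/-- The explicit systems have the local data of the class. -/
lemma explicit_orb {n n₁ n₂ N k : ℕ} (hn : 0 < n) (hn₁ : 0 < n₁) (hn₂ : 0 < n₂) (hN : 0 < N)
    {E : Finset ℕ} {K : Type} [Field K] [NumberField K] {b : Fin r → ℕ}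
    {C : Matrix (Fin r) (Fin r) (𝓞 K)} (h : IntegralClass n n₁ n₂ N k E K b C) :
    OrbClassW n n₁ n₂ k (N * n).primeFactors E
      (fun p => (N.factorization p : ℝ) + padicCost p (min k (n / p ^ n.factorization p))) K
      (N * n) (vfam N n b C) := by
  classical
  obtain ⟨hb, hk, h1, h2, hgood⟩ := h
  have hD : N * n ≠ 0 := Nat.mul_ne_zero hN.ne' hn.ne'
  have hpc : ∀ p : ℕ, p.Prime → max (N * n) (E.sup id) < p → ∀ (𝔭 : Ideal (𝓞 K)) [𝔭.IsMaximal],
      (p : 𝓞 K) ∈ 𝔭 → PCurvZeroAt 𝔭 (N * n) 1 (vfam N n b C) := by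
    intro p hp hP 𝔭 h𝔭 hp𝔭
    obtain ⟨e1, e2⟩ := max_lt_iff.mp hP
    have e3 : ¬ p ∣ N * n := fun hd => absurd (Nat.le_of_dvd (Nat.pos_of_ne_zero hD) hd)
      (not_le.mpr e1)
    have e4 : p ∉ E := fun hE => absurd (Finset.le_sup (f := id) hE) (not_le.mpr e2)
    refine Pool.Agent.H685.PCAt.t_PCAT (𝓞 K) r (N * n) p _ 𝔭 hp hp𝔭 ?_ (hgood p hp e3 e4)
    intro hmem
    refine natCast_ne_zero_of_lt hp hp𝔭 hD e1 ?_
    rw [← map_natCast (Ideal.Quotient.mk 𝔭), Ideal.Quotient.eq_zero_iff_mem]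
    exact hmem
  refine ⟨hD, ⟨?_, ?_, ?_⟩, fun p hp hd => Nat.mem_primeFactors.mpr ⟨hp, hd, hD⟩, ?_,
    explicit_fund hn hN hb hk⟩
  · rw [vfam_coeff_zero, aeval_diagonal]
    ext1 i j
    rw [Matrix.diagonal_apply, Matrix.zero_apply]
    split_ifs
    · unfold eigPoly
      rw [map_prod]
      refine Finset.prod_eq_zero (Finset.mem_range.mpr (hb i)) ?_
      simp only [map_sub, map_mul, map_natCast, Polynomial.aeval_X]
      push_cast
      ring
    · rfl
  · refine exists_oneGauge hD hn₁.ne' ?_ hpc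
    intro t ht
    rw [vfam_eval_one] at ht
    obtain ⟨a, ha, h3⟩ := eig_dvd hn.ne' ht
    obtain ⟨y, hy⟩ := h1 a h3
    refine ⟨y, ?_⟩
    rw [ha]
    push_cast
    linear_combination (n : ℤ) * hy
  · refine exists_infGauge hD hn₂.ne' (fun i j => vfam_natDegree N n b C i j) ?_ hpc
    intro t ht
    rw [vfam_coeff_one] at ht
    exact h2 t (isRoot_coe ht)
  · intro p hp hpS hpE
    exact hgood p hp (fun hd => hpS (Nat.mem_primeFactors.mpr ⟨hp, hd, hD⟩))
      (fun hE => hpE hE)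

/-- For `n₁ = N` and `n₂ = lcm(n, N)` the conditions on the eigenvalues hold automatically. -/
lemma integralClass_auto {n N k : ℕ} (hn : 0 < n) (hN : 0 < N) {E : Finset ℕ} {K : Type} [Field K]
    [NumberField K] {b : Fin r → ℕ} {C : Matrix (Fin r) (Fin r) (𝓞 K)} (hb : ∀ i, b i < n)
    (hk : (univ.image b).card ≤ k)
    (hgood : ∀ p : ℕ, p.Prime → ¬ p ∣ N * n → p ∉ E → PCurvMod p (N * n) (vfam N n b C)) :
    IntegralClass n N (n.lcm N) N k E K b C := by
  refine ⟨hb, hk, fun c _ => dvd_mul_right _ _, ?_, hgood⟩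
  intro c hc
  have hg : n.gcd N ≠ 0 := (Nat.gcd_pos_of_pos_left N hn).ne'
  obtain ⟨n', hn'⟩ := Nat.gcd_dvd_left n N
  obtain ⟨N', hN'⟩ := Nat.gcd_dvd_right n N
  have e1 : Matrix.diagonal (fun i => ((N * b i : ℕ) : 𝓞 K)) + (n : 𝓞 K) • C =
      ((n.gcd N : ℕ) : 𝓞 K) • (Matrix.diagonal (fun i => ((N' * b i : ℕ) : 𝓞 K)) +
        (n' : 𝓞 K) • C) := by
    ext1 i j
    simp only [Matrix.add_apply, Matrix.smul_apply, Matrix.diagonal_apply, smul_eq_mul]
    have e2 : (n : 𝓞 K) = (n.gcd N : ℕ) * n' := by exact_mod_cast congrArg (Nat.cast : ℕ → 𝓞 K) hn'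
    have e3 : (N : 𝓞 K) = (n.gcd N : ℕ) * N' := by exact_mod_cast congrArg (Nat.cast : ℕ → 𝓞 K) hN'
    split_ifs
    · push_cast
      linear_combination (b i : 𝓞 K) * e3 + (C i j) * e2
    · linear_combination (C i j) * e2
  rw [e1] at hc
  have h2 : ((((n.gcd N : ℕ) : 𝓞 K) • (Matrix.diagonal (fun i => ((N' * b i : ℕ) : 𝓞 K)) +
        (n' : 𝓞 K) • C)).map (algebraMap (𝓞 K) K)).charpoly.IsRoot (c : K) := by
    rw [Matrix.charpoly_map, Polynomial.IsRoot, Polynomial.eval_map_algebraMap]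
    have h3 : ((c : ℤ) : K) = algebraMap (𝓞 K) K (c : 𝓞 K) := (map_intCast _ c).symm
    rw [h3, Polynomial.aeval_algebraMap_apply]
    have h4 : Polynomial.aeval (c : 𝓞 K) ((((n.gcd N : ℕ) : 𝓞 K) •
        (Matrix.diagonal (fun i => ((N' * b i : ℕ) : 𝓞 K)) + (n' : 𝓞 K) • C)).charpoly) = 0 := hc
    rw [h4, map_zero]
  obtain ⟨a, ha, -⟩ := eig_dvd hg h2
  refine ⟨a, ?_⟩
  rw [ha]
  have h5 : n.gcd N * n.lcm N = n * N := Nat.gcd_mul_lcm n N
  have h6 : ((n.gcd N : ℕ) : ℤ) * ((n.lcm N : ℕ) : ℤ) = n * N := by exact_mod_cast h5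
  push_cast
  push_cast at h6
  linear_combination a * h6

end aux

/-- The master theorem for the explicit classes. -/
theorem integral_universal {n n₁ n₂ N : ℕ} (hn : 0 < n) (hn₁ : 0 < n₁) (hn₂ : 0 < n₂)
    (hN : 0 < N) (k : ℕ) {ε R : ℝ} (hR0 : 0 < R) (hR : TriRadius n n₁ n₂ R)
    (h : classDefect n N k ε < Real.log R) : ∃ M : ℕ, ∀ E : Finset ℕ,
      ∑' p : ℕ, sparseTerm E p ≤ ε →
      ∃ (F : Type) (_ : Field F) (_ : Algebra (RatFunc ℂ) F) (d : Derivation ℤ F F),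
        FiniteDimensional (RatFunc ℂ) F ∧ Module.finrank (RatFunc ℂ) F ≤ M ∧
        (∀ f, d (algebraMap (RatFunc ℂ) F f) = algebraMap (RatFunc ℂ) F (W432.PC.ddx ℂ f)) ∧
        ∀ (K : Type) [Field K] [NumberField K] (φ : K →+* ℂ) (r : ℕ) (b : Fin r → ℕ)
          (C : Matrix (Fin r) (Fin r) (𝓞 K)), IntegralClass n n₁ n₂ N k E K b C →
          SolvedIn (sysG (φ.comp (algebraMap (𝓞 K) K)) (N * n) 1 (vfam N n b C)) F d := by
  obtain ⟨M, hM⟩ := orb_universalW hn hn₁ hn₂ hR0 hR h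
  refine ⟨M, ?_⟩
  intro E hEε
  have hE : Summable (sparseTerm (E : Set ℕ)) := by
    refine summable_of_ne_finset_zero (s := E) fun p hp => ?_
    unfold sparseTerm
    rw [if_neg]
    rintro ⟨-, h2⟩
    exact hp h2
  have hS : ∀ p ∈ (N * n).primeFactors, p.Prime := fun p hp => (Nat.mem_primeFactors.mp hp).1
  obtain ⟨F, i1, i2, d, h1, h2, h3, h4⟩ := hM k (N * n).primeFactors E
    (fun p => (N.factorization p : ℝ) + padicCost p (min k (n / p ^ n.factorization p))) hS hE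
    (fun p hp => add_nonneg (Nat.cast_nonneg _) (padicCost_nonneg (hS p hp) _)) (by
      unfold defect classDefect
      have h5 := tsum_outTerm_le (S := (N * n).primeFactors) hE le_rfl hEε
      have h6 : (k : ℝ) * ∑' p : ℕ, outTerm (N * n).primeFactors E p ≤
          k * (∑' p : ℕ, outTerm (N * n).primeFactors ∅ p + ε) :=
        mul_le_mul_of_nonneg_left h5 (Nat.cast_nonneg _)
      linarith)
  exact ⟨F, i1, i2, d, h1, h2, h3, fun K _ _ φ r b C hC =>
    h4 K φ r (N * n) (vfam N n b C) (explicit_orb hn hn₁ hn₂ hN hC)⟩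

end Pool.Agent.H925
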