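import Mathlib
import Pool.Graph.R_seed8.W432.PC.Ddx

/-!
# Statements for the finiteness theorem
-/

set_option autoImplicit false

open Finset NumberField

namespace Pool.Agent.H925

/-- The derivation `d` of the extension `F` of `ℂ(x)` extends `d / dx`. -/
def ExtDdx (F : Type) [Field F] [Algebra (RatFunc ℂ) F] (d : Derivation ℤ F F) : Prop :=
  ∀ f : RatFunc ℂ, d (algebraMap (RatFunc ℂ) F f) = algebraMap (RatFunc ℂ) F (W432.PC.ddx ℂ f)

/-- The system `Y' = G Y` has a full set of solutions in `F`. -/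
def SolvedF {r : ℕ} (G : Matrix (Fin r) (Fin r) (RatFunc ℂ)) (F : Type) [Field F]
    [Algebra (RatFunc ℂ) F] (d : Derivation ℤ F F) : Prop :=
  ∃ Y : Matrix (Fin r) (Fin r) F, Y.det ≠ 0 ∧
    ∀ i j, d (Y i j) = ∑ l, algebraMap (RatFunc ℂ) F (G i l) * Y l j

/-- FIN 1. A finite extension of `ℂ(x)` with a derivation is contained in a finite Galois extension `L`
with a derivation, which commutes with the Galois group. PROOF: `L` = the normal closure of `F` in an algebraic
closure of `F` (separable, as the characteristic is zero); a derivation extends uniquely to a finite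
separable extension (Mathlib: `Mathlib/FieldTheory/Differential/Basic.lean`,
`Derivation.liftOfFormallyEtale`-type statements or by hand with a primitive element), and `σ⁻¹ δ σ` is
another extension of the derivation of `ℂ(x)`, so it is equal to `δ`. -/
def S_GAL : Prop := ∀ (F : Type) [Field F] [Algebra (RatFunc ℂ) F] [FiniteDimensional (RatFunc ℂ) F]
    (d : Derivation ℤ F F), ExtDdx F d →
    ∃ (L : Type) (_ : Field L) (_ : Algebra (RatFunc ℂ) L) (δ : Derivation ℤ L L)
      (ι : F →ₐ[RatFunc ℂ] L), FiniteDimensional (RatFunc ℂ) L ∧ IsGalois (RatFunc ℂ) L ∧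
      ExtDdx L δ ∧ (∀ y, δ (ι y) = ι (d y)) ∧
      ∀ (σ : L ≃ₐ[RatFunc ℂ] L) (y : L), δ (σ y) = σ (δ y)

/-- FIN 2. The constants of a finite extension of `ℂ(x)` are the complex numbers. PROOF: apply `δ` to the
equation of the minimal polynomial of `y` over `ℂ(x)`: its coefficients `a` satisfy `ddx a = 0`, so they are
in `ℂ`; so `y` is algebraic over `ℂ`, which is algebraically closed (`ddx f = 0` implies `f = C c` for
`f = p / q` in lowest terms: `p' q = p q'` implies `q ∣ q'`, so `q' = 0`, `p' = 0`). -/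
def S_CONST : Prop := ∀ (L : Type) [Field L] [Algebra (RatFunc ℂ) L]
    [FiniteDimensional (RatFunc ℂ) L] (δ : Derivation ℤ L L), ExtDdx L δ → ∀ y : L, δ y = 0 →
    ∃ c : ℂ, y = algebraMap (RatFunc ℂ) L (RatFunc.C c)

/-- FIN 3. A finite group has only finitely many representations of dimension `r` over `ℂ` up to conjugation.
PROOF: `ℂ[Γ]` is a semisimple ring (Maschke); it has finitely many simple modules up to isomorphism
(`exists_linearEquiv_ideal_of_isSimpleModule` or `isotypicComponents`), and a module of dimension `r` is a direct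
sum of at most `r` simple ones. (Or with characters: the values of a character are sums of `r` roots of unity
of order `|Γ|`, and a representation is determined by its character.) -/
def S_REP : Prop := ∀ (Γ : Type) [Group Γ] [Finite Γ] (r : ℕ),
    ∃ T : Set (Γ →* GL (Fin r) ℂ), T.Finite ∧ ∀ ρ : Γ →* GL (Fin r) ℂ,
      ∃ τ ∈ T, ∃ P : GL (Fin r) ℂ, ∀ g, τ g = P⁻¹ * ρ g * P

/-- FIN 4. Only finitely many systems of rank `r` up to rational gauge transformations have a full set of
solutions in `F`. PROOF from FIN 1, 2, 3: in `L` the fundamental matrix `Y` of `G` satisfies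
`σ(Y) = Y ρ(σ)`, `ρ(σ) = Y⁻¹ σ(Y)` has constant entries (`δ(Y⁻¹ σ Y) = 0`, as `σ` fixes the entries of `G`), so
`ρ : Gal(L / ℂ(x)) → GL_r(ℂ)` is a homomorphism. If `ρ₂ = P⁻¹ ρ₁ P`, then `H = Y₁ P Y₂⁻¹` is fixed by the Galois
group, so it has entries in `ℂ(x)`, and `H' = G₁ H - H G₂`. For every `τ` in the finite set of FIN 3 choose
one system whose `ρ` is conjugate to `τ` (if there is any); let `𝒢` be the set of the chosen systems. -/
def S_RATEQ : Prop := ∀ (F : Type) [Field F] [Algebra (RatFunc ℂ) F]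
    [FiniteDimensional (RatFunc ℂ) F] (d : Derivation ℤ F F), ExtDdx F d → ∀ r : ℕ,
    ∃ 𝒢 : Set (Matrix (Fin r) (Fin r) (RatFunc ℂ)), 𝒢.Finite ∧ (∀ G ∈ 𝒢, SolvedF G F d) ∧
      ∀ G : Matrix (Fin r) (Fin r) (RatFunc ℂ), SolvedF G F d →
        ∃ G₀ ∈ 𝒢, ∃ H : Matrix (Fin r) (Fin r) (RatFunc ℂ), H.det ≠ 0 ∧
          ∀ i j, W432.PC.ddx ℂ (H i j) = (G₀ * H - H * G) i j

/-- The matrix `B / x + C / (x - 1)`. -/
noncomputable def GBC {r : ℕ} (B C : Matrix (Fin r) (Fin r) ℂ) :
    Matrix (Fin r) (Fin r) (RatFunc ℂ) :=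
  B.map (fun b => RatFunc.C b / RatFunc.X) + C.map (fun c => RatFunc.C c / (RatFunc.X - 1))

/-- FIN 5. A rational gauge transformation between Fuchsian systems whose exponents do not differ by nonzero
integers (in the sense of the hypotheses) is constant. PROOF: write `H = P / q`, `P` a matrix of polynomials, `q`
monic of the least degree (so no root of `q` is a root of all the entries of `P`); with
`A_i = (x - 1) B_i + x C_i` the equation is `x (x - 1) (P' q - P q') = q (A₂ P - P A₁)`. If `a` is a root of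
`q` of multiplicity `m`: for `a ≠ 0, 1` one gets `(x - a) ∣ P`; for `a = 0`, `q = x ^ m q₁`, dividing by
`x ^ m` and putting `x = 0` gives `B₂ P(0) - P(0) B₁ = -m P(0)`, so `P(0) = 0`; for `a = 1` in the same way
`C₂ P(1) - P(1) C₁ = -m P(1)`. So `q = 1`; if `d ≥ 1` is the degree of `P` and `P_d` the leading coefficient, then
`(B₂ + C₂) P_d - P_d (B₁ + C₁) = d P_d`, so `P_d = 0`. -/
def S_RIGID : Prop := ∀ (r : ℕ) (B₁ C₁ B₂ C₂ : Matrix (Fin r) (Fin r) ℂ)
    (H : Matrix (Fin r) (Fin r) (RatFunc ℂ)),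
    (∀ (m : ℕ) (X : Matrix (Fin r) (Fin r) ℂ), 1 ≤ m → B₂ * X - X * B₁ = -((m : ℂ) • X) → X = 0) →
    (∀ (m : ℕ) (X : Matrix (Fin r) (Fin r) ℂ), 1 ≤ m → C₂ * X - X * C₁ = -((m : ℂ) • X) → X = 0) →
    (∀ (m : ℕ) (X : Matrix (Fin r) (Fin r) ℂ), 1 ≤ m →
      (B₂ + C₂) * X - X * (B₁ + C₁) = (m : ℂ) • X → X = 0) →
    (∀ i j, W432.PC.ddx ℂ (H i j) = (GBC B₂ C₂ * H - H * GBC B₁ C₁) i j) →
    ∃ P : Matrix (Fin r) (Fin r) ℂ, H = P.map RatFunc.C

/-- FIN 6. Sylvester's lemma. PROOF: `B₂ X = X (B₁ + μ)`, so `0 = F₂(B₂) X = X F₂(B₁ + μ)`, and the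
polynomials `F₂(T + μ)` and `F₁` have no common roots, so they are coprime and `F₂(B₁ + μ)` is
invertible. -/
def S_SYL : Prop := ∀ (r : ℕ) (B₁ B₂ X : Matrix (Fin r) (Fin r) ℂ) (μ : ℂ)
    (F₁ F₂ : Polynomial ℂ), F₁ ≠ 0 → F₂ ≠ 0 → Polynomial.aeval B₁ F₁ = 0 →
    Polynomial.aeval B₂ F₂ = 0 → (∀ a b, F₂.IsRoot a → F₁.IsRoot b → a - b ≠ μ) →
    B₂ * X - X * B₁ = μ • X → X = 0

end Pool.Agent.H925
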