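import Pool.Agent.H925.FinStm

/-!
# Statements for the decomposition into irreducible systems
-/

set_option autoImplicit false

open Finset NumberField

namespace Pool.Agent.H925

/-- The rational gauge equivalence of systems `Y' = G₁ Y`, `Y' = G₂ Y` (of solutions: `Y₂ = H Y₁`). -/
def GaugeEq {r : ℕ} (G₁ G₂ : Matrix (Fin r) (Fin r) (RatFunc ℂ)) : Prop :=
  ∃ H : Matrix (Fin r) (Fin r) (RatFunc ℂ), H.det ≠ 0 ∧
    ∀ i j, W432.PC.ddx ℂ (H i j) = (G₂ * H - H * G₁) i j

/-- The system `Y' = G Y` is reducible over `ℂ(x)`: there is a space of row vectors `v`, which is not zero and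
not the whole space, stable under `v ↦ v' + v G`. -/
def RedSystem {r : ℕ} (G : Matrix (Fin r) (Fin r) (RatFunc ℂ)) : Prop :=
  ∃ W : Submodule (RatFunc ℂ) (Fin r → RatFunc ℂ), W ≠ ⊥ ∧ W ≠ ⊤ ∧
    ∀ v ∈ W, (fun i => W432.PC.ddx ℂ (v i) + ∑ l, v l * G l i) ∈ W

/-- FIN 7. A reducible system is equivalent to a block triangular one. PROOF: choose a basis of `W` and extend
it to a basis of `ℂ(x)^r`; let `B` be the invertible matrix with these vectors as ROWS (the first `r₁` rows are the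
basis of `W`, `0 < r₁ < r`). Then `B' + B G = T B` for the matrix `T = (B' + B G) B⁻¹`, whose upper right
block is zero since the first `r₁` rows of `B' + B G` belong to `W`. So `H = B` works:
`H' = T H - H G`. -/
def S_TRI : Prop := ∀ (r : ℕ) (G : Matrix (Fin r) (Fin r) (RatFunc ℂ)), RedSystem G →
    ∃ (r₁ r₂ : ℕ) (e : Fin r₁ ⊕ Fin r₂ ≃ Fin r) (A : Matrix (Fin r₁) (Fin r₁) (RatFunc ℂ))
      (C : Matrix (Fin r₂) (Fin r₁) (RatFunc ℂ)) (D : Matrix (Fin r₂) (Fin r₂) (RatFunc ℂ)),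
      0 < r₁ ∧ 0 < r₂ ∧ GaugeEq G ((Matrix.fromBlocks A 0 C D).reindex e e)

/-- FIN 8. The trace commutes with the derivation. PROOF: let `w` be a basis of `F` over `ℂ(x)`,
`d w_i = ∑ Γ_ij w_j`, `y w_i = ∑ Y_ij w_j`; then `d(y) w_i = d(y w_i) - y d(w_i)`, so the matrix of `d(y)` is
`Y' + Y Γ - Γ Y`, with the trace `tr(Y') = (tr Y)'`. -/
def S_TRACE : Prop := ∀ (F : Type) [Field F] [Algebra (RatFunc ℂ) F]
    [FiniteDimensional (RatFunc ℂ) F] (d : Derivation ℤ F F), ExtDdx F d → ∀ y : F,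
    W432.PC.ddx ℂ (Algebra.trace (RatFunc ℂ) F y) = Algebra.trace (RatFunc ℂ) F (d y)

/-- FIN 9. If the rows of an `m × r` matrix are linearly independent, some `m` of its columns form an
invertible matrix. -/
def S_COLS : Prop := ∀ (F : Type) [Field F] (m r : ℕ) (Y : Matrix (Fin m) (Fin r) F),
    LinearIndependent F Y.row → ∃ f : Fin m → Fin r, (Y.submatrix id f).det ≠ 0

end Pool.Agent.H925
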