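import Pool.Agent.H925.ExplInst
import Pool.Agent.H925.ExplW
import Pool.Agent.H925.TriRad
import Pool.Agent.H925.FinStm
import Pool.Agent.H925.FinStm2

set_option autoImplicit false

/-!
# Definitions for the finiteness theorems
-/

open Finset NumberField

namespace Pool.Agent.H925

open Pool.Agent.Helper338PC

/-- The class of the systems `Y' = (b / (n x) + C / (N (x - 1))) Y` over the number field `K` with semisimple
residues and exponents in given intervals of length one: `b` is diagonal with at most `k` different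
entries, which are natural numbers less than `n`; `C` has entries in the ring of integers, the residue
`C / N` at `1` is annihilated by `∏ (X - j / n₁)`, `0 ≤ j < n₁`, and the residue at infinity,
`-(b / n + C / N)`, by `∏ (X - (j - L) / n₂)`, `0 ≤ j < n₂`; for the primes `p` which do not divide
`N n` and do not belong to `E` the `p`-curvature is zero modulo `p`. -/
structure BoundedClass (n n₁ n₂ N k L : ℕ) (E : Finset ℕ) (K : Type) [Field K] [NumberField K]
    {r : ℕ} (b : Fin r → ℕ) (C : Matrix (Fin r) (Fin r) (𝓞 K)) : Prop where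
  lt : ∀ i, b i < n
  card : (univ.image b).card ≤ k
  one : Polynomial.aeval C (eigPoly n₁ N) = 0
  inf : Polynomial.aeval (Matrix.diagonal (fun i => ((N * b i : ℕ) : 𝓞 K)) + (n : 𝓞 K) • C)
    (infPoly n₂ (N * n) L) = 0
  good : ∀ p : ℕ, p.Prime → ¬ p ∣ N * n → p ∉ E → PCurvMod p (N * n) (vfam N n b C)

/-- The class of ALL the systems `Y' = (b / (n x) + C / (N (x - 1))) Y` over the number field `K` with
a diagonal matrix `b` of natural numbers less than `n`, at most `k` of them different, and any matrix
`C` over the ring of integers, whose `p`-curvatures are zero modulo `p` for the primes `p` which do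
not divide `N n` and do not belong to `E`. -/
structure AllClass (n N k : ℕ) (E : Finset ℕ) (K : Type) [Field K] [NumberField K]
    {r : ℕ} (b : Fin r → ℕ) (C : Matrix (Fin r) (Fin r) (𝓞 K)) : Prop where
  lt : ∀ i, b i < n
  card : (univ.image b).card ≤ k
  good : ∀ p : ℕ, p.Prime → ¬ p ∣ N * n → p ∉ E → PCurvMod p (N * n) (vfam N n b C)

/-- The same with restricted RATIONAL exponents at `1` and at infinity: the eigenvalues in `ℤ` of `C` belong to
`(N / n₁) ℤ`, those of `N b + n C` to `(N n / n₂) ℤ`. -/
structure RatClass (n n₁ n₂ N k : ℕ) (E : Finset ℕ) (K : Type) [Field K] [NumberField K]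
    {r : ℕ} (b : Fin r → ℕ) (C : Matrix (Fin r) (Fin r) (𝓞 K)) : Prop where
  all : AllClass n N k E K b C
  one : ∀ c : ℤ, C.charpoly.IsRoot (c : 𝓞 K) → ((N : ℕ) : ℤ) ∣ n₁ * c
  inf : ∀ c : ℤ, (Matrix.diagonal (fun i => ((N * b i : ℕ) : 𝓞 K)) + (n : 𝓞 K) • C).charpoly.IsRoot
    (c : 𝓞 K) → ((N * n : ℕ) : ℤ) ∣ n₂ * c

/-- The system `Y' = G Y` has a full set of algebraic solutions. -/
def AlgSystem {r : ℕ} (G : Matrix (Fin r) (Fin r) (RatFunc ℂ)) : Prop :=
  ∃ (F : Type) (_ : Field F) (_ : Algebra (RatFunc ℂ) F) (d : Derivation ℤ F F),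
    FiniteDimensional (RatFunc ℂ) F ∧ ExtDdx F d ∧ SolvedF G F d

/-- The product of the matrices `A` (for `true`) and `B` (for `false`) along a word. -/
def wordProd {R : Type*} [Semiring R] {r : ℕ} (A B : Matrix (Fin r) (Fin r) R) (w : List Bool) :
    Matrix (Fin r) (Fin r) R :=
  (w.map fun t => bif t then A else B).prod

/-- The finiteness of the bounded classes: for all windows of the exponents at `1` and infinity and every rank
`r` there is a finite set of pairs of complex matrices such that every system of the class, over every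
number field, is conjugate to one of the pairs, and all the pairs define systems with full sets of
algebraic solutions. -/
def FiniteBounded (n n₁ n₂ N k : ℕ) (ε : ℝ) : Prop :=
  ∀ (E : Finset ℕ), ∑' p : ℕ, sparseTerm E p ≤ ε → ∀ L r : ℕ,
    ∃ 𝒮 : Set (Matrix (Fin r) (Fin r) ℂ × Matrix (Fin r) (Fin r) ℂ), 𝒮.Finite ∧
      (∀ s ∈ 𝒮, AlgSystem (GBC s.1 s.2)) ∧
      ∀ (K : Type) [Field K] [NumberField K] (φ : K →+* ℂ) (b : Fin r → ℕ)
        (C : Matrix (Fin r) (Fin r) (𝓞 K)), BoundedClass n n₁ n₂ N k L E K b C →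
        ∃ s ∈ 𝒮, ∃ P : Matrix (Fin r) (Fin r) ℂ, P.det ≠ 0 ∧
          s.1 * P = P * Matrix.diagonal (fun i => (b i : ℂ) / n) ∧
          s.2 * P = P * C.map (fun c => φ (algebraMap (𝓞 K) K c) / N)

/-- The finiteness of the free classes: for every rank `r` there is a finite set of rational matrices such that
every system of the class, over every number field, is equivalent to one of them by a rational gauge
transformation, and all of them define systems with full sets of algebraic solutions. -/
def FiniteFree (n N k : ℕ) (ε : ℝ) : Prop :=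
  ∀ (E : Finset ℕ), ∑' p : ℕ, sparseTerm E p ≤ ε → ∀ r : ℕ,
    ∃ 𝒢 : Set (Matrix (Fin r) (Fin r) (RatFunc ℂ)), 𝒢.Finite ∧ (∀ G ∈ 𝒢, AlgSystem G) ∧
      ∀ (K : Type) [Field K] [NumberField K] (φ : K →+* ℂ) (b : Fin r → ℕ)
        (C : Matrix (Fin r) (Fin r) (𝓞 K)), AllClass n N k E K b C →
        ∃ G ∈ 𝒢, GaugeEq (sysG (φ.comp (algebraMap (𝓞 K) K)) (N * n) 1 (vfam N n b C)) G

/-- The finiteness in families: if the trace of some word in `b` and `C(T)` is a nonconstant polynomial of
`T`, then only finitely many algebraic integers `ω` (of arbitrary degree) are such that `(b, C(ω))`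
belongs to the class. -/
def FiniteFamilies (n n₁ n₂ N k : ℕ) (ε : ℝ) : Prop :=
  ∀ (E : Finset ℕ), ∑' p : ℕ, sparseTerm E p ≤ ε → ∀ (L r : ℕ) (b : Fin r → ℕ)
    (C : Matrix (Fin r) (Fin r) (Polynomial ℤ)) (w : List Bool),
    (wordProd (Matrix.diagonal fun i => (b i : Polynomial ℤ)) C w).trace.natDegree ≠ 0 →
    ∃ Ω : Set ℂ, Ω.Finite ∧ ∀ (K : Type) [Field K] [NumberField K] (φ : K →+* ℂ) (ω : 𝓞 K),
      BoundedClass n n₁ n₂ N k L E K b (C.map (Polynomial.aeval ω)) →
        φ (algebraMap (𝓞 K) K ω) ∈ Ω

end Pool.Agent.H925
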