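import Pool.Agent.H925.Free
import Pool.Agent.H925.FinDefs

set_option autoImplicit false

open Finset NumberField

namespace Pool.Agent.H925

open Pool.Agent.Helper338PC

section aux

variable {r : ℕ}

lemma root_of_aeval {K : Type} [Field K] {M : Matrix (Fin r) (Fin r) K} {t : K}
    (h : M.charpoly.IsRoot t) {P : Polynomial K} (hP : Polynomial.aeval M P = 0) :
    P.eval t = 0 := by
  rw [Polynomial.IsRoot, Matrix.eval_charpoly] at h
  obtain ⟨v, hv, hv0⟩ := (Matrix.exists_mulVec_eq_zero_iff).mpr h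
  have h1 : M.mulVec v = t • v := by
    have h2 : (Matrix.scalar (Fin r) t - M).mulVec v = 0 := hv0
    rw [Matrix.sub_mulVec, sub_eq_zero] at h2
    rw [← h2]
    ext i
    simp [Matrix.scalar_apply, Matrix.mulVec_diagonal]
  have h3 : ∀ Q : Polynomial K, (Polynomial.aeval M Q).mulVec v = Q.eval t • v := by
    intro Q
    induction Q using Polynomial.induction_on' with
    | add p q hp hq => rw [map_add, Matrix.add_mulVec, hp, hq, Polynomial.eval_add, add_smul]
    | monomial n a =>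
      rw [Polynomial.aeval_monomial, Polynomial.eval_monomial]
      have h4 : ∀ m : ℕ, (M ^ m).mulVec v = t ^ m • v := by
        intro m
        induction m with
        | zero => rw [pow_zero, pow_zero, Matrix.one_mulVec, one_smul]
        | succ m ih =>
          rw [pow_succ, ← Matrix.mulVec_mulVec, h1, Matrix.mulVec_smul, ih, smul_smul, pow_succ,
            mul_comm]
      rw [← Algebra.smul_def, Matrix.smul_mulVec, h4, smul_smul]
  have h5 := h3 P
  rw [hP, Matrix.zero_mulVec] at h5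
  by_contra hne
  exact hv ((smul_eq_zero.mp h5.symm).resolve_left hne)

/-- The matrix of the explicit system over the complex numbers. -/
lemma sysG_vfam {n N : ℕ} (hn : 0 < n) (hN : 0 < N) {K : Type} [Field K] [NumberField K]
    (φ : K →+* ℂ) (b : Fin r → ℕ) (C : Matrix (Fin r) (Fin r) (𝓞 K)) :
    sysG (φ.comp (algebraMap (𝓞 K) K)) (N * n) 1 (vfam N n b C) =
      GBC (Matrix.diagonal fun i => (b i : ℂ) / n)
        (C.map fun c => φ (algebraMap (𝓞 K) K c) / N) := by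
  have hnC : (n : RatFunc ℂ) ≠ 0 := by exact_mod_cast hn.ne'
  have hNC : (N : RatFunc ℂ) ≠ 0 := by exact_mod_cast hN.ne'
  have hX : (RatFunc.X : RatFunc ℂ) ≠ 0 := RatFunc.X_ne_zero
  have hX1 : (RatFunc.X - 1 : RatFunc ℂ) ≠ 0 := by
    intro h
    have h1 : (algebraMap (Polynomial ℂ) (RatFunc ℂ)) (Polynomial.X - 1) = 0 := by
      rw [map_sub, RatFunc.algebraMap_X, map_one, h]
    rw [map_eq_zero_iff _ (RatFunc.algebraMap_injective ℂ)] at h1
    exact Polynomial.X_sub_C_ne_zero (1 : ℂ) (by simpa using h1)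
  ext1 i j
  unfold sysG GBC vfam
  simp only [Matrix.map_apply, Matrix.add_apply, Matrix.of_apply, Matrix.diagonal_apply]
  split_ifs with hij
  · simp only [Polynomial.map_add, Polynomial.map_mul, Polynomial.map_C, Polynomial.map_sub,
      Polynomial.map_X, Polynomial.map_one, map_add, map_mul, map_sub, map_one, RatFunc.algebraMap_X,
      RatFunc.algebraMap_C, map_natCast, map_div₀, RingHom.comp_apply, pow_one, Nat.cast_mul]
    field_simp
    simp only [Polynomial.map_natCast, map_natCast]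
    ring
  · simp only [Polynomial.map_add, Polynomial.map_mul, Polynomial.map_C, Polynomial.map_zero,
      Polynomial.map_X, map_add, map_mul, map_zero, RatFunc.algebraMap_X,
      RatFunc.algebraMap_C, map_natCast, map_div₀, RingHom.comp_apply, pow_one, Nat.cast_mul]
    field_simp
    simp only [Polynomial.map_natCast, map_natCast]
    ring

end aux

section aux2

variable {r : ℕ}

lemma root_ok {K : Type} [Field K] [NumberField K] {M : Matrix (Fin r) (Fin r) (𝓞 K)} {c : ℤ}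
    (h : M.charpoly.IsRoot (c : 𝓞 K)) {P : Polynomial ℤ} (hP : Polynomial.aeval M P = 0) :
    P.eval c = 0 := by
  have h1 : (M.map (algebraMap (𝓞 K) K)).charpoly.IsRoot ((c : ℤ) : K) := by
    rw [Matrix.charpoly_map, Polynomial.IsRoot, Polynomial.eval_map_algebraMap]
    have h3 : ((c : ℤ) : K) = algebraMap (𝓞 K) K (c : 𝓞 K) := (map_intCast _ c).symm
    rw [h3, Polynomial.aeval_algebraMap_apply]
    have h4 : Polynomial.aeval (c : 𝓞 K) M.charpoly = 0 := h
    rw [h4, map_zero]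
  have h2 : Polynomial.aeval (M.map (algebraMap (𝓞 K) K)) (P.map (algebraMap ℤ K)) = 0 := by
    rw [Polynomial.aeval_map_algebraMap]
    have h5 := Polynomial.aeval_algHom_apply (algebraMap (𝓞 K) K).mapMatrix.toIntAlgHom M P
    rw [hP, map_zero] at h5
    exact h5
  have h3 := root_of_aeval h1 h2
  rw [Polynomial.eval_map_algebraMap] at h3
  have h6 : Polynomial.aeval ((c : ℤ) : K) P = ((P.eval c : ℤ) : K) := by
    have := Polynomial.aeval_algebraMap_apply K c P
    simpa using this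
  rw [h6] at h3
  exact_mod_cast h3

lemma BoundedClass.integral {n n₁ n₂ N k L : ℕ} {E : Finset ℕ} {K : Type}
    [Field K] [NumberField K] {b : Fin r → ℕ} {C : Matrix (Fin r) (Fin r) (𝓞 K)}
    (h : BoundedClass n n₁ n₂ N k L E K b C) : IntegralClass n n₁ n₂ N k E K b C := by
  refine ⟨h.lt, h.card, fun c hc => ?_, fun c hc => ?_, h.good⟩
  · have h1 := root_ok hc h.one
    unfold eigPoly at h1
    rw [Polynomial.eval_prod, Finset.prod_eq_zero_iff] at h1
    obtain ⟨j, -, hj⟩ := h1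
    simp only [Polynomial.eval_sub, Polynomial.eval_mul, Polynomial.eval_C, Polynomial.eval_X] at hj
    exact ⟨j, by linarith⟩
  · have h1 := root_ok hc h.inf
    unfold infPoly at h1
    rw [Polynomial.eval_prod, Finset.prod_eq_zero_iff] at h1
    obtain ⟨j, -, hj⟩ := h1
    simp only [Polynomial.eval_sub, Polynomial.eval_mul, Polynomial.eval_C, Polynomial.eval_X] at hj
    exact ⟨L - j, by push_cast at hj ⊢; linarith⟩

end aux2

section main

variable {r : ℕ}

lemma map_ddx_mul (M P : Matrix (Fin r) (Fin r) (RatFunc ℂ)) :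
    (M * P).map (W432.PC.ddx ℂ) =
      M.map (W432.PC.ddx ℂ) * P + M * P.map (W432.PC.ddx ℂ) := by
  ext1 i j
  simp only [Matrix.map_apply, Matrix.add_apply, Matrix.mul_apply, map_sum, Derivation.leibniz,
    smul_eq_mul, Finset.sum_add_distrib]
  rw [add_comm]
  congr 1
  exact Finset.sum_congr rfl fun l _ => mul_comm _ _

/-- The quotient of two rational gauge transformations to the same system. -/
lemma gauge_quot {G₀ G₁ G₂ H₁ H₂ : Matrix (Fin r) (Fin r) (RatFunc ℂ)} (hdet : H₂.det ≠ 0)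
    (h1 : ∀ i j, W432.PC.ddx ℂ (H₁ i j) = (G₀ * H₁ - H₁ * G₁) i j)
    (h2 : ∀ i j, W432.PC.ddx ℂ (H₂ i j) = (G₀ * H₂ - H₂ * G₂) i j) (i j : Fin r) :
    W432.PC.ddx ℂ ((H₂⁻¹ * H₁) i j) = (G₂ * (H₂⁻¹ * H₁) - (H₂⁻¹ * H₁) * G₁) i j := by
  have hu : IsUnit H₂.det := isUnit_iff_ne_zero.mpr hdet
  set Z := H₂⁻¹ * H₁ with hZ
  have e1 : H₂ * Z = H₁ := by rw [hZ, ← mul_assoc, Matrix.mul_nonsing_inv _ hu, one_mul]
  have h1' : H₁.map (W432.PC.ddx ℂ) = G₀ * H₁ - H₁ * G₁ := by
    ext1 i j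
    exact h1 i j
  have h2' : H₂.map (W432.PC.ddx ℂ) = G₀ * H₂ - H₂ * G₂ := by
    ext1 i j
    exact h2 i j
  have e2 := map_ddx_mul H₂ Z
  rw [e1, h1', h2'] at e2
  have e3 : H₂ * Z.map (W432.PC.ddx ℂ) = H₂ * (G₂ * Z - Z * G₁) := by
    have e4 : H₂ * Z.map (W432.PC.ddx ℂ) = G₀ * H₁ - H₁ * G₁ - (G₀ * H₂ - H₂ * G₂) * Z := by
      rw [e2]
      abel
    rw [e4, sub_mul, mul_assoc G₀, e1, mul_sub, ← mul_assoc H₂ Z, e1, mul_assoc]
    abel
  have e5 : Z.map (W432.PC.ddx ℂ) = G₂ * Z - Z * G₁ := by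
    have := congrArg (fun M => H₂⁻¹ * M) e3
    simpa only [← mul_assoc, Matrix.nonsing_inv_mul _ hu, one_mul] using this
  exact congrFun (congrFun e5 i) j

lemma aeval_scale {m : ℕ} {M : Matrix (Fin r) (Fin r) ℂ} {P : Polynomial ℤ}
    (h : Polynomial.aeval ((m : ℂ) • M) P = 0) :
    Polynomial.aeval M ((P.map (algebraMap ℤ ℂ)).comp (Polynomial.C (m : ℂ) * Polynomial.X)) =
      0 := by
  rw [Polynomial.aeval_comp, map_mul, Polynomial.aeval_C, Polynomial.aeval_X,
    ← Algebra.smul_def, Polynomial.aeval_map_algebraMap]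
  exact h

/-- The data of a system over the complex numbers. -/
structure IsPair (n n₁ n₂ N L : ℕ) (B C : Matrix (Fin r) (Fin r) ℂ) : Prop where
  zero : Polynomial.aeval ((n : ℂ) • B) (∏ j ∈ range n, (Polynomial.X - Polynomial.C (j : ℤ))) = 0
  one : Polynomial.aeval ((N : ℂ) • C) (eigPoly n₁ N) = 0
  inf : Polynomial.aeval (((N * n : ℕ) : ℂ) • (B + C)) (infPoly n₂ (N * n) L) = 0

lemma BoundedClass.isPair {n n₁ n₂ N k L : ℕ} (hn : 0 < n) (hN : 0 < N) {E : Finset ℕ} {K : Type}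
    [Field K] [NumberField K] (φ : K →+* ℂ) {b : Fin r → ℕ} {C : Matrix (Fin r) (Fin r) (𝓞 K)}
    (h : BoundedClass n n₁ n₂ N k L E K b C) :
    IsPair n n₁ n₂ N L (Matrix.diagonal fun i => (b i : ℂ) / n)
      (C.map fun c => φ (algebraMap (𝓞 K) K c) / N) := by
  have hnC : (n : ℂ) ≠ 0 := by exact_mod_cast hn.ne'
  have hNC : (N : ℂ) ≠ 0 := by exact_mod_cast hN.ne'
  refine ⟨?_, ?_, ?_⟩
  · have e1 : (n : ℂ) • (Matrix.diagonal fun i => (b i : ℂ) / n) =
        Matrix.diagonal fun i : Fin r => (b i : ℂ) := by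
      ext1 i j
      rw [Matrix.smul_apply, Matrix.diagonal_apply, Matrix.diagonal_apply, smul_eq_mul]
      split_ifs
      · field_simp
      · rw [mul_zero]
    rw [e1, aeval_diagonal]
    ext1 i j
    rw [Matrix.diagonal_apply, Matrix.zero_apply]
    split_ifs
    · rw [map_prod]
      refine Finset.prod_eq_zero (Finset.mem_range.mpr (h.lt i)) ?_
      simp
    · rfl
  · have e1 : (N : ℂ) • (C.map fun c => φ (algebraMap (𝓞 K) K c) / N) =
        (φ.comp (algebraMap (𝓞 K) K)).mapMatrix C := by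
      ext1 i j
      rw [Matrix.smul_apply, Matrix.map_apply, smul_eq_mul, RingHom.mapMatrix_apply,
        Matrix.map_apply, RingHom.comp_apply]
      field_simp
    rw [e1]
    have h5 := Polynomial.aeval_algHom_apply
      (φ.comp (algebraMap (𝓞 K) K)).mapMatrix.toIntAlgHom C (eigPoly n₁ N)
    rw [h.one, map_zero] at h5
    exact h5
  · have e1 : ((N * n : ℕ) : ℂ) • ((Matrix.diagonal fun i => (b i : ℂ) / n) +
        (C.map fun c => φ (algebraMap (𝓞 K) K c) / N)) =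
        (φ.comp (algebraMap (𝓞 K) K)).mapMatrix
          (Matrix.diagonal (fun i => ((N * b i : ℕ) : 𝓞 K)) + (n : 𝓞 K) • C) := by
      ext1 i j
      rw [Matrix.smul_apply, Matrix.add_apply, Matrix.map_apply, smul_eq_mul,
        RingHom.mapMatrix_apply, Matrix.map_apply, Matrix.add_apply, Matrix.smul_apply,
        RingHom.comp_apply, Matrix.diagonal_apply, Matrix.diagonal_apply]
      split_ifs
      · simp only [map_add, map_natCast, map_mul, smul_eq_mul]
        push_cast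
        field_simp
      · simp only [map_add, map_zero, map_natCast, map_mul, smul_eq_mul]
        push_cast
        field_simp
        ring
    rw [e1]
    have h5 := Polynomial.aeval_algHom_apply
      (φ.comp (algebraMap (𝓞 K) K)).mapMatrix.toIntAlgHom
        (Matrix.diagonal (fun i => ((N * b i : ℕ) : 𝓞 K)) + (n : 𝓞 K) • C)
        (infPoly n₂ (N * n) L)
    rw [h.inf, map_zero] at h5
    exact h5

lemma prod_lin_ne {m : ℕ} {u : ℂ} (hu : u ≠ 0) (v : ℕ → ℂ) :
    (∏ j ∈ range m, (Polynomial.C u * Polynomial.X - Polynomial.C (v j))) ≠ 0 := by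
  refine Finset.prod_ne_zero_iff.mpr fun j _ h => ?_
  have h1 := congrArg (fun P => Polynomial.coeff P 1) h
  simp only [Polynomial.coeff_sub, Polynomial.coeff_C_mul, Polynomial.coeff_X_one, mul_one,
    Polynomial.coeff_C_succ, sub_zero, Polynomial.coeff_zero] at h1
  exact hu h1

lemma syl_prod (h6 : S_SYL) {m : ℕ} {u : ℂ} (hu : u ≠ 0) {v : ℕ → ℂ}
    {B₁ B₂ X : Matrix (Fin r) (Fin r) ℂ}
    (h₁ : Polynomial.aeval B₁ (∏ j ∈ range m,
      (Polynomial.C u * Polynomial.X - Polynomial.C (v j))) = 0)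
    (h₂ : Polynomial.aeval B₂ (∏ j ∈ range m,
      (Polynomial.C u * Polynomial.X - Polynomial.C (v j))) = 0)
    {μ : ℂ} (hμ : ∀ j < m, ∀ j' < m, v j - v j' ≠ u * μ) (hX : B₂ * X - X * B₁ = μ • X) :
    X = 0 := by
  refine h6 r B₁ B₂ X μ _ _ (prod_lin_ne hu v) (prod_lin_ne hu v) h₁ h₂ ?_ hX
  have hroot : ∀ a, (∏ j ∈ range m,
      (Polynomial.C u * Polynomial.X - Polynomial.C (v j))).IsRoot a → ∃ j < m, u * a = v j := by
    intro a ha
    rw [Polynomial.IsRoot, Polynomial.eval_prod, Finset.prod_eq_zero_iff] at ha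
    obtain ⟨j, hj, h⟩ := ha
    refine ⟨j, Finset.mem_range.mp hj, ?_⟩
    simp only [Polynomial.eval_sub, Polynomial.eval_mul, Polynomial.eval_C, Polynomial.eval_X] at h
    exact sub_eq_zero.mp h
  intro a b ha hb hab
  obtain ⟨j, hj, e1⟩ := hroot a ha
  obtain ⟨j', hj', e2⟩ := hroot b hb
  apply hμ j hj j' hj'
  rw [← e1, ← e2, ← hab]
  ring

lemma IsPair.rigid (h5 : S_RIGID) (h6 : S_SYL) {n n₁ n₂ N L : ℕ} (hn : 0 < n) (hn₁ : 0 < n₁)
    (hn₂ : 0 < n₂) (hN : 0 < N) {B₁ C₁ B₂ C₂ : Matrix (Fin r) (Fin r) ℂ}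
    (h1 : IsPair n n₁ n₂ N L B₁ C₁) (h2 : IsPair n n₁ n₂ N L B₂ C₂)
    {H : Matrix (Fin r) (Fin r) (RatFunc ℂ)}
    (hH : ∀ i j, W432.PC.ddx ℂ (H i j) = (GBC B₂ C₂ * H - H * GBC B₁ C₁) i j) :
    ∃ P : Matrix (Fin r) (Fin r) ℂ, H = P.map RatFunc.C := by
  have hnC : (n : ℂ) ≠ 0 := by exact_mod_cast hn.ne'
  have hn₁C : (n₁ : ℂ) ≠ 0 := by exact_mod_cast hn₁.ne'
  have hn₂C : (n₂ : ℂ) ≠ 0 := by exact_mod_cast hn₂.ne'
  have hNC : (N : ℂ) ≠ 0 := by exact_mod_cast hN.ne'
  have key0 : ∀ B C : Matrix (Fin r) (Fin r) ℂ, IsPair n n₁ n₂ N L B C →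
      Polynomial.aeval B (∏ j ∈ range n,
        (Polynomial.C (n : ℂ) * Polynomial.X - Polynomial.C ((fun j : ℕ => (j : ℂ)) j))) = 0 := by
    intro B C h
    have h3 := aeval_scale h.zero
    rw [Polynomial.map_prod, Polynomial.prod_comp] at h3
    simpa using h3
  have key1 : ∀ B C : Matrix (Fin r) (Fin r) ℂ, IsPair n n₁ n₂ N L B C →
      Polynomial.aeval C (∏ j ∈ range n₁, (Polynomial.C ((n₁ : ℂ) * N) * Polynomial.X -
        Polynomial.C ((fun j : ℕ => (j : ℂ) * N) j))) = 0 := by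
    intro B C h
    have h3 := aeval_scale h.one
    unfold eigPoly at h3
    rw [Polynomial.map_prod, Polynomial.prod_comp] at h3
    simpa [mul_assoc] using h3
  have key2 : ∀ B C : Matrix (Fin r) (Fin r) ℂ, IsPair n n₁ n₂ N L B C →
      Polynomial.aeval (B + C) (∏ j ∈ range n₂, (Polynomial.C ((n₂ : ℂ) * (N * n)) *
        Polynomial.X - Polynomial.C ((fun j : ℕ => ((L : ℂ) - j) * (N * n)) j))) = 0 := by
    intro B C h
    have h3 := aeval_scale h.inf
    unfold infPoly at h3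
    rw [Polynomial.map_prod, Polynomial.prod_comp] at h3
    simpa [mul_assoc] using h3
  refine h5 r B₁ C₁ B₂ C₂ H ?_ ?_ ?_ hH
  · intro m X hm hX
    refine syl_prod h6 hnC (key0 _ _ h1) (key0 _ _ h2) (μ := -(m : ℂ)) ?_ (by rw [hX, neg_smul])
    intro j hj j' hj' he
    have e1 : (j : ℤ) - j' = n * -(m : ℤ) := by exact_mod_cast he
    have e2 : (n : ℤ) * 1 ≤ n * m := mul_le_mul_of_nonneg_left (by exact_mod_cast hm) (by omega)
    have e3 : (j' : ℤ) < n := by exact_mod_cast hj'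
    rw [mul_neg] at e1
    omega
  · intro m X hm hX
    refine syl_prod h6 (mul_ne_zero hn₁C hNC) (key1 _ _ h1) (key1 _ _ h2) (μ := -(m : ℂ)) ?_
      (by rw [hX, neg_smul])
    intro j hj j' hj' he
    have e0 : ((j : ℂ) - j') * N = (n₁ * -(m : ℂ)) * N := by linear_combination he
    have e1 : (j : ℤ) - j' = n₁ * -(m : ℤ) := by exact_mod_cast mul_right_cancel₀ hNC e0
    have e2 : (n₁ : ℤ) * 1 ≤ n₁ * m := mul_le_mul_of_nonneg_left (by exact_mod_cast hm) (by omega)
    have e3 : (j' : ℤ) < n₁ := by exact_mod_cast hj'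
    rw [mul_neg] at e1
    omega
  · intro m X hm hX
    refine syl_prod h6 (mul_ne_zero hn₂C (mul_ne_zero hNC hnC)) (key2 _ _ h1) (key2 _ _ h2)
      (μ := (m : ℂ)) ?_ hX
    intro j hj j' hj' he
    have e0 : ((j' : ℂ) - j) * (N * n) = (n₂ * (m : ℂ)) * (N * n) := by linear_combination he
    have e1 : (j' : ℤ) - j = n₂ * (m : ℤ) := by
      exact_mod_cast mul_right_cancel₀ (mul_ne_zero hNC hnC) e0
    have e2 : (n₂ : ℤ) * 1 ≤ n₂ * m := mul_le_mul_of_nonneg_left (by exact_mod_cast hm) (by omega)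
    have e3 : (j' : ℤ) < n₂ := by exact_mod_cast hj'
    omega

/-- The residues of a constant gauge transformation. -/
lemma gbc_const {B₁ C₁ B₂ C₂ P : Matrix (Fin r) (Fin r) ℂ}
    (h : ∀ i j, W432.PC.ddx ℂ ((P.map RatFunc.C) i j) =
      (GBC B₂ C₂ * P.map RatFunc.C - P.map RatFunc.C * GBC B₁ C₁) i j) :
    B₂ * P = P * B₁ ∧ C₂ * P = P * C₁ := by
  have hX : (RatFunc.X : RatFunc ℂ) ≠ 0 := RatFunc.X_ne_zero
  have hX1 : (RatFunc.X - 1 : RatFunc ℂ) ≠ 0 := by
    intro h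
    have h1 : (algebraMap (Polynomial ℂ) (RatFunc ℂ)) (Polynomial.X - 1) = 0 := by
      rw [map_sub, RatFunc.algebraMap_X, map_one, h]
    rw [map_eq_zero_iff _ (RatFunc.algebraMap_injective ℂ)] at h1
    exact Polynomial.X_sub_C_ne_zero (1 : ℂ) (by simpa using h1)
  have key : ∀ i j, (B₂ * P - P * B₁) i j = 0 ∧ (C₂ * P - P * C₁) i j = 0 := by
    intro i j
    have h1 := h i j
    have h2 : W432.PC.ddx ℂ ((P.map RatFunc.C) i j) = 0 := by
      rw [Matrix.map_apply, ← RatFunc.algebraMap_eq_C]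
      exact Derivation.map_algebraMap _ _
    have h3 : (GBC B₂ C₂ * P.map RatFunc.C - P.map RatFunc.C * GBC B₁ C₁) i j =
        RatFunc.C ((B₂ * P - P * B₁) i j) / RatFunc.X +
          RatFunc.C ((C₂ * P - P * C₁) i j) / (RatFunc.X - 1) := by
      unfold GBC
      simp only [Matrix.sub_apply, Matrix.mul_apply, Matrix.add_apply, Matrix.map_apply, map_sub,
        map_sum, map_mul, sub_div, Finset.sum_div, add_mul, mul_add, Finset.sum_add_distrib]
      have e1 : ∀ x : Fin r, RatFunc.C (B₂ i x) / RatFunc.X * RatFunc.C (P x j) =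
          RatFunc.C (B₂ i x) * RatFunc.C (P x j) / RatFunc.X := fun x => by ring
      have e2 : ∀ x : Fin r, RatFunc.C (C₂ i x) / (RatFunc.X - 1) * RatFunc.C (P x j) =
          RatFunc.C (C₂ i x) * RatFunc.C (P x j) / (RatFunc.X - 1) := fun x => by ring
      have e3 : ∀ x : Fin r, RatFunc.C (P i x) * (RatFunc.C (B₁ x j) / RatFunc.X) =
          RatFunc.C (P i x) * RatFunc.C (B₁ x j) / RatFunc.X := fun x => by ring
      have e4 : ∀ x : Fin r, RatFunc.C (P i x) * (RatFunc.C (C₁ x j) / (RatFunc.X - 1)) =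
          RatFunc.C (P i x) * RatFunc.C (C₁ x j) / (RatFunc.X - 1) := fun x => by ring
      simp only [e1, e2, e3, e4]
      ring
    rw [h2, h3] at h1
    set β := (B₂ * P - P * B₁) i j
    set γ := (C₂ * P - P * C₁) i j
    have h4 : RatFunc.C β * (RatFunc.X - 1) + RatFunc.C γ * RatFunc.X = 0 := by
      field_simp at h1
      linear_combination -h1
    have h5 : (algebraMap (Polynomial ℂ) (RatFunc ℂ))
        (Polynomial.C β * (Polynomial.X - 1) + Polynomial.C γ * Polynomial.X) = 0 := by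
      rw [map_add, map_mul, map_mul, map_sub, map_one, RatFunc.algebraMap_X, RatFunc.algebraMap_C,
        RatFunc.algebraMap_C]
      exact h4
    rw [map_eq_zero_iff _ (RatFunc.algebraMap_injective ℂ)] at h5
    have h6 := congrArg (Polynomial.eval 0) h5
    have h7 := congrArg (Polynomial.eval 1) h5
    simp only [Polynomial.eval_add, Polynomial.eval_mul, Polynomial.eval_C, Polynomial.eval_sub,
      Polynomial.eval_X, Polynomial.eval_one, Polynomial.eval_zero] at h6 h7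
    constructor
    · linear_combination -h6
    · linear_combination h7
  constructor
  · refine sub_eq_zero.mp ?_
    ext1 i j
    exact (key i j).1
  · refine sub_eq_zero.mp ?_
    ext1 i j
    exact (key i j).2

lemma exists_pick {α β : Type*} [Nonempty β] (Q : α → β → Prop) :
    ∃ f : α → β, ∀ a, (∃ s, Q a s) → Q a (f a) := by
  refine Classical.axiom_of_choice (r := fun a s => (∃ s', Q a s') → Q a s) fun a => ?_
  by_cases h : ∃ s, Q a s
  · obtain ⟨s, hs⟩ := h
    exact ⟨s, fun _ => hs⟩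
  · exact ⟨Classical.arbitrary β, fun h' => absurd h' h⟩

lemma gbc_mul (B C P : Matrix (Fin r) (Fin r) ℂ) :
    GBC B C * P.map RatFunc.C = GBC (B * P) (C * P) := by
  ext1 i j
  unfold GBC
  simp only [Matrix.mul_apply, Matrix.add_apply, Matrix.map_apply, map_sum, map_mul,
    Finset.sum_div, add_mul, Finset.sum_add_distrib]
  congr 1 <;> exact Finset.sum_congr rfl fun x _ => by ring

lemma mul_gbc (B C P : Matrix (Fin r) (Fin r) ℂ) :
    P.map RatFunc.C * GBC B C = GBC (P * B) (P * C) := by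
  ext1 i j
  unfold GBC
  simp only [Matrix.mul_apply, Matrix.add_apply, Matrix.map_apply, map_sum, map_mul,
    Finset.sum_div, mul_add, Finset.sum_add_distrib]
  congr 1 <;> exact Finset.sum_congr rfl fun x _ => by ring

lemma solvedF_conj {F : Type} [Field F] [Algebra (RatFunc ℂ) F] {d : Derivation ℤ F F}
    (hd : ExtDdx F d) {G₁ G₂ : Matrix (Fin r) (Fin r) (RatFunc ℂ)} {P : Matrix (Fin r) (Fin r) ℂ}
    (hP : P.det ≠ 0) (h : G₂ * P.map RatFunc.C = P.map RatFunc.C * G₁) (hs : SolvedF G₁ F d) :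
    SolvedF G₂ F d := by
  obtain ⟨Y, hY, hdY⟩ := hs
  set ι := algebraMap (RatFunc ℂ) F with hι
  set Q : Matrix (Fin r) (Fin r) F := ι.mapMatrix (P.map RatFunc.C) with hQ
  have e1 : Y.map d = ι.mapMatrix G₁ * Y := by
    ext1 i j
    rw [Matrix.map_apply, hdY, Matrix.mul_apply]
    rfl
  have e2 : ∀ i j, d (Q i j) = 0 := by
    intro i j
    have h1 : Q i j = ι (RatFunc.C (P i j)) := rfl
    have h2 : W432.PC.ddx ℂ (RatFunc.C (P i j)) = 0 := by
      rw [← RatFunc.algebraMap_eq_C]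
      exact Derivation.map_algebraMap _ _
    rw [h1, hd, h2, map_zero]
  refine ⟨Q * Y, ?_, ?_⟩
  · rw [Matrix.det_mul]
    refine mul_ne_zero ?_ hY
    rw [hQ, ← RingHom.map_det]
    have h2 : (P.map RatFunc.C).det = RatFunc.C P.det :=
      (RingHom.map_det (RatFunc.C : ℂ →+* RatFunc ℂ) P).symm
    rw [h2]
    intro h3
    rw [map_eq_zero_iff _ ι.injective] at h3
    exact hP ((map_eq_zero_iff _ (RatFunc.C : ℂ →+* RatFunc ℂ).injective).mp h3)
  · have e3 : (Q * Y).map d = Q * Y.map d := by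
      ext1 i j
      rw [Matrix.map_apply, Matrix.mul_apply, Matrix.mul_apply, map_sum]
      refine Finset.sum_congr rfl fun l _ => ?_
      rw [Derivation.leibniz, e2, smul_zero, add_zero, smul_eq_mul, Matrix.map_apply]
    have e4 : Q * Y.map d = ι.mapMatrix G₂ * (Q * Y) := by
      rw [e1, ← mul_assoc, ← mul_assoc, hQ, ← map_mul, ← map_mul, h]
    intro i j
    have e5 := congrFun (congrFun (e3.trans e4) i) j
    rw [Matrix.map_apply] at e5
    rw [e5, Matrix.mul_apply]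
    rfl

/-- Finitely many systems of rank `r` of the bounded class over all number fields, up to conjugation. -/
theorem bounded_finite (h4 : S_RATEQ) (h5 : S_RIGID) (h6 : S_SYL) {n n₁ n₂ N k : ℕ} {ε : ℝ}
    (hn : 0 < n) (hn₁ : 0 < n₁) (hn₂ : 0 < n₂) (hN : 0 < N)
    (h : IntegralSolved n n₁ n₂ N k ε) (E : Finset ℕ) (hE : ∑' p : ℕ, sparseTerm E p ≤ ε)
    (L r : ℕ) : ∃ 𝒮 : Set (Matrix (Fin r) (Fin r) ℂ × Matrix (Fin r) (Fin r) ℂ), 𝒮.Finite ∧
      (∀ s ∈ 𝒮, AlgSystem (GBC s.1 s.2)) ∧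
      ∀ (K : Type) [Field K] [NumberField K] (φ : K →+* ℂ) (b : Fin r → ℕ)
        (C : Matrix (Fin r) (Fin r) (𝓞 K)), BoundedClass n n₁ n₂ N k L E K b C →
        ∃ s ∈ 𝒮, ∃ P : Matrix (Fin r) (Fin r) ℂ, P.det ≠ 0 ∧
          s.1 * P = P * Matrix.diagonal (fun i => (b i : ℂ) / n) ∧
          s.2 * P = P * C.map (fun c => φ (algebraMap (𝓞 K) K c) / N) := by
  classical
  obtain ⟨M, hM⟩ := h
  obtain ⟨F, i1, i2, d, hfd, -, hd, hF⟩ := hM E hE
  obtain ⟨𝒢, hfin, -, hG⟩ := h4 F d hd r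
  obtain ⟨f, hf⟩ := exists_pick (fun (G₀ : Matrix (Fin r) (Fin r) (RatFunc ℂ))
    (s : Matrix (Fin r) (Fin r) ℂ × Matrix (Fin r) (Fin r) ℂ) =>
      IsPair n n₁ n₂ N L s.1 s.2 ∧ ∃ H : Matrix (Fin r) (Fin r) (RatFunc ℂ), H.det ≠ 0 ∧
        ∀ i j, W432.PC.ddx ℂ (H i j) = (G₀ * H - H * GBC s.1 s.2) i j)
  refine ⟨f '' 𝒢 ∩ {s | SolvedF (GBC s.1 s.2) F d}, (hfin.image f).subset Set.inter_subset_left,
    fun s hs => ⟨F, i1, i2, d, hfd, hd, hs.2⟩, ?_⟩
  intro K _ _ φ b C hC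
  have hs : SolvedF (sysG (φ.comp (algebraMap (𝓞 K) K)) (N * n) 1 (vfam N n b C)) F d :=
    hF K φ r b C hC.integral
  obtain ⟨G₀, hG₀, H, hdet, hH⟩ := hG _ hs
  rw [sysG_vfam hn hN] at hH
  have hp := hC.isPair hn hN φ
  obtain ⟨hp₀, H₀, hdet₀, hH₀⟩ := hf G₀ ⟨(_, _), hp, H, hdet, hH⟩
  have hq := gauge_quot hdet₀ hH hH₀
  obtain ⟨P, hP⟩ := hp.rigid h5 h6 hn hn₁ hn₂ hN hp₀ hq
  have hdetP : P.det ≠ 0 := by
    intro h0
    have h1 : (H₀⁻¹ * H).det = 0 := by
      rw [hP]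
      have h2 : (P.map RatFunc.C).det = RatFunc.C P.det :=
        (RingHom.map_det (RatFunc.C : ℂ →+* RatFunc ℂ) P).symm
      rw [h2, h0, map_zero]
    rw [Matrix.det_mul, Matrix.det_nonsing_inv] at h1
    rcases mul_eq_zero.mp h1 with h3 | h3
    · rw [Ring.inverse_eq_inv'] at h3
      exact hdet₀ (inv_eq_zero.mp h3)
    · exact hdet h3
  rw [hP] at hq
  obtain ⟨e1, e2⟩ := gbc_const hq
  rw [sysG_vfam hn hN] at hs
  exact ⟨f G₀, ⟨Set.mem_image_of_mem f hG₀,
    solvedF_conj hd hdetP (by rw [gbc_mul, mul_gbc, e1, e2]) hs⟩, P, hdetP, e1, e2⟩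

/-- Finitely many local systems of rank `r` of the free class over all number fields: up to rational gauge
transformations. -/
theorem free_finite (h4 : S_RATEQ) {n N k : ℕ} {ε : ℝ}
    (h : FreeSolved n N k ε) (E : Finset ℕ) (hE : ∑' p : ℕ, sparseTerm E p ≤ ε)
    (r : ℕ) : ∃ 𝒢 : Set (Matrix (Fin r) (Fin r) (RatFunc ℂ)), 𝒢.Finite ∧
      (∀ G ∈ 𝒢, AlgSystem G) ∧
      ∀ (K : Type) [Field K] [NumberField K] (φ : K →+* ℂ) (b : Fin r → ℕ)
        (C : Matrix (Fin r) (Fin r) (𝓞 K)), AllClass n N k E K b C →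
        ∃ G ∈ 𝒢, GaugeEq (sysG (φ.comp (algebraMap (𝓞 K) K)) (N * n) 1 (vfam N n b C)) G := by
  obtain ⟨M, hM⟩ := h
  obtain ⟨F, i1, i2, d, hfd, -, hd, hF⟩ := hM E hE
  obtain ⟨𝒢, hfin, hG₀, hG⟩ := h4 F d hd r
  exact ⟨𝒢, hfin, fun G h => ⟨F, i1, i2, d, hfd, hd, hG₀ G h⟩,
    fun K _ _ φ b C hC => hG _ (hF K φ r b C ⟨hC.lt, hC.card, hC.good⟩)⟩

end main

end Pool.Agent.H925

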