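import Pool.Agent.H925.FinStm2

/-!
# FIN 9: linearly independent rows and invertible submatrices of columns
-/

set_option autoImplicit false

namespace Pool.Agent.H684

/-- FIN 9: if the rows of an `m × r` matrix are linearly independent, some `m` of its columns form an
invertible matrix. -/
theorem t_COLS : Pool.Agent.H925.S_COLS := by
  intro F _ m r Y h
  have hr : Y.rank = m := by
    rw [h.rank_matrix, Fintype.card_fin]
  rw [Matrix.rank_eq_finrank_span_cols] at hr
  obtain ⟨g, hg1, -, hg3⟩ := Submodule.exists_fun_fin_finrank_span_eq F (Set.range Y.col)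
  choose f hf using hg1
  refine ⟨fun i => f (Fin.cast hr.symm i), fun hdet => ?_⟩
  have hli : LinearIndependent F (Y.submatrix id (fun i => f (Fin.cast hr.symm i))).col := by
    have h1 : (Y.submatrix id (fun i => f (Fin.cast hr.symm i))).col =
        g ∘ (Fin.cast hr.symm) := by
      funext i
      have h2 := hf (Fin.cast hr.symm i)
      rw [Function.comp_apply, ← h2]
      rfl
    rw [h1]
    exact hg3.comp _ (Fin.cast_injective _)
  have h3 := Matrix.linearIndependent_cols_iff_isUnit.1 hli
  rw [Matrix.isUnit_iff_isUnit_det, hdet] at h3
  exact not_isUnit_zero h3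

end Pool.Agent.H684
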