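import Pool.Agent.H925.FinStm

/-!
# FIN 2: the constants of a finite extension of `ℂ(x)` are the complex numbers
-/

set_option autoImplicit false

open Polynomial

namespace Pool.Agent.H998.FinConst

open Pool.Agent.H925

theorem ddx_zero (f : RatFunc ℂ) (h : W432.PC.ddx ℂ f = 0) : ∃ c : ℂ, f = RatFunc.C c := by
  have hq : f.denom ≠ 0 := RatFunc.denom_ne_zero f
  have hq' : algebraMap ℂ[X] (RatFunc ℂ) f.denom ≠ 0 := by
    rw [Ne, ← map_zero (algebraMap ℂ[X] (RatFunc ℂ))]
    exact fun h0 => hq (RatFunc.algebraMap_injective ℂ h0)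
  have hf : f * algebraMap ℂ[X] (RatFunc ℂ) f.denom = algebraMap ℂ[X] (RatFunc ℂ) f.num := by
    have := RatFunc.num_div_denom f
    rw [div_eq_iff hq'] at this
    exact this.symm
  have h1 := congrArg (W432.PC.ddx ℂ) hf
  rw [Derivation.leibniz, h, W432.PC.ddx_algebraMap, W432.PC.ddx_algebraMap, smul_zero, add_zero,
    smul_eq_mul] at h1
  have h2 : f.num * derivative f.denom = derivative f.num * f.denom := by
    apply RatFunc.algebraMap_injective ℂ
    rw [map_mul, map_mul, ← hf, ← h1]
    ring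
  have h3 : f.denom ∣ derivative f.denom :=
    (RatFunc.isCoprime_num_denom f).symm.dvd_of_dvd_mul_left (Dvd.intro_left _ h2.symm)
  have h4 : derivative f.denom = 0 := by
    by_contra h0
    have h5 := Polynomial.natDegree_le_of_dvd h3 h0
    have h6 : f.denom.natDegree ≠ 0 := by
      intro h7
      exact h0 (Polynomial.derivative_of_natDegree_zero h7)
    have h7 := Polynomial.natDegree_derivative_lt h6
    omega
  have h5 : derivative f.num = 0 := by
    rw [h4, mul_zero] at h2
    rcases mul_eq_zero.1 h2.symm with h6 | h6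
    · exact h6
    · exact absurd h6 hq
  have h6 := Polynomial.eq_C_of_natDegree_eq_zero
    (Polynomial.derivative_eq_zero.1 h4)
  have h7 := Polynomial.eq_C_of_natDegree_eq_zero
    (Polynomial.derivative_eq_zero.1 h5)
  refine ⟨f.num.coeff 0 / f.denom.coeff 0, ?_⟩
  rw [map_div₀, ← RatFunc.algebraMap_C, ← RatFunc.algebraMap_C, ← h6, ← h7]
  exact (RatFunc.num_div_denom f).symm

theorem t_CONST : S_CONST := by
  intro L _ _ _ δ hδ y hy
  have hint : IsIntegral (RatFunc ℂ) y := IsIntegral.of_finite _ y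
  set P := minpoly (RatFunc ℂ) y with hP
  have hmon : P.Monic := minpoly.monic hint
  have h0 : aeval y P = 0 := minpoly.aeval _ _
  have hpow : ∀ i : ℕ, δ (y ^ i) = 0 := by
    intro i
    rw [Derivation.leibniz_pow, hy, smul_zero, smul_zero]
  set Q : (RatFunc ℂ)[X] := ∑ i ∈ Finset.range (P.natDegree + 1),
    monomial i (W432.PC.ddx ℂ (P.coeff i)) with hQ
  have hQ0 : aeval y Q = 0 := by
    rw [aeval_eq_sum_range] at h0
    have h1 := congrArg δ h0
    rw [map_sum, map_zero] at h1
    rw [hQ, map_sum, ← h1]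
    refine Finset.sum_congr rfl fun i _ => ?_
    rw [aeval_monomial, Algebra.smul_def, Derivation.leibniz, hpow, smul_zero, zero_add, hδ,
      smul_eq_mul, mul_comm]
  have hcoeff : ∀ j, Q.coeff j = W432.PC.ddx ℂ (P.coeff j) := by
    intro j
    rw [hQ, finsetSum_coeff]
    simp only [coeff_monomial]
    rw [Finset.sum_ite_eq' (Finset.range (P.natDegree + 1)) j
      (fun i => W432.PC.ddx ℂ (P.coeff i))]
    split_ifs with h
    · rfl
    · rw [coeff_eq_zero_of_natDegree_lt (by rw [Finset.mem_range] at h; omega), map_zero]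
  have hQz : Q = 0 := by
    by_contra hne
    have h1 := minpoly.degree_le_of_ne_zero (RatFunc ℂ) y hne hQ0
    rw [← hP] at h1
    have h2 : Q.degree < P.degree := by
      rw [Polynomial.degree_eq_natDegree hmon.ne_zero, Polynomial.degree_lt_iff_coeff_zero]
      intro j hj
      rw [hcoeff]
      rcases Nat.lt_or_ge P.natDegree j with h5 | h5
      · rw [coeff_eq_zero_of_natDegree_lt h5, map_zero]
      · have h6 : j = P.natDegree := le_antisymm h5 hj
        rw [h6, hmon.coeff_natDegree, Derivation.map_one_eq_zero]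
    exact absurd h1 (not_le.2 h2)
  have hlift : P ∈ Polynomial.lifts (RatFunc.C : ℂ →+* RatFunc ℂ) := by
    rw [Polynomial.lifts_iff_coeff_lifts]
    intro n
    obtain ⟨c, hc⟩ := ddx_zero (P.coeff n) (by rw [← hcoeff, hQz, coeff_zero])
    exact ⟨c, hc.symm⟩
  obtain ⟨q, hq1, hq2, hq3⟩ := Polynomial.lifts_and_natDegree_eq_and_monic hlift hmon
  let f₀ : ℂ →+* L := (algebraMap (RatFunc ℂ) L).comp RatFunc.C
  have h3 : eval₂ f₀ y q = 0 := by
    rw [← h0, ← hq1, aeval_def, eval₂_map]
  let _ : Algebra ℂ L := f₀.toAlgebra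
  have h4 : IsIntegral ℂ y := ⟨q, hq3, h3⟩
  obtain ⟨c, hc⟩ := IsIntegral.mem_range_algebraMap_of_minpoly_splits (R := ℂ) (K := ℂ) h4
    (IsAlgClosed.splits _)
  exact ⟨c, hc.symm⟩

end Pool.Agent.H998.FinConst
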