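import Pool.Agent.H925.FinDefs
import Pool.Agent.H925.FinStm2

set_option autoImplicit false

/-!
# Definitions for the finiteness theorem for all ranks
-/

open Finset NumberField

namespace Pool.Agent.H925

open Pool.Agent.Helper338PC

/-- The system `Y' = G Y` is reducible over `ℂ(x)`: it is equivalent to a block triangular system, with
diagonal blocks of positive sizes. -/
def BlockTri {r : ℕ} (G : Matrix (Fin r) (Fin r) (RatFunc ℂ)) : Prop :=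
  ∃ (r₁ r₂ : ℕ) (e : Fin r₁ ⊕ Fin r₂ ≃ Fin r) (A : Matrix (Fin r₁) (Fin r₁) (RatFunc ℂ))
    (C : Matrix (Fin r₂) (Fin r₁) (RatFunc ℂ)) (D : Matrix (Fin r₂) (Fin r₂) (RatFunc ℂ)),
    0 < r₁ ∧ 0 < r₂ ∧ GaugeEq G ((Matrix.fromBlocks A 0 C D).reindex e e)

/-- `SumOf 𝒢 G`: up to a rational gauge transformation the system `Y' = G Y` is a direct sum of systems
of the list `𝒢`; the smallest class of systems which contains `𝒢` and is closed under direct sums and under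
rational gauge transformations. -/
inductive SumOf (𝒢 : Set (Σ m : ℕ, Matrix (Fin m) (Fin m) (RatFunc ℂ))) :
    ∀ r : ℕ, Matrix (Fin r) (Fin r) (RatFunc ℂ) → Prop
  | zero (G : Matrix (Fin 0) (Fin 0) (RatFunc ℂ)) : SumOf 𝒢 0 G
  | of (s : Σ m : ℕ, Matrix (Fin m) (Fin m) (RatFunc ℂ)) (hs : s ∈ 𝒢) : SumOf 𝒢 s.1 s.2
  | add {r₁ r₂ r : ℕ} (e : Fin r₁ ⊕ Fin r₂ ≃ Fin r) (A : Matrix (Fin r₁) (Fin r₁) (RatFunc ℂ))
      (D : Matrix (Fin r₂) (Fin r₂) (RatFunc ℂ)) (hA : SumOf 𝒢 r₁ A) (hD : SumOf 𝒢 r₂ D) :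
      SumOf 𝒢 r ((Matrix.fromBlocks A 0 0 D).reindex e e)
  | gauge {r : ℕ} (G₁ G₂ : Matrix (Fin r) (Fin r) (RatFunc ℂ)) (h₁ : SumOf 𝒢 r G₁)
      (h : GaugeEq G₁ G₂) : SumOf 𝒢 r G₂

/-- For every `E` there is one finite list of irreducible systems, of ranks at most `M` (independent of
`E`) and with full sets of algebraic solutions, such that every system of the class `AllClass n N k E`, over
every number field and of every rank, is a direct sum of systems of the list up to a rational gauge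
transformation. -/
def FiniteSimpleFree (n N k : ℕ) (ε : ℝ) : Prop :=
  ∃ M : ℕ, ∀ E : Finset ℕ, ∑' p : ℕ, sparseTerm E p ≤ ε →
    ∃ 𝒢 : Set (Σ m : ℕ, Matrix (Fin m) (Fin m) (RatFunc ℂ)), 𝒢.Finite ∧
      (∀ s ∈ 𝒢, 0 < s.1 ∧ s.1 ≤ M ∧ ¬ BlockTri s.2 ∧ AlgSystem s.2) ∧
      ∀ (K : Type) [Field K] [NumberField K] (φ : K →+* ℂ) (r : ℕ) (b : Fin r → ℕ)
        (C : Matrix (Fin r) (Fin r) (𝓞 K)), AllClass n N k E K b C →
        SumOf 𝒢 r (sysG (φ.comp (algebraMap (𝓞 K) K)) (N * n) 1 (vfam N n b C))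

/-- The same for the class `RatClass n n₁ n₂ N k E`. -/
def FiniteSimple (n n₁ n₂ N k : ℕ) (ε : ℝ) : Prop :=
  ∃ M : ℕ, ∀ E : Finset ℕ, ∑' p : ℕ, sparseTerm E p ≤ ε →
    ∃ 𝒢 : Set (Σ m : ℕ, Matrix (Fin m) (Fin m) (RatFunc ℂ)), 𝒢.Finite ∧
      (∀ s ∈ 𝒢, 0 < s.1 ∧ s.1 ≤ M ∧ ¬ BlockTri s.2 ∧ AlgSystem s.2) ∧
      ∀ (K : Type) [Field K] [NumberField K] (φ : K →+* ℂ) (r : ℕ) (b : Fin r → ℕ)
        (C : Matrix (Fin r) (Fin r) (𝓞 K)), RatClass n n₁ n₂ N k E K b C →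
        SumOf 𝒢 r (sysG (φ.comp (algebraMap (𝓞 K) K)) (N * n) 1 (vfam N n b C))

end Pool.Agent.H925
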