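import Pool.Agent.H925.FinStm

/-!
# FIN 1: Galois closure with a derivation
-/

set_option autoImplicit false

open Polynomial

namespace Pool.Agent.H327.FinGal

open Pool.Agent.H925

lemma ext_unique {K E L : Type} [Field K] [Field E] [Field L] [Algebra K E] [Algebra K L]
    [Algebra E L] [IsScalarTower K E L] [CharZero K] [Algebra.IsAlgebraic K E]
    (d0 : Derivation ℤ K K) (dE : Derivation ℤ E E) (dL : Derivation ℤ L L)
    (hE : ∀ f, dE (algebraMap K E f) = algebraMap K E (d0 f))
    (hL : ∀ f, dL (algebraMap K L f) = algebraMap K L (d0 f)) (y : E) :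
    dL (algebraMap E L y) = algebraMap E L (dE y) := by
  have hmap : ∀ f, algebraMap E L (algebraMap K E f) = algebraMap K L f := fun f =>
    (IsScalarTower.algebraMap_apply K E L f).symm
  let T : E →ₗ[K] L :=
    { toFun := fun y => dL (algebraMap E L y) - algebraMap E L (dE y)
      map_add' := fun a b => by simp only [map_add]; ring
      map_smul' := fun c a => by
        rw [Algebra.smul_def c a, RingHom.id_apply, Algebra.smul_def c (dL _ - _)]
        simp only [map_mul, Derivation.leibniz, smul_eq_mul, hmap, hL, hE, map_add]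
        ring }
  let D : Derivation K E L := Derivation.mk' T fun a b => by
    simp only [T, LinearMap.coe_mk, AddHom.coe_mk, map_mul, Derivation.leibniz, smul_eq_mul,
      map_add]
    rw [Algebra.smul_def a (dL _ - _), Algebra.smul_def b (dL _ - _)]
    ring
  have hD : D = 0 := by
    have h1 : Algebra.FormallyUnramified K E := Algebra.FormallyUnramified.of_isSeparable K E
    have h2 : Subsingleton (KaehlerDifferential K E) :=
      Algebra.FormallyUnramified.subsingleton_kaehlerDifferential
    ext a
    rw [← Derivation.liftKaehlerDifferential_comp_D D a, Subsingleton.elim (KaehlerDifferential.D K E a) 0,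
      map_zero, Derivation.zero_apply]
  have h3 : D y = 0 := by rw [hD]; rfl
  exact sub_eq_zero.1 h3

/-- a differential field from an additive map -/
@[reducible] def mkD (K : Type) [Field K] (t : K →+ K) (h : ∀ a b, t (a * b) = a * t b + b * t a) :
    Differential K :=
  ⟨Derivation.mk' t.toIntLinearMap h⟩

lemma mkD_deriv (K : Type) [Field K] (t : K →+ K) (h : ∀ a b, t (a * b) = a * t b + b * t a)
    (a : K) : (mkD K t h).deriv a = t a := rfl

theorem t_GAL : S_GAL := by
  intro F _ _ _ d hd
  let D0 : Differential (RatFunc ℂ) :=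
    mkD (RatFunc ℂ) (W432.PC.ddx ℂ : RatFunc ℂ →ₗ[ℂ] RatFunc ℂ).toAddMonoidHom
      fun a b => (W432.PC.ddx ℂ).leibniz a b
  have hD0 : ∀ f : RatFunc ℂ, D0.deriv f = W432.PC.ddx ℂ f := fun f => mkD_deriv _ _ _ f
  let L := IntermediateField.normalClosure (RatFunc ℂ) F (AlgebraicClosure F)
  have : CharZero (RatFunc ℂ) := by infer_instance
  have hfin : FiniteDimensional (RatFunc ℂ) L := by infer_instance
  have hnor : Normal (RatFunc ℂ) L := by infer_instance
  have hsep : Algebra.IsSeparable (RatFunc ℂ) L := by infer_instance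
  have hgal : IsGalois (RatFunc ℂ) L := ⟨⟩
  obtain ⟨⟨⟨a, ha⟩⟩, hu⟩ :=
    Differential.uniqueDifferentialAlgebraFiniteDimensional (F := RatFunc ℂ) (K := L)
  have hext : ∀ f : RatFunc ℂ, a.deriv (algebraMap (RatFunc ℂ) L f) =
      algebraMap (RatFunc ℂ) L (D0.deriv f) := fun f => ha.deriv_algebraMap f
  refine ⟨L, inferInstance, inferInstance, a.deriv, IsScalarTower.toAlgHom (RatFunc ℂ) F L, hfin,
    hgal, hext, fun y => ?_, fun σ y => ?_⟩
  · exact ext_unique D0.deriv d a.deriv hd hext y
  · let a' : Differential L := @Differential.equiv L L _ _ a σ.toRingEquiv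
    have ha' : @DifferentialAlgebra (RatFunc ℂ) L _ _ _ D0 a' :=
      @DifferentialAlgebra.equiv (RatFunc ℂ) _ D0 L L _ _ a _ _ ha σ
    have h := hu ⟨a', ha'⟩
    have h2 : a' = a := congrArg Subtype.val h
    have h3 : a'.deriv y = a.deriv y := by rw [h2]
    have h4 : a'.deriv y = σ.symm (a.deriv (σ y)) := rfl
    rw [← h3, h4, AlgEquiv.apply_symm_apply]

end Pool.Agent.H327.FinGal
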