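import Pool.Agent.H925.FinStm

/-!
# FIN 4: finitely many systems solved in a finite extension, up to rational gauge
-/

set_option autoImplicit false

open Finset NumberField

namespace Pool.Agent.H39.FinRatEq

open Pool.Agent.H925

abbrev KK : Type := RatFunc ℂ

section

variable {L : Type} [Field L] [Algebra KK L] {r : ℕ}

/-- the map of the constants -/
noncomputable def kap (L : Type) [Field L] [Algebra KK L] : ℂ →+* L :=
  (algebraMap KK L).comp RatFunc.C

/-- the ring homomorphism of an automorphism -/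
noncomputable def sg (σ : L ≃ₐ[KK] L) : L →+* L := σ.toAlgHom.toRingHom

theorem sg_apply (σ : L ≃ₐ[KK] L) (x : L) : sg σ x = σ x := rfl

theorem sg_alg (σ : L ≃ₐ[KK] L) (x : KK) : sg σ (algebraMap KK L x) = algebraMap KK L x := by
  rw [sg_apply, AlgEquiv.commutes]

theorem sg_kap (σ : L ≃ₐ[KK] L) (M : Matrix (Fin r) (Fin r) ℂ) :
    (M.map (kap L)).map (sg σ) = M.map (kap L) := by
  ext i j
  simp only [Matrix.map_apply]
  exact sg_alg σ _

omit [Algebra KK L] in
theorem det_map (f : L →+* L) (Y : Matrix (Fin r) (Fin r) L) : (Y.map f).det = f Y.det := by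
  rw [RingHom.map_det, RingHom.mapMatrix_apply]

theorem det_kap (M : Matrix (Fin r) (Fin r) ℂ) : (M.map (kap L)).det = kap L M.det := by
  rw [RingHom.map_det, RingHom.mapMatrix_apply]

omit [Algebra KK L] in
theorem der_mul (δ : Derivation ℤ L L) (A B : Matrix (Fin r) (Fin r) L) :
    (A * B).map δ = A.map δ * B + A * B.map δ := by
  ext i j
  rw [Matrix.map_apply, Matrix.mul_apply, map_sum, Matrix.add_apply, Matrix.mul_apply,
    Matrix.mul_apply, ← Finset.sum_add_distrib]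
  refine Finset.sum_congr rfl fun l _ => ?_
  rw [Derivation.leibniz, smul_eq_mul, smul_eq_mul, Matrix.map_apply, Matrix.map_apply]
  ring

omit [Algebra KK L] in
/-- cancellation of an invertible matrix on the right -/
theorem cancel_right {A B Y : Matrix (Fin r) (Fin r) L} (hY : Y.det ≠ 0) (h : A * Y = B * Y) :
    A = B := by
  have hu : IsUnit Y.det := isUnit_iff_ne_zero.2 hY
  have h1 := congrArg (fun M => M * Y⁻¹) h
  simp only [Matrix.mul_assoc, Matrix.mul_nonsing_inv Y hu, Matrix.mul_one] at h1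
  exact h1

omit [Algebra KK L] in
theorem cancel_left {A B Y : Matrix (Fin r) (Fin r) L} (hY : Y.det ≠ 0) (h : Y * A = Y * B) :
    A = B := by
  have hu : IsUnit Y.det := isUnit_iff_ne_zero.2 hY
  have h1 := congrArg (fun M => Y⁻¹ * M) h
  simp only [← Matrix.mul_assoc, Matrix.nonsing_inv_mul Y hu, Matrix.one_mul] at h1
  exact h1

/-- fundamental matrices -/
def Fund (δ : Derivation ℤ L L) (G : Matrix (Fin r) (Fin r) KK) (Y : Matrix (Fin r) (Fin r) L) :
    Prop := Y.det ≠ 0 ∧ Y.map δ = G.map (algebraMap KK L) * Y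

theorem der_kap {δ : Derivation ℤ L L} (hδ : ExtDdx L δ) (M : Matrix (Fin r) (Fin r) ℂ) :
    (M.map (kap L)).map δ = 0 := by
  ext i j
  simp only [Matrix.map_apply, Matrix.zero_apply]
  change δ (algebraMap KK L (RatFunc.C (M i j))) = 0
  rw [hδ]
  have : W432.PC.ddx ℂ (RatFunc.C (M i j)) = 0 := by
    rw [← RatFunc.algebraMap_eq_C]
    exact Derivation.map_algebraMap _ _
  rw [this, map_zero]

/-- two solutions of the same system differ by a constant matrix -/
theorem const_quot {δ : Derivation ℤ L L}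
    (hc : ∀ y : L, δ y = 0 → ∃ c : ℂ, y = algebraMap KK L (RatFunc.C c))
    {G : Matrix (Fin r) (Fin r) KK} {Y Z : Matrix (Fin r) (Fin r) L} (hY : Fund δ G Y)
    (hZ : Z.map δ = G.map (algebraMap KK L) * Z) :
    ∃ N : Matrix (Fin r) (Fin r) ℂ, Z = Y * N.map (kap L) := by
  obtain ⟨hY0, hY1⟩ := hY
  have hu : IsUnit Y.det := isUnit_iff_ne_zero.2 hY0
  obtain ⟨M, hM⟩ : ∃ M : Matrix (Fin r) (Fin r) L, M = Y⁻¹ * Z := ⟨_, rfl⟩
  have hZM : Y * M = Z := by
    rw [hM, ← Matrix.mul_assoc, Matrix.mul_nonsing_inv Y hu, Matrix.one_mul]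
  have h1 : M.map δ = 0 := by
    have h2 := der_mul δ Y M
    rw [hZM, hZ, hY1, Matrix.mul_assoc, hZM] at h2
    have h3 : Y * M.map δ = Y * 0 := by
      rw [Matrix.mul_zero]
      exact left_eq_add.1 h2
    exact cancel_left hY0 h3
  have h4 : ∀ i j, ∃ c : ℂ, M i j = algebraMap KK L (RatFunc.C c) := by
    intro i j
    apply hc
    have := congrFun (congrFun h1 i) j
    rwa [Matrix.map_apply, Matrix.zero_apply] at this
  choose N hN using h4
  refine ⟨N, ?_⟩
  rw [← hZM]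
  congr 1
  ext i j
  rw [hN i j]
  rfl

/-- the system is solved by a fundamental matrix on which the Galois group acts by `ρ` -/
def Rel (δ : Derivation ℤ L L) (G : Matrix (Fin r) (Fin r) KK)
    (ρ : (L ≃ₐ[KK] L) →* GL (Fin r) ℂ) : Prop :=
  ∃ Y : Matrix (Fin r) (Fin r) L, Fund δ G Y ∧
    ∀ σ : L ≃ₐ[KK] L, Y.map (sg σ) = Y * (ρ σ : Matrix (Fin r) (Fin r) ℂ).map (kap L)

theorem kap_inj : Function.Injective (fun M : Matrix (Fin r) (Fin r) ℂ => M.map (kap L)) := by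
  intro M N h
  ext i j
  have h1 := congrFun (congrFun h i) j
  exact (kap L).injective h1

/-- every solved system has a representation -/
theorem exists_rel {δ : Derivation ℤ L L}
    (hc : ∀ y : L, δ y = 0 → ∃ c : ℂ, y = algebraMap KK L (RatFunc.C c))
    (hs : ∀ (σ : L ≃ₐ[KK] L) (y : L), δ (σ y) = σ (δ y))
    {G : Matrix (Fin r) (Fin r) KK} {Y : Matrix (Fin r) (Fin r) L} (hY : Fund δ G Y) :
    ∃ ρ : (L ≃ₐ[KK] L) →* GL (Fin r) ℂ, Rel δ G ρ := by
  have hZ : ∀ σ : L ≃ₐ[KK] L, (Y.map (sg σ)).map δ = G.map (algebraMap KK L) * Y.map (sg σ) := by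
    intro σ
    have h1 : (Y.map (sg σ)).map δ = (Y.map δ).map (sg σ) := by
      ext i j
      simp only [Matrix.map_apply, sg_apply]
      exact hs σ _
    have h2 : (G.map (algebraMap KK L)).map (sg σ) = G.map (algebraMap KK L) := by
      ext i j
      simp only [Matrix.map_apply]
      exact sg_alg σ _
    rw [h1, hY.2, Matrix.map_mul, h2]
  choose N hN using fun σ => const_quot hc hY (hZ σ)
  have hN1 : N 1 = 1 := by
    apply kap_inj (L := L)
    refine cancel_left hY.1 ?_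
    have h1 : Y.map (sg (1 : L ≃ₐ[KK] L)) = Y := by
      ext i j
      rw [Matrix.map_apply, sg_apply]
      rfl
    have h2 : (1 : Matrix (Fin r) (Fin r) ℂ).map (kap L) = 1 :=
      Matrix.map_one _ (map_zero _) (map_one _)
    show Y * (N 1).map (kap L) = Y * (1 : Matrix (Fin r) (Fin r) ℂ).map (kap L)
    rw [← hN 1, h1, h2, Matrix.mul_one]
  have hNm : ∀ σ τ, N (σ * τ) = N σ * N τ := by
    intro σ τ
    apply kap_inj (L := L)
    refine cancel_left hY.1 ?_
    show Y * (N (σ * τ)).map (kap L) = Y * (N σ * N τ).map (kap L)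
    have h1 : Y.map (sg (σ * τ)) = (Y.map (sg τ)).map (sg σ) := by
      ext i j
      rw [Matrix.map_apply, Matrix.map_apply, Matrix.map_apply, sg_apply, sg_apply, sg_apply]
      rfl
    rw [← hN (σ * τ), h1, hN τ, Matrix.map_mul, sg_kap, hN σ, Matrix.map_mul, Matrix.mul_assoc]
  let f : (L ≃ₐ[KK] L) →* Matrix (Fin r) (Fin r) ℂ :=
    { toFun := N, map_one' := hN1, map_mul' := hNm }
  refine ⟨f.toHomUnits, Y, hY, fun σ => ?_⟩
  rw [MonoidHom.coe_toHomUnits]
  exact hN σ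

/-- conjugation -/
theorem rel_conj {δ : Derivation ℤ L L} (hδ : ExtDdx L δ) {G : Matrix (Fin r) (Fin r) KK}
    {ρ τ : (L ≃ₐ[KK] L) →* GL (Fin r) ℂ} (h : Rel δ G ρ) (P : GL (Fin r) ℂ)
    (hP : ∀ g, τ g = P⁻¹ * ρ g * P) : Rel δ G τ := by
  obtain ⟨Y, ⟨hY0, hY1⟩, hY2⟩ := h
  refine ⟨Y * (P : Matrix (Fin r) (Fin r) ℂ).map (kap L), ⟨?_, ?_⟩, fun σ => ?_⟩
  · rw [Matrix.det_mul, det_kap]
    refine mul_ne_zero hY0 ?_
    rw [ne_eq, map_eq_zero]
    exact (Matrix.isUnits_det_units P).ne_zero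
  · rw [der_mul, der_kap hδ, Matrix.mul_zero, add_zero, hY1, Matrix.mul_assoc]
  · have h1 : (P : Matrix (Fin r) (Fin r) ℂ) * (τ σ : Matrix (Fin r) (Fin r) ℂ) =
        (ρ σ : Matrix (Fin r) (Fin r) ℂ) * (P : Matrix (Fin r) (Fin r) ℂ) := by
      have h2 : P * τ σ = ρ σ * P := by
        rw [hP σ, ← mul_assoc, ← mul_assoc, mul_inv_cancel, one_mul]
      have h3 := congrArg (fun g : GL (Fin r) ℂ => (g : Matrix (Fin r) (Fin r) ℂ)) h2
      simpa using h3
    rw [Matrix.map_mul, sg_kap, hY2 σ, Matrix.mul_assoc, Matrix.mul_assoc, ← Matrix.map_mul,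
      ← Matrix.map_mul, h1]

/-- the gauge transformation -/
theorem rel_gauge [FiniteDimensional KK L] [IsGalois KK L] {δ : Derivation ℤ L L}
    (hδ : ExtDdx L δ)
    {G₁ G₂ : Matrix (Fin r) (Fin r) KK} {τ : (L ≃ₐ[KK] L) →* GL (Fin r) ℂ} (h1 : Rel δ G₁ τ)
    (h2 : Rel δ G₂ τ) : ∃ H : Matrix (Fin r) (Fin r) KK, H.det ≠ 0 ∧
      ∀ i j, W432.PC.ddx ℂ (H i j) = (G₁ * H - H * G₂) i j := by
  obtain ⟨Y, ⟨hY0, hY1⟩, hY2⟩ := h1
  obtain ⟨Z, ⟨hZ0, hZ1⟩, hZ2⟩ := h2
  have hu : IsUnit Z.det := isUnit_iff_ne_zero.2 hZ0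
  obtain ⟨M, hM⟩ : ∃ M : Matrix (Fin r) (Fin r) L, M = Y * Z⁻¹ := ⟨_, rfl⟩
  have hMZ : M * Z = Y := by
    rw [hM, Matrix.mul_assoc, Matrix.nonsing_inv_mul Z hu, Matrix.mul_one]
  have hfix : ∀ σ : L ≃ₐ[KK] L, M.map (sg σ) = M := by
    intro σ
    have h3 := congrArg (fun A : Matrix (Fin r) (Fin r) L => A.map (sg σ)) hMZ
    simp only [Matrix.map_mul] at h3
    rw [hZ2 σ, hY2 σ, ← hMZ, Matrix.mul_assoc] at h3
    refine cancel_right (Y := Z * (τ σ : Matrix (Fin r) (Fin r) ℂ).map (kap L)) ?_ h3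
    rw [Matrix.det_mul, det_kap]
    refine mul_ne_zero hZ0 ?_
    rw [ne_eq, map_eq_zero]
    exact (Matrix.isUnits_det_units (τ σ)).ne_zero
  have hr : ∀ i j, ∃ x : KK, algebraMap KK L x = M i j := by
    intro i j
    have h3 : ∀ σ : L ≃ₐ[KK] L, σ (M i j) = M i j := by
      intro σ
      have := congrFun (congrFun (hfix σ) i) j
      rwa [Matrix.map_apply, sg_apply] at this
    exact (IsGalois.mem_range_algebraMap_iff_fixed (M i j)).2 h3
  choose H hH using hr
  have hHM : (Matrix.of H).map (algebraMap KK L) = M := by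
    ext i j
    exact hH i j
  refine ⟨Matrix.of H, ?_, ?_⟩
  · intro h3
    have h4 : M.det = 0 := by
      rw [← hHM]
      have : ((Matrix.of H).map (algebraMap KK L)).det = algebraMap KK L (Matrix.of H).det := by
        rw [RingHom.map_det, RingHom.mapMatrix_apply]
      rw [this, h3, map_zero]
    apply hY0
    rw [← hMZ, Matrix.det_mul, h4, zero_mul]
  · have h3 : M.map δ = G₁.map (algebraMap KK L) * M - M * G₂.map (algebraMap KK L) := by
      apply cancel_right hZ0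
      have h4 := der_mul δ M Z
      rw [hMZ, hY1, hZ1, ← hMZ] at h4
      rw [Matrix.sub_mul, Matrix.mul_assoc, h4, Matrix.mul_assoc]
      abel
    intro i j
    apply (algebraMap KK L).injective
    have h4 := congrFun (congrFun h3 i) j
    have h5 : (G₁.map (algebraMap KK L) * M - M * G₂.map (algebraMap KK L)) =
        (G₁ * Matrix.of H - Matrix.of H * G₂).map (algebraMap KK L) := by
      rw [Matrix.map_sub _ (map_sub _), Matrix.map_mul, Matrix.map_mul, hHM]
    rw [h5, Matrix.map_apply, Matrix.map_apply, ← hH i j, hδ] at h4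
    exact h4

end

theorem t_RATEQ (h1 : S_GAL) (h2 : S_CONST) (h3 : S_REP) : S_RATEQ := by
  classical
  intro F _ _ _ d hd r
  obtain ⟨L, iL, iA, δ, ι, hfd, hgal, hδ, hι, hs⟩ := h1 F d hd
  have hc := h2 L δ hδ
  have : Finite (L ≃ₐ[KK] L) := inferInstance
  obtain ⟨T, hT, hT2⟩ := h3 (L ≃ₐ[KK] L) r
  have hrel : ∀ G : Matrix (Fin r) (Fin r) KK, SolvedF G F d →
      ∃ ρ : (L ≃ₐ[KK] L) →* GL (Fin r) ℂ, Rel δ G ρ := by
    rintro G ⟨Y, hY0, hY1⟩
    refine exists_rel hc hs (G := G) (Y := Y.map ι) ⟨?_, ?_⟩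
    · have : (Y.map ι).det = ι Y.det := by
        have := RingHom.map_det (ι : F →+* L) Y
        rw [RingHom.mapMatrix_apply] at this
        exact this.symm
      rw [this, ne_eq, map_eq_zero]
      exact hY0
    · ext i j
      rw [Matrix.map_apply, Matrix.map_apply, hι, hY1, map_sum, Matrix.mul_apply]
      refine Finset.sum_congr rfl fun l _ => ?_
      rw [map_mul, AlgHom.commutes, Matrix.map_apply, Matrix.map_apply]
  let g : ((L ≃ₐ[KK] L) →* GL (Fin r) ℂ) → Matrix (Fin r) (Fin r) KK := fun τ =>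
    if h : ∃ G : Matrix (Fin r) (Fin r) KK, SolvedF G F d ∧ Rel δ G τ then h.choose else 0
  have hg : ∀ τ, (∃ G : Matrix (Fin r) (Fin r) KK, SolvedF G F d ∧ Rel δ G τ) →
      SolvedF (g τ) F d ∧ Rel δ (g τ) τ := by
    intro τ h
    have h4 : g τ = h.choose := dif_pos h
    rw [h4]
    exact h.choose_spec
  refine ⟨g '' {τ ∈ T | ∃ G : Matrix (Fin r) (Fin r) KK, SolvedF G F d ∧ Rel δ G τ}, ?_, ?_, ?_⟩
  · exact (hT.subset (Set.sep_subset _ _)).image _
  · rintro G ⟨τ, ⟨-, hτ⟩, rfl⟩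
    exact (hg τ hτ).1
  · intro G hG
    obtain ⟨ρ, hρ⟩ := hrel G hG
    obtain ⟨τ, hτ, P, hP⟩ := hT2 ρ
    have hGτ := rel_conj hδ hρ P hP
    have hex : ∃ G : Matrix (Fin r) (Fin r) KK, SolvedF G F d ∧ Rel δ G τ := ⟨G, hG, hGτ⟩
    refine ⟨g τ, ⟨τ, ⟨hτ, hex⟩, rfl⟩, ?_⟩
    exact rel_gauge hδ (hg τ hex).2 hGτ

end Pool.Agent.H39.FinRatEq
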