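import Pool.Agent.H925.FinStm

/-!
# Finitely many representations of dimension `r` of a finite group up to conjugation

Every representation is conjugate to a unitary one; the unitary ones form a bounded set; two
representations `ρ`, `τ` which are close to each other are conjugate by the average of
`ρ g * τ g⁻¹`, which is close to the identity.
-/

set_option autoImplicit false

open Finset

namespace Pool.Agent.H710.FinRep

section unit

open scoped MatrixOrder ComplexOrder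

theorem exists_factor {r : ℕ} {M : Matrix (Fin r) (Fin r) ℂ} (hM : M.PosDef) :
    ∃ B : Matrix (Fin r) (Fin r) ℂ, IsUnit B ∧ M = star B * B :=
  CStarAlgebra.isStrictlyPositive_iff_eq_star_mul_self.mp hM.isStrictlyPositive

theorem posDef_sum {r : ℕ} {Γ : Type} [Group Γ] [Fintype Γ] (ρ : Γ →* GL (Fin r) ℂ) :
    (∑ g, star (ρ g : Matrix (Fin r) (Fin r) ℂ) * (ρ g : Matrix (Fin r) (Fin r) ℂ)).PosDef := by
  classical
  rw [← Finset.add_sum_erase _ _ (Finset.mem_univ (1 : Γ))]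
  refine Matrix.PosDef.add_posSemidef ?_ ?_
  · rw [map_one]
    simp only [Units.val_one, star_one, mul_one]
    exact Matrix.PosDef.one
  · refine Matrix.posSemidef_sum _ fun g _ => ?_
    exact Matrix.posSemidef_conjTranspose_mul_self _

end unit

/-- unitary conjugate -/
theorem exists_unitary {r : ℕ} {Γ : Type} [Group Γ] [Fintype Γ] (ρ : Γ →* GL (Fin r) ℂ) :
    ∃ B : GL (Fin r) ℂ, ∀ g, ((B * ρ g * B⁻¹ : GL (Fin r) ℂ) : Matrix (Fin r) (Fin r) ℂ) ∈
      Matrix.unitaryGroup (Fin r) ℂ := by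
  obtain ⟨B, hB, hM⟩ := exists_factor (posDef_sum ρ)
  obtain ⟨B, rfl⟩ := hB
  set M := ∑ g, star (ρ g : Matrix (Fin r) (Fin r) ℂ) * (ρ g : Matrix (Fin r) (Fin r) ℂ) with hMdef
  refine ⟨B, fun h => ?_⟩
  have h1 : star (ρ h : Matrix (Fin r) (Fin r) ℂ) * M * (ρ h : Matrix (Fin r) (Fin r) ℂ) = M := by
    rw [hMdef, Finset.mul_sum, Finset.sum_mul]
    rw [← Equiv.sum_comp (Equiv.mulRight h) (fun g => star (ρ g : Matrix (Fin r) (Fin r) ℂ) *
      (ρ g : Matrix (Fin r) (Fin r) ℂ))]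
    refine Finset.sum_congr rfl fun g _ => ?_
    simp only [Equiv.coe_mulRight, map_mul, Units.val_mul, star_mul, mul_assoc]
  rw [Matrix.mem_unitaryGroup_iff']
  have h2 : (B⁻¹ : GL (Fin r) ℂ).val * B.val = 1 := by
    rw [← Units.val_mul, inv_mul_cancel, Units.val_one]
  have h3 : B.val * (B⁻¹ : GL (Fin r) ℂ).val = 1 := by
    rw [← Units.val_mul, mul_inv_cancel, Units.val_one]
  have h4 : star (B⁻¹ : GL (Fin r) ℂ).val * star B.val = 1 := by
    rw [← star_mul, h3, star_one]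
  simp only [Units.val_mul, star_mul]
  calc star (B⁻¹ : GL (Fin r) ℂ).val * (star (ρ h).val * star B.val) *
        (B.val * (ρ h).val * (B⁻¹ : GL (Fin r) ℂ).val)
      = star (B⁻¹ : GL (Fin r) ℂ).val * (star (ρ h).val * (star B.val * B.val) * (ρ h).val) *
        (B⁻¹ : GL (Fin r) ℂ).val := by simp only [mul_assoc]
    _ = star (B⁻¹ : GL (Fin r) ℂ).val * (star B.val * B.val) * (B⁻¹ : GL (Fin r) ℂ).val := by
        rw [← hM, h1]
    _ = (star (B⁻¹ : GL (Fin r) ℂ).val * star B.val) * (B.val * (B⁻¹ : GL (Fin r) ℂ).val) := by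
        simp only [mul_assoc]
    _ = 1 := by rw [h4, h3, mul_one]

section norm

attribute [local instance] Matrix.linftyOpNormedAddCommGroup Matrix.linftyOpNormedSpace
  Matrix.linftyOpNormedRing Matrix.linftyOpNormedAlgebra

theorem norm_unitary_le {r : ℕ} {U : Matrix (Fin r) (Fin r) ℂ}
    (hU : U ∈ Matrix.unitaryGroup (Fin r) ℂ) : ‖U‖ ≤ r := by
  have h1 : ‖U‖₊ ≤ (r : NNReal) := by
    rw [Matrix.linfty_opNNNorm_def]
    refine Finset.sup_le fun i _ => ?_
    calc ∑ j, ‖U i j‖₊ ≤ ∑ _j : Fin r, (1 : NNReal) :=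
          Finset.sum_le_sum fun j _ => entry_norm_bound_of_unitary hU i j
      _ = r := by simp
  exact_mod_cast h1

/-- close representations are conjugate -/
theorem conj_of_close {r : ℕ} {Γ : Type} [Group Γ] [Fintype Γ] (ρ τ : Γ →* GL (Fin r) ℂ)
    (hτ : ∀ g, ‖(τ g : Matrix (Fin r) (Fin r) ℂ)‖ ≤ r)
    (h : ∀ g, ‖(ρ g : Matrix (Fin r) (Fin r) ℂ) - (τ g : Matrix (Fin r) (Fin r) ℂ)‖ <
      1 / ((r : ℝ) + 1)) :
    ∃ P : GL (Fin r) ℂ, ∀ g, τ g = P⁻¹ * ρ g * P := by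
  set c : ℂ := ((Fintype.card Γ : ℂ))⁻¹ with hc
  have hc0 : (Fintype.card Γ : ℂ) ≠ 0 := by exact_mod_cast Fintype.card_ne_zero
  set S : Matrix (Fin r) (Fin r) ℂ := c • ∑ g, (ρ g).val * (τ g⁻¹).val with hS
  have hr : (0 : ℝ) < (r : ℝ) + 1 := by positivity
  have h1 : ∀ g, ‖1 - (ρ g).val * (τ g⁻¹).val‖ < 1 := by
    intro g
    have e1 : (τ g).val * (τ g⁻¹).val = 1 := by
      rw [← Units.val_mul, ← map_mul, mul_inv_cancel, map_one, Units.val_one]
    have e2 : 1 - (ρ g).val * (τ g⁻¹).val = -(((ρ g).val - (τ g).val) * (τ g⁻¹).val) := by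
      rw [sub_mul, e1]
      abel
    rw [e2, norm_neg]
    calc ‖((ρ g).val - (τ g).val) * (τ g⁻¹).val‖ ≤ ‖(ρ g).val - (τ g).val‖ * ‖(τ g⁻¹).val‖ :=
          norm_mul_le _ _
      _ ≤ 1 / ((r : ℝ) + 1) * r :=
          mul_le_mul (h g).le (hτ _) (norm_nonneg _) (by positivity)
      _ < 1 := by
          rw [one_div, ← div_eq_inv_mul, div_lt_one hr]
          linarith
  have h2 : ‖1 - S‖ < 1 := by
    have e1 : 1 - S = c • ∑ g, (1 - (ρ g).val * (τ g⁻¹).val) := by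
      rw [Finset.sum_sub_distrib, smul_sub, ← hS]
      congr 1
      rw [Finset.sum_const, Finset.card_univ, ← Nat.cast_smul_eq_nsmul ℂ, smul_smul, hc,
        inv_mul_cancel₀ hc0, one_smul]
    rw [e1, norm_smul, hc, norm_inv, Complex.norm_natCast]
    have hcard : (0 : ℝ) < Fintype.card Γ := by exact_mod_cast Fintype.card_pos
    have e2 : ‖∑ g, (1 - (ρ g).val * (τ g⁻¹).val)‖ < Fintype.card Γ := by
      calc ‖∑ g, (1 - (ρ g).val * (τ g⁻¹).val)‖ ≤ ∑ g, ‖1 - (ρ g).val * (τ g⁻¹).val‖ :=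
            norm_sum_le _ _
        _ < ∑ _g : Γ, (1 : ℝ) :=
            Finset.sum_lt_sum_of_nonempty Finset.univ_nonempty fun g _ => h1 g
        _ = Fintype.card Γ := by simp
    rw [inv_mul_lt_iff₀ hcard, mul_one]
    exact e2
  have hcomplete : CompleteSpace (Matrix (Fin r) (Fin r) ℂ) := FiniteDimensional.complete ℂ _
  set P : GL (Fin r) ℂ := Units.oneSub (1 - S) h2 with hP
  have hPv : P.val = S := by
    rw [hP, Units.val_oneSub]
    abel
  refine ⟨P, fun a => ?_⟩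
  have h3 : ρ a * P = P * τ a := by
    apply Units.ext
    rw [Units.val_mul, Units.val_mul, hPv, hS, Matrix.mul_smul, Matrix.smul_mul, Finset.mul_sum,
      Finset.sum_mul]
    congr 1
    rw [← Equiv.sum_comp (Equiv.mulLeft a) (fun g => (ρ g).val * (τ g⁻¹).val * (τ a).val)]
    refine Finset.sum_congr rfl fun g _ => ?_
    simp only [Equiv.coe_mulLeft, map_mul, Units.val_mul, mul_inv_rev]
    have e3 : (τ a⁻¹).val * (τ a).val = 1 := by
      rw [← Units.val_mul, ← map_mul, inv_mul_cancel, map_one, Units.val_one]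
    simp only [mul_assoc]
    rw [e3, mul_one]
  rw [mul_assoc, h3, ← mul_assoc, inv_mul_cancel, one_mul]

theorem main {r : ℕ} {Γ : Type} [Group Γ] [Fintype Γ] :
    ∃ T : Set (Γ →* GL (Fin r) ℂ), T.Finite ∧ ∀ ρ : Γ →* GL (Fin r) ℂ,
      ∃ τ ∈ T, ∃ P : GL (Fin r) ℂ, ∀ g, τ g = P⁻¹ * ρ g * P := by
  let emb : (Γ →* GL (Fin r) ℂ) → (Γ → Matrix (Fin r) (Fin r) ℂ) := fun ρ g => (ρ g).val
  have hemb : Function.Injective emb := by
    intro ρ τ h
    ext1 g
    exact Units.ext (congrFun h g)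
  let S : Set (Γ → Matrix (Fin r) (Fin r) ℂ) :=
    emb '' {ρ | ∀ g, ‖(ρ g : Matrix (Fin r) (Fin r) ℂ)‖ ≤ r}
  have hprop : ProperSpace (Γ → Matrix (Fin r) (Fin r) ℂ) := FiniteDimensional.proper ℂ _
  have hS : TotallyBounded S := by
    refine TotallyBounded.subset ?_
      (isCompact_closedBall (0 : Γ → Matrix (Fin r) (Fin r) ℂ) (r : ℝ)).totallyBounded
    rintro _ ⟨ρ, hρ, rfl⟩
    rw [mem_closedBall_zero_iff, pi_norm_le_iff_of_nonneg (Nat.cast_nonneg r)]
    exact hρ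
  have hr : (0 : ℝ) < 1 / ((r : ℝ) + 1) := by positivity
  obtain ⟨t, htS, htf, hcov⟩ := Metric.finite_approx_of_totallyBounded hS _ hr
  refine ⟨emb ⁻¹' t, htf.preimage hemb.injOn, fun ρ => ?_⟩
  obtain ⟨B, hB⟩ := exists_unitary ρ
  let ρ' : Γ →* GL (Fin r) ℂ := (MulAut.conj B).toMonoidHom.comp ρ
  have hρ' : ∀ g, ρ' g = B * ρ g * B⁻¹ := fun g => rfl
  have hρS : emb ρ' ∈ S := ⟨ρ', fun g => by
    rw [hρ']
    exact norm_unitary_le (hB g), rfl⟩
  obtain ⟨y, hy, hdist⟩ := Set.mem_iUnion₂.1 (hcov hρS)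
  obtain ⟨τ, hτ, rfl⟩ := htS hy
  refine ⟨τ, hy, ?_⟩
  rw [Metric.mem_ball, dist_eq_norm] at hdist
  obtain ⟨P, hP⟩ := conj_of_close ρ' τ hτ fun g =>
    lt_of_le_of_lt (norm_le_pi_norm (emb ρ' - emb τ) g) hdist
  refine ⟨B⁻¹ * P, fun g => ?_⟩
  rw [hP, hρ', mul_inv_rev, inv_inv]
  simp only [mul_assoc]

end norm

end Pool.Agent.H710.FinRep

namespace Pool.Agent.H710

theorem t_REP : Pool.Agent.H925.S_REP := by
  intro Γ _ _ r
  have := Fintype.ofFinite Γ
  exact FinRep.main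

end Pool.Agent.H710
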