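import Pool.Agent.H925.FinStm

/-!
# FIN 5: a rational gauge transformation between Fuchsian systems is constant
-/

set_option autoImplicit false

namespace Pool.Agent.H862.FinRigid

open Polynomial Pool.Agent.H925

section
variable {r : ℕ}

theorem am_inj {p q : ℂ[X]}
    (h : algebraMap ℂ[X] (RatFunc ℂ) p = algebraMap ℂ[X] (RatFunc ℂ) q) : p = q :=
  IsFractionRing.injective ℂ[X] (RatFunc ℂ) h

/-- the matrix `(x - 1) B + x C` -/
noncomputable def Am (B C : Matrix (Fin r) (Fin r) ℂ) : Matrix (Fin r) (Fin r) ℂ[X] :=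
  Matrix.of fun i j => (X - 1) * Polynomial.C (B i j) + X * Polynomial.C (C i j)

theorem gbc_mul (B C : Matrix (Fin r) (Fin r) ℂ) (i j : Fin r) :
    algebraMap ℂ[X] (RatFunc ℂ) (X * (X - 1)) * GBC B C i j =
      algebraMap ℂ[X] (RatFunc ℂ) (Am B C i j) := by
  have h0 : (RatFunc.X : RatFunc ℂ) ≠ 0 := RatFunc.X_ne_zero
  have h1 : (RatFunc.X - 1 : RatFunc ℂ) ≠ 0 := by
    have := RatFunc.algebraMap_ne_zero (X_sub_C_ne_zero (1 : ℂ))
    simpa using this
  simp only [GBC, Am, Matrix.add_apply, Matrix.map_apply, Matrix.of_apply, map_mul, map_sub,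
    map_one, map_add, RatFunc.algebraMap_X, RatFunc.algebraMap_C]
  field_simp

variable {B₁ C₁ B₂ C₂ : Matrix (Fin r) (Fin r) ℂ} {H : Matrix (Fin r) (Fin r) (RatFunc ℂ)}

theorem poly_eq
    (hH : ∀ i j, W432.PC.ddx ℂ (H i j) = (GBC B₂ C₂ * H - H * GBC B₁ C₁) i j)
    {q : ℂ[X]} {P : Matrix (Fin r) (Fin r) ℂ[X]}
    (hq : ∀ i j, algebraMap ℂ[X] (RatFunc ℂ) q * H i j = algebraMap ℂ[X] (RatFunc ℂ) (P i j))
    (i j : Fin r) :
    X * (X - 1) * (derivative (P i j) * q - P i j * derivative q) =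
      q * (Am B₂ C₂ * P - P * Am B₁ C₁) i j := by
  apply am_inj
  have e1 : algebraMap ℂ[X] (RatFunc ℂ) (derivative q) * H i j +
      algebraMap ℂ[X] (RatFunc ℂ) q * W432.PC.ddx ℂ (H i j) =
      algebraMap ℂ[X] (RatFunc ℂ) (derivative (P i j)) := by
    rw [← W432.PC.ddx_algebraMap, ← W432.PC.ddx_algebraMap, ← hq, Derivation.leibniz, smul_eq_mul,
      smul_eq_mul]
    ring
  have e2 : algebraMap ℂ[X] (RatFunc ℂ) (X * (X - 1)) * algebraMap ℂ[X] (RatFunc ℂ) q *
      (GBC B₂ C₂ * H) i j = algebraMap ℂ[X] (RatFunc ℂ) ((Am B₂ C₂ * P) i j) := by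
    rw [Matrix.mul_apply, Matrix.mul_apply, map_sum, Finset.mul_sum]
    refine Finset.sum_congr rfl fun l _ => ?_
    rw [map_mul _ (Am B₂ C₂ i l) (P l j), ← gbc_mul, ← hq]
    ring
  have e3 : algebraMap ℂ[X] (RatFunc ℂ) (X * (X - 1)) * algebraMap ℂ[X] (RatFunc ℂ) q *
      (H * GBC B₁ C₁) i j = algebraMap ℂ[X] (RatFunc ℂ) ((P * Am B₁ C₁) i j) := by
    rw [Matrix.mul_apply, Matrix.mul_apply, map_sum, Finset.mul_sum]
    refine Finset.sum_congr rfl fun l _ => ?_
    rw [map_mul _ (P i l) (Am B₁ C₁ l j), ← gbc_mul, ← hq]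
    ring
  have e4 := hH i j
  rw [Matrix.sub_apply] at e4
  rw [Matrix.sub_apply, map_mul _ (X * (X - 1)), map_sub, map_mul _ (derivative (P i j)),
    map_mul _ (P i j), map_mul _ q, map_sub]
  linear_combination (-(algebraMap ℂ[X] (RatFunc ℂ) (X * (X - 1)) * algebraMap ℂ[X] (RatFunc ℂ) q)) * e1 +
    (algebraMap ℂ[X] (RatFunc ℂ) (X * (X - 1)) * algebraMap ℂ[X] (RatFunc ℂ) (derivative q)) * hq i j +
    (algebraMap ℂ[X] (RatFunc ℂ) (X * (X - 1)) * algebraMap ℂ[X] (RatFunc ℂ) q ^ 2) * e4 +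
    algebraMap ℂ[X] (RatFunc ℂ) q * e2 - algebraMap ℂ[X] (RatFunc ℂ) q * e3

theorem D_eval (P : Matrix (Fin r) (Fin r) ℂ[X]) (a : ℂ) (i j : Fin r) :
    ((Am B₂ C₂ * P - P * Am B₁ C₁) i j).eval a =
      (((a - 1) • B₂ + a • C₂) * P.map (eval a) - P.map (eval a) * ((a - 1) • B₁ + a • C₁)) i j := by
  simp only [Matrix.sub_apply, Matrix.mul_apply, eval_sub, eval_finsetSum, eval_mul,
    Matrix.map_apply, Matrix.add_apply, Matrix.smul_apply, Am, Matrix.of_apply, eval_add, eval_X,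
    eval_one, eval_C, smul_eq_mul]

theorem root_step
    (h1 : ∀ (m : ℕ) (X : Matrix (Fin r) (Fin r) ℂ), 1 ≤ m →
      B₂ * X - X * B₁ = -((m : ℂ) • X) → X = 0)
    (h2 : ∀ (m : ℕ) (X : Matrix (Fin r) (Fin r) ℂ), 1 ≤ m →
      C₂ * X - X * C₁ = -((m : ℂ) • X) → X = 0)
    (hH : ∀ i j, W432.PC.ddx ℂ (H i j) = (GBC B₂ C₂ * H - H * GBC B₁ C₁) i j)
    {q : ℂ[X]} {P : Matrix (Fin r) (Fin r) ℂ[X]} (hq0 : q ≠ 0)
    (hq : ∀ i j, algebraMap ℂ[X] (RatFunc ℂ) q * H i j = algebraMap ℂ[X] (RatFunc ℂ) (P i j))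
    {a : ℂ} (ha : q.IsRoot a) (i j : Fin r) : (P i j).IsRoot a := by
  obtain ⟨q₁, hq₁, hnd⟩ := exists_eq_pow_rootMultiplicity_mul_and_not_dvd q hq0 a
  have hm : 0 < q.rootMultiplicity a := (rootMultiplicity_pos hq0).2 ha
  obtain ⟨k, hk⟩ : ∃ k, q.rootMultiplicity a = k + 1 := ⟨_, (Nat.succ_pred_eq_of_pos hm).symm⟩
  rw [hk] at hq₁
  have hq1a : q₁.eval a ≠ 0 := fun h => hnd (dvd_iff_isRoot.2 h)
  have hXa : (X - C a : ℂ[X]) ≠ 0 := X_sub_C_ne_zero a
  have hk1 : ((k : ℂ) + 1) ≠ 0 := by exact_mod_cast Nat.succ_ne_zero k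
  have key : ∀ i j, X * (X - 1) * (derivative (P i j) * ((X - C a) * q₁) -
      P i j * (((k : ℂ[X]) + 1) * q₁ + (X - C a) * derivative q₁)) =
      (X - C a) * (q₁ * (Am B₂ C₂ * P - P * Am B₁ C₁) i j) := by
    intro i j
    have h := poly_eq hH hq i j
    have hd : derivative q = ((k : ℂ[X]) + 1) * (X - C a) ^ k * q₁ +
        (X - C a) ^ (k + 1) * derivative q₁ := by
      rw [hq₁, derivative_mul, derivative_X_sub_C_pow]
      simp
    apply mul_left_cancel₀ (pow_ne_zero k hXa)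
    rw [hd, hq₁] at h
    linear_combination h
  have hM : P.map (eval a) = 0 := by
    by_cases h0 : a = 0
    · subst h0
      refine h1 (k + 1) _ (by omega) ?_
      ext i j
      have h := key i j
      have h3 : (X - 1) * (derivative (P i j) * ((X - C 0) * q₁) -
          P i j * (((k : ℂ[X]) + 1) * q₁ + (X - C 0) * derivative q₁)) =
          q₁ * (Am B₂ C₂ * P - P * Am B₁ C₁) i j := by
        apply mul_left_cancel₀ hXa
        rw [C_0, sub_zero] at h ⊢
        linear_combination h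
      have h4 := congrArg (eval (0 : ℂ)) h3
      rw [eval_mul (p := q₁), D_eval] at h4
      simp only [eval_mul, eval_sub, eval_add, eval_X, eval_C, eval_one, eval_natCast, sub_self,
        zero_mul, mul_zero, add_zero, zero_sub, zero_smul, neg_smul, one_smul, Matrix.sub_apply,
        Matrix.neg_mul, Matrix.mul_neg, Matrix.neg_apply] at h4
      have h5 : ((k : ℂ) + 1) * (P i j).eval 0 =
          -(B₂ * P.map (eval 0)) i j + (P.map (eval 0) * B₁) i j := by
        apply mul_left_cancel₀ hq1a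
        linear_combination h4
      simp only [Matrix.sub_apply, Matrix.neg_apply, Matrix.smul_apply, smul_eq_mul,
        Matrix.map_apply, Nat.cast_add, Nat.cast_one]
      linear_combination h5
    · by_cases h1' : a = 1
      · subst h1'
        refine h2 (k + 1) _ (by omega) ?_
        ext i j
        have h := key i j
        have h3 : X * (derivative (P i j) * ((X - C 1) * q₁) -
            P i j * (((k : ℂ[X]) + 1) * q₁ + (X - C 1) * derivative q₁)) =
            q₁ * (Am B₂ C₂ * P - P * Am B₁ C₁) i j := by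
          apply mul_left_cancel₀ hXa
          rw [C_1] at h ⊢
          linear_combination h
        have h4 := congrArg (eval (1 : ℂ)) h3
        rw [eval_mul (p := q₁), D_eval] at h4
        simp only [eval_mul, eval_sub, eval_add, eval_X, eval_C, eval_one, eval_natCast, sub_self,
          zero_mul, mul_zero, add_zero, zero_sub, zero_smul, zero_add, one_smul, one_mul,
          Matrix.sub_apply] at h4
        have h5 : -(((k : ℂ) + 1) * (P i j).eval 1) =
            (C₂ * P.map (eval 1)) i j - (P.map (eval 1) * C₁) i j := by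
          apply mul_left_cancel₀ hq1a
          linear_combination h4
        simp only [Matrix.sub_apply, Matrix.neg_apply, Matrix.smul_apply, smul_eq_mul,
          Matrix.map_apply, Nat.cast_add, Nat.cast_one]
        linear_combination -h5
      · ext i j
        have h4 := congrArg (eval a) (key i j)
        simp only [eval_mul, eval_sub, eval_add, eval_X, eval_C, eval_one, eval_natCast, sub_self,
          zero_mul, mul_zero, add_zero, zero_sub] at h4
        have h5 : a * (a - 1) * ((k : ℂ) + 1) * q₁.eval a ≠ 0 :=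
          mul_ne_zero (mul_ne_zero (mul_ne_zero h0 (sub_ne_zero.2 h1')) hk1) hq1a
        have h6 : a * (a - 1) * ((k : ℂ) + 1) * q₁.eval a * (P i j).eval a = 0 := by
          linear_combination -h4
        rcases mul_eq_zero.1 h6 with h | h
        · exact absurd h h5
        · simpa using h
  have := congrFun (congrFun hM i) j
  simpa using this

theorem exists_poly
    (h1 : ∀ (m : ℕ) (X : Matrix (Fin r) (Fin r) ℂ), 1 ≤ m →
      B₂ * X - X * B₁ = -((m : ℂ) • X) → X = 0)
    (h2 : ∀ (m : ℕ) (X : Matrix (Fin r) (Fin r) ℂ), 1 ≤ m →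
      C₂ * X - X * C₁ = -((m : ℂ) • X) → X = 0)
    (hH : ∀ i j, W432.PC.ddx ℂ (H i j) = (GBC B₂ C₂ * H - H * GBC B₁ C₁) i j) :
    ∀ (n : ℕ) (q : ℂ[X]) (P : Matrix (Fin r) (Fin r) ℂ[X]), q ≠ 0 → q.natDegree = n →
      (∀ i j, algebraMap ℂ[X] (RatFunc ℂ) q * H i j = algebraMap ℂ[X] (RatFunc ℂ) (P i j)) →
      ∃ P' : Matrix (Fin r) (Fin r) ℂ[X], ∀ i j, H i j = algebraMap ℂ[X] (RatFunc ℂ) (P' i j) := by
  intro n
  induction n with
  | zero =>
    intro q P hq0 hd hq
    obtain ⟨c, rfl⟩ := natDegree_eq_zero.1 hd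
    have hc : c ≠ 0 := by
      rintro rfl
      simp at hq0
    refine ⟨Matrix.of fun i j => C c⁻¹ * P i j, fun i j => ?_⟩
    rw [Matrix.of_apply, map_mul, ← hq, ← mul_assoc, ← map_mul, ← C_mul, inv_mul_cancel₀ hc, C_1,
      map_one, one_mul]
  | succ n ih =>
    intro q P hq0 hd hq
    obtain ⟨a, ha⟩ := IsAlgClosed.exists_root q (by
      intro h
      rw [degree_eq_natDegree hq0, hd] at h
      exact absurd h (by exact_mod_cast Nat.succ_ne_zero n))
    have hP := root_step h1 h2 hH hq0 hq ha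
    obtain ⟨q₂, hq₂⟩ := dvd_iff_isRoot.2 ha
    have hP2 : ∀ i j, ∃ p, P i j = (X - C a) * p := fun i j => dvd_iff_isRoot.2 (hP i j)
    choose P₂ hP₂ using hP2
    have hXa : (X - C a : ℂ[X]) ≠ 0 := X_sub_C_ne_zero a
    have hq20 : q₂ ≠ 0 := by
      rintro rfl
      exact hq0 (by rw [hq₂, mul_zero])
    refine ih q₂ P₂ hq20 ?_ ?_
    · rw [hq₂, natDegree_mul hXa hq20, natDegree_X_sub_C] at hd
      omega
    · intro i j
      have h := hq i j
      rw [hq₂, hP₂, map_mul, map_mul, mul_assoc] at h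
      exact mul_left_cancel₀ (RatFunc.algebraMap_ne_zero hXa) h

theorem A_mul (B C : Matrix (Fin r) (Fin r) ℂ) (P : Matrix (Fin r) (Fin r) ℂ[X]) (i j : Fin r)
    (n : ℕ) (hn : ∀ i j, (P i j).coeff (n + 1) = 0) :
    ((Am B C * P) i j).coeff (n + 1) = ((B + C) * P.map fun p => p.coeff n) i j := by
  rw [Matrix.mul_apply, Matrix.mul_apply, finsetSum_coeff]
  refine Finset.sum_congr rfl fun l _ => ?_
  have e : Am B C i l * P l j =
      X * (Polynomial.C ((B + C) i l) * P l j) - Polynomial.C (B i l) * P l j := by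
    simp only [Am, Matrix.of_apply, Matrix.add_apply, C_add]
    ring
  rw [e, coeff_sub, coeff_X_mul, coeff_C_mul, coeff_C_mul, hn, mul_zero, sub_zero,
    Matrix.map_apply]

theorem mul_A (B C : Matrix (Fin r) (Fin r) ℂ) (P : Matrix (Fin r) (Fin r) ℂ[X]) (i j : Fin r)
    (n : ℕ) (hn : ∀ i j, (P i j).coeff (n + 1) = 0) :
    ((P * Am B C) i j).coeff (n + 1) = ((P.map fun p => p.coeff n) * (B + C)) i j := by
  rw [Matrix.mul_apply, Matrix.mul_apply, finsetSum_coeff]
  refine Finset.sum_congr rfl fun l _ => ?_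
  have e : P i l * Am B C l j =
      X * (Polynomial.C ((B + C) l j) * P i l) - Polynomial.C (B l j) * P i l := by
    simp only [Am, Matrix.of_apply, Matrix.add_apply, C_add]
    ring
  rw [e, coeff_sub, coeff_X_mul, coeff_C_mul, coeff_C_mul, hn, mul_zero, sub_zero,
    Matrix.map_apply, mul_comm]

end

theorem t_RIGID : S_RIGID := by
  intro r B₁ C₁ B₂ C₂ H h1 h2 h3 hH
  obtain ⟨b, hb⟩ := IsLocalization.exist_integer_multiples_of_finite (nonZeroDivisors ℂ[X])
    (fun p : Fin r × Fin r => H p.1 p.2)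
  have hb' : ∀ i j, ∃ p : ℂ[X], algebraMap ℂ[X] (RatFunc ℂ) (b : ℂ[X]) * H i j =
      algebraMap ℂ[X] (RatFunc ℂ) p := by
    intro i j
    obtain ⟨p, hp⟩ := hb (i, j)
    refine ⟨p, ?_⟩
    rw [hp, Algebra.smul_def]
  choose P₀ hP₀ using hb'
  obtain ⟨P, hP⟩ := exists_poly h1 h2 hH _ (b : ℂ[X]) P₀ (nonZeroDivisors.ne_zero b.2) rfl hP₀
  have hE : ∀ i j, X * (X - 1) * derivative (P i j) = (Am B₂ C₂ * P - P * Am B₁ C₁) i j := by
    intro i j
    have := poly_eq (q := 1) hH (P := P) (fun i j => by rw [map_one, one_mul, hP]) i j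
    simpa using this
  have hdown : ∀ n : ℕ, (∀ m, n < m → ∀ i j, (P i j).coeff m = 0) → 1 ≤ n →
      ∀ i j, (P i j).coeff n = 0 := by
    intro n hn hn1 i j
    have h4 : (P.map fun p => p.coeff n) = 0 := by
      refine h3 n _ hn1 ?_
      ext i j
      have h5 := congrArg (fun p : ℂ[X] => p.coeff (n + 1)) (hE i j)
      simp only [Matrix.sub_apply, coeff_sub] at h5
      rw [A_mul _ _ _ _ _ _ (hn (n + 1) (by omega)), mul_A _ _ _ _ _ _ (hn (n + 1) (by omega))] at h5
      rw [Matrix.sub_apply, ← h5, Matrix.smul_apply, Matrix.map_apply, smul_eq_mul]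
      obtain ⟨k, rfl⟩ : ∃ k, n = k + 1 := ⟨n - 1, by omega⟩
      have e : X * (X - 1) * derivative (P i j) =
        X * (X * derivative (P i j) - derivative (P i j)) := by ring
      rw [e, coeff_X_mul, coeff_sub, coeff_X_mul, coeff_derivative, coeff_derivative,
        hn (k + 1 + 1) (by omega)]
      push_cast
      ring
    have := congrFun (congrFun h4 i) j
    simpa using this
  obtain ⟨d, hd⟩ : ∃ d : ℕ, ∀ i j, (P i j).natDegree ≤ d :=
    ⟨Finset.univ.sup fun p : Fin r × Fin r => (P p.1 p.2).natDegree, fun i j =>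
      Finset.le_sup (f := fun p : Fin r × Fin r => (P p.1 p.2).natDegree) (Finset.mem_univ (i, j))⟩
  have hall : ∀ k n : ℕ, d < n + k → 1 ≤ n → ∀ i j, (P i j).coeff n = 0 := by
    intro k
    induction k with
    | zero =>
      intro n hn _ i j
      exact coeff_eq_zero_of_natDegree_lt ((hd i j).trans_lt (by omega))
    | succ k ih =>
      intro n hn hn1
      refine hdown n (fun m hm => ih m (by omega) (by omega)) hn1
  refine ⟨Matrix.of fun i j => (P i j).coeff 0, ?_⟩
  ext1 i j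
  rw [hP, Matrix.map_apply, Matrix.of_apply, ← RatFunc.algebraMap_C]
  congr 1
  ext n
  rcases n with _ | n
  · simp
  · rw [hall (d + 1) (n + 1) (by omega) (by omega), coeff_C]
    simp

end Pool.Agent.H862.FinRigid
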