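import Pool.Agent.H925.FinStm

set_option autoImplicit false

/-! # FIN 6: Sylvester's lemma (helper118 for helper925) -/

namespace Pool.Agent.H118.FinSyl

open Polynomial

/-- polynomials of intertwined matrices are intertwined -/
theorem intertw {r : ℕ} {A B X : Matrix (Fin r) (Fin r) ℂ} (h : A * X = X * B) (F : ℂ[X]) :
    aeval A F * X = X * aeval B F := by
  have hp : ∀ n : ℕ, A ^ n * X = X * B ^ n := by
    intro n
    induction n with
    | zero => rw [pow_zero, pow_zero, one_mul, mul_one]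
    | succ n ih => rw [pow_succ, pow_succ, Matrix.mul_assoc, h, ← Matrix.mul_assoc, ih,
        Matrix.mul_assoc]
  rw [aeval_eq_sum_range, aeval_eq_sum_range, Finset.sum_mul, Finset.mul_sum]
  refine Finset.sum_congr rfl fun n _ => ?_
  rw [smul_mul_assoc, mul_smul_comm, hp]

theorem t_SYL : Pool.Agent.H925.S_SYL := by
  intro r B₁ B₂ X μ F₁ F₂ h1 h2 hF1 hF2 hroot hX
  have hint : B₂ * X = X * (B₁ + algebraMap ℂ _ μ) := by
    rw [mul_add, ← Algebra.commutes, ← Algebra.smul_def, ← hX]
    abel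
  have h3 := intertw hint F₂
  rw [hF2, zero_mul] at h3
  have h4 : aeval (B₁ + algebraMap ℂ _ μ) F₂ = aeval B₁ (F₂.comp (Polynomial.X + C μ)) := by
    rw [aeval_comp, map_add, aeval_X, aeval_C]
  have hco : IsCoprime F₁ (F₂.comp (Polynomial.X + C μ)) := by
    rw [Polynomial.isCoprime_iff_aeval_ne_zero_of_isAlgClosed ℂ ℂ]
    intro a
    by_contra hcon
    push Not at hcon
    obtain ⟨e1, e2⟩ := hcon
    rw [coe_aeval_eq_eval] at e1 e2
    rw [eval_comp, eval_add, eval_X, eval_C] at e2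
    exact hroot (a + μ) a e2 e1 (by ring)
  obtain ⟨u, v, huv⟩ := hco
  have h5 := congrArg (aeval B₁) huv
  rw [map_add, map_mul, map_mul, hF1, mul_zero, zero_add, map_one] at h5
  have h6 : aeval B₁ (F₂.comp (Polynomial.X + C μ)) * aeval B₁ v = 1 := by
    rw [← map_mul, mul_comm, map_mul]
    exact h5
  rw [h4] at h3
  calc X = X * (aeval B₁ (F₂.comp (Polynomial.X + C μ)) * aeval B₁ v) := by rw [h6, mul_one]
    _ = (X * aeval B₁ (F₂.comp (Polynomial.X + C μ))) * aeval B₁ v := by rw [Matrix.mul_assoc]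
    _ = 0 := by rw [← h3, zero_mul]

end Pool.Agent.H118.FinSyl
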