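import Pool.Agent.H925.Fin
import Pool.Agent.H925.FinSyl
import Pool.Agent.H925.FinRigid
import Pool.Agent.H925.FinRatEq
import Pool.Agent.H925.FinRep
import Pool.Agent.H925.FinConst
import Pool.Agent.H925.FinGal

set_option autoImplicit false

open Finset NumberField

namespace Pool.Agent.H925

open Pool.Agent.Helper338PC

section words

variable {r : ℕ}

lemma wordProd_conj {R : Type*} [Semiring R] {A B A' B' P : Matrix (Fin r) (Fin r) R}
    (h1 : A' * P = P * A) (h2 : B' * P = P * B) (w : List Bool) :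
    wordProd A' B' w * P = P * wordProd A B w := by
  induction w with
  | nil => simp [wordProd]
  | cons t w ih =>
    have e1 : wordProd A' B' (t :: w) = (bif t then A' else B') * wordProd A' B' w := by
      simp [wordProd]
    have e2 : wordProd A B (t :: w) = (bif t then A else B) * wordProd A B w := by
      simp [wordProd]
    rw [e1, e2, mul_assoc, ih, ← mul_assoc, ← mul_assoc]
    congr 1
    cases t
    · exact h2
    · exact h1

lemma wordProd_map {R S : Type*} [Semiring R] [Semiring S] (f : R →+* S)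
    (A B : Matrix (Fin r) (Fin r) R) (w : List Bool) :
    f.mapMatrix (wordProd A B w) = wordProd (f.mapMatrix A) (f.mapMatrix B) w := by
  unfold wordProd
  rw [map_list_prod, List.map_map]
  congr 2
  funext t
  cases t <;> rfl

lemma trace_conj {M M' P : Matrix (Fin r) (Fin r) ℂ} (hP : P.det ≠ 0) (h : M' * P = P * M) :
    M'.trace = M.trace := by
  have hu : IsUnit P.det := isUnit_iff_ne_zero.mpr hP
  have e1 : M' = P * M * P⁻¹ := by
    rw [← h, mul_assoc, Matrix.mul_nonsing_inv _ hu, mul_one]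
  rw [e1, Matrix.trace_mul_comm, ← mul_assoc, Matrix.nonsing_inv_mul _ hu, one_mul]

end words

theorem finiteBounded {n n₁ n₂ N k : ℕ} {ε : ℝ} (hn : 0 < n) (hn₁ : 0 < n₁) (hn₂ : 0 < n₂)
    (hN : 0 < N) (h : IntegralSolved n n₁ n₂ N k ε) : FiniteBounded n n₁ n₂ N k ε :=
  fun E hE L r => bounded_finite
    (Pool.Agent.H39.FinRatEq.t_RATEQ Pool.Agent.H327.FinGal.t_GAL
      Pool.Agent.H998.FinConst.t_CONST Pool.Agent.H710.t_REP)
    Pool.Agent.H862.FinRigid.t_RIGID Pool.Agent.H118.FinSyl.t_SYL hn hn₁ hn₂ hN h E hE L r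

theorem finiteFree {n N k : ℕ} {ε : ℝ} (h : FreeSolved n N k ε) : FiniteFree n N k ε :=
  fun E hE r => free_finite
    (Pool.Agent.H39.FinRatEq.t_RATEQ Pool.Agent.H327.FinGal.t_GAL
      Pool.Agent.H998.FinConst.t_CONST Pool.Agent.H710.t_REP) h E hE r

/-- The free class contains the integral classes. -/
lemma FreeSolved.integralSolved {n N k : ℕ} {ε : ℝ} (h : FreeSolved n N k ε) (n₁ n₂ : ℕ) :
    IntegralSolved n n₁ n₂ N k ε := by
  obtain ⟨M, hM⟩ := h
  refine ⟨M, fun E hE => ?_⟩
  obtain ⟨F, i1, i2, d, h1, h2, h3, h4⟩ := hM E hE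
  exact ⟨F, i1, i2, d, h1, h2, h3, fun K _ _ φ r b C hC => h4 K φ r b C ⟨hC.lt, hC.card, hC.good⟩⟩

theorem finiteFamilies {n n₁ n₂ N k : ℕ} {ε : ℝ} (hn : 0 < n) (hN : 0 < N)
    (h : FiniteBounded n n₁ n₂ N k ε) : FiniteFamilies n n₁ n₂ N k ε := by
  intro E hE L r b C w hw
  have hnC : (n : ℂ) ≠ 0 := by exact_mod_cast hn.ne'
  have hNC : (N : ℂ) ≠ 0 := by exact_mod_cast hN.ne'
  obtain ⟨𝒮, hfin, -, hS⟩ := h E hE L r
  set τ : Polynomial ℤ := (wordProd (Matrix.diagonal fun i => (b i : Polynomial ℤ)) C w).trace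
    with hτ
  let t : Matrix (Fin r) (Fin r) ℂ × Matrix (Fin r) (Fin r) ℂ → ℂ := fun s =>
    (wordProd ((n : ℂ) • s.1) ((N : ℂ) • s.2) w).trace
  refine ⟨⋃ s ∈ 𝒮, {z : ℂ | (τ.map (algebraMap ℤ ℂ) - Polynomial.C (t s)).IsRoot z},
    hfin.biUnion fun s _ => ?_, ?_⟩
  · refine Polynomial.finite_setOfPred_isRoot ?_
    intro h0
    apply hw
    have h1 : τ.map (algebraMap ℤ ℂ) = Polynomial.C (t s) := sub_eq_zero.mp h0
    have h2 : (τ.map (algebraMap ℤ ℂ)).natDegree = τ.natDegree :=
      Polynomial.natDegree_map_eq_of_injective (by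
        intro a b hab
        have : (a : ℂ) = (b : ℂ) := by simpa using hab
        exact_mod_cast this) τ
    rw [← h2, h1, Polynomial.natDegree_C]
  · intro K _ _ φ ω hC
    obtain ⟨s, hs, P, hP, e1, e2⟩ := hS K φ b _ hC
    refine Set.mem_biUnion hs ?_
    have f1 : ((n : ℂ) • s.1) * P = P * (Matrix.diagonal fun i => (b i : ℂ)) := by
      rw [Matrix.smul_mul, e1, ← Matrix.mul_smul]
      congr 1
      ext1 i j
      rw [Matrix.smul_apply, Matrix.diagonal_apply, Matrix.diagonal_apply, smul_eq_mul]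
      split_ifs
      · field_simp
      · rw [mul_zero]
    have f2 : ((N : ℂ) • s.2) * P =
        P * C.map (fun c => Polynomial.aeval (φ (algebraMap (𝓞 K) K ω)) c) := by
      rw [Matrix.smul_mul, e2, ← Matrix.mul_smul]
      congr 1
      ext1 i j
      rw [Matrix.smul_apply, Matrix.map_apply, Matrix.map_apply, Matrix.map_apply, smul_eq_mul]
      have g1 : φ (algebraMap (𝓞 K) K (Polynomial.aeval ω (C i j))) =
          Polynomial.aeval (φ (algebraMap (𝓞 K) K ω)) (C i j) := by
        have := (Polynomial.hom_eval₂ (C i j) (algebraMap ℤ (𝓞 K))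
          (φ.comp (algebraMap (𝓞 K) K)) ω)
        rw [RingHom.comp_apply] at this
        rw [Polynomial.aeval_def, this, Polynomial.aeval_def]
        congr 1
        exact Subsingleton.elim _ _
      rw [g1]
      field_simp
    have f3 := trace_conj hP (wordProd_conj f1 f2 w)
    have f4 : (wordProd (Matrix.diagonal fun i => (b i : ℂ))
        (C.map (fun c => Polynomial.aeval (φ (algebraMap (𝓞 K) K ω)) c)) w).trace =
        Polynomial.aeval (φ (algebraMap (𝓞 K) K ω)) τ := by
      have g2 := wordProd_map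
        (Polynomial.aeval (R := ℤ) (φ (algebraMap (𝓞 K) K ω)) : Polynomial ℤ →ₐ[ℤ] ℂ).toRingHom
        (Matrix.diagonal fun i => (b i : Polynomial ℤ)) C w
      have g3 : (Matrix.diagonal fun i => (b i : ℂ)) =
          (Polynomial.aeval (R := ℤ) (φ (algebraMap (𝓞 K) K ω)) :
            Polynomial ℤ →ₐ[ℤ] ℂ).toRingHom.mapMatrix
            (Matrix.diagonal fun i : Fin r => (b i : Polynomial ℤ)) := by
        ext1 i j
        rw [RingHom.mapMatrix_apply, Matrix.map_apply, Matrix.diagonal_apply,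
          Matrix.diagonal_apply]
        split_ifs
        · exact (map_natCast _ _).symm
        · exact (map_zero _).symm
      rw [g3]
      change Matrix.trace (wordProd _ ((Polynomial.aeval (R := ℤ) (φ (algebraMap (𝓞 K) K ω)) :
            Polynomial ℤ →ₐ[ℤ] ℂ).toRingHom.mapMatrix C) w) = _
      rw [← g2, hτ]
      exact (AddMonoidHom.map_trace
        (Polynomial.aeval (R := ℤ) (φ (algebraMap (𝓞 K) K ω)) :
            Polynomial ℤ →ₐ[ℤ] ℂ).toRingHom.toAddMonoidHom _).symm
    change (τ.map (algebraMap ℤ ℂ) - Polynomial.C (t s)).IsRoot _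
    rw [Polynomial.IsRoot, Polynomial.eval_sub, Polynomial.eval_C, Polynomial.eval_map_algebraMap,
      ← f4, ← f3, sub_self]

end Pool.Agent.H925
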