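import Pool.Agent.H925.ExplW
import Pool.Agent.H925.TriRad
import Pool.Agent.H925.CuspTri

set_option autoImplicit false

open Finset NumberField

namespace Pool.Agent.H925

open Pool.Agent.Helper338PC

/-- The class of the Fuchsian systems `Y' = A / (D x (x - 1)) Y`, `A` with linear entries, over the
number field `K` with the local data `κ`, `S`, `E`, `ℓ`: there is a fundamental matrix `U x ^ β` at
`0` with exponents in `{0, 1 / n₀, ..., (n₀ - 1) / n₀}`, at most `κ` of them different, which has the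
radius of convergence `p ^ (-ℓ p)` at the primes `p` of `S` (or satisfies a condition which implies
this); the rational eigenvalues `t / D` of the residue `A(1) / D` at `1` belong to `(1 / n₁) ℤ`, and
those of the residue at infinity to `(1 / n₂) ℤ`; the primes which divide `D` belong to `S`; for the
primes `p` outside `S` and `E` the `p`-curvature is zero modulo `p`. -/
structure FuchsClass (n₀ n₁ n₂ κ : ℕ) (S E : Finset ℕ) (ℓ : ℕ → ℝ) (K : Type) [Field K]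
    [NumberField K] {r : ℕ} (D : ℕ) (A : Matrix (Fin r) (Fin r) (Polynomial (𝓞 K))) : Prop where
  ne : D ≠ 0
  deg : ∀ i j, (A i j).natDegree ≤ 1
  one : ∀ t : ℤ, (A.map (Polynomial.eval 1)).charpoly.IsRoot (t : 𝓞 K) → ((D : ℕ) : ℤ) ∣ n₁ * t
  inf : ∀ t : ℤ, (A.map fun a => a.coeff 1).charpoly.IsRoot (t : 𝓞 K) → ((D : ℕ) : ℤ) ∣ n₂ * t
  dvd : ∀ p : ℕ, p.Prime → p ∣ D → p ∈ S
  good : ∀ p : ℕ, p.Prime → p ∉ S → p ∉ E → PCurvMod p D A
  fund : ∃ (β : Fin r → ℚ) (U : Matrix (Fin r) (Fin r) (PowerSeries K)),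
    IsFundamentalAtZero (algebraMap (𝓞 K) K) D 1 A β U ∧
      (∀ i, ∃ j : ℕ, j < n₀ ∧ β i = (j : ℚ) / n₀) ∧ numExp β ≤ κ ∧
      ∀ p ∈ S, AdmissibleAt (algebraMap (𝓞 K) K) D 1 A β U p (ℓ p)

section aux

variable {r : ℕ}

/-- The residue at `0` is annihilated by the polynomial of the exponents. -/
lemma eig_of_fund {n₀ D : ℕ} (hn₀ : 0 < n₀) (hD : D ≠ 0) {K : Type} [Field K] [NumberField K]
    {A : Matrix (Fin r) (Fin r) (Polynomial (𝓞 K))} {β : Fin r → ℚ}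
    {U : Matrix (Fin r) (Fin r) (PowerSeries K)}
    (hU : IsFundamentalAtZero (algebraMap (𝓞 K) K) D 1 A β U)
    (hβ : ∀ i, ∃ j : ℕ, j < n₀ ∧ β i = (j : ℚ) / n₀) :
    Polynomial.aeval (-(A.map fun a => a.coeff 0)) (eigPoly n₀ D) = 0 := by
  obtain ⟨hdet, hUeq⟩ := hU
  rw [ccM_eq_map] at hdet
  have hDK : (D : K) ≠ 0 := by exact_mod_cast hD
  have hsol : ∀ j, IsSolG (Aps (algebraMap (𝓞 K) K) (D : K)⁻¹ 1 A) ((β j : ℚ) : K)
      (fun i => U i j) := fun j i => hUeq i j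
  have e1 := ccM_mul_diag hsol
  set Z : Matrix (Fin r) (Fin r) K := (-(A.map fun a => a.coeff 0)).map (algebraMap (𝓞 K) K)
    with hZ
  have hZD : Z = (D : K) • ccM (Aps (algebraMap (𝓞 K) K) (D : K)⁻¹ 1 A) := by
    ext1 i j
    rw [Matrix.smul_apply, ccM_apply, Aps_apply, smul_eq_mul, map_mul, map_mul, map_pow,
      PowerSeries.constantCoeff_C]
    have e2 : PowerSeries.constantCoeff (wg K) = -1 := by
      unfold wg
      rw [map_neg, ← PowerSeries.coeff_zero_eq_constantCoeff_apply, PowerSeries.coeff_mk]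
    rw [e2, ← PowerSeries.coeff_zero_eq_constantCoeff_apply, Polynomial.coeff_coe,
      Polynomial.coeff_map, hZ, Matrix.map_apply, Matrix.neg_apply, Matrix.map_apply, map_neg]
    field_simp
  have h1 : Z * ccM U = ccM U * Matrix.diagonal fun j => (D : K) * ((β j : ℚ) : K) := by
    rw [hZD, Matrix.smul_mul, e1]
    ext1 i l
    rw [Matrix.smul_apply, Matrix.mul_diagonal, Matrix.mul_diagonal, smul_eq_mul]
    ring
  have h2 := aeval_mul_of_diag h1 ((eigPoly n₀ D).map (algebraMap ℤ K))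
  rw [Polynomial.aeval_map_algebraMap] at h2
  have h3 : ∀ j, Polynomial.eval ((D : K) * ((β j : ℚ) : K))
      ((eigPoly n₀ D).map (algebraMap ℤ K)) = 0 := by
    intro j
    obtain ⟨k, hk, hβk⟩ := hβ j
    unfold eigPoly
    rw [Polynomial.map_prod, Polynomial.eval_prod]
    refine Finset.prod_eq_zero (Finset.mem_range.mpr hk) ?_
    rw [hβk]
    have hn : (n₀ : K) ≠ 0 := by exact_mod_cast hn₀.ne'
    simp only [Polynomial.map_sub, Polynomial.map_mul, Polynomial.map_C, Polynomial.map_X,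
      Polynomial.eval_sub, Polynomial.eval_mul, Polynomial.eval_C, Polynomial.eval_X]
    push_cast
    field_simp
    simp
  have h4 : Polynomial.aeval Z (eigPoly n₀ D) * ccM U = 0 := by
    rw [h2]
    ext1 i j
    rw [Matrix.mul_diagonal, h3 j, mul_zero, Matrix.zero_apply]
  have h5 : Polynomial.aeval Z (eigPoly n₀ D) = 0 := by
    have h6 : IsUnit (ccM U).det := isUnit_iff_ne_zero.mpr hdet
    calc Polynomial.aeval Z (eigPoly n₀ D)
        = Polynomial.aeval Z (eigPoly n₀ D) * (ccM U * (ccM U)⁻¹) := by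
          rw [Matrix.mul_nonsing_inv _ h6, mul_one]
      _ = 0 := by rw [← mul_assoc, h4, zero_mul]
  have h6 : (Polynomial.aeval (-(A.map fun a => a.coeff 0)) (eigPoly n₀ D)).map
      (algebraMap (𝓞 K) K) = 0 := by
    rw [← h5, hZ]
    exact (Polynomial.aeval_algHom_apply (algebraMap (𝓞 K) K).mapMatrix.toIntAlgHom
      (-(A.map fun a => a.coeff 0)) (eigPoly n₀ D)).symm
  ext1 i j
  have h7 := congrFun (congrFun h6 i) j
  rw [Matrix.map_apply, Matrix.zero_apply] at h7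
  rw [Matrix.zero_apply]
  exact RingOfIntegers.coe_injective (by rw [map_zero]; exact h7)

lemma FuchsClass.orb {n₀ n₁ n₂ κ : ℕ} (hn₀ : 0 < n₀) (hn₁ : 0 < n₁) (hn₂ : 0 < n₂)
    {S E : Finset ℕ} {ℓ : ℕ → ℝ} {K : Type} [Field K] [NumberField K] {D : ℕ}
    {A : Matrix (Fin r) (Fin r) (Polynomial (𝓞 K))}
    (h : FuchsClass n₀ n₁ n₂ κ S E ℓ K D A) :
    OrbClassW n₀ n₁ n₂ κ S E ℓ K D A := by
  classical
  obtain ⟨hD, hdeg, h1, h2, hDS, hgood, β, U, hU, hβ, hκ, hadm⟩ := h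
  have hpc : ∀ p : ℕ, p.Prime → max D (max (S.sup id) (E.sup id)) < p →
      ∀ (𝔭 : Ideal (𝓞 K)) [𝔭.IsMaximal], (p : 𝓞 K) ∈ 𝔭 → PCurvZeroAt 𝔭 D 1 A := by
    intro p hp hP 𝔭 h𝔭 hp𝔭
    obtain ⟨e1, e2⟩ := max_lt_iff.mp hP
    obtain ⟨e2, e3⟩ := max_lt_iff.mp e2
    have e4 : p ∉ S := fun hE => absurd (Finset.le_sup (f := id) hE) (not_le.mpr e2)
    have e5 : p ∉ E := fun hE => absurd (Finset.le_sup (f := id) hE) (not_le.mpr e3)
    refine Pool.Agent.H685.PCAt.t_PCAT (𝓞 K) r D p _ 𝔭 hp hp𝔭 ?_ (hgood p hp e4 e5)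
    intro hmem
    refine natCast_ne_zero_of_lt hp hp𝔭 hD e1 ?_
    rw [← map_natCast (Ideal.Quotient.mk 𝔭), Ideal.Quotient.eq_zero_iff_mem]
    exact hmem
  refine ⟨hD, ⟨eig_of_fund hn₀ hD hU hβ, ?_, ?_⟩, hDS, fun p hp hS hE => hgood p hp hS
    (fun hE' => hE hE'), β, U, hU, hκ, hadm⟩
  · exact exists_oneGauge hD hn₁.ne' (fun t ht => h1 t (isRoot_coe ht)) hpc
  · exact exists_infGauge hD hn₂.ne' hdeg (fun t ht => h2 t (isRoot_coe ht)) hpc

end aux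

/-- The theorem for the Fuchsian systems. -/
theorem fuchs_universal {n₀ n₁ n₂ : ℕ} (hn₀ : 0 < n₀) (hn₁ : 0 < n₁) (hn₂ : 0 < n₂)
    {R δ : ℝ} (hR0 : 0 < R) (hR : TriRadius n₀ n₁ n₂ R) (hδ : δ < Real.log R) : ∃ M : ℕ,
    ∀ (κ : ℕ) (S E : Finset ℕ) (ℓ : ℕ → ℝ), (∀ p ∈ S, p.Prime) →
      (∀ p ∈ S, 0 ≤ ℓ p) → defect κ S E ℓ ≤ δ →
      ∃ (F : Type) (_ : Field F) (_ : Algebra (RatFunc ℂ) F) (d : Derivation ℤ F F),
        FiniteDimensional (RatFunc ℂ) F ∧ Module.finrank (RatFunc ℂ) F ≤ M ∧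
        (∀ f, d (algebraMap (RatFunc ℂ) F f) = algebraMap (RatFunc ℂ) F (W432.PC.ddx ℂ f)) ∧
        ∀ (K : Type) [Field K] [NumberField K] (φ : K →+* ℂ) (r D : ℕ)
          (A : Matrix (Fin r) (Fin r) (Polynomial (𝓞 K))),
          FuchsClass n₀ n₁ n₂ κ S E ℓ K D A →
          SolvedIn (sysG (φ.comp (algebraMap (𝓞 K) K)) D 1 A) F d := by
  obtain ⟨M, hM⟩ := orb_universalW hn₀ hn₁ hn₂ hR0 hR hδ
  refine ⟨M, ?_⟩
  intro κ S E ℓ hS hℓ hdef
  have hE : Summable (sparseTerm (E : Set ℕ)) := by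
    refine summable_of_ne_finset_zero (s := E) fun p hp => ?_
    unfold sparseTerm
    rw [if_neg]
    rintro ⟨-, h2⟩
    exact hp h2
  obtain ⟨F, i1, i2, d, h1, h2, h3, h4⟩ := hM κ S E ℓ hS hE hℓ hdef
  exact ⟨F, i1, i2, d, h1, h2, h3, fun K _ _ φ r D A hA =>
    h4 K φ r D A (hA.orb hn₀ hn₁ hn₂)⟩

/-- The class of the flat bundles `Y' = A / (D x (x - 1)) Y` over the number field `K` on the compact
orbifold of type `(n₀, n₁, n₂)`, `A` a matrix of polynomials of any degree, with the local data `κ`,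
`S`, `E`, `ℓ`: there is a fundamental matrix `U x ^ β` at `0` with exponents in
`{0, 1 / n₀, ..., (n₀ - 1) / n₀}`, at most `κ` of them different, which has the radius of convergence
`p ^ (-ℓ p)` at the primes `p` of `S` (or satisfies a condition which implies this); the rational
eigenvalues of the residue `A(1) / D` at `1` belong to `(1 / n₁) ℤ`; the flat bundle on the affine
line extends to infinity with exponents in `(1 / n₂) ℤ` (`InfGauge`); the primes which divide `D` belong to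
`S`; for the primes `p` outside `S` and `E` the `p`-curvature is zero modulo `p`. -/
structure BundleClass (n₀ n₁ n₂ κ : ℕ) (S E : Finset ℕ) (ℓ : ℕ → ℝ) (K : Type) [Field K]
    [NumberField K] {r : ℕ} (D : ℕ) (A : Matrix (Fin r) (Fin r) (Polynomial (𝓞 K))) : Prop where
  ne : D ≠ 0
  one : ∀ t : ℤ, (A.map (Polynomial.eval 1)).charpoly.IsRoot (t : 𝓞 K) → ((D : ℕ) : ℤ) ∣ n₁ * t
  inf : ∃ (e m c : ℕ) (T T' : Matrix (Fin r) (Fin r) (Polynomial K)),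
    InfGauge D n₂ e m c (A.map (Polynomial.map (algebraMap (𝓞 K) K))) T T'
  dvd : ∀ p : ℕ, p.Prime → p ∣ D → p ∈ S
  good : ∀ p : ℕ, p.Prime → p ∉ S → p ∉ E → PCurvMod p D A
  fund : ∃ (β : Fin r → ℚ) (U : Matrix (Fin r) (Fin r) (PowerSeries K)),
    IsFundamentalAtZero (algebraMap (𝓞 K) K) D 1 A β U ∧
      (∀ i, ∃ j : ℕ, j < n₀ ∧ β i = (j : ℚ) / n₀) ∧ numExp β ≤ κ ∧
      ∀ p ∈ S, AdmissibleAt (algebraMap (𝓞 K) K) D 1 A β U p (ℓ p)

lemma BundleClass.orb {r n₀ n₁ n₂ κ : ℕ} (hn₀ : 0 < n₀) (hn₁ : 0 < n₁)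
    {S E : Finset ℕ} {ℓ : ℕ → ℝ} {K : Type} [Field K] [NumberField K] {D : ℕ}
    {A : Matrix (Fin r) (Fin r) (Polynomial (𝓞 K))}
    (h : BundleClass n₀ n₁ n₂ κ S E ℓ K D A) :
    OrbClassW n₀ n₁ n₂ κ S E ℓ K D A := by
  classical
  obtain ⟨hD, h1, h2, hDS, hgood, β, U, hU, hβ, hκ, hadm⟩ := h
  have hpc : ∀ p : ℕ, p.Prime → max D (max (S.sup id) (E.sup id)) < p →
      ∀ (𝔭 : Ideal (𝓞 K)) [𝔭.IsMaximal], (p : 𝓞 K) ∈ 𝔭 → PCurvZeroAt 𝔭 D 1 A := by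
    intro p hp hP 𝔭 h𝔭 hp𝔭
    obtain ⟨e1, e2⟩ := max_lt_iff.mp hP
    obtain ⟨e2, e3⟩ := max_lt_iff.mp e2
    have e4 : p ∉ S := fun hE => absurd (Finset.le_sup (f := id) hE) (not_le.mpr e2)
    have e5 : p ∉ E := fun hE => absurd (Finset.le_sup (f := id) hE) (not_le.mpr e3)
    refine Pool.Agent.H685.PCAt.t_PCAT (𝓞 K) r D p _ 𝔭 hp hp𝔭 ?_ (hgood p hp e4 e5)
    intro hmem
    refine natCast_ne_zero_of_lt hp hp𝔭 hD e1 ?_
    rw [← map_natCast (Ideal.Quotient.mk 𝔭), Ideal.Quotient.eq_zero_iff_mem]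
    exact hmem
  exact ⟨hD, ⟨eig_of_fund hn₀ hD hU hβ,
    exists_oneGauge hD hn₁.ne' (fun t ht => h1 t (isRoot_coe ht)) hpc, h2⟩, hDS,
    fun p hp hS hE => hgood p hp hS (fun hE' => hE hE'), β, U, hU, hκ, hadm⟩

/-- The theorem for the flat bundles. -/
theorem bundle_universal {n₀ n₁ n₂ : ℕ} (hn₀ : 0 < n₀) (hn₁ : 0 < n₁) (hn₂ : 0 < n₂)
    {R δ : ℝ} (hR0 : 0 < R) (hR : TriRadius n₀ n₁ n₂ R) (hδ : δ < Real.log R) : ∃ M : ℕ,
    ∀ (κ : ℕ) (S E : Finset ℕ) (ℓ : ℕ → ℝ), (∀ p ∈ S, p.Prime) →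
      (∀ p ∈ S, 0 ≤ ℓ p) → defect κ S E ℓ ≤ δ →
      ∃ (F : Type) (_ : Field F) (_ : Algebra (RatFunc ℂ) F) (d : Derivation ℤ F F),
        FiniteDimensional (RatFunc ℂ) F ∧ Module.finrank (RatFunc ℂ) F ≤ M ∧
        (∀ f, d (algebraMap (RatFunc ℂ) F f) = algebraMap (RatFunc ℂ) F (W432.PC.ddx ℂ f)) ∧
        ∀ (K : Type) [Field K] [NumberField K] (φ : K →+* ℂ) (r D : ℕ)
          (A : Matrix (Fin r) (Fin r) (Polynomial (𝓞 K))),
          BundleClass n₀ n₁ n₂ κ S E ℓ K D A →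
          SolvedIn (sysG (φ.comp (algebraMap (𝓞 K) K)) D 1 A) F d := by
  obtain ⟨M, hM⟩ := orb_universalW hn₀ hn₁ hn₂ hR0 hR hδ
  refine ⟨M, ?_⟩
  intro κ S E ℓ hS hℓ hdef
  have hE : Summable (sparseTerm (E : Set ℕ)) := by
    refine summable_of_ne_finset_zero (s := E) fun p hp => ?_
    unfold sparseTerm
    rw [if_neg]
    rintro ⟨-, h2⟩
    exact hp h2
  obtain ⟨F, i1, i2, d, h1, h2, h3, h4⟩ := hM κ S E ℓ hS hE hℓ hdef
  exact ⟨F, i1, i2, d, h1, h2, h3, fun K _ _ φ r D A hA =>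
    h4 K φ r D A (hA.orb hn₀ hn₁)⟩

end Pool.Agent.H925
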