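import Pool.Agent.H925.FinList
import Pool.Agent.H925.Fuchs

set_option autoImplicit false

open Finset NumberField

namespace Pool.Agent.H925

open Pool.Agent.Helper338PC

/-- One finite extension and one finite list of irreducible systems for all systems `(⋆)` with given local
data of small defect. -/
theorem fuchs_finite {n₀ n₁ n₂ : ℕ} (hn₀ : 0 < n₀) (hn₁ : 0 < n₁) (hn₂ : 0 < n₂) {R δ : ℝ}
    (hR0 : 0 < R) (hR : TriRadius n₀ n₁ n₂ R) (hδ : δ < Real.log R) :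
    ∃ M : ℕ, ∀ (κ : ℕ) (S E : Finset ℕ) (ℓ : ℕ → ℝ), (∀ p ∈ S, p.Prime) →
      (∀ p ∈ S, 0 ≤ ℓ p) → defect κ S E ℓ ≤ δ →
      ∃ (F : Type) (_ : Field F) (_ : Algebra (RatFunc ℂ) F) (d : Derivation ℤ F F)
        (𝒢 : Set (Σ m : ℕ, Matrix (Fin m) (Fin m) (RatFunc ℂ))),
        FiniteDimensional (RatFunc ℂ) F ∧ Module.finrank (RatFunc ℂ) F ≤ M ∧
        (∀ f, d (algebraMap (RatFunc ℂ) F f) = algebraMap (RatFunc ℂ) F (W432.PC.ddx ℂ f)) ∧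
        𝒢.Finite ∧ (∀ s ∈ 𝒢, 0 < s.1 ∧ s.1 ≤ M ∧ ¬ BlockTri s.2 ∧ SolvedIn s.2 F d) ∧
        ∀ (K : Type) [Field K] [NumberField K] (φ : K →+* ℂ) (r D : ℕ)
          (A : Matrix (Fin r) (Fin r) (Polynomial (𝓞 K))),
          FuchsClass n₀ n₁ n₂ κ S E ℓ K D A →
          SolvedIn (sysG (φ.comp (algebraMap (𝓞 K) K)) D 1 A) F d ∧
          SumOf 𝒢 r (sysG (φ.comp (algebraMap (𝓞 K) K)) D 1 A) := by
  obtain ⟨M, hM⟩ := fuchs_universal hn₀ hn₁ hn₂ hR0 hR hδ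
  refine ⟨M, fun κ S E ℓ hS hℓ hdef => ?_⟩
  obtain ⟨F, i1, i2, d, hfd, hfr, hd, hF⟩ := hM κ S E ℓ hS hℓ hdef
  obtain ⟨𝒢, hfin, hG, hS'⟩ := exists_list rateq Pool.Agent.H356.FinTri.t_TRI
    Pool.Agent.H340.FinTrace.t_TRACE Pool.Agent.H684.t_COLS F d hd
  exact ⟨F, i1, i2, d, 𝒢, hfd, hfr, hd, hfin, fun s hs => ⟨(hG s hs).1, (hG s hs).2.1.trans hfr,
    (hG s hs).2.2.1, (hG s hs).2.2.2⟩, fun K _ _ φ r D A hA =>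
      ⟨hF K φ r D A hA, hS' r _ (hF K φ r D A hA)⟩⟩

/-- The same for flat bundles. -/
theorem bundle_finite {n₀ n₁ n₂ : ℕ} (hn₀ : 0 < n₀) (hn₁ : 0 < n₁) (hn₂ : 0 < n₂) {R δ : ℝ}
    (hR0 : 0 < R) (hR : TriRadius n₀ n₁ n₂ R) (hδ : δ < Real.log R) :
    ∃ M : ℕ, ∀ (κ : ℕ) (S E : Finset ℕ) (ℓ : ℕ → ℝ), (∀ p ∈ S, p.Prime) →
      (∀ p ∈ S, 0 ≤ ℓ p) → defect κ S E ℓ ≤ δ →
      ∃ (F : Type) (_ : Field F) (_ : Algebra (RatFunc ℂ) F) (d : Derivation ℤ F F)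
        (𝒢 : Set (Σ m : ℕ, Matrix (Fin m) (Fin m) (RatFunc ℂ))),
        FiniteDimensional (RatFunc ℂ) F ∧ Module.finrank (RatFunc ℂ) F ≤ M ∧
        (∀ f, d (algebraMap (RatFunc ℂ) F f) = algebraMap (RatFunc ℂ) F (W432.PC.ddx ℂ f)) ∧
        𝒢.Finite ∧ (∀ s ∈ 𝒢, 0 < s.1 ∧ s.1 ≤ M ∧ ¬ BlockTri s.2 ∧ SolvedIn s.2 F d) ∧
        ∀ (K : Type) [Field K] [NumberField K] (φ : K →+* ℂ) (r D : ℕ)
          (A : Matrix (Fin r) (Fin r) (Polynomial (𝓞 K))),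
          BundleClass n₀ n₁ n₂ κ S E ℓ K D A →
          SolvedIn (sysG (φ.comp (algebraMap (𝓞 K) K)) D 1 A) F d ∧
          SumOf 𝒢 r (sysG (φ.comp (algebraMap (𝓞 K) K)) D 1 A) := by
  obtain ⟨M, hM⟩ := bundle_universal hn₀ hn₁ hn₂ hR0 hR hδ
  refine ⟨M, fun κ S E ℓ hS hℓ hdef => ?_⟩
  obtain ⟨F, i1, i2, d, hfd, hfr, hd, hF⟩ := hM κ S E ℓ hS hℓ hdef
  obtain ⟨𝒢, hfin, hG, hS'⟩ := exists_list rateq Pool.Agent.H356.FinTri.t_TRI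
    Pool.Agent.H340.FinTrace.t_TRACE Pool.Agent.H684.t_COLS F d hd
  exact ⟨F, i1, i2, d, 𝒢, hfd, hfr, hd, hfin, fun s hs => ⟨(hG s hs).1, (hG s hs).2.1.trans hfr,
    (hG s hs).2.2.1, (hG s hs).2.2.2⟩, fun K _ _ φ r D A hA =>
      ⟨hF K φ r D A hA, hS' r _ (hF K φ r D A hA)⟩⟩

end Pool.Agent.H925
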