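import Pool.Agent.H925.FinSum
import Pool.Agent.H925.FinDefs2

set_option autoImplicit false

open Finset NumberField

namespace Pool.Agent.H925

open Pool.Agent.Helper338PC

section split

variable {r : ℕ} {F : Type} [Field F] [Algebra (RatFunc ℂ) F] {d : Derivation ℤ F F}

lemma block_eq {r₁ r₂ : ℕ} (e : Fin r₁ ⊕ Fin r₂ ≃ Fin r)
    (A : Matrix (Fin r₁) (Fin r₁) (RatFunc ℂ)) (C : Matrix (Fin r₂) (Fin r₁) (RatFunc ℂ))
    (D : Matrix (Fin r₂) (Fin r₂) (RatFunc ℂ)) (Y : Matrix (Fin r) (Fin r) F)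
    (hdY : ∀ i j, d (Y i j) = ∑ l, algebraMap (RatFunc ℂ) F
      (((Matrix.fromBlocks A 0 C D).reindex e e) i l) * Y l j) :
    (∀ a j, d (Y (e (Sum.inl a)) j) =
      ∑ b, algebraMap (RatFunc ℂ) F (A a b) * Y (e (Sum.inl b)) j) ∧
    (∀ a j, d (Y (e (Sum.inr a)) j) =
      ∑ b, algebraMap (RatFunc ℂ) F (C a b) * Y (e (Sum.inl b)) j +
      ∑ b, algebraMap (RatFunc ℂ) F (D a b) * Y (e (Sum.inr b)) j) := by
  constructor
  · intro a j
    rw [hdY, ← Equiv.sum_comp e, Fintype.sum_sum_type]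
    simp [Matrix.reindex_apply, Matrix.submatrix_apply]
  · intro a j
    rw [hdY, ← Equiv.sum_comp e, Fintype.sum_sum_type]
    simp [Matrix.reindex_apply, Matrix.submatrix_apply]

lemma cols_solved (h9 : S_COLS) {m : ℕ} {B : Matrix (Fin m) (Fin m) (RatFunc ℂ)}
    {Y : Matrix (Fin m) (Fin r) F} (hY : LinearIndependent F Y.row)
    (hdY : ∀ i j, d (Y i j) = ∑ l, algebraMap (RatFunc ℂ) F (B i l) * Y l j) :
    ∃ f : Fin m → Fin r, (Y.submatrix id f).det ≠ 0 ∧
      ∀ i j, d ((Y.submatrix id f) i j) =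
        ∑ l, algebraMap (RatFunc ℂ) F (B i l) * (Y.submatrix id f) l j := by
  obtain ⟨f, hf⟩ := h9 F m r Y hY
  exact ⟨f, hf, fun i j => hdY i (f j)⟩

lemma rows_indep {m : ℕ} {Y : Matrix (Fin r) (Fin r) F} (hY : Y.det ≠ 0) (g : Fin m → Fin r)
    (hg : Function.Injective g) : LinearIndependent F (Y.submatrix g id).row := by
  have h1 : LinearIndependent F Y.row := by
    rw [Matrix.linearIndependent_rows_iff_isUnit, Matrix.isUnit_iff_isUnit_det]
    exact isUnit_iff_ne_zero.mpr hY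
  exact h1.comp g hg

lemma map_d_mul {α β γ : Type*} [Fintype β] (M : Matrix α β F) (P : Matrix β γ F) :
    (M * P).map d = M.map d * P + M * P.map d := by
  ext1 i j
  simp only [Matrix.map_apply, Matrix.add_apply, Matrix.mul_apply, map_sum, Derivation.leibniz,
    smul_eq_mul, Finset.sum_add_distrib]
  rw [add_comm]
  congr 1
  exact Finset.sum_congr rfl fun l _ => mul_comm _ _

/-- The rational solution of the inhomogeneous equation. -/
lemma exists_rat (h8 : S_TRACE) [FiniteDimensional (RatFunc ℂ) F] (hd : ExtDdx F d) {r₁ r₂ : ℕ}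
    {A : Matrix (Fin r₁) (Fin r₁) (RatFunc ℂ)} {C : Matrix (Fin r₂) (Fin r₁) (RatFunc ℂ)}
    {D : Matrix (Fin r₂) (Fin r₂) (RatFunc ℂ)} {Z : Matrix (Fin r₁) (Fin r₁) F}
    {V : Matrix (Fin r₂) (Fin r₁) F} (hZ : Z.det ≠ 0)
    (hdZ : Z.map d = A.map (algebraMap (RatFunc ℂ) F) * Z)
    (hdV : V.map d = C.map (algebraMap (RatFunc ℂ) F) * Z +
      D.map (algebraMap (RatFunc ℂ) F) * V) :
    ∃ X : Matrix (Fin r₂) (Fin r₁) (RatFunc ℂ), X.map (W432.PC.ddx ℂ) = C + D * X - X * A := by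
  have hu : IsUnit Z.det := isUnit_iff_ne_zero.mpr hZ
  set ι := algebraMap (RatFunc ℂ) F with hι
  set U : Matrix (Fin r₂) (Fin r₁) F := V * Z⁻¹ with hU
  have e1 : U * Z = V := by rw [hU, Matrix.mul_assoc, Matrix.nonsing_inv_mul _ hu, Matrix.mul_one]
  have e2 : U.map d = C.map ι + D.map ι * U - U * A.map ι := by
    have h1 := map_d_mul (d := d) U Z
    rw [e1, hdZ, hdV] at h1
    have h2 : U.map d * Z = (C.map ι + D.map ι * U - U * A.map ι) * Z := by
      rw [Matrix.sub_mul, Matrix.add_mul, Matrix.mul_assoc (D.map ι), e1, Matrix.mul_assoc U, h1]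
      abel
    have h3 := congrArg (fun M => M * Z⁻¹) h2
    simpa only [Matrix.mul_assoc, Matrix.mul_nonsing_inv _ hu, Matrix.mul_one] using h3
  set m := Module.finrank (RatFunc ℂ) F with hm
  have hm0 : (m : ℂ) ≠ 0 := by
    have : 0 < m := Module.finrank_pos
    exact_mod_cast this.ne'
  refine ⟨Matrix.of fun a b => ((m : ℂ)⁻¹) • Algebra.trace (RatFunc ℂ) F (U a b), ?_⟩
  ext1 a b
  have h1 := congrFun (congrFun e2 a) b
  simp only [Matrix.map_apply, Matrix.add_apply, Matrix.sub_apply, Matrix.mul_apply] at h1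
  simp only [Matrix.map_apply, Matrix.add_apply, Matrix.sub_apply, Matrix.mul_apply,
    Matrix.of_apply]
  rw [Derivation.map_smul, h8 F d hd, h1, map_sub, map_add, Algebra.trace_algebraMap, map_sum, map_sum,
    smul_sub, smul_add, ← hm]
  congr 1
  · congr 1
    · rw [← Nat.cast_smul_eq_nsmul ℂ, smul_smul, inv_mul_cancel₀ hm0, one_smul]
    · rw [Finset.smul_sum]
      refine Finset.sum_congr rfl fun l _ => ?_
      rw [← Algebra.smul_def, map_smul, smul_eq_mul, mul_smul_comm]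
  · rw [Finset.smul_sum]
    refine Finset.sum_congr rfl fun l _ => ?_
    rw [mul_comm (U a l), ← Algebra.smul_def, map_smul, smul_eq_mul, smul_mul_assoc, mul_comm]

/-- The splitting of a reducible system which is solved in a finite extension. -/
lemma SolvedF.split (h8 : S_TRACE) (h9 : S_COLS) [FiniteDimensional (RatFunc ℂ) F]
    (hd : ExtDdx F d) {G : Matrix (Fin r) (Fin r) (RatFunc ℂ)} (hs : SolvedF G F d)
    (hred : BlockTri G) :
    ∃ (r₁ r₂ : ℕ) (e : Fin r₁ ⊕ Fin r₂ ≃ Fin r) (A : Matrix (Fin r₁) (Fin r₁) (RatFunc ℂ))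
      (D : Matrix (Fin r₂) (Fin r₂) (RatFunc ℂ)), 0 < r₁ ∧ 0 < r₂ ∧ SolvedF A F d ∧
      SolvedF D F d ∧ GaugeEq G ((Matrix.fromBlocks A 0 0 D).reindex e e) := by
  obtain ⟨r₁, r₂, e, A, C, D, hr₁, hr₂, hg⟩ := hred
  have hs1 := hs.gauge hd hg
  obtain ⟨Y, hY, hdY⟩ := hs1
  obtain ⟨b1, b2⟩ := block_eq e A C D Y hdY
  set ι := algebraMap (RatFunc ℂ) F with hι
  have hi1 : Function.Injective fun a : Fin r₁ => e (Sum.inl a) :=
    fun a b h => Sum.inl_injective (e.injective h)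
  have hi2 : Function.Injective fun a : Fin r₂ => e (Sum.inr a) :=
    fun a b h => Sum.inr_injective (e.injective h)
  obtain ⟨f, hf, hdf⟩ := cols_solved (d := d) (B := A) h9 (rows_indep hY _ hi1)
    (fun i j => b1 i j)
  set Z := (Y.submatrix (fun a : Fin r₁ => e (Sum.inl a)) id).submatrix id f with hZ
  set V : Matrix (Fin r₂) (Fin r₁) F := Y.submatrix (fun a : Fin r₂ => e (Sum.inr a)) f with hV
  have hdZ : Z.map d = A.map ι * Z := by
    ext1 i j
    rw [Matrix.map_apply, hdf, Matrix.mul_apply]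
    rfl
  have hdV : V.map d = C.map ι * Z + D.map ι * V := by
    ext1 i j
    have := b2 i (f j)
    rw [Matrix.map_apply, Matrix.add_apply, Matrix.mul_apply, Matrix.mul_apply]
    exact this
  obtain ⟨X, hX⟩ := exists_rat h8 hd hf hdZ hdV
  have hg2 : GaugeEq ((Matrix.fromBlocks A 0 C D).reindex e e)
      ((Matrix.fromBlocks A 0 0 D).reindex e e) := by
    rw [gaugeEq_iff]
    refine ⟨(Matrix.fromBlocks (1 : Matrix (Fin r₁) (Fin r₁) (RatFunc ℂ)) 0 (-X) 1).reindex e e,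
      ?_, ?_⟩
    · rw [Matrix.det_reindex_self, Matrix.det_fromBlocks_zero₁₂, Matrix.det_one, Matrix.det_one,
        mul_one]
      exact one_ne_zero
    · have e1 : (Matrix.fromBlocks (1 : Matrix (Fin r₁) (Fin r₁) (RatFunc ℂ)) 0 (-X)
          (1 : Matrix (Fin r₂) (Fin r₂) (RatFunc ℂ))).map (W432.PC.ddx ℂ) =
          Matrix.fromBlocks A 0 0 D * Matrix.fromBlocks 1 0 (-X) 1 -
            Matrix.fromBlocks 1 0 (-X) 1 * Matrix.fromBlocks A 0 C D := by
        rw [Matrix.fromBlocks_multiply, Matrix.fromBlocks_multiply, Matrix.fromBlocks_map,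
          map_ddx_one, map_ddx_one]
        have e2 : (-X).map (W432.PC.ddx ℂ) = -(C + D * X - X * A) := by
          rw [← hX]
          ext1 i j
          simp
        have e3 : (0 : Matrix (Fin r₁) (Fin r₂) (RatFunc ℂ)).map (W432.PC.ddx ℂ) = 0 := by
          ext1 i j
          simp
        rw [e2, e3, sub_eq_add_neg (Matrix.fromBlocks _ _ _ _), Matrix.fromBlocks_neg,
          Matrix.fromBlocks_add]
        congr 1
        · simp
        · simp
        · simp only [Matrix.mul_neg, Matrix.neg_mul, Matrix.one_mul, Matrix.mul_one,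
            Matrix.zero_mul, zero_add, add_zero]
          abel
        · simp
      have e4 : ((Matrix.fromBlocks (1 : Matrix (Fin r₁) (Fin r₁) (RatFunc ℂ)) 0 (-X)
          (1 : Matrix (Fin r₂) (Fin r₂) (RatFunc ℂ))).reindex e e).map (W432.PC.ddx ℂ) =
          ((Matrix.fromBlocks (1 : Matrix (Fin r₁) (Fin r₁) (RatFunc ℂ)) 0 (-X)
          (1 : Matrix (Fin r₂) (Fin r₂) (RatFunc ℂ))).map (W432.PC.ddx ℂ)).reindex e e := rfl
      rw [e4, e1]
      simp only [Matrix.reindex_apply, Matrix.submatrix_mul_equiv, Matrix.submatrix_sub]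
      rfl
  have hg3 := hg.trans hg2
  refine ⟨r₁, r₂, e, A, D, hr₁, hr₂, ⟨Z, hf, hdf⟩, ?_, hg3⟩
  obtain ⟨Y', hY', hdY'⟩ := hs.gauge hd hg3
  obtain ⟨-, b2'⟩ := block_eq e A 0 D Y' hdY'
  obtain ⟨f', hf', hdf'⟩ := cols_solved (d := d) (B := D) h9 (rows_indep hY' _ hi2)
    (fun i j => by
      have := b2' i j
      simp only [Matrix.zero_apply, map_zero, zero_mul, Finset.sum_const_zero, zero_add] at this
      exact this)
  exact ⟨_, hf', hdf'⟩

end split

end Pool.Agent.H925
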