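import Pool.Agent.H925.FinStm2

/-!
# FIN 8: the trace commutes with the derivation (helper340, subtask of helper925)
-/

set_option autoImplicit false

open Finset

namespace Pool.Agent.H340.FinTrace

open Pool.Agent.H925

theorem t_TRACE : S_TRACE := by
  intro F _ _ _ d hd y
  obtain ⟨w⟩ : Nonempty (Module.Basis (Fin (Module.finrank (RatFunc ℂ) F)) (RatFunc ℂ) F) :=
    ⟨Module.finBasis (RatFunc ℂ) F⟩
  have key : ∀ v : F, d v = ∑ j, (W432.PC.ddx ℂ (w.repr v j) • w j + w.repr v j • d (w j)) := by
    intro v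
    conv_lhs => rw [← w.sum_repr v, map_sum]
    refine Finset.sum_congr rfl fun j _ => ?_
    rw [Algebra.smul_def, Derivation.leibniz, hd, smul_eq_mul, smul_eq_mul, Algebra.smul_def,
      Algebra.smul_def]
    ring
  have hB : ∀ (v : F) i, w.repr (d v) i = W432.PC.ddx ℂ (w.repr v i) +
      ∑ j, w.repr v j * w.repr (d (w j)) i := by
    intro v i
    rw [key v, Finset.sum_add_distrib, map_add, Finsupp.add_apply, w.repr_sum_self, map_sum,
      Finsupp.finsetSum_apply]
    congr 1
    refine Finset.sum_congr rfl fun j _ => ?_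
    rw [map_smul, Finsupp.smul_apply, smul_eq_mul]
  have hC : ∀ (v : F) i, w.repr (y * v) i = ∑ j, w.repr v j * w.repr (y * w j) i := by
    intro v i
    conv_lhs => rw [← w.sum_repr v, Finset.mul_sum, map_sum, Finsupp.finsetSum_apply]
    refine Finset.sum_congr rfl fun j _ => ?_
    rw [mul_smul_comm, map_smul, Finsupp.smul_apply, smul_eq_mul]
  have hT : ∀ x : F, Algebra.trace (RatFunc ℂ) F x = ∑ i, w.repr (x * w i) i := by
    intro x
    rw [Algebra.trace_eq_matrix_trace w, Matrix.trace]
    refine Finset.sum_congr rfl fun i _ => ?_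
    rw [Matrix.diag_apply, Algebra.leftMulMatrix_eq_repr_mul]
  have hd1 : ∀ i, w.repr (d y * w i) i = W432.PC.ddx ℂ (w.repr (y * w i) i) +
      ∑ j, w.repr (y * w i) j * w.repr (d (w j)) i -
      ∑ j, w.repr (d (w i)) j * w.repr (y * w j) i := by
    intro i
    have e1 : d y * w i = d (y * w i) - y * d (w i) := by
      rw [Derivation.leibniz, smul_eq_mul, smul_eq_mul]
      ring
    rw [e1, map_sub, Finsupp.sub_apply, hB, hC (d (w i)) i]
  rw [hT, hT, map_sum, Finset.sum_congr rfl fun i _ => hd1 i, Finset.sum_sub_distrib,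
    Finset.sum_add_distrib]
  have e2 : ∑ i, ∑ j, w.repr (d (w i)) j * w.repr (y * w j) i =
      ∑ i, ∑ j, w.repr (y * w i) j * w.repr (d (w j)) i := by
    rw [Finset.sum_comm]
    refine Finset.sum_congr rfl fun i _ => Finset.sum_congr rfl fun j _ => ?_
    rw [mul_comm]
  rw [e2, add_sub_cancel_right]

end Pool.Agent.H340.FinTrace
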