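import Pool.Agent.H925.FinStm2

/-!
# FIN 7: a reducible system is equivalent to a block triangular one
-/

set_option autoImplicit false

open Finset NumberField

namespace Pool.Agent.H356.FinTri

open Pool.Agent.H925

theorem t_TRI : S_TRI := by
  classical
  intro r G hG
  obtain ⟨W, hWb, hWt, hst⟩ := hG
  obtain ⟨W', hc⟩ := Submodule.exists_isCompl W
  have hW'b : W' ≠ ⊥ := by
    intro h
    apply hWt
    have h1 := hc.sup_eq_top
    rw [h, sup_bot_eq] at h1
    exact h1
  let b1 := Module.finBasis (RatFunc ℂ) W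
  let b2 := Module.finBasis (RatFunc ℂ) W'
  let bV : Module.Basis (Fin (Module.finrank (RatFunc ℂ) W) ⊕ Fin (Module.finrank (RatFunc ℂ) W'))
    (RatFunc ℂ) (Fin r → RatFunc ℂ) :=
    (b1.prod b2).map (Submodule.prodEquivOfIsCompl W W' hc)
  have hcard : Fintype.card (Fin (Module.finrank (RatFunc ℂ) W) ⊕
      Fin (Module.finrank (RatFunc ℂ) W')) = Fintype.card (Fin r) := by
    have h1 := Module.finrank_eq_card_basis bV
    rw [Module.finrank_fin_fun] at h1
    rw [← h1, Fintype.card_fin]
  let e := Fintype.equivOfCardEq hcard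
  let b := bV.reindex e
  let B : Matrix (Fin r) (Fin r) (RatFunc ℂ) := fun i j => b i j
  let Dd : Fin r → (Fin r → RatFunc ℂ) := fun i j =>
    W432.PC.ddx ℂ (b i j) + ∑ l, b i l * G l j
  let T : Matrix (Fin r) (Fin r) (RatFunc ℂ) := fun i k => b.repr (Dd i) k
  have hB : B.det ≠ 0 := by
    have h1 : LinearIndependent (RatFunc ℂ) (fun i => B i) := b.linearIndependent
    have h2 : IsUnit B := Matrix.linearIndependent_rows_iff_isUnit.1 h1
    exact ((Matrix.isUnit_iff_isUnit_det B).1 h2).ne_zero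
  have hTB : ∀ i j, (T * B) i j = W432.PC.ddx ℂ (B i j) + (B * G) i j := by
    intro i j
    have h1 := b.sum_repr (Dd i)
    have h2 := congrFun h1 j
    rw [Finset.sum_apply] at h2
    rw [Matrix.mul_apply, Matrix.mul_apply]
    exact h2
  have hzero : ∀ (a : Fin (Module.finrank (RatFunc ℂ) W))
      (c : Fin (Module.finrank (RatFunc ℂ) W')), T (e (Sum.inl a)) (e (Sum.inr c)) = 0 := by
    intro a c
    have h1 : b (e (Sum.inl a)) = (b1 a : Fin r → RatFunc ℂ) := by
      change (bV.reindex e) (e (Sum.inl a)) = _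
      rw [Module.Basis.reindex_apply, Equiv.symm_apply_apply]
      change (b1.prod b2).map (Submodule.prodEquivOfIsCompl W W' hc) (Sum.inl a) = _
      rw [Module.Basis.map_apply, Module.Basis.prod_apply]
      simp
    have h2 : b (e (Sum.inl a)) ∈ W := by rw [h1]; exact (b1 a).2
    have h3 : Dd (e (Sum.inl a)) ∈ W := hst _ h2
    change (bV.reindex e).repr (Dd (e (Sum.inl a))) (e (Sum.inr c)) = 0
    rw [Module.Basis.repr_reindex_apply, Equiv.symm_apply_apply]
    change ((b1.prod b2).map (Submodule.prodEquivOfIsCompl W W' hc)).repr _ (Sum.inr c) = 0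
    rw [Module.Basis.map_repr, LinearEquiv.trans_apply]
    have h4 := Submodule.prodEquivOfIsCompl_symm_apply_left W W' hc ⟨_, h3⟩
    change ((b1.prod b2).repr ((Submodule.prodEquivOfIsCompl W W' hc).symm
      (((⟨Dd (e (Sum.inl a)), h3⟩ : W) : Fin r → RatFunc ℂ)))) (Sum.inr c) = 0
    rw [h4, Module.Basis.prod_repr_inr]
    simp
  refine ⟨Module.finrank (RatFunc ℂ) W, Module.finrank (RatFunc ℂ) W', e,
    (T.submatrix e e).toBlocks₁₁, (T.submatrix e e).toBlocks₂₁, (T.submatrix e e).toBlocks₂₂,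
    ?_, ?_, B, hB, ?_⟩
  · rw [Nat.pos_iff_ne_zero]
    intro h
    exact hWb (Submodule.finrank_eq_zero.1 h)
  · rw [Nat.pos_iff_ne_zero]
    intro h
    exact hW'b (Submodule.finrank_eq_zero.1 h)
  · intro i j
    have h12 : (T.submatrix e e).toBlocks₁₂ = 0 := by
      ext a c
      exact hzero a c
    have hT : (Matrix.fromBlocks (T.submatrix e e).toBlocks₁₁ 0 (T.submatrix e e).toBlocks₂₁
        (T.submatrix e e).toBlocks₂₂).reindex e e = T := by
      rw [← h12, Matrix.fromBlocks_toBlocks]
      ext i j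
      simp
    rw [hT, Matrix.sub_apply, hTB]
    ring

end Pool.Agent.H356.FinTri
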