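import Pool.Agent.H925.FinDefs2
import Pool.Agent.H925.FinSplit
import Pool.Agent.H925.FinTri
import Pool.Agent.H925.FinTrace
import Pool.Agent.H925.FinCols
import Pool.Agent.H925.FinFam

set_option autoImplicit false

open Finset NumberField

namespace Pool.Agent.H925

open Pool.Agent.Helper338PC

/-- One finite list of irreducible systems generates all the systems which are solved in `F`. -/
lemma exists_list (h4 : S_RATEQ) (h7 : S_TRI) (h8 : S_TRACE) (h9 : S_COLS) (F : Type) [Field F]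
    [Algebra (RatFunc ℂ) F] [FiniteDimensional (RatFunc ℂ) F] (d : Derivation ℤ F F)
    (hd : ExtDdx F d) : ∃ 𝒢 : Set (Σ m : ℕ, Matrix (Fin m) (Fin m) (RatFunc ℂ)), 𝒢.Finite ∧
      (∀ s ∈ 𝒢, 0 < s.1 ∧ s.1 ≤ Module.finrank (RatFunc ℂ) F ∧ ¬ BlockTri s.2 ∧
        SolvedF s.2 F d) ∧
      ∀ (r : ℕ) (G : Matrix (Fin r) (Fin r) (RatFunc ℂ)), SolvedF G F d → SumOf 𝒢 r G := by
  classical
  choose 𝒢 hfin hsol hG using h4 F d hd
  refine ⟨⋃ r ∈ Set.Iic (Module.finrank (RatFunc ℂ) F),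
    (Sigma.mk r) '' {G | G ∈ 𝒢 r ∧ 0 < r ∧ ¬ BlockTri G}, ?_, ?_, ?_⟩
  · exact (Set.finite_Iic _).biUnion fun r _ => ((hfin r).subset fun G h => h.1).image _
  · intro s hs
    rw [Set.mem_iUnion₂] at hs
    obtain ⟨r, hr, G, ⟨h1, h2, h3⟩, rfl⟩ := hs
    exact ⟨h2, hr, h3, hsol r G h1⟩
  · intro r
    induction r using Nat.strong_induction_on with
    | _ r ih =>
      intro G hs
      rcases Nat.eq_zero_or_pos r with h0 | h0
      · subst h0
        exact SumOf.zero G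
      · by_cases hred : BlockTri G
        · obtain ⟨r₁, r₂, e, A, D, hr₁, hr₂, hA, hD, hg⟩ := hs.split h8 h9 hd hred
          have hc : r₁ + r₂ = r := by
            have := Fintype.card_congr e
            simpa using this
          exact SumOf.gauge _ _ (SumOf.add e A D (ih r₁ (by omega) A hA) (ih r₂ (by omega) D hD))
            hg.symm
        · obtain ⟨G₀, hG₀, H, hdet, hH⟩ := hG r G hs
          have hg : GaugeEq G G₀ := ⟨H, hdet, hH⟩
          have hr : r ≤ Module.finrank (RatFunc ℂ) F := by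
            by_contra hlt
            exact hred (h7 r G (hs.red hd (not_le.mp hlt)))
          refine SumOf.gauge G₀ G (SumOf.of ⟨r, G₀⟩ ?_) hg.symm
          rw [Set.mem_iUnion₂]
          refine ⟨r, hr, G₀, ⟨hG₀, h0, fun h => hred ?_⟩, rfl⟩
          obtain ⟨r₁, r₂, e, A, C, D, hr₁, hr₂, hg'⟩ := h
          exact ⟨r₁, r₂, e, A, C, D, hr₁, hr₂, hg.trans hg'⟩

theorem rateq : S_RATEQ :=
  Pool.Agent.H39.FinRatEq.t_RATEQ Pool.Agent.H327.FinGal.t_GAL
      Pool.Agent.H998.FinConst.t_CONST Pool.Agent.H710.t_REP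

theorem finiteSimpleFree {n N k : ℕ} {ε : ℝ} (h : FreeSolved n N k ε) :
    FiniteSimpleFree n N k ε := by
  obtain ⟨M, hM⟩ := h
  refine ⟨M, fun E hE => ?_⟩
  obtain ⟨F, i1, i2, d, hfd, hfr, hd, hF⟩ := hM E hE
  obtain ⟨𝒢, hfin, hG, hS⟩ := exists_list rateq Pool.Agent.H356.FinTri.t_TRI
    Pool.Agent.H340.FinTrace.t_TRACE Pool.Agent.H684.t_COLS F d hd
  exact ⟨𝒢, hfin, fun s hs => ⟨(hG s hs).1, (hG s hs).2.1.trans hfr, (hG s hs).2.2.1,
    F, i1, i2, d, hfd, hd, (hG s hs).2.2.2⟩, fun K _ _ φ r b C hC =>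
      hS r _ (hF K φ r b C ⟨hC.lt, hC.card, hC.good⟩)⟩

theorem finiteSimple {n n₁ n₂ N k : ℕ} {ε : ℝ} (h : IntegralSolved n n₁ n₂ N k ε) :
    FiniteSimple n n₁ n₂ N k ε := by
  obtain ⟨M, hM⟩ := h
  refine ⟨M, fun E hE => ?_⟩
  obtain ⟨F, i1, i2, d, hfd, hfr, hd, hF⟩ := hM E hE
  obtain ⟨𝒢, hfin, hG, hS⟩ := exists_list rateq Pool.Agent.H356.FinTri.t_TRI
    Pool.Agent.H340.FinTrace.t_TRACE Pool.Agent.H684.t_COLS F d hd
  exact ⟨𝒢, hfin, fun s hs => ⟨(hG s hs).1, (hG s hs).2.1.trans hfr, (hG s hs).2.2.1,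
    F, i1, i2, d, hfd, hd, (hG s hs).2.2.2⟩, fun K _ _ φ r b C hC =>
      hS r _ (hF K φ r b C ⟨hC.all.lt, hC.all.card, hC.one, hC.inf, hC.all.good⟩)⟩

end Pool.Agent.H925
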