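import Pool.Agent.H925.Fin
import Pool.Agent.H925.FinStm2

set_option autoImplicit false

open Finset NumberField

namespace Pool.Agent.H925

open Pool.Agent.Helper338PC

section gauge

variable {r : ℕ}

lemma gaugeEq_iff {G₁ G₂ : Matrix (Fin r) (Fin r) (RatFunc ℂ)} :
    GaugeEq G₁ G₂ ↔ ∃ H : Matrix (Fin r) (Fin r) (RatFunc ℂ), H.det ≠ 0 ∧
      H.map (W432.PC.ddx ℂ) = G₂ * H - H * G₁ := by
  constructor
  · rintro ⟨H, h1, h2⟩
    exact ⟨H, h1, by ext1 i j; exact h2 i j⟩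
  · rintro ⟨H, h1, h2⟩
    exact ⟨H, h1, fun i j => congrFun (congrFun h2 i) j⟩

lemma map_ddx_one : (1 : Matrix (Fin r) (Fin r) (RatFunc ℂ)).map (W432.PC.ddx ℂ) = 0 := by
  ext1 i j
  rw [Matrix.map_apply, Matrix.one_apply]
  split_ifs <;> simp

lemma GaugeEq.refl (G : Matrix (Fin r) (Fin r) (RatFunc ℂ)) : GaugeEq G G := by
  rw [gaugeEq_iff]
  exact ⟨1, by simp, by rw [map_ddx_one, mul_one, one_mul, sub_self]⟩

lemma GaugeEq.trans {G₁ G₂ G₃ : Matrix (Fin r) (Fin r) (RatFunc ℂ)} (h : GaugeEq G₁ G₂)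
    (h' : GaugeEq G₂ G₃) : GaugeEq G₁ G₃ := by
  rw [gaugeEq_iff] at h h' ⊢
  obtain ⟨H, h1, h2⟩ := h
  obtain ⟨H', h1', h2'⟩ := h'
  refine ⟨H' * H, by rw [Matrix.det_mul]; exact mul_ne_zero h1' h1, ?_⟩
  rw [map_ddx_mul, h2, h2', sub_mul, mul_sub, mul_assoc, mul_assoc, mul_assoc]
  abel

lemma GaugeEq.symm {G₁ G₂ : Matrix (Fin r) (Fin r) (RatFunc ℂ)} (h : GaugeEq G₁ G₂) :
    GaugeEq G₂ G₁ := by
  obtain ⟨H, h1, h2⟩ := h
  have h3 : ∀ i j, W432.PC.ddx ℂ ((1 : Matrix (Fin r) (Fin r) (RatFunc ℂ)) i j) =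
      (G₂ * 1 - 1 * G₂ : Matrix (Fin r) (Fin r) (RatFunc ℂ)) i j := by
    intro i j
    have := congrFun (congrFun (map_ddx_one (r := r)) i) j
    rw [Matrix.map_apply] at this
    rw [this, mul_one, one_mul, sub_self]
  have h4 := gauge_quot h1 h3 h2
  rw [mul_one] at h4
  refine ⟨H⁻¹, ?_, h4⟩
  rw [Matrix.det_nonsing_inv, Ring.inverse_eq_inv']
  exact inv_ne_zero h1

/-- The image of a stable space of row vectors. -/
lemma RedSystem.of_gauge {G₁ G₂ : Matrix (Fin r) (Fin r) (RatFunc ℂ)} (h : GaugeEq G₁ G₂)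
    (h2 : RedSystem G₂) : RedSystem G₁ := by
  rw [gaugeEq_iff] at h
  obtain ⟨H, hdet, hH⟩ := h
  obtain ⟨W, hb, ht, hW⟩ := h2
  have hu : IsUnit H.det := isUnit_iff_ne_zero.mpr hdet
  let φ : (Fin r → RatFunc ℂ) →ₗ[RatFunc ℂ] (Fin r → RatFunc ℂ) := Matrix.vecMulLinear H
  let ψ : (Fin r → RatFunc ℂ) →ₗ[RatFunc ℂ] (Fin r → RatFunc ℂ) := Matrix.vecMulLinear H⁻¹
  have hφ : ∀ v, φ v = Matrix.vecMul v H := fun v => rfl
  have hψ : ∀ v, ψ v = Matrix.vecMul v H⁻¹ := fun v => rfl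
  have h1 : ∀ v, ψ (φ v) = v := fun v => by
    rw [hφ, hψ, Matrix.vecMul_vecMul, Matrix.mul_nonsing_inv _ hu, Matrix.vecMul_one]
  have h2 : ∀ v, φ (ψ v) = v := fun v => by
    rw [hφ, hψ, Matrix.vecMul_vecMul, Matrix.nonsing_inv_mul _ hu, Matrix.vecMul_one]
  refine ⟨W.map φ, ?_, ?_, ?_⟩
  · intro h0
    apply hb
    rw [Submodule.eq_bot_iff]
    intro v hv
    have h3 : φ v ∈ (⊥ : Submodule (RatFunc ℂ) (Fin r → RatFunc ℂ)) := by
      rw [← h0]
      exact Submodule.mem_map_of_mem hv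
    rw [Submodule.mem_bot] at h3
    rw [← h1 v, h3, map_zero]
  · intro h0
    apply ht
    rw [Submodule.eq_top_iff']
    intro v
    have h3 : φ v ∈ W.map φ := by
      rw [h0]
      exact Submodule.mem_top
    obtain ⟨u, hu, he⟩ := h3
    have h4 := congrArg ψ he
    rw [h1, h1] at h4
    rwa [← h4]
  · rintro _ ⟨v, hv, rfl⟩
    refine ⟨_, hW v hv, ?_⟩
    funext j
    rw [hφ, hφ]
    have e1 : ∀ i, W432.PC.ddx ℂ (H i j) = ∑ l, G₂ i l * H l j - ∑ l, H i l * G₁ l j := by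
      intro i
      have := congrFun (congrFun hH i) j
      simpa only [Matrix.map_apply, Matrix.sub_apply, Matrix.mul_apply] using this
    simp only [Matrix.vecMul, dotProduct, map_sum, Derivation.leibniz, smul_eq_mul, e1]
    simp only [add_mul, Finset.sum_mul, Finset.mul_sum, mul_sub, Finset.sum_add_distrib,
      Finset.sum_sub_distrib]
    have e2 : ∑ x, ∑ i, v x * (G₂ x i * H i j) = ∑ x, ∑ i, v i * G₂ i x * H x j := by
      rw [Finset.sum_comm]
      exact Finset.sum_congr rfl fun _ _ => Finset.sum_congr rfl fun _ _ => by ring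
    have e3 : ∑ x, ∑ i, v x * (H x i * G₁ i j) = ∑ x, ∑ i, v i * H i x * G₁ x j := by
      rw [Finset.sum_comm]
      exact Finset.sum_congr rfl fun _ _ => Finset.sum_congr rfl fun _ _ => by ring
    rw [e2, e3]
    have e4 : ∑ x, H x j * W432.PC.ddx ℂ (v x) = ∑ x, W432.PC.ddx ℂ (v x) * H x j :=
      Finset.sum_congr rfl fun _ _ => mul_comm _ _
    rw [e4]
    ring

end gauge

section solved

variable {r : ℕ} {F : Type} [Field F] [Algebra (RatFunc ℂ) F] {d : Derivation ℤ F F}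

lemma SolvedF.gauge (hd : ExtDdx F d) {G₁ G₂ : Matrix (Fin r) (Fin r) (RatFunc ℂ)}
    (hs : SolvedF G₁ F d) (h : GaugeEq G₁ G₂) : SolvedF G₂ F d := by
  rw [gaugeEq_iff] at h
  obtain ⟨H, hdet, hH⟩ := h
  obtain ⟨Y, hY, hdY⟩ := hs
  set ι := algebraMap (RatFunc ℂ) F with hι
  have e1 : Y.map d = ι.mapMatrix G₁ * Y := by
    ext1 i j
    rw [Matrix.map_apply, hdY, Matrix.mul_apply]
    rfl
  refine ⟨ι.mapMatrix H * Y, ?_, ?_⟩
  · rw [Matrix.det_mul, ← RingHom.map_det]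
    exact mul_ne_zero (fun h0 => hdet ((map_eq_zero_iff _ ι.injective).mp h0)) hY
  · have e3 : (ι.mapMatrix H * Y).map d =
        ι.mapMatrix (H.map (W432.PC.ddx ℂ)) * Y + ι.mapMatrix H * Y.map d := by
      ext1 i j
      rw [Matrix.map_apply, Matrix.add_apply, Matrix.mul_apply, Matrix.mul_apply,
        Matrix.mul_apply, map_sum, ← Finset.sum_add_distrib]
      refine Finset.sum_congr rfl fun l _ => ?_
      rw [Derivation.leibniz, smul_eq_mul, smul_eq_mul, Matrix.map_apply]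
      have h1 : d ((ι.mapMatrix H) i l) = (ι.mapMatrix (H.map (W432.PC.ddx ℂ))) i l := hd (H i l)
      rw [h1]
      ring
    have e4 : (ι.mapMatrix H * Y).map d = ι.mapMatrix G₂ * (ι.mapMatrix H * Y) := by
      rw [e3, e1, hH, map_sub, map_mul, map_mul, sub_mul, mul_assoc, mul_assoc]
      abel
    intro i j
    have e5 := congrFun (congrFun e4 i) j
    rw [Matrix.map_apply] at e5
    rw [e5, Matrix.mul_apply]
    rfl

/-- An irreducible system which is solved in `F` has rank at most the degree of `F`. -/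
lemma SolvedF.red [FiniteDimensional (RatFunc ℂ) F] (hd : ExtDdx F d)
    {G : Matrix (Fin r) (Fin r) (RatFunc ℂ)} (hs : SolvedF G F d)
    (hr : Module.finrank (RatFunc ℂ) F < r) : RedSystem G := by
  obtain ⟨Y, hY, hdY⟩ := hs
  have hr0 : 0 < r := by omega
  let j0 : Fin r := ⟨0, hr0⟩
  let T : (Fin r → RatFunc ℂ) →ₗ[RatFunc ℂ] F :=
    { toFun := fun v => ∑ i, v i • Y i j0
      map_add' := fun u v => by
        simp only [Pi.add_apply, add_smul, Finset.sum_add_distrib]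
      map_smul' := fun c v => by
        simp only [Pi.smul_apply, smul_eq_mul, mul_smul, Finset.smul_sum, RingHom.id_apply] }
  have hT : ∀ v, T v = ∑ i, v i • Y i j0 := fun v => rfl
  refine ⟨LinearMap.ker T, ?_, ?_, ?_⟩
  · refine LinearMap.ker_ne_bot_of_finrank_lt ?_
    rwa [Module.finrank_fin_fun]
  · intro h0
    apply hY
    refine Matrix.det_eq_zero_of_column_eq_zero j0 fun i => ?_
    have h1 : (Pi.single i 1 : Fin r → RatFunc ℂ) ∈ LinearMap.ker T := by
      rw [h0]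
      exact Submodule.mem_top
    rw [LinearMap.mem_ker, hT] at h1
    rw [Finset.sum_eq_single i] at h1
    · simpa using h1
    · intro l _ hl
      rw [Pi.single_eq_of_ne hl, zero_smul]
    · intro h
      exact absurd (Finset.mem_univ i) h
  · intro v hv
    rw [LinearMap.mem_ker, hT] at hv ⊢
    have h1 := congrArg d hv
    rw [map_zero, map_sum] at h1
    rw [← h1]
    have e1 : ∀ i, d (v i • Y i j0) = (W432.PC.ddx ℂ (v i)) • Y i j0 +
        ∑ l, (v i * G i l) • Y l j0 := by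
      intro i
      rw [Algebra.smul_def, Derivation.leibniz, hd, smul_eq_mul, smul_eq_mul, hdY, Finset.mul_sum,
        Algebra.smul_def, add_comm]
      congr 1
      · rw [mul_comm]
      · refine Finset.sum_congr rfl fun l _ => ?_
        rw [Algebra.smul_def, map_mul, mul_assoc]
    rw [Finset.sum_congr rfl fun i _ => e1 i, Finset.sum_add_distrib]
    simp only [add_smul, Finset.sum_add_distrib, Finset.sum_smul]
    congr 1
    exact Finset.sum_comm

end solved

end Pool.Agent.H925
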