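import Pool.Agent.H925.Glue
import Pool.Agent.H925.TriPull

set_option autoImplicit false

open PowerSeries Finset

namespace Pool.Agent.H925

open Pool.Agent.Helper338PC (th coeff_th th_mul' th_add' th_sum' th_C th_one)

section hom

/-- Homogeneous polynomials. -/
lemma hom_conv {S W Φ : PowerSeries ℂ} (hS : CConv S) (hW : CConv W) (hΦ : W * Φ = S)
    {p : Polynomial ℂ} {d : ℕ} (hd : p.natDegree ≤ d) :
    CConv (W ^ d * Polynomial.aeval Φ p) := by
  rw [Polynomial.aeval_eq_sum_range' (Nat.lt_succ_of_le hd), Finset.mul_sum]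
  refine CConv.sum _ fun i hi => ?_
  have hi' : i ≤ d := Nat.lt_succ_iff.mp (Finset.mem_range.mp hi)
  have e1 : W ^ d * (p.coeff i • Φ ^ i) = PowerSeries.C (p.coeff i) * (S ^ i * W ^ (d - i)) := by
    have e2 : W ^ d = W ^ i * W ^ (d - i) := by
      rw [← pow_add]
      congr 1
      omega
    rw [PowerSeries.smul_eq_C_mul, ← hΦ, mul_pow, e2]
    ring
  rw [e1]
  exact (CConv.C _).mul ((hS.pow _).mul (hW.pow _))

lemma CL_aeval {S W Φ : PowerSeries ℂ} (hS : CConv S) (hW : CConv W) (hΦ : W * Φ = S)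
    (p : Polynomial ℂ) : CL W (Polynomial.aeval Φ p) :=
  ⟨p.natDegree, hom_conv hS hW hΦ le_rfl⟩

end hom

section frames

variable {idx : Type} [Fintype idx] [DecidableEq idx]

omit [DecidableEq idx] in
lemma app_sub (M : Matrix idx idx ℂ) (F G : idx → PowerSeries ℂ) (i : idx) :
    app M (fun l => F l - G l) i = app M F i - app M G i := by
  unfold app
  rw [← Finset.sum_sub_distrib]
  exact Finset.sum_congr rfl fun l _ => by ring

/-- The frame at the zeros of `s`. -/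
theorem frameX {n₀ n₂ : ℕ} {s w S V W lam d : PowerSeries ℂ} (hs : CConv s) (hw : CConv w)
    (hs0 : s ≠ 0) (hS : S = s ^ (n₀ + 1)) (hW : W = w ^ (n₂ + 1)) (hSVW : S + V = W)
    (hlam : lam = ((n₀ + 1 : ℕ) : PowerSeries ℂ) * w * th s -
      ((n₂ + 1 : ℕ) : PowerSeries ℂ) * s * th w) (hd : CConv d)
    {B : Matrix idx idx ℂ} {P : Fin (n₀ + 1) → Matrix idx idx ℂ} (hP : Spec (n₀ + 1) B P)
    {N : Submodule cR (PowerSeries ℂ)} {hVW : CConv (V * W)} {G R : idx → PowerSeries ℂ}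
    (hR : ∀ i, R i ∈ satM N hVW)
    (hG : ∀ i, s * w * V * th (G i) = lam * W * app B G i - lam * S * (d * R i))
    {j : Fin (n₀ + 1)} {X : idx → PowerSeries ℂ} (hX : ∀ i, app (P j) G i = s ^ (j : ℕ) * X i)
    (hXN : ∀ i, X i ∈ satM N hVW) (i : idx) : th (X i) ∈ satM N hVW := by
  have hnC : ((n₀ + 1 : ℕ) : ℂ) ≠ 0 := by exact_mod_cast Nat.succ_ne_zero n₀
  have hjn : (j : ℕ) ≤ n₀ := Nat.lt_succ_iff.mp j.2
  have e1 : s * w * V * (th (s ^ (j : ℕ)) * X i + s ^ (j : ℕ) * th (X i)) =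
      lam * W * (PowerSeries.C ((j : ℕ) / ((n₀ + 1 : ℕ) : ℂ)) * (s ^ (j : ℕ) * X i)) -
        lam * S * (d * app (P j) R i) := by
    rw [← th_mul', ← hX i, app_th, ← app_mul]
    have e2 : (fun l => s * w * V * th (G l)) = fun l => (lam * W) * app B G l -
        (lam * S * d) * R l := by
      funext l
      rw [hG l]
      ring
    rw [e2, app_sub, app_mul, app_mul, app_app, hP.left_mul, app_smul, hX]
    ring
  have e2 := th_pow' s (j : ℕ)
  have e3 : ((n₀ + 1 : ℕ) : PowerSeries ℂ) * PowerSeries.C ((j : ℕ) / ((n₀ + 1 : ℕ) : ℂ)) =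
      ((j : ℕ) : PowerSeries ℂ) := by
    have : ((n₀ + 1 : ℕ) : PowerSeries ℂ) = PowerSeries.C ((n₀ + 1 : ℕ) : ℂ) :=
      (map_natCast _ _).symm
    rw [this, ← map_mul, mul_div_cancel₀ _ hnC, map_natCast]
  have e4 : s ^ (n₀ + 1) = s ^ ((j : ℕ) + 1) * s ^ (n₀ - (j : ℕ)) := by
    rw [← pow_add]
    congr 1
    omega
  have key : w * V * th (X i) = (((j : ℕ) : PowerSeries ℂ) * w * th s * s ^ n₀ -
      PowerSeries.C ((j : ℕ) / ((n₀ + 1 : ℕ) : ℂ)) * ((n₂ + 1 : ℕ) : PowerSeries ℂ) *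
        th w * W) * X i - (lam * s ^ (n₀ - (j : ℕ)) * d) * app (P j) R i := by
    apply mul_left_cancel₀ (pow_ne_zero ((j : ℕ) + 1) hs0)
    have e5 : S = s * s ^ n₀ := by rw [hS, pow_succ']
    have e6 : S = s ^ ((j : ℕ) + 1) * s ^ (n₀ - (j : ℕ)) := by rw [hS, e4]
    have e7 : s ^ ((j : ℕ) + 1) = s * s ^ (j : ℕ) := pow_succ' _ _
    have e8 : lam * S * (d * app (P j) R i) = lam * (s ^ ((j : ℕ) + 1) *
        s ^ (n₀ - (j : ℕ))) * (d * app (P j) R i) := by rw [← e6]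
    rw [e8] at e1
    rw [e7] at e1 ⊢
    have e9 : lam * W * (PowerSeries.C ((j : ℕ) / ((n₀ + 1 : ℕ) : ℂ)) * (s ^ (j : ℕ) * X i)) =
        (((j : ℕ) : PowerSeries ℂ) * w * th s * W - PowerSeries.C ((j : ℕ) / ((n₀ + 1 : ℕ) : ℂ)) *
          ((n₂ + 1 : ℕ) : PowerSeries ℂ) * s * th w * W) * (s ^ (j : ℕ) * X i) := by
      rw [hlam]
      linear_combination (w * th s * W * (s ^ (j : ℕ) * X i)) * e3
    rw [e9] at e1
    linear_combination e1 - (w * V * X i) * e2 -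
      (((j : ℕ) : PowerSeries ℂ) * w * th s * (s ^ (j : ℕ) * X i)) * hSVW +
      (((j : ℕ) : PowerSeries ℂ) * w * th s * (s ^ (j : ℕ) * X i)) * e5
  have hlamC : CConv lam := by
    rw [hlam]
    exact (((CConv.natCast _).mul hw).mul hs.th).sub (((CConv.natCast _).mul hs).mul hw.th)
  have hWC : CConv W := by rw [hW]; exact hw.pow _
  have h1 : w * V * th (X i) ∈ satM N hVW := by
    rw [key]
    refine sub_mem (cmul_mem ?_ (hXN i)) (cmul_mem ?_ (app_mem _ hR i))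
    · exact ((((CConv.natCast _).mul hw).mul hs.th).mul (hs.pow _)).sub
        ((((CConv.C _).mul (CConv.natCast _)).mul hw.th).mul hWC)
    · exact (hlamC.mul (hs.pow _)).mul hd
  refine satM_of_mul (u := V * W) (v := 1) (mul_one _) CConv.one (k := 1) ?_
  have e5 : (V * W) ^ 1 * th (X i) = w ^ n₂ * (w * V * th (X i)) := by
    rw [hW, pow_one, pow_succ']
    ring
  rw [e5]
  exact cmul_mem (hw.pow _) h1

/-- The frame at the zeros of `v`. -/
theorem frameY {n₀ n₁ n₂ : ℕ} {s v w S W lam nu d : PowerSeries ℂ} (hs : CConv s)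
    (hv : CConv v) (hw : CConv w)
    (hv0 : v ≠ 0) (hS : S = s ^ (n₀ + 1)) (hW : W = w ^ (n₂ + 1))
    (hlam : lam = ((n₀ + 1 : ℕ) : PowerSeries ℂ) * w * th s -
      ((n₂ + 1 : ℕ) : PowerSeries ℂ) * s * th w)
    (hnu : nu = ((n₁ + 1 : ℕ) : PowerSeries ℂ) * w * th v -
      ((n₂ + 1 : ℕ) : PowerSeries ℂ) * v * th w) (hln : lam * s ^ n₀ = -(nu * v ^ n₁))
    (hd : CConv d)
    {C : Matrix idx idx ℂ} {Q : Fin (n₁ + 1) → Matrix idx idx ℂ} (hQ : Spec (n₁ + 1) C Q)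
    {N : Submodule cR (PowerSeries ℂ)} {hSW : CConv (S * W)} {G R : idx → PowerSeries ℂ}
    (hR : ∀ i, R i ∈ satM N hSW)
    (hG : ∀ i, s * v * w * th (G i) = (s * nu - v * lam) * app C G i + v * lam * (d * R i))
    {j : Fin (n₁ + 1)} {Y : idx → PowerSeries ℂ} (hY : ∀ i, app (Q j) G i = v ^ (j : ℕ) * Y i)
    (hYN : ∀ i, Y i ∈ satM N hSW) (i : idx) : th (Y i) ∈ satM N hSW := by
  have hnC : ((n₁ + 1 : ℕ) : ℂ) ≠ 0 := by exact_mod_cast Nat.succ_ne_zero n₁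
  have hjn : (j : ℕ) ≤ n₁ := Nat.lt_succ_iff.mp j.2
  have e1 : s * v * w * (th (v ^ (j : ℕ)) * Y i + v ^ (j : ℕ) * th (Y i)) =
      (s * nu - v * lam) * (PowerSeries.C ((j : ℕ) / ((n₁ + 1 : ℕ) : ℂ)) *
        (v ^ (j : ℕ) * Y i)) + v * lam * (d * app (Q j) R i) := by
    rw [← th_mul', ← hY i, app_th, ← app_mul]
    have e2 : (fun l => s * v * w * th (G l)) = fun l => (s * nu - v * lam) * app C G l +
        (v * lam * d) * R l := by
      funext l
      rw [hG l]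
      ring
    rw [e2, app_add, app_mul, app_mul, app_app, hQ.left_mul, app_smul, hY]
    ring
  have e2 := th_pow' v (j : ℕ)
  have e3 : ((n₁ + 1 : ℕ) : PowerSeries ℂ) * PowerSeries.C ((j : ℕ) / ((n₁ + 1 : ℕ) : ℂ)) =
      ((j : ℕ) : PowerSeries ℂ) := by
    have : ((n₁ + 1 : ℕ) : PowerSeries ℂ) = PowerSeries.C ((n₁ + 1 : ℕ) : ℂ) :=
      (map_natCast _ _).symm
    rw [this, ← map_mul, mul_div_cancel₀ _ hnC, map_natCast]
  have e4 : v * v ^ n₁ = (v * v ^ (j : ℕ)) * v ^ (n₁ - (j : ℕ)) := by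
    rw [mul_assoc, ← pow_add]
    congr 2
    omega
  have key : S * w * th (Y i) = (-(PowerSeries.C ((j : ℕ) / ((n₁ + 1 : ℕ) : ℂ)) *
      ((n₀ + 1 : ℕ) : PowerSeries ℂ) * w * th s * s ^ n₀)) * Y i +
        (-(nu * v ^ (n₁ - (j : ℕ)) * d)) * app (Q j) R i := by
    apply mul_left_cancel₀ (mul_ne_zero hv0 (pow_ne_zero (j : ℕ) hv0))
    have e5 : S = s * s ^ n₀ := by rw [hS, pow_succ']
    -- the equation without the power of `s`
    have e6 : s * w * ((v * v ^ (j : ℕ)) * th (Y i)) =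
        -(PowerSeries.C ((j : ℕ) / ((n₁ + 1 : ℕ) : ℂ)) * ((n₀ + 1 : ℕ) : PowerSeries ℂ) *
          w * th s * ((v * v ^ (j : ℕ)) * Y i)) + v * lam * (d * app (Q j) R i) := by
      rw [hlam, hnu] at e1
      rw [hlam]
      linear_combination e1 - (s * w * Y i) * e2 +
        (s * w * th v * (v ^ (j : ℕ) * Y i)) * e3
    rw [e5]
    linear_combination (s ^ n₀) * e6 + (v * (d * app (Q j) R i)) * hln -
      (nu * (d * app (Q j) R i)) * e4
  have hnuC : CConv nu := by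
    rw [hnu]
    exact (((CConv.natCast _).mul hw).mul hv.th).sub (((CConv.natCast _).mul hv).mul hw.th)
  have h1 : S * w * th (Y i) ∈ satM N hSW := by
    rw [key]
    refine add_mem (cmul_mem ?_ (hYN i)) (cmul_mem ?_ (app_mem _ hR i))
    · exact (((((CConv.C _).mul (CConv.natCast _)).mul hw).mul hs.th).mul (hs.pow _)).neg
    · exact ((hnuC.mul (hv.pow _)).mul hd).neg
  refine satM_of_mul (u := S * W) (v := 1) (mul_one _) CConv.one (k := 1) ?_
  have e5 : (S * W) ^ 1 * th (Y i) = w ^ n₂ * (S * w * th (Y i)) := by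
    rw [hW, pow_one, pow_succ']
    ring
  rw [e5]
  exact cmul_mem (hw.pow _) h1

/-- The frame at the zeros of `w`. -/
theorem frameZ {n₀ n₂ m : ℕ} {s w S V W lam d : PowerSeries ℂ} (hs : CConv s)
    (hw : CConv w) (hVC : CConv V)
    (hw0 : w ≠ 0) (hS : S = s ^ (n₀ + 1)) (hW : W = w ^ (n₂ + 1)) (hSVW : S + V = W)
    (hlam : lam = ((n₀ + 1 : ℕ) : PowerSeries ℂ) * w * th s -
      ((n₂ + 1 : ℕ) : PowerSeries ℂ) * s * th w) (hd : CConv d)
    {E : Matrix idx idx ℂ} {T : Fin (n₂ + 1) → Matrix idx idx ℂ} (hT : Spec (n₂ + 1) E T)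
    {N : Submodule cR (PowerSeries ℂ)} {hSV : CConv (S * V)} {H R : idx → PowerSeries ℂ}
    (hR : ∀ i, R i ∈ satM N hSV) {g : PowerSeries ℂ} (hgC : CConv g)
    (hH : ∀ i, S ^ m * (V * s * w) * th (H i) = lam * S ^ (m + 1) * app E H i -
      lam * W * (d * R i) + S ^ m * w * g * H i)
    {j : Fin (n₂ + 1)} {Z : idx → PowerSeries ℂ} (hZ : ∀ i, app (T j) H i = w ^ (j : ℕ) * Z i)
    (hZN : ∀ i, Z i ∈ satM N hSV) (i : idx) : th (Z i) ∈ satM N hSV := by
  have hnC : ((n₂ + 1 : ℕ) : ℂ) ≠ 0 := by exact_mod_cast Nat.succ_ne_zero n₂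
  have hjn : (j : ℕ) ≤ n₂ := Nat.lt_succ_iff.mp j.2
  have e1 : S ^ m * (V * s * w) * (th (w ^ (j : ℕ)) * Z i + w ^ (j : ℕ) * th (Z i)) =
      lam * S ^ (m + 1) * (PowerSeries.C ((j : ℕ) / ((n₂ + 1 : ℕ) : ℂ)) *
        (w ^ (j : ℕ) * Z i)) - lam * W * (d * app (T j) R i) +
          S ^ m * w * g * (w ^ (j : ℕ) * Z i) := by
    rw [← th_mul', ← hZ i, app_th, ← app_mul]
    have e2 : (fun l => S ^ m * (V * s * w) * th (H l)) = fun l =>
        ((lam * S ^ (m + 1)) * app E H l - (lam * W * d) * R l) + (S ^ m * w * g) * H l := by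
      funext l
      rw [hH l]
      ring
    rw [e2, app_add, app_sub, app_mul, app_mul, app_mul, app_app, hT.left_mul, app_smul, hZ]
    ring
  have e2 := th_pow' w (j : ℕ)
  have e3 : ((n₂ + 1 : ℕ) : PowerSeries ℂ) * PowerSeries.C ((j : ℕ) / ((n₂ + 1 : ℕ) : ℂ)) =
      ((j : ℕ) : PowerSeries ℂ) := by
    have : ((n₂ + 1 : ℕ) : PowerSeries ℂ) = PowerSeries.C ((n₂ + 1 : ℕ) : ℂ) :=
      (map_natCast _ _).symm
    rw [this, ← map_mul, mul_div_cancel₀ _ hnC, map_natCast]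
  have e4 : W = (w * w ^ (j : ℕ)) * w ^ (n₂ - (j : ℕ)) := by
    rw [hW, mul_assoc, ← pow_add, ← pow_succ']
    congr 1
    omega
  have e5 : W = w * w ^ n₂ := by rw [hW, pow_succ']
  have key : S ^ m * V * s * th (Z i) = (S ^ m * (PowerSeries.C ((j : ℕ) / ((n₂ + 1 : ℕ) : ℂ)) *
      ((n₀ + 1 : ℕ) : PowerSeries ℂ) * th s * S - ((j : ℕ) : PowerSeries ℂ) * s * th w *
        w ^ n₂ + g)) * Z i - (lam * w ^ (n₂ - (j : ℕ)) * d) * app (T j) R i := by
    apply mul_left_cancel₀ (mul_ne_zero hw0 (pow_ne_zero (j : ℕ) hw0))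
    have e8 : lam * W * (d * app (T j) R i) = lam * ((w * w ^ (j : ℕ)) *
        w ^ (n₂ - (j : ℕ))) * (d * app (T j) R i) := by rw [← e4]
    rw [e8] at e1
    have e9 : lam * S ^ (m + 1) * (PowerSeries.C ((j : ℕ) / ((n₂ + 1 : ℕ) : ℂ)) *
        (w ^ (j : ℕ) * Z i)) = S ^ m * S * (PowerSeries.C ((j : ℕ) / ((n₂ + 1 : ℕ) : ℂ)) *
          ((n₀ + 1 : ℕ) : PowerSeries ℂ) * w * th s - ((j : ℕ) : PowerSeries ℂ) * s * th w) *
            (w ^ (j : ℕ) * Z i) := by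
      rw [hlam, pow_succ]
      linear_combination (-(S ^ m * S * s * th w * (w ^ (j : ℕ) * Z i))) * e3
    rw [e9] at e1
    linear_combination e1 - (S ^ m * V * s * Z i) * e2 -
      (((j : ℕ) : PowerSeries ℂ) * S ^ m * s * th w * (w ^ (j : ℕ) * Z i)) * hSVW -
      (((j : ℕ) : PowerSeries ℂ) * S ^ m * s * th w * (w ^ (j : ℕ) * Z i)) * e5
  have hlamC : CConv lam := by
    rw [hlam]
    exact (((CConv.natCast _).mul hw).mul hs.th).sub (((CConv.natCast _).mul hs).mul hw.th)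
  have hSC : CConv S := by rw [hS]; exact hs.pow _
  have h1 : S ^ m * V * s * th (Z i) ∈ satM N hSV := by
    rw [key]
    refine sub_mem (cmul_mem ?_ (hZN i)) (cmul_mem ?_ (app_mem _ hR i))
    · exact (hSC.pow _).mul ((((((CConv.C _).mul (CConv.natCast _)).mul hs.th).mul hSC).sub
        ((((CConv.natCast _).mul hs).mul hw.th).mul (hw.pow _))).add hgC)
    · exact (hlamC.mul (hw.pow _)).mul hd
  refine satM_of_mul (u := S * V) (v := 1) (mul_one _) CConv.one (k := m + 1) ?_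
  have e6 : (S * V) ^ (m + 1) * th (Z i) = (V ^ m * s ^ n₀) * (S ^ m * V * s * th (Z i)) := by
    have e7 : S = s * s ^ n₀ := by rw [hS, pow_succ']
    rw [mul_pow, pow_succ S, pow_succ V]
    linear_combination (S ^ m * V ^ m * V * th (Z i)) * e7
  rw [e6]
  exact cmul_mem ((hVC.pow _).mul (hs.pow _)) h1

end frames

end Pool.Agent.H925
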