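import Pool.Agent.H925.ExplInst
import Pool.Agent.H925.ExplW
import Pool.Agent.H925.TriRad

set_option autoImplicit false

open Finset NumberField

namespace Pool.Agent.H925

open Pool.Agent.Helper338PC

/-- The class of ALL the systems `Y' = (b / (n x) + C / (N (x - 1))) Y` over the number field `K` with
a diagonal matrix `b` of natural numbers less than `n`, at most `k` of them different, and any matrix
`C` over the ring of integers, whose `p`-curvatures are zero modulo `p` for the primes `p` which do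
not divide `N n` and do not belong to `E`. Nothing is supposed about the residues at `1` and at
infinity. -/
structure FreeClass (n N k : ℕ) (E : Finset ℕ) (K : Type) [Field K] [NumberField K]
    {r : ℕ} (b : Fin r → ℕ) (C : Matrix (Fin r) (Fin r) (𝓞 K)) : Prop where
  lt : ∀ i, b i < n
  card : (univ.image b).card ≤ k
  good : ∀ p : ℕ, p.Prime → ¬ p ∣ N * n → p ∉ E → PCurvMod p (N * n) (vfam N n b C)

/-- One finite extension of `ℂ(x)` contains full sets of solutions of all the systems of the class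
`IntegralClass n n₁ n₂ N k E` over all number fields and of all ranks, for every finite set `E` of
primes with `∑_{p ∈ E} log p / (p - 1) ≤ ε`; the degree of the extension is bounded independently
of `E`. -/
def IntegralSolved (n n₁ n₂ N k : ℕ) (ε : ℝ) : Prop :=
  ∃ M : ℕ, ∀ E : Finset ℕ, ∑' p : ℕ, sparseTerm E p ≤ ε →
    ∃ (F : Type) (_ : Field F) (_ : Algebra (RatFunc ℂ) F) (d : Derivation ℤ F F),
      FiniteDimensional (RatFunc ℂ) F ∧ Module.finrank (RatFunc ℂ) F ≤ M ∧
      (∀ f, d (algebraMap (RatFunc ℂ) F f) = algebraMap (RatFunc ℂ) F (W432.PC.ddx ℂ f)) ∧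
      ∀ (K : Type) [Field K] [NumberField K] (φ : K →+* ℂ) (r : ℕ) (b : Fin r → ℕ)
        (C : Matrix (Fin r) (Fin r) (𝓞 K)), IntegralClass n n₁ n₂ N k E K b C →
        SolvedIn (sysG (φ.comp (algebraMap (𝓞 K) K)) (N * n) 1 (vfam N n b C)) F d

/-- One finite extension of `ℂ(x)` contains full sets of solutions of all the systems of the class
`FreeClass n N k E` over all number fields and of all ranks, for every finite set `E` of primes with
`∑_{p ∈ E} log p / (p - 1) ≤ ε`; the degree of the extension is bounded independently of `E`. -/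
def FreeSolved (n N k : ℕ) (ε : ℝ) : Prop :=
  ∃ M : ℕ, ∀ E : Finset ℕ, ∑' p : ℕ, sparseTerm E p ≤ ε →
    ∃ (F : Type) (_ : Field F) (_ : Algebra (RatFunc ℂ) F) (d : Derivation ℤ F F),
      FiniteDimensional (RatFunc ℂ) F ∧ Module.finrank (RatFunc ℂ) F ≤ M ∧
      (∀ f, d (algebraMap (RatFunc ℂ) F f) = algebraMap (RatFunc ℂ) F (W432.PC.ddx ℂ f)) ∧
      ∀ (K : Type) [Field K] [NumberField K] (φ : K →+* ℂ) (r : ℕ) (b : Fin r → ℕ)
        (C : Matrix (Fin r) (Fin r) (𝓞 K)), FreeClass n N k E K b C →
        SolvedIn (sysG (φ.comp (algebraMap (𝓞 K) K)) (N * n) 1 (vfam N n b C)) F d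

/-- The explicit inequality, for a uniformization of radius `R` of the orbifold. -/
theorem integralSolved {n n₁ n₂ N : ℕ} (hn : 0 < n) (hn₁ : 0 < n₁) (hn₂ : 0 < n₂)
    (hN : 0 < N) (k : ℕ) {ε R : ℝ} (hR0 : 0 < R) (hR : TriRadius n n₁ n₂ R)
    (h : classDefect n N k ε < Real.log R) : IntegralSolved n n₁ n₂ N k ε :=
  integral_universal hn hn₁ hn₂ hN k hR0 hR h

/-- The explicit inequality with the radii at the cusps. -/
theorem integralSolved_cusp {n n₁ n₂ N : ℕ} (hn : 0 < n) (hn₁ : 0 < n₁) (hn₂ : 0 < n₂)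
    (hN : 0 < N) (k : ℕ) {ε : ℝ} (h : classDefect n N k ε < Real.log (triRadius n₁ n₂)) :
    IntegralSolved n n₁ n₂ N k ε := by
  have hpos := triRadius_pos n₁ n₂
  have h3 : Real.exp (classDefect n N k ε) < triRadius n₁ n₂ := by
    calc _ < Real.exp (Real.log (triRadius n₁ n₂)) := Real.exp_lt_exp.mpr h
      _ = triRadius n₁ n₂ := Real.exp_log hpos
  obtain ⟨R, hR1, hR2⟩ := exists_between h3
  have hR0 : 0 < R := (Real.exp_pos _).trans hR1
  refine integralSolved hn hn₁ hn₂ hN k hR0 (tri_of_lt hn hn₁ hn₂ hR2) ?_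
  rw [Real.lt_log_iff_exp_lt hR0]
  exact hR1

lemma FreeClass.integral {n N k : ℕ} (hn : 0 < n) (hN : 0 < N) {E : Finset ℕ} {K : Type}
    [Field K] [NumberField K] {r : ℕ} {b : Fin r → ℕ} {C : Matrix (Fin r) (Fin r) (𝓞 K)}
    (h : FreeClass n N k E K b C) : IntegralClass n N (n.lcm N) N k E K b C :=
  integralClass_auto hn hN h.lt h.card h.good

/-- The explicit inequality for the free classes: `n₁ = N` and `n₂` is the least common multiple of `n`
and `N`. -/
theorem freeSolved {n N : ℕ} (hn : 0 < n) (hN : 0 < N) (k : ℕ) {ε R : ℝ} (hR0 : 0 < R)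
    (hR : TriRadius n N (n.lcm N) R) (h : classDefect n N k ε < Real.log R) :
    FreeSolved n N k ε := by
  obtain ⟨M, hM⟩ := integralSolved hn hN (Nat.lcm_pos hn hN) hN k hR0 hR h
  refine ⟨M, fun E hE => ?_⟩
  obtain ⟨F, i1, i2, d, h1, h2, h3, h4⟩ := hM E hE
  exact ⟨F, i1, i2, d, h1, h2, h3, fun K _ _ φ r b C hC => h4 K φ r b C (hC.integral hn hN)⟩

theorem freeSolved_cusp {n N : ℕ} (hn : 0 < n) (hN : 0 < N) (k : ℕ) {ε : ℝ}
    (h : classDefect n N k ε < Real.log (triRadius N (n.lcm N))) :
    FreeSolved n N k ε := by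
  obtain ⟨M, hM⟩ := integralSolved_cusp hn hN (Nat.lcm_pos hn hN) hN k h
  refine ⟨M, fun E hE => ?_⟩
  obtain ⟨F, i1, i2, d, h1, h2, h3, h4⟩ := hM E hE
  exact ⟨F, i1, i2, d, h1, h2, h3, fun K _ _ φ r b C hC => h4 K φ r b C (hC.integral hn hN)⟩

section instances

lemma le_triRadius_two (m : ℕ) : (64 : ℝ) ≤ triRadius 2 m := by
  unfold triRadius
  split
  all_goals first
    | (norm_num; done)
    | (exfalso; simp_all)


lemma log_sixtyfour_le (m : ℕ) : 6 * Real.log 2 ≤ Real.log (triRadius 2 m) := by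
  have h1 : Real.log 64 ≤ Real.log (triRadius 2 m) :=
    Real.log_le_log (by norm_num) (le_triRadius_two m)
  have h2 : Real.log 64 = 6 * Real.log 2 := by
    rw [show (64 : ℝ) = 2 ^ 6 by norm_num, Real.log_pow]
    norm_num
  linarith

/-- The group `(2, 6, 6)`: `Y' = (b / (6 x) + C / (2 (x - 1))) Y`. -/
theorem free_six : FreeSolved 6 2 5 (1 / 200) := by
  refine freeSolved_cusp (by norm_num) (by norm_num) 5 ?_
  have e0 : (6 : ℕ).lcm 2 = 6 := by decide +kernel
  have e1 : (2 * 6 : ℕ).primeFactors = {2, 3} := by decide +kernel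
  have e2 : (2 : ℕ).factorization 2 = 1 := by decide +kernel
  have e3 : (2 : ℕ).factorization 3 = 0 := by decide +kernel
  have e4 : (6 : ℕ).factorization 2 = 1 := by decide +kernel
  have e5 : (6 : ℕ).factorization 3 = 1 := by decide +kernel
  have e6 : Nat.log 2 3 = 1 := by decide +kernel
  have e7 : Nat.log 3 2 = 0 := by decide +kernel
  have e8 : min 5 (6 / 2 ^ 1) = 3 := by decide
  have e9 : min 5 (6 / 3 ^ 1) = 2 := by decide
  unfold classDefect padicCost
  rw [e0, e1, Finset.sum_pair (by norm_num), e2, e3, e4, e5, e8, e9, e6, e7]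
  have h1 := tsum_out_six'
  have h2 := Real.log_two_lt_d9
  have h3 := Real.log_two_gt_d9
  have h4 := log_three_ge
  have h5 : Real.log (triRadius 2 6) = 2 * Real.log 2 + 3 * Real.log 3 := by
    have : triRadius 2 6 = 2 ^ 2 * 3 ^ 3 := by
      show (108 : ℝ) = _
      norm_num
    rw [this, Real.log_mul (by positivity) (by positivity), Real.log_pow, Real.log_pow]
    push_cast
    ring
  rw [h5]
  push_cast
  norm_num
  linarith

/-- The group `(4, 4, 4)`: `Y' = (b / (4 x) + C / (4 (x - 1))) Y`. -/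
theorem free_four : FreeSolved 4 4 3 (1 / 20) := by
  refine freeSolved_cusp (by norm_num) (by norm_num) 3 ?_
  have e0 : (4 : ℕ).lcm 4 = 4 := by decide +kernel
  have e1 : (4 * 4 : ℕ).primeFactors = {2} := by decide +kernel
  have e2 : (4 : ℕ).factorization 2 = 2 := by decide +kernel
  have e6 : Nat.log 2 1 = 0 := by decide +kernel
  have e8 : min 3 (4 / 2 ^ 2) = 1 := by decide
  unfold classDefect padicCost
  rw [e0, e1, Finset.sum_singleton, e2, e8, e6]
  have h1 := tsum_out_two'
  have h2 := Real.log_two_lt_d9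
  have h3 := Real.log_two_gt_d9
  have h5 : Real.log (triRadius 4 4) = 5 * Real.log 2 := by
    have : triRadius 4 4 = 2 ^ 5 := by
      show (32 : ℝ) = _
      norm_num
    rw [this, Real.log_pow]
    push_cast
    ring
  rw [h5]
  push_cast
  norm_num
  linarith

/-- `Y' = (b / (2 ^ a x) + C / (2 (x - 1))) Y`. -/
theorem free_two_pow (a : ℕ) : FreeSolved (2 ^ a) 2 6 (1 / 20) := by
  refine freeSolved_cusp (by positivity) (by norm_num) 6 ?_
  refine lt_of_lt_of_le ?_ (log_sixtyfour_le _)
  have e1 : (2 * 2 ^ a : ℕ).primeFactors = {2} := by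
    rw [← pow_succ', Nat.primeFactors_prime_pow (Nat.succ_ne_zero a) Nat.prime_two]
  have e2 : (2 : ℕ).factorization 2 = 1 := by decide +kernel
  have e3 : (2 ^ a : ℕ).factorization 2 = a := by
    rw [Nat.factorization_pow]
    simp [e2]
  have e6 : Nat.log 2 1 = 0 := by decide +kernel
  have e8 : min 6 (2 ^ a / 2 ^ a) = 1 := by
    rw [Nat.div_self (by positivity)]
    rfl
  unfold classDefect padicCost
  rw [e1, Finset.sum_singleton, e2, e3, e8, e6]
  have h1 := tsum_out_two'
  have h2 := Real.log_two_lt_d9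
  have h3 := Real.log_two_gt_d9
  push_cast
  norm_num
  linarith

lemma tsum_out_insert {S : Finset ℕ} {q : ℕ} (hq : q.Prime) (hqS : q ∉ S) :
    ∑' p : ℕ, outTerm (insert q S) ∅ p =
      ∑' p : ℕ, outTerm S ∅ p - Real.log q / (q * (q - 1)) := by
  have h1 : ∀ p : ℕ, outTerm S ∅ p = outTerm (insert q S) ∅ p +
      (if p = q then Real.log q / (q * (q - 1)) else 0) := by
    intro p
    unfold outTerm
    by_cases hpq : p = q
    · subst hpq
      simp [hq, hqS]
    · simp [hpq]
  have h2 : Summable fun p : ℕ => if p = q then Real.log q / (q * (q - 1)) else (0 : ℝ) :=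
    (hasSum_ite_eq q (Real.log q / (q * (q - 1)))).summable
  have h3 : ∑' p : ℕ, outTerm S ∅ p =
      ∑' p : ℕ, outTerm (insert q S) ∅ p + Real.log q / (q * (q - 1)) := by
    rw [tsum_congr h1, (summable_outTerm_empty (insert q S)).tsum_add h2, tsum_ite_eq]
  linarith

/-- `Y' = (b / (q ^ a x) + C / (2 (x - 1))) Y` for an odd prime `q`. -/
theorem free_odd {q : ℕ} (hq : q.Prime) (hq2 : q ≠ 2) (a : ℕ) :
    FreeSolved (q ^ (a + 1)) 2 3 (1 / 25) := by
  refine freeSolved_cusp (pow_pos hq.pos _) (by norm_num) 3 ?_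
  refine lt_of_lt_of_le ?_ (log_sixtyfour_le _)
  have hq3 : 3 ≤ q := lt_of_le_of_ne hq.two_le (Ne.symm hq2)
  have e1 : (2 * q ^ (a + 1) : ℕ).primeFactors = {2, q} := by
    rw [Nat.primeFactors_mul (by norm_num) (pow_pos hq.pos _).ne',
      Nat.primeFactors_prime_pow (Nat.succ_ne_zero a) hq, Nat.Prime.primeFactors Nat.prime_two]
    rfl
  have e2 : (2 : ℕ).factorization 2 = 1 := by decide +kernel
  have e2q : (2 : ℕ).factorization q = 0 := by
    rw [Nat.prime_two.factorization]
    exact Finsupp.single_eq_of_ne hq2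
  have e3 : (q ^ (a + 1) : ℕ).factorization 2 = 0 := by
    rw [hq.factorization_pow]
    exact Finsupp.single_eq_of_ne (Ne.symm hq2)
  have e3q : (q ^ (a + 1) : ℕ).factorization q = a + 1 := by
    rw [hq.factorization_pow]
    exact Finsupp.single_eq_same
  have e6 : Nat.log 2 3 = 1 := by decide +kernel
  have e7 : Nat.log q 1 = 0 := Nat.log_one_right q
  have e8 : min 3 (q ^ (a + 1) / 2 ^ 0) = 3 := by
    rw [pow_zero, Nat.div_one]
    refine min_eq_left (hq3.trans ?_)
    calc q = q ^ 1 := (pow_one q).symm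
      _ ≤ q ^ (a + 1) := Nat.pow_le_pow_right hq.pos (by omega)
  have e9 : min 3 (q ^ (a + 1) / q ^ (a + 1)) = 1 := by
    rw [Nat.div_self (pow_pos hq.pos _)]
    rfl
  have e10 : ({2, q} : Finset ℕ) = insert q {2} := Finset.pair_comm 2 q
  unfold classDefect padicCost
  rw [e1, Finset.sum_pair (Ne.symm hq2), e2, e2q, e3, e3q, e8, e9, e6, e7, e10,
    tsum_out_insert hq (by simpa using hq2)]
  have h1 := tsum_out_two'
  have h2 := Real.log_two_lt_d9
  have h3 := Real.log_two_gt_d9
  have hqR : (3 : ℝ) ≤ q := by exact_mod_cast hq3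
  have h4 : Real.log q ≤ q / 2.7182818283 := by
    have h5 : Real.log (q / Real.exp 1) ≤ q / Real.exp 1 - 1 :=
      Real.log_le_sub_one_of_pos (by positivity)
    rw [Real.log_div (by positivity) (Real.exp_pos 1).ne', Real.log_exp] at h5
    have h6 : (q : ℝ) / Real.exp 1 ≤ q / 2.7182818283 :=
      div_le_div_of_nonneg_left (by positivity) (by norm_num) Real.exp_one_gt_d9.le
    linarith
  have h7 : Real.log q * (1 / (q - 1)) - 3 * (Real.log q / (q * (q - 1))) ≤ 0.36788 := by
    have h8 : Real.log q * (1 / (q - 1)) - 3 * (Real.log q / (q * (q - 1))) =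
        (Real.log q / q) * ((q - 3) / (q - 1)) := by
      have h9 : (q : ℝ) - 1 ≠ 0 := by linarith
      field_simp
    rw [h8]
    have h10 : Real.log q / q ≤ 1 / 2.7182818283 := by
      rw [div_le_div_iff₀ (by positivity) (by norm_num)]
      rw [le_div_iff₀ (by norm_num)] at h4
      linarith
    have h11 : ((q : ℝ) - 3) / (q - 1) ≤ 1 := by
      rw [div_le_one (by linarith)]
      linarith
    have h12 : 0 ≤ ((q : ℝ) - 3) / (q - 1) := div_nonneg (by linarith) (by linarith)
    calc (Real.log q / q) * ((q - 3) / (q - 1)) ≤ (1 / 2.7182818283) * 1 :=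
          mul_le_mul h10 h11 h12 (by norm_num)
      _ ≤ 0.36788 := by norm_num
  push_cast
  rw [pow_zero, one_mul]
  norm_num at h7 ⊢
  linarith


/-- The group `(2, 8, 8)`. -/
theorem integral_eight : IntegralSolved 8 2 8 4 5 (1 / 160) := by
  refine integralSolved_cusp (by norm_num) (by norm_num) (by norm_num) (by norm_num) 5 ?_
  refine lt_of_lt_of_le ?_ (log_sixtyfour_le _)
  have e1 : (4 * 8 : ℕ).primeFactors = {2} := by decide +kernel
  have e2 : (4 : ℕ).factorization 2 = 2 := by decide +kernel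
  have e3 : (8 : ℕ).factorization 2 = 3 := by decide +kernel
  have e6 : Nat.log 2 1 = 0 := by decide +kernel
  have e8 : min 5 (8 / 2 ^ 3) = 1 := by decide
  unfold classDefect padicCost
  rw [e1, Finset.sum_singleton, e2, e3, e8, e6]
  have h1 := tsum_out_two'
  have h2 := Real.log_two_lt_d9
  have h3 := Real.log_two_gt_d9
  push_cast
  norm_num
  linarith

/-- The group `(2, 4, 8)`. -/
theorem integral_sixteen : IntegralSolved 8 2 4 16 5 (1 / 160) := by
  refine integralSolved_cusp (by norm_num) (by norm_num) (by norm_num) (by norm_num) 5 ?_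
  have e1 : (16 * 8 : ℕ).primeFactors = {2} := by decide +kernel
  have e2 : (16 : ℕ).factorization 2 = 4 := by decide +kernel
  have e3 : (8 : ℕ).factorization 2 = 3 := by decide +kernel
  have e6 : Nat.log 2 1 = 0 := by decide +kernel
  have e8 : min 5 (8 / 2 ^ 3) = 1 := by decide
  unfold classDefect padicCost
  rw [e1, Finset.sum_singleton, e2, e3, e8, e6]
  have h1 := tsum_out_two'
  have h2 := Real.log_two_lt_d9
  have h3 := Real.log_two_gt_d9
  have h5 : Real.log (triRadius 2 4) = 8 * Real.log 2 := by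
    have : triRadius 2 4 = 2 ^ 8 := by
      show (256 : ℝ) = _
      norm_num
    rw [this, Real.log_pow]
    push_cast
    ring
  rw [h5]
  push_cast
  norm_num
  linarith

/-- The group `(2, 3, 12)`. -/
theorem integral_twelve : IntegralSolved 12 2 3 8 8 (1 / 2500) := by
  refine integralSolved_cusp (by norm_num) (by norm_num) (by norm_num) (by norm_num) 8 ?_
  have e1 : (8 * 12 : ℕ).primeFactors = {2, 3} := by decide +kernel
  have e2 : (8 : ℕ).factorization 2 = 3 := by decide +kernel
  have e3 : (8 : ℕ).factorization 3 = 0 := by decide +kernel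
  have e4 : (12 : ℕ).factorization 2 = 2 := by decide +kernel
  have e5 : (12 : ℕ).factorization 3 = 1 := by decide +kernel
  have e6 : Nat.log 2 3 = 1 := by decide +kernel
  have e7 : Nat.log 3 4 = 1 := by decide +kernel
  have e8 : min 8 (12 / 2 ^ 2) = 3 := by decide
  have e9 : min 8 (12 / 3 ^ 1) = 4 := by decide
  have h1 := tsum_out_six'
  have h2 := Real.log_two_lt_d9
  have h3 := Real.log_two_gt_d9
  have h4 := log_three_ge
  have h4' := log_three_le
  have h5 : Real.log (triRadius 2 3) = 6 * Real.log 2 + 3 * Real.log 3 := by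
    have : triRadius 2 3 = 2 ^ 6 * 3 ^ 3 := by
      show (1728 : ℝ) = _
      norm_num
    rw [this, Real.log_mul (by positivity) (by positivity), Real.log_pow, Real.log_pow]
    push_cast
    ring
  unfold classDefect padicCost
  rw [e1, Finset.sum_pair (by norm_num), e2, e3, e4, e5, e8, e9, e6, e7, h5]
  push_cast
  norm_num
  linarith

/-- The group `(2, 3, 9)`; the radius of the compact orbifold at the vertex of order `9`. -/
theorem integral_nine : IntegralSolved 9 3 2 36 6 (1 / 30) := by
  refine integralSolved (by norm_num) (by norm_num) (by norm_num) (by norm_num) 6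
    (by norm_num) tr_nine ?_
  have e1 : (36 * 9 : ℕ).primeFactors = {2, 3} := by decide +kernel
  have e2 : (36 : ℕ).factorization 2 = 2 := by decide +kernel
  have e3 : (36 : ℕ).factorization 3 = 2 := by decide +kernel
  have e4 : (9 : ℕ).factorization 2 = 0 := by decide +kernel
  have e5 : (9 : ℕ).factorization 3 = 2 := by decide +kernel
  have e6 : Nat.log 2 6 = 2 := by decide +kernel
  have e7 : Nat.log 3 1 = 0 := by decide +kernel
  have e8 : min 6 (9 / 2 ^ 0) = 6 := by decide
  have e9 : min 6 (9 / 3 ^ 2) = 1 := by decide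
  have h1 := tsum_out_six'
  have h2 := Real.log_two_lt_d9
  have h3 := Real.log_two_gt_d9
  have h4 := log_three_ge
  have h4' := log_three_le
  have h5 : 6 * Real.log 2 + 11 * Real.log 3 ≤ 2 * Real.log 3450 := by
    have h6 : Real.log ((2 : ℝ) ^ 6 * 3 ^ 11) ≤ Real.log ((3450 : ℝ) ^ 2) :=
      Real.log_le_log (by positivity) (by norm_num)
    rw [Real.log_mul (by positivity) (by positivity), Real.log_pow, Real.log_pow,
      Real.log_pow] at h6
    push_cast at h6
    linarith
  unfold classDefect padicCost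
  rw [e1, Finset.sum_pair (by norm_num), e2, e3, e4, e5, e8, e9, e6, e7]
  push_cast
  norm_num
  linarith

/-- The group `(2, 3, 8)`; the radius of the compact orbifold at the vertex of order `8`. -/
theorem integral_two_three_eight : IntegralSolved 8 3 2 72 5 (1 / 160) := by
  refine integralSolved (by norm_num) (by norm_num) (by norm_num) (by norm_num) 5
    (by norm_num) tr_eight ?_
  have e1 : (72 * 8 : ℕ).primeFactors = {2, 3} := by decide +kernel
  have e2 : (72 : ℕ).factorization 2 = 3 := by decide +kernel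
  have e3 : (72 : ℕ).factorization 3 = 2 := by decide +kernel
  have e4 : (8 : ℕ).factorization 2 = 3 := by decide +kernel
  have e5 : (8 : ℕ).factorization 3 = 0 := by decide +kernel
  have e6 : Nat.log 2 1 = 0 := by decide +kernel
  have e7 : Nat.log 3 5 = 1 := by decide +kernel
  have e8 : min 5 (8 / 2 ^ 3) = 1 := by decide
  have e9 : min 5 (8 / 3 ^ 0) = 5 := by decide
  have h1 := tsum_out_six'
  have h2 := Real.log_two_lt_d9
  have h3 := Real.log_two_gt_d9
  have h4 := log_three_ge
  have h4' := log_three_le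
  have h5 : 14 * Real.log 2 + 6 * Real.log 3 ≤ 2 * Real.log 3490 := by
    have h6 : Real.log ((2 : ℝ) ^ 14 * 3 ^ 6) ≤ Real.log ((3490 : ℝ) ^ 2) :=
      Real.log_le_log (by positivity) (by norm_num)
    rw [Real.log_mul (by positivity) (by positivity), Real.log_pow, Real.log_pow,
      Real.log_pow] at h6
    push_cast at h6
    linarith
  unfold classDefect padicCost
  rw [e1, Finset.sum_pair (by norm_num), e2, e3, e4, e5, e8, e9, e6, e7]
  push_cast
  norm_num
  linarith

lemma tsum_out_mono {S T : Finset ℕ} (h : S ⊆ T) :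
    ∑' p : ℕ, outTerm T ∅ p ≤ ∑' p : ℕ, outTerm S ∅ p := by
  refine (summable_outTerm_empty T).tsum_le_tsum (fun p => ?_) (summable_outTerm_empty S)
  by_cases hp : p.Prime ∧ p ∉ T
  · have hS : p.Prime ∧ p ∉ S := ⟨hp.1, fun hS => hp.2 (h hS)⟩
    unfold outTerm
    rw [if_pos hp, if_pos hS]
  · have h1 : outTerm T ∅ p = 0 := by
      unfold outTerm
      rw [if_neg hp]
    rw [h1]
    exact outTerm_nonneg S ∅ p

/-- The group `(2, 3, 7)` of Hurwitz. -/
theorem integral_seven : IntegralSolved 7 3 2 252 2 (1 / 3) := by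
  refine integralSolved (by norm_num) (by norm_num) (by norm_num) (by norm_num) 2
    (by norm_num) tr_seven ?_
  have e1 : (252 * 7 : ℕ).primeFactors = {2, 3, 7} := by decide +kernel
  have e2 : (252 : ℕ).factorization 2 = 2 := by decide +kernel
  have e3 : (252 : ℕ).factorization 3 = 2 := by decide +kernel
  have e4 : (252 : ℕ).factorization 7 = 1 := by decide +kernel
  have e2' : (7 : ℕ).factorization 2 = 0 := by decide +kernel
  have e3' : (7 : ℕ).factorization 3 = 0 := by decide +kernel
  have e4' : (7 : ℕ).factorization 7 = 1 := by decide +kernel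
  have e6 : Nat.log 2 2 = 1 := by decide +kernel
  have e7 : Nat.log 3 2 = 0 := by decide +kernel
  have e7' : Nat.log 7 1 = 0 := by decide +kernel
  have e8 : min 2 (7 / 2 ^ 0) = 2 := by decide
  have e9 : min 2 (7 / 3 ^ 0) = 2 := by decide
  have e10 : min 2 (7 / 7 ^ 1) = 1 := by decide
  have h1 := tsum_out_six'
  have h1' : ∑' p : ℕ, outTerm {2, 3, 7} ∅ p ≤ ∑' p : ℕ, outTerm {2, 3} ∅ p :=
    tsum_out_mono (by decide)
  have h2 := Real.log_two_lt_d9
  have h3 := Real.log_two_gt_d9
  have h4 := log_three_ge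
  have h4' := log_three_le
  have h5 : 9 * Real.log 2 + 3 * Real.log 3 ≤ Real.log 14200 := by
    have h6 : Real.log ((2 : ℝ) ^ 9 * 3 ^ 3) ≤ Real.log (14200 : ℝ) :=
      Real.log_le_log (by positivity) (by norm_num)
    rw [Real.log_mul (by positivity) (by positivity), Real.log_pow, Real.log_pow] at h6
    push_cast at h6
    linarith
  have h7 : 26 * Real.log 7 ≤ 73 * Real.log 2 := by
    have h6 : Real.log ((7 : ℝ) ^ 26) ≤ Real.log ((2 : ℝ) ^ 73) :=
      Real.log_le_log (by positivity) (by norm_num)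
    rw [Real.log_pow, Real.log_pow] at h6
    push_cast at h6
    linarith
  unfold classDefect padicCost
  rw [e1, Finset.sum_insert (by decide), Finset.sum_pair (by norm_num), e2, e3, e4, e2', e3', e4',
    e8, e9, e10, e6, e7, e7']
  push_cast
  norm_num
  linarith

end instances

end Pool.Agent.H925
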