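import Pool.Agent.H925.TriConv

set_option autoImplicit false

open PowerSeries Finset

namespace Pool.Agent.H925

open Pool.Agent.Helper338PC (th coeff_th th_mul' th_add' th_sum' th_C th_one)

section loc

/-- The power series which converge after multiplication with a power of `t`. -/
def CL (t f : PowerSeries ℂ) : Prop := ∃ k : ℕ, CConv (t ^ k * f)

variable {t f g : PowerSeries ℂ}

lemma CL.of_conv (h : CConv f) : CL t f := ⟨0, by rwa [pow_zero, one_mul]⟩

lemma CL.of_mul (h : CConv (t * f)) : CL t f := ⟨1, by rwa [pow_one]⟩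

lemma CL.of_pow {k : ℕ} (h : CConv (t ^ k * f)) : CL t f := ⟨k, h⟩

lemma CL.add (ht : CConv t) (hf : CL t f) (hg : CL t g) : CL t (f + g) := by
  obtain ⟨k, hk⟩ := hf
  obtain ⟨l, hl⟩ := hg
  refine ⟨k + l, ?_⟩
  have e1 : t ^ (k + l) * (f + g) = t ^ l * (t ^ k * f) + t ^ k * (t ^ l * g) := by
    rw [pow_add]; ring
  rw [e1]
  exact ((ht.pow _).mul hk).add ((ht.pow _).mul hl)

lemma CL.mul (hf : CL t f) (hg : CL t g) : CL t (f * g) := by
  obtain ⟨k, hk⟩ := hf
  obtain ⟨l, hl⟩ := hg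
  refine ⟨k + l, ?_⟩
  have e1 : t ^ (k + l) * (f * g) = (t ^ k * f) * (t ^ l * g) := by
    rw [pow_add]; ring
  rw [e1]
  exact hk.mul hl

lemma CL.neg (hf : CL t f) : CL t (-f) := by
  obtain ⟨k, hk⟩ := hf
  exact ⟨k, by rw [mul_neg]; exact hk.neg⟩

lemma CL.sub (ht : CConv t) (hf : CL t f) (hg : CL t g) : CL t (f - g) := by
  rw [sub_eq_add_neg]
  exact CL.add ht hf hg.neg

lemma CL.pow (hf : CL t f) (n : ℕ) : CL t (f ^ n) := by
  induction n with
  | zero => exact CL.of_conv (by rw [pow_zero]; exact CConv.one)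
  | succ n ih => rw [pow_succ]; exact ih.mul hf

lemma CL.sum (ht : CConv t) {ι : Type*} (s : Finset ι) {F : ι → PowerSeries ℂ}
    (h : ∀ i ∈ s, CL t (F i)) : CL t (∑ i ∈ s, F i) := by
  classical
  induction s using Finset.induction_on with
  | empty => exact CL.of_conv (by rw [Finset.sum_empty]; exact CConv.zero)
  | insert a s ha ih =>
    rw [Finset.sum_insert ha]
    exact CL.add ht (h a (mem_insert_self a s)) (ih fun i hi => h i (mem_insert_of_mem hi))

lemma CL.mul_right {u : PowerSeries ℂ} (hu : CConv u) (hf : CL t f) : CL (t * u) f := by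
  obtain ⟨k, hk⟩ := hf
  refine ⟨k, ?_⟩
  have e1 : (t * u) ^ k * f = u ^ k * (t ^ k * f) := by rw [mul_pow]; ring
  rw [e1]
  exact (hu.pow _).mul hk

lemma CL.mul_left {u : PowerSeries ℂ} (hu : CConv u) (hf : CL t f) : CL (u * t) f := by
  rw [mul_comm]
  exact hf.mul_right hu

end loc

section sat

/-- The elements which belong to the module `N` after multiplication with a power of `t`. -/
def satM (N : Submodule cR (PowerSeries ℂ)) {t : PowerSeries ℂ} (ht : CConv t) :
    Submodule cR (PowerSeries ℂ) where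
  carrier := {g | ∃ k : ℕ, t ^ k * g ∈ N}
  add_mem' := by
    rintro f g ⟨k, hk⟩ ⟨l, hl⟩
    refine ⟨k + l, ?_⟩
    have e1 : t ^ (k + l) * (f + g) = t ^ l * (t ^ k * f) + t ^ k * (t ^ l * g) := by
      rw [pow_add]; ring
    rw [e1]
    exact add_mem (cmul_mem (ht.pow _) hk) (cmul_mem (ht.pow _) hl)
  zero_mem' := ⟨0, by rw [mul_zero]; exact N.zero_mem⟩
  smul_mem' := by
    rintro c g ⟨k, hk⟩
    refine ⟨k, ?_⟩
    have e1 : t ^ k * (c • g) = (c : PowerSeries ℂ) * (t ^ k * g) := by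
      change t ^ k * ((c : PowerSeries ℂ) * g) = _
      ring
    rw [e1]
    exact cmul_mem c.2 hk

variable {N : Submodule cR (PowerSeries ℂ)} {t : PowerSeries ℂ} {ht : CConv t}

lemma mem_satM {g : PowerSeries ℂ} : g ∈ satM N ht ↔ ∃ k : ℕ, t ^ k * g ∈ N := Iff.rfl

lemma satM_of_mem {g : PowerSeries ℂ} (h : g ∈ N) : g ∈ satM N ht :=
  ⟨0, by rwa [pow_zero, one_mul]⟩

lemma satM_mul {c g : PowerSeries ℂ} (hc : CL t c) (hg : g ∈ satM N ht) : c * g ∈ satM N ht := by
  obtain ⟨k, hk⟩ := hc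
  obtain ⟨l, hl⟩ := hg
  refine ⟨k + l, ?_⟩
  have e1 : t ^ (k + l) * (c * g) = (t ^ k * c) * (t ^ l * g) := by rw [pow_add]; ring
  rw [e1]
  exact cmul_mem hk hl

/-- Division by a divisor of `t`. -/
lemma satM_of_mul {u v g : PowerSeries ℂ} (hu : u * v = t) (hv : CConv v) {k : ℕ}
    (hg : u ^ k * g ∈ satM N ht) : g ∈ satM N ht := by
  obtain ⟨l, hl⟩ := hg
  refine ⟨l + k, ?_⟩
  have e1 : t ^ (l + k) * g = v ^ k * (t ^ l * (u ^ k * g)) := by
    rw [pow_add]
    conv_lhs => rw [← hu]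
    rw [mul_pow u v k, hu]
    ring
  rw [e1]
  exact cmul_mem (hv.pow _) hl

lemma satM_ge {g : PowerSeries ℂ} {k l : ℕ} (ht : CConv t) (hkl : k ≤ l) (h : t ^ k * g ∈ N) :
    t ^ l * g ∈ N := by
  obtain ⟨m, rfl⟩ := Nat.exists_eq_add_of_le hkl
  have e1 : t ^ (k + m) * g = t ^ m * (t ^ k * g) := by rw [pow_add]; ring
  rw [e1]
  exact cmul_mem (ht.pow _) h

/-- The saturation is stable under `th` if the derivatives of the generators belong to it. -/
lemma satM_th {ι : Type*} {Z : ι → PowerSeries ℂ} {ht : CConv t}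
    (h : ∀ x, th (Z x) ∈ satM (Submodule.span cR (Set.range Z)) ht) {g : PowerSeries ℂ}
    (hg : g ∈ satM (Submodule.span cR (Set.range Z)) ht) :
    th g ∈ satM (Submodule.span cR (Set.range Z)) ht := by
  have h1 : ∀ z ∈ Submodule.span cR (Set.range Z),
      th z ∈ satM (Submodule.span cR (Set.range Z)) ht := by
    intro z hz
    induction hz using Submodule.span_induction with
    | mem x hx =>
      obtain ⟨y, rfl⟩ := hx
      exact h y
    | zero =>
      have e1 : th (0 : PowerSeries ℂ) = 0 := by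
        have := th_C (0 : ℂ)
        simpa using this
      rw [e1]
      exact Submodule.zero_mem _
    | add x y _ _ hx hy =>
      rw [th_add']
      exact add_mem hx hy
    | smul c x hx hx' =>
      have e1 : c • x = (c : PowerSeries ℂ) * x := rfl
      rw [e1, th_mul']
      exact add_mem (satM_of_mem (cmul_mem (CConv.th c.2) hx)) (cmul_mem c.2 hx')
  obtain ⟨k, hk⟩ := hg
  have h2 := h1 _ hk
  rw [th_mul'] at h2
  have h3 := cmul_mem ht h2
  have e2 := th_pow' t k
  have h4 : t * (t ^ k * th g) ∈ satM (Submodule.span cR (Set.range Z)) ht := by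
    have e3 : t * (t ^ k * th g) = t * (th (t ^ k) * g + t ^ k * th g) -
        ((k : PowerSeries ℂ) * th t) * (t ^ k * g) := by
      linear_combination (-g) * e2
    rw [e3]
    exact sub_mem h3 (satM_of_mem (cmul_mem ((CConv.natCast _).mul ht.th) hk))
  refine satM_of_mul (u := t) (v := 1) (mul_one t) CConv.one (k := k + 1) ?_
  rw [pow_succ']
  rw [mul_assoc]
  exact h4

end sat

section glue

lemma sum_elim_mem {N : Submodule cR (PowerSeries ℂ)} {S V : PowerSeries ℂ} (hS : CConv S)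
    (hV : CConv V) {α β : PowerSeries ℂ} (hα : CConv α) (hβ : CConv β) (h : α * S + β * V = 1)
    (n : ℕ) {g : PowerSeries ℂ} (h1 : S ^ n * g ∈ N) (h2 : V ^ n * g ∈ N) : g ∈ N := by
  obtain ⟨α', β', hα', hβ', h'⟩ := bezout_pow hS hV hα hβ h n n
  have e1 : g = α' * (S ^ n * g) + β' * (V ^ n * g) := by linear_combination (-g) * h'
  rw [e1]
  exact add_mem (cmul_mem hα' h1) (cmul_mem hβ' h2)

lemma span_mul_mem {ι : Type*} {X : ι → PowerSeries ℂ} {N : Submodule cR (PowerSeries ℂ)}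
    {c : PowerSeries ℂ} (h : ∀ x, c * X x ∈ N) {g : PowerSeries ℂ}
    (hg : g ∈ Submodule.span cR (Set.range X)) : c * g ∈ N := by
  induction hg using Submodule.span_induction with
  | mem x hx =>
    obtain ⟨y, rfl⟩ := hx
    exact h y
  | zero => rw [mul_zero]; exact Submodule.zero_mem _
  | add x y _ _ hx hy => rw [mul_add]; exact add_mem hx hy
  | smul d x hx hx' =>
    have e1 : c * (d • x) = (d : PowerSeries ℂ) * (c * x) := by
      change c * ((d : PowerSeries ℂ) * x) = _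
      ring
    rw [e1]
    exact cmul_mem d.2 hx'

/-- The three open sets cover the spectrum. -/
lemma cover_mem {N : Submodule cR (PowerSeries ℂ)} {S V W : PowerSeries ℂ} (hS : CConv S)
    (hV : CConv V) (hW : CConv W) (hSVW : S + V = W)
    {α β : PowerSeries ℂ} (hα : CConv α) (hβ : CConv β) (hbez : α * S + β * W = 1)
    {k1 k2 k3 : ℕ} {g : PowerSeries ℂ} (h1 : (V * W) ^ k1 * g ∈ N) (h2 : (S * W) ^ k2 * g ∈ N)
    (h3 : (S * V) ^ k3 * g ∈ N) : g ∈ N := by
  set n : ℕ := k1 + k2 + k3 with hn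
  have h1n : V ^ n * (W ^ n * g) ∈ N := by
    rw [← mul_assoc, ← mul_pow]
    exact satM_ge (hV.mul hW) (by omega) h1
  have h2n : S ^ n * (W ^ n * g) ∈ N := by
    rw [← mul_assoc, ← mul_pow]
    exact satM_ge (hS.mul hW) (by omega) h2
  have h3n : S ^ n * (V ^ n * g) ∈ N := by
    rw [← mul_assoc, ← mul_pow]
    exact satM_ge (hS.mul hV) (by omega) h3
  have h1n' : W ^ n * (V ^ n * g) ∈ N := by
    have e1 : W ^ n * (V ^ n * g) = V ^ n * (W ^ n * g) := by ring
    rw [e1]
    exact h1n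
  have hWg : W ^ n * g ∈ N := by
    refine sum_elim_mem hS hV (hα.add hβ) hβ ?_ n h2n h1n
    rw [← hSVW] at hbez
    linear_combination hbez
  have hVg : V ^ n * g ∈ N := sum_elim_mem hS hW hα hβ hbez n h3n h1n'
  refine sum_elim_mem hV hW hα.neg (hα.add hβ) ?_ n hVg hWg
  linear_combination hbez - α * hSVW

/-- Glueing: a vector which has local descriptions outside of the zeros of `V W`, of `S W` and
of `S V` by families of power series which satisfy systems of differential equations there,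
converges. -/
theorem cconv_glue {ιX ιY ιZ : Type} [Fintype ιX] [Fintype ιY] [Fintype ιZ]
    {X : ιX → PowerSeries ℂ} {Y : ιY → PowerSeries ℂ} {Z : ιZ → PowerSeries ℂ}
    {S V W : PowerSeries ℂ} (hS : CConv S) (hV : CConv V) (hW : CConv W) (hSVW : S + V = W)
    {α β : PowerSeries ℂ} (hα : CConv α) (hβ : CConv β) (hbez : α * S + β * W = 1)
    (hVW : CConv (V * W)) (hSW : CConv (S * W)) (hSV : CConv (S * V))
    (hT : CConv (S * V * W))
    (hX : ∀ x, th (X x) ∈ satM (Submodule.span cR (Set.range X)) hVW)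
    (hY : ∀ x, th (Y x) ∈ satM (Submodule.span cR (Set.range Y)) hSW)
    (hZ : ∀ x, th (Z x) ∈ satM (Submodule.span cR (Set.range Z)) hSV)
    (hXY : ∀ x, X x ∈ satM (Submodule.span cR (Set.range Y)) hT)
    (hXZ : ∀ x, X x ∈ satM (Submodule.span cR (Set.range Z)) hT)
    (hYX : ∀ x, Y x ∈ satM (Submodule.span cR (Set.range X)) hT)
    (hYZ : ∀ x, Y x ∈ satM (Submodule.span cR (Set.range Z)) hT)
    (hZX : ∀ x, Z x ∈ satM (Submodule.span cR (Set.range X)) hT)
    (hZY : ∀ x, Z x ∈ satM (Submodule.span cR (Set.range Y)) hT)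
    {g : PowerSeries ℂ} (hgX : g ∈ satM (Submodule.span cR (Set.range X)) hVW)
    (hgY : g ∈ satM (Submodule.span cR (Set.range Y)) hSW)
    (hgZ : g ∈ satM (Submodule.span cR (Set.range Z)) hSV) : CConv g := by
  classical
  -- a common exponent
  choose a1 ha1 using hXY
  choose a2 ha2 using hXZ
  choose a3 ha3 using hYX
  choose a4 ha4 using hYZ
  choose a5 ha5 using hZX
  choose a6 ha6 using hZY
  obtain ⟨K, hb1, hb2, hb3, hb4, hb5, hb6⟩ : ∃ K : ℕ, (∀ x, a1 x ≤ K) ∧ (∀ x, a2 x ≤ K) ∧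
      (∀ x, a3 x ≤ K) ∧ (∀ x, a4 x ≤ K) ∧ (∀ x, a5 x ≤ K) ∧ (∀ x, a6 x ≤ K) := by
    refine ⟨(∑ x, a1 x) + (∑ x, a2 x) + (∑ x, a3 x) + (∑ x, a4 x) + (∑ x, a5 x) +
      (∑ x, a6 x), fun x => ?_, fun x => ?_, fun x => ?_, fun x => ?_, fun x => ?_, fun x => ?_⟩
    · have := Finset.single_le_sum (f := a1) (fun _ _ => Nat.zero_le _) (mem_univ x); omega
    · have := Finset.single_le_sum (f := a2) (fun _ _ => Nat.zero_le _) (mem_univ x); omega
    · have := Finset.single_le_sum (f := a3) (fun _ _ => Nat.zero_le _) (mem_univ x); omega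
    · have := Finset.single_le_sum (f := a4) (fun _ _ => Nat.zero_le _) (mem_univ x); omega
    · have := Finset.single_le_sum (f := a5) (fun _ _ => Nat.zero_le _) (mem_univ x); omega
    · have := Finset.single_le_sum (f := a6) (fun _ _ => Nat.zero_le _) (mem_univ x); omega
  have hXN : ∀ x, X x ∈ Submodule.span cR (Set.range X) := fun x =>
    Submodule.subset_span (Set.mem_range_self x)
  have hYN : ∀ x, Y x ∈ Submodule.span cR (Set.range Y) := fun x =>
    Submodule.subset_span (Set.mem_range_self x)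
  have hZN : ∀ x, Z x ∈ Submodule.span cR (Set.range Z) := fun x =>
    Submodule.subset_span (Set.mem_range_self x)
  generalize hNX : Submodule.span cR (Set.range X) = NX at *
  generalize hNY : Submodule.span cR (Set.range Y) = NY at *
  generalize hNZ : Submodule.span cR (Set.range Z) = NZ at *
  set ZZ : ιX ⊕ (ιY ⊕ ιZ) → PowerSeries ℂ := Sum.elim (fun x => (V * W) ^ K * X x)
    (Sum.elim (fun y => (S * W) ^ K * Y y) (fun z => (S * V) ^ K * Z z)) with hZZ
  have hN1 : ∀ x, (V * W) ^ K * X x ∈ Submodule.span cR (Set.range ZZ) := fun x =>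
    Submodule.subset_span (Set.mem_range_self (f := ZZ) (Sum.inl x))
  have hN2 : ∀ x, (S * W) ^ K * Y x ∈ Submodule.span cR (Set.range ZZ) := fun x =>
    Submodule.subset_span (Set.mem_range_self (f := ZZ) (Sum.inr (Sum.inl x)))
  have hN3 : ∀ x, (S * V) ^ K * Z x ∈ Submodule.span cR (Set.range ZZ) := fun x =>
    Submodule.subset_span (Set.mem_range_self (f := ZZ) (Sum.inr (Sum.inr x)))
  have hMN : ∀ g, g ∈ satM NX hVW → g ∈ satM NY hSW → g ∈ satM NZ hSV →
      g ∈ Submodule.span cR (Set.range ZZ) := by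
    rintro g ⟨k1, h1⟩ ⟨k2, h2⟩ ⟨k3, h3⟩
    rw [← hNX] at h1
    rw [← hNY] at h2
    rw [← hNZ] at h3
    have h1' := span_mul_mem hN1 h1
    have h2' := span_mul_mem hN2 h2
    have h3' := span_mul_mem hN3 h3
    rw [← mul_assoc, ← pow_add] at h1' h2' h3'
    exact cover_mem hS hV hW hSVW hα hβ hbez h1' h2' h3'
  have hZZM : ∀ i, ZZ i ∈ satM NX hVW ∧ ZZ i ∈ satM NY hSW ∧ ZZ i ∈ satM NZ hSV := by
    rintro (x | y | z)
    · refine ⟨satM_of_mem (cmul_mem (hVW.pow _) (hXN x)), ⟨K, ?_⟩, ⟨K, ?_⟩⟩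
      · have e1 : (S * W) ^ K * ((V * W) ^ K * X x) = W ^ K * ((S * V * W) ^ K * X x) := by
          simp only [mul_pow]; ring
        change (S * W) ^ K * ((V * W) ^ K * X x) ∈ NY
        rw [e1]
        exact cmul_mem (hW.pow _) (satM_ge hT (hb1 x) (ha1 x))
      · have e1 : (S * V) ^ K * ((V * W) ^ K * X x) = V ^ K * ((S * V * W) ^ K * X x) := by
          simp only [mul_pow]; ring
        change (S * V) ^ K * ((V * W) ^ K * X x) ∈ NZ
        rw [e1]
        exact cmul_mem (hV.pow _) (satM_ge hT (hb2 x) (ha2 x))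
    · refine ⟨⟨K, ?_⟩, satM_of_mem (cmul_mem (hSW.pow _) (hYN y)), ⟨K, ?_⟩⟩
      · have e1 : (V * W) ^ K * ((S * W) ^ K * Y y) = W ^ K * ((S * V * W) ^ K * Y y) := by
          simp only [mul_pow]; ring
        change (V * W) ^ K * ((S * W) ^ K * Y y) ∈ NX
        rw [e1]
        exact cmul_mem (hW.pow _) (satM_ge hT (hb3 y) (ha3 y))
      · have e1 : (S * V) ^ K * ((S * W) ^ K * Y y) = S ^ K * ((S * V * W) ^ K * Y y) := by
          simp only [mul_pow]; ring
        change (S * V) ^ K * ((S * W) ^ K * Y y) ∈ NZ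
        rw [e1]
        exact cmul_mem (hS.pow _) (satM_ge hT (hb4 y) (ha4 y))
    · refine ⟨⟨K, ?_⟩, ⟨K, ?_⟩, satM_of_mem (cmul_mem (hSV.pow _) (hZN z))⟩
      · have e1 : (V * W) ^ K * ((S * V) ^ K * Z z) = V ^ K * ((S * V * W) ^ K * Z z) := by
          simp only [mul_pow]; ring
        change (V * W) ^ K * ((S * V) ^ K * Z z) ∈ NX
        rw [e1]
        exact cmul_mem (hV.pow _) (satM_ge hT (hb5 z) (ha5 z))
      · have e1 : (S * W) ^ K * ((S * V) ^ K * Z z) = S ^ K * ((S * V * W) ^ K * Z z) := by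
          simp only [mul_pow]; ring
        change (S * W) ^ K * ((S * V) ^ K * Z z) ∈ NY
        rw [e1]
        exact cmul_mem (hS.pow _) (satM_ge hT (hb6 z) (ha6 z))
  have hth : ∀ i, th (ZZ i) ∈ Submodule.span cR (Set.range ZZ) := by
    intro i
    obtain ⟨h1, h2, h3⟩ := hZZM i
    refine hMN _ ?_ ?_ ?_
    · subst hNX
      exact satM_th hX h1
    · subst hNY
      exact satM_th hY h2
    · subst hNZ
      exact satM_th hZ h3
  exact cconv_of_span hth (hMN g hgX hgY hgZ)

end glue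

end Pool.Agent.H925
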