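import Pool.Agent.H925.DenComb

set_option autoImplicit false

open Finset

namespace Pool.Agent.H925

open Pool.Agent.Helper338PC

/-- Bounds for the denominators of a power series with rational coefficients: the radii of
convergence at the primes of `S`, and a loss of at most `κ` factors outside. -/
structure Good (κ : ℕ) (S : Finset ℕ) (E : Set ℕ) (ℓ : ℕ → ℝ) (f : PowerSeries ℚ) : Prop where
  bad : ∀ (p : ℕ) [Fact p.Prime], p ∈ S → PadicRadius p f (ℓ p)
  out : ∃ m₀ : ℕ, 0 < m₀ ∧ ∀ (p : ℕ) [Fact p.Prime], p ∉ S → ∀ n : ℕ, ∀ s ≤ n,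
    (p ∈ E → ‖((PowerSeries.coeff s f : ℚ) : ℚ_[p])‖ ≤
        ((p : ℝ) ^ (κ / ((p : ℝ) - 1))) ^ s * (p : ℝ) ^ (κ * Nat.log p (m₀ * (n + 1))) ∧
      (m₀ * (n + 1) < p → ‖((PowerSeries.coeff s f : ℚ) : ℚ_[p])‖ ≤ 1)) ∧
    (p ∉ E → ‖((PowerSeries.coeff s f : ℚ) : ℚ_[p])‖ ≤
        ((p : ℝ) ^ (κ / ((p : ℝ) * (p - 1)))) ^ s * (p : ℝ) ^ (κ * Nat.log p (m₀ * (n + 1))) ∧
      (m₀ * (n + 1) < p ^ 2 → ‖((PowerSeries.coeff s f : ℚ) : ℚ_[p])‖ ≤ 1))

section group

variable {κ : ℕ} {S : Finset ℕ} {E : Set ℕ} {ℓ : ℕ → ℝ} {f g : PowerSeries ℚ}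

lemma padic_add_le {p : ℕ} [Fact p.Prime] {a b : ℚ} {B : ℝ} (ha : ‖(a : ℚ_[p])‖ ≤ B)
    (hb : ‖(b : ℚ_[p])‖ ≤ B) : ‖((a + b : ℚ) : ℚ_[p])‖ ≤ B := by
  rw [Rat.cast_add]
  exact (IsUltrametricDist.norm_add_le_max _ _).trans (max_le ha hb)

lemma Good.zero : Good κ S E ℓ 0 := by
  refine ⟨fun p _ _ ε _ => ⟨0, fun s => by simp⟩, 1, one_pos, fun p hp _ n s _ => ?_⟩
  have h1 : (0 : ℝ) ≤ p := by positivity
  constructor
  · intro _
    refine ⟨?_, fun _ => ?_⟩
    · rw [map_zero, Rat.cast_zero, norm_zero]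
      positivity
    · rw [map_zero, Rat.cast_zero, norm_zero]
      exact zero_le_one
  · intro _
    refine ⟨?_, fun _ => ?_⟩
    · rw [map_zero, Rat.cast_zero, norm_zero]
      positivity
    · rw [map_zero, Rat.cast_zero, norm_zero]
      exact zero_le_one

lemma Good.neg (hf : Good κ S E ℓ f) : Good κ S E ℓ (-f) := by
  obtain ⟨h1, m₀, h2, h3⟩ := hf
  refine ⟨fun p _ hp ε hε => ?_, m₀, h2, fun p _ hp n s hs => ?_⟩
  · obtain ⟨K, hK⟩ := h1 p hp ε hε
    refine ⟨K, fun s => ?_⟩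
    rw [map_neg, Rat.cast_neg, norm_neg]
    exact hK s
  · rw [map_neg, Rat.cast_neg, norm_neg]
    exact h3 p hp n s hs

lemma Good.add (hf : Good κ S E ℓ f) (hg : Good κ S E ℓ g) : Good κ S E ℓ (f + g) := by
  obtain ⟨h1, m₀, h2, h3⟩ := hf
  obtain ⟨k1, m₁, k2, k3⟩ := hg
  refine ⟨fun p _ hp ε hε => ?_, max m₀ m₁, lt_max_of_lt_left h2, fun p hpp hp n s hs => ?_⟩
  · obtain ⟨K, hK⟩ := h1 p hp ε hε
    obtain ⟨K', hK'⟩ := k1 p hp ε hε
    refine ⟨max K K', fun s => ?_⟩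
    rw [map_add]
    refine padic_add_le ((hK s).trans ?_) ((hK' s).trans ?_)
    · exact mul_le_mul_of_nonneg_right (le_max_left _ _) (by positivity)
    · exact mul_le_mul_of_nonneg_right (le_max_right _ _) (by positivity)
  · have hp1 : (1 : ℝ) ≤ p := by exact_mod_cast hpp.out.one_lt.le
    have m0 : m₀ * (n + 1) ≤ max m₀ m₁ * (n + 1) := Nat.mul_le_mul_right _ (le_max_left _ _)
    have m1 : m₁ * (n + 1) ≤ max m₀ m₁ * (n + 1) := Nat.mul_le_mul_right _ (le_max_right _ _)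
    have l0 : (p : ℝ) ^ (κ * Nat.log p (m₀ * (n + 1))) ≤
        (p : ℝ) ^ (κ * Nat.log p (max m₀ m₁ * (n + 1))) :=
      pow_le_pow_right₀ hp1 (Nat.mul_le_mul_left _ (Nat.log_mono_right m0))
    have l1 : (p : ℝ) ^ (κ * Nat.log p (m₁ * (n + 1))) ≤
        (p : ℝ) ^ (κ * Nat.log p (max m₀ m₁ * (n + 1))) :=
      pow_le_pow_right₀ hp1 (Nat.mul_le_mul_left _ (Nat.log_mono_right m1))
    obtain ⟨a1, a2⟩ := h3 p hp n s hs
    obtain ⟨b1, b2⟩ := k3 p hp n s hs
    rw [map_add]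
    constructor
    · intro hE
      obtain ⟨c1, c2⟩ := a1 hE
      obtain ⟨d1, d2⟩ := b1 hE
      refine ⟨padic_add_le (c1.trans ?_) (d1.trans ?_), fun hlt =>
        padic_add_le (c2 (lt_of_le_of_lt m0 hlt)) (d2 (lt_of_le_of_lt m1 hlt))⟩
      · exact mul_le_mul_of_nonneg_left l0 (by positivity)
      · exact mul_le_mul_of_nonneg_left l1 (by positivity)
    · intro hE
      obtain ⟨c1, c2⟩ := a2 hE
      obtain ⟨d1, d2⟩ := b2 hE
      refine ⟨padic_add_le (c1.trans ?_) (d1.trans ?_), fun hlt =>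
        padic_add_le (c2 (lt_of_le_of_lt m0 hlt)) (d2 (lt_of_le_of_lt m1 hlt))⟩
      · exact mul_le_mul_of_nonneg_left l0 (by positivity)
      · exact mul_le_mul_of_nonneg_left l1 (by positivity)

/-- The common denominators of the powers. -/
theorem Good.denGrowth (hf : Good κ S E ℓ f) (hS : ∀ p ∈ S, p.Prime)
    (hE : Summable (sparseTerm E)) (hℓ : ∀ p, 0 ≤ ℓ p) {Λ : ℝ}
    (hΛ : Real.exp (defect κ S E ℓ) < Λ) : DenGrowth Λ f := by
  classical
  intro k
  obtain ⟨h1, m₀, h2, h3⟩ := hf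
  set L1 := defect κ S E ℓ with hL1
  have hΛ0 : 0 < Λ := (Real.exp_pos _).trans hΛ
  have hlog : L1 < Real.log Λ := by
    have := Real.log_lt_log (Real.exp_pos _) hΛ
    rwa [Real.log_exp] at this
  set σ : ℝ := ∑ p ∈ S, Real.log p with hσ
  have hσ0 : 0 ≤ σ := Finset.sum_nonneg fun p hp =>
    Real.log_nonneg (by exact_mod_cast (hS p hp).one_lt.le)
  set ε : ℝ := (Real.log Λ - L1) / (2 * (σ + 1)) with hε
  have hε0 : 0 < ε := div_pos (by linarith) (by positivity)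
  have hεσ : ε * σ < Real.log Λ - L1 := by
    rw [hε, div_mul_eq_mul_div, div_lt_iff₀ (by positivity)]
    nlinarith
  -- the constants at the bad primes
  have hbad' : ∀ p : ℕ, ∃ c : ℕ, (p ∉ S → c = 0) ∧ ∀ [Fact p.Prime], p ∈ S → ∀ s,
      ‖((PowerSeries.coeff s f : ℚ) : ℚ_[p])‖ ≤
        ((p : ℝ) ^ (ℓ p + ε)) ^ s * (p : ℝ) ^ c := by
    intro p
    by_cases hp : p ∈ S
    · have hpp := hS p hp
      have := Fact.mk hpp
      obtain ⟨K, hK⟩ := h1 p hp ε hε0
      have hp1 : (1 : ℝ) < p := by exact_mod_cast hpp.one_lt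
      obtain ⟨c, hc⟩ := pow_unbounded_of_one_lt K hp1
      refine ⟨c, fun h => absurd hp h, fun _ s => (hK s).trans ?_⟩
      rw [mul_comm, Real.rpow_mul (by positivity), Real.rpow_natCast]
      exact mul_le_mul_of_nonneg_left hc.le (by positivity)
    · exact ⟨0, fun _ => rfl, fun h => absurd h hp⟩
  choose c hc0 hc using hbad'
  set α : ℕ → ℝ := fun p => if p ∈ S then ℓ p + ε else if p.Prime then
    (if p ∈ E then κ / ((p : ℝ) - 1) else κ / ((p : ℝ) * (p - 1))) else 0 with hα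
  have hαS : ∀ p, p ∈ S → α p = ℓ p + ε := fun p hp => if_pos hp
  have hαE : ∀ p, p ∉ S → p.Prime → p ∈ E → α p = κ / ((p : ℝ) - 1) := by
    intro p h1 h2 h3
    rw [hα]
    simp only
    rw [if_neg h1, if_pos h2, if_pos h3]
  have hαG : ∀ p, p ∉ S → p.Prime → p ∉ E → α p = κ / ((p : ℝ) * (p - 1)) := by
    intro p h1 h2 h3
    rw [hα]
    simp only
    rw [if_neg h1, if_pos h2, if_neg h3]
  have hα0 : ∀ p, 0 ≤ α p := by
    intro p
    by_cases h : p ∈ S
    · rw [hαS p h]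
      have := hℓ p
      linarith
    · by_cases hp : p.Prime
      · have h2 : (1 : ℝ) ≤ p := by exact_mod_cast hp.one_lt.le
        have h3 : (0 : ℝ) ≤ p - 1 := by linarith
        by_cases hE' : p ∈ E
        · rw [hαE p h hp hE']; positivity
        · rw [hαG p h hp hE']; positivity
      · rw [hα]
        simp only
        rw [if_neg h, if_neg hp]
  refine den_abstract_sparse (f := f) (S := S) hS hE (α := α) hα0 κ m₀ h2 c hc0 ?_ ?_
    (L0 := L1 + ε * σ) ?_ ?_ k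
  · intro p hp n s hs
    by_cases hpS : p ∈ S
    · rw [hαS p hpS]
      refine (hc p hpS s).trans (mul_le_mul_of_nonneg_left ?_ (by positivity))
      exact pow_le_pow_right₀ (by exact_mod_cast hp.out.one_lt.le) (Nat.le_add_left _ _)
    · rw [hc0 p hpS, add_zero]
      by_cases hpE : p ∈ E
      · rw [hαE p hpS hp.out hpE]
        exact ((h3 p hpS n s hs).1 hpE).1
      · rw [hαG p hpS hp.out hpE]
        exact ((h3 p hpS n s hs).2 hpE).1
  · intro p hp n hpS hltE hlt s hs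
    by_cases hpE : p ∈ E
    · exact ((h3 p hpS n s hs).1 hpE).2 (hltE hpE)
    · exact ((h3 p hpS n s hs).2 hpE).2 hlt
  · intro T hT
    have h1 : ∑ p ∈ T, α p * Real.log p = ∑ p ∈ T.filter (· ∈ S), (ℓ p + ε) * Real.log p +
        ∑ p ∈ T.filter (· ∉ S), κ * outTerm S E p := by
      rw [← Finset.sum_filter_add_sum_filter_not T (· ∈ S)]
      congr 1
      · refine Finset.sum_congr rfl fun p hp => ?_
        rw [hαS p (Finset.mem_filter.mp hp).2]
      · refine Finset.sum_congr rfl fun p hp => ?_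
        rw [Finset.mem_filter] at hp
        have h2 : p.Prime ∧ p ∉ S := ⟨hT p hp.1, hp.2⟩
        unfold outTerm
        rw [if_pos h2]
        by_cases hpE : p ∈ E
        · rw [hαE p hp.2 (hT p hp.1) hpE, if_pos hpE]
          ring
        · rw [hαG p hp.2 (hT p hp.1) hpE, if_neg hpE]
          ring
    have h2 : ∑ p ∈ T.filter (· ∈ S), (ℓ p + ε) * Real.log p ≤
        ∑ p ∈ S, (ℓ p + ε) * Real.log p := by
      refine Finset.sum_le_sum_of_subset_of_nonneg (fun p hp => (Finset.mem_filter.mp hp).2)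
        fun p hp _ => ?_
      have h3 := hℓ p
      have h4 : 0 ≤ Real.log p := Real.log_nonneg (by exact_mod_cast (hS p hp).one_lt.le)
      positivity
    have h3 : ∑ p ∈ S, (ℓ p + ε) * Real.log p = ∑ p ∈ S, ℓ p * Real.log p + ε * σ := by
      rw [hσ, Finset.mul_sum, ← Finset.sum_add_distrib]
      exact Finset.sum_congr rfl fun p _ => by ring
    have h4 : ∑ p ∈ T.filter (· ∉ S), κ * outTerm S E p ≤
        κ * ∑' p : ℕ, outTerm S E p := by
      rw [← Finset.mul_sum]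
      refine mul_le_mul_of_nonneg_left ?_ (by positivity)
      exact (summable_outTerm S hE).sum_le_tsum _ fun p _ => outTerm_nonneg S E p
    rw [h1, hL1]
    unfold defect
    linarith
  · calc Real.exp (L1 + ε * σ) < Real.exp (Real.log Λ) := Real.exp_lt_exp.mpr (by linarith)
      _ = Λ := Real.exp_log hΛ0

end group

section entries

variable {idx : Type*} [Fintype idx] [DecidableEq idx] {A₁ : Matrix idx idx (Polynomial ℤ)}
  {D n : ℕ} {β : idx → ℚ} {U : Matrix idx idx (PowerSeries ℚ)}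

/-- The entries of the fundamental matrices. -/
theorem good_entry (hD : D ≠ 0) (hgap : ∀ i j, |β i - β j| < 1) (hdet : (ccM U).det ≠ 0)
    (hU : ∀ j, IsSolG (Aps (Int.castRingHom ℚ) (D : ℚ)⁻¹ n A₁) (β j) (fun i => U i j))
    (hint : ∀ i j, ∃ z : ℤ, PowerSeries.coeff 0 (U i j) = z) {κ : ℕ} {S : Finset ℕ}
    (hDS : ∀ p, p.Prime → p ∣ D → p ∈ S) {E : Set ℕ} {ℓ : ℕ → ℝ}
    (hbad : ∀ (p : ℕ) [Fact p.Prime], p ∈ S → ∀ i j, PadicRadius p (U i j) (ℓ p))
    (hgood : ∀ (p : ℕ) [Fact p.Prime], p ∉ S → p ∉ E →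
      MG (Aps (Int.castRingHom (ZMod p)) (D : ZMod p)⁻¹ n A₁) p = 0)
    (hκ : numExp β ≤ κ) (j i : idx) : Good κ S E ℓ (U j i) := by
  classical
  have hcmp : ∀ n : ℕ, dmax β * (n + 2) ≤ 2 * dmax β * (n + 1) := by
    intro n
    have : n + 2 ≤ 2 * (n + 1) := by omega
    calc dmax β * (n + 2) ≤ dmax β * (2 * (n + 1)) := Nat.mul_le_mul_left _ this
      _ = _ := by ring
  have hcard : ∀ p, (Gset β i p).card ≤ κ := fun p => (card_Gset_le β i p).trans hκ
  refine ⟨fun p _ hp => hbad p hp j i, 2 * dmax β, by unfold dmax; omega,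
    fun p hp hpS n' s hs => ?_⟩
  have hpD : ¬ p ∣ D := fun h => hpS (hDS p hp.out h)
  have hlogle : (p : ℝ) ^ (κ * Nat.log p (dmax β * (n' + 2))) ≤
      (p : ℝ) ^ (κ * Nat.log p (2 * dmax β * (n' + 1))) :=
    pow_le_pow_right₀ (by exact_mod_cast hp.out.one_lt.le)
      (Nat.mul_le_mul_left _ (Nat.log_mono_right (hcmp n')))
  obtain ⟨g1, g2, g3⟩ := Gset_spec (i := i) hgap p
  constructor
  · intro hpE
    refine ⟨?_, fun hlt => ?_⟩
    · refine (gmid_local hD hgap hdet hU hint hpD i s j).trans ?_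
      refine (prod_omegaf_le hp.out g1 g2 g3 hs (hcard p) (hcard p)).trans ?_
      rw [Nat.cast_zero, zero_add, pow_zero, one_mul]
      exact mul_le_mul_of_nonneg_left hlogle (by positivity)
    · refine (gmid_local hD hgap hdet hU hint hpD i s j).trans (le_of_eq ?_)
      exact prod_omegaf_eq_one' hp.out g1 g2 g3 hs (lt_of_le_of_lt (hcmp n') hlt)
  · intro hpE
    refine ⟨?_, fun hlt => ?_⟩
    · refine (ggood_local hD hgap hdet hU hint hpD (hgood p hpS hpE) i s j).trans ?_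
      refine (prod_omegaf_le hp.out g1 g2 g3 hs (hcard p) (hcard p)).trans ?_
      rw [Nat.cast_zero, zero_add, pow_one]
      exact mul_le_mul_of_nonneg_left hlogle (by positivity)
    · refine (ggood_local hD hgap hdet hU hint hpD (hgood p hpS hpE) i s j).trans (le_of_eq ?_)
      exact prod_omegaf_eq_one hp.out g1 g2 g3 hs (lt_of_le_of_lt (hcmp n') hlt)

end entries

end Pool.Agent.H925
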