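import Pool.Agent.H925.InfBase

/-!
# Two characteristic polynomials with the same minor (helper115, for helper925)
-/

set_option autoImplicit false

open Polynomial Matrix

namespace Pool.Agent.H115.Inf

open Pool.Agent.H925

theorem t_DETROW : S_DETROW := by
  intro k _ r H H₁ i₀ μ μ₁ h1 h2 h3
  cases r with
  | zero => exact i₀.elim0
  | succ n =>
    have hs : (charmatrix H₁).submatrix i₀.succAbove i₀.succAbove =
        (charmatrix H).submatrix i₀.succAbove i₀.succAbove := by
      ext i j
      rw [submatrix_apply, submatrix_apply, charmatrix_apply, charmatrix_apply,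
        h3 _ _ (Fin.succAbove_ne _ _) (Fin.succAbove_ne _ _)]
    have hsgn : ((-1 : Polynomial k)) ^ ((i₀ : ℕ) + (i₀ : ℕ)) = 1 := Even.neg_one_pow ⟨_, rfl⟩
    have e1 : H.charpoly = (Polynomial.X - Polynomial.C μ) *
        ((charmatrix H).submatrix i₀.succAbove i₀.succAbove).det := by
      unfold Matrix.charpoly
      rw [Matrix.det_succ_row _ i₀, Finset.sum_eq_single i₀]
      · rw [hsgn, charmatrix_apply_eq, h1, if_pos rfl, one_mul]
      · intro j _ hj
        rw [charmatrix_apply_ne _ _ _ (Ne.symm hj), h1, if_neg hj, Polynomial.C_0, neg_zero,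
          mul_zero, zero_mul]
      · intro h
        exact absurd (Finset.mem_univ _) h
    have e2 : H₁.charpoly = (Polynomial.X - Polynomial.C μ₁) *
        ((charmatrix H₁).submatrix i₀.succAbove i₀.succAbove).det := by
      unfold Matrix.charpoly
      rw [Matrix.det_succ_column _ i₀, Finset.sum_eq_single i₀]
      · rw [hsgn, charmatrix_apply_eq, h2, if_pos rfl, one_mul]
      · intro i _ hi
        rw [charmatrix_apply_ne _ _ _ hi, h2, if_neg hi, Polynomial.C_0, neg_zero,
          mul_zero, zero_mul]
      · intro h
        exact absurd (Finset.mem_univ _) h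
    rw [e1, e2, hs]
    ring

end Pool.Agent.H115.Inf
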