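import Pool.Agent.H925.InfBase

/-!
# The shearing loop (`S_LOOP` from `S_SHEAR`)
-/

set_option autoImplicit false

open Finset NumberField

namespace Pool.Agent.H925

theorem gaugeI_one {k idx : Type*} [CommRing k] [Fintype idx] [DecidableEq idx] (D : ℕ)
    (A : Matrix idx idx (Polynomial k)) : gaugeI D A 1 1 = A := by
  have h0 : (1 : Matrix idx idx (Polynomial k)).map Polynomial.derivative = 0 := by
    ext1 i j
    by_cases hij : i = j
    · subst hij
      simp [Matrix.map_apply]
    · simp [Matrix.map_apply, Matrix.one_apply_ne hij]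
  rw [gaugeI, h0, zero_mul, smul_zero, zero_add, one_mul, mul_one]

theorem t_LOOP (h : S_SHEAR) : S_LOOP := by
  intro K _ _ r D A μ c _ hA hchar hμ
  have aux : ∀ n m : ℕ, ∀ (T T' : Matrix (Fin r) (Fin r) (Polynomial K)) (ν : Fin r → ℚ),
      T * T' = Matrix.diagonal (fun _ => Polynomial.X ^ m) →
      T' * T = Matrix.diagonal (fun _ => Polynomial.X ^ m) →
      (∀ i j, (gaugeI D A T T' i j).natDegree ≤ m + 1) →
      (leadM D m A T T').charpoly =
        ∏ i, (Polynomial.X - Polynomial.C (((D : ℚ) * ν i : ℚ) : K)) →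
      (∀ i, ν i ≤ c ∧ ∃ z : ℤ, ν i = μ i + z) →
      ∑ i, ⌊(c : ℚ) - ν i⌋₊ = n →
      ∃ (m : ℕ) (T T' : Matrix (Fin r) (Fin r) (Polynomial K)) (ν : Fin r → ℚ),
        T * T' = Matrix.diagonal (fun _ => Polynomial.X ^ m) ∧
        T' * T = Matrix.diagonal (fun _ => Polynomial.X ^ m) ∧
        (∀ i j, (gaugeI D A T T' i j).natDegree ≤ m + 1) ∧
        (leadM D m A T T').charpoly =
          ∏ i, (Polynomial.X - Polynomial.C (((D : ℚ) * ν i : ℚ) : K)) ∧
        ∀ i, (c : ℚ) - 1 < ν i ∧ ν i ≤ c ∧ ∃ z : ℤ, ν i = μ i + z := by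
    intro n
    induction n using Nat.strong_induction_on with
    | _ n ih =>
      intro m T T' ν h1 h2 h3 h4 h5 h6
      by_cases hall : ∀ i, (c : ℚ) - 1 < ν i
      · exact ⟨m, T, T', ν, h1, h2, h3, h4, fun i => ⟨hall i, (h5 i).1, (h5 i).2⟩⟩
      · push Not at hall
        obtain ⟨i₀, hi₀⟩ := hall
        have hroot : (leadM D m A T T').charpoly.IsRoot (((D : ℚ) * ν i₀ : ℚ) : K) := by
          rw [h4, Polynomial.IsRoot.def, Polynomial.eval_prod]
          exact Finset.prod_eq_zero (Finset.mem_univ i₀) (by simp)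
        obtain ⟨T₁, T₁', g1, g2, g3, g4⟩ := h K r D m A T T' _ h1 h2 h3 hroot
        have hprod : ∀ f : Fin r → ℚ,
            ∏ i, (Polynomial.X - Polynomial.C (((D : ℚ) * f i : ℚ) : K)) =
              (Polynomial.X - Polynomial.C (((D : ℚ) * f i₀ : ℚ) : K)) *
                ∏ i ∈ univ.erase i₀, (Polynomial.X - Polynomial.C (((D : ℚ) * f i : ℚ) : K)) :=
          fun f => (Finset.mul_prod_erase univ
            (fun i => (Polynomial.X - Polynomial.C (((D : ℚ) * f i : ℚ) : K)))
            (Finset.mem_univ i₀)).symm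
        have hc1 : (leadM D (m + 1) A T₁ T₁').charpoly =
            ∏ i, (Polynomial.X - Polynomial.C
              (((D : ℚ) * (Function.update ν i₀ (ν i₀ + 1)) i : ℚ) : K)) := by
          have hne : (Polynomial.X - Polynomial.C (((D : ℚ) * ν i₀ : ℚ) : K)) ≠ 0 :=
            Polynomial.X_sub_C_ne_zero _
          apply mul_left_cancel₀ hne
          rw [g4, h4, hprod ν, hprod (Function.update ν i₀ (ν i₀ + 1))]
          have e1 : ∏ i ∈ univ.erase i₀, (Polynomial.X - Polynomial.C
                (((D : ℚ) * (Function.update ν i₀ (ν i₀ + 1)) i : ℚ) : K)) =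
              ∏ i ∈ univ.erase i₀, (Polynomial.X - Polynomial.C (((D : ℚ) * ν i : ℚ) : K)) :=
            Finset.prod_congr rfl fun i hi => by
              rw [Function.update_of_ne (Finset.ne_of_mem_erase hi)]
          have e2 : ((((D : ℚ) * (Function.update ν i₀ (ν i₀ + 1)) i₀ : ℚ)) : K) =
              (((D : ℚ) * ν i₀ : ℚ) : K) + (D : K) := by
            rw [Function.update_self]
            push_cast
            ring
          rw [e1, e2]
          ring
        have hlt : ∑ i, ⌊(c : ℚ) - (Function.update ν i₀ (ν i₀ + 1)) i⌋₊ < n := by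
          rw [← h6]
          apply Finset.sum_lt_sum
          · intro i _
            by_cases hi : i = i₀
            · subst hi
              rw [Function.update_self]
              exact Nat.floor_le_floor (by linarith)
            · rw [Function.update_of_ne hi]
          · refine ⟨i₀, Finset.mem_univ _, ?_⟩
            rw [Function.update_self]
            have e : (c : ℚ) - (ν i₀ + 1) = ((c : ℚ) - ν i₀) - 1 := by ring
            rw [e, Nat.floor_sub_one]
            have : 1 ≤ ⌊(c : ℚ) - ν i₀⌋₊ := Nat.le_floor (by push_cast; linarith)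
            omega
        refine ih _ hlt (m + 1) T₁ T₁' (Function.update ν i₀ (ν i₀ + 1)) g1 g2 g3 hc1
          (fun i => ?_) rfl
        by_cases hi : i = i₀
        · subst hi
          rw [Function.update_self]
          obtain ⟨z, hz⟩ := (h5 i).2
          exact ⟨by linarith, z + 1, by rw [hz]; push_cast; ring⟩
        · rw [Function.update_of_ne hi]
          exact h5 i
  refine aux _ 0 1 1 μ (by simp) (by simp) ?_ ?_ (fun i => ⟨hμ i, 0, by simp⟩) rfl
  · intro i j
    rw [gaugeI_one]
    exact hA i j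
  · rw [leadM, gaugeI_one]
    exact hchar

end Pool.Agent.H925
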