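import Pool.Agent.H925.InfBase
import Pool.Graph.R_seed8.TH141.ES.Rational

/-!
# The eigenvalues of a matrix annihilated modulo all large primes are rational integers
-/

set_option autoImplicit false

open Finset NumberField Polynomial

namespace Pool.Agent.H494.InfRat

open Pool.Agent.H925

/-- eigenvalues are congruent to rational integers -/
lemma resid {K : Type} [Field K] [NumberField K] {L : Type} [Field L] [NumberField L]
    [Algebra (𝓞 K) (𝓞 L)] [Algebra.IsIntegral (𝓞 K) (𝓞 L)] {r : ℕ}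
    (B : Matrix (Fin r) (Fin r) (𝓞 K)) (d P₀ : ℕ) (hB : ModAnn K B d P₀) (l : 𝓞 L)
    (hl : ((B.map (algebraMap (𝓞 K) (𝓞 L))).charpoly).IsRoot l)
    (𝔪 : Ideal (𝓞 L)) (h𝔪 : 𝔪.IsMaximal) (hg : ((P₀.factorial : ℕ) : 𝓞 L) ∉ 𝔪) (p : ℕ)
    (hp : p.Prime) (hp𝔪 : (p : 𝓞 L) ∈ 𝔪) : ∃ n : ℤ, l - n * 1 ∈ 𝔪 := by
  classical
  have hP : P₀ < p := by
    by_contra hcon
    push Not at hcon
    apply hg
    obtain ⟨c, hc⟩ := (Nat.Prime.dvd_factorial hp).2 hcon
    rw [hc]; push_cast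
    exact Ideal.mul_mem_right _ _ hp𝔪
  set 𝔭 : Ideal (𝓞 K) := 𝔪.comap (algebraMap (𝓞 K) (𝓞 L)) with h𝔭
  haveI hmax : 𝔭.IsMaximal := Ideal.isMaximal_comap_of_isIntegral_of_isMaximal 𝔪
  have hp𝔭 : (p : 𝓞 K) ∈ 𝔭 := by
    rw [h𝔭, Ideal.mem_comap]; simpa using hp𝔪
  have h1 := hB p hp hP 𝔭 hp𝔭
  letI : Field (𝓞 L ⧸ 𝔪) := Ideal.Quotient.field 𝔪
  set ψ : (𝓞 K ⧸ 𝔭) →+* (𝓞 L ⧸ 𝔪) := Ideal.quotientMap 𝔪 (algebraMap (𝓞 K) (𝓞 L)) le_rfl with hψ
  set M : Matrix (Fin r) (Fin r) (𝓞 L ⧸ 𝔪) := (B.map (Ideal.Quotient.mk 𝔭)).map ψ with hM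
  have hM2 : M = (B.map (algebraMap (𝓞 K) (𝓞 L))).map (Ideal.Quotient.mk 𝔪) := by
    ext i j
    simp [hM, hψ, Matrix.map_apply, Ideal.quotientMap_mk]
  have h2 : aeval M (annPoly (𝓞 L ⧸ 𝔪) d p) = 0 := by
    have h3 : annPoly (𝓞 L ⧸ 𝔪) d p = (annPoly (𝓞 K ⧸ 𝔭) d p).map ψ := by
      unfold annPoly
      rw [Polynomial.map_prod]
      refine prod_congr rfl fun j _ => ?_
      simp
    have h4 := Polynomial.map_aeval_eq_aeval_map (φ := ψ) (ψ := ψ.mapMatrix (m := Fin r))
      (by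
        ext x i j
        by_cases hij : i = j
        · subst hij; simp [Matrix.algebraMap_matrix_apply]
        · simp [Matrix.algebraMap_matrix_apply, hij])
      (annPoly (𝓞 K ⧸ 𝔭) d p) (B.map (Ideal.Quotient.mk 𝔭))
    rw [h3]
    have h5 : ψ.mapMatrix (B.map (Ideal.Quotient.mk 𝔭)) = M := rfl
    rw [h5, h1, map_zero] at h4
    exact h4.symm
  have h6 : M.charpoly.IsRoot (Ideal.Quotient.mk 𝔪 l) := by
    rw [hM2, Matrix.charpoly_map]
    rw [Polynomial.IsRoot.def] at hl ⊢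
    rw [Polynomial.eval_map, Polynomial.eval₂_at_apply, hl, map_zero]
  have h7 : Ideal.Quotient.mk 𝔪 l ∈ spectrum (𝓞 L ⧸ 𝔪) M :=
    Matrix.mem_spectrum_iff_isRoot_charpoly.2 h6
  have hr : r ≠ 0 := by
    rintro rfl
    rw [Matrix.charpoly, Matrix.det_fin_zero] at h6
    simp [Polynomial.IsRoot.def] at h6
  haveI : Nonempty (Fin r) := ⟨⟨0, Nat.pos_of_ne_zero hr⟩⟩
  have h8 : (annPoly (𝓞 L ⧸ 𝔪) d p).eval (Ideal.Quotient.mk 𝔪 l) = 0 := by
    have := spectrum.subset_polynomial_aeval M (annPoly (𝓞 L ⧸ 𝔪) d p) ⟨_, h7, rfl⟩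
    rw [h2, spectrum.zero_eq] at this
    exact this
  unfold annPoly at h8
  rw [Polynomial.eval_prod, Finset.prod_eq_zero_iff] at h8
  obtain ⟨j, _, hj⟩ := h8
  refine ⟨-((j * d : ℕ) : ℤ), ?_⟩
  rw [← Ideal.Quotient.eq_zero_iff_mem]
  simp only [Polynomial.eval_add, Polynomial.eval_X, Polynomial.eval_C] at hj
  rw [map_sub, map_mul, map_one, mul_one]
  push_cast
  push_cast at hj
  rw [map_neg, sub_neg_eq_add, map_mul, map_natCast, map_natCast]
  exact hj

lemma int_of_rat {L : Type} [Field L] [NumberField L] (l : 𝓞 L) (u v : ℤ) (hv : 0 < v)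
    (h : (v : 𝓞 L) * l = u * 1) : ∃ n : ℤ, (l : L) = n := by
  have h1 : (v : L) * (l : L) = u := by
    have := congrArg (algebraMap (𝓞 L) L) h
    simpa using this
  have hv' : (v : L) ≠ 0 := by exact_mod_cast hv.ne'
  have h2 : (l : L) = algebraMap ℚ L ((u : ℚ) / v) := by
    rw [map_div₀]; simp only [map_intCast]
    rw [eq_div_iff hv', mul_comm]; exact h1
  have h3 : IsIntegral ℤ (l : L) := NumberField.RingOfIntegers.isIntegral_coe l
  rw [h2, isIntegral_algebraMap_iff (FaithfulSMul.algebraMap_injective ℚ L)] at h3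
  obtain ⟨n, hn⟩ := IsIntegrallyClosed.isIntegral_iff.1 h3
  refine ⟨n, ?_⟩
  rw [h2, ← hn]
  simp

lemma main {K : Type} [Field K] [NumberField K] (L : Type) [Field L] [NumberField L]
    [Algebra K L] {r : ℕ} (B : Matrix (Fin r) (Fin r) (𝓞 K)) (d P₀ : ℕ) (hB : ModAnn K B d P₀)
    (hs : (((B.map (algebraMap (𝓞 K) K)).charpoly).map (algebraMap K L)).Splits) :
    ∃ μ : Fin r → ℤ, (B.map (algebraMap (𝓞 K) K)).charpoly =
      ∏ i, (Polynomial.X - Polynomial.C ((μ i : ℤ) : K)) := by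
  classical
  have hmonic : ((B.map (algebraMap (𝓞 K) K)).charpoly).Monic := Matrix.charpoly_monic _
  set s := (((B.map (algebraMap (𝓞 K) K)).charpoly).map (algebraMap K L)).roots with hsdef
  have hprod : ((B.map (algebraMap (𝓞 K) K)).charpoly).map (algebraMap K L) =
      (s.map fun a => X - C a).prod :=
    hs.eq_prod_roots_of_monic (hmonic.map _)
  have hint : ∀ a ∈ s, ∃ n : ℤ, a = n := by
    intro a ha
    have hroot : (((B.map (algebraMap (𝓞 K) K)).charpoly).map (algebraMap K L)).IsRoot a :=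
      (Polynomial.mem_roots'.1 ha).2
    have hBL : ((B.map (algebraMap (𝓞 K) K)).charpoly).map (algebraMap K L) =
        B.charpoly.map (algebraMap (𝓞 K) L) := by
      rw [Matrix.charpoly_map, Polynomial.map_map, IsScalarTower.algebraMap_eq (𝓞 K) K L]
    have haint : IsIntegral (𝓞 K) a := by
      refine ⟨B.charpoly, Matrix.charpoly_monic _, ?_⟩
      rw [← Polynomial.eval_map, ← hBL]
      exact hroot
    have haZ : IsIntegral ℤ a := isIntegral_trans (R := ℤ) (A := 𝓞 K) a haint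
    let l : 𝓞 L := ⟨a, haZ⟩
    have hl : ((B.map (algebraMap (𝓞 K) (𝓞 L))).charpoly).IsRoot l := by
      rw [Polynomial.IsRoot.def]
      apply FaithfulSMul.algebraMap_injective (𝓞 L) L
      rw [map_zero, ← Polynomial.eval₂_at_apply, ← Polynomial.eval_map, ← Matrix.charpoly_map]
      have : (B.map (algebraMap (𝓞 K) (𝓞 L))).map (algebraMap (𝓞 L) L) =
          B.map (algebraMap (𝓞 K) L) := by
        ext i j
        simp only [Matrix.map_apply]
        exact (IsScalarTower.algebraMap_apply (𝓞 K) (𝓞 L) L (B i j)).symm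
      rw [this, Matrix.charpoly_map, ← hBL]
      exact hroot
    obtain ⟨u, v, hv, huv⟩ := Pool.Agent.TH141.ES.rational_of_residues (R := 𝓞 L)
      (g := ((P₀.factorial : ℕ) : 𝓞 L)) (a := 1) (b := l)
      (by exact_mod_cast Nat.factorial_ne_zero P₀) one_ne_zero
      (fun 𝔪 h𝔪 hg p hp hp𝔪 => resid B d P₀ hB l hl 𝔪 h𝔪 hg p hp hp𝔪)
    obtain ⟨n, hn⟩ := int_of_rat l u v hv huv
    exact ⟨n, hn⟩
  have hcard : Multiset.card s = r := by
    have h1 := hs.natDegree_eq_card_roots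
    rw [← hsdef, Polynomial.natDegree_map, Matrix.charpoly_natDegree_eq_dim, Fintype.card_fin] at h1
    exact h1.symm
  -- lift the roots to integers
  obtain ⟨t, ht⟩ : ∃ t : Multiset ℤ, t.map (fun n : ℤ => (n : L)) = s := by
    choose! g hg using hint
    refine ⟨s.map g, ?_⟩
    rw [Multiset.map_map]
    conv_rhs => rw [← Multiset.map_id s]
    exact Multiset.map_congr rfl fun a ha => (hg a ha).symm
  have htc : t.toList.length = r := by
    rw [Multiset.length_toList, ← hcard, ← ht, Multiset.card_map]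
  refine ⟨fun i => t.toList.get (i.cast htc.symm), ?_⟩
  apply Polynomial.map_injective (algebraMap K L) (algebraMap K L).injective
  rw [hprod, ← ht, Multiset.map_map, Polynomial.map_prod]
  have h1 : ∀ i : Fin r, Polynomial.map (algebraMap K L)
      (X - C (((t.toList.get (i.cast htc.symm) : ℤ)) : K)) =
      X - C (((t.toList.get (i.cast htc.symm) : ℤ)) : L) := fun i => by simp
  rw [Finset.prod_congr rfl fun i _ => h1 i]
  have h2 : ∏ i : Fin r, (X - C (((t.toList.get (i.cast htc.symm) : ℤ)) : L)) =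
      ∏ i : Fin t.toList.length, (X - C (((t.toList.get i : ℤ)) : L)) :=
    Fintype.prod_equiv (finCongr htc.symm) _ _ fun i => rfl
  rw [h2]
  have h3 : ∏ i : Fin t.toList.length, (X - C (((t.toList.get i : ℤ)) : L)) =
      (t.toList.map (fun n : ℤ => (X - C ((n : ℤ) : L) : L[X]))).prod := by
    rw [← List.prod_ofFn]
    congr 1
    conv_rhs => rw [← List.ofFn_get t.toList]
    rw [List.map_ofFn]
    rfl
  rw [h3]
  conv_lhs => rw [← Multiset.coe_toList t]
  rw [Multiset.map_coe, Multiset.prod_coe]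
  rfl

theorem t_RAT : S_RAT := by
  intro K _ _ r B d P₀ hB
  have hs := Polynomial.SplittingField.splits ((B.map (algebraMap (𝓞 K) K)).charpoly)
  haveI : CharZero (Polynomial.SplittingField ((B.map (algebraMap (𝓞 K) K)).charpoly)) :=
    charZero_of_injective_algebraMap (algebraMap K _).injective
  haveI : NumberField (Polynomial.SplittingField ((B.map (algebraMap (𝓞 K) K)).charpoly)) :=
    NumberField.of_module_finite K _
  exact main _ B d P₀ hB hs

end Pool.Agent.H494.InfRat
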