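import Pool.Agent.H925.InfBase

/-!
# A matrix annihilated by a product of different linear factors modulo all large primes is semisimple
-/

set_option autoImplicit false

open Finset NumberField Polynomial

namespace Pool.Agent.H494.InfSqf

open Pool.Agent.H925

/-- a maximal ideal above `p` -/
lemma exists_max (K : Type) [Field K] [NumberField K] (p : ℕ) (hp : p.Prime) :
    ∃ 𝔭 : Ideal (𝓞 K), 𝔭.IsMaximal ∧ (p : 𝓞 K) ∈ 𝔭 ∧ ∀ n : ℤ, (n : 𝓞 K) ∈ 𝔭 → (p : ℤ) ∣ n := by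
  haveI : Fact p.Prime := ⟨hp⟩
  haveI hm : (Ideal.span {(p : ℤ)}).IsMaximal :=
    PrincipalIdealRing.isMaximal_of_irreducible (Nat.prime_iff_prime_int.1 hp).irreducible
  obtain ⟨Q, hQ, hQ2⟩ := Ideal.exists_maximal_ideal_liesOver_of_isIntegral (S := 𝓞 K)
    (Ideal.span {(p : ℤ)})
  refine ⟨Q, hQ, ?_, ?_⟩
  · have h1 : (p : ℤ) ∈ Ideal.span {(p : ℤ)} := Ideal.mem_span_singleton_self _
    have := (Ideal.mem_of_liesOver Q (Ideal.span {(p : ℤ)}) (p : ℤ)).1 h1
    simpa using this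
  · intro n hn
    have : algebraMap ℤ (𝓞 K) n ∈ Q := by simpa using hn
    have := (Ideal.mem_of_liesOver Q (Ideal.span {(p : ℤ)}) n).2 this
    exact Ideal.mem_span_singleton.1 this

lemma annPoly_sqf (k : Type) [Field k] (p : ℕ) (hp : p.Prime) (hk : ∀ n : ℤ, (n : k) = 0 → (p : ℤ) ∣ n)
    (d : ℕ) (hd : ¬ p ∣ d) : Squarefree (annPoly k d p) := by
  have h : annPoly k d p = ∏ j ∈ range p, (X - C (-((j * d : ℕ) : k))) := by
    unfold annPoly
    exact prod_congr rfl fun j _ => by rw [C_neg, sub_neg_eq_add]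
  rw [h]
  refine Polynomial.Separable.squarefree (Polynomial.separable_prod_X_sub_C_iff'.2 ?_)
  intro x hx y hy hxy
  have h1 : (((x * d : ℕ) : ℤ) - ((y * d : ℕ) : ℤ) : ℤ) = ((x : ℤ) - y) * d := by push_cast; ring
  have h2 : ((((x : ℤ) - y) * d : ℤ) : k) = 0 := by
    rw [← h1]; push_cast
    have := neg_injective hxy
    push_cast at this
    rw [this, sub_self]
  have h3 := hk _ h2
  rcases (Nat.prime_iff_prime_int.1 hp).dvd_or_dvd h3 with h4 | h4
  · have hx' := mem_range.1 hx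
    have hy' := mem_range.1 hy
    have h5 : (x : ℤ) - y = 0 := by
      apply Int.eq_zero_of_abs_lt_dvd h4
      rw [abs_lt]; constructor <;> omega
    omega
  · exact absurd (by exact_mod_cast h4) hd

theorem t_SQF : S_SQF := by
  intro K _ _ r B d P₀ μ hd hB hch
  classical
  set f : ℤ[X] := ∏ l ∈ univ.image μ, (X - C l) with hf
  set B' := B.map (algebraMap (𝓞 K) K) with hB'
  -- the characteristic polynomial over the integers
  have hchO : B.charpoly = ∏ i, (X - C ((μ i : ℤ) : 𝓞 K)) := by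
    apply Polynomial.map_injective (algebraMap (𝓞 K) K) (FaithfulSMul.algebraMap_injective (𝓞 K) K)
    rw [← Matrix.charpoly_map, ← hB', hch, Polynomial.map_prod]
    refine prod_congr rfl fun i _ => ?_
    simp
  -- vanishing modulo maximal ideals
  have hmod : ∀ p : ℕ, p.Prime → P₀ < p → d < p → ∀ (𝔭 : Ideal (𝓞 K)), 𝔭.IsMaximal →
      (p : 𝓞 K) ∈ 𝔭 → (∀ n : ℤ, (n : 𝓞 K) ∈ 𝔭 → (p : ℤ) ∣ n) → ∀ i j,
      (aeval B f) i j ∈ 𝔭 := by
    intro p hp hp0 hpd 𝔭 hmax hp𝔭 hdiv i j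
    haveI := hmax
    letI : Field (𝓞 K ⧸ 𝔭) := Ideal.Quotient.field 𝔭
    set b := B.map (Ideal.Quotient.mk 𝔭) with hb
    have h1 : aeval b (annPoly (𝓞 K ⧸ 𝔭) d p) = 0 := hB p hp hp0 𝔭 hp𝔭
    have hk : ∀ n : ℤ, (n : 𝓞 K ⧸ 𝔭) = 0 → (p : ℤ) ∣ n := by
      intro n hn
      apply hdiv
      rw [← Ideal.Quotient.eq_zero_iff_mem]
      simpa using hn
    have h2 : Squarefree (annPoly (𝓞 K ⧸ 𝔭) d p) :=
      annPoly_sqf _ p hp hk d (fun h => absurd (Nat.le_of_dvd (Nat.pos_of_ne_zero hd) h) (by omega))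
    have h3 : minpoly (𝓞 K ⧸ 𝔭) b ∣ annPoly (𝓞 K ⧸ 𝔭) d p := minpoly.dvd _ _ h1
    have h4 : Squarefree (minpoly (𝓞 K ⧸ 𝔭) b) := Squarefree.squarefree_of_dvd h3 h2
    have h5 : minpoly (𝓞 K ⧸ 𝔭) b ∣ b.charpoly := Matrix.minpoly_dvd_charpoly b
    have h6 : b.charpoly = ∏ i, (X - C ((μ i : ℤ) : 𝓞 K ⧸ 𝔭)) := by
      rw [hb, Matrix.charpoly_map, hchO, Polynomial.map_prod]
      refine prod_congr rfl fun i _ => ?_
      simp
    have h7 : b.charpoly ∣ (f.map (Int.castRingHom (𝓞 K ⧸ 𝔭))) ^ r := by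
      rw [h6]
      have : (f.map (Int.castRingHom (𝓞 K ⧸ 𝔭))) ^ r =
          ∏ _i : Fin r, f.map (Int.castRingHom (𝓞 K ⧸ 𝔭)) := by simp
      rw [this]
      refine Finset.prod_dvd_prod_of_dvd _ _ fun i _ => ?_
      rw [hf, Polynomial.map_prod]
      have : (X - C ((μ i : ℤ) : 𝓞 K ⧸ 𝔭)) = Polynomial.map (Int.castRingHom (𝓞 K ⧸ 𝔭)) (X - C (μ i)) := by
        simp
      rw [this]
      exact Finset.dvd_prod_of_mem (fun l => Polynomial.map (Int.castRingHom (𝓞 K ⧸ 𝔭)) (X - C l))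
        (mem_image_of_mem μ (mem_univ i))
    have hr : r ≠ 0 := by rintro rfl; exact i.elim0
    have h8 : minpoly (𝓞 K ⧸ 𝔭) b ∣ f.map (Int.castRingHom (𝓞 K ⧸ 𝔭)) :=
      (Squarefree.dvd_pow_iff_dvd h4 hr).1 (h5.trans h7)
    have h9 : aeval b (f.map (Int.castRingHom (𝓞 K ⧸ 𝔭))) = 0 := by
      obtain ⟨g, hg⟩ := h8
      rw [hg, map_mul, minpoly.aeval, zero_mul]
    have h10 : (aeval B f).map (Ideal.Quotient.mk 𝔭) = aeval b f := by
      have := Polynomial.map_aeval_eq_aeval_map (R := ℤ) (T := ℤ) (φ := RingHom.id ℤ)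
        (ψ := (Ideal.Quotient.mk 𝔭).mapMatrix (m := Fin r)) (Subsingleton.elim _ _) f B
      rw [Polynomial.map_id] at this
      exact this
    have h11 : aeval b f = aeval b (f.map (Int.castRingHom (𝓞 K ⧸ 𝔭))) := by
      refine Polynomial.aeval_eq_aeval_map (Subsingleton.elim _ _) f b
    have h12 : (aeval B f).map (Ideal.Quotient.mk 𝔭) = 0 := by rw [h10, h11, h9]
    have := congrFun (congrFun h12 i) j
    rw [Matrix.map_apply, Matrix.zero_apply, Ideal.Quotient.eq_zero_iff_mem] at this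
    exact this
  -- vanishing
  have hzero : aeval B f = 0 := by
    ext1 i j
    rw [Matrix.zero_apply]
    by_contra hx
    set x := (aeval B f) i j with hxdef
    set n := Ideal.absNorm (Ideal.span {x}) with hn
    have hn0 : n ≠ 0 := by
      intro h
      rw [hn, Ideal.absNorm_eq_zero_iff, Ideal.span_singleton_eq_bot] at h
      exact hx h
    obtain ⟨p, hpge, hp⟩ := Nat.exists_infinite_primes (P₀ + d + n + 1)
    obtain ⟨𝔭, hmax, hp𝔭, hdiv⟩ := exists_max K p hp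
    have h1 := hmod p hp (by omega) (by omega) 𝔭 hmax hp𝔭 hdiv i j
    have h2 : ((n : ℕ) : 𝓞 K) ∈ 𝔭 := by
      have h3 : ((n : ℕ) : 𝓞 K) ∈ Ideal.span {x} := Ideal.absNorm_mem _
      exact (Ideal.span_singleton_le_iff_mem 𝔭).2 h1 h3
    have h4 := hdiv (n : ℤ) (by simpa using h2)
    have h5 : p ∣ n := by exact_mod_cast h4
    exact absurd (Nat.le_of_dvd (Nat.pos_of_ne_zero hn0) h5) (by omega)
  -- conclusion
  have hz' : aeval B' (f.map (Int.castRingHom K)) = 0 := by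
    have h10 : (aeval B f).map (algebraMap (𝓞 K) K) = aeval B' f := by
      have := Polynomial.map_aeval_eq_aeval_map (R := ℤ) (T := ℤ) (φ := RingHom.id ℤ)
        (ψ := (algebraMap (𝓞 K) K).mapMatrix (m := Fin r)) (Subsingleton.elim _ _) f B
      rw [Polynomial.map_id] at this
      exact this
    have h11 : aeval B' f = aeval B' (f.map (Int.castRingHom K)) :=
      Polynomial.aeval_eq_aeval_map (Subsingleton.elim _ _) f B'
    rw [← h11, ← h10, hzero]
    ext i j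
    simp
  refine Squarefree.squarefree_of_dvd (minpoly.dvd _ _ hz') ?_
  have : f.map (Int.castRingHom K) = ∏ l ∈ univ.image μ, (X - C ((l : ℤ) : K)) := by
    rw [hf, Polynomial.map_prod]
    exact prod_congr rfl fun l _ => by simp
  rw [this]
  refine Polynomial.Separable.squarefree (Polynomial.separable_prod_X_sub_C_iff'.2 ?_)
  intro x _ y _ hxy
  exact_mod_cast hxy

end Pool.Agent.H494.InfSqf
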