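import Pool.Agent.H925.InfPC
import Pool.Agent.H925.InfRat
import Pool.Agent.H925.InfSqf
import Pool.Agent.H925.InfShear
import Pool.Agent.H925.InfDetrow
import Pool.Agent.H925.InfLoop

set_option autoImplicit false

open Finset NumberField

namespace Pool.Agent.H925

open Pool.Agent.Helper338PC

section linalg

variable {K : Type} [Field K] {r : ℕ}

/-- Roots of the characteristic polynomial of a multiple. -/
lemma charpoly_root_smul {L : Matrix (Fin r) (Fin r) K} {s t : K} (hs : s ≠ 0)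
    (h : (s • L).charpoly.IsRoot t) : L.charpoly.IsRoot (s⁻¹ * t) := by
  rw [Polynomial.IsRoot, Matrix.eval_charpoly] at h ⊢
  have h1 : (Matrix.scalar (Fin r) (s⁻¹ * t) - L) =
      s⁻¹ • (Matrix.scalar (Fin r) t - s • L) := by
    rw [smul_sub, smul_smul, inv_mul_cancel₀ hs, one_smul]
    congr 1
    ext i j
    simp only [Matrix.scalar_apply, Matrix.diagonal_apply, Matrix.smul_apply, smul_eq_mul]
    split_ifs
    · rfl
    · rw [mul_zero]
  rw [h1, Matrix.det_smul, h, mul_zero]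

lemma root_prod {lam : Fin r → K} {t : K}
    (h : (∏ i, (Polynomial.X - Polynomial.C (lam i))).IsRoot t) : ∃ i, t = lam i := by
  rw [Polynomial.IsRoot, Polynomial.eval_prod, Finset.prod_eq_zero_iff] at h
  obtain ⟨i, -, hi⟩ := h
  refine ⟨i, ?_⟩
  rw [Polynomial.eval_sub, Polynomial.eval_X, Polynomial.eval_C, sub_eq_zero] at hi
  exact hi

lemma isRoot_of_prod {lam : Fin r → K} (i : Fin r) :
    (∏ i, (Polynomial.X - Polynomial.C (lam i))).IsRoot (lam i) := by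
  rw [Polynomial.IsRoot, Polynomial.eval_prod]
  refine Finset.prod_eq_zero (mem_univ i) ?_
  rw [Polynomial.eval_sub, Polynomial.eval_X, Polynomial.eval_C, sub_self]

/-- Semisimplicity. -/
theorem semi_aeval [NumberField K] {B : Matrix (Fin r) (Fin r) (𝓞 K)} {d P₀ : ℕ} (hd : d ≠ 0)
    (hB : ModAnn K B d P₀) {L : Matrix (Fin r) (Fin r) K} {s : K} (hs : s ≠ 0)
    (hBL : B.map (algebraMap (𝓞 K) K) = s • L) {lam : Fin r → K}
    (hL : L.charpoly = ∏ i, (Polynomial.X - Polynomial.C (lam i))) {F : Polynomial K}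
    (hF : ∀ i, F.eval (lam i) = 0) : Polynomial.aeval L F = 0 := by
  obtain ⟨μ, hμ⟩ := Pool.Agent.H494.InfRat.t_RAT K r B d P₀ hB
  have hsq := Pool.Agent.H494.InfSqf.t_SQF K r B d P₀ μ hd hB hμ
  rcases Nat.eq_zero_or_pos r with hr | hr
  · subst hr
    ext i
    exact i.elim0
  set G : Polynomial K := F.comp (Polynomial.C s⁻¹ * Polynomial.X) with hG
  have h1 : Polynomial.aeval (B.map (algebraMap (𝓞 K) K)) G = Polynomial.aeval L F := by
    rw [hG, Polynomial.aeval_comp, map_mul, Polynomial.aeval_C, Polynomial.aeval_X, hBL,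
      Algebra.algebraMap_eq_smul_one, smul_mul_assoc, one_mul, smul_smul, inv_mul_cancel₀ hs,
      one_smul]
  have h2 : ∀ i, (Polynomial.X - Polynomial.C ((μ i : ℤ) : K)) ∣ G := by
    intro i
    rw [Polynomial.dvd_iff_isRoot, Polynomial.IsRoot, hG, Polynomial.eval_comp,
      Polynomial.eval_mul, Polynomial.eval_C, Polynomial.eval_X]
    have h3 : (s • L).charpoly.IsRoot ((μ i : ℤ) : K) := by
      rw [← hBL, hμ]
      exact isRoot_of_prod (lam := fun i => ((μ i : ℤ) : K)) i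
    have h4 := charpoly_root_smul hs h3
    rw [hL] at h4
    obtain ⟨l, hl⟩ := root_prod h4
    rw [hl]
    exact hF l
  have h3 : (∏ i, (Polynomial.X - Polynomial.C ((μ i : ℤ) : K))) ∣ G ^ r := by
    have h4 : G ^ r = ∏ _i : Fin r, G := by rw [Finset.prod_const, Finset.card_univ, Fintype.card_fin]
    rw [h4]
    exact Finset.prod_dvd_prod_of_dvd _ _ fun i _ => h2 i
  have h5 : minpoly K (B.map (algebraMap (𝓞 K) K)) ∣ G ^ r := by
    refine dvd_trans (minpoly.dvd _ _ (Matrix.aeval_self_charpoly _)) ?_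
    rw [hμ]
    exact h3
  have h6 : minpoly K (B.map (algebraMap (𝓞 K) K)) ∣ G := (hsq.dvd_pow_iff_dvd hr.ne').mp h5
  rw [← h1]
  exact (minpoly.dvd_iff).mp h6

/-- Divisibility of the eigenvalues. -/
lemma eig_dvd [NumberField K] {M : Matrix (Fin r) (Fin r) (𝓞 K)} {g : ℕ} (hg : g ≠ 0) {t : ℤ}
    (h : (((g : 𝓞 K) • M).map (algebraMap (𝓞 K) K)).charpoly.IsRoot (t : K)) :
    ∃ a : ℤ, t = g * a ∧ M.charpoly.IsRoot (a : 𝓞 K) := by
  have hgK : (g : K) ≠ 0 := by exact_mod_cast hg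
  have h1 : ((g : 𝓞 K) • M).map (algebraMap (𝓞 K) K) = (g : K) • M.map (algebraMap (𝓞 K) K) := by
    ext i j
    simp only [Matrix.map_apply, Matrix.smul_apply, smul_eq_mul, map_mul, map_natCast]
  have h3 := charpoly_root_smul hgK (h1 ▸ h)
  have h5' : M.charpoly.map (algebraMap (𝓞 K) K) = (M.map (algebraMap (𝓞 K) K)).charpoly :=
    (Matrix.charpoly_map M (algebraMap (𝓞 K) K)).symm
  have h4 : IsIntegral (𝓞 K) ((g : K)⁻¹ * ((t : ℤ) : K)) := by
    refine ⟨M.charpoly, M.charpoly_monic, ?_⟩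
    rw [Polynomial.IsRoot] at h3
    rw [← Polynomial.eval_map, h5']
    exact h3
  have h5 : IsIntegral ℤ ((g : K)⁻¹ * ((t : ℤ) : K)) := isIntegral_trans _ h4
  have h6 : IsIntegral ℤ ((g : ℚ)⁻¹ * ((t : ℤ) : ℚ)) := by
    have h7 : algebraMap ℚ K ((g : ℚ)⁻¹ * ((t : ℤ) : ℚ)) = (g : K)⁻¹ * ((t : ℤ) : K) := by
      rw [map_mul, map_inv₀, map_natCast, map_intCast]
    rw [← h7] at h5
    exact (isIntegral_algebraMap_iff (algebraMap ℚ K).injective).mp h5
  obtain ⟨a, ha⟩ := IsIntegrallyClosed.isIntegral_iff.mp h6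
  have hgQ : (g : ℚ) ≠ 0 := by exact_mod_cast hg
  have h9 : ((a : ℤ) : ℚ) = (g : ℚ)⁻¹ * ((t : ℤ) : ℚ) := ha
  have h8 : ((t : ℤ) : ℚ) = (g : ℚ) * (a : ℤ) := by
    rw [h9, ← mul_assoc, mul_inv_cancel₀ hgQ, one_mul]
  refine ⟨a, by exact_mod_cast h8, ?_⟩
  have h10 : ((a : ℤ) : K) = (g : K)⁻¹ * ((t : ℤ) : K) := by
    have h11 := congrArg (algebraMap ℚ K) h9
    rw [map_mul, map_inv₀, map_natCast, map_intCast, map_intCast] at h11
    exact h11
  rw [← h10, ← h5', Polynomial.IsRoot] at h3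
  have h11 : ((a : ℤ) : K) = algebraMap (𝓞 K) K (a : 𝓞 K) := (map_intCast _ a).symm
  rw [h11, Polynomial.eval_map_algebraMap, Polynomial.aeval_algebraMap_apply] at h3
  have h12 := RingOfIntegers.coe_injective (a₁ := Polynomial.aeval (a : 𝓞 K) M.charpoly)
    (a₂ := 0) (by rw [map_zero]; exact h3)
  rw [Polynomial.IsRoot]
  exact h12

/-- Common denominators. -/
lemma exists_den [NumberField K] (T : Matrix (Fin r) (Fin r) (Polynomial K)) :
    ∃ h : ℕ, h ≠ 0 ∧ ∀ h' : ℕ, h ∣ h' → ∃ T₀ : Matrix (Fin r) (Fin r) (Polynomial (𝓞 K)),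
      T₀.map (Polynomial.map (algebraMap (𝓞 K) K)) = (h' : Polynomial K) • T := by
  have key : ∀ x : K, ∃ n : ℕ, n ≠ 0 ∧ ∃ y : 𝓞 K, (n : K) * x = algebraMap (𝓞 K) K y := by
    intro x
    have hx : IsAlgebraic ℤ x := (IsFractionRing.isAlgebraic_iff ℤ ℚ K).mpr
      (Algebra.IsAlgebraic.isAlgebraic x)
    obtain ⟨n, hn, hxn⟩ := hx.exists_integral_multiple
    refine ⟨n.natAbs, Int.natAbs_ne_zero.mpr hn, ?_⟩
    have h1 : IsIntegral ℤ ((n.natAbs : K) * x) := by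
      rcases Int.natAbs_eq n with h | h
      · have h2 : ((n : ℤ) : K) = (n.natAbs : K) := by
          have h3 := congrArg (fun z : ℤ => (z : K)) h
          simp only [Int.cast_natCast] at h3
          exact h3
        rw [← h2, ← zsmul_eq_mul]
        exact hxn
      · have h2 : ((n : ℤ) : K) = -(n.natAbs : K) := by
          have h3 := congrArg (fun z : ℤ => (z : K)) h
          simp only [Int.cast_natCast, Int.cast_neg] at h3
          exact h3
        have h4 : (n.natAbs : K) * x = -(n • x) := by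
          rw [zsmul_eq_mul, h2]
          ring
        rw [h4]
        exact hxn.neg
    exact ⟨⟨_, h1⟩, rfl⟩
  have key2 : ∀ f : Polynomial K, ∃ n : ℕ, n ≠ 0 ∧ ∃ g : Polynomial (𝓞 K),
      g.map (algebraMap (𝓞 K) K) = (n : Polynomial K) * f := by
    intro f
    induction f using Polynomial.induction_on' with
    | add p q hp hq =>
      obtain ⟨n, hn, g, hg⟩ := hp
      obtain ⟨n', hn', g', hg'⟩ := hq
      refine ⟨n * n', Nat.mul_ne_zero hn hn', (n' : Polynomial (𝓞 K)) * g +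
        (n : Polynomial (𝓞 K)) * g', ?_⟩
      rw [Polynomial.map_add, Polynomial.map_mul, Polynomial.map_mul, hg, hg',
        Polynomial.map_natCast, Polynomial.map_natCast]
      push_cast
      ring
    | monomial k a =>
      obtain ⟨n, hn, y, hy⟩ := key a
      refine ⟨n, hn, Polynomial.monomial k y, ?_⟩
      rw [Polynomial.map_monomial, ← hy]
      have h1 : (n : Polynomial K) = Polynomial.C (n : K) := by simp
      rw [h1, Polynomial.C_mul_monomial]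
  choose n hn g hg using fun x : Fin r × Fin r => key2 (T x.1 x.2)
  refine ⟨∏ x, n x, Finset.prod_ne_zero_iff.mpr fun x _ => hn x, ?_⟩
  intro h' hh'
  have h1 : ∀ i j, ∃ t : ℕ, h' = t * n (i, j) := by
    intro i j
    obtain ⟨t, ht⟩ := (Finset.dvd_prod_of_mem n (mem_univ (i, j))).trans hh'
    exact ⟨t, by rw [ht, mul_comm]⟩
  choose t ht using h1
  refine ⟨Matrix.of fun i j => (t i j : Polynomial (𝓞 K)) * g (i, j), ?_⟩
  ext1 i j
  rw [Matrix.map_apply, Matrix.of_apply, Polynomial.map_mul, hg, Polynomial.map_natCast,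
    Matrix.smul_apply, smul_eq_mul]
  conv_rhs => rw [ht i j]
  push_cast
  ring

end linalg

section inf

variable {K : Type} [Field K] [NumberField K] {r : ℕ}

lemma charP_of_mem {𝔭 : Ideal (𝓞 K)} [h𝔭 : 𝔭.IsMaximal] {p : ℕ} (hp : p.Prime)
    (hp𝔭 : (p : 𝓞 K) ∈ 𝔭) : (letI := Ideal.Quotient.field 𝔭; ringChar (𝓞 K ⧸ 𝔭)) = p := by
  let _ : Field (𝓞 K ⧸ 𝔭) := Ideal.Quotient.field 𝔭
  have hp0 : ((p : ℕ) : 𝓞 K ⧸ 𝔭) = 0 := by
    have h1 : ((p : ℕ) : 𝓞 K ⧸ 𝔭) = Ideal.Quotient.mk 𝔭 (p : 𝓞 K) := (map_natCast _ p).symm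
    rw [h1, Ideal.Quotient.eq_zero_iff_mem]
    exact hp𝔭
  have h1 : ringChar (𝓞 K ⧸ 𝔭) ∣ p := (ringChar.spec (𝓞 K ⧸ 𝔭) p).mp hp0
  rcases (Nat.dvd_prime hp).mp h1 with h2 | h2
  · exfalso
    have h3 := CharP.cast_eq_zero (𝓞 K ⧸ 𝔭) (ringChar (𝓞 K ⧸ 𝔭))
    rw [h2, Nat.cast_one] at h3
    exact one_ne_zero h3
  · exact h2

lemma natCast_ne_zero_of_lt {𝔭 : Ideal (𝓞 K)} [h𝔭 : 𝔭.IsMaximal] {p : ℕ} (hp : p.Prime)
    (hp𝔭 : (p : 𝓞 K) ∈ 𝔭) {D : ℕ} (hD : D ≠ 0) (hDp : D < p) : ((D : ℕ) : 𝓞 K ⧸ 𝔭) ≠ 0 := by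
  let _ : Field (𝓞 K ⧸ 𝔭) := Ideal.Quotient.field 𝔭
  intro h
  have h1 := (ringChar.spec (𝓞 K ⧸ 𝔭) D).mp h
  rw [charP_of_mem hp hp𝔭] at h1
  exact absurd (Nat.le_of_dvd (Nat.pos_of_ne_zero hD) h1) (not_le.mpr hDp)

/-- The residue at infinity after a gauge transformation. -/
lemma modAnn_inf {D c m P₀ : ℕ} (hD : D ≠ 0) (hc : c ≠ 0)
    {A T T' : Matrix (Fin r) (Fin r) (Polynomial (𝓞 K))}
    (hpc : ∀ p : ℕ, p.Prime → P₀ < p → ∀ (𝔭 : Ideal (𝓞 K)) [𝔭.IsMaximal], (p : 𝓞 K) ∈ 𝔭 →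
      PCurvZeroAt 𝔭 D 1 A)
    (h1 : T * T' = Matrix.diagonal (fun _ => (c : Polynomial (𝓞 K)) * Polynomial.X ^ m))
    (h2 : T' * T = Matrix.diagonal (fun _ => (c : Polynomial (𝓞 K)) * Polynomial.X ^ m))
    (h3 : ∀ i j, (gaugeI D A T T' i j).natDegree ≤ m + 1) :
    ModAnn K (leadM D m A T T') (D * c) (max P₀ (max D c)) := by
  intro p hp hP 𝔭 h𝔭 hp𝔭
  let _ : Field (𝓞 K ⧸ 𝔭) := Ideal.Quotient.field 𝔭
  have e1 := max_lt_iff.mp hP
  have e2 := max_lt_iff.mp e1.2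
  have e3 := hpc p hp e1.1 𝔭 hp𝔭
  unfold PCurvZeroAt at e3
  rw [charP_of_mem hp hp𝔭] at e3
  exact t_INFPC (𝓞 K) (𝓞 K ⧸ 𝔭) (Ideal.Quotient.mk 𝔭) r D m c p A T T'
    (natCast_ne_zero_of_lt hp hp𝔭 hD e2.1) (natCast_ne_zero_of_lt hp hp𝔭 hc e2.2) h1 h2 h3 e3

end inf

end Pool.Agent.H925
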