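import Mathlib

/-!
# Systems with vanishing `p`-curvatures at a simple pole at infinity: the statements

`gaugeI D A T T' = D x (x - 1) (dT/dx) T' + T A T'` is the matrix of the system of `Z = T Y`, where
`D x (x - 1) Y' = A Y` and `T T' = x ^ m` (or `c x ^ m`). The system for `Z` is
`D c x ^ m x (x - 1) Z' = (gaugeI D A T T') Z`; it has at most a simple pole at infinity if the
degrees of the entries of `gaugeI` are at most `m + 1`, and then `leadM D m A T T' / (D c)` is (up to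
the sign) its residue at infinity.
-/

set_option autoImplicit false

open Finset NumberField

namespace Pool.Agent.H925

/-- The system `D x ^ m x (x - 1) Z' = N Z` of the vector `Z = T Y`, where `D x (x - 1) Y' = A Y`
and `T T' = x ^ m`. -/
noncomputable def gaugeI {k idx : Type*} [CommRing k] [Fintype idx] (D : ℕ)
    (A T T' : Matrix idx idx (Polynomial k)) : Matrix idx idx (Polynomial k) :=
  ((D : Polynomial k) * (Polynomial.X * (Polynomial.X - 1))) • (T.map Polynomial.derivative * T') +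
    T * A * T'

/-- The leading coefficient (at `x ^ (m + 1)`) of `gaugeI`. -/
noncomputable def leadM {k idx : Type*} [CommRing k] [Fintype idx] (D m : ℕ)
    (A T T' : Matrix idx idx (Polynomial k)) : Matrix idx idx k :=
  (gaugeI D A T T').map fun a => a.coeff (m + 1)

/-- `∏_{j < n} (X + j d)`. -/
noncomputable def annPoly (k : Type*) [CommRing k] (d n : ℕ) : Polynomial k :=
  ∏ j ∈ range n, (Polynomial.X + Polynomial.C ((j * d : ℕ) : k))

/-- `∏_{j < p} (B + j d)` vanishes modulo all maximal ideals above all primes `p > P₀`. -/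
def ModAnn (K : Type) [Field K] [NumberField K] {r : ℕ} (B : Matrix (Fin r) (Fin r) (𝓞 K))
    (d P₀ : ℕ) : Prop :=
  ∀ p : ℕ, p.Prime → P₀ < p → ∀ (𝔭 : Ideal (𝓞 K)) [𝔭.IsMaximal], (p : 𝓞 K) ∈ 𝔭 →
    Polynomial.aeval (B.map (Ideal.Quotient.mk 𝔭)) (annPoly (𝓞 K ⧸ 𝔭) d p) = 0

/-- The eigenvalues are rational integers. PROOF: let `L` be a splitting field of the
characteristic polynomial of `B` over `K` (a number field) and `λ : 𝓞 L` an eigenvalue. For every
maximal ideal `𝔪` of `𝓞 L` above a prime `p > P₀`, `𝔭 = 𝔪 ∩ 𝓞 K` is maximal; modulo `𝔪`, `λ` is an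
eigenvalue of the reduction of `B`, which is annihilated by `annPoly d p`, so
`∏_{j < p} (λ + j d) = 0` modulo `𝔪`, thus `λ ≡ -j d` for some `j`. By
`Pool.Agent.TH141.ES.rational_of_residues` (module `Pool.Graph.R_seed8.TH141.ES.Rational`, with
`R = 𝓞 L`, `g = P₀!`, `a = 1`, `b = λ`) `λ` is rational, hence in `ℤ`. -/
def S_RAT : Prop := ∀ (K : Type) [Field K] [NumberField K] (r : ℕ)
    (B : Matrix (Fin r) (Fin r) (𝓞 K)) (d P₀ : ℕ), ModAnn K B d P₀ →
    ∃ μ : Fin r → ℤ, (B.map (algebraMap (𝓞 K) K)).charpoly =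
      ∏ i, (Polynomial.X - Polynomial.C ((μ i : ℤ) : K))

/-- The matrix is semisimple. PROOF: put `Λ = {μ i}` and `f = ∏_{λ ∈ Λ} (X - λ) : ℤ[X]`. For a large
prime `p` (`p ∤ d`) and a maximal ideal `𝔭` above `p` the reduction `b` of `B` is annihilated by
`annPoly d p`, a product of `p` different linear factors, so `minpoly b` is squarefree, and it
divides the reduction of the characteristic polynomial, which divides `f ^ r`; thus `minpoly b`
divides `f` (`Squarefree.dvd_pow_iff_dvd`) and `f(B) ≡ 0` modulo `𝔭`. The entries of `f(B)` lie in maximal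
ideals above infinitely many primes, so `f(B) = 0`; `f` is squarefree over `K` and `minpoly` divides
`f`. -/
def S_SQF : Prop := ∀ (K : Type) [Field K] [NumberField K] (r : ℕ)
    (B : Matrix (Fin r) (Fin r) (𝓞 K)) (d P₀ : ℕ) (μ : Fin r → ℤ), d ≠ 0 → ModAnn K B d P₀ →
    (B.map (algebraMap (𝓞 K) K)).charpoly =
      ∏ i, (Polynomial.X - Polynomial.C ((μ i : ℤ) : K)) →
    Squarefree (minpoly K (B.map (algebraMap (𝓞 K) K)))

/-- Characteristic polynomials of two matrices with the same minor: the row `i₀` of `H` is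
`μ e_{i₀}`, the column `i₀` of `H₁` is `μ₁ e_{i₀}`, and the other entries agree. PROOF: both
characteristic polynomials are `(X - μ) Δ` and `(X - μ₁) Δ`, `Δ` the determinant of the charmatrix
with the row and the column `i₀` replaced by `e_{i₀}` (expand along the row or the column, or use
`Matrix.det_updateRow_smul`, `Matrix.adjugate_apply`, ...). -/
def S_DETROW : Prop := ∀ (k : Type) [Field k] (r : ℕ) (H H₁ : Matrix (Fin r) (Fin r) k)
    (i₀ : Fin r) (μ μ₁ : k), (∀ j, H i₀ j = if j = i₀ then μ else 0) →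
    (∀ i, H₁ i i₀ = if i = i₀ then μ₁ else 0) →
    (∀ i j, i ≠ i₀ → j ≠ i₀ → H₁ i j = H i j) →
    (Polynomial.X - Polynomial.C μ) * H₁.charpoly = (Polynomial.X - Polynomial.C μ₁) * H.charpoly

/-- One shearing step. PROOF: `ℓ ≠ 0` with `ℓ leadM = μ ℓ` (a left eigenvector), `ℓ i₀ ≠ 0`,
`V = updateRow 1 i₀ ℓ` (`det V = ℓ i₀`), `S = diag(x at i₀, 1 otherwise)`,
`S' = diag(1 at i₀, x otherwise)`; `T₁ = S V T`, `T₁' = T' V⁻¹ S'`. With
`N₁ = V (gaugeI D A T T') V⁻¹ = gaugeI D A (V T) (T' V⁻¹)` one has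
`gaugeI D A T₁ T₁' = D x (x - 1) S_x S' x ^ m + S N₁ S'` (`S_x = dS/dx = diag(1 at i₀, 0)`), so
the entry `(i, j)` is `x N₁(i,j)` for `i, j ≠ i₀`, `N₁(i,i₀)` for `i ≠ i₀`, `x ^ 2 N₁(i₀,j)` for
`j ≠ i₀` and `x N₁(i₀,i₀) + D x ^ (m + 1) (x - 1)` for `i = j = i₀`. The leading coefficients (of
`x ^ (m + 1)`) of the row `i₀` of `N₁` are `μ e_{i₀}`, which gives the degrees; and
`leadM D (m + 1) A T₁ T₁'` has the column `i₀` equal to `(μ + D) e_{i₀}` and the same minor (without
the row and column `i₀`) as `V leadM V⁻¹`, whose row `i₀` is `μ e_{i₀}`. -/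
def S_SHEAR : Prop := ∀ (K : Type) [Field K] (r D m : ℕ)
    (A T T' : Matrix (Fin r) (Fin r) (Polynomial K)) (μ : K),
    T * T' = Matrix.diagonal (fun _ => Polynomial.X ^ m) →
    T' * T = Matrix.diagonal (fun _ => Polynomial.X ^ m) →
    (∀ i j, (gaugeI D A T T' i j).natDegree ≤ m + 1) →
    (leadM D m A T T').charpoly.IsRoot μ →
    ∃ T₁ T₁' : Matrix (Fin r) (Fin r) (Polynomial K),
      T₁ * T₁' = Matrix.diagonal (fun _ => Polynomial.X ^ (m + 1)) ∧
      T₁' * T₁ = Matrix.diagonal (fun _ => Polynomial.X ^ (m + 1)) ∧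
      (∀ i j, (gaugeI D A T₁ T₁' i j).natDegree ≤ m + 2) ∧
      (Polynomial.X - Polynomial.C μ) * (leadM D (m + 1) A T₁ T₁').charpoly =
        (Polynomial.X - Polynomial.C (μ + D)) * (leadM D m A T T').charpoly

/-- The shearing. PROOF: start with `m = 0`, `T = T' = 1` (`gaugeI = A`); as long as some
`μ i ≤ c - 1`, apply `S_SHEAR` to the root `D μ i`, which replaces `μ i` by `μ i + 1`; induction on
`∑ ⌊c - μ i⌋`. -/
def S_LOOP : Prop := ∀ (K : Type) [Field K] [CharZero K] (r D : ℕ)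
    (A : Matrix (Fin r) (Fin r) (Polynomial K)) (μ : Fin r → ℚ) (c : ℕ), D ≠ 0 →
    (∀ i j, (A i j).natDegree ≤ 1) →
    (A.map fun a => a.coeff 1).charpoly =
      ∏ i, (Polynomial.X - Polynomial.C (((D : ℚ) * μ i : ℚ) : K)) →
    (∀ i, μ i ≤ c) →
    ∃ (m : ℕ) (T T' : Matrix (Fin r) (Fin r) (Polynomial K)) (ν : Fin r → ℚ),
      T * T' = Matrix.diagonal (fun _ => Polynomial.X ^ m) ∧
      T' * T = Matrix.diagonal (fun _ => Polynomial.X ^ m) ∧
      (∀ i j, (gaugeI D A T T' i j).natDegree ≤ m + 1) ∧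
      (leadM D m A T T').charpoly =
        ∏ i, (Polynomial.X - Polynomial.C (((D : ℚ) * ν i : ℚ) : K)) ∧
      ∀ i, (c : ℚ) - 1 < ν i ∧ ν i ≤ c ∧ ∃ z : ℤ, ν i = μ i + z

end Pool.Agent.H925
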