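import Pool.Agent.H925.InfAsm
import Pool.Agent.H925.OrbMap

set_option autoImplicit false

open Finset NumberField

namespace Pool.Agent.H925

open Pool.Agent.Helper338PC

section gauge

variable {k k' idx : Type*} [CommRing k] [CommRing k'] [Fintype idx]

lemma gaugeI_map (φ : k →+* k') (D : ℕ) (A T T' : Matrix idx idx (Polynomial k)) :
    gaugeI D (A.map (Polynomial.map φ)) (T.map (Polynomial.map φ)) (T'.map (Polynomial.map φ)) =
      (gaugeI D A T T').map (Polynomial.map φ) := gaugeN_map φ D A T T'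

lemma derivative_natCast_smul (h : ℕ) (T : Matrix idx idx (Polynomial k)) :
    ((h : Polynomial k) • T).map Polynomial.derivative =
      (h : Polynomial k) • T.map Polynomial.derivative := by
  ext1 i j
  simp only [Matrix.map_apply, Matrix.smul_apply, smul_eq_mul]
  rw [Polynomial.derivative_mul, Polynomial.derivative_natCast, zero_mul, zero_add]

lemma gaugeI_smul (h D : ℕ) (A T T' : Matrix idx idx (Polynomial k)) :
    gaugeI D A ((h : Polynomial k) • T) ((h : Polynomial k) • T') =
      ((h * h : ℕ) : Polynomial k) • gaugeI D A T T' := by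
  unfold gaugeI
  rw [derivative_natCast_smul]
  simp only [Matrix.smul_mul, Matrix.mul_smul, smul_smul, smul_add, Nat.cast_mul]
  congr 2
  ring

end gauge

section ex

variable {K : Type} [Field K] [NumberField K] {r : ℕ}

lemma map_inj {A B : Matrix (Fin r) (Fin r) (Polynomial (𝓞 K))}
    (h : A.map (Polynomial.map (algebraMap (𝓞 K) K)) =
      B.map (Polynomial.map (algebraMap (𝓞 K) K))) : A = B := by
  ext1 i j
  have h1 := congrFun (congrFun h i) j
  simp only [Matrix.map_apply] at h1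
  exact Polynomial.map_injective _ RingOfIntegers.coe_injective h1

lemma map_mulP (A B : Matrix (Fin r) (Fin r) (Polynomial (𝓞 K))) :
    (A * B).map (Polynomial.map (algebraMap (𝓞 K) K)) =
      A.map (Polynomial.map (algebraMap (𝓞 K) K)) * B.map (Polynomial.map (algebraMap (𝓞 K) K)) :=
  map_mul (Polynomial.mapRingHom (algebraMap (𝓞 K) K)).mapMatrix A B

/-- The residue at infinity of a system with vanishing `p`-curvatures. -/
theorem exists_infGauge {D n₂ P₀ : ℕ} (hD : D ≠ 0) (hn₂ : n₂ ≠ 0)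
    {A : Matrix (Fin r) (Fin r) (Polynomial (𝓞 K))} (hdeg : ∀ i j, (A i j).natDegree ≤ 1)
    (hdiv : ∀ t : ℤ, ((A.map fun a => a.coeff 1).map (algebraMap (𝓞 K) K)).charpoly.IsRoot
      (t : K) → ((D : ℕ) : ℤ) ∣ n₂ * t)
    (hpc : ∀ p : ℕ, p.Prime → P₀ < p → ∀ (𝔭 : Ideal (𝓞 K)) [𝔭.IsMaximal], (p : 𝓞 K) ∈ 𝔭 →
      PCurvZeroAt 𝔭 D 1 A) :
    ∃ (e m c : ℕ) (T T' : Matrix (Fin r) (Fin r) (Polynomial K)),
      InfGauge D n₂ e m c (A.map (Polynomial.map (algebraMap (𝓞 K) K))) T T' := by
  classical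
  have hDQ : (D : ℚ) ≠ 0 := by exact_mod_cast hD
  have hn₂Q : (0 : ℚ) < n₂ := by exact_mod_cast Nat.pos_of_ne_zero hn₂
  -- the eigenvalues at infinity
  have hlead0 : leadM D 0 A 1 1 = A.map fun a => a.coeff 1 := by
    unfold leadM
    rw [gaugeI_one]
  have hB0 : ModAnn K (A.map fun a => a.coeff 1) (D * 1) (max P₀ (max D 1)) := by
    rw [← hlead0]
    refine modAnn_inf hD one_ne_zero hpc ?_ ?_ ?_
    · rw [mul_one, Nat.cast_one, pow_zero, mul_one]
      exact Matrix.diagonal_one.symm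
    · rw [mul_one, Nat.cast_one, pow_zero, mul_one]
      exact Matrix.diagonal_one.symm
    · intro i j
      rw [gaugeI_one]
      exact hdeg i j
  obtain ⟨α, hα⟩ := Pool.Agent.H494.InfRat.t_RAT K r _ _ _ hB0
  have hdvd : ∀ i, ∃ a : ℤ, (n₂ : ℤ) * α i = D * a := by
    intro i
    refine hdiv (α i) ?_
    rw [hα]
    exact isRoot_of_prod (lam := fun i => ((α i : ℤ) : K)) i
  choose a ha using hdvd
  set AK := A.map (Polynomial.map (algebraMap (𝓞 K) K)) with hAK
  have hAK1 : (AK.map fun a => a.coeff 1) =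
      (A.map fun a => a.coeff 1).map (algebraMap (𝓞 K) K) := by
    ext1 i j
    rw [hAK]
    simp only [Matrix.map_apply, Polynomial.coeff_map]
  set μ : Fin r → ℚ := fun i => (a i : ℚ) / n₂ with hμ
  have hμα : ∀ i, (D : ℚ) * μ i = α i := by
    intro i
    have h1 : (n₂ : ℚ) * α i = D * a i := by exact_mod_cast ha i
    rw [hμ]
    simp only
    field_simp
    linarith
  obtain ⟨c, hc⟩ : ∃ c : ℕ, ∀ i, μ i ≤ c := by
    refine ⟨∑ i, (a i).natAbs, fun i => ?_⟩
    have h1 : μ i ≤ |(a i : ℚ)| := by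
      rw [hμ]
      simp only
      refine (div_le_div_of_nonneg_right (le_abs_self (a i : ℚ)) hn₂Q.le).trans ?_
      refine div_le_self (abs_nonneg _) ?_
      exact_mod_cast Nat.one_le_iff_ne_zero.mpr hn₂
    have h2 : |(a i : ℚ)| = (((a i).natAbs : ℕ) : ℚ) := by
      rw [← Int.cast_abs, Int.abs_eq_natAbs, Int.cast_natCast]
    rw [h2] at h1
    refine h1.trans ?_
    exact_mod_cast Finset.single_le_sum (f := fun i => (a i).natAbs)
      (fun i _ => Nat.zero_le _) (mem_univ i)
  obtain ⟨m, T, T', ν, hTT, hTT', hdegN, hchar, hν⟩ := t_LOOP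
    (Pool.Agent.H336.IS.t_SHEAR Pool.Agent.H115.Inf.t_DETROW) K r D AK μ c hD
    (fun i j => by
      rw [hAK, Matrix.map_apply]
      exact Polynomial.natDegree_map_le.trans (hdeg i j))
    (by
      rw [hAK1, hα]
      refine Finset.prod_congr rfl fun i _ => ?_
      rw [hμα i]
      push_cast
      rfl) hc
  -- common denominators
  obtain ⟨h₁, hh₁, hd₁⟩ := exists_den T
  obtain ⟨h₂, hh₂, hd₂⟩ := exists_den T'
  set h := h₁ * h₂ with hh
  have hh0 : h ≠ 0 := Nat.mul_ne_zero hh₁ hh₂
  obtain ⟨T₀, hT₀⟩ := hd₁ h (dvd_mul_right _ _)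
  obtain ⟨T₀', hT₀'⟩ := hd₂ h (dvd_mul_left _ _)
  have hhK : ((h * h : ℕ) : K) ≠ 0 := by exact_mod_cast Nat.mul_ne_zero hh0 hh0
  have hdiag : ∀ (U V : Matrix (Fin r) (Fin r) (Polynomial K))
      (U₀ V₀ : Matrix (Fin r) (Fin r) (Polynomial (𝓞 K))),
      U₀.map (Polynomial.map (algebraMap (𝓞 K) K)) = (h : Polynomial K) • U →
      V₀.map (Polynomial.map (algebraMap (𝓞 K) K)) = (h : Polynomial K) • V →
      U * V = Matrix.diagonal (fun _ => Polynomial.X ^ m) →
      U₀ * V₀ = Matrix.diagonal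
        (fun _ => ((h * h : ℕ) : Polynomial (𝓞 K)) * Polynomial.X ^ m) := by
    intro U V U₀ V₀ e1 e2 e3
    apply map_inj
    rw [map_mulP, e1, e2, Matrix.smul_mul, Matrix.mul_smul, smul_smul, e3]
    ext1 i j
    simp only [Matrix.smul_apply, Matrix.map_apply, Matrix.diagonal_apply]
    split_ifs
    · rw [Polynomial.map_mul, Polynomial.map_pow, Polynomial.map_X, Polynomial.map_natCast,
        smul_eq_mul]
      push_cast
      rfl
    · rw [smul_zero, Polynomial.map_zero]
  have hgI : (gaugeI D A T₀ T₀').map (Polynomial.map (algebraMap (𝓞 K) K)) =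
      ((h * h : ℕ) : Polynomial K) • gaugeI D AK T T' := by
    rw [← gaugeI_map, hT₀, hT₀', gaugeI_smul]
  have hnC : ∀ (n : ℕ) (f : Polynomial K), (n : Polynomial K) * f = Polynomial.C (n : K) * f := by
    intro n f
    simp
  have hdeg₀ : ∀ i j, (gaugeI D A T₀ T₀' i j).natDegree ≤ m + 1 := by
    intro i j
    have e1 := congrFun (congrFun hgI i) j
    rw [Matrix.map_apply, Matrix.smul_apply, smul_eq_mul, hnC] at e1
    have e2 : ((gaugeI D A T₀ T₀' i j).map (algebraMap (𝓞 K) K)).natDegree =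
        (gaugeI D A T₀ T₀' i j).natDegree :=
      Polynomial.natDegree_map_eq_of_injective RingOfIntegers.coe_injective _
    rw [← e2, e1]
    exact (Polynomial.natDegree_C_mul_le _ _).trans (hdegN i j)
  have hlead : (leadM D m A T₀ T₀').map (algebraMap (𝓞 K) K) =
      ((h * h : ℕ) : K) • leadM D m AK T T' := by
    ext1 i j
    have e1 := congrFun (congrFun hgI i) j
    rw [Matrix.map_apply, Matrix.smul_apply, smul_eq_mul, hnC] at e1
    have e2 := congrArg (fun f => Polynomial.coeff f (m + 1)) e1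
    simp only [Polynomial.coeff_map, Polynomial.coeff_C_mul] at e2
    unfold leadM
    simp only [Matrix.map_apply, Matrix.smul_apply, smul_eq_mul]
    exact e2
  have hB := modAnn_inf hD (Nat.mul_ne_zero hh0 hh0) hpc (hdiag T T' T₀ T₀' hT₀ hT₀' hTT)
    (hdiag T' T T₀' T₀ hT₀' hT₀ hTT') hdeg₀
  -- the annihilating polynomial
  set F : Polynomial K := ((eigPoly n₂ D).map (Int.castRingHom K)).comp
    (Polynomial.C ((c * D : ℕ) : K) - Polynomial.X) with hF
  have hFν : ∀ i, F.eval (((D : ℚ) * ν i : ℚ) : K) = 0 := by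
    intro i
    obtain ⟨h1, h2, z, hz⟩ := hν i
    -- the exponent
    set j : ℤ := n₂ * c - a i - n₂ * z with hj
    have hjν : (j : ℚ) = n₂ * (c - ν i) := by
      rw [hz, hμ, hj]
      push_cast
      field_simp
      ring
    have hj0 : 0 ≤ j := by
      have : (0 : ℚ) ≤ j := by
        rw [hjν]
        exact mul_nonneg hn₂Q.le (by linarith)
      exact_mod_cast this
    have hj1 : j < n₂ := by
      have : (j : ℚ) < n₂ := by
        rw [hjν]
        calc (n₂ : ℚ) * (c - ν i) < n₂ * 1 := mul_lt_mul_of_pos_left (by linarith) hn₂Q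
          _ = n₂ := mul_one _
      exact_mod_cast this
    obtain ⟨t, ht⟩ := Int.eq_ofNat_of_zero_le hj0
    have htn : t < n₂ := by
      rw [ht] at hj1
      exact_mod_cast hj1
    rw [hF, Polynomial.eval_comp, Polynomial.eval_sub, Polynomial.eval_C, Polynomial.eval_X,
      Polynomial.eval_map]
    unfold eigPoly
    rw [Polynomial.eval₂_finsetProd]
    refine Finset.prod_eq_zero (Finset.mem_range.mpr htn) ?_
    rw [Polynomial.eval₂_sub, Polynomial.eval₂_mul, Polynomial.eval₂_C, Polynomial.eval₂_C,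
      Polynomial.eval₂_X]
    have h3 : (n₂ : ℚ) * ((c * D : ℕ) - D * ν i) - (t : ℚ) * D = 0 := by
      have h4 : (t : ℚ) = n₂ * (c - ν i) := by
        rw [← hjν, ht]
        push_cast
        rfl
      rw [h4]
      push_cast
      ring
    have h5 := congrArg (fun q : ℚ => (q : K)) h3
    push_cast at h5 ⊢
    rw [map_natCast, map_mul, map_natCast, map_natCast]
    push_cast
    exact h5
  have hFL := semi_aeval (Nat.mul_ne_zero hD (Nat.mul_ne_zero hh0 hh0)) hB hhK hlead hchar hFν
  -- the gauge transformation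
  refine ⟨c + ∑ i, ∑ j, (T' i j).natDegree, m, c, T, T', ⟨hTT, hTT', ?_, hdegN, ?_⟩⟩
  · intro i j
    have h1 : (T' i j).natDegree ≤ ∑ j, (T' i j).natDegree :=
      Finset.single_le_sum (f := fun j => (T' i j).natDegree) (fun _ _ => Nat.zero_le _)
        (mem_univ j)
    have h2 : ∑ j, (T' i j).natDegree ≤ ∑ i, ∑ j, (T' i j).natDegree :=
      Finset.single_le_sum (f := fun i => ∑ j, (T' i j).natDegree) (fun _ _ => Nat.zero_le _)
        (mem_univ i)
    omega
  · have e1 : Polynomial.aeval (leadM D m AK T T')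
        (Polynomial.C ((c * D : ℕ) : K) - Polynomial.X) =
        (Matrix.diagonal fun _ => ((c * D : ℕ) : K)) - leadM D m AK T T' := by
      rw [map_sub, Polynomial.aeval_C, Polynomial.aeval_X]
      rfl
    have e3 : (eigPoly n₂ D).map (Int.castRingHom K) = (eigPoly n₂ D).map (algebraMap ℤ K) := by
      rw [algebraMap_int_eq]
    rw [hF, Polynomial.aeval_comp, e1, e3, Polynomial.aeval_map_algebraMap] at hFL
    exact hFL

end ex

end Pool.Agent.H925
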