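import Pool.Agent.H925.InfStm

set_option autoImplicit false

open Finset

namespace Pool.Agent.H925

open Pool.Agent.Helper338PC

section pc

variable {k : Type} [Field k] {r : ℕ}

/-- The derivative of a vector of rational functions. -/
noncomputable def dvec (v : Fin r → RatFunc k) : Fin r → RatFunc k := fun i => W432.PC.ddx k (v i)

lemma dvec_mulVec (M : Matrix (Fin r) (Fin r) (RatFunc k)) (v : Fin r → RatFunc k) :
    dvec (M.mulVec v) = (M.map (W432.PC.ddx k)).mulVec v + M.mulVec (dvec v) := by
  funext i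
  simp only [dvec, Matrix.mulVec, dotProduct, map_sum, Pi.add_apply, Matrix.map_apply]
  rw [← Finset.sum_add_distrib]
  refine Finset.sum_congr rfl fun l _ => ?_
  rw [Derivation.leibniz, smul_eq_mul, smul_eq_mul]
  ring

lemma dvec_smul (f : RatFunc k) (v : Fin r → RatFunc k) :
    dvec (f • v) = W432.PC.ddx k f • v + f • dvec v := by
  funext i
  simp only [dvec, Pi.smul_apply, Pi.add_apply, smul_eq_mul]
  rw [Derivation.leibniz, smul_eq_mul, smul_eq_mul]
  ring

lemma sysNabla_eq (G : Matrix (Fin r) (Fin r) (RatFunc k)) (v : Fin r → RatFunc k) :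
    sysNabla G v = dvec v - G.mulVec v := rfl

/-- The change of the frame. -/
lemma frame_change {G T S dT N A : Matrix (Fin r) (Fin r) (RatFunc k)} {e d x : RatFunc k}
    (hd : d ≠ 0) (he : e ≠ 0) (hdT : T.map (W432.PC.ddx k) = dT)
    (hST : S * T = e • (1 : Matrix (Fin r) (Fin r) (RatFunc k)))
    (hG : (x * d) • G = A) (hN : N = (x * d) • (dT * S) + T * A * S)
    (v : Fin r → RatFunc k) :
    x • T.mulVec (sysNabla G v) =
      x • dvec (T.mulVec v) - (d * e)⁻¹ • N.mulVec (T.mulVec v) := by
  have h1 : N * T = (d * e) • (x • dT + T * (x • G)) := by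
    rw [hN, add_mul, Matrix.smul_mul, Matrix.mul_assoc dT, hST, Matrix.mul_assoc (T * A), hST,
      ← hG]
    simp only [Matrix.mul_smul, mul_one, smul_add, smul_smul]
    congr 1
    · congr 1; ring
    · congr 1; ring
  rw [Matrix.mulVec_mulVec, h1, sysNabla_eq, dvec_mulVec, hdT, Matrix.mulVec_sub,
    Matrix.smul_mulVec, smul_smul, inv_mul_cancel₀ (mul_ne_zero hd he), one_smul,
    Matrix.add_mulVec, Matrix.smul_mulVec, Matrix.mul_smul, Matrix.smul_mulVec,
    Matrix.mulVec_mulVec, smul_sub, smul_add]
  abel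

/-- The vectors of polynomials. -/
noncomputable def polyVec (q : Polynomial k) (N : Matrix (Fin r) (Fin r) (Polynomial k))
    (w : Fin r → k) : ℕ → Fin r → Polynomial k
  | 0 => fun i => Polynomial.C (w i)
  | j + 1 => fun i => q * (Polynomial.X * Polynomial.derivative (polyVec q N w j i)) -
      (j : Polynomial k) * (Polynomial.X * Polynomial.derivative q) * polyVec q N w j i -
      N.mulVec (polyVec q N w j) i - (j : Polynomial k) * (q * polyVec q N w j i)

lemma polyVec_coeff {m : ℕ} {a : k} {N : Matrix (Fin r) (Fin r) (Polynomial k)}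
    (hN : ∀ i j, (N i j).natDegree ≤ m + 1) (w : Fin r → k) (j : ℕ) :
    (∀ i, (polyVec (Polynomial.C a * (Polynomial.X ^ m * (Polynomial.X - 1))) N w j i).natDegree ≤
      j * (m + 1)) ∧
    ∀ i, (polyVec (Polynomial.C a * (Polynomial.X ^ m * (Polynomial.X - 1))) N w j i).coeff
      (j * (m + 1)) = (-1) ^ j * (Polynomial.aeval (N.map fun b => b.coeff (m + 1))
        (∏ i ∈ range j, (Polynomial.X + Polynomial.C ((i : k) * a)))).mulVec w i := by
  set q : Polynomial k := Polynomial.C a * (Polynomial.X ^ m * (Polynomial.X - 1)) with hq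
  set B : Matrix (Fin r) (Fin r) k := N.map fun b => b.coeff (m + 1) with hB
  have hqd : q.natDegree ≤ m + 1 := by
    rw [hq]
    refine (Polynomial.natDegree_C_mul_le _ _).trans ?_
    refine Polynomial.natDegree_mul_le.trans ?_
    refine Nat.add_le_add (Polynomial.natDegree_X_pow_le m) ?_
    refine (Polynomial.natDegree_sub_le _ _).trans ?_
    rw [Polynomial.natDegree_one]
    exact max_le Polynomial.natDegree_X_le (Nat.zero_le _)
  have hqc : q.coeff (m + 1) = a := by
    rw [hq, Polynomial.coeff_C_mul, add_comm m 1, Polynomial.coeff_X_pow_mul]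
    simp [Polynomial.coeff_one]
  have hXd : ∀ (f : Polynomial k) (n : ℕ), f.natDegree ≤ n →
      (Polynomial.X * Polynomial.derivative f).natDegree ≤ n ∧
      (Polynomial.X * Polynomial.derivative f).coeff n = (n : k) * f.coeff n := by
    intro f n hf
    have h1 : ∀ s : ℕ, (Polynomial.X * Polynomial.derivative f).coeff s = (s : k) * f.coeff s := by
      intro s
      cases s with
      | zero => simp
      | succ s =>
        rw [Polynomial.coeff_X_mul, Polynomial.coeff_derivative]
        push_cast
        ring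
    refine ⟨?_, h1 n⟩
    rw [Polynomial.natDegree_le_iff_coeff_eq_zero]
    intro s hs
    rw [h1, Polynomial.coeff_eq_zero_of_natDegree_lt (lt_of_le_of_lt hf hs), mul_zero]
  have hnat : ∀ (n : ℕ) (f : Polynomial k) (d : ℕ), f.natDegree ≤ d →
      ((n : Polynomial k) * f).natDegree ≤ d := by
    intro n f d hf
    have h1 : (n : Polynomial k) = Polynomial.C (n : k) := by simp
    rw [h1]
    exact (Polynomial.natDegree_C_mul_le _ _).trans hf
  have hnatc : ∀ (n : ℕ) (f : Polynomial k) (d : ℕ),
      ((n : Polynomial k) * f).coeff d = (n : k) * f.coeff d := by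
    intro n f d
    have h1 : (n : Polynomial k) = Polynomial.C (n : k) := by simp
    rw [h1, Polynomial.coeff_C_mul]
  induction j with
  | zero =>
    constructor
    · intro i
      simp [polyVec]
    · intro i
      simp [polyVec]
  | succ j ih =>
    obtain ⟨ih1, ih2⟩ := ih
    set P := polyVec q N w j with hP
    have e0 : (j + 1) * (m + 1) = (m + 1) + j * (m + 1) := by ring
    have d1 : ∀ i, (q * (Polynomial.X * Polynomial.derivative (P i))).natDegree ≤
        (j + 1) * (m + 1) := by
      intro i
      rw [e0]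
      exact Polynomial.natDegree_mul_le.trans (Nat.add_le_add hqd (hXd _ _ (ih1 i)).1)
    have d2 : ∀ i, ((j : Polynomial k) * (Polynomial.X * Polynomial.derivative q) *
        P i).natDegree ≤ (j + 1) * (m + 1) := by
      intro i
      rw [e0, mul_assoc]
      exact hnat _ _ _ (Polynomial.natDegree_mul_le.trans
        (Nat.add_le_add (hXd _ _ hqd).1 (ih1 i)))
    have d3 : ∀ i, (N.mulVec P i).natDegree ≤ (j + 1) * (m + 1) := by
      intro i
      rw [e0]
      unfold Matrix.mulVec dotProduct
      refine Polynomial.natDegree_sum_le_of_forall_le _ _ fun l _ => ?_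
      exact Polynomial.natDegree_mul_le.trans (Nat.add_le_add (hN _ _) (ih1 l))
    have d4 : ∀ i, ((j : Polynomial k) * (q * P i)).natDegree ≤ (j + 1) * (m + 1) := by
      intro i
      rw [e0]
      exact hnat _ _ _ (Polynomial.natDegree_mul_le.trans (Nat.add_le_add hqd (ih1 i)))
    constructor
    · intro i
      change (q * (Polynomial.X * Polynomial.derivative (P i)) -
        (j : Polynomial k) * (Polynomial.X * Polynomial.derivative q) * P i -
        N.mulVec P i - (j : Polynomial k) * (q * P i)).natDegree ≤ _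
      refine (Polynomial.natDegree_sub_le _ _).trans (max_le ?_ (d4 i))
      refine (Polynomial.natDegree_sub_le _ _).trans (max_le ?_ (d3 i))
      exact (Polynomial.natDegree_sub_le _ _).trans (max_le (d1 i) (d2 i))
    · intro i
      change (q * (Polynomial.X * Polynomial.derivative (P i)) -
        (j : Polynomial k) * (Polynomial.X * Polynomial.derivative q) * P i -
        N.mulVec P i - (j : Polynomial k) * (q * P i)).coeff _ = _
      rw [Polynomial.coeff_sub, Polynomial.coeff_sub, Polynomial.coeff_sub, e0]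
      rw [Polynomial.coeff_mul_add_eq_of_natDegree_le hqd (hXd _ _ (ih1 i)).1, hqc,
        (hXd _ _ (ih1 i)).2, mul_assoc (j : Polynomial k), hnatc,
        Polynomial.coeff_mul_add_eq_of_natDegree_le (hXd _ _ hqd).1 (ih1 i), (hXd _ _ hqd).2, hqc,
        hnatc, Polynomial.coeff_mul_add_eq_of_natDegree_le hqd (ih1 i), hqc]
      have h3 : (N.mulVec P i).coeff (m + 1 + j * (m + 1)) =
          B.mulVec (fun l => (P l).coeff (j * (m + 1))) i := by
        unfold Matrix.mulVec dotProduct
        rw [Polynomial.finsetSum_coeff]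
        refine Finset.sum_congr rfl fun l _ => ?_
        rw [Polynomial.coeff_mul_add_eq_of_natDegree_le (hN _ _) (ih1 l)]
        rfl
      rw [h3]
      have h4 : (fun l => (P l).coeff (j * (m + 1))) = (-1 : k) ^ j •
          (Polynomial.aeval B (∏ i ∈ range j, (Polynomial.X +
            Polynomial.C ((i : k) * a)))).mulVec w := by
        funext l
        rw [Pi.smul_apply, smul_eq_mul]
        exact ih2 l
      have h5 : (Polynomial.aeval B (∏ i ∈ range (j + 1), (Polynomial.X +
          Polynomial.C ((i : k) * a)))).mulVec w =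
          B.mulVec ((Polynomial.aeval B (∏ i ∈ range j, (Polynomial.X +
            Polynomial.C ((i : k) * a)))).mulVec w) + ((j : k) * a) •
            (Polynomial.aeval B (∏ i ∈ range j, (Polynomial.X +
              Polynomial.C ((i : k) * a)))).mulVec w := by
        rw [Finset.prod_range_succ, mul_comm, map_mul, map_add, Polynomial.aeval_X,
          Polynomial.aeval_C, ← Matrix.mulVec_mulVec, Matrix.add_mulVec,
          Algebra.algebraMap_eq_smul_one, Matrix.smul_mulVec, Matrix.one_mulVec]
      rw [h4, h5, Matrix.mulVec_smul, Pi.smul_apply, Pi.add_apply, Pi.smul_apply, smul_eq_mul,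
        smul_eq_mul, ih2 i]
      push_cast
      ring

lemma ddx_pow (f : RatFunc k) (n : ℕ) :
    W432.PC.ddx k (f ^ n) = (n : RatFunc k) * f ^ (n - 1) * W432.PC.ddx k f := by
  rw [(W432.PC.ddx k).leibniz_pow f n, smul_eq_mul, nsmul_eq_mul]
  ring

lemma iter_frame {G T S dT N A : Matrix (Fin r) (Fin r) (RatFunc k)} {e d : RatFunc k}
    (hd : d ≠ 0) (he : e ≠ 0) (hdT : T.map (W432.PC.ddx k) = dT)
    (hST : S * T = e • (1 : Matrix (Fin r) (Fin r) (RatFunc k)))
    (hG : (RatFunc.X * d) • G = A) (hN : N = (RatFunc.X * d) • (dT * S) + T * A * S)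
    (v : Fin r → RatFunc k) (j : ℕ) :
    T.mulVec ((RatFunc.X : RatFunc k) ^ (j + 1) • (sysNabla G)^[j + 1] v) =
      (RatFunc.X : RatFunc k) • dvec (T.mulVec ((RatFunc.X : RatFunc k) ^ j •
        (sysNabla G)^[j] v)) -
        (d * e)⁻¹ • N.mulVec (T.mulVec ((RatFunc.X : RatFunc k) ^ j • (sysNabla G)^[j] v)) -
        (j : RatFunc k) • T.mulVec ((RatFunc.X : RatFunc k) ^ j • (sysNabla G)^[j] v) := by
  rw [← frame_change hd he hdT hST hG hN, Function.iterate_succ_apply']
  set u := (sysNabla G)^[j] v with hu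
  have h1 : sysNabla G ((RatFunc.X : RatFunc k) ^ j • u) =
      ((j : RatFunc k) * (RatFunc.X : RatFunc k) ^ (j - 1)) • u +
        (RatFunc.X : RatFunc k) ^ j • sysNabla G u := by
    rw [sysNabla_eq, sysNabla_eq, dvec_smul, Matrix.mulVec_smul, smul_sub]
    have h2 : W432.PC.ddx k (RatFunc.X ^ j) = (j : RatFunc k) * RatFunc.X ^ (j - 1) := by
      rw [ddx_pow, W432.PC.ddx_X, mul_one]
    rw [h2]
    abel
  rw [h1, Matrix.mulVec_add, Matrix.mulVec_smul, Matrix.mulVec_smul, Matrix.mulVec_smul,
    Matrix.mulVec_smul, smul_add, smul_smul, smul_smul, smul_smul]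
  have h3 : RatFunc.X * ((j : RatFunc k) * RatFunc.X ^ (j - 1)) =
      (j : RatFunc k) * RatFunc.X ^ j := by
    cases j with
    | zero => simp
    | succ j =>
      rw [Nat.add_sub_cancel, pow_succ]
      ring
  rw [h3, pow_succ']
  abel

/-- The residue at infinity and the powers of the connection. -/
theorem t_INFPC : S_INFPC := by
  intro R k _ _ φ r D m c n A T T' hD hc hTT hTT' hdeg hpc
  set ι : Polynomial k →+* RatFunc k := algebraMap (Polynomial k) (RatFunc k) with hι
  have hinj : Function.Injective ι := IsFractionRing.injective (Polynomial k) (RatFunc k)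
  set ψ : Polynomial R →+* RatFunc k := ι.comp (Polynomial.mapRingHom φ) with hψ
  have hX : ψ Polynomial.X = RatFunc.X := by
    rw [hψ, RingHom.comp_apply, Polynomial.coe_mapRingHom, Polynomial.map_X, hι,
      RatFunc.algebraMap_X]
  have hX0 : (RatFunc.X : RatFunc k) ≠ 0 := RatFunc.X_ne_zero
  have hX1 : (RatFunc.X - 1 : RatFunc k) ≠ 0 := by
    have h1 : (RatFunc.X - 1 : RatFunc k) = ι (Polynomial.X - Polynomial.C 1) := by
      rw [hι, map_sub, RatFunc.algebraMap_X, map_one, map_one]
    rw [h1, Ne, map_eq_zero_iff _ hinj]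
    exact Polynomial.X_sub_C_ne_zero 1
  have hDF : ((D : ℕ) : RatFunc k) ≠ 0 := by
    have h1 : ((D : ℕ) : RatFunc k) = algebraMap k (RatFunc k) D := (map_natCast _ D).symm
    rw [h1, Ne, map_eq_zero]
    exact hD
  have hcF : ((c : ℕ) : RatFunc k) ≠ 0 := by
    have h1 : ((c : ℕ) : RatFunc k) = algebraMap k (RatFunc k) c := (map_natCast _ c).symm
    rw [h1, Ne, map_eq_zero]
    exact hc
  set d : RatFunc k := (D : RatFunc k) * (RatFunc.X - 1) with hd
  have hd0 : d ≠ 0 := mul_ne_zero hDF hX1
  set e : RatFunc k := (c : RatFunc k) * RatFunc.X ^ m with he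
  have he0 : e ≠ 0 := mul_ne_zero hcF (pow_ne_zero _ hX0)
  have hdiag : ∀ M N : Matrix (Fin r) (Fin r) (Polynomial R),
      M * N = Matrix.diagonal (fun _ => (c : Polynomial R) * Polynomial.X ^ m) →
      M.map ψ * N.map ψ = e • (1 : Matrix (Fin r) (Fin r) (RatFunc k)) := by
    intro M N h
    rw [← Matrix.map_mul, h]
    ext i j
    rw [Matrix.map_apply, Matrix.diagonal_apply, Matrix.smul_apply, Matrix.one_apply]
    split_ifs
    · rw [map_mul, map_pow, hX, map_natCast, smul_eq_mul, mul_one]
    · rw [map_zero, smul_zero]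
  have hdT : (T.map ψ).map (W432.PC.ddx k) = (T.map Polynomial.derivative).map ψ := by
    ext1 i j
    simp only [Matrix.map_apply, hψ, RingHom.comp_apply, Polynomial.coe_mapRingHom, hι]
    rw [W432.PC.ddx_algebraMap, Polynomial.derivative_map]
  have hG : (RatFunc.X * d) • sysG φ D 1 A = A.map ψ := by
    ext1 i j
    rw [Matrix.smul_apply, smul_eq_mul]
    unfold sysG
    rw [Matrix.map_apply, Matrix.map_apply, hψ, RingHom.comp_apply, Polynomial.coe_mapRingHom,
      hd, pow_one]
    field_simp
    rfl
  have hN : (gaugeI D A T T').map ψ = (RatFunc.X * d) •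
      ((T.map Polynomial.derivative).map ψ * T'.map ψ) + T.map ψ * A.map ψ * T'.map ψ := by
    rw [← Matrix.map_mul, ← Matrix.map_mul, ← Matrix.map_mul]
    ext1 i j
    rw [Matrix.map_apply, Matrix.add_apply, Matrix.smul_apply, Matrix.map_apply, Matrix.map_apply]
    unfold gaugeI
    rw [Matrix.add_apply, Matrix.smul_apply, map_add, smul_eq_mul, smul_eq_mul, map_mul, map_mul,
      map_mul, map_natCast, map_sub, map_one, hX, hd]
    ring
  set Nk : Matrix (Fin r) (Fin r) (Polynomial k) :=
    (gaugeI D A T T').map (Polynomial.mapRingHom φ) with hNk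
  have hNkψ : (gaugeI D A T T').map ψ = Nk.map ι := by
    rw [hNk, Matrix.map_map]
    rfl
  have hNdeg : ∀ i j, (Nk i j).natDegree ≤ m + 1 := by
    intro i j
    rw [hNk, Matrix.map_apply, Polynomial.coe_mapRingHom]
    exact Polynomial.natDegree_map_le.trans (hdeg i j)
  obtain ⟨q, hq⟩ : ∃ q : Polynomial k, q =
      Polynomial.C ((D * c : ℕ) : k) * (Polynomial.X ^ m * (Polynomial.X - 1)) := ⟨_, rfl⟩
  have hqe : ι q = d * e := by
    rw [hq, map_mul, map_mul, map_pow, map_sub, map_one, hι, RatFunc.algebraMap_X,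
      RatFunc.algebraMap_C, hd, he, map_natCast]
    push_cast
    ring
  have hqe0 : ι q ≠ 0 := by
    rw [hqe]
    exact mul_ne_zero hd0 he0
  have hmain : ∀ w : Fin r → k, ∀ j : ℕ, ∀ i, ι (polyVec q Nk w j i) =
      (ι q) ^ j * (T.map ψ).mulVec ((RatFunc.X : RatFunc k) ^ j • (sysNabla (sysG φ D 1 A))^[j]
        (e⁻¹ • (T'.map ψ).mulVec fun l => ι (Polynomial.C (w l)))) i := by
    intro w j
    set v₀ : Fin r → RatFunc k := e⁻¹ • (T'.map ψ).mulVec fun l => ι (Polynomial.C (w l)) with hv₀
    induction j with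
    | zero =>
      intro i
      rw [pow_zero, one_mul, pow_zero, one_smul, Function.iterate_zero, id_eq, hv₀,
        Matrix.mulVec_smul, Matrix.mulVec_mulVec, hdiag _ _ hTT, Matrix.smul_mulVec,
        Matrix.one_mulVec, smul_smul, inv_mul_cancel₀ he0, one_smul]
      rfl
    | succ j ih =>
      intro i
      rw [iter_frame hd0 he0 hdT (hdiag _ _ hTT') hG hN]
      set F := (T.map ψ).mulVec ((RatFunc.X : RatFunc k) ^ j • (sysNabla (sysG φ D 1 A))^[j] v₀) with hF
      change ι (q * (Polynomial.X * Polynomial.derivative (polyVec q Nk w j i)) -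
        (j : Polynomial k) * (Polynomial.X * Polynomial.derivative q) * polyVec q Nk w j i -
        Nk.mulVec (polyVec q Nk w j) i - (j : Polynomial k) * (q * polyVec q Nk w j i)) = _
      have h1 : ι (Nk.mulVec (polyVec q Nk w j) i) = (ι q) ^ j * (Nk.map ι).mulVec F i := by
        unfold Matrix.mulVec dotProduct
        rw [map_sum, Finset.mul_sum]
        refine Finset.sum_congr rfl fun l _ => ?_
        rw [map_mul, ih l]
        simp only [Matrix.map_apply]
        ring
      have h2 : ι (Polynomial.derivative (polyVec q Nk w j i)) =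
          (j : RatFunc k) * (ι q) ^ (j - 1) * ι (Polynomial.derivative q) * F i +
            (ι q) ^ j * W432.PC.ddx k (F i) := by
        have h21 : ∀ f : Polynomial k, ι (Polynomial.derivative f) = W432.PC.ddx k (ι f) :=
          fun f => (W432.PC.ddx_algebraMap k f).symm
        rw [h21, ih i, (W432.PC.ddx k).leibniz, ddx_pow, h21, smul_eq_mul, smul_eq_mul]
        ring
      have hιX : ι Polynomial.X = RatFunc.X := by rw [hι, RatFunc.algebraMap_X]
      rw [map_sub, map_sub, map_sub, map_mul, map_mul, map_mul, map_mul, map_mul, map_mul,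
        map_mul, map_natCast, h1, h2, ih i, hιX, Pi.sub_apply, Pi.sub_apply, Pi.smul_apply,
        Pi.smul_apply, Pi.smul_apply, smul_eq_mul, smul_eq_mul, smul_eq_mul, hNkψ, ← hqe]
      have h4 : (ι q) * ((j : RatFunc k) * (ι q) ^ (j - 1)) = (j : RatFunc k) * (ι q) ^ j := by
        cases j with
        | zero => simp
        | succ j =>
          rw [Nat.add_sub_cancel, pow_succ]
          ring
      have h5 : (ι q) ^ (j + 1) * (ι q)⁻¹ = (ι q) ^ j := by
        rw [pow_succ, mul_assoc, mul_inv_cancel₀ hqe0, mul_one]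
      change _ = (ι q) ^ (j + 1) * (RatFunc.X * W432.PC.ddx k (F i) -
        (ι q)⁻¹ * (Nk.map ι).mulVec F i - (j : RatFunc k) * F i)
      linear_combination (RatFunc.X * ι (Polynomial.derivative q) * F i) * h4 +
        ((Nk.map ι).mulVec F i) * h5
  set B : Matrix (Fin r) (Fin r) k := (leadM D m A T T').map φ with hB
  have hBk : Nk.map (fun b => b.coeff (m + 1)) = B := by
    ext1 i j
    rw [hNk, hB]
    simp only [Matrix.map_apply, leadM, Polynomial.coe_mapRingHom, Polynomial.coeff_map]
  ext i j
  have h1 := (polyVec_coeff (a := ((D * c : ℕ) : k)) hNdeg (Pi.single j 1) n).2 i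
  have h2 : polyVec q Nk (Pi.single j 1) n i = 0 := by
    apply hinj
    rw [hmain, hpc, smul_zero, Matrix.mulVec_zero, Pi.zero_apply, mul_zero, map_zero]
  rw [← hq, h2, Polynomial.coeff_zero, hBk] at h1
  have h3 : (∏ i ∈ range n, (Polynomial.X + Polynomial.C ((i : k) * ((D * c : ℕ) : k)))) =
      annPoly k (D * c) n := by
    unfold annPoly
    refine Finset.prod_congr rfl fun i _ => ?_
    push_cast
    rfl
  rw [h3, Matrix.mulVec_single_one] at h1
  have h4 : ((-1 : k) ^ n) ≠ 0 := pow_ne_zero _ (neg_ne_zero.mpr one_ne_zero)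
  have h5 := (mul_eq_zero.mp h1.symm).resolve_left h4
  rw [Matrix.zero_apply]
  exact h5

end pc

end Pool.Agent.H925
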