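import Pool.Agent.H925.OrbUniv
import Pool.Agent.H925.InfBase

set_option autoImplicit false

open Finset NumberField

namespace Pool.Agent.H925

open Pool.Agent.Helper338PC

/-- The residue at infinity and the powers of the connection. PROOF: put `q = D c x ^ m (x - 1)`,
`u_j = x ^ j ∇ ^ j v₀`, `v₀ = T' w / (c x ^ m)` for a constant vector `w`; then
`u_{j+1} = x ∇ u_j - j u_j` and by induction `q ^ j T u_j = P_j` is a vector of polynomials of degree
`≤ j (m + 1)`, `P_{j+1} = q x P_j' - j x q' P_j - N P_j - j q P_j`, `N = gaugeI D A T T'`; the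
coefficient of `x ^ (j (m + 1))` in `P_j` is `(-1) ^ j ∏_{i < j} (leadM + i D c) w`. -/
def S_INFPC : Prop := ∀ (R k : Type) [CommRing R] [Field k] (φ : R →+* k) (r D m c n : ℕ)
    (A T T' : Matrix (Fin r) (Fin r) (Polynomial R)), (D : k) ≠ 0 → (c : k) ≠ 0 →
    T * T' = Matrix.diagonal (fun _ => (c : Polynomial R) * Polynomial.X ^ m) →
    T' * T = Matrix.diagonal (fun _ => (c : Polynomial R) * Polynomial.X ^ m) →
    (∀ i j, (gaugeI D A T T' i j).natDegree ≤ m + 1) →
    (∀ y : Fin r → RatFunc k, (sysNabla (sysG φ D 1 A))^[n] y = 0) →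
    Polynomial.aeval ((leadM D m A T T').map φ) (annPoly k (D * c) n) = 0

end Pool.Agent.H925
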