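import Pool.Graph.R_pool_sql_team_seeded_620a6dc7.Helper338PC.Num

set_option autoImplicit false

open Finset

namespace Pool.Agent.H925

open Pool.Agent.Helper338PC

section num

lemma out_prime {p : ℕ} (hp : p.Prime) (h2 : p ≠ 2) (h3 : p ≠ 3) :
    outTerm {2, 3} ∅ p = Real.log p / (p * (p - 1)) := by
  unfold outTerm
  rw [if_pos ⟨hp, by simp [h2, h3]⟩, if_neg (Set.notMem_empty p)]

lemma out_two : outTerm {2, 3} ∅ 2 = 0 := by
  unfold outTerm
  rw [if_neg]
  simp

lemma out_three : outTerm {2, 3} ∅ 3 = 0 := by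
  unfold outTerm
  rw [if_neg]
  simp

lemma out_not_prime {S : Finset ℕ} {p : ℕ} (hp : ¬ p.Prime) : outTerm S ∅ p = 0 := by
  unfold outTerm
  rw [if_neg]
  exact fun h => hp h.1

lemma GG_le {b : ℝ} (hb : 20 ≤ b) :
    Real.log b / (b * (b - 1)) ≤ 1 / 3 * (GG (b - 3) - GG b) := by
  unfold GG
  set L := Real.log b with hL
  have hb0 : 0 < b := by linarith
  have hb2 : 0 < b - 3 := by linarith
  have hb1 : 0 < b - 1 := by linarith
  have hL2 : 2 ≤ L := by
    rw [hL, Real.le_log_iff_exp_le hb0]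
    have h5 : Real.exp 2 = Real.exp 1 ^ 2 := by
      rw [← Real.exp_nat_mul]
      norm_num
    have h6 := Real.exp_one_lt_d9
    have h7 := Real.exp_pos 1
    rw [h5]
    calc Real.exp 1 ^ 2 ≤ (2.7182818286 : ℝ) ^ 2 := pow_le_pow_left₀ h7.le h6.le 2
      _ ≤ 20 := by norm_num
      _ ≤ b := hb
  have hlog : L - 3 / (b - 3) ≤ Real.log (b - 3) := by
    have h5 : Real.log (b / (b - 3)) ≤ b / (b - 3) - 1 :=
      Real.log_le_sub_one_of_pos (by positivity)
    rw [Real.log_div hb0.ne' hb2.ne'] at h5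
    have h6 : b / (b - 3) - 1 = 3 / (b - 3) := by
      field_simp
      ring
    rw [h6] at h5
    linarith
  have h4 : (L - 3 / (b - 3) + 1) / (b - 3) ≤ (Real.log (b - 3) + 1) / (b - 3) := by
    apply div_le_div_of_nonneg_right _ hb2.le
    linarith
  have h5 : L / (b * (b - 1)) ≤ 1 / 3 * ((L - 3 / (b - 3) + 1) / (b - 3) - (L + 1) / b) := by
    have h6 : 1 / 3 * ((L - 3 / (b - 3) + 1) / (b - 3) - (L + 1) / b) - L / (b * (b - 1)) =
        (2 * L * (b - 3) - 3 * (b - 1)) / (b * (b - 1) * (b - 3) ^ 2) := by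
      field_simp
      ring
    have h7 : 0 ≤ (2 * L * (b - 3) - 3 * (b - 1)) / (b * (b - 1) * (b - 3) ^ 2) := by
      apply div_nonneg _ (by positivity)
      nlinarith
    linarith
  linarith

lemma GG_le' {b : ℝ} (hb : 20 ≤ b) :
    Real.log (b + 1) / ((b + 1) * (b + 1 - 1)) ≤ 1 / 3 * (GG (b - 3) - GG b) := by
  refine le_trans ?_ (GG_le hb)
  have hb0 : 0 < b := by linarith
  have hb1 : 0 < b - 1 := by linarith
  have hL0 : 1 ≤ Real.log b := by
    rw [Real.le_log_iff_exp_le hb0]
    have := Real.exp_one_lt_d9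
    linarith
  have hlog : Real.log (b + 1) ≤ Real.log b + 1 / b := by
    have h5 : Real.log ((b + 1) / b) ≤ (b + 1) / b - 1 :=
      Real.log_le_sub_one_of_pos (by positivity)
    rw [Real.log_div (by positivity) hb0.ne'] at h5
    have h6 : (b + 1) / b - 1 = 1 / b := by
      field_simp
      ring
    rw [h6] at h5
    linarith
  have h1 : Real.log (b + 1) / ((b + 1) * (b + 1 - 1)) ≤
      (Real.log b + 1 / b) / ((b + 1) * (b + 1 - 1)) := by
    apply div_le_div_of_nonneg_right hlog
    have : b + 1 - 1 = b := by ring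
    rw [this]
    positivity
  refine h1.trans ?_
  have h2 : Real.log b / (b * (b - 1)) - (Real.log b + 1 / b) / ((b + 1) * (b + 1 - 1)) =
      (2 * b * Real.log b - (b - 1)) / (b ^ 2 * (b - 1) * (b + 1)) := by
    have : b + 1 - 1 = b := by ring
    rw [this]
    field_simp
    ring
  have h3 : 0 ≤ (2 * b * Real.log b - (b - 1)) / (b ^ 2 * (b - 1) * (b + 1)) := by
    apply div_nonneg _ (by positivity)
    nlinarith
  linarith

lemma out_nonneg (n : ℕ) : 0 ≤ outTerm {2, 3} ∅ n := by
  by_cases hp : n.Prime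
  · by_cases h2 : n = 2
    · rw [h2, out_two]
    · by_cases h3 : n = 3
      · rw [h3, out_three]
      · rw [out_prime hp h2 h3]
        have h5 : (1 : ℝ) ≤ (n : ℝ) := by exact_mod_cast hp.one_lt.le
        have h6 := Real.log_nonneg h5
        have h7 : (0 : ℝ) ≤ (n : ℝ) - 1 := by linarith
        positivity
  · rw [out_not_prime hp]

lemma out_le {n : ℕ} (hn : 4 ≤ n) : outTerm {2, 3} ∅ n ≤ Real.log n / (n * ((n : ℝ) - 1)) := by
  by_cases hp : n.Prime
  · rw [out_prime hp (by omega) (by omega)]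
  · rw [out_not_prime hp]
    have h5 : (1 : ℝ) ≤ (n : ℝ) := by exact_mod_cast (by omega : 1 ≤ n)
    have h6 := Real.log_nonneg h5
    have h7 : (0 : ℝ) ≤ (n : ℝ) - 1 := by linarith
    positivity

lemma partial_sum_six {k : ℕ} (hk : 16 ≤ k) :
    ∑ n ∈ range (6 * k + 2), outTerm {2, 3} ∅ n ≤ ∑ n ∈ range 98, outTerm {2, 3} ∅ n +
      1 / 3 * (GG 97 - GG ((6 * k + 1 : ℕ) : ℝ)) := by
  induction k, hk using Nat.le_induction with
  | base => norm_num
  | succ k hk ih =>
    have h1 : 6 * (k + 1) + 2 = (6 * k + 2) + 1 + 1 + 1 + 1 + 1 + 1 := by ring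
    rw [h1]
    iterate 6 rw [Finset.sum_range_succ]
    have hz : ∀ j q : ℕ, 1 < q → q < 6 * k + 2 + j → q ∣ 6 * k + 2 + j →
        outTerm {2, 3} ∅ (6 * k + 2 + j) = 0 := by
      intro j q hq hlt hd
      apply out_not_prime
      intro hp
      rcases (Nat.dvd_prime hp).mp hd with h | h <;> omega
    have e0 : outTerm {2, 3} ∅ (6 * k + 2) = 0 :=
      hz 0 2 (by norm_num) (by omega) ⟨3 * k + 1, by ring⟩
    have e1 : outTerm {2, 3} ∅ (6 * k + 2 + 1) = 0 :=
      hz 1 3 (by norm_num) (by omega) ⟨2 * k + 1, by ring⟩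
    have e2 : outTerm {2, 3} ∅ (6 * k + 2 + 1 + 1) = 0 :=
      hz 2 2 (by norm_num) (by omega) ⟨3 * k + 2, by ring⟩
    have e4 : outTerm {2, 3} ∅ (6 * k + 2 + 1 + 1 + 1 + 1) = 0 :=
      hz 4 2 (by norm_num) (by omega) ⟨3 * k + 3, by ring⟩
    have e3 : outTerm {2, 3} ∅ (6 * k + 2 + 1 + 1 + 1) ≤
        1 / 3 * (GG ((6 * k + 1 : ℕ) : ℝ) - GG ((6 * k + 4 : ℕ) : ℝ)) := by
      refine (out_le (by omega)).trans ?_
      have hk' : (16 : ℝ) ≤ k := by exact_mod_cast hk
      have h2 := GG_le' (b := 6 * k + 4) (by linarith)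
      have h3 : ((6 * k + 2 + 1 + 1 + 1 : ℕ) : ℝ) = 6 * k + 4 + 1 := by push_cast; ring
      have h4 : ((6 * k + 1 : ℕ) : ℝ) = 6 * k + 4 - 3 := by push_cast; ring
      have h5 : ((6 * k + 4 : ℕ) : ℝ) = 6 * k + 4 := by push_cast; ring
      rw [h3, h4, h5]
      exact h2
    have e5 : outTerm {2, 3} ∅ (6 * k + 2 + 1 + 1 + 1 + 1 + 1) ≤
        1 / 3 * (GG ((6 * k + 4 : ℕ) : ℝ) - GG ((6 * k + 7 : ℕ) : ℝ)) := by
      refine (out_le (by omega)).trans ?_
      have hk' : (16 : ℝ) ≤ k := by exact_mod_cast hk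
      have h2 := GG_le (b := 6 * k + 7) (by linarith)
      have h3 : ((6 * k + 2 + 1 + 1 + 1 + 1 + 1 : ℕ) : ℝ) = 6 * k + 7 := by push_cast; ring
      have h4 : ((6 * k + 4 : ℕ) : ℝ) = 6 * k + 7 - 3 := by push_cast; ring
      rw [h3, h4]
      exact h2
    have h2 : 6 * (k + 1) + 1 = 6 * k + 7 := by ring
    rw [e0, e1, e2, e4, h2]
    linarith

lemma sum_range_98 : ∑ n ∈ range 98, outTerm {2, 3} ∅ n =
    ∑ n ∈ ({5, 7, 11, 13, 17, 19, 23, 29, 31, 37, 41, 43, 47, 53, 59, 61, 67, 71, 73, 79, 83, 89, 97} : Finset ℕ), Real.log n / (n * ((n : ℝ) - 1)) := by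
  have hsub : ({5, 7, 11, 13, 17, 19, 23, 29, 31, 37, 41, 43, 47, 53, 59, 61, 67, 71, 73, 79, 83, 89, 97} : Finset ℕ) ⊆ range 98 := by decide
  rw [← Finset.sum_subset hsub]
  · refine Finset.sum_congr rfl fun n hn => ?_
    have h1 : n.Prime ∧ n ≠ 2 ∧ n ≠ 3 := by
      simp only [Finset.mem_insert, Finset.mem_singleton] at hn
      rcases hn with rfl | rfl | rfl | rfl | rfl | rfl | rfl | rfl | rfl | rfl | rfl | rfl | rfl | rfl | rfl | rfl | rfl | rfl | rfl | rfl | rfl | rfl | rfl <;> norm_num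
    exact out_prime h1.1 h1.2.1 h1.2.2
  · intro n hn hn'
    rw [Finset.mem_range] at hn
    by_cases hp : n.Prime
    · by_cases h2 : n = 2
      · rw [h2, out_two]
      · by_cases h3 : n = 3
        · rw [h3, out_three]
        · exfalso
          apply hn'
          clear hn'
          interval_cases n <;> first | exact absurd rfl h2 | exact absurd rfl h3 | decide |
            (exfalso; revert hp; norm_num)
    · exact out_not_prime hp

/-- The sum of `log p / (p (p - 1))` over the primes `p ≥ 5`. -/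
theorem tsum_out_six : ∑' p : ℕ, outTerm {2, 3} ∅ p ≤ 0.2351 := by
  have hlog2 := Real.log_two_lt_d9
  have hlog20 := Real.log_two_gt_d9
  have l5 : Real.log 5 ≤ 72 / 31 * Real.log 2 := by
    have := log_le_of_pow (p := 5) (a := 31) (b := 72) (by norm_num) (by norm_num) (by norm_num)
    exact_mod_cast this
  have l7 : Real.log 7 ≤ 73 / 26 * Real.log 2 := by
    have := log_le_of_pow (p := 7) (a := 26) (b := 73) (by norm_num) (by norm_num) (by norm_num)
    exact_mod_cast this
  have l11 : Real.log 11 ≤ 128 / 37 * Real.log 2 := by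
    have := log_le_of_pow (p := 11) (a := 37) (b := 128) (by norm_num) (by norm_num) (by norm_num)
    exact_mod_cast this
  have l13 : Real.log 13 ≤ 137 / 37 * Real.log 2 := by
    have := log_le_of_pow (p := 13) (a := 37) (b := 137) (by norm_num) (by norm_num) (by norm_num)
    exact_mod_cast this
  have l17 : Real.log 17 ≤ 139 / 34 * Real.log 2 := by
    have := log_le_of_pow (p := 17) (a := 34) (b := 139) (by norm_num) (by norm_num) (by norm_num)
    exact_mod_cast this
  have l19 : Real.log 19 ≤ 17 / 4 * Real.log 2 := by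
    have := log_le_of_pow (p := 19) (a := 4) (b := 17) (by norm_num) (by norm_num) (by norm_num)
    exact_mod_cast this
  have l23 : Real.log 23 ≤ 95 / 21 * Real.log 2 := by
    have := log_le_of_pow (p := 23) (a := 21) (b := 95) (by norm_num) (by norm_num) (by norm_num)
    exact_mod_cast this
  have l29 : Real.log 29 ≤ 175 / 36 * Real.log 2 := by
    have := log_le_of_pow (p := 29) (a := 36) (b := 175) (by norm_num) (by norm_num) (by norm_num)
    exact_mod_cast this
  have l31 : Real.log 31 ≤ 109 / 22 * Real.log 2 := by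
    have := log_le_of_pow (p := 31) (a := 22) (b := 109) (by norm_num) (by norm_num) (by norm_num)
    exact_mod_cast this
  have l37 : Real.log 37 ≤ 99 / 19 * Real.log 2 := by
    have := log_le_of_pow (p := 37) (a := 19) (b := 99) (by norm_num) (by norm_num) (by norm_num)
    exact_mod_cast this
  have l41 : Real.log 41 ≤ 134 / 25 * Real.log 2 := by
    have := log_le_of_pow (p := 41) (a := 25) (b := 134) (by norm_num) (by norm_num) (by norm_num)
    exact_mod_cast this
  have l43 : Real.log 43 ≤ 38 / 7 * Real.log 2 := by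
    have := log_le_of_pow (p := 43) (a := 7) (b := 38) (by norm_num) (by norm_num) (by norm_num)
    exact_mod_cast this
  have l47 : Real.log 47 ≤ 50 / 9 * Real.log 2 := by
    have := log_le_of_pow (p := 47) (a := 9) (b := 50) (by norm_num) (by norm_num) (by norm_num)
    exact_mod_cast this
  have l53 : Real.log 53 ≤ 86 / 15 * Real.log 2 := by
    have := log_le_of_pow (p := 53) (a := 15) (b := 86) (by norm_num) (by norm_num) (by norm_num)
    exact_mod_cast this
  have l59 : Real.log 59 ≤ 53 / 9 * Real.log 2 := by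
    have := log_le_of_pow (p := 59) (a := 9) (b := 53) (by norm_num) (by norm_num) (by norm_num)
    exact_mod_cast this
  have l61 : Real.log 61 ≤ 89 / 15 * Real.log 2 := by
    have := log_le_of_pow (p := 61) (a := 15) (b := 89) (by norm_num) (by norm_num) (by norm_num)
    exact_mod_cast this
  have l67 : Real.log 67 ≤ 85 / 14 * Real.log 2 := by
    have := log_le_of_pow (p := 67) (a := 14) (b := 85) (by norm_num) (by norm_num) (by norm_num)
    exact_mod_cast this
  have l71 : Real.log 71 ≤ 80 / 13 * Real.log 2 := by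
    have := log_le_of_pow (p := 71) (a := 13) (b := 80) (by norm_num) (by norm_num) (by norm_num)
    exact_mod_cast this
  have l73 : Real.log 73 ≤ 31 / 5 * Real.log 2 := by
    have := log_le_of_pow (p := 73) (a := 5) (b := 31) (by norm_num) (by norm_num) (by norm_num)
    exact_mod_cast this
  have l79 : Real.log 79 ≤ 82 / 13 * Real.log 2 := by
    have := log_le_of_pow (p := 79) (a := 13) (b := 82) (by norm_num) (by norm_num) (by norm_num)
    exact_mod_cast this
  have l83 : Real.log 83 ≤ 83 / 13 * Real.log 2 := by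
    have := log_le_of_pow (p := 83) (a := 13) (b := 83) (by norm_num) (by norm_num) (by norm_num)
    exact_mod_cast this
  have l89 : Real.log 89 ≤ 136 / 21 * Real.log 2 := by
    have := log_le_of_pow (p := 89) (a := 21) (b := 136) (by norm_num) (by norm_num) (by norm_num)
    exact_mod_cast this
  have l97 : Real.log 97 ≤ 33 / 5 * Real.log 2 := by
    have := log_le_of_pow (p := 97) (a := 5) (b := 33) (by norm_num) (by norm_num) (by norm_num)
    exact_mod_cast this
  have hbound : ∀ N, ∑ n ∈ range N, outTerm {2, 3} ∅ n ≤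
      ∑ n ∈ range 98, outTerm {2, 3} ∅ n + 1 / 3 * GG 97 := by
    intro N
    have h1 := partial_sum_six (k := N + 16) (by omega)
    have h2 : ∑ n ∈ range N, outTerm {2, 3} ∅ n ≤
        ∑ n ∈ range (6 * (N + 16) + 2), outTerm {2, 3} ∅ n :=
      Finset.sum_le_sum_of_subset_of_nonneg (Finset.range_mono (by omega)) fun n _ _ => out_nonneg n
    have h3 : 0 ≤ GG ((6 * (N + 16) + 1 : ℕ) : ℝ) := by
      unfold GG
      have h5 : (1 : ℝ) ≤ ((6 * (N + 16) + 1 : ℕ) : ℝ) := by exact_mod_cast (by omega)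
      have h6 := Real.log_nonneg h5
      positivity
    linarith
  have h1 := Real.tsum_le_of_sum_range_le out_nonneg hbound
  refine h1.trans ?_
  rw [sum_range_98]
  iterate 22 rw [Finset.sum_insert (by decide)]
  rw [Finset.sum_singleton]
  unfold GG
  push_cast
  norm_num
  linarith

end num

end Pool.Agent.H925
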