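import Pool.Agent.H925.InfBase

/-!
# The same at the point `1`: the statements

`OneG D m A A₁ T T'` : `T T' = T' T = (x - 1) ^ m` and the vector `Z = T Y` of a solution `Y` of
`D x (x - 1) Y' = A Y` satisfies `D x (x - 1) Z' = A₁ Z`, that is `D x (x - 1) T_x + T A = A₁ T`.
-/

set_option autoImplicit false

open Finset NumberField

namespace Pool.Agent.H925

/-- The gauge transformation `T`, invertible outside `1`, from `A` to `A₁`. -/
structure OneG {k idx : Type*} [CommRing k] [Fintype idx] [DecidableEq idx] (D m : ℕ)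
    (A A₁ T T' : Matrix idx idx (Polynomial k)) : Prop where
  mul : T * T' = Matrix.diagonal fun _ => (Polynomial.X - 1) ^ m
  mul' : T' * T = Matrix.diagonal fun _ => (Polynomial.X - 1) ^ m
  eq : ((D : Polynomial k) * (Polynomial.X * (Polynomial.X - 1))) • T.map Polynomial.derivative +
    T * A = A₁ * T

/-- One shearing step at the point `1`. PROOF (compare `S_SHEAR`): `v ≠ 0` with `A₁(1) v = μ v`,
`v i₀ ≠ 0`, `V = updateCol 1 i₀ v` (`det V = v i₀`), `S = diag(x - 1 at i₀, 1 otherwise)`,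
`S' = diag(1 at i₀, x - 1 otherwise)`, `T₁ = S V⁻¹ T`, `T₁' = T' V S'`. With `B = V⁻¹ A₁ V` one has
`B(1) e_{i₀} = μ e_{i₀}`, and `A₂ = S B S⁻¹ + D x (x - 1) S_x S⁻¹` has the entries `B(i,j)` for
`i, j ≠ i₀`, `B(i,i₀) / (x - 1)` (a polynomial) for `i ≠ i₀`, `(x - 1) B(i₀,j)` for `j ≠ i₀`, and
`B(i₀,i₀) + D x` for `i = j = i₀`; so `A₂(1)` has the row `i₀` equal to `(μ + D) e_{i₀}` and the same
minor as `B(1)`, whose column `i₀` is `μ e_{i₀}`: use `S_DETROW` (with `H = A₂(1)`, `H₁ = B(1)`). -/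
def S_SHEAR1 : Prop := ∀ (K : Type) [Field K] (r D m : ℕ)
    (A A₁ T T' : Matrix (Fin r) (Fin r) (Polynomial K)) (μ : K), OneG D m A A₁ T T' →
    (A₁.map (Polynomial.eval 1)).charpoly.IsRoot μ →
    ∃ A₂ T₁ T₁' : Matrix (Fin r) (Fin r) (Polynomial K), OneG D (m + 1) A A₂ T₁ T₁' ∧
      (Polynomial.X - Polynomial.C μ) * (A₂.map (Polynomial.eval 1)).charpoly =
        (Polynomial.X - Polynomial.C (μ + D)) * (A₁.map (Polynomial.eval 1)).charpoly

/-- The shearing at the point `1`. PROOF: start with `m = 0`, `T = T' = 1`, `A₁ = A`; as long as some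
`μ i < c`, apply `S_SHEAR1` to the root `D μ i`, which replaces `μ i` by `μ i + 1`. -/
def S_LOOP1 : Prop := ∀ (K : Type) [Field K] [CharZero K] (r D : ℕ)
    (A : Matrix (Fin r) (Fin r) (Polynomial K)) (μ : Fin r → ℚ) (c : ℕ), D ≠ 0 →
    (A.map (Polynomial.eval 1)).charpoly =
      ∏ i, (Polynomial.X - Polynomial.C (((D : ℚ) * μ i : ℚ) : K)) →
    (∀ i, μ i ≤ c) →
    ∃ (m : ℕ) (A₁ T T' : Matrix (Fin r) (Fin r) (Polynomial K)) (ν : Fin r → ℚ),
      OneG D m A A₁ T T' ∧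
      (A₁.map (Polynomial.eval 1)).charpoly =
        ∏ i, (Polynomial.X - Polynomial.C (((D : ℚ) * ν i : ℚ) : K)) ∧
      ∀ i, (c : ℚ) ≤ ν i ∧ ν i < c + 1 ∧ ∃ z : ℤ, ν i = μ i + z

end Pool.Agent.H925
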