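import Pool.Agent.H925.OrbGen
import Pool.Agent.H925.OneBase

set_option autoImplicit false

open PowerSeries Finset

namespace Pool.Agent.H925

open Pool.Agent.Helper338PC (th coeff_th th_mul' th_add' th_sum' th_C th_one wg Aps IsSolG
  Aps_apply X_sub_one_mul_wg)

section defs

/-- The flat bundle `Y' = A / (D x (x - 1)) Y` has at the point `1` the exponents `j / n₁`,
`0 ≤ j < n₁`, up to a gauge transformation: a matrix `T / (x - 1) ^ c` of polynomials divided by a
power of `x - 1`, with the inverse `T' (x - 1) ^ c / (x - 1) ^ m`, transforms the system to one with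
at most a simple pole at `1` whose residue is annihilated by `∏ (X - j / n₁)`. -/
structure OneGauge {k idx : Type*} [CommRing k] [Fintype idx] [DecidableEq idx]
    (D n₁ m c : ℕ) (A A₁ T T' : Matrix idx idx (Polynomial k)) : Prop where
  gauge : OneG D m A A₁ T T'
  res : Polynomial.aeval ((A₁.map (Polynomial.eval 1)) -
    Matrix.diagonal fun _ => ((c * D : ℕ) : k)) (eigPoly n₁ D) = 0

/-- The matrix of the system of the vector `(x - 1) ^ (-c) T Y`. -/
noncomputable def oneHat {k idx : Type*} [CommRing k] [DecidableEq idx] (D c : ℕ)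
    (A₁ : Matrix idx idx (Polynomial k)) : Matrix idx idx (Polynomial k) :=
  A₁ - Matrix.diagonal fun _ => ((c * D : ℕ) : Polynomial k) * Polynomial.X

end defs

section core

variable {idx : Type} [Fintype idx] [DecidableEq idx]

lemma evM_oneHat (Φ : PowerSeries ℂ) (D c : ℕ) (A₁ : Matrix idx idx (Polynomial ℂ))
    (F : idx → PowerSeries ℂ) (i : idx) : evM Φ (oneHat D c A₁) F i =
      evM Φ A₁ F i - ((c * D : ℕ) : PowerSeries ℂ) * Φ * F i := by
  unfold evM oneHat
  have h1 : ((c * D : ℕ) : PowerSeries ℂ) * Φ * F i =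
      ∑ l, Polynomial.aeval Φ ((Matrix.diagonal fun _ =>
        ((c * D : ℕ) : Polynomial ℂ) * Polynomial.X) i l) * F l := by
    rw [Finset.sum_eq_single i]
    · rw [Matrix.diagonal_apply_eq, map_mul, Polynomial.aeval_X, map_natCast]
    · intro l _ hl
      rw [Matrix.diagonal_apply_ne _ hl.symm, map_zero, zero_mul]
    · intro h; exact absurd (mem_univ i) h
  rw [h1, ← Finset.sum_sub_distrib]
  exact Finset.sum_congr rfl fun l _ => by rw [Matrix.sub_apply, map_sub]; ring

/-- The frame at the point `1`. -/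
lemma oneFrame {D m c : ℕ} {s w Φ ig lam dd : PowerSeries ℂ} (hig1 : (Φ - 1) * ig = 1)
    (hchainP : ∀ p : Polynomial ℂ, s * w * th (Polynomial.aeval Φ p) =
      lam * (Φ * Polynomial.aeval Φ (Polynomial.derivative p)))
    (hDdd : (D : PowerSeries ℂ) * dd = 1)
    {A A₁ T T' : Matrix idx idx (Polynomial ℂ)} (h : OneG D m A A₁ T T')
    {G : idx → PowerSeries ℂ} (hstar : ∀ i, s * w * th (G i) = lam * (dd * ig * evM Φ A G i))
    (i : idx) : s * w * th (ig ^ c * evM Φ T G i) =
      lam * (dd * ig * evM Φ (oneHat D c A₁) (fun l => ig ^ c * evM Φ T G l) i) := by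
  have e1 : s * w * th (evM Φ T G i) = lam * (Φ * evM Φ (T.map Polynomial.derivative) G i) +
      lam * (dd * ig * evM Φ (T * A) G i) := by
    rw [evM_mul]
    unfold evM
    rw [th_sum', Finset.mul_sum, Finset.mul_sum, Finset.mul_sum, Finset.mul_sum,
      Finset.mul_sum, ← Finset.sum_add_distrib]
    refine Finset.sum_congr rfl fun l _ => ?_
    have e3 := hstar l
    unfold evM at e3
    rw [th_mul', Matrix.map_apply]
    linear_combination (G l) * hchainP (T i l) + (Polynomial.aeval Φ (T i l)) * e3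
  have e2 : evM Φ A₁ (evM Φ T G) i = (D : PowerSeries ℂ) * (Φ * (Φ - 1)) *
      evM Φ (T.map Polynomial.derivative) G i + evM Φ (T * A) G i := by
    rw [← evM_mul, ← h.eq, evM_add, evM_psmul, map_mul, map_mul, map_sub, Polynomial.aeval_X,
      map_one, map_natCast]
  have e0 : s * w * th Φ = lam * Φ := by
    have := hchainP Polynomial.X
    rw [Polynomial.aeval_X, Polynomial.derivative_X, map_one, mul_one] at this
    exact this
  have e3 : s * w * th ig = -(lam * Φ * ig ^ 2) := by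
    have h1 : th ((Φ - 1) * ig) = 0 := by rw [hig1, th_one]
    rw [th_mul'] at h1
    have h2 : th (Φ - 1) = th Φ := by
      have h3 := th_add' (Φ - 1) (1 : PowerSeries ℂ)
      rw [sub_add_cancel, th_one, add_zero] at h3
      exact h3.symm
    rw [h2] at h1
    linear_combination (s * w * ig) * h1 - (s * w * th ig) * hig1 - ig ^ 2 * e0
  have e4 : s * w * th (ig ^ c) = -((c : PowerSeries ℂ) * lam * Φ * ig * ig ^ c) := by
    have h1 := th_pow' ig c
    linear_combination (s * w * (Φ - 1)) * h1 + ((c : PowerSeries ℂ) * ig ^ c * (Φ - 1)) * e3 -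
      (s * w * th (ig ^ c)) * hig1 - ((c : PowerSeries ℂ) * ig ^ c * lam * Φ * ig) * hig1
  have e5 : evM Φ A₁ (fun l => ig ^ c * evM Φ T G l) i = ig ^ c * evM Φ A₁ (evM Φ T G) i :=
    evM_smul Φ (ig ^ c) A₁ (evM Φ T G) i
  rw [evM_oneHat, e5, e2, th_mul']
  push_cast
  linear_combination (evM Φ T G i) * e4 + ig ^ c * e1 -
    (lam * Φ * ig ^ c * evM Φ (T.map Polynomial.derivative) G i) * hig1 -
    (lam * Φ * (Φ - 1) * ig * ig ^ c * evM Φ (T.map Polynomial.derivative) G i) * hDdd +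
    ((c : PowerSeries ℂ) * lam * Φ * ig * ig ^ c * evM Φ T G i) * hDdd

/-- The pull-back of the solutions, with a gauge transformation at `1`. -/
theorem orb_coreW {n₀ n₁ n₂ D e m c m₁ c₁ : ℕ} {s v w a b Φ ig lam nu dd : PowerSeries ℂ}
    (hs : CConv s) (hv : CConv v) (hw : CConv w) (ha : CConv a) (hb : CConv b) (hsne : s ≠ 0)
    (hvne : v ≠ 0) (hwne : w ≠ 0) {iv iw : PowerSeries ℂ} (hviv : v * iv = 1)
    (hwiw : w * iw = 1) (hrel : s ^ (n₀ + 1) + v ^ (n₁ + 1) = w ^ (n₂ + 1))
    (hab : a * s + b * w = 1)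
    (hlam : lam = ((n₀ + 1 : ℕ) : PowerSeries ℂ) * w * th s -
      ((n₂ + 1 : ℕ) : PowerSeries ℂ) * s * th w)
    (hnu : nu = ((n₁ + 1 : ℕ) : PowerSeries ℂ) * w * th v -
      ((n₂ + 1 : ℕ) : PowerSeries ℂ) * v * th w)
    (hig1 : (Φ - 1) * ig = 1) (hWΦ : w ^ (n₂ + 1) * Φ = s ^ (n₀ + 1))
    (hVig : v ^ (n₁ + 1) * ig = -w ^ (n₂ + 1))
    (hvlamig : v * lam * ig = s * nu - v * lam) (hln : lam * s ^ n₀ = -(nu * v ^ n₁))
    (hchainP : ∀ p : Polynomial ℂ, s * w * th (Polynomial.aeval Φ p) =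
      lam * (Φ * Polynomial.aeval Φ (Polynomial.derivative p)))
    (hddC : CConv dd) (hDdd : (D : PowerSeries ℂ) * dd = 1)
    {A T T' : Matrix idx idx (Polynomial ℂ)} (hinf : InfGauge D (n₂ + 1) e m c A T T')
    {A₁ T₁ T₁' : Matrix idx idx (Polynomial ℂ)} (hone : OneG D m₁ A A₁ T₁ T₁')
    {B C E : Matrix idx idx ℂ}
    (hB : ∀ i l, dd * PowerSeries.C ((A i l).coeff 0) = -PowerSeries.C (B i l))
    (hC : ∀ i l, dd * PowerSeries.C ((oneHat D c₁ A₁ i l).eval 1) = PowerSeries.C (C i l))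
    (hE : ∀ (F : idx → PowerSeries ℂ) (i : idx),
      dd * ∑ l, PowerSeries.C ((gaugeN D A T T' i l).coeff (m + 1)) * F l =
        (c : PowerSeries ℂ) * F i - app E F i)
    {P : Fin (n₀ + 1) → Matrix idx idx ℂ} {Q : Fin (n₁ + 1) → Matrix idx idx ℂ}
    {R : Fin (n₂ + 1) → Matrix idx idx ℂ} (hP : Spec (n₀ + 1) B P) (hQ : Spec (n₁ + 1) C Q)
    (hR : Spec (n₂ + 1) E R) {G : idx → PowerSeries ℂ}
    (hstar : ∀ i, s * w * th (G i) = lam * (dd * ig * evM Φ A G i))
    {X : Fin (n₀ + 1) → idx → PowerSeries ℂ}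
    (hX : ∀ j i, app (P j) G i = s ^ (j : ℕ) * X j i) (i : idx) :
    CConv (w ^ ((n₂ + 1) * e) * (v ^ ((n₁ + 1) * m₁) * G i)) := by
  classical
  set S := s ^ (n₀ + 1) with hS
  set V := v ^ (n₁ + 1) with hV
  set W := w ^ (n₂ + 1) with hW
  have hSC : CConv S := hs.pow _
  have hVC : CConv V := hv.pow _
  have hWC : CConv W := hw.pow _
  clear_value S V W
  have hVW : CConv (V * W) := hVC.mul hWC
  have hSW : CConv (S * W) := hSC.mul hWC
  have hSV : CConv (S * V) := hSC.mul hVC
  have hT : CConv (S * V * W) := hSV.mul hWC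
  have clVW : ∀ f, CL W f → CL (V * W) f := fun f hf => hf.mul_left hVC
  have clSW : ∀ f, CL W f → CL (S * W) f := fun f hf => hf.mul_left hSC
  have clT : ∀ f, CL W f → CL (S * V * W) f := fun f hf => hf.mul_left hSV
  -- the vector at the point `1`
  set J : idx → PowerSeries ℂ := fun i => ig ^ c₁ * evM Φ T₁ G i with hJ
  have hstarJ : ∀ i, s * w * th (J i) = lam * (dd * ig * evM Φ (oneHat D c₁ A₁) J i) :=
    fun i => oneFrame hig1 hchainP hDdd hone hstar i
  have hWΦ1 : W * (Φ - 1) = -V := by linear_combination hWΦ + hrel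
  have hVJ : ∀ i, V ^ c₁ * J i = (-1) ^ c₁ * (W ^ c₁ * evM Φ T₁ G i) := by
    intro i
    have h1 : V ^ c₁ * ig ^ c₁ = (-1) ^ c₁ * W ^ c₁ := by
      rw [← mul_pow, hVig, ← mul_pow]
      congr 1
      ring
    rw [hJ]
    linear_combination (evM Φ T₁ G i) * h1
  have hT₁'G : ∀ i, evM Φ T₁' (evM Φ T₁ G) i = (Φ - 1) ^ m₁ * G i := by
    intro i
    rw [← evM_mul, hone.mul']
    unfold evM
    rw [Finset.sum_eq_single i]
    · rw [Matrix.diagonal_apply_eq, map_pow, map_sub, Polynomial.aeval_X, map_one]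
    · intro l _ hl
      rw [Matrix.diagonal_apply_ne _ hl.symm, map_zero, zero_mul]
    · intro h; exact absurd (mem_univ i) h
  have hVGJ : ∀ i, V ^ m₁ * G i = ∑ l, ((-1) ^ m₁ * W ^ m₁) *
      (Polynomial.aeval Φ ((Polynomial.X - 1) ^ c₁ * T₁' i l) * J l) := by
    intro i
    have h1 : ig ^ c₁ * (Φ - 1) ^ c₁ = 1 := by rw [← mul_pow, mul_comm ig, hig1, one_pow]
    have h2 : (-1) ^ m₁ * W ^ m₁ * (Φ - 1) ^ m₁ = V ^ m₁ := by
      rw [← mul_pow, ← mul_pow]
      congr 1
      linear_combination -hWΦ1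
    have h3 : ∑ l, ((-1) ^ m₁ * W ^ m₁) *
        (Polynomial.aeval Φ ((Polynomial.X - 1) ^ c₁ * T₁' i l) * J l) =
        ((-1) ^ m₁ * W ^ m₁) * (ig ^ c₁ * (Φ - 1) ^ c₁) * evM Φ T₁' (evM Φ T₁ G) i := by
      conv_rhs => rw [evM]
      rw [Finset.mul_sum]
      refine Finset.sum_congr rfl fun l _ => ?_
      rw [map_mul, map_pow, map_sub, Polynomial.aeval_X, map_one, hJ]
      ring
    rw [h3, h1, hT₁'G]
    linear_combination (-(G i)) * h2
  clear_value J
  -- the vector at infinity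
  set H : idx → PowerSeries ℂ := evM Φ T G with hH
  set K : idx → PowerSeries ℂ := fun i => W ^ c * H i with hK
  -- the frames
  set Y : Fin (n₁ + 1) → idx → PowerSeries ℂ := fun j i => iv ^ (j : ℕ) * app (Q j) J i with hYdef
  set Z : Fin (n₂ + 1) → idx → PowerSeries ℂ := fun j i => iw ^ (j : ℕ) * app (R j) K i with hZdef
  have hY : ∀ j i, app (Q j) J i = v ^ (j : ℕ) * Y j i := fun j i => by
    rw [hYdef]
    simp only
    rw [← mul_assoc, ← mul_pow, hviv, one_pow, one_mul]
  have hZ : ∀ j i, app (R j) K i = w ^ (j : ℕ) * Z j i := fun j i => by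
    rw [hZdef]
    simp only
    rw [← mul_assoc, ← mul_pow, hwiw, one_pow, one_mul]
  clear_value Y Z
  have hXN : ∀ j i, X j i ∈ Submodule.span cR (Set.range fun x : Fin (n₀ + 1) × idx => X x.1 x.2) :=
    fun j i => Submodule.subset_span ⟨(j, i), rfl⟩
  have hYN : ∀ j i, Y j i ∈ Submodule.span cR (Set.range fun x : Fin (n₁ + 1) × idx => Y x.1 x.2) :=
    fun j i => Submodule.subset_span ⟨(j, i), rfl⟩
  have hZN : ∀ j i, Z j i ∈ Submodule.span cR (Set.range fun x : Fin (n₂ + 1) × idx => Z x.1 x.2) :=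
    fun j i => Submodule.subset_span ⟨(j, i), rfl⟩
  set NX := Submodule.span cR (Set.range fun x : Fin (n₀ + 1) × idx => X x.1 x.2) with hNX
  set NY := Submodule.span cR (Set.range fun x : Fin (n₁ + 1) × idx => Y x.1 x.2) with hNY
  set NZ := Submodule.span cR (Set.range fun x : Fin (n₂ + 1) × idx => Z x.1 x.2) with hNZ
  have hGX : ∀ i, G i ∈ NX := by
    intro i
    have e1 : G i = ∑ j : Fin (n₀ + 1), s ^ (j : ℕ) * X j i := by
      rw [← app_one G i, ← hP.sum_one, app_sumM]
      exact Finset.sum_congr rfl fun j _ => hX j i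
    rw [e1]
    exact sum_mem fun j _ => cmul_mem (hs.pow _) (hXN j i)
  have hJY : ∀ i, J i ∈ NY := by
    intro i
    have e1 : J i = ∑ j : Fin (n₁ + 1), v ^ (j : ℕ) * Y j i := by
      rw [← app_one J i, ← hQ.sum_one, app_sumM]
      exact Finset.sum_congr rfl fun j _ => hY j i
    rw [e1]
    exact sum_mem fun j _ => cmul_mem (hv.pow _) (hYN j i)
  have hHZ : ∀ i, K i ∈ NZ := by
    intro i
    have e1 : K i = ∑ j : Fin (n₂ + 1), w ^ (j : ℕ) * Z j i := by
      rw [← app_one K i, ← hR.sum_one, app_sumM]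
      exact Finset.sum_congr rfl fun j _ => hZ j i
    rw [e1]
    exact sum_mem fun j _ => cmul_mem (hw.pow _) (hZN j i)
  have hT'H : ∀ i, evM Φ T' H i = Φ ^ m * G i := by
    intro i
    rw [hH, ← evM_mul, hinf.mul', evM_diag]
  -- `S ^ m W ^ e G` is a combination of the frame at infinity
  have hGZ : ∀ i, S ^ m * (W ^ e * G i) ∈ NZ := by
    intro i
    have e0 : m + e = (m + e - c) + c := by
      have := hinf.deg i i
      omega
    have e1 : S ^ m * (W ^ e * G i) =
        ∑ l, (W ^ (m + e - c) * Polynomial.aeval Φ (T' i l)) * K l := by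
      have e2 : ∑ l, (W ^ (m + e - c) * Polynomial.aeval Φ (T' i l)) * K l =
          W ^ (m + e) * evM Φ T' H i := by
        have e3 : W ^ (m + e) = W ^ (m + e - c) * W ^ c := by rw [← pow_add, ← e0]
        unfold evM
        rw [Finset.mul_sum, e3]
        exact Finset.sum_congr rfl fun l _ => by rw [hK]; ring
      rw [e2, hT'H, ← hWΦ, mul_pow, pow_add]
      ring
    rw [e1]
    refine sum_mem fun l _ => cmul_mem (hom_conv hSC hWC hWΦ ?_) (hHZ l)
    have := hinf.deg i l
    omega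
  -- the first frame
  have eX : ∀ i, s * w * V * th (G i) = lam * W * app B G i -
      lam * S * (dd * ∑ l, Polynomial.aeval Φ (A i l).divX * G l) := by
    intro i
    have e1 : dd * evM Φ A G i = -app B G i +
        Φ * (dd * ∑ l, Polynomial.aeval Φ (A i l).divX * G l) := by
      unfold evM app
      rw [Finset.mul_sum, Finset.mul_sum, Finset.mul_sum, ← Finset.sum_neg_distrib,
        ← Finset.sum_add_distrib]
      refine Finset.sum_congr rfl fun l _ => ?_
      have e2 : Polynomial.aeval Φ (A i l) = Polynomial.aeval Φ (A i l).divX * Φ +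
          PowerSeries.C ((A i l).coeff 0) := by
        conv_lhs => rw [← Polynomial.divX_mul_X_add (A i l)]
        rw [map_add, map_mul, Polynomial.aeval_X, Polynomial.aeval_C]
        rfl
      rw [e2]
      linear_combination (G l) * hB i l
    linear_combination V * hstar i + (lam * (dd * evM Φ A G i)) * hVig - (lam * W) * e1 -
      (lam * (dd * ∑ l, Polynomial.aeval Φ (A i l).divX * G l)) * hWΦ
  have hXth : ∀ j i, th (X j i) ∈ satM NX hVW := by
    intro j i
    exact frameX (N := NX) hs hw hsne hS hW hrel hlam hddC hP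
      (R := fun i => ∑ l, Polynomial.aeval Φ (A i l).divX * G l)
      (fun i => sum_mem fun l _ => satM_mul (clVW _ (CL_aeval hSC hWC hWΦ _))
        (satM_of_mem (hGX l))) eX (hX j) (fun i => satM_of_mem (hXN j i)) i
  -- the second frame
  set A' := oneHat D c₁ A₁ with hA'
  have hdiv : ∀ i l, ∃ q : Polynomial ℂ, A' i l = Polynomial.C ((A' i l).eval 1) +
      (Polynomial.X - 1) * q := by
    intro i l
    have e1 : (Polynomial.X - Polynomial.C (1 : ℂ)) ∣ A' i l - Polynomial.C ((A' i l).eval 1) := by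
      rw [Polynomial.dvd_iff_isRoot, Polynomial.IsRoot, Polynomial.eval_sub, Polynomial.eval_C,
        sub_self]
    obtain ⟨q, hq⟩ := e1
    rw [Polynomial.C_1] at hq
    exact ⟨q, by linear_combination hq⟩
  choose q hq using hdiv
  have eY : ∀ i, s * v * w * th (J i) = (s * nu - v * lam) * app C J i +
      v * lam * (dd * ∑ l, Polynomial.aeval Φ (q i l) * J l) := by
    intro i
    have e1 : dd * evM Φ A' J i = app C J i +
        (Φ - 1) * (dd * ∑ l, Polynomial.aeval Φ (q i l) * J l) := by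
      unfold evM app
      rw [Finset.mul_sum, Finset.mul_sum, Finset.mul_sum, ← Finset.sum_add_distrib]
      refine Finset.sum_congr rfl fun l _ => ?_
      have e2 : Polynomial.aeval Φ (A' i l) = PowerSeries.C ((A' i l).eval 1) +
          (Φ - 1) * Polynomial.aeval Φ (q i l) := by
        conv_lhs => rw [hq i l]
        rw [map_add, map_mul, map_sub, Polynomial.aeval_X, Polynomial.aeval_C, map_one]
        rfl
      rw [e2]
      linear_combination (J l) * hC i l
    linear_combination v * hstarJ i + (v * lam * ig) * e1 + (app C J i) * hvlamig +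
      (v * lam * (dd * ∑ l, Polynomial.aeval Φ (q i l) * J l)) * hig1
  have hYth : ∀ j i, th (Y j i) ∈ satM NY hSW := by
    intro j i
    exact frameY (N := NY) hs hv hw hvne hS hW hlam hnu hln hddC hQ
      (R := fun i => ∑ l, Polynomial.aeval Φ (q i l) * J l)
      (fun i => sum_mem fun l _ => satM_mul (clSW _ (CL_aeval hSC hWC hWΦ _))
        (satM_of_mem (hJY l))) eY (hY j) (fun i => satM_of_mem (hYN j i)) i
  -- the third frame
  set NN := gaugeN D A T T' with hNN
  set q' : idx → idx → Polynomial ℂ := fun i k =>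
    NN i k - Polynomial.C ((NN i k).coeff (m + 1)) * Polynomial.X ^ (m + 1) with hq'
  have hq'deg : ∀ i k, (q' i k).natDegree ≤ m := by
    intro i k
    rw [Polynomial.natDegree_le_iff_coeff_eq_zero]
    intro n hn
    rw [hq', Polynomial.coeff_sub, Polynomial.coeff_C_mul, Polynomial.coeff_X_pow]
    by_cases h1 : n = m + 1
    · rw [if_pos h1, h1, mul_one, sub_self]
    · rw [if_neg h1, mul_zero, sub_zero]
      exact Polynomial.coeff_eq_zero_of_natDegree_lt (lt_of_le_of_lt (hinf.degN i k) (by omega))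
  have eZ0 : ∀ i, Φ ^ m * (s * w * th (H i)) = lam * (dd * ig * evM Φ NN H i) := by
    intro i
    have e1 : s * w * th (H i) = lam * (Φ * evM Φ (T.map Polynomial.derivative) G i) +
        lam * (dd * ig * evM Φ (T * A) G i) := by
      rw [evM_mul, hH]
      unfold evM
      rw [th_sum', Finset.mul_sum, Finset.mul_sum, Finset.mul_sum, Finset.mul_sum,
        Finset.mul_sum, ← Finset.sum_add_distrib]
      refine Finset.sum_congr rfl fun l _ => ?_
      have e3 := hstar l
      unfold evM at e3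
      rw [th_mul', Matrix.map_apply]
      linear_combination (G l) * hchainP (T i l) + (Polynomial.aeval Φ (T i l)) * e3
    have e2 : ∀ M : Matrix idx idx (Polynomial ℂ), Φ ^ m * evM Φ M G i = evM Φ (M * T') H i := by
      intro M
      rw [evM_mul, ← evM_smul]
      congr 1
      funext l
      exact (hT'H l).symm
    have e3 := e2 (T.map Polynomial.derivative)
    have e4 := e2 (T * A)
    have e5 : evM Φ NN H i = (D : PowerSeries ℂ) * (Φ * (Φ - 1)) *
        evM Φ (T.map Polynomial.derivative * T') H i + evM Φ (T * A * T') H i := by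
      rw [hNN]
      unfold gaugeN
      rw [evM_add, evM_psmul, map_mul, map_mul, map_sub, Polynomial.aeval_X, map_one, map_natCast]
    rw [e5]
    linear_combination (Φ ^ m) * e1 + (lam * Φ) * e3 + (lam * dd * ig) * e4 -
      (lam * Φ * evM Φ (T.map Polynomial.derivative * T') H i) * hig1 -
      (lam * Φ * (Φ - 1) * ig * evM Φ (T.map Polynomial.derivative * T') H i) * hDdd
  set g : PowerSeries ℂ := (c : PowerSeries ℂ) * (((n₂ + 1 : ℕ) : PowerSeries ℂ) * s * w ^ n₂ *
    th w - ((n₀ + 1 : ℕ) : PowerSeries ℂ) * S * th s) with hg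
  have hgC : CConv g := by
    rw [hg]
    exact (CConv.natCast _).mul (((((CConv.natCast _).mul hs).mul (hw.pow _)).mul hw.th).sub
      (((CConv.natCast _).mul hSC).mul hs.th))
  have eZ : ∀ i, S ^ m * (V * s * w) * th (K i) = lam * S ^ (m + 1) * app E K i -
      lam * W * (dd * ∑ k, (W ^ m * Polynomial.aeval Φ (q' i k)) * K k) + S ^ m * w * g * K i := by
    intro i
    have e1 : W ^ (m + 1) * (dd * evM Φ NN K i) = S ^ (m + 1) * ((c : PowerSeries ℂ) * K i -
        app E K i) + W * (dd * ∑ k, (W ^ m * Polynomial.aeval Φ (q' i k)) * K k) := by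
      rw [← hE]
      unfold evM
      rw [Finset.mul_sum, Finset.mul_sum, Finset.mul_sum, Finset.mul_sum, Finset.mul_sum,
        Finset.mul_sum, ← Finset.sum_add_distrib]
      refine Finset.sum_congr rfl fun k _ => ?_
      have e2 : Polynomial.aeval Φ (NN i k) = PowerSeries.C ((NN i k).coeff (m + 1)) *
          Φ ^ (m + 1) + Polynomial.aeval Φ (q' i k) := by
        rw [hq', map_sub, map_mul, map_pow, Polynomial.aeval_X, Polynomial.aeval_C]
        change _ = _ + (_ - PowerSeries.C _ * _)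
        ring
      have e3 : W ^ (m + 1) * Φ ^ (m + 1) = S ^ (m + 1) := by rw [← mul_pow, hWΦ]
      rw [e2, pow_succ W m]
      rw [pow_succ W m] at e3
      linear_combination (dd * PowerSeries.C ((NN i k).coeff (m + 1)) * K k) * e3
    have e4 : W ^ m * Φ ^ m = S ^ m := by rw [← mul_pow, hWΦ]
    have e5 : W ^ (m + 1) = W ^ m * W := pow_succ W m
    rw [e5] at e1
    -- the derivative of the power
    have e6 : w * th (W ^ c) = ((n₂ + 1 : ℕ) : PowerSeries ℂ) * (c : PowerSeries ℂ) * W ^ c *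
        th w := by
      rw [hW, ← pow_mul, th_pow' w ((n₂ + 1) * c)]
      push_cast
      ring
    have e7 : th (K i) = th (W ^ c) * H i + W ^ c * th (H i) := by
      rw [hK]
      simp only
      rw [th_mul']
    have e8 : evM Φ NN K i = W ^ c * evM Φ NN H i := evM_smul Φ (W ^ c) NN H i
    have e9 : K i = W ^ c * H i := rfl
    have e10 : W = w * w ^ n₂ := by rw [hW, pow_succ']
    rw [e8] at e1
    rw [e7, e9, hg]
    rw [e9] at e1
    have hl : lam * S ^ (m + 1) = S ^ m * S * lam := by rw [pow_succ]; ring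
    rw [hl]
    rw [pow_succ S m] at e1
    linear_combination (W ^ m * V * W ^ c) * eZ0 i - (V * s * w * W ^ c * th (H i)) * e4 +
      (lam * (dd * (W ^ c * evM Φ NN H i)) * W ^ m) * hVig - lam * e1 +
      (S ^ m * V * s * H i) * e6 - (S ^ m * S * (c : PowerSeries ℂ) * W ^ c * H i) * hlam +
      (S ^ m * (c : PowerSeries ℂ) * ((n₂ + 1 : ℕ) : PowerSeries ℂ) * s * th w * W ^ c * H i) *
        hrel + (S ^ m * (c : PowerSeries ℂ) * ((n₂ + 1 : ℕ) : PowerSeries ℂ) * s * th w *
        W ^ c * H i) * e10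
  have hZth : ∀ j i, th (Z j i) ∈ satM NZ hSV := by
    intro j i
    exact frameZ (N := NZ) hs hw hVC hwne hS hW hrel hlam hddC hR
      (R := fun i => ∑ k, (W ^ m * Polynomial.aeval Φ (q' i k)) * K k)
      (fun i => satM_of_mem (sum_mem fun k _ =>
        cmul_mem (hom_conv hSC hWC hWΦ (hq'deg i k)) (hHZ k))) hgC eZ (hZ j)
      (fun i => satM_of_mem (hZN j i)) i
  -- comparisons
  have hGZ' : ∀ i, G i ∈ satM NZ hT := by
    intro i
    refine satM_of_mul (u := S * W) (v := V) (by ring) hVC (k := m + e) ?_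
    have e1 : (S * W) ^ (m + e) * G i = (S ^ e * W ^ m) * (S ^ m * (W ^ e * G i)) := by
      rw [mul_pow, pow_add, pow_add]; ring
    rw [e1]
    exact satM_of_mem (cmul_mem ((hSC.pow _).mul (hWC.pow _)) (hGZ i))
  have hHX : ∀ i, K i ∈ satM NX hT := fun i =>
    cmul_mem (hWC.pow _) (evM_mem hSC hWC hWΦ clT T (fun l => satM_of_mem (hGX l)) i)
  have hVG : ∀ i, V ^ m₁ * G i ∈ satM NY hSW := by
    intro i
    rw [hVGJ]
    exact sum_mem fun l _ => cmul_mem (((CConv.one.neg).pow _).mul (hWC.pow _))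
      (satM_mul (clSW _ (CL_aeval hSC hWC hWΦ _)) (satM_of_mem (hJY l)))
  have hGYT : ∀ i, G i ∈ satM NY hT := by
    intro i
    refine satM_of_mul (u := V) (v := S * W) (by ring) hSW (k := m₁) ?_
    rw [hVGJ]
    exact sum_mem fun l _ => cmul_mem (((CConv.one.neg).pow _).mul (hWC.pow _))
      (satM_mul (clT _ (CL_aeval hSC hWC hWΦ _)) (satM_of_mem (hJY l)))
  have hJany : ∀ {N : Submodule cR (PowerSeries ℂ)}, (∀ i, G i ∈ satM N hT) →
      ∀ i, J i ∈ satM N hT := by
    intro N h i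
    refine satM_of_mul (u := V) (v := S * W) (by ring) hSW (k := c₁) ?_
    rw [hVJ]
    exact cmul_mem ((CConv.one.neg).pow _) (cmul_mem (hWC.pow _)
      (evM_mem hSC hWC hWΦ clT T₁ h i))
  have hHY : ∀ i, K i ∈ satM NY hT := fun i =>
    cmul_mem (hWC.pow _) (evM_mem hSC hWC hWΦ clT T hGYT i)
  have hSX : ∀ j i, S * X j i = s ^ (n₀ + 1 - (j : ℕ)) * app (P j) G i := by
    intro j i
    rw [hX, ← mul_assoc, ← pow_add, hS]
    congr 2
    have := j.2
    omega
  have hVY : ∀ j i, V * Y j i = v ^ (n₁ + 1 - (j : ℕ)) * app (Q j) J i := by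
    intro j i
    rw [hY, ← mul_assoc, ← pow_add, hV]
    congr 2
    have := j.2
    omega
  have hWZ : ∀ j i, W * Z j i = w ^ (n₂ + 1 - (j : ℕ)) * app (R j) K i := by
    intro j i
    rw [hZ, ← mul_assoc, ← pow_add, hW]
    congr 2
    have := j.2
    omega
  have hXany : ∀ {N : Submodule cR (PowerSeries ℂ)}, (∀ i, G i ∈ satM N hT) →
      ∀ j i, X j i ∈ satM N hT := by
    intro N h j i
    refine satM_of_mul (u := S) (v := V * W) (by ring) hVW (k := 1) ?_
    rw [pow_one, hSX]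
    exact cmul_mem (hs.pow _) (app_mem _ h i)
  have hYany : ∀ {N : Submodule cR (PowerSeries ℂ)}, (∀ i, G i ∈ satM N hT) →
      ∀ j i, Y j i ∈ satM N hT := by
    intro N h j i
    refine satM_of_mul (u := V) (v := S * W) (by ring) hSW (k := 1) ?_
    rw [pow_one, hVY]
    exact cmul_mem (hv.pow _) (app_mem _ (hJany h) i)
  have hZany : ∀ {N : Submodule cR (PowerSeries ℂ)}, (∀ i, K i ∈ satM N hT) →
      ∀ j i, Z j i ∈ satM N hT := by
    intro N h j i
    refine satM_of_mul (u := W) (v := S * V) (by ring) hSV (k := 1) ?_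
    rw [pow_one, hWZ]
    exact cmul_mem (hw.pow _) (app_mem _ h i)
  obtain ⟨α, β, hα, hβ, hαβ⟩ := bezout_pow hs hw ha hb hab (n₀ + 1) (n₂ + 1)
  rw [← hS, ← hW] at hαβ
  have hge : w ^ ((n₂ + 1) * e) * (v ^ ((n₁ + 1) * m₁) * G i) = W ^ e * (V ^ m₁ * G i) := by
    rw [hW, hV, ← pow_mul, ← pow_mul]
  rw [hge]
  refine cconv_glue (X := fun x : Fin (n₀ + 1) × idx => X x.1 x.2)
    (Y := fun x : Fin (n₁ + 1) × idx => Y x.1 x.2)
    (Z := fun x : Fin (n₂ + 1) × idx => Z x.1 x.2) hSC hVC hWC hrel hα hβ hαβ hVW hSW hSV hT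
    (fun x => hXth x.1 x.2) (fun x => hYth x.1 x.2) (fun x => hZth x.1 x.2)
    (fun x => hXany hGYT x.1 x.2)
    (fun x => hXany hGZ' x.1 x.2)
    (fun x => hYany (fun i => satM_of_mem (hGX i)) x.1 x.2)
    (fun x => hYany hGZ' x.1 x.2)
    (fun x => hZany hHX x.1 x.2) (fun x => hZany hHY x.1 x.2)
    (cmul_mem (hWC.pow _) (cmul_mem (hVC.pow _) (satM_of_mem (hGX i))))
    (cmul_mem (hWC.pow _) (hVG i)) ?_
  refine satM_of_mul (u := S) (v := V) rfl hVC (k := m) ?_
  have e1 : S ^ m * (W ^ e * (V ^ m₁ * G i)) = V ^ m₁ * (S ^ m * (W ^ e * G i)) := by ring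
  rw [e1]
  exact satM_of_mem (cmul_mem (hVC.pow _) (hGZ i))

end core

section orb

variable {idx : Type} [Fintype idx] [DecidableEq idx]

/-- The pull-back of the solutions of any flat bundle on a compact triangle orbifold to the
disc. -/
theorem orb_convW {n₀ n₁ n₂ D e m c m₁ c₁ : ℕ} (hn₀ : 0 < n₀) (hn₁ : 0 < n₁) (hn₂ : 0 < n₂) (hD : D ≠ 0)
    {s v w a b ω : PowerSeries ℂ} (hs : CConv s) (hv : CConv v) (hw : CConv w) (ha : CConv a)
    (hb : CConv b) (hs0 : constantCoeff s = 0) (hs1 : coeff 1 s ≠ 0)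
    (hrel : s ^ n₀ + v ^ n₁ = w ^ n₂) (hab : a * s + b * w = 1) (hω : ω ^ n₀ = w)
    {A T T' : Matrix idx idx (Polynomial ℂ)}
    (hA0 : Polynomial.aeval (-(A.map fun a => a.coeff 0)) (eigPoly n₀ D) = 0)
    (hinf : InfGauge D n₂ e m c A T T')
    {A₁ T₁ T₁' : Matrix idx idx (Polynomial ℂ)} (hone : OneGauge D n₁ m₁ c₁ A A₁ T₁ T₁')
    {j₀ : Fin n₀} {h : idx → PowerSeries ℂ}
    (hsol : IsSolG (Aps (RingHom.id ℂ) (D : ℂ)⁻¹ 1 A) ((j₀ : ℕ) / (n₀ : ℂ)) h) (i : idx) :
    CConv (s ^ (j₀ : ℕ) * (w ^ (n₂ * e) * v ^ (n₁ * m₁)) * ω⁻¹ ^ (n₂ * (j₀ : ℕ)) *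
      (h i).subst (s ^ n₀ * w⁻¹ ^ n₂)) := by
  classical
  have hn₀C : (n₀ : ℂ) ≠ 0 := by exact_mod_cast hn₀.ne'
  have hDC : (D : ℂ) ≠ 0 := by exact_mod_cast hD
  have hsne : s ≠ 0 := by
    rintro rfl
    exact hs1 (map_zero _)
  have hwc : constantCoeff w ≠ 0 := by
    intro h1
    have h2 := congrArg constantCoeff hab
    rw [map_add, map_mul, map_mul, hs0, h1, mul_zero, mul_zero, add_zero, map_one] at h2
    exact zero_ne_one h2
  have hωc : constantCoeff ω ≠ 0 := by
    intro h1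
    apply hwc
    rw [← hω, map_pow, h1, zero_pow hn₀.ne']
  have hvc : constantCoeff v ≠ 0 := by
    intro h1
    have h2 := congrArg constantCoeff hrel
    rw [map_add, map_pow, map_pow, map_pow, hs0, h1, zero_pow hn₀.ne', zero_pow hn₁.ne',
      add_zero] at h2
    exact pow_ne_zero n₂ hwc h2.symm
  have hwne : w ≠ 0 := by
    rintro rfl
    exact hwc (map_zero _)
  have hvne : v ≠ 0 := by
    rintro rfl
    exact hvc (map_zero _)
  have hωne : ω ≠ 0 := by
    rintro rfl
    exact hωc (map_zero _)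
  set iw := w⁻¹ with hiw
  set iv := v⁻¹ with hiv
  set iω := ω⁻¹ with hiω
  have hwiw : w * iw = 1 := PowerSeries.mul_inv_cancel w hwc
  have hviv : v * iv = 1 := PowerSeries.mul_inv_cancel v hvc
  have hωiω : ω * iω = 1 := PowerSeries.mul_inv_cancel ω hωc
  set Φ : PowerSeries ℂ := s ^ n₀ * iw ^ n₂ with hΦ
  have h0 : constantCoeff Φ = 0 := by
    rw [hΦ, map_mul, map_pow, hs0, zero_pow hn₀.ne', zero_mul]
  have hsub : HasSubst Φ := HasSubst.of_constantCoeff_zero' h0
  have hCnat : ∀ n : ℕ, (n : PowerSeries ℂ) = PowerSeries.C (n : ℂ) := fun n => (map_natCast _ n).symm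
  -- logarithmic derivatives
  have hiwp := th_inv_pow hwiw n₂
  have hsp := th_pow' s n₀
  set lam : PowerSeries ℂ := (n₀ : PowerSeries ℂ) * w * th s - (n₂ : PowerSeries ℂ) * s * th w
    with hlam
  set nu : PowerSeries ℂ := (n₁ : PowerSeries ℂ) * w * th v - (n₂ : PowerSeries ℂ) * v * th w
    with hnu
  have hsΦ : s * w * th Φ = lam * Φ := by
    rw [hΦ, th_mul', hlam]
    linear_combination (w * iw ^ n₂) * hsp + (s * s ^ n₀) * hiwp
  have hwn : w ^ n₂ * iw ^ n₂ = 1 := by rw [← mul_pow, hwiw, one_pow]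
  have hΦ1 : Φ - 1 = -(v ^ n₁ * iw ^ n₂) := by
    rw [hΦ]
    linear_combination (iw ^ n₂) * hrel + hwn
  have hv1 : v * w * th Φ = nu * (Φ - 1) := by
    have hvp := th_pow' v n₁
    have e2 : th Φ = -th (v ^ n₁ * iw ^ n₂) := by
      have e3 : th (Φ + v ^ n₁ * iw ^ n₂) = 0 := by
        have e4 : Φ + v ^ n₁ * iw ^ n₂ = 1 := by linear_combination hΦ1
        rw [e4, th_one]
      rw [th_add'] at e3
      linear_combination e3
    rw [e2, hΦ1, th_mul', hnu]
    linear_combination (-(w * iw ^ n₂)) * hvp - (v * v ^ n₁) * hiwp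
  set ig := (wg ℂ).subst Φ with hig
  have hig1 := subst_wgC hsub
  rw [← hig] at hig1
  have hWΦ : w ^ n₂ * Φ = s ^ n₀ := by
    rw [hΦ]
    linear_combination (s ^ n₀) * hwn
  have hWΦ1 : w ^ n₂ * (Φ - 1) = -v ^ n₁ := by
    rw [hΦ1]
    linear_combination (-v ^ n₁) * hwn
  have hVig : v ^ n₁ * ig = -w ^ n₂ := by
    linear_combination ig * hWΦ1 - (w ^ n₂) * hig1
  have hvlamig : v * lam * ig = s * nu - v * lam := by
    have e5 : v * lam * Φ * ig = s * nu := by
      linear_combination (-(v * ig)) * hsΦ + (s * ig) * hv1 + (s * nu) * hig1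
    linear_combination e5 - (v * lam) * hig1
  have hln : lam * s ^ n₀ * v = -(nu * v ^ n₁ * s) := by
    -- `v lam Φ = s nu (Φ - 1)`
    have e5 : v * lam * Φ = s * nu * (Φ - 1) := by
      linear_combination (-v) * hsΦ + s * hv1
    linear_combination (w ^ n₂) * e5 - (v * lam) * hWΦ + (s * nu) * hWΦ1
  -- the chain rule
  have hchain : ∀ f : PowerSeries ℂ, s * w * th (f.subst Φ) = lam * (th f).subst Φ := by
    intro f
    have e1 : (th f).subst Φ = Φ * (derivative ℂ f).subst Φ := by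
      unfold th
      rw [subst_mul hsub, subst_X hsub]
    have e2 : th (f.subst Φ) = (derivative ℂ f).subst Φ * th Φ := by
      unfold th
      rw [derivative_subst hsub]
      ring
    rw [e1, e2]
    linear_combination ((derivative ℂ f).subst Φ) * hsΦ
  have hchainP : ∀ p : Polynomial ℂ, s * w * th (Polynomial.aeval Φ p) =
      lam * (Φ * Polynomial.aeval Φ (Polynomial.derivative p)) := by
    intro p
    have e1 := hchain (p : PowerSeries ℂ)
    have e2 : th (p : PowerSeries ℂ) =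
        ((Polynomial.X * Polynomial.derivative p : Polynomial ℂ) : PowerSeries ℂ) := by
      unfold th
      rw [Polynomial.coe_mul, Polynomial.coe_X]
      congr 1
      exact PowerSeries.derivative_coe p
    rw [e2, subst_coe hsub, subst_coe hsub, map_mul, Polynomial.aeval_X] at e1
    exact e1
  -- the pulled back solution
  set u : PowerSeries ℂ := s ^ (j₀ : ℕ) * iω ^ (n₂ * (j₀ : ℕ)) with hu
  have hβ : PowerSeries.C ((j₀ : ℕ) / (n₀ : ℂ)) * (n₀ : PowerSeries ℂ) =
      (((j₀ : ℕ) : ℕ) : PowerSeries ℂ) := by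
    rw [hCnat, hCnat, ← map_mul, div_mul_cancel₀ _ hn₀C]
  have hthu : s * w * th u = PowerSeries.C ((j₀ : ℕ) / (n₀ : ℂ)) * lam * u := by
    have e1 := th_pow' s (j₀ : ℕ)
    have e3 := th_inv_pow hωiω (n₂ * (j₀ : ℕ))
    have e4 : (n₀ : PowerSeries ℂ) * w * th ω = ω * th w := by
      have := th_pow' ω n₀
      rw [hω] at this
      exact this.symm
    have hne : (n₀ : PowerSeries ℂ) * ω ≠ 0 := by
      refine mul_ne_zero ?_ hωne
      rw [hCnat, Ne, map_eq_zero_iff _ PowerSeries.C_injective]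
      exact hn₀C
    have e5 : ((n₂ * (j₀ : ℕ) : ℕ) : PowerSeries ℂ) = (n₂ : PowerSeries ℂ) *
        (PowerSeries.C ((j₀ : ℕ) / (n₀ : ℂ)) * (n₀ : PowerSeries ℂ)) := by
      rw [hβ]; push_cast; ring
    have e6 : w * th (iω ^ (n₂ * (j₀ : ℕ))) = -(PowerSeries.C ((j₀ : ℕ) / (n₀ : ℂ)) *
        (n₂ : PowerSeries ℂ) * th w * iω ^ (n₂ * (j₀ : ℕ))) := by
      apply mul_left_cancel₀ hne
      rw [e5] at e3
      linear_combination ((n₀ : PowerSeries ℂ) * w) * e3 - ((n₂ : PowerSeries ℂ) *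
        (PowerSeries.C ((j₀ : ℕ) / (n₀ : ℂ)) * (n₀ : PowerSeries ℂ)) *
          iω ^ (n₂ * (j₀ : ℕ))) * e4
    rw [hu, th_mul', hlam]
    linear_combination (w * iω ^ (n₂ * (j₀ : ℕ))) * e1 + (s * s ^ (j₀ : ℕ)) * e6 -
      (w * th s * (s ^ (j₀ : ℕ) * iω ^ (n₂ * (j₀ : ℕ)))) * hβ
  set dd : PowerSeries ℂ := PowerSeries.C ((D : ℂ)⁻¹) with hdd
  have hddC : CConv dd := CConv.C _
  have hDdd : (D : PowerSeries ℂ) * dd = 1 := by
    rw [hCnat, hdd, ← map_mul, mul_inv_cancel₀ hDC, map_one]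
  set G : idx → PowerSeries ℂ := fun l => u * (h l).subst Φ with hG
  have hstar : ∀ i, s * w * th (G i) = lam * (dd * ig * evM Φ A G i) := by
    intro i
    have e1 : s * w * th ((h i).subst Φ) = lam * ((∑ l, dd * ig *
        Polynomial.aeval Φ (A i l) * (h l).subst Φ) -
        PowerSeries.C ((j₀ : ℕ) / (n₀ : ℂ)) * (h i).subst Φ) := by
      rw [hchain, hsol i, subst_sub hsub, subst_mul hsub, subst_CC, subst_sumC hsub]
      congr 2
      refine Finset.sum_congr rfl fun l _ => ?_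
      rw [subst_mul hsub, Aps_apply, pow_one, Polynomial.map_id, subst_mul hsub, subst_mul hsub,
        subst_CC, subst_coe hsub]
    have e2 : evM Φ A G i = u * ∑ l, Polynomial.aeval Φ (A i l) * (h l).subst Φ := by
      unfold evM
      rw [Finset.mul_sum]
      exact Finset.sum_congr rfl fun l _ => by rw [hG]; ring
    have e3 : (∑ l, dd * ig * Polynomial.aeval Φ (A i l) * (h l).subst Φ) =
        dd * ig * ∑ l, Polynomial.aeval Φ (A i l) * (h l).subst Φ := by
      rw [Finset.mul_sum]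
      exact Finset.sum_congr rfl fun l _ => by ring
    rw [e3] at e1
    have e4 : th (G i) = th u * (h i).subst Φ + u * th ((h i).subst Φ) := by
      rw [hG]; simp only; rw [th_mul']
    rw [e4, e2]
    linear_combination (h i).subst Φ * hthu + u * e1
  -- the residues
  set A₀ : Matrix idx idx ℂ := A.map fun a => a.coeff 0 with hA₀
  obtain ⟨P, hP⟩ := exists_spec (Z := -A₀) hn₀ hD hA0
  obtain ⟨Q, hQ⟩ := exists_spec hn₁ hD hone.res
  obtain ⟨R, hR⟩ := exists_spec hn₂ hD hinf.res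
  set B : Matrix idx idx ℂ := (D : ℂ)⁻¹ • (-A₀) with hB
  set C : Matrix idx idx ℂ := (D : ℂ)⁻¹ • ((A₁.map (Polynomial.eval 1)) -
    Matrix.diagonal fun _ => ((c₁ * D : ℕ) : ℂ)) with hC
  set E : Matrix idx idx ℂ := (D : ℂ)⁻¹ • ((Matrix.diagonal fun _ => ((c * D : ℕ) : ℂ)) -
    ((gaugeN D A T T').map fun a => a.coeff (m + 1))) with hE
  have hBl : ∀ i l, dd * PowerSeries.C ((A i l).coeff 0) = -PowerSeries.C (B i l) := by
    intro i l
    rw [hdd, ← map_mul, ← map_neg]
    congr 1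
    rw [hB, hA₀, Matrix.smul_apply, Matrix.neg_apply, Matrix.map_apply, smul_eq_mul]
    ring
  have hCl : ∀ i l, dd * PowerSeries.C ((oneHat D c₁ A₁ i l).eval 1) =
      PowerSeries.C (C i l) := by
    intro i l
    rw [hdd, ← map_mul]
    congr 1
    rw [hC, Matrix.smul_apply, smul_eq_mul, Matrix.sub_apply, Matrix.map_apply]
    congr 1
    unfold oneHat
    rw [Matrix.sub_apply, Polynomial.eval_sub]
    congr 1
    rw [Matrix.diagonal_apply, Matrix.diagonal_apply]
    split_ifs
    · rw [Polynomial.eval_mul, Polynomial.eval_X, mul_one, Polynomial.eval_natCast]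
    · rw [Polynomial.eval_zero]
  have hEl : ∀ (F : idx → PowerSeries ℂ) (i : idx),
      dd * ∑ l, PowerSeries.C ((gaugeN D A T T' i l).coeff (m + 1)) * F l =
        (c : PowerSeries ℂ) * F i - app E F i := by
    intro F i
    have e1 : (c : PowerSeries ℂ) * F i = app ((c : ℂ) • (1 : Matrix idx idx ℂ)) F i := by
      rw [app_smul, app_one, map_natCast]
    rw [e1]
    unfold app
    rw [Finset.mul_sum, ← Finset.sum_sub_distrib]
    refine Finset.sum_congr rfl fun l _ => ?_
    rw [← mul_assoc, ← sub_mul, hdd, ← map_mul, ← map_sub]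
    congr 2
    have e2 : E i l = (D : ℂ)⁻¹ * ((if i = l then ((c * D : ℕ) : ℂ) else 0) -
        (gaugeN D A T T' i l).coeff (m + 1)) := rfl
    have e3 : ((c : ℂ) • (1 : Matrix idx idx ℂ)) i l = if i = l then (c : ℂ) else 0 := by
      rw [Matrix.smul_apply, Matrix.one_apply, smul_eq_mul]
      split_ifs
      · rw [mul_one]
      · rw [mul_zero]
    rw [e2, e3]
    push_cast
    split_ifs
    · field_simp
      ring
    · ring
  -- the initial value
  have hinit : ∀ i, app B (fun l => PowerSeries.C (constantCoeff (h l))) i =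
      PowerSeries.C ((j₀ : ℕ) / (n₀ : ℂ)) * PowerSeries.C (constantCoeff (h i)) := by
    intro i
    have e1 := congrArg constantCoeff (hsol i)
    rw [constantCoeff_th, map_sub, map_sum, map_mul, constantCoeff_C] at e1
    have e2 : ∀ l, constantCoeff (Aps (RingHom.id ℂ) (D : ℂ)⁻¹ 1 A i l * h l) =
        B i l * constantCoeff (h l) := by
      intro l
      rw [map_mul, Aps_apply, pow_one, Polynomial.map_id, map_mul, map_mul, wg_constantCoeff,
        constantCoeff_C, hB, hA₀, Matrix.smul_apply, Matrix.neg_apply, Matrix.map_apply,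
        smul_eq_mul, Polynomial.constantCoeff_coe]
      ring
    rw [Finset.sum_congr rfl fun l _ => e2 l] at e1
    unfold app
    have e3 : ∀ l, PowerSeries.C (B i l) * PowerSeries.C (constantCoeff (h l)) =
        PowerSeries.C (B i l * constantCoeff (h l)) := fun l => (map_mul _ _ _).symm
    rw [Finset.sum_congr rfl fun l _ => e3 l, ← map_sum, ← map_mul]
    congr 1
    linear_combination -e1
  have hzero : ∀ (j : Fin n₀) i, j ≠ j₀ → constantCoeff (app (P j) h i) = 0 := by
    intro j i hj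
    have e0 : ∀ f : idx → PowerSeries ℂ, constantCoeff (app (P j) f i) =
        ∑ l, P j i l * constantCoeff (f l) := by
      intro f
      unfold app
      rw [map_sum]
      exact Finset.sum_congr rfl fun l _ => by rw [map_mul, constantCoeff_C]
    have e1 : app (P j) (app B (fun l => PowerSeries.C (constantCoeff (h l)))) i =
        PowerSeries.C ((j : ℕ) / (n₀ : ℂ)) * app (P j) (fun l => PowerSeries.C (constantCoeff (h l))) i := by
      rw [app_app, hP.left_mul, app_smul]
    have e2 : app B (fun l => PowerSeries.C (constantCoeff (h l))) =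
        fun l => PowerSeries.C ((j₀ : ℕ) / (n₀ : ℂ)) * PowerSeries.C (constantCoeff (h l)) :=
      funext hinit
    rw [e2, app_mul] at e1
    have e3 := congrArg constantCoeff e1
    rw [map_mul, map_mul, constantCoeff_C, constantCoeff_C, e0] at e3
    simp only [constantCoeff_C] at e3
    rw [e0]
    have e4 : ((j₀ : ℕ) : ℂ) / n₀ - ((j : ℕ) : ℂ) / n₀ ≠ 0 := by
      rw [← sub_div]
      refine div_ne_zero (sub_ne_zero.mpr ?_) hn₀C
      intro h1
      exact hj (Fin.ext (by exact_mod_cast h1.symm))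
    have e5 : (((j₀ : ℕ) : ℂ) / n₀ - ((j : ℕ) : ℂ) / n₀) *
        ∑ l, P j i l * constantCoeff (h l) = 0 := by
      rw [sub_mul, e3, sub_self]
    exact (mul_eq_zero.mp e5).resolve_left e4
  -- the divisibility
  have hX : ∀ (j : Fin n₀) i, ∃ y, app (P j) G i = s ^ (j : ℕ) * y := by
    intro j i
    have e1 : app (P j) G i = u * (app (P j) h i).subst Φ := by
      rw [hG, app_mul]
      congr 1
      unfold app
      rw [subst_sumC hsub]
      refine Finset.sum_congr rfl fun l _ => ?_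
      rw [subst_mul hsub, subst_CC]
    by_cases hj : j = j₀
    · rw [hj] at e1 ⊢
      rw [hu] at e1
      exact ⟨iω ^ (n₂ * (j₀ : ℕ)) * (app (P j₀) h i).subst Φ, by rw [e1]; ring⟩
    · obtain ⟨g, hg⟩ := (PowerSeries.X_dvd_iff).mpr (hzero j i hj)
      refine ⟨s ^ ((j₀ : ℕ) + n₀ - (j : ℕ)) * iω ^ (n₂ * (j₀ : ℕ)) * iw ^ n₂ *
        g.subst Φ, ?_⟩
      have e2 : s ^ (j : ℕ) * s ^ ((j₀ : ℕ) + n₀ - (j : ℕ)) = s ^ (j₀ : ℕ) * s ^ n₀ := by
        rw [← pow_add, ← pow_add]
        congr 1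
        have := j.2
        omega
      rw [e1, hg, subst_mul hsub, subst_X hsub, hu]
      rw [hΦ] at *
      linear_combination (-(iω ^ (n₂ * (j₀ : ℕ)) * iw ^ n₂ *
        PowerSeries.subst (s ^ n₀ * iw ^ n₂) g)) * e2
  choose X hX using hX
  have hgoal : s ^ (j₀ : ℕ) * (w ^ (n₂ * e) * v ^ (n₁ * m₁)) * iω ^ (n₂ * (j₀ : ℕ)) *
      (h i).subst Φ = w ^ (n₂ * e) * (v ^ (n₁ * m₁) * G i) := by
    rw [hG, hu]
    ring
  rw [hgoal]
  clear_value iw iv iω Φ ig lam nu u dd G B C E A₀
  clear hgoal hinit hzero hsub hchain hsΦ hsp hiwp hv1 hthu hβ h0 hΦ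
  obtain ⟨k₀, rfl⟩ : ∃ k, n₀ = k + 1 := ⟨n₀ - 1, by omega⟩
  obtain ⟨k₁, rfl⟩ : ∃ k, n₁ = k + 1 := ⟨n₁ - 1, by omega⟩
  obtain ⟨k₂, rfl⟩ : ∃ k, n₂ = k + 1 := ⟨n₂ - 1, by omega⟩
  have hln' : lam * s ^ k₀ = -(nu * v ^ k₁) := by
    apply mul_left_cancel₀ (mul_ne_zero hsne hvne)
    rw [pow_succ, pow_succ] at hln
    linear_combination hln
  exact orb_coreW hs hv hw ha hb hsne hvne hwne hviv hwiw hrel hab hlam hnu hig1 hWΦ hVig
    hvlamig hln' hchainP hddC hDdd hinf hone.gauge hBl hCl hEl hP hQ hR hstar hX i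

end orb

end Pool.Agent.H925
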