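import Pool.Agent.H925.InfBase
import Pool.Graph.R_pool_sql_team_seeded_620a6dc7.Helper338PC.KPC

/-!
# Statements about `p`-curvatures
-/

set_option autoImplicit false

open Finset NumberField

namespace Pool.Agent.H925

open Pool.Agent.Helper338PC

/-- The matrices of polynomials `(D x (x - 1)) ^ m ∇ ^ m (1)`, `∇ M = M' - A / (D x (x - 1)) M`. -/
noncomputable def nabPoly {R idx : Type*} [CommRing R] [Fintype idx] [DecidableEq idx] (D : ℕ)
    (A : Matrix idx idx (Polynomial R)) : ℕ → Matrix idx idx (Polynomial R)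
  | 0 => 1
  | m + 1 => ((D : Polynomial R) * (Polynomial.X * (Polynomial.X - 1))) •
      (nabPoly D A m).map Polynomial.derivative -
        ((m : Polynomial R) * ((D : Polynomial R) * (2 * Polynomial.X - 1))) • nabPoly D A m -
        A * nabPoly D A m

/-- The `p`-curvature of `d/dx - A / (D x (x - 1))` is zero modulo `p`: the entries of the matrix of
polynomials `(D x (x - 1)) ^ p ∇ ^ p (1)` are divisible by `p`. -/
def PCurvMod {R idx : Type*} [CommRing R] [Fintype idx] [DecidableEq idx] (p D : ℕ)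
    (A : Matrix idx idx (Polynomial R)) : Prop :=
  ∀ i j, (p : Polynomial R) ∣ nabPoly D A p i j

/-- The residue at `1` and the powers of the connection. PROOF (compare `t_INFPC` in
`Pool/Agent/H925/InfPC.lean`, store file `h925_InfPC.lean`, the analogue at infinity, from which
everything can be copied): put `v₀ = T⁻¹ w = T' w / (c (x - 1) ^ m)` for a constant vector `w`,
`F_j = (x - 1) ^ j T ∇ ^ j v₀`, so `F_0 = w`, `F_{j+1} = (x - 1) F_j' - (A₁ / (D x)) F_j - j F_j`; by
induction `P_j = (D x) ^ j F_j` is a vector of polynomials,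
`P_{j+1} = D x (x - 1) P_j' - j D (x - 1) P_j - A₁ P_j - j D x P_j`, thus
`P_{j+1}(1) = -(A₁(1) + j D) P_j(1)`. -/
def S_ONEPC : Prop := ∀ (R k : Type) [CommRing R] [Field k] (φ : R →+* k) (r D m c n : ℕ)
    (A A₁ T T' : Matrix (Fin r) (Fin r) (Polynomial R)), (D : k) ≠ 0 → (c : k) ≠ 0 →
    T * T' = Matrix.diagonal (fun _ => (c : Polynomial R) * (Polynomial.X - 1) ^ m) →
    T' * T = Matrix.diagonal (fun _ => (c : Polynomial R) * (Polynomial.X - 1) ^ m) →
    ((D : Polynomial R) * (Polynomial.X * (Polynomial.X - 1))) • T.map Polynomial.derivative +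
      T * A = A₁ * T →
    (∀ y : Fin r → RatFunc k, (sysNabla (sysG φ D 1 A))^[n] y = 0) →
    Polynomial.aeval ((A₁.map (Polynomial.eval 1)).map φ) (annPoly k D n) = 0

/-- Vanishing modulo `p` implies vanishing at all places above `p`. PROOF: modulo `𝔭` (`k = R / 𝔭`,
of characteristic `p`) the columns of the matrix of `∇ ^ p (1)` vanish, that is `∇ ^ p e_i = 0` for
the constant vectors `e_i` (`nabPoly` is `(D x (x - 1)) ^ m ∇ ^ m (1)` by induction, `D x (x - 1) ≠ 0`);
by the Leibniz rule `∇ ^ p (f v) = ∑ binom(p,i) f^(i) ∇ ^ (p - i) v = f ∇ ^ p v + f^(p) v` in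
characteristic `p`, and `f^(p) = 0` for `f = a / b = a b ^ (p - 1) / b ^ p` in `k(x)`, since
`(b ^ p)' = 0` and the `p`-th derivative of a polynomial is zero; so `∇ ^ p y = ∑ y_i ∇ ^ p e_i = 0`. -/
def S_PCAT : Prop := ∀ (R : Type) [CommRing R] (r D p : ℕ)
    (A : Matrix (Fin r) (Fin r) (Polynomial R)) (𝔭 : Ideal R) [𝔭.IsMaximal], p.Prime →
    (p : R) ∈ 𝔭 → (D : R) ∉ 𝔭 → PCurvMod p D A → PCurvZeroAt 𝔭 D 1 A

/-- Vanishing modulo `p` and restriction of scalars. PROOF: copy the proof of `pcurv_res` (module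
`Pool.Graph.R_pool_sql_team_seeded_620a6dc7.Helper338PC.KPC`), where only `h1` (the coefficients of
the entries of `MG (Aps (RingHom.id R) (m : R) n A) p` are divisible by `p`; `m` an integer with
`m D = 1` modulo `p`) has to be proved in another way: in the ring `S = R / (p)` one has by induction
`nabPoly D A j = (D (X - 1)) ^ j MG (Aps .. m 1 A) j` as matrices of power series over `S`
(`x ^ j ∇ ^ j`, `MG (j + 1) = X (MG j)' - x G MG j - j MG j`, `(X - 1) wg = 1`, `m D = 1`), and
`D (X - 1)` is a unit. -/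
def S_PCRES : Prop := ∀ (R : Type) [CommRing R] (ι : Type) [Fintype ι] [DecidableEq ι]
    (b : Module.Basis ι ℤ R) (r D p : ℕ) [Fact p.Prime]
    (A : Matrix (Fin r) (Fin r) (Polynomial R)), ¬ p ∣ D → PCurvMod p D A →
    MG (Aps (Int.castRingHom (ZMod p)) (D : ZMod p)⁻¹ 1 (polyLMM b A)) p = 0

end Pool.Agent.H925
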