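import Mathlib

set_option autoImplicit false

open Finset IntermediateField

namespace Pool.Agent.H925

/-- A primitive element which is a combination of given generators with integral coefficients. -/
theorem exists_primitive_comb {F E : Type*} [Field F] [Field E] [Algebra F E] [CharZero F]
    {ι : Type*} [Fintype ι] (g : ι → E) (halg : ∀ i, IsAlgebraic F (g i)) :
    ∃ c : ι → ℤ, ∀ i, g i ∈ F⟮∑ i, (c i : E) * g i⟯ := by
  classical
  have hfin : (Set.range g).Finite := Set.finite_range _
  have hfin' : Finite (Set.range g) := hfin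
  set L := IntermediateField.adjoin F (Set.range g) with hL
  have hfd : FiniteDimensional F L := by
    refine IntermediateField.finiteDimensional_adjoin fun x hx => ?_
    obtain ⟨y, rfl⟩ := hx
    exact (halg y).isIntegral
  have hfi : Finite (IntermediateField F L) :=
    Field.finite_intermediateField_of_exists_primitive_element F L
      (Field.exists_primitive_element F L)
  have hmem : ∀ i, g i ∈ L := fun i => IntermediateField.subset_adjoin F _ ⟨i, rfl⟩
  suffices h : ∀ t : Finset ι, ∃ c : ι → ℤ, ∀ i ∈ t, g i ∈ F⟮∑ i ∈ t, (c i : E) * g i⟯ by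
    obtain ⟨c, hc⟩ := h univ
    exact ⟨c, fun i => hc i (mem_univ i)⟩
  intro t
  induction t using Finset.induction_on with
  | empty => exact ⟨fun _ => 0, fun i hi => absurd hi (Finset.notMem_empty i)⟩
  | insert a t ha ih =>
    obtain ⟨c, hc⟩ := ih
    set f := ∑ i ∈ t, (c i : E) * g i with hf
    have hfL : f ∈ L := by
      refine sum_mem fun i _ => mul_mem ?_ (hmem i)
      exact intCast_mem L (c i)
    obtain ⟨z, z', hzz, heq⟩ := Finite.exists_ne_map_eq_of_infinite
      (fun z : ℤ => (F⟮f + (z : E) * g a⟯).comap L.val)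
    have hz : f + (z : E) * g a ∈ F⟮f + (z' : E) * g a⟯ := by
      have hzL : f + (z : E) * g a ∈ L := add_mem hfL (mul_mem (intCast_mem L z) (hmem a))
      have h1 : (⟨f + (z : E) * g a, hzL⟩ : L) ∈ (F⟮f + (z : E) * g a⟯).comap L.val :=
        mem_adjoin_simple_self F _
      have heq' : (F⟮f + (z : E) * g a⟯).comap L.val = (F⟮f + (z' : E) * g a⟯).comap L.val := heq
      rw [heq'] at h1
      exact h1
    have hz' : f + (z' : E) * g a ∈ F⟮f + (z' : E) * g a⟯ := mem_adjoin_simple_self F _
    have hga : g a ∈ F⟮f + (z' : E) * g a⟯ := by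
      have h1 := sub_mem hz hz'
      have hcE : CharZero E := charZero_of_injective_algebraMap (algebraMap F E).injective
      have h2 : ((z : E) - z') ≠ 0 := sub_ne_zero.mpr (by exact_mod_cast hzz)
      have h3 : f + (z : E) * g a - (f + (z' : E) * g a) = ((z : E) - z') * g a := by ring
      rw [h3] at h1
      have h4 : ((z : E) - z')⁻¹ ∈ F⟮f + (z' : E) * g a⟯ :=
        inv_mem (sub_mem (intCast_mem _ z) (intCast_mem _ z'))
      have h5 := mul_mem h4 h1
      rwa [inv_mul_cancel_left₀ h2] at h5
    have hff : f ∈ F⟮f + (z' : E) * g a⟯ := by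
      have h1 := sub_mem hz' (mul_mem (intCast_mem _ z') hga)
      rwa [add_sub_cancel_right] at h1
    refine ⟨Function.update c a z', fun i hi => ?_⟩
    have hsum : ∑ i ∈ insert a t, ((Function.update c a z' i : ℤ) : E) * g i =
        f + (z' : E) * g a := by
      rw [Finset.sum_insert ha, Function.update_self, add_comm, hf]
      congr 1
      refine Finset.sum_congr rfl fun i hi => ?_
      rw [Function.update_of_ne (ne_of_mem_of_not_mem hi ha)]
    rw [hsum]
    rcases Finset.mem_insert.mp hi with rfl | hi
    · exact hga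
    · have h1 : F⟮f⟯ ≤ F⟮f + (z' : E) * g a⟯ := adjoin_simple_le_iff.mpr hff
      exact h1 (hc i hi)

end Pool.Agent.H925
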