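import Pool.Agent.H925.Unif

set_option autoImplicit false

open PowerSeries Finset

namespace Pool.Agent.H925

section tower

/-- For all `y ≤ b` there are uniformizations with the value `y` whose logarithmic derivative has an
absolute value arbitrarily close to `c`, or larger. -/
def PB (b c : ℝ) : Prop :=
  ∀ y : ℝ, 0 < y → y ≤ b → ∀ c' : ℝ, c' < c → ∃ D : ℝ, c' < D ∧ UL y (-D)

lemma PB.mono {b b' c c' : ℝ} (h : PB b c) (hb : b' ≤ b) (hc : c' ≤ c) : PB b' c' :=
  fun y hy0 hy c'' hc'' => h y hy0 (hy.trans hb) c'' (hc''.trans_le hc)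

/-- The beginning of the tower. -/
lemma PB.base {b t : ℝ} (hb0 : 0 < b) (hb1 : b < 1) (ht0 : 0 < t) (ht : t ^ 2 ≤ 1 - b) :
    PB b (2 * t * Real.log ((1 + t) ^ 2 / b)) := by
  intro y hy0 hyb c' hc'
  set s := Real.sqrt (1 - y) with hs
  have h1y : 0 < 1 - y := by linarith
  have hs2 : s ^ 2 = 1 - y := Real.sq_sqrt h1y.le
  have hs0 : 0 < s := Real.sqrt_pos.mpr h1y
  have hs1 : s < 1 := by nlinarith
  have hts : t ≤ s := by
    rw [hs]
    apply Real.le_sqrt_of_sq_le
    linarith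
  set k : ℝ := (1 - s) / (1 + s) with hk
  have hk0 : 0 < k := div_pos (by linarith) (by linarith)
  have hk1 : k < 1 := by
    rw [hk, div_lt_one (by linarith)]
    linarith
  have hky : k = y / (1 + s) ^ 2 := by
    rw [hk, div_eq_div_iff (by positivity) (by positivity)]
    nlinarith
  set ℓ : ℝ := -Real.log k with hℓ
  have hℓ0 : 0 < ℓ := by
    rw [hℓ, neg_pos]
    exact Real.log_neg hk0 hk1
  have hℓle : Real.log ((1 + t) ^ 2 / b) ≤ ℓ := by
    rw [hℓ, ← Real.log_inv]
    apply Real.log_le_log (by positivity)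
    rw [hky, inv_div]
    have h1 : (1 + t) ^ 2 ≤ (1 + s) ^ 2 := pow_le_pow_left₀ (by linarith) (by linarith) 2
    calc (1 + t) ^ 2 / b ≤ (1 + s) ^ 2 / b := div_le_div_of_nonneg_right h1 hb0.le
      _ ≤ (1 + s) ^ 2 / y := div_le_div_of_nonneg_left (by positivity) hy0 hyb
  have hc2 : c' < 2 * s * ℓ := by
    refine hc'.trans_le ?_
    have h1 : 0 < Real.log ((1 + t) ^ 2 / b) := by
      apply Real.log_pos
      rw [one_lt_div hb0]
      nlinarith
    calc 2 * t * Real.log ((1 + t) ^ 2 / b) ≤ 2 * s * Real.log ((1 + t) ^ 2 / b) :=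
          mul_le_mul_of_nonneg_right (by linarith) h1.le
      _ ≤ _ := mul_le_mul_of_nonneg_left hℓle (by linarith)
  -- a large power of two
  obtain ⟨m, hm⟩ : ∃ m : ℕ, c' < 2 * s * (ℓ / (1 + ℓ / 2 ^ m)) := by
    set ε : ℝ := 2 * s * ℓ - c' with hε
    have hε0 : 0 < ε := by linarith
    obtain ⟨m, hm⟩ := pow_unbounded_of_one_lt (2 * s * ℓ ^ 2 / ε) (one_lt_two (α := ℝ))
    refine ⟨m, ?_⟩
    have h2m : (0 : ℝ) < 2 ^ m := by positivity
    have h1 : ℓ - ℓ ^ 2 / 2 ^ m ≤ ℓ / (1 + ℓ / 2 ^ m) := by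
      rw [le_div_iff₀ (by positivity)]
      have h2 : (ℓ - ℓ ^ 2 / 2 ^ m) * (1 + ℓ / 2 ^ m) = ℓ - ℓ * (ℓ / 2 ^ m) ^ 2 := by
        field_simp
        ring
      rw [h2]
      have : 0 ≤ ℓ * (ℓ / 2 ^ m) ^ 2 := by positivity
      linarith
    have h2 : 2 * s * (ℓ ^ 2 / 2 ^ m) < ε := by
      rw [div_lt_iff₀ hε0] at hm
      rw [← mul_div_assoc, div_lt_iff₀ h2m]
      linarith
    have h3 := mul_le_mul_of_nonneg_left h1 (a := 2 * s) (by linarith)
    have h4 : 2 * s * (ℓ - ℓ ^ 2 / 2 ^ m) = 2 * s * ℓ - 2 * s * (ℓ ^ 2 / 2 ^ m) := by ring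
    linarith
  have h2m : (0 : ℝ) < 2 ^ m := by positivity
  set u₀ : ℝ := Real.exp (-(ℓ / 2 ^ m)) with hu₀
  have hu0 : 0 < u₀ := Real.exp_pos _
  have hu1 : u₀ < 1 := by
    rw [hu₀, Real.exp_lt_one_iff]
    have : 0 < ℓ / 2 ^ m := by positivity
    linarith
  have hup : u₀ ^ (2 ^ m) = k := by
    rw [hu₀, ← Real.exp_nat_mul]
    have : ((2 ^ m : ℕ) : ℝ) * -(ℓ / 2 ^ m) = Real.log k := by
      push_cast
      rw [hℓ]
      field_simp
    rw [this, Real.exp_log hk0]
  have hlow : ℓ / (1 + ℓ / 2 ^ m) ≤ 2 ^ m * (1 - u₀) := by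
    have h1 : 1 + ℓ / 2 ^ m ≤ Real.exp (ℓ / 2 ^ m) := by
      have := Real.add_one_le_exp (ℓ / 2 ^ m)
      linarith
    have h2 : u₀ ≤ 1 / (1 + ℓ / 2 ^ m) := by
      rw [hu₀, Real.exp_neg, ← one_div]
      exact one_div_le_one_div_of_le (by positivity) h1
    have h3 : ℓ / (1 + ℓ / 2 ^ m) = 2 ^ m * (1 - 1 / (1 + ℓ / 2 ^ m)) := by
      field_simp
      ring
    rw [h3]
    exact mul_le_mul_of_nonneg_left (by linarith) h2m.le
  have key := UL.start hu0 hu1 m
  rw [hup] at key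
  have hks : (1 - k) / (1 + k) = s := by
    rw [hk]
    field_simp
    ring
  have hval : 4 * k / (1 + k) ^ 2 = y := by
    have h1 : 1 + k = 2 / (1 + s) := by
      rw [hk]
      field_simp
      ring
    rw [h1, hk]
    have h2 : y = 1 - s ^ 2 := by linarith
    rw [h2]
    field_simp
    ring
  rw [hks, hval] at key
  refine ⟨2 ^ (m + 1) * (1 - u₀) * s, ?_, ?_⟩
  · refine hm.trans_le ?_
    have := mul_le_mul_of_nonneg_left hlow (a := 2 * s) (by linarith)
    calc 2 * s * (ℓ / (1 + ℓ / 2 ^ m)) ≤ 2 * s * (2 ^ m * (1 - u₀)) := this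
      _ = _ := by rw [pow_succ]; ring
  · rwa [neg_mul] at key

/-- One step of the tower. -/
lemma PB.step {b t c b' c' : ℝ} (h : PB b' c) (hb0 : 0 < b) (hb1 : b < 1) (ht0 : 0 < t)
    (ht : t ^ 2 ≤ 1 - b) (hb' : (b / (1 + t) ^ 2) ^ 2 ≤ b') (hc0 : 0 < c)
    (hc' : c' ≤ c * t / 2) : PB b c' := by
  intro y hy0 hyb c₁ hc₁
  set s := Real.sqrt (1 - y) with hs
  have h1y : 0 < 1 - y := by linarith
  have hs2 : s ^ 2 = 1 - y := Real.sq_sqrt h1y.le
  have hs0 : 0 < s := Real.sqrt_pos.mpr h1y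
  have hs1 : s < 1 := by nlinarith
  have hts : t ≤ s := by
    rw [hs]
    apply Real.le_sqrt_of_sq_le
    linarith
  set w : ℝ := (1 - s) / (1 + s) with hw
  have hw0 : 0 < w := div_pos (by linarith) (by linarith)
  have hwy : w = y / (1 + s) ^ 2 := by
    rw [hw, div_eq_div_iff (by positivity) (by positivity)]
    nlinarith
  have hwb : w ^ 2 ≤ b' := by
    refine le_trans (pow_le_pow_left₀ hw0.le ?_ 2) hb'
    rw [hwy]
    have h1 : (1 + t) ^ 2 ≤ (1 + s) ^ 2 := pow_le_pow_left₀ (by linarith) (by linarith) 2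
    calc y / (1 + s) ^ 2 ≤ b / (1 + s) ^ 2 := div_le_div_of_nonneg_right hyb (by positivity)
      _ ≤ b / (1 + t) ^ 2 := div_le_div_of_nonneg_left hb0.le (by positivity) h1
  have hsqrt : Real.sqrt (w ^ 2) = w := Real.sqrt_sq hw0.le
  -- the bound
  have hmax : max c₁ 0 < c * t / 2 := max_lt (hc₁.trans_le hc') (by positivity)
  obtain ⟨D, hD, hUL⟩ := h (w ^ 2) (by positivity) hwb (2 * max c₁ 0 / s) (by
    rw [div_lt_iff₀ hs0]
    have h1 : c * t ≤ c * s := mul_le_mul_of_nonneg_left hts hc0.le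
    linarith)
  have key := hUL.step (by positivity)
  rw [hsqrt] at key
  have hks : (1 - w) / (1 + w) = s := by
    rw [hw]
    field_simp
    ring
  have hval : 4 * w / (1 + w) ^ 2 = y := by
    have h1 : 1 + w = 2 / (1 + s) := by
      rw [hw]
      field_simp
      ring
    rw [h1, hw]
    have h2 : y = 1 - s ^ 2 := by linarith
    rw [h2]
    field_simp
    ring
  rw [hks, hval] at key
  refine ⟨D * s / 2, ?_, ?_⟩
  · rw [div_lt_iff₀ hs0] at hD
    have := le_max_left c₁ 0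
    linarith
  · have e1 : -D / 2 * s = -(D * s / 2) := by ring
    rwa [e1] at key

lemma log_ge_of_pow {x : ℝ} (a b : ℕ) (h : (2 ^ a) ^ b ≤ x) :
    (a * b : ℝ) * 0.6931471803 ≤ Real.log x := by
  have h1 : Real.log (((2 : ℝ) ^ a) ^ b) ≤ Real.log x := Real.log_le_log (by positivity) h
  rw [Real.log_pow, Real.log_pow] at h1
  have h2 := Real.log_two_gt_d9
  have h3 : (a * b : ℝ) * 0.6931471803 ≤ (a * b) * Real.log 2 :=
    mul_le_mul_of_nonneg_left h2.le (by positivity)
  linarith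

end tower

section numbers

lemma half_8 : PB (83902254 / (10 ^ 89) ^ 4) (1605328869 / 10 ^ 6) := by
  have h := PB.base (b := (83902254 / (10 ^ 89) ^ 4)) (t := 1 - (83902254 / (10 ^ 89) ^ 4)) (by norm_num) (by norm_num) (by norm_num)
    (by norm_num)
  refine h.mono le_rfl ?_
  have h1 : (193 * 6 : ℝ) * 0.6931471803 ≤ Real.log ((1 + (1 - (83902254 / (10 ^ 89) ^ 4))) ^ 2 / (83902254 / (10 ^ 89) ^ 4)) :=
    log_ge_of_pow 193 6 (by norm_num)
  have h2 : (0 : ℝ) < 1 - (83902254 / (10 ^ 89) ^ 4) := by norm_num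
  calc ((1605328869 / 10 ^ 6) : ℝ) ≤ 2 * (1 - (83902254 / (10 ^ 89) ^ 4)) * (193 * 6 * 0.6931471803) := by norm_num
    _ ≤ _ := mul_le_mul_of_nonneg_left h1 (by linarith)

lemma half_7 : PB (366392694 / 10 ^ 182) (8026644344999 / 10 ^ 10) :=
  half_8.step (t := (1 - (366392694 / 10 ^ 182))) (by norm_num) (by norm_num) (by norm_num) (by norm_num)
    (by norm_num) (by norm_num) (by norm_num)

lemma half_6 : PB (765655477 / 10 ^ 95) (4013322172499 / 10 ^ 10) :=
  half_7.step (t := (1 - (765655477 / 10 ^ 95))) (by norm_num) (by norm_num) (by norm_num) (by norm_num)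
    (by norm_num) (by norm_num) (by norm_num)

lemma half_5 : PB (350006966 / 10 ^ 51) (2006661086249 / 10 ^ 10) :=
  half_6.step (t := (1 - (350006966 / 10 ^ 51))) (by norm_num) (by norm_num) (by norm_num) (by norm_num)
    (by norm_num) (by norm_num) (by norm_num)

lemma half_4 : PB (236645546 / 10 ^ 29) (1003330543124 / 10 ^ 10) :=
  half_5.step (t := (1 - (236645546 / 10 ^ 29))) (by norm_num) (by norm_num) (by norm_num) (by norm_num)
    (by norm_num) (by norm_num) (by norm_num)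

lemma half_3 : PB (194584910 / 10 ^ 18) (501665271464 / 10 ^ 10) :=
  half_4.step (t := (1 - (194584910 / 10 ^ 18))) (by norm_num) (by norm_num) (by norm_num) (by norm_num)
    (by norm_num) (by norm_num) (by norm_num)

lemma half_2 : PB (557959214 / 10 ^ 13) (250825637915 / 10 ^ 10) :=
  half_3.step (t := (999972101650 / 10 ^ 12)) (by norm_num) (by norm_num) (by norm_num) (by norm_num)
    (by norm_num) (by norm_num) (by norm_num)

lemma half_1 : PB (294372516 / 10 ^ 10) (123553126314 / 10 ^ 10) :=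
  half_2.step (t := (985171430970 / 10 ^ 12)) (by norm_num) (by norm_num) (by norm_num) (by norm_num)
    (by norm_num) (by norm_num) (by norm_num)

lemma half_0 : PB (500000000 / 10 ^ 9) (43682626726 / 10 ^ 10) :=
  half_1.step (t := (707106781186 / 10 ^ 12)) (by norm_num) (by norm_num) (by norm_num) (by norm_num)
    (by norm_num) (by norm_num) (by norm_num)

lemma rho_8 : PB (170928365 / (10 ^ 153) ^ 4) (2782292781 / 10 ^ 6) := by
  have h := PB.base (b := (170928365 / (10 ^ 153) ^ 4)) (t := 1 - (170928365 / (10 ^ 153) ^ 4)) (by norm_num) (by norm_num) (by norm_num)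
    (by norm_num)
  refine h.mono le_rfl ?_
  have h1 : (223 * 9 : ℝ) * 0.6931471803 ≤ Real.log ((1 + (1 - (170928365 / (10 ^ 153) ^ 4))) ^ 2 / (170928365 / (10 ^ 153) ^ 4)) :=
    log_ge_of_pow 223 9 (by norm_num)
  have h2 : (0 : ℝ) < 1 - (170928365 / (10 ^ 153) ^ 4) := by norm_num
  calc ((2782292781 / 10 ^ 6) : ℝ) ≤ 2 * (1 - (170928365 / (10 ^ 153) ^ 4)) * (223 * 9 * 0.6931471803) := by norm_num
    _ ≤ _ := mul_le_mul_of_nonneg_left h1 (by linarith)

lemma rho_7 : PB (5229583 / (10 ^ 77) ^ 4) (13911463904999 / 10 ^ 10) :=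
  rho_8.step (t := (1 - (5229583 / (10 ^ 77) ^ 4))) (by norm_num) (by norm_num) (by norm_num) (by norm_num)
    (by norm_num) (by norm_num) (by norm_num)

lemma rho_6 : PB (914731183 / 10 ^ 159) (6955731952499 / 10 ^ 10) :=
  rho_7.step (t := (1 - (914731183 / 10 ^ 159))) (by norm_num) (by norm_num) (by norm_num) (by norm_num)
    (by norm_num) (by norm_num) (by norm_num)

lemma rho_5 : PB (382566320 / 10 ^ 83) (3477865976249 / 10 ^ 10) :=
  rho_6.step (t := (1 - (382566320 / 10 ^ 83))) (by norm_num) (by norm_num) (by norm_num) (by norm_num)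
    (by norm_num) (by norm_num) (by norm_num)

lemma rho_4 : PB (247407783 / 10 ^ 45) (1738932988124 / 10 ^ 10) :=
  rho_5.step (t := (1 - (247407783 / 10 ^ 45))) (by norm_num) (by norm_num) (by norm_num) (by norm_num)
    (by norm_num) (by norm_num) (by norm_num)

lemma rho_3 : PB (198960411 / 10 ^ 26) (869466494061 / 10 ^ 10) :=
  rho_4.step (t := (1 - (198960411 / 10 ^ 26))) (by norm_num) (by norm_num) (by norm_num) (by norm_num)
    (by norm_num) (by norm_num) (by norm_num)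

lemma rho_2 : PB (564213306 / 10 ^ 17) (434733245803 / 10 ^ 10) :=
  rho_3.step (t := (999999997178 / 10 ^ 12)) (by norm_num) (by norm_num) (by norm_num) (by norm_num)
    (by norm_num) (by norm_num) (by norm_num)

lemma rho_1 : PB (300411402 / 10 ^ 12) (217333970742 / 10 ^ 10) :=
  rho_2.step (t := (999849783016 / 10 ^ 12)) (by norm_num) (by norm_num) (by norm_num) (by norm_num)
    (by norm_num) (by norm_num) (by norm_num)

lemma rho_0 : PB (669872982 / 10 ^ 10) (104964247629 / 10 ^ 10) :=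
  rho_1.step (t := (965925826241 / 10 ^ 12)) (by norm_num) (by norm_num) (by norm_num) (by norm_num)
    (by norm_num) (by norm_num) (by norm_num)

end numbers

end Pool.Agent.H925
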