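import Pool.Agent.H925.Vert

set_option autoImplicit false

open PowerSeries Finset

namespace Pool.Agent.H925

open Pool.Agent.Helper338PC (th coeff_th th_mul' th_add' th_sum' th_C th_one wg Aps IsSolG
  Aps_apply X_sub_one_mul_wg)

section ring

/-- The ring of the power series of radius of convergence at least one. -/
def cR : Subring (PowerSeries ℂ) where
  carrier := {f | CConv f}
  mul_mem' := fun ha hb => CConv.mul ha hb
  one_mem' := CConv.one
  add_mem' := fun ha hb => CConv.add ha hb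
  zero_mem' := CConv.zero
  neg_mem' := fun ha => CConv.neg ha

lemma mem_cR {f : PowerSeries ℂ} : f ∈ cR ↔ CConv f := Iff.rfl

/-- Convergent coefficients. -/
lemma cmul_mem {N : Submodule cR (PowerSeries ℂ)} {c z : PowerSeries ℂ} (hc : CConv c)
    (hz : z ∈ N) : c * z ∈ N := N.smul_mem (⟨c, hc⟩ : cR) hz

/-- Power series which span a module which is stable under `th` converge. -/
theorem cconv_of_span {ι : Type*} [Fintype ι] {Z : ι → PowerSeries ℂ}
    (h : ∀ x, th (Z x) ∈ Submodule.span cR (Set.range Z)) {z : PowerSeries ℂ}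
    (hz : z ∈ Submodule.span cR (Set.range Z)) : CConv z := by
  classical
  have h1 : ∀ x, ∃ M : ι → PowerSeries ℂ, (∀ y, CConv (M y)) ∧ th (Z x) = ∑ y, M y * Z y := by
    intro x
    obtain ⟨c, hc⟩ := (Submodule.mem_span_range_iff_exists_fun _).mp (h x)
    exact ⟨fun y => (c y : PowerSeries ℂ), fun y => (c y).2, hc.symm⟩
  choose M hM1 hM2 using h1
  have h2 : ∀ x, CConv (Z x) := cconv_of_system hM1 hM2
  obtain ⟨c, hc⟩ := (Submodule.mem_span_range_iff_exists_fun _).mp hz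
  rw [← hc]
  exact CConv.sum _ fun y _ => CConv.mul (c y).2 (h2 y)

/-- Powers of coprime series. -/
lemma bezout_pow {s w a b : PowerSeries ℂ} (hs : CConv s) (hw : CConv w) (ha : CConv a)
    (hb : CConv b) (h : a * s + b * w = 1) (m n : ℕ) :
    ∃ α β : PowerSeries ℂ, CConv α ∧ CConv β ∧ α * s ^ m + β * w ^ n = 1 := by
  have h1 : IsCoprime (⟨s, hs⟩ : cR) (⟨w, hw⟩ : cR) :=
    ⟨⟨a, ha⟩, ⟨b, hb⟩, Subtype.ext h⟩
  obtain ⟨α, β, h2⟩ := h1.pow (m := m) (n := n)
  exact ⟨α, β, α.2, β.2, congrArg Subtype.val h2⟩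

end ring

section step

variable {idx : Type*} [Fintype idx] [DecidableEq idx]

omit [DecidableEq idx] in
lemma app_mem {N : Submodule cR (PowerSeries ℂ)} (M : Matrix idx idx ℂ)
    {F : idx → PowerSeries ℂ} (hF : ∀ l, F l ∈ N) (i : idx) : app M F i ∈ N := by
  unfold app
  exact sum_mem fun l _ => cmul_mem (CConv.C _) (hF l)

lemma th_pow_succ (f : PowerSeries ℂ) (n : ℕ) (hf : f ≠ 0) :
    th (f ^ (n + 1)) = ((n + 1 : ℕ) : PowerSeries ℂ) * f ^ n * th f := by
  apply mul_left_cancel₀ hf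
  rw [th_pow' f (n + 1), pow_succ]
  ring

/-- One step of the closure of the module spanned by the projections. -/
theorem tri_step {N : Submodule cR (PowerSeries ℂ)} {n m l : ℕ} (hm : 0 < m) (hl : 0 < l)
    {f g h : PowerSeries ℂ} (hf : CConv f) (hg : CConv g) (hh : CConv h) (hf0 : f ≠ 0)
    (hg0 : g ≠ 0) (hh0 : h ≠ 0) {κ₀ κ₁ κ₂ : ℂ} (hκ₂ : κ₂ ≠ 0)
    (hrel : PowerSeries.C κ₀ * f ^ n + PowerSeries.C κ₁ * g ^ m + PowerSeries.C κ₂ * h ^ l = 0)
    {α β : PowerSeries ℂ} (hα : CConv α) (hβ : CConv β)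
    (hbez : α * f ^ n + β * (g ^ m * h ^ l) = 1)
    {Rf Rg Rh : Matrix idx idx ℂ} {μ : ℂ} (hR : Rf + Rg + Rh = μ • (1 : Matrix idx idx ℂ))
    {P : Fin n → Matrix idx idx ℂ} (hP : Spec n Rf P)
    {G Hf Hg Hh : idx → PowerSeries ℂ}
    (hHf : ∀ i, f * Hf i = app Rf G i) (hHg : ∀ i, g * Hg i = app Rg G i)
    (hHh : ∀ i, h * Hh i = app Rh G i)
    (hG : ∀ i, th (G i) = (n : PowerSeries ℂ) * th f * Hf i + (m : PowerSeries ℂ) * th g * Hg i +
      (l : PowerSeries ℂ) * th h * Hh i)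
    (hGN : ∀ i, G i ∈ N) (hHgN : ∀ i, Hg i ∈ N) (hHhN : ∀ i, Hh i ∈ N)
    {j : Fin n} {X : idx → PowerSeries ℂ} (hX : ∀ i, app (P j) G i = f ^ (j : ℕ) * X i)
    (hXN : ∀ i, X i ∈ N) (i : idx) : th (X i) ∈ N := by
  classical
  obtain ⟨m', rfl⟩ : ∃ m', m = m' + 1 := ⟨m - 1, by omega⟩
  obtain ⟨l', rfl⟩ : ∃ l', l = l' + 1 := ⟨l - 1, by omega⟩
  have hjn : (j : ℕ) < n := j.2
  have hn : 0 < n := by omega
  obtain ⟨n', rfl⟩ : ∃ n', n = n' + 1 := ⟨n - 1, by omega⟩
  have hfj : f ^ (j : ℕ) ≠ 0 := pow_ne_zero _ hf0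
  have hnC : ((n' + 1 : ℕ) : ℂ) ≠ 0 := by exact_mod_cast Nat.succ_ne_zero n'
  -- the derivative of the projection
  have e1 : f ^ (j : ℕ) * th (X i) = ((m' + 1 : ℕ) : PowerSeries ℂ) * th g * app (P j) Hg i +
      ((l' + 1 : ℕ) : PowerSeries ℂ) * th h * app (P j) Hh i := by
    have e2 : th (app (P j) G i) = ((n' + 1 : ℕ) : PowerSeries ℂ) * th f * app (P j) Hf i +
        ((m' + 1 : ℕ) : PowerSeries ℂ) * th g * app (P j) Hg i +
        ((l' + 1 : ℕ) : PowerSeries ℂ) * th h * app (P j) Hh i := by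
      rw [app_th]
      have e3 : (fun l => th (G l)) = fun l =>
          (((n' + 1 : ℕ) : PowerSeries ℂ) * th f * Hf l +
          ((m' + 1 : ℕ) : PowerSeries ℂ) * th g * Hg l) +
          ((l' + 1 : ℕ) : PowerSeries ℂ) * th h * Hh l := funext fun l => hG l
      rw [e3, app_add, app_add, app_mul, app_mul, app_mul]
    have e4 : f * app (P j) Hf i = PowerSeries.C ((j : ℕ) / ((n' + 1 : ℕ) : ℂ)) *
        (f ^ (j : ℕ) * X i) := by
      rw [← app_mul, funext hHf, app_app, hP.left_mul, app_smul, hX]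
    have e5 : th (app (P j) G i) = th (f ^ (j : ℕ)) * X i + f ^ (j : ℕ) * th (X i) := by
      rw [hX, th_mul']
    have e6 := th_pow' f (j : ℕ)
    have e7 : ((n' + 1 : ℕ) : PowerSeries ℂ) * PowerSeries.C ((j : ℕ) / ((n' + 1 : ℕ) : ℂ)) =
        ((j : ℕ) : PowerSeries ℂ) := by
      have : ((n' + 1 : ℕ) : PowerSeries ℂ) = PowerSeries.C ((n' + 1 : ℕ) : ℂ) :=
        (map_natCast _ _).symm
      rw [this, ← map_mul, mul_div_cancel₀ _ hnC, map_natCast]
    apply mul_left_cancel₀ hf0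
    linear_combination (-f) * e5 + f * e2 + (((n' + 1 : ℕ) : PowerSeries ℂ) * th f) * e4 +
      (th f * (f ^ (j : ℕ) * X i)) * e7 - X i * e6
  -- (1) `f ^ n * th X` belongs to the module
  have h1 : f ^ (n' + 1) * th (X i) ∈ N := by
    have e2 : f ^ (n' + 1) * th (X i) = (f ^ (n' + 1 - (j : ℕ)) *
        (((m' + 1 : ℕ) : PowerSeries ℂ) * th g)) * app (P j) Hg i +
        (f ^ (n' + 1 - (j : ℕ)) * (((l' + 1 : ℕ) : PowerSeries ℂ) * th h)) * app (P j) Hh i := by
      have e3 : f ^ (n' + 1) = f ^ (n' + 1 - (j : ℕ)) * f ^ (j : ℕ) := by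
        rw [← pow_add]
        congr 1
        omega
      rw [e3, mul_assoc, e1]
      ring
    rw [e2]
    exact add_mem (cmul_mem ((hf.pow _).mul ((CConv.natCast _).mul hg.th)) (app_mem _ hHgN i))
      (cmul_mem ((hf.pow _).mul ((CConv.natCast _).mul hh.th)) (app_mem _ hHhN i))
  -- (2) `g ^ m * h ^ l * th X` belongs to the module
  have eg := th_pow_succ g m' hg0
  have eh := th_pow_succ h l' hh0
  have ef := th_pow_succ f n' hf0
  have h2 : g ^ (m' + 1) * h ^ (l' + 1) * th (X i) ∈ N := by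
    set K : PowerSeries ℂ := PowerSeries.C (-(κ₀ / κ₂)) *
      (th (g ^ (m' + 1)) * f - g ^ (m' + 1) * (((n' + 1 : ℕ) : PowerSeries ℂ) * th f)) with hK
    have hKC : CConv K := (CConv.C _).mul (((hg.pow _).th.mul hf).sub
      ((hg.pow _).mul ((CConv.natCast _).mul hf.th)))
    have e2 : th (g ^ (m' + 1)) * h ^ (l' + 1) - th (h ^ (l' + 1)) * g ^ (m' + 1) =
        f ^ n' * K := by
      have e3 := congrArg th hrel
      rw [th_add', th_add', th_smulC, th_smulC, th_smulC] at e3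
      have e30 : th (0 : PowerSeries ℂ) = 0 := by
        have := th_C (0 : ℂ)
        simpa using this
      rw [e30] at e3
      have e4 : PowerSeries.C κ₂ * PowerSeries.C (-(κ₀ / κ₂)) = -PowerSeries.C κ₀ := by
        rw [← map_mul, ← map_neg]
        congr 1
        field_simp
      have hC : PowerSeries.C κ₂ ≠ 0 := by
        rw [Ne, map_eq_zero_iff _ PowerSeries.C_injective]
        exact hκ₂
      apply mul_left_cancel₀ hC
      rw [hK]
      linear_combination (th (g ^ (m' + 1))) * hrel - (g ^ (m' + 1)) * e3 -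
        (f ^ n' * (th (g ^ (m' + 1)) * f -
          g ^ (m' + 1) * (((n' + 1 : ℕ) : PowerSeries ℂ) * th f))) * e4 +
        (PowerSeries.C κ₀ * g ^ (m' + 1)) * ef
    have e5 : g * app (P j) Hg i = app (P j * Rg) G i := by
      rw [← app_mul, funext hHg, app_app]
    have e6 : h * app (P j) Hh i = app (P j * Rh) G i := by
      rw [← app_mul, funext hHh, app_app]
    have e7 : app (P j * Rh) G i =
        PowerSeries.C (μ - (j : ℕ) / ((n' + 1 : ℕ) : ℂ)) * (f ^ (j : ℕ) * X i) -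
          app (P j * Rg) G i := by
      have e8 : P j * Rh = (μ - (j : ℕ) / ((n' + 1 : ℕ) : ℂ)) • P j + (-1 : ℂ) • (P j * Rg) := by
        have e9 : Rh = μ • (1 : Matrix idx idx ℂ) - Rf - Rg := by
          rw [← hR]; abel
        rw [e9, mul_sub, mul_sub, hP.left_mul, mul_smul_comm, mul_one, sub_smul, neg_one_smul]
        abel
      have e10 : app (P j * Rh) G i = app ((μ - (j : ℕ) / ((n' + 1 : ℕ) : ℂ)) • P j) G i +
          app ((-1 : ℂ) • (P j * Rg)) G i := by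
        rw [e8]
        unfold app
        rw [← Finset.sum_add_distrib]
        exact Finset.sum_congr rfl fun l _ => by rw [Matrix.add_apply, map_add, add_mul]
      rw [e10, app_smul, app_smul, hX, map_neg, map_one]
      ring
    have e8 : g ^ (m' + 1) * h ^ (l' + 1) * th (X i) =
        (f ^ (n' - (j : ℕ)) * K) * app (P j * Rg) G i +
        (PowerSeries.C (μ - (j : ℕ) / ((n' + 1 : ℕ) : ℂ)) * g ^ (m' + 1) * th (h ^ (l' + 1))) *
          X i := by
      apply mul_left_cancel₀ hfj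
      have e9 : f ^ n' = f ^ (j : ℕ) * f ^ (n' - (j : ℕ)) := by
        rw [← pow_add]
        congr 1
        omega
      have e10 : ((m' + 1 : ℕ) : PowerSeries ℂ) * g ^ (m' + 1) * th g =
          g * th (g ^ (m' + 1)) := by rw [eg, pow_succ]; ring
      have e11 : ((l' + 1 : ℕ) : PowerSeries ℂ) * h ^ (l' + 1) * th h =
          h * th (h ^ (l' + 1)) := by rw [eh, pow_succ]; ring
      rw [e9] at e2
      linear_combination (g ^ (m' + 1) * h ^ (l' + 1)) * e1 +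
        (h ^ (l' + 1) * app (P j) Hg i) * e10 + (g ^ (m' + 1) * app (P j) Hh i) * e11 +
        (h ^ (l' + 1) * th (g ^ (m' + 1))) * e5 + (g ^ (m' + 1) * th (h ^ (l' + 1))) * e6 +
        (g ^ (m' + 1) * th (h ^ (l' + 1))) * e7 + (app (P j * Rg) G i) * e2
    rw [e8]
    exact add_mem (cmul_mem ((hf.pow _).mul hKC) (app_mem _ hGN i))
      (cmul_mem (((CConv.C _).mul (hg.pow _)).mul (hh.pow _).th) (hXN i))
  have e3 : th (X i) = α * (f ^ (n' + 1) * th (X i)) +
      β * (g ^ (m' + 1) * h ^ (l' + 1) * th (X i)) := by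
    linear_combination (-th (X i)) * hbez
  rw [e3]
  exact add_mem (cmul_mem hα h1) (cmul_mem hβ h2)

omit [DecidableEq idx] in
lemma sum_head {n : ℕ} {f : PowerSeries ℂ} {R : Matrix idx idx ℂ}
    {P : Fin n → Matrix idx idx ℂ} (hR : R = ∑ j : Fin n, ((j : ℕ) / (n : ℂ)) • P j)
    {G : idx → PowerSeries ℂ} {X : Fin n → idx → PowerSeries ℂ}
    (hX : ∀ j i, app (P j) G i = f ^ (j : ℕ) * X j i) (i : idx) :
    f * (∑ j : Fin n, PowerSeries.C ((j : ℕ) / (n : ℂ)) * (f ^ ((j : ℕ) - 1) * X j i)) =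
      app R G i := by
  conv_rhs => rw [hR]
  rw [app_sumM, Finset.mul_sum]
  refine Finset.sum_congr rfl fun j _ => ?_
  rw [app_smul, hX]
  rcases Nat.eq_zero_or_pos (j : ℕ) with hk | hk
  · rw [hk]; simp
  · have e6 : f ^ (j : ℕ) = f * f ^ ((j : ℕ) - 1) := by
      rw [← pow_succ']
      congr 1
      omega
    rw [e6]
    ring

/-- The pull-back of the solutions of a Fuchsian system on a compact triangle orbifold to the
disc. -/
theorem cconv_tri {n₀ n₁ n₂ : ℕ} (h0 : 0 < n₀) (h1 : 0 < n₁) (h2 : 0 < n₂)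
    {s v w a b : PowerSeries ℂ} (hs : CConv s) (hv : CConv v) (hw : CConv w) (ha : CConv a)
    (hb : CConv b) (hs0 : s ≠ 0) (hv0 : v ≠ 0) (hw0 : w ≠ 0)
    (hrel : s ^ n₀ + v ^ n₁ = w ^ n₂) (hab : a * s + b * w = 1)
    {B C E : Matrix idx idx ℂ} {μ : ℂ} (hR : B + C + E = μ • (1 : Matrix idx idx ℂ))
    {P : Fin n₀ → Matrix idx idx ℂ} {Q : Fin n₁ → Matrix idx idx ℂ}
    {T : Fin n₂ → Matrix idx idx ℂ} (hP : Spec n₀ B P) (hQ : Spec n₁ C Q) (hT : Spec n₂ E T)
    {G : idx → PowerSeries ℂ}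
    (hG : ∀ i, s * v * w * th (G i) = (n₀ : PowerSeries ℂ) * th s * v * w * app B G i +
      (n₁ : PowerSeries ℂ) * s * th v * w * app C G i +
      (n₂ : PowerSeries ℂ) * s * v * th w * app E G i)
    {X : Fin n₀ → idx → PowerSeries ℂ} {Y : Fin n₁ → idx → PowerSeries ℂ}
    {Z : Fin n₂ → idx → PowerSeries ℂ}
    (hX : ∀ j i, app (P j) G i = s ^ (j : ℕ) * X j i)
    (hY : ∀ j i, app (Q j) G i = v ^ (j : ℕ) * Y j i)
    (hZ : ∀ j i, app (T j) G i = w ^ (j : ℕ) * Z j i) (i : idx) : CConv (G i) := by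
  classical
  set ZZ : (Fin n₀ × idx) ⊕ ((Fin n₁ × idx) ⊕ (Fin n₂ × idx)) → PowerSeries ℂ :=
    Sum.elim (fun x => X x.1 x.2) (Sum.elim (fun x => Y x.1 x.2) (fun x => Z x.1 x.2)) with hZZ
  set N := Submodule.span cR (Set.range ZZ) with hN
  have hXN : ∀ j i, X j i ∈ N := fun j i => Submodule.subset_span ⟨Sum.inl (j, i), rfl⟩
  have hYN : ∀ j i, Y j i ∈ N := fun j i =>
    Submodule.subset_span ⟨Sum.inr (Sum.inl (j, i)), rfl⟩
  have hZN : ∀ j i, Z j i ∈ N := fun j i =>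
    Submodule.subset_span ⟨Sum.inr (Sum.inr (j, i)), rfl⟩
  have hGN : ∀ i, G i ∈ N := by
    intro i
    have e1 : G i = ∑ j : Fin n₀, s ^ (j : ℕ) * X j i := by
      rw [← app_one G i, ← hP.sum_one, app_sumM]
      exact Finset.sum_congr rfl fun j _ => hX j i
    rw [e1]
    exact sum_mem fun j _ => cmul_mem (hs.pow _) (hXN j i)
  set Hs : idx → PowerSeries ℂ := fun i =>
    ∑ j : Fin n₀, PowerSeries.C ((j : ℕ) / (n₀ : ℂ)) * (s ^ ((j : ℕ) - 1) * X j i) with hHs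
  set Hv : idx → PowerSeries ℂ := fun i =>
    ∑ j : Fin n₁, PowerSeries.C ((j : ℕ) / (n₁ : ℂ)) * (v ^ ((j : ℕ) - 1) * Y j i) with hHv
  set Hw : idx → PowerSeries ℂ := fun i =>
    ∑ j : Fin n₂, PowerSeries.C ((j : ℕ) / (n₂ : ℂ)) * (w ^ ((j : ℕ) - 1) * Z j i) with hHw
  have hsB : ∀ i, s * Hs i = app B G i := sum_head hP.sum_eq hX
  have hvC : ∀ i, v * Hv i = app C G i := sum_head hQ.sum_eq hY
  have hwE : ∀ i, w * Hw i = app E G i := sum_head hT.sum_eq hZ
  have hHsN : ∀ i, Hs i ∈ N := fun i =>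
    sum_mem fun j _ => cmul_mem (CConv.C _) (cmul_mem (hs.pow _) (hXN j i))
  have hHvN : ∀ i, Hv i ∈ N := fun i =>
    sum_mem fun j _ => cmul_mem (CConv.C _) (cmul_mem (hv.pow _) (hYN j i))
  have hHwN : ∀ i, Hw i ∈ N := fun i =>
    sum_mem fun j _ => cmul_mem (CConv.C _) (cmul_mem (hw.pow _) (hZN j i))
  have hth : ∀ i, th (G i) = (n₀ : PowerSeries ℂ) * th s * Hs i +
      (n₁ : PowerSeries ℂ) * th v * Hv i + (n₂ : PowerSeries ℂ) * th w * Hw i := by
    intro i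
    apply mul_left_cancel₀ (mul_ne_zero (mul_ne_zero hs0 hv0) hw0)
    rw [hG i, ← hsB, ← hvC, ← hwE]
    ring
  -- the identities of Bezout
  obtain ⟨α, β, hα, hβ, hαβ⟩ := bezout_pow hs hw ha hb hab n₀ n₂
  have hS := hs.pow n₀
  have hV := hv.pow n₁
  have hW := hw.pow n₂
  have hα2 := hα.pow 2
  have hβ2 := hβ.pow 2
  have hmem : ∀ x, th (ZZ x) ∈ N := by
    rintro (⟨j, i⟩ | ⟨j, i⟩ | ⟨j, i⟩)
    · refine tri_step (N := N) (n := n₀) (m := n₁) (l := n₂) h1 h2 (f := s) (g := v) (h := w) hs hv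
        hw hs0 hv0 hw0 (κ₀ := 1) (κ₁ := 1) (κ₂ := -1) (by norm_num) (by
          rw [map_one, map_neg, map_one]
          linear_combination hrel)
        (α := α ^ 2 * s ^ n₀ + 2 * α * β * w ^ n₂ + β ^ 2 * w ^ n₂) (β := β ^ 2)
        (((hα2.mul hS).add ((((CConv.ofNat 2).mul hα).mul hβ).mul hW)).add (hβ2.mul hW)) hβ2
        ?_ (Rf := B) (Rg := C) (Rh := E) (μ := μ) hR hP hsB hvC hwE hth hGN hHvN hHwN
        (j := j) (X := X j) (hX j) (hXN j) i
      linear_combination (β ^ 2 * w ^ n₂) * hrel + (α * s ^ n₀ + β * w ^ n₂ + 1) * hαβ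
    · refine tri_step (N := N) (n := n₁) (m := n₀) (l := n₂) h0 h2 (f := v) (g := s) (h := w) hv hs
        hw hv0 hs0 hw0 (κ₀ := 1) (κ₁ := 1) (κ₂ := -1) (by norm_num) (by
          rw [map_one, map_neg, map_one]
          linear_combination hrel)
        (α := β * (α + β) * w ^ n₂ - α * (α + β) * s ^ n₀ - α * β * v ^ n₁)
        (β := (α + β) ^ 2)
        ((((hβ.mul (hα.add hβ)).mul hW).sub ((hα.mul (hα.add hβ)).mul hS)).sub
          ((hα.mul hβ).mul hV)) ((hα.add hβ).pow 2)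
        ?_ (Rf := C) (Rg := B) (Rh := E) (μ := μ) (by rw [← hR]; abel) hQ hvC hsB hwE
        (fun i => by rw [hth i]; ring) hGN hHsN hHwN
        (j := j) (X := Y j) (hY j) (hYN j) i
      have e1 : w ^ n₂ = s ^ n₀ + v ^ n₁ := hrel.symm
      rw [e1] at hαβ ⊢
      linear_combination (α * s ^ n₀ + β * (s ^ n₀ + v ^ n₁) + 1) * hαβ
    · refine tri_step (N := N) (n := n₂) (m := n₀) (l := n₁) h0 h1 (f := w) (g := s) (h := v) hw hs
        hv hw0 hs0 hv0 (κ₀ := -1) (κ₁ := 1) (κ₂ := 1) (by norm_num) (by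
          rw [map_one, map_neg, map_one]
          linear_combination hrel)
        (α := α ^ 2 * s ^ n₀ + 2 * α * β * s ^ n₀ + β ^ 2 * w ^ n₂) (β := -α ^ 2)
        (((hα2.mul hS).add ((((CConv.ofNat 2).mul hα).mul hβ).mul hS)).add (hβ2.mul hW)) hα2.neg
        ?_ (Rf := E) (Rg := B) (Rh := C) (μ := μ) (by rw [← hR]; abel) hT hwE hsB hvC
        (fun i => by rw [hth i]; ring) hGN hHsN hHvN
        (j := j) (X := Z j) (hZ j) (hZN j) i
      have e1 : w ^ n₂ = s ^ n₀ + v ^ n₁ := hrel.symm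
      rw [e1] at hαβ ⊢
      linear_combination (α * s ^ n₀ + β * (s ^ n₀ + v ^ n₁) + 1) * hαβ
  exact cconv_of_span hmem (hGN i)

end step

end Pool.Agent.H925
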