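import Pool.Agent.H925.Vert
import Pool.Agent.H925.Radii

set_option autoImplicit false

open PowerSeries Finset

namespace Pool.Agent.H925

section linear

/-- Linear functions without zeros in the open unit disc. -/
lemma CUU.linear {a b : ℂ} (ha : a ≠ 0) (h : ‖b‖ ≤ ‖a‖) :
    CUU (PowerSeries.C a - PowerSeries.C b * PowerSeries.X) := by
  have ha' : 0 < ‖a‖ := norm_pos_iff.mpr ha
  refine CUU.of_mul (g := PowerSeries.mk fun n => b ^ n / a ^ (n + 1))
    ((CConv.C _).sub ((CConv.C _).mul CConv.X)) ?_ ?_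
  · refine cconv_of_bdd fun R h0 h1 => ⟨‖a‖⁻¹, fun n => ?_⟩
    rw [coeff_mk, norm_div, norm_pow, norm_pow, pow_succ]
    have h2 : ‖b‖ ^ n ≤ ‖a‖ ^ n := pow_le_pow_left₀ (norm_nonneg _) h n
    have h3 : R ^ n ≤ 1 := pow_le_one₀ h0.le h1.le
    have h4 : 0 < ‖a‖ ^ n := by positivity
    rw [div_mul_eq_mul_div, div_le_iff₀ (by positivity)]
    have h5 : ‖a‖⁻¹ * (‖a‖ ^ n * ‖a‖) = ‖a‖ ^ n := by
      field_simp
    rw [h5]
    calc ‖b‖ ^ n * R ^ n ≤ ‖a‖ ^ n * 1 := mul_le_mul h2 h3 (by positivity) (by positivity)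
      _ = _ := mul_one _
  · ext n
    rw [sub_mul, map_sub, coeff_C_mul, coeff_mk, mul_assoc, coeff_C_mul, mul_comm PowerSeries.X]
    rcases n with _ | n
    · simp [ha]
    · rw [coeff_succ_mul_X, coeff_mk, coeff_one, if_neg (Nat.succ_ne_zero n)]
      have h1 : a * (b ^ (n + 1) / a ^ (n + 1 + 1)) = b ^ (n + 1) / a ^ (n + 1) := by
        field_simp
        ring
      rw [h1, pow_succ b n]
      ring

end linear

section unif

/-- A holomorphic map from the unit disc to the plane without `0` and `1`, with the value `x` and the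
logarithmic derivative `d` at the origin. -/
def UL (x d : ℝ) : Prop :=
  ∃ f : PowerSeries ℂ, CUU f ∧ CUU (1 - f) ∧ constantCoeff f = (x : ℂ) ∧
    coeff 1 f = ((x * d : ℝ) : ℂ)

lemma coeff_one_mulC (f g : PowerSeries ℂ) : coeff 1 (f * g) =
    constantCoeff f * coeff 1 g + coeff 1 f * constantCoeff g := by
  rw [coeff_mul, Finset.Nat.antidiagonal_succ]
  simp [coeff_zero_eq_constantCoeff_apply]

/-- The transformation of Landen. -/
lemma UL.landen {g : PowerSeries ℂ} {y e : ℝ} (hy : 0 < y) (hg : CUU g) (hg1 : CUU (1 - g))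
    (hg2 : CUU (1 + g)) (h0 : constantCoeff g = (y : ℂ)) (h1 : coeff 1 g = ((y * e : ℝ) : ℂ)) :
    UL (4 * y / (1 + y) ^ 2) (e * ((1 - y) / (1 + y))) := by
  have hy1 : (1 + (y : ℂ)) ≠ 0 := by
    rw [← Complex.ofReal_one, ← Complex.ofReal_add]
    exact_mod_cast (by positivity : (1 + y) ≠ 0)
  set h := (1 + g)⁻¹ with hh
  have hgh : (1 + g) * h = 1 := hg2.mul_inv
  have hhC : CUU h := hg2.inv
  have hh0 : constantCoeff h = (1 + (y : ℂ))⁻¹ := by
    have e1 := congrArg constantCoeff hgh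
    rw [map_mul, map_add, map_one, h0] at e1
    exact (inv_eq_of_mul_eq_one_right e1).symm
  have hh1 : coeff 1 h = -(((y * e : ℝ) : ℂ)) * ((1 + (y : ℂ))⁻¹) ^ 2 := by
    have e1 := congrArg (coeff 1) hgh
    rw [coeff_one_mulC, map_add, map_add, map_one, h0, h1, hh0, coeff_one] at e1
    norm_num at e1
    field_simp
    field_simp at e1
    push_cast
    linear_combination e1
  refine ⟨4 * g * h ^ 2, ?_, ?_, ?_, ?_⟩
  · have h4 : CUU (4 : PowerSeries ℂ) := by
      have : (4 : PowerSeries ℂ) = PowerSeries.C (4 : ℂ) := (map_ofNat _ 4).symm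
      rw [this]
      exact CUU.C (by norm_num)
    exact (h4.mul hg).mul (hhC.pow 2)
  · have e1 : 1 - 4 * g * h ^ 2 = ((1 - g) * h) ^ 2 := by
      linear_combination (-(1 + (1 + g) * h)) * hgh
    rw [e1]
    exact (hg1.mul hhC).pow 2
  · rw [map_mul, map_mul, map_pow, h0, hh0, map_ofNat]
    push_cast
    field_simp
  · have e2 : coeff 1 (4 * g) = 4 * ((y * e : ℝ) : ℂ) := by
      rw [coeff_one_mulC, h1, map_ofNat]
      have : coeff 1 (4 : PowerSeries ℂ) = 0 := by
        have : (4 : PowerSeries ℂ) = PowerSeries.C (4 : ℂ) := (map_ofNat _ 4).symm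
        rw [this, coeff_C]
        simp
      rw [this, zero_mul, add_zero]
    have e3 : constantCoeff (4 * g) = 4 * (y : ℂ) := by rw [map_mul, h0, map_ofNat]
    have e4 : constantCoeff (h * h) = (1 + (y : ℂ))⁻¹ * (1 + (y : ℂ))⁻¹ := by rw [map_mul, hh0]
    rw [coeff_one_mulC (4 * g) (h ^ 2), pow_two, coeff_one_mulC h h, e2, e3, e4, hh0, hh1]
    push_cast
    field_simp
    ring

/-- One step of the tower of isogenies. -/
lemma UL.step {x d : ℝ} (hx0 : 0 < x) (h : UL x d) :
    UL (4 * Real.sqrt x / (1 + Real.sqrt x) ^ 2)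
      (d / 2 * ((1 - Real.sqrt x) / (1 + Real.sqrt x))) := by
  obtain ⟨f, hf, hf1, h0, h1⟩ := h
  set y := Real.sqrt x with hy
  have hy0 : 0 < y := Real.sqrt_pos.mpr hx0
  have hyx : y ^ 2 = x := Real.sq_sqrt hx0.le
  obtain ⟨g, hg, hgf, hg0⟩ : ∃ g : PowerSeries ℂ, CUU g ∧ g ^ 2 = f ∧
      constantCoeff g = (y : ℂ) := by
    obtain ⟨g, hg, hgf⟩ := hf.root (N := 2) (by norm_num)
    have e1 : (constantCoeff g) ^ 2 = (y : ℂ) ^ 2 := by
      rw [← map_pow, hgf, h0, ← hyx]
      push_cast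
      ring
    rcases sq_eq_sq_iff_eq_or_eq_neg.mp e1 with e2 | e2
    · exact ⟨g, hg, hgf, e2⟩
    · exact ⟨-g, hg.neg, by rw [neg_sq, hgf], by rw [map_neg, e2, neg_neg]⟩
  have hgg : CUU ((1 - g) * (1 + g)) := by
    have e1 : (1 - g) * (1 + g) = 1 - f := by rw [← hgf]; ring
    rw [e1]
    exact hf1
  have hm : CConv (1 - g) := CConv.one.sub hg.conv
  have hp : CConv (1 + g) := CConv.one.add hg.conv
  refine UL.landen hy0 hg (CUU.of_mul_left hm hp hgg)
    (CUU.of_mul_left hp hm (by rw [mul_comm]; exact hgg)) hg0 ?_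
  have e1 := congrArg (coeff 1) hgf
  rw [pow_two, coeff_one_mulC, hg0, h1] at e1
  have hyC : (y : ℂ) ≠ 0 := by exact_mod_cast hy0.ne'
  have e2 : (2 * (y : ℂ)) * coeff 1 g = (2 * (y : ℂ)) * ((y * (d / 2) : ℝ) : ℂ) := by
    have e3 : ((x * d : ℝ) : ℂ) = (y : ℂ) ^ 2 * d := by
      rw [← hyx]
      push_cast
      ring
    rw [e3] at e1
    push_cast
    linear_combination e1
  exact mul_left_cancel₀ (mul_ne_zero two_ne_zero hyC) e2

/-- The beginning of the tower. -/
lemma UL.start {u₀ : ℝ} (h0 : 0 < u₀) (h1 : u₀ < 1) (m : ℕ) :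
    UL (4 * u₀ ^ (2 ^ m) / (1 + u₀ ^ (2 ^ m)) ^ 2)
      (-(2 ^ (m + 1) * (1 - u₀)) * ((1 - u₀ ^ (2 ^ m)) / (1 + u₀ ^ (2 ^ m)))) := by
  -- the Moebius transformation
  set den : PowerSeries ℂ := PowerSeries.C (1 : ℂ) - PowerSeries.C ((2 * u₀ - 1 : ℝ) : ℂ) *
    PowerSeries.X with hden
  have hdenU : CUU den := by
    refine CUU.linear one_ne_zero ?_
    rw [norm_one, Complex.norm_real, Real.norm_eq_abs, abs_le]
    constructor <;> linarith
  set u : PowerSeries ℂ := PowerSeries.C (u₀ : ℂ) *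
    (PowerSeries.C (1 : ℂ) - PowerSeries.C (1 : ℂ) * PowerSeries.X) * den⁻¹ with hu
  have hdd : den * den⁻¹ = 1 := hdenU.mul_inv
  have hu₀C : (u₀ : ℂ) ≠ 0 := by exact_mod_cast h0.ne'
  have huU : CUU u := by
    refine ((CUU.C hu₀C).mul ?_).mul hdenU.inv
    exact CUU.linear one_ne_zero (by simp)
  have hu0 : constantCoeff u = (u₀ : ℂ) := by
    have e1 : constantCoeff den⁻¹ = 1 := by
      have e2 := congrArg constantCoeff hdd
      rw [map_mul, hden, map_sub, map_mul, constantCoeff_C, constantCoeff_X, mul_zero, sub_zero,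
        one_mul, map_one] at e2
      exact e2
    rw [hu, map_mul, map_mul, e1, map_sub, map_mul, constantCoeff_C, constantCoeff_C,
      constantCoeff_X]
    ring
  have hu1 : coeff 1 u = ((u₀ * (-(2 * (1 - u₀))) : ℝ) : ℂ) := by
    have e0 : den * u = PowerSeries.C (u₀ : ℂ) *
        (PowerSeries.C (1 : ℂ) - PowerSeries.C (1 : ℂ) * PowerSeries.X) := by
      rw [hu]
      linear_combination (PowerSeries.C (u₀ : ℂ) *
        (PowerSeries.C (1 : ℂ) - PowerSeries.C (1 : ℂ) * PowerSeries.X)) * hdd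
    have e1 := congrArg (coeff 1) e0
    rw [coeff_one_mulC den u, hu0, coeff_one_mulC (PowerSeries.C (u₀ : ℂ))] at e1
    have e2 : ∀ b : ℂ, coeff 1 (PowerSeries.C (1 : ℂ) - PowerSeries.C b * PowerSeries.X) = -b := by
      intro b
      rw [map_sub, coeff_C_mul, coeff_one_X, coeff_C]
      simp
    have e3 : ∀ b : ℂ, constantCoeff (PowerSeries.C (1 : ℂ) -
        PowerSeries.C b * PowerSeries.X) = 1 := by
      intro b
      rw [map_sub, map_mul, constantCoeff_C, constantCoeff_X, mul_zero, sub_zero]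
    rw [hden, e2, e3, e2, e3, constantCoeff_C, coeff_C] at e1
    push_cast at e1 ⊢
    simp at e1
    linear_combination e1
  -- `1 - ζ u ^ (2 ^ j)` has no zeros
  have hζ : ∀ (j : ℕ) (ζ : ℂ), ‖ζ‖ = 1 → CUU (1 - PowerSeries.C ζ * u ^ (2 ^ j)) := by
    intro j
    induction j with
    | zero =>
      intro ζ hζ1
      rw [pow_zero, pow_one]
      have e1 : 1 - PowerSeries.C ζ * u = (PowerSeries.C (1 - ζ * u₀) -
          PowerSeries.C (((2 * u₀ - 1 : ℝ) : ℂ) - ζ * u₀) * PowerSeries.X) * den⁻¹ := by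
        rw [map_sub, map_mul, map_one, map_sub, map_mul, hu, map_one]
        rw [map_one] at hden
        linear_combination (-1 : PowerSeries ℂ) * hdd + den⁻¹ * hden
      rw [e1]
      have hlt : ‖ζ * u₀‖ < 1 := by
        rw [norm_mul, hζ1, one_mul, Complex.norm_real, Real.norm_eq_abs, abs_of_pos h0]
        exact h1
      refine (CUU.linear ?_ ?_).mul hdenU.inv
      · intro h2
        have h3 : ζ * u₀ = 1 := by linear_combination -h2
        rw [h3, norm_one] at hlt
        exact lt_irrefl _ hlt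
      · -- the zero is outside of the open unit disc
        rw [← sq_le_sq₀ (norm_nonneg _) (norm_nonneg _), Complex.sq_norm, Complex.sq_norm,
          Complex.normSq_apply, Complex.normSq_apply]
        have h2 : ζ.re ^ 2 + ζ.im ^ 2 = 1 := by
          have := Complex.sq_norm ζ
          rw [hζ1, Complex.normSq_apply] at this
          linarith
        have h3 : ζ.re ≤ 1 := by nlinarith [sq_nonneg ζ.im]
        simp only [Complex.sub_re, Complex.sub_im, Complex.mul_re, Complex.mul_im,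
          Complex.ofReal_re, Complex.ofReal_im, Complex.one_re, Complex.one_im]
        have h4 : 0 ≤ 4 * u₀ * (1 - u₀) * (1 - ζ.re) :=
          mul_nonneg (mul_nonneg (by linarith) (by linarith)) (by linarith)
        nlinarith
    | succ j ih =>
      intro ζ hζ1
      obtain ⟨η, hη⟩ := IsAlgClosed.exists_pow_nat_eq ζ (n := 2) (by norm_num)
      have hη1 : ‖η‖ = 1 := by
        have h2 : ‖η‖ ^ 2 = 1 := by rw [← norm_pow, hη, hζ1]
        exact (pow_eq_one_iff_of_nonneg (norm_nonneg _) (by norm_num)).mp h2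
      have e1 : 1 - PowerSeries.C ζ * u ^ (2 ^ (j + 1)) =
          (1 - PowerSeries.C η * u ^ (2 ^ j)) * (1 - PowerSeries.C (-η) * u ^ (2 ^ j)) := by
        rw [← hη, map_pow, map_neg, pow_succ 2 j, pow_mul]
        ring
      rw [e1]
      exact (ih η hη1).mul (ih (-η) (by rw [norm_neg, hη1]))
  have hcoef : ∀ n : ℕ, coeff 1 (u ^ n) = ((u₀ ^ n * (-(2 * n * (1 - u₀))) : ℝ) : ℂ) := by
    intro n
    induction n with
    | zero => simp [coeff_one]
    | succ n ih =>
      rw [pow_succ, coeff_one_mulC, map_pow, hu0, hu1, ih]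
      push_cast
      ring
  have key := UL.landen (g := u ^ (2 ^ m)) (y := u₀ ^ (2 ^ m)) (e := -(2 ^ (m + 1) * (1 - u₀)))
    (by positivity) (huU.pow _) (by
      have := hζ m 1 (by simp)
      rwa [map_one, one_mul] at this) (by
      have := hζ m (-1) (by simp)
      rwa [map_neg, map_one, neg_one_mul, sub_neg_eq_add] at this) (by
      rw [map_pow, hu0]
      push_cast
      ring) (by
      rw [hcoef]
      push_cast
      ring)
  exact key

end unif

end Pool.Agent.H925
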