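import Pool.Agent.H925.Cusp

set_option autoImplicit false

open PowerSeries Finset

namespace Pool.Agent.H925

open Pool.Agent.Helper338PC (th coeff_th th_mul' th_add' th_sum' th_C th_one wg Aps IsSolG
  Aps_apply X_sub_one_mul_wg)

section data

/-- Uniformization data at a vertex of order `n₀`: `(s, v)` is a holomorphic map from the unit disc
to the affine curve `s ^ n₀ + v ^ n₁ = 1`, with `s(0) = 0` and `|s'(0)| ^ n₀ ≥ R`. The function
`s ^ n₀` has no poles, its zeros have orders divisible by `n₀`, and it takes the value `1` with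
orders divisible by `n₁`. -/
def VertexRadius (n₀ n₁ : ℕ) (R : ℝ) : Prop :=
  ∃ s v : PowerSeries ℂ, CConv s ∧ CConv v ∧ constantCoeff s = 0 ∧ s ^ n₀ + v ^ n₁ = 1 ∧
    R ≤ ‖coeff 1 s‖ ^ n₀

end data

section vertex

variable {idx : Type*} [Fintype idx] [DecidableEq idx]

lemma wg_constantCoeff : constantCoeff (wg ℂ) = -1 := by
  unfold wg
  rw [map_neg, ← coeff_zero_eq_constantCoeff_apply, coeff_mk]

lemma constantCoeff_th (f : PowerSeries ℂ) : constantCoeff (th f) = 0 := by
  rw [← coeff_zero_eq_constantCoeff_apply, coeff_th]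
  simp

/-- The pull-back of the solutions of a Fuchsian system with the exponents `j / n₀` at the origin
and `j / n₁` at `1` to the disc. -/
theorem vertex_conv {n₀ n₁ : ℕ} (hn₀ : 0 < n₀) (hn₁ : 0 < n₁) {s v : PowerSeries ℂ}
    (hs : CConv s) (hv : CConv v) (hs0 : constantCoeff s = 0) (hs1 : coeff 1 s ≠ 0)
    (hrel : s ^ n₀ + v ^ n₁ = 1)
    {A : Matrix idx idx (PowerSeries ℂ)} {A₀ A₁ b c : Matrix idx idx ℂ}
    (hA : ∀ j l, A j l = wg ℂ * (PowerSeries.C (A₀ j l) + PowerSeries.C (A₁ j l) * PowerSeries.X))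
    (hb : b = -A₀) (hc : c = A₀ + A₁)
    {P : Fin n₀ → Matrix idx idx ℂ} {E : Fin n₁ → Matrix idx idx ℂ}
    (hP : Spec n₀ b P) (hE : Spec n₁ c E) {j₀ : Fin n₀} {h : idx → PowerSeries ℂ}
    (hsol : IsSolG A ((j₀ : ℕ) / (n₀ : ℂ)) h) (i : idx) :
    CConv (s ^ (j₀ : ℕ) * (h i).subst (s ^ n₀)) := by
  classical
  have hn₀C : (n₀ : ℂ) ≠ 0 := by exact_mod_cast hn₀.ne'
  have hsne : s ≠ 0 := by
    rintro rfl
    exact hs1 (map_zero _)
  set Φ : PowerSeries ℂ := s ^ n₀ with hΦ
  have h0 : constantCoeff Φ = 0 := by rw [hΦ, map_pow, hs0, zero_pow hn₀.ne']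
  have hsub : HasSubst Φ := HasSubst.of_constantCoeff_zero' h0
  have hvc : constantCoeff v ≠ 0 := by
    intro h1
    have h2 := congrArg constantCoeff hrel
    rw [map_add, map_pow, map_pow, hs0, h1, zero_pow hn₀.ne', zero_pow hn₁.ne', map_one,
      add_zero] at h2
    exact zero_ne_one h2
  have hvne : v ≠ 0 := by
    rintro rfl
    exact hvc (map_zero _)
  set iv := v⁻¹ with hiv
  have hviv : v * iv = 1 := PowerSeries.mul_inv_cancel v hvc
  have hCnat : ∀ n : ℕ, (n : PowerSeries ℂ) = PowerSeries.C (n : ℂ) := fun n => (map_natCast _ n).symm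
  -- logarithmic derivatives
  have hsΦ : s * th Φ = (n₀ : PowerSeries ℂ) * th s * Φ := by
    rw [hΦ, th_pow']
    ring
  have hv1 : v * th Φ = -((n₁ : PowerSeries ℂ) * th v * (1 - Φ)) := by
    have e1 : 1 - Φ = v ^ n₁ := by rw [hΦ, ← hrel]; ring
    have e2 : th Φ = -th (v ^ n₁) := by
      have e3 : th (Φ + v ^ n₁) = 0 := by rw [hΦ, hrel, th_one]
      rw [th_add'] at e3
      linear_combination e3
    rw [e2, e1, mul_neg, th_pow']
    ring
  set iw := (wg ℂ).subst Φ with hiw
  have hiw1 := subst_wgC hsub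
  rw [← hiw] at hiw1
  -- the chain rule
  have hchain : ∀ f : PowerSeries ℂ, s * th (f.subst Φ) =
      (n₀ : PowerSeries ℂ) * th s * (th f).subst Φ := by
    intro f
    have e1 : (th f).subst Φ = Φ * (derivative ℂ f).subst Φ := by
      unfold th
      rw [subst_mul hsub, subst_X hsub]
    have e2 : th (f.subst Φ) = (derivative ℂ f).subst Φ * th Φ := by
      unfold th
      rw [derivative_subst hsub]
      ring
    rw [e1, e2]
    linear_combination ((derivative ℂ f).subst Φ) * hsΦ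
  -- the pulled back solution
  set F : idx → PowerSeries ℂ := fun l => s ^ (j₀ : ℕ) * (h l).subst Φ with hF
  have hβ : PowerSeries.C ((j₀ : ℕ) / (n₀ : ℂ)) * (n₀ : PowerSeries ℂ) =
      (((j₀ : ℕ) : ℕ) : PowerSeries ℂ) := by
    rw [hCnat, hCnat, ← map_mul, div_mul_cancel₀ _ hn₀C]
  have hFth : ∀ i, s * v * th (F i) = (n₀ : PowerSeries ℂ) * v * th s * app b F i +
      (n₁ : PowerSeries ℂ) * s * th v * app c F i - 0 * s * v * (app b F i + app c F i) -
        PowerSeries.C 0 * s * v * F i := by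
    intro i
    have e1 : s * th ((h i).subst Φ) = (n₀ : PowerSeries ℂ) * th s *
        ((∑ l, (A i l).subst Φ * (h l).subst Φ) -
        PowerSeries.C ((j₀ : ℕ) / (n₀ : ℂ)) * (h i).subst Φ) := by
      rw [hchain, hsol i, subst_sub hsub, subst_mul hsub, subst_CC, subst_sumC hsub]
      congr 2
      exact Finset.sum_congr rfl fun l _ => subst_mul hsub _ _
    have e2 : ∀ l, (A i l).subst Φ = iw * (PowerSeries.C (A₀ i l) + PowerSeries.C (A₁ i l) * Φ) := by
      intro l
      rw [hA, subst_mul hsub, subst_add hsub, subst_mul hsub, subst_CC, subst_CC, subst_X hsub]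
    have hbl : ∀ l, PowerSeries.C (b i l) = -PowerSeries.C (A₀ i l) := by
      intro l; rw [hb, Matrix.neg_apply, map_neg]
    have hcl : ∀ l, PowerSeries.C (c i l) = PowerSeries.C (A₀ i l) + PowerSeries.C (A₁ i l) := by
      intro l; rw [hc, Matrix.add_apply, map_add]
    -- the coefficients
    have e4 : ∀ l, (n₀ : PowerSeries ℂ) * v * th s * (A i l).subst Φ =
        (n₀ : PowerSeries ℂ) * v * th s * PowerSeries.C (b i l) +
          (n₁ : PowerSeries ℂ) * s * th v * PowerSeries.C (c i l) := by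
      intro l
      rw [e2 l, hbl, hcl]
      -- `n₀ v th s Φ iw = n₁ s th v`
      have e5 : (n₀ : PowerSeries ℂ) * v * th s * Φ * iw = (n₁ : PowerSeries ℂ) * s * th v := by
        have e6 : (n₀ : PowerSeries ℂ) * v * th s * Φ = v * (s * th Φ) := by
          rw [hsΦ]; ring
        have e7 : v * (s * th Φ) = s * (-((n₁ : PowerSeries ℂ) * th v * (1 - Φ))) := by
          rw [← hv1]; ring
        rw [e6, e7]
        linear_combination (s * (n₁ : PowerSeries ℂ) * th v) * hiw1
      have e8 : (n₀ : PowerSeries ℂ) * v * th s * iw = (n₁ : PowerSeries ℂ) * s * th v -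
          (n₀ : PowerSeries ℂ) * v * th s := by
        linear_combination e5 - ((n₀ : PowerSeries ℂ) * v * th s) * hiw1
      linear_combination (PowerSeries.C (A₁ i l)) * e5 + (PowerSeries.C (A₀ i l)) * e8
    have e9 := th_pow' s (j₀ : ℕ)
    have e10 : th (F i) = th (s ^ (j₀ : ℕ)) * (h i).subst Φ + s ^ (j₀ : ℕ) * th ((h i).subst Φ) := by
      rw [hF]; simp only; rw [th_mul']
    have e11 : (n₀ : PowerSeries ℂ) * v * th s * app b F i +
        (n₁ : PowerSeries ℂ) * s * th v * app c F i =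
        s ^ (j₀ : ℕ) * ((n₀ : PowerSeries ℂ) * v * th s *
          ∑ l, (A i l).subst Φ * (h l).subst Φ) := by
      unfold app
      rw [Finset.mul_sum, Finset.mul_sum, Finset.mul_sum, Finset.mul_sum,
        ← Finset.sum_add_distrib]
      refine Finset.sum_congr rfl fun l _ => ?_
      rw [hF]
      simp only
      linear_combination (-(s ^ (j₀ : ℕ) * (h l).subst Φ)) * e4 l
    rw [map_zero]
    have e12 : s * v * th (F i) = v * ((s * th (s ^ (j₀ : ℕ))) * (h i).subst Φ) +
        v * s ^ (j₀ : ℕ) * (s * th ((h i).subst Φ)) := by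
      rw [e10]; ring
    rw [e12, e9, e1]
    linear_combination (-1 : PowerSeries ℂ) * e11 -
      (v * s ^ (j₀ : ℕ) * th s * (h i).subst Φ) * hβ
  -- the initial value
  have hinit : ∀ i, app b (fun l => PowerSeries.C (constantCoeff (h l))) i =
      PowerSeries.C ((j₀ : ℕ) / (n₀ : ℂ)) * PowerSeries.C (constantCoeff (h i)) := by
    intro i
    have e1 := congrArg constantCoeff (hsol i)
    rw [constantCoeff_th, map_sub, map_sum, map_mul, constantCoeff_C] at e1
    have e2 : ∀ l, constantCoeff (A i l * h l) = b i l * constantCoeff (h l) := by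
      intro l
      rw [map_mul, hA, map_mul, wg_constantCoeff, map_add, map_mul, constantCoeff_C,
        constantCoeff_X, mul_zero, add_zero, hb, Matrix.neg_apply]
      ring
    rw [Finset.sum_congr rfl fun l _ => e2 l] at e1
    unfold app
    have e3 : ∀ l, PowerSeries.C (b i l) * PowerSeries.C (constantCoeff (h l)) =
        PowerSeries.C (b i l * constantCoeff (h l)) := fun l => (map_mul _ _ _).symm
    rw [Finset.sum_congr rfl fun l _ => e3 l, ← map_sum, ← map_mul]
    congr 1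
    linear_combination -e1
  have hzero : ∀ (j : Fin n₀) i, j ≠ j₀ → constantCoeff (app (P j) h i) = 0 := by
    intro j i hj
    have e0 : ∀ f : idx → PowerSeries ℂ, constantCoeff (app (P j) f i) =
        ∑ l, P j i l * constantCoeff (f l) := by
      intro f
      unfold app
      rw [map_sum]
      exact Finset.sum_congr rfl fun l _ => by rw [map_mul, constantCoeff_C]
    have e1 : app (P j) (app b (fun l => PowerSeries.C (constantCoeff (h l)))) i =
        PowerSeries.C ((j : ℕ) / (n₀ : ℂ)) * app (P j) (fun l => PowerSeries.C (constantCoeff (h l))) i := by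
      rw [app_app, hP.left_mul, app_smul]
    have e2 : app b (fun l => PowerSeries.C (constantCoeff (h l))) =
        fun l => PowerSeries.C ((j₀ : ℕ) / (n₀ : ℂ)) * PowerSeries.C (constantCoeff (h l)) :=
      funext hinit
    rw [e2, app_mul] at e1
    have e3 := congrArg constantCoeff e1
    rw [map_mul, map_mul, constantCoeff_C, constantCoeff_C, e0] at e3
    simp only [constantCoeff_C] at e3
    rw [e0]
    have e4 : ((j₀ : ℕ) : ℂ) / n₀ - ((j : ℕ) : ℂ) / n₀ ≠ 0 := by
      rw [← sub_div]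
      refine div_ne_zero (sub_ne_zero.mpr ?_) hn₀C
      intro h1
      exact hj (Fin.ext (by exact_mod_cast h1.symm))
    have e5 : (((j₀ : ℕ) : ℂ) / n₀ - ((j : ℕ) : ℂ) / n₀) *
        ∑ l, P j i l * constantCoeff (h l) = 0 := by
      rw [sub_mul, e3, sub_self]
    exact (mul_eq_zero.mp e5).resolve_left e4
  -- the divisibility
  have hY : ∀ (j : Fin n₀) i, ∃ y, app (P j) F i = s ^ (j : ℕ) * y := by
    intro j i
    have e1 : app (P j) F i = s ^ (j₀ : ℕ) * (app (P j) h i).subst Φ := by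
      rw [hF, app_mul]
      congr 1
      unfold app
      rw [subst_sumC hsub]
      refine Finset.sum_congr rfl fun l _ => ?_
      rw [subst_mul hsub, subst_CC]
    by_cases hj : j = j₀
    · rw [hj] at e1 ⊢
      exact ⟨_, e1⟩
    · obtain ⟨g, hg⟩ := (PowerSeries.X_dvd_iff).mpr (hzero j i hj)
      refine ⟨s ^ ((j₀ : ℕ) + n₀ - (j : ℕ)) * g.subst Φ, ?_⟩
      have e2 : s ^ (j : ℕ) * s ^ ((j₀ : ℕ) + n₀ - (j : ℕ)) = s ^ (j₀ : ℕ) * s ^ n₀ := by
        rw [← pow_add, ← pow_add]
        congr 1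
        have := j.2
        omega
      rw [e1, hg, subst_mul hsub, subst_X hsub, ← mul_assoc, ← mul_assoc, e2]
  choose Y hY using hY
  refine cconv_orb hn₀ hn₁ (τ := 1) (τ' := 1) (m := 0) (a := 0) (κ := -1) hs hv CConv.zero hsne hvne
    CConv.one (by simp) ?_ (by rw [th_one, mul_one]) (w := (n₀ : PowerSeries ℂ) * v * th s -
      (n₁ : PowerSeries ℂ) * s * th v) (by rw [one_mul]) hP hE (F := F) (lam := 0) hFth hY
      (Z := fun j i => iv ^ (j : ℕ) * app (E j) F i) ?_ i
  · rw [← hrel, map_neg, map_one]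
    ring
  · intro j i
    rw [← mul_assoc, ← mul_pow, hviv, one_pow, one_mul]

/-- The pull-back of the solutions, with the factor which clears the branches. -/
theorem vertex_conv' {n₀ n₁ : ℕ} (hn₀ : 0 < n₀) (hn₁ : 0 < n₁) {s v σ : PowerSeries ℂ}
    (hs : CConv s) (hv : CConv v) (hσ : s = PowerSeries.X * σ) (hσ0 : constantCoeff σ ≠ 0)
    (hrel : s ^ n₀ + v ^ n₁ = 1)
    {A : Matrix idx idx (PowerSeries ℂ)} {A₀ A₁ b c : Matrix idx idx ℂ}
    (hA : ∀ j l, A j l = wg ℂ * (PowerSeries.C (A₀ j l) + PowerSeries.C (A₁ j l) * PowerSeries.X))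
    (hb : b = -A₀) (hc : c = A₀ + A₁)
    {P : Fin n₀ → Matrix idx idx ℂ} {E : Fin n₁ → Matrix idx idx ℂ}
    (hP : Spec n₀ b P) (hE : Spec n₁ c E) {j₀ : Fin n₀} {h : idx → PowerSeries ℂ}
    (hsol : IsSolG A ((j₀ : ℕ) / (n₀ : ℂ)) h) (i : idx) :
    CConv (σ ^ (n₀ - 1) * (h i).subst (s ^ n₀)) := by
  have hs0 : constantCoeff s = 0 := by rw [hσ, map_mul, constantCoeff_X, zero_mul]
  have hs1 : coeff 1 s = constantCoeff σ := by
    rw [hσ, mul_comm, show (1 : ℕ) = 0 + 1 from rfl, coeff_succ_mul_X,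
      coeff_zero_eq_constantCoeff_apply]
  have hσC : CConv σ := by
    refine cconv_of_X_pow_mul (m := 1) ?_
    rw [pow_one, ← hσ]
    exact hs
  have key := vertex_conv hn₀ hn₁ hs hv hs0 (by rw [hs1]; exact hσ0) hrel hA hb hc hP hE hsol i
  have e1 : s ^ (j₀ : ℕ) * (h i).subst (s ^ n₀) =
      PowerSeries.X ^ (j₀ : ℕ) * (σ ^ (j₀ : ℕ) * (h i).subst (s ^ n₀)) := by
    conv_lhs => rw [hσ, mul_pow, ← hσ]
    rw [mul_assoc]
  rw [e1] at key
  have key2 := cconv_of_X_pow_mul key
  have e2 : σ ^ (n₀ - 1) = σ ^ (n₀ - 1 - (j₀ : ℕ)) * σ ^ (j₀ : ℕ) := by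
    rw [← pow_add]
    congr 1
    have := j₀.2
    omega
  rw [e2, mul_assoc]
  exact (hσC.pow _).mul key2

end vertex

end Pool.Agent.H925
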