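import Pool.Agent.H925.DenComb
import Pool.Agent.H925.Vert
import Pool.Agent.H925.OrbAlg

set_option autoImplicit false

open Finset

namespace Pool.Agent.H925

open Pool.Agent.Helper338PC

section core

lemma comb_map {idx : Type*} [Fintype idx] (U : Matrix idx idx (PowerSeries ℚ)) (c : idx × idx → ℤ)
    {R : Type*} [CommRing R] (φ : ℚ →+* R) : PowerSeries.map φ (comb U c) =
      ∑ x : idx × idx, PowerSeries.C (φ (c x)) * PowerSeries.map φ (U x.1 x.2) := by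
  unfold comb
  rw [map_sum]
  exact Finset.sum_congr rfl fun x _ => by rw [map_mul, PowerSeries.map_C]

/-- Combinations of the entries of the fundamental matrices at a vertex of finite order are
algebraic of bounded degree. -/
theorem vert_galg {n₀ n₁ : ℕ} (hn₀ : 0 < n₀) (hn₁ : 0 < n₁) {R δ : ℝ} (hR0 : 0 < R)
    (hR : VertexRadius n₀ n₁ R) (hδ0 : 0 ≤ δ) (hδ : δ < Real.log R) : ∃ M : ℕ,
    ∀ (idx : Type) [Fintype idx] [DecidableEq idx] (A₁ : Matrix idx idx (Polynomial ℤ)) (D : ℕ)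
      (jj : idx → Fin n₀) (U : Matrix idx idx (PowerSeries ℚ)), D ≠ 0 → (ccM U).det ≠ 0 →
      (∀ j, IsSolG (Aps (Int.castRingHom ℚ) (D : ℚ)⁻¹ 1 A₁) (((jj j : ℕ) : ℚ) / n₀)
        (fun i => U i j)) →
      (∀ i j, ∃ z : ℤ, PowerSeries.coeff 0 (U i j) = z) →
      ∀ (S : Finset ℕ), (∀ p ∈ S, p.Prime) → (∀ p, p.Prime → p ∣ D → p ∈ S) →
      ∀ (E : Set ℕ), Summable (sparseTerm E) → ∀ (ℓ : ℕ → ℝ), (∀ p, 0 ≤ ℓ p) →
      (∀ (p : ℕ) [Fact p.Prime], p ∈ S → ∀ i j, PadicRadius p (U i j) (ℓ p)) →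
      (∀ (p : ℕ) [Fact p.Prime], p ∉ S → p ∉ E →
        MG (Aps (Int.castRingHom (ZMod p)) (D : ZMod p)⁻¹ 1 A₁) p = 0) →
      (∀ i j, (A₁ i j).natDegree ≤ 1) →
      Polynomial.aeval (-(A₁.map fun a => a.coeff 0)) (eigPoly n₀ D) = 0 →
      Polynomial.aeval (A₁.map (Polynomial.eval 1)) (eigPoly n₁ D) = 0 →
      defect (numExp fun i => ((jj i : ℕ) : ℚ) / n₀) S E ℓ ≤ δ → ∀ c : idx × idx → ℤ,
      ∃ P : Polynomial (Polynomial ℚ), P ≠ 0 ∧ P.natDegree < M ∧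
        Polynomial.aeval (comb U c) P = 0 := by
  classical
  obtain ⟨s, v, hs, hv, hs0, hrel, hRs⟩ := hR
  obtain ⟨σ, hσ⟩ := (PowerSeries.X_dvd_iff).mpr hs0
  have hs1 : PowerSeries.coeff 1 s = PowerSeries.constantCoeff σ := by
    rw [hσ, mul_comm, show (1 : ℕ) = 0 + 1 from rfl, PowerSeries.coeff_succ_mul_X,
      PowerSeries.coeff_zero_eq_constantCoeff_apply]
  have hσ0 : PowerSeries.constantCoeff σ ≠ 0 := by
    intro h
    rw [hs1, h, norm_zero, zero_pow hn₀.ne'] at hRs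
    linarith
  have hσC : CConv σ := by
    refine cconv_of_X_pow_mul (m := 1) ?_
    rw [pow_one, ← hσ]
    exact hs
  set σ₀ : ℂ := PowerSeries.constantCoeff σ with hσ₀
  obtain ⟨Λ, hΛ1, hΛ2⟩ : ∃ Λ, Real.exp δ < Λ ∧ Λ < R := by
    refine exists_between ?_
    calc Real.exp δ < Real.exp (Real.log R) := Real.exp_lt_exp.mpr hδ
      _ = R := Real.exp_log hR0
  have hΛ : 1 ≤ Λ := (Real.one_le_exp hδ0).trans hΛ1.le
  set Q : PowerSeries ℂ := (PowerSeries.C σ₀⁻¹ * σ) ^ (n₀ - 1) with hQ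
  have hQC : CConv Q := ((CConv.C _).mul hσC).pow _
  have hQ' : Q = PowerSeries.C (σ₀⁻¹ ^ (n₀ - 1)) * σ ^ (n₀ - 1) := by
    rw [hQ, mul_pow, map_pow]
  have hΦ : s ^ n₀ = PowerSeries.X ^ n₀ * σ ^ n₀ := by rw [hσ, mul_pow]
  have hsub : PowerSeries.HasSubst (s ^ n₀) := by
    refine PowerSeries.HasSubst.of_constantCoeff_zero' ?_
    rw [map_pow, hs0, zero_pow hn₀.ne']
  obtain ⟨M, hM⟩ := criterionU (ρ := 1 / 2) hΛ (by norm_num) hn₀ (Φ := s ^ n₀) (Φ' := σ ^ n₀)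
    (Q := Q) hΦ (by
      rw [map_pow, norm_pow, ← hσ₀, ← hs1]
      exact lt_of_lt_of_le hΛ2 hRs) hQC (by
      rw [hQ, map_pow, map_mul, PowerSeries.constantCoeff_C, ← hσ₀, inv_mul_cancel₀ hσ0, one_pow])
    (hQC.mul (hs.pow _))
  refine ⟨M, ?_⟩
  intro idx _ _ A₁ D jj U hD hdet hU hint S hS hDS E hE ℓ hℓ hbad hgood hdeg h0 h1 hdef c
  set β : idx → ℚ := fun i => ((jj i : ℕ) : ℚ) / n₀ with hβ
  have hn₀Q : (0 : ℚ) < n₀ := by exact_mod_cast hn₀
  have hgap : ∀ i j, |β i - β j| < 1 := by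
    intro i j
    rw [hβ]
    simp only
    rw [← sub_div, abs_div, abs_of_pos hn₀Q, div_lt_one hn₀Q, abs_lt]
    have h2 : ((jj i : ℕ) : ℚ) < n₀ := by exact_mod_cast (jj i).2
    have h3 : ((jj j : ℕ) : ℚ) < n₀ := by exact_mod_cast (jj j).2
    have h4 : (0 : ℚ) ≤ ((jj i : ℕ) : ℚ) := Nat.cast_nonneg _
    have h5 : (0 : ℚ) ≤ ((jj j : ℕ) : ℚ) := Nat.cast_nonneg _
    constructor <;> linarith
  refine hM (comb U c) ?_ ?_ ?_
  · exact gden_comb hD hgap hdet hU hint hS hDS hE hℓ hbad hgood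
      (lt_of_le_of_lt (Real.exp_le_exp.mpr hdef) hΛ1) c
  · -- growth
    rw [comb_map]
    refine Sm.sum (by norm_num) _ fun x _ => Sm.mul (by norm_num) (Sm.C _) ?_
    have hRr : IsSolG (Aps (Int.castRingHom ℝ) ((D : ℝ)⁻¹) 1 A₁) ((β x.2 : ℚ) : ℝ)
        (fun j => PowerSeries.map (algebraMap ℚ ℝ) (U j x.2)) := by
      have h3 := (hU x.2).map (algebraMap ℚ ℝ)
      rw [Aps_map] at h3
      have h4 : (algebraMap ℚ ℝ) (D : ℚ)⁻¹ = (D : ℝ)⁻¹ := by
        rw [map_inv₀, map_natCast]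
      rw [h4] at h3
      have h5 : (algebraMap ℚ ℝ).comp (Int.castRingHom ℚ) = Int.castRingHom ℝ :=
        Subsingleton.elim _ _
      rw [h5] at h3
      exact h3
    exact hRr.conv x.1 (1 / 2) (by norm_num) (by norm_num)
  · -- the pull-back
    rw [comb_map, subst_sumC hsub, Finset.mul_sum]
    refine CConv.sum _ fun x _ => ?_
    have hC : IsSolG (Aps (Int.castRingHom ℂ) ((D : ℂ)⁻¹) 1 A₁) (((jj x.2 : ℕ) : ℂ) / (n₀ : ℂ))
        (fun j => PowerSeries.map (algebraMap ℚ ℂ) (U j x.2)) := by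
      have h3 := (hU x.2).map (algebraMap ℚ ℂ)
      rw [Aps_map] at h3
      have h4 : (algebraMap ℚ ℂ) (D : ℚ)⁻¹ = (D : ℂ)⁻¹ := by
        rw [map_inv₀, map_natCast]
      rw [h4] at h3
      have h5 : (algebraMap ℚ ℂ).comp (Int.castRingHom ℚ) = Int.castRingHom ℂ :=
        Subsingleton.elim _ _
      rw [h5, map_div₀, map_natCast, map_natCast] at h3
      exact h3
    set Z₀ : Matrix idx idx ℂ := (-(A₁.map fun a => a.coeff 0)).map (Int.castRingHom ℂ) with hZ₀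
    set Z₁ : Matrix idx idx ℂ := (A₁.map (Polynomial.eval 1)).map (Int.castRingHom ℂ) with hZ₁
    obtain ⟨P, hP⟩ := exists_spec (Z := Z₀) hn₀ hD (eigPoly_map (Int.castRingHom ℂ).mapMatrix h0)
    obtain ⟨E', hE'⟩ := exists_spec (Z := Z₁) hn₁ hD (eigPoly_map (Int.castRingHom ℂ).mapMatrix h1)
    have key := vertex_conv' hn₀ hn₁ hs hv hσ hσ0 hrel
      (A := Aps (Int.castRingHom ℂ) ((D : ℂ)⁻¹) 1 A₁)
      (A₀ := (D : ℂ)⁻¹ • (A₁.map fun a => a.coeff 0).map (Int.castRingHom ℂ))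
      (A₁ := (D : ℂ)⁻¹ • (A₁.map fun a => a.coeff 1).map (Int.castRingHom ℂ))
      (Aps_linear A₁ _ hdeg) (b := (D : ℂ)⁻¹ • Z₀) (c := (D : ℂ)⁻¹ • Z₁) (by
        rw [← smul_neg]
        congr 1
        ext1 a b
        rw [hZ₀]
        simp) (by
        rw [← smul_add]
        congr 1
        ext1 a b
        rw [hZ₁, Matrix.add_apply]
        simp only [Matrix.map_apply]
        rw [← map_add]
        congr 1
        have h3 := Polynomial.eq_X_add_C_of_natDegree_le_one (hdeg a b)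
        conv_lhs => rw [h3]
        simp [add_comm]) hP hE' hC x.1
    rw [PowerSeries.subst_mul hsub, subst_CC, hQ']
    have e1 : PowerSeries.C (σ₀⁻¹ ^ (n₀ - 1)) * σ ^ (n₀ - 1) *
        (PowerSeries.C ((algebraMap ℚ ℂ) (c x)) *
          PowerSeries.subst (s ^ n₀) (PowerSeries.map (algebraMap ℚ ℂ) (U x.1 x.2))) =
        PowerSeries.C (σ₀⁻¹ ^ (n₀ - 1)) * PowerSeries.C ((algebraMap ℚ ℂ) (c x)) *
        (σ ^ (n₀ - 1) *
          PowerSeries.subst (s ^ n₀) (PowerSeries.map (algebraMap ℚ ℂ) (U x.1 x.2))) := by ring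
    rw [e1]
    exact ((CConv.C _).mul (CConv.C _)).mul key

end core

end Pool.Agent.H925
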