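import Pool.Agent.H925.VertK
import Pool.Agent.H925.Num5
import Pool.Graph.R_pool_sql_team_seeded_620a6dc7.Helper338PC.Six

set_option autoImplicit false

open Finset NumberField

namespace Pool.Agent.H925

open Pool.Agent.Helper338PC

section fam

/-- The matrix of polynomials `d₀ (x - 1) diag(b) + d₁ x P`. -/
noncomputable def vfam {R : Type*} [CommRing R] {r : ℕ} (d₀ d₁ : ℕ) (b : Fin r → ℕ)
    (P : Matrix (Fin r) (Fin r) R) : Matrix (Fin r) (Fin r) (Polynomial R) :=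
  Matrix.of fun i j => (if i = j then Polynomial.C (((d₀ * b i : ℕ) : R)) * (Polynomial.X - 1)
    else 0) + Polynomial.C ((d₁ : R) * P i j) * Polynomial.X

variable {r : ℕ}

lemma vfam_natDegree {R : Type*} [CommRing R] (d₀ d₁ : ℕ) (b : Fin r → ℕ)
    (P : Matrix (Fin r) (Fin r) R) (i j : Fin r) : (vfam d₀ d₁ b P i j).natDegree ≤ 1 := by
  unfold vfam
  rw [Matrix.of_apply]
  refine (Polynomial.natDegree_add_le _ _).trans (max_le ?_ ?_)
  · split_ifs
    · refine (Polynomial.natDegree_C_mul_le _ _).trans ?_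
      have : (Polynomial.X - 1 : Polynomial R) = Polynomial.X - Polynomial.C 1 := by
        rw [map_one]
      rw [this]
      exact (Polynomial.natDegree_X_sub_C_le 1)
    · rw [Polynomial.natDegree_zero]
      exact Nat.zero_le 1
  · exact (Polynomial.natDegree_C_mul_le _ _).trans Polynomial.natDegree_X_le

lemma vfam_coeff_zero {R : Type*} [CommRing R] (d₀ d₁ : ℕ) (b : Fin r → ℕ)
    (P : Matrix (Fin r) (Fin r) R) :
    -((vfam d₀ d₁ b P).map fun a => a.coeff 0) = Matrix.diagonal fun i => ((d₀ * b i : ℕ) : R) := by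
  ext1 i j
  unfold vfam
  rw [Matrix.neg_apply, Matrix.map_apply, Matrix.of_apply, Polynomial.coeff_add,
    Polynomial.coeff_C_mul, Polynomial.coeff_X_zero, mul_zero, add_zero, Matrix.diagonal_apply]
  split_ifs
  · rw [Polynomial.coeff_C_mul, Polynomial.coeff_sub, Polynomial.coeff_X_zero,
      Polynomial.coeff_one_zero]
    ring
  · rw [Polynomial.coeff_zero, neg_zero]

lemma vfam_eval_one {R : Type*} [CommRing R] (d₀ d₁ : ℕ) (b : Fin r → ℕ)
    (P : Matrix (Fin r) (Fin r) R) :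
    (vfam d₀ d₁ b P).map (Polynomial.eval 1) = (d₁ : R) • P := by
  ext1 i j
  unfold vfam
  rw [Matrix.map_apply, Matrix.of_apply, Polynomial.eval_add, Polynomial.eval_mul,
    Polynomial.eval_C, Polynomial.eval_X, mul_one, Matrix.smul_apply, smul_eq_mul]
  split_ifs
  · rw [Polynomial.eval_mul, Polynomial.eval_sub, Polynomial.eval_X, Polynomial.eval_one,
      sub_self, mul_zero, zero_add]
  · rw [Polynomial.eval_zero, zero_add]

lemma aeval_diagonal {R : Type*} [CommRing R] (v : Fin r → R) (p : Polynomial ℤ) :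
    Polynomial.aeval (Matrix.diagonal v) p = Matrix.diagonal fun i => Polynomial.aeval (v i) p := by
  induction p using Polynomial.induction_on' with
  | add p q hp hq =>
    rw [map_add, hp, hq, Matrix.diagonal_add]
    congr 1
    funext i
    rw [map_add]
  | monomial n a =>
    rw [Polynomial.aeval_monomial, Matrix.diagonal_pow]
    ext1 i j
    rw [Matrix.diagonal_apply, Algebra.algebraMap_eq_smul_one, Matrix.smul_mul, one_mul,
      Matrix.smul_apply, Matrix.diagonal_apply]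
    split_ifs
    · rw [Polynomial.aeval_monomial, Algebra.algebraMap_eq_smul_one, smul_mul_assoc, one_mul]
      rfl
    · rw [smul_zero]

/-- The type of the family. -/
lemma vfam_type {R : Type*} [CommRing R] {n₀ m d₀ d₁ : ℕ} (hd : d₀ * n₀ = d₁ * m)
    {b : Fin r → ℕ} (hb : ∀ i, b i < n₀) {P : Matrix (Fin r) (Fin r) R}
    (hP : 2 • (P * P) = m • P) : VertexType (d₀ * n₀) n₀ 2 (vfam d₀ d₁ b P) := by
  refine ⟨fun i j => vfam_natDegree d₀ d₁ b P i j, ?_, ?_⟩
  · rw [vfam_coeff_zero, aeval_diagonal]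
    ext1 i j
    rw [Matrix.diagonal_apply, Matrix.zero_apply]
    split_ifs
    · unfold eigPoly
      rw [map_prod]
      refine Finset.prod_eq_zero (Finset.mem_range.mpr (hb i)) ?_
      simp only [map_sub, map_mul, map_natCast, Polynomial.aeval_X]
      push_cast
      ring
    · rfl
  · rw [vfam_eval_one]
    unfold eigPoly
    rw [Finset.prod_range_succ, Finset.prod_range_one, map_mul]
    simp only [map_sub, map_mul, map_natCast, Polynomial.aeval_X]
    push_cast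
    have h1 : (2 : Matrix (Fin r) (Fin r) R) * ((d₁ : R) • P) = (2 * d₁ : R) • P := by
      ext1 i j
      rw [two_mul, Matrix.add_apply, Matrix.smul_apply, Matrix.smul_apply, smul_eq_mul, smul_eq_mul]
      ring
    have h2 : ((d₀ : Matrix (Fin r) (Fin r) R) * (n₀ : Matrix (Fin r) (Fin r) R)) =
        ((d₁ * m : R)) • (1 : Matrix (Fin r) (Fin r) R) := by
      have h3 := congrArg (Nat.cast : ℕ → Matrix (Fin r) (Fin r) R) hd
      push_cast at h3
      rw [h3]
      ext1 i j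
      rw [← Nat.cast_mul, Matrix.smul_apply, Matrix.natCast_apply, Matrix.one_apply, smul_eq_mul]
      split_ifs
      · push_cast
        ring
      · ring
    rw [h1, h2, zero_mul, sub_zero, one_mul]
    have h4 : (2 : R) • (P * P) = (m : R) • P := by
      have := hP
      rw [← Nat.cast_smul_eq_nsmul R, ← Nat.cast_smul_eq_nsmul R] at this
      exact_mod_cast this
    calc ((2 * d₁ : R) • P) * ((2 * d₁ : R) • P - ((d₁ * m : R)) • 1)
        = (2 * d₁ * d₁ : R) • ((2 : R) • (P * P) - (m : R) • P) := by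
          rw [mul_sub, Matrix.smul_mul, Matrix.mul_smul, Matrix.smul_mul, Matrix.mul_smul,
            Matrix.mul_one, smul_sub, smul_smul, smul_smul, smul_smul, smul_smul]
          congr 1
          · congr 1
            ring
          · congr 1
            ring
      _ = 0 := by rw [h4, sub_self, smul_zero]

lemma vfam_map {R k : Type*} [CommRing R] [CommRing k] (φ : R →+* k) (d₀ d₁ : ℕ)
    (b : Fin r → ℕ) (P : Matrix (Fin r) (Fin r) R) (i j : Fin r) :
    (vfam d₀ d₁ b P i j).map φ = (if i = j then Polynomial.C (((d₀ * b i : ℕ) : k)) *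
      (Polynomial.X - 1) else 0) + Polynomial.C ((d₁ : k) * φ (P i j)) * Polynomial.X := by
  unfold vfam
  rw [Matrix.of_apply, Polynomial.map_add, Polynomial.map_mul, Polynomial.map_C,
    Polynomial.map_X]
  congr 1
  · split_ifs
    · rw [Polynomial.map_mul, Polynomial.map_sub, Polynomial.map_X, Polynomial.map_one,
        Polynomial.map_C, map_natCast]
    · exact Polynomial.map_zero φ
  · rw [map_mul, map_natCast]

lemma Aps_vfam {R₀ K : Type*} [CommRing R₀] [Field K] [CharZero K] (φ : R₀ →+* K)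
    {n₀ m d₀ d₁ : ℕ} (hd : d₀ * n₀ = d₁ * m) (hD : d₀ * n₀ ≠ 0)
    (b : Fin r → ℕ) (P : Matrix (Fin r) (Fin r) R₀) (i j : Fin r) :
    Aps φ (((d₀ * n₀ : ℕ) : K)⁻¹) 1 (vfam d₀ d₁ b P) i j =
      (if i = j then PowerSeries.C (((b i : ℕ) : K) / n₀) else 0) +
        PowerSeries.C (φ (P i j) / m) * (PowerSeries.X * wg K) := by
  have hd₀ : (d₀ : K) ≠ 0 := by exact_mod_cast (Nat.mul_ne_zero_iff.mp hD).1
  have hn₀ : (n₀ : K) ≠ 0 := by exact_mod_cast (Nat.mul_ne_zero_iff.mp hD).2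
  have hD' : d₁ * m ≠ 0 := hd ▸ hD
  have hd₁ : (d₁ : K) ≠ 0 := by exact_mod_cast (Nat.mul_ne_zero_iff.mp hD').1
  have hm : (m : K) ≠ 0 := by exact_mod_cast (Nat.mul_ne_zero_iff.mp hD').2
  rw [Aps_apply, vfam_map, pow_one]
  have h1 : (((if i = j then Polynomial.C (((d₀ * b i : ℕ) : K)) * (Polynomial.X - 1) else 0) +
      Polynomial.C ((d₁ : K) * φ (P i j)) * Polynomial.X : Polynomial K) : PowerSeries K) =
      (if i = j then PowerSeries.C (((d₀ * b i : ℕ) : K)) * (PowerSeries.X - 1) else 0) +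
        PowerSeries.C ((d₁ : K) * φ (P i j)) * PowerSeries.X := by
    rw [Polynomial.coe_add, Polynomial.coe_mul, Polynomial.coe_C, Polynomial.coe_X]
    congr 1
    split_ifs
    · rw [Polynomial.coe_mul, Polynomial.coe_C, Polynomial.coe_sub, Polynomial.coe_X,
        Polynomial.coe_one]
    · exact Polynomial.coe_zero
  rw [h1]
  have h2 : PowerSeries.C (((d₀ * n₀ : ℕ) : K)⁻¹) * PowerSeries.C ((d₁ : K) * φ (P i j)) =
      PowerSeries.C (φ (P i j) / m) := by
    rw [← map_mul, hd]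
    congr 1
    push_cast
    field_simp
  have h3 := X_sub_one_mul_wg (R := K)
  split_ifs
  · have h4 : PowerSeries.C (((d₀ * n₀ : ℕ) : K)⁻¹) * PowerSeries.C (((d₀ * b i : ℕ) : K)) =
        PowerSeries.C (((b i : ℕ) : K) / n₀) := by
      rw [← map_mul]
      congr 1
      push_cast
      field_simp
    rw [← h2, ← h4]
    linear_combination (PowerSeries.C (((d₀ * n₀ : ℕ) : K)⁻¹) *
      PowerSeries.C (((d₀ * b i : ℕ) : K))) * h3
  · rw [← h2]
    ring

lemma coeff_Aps_vfam {R₀ K : Type*} [CommRing R₀] [Field K] [CharZero K] (φ : R₀ →+* K)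
    {n₀ m d₀ d₁ : ℕ} (hd : d₀ * n₀ = d₁ * m) (hD : d₀ * n₀ ≠ 0)
    (b : Fin r → ℕ) (P : Matrix (Fin r) (Fin r) R₀) (i j : Fin r) (s : ℕ) :
    PowerSeries.coeff s (Aps φ (((d₀ * n₀ : ℕ) : K)⁻¹) 1 (vfam d₀ d₁ b P) i j) =
      if s = 0 then (if i = j then ((b i : ℕ) : K) / n₀ else 0) else -(φ (P i j) / m) := by
  rw [Aps_vfam φ hd hD, map_add, PowerSeries.coeff_C_mul, coeff_X_mul_wg]
  by_cases hs : s = 0
  · subst hs
    rw [if_pos rfl, if_pos rfl, mul_zero, add_zero]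
    split_ifs
    · rw [PowerSeries.coeff_C, if_pos rfl]
    · rw [map_zero]
  · rw [if_neg hs, if_neg hs]
    have h1 : PowerSeries.coeff s (if i = j then PowerSeries.C (((b i : ℕ) : K) / n₀) else 0) =
        0 := by
      split_ifs
      · rw [PowerSeries.coeff_C, if_neg hs]
      · rw [map_zero]
    rw [h1]
    ring

/-- Exponents in `p ^ (-k) ℤ` which differ by less than one: different ones do not differ by
`p`-integral numbers. -/
lemma numClass_pow {p k : ℕ} (hp : p.Prime) {b : Fin r → ℕ} (hb : ∀ i, b i < p ^ k) :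
    numClass (fun i => (b i : ℚ) / ((p ^ k : ℕ) : ℚ)) p ≤ 1 := by
  unfold numClass
  refine Finset.sup_le fun i _ => ?_
  rw [Finset.card_le_one]
  have hpk : (0 : ℚ) < ((p ^ k : ℕ) : ℚ) := by exact_mod_cast pow_pos hp.pos k
  have key : ∀ x ∈ (univ.image fun i => (b i : ℚ) / ((p ^ k : ℕ) : ℚ)).filter
      (fun x => ¬ p ∣ (x - (b i : ℚ) / ((p ^ k : ℕ) : ℚ)).den),
      x = (b i : ℚ) / ((p ^ k : ℕ) : ℚ) := by
    intro x hx
    rw [Finset.mem_filter, Finset.mem_image] at hx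
    obtain ⟨⟨j, _, rfl⟩, h2⟩ := hx
    have h3 : (b j : ℚ) / ((p ^ k : ℕ) : ℚ) - (b i : ℚ) / ((p ^ k : ℕ) : ℚ) =
        (((b j : ℤ) - b i : ℤ) : ℚ) / ((p ^ k : ℕ) : ℚ) := by
      push_cast
      ring
    rw [h3] at h2
    have h4 : ((((b j : ℤ) - b i : ℤ) : ℚ) / ((p ^ k : ℕ) : ℚ)).den ∣ p ^ k := by
      have h := Rat.den_dvd ((b j : ℤ) - b i) ((p ^ k : ℕ) : ℤ)
      rw [Rat.divInt_eq_div] at h
      push_cast at h ⊢
      exact_mod_cast h
    obtain ⟨l, -, hl⟩ := (Nat.dvd_prime_pow hp).mp h4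
    have h5 : l = 0 := by
      by_contra h
      apply h2
      rw [hl]
      exact dvd_pow_self p h
    rw [h5, pow_zero] at hl
    set q : ℚ := (((b j : ℤ) - b i : ℤ) : ℚ) / ((p ^ k : ℕ) : ℚ) with hq
    have h6 : (q.num : ℚ) = q := Rat.coe_int_num_of_den_eq_one hl
    have h7 : |q| < 1 := by
      rw [hq, abs_div, abs_of_pos hpk, div_lt_one hpk]
      have h8 : |((b j : ℤ) - b i)| < ((p ^ k : ℕ) : ℤ) := by
        rw [abs_lt]
        have h9 := hb i
        have h10 := hb j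
        constructor <;> omega
      exact_mod_cast h8
    rw [← h6] at h7
    have h8 : |q.num| < 1 := by exact_mod_cast h7
    have h9 : q.num = 0 := Int.abs_lt_one_iff.mp h8
    rw [h9, Int.cast_zero] at h6
    rw [← h6] at h3
    linarith
  intro x hx y hy
  rw [key x hx, key y hy]

lemma numExp_le {n₀ : ℕ} {b : Fin r → ℕ} (hb : ∀ i, b i < n₀) :
    numExp (fun i => (b i : ℚ) / (n₀ : ℚ)) ≤ n₀ := by
  unfold numExp
  have h2 : (univ.image fun i => (b i : ℚ) / (n₀ : ℚ)) ⊆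
      (range n₀).image fun x : ℕ => (x : ℚ) / n₀ := by
    intro x hx
    rw [Finset.mem_image] at hx ⊢
    obtain ⟨i, -, rfl⟩ := hx
    exact ⟨b i, Finset.mem_range.mpr (hb i), rfl⟩
  exact (Finset.card_le_card h2).trans (Finset.card_image_le.trans (by rw [Finset.card_range]))

lemma numClass_le_numExp (β : Fin r → ℚ) (p : ℕ) : numClass β p ≤ numExp β := by
  unfold numClass numExp
  exact Finset.sup_le fun i _ => Finset.card_le_card (Finset.filter_subset _ _)

lemma outTerm_le (S : Finset ℕ) (E : Set ℕ) (p : ℕ) :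
    outTerm S E p ≤ outTerm S ∅ p + sparseTerm E p := by
  classical
  unfold outTerm sparseTerm
  by_cases h : p.Prime ∧ p ∉ S
  · rw [if_pos h, if_pos h, if_neg (Set.notMem_empty p)]
    have h5 : (1 : ℝ) < (p : ℝ) := by exact_mod_cast h.1.one_lt
    have h6 := Real.log_nonneg h5.le
    have h7 : (0 : ℝ) < (p : ℝ) - 1 := by linarith
    by_cases hE : p ∈ E
    · rw [if_pos hE, if_pos ⟨h.1, hE⟩]
      have : 0 ≤ Real.log p / (p * ((p : ℝ) - 1)) := by positivity
      linarith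
    · rw [if_neg hE, if_neg (fun h' => hE h'.2), add_zero]
  · rw [if_neg h, if_neg h, zero_add]
    split_ifs with h'
    · have h5 : (1 : ℝ) < (p : ℝ) := by exact_mod_cast h'.1.one_lt
      have h6 := Real.log_nonneg h5.le
      have h7 : (0 : ℝ) < (p : ℝ) - 1 := by linarith
      positivity
    · exact le_rfl

lemma summable_outTerm_empty (S : Finset ℕ) : Summable (outTerm S ∅) := by
  refine summable_outTerm S ?_
  have h1 : sparseTerm ∅ = fun _ => (0 : ℝ) := by
    funext p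
    unfold sparseTerm
    rw [if_neg]
    simp
  rw [h1]
  exact summable_zero

lemma tsum_outTerm_le {S : Finset ℕ} {E : Set ℕ} (hE : Summable (sparseTerm E)) {T ε : ℝ}
    (hT : ∑' p : ℕ, outTerm S ∅ p ≤ T) (hε : ∑' p : ℕ, sparseTerm E p ≤ ε) :
    ∑' p : ℕ, outTerm S E p ≤ T + ε := by
  have h1 := (summable_outTerm S hE).tsum_le_tsum (outTerm_le S E)
    ((summable_outTerm_empty S).add hE)
  rw [(summable_outTerm_empty S).tsum_add hE] at h1
  linarith

/-- Uniform algebraicity for the family `b / (n₀ x) + P / (m (x - 1))`. -/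
theorem vfam_uniform {n₀ m d₀ d₁ : ℕ} (hn₀ : 0 < n₀) (hd : d₀ * n₀ = d₁ * m)
    (hD : d₀ * n₀ ≠ 0) {R T ε : ℝ} (hR0 : 0 < R) (hR : VertexRadius n₀ 2 R) {S : Finset ℕ}
    (hS : ∀ p ∈ S, p.Prime) (hDS : ∀ p : ℕ, p.Prime → p ∣ d₀ * n₀ → p ∈ S) (e c : ℕ → ℕ)
    (he : ∀ p ∈ S, ∃ u w : ℕ, ¬ p ∣ u ∧ u * p ^ e p = w * m)
    (hc : ∀ p ∈ S, ∀ (r : ℕ) (b : Fin r → ℕ), (∀ i, b i < n₀) →
      numClass (fun i => (b i : ℚ) / (n₀ : ℚ)) p ≤ c p)
    (hT : ∑' p : ℕ, outTerm S ∅ p ≤ T)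
    (hsum : ∑ p ∈ S, ((e p : ℝ) + c p / ((p : ℝ) - 1)) * Real.log p + n₀ * (T + ε) <
      Real.log R) :
    ∃ M : ℕ, ∀ (K : Type) [Field K] [NumberField K] (r : ℕ) (b : Fin r → ℕ)
      (P : Matrix (Fin r) (Fin r) (𝓞 K)), (∀ i, b i < n₀) → 2 • (P * P) = m • P →
      ∀ E : Set ℕ, Summable (sparseTerm E) → ∑' p : ℕ, sparseTerm E p ≤ ε →
      (∀ p : ℕ, p.Prime → p ∉ S → p ∉ E → (Ideal.span {(p : 𝓞 K)}).IsRadical ∧
        ∀ (𝔭 : Ideal (𝓞 K)) [𝔭.IsMaximal], (p : 𝓞 K) ∈ 𝔭 →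
          PCurvZeroAt 𝔭 (d₀ * n₀) 1 (vfam d₀ d₁ b P)) →
      AlgebraicOfDegree (sysG (algebraMap (𝓞 K) K) (d₀ * n₀) 1 (vfam d₀ d₁ b P)) M := by
  classical
  obtain ⟨M, hM⟩ := vertex_criterion hn₀ (by norm_num : 0 < 2) hR0 hR hsum
  refine ⟨M, ?_⟩
  intro K _ _ r b P hb hP E hE hEε hgood
  have hn₀Q : (0 : ℚ) < n₀ := by exact_mod_cast hn₀
  have hA : ∀ i l, PowerSeries.coeff 0 (Aps (algebraMap (𝓞 K) K)
      (((d₀ * n₀ : ℕ) : K)⁻¹) 1 (vfam d₀ d₁ b P) i l) =
        if i = l then (((b i : ℚ) / (n₀ : ℚ) : ℚ) : K) else 0 := by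
    intro i l
    rw [coeff_Aps_vfam _ hd hD, if_pos rfl]
    split_ifs
    · push_cast
      rfl
    · rfl
  have hgap : ∀ i j, |(b i : ℚ) / (n₀ : ℚ) - (b j : ℚ) / (n₀ : ℚ)| < 1 := by
    intro i j
    rw [← sub_div, abs_div, abs_of_pos hn₀Q, div_lt_one hn₀Q, abs_lt]
    have h1 : (b i : ℚ) < n₀ := by exact_mod_cast hb i
    have h2 : (b j : ℚ) < n₀ := by exact_mod_cast hb j
    have h3 : (0 : ℚ) ≤ b i := by positivity
    have h4 : (0 : ℚ) ≤ b j := by positivity
    constructor <;> linarith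
  have hβ : ∀ (s : ℕ) i j, s ≠ 0 →
      (s : K) + (((b j : ℚ) / (n₀ : ℚ) : ℚ) : K) - (((b i : ℚ) / (n₀ : ℚ) : ℚ) : K) ≠ 0 := by
    intro s i j hs h
    have h1 : (s : ℚ) + (b j : ℚ) / (n₀ : ℚ) - (b i : ℚ) / (n₀ : ℚ) = 0 := by
      have h2 : (((s : ℚ) + (b j : ℚ) / (n₀ : ℚ) - (b i : ℚ) / (n₀ : ℚ) : ℚ) : K) =
          ((0 : ℚ) : K) := by
        push_cast at h ⊢
        exact h
      exact_mod_cast h2
    have h3 := (abs_lt.mp (hgap i j)).2
    have h4 : (1 : ℚ) ≤ s := by exact_mod_cast Nat.one_le_iff_ne_zero.mpr hs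
    linarith
  obtain ⟨U, hU0, hU⟩ := exists_U (K := K) (β := fun i => (((b i : ℚ) / (n₀ : ℚ) : ℚ) : K)) hA hβ
  refine hM K r (d₀ * n₀) (vfam d₀ d₁ b P) (fun i => (b i : ℚ) / (n₀ : ℚ)) U hD
    ⟨?_, fun i j => hU j i⟩ (vfam_type hd hb hP) S hS hDS E hE
    (fun p => (e p : ℝ) + c p / ((p : ℝ) - 1)) ?_ ?_ hgood ?_
  · rw [hU0, Matrix.det_one]
    exact one_ne_zero
  · intro p hp
    have h5 : (1 : ℝ) < (p : ℝ) := by exact_mod_cast (hS p hp).one_lt
    have h7 : (0 : ℝ) < (p : ℝ) - 1 := by linarith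
    positivity
  · intro p hp
    refine Or.inr ⟨e p, ?_, fun s i j hs => ?_⟩
    · have h1 : ((numClass (fun i => (b i : ℚ) / (n₀ : ℚ)) p : ℕ) : ℝ) ≤ c p := by
        exact_mod_cast hc p hp r b hb
      have h5 : (1 : ℝ) < (p : ℝ) := by exact_mod_cast (hS p hp).one_lt
      have h7 : (0 : ℝ) < (p : ℝ) - 1 := by linarith
      have h8 := div_le_div_of_nonneg_right h1 h7.le
      linarith
    · rw [hU0, inv_one, one_mul, mul_one, Matrix.map_apply, coeff_Aps_vfam _ hd hD, if_neg hs]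
      obtain ⟨u, w, hu, huw⟩ := he p hp
      refine ⟨u, hu, ?_⟩
      have hm0 : m ≠ 0 := by
        have hD' : d₁ * m ≠ 0 := hd ▸ hD
        exact (Nat.mul_ne_zero_iff.mp hD').2
      have hmK : (m : K) ≠ 0 := by exact_mod_cast hm0
      have h1 : (u : K) * (p : K) ^ e p * -(algebraMap (𝓞 K) K (P i j) / m) =
          algebraMap (𝓞 K) K (-((w : 𝓞 K) * P i j)) := by
        have h2 : (u : K) * (p : K) ^ e p = w * m := by exact_mod_cast congrArg (Nat.cast : ℕ → K) huw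
        rw [h2, map_neg, map_mul, map_natCast]
        field_simp
      rw [h1]
      exact RingOfIntegers.isIntegral_coe _
  · unfold defect
    have h2 : ((numExp (fun i => (b i : ℚ) / (n₀ : ℚ)) : ℕ) : ℝ) ≤ n₀ := by
      exact_mod_cast numExp_le hb
    have h3 := tsum_outTerm_le hE hT hEε
    have h5 : (0 : ℝ) ≤ ∑' p : ℕ, outTerm S E p := tsum_nonneg (outTerm_nonneg S E)
    have h6 : ((numExp (fun i => (b i : ℚ) / (n₀ : ℚ)) : ℕ) : ℝ) * ∑' p : ℕ, outTerm S E p ≤
        n₀ * (T + ε) := mul_le_mul h2 h3 h5 (by positivity)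
    linarith

end fam

end Pool.Agent.H925
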