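import Pool.Agent.H925.VertFam
import Pool.Agent.H925.VertRad

set_option autoImplicit false

open Finset NumberField

namespace Pool.Agent.H925

open Pool.Agent.Helper338PC

lemma tsum_out_two : ∑' p : ℕ, outTerm {2} ∅ p ≤ 0.4183 := by
  have h1 : ∀ p : ℕ, outTerm {2} ∅ p = outTerm {2, 3} ∅ p +
      (if p = 3 then Real.log 3 / 6 else 0) := by
    intro p
    by_cases hp : p.Prime
    · by_cases h2 : p = 2
      · subst h2
        rw [outTerm_two, out_two, if_neg (by norm_num), add_zero]
      · by_cases h3 : p = 3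
        · subst h3
          rw [outTerm_prime hp h2, out_three, if_pos rfl, zero_add]
          norm_num
        · rw [outTerm_prime hp h2, out_prime hp h2 h3, if_neg h3, add_zero]
    · rw [out_not_prime hp, out_not_prime hp, if_neg, add_zero]
      rintro rfl
      exact hp Nat.prime_three
  have h2 : Summable fun p : ℕ => if p = 3 then Real.log 3 / 6 else (0 : ℝ) :=
    (hasSum_ite_eq 3 (Real.log 3 / 6)).summable
  have h3 : ∑' p : ℕ, outTerm {2} ∅ p = ∑' p : ℕ, outTerm {2, 3} ∅ p + Real.log 3 / 6 := by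
    rw [tsum_congr h1, (summable_outTerm_empty {2, 3}).tsum_add h2, tsum_ite_eq]
  rw [h3]
  have h4 := tsum_out_six
  have h5 : Real.log 3 ≤ 65 / 41 * Real.log 2 := by
    have := log_le_of_pow (p := 3) (a := 41) (b := 65) (by norm_num) (by norm_num) (by norm_num)
    exact_mod_cast this
  have h6 := Real.log_two_lt_d9
  linarith

lemma log_ge_of_pow' {x : ℝ} {a b : ℕ} (ha : 0 < a) (h : (2 : ℝ) ^ b ≤ x ^ a) :
    (b : ℝ) / a * Real.log 2 ≤ Real.log x := by
  have h1 : Real.log ((2 : ℝ) ^ b) ≤ Real.log (x ^ a) := Real.log_le_log (by positivity) h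
  rw [Real.log_pow, Real.log_pow] at h1
  have ha' : (0 : ℝ) < a := by exact_mod_cast ha
  rw [div_mul_eq_mul_div, div_le_iff₀ ha']
  linarith

/-- The class of type `(2, 3, 12)`. -/
theorem fam_three_two :
    ∃ M : ℕ, ∀ (K : Type) [Field K] [NumberField K] (r : ℕ) (b : Fin r → ℕ)
      (P : Matrix (Fin r) (Fin r) (𝓞 K)), (∀ i, b i < 3) → P * P = 2 • P →
      ∀ E : Set ℕ, Summable (sparseTerm E) → ∑' p : ℕ, sparseTerm E p ≤ 1 / 16 →
      (∀ p : ℕ, p.Prime → p ≠ 2 → p ≠ 3 → p ∉ E → (Ideal.span {(p : 𝓞 K)}).IsRadical ∧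
        ∀ (𝔭 : Ideal (𝓞 K)) [𝔭.IsMaximal], (p : 𝓞 K) ∈ 𝔭 →
          PCurvZeroAt 𝔭 12 1 (vfam 4 3 b P)) →
      AlgebraicOfDegree (sysG (algebraMap (𝓞 K) K) 12 1 (vfam 4 3 b P)) M := by
  obtain ⟨M, hM⟩ := vfam_uniform (n₀ := 3) (m := 4) (d₀ := 4) (d₁ := 3) (by norm_num)
    (by norm_num) (by norm_num) (R := 137) (T := 0.2351) (ε := 1 / 16) (by norm_num)
    vr_three_two (S := {2, 3}) (by
      intro p hp
      simp only [Finset.mem_insert, Finset.mem_singleton] at hp
      rcases hp with rfl | rfl <;> norm_num) (by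
      intro p hp hd
      have h1 : p ∣ 2 ^ 2 * 3 := by simpa using hd
      rcases (hp.dvd_mul).mp h1 with h | h
      · simp [(Nat.prime_dvd_prime_iff_eq hp Nat.prime_two).mp (hp.dvd_of_dvd_pow h)]
      · simp [(Nat.prime_dvd_prime_iff_eq hp Nat.prime_three).mp h])
    (fun p => if p = 2 then 2 else 0) (fun p => if p = 2 then 3 else 1) (by
      intro p hp
      simp only [Finset.mem_insert, Finset.mem_singleton] at hp
      rcases hp with rfl | rfl
      · exact ⟨1, 1, by norm_num, by norm_num⟩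
      · exact ⟨4, 1, by norm_num, by norm_num⟩) (by
      intro p hp r b hb
      simp only [Finset.mem_insert, Finset.mem_singleton] at hp
      rcases hp with rfl | rfl
      · rw [if_pos rfl]
        exact (numClass_le_numExp _ _).trans (numExp_le hb)
      · rw [if_neg (by norm_num)]
        have h1 := numClass_pow (k := 1) Nat.prime_three (b := b) (by simpa using hb)
        simpa using h1) tsum_out_six (by
      rw [Finset.sum_pair (by norm_num)]
      have h1 := Real.log_two_lt_d9
      have h2 := Real.log_two_gt_d9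
      have h3 : Real.log 3 ≤ 65 / 41 * Real.log 2 := by
        have := log_le_of_pow (p := 3) (a := 41) (b := 65) (by norm_num) (by norm_num)
          (by norm_num)
        exact_mod_cast this
      have h4 : (78 : ℝ) / 11 * Real.log 2 ≤ Real.log 137 := by
        have := log_ge_of_pow' (x := 137) (a := 11) (b := 78) (by norm_num) (by norm_num)
        exact_mod_cast this
      norm_num
      linarith)
  refine ⟨M, ?_⟩
  intro K _ _ r b P hb hP E hE hEε hgood
  refine hM K r b P hb ?_ E hE hEε ?_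
  · rw [hP, smul_smul]
    rfl
  · intro p hp hpS hpE
    simp only [Finset.mem_insert, Finset.mem_singleton, not_or] at hpS
    exact hgood p hp hpS.1 hpS.2 hpE

/-- The class of type `(2, 4, 8)`. -/
theorem fam_four_two :
    ∃ M : ℕ, ∀ (K : Type) [Field K] [NumberField K] (r : ℕ) (b : Fin r → ℕ)
      (P : Matrix (Fin r) (Fin r) (𝓞 K)), (∀ i, b i < 4) → P * P = 4 • P →
      ∀ E : Set ℕ, Summable (sparseTerm E) → ∑' p : ℕ, sparseTerm E p ≤ 1 / 70 →
      (∀ p : ℕ, p.Prime → p ≠ 2 → p ∉ E → (Ideal.span {(p : 𝓞 K)}).IsRadical ∧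
        ∀ (𝔭 : Ideal (𝓞 K)) [𝔭.IsMaximal], (p : 𝓞 K) ∈ 𝔭 →
          PCurvZeroAt 𝔭 8 1 (vfam 2 1 b P)) →
      AlgebraicOfDegree (sysG (algebraMap (𝓞 K) K) 8 1 (vfam 2 1 b P)) M := by
  obtain ⟨M, hM⟩ := vfam_uniform (n₀ := 4) (m := 8) (d₀ := 2) (d₁ := 1) (by norm_num)
    (by norm_num) (by norm_num) (R := 91) (T := 0.4183) (ε := 1 / 70) (by norm_num)
    vr_four_two (S := {2}) (by
      intro p hp
      simp only [Finset.mem_singleton] at hp
      rw [hp]
      norm_num) (by
      intro p hp hd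
      have h1 : p ∣ 2 ^ 3 := by simpa using hd
      simp [(Nat.prime_dvd_prime_iff_eq hp Nat.prime_two).mp (hp.dvd_of_dvd_pow h1)])
    (fun _ => 3) (fun _ => 1) (by
      intro p hp
      simp only [Finset.mem_singleton] at hp
      rw [hp]
      exact ⟨1, 1, by norm_num, by norm_num⟩) (by
      intro p hp r b hb
      simp only [Finset.mem_singleton] at hp
      subst hp
      have h1 := numClass_pow (k := 2) Nat.prime_two (b := b) (by simpa using hb)
      simpa using h1) tsum_out_two (by
      rw [Finset.sum_singleton]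
      have h1 := Real.log_two_lt_d9
      have h2 := Real.log_two_gt_d9
      have h4 : (13 : ℝ) / 2 * Real.log 2 ≤ Real.log 91 := by
        have := log_ge_of_pow' (x := 91) (a := 2) (b := 13) (by norm_num) (by norm_num)
        exact_mod_cast this
      norm_num
      linarith)
  refine ⟨M, ?_⟩
  intro K _ _ r b P hb hP E hE hEε hgood
  refine hM K r b P hb ?_ E hE hEε ?_
  · rw [hP, smul_smul]
    rfl
  · intro p hp hpS hpE
    simp only [Finset.mem_singleton] at hpS
    exact hgood p hp hpS hpE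

end Pool.Agent.H925
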